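import Pool.Agent.MP_19ffc6_ag.perf.Up

/-! PROJECT PERF, module VIRT, first part: duality, inertia groups and their characters. -/

namespace Pool.Agent.MP_19ffc6_ag.Perf

open Pool.Agent.R72.Wild Pool.Agent.R72.Lci Pool.Agent.R72.Res Pool.Agent.R72.Res.Tor
  Pool.Agent.R72.Res.B Pool.Agent.R72.Res.P Pool.Agent.R72.Res.Lab

/-- Duality for a group of characters of finite exponent of a lattice. -/
lemma dual_sup {k X : Type} [Field k] [IsAlgClosed k] {r n : ℕ} (hn : (n : k) ≠ 0) (P : X → Prop)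
    (χ : X → (Fin r → ℤ) → k) (h1 : ∀ x, P x → ∀ c c', χ x (c + c') = χ x c * χ x c')
    (h2 : ∀ x, P x → ∀ c, χ x c ^ n = 1) (h0 : ∃ x, P x ∧ ∀ c, χ x c = 1)
    (hm : ∀ x y, P x → P y → ∃ w, P w ∧ ∀ c, χ w c = χ x c * χ y c)
    (U : AddSubgroup (Fin r → ℤ)) (c : Fin r → ℤ)
    (h : ∀ x, P x → (∀ u ∈ U, χ x u = 1) → χ x c = 1) :
    ∃ u ∈ U, ∀ x, P x → χ x (c - u) = 1 := by
  have hn0 : n ≠ 0 := fun e => hn (by simp [e])
  let A := Multiplicative (Fin r → ℤ)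
  let H : Subgroup A := (powMonoidHom n : A →* A).range
  have hp : ∀ g : A ⧸ H, g ^ n = 1 := fun g => by
    obtain ⟨a, rfl⟩ := QuotientGroup.mk_surjective g
    rw [← QuotientGroup.mk_pow, QuotientGroup.eq_one_iff]
    exact ⟨a, rfl⟩
  have : Finite (A ⧸ H) := CommGroup.finite_of_fg_isMulTorsion _ fun g =>
    isOfFinOrder_iff_pow_eq_one.2 ⟨n, Nat.pos_of_ne_zero hn0, hp g⟩
  have : NeZero (n : k) := ⟨hn⟩
  have : NeZero n := ⟨hn0⟩
  have : HasEnoughRootsOfUnity k (Monoid.exponent (A ⧸ H)) :=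
    HasEnoughRootsOfUnity.of_dvd k (Monoid.exponent_dvd_of_forall_pow_eq_one hp)
  let π : (Fin r → ℤ) → A ⧸ H := fun c => QuotientGroup.mk (Multiplicative.ofAdd c)
  let T0 : Submonoid ((A ⧸ H) →* kˣ) :=
    { carrier := {φ | ∃ x, P x ∧ ∀ c, (φ (π c) : k) = χ x c}
      one_mem' := let ⟨x, a, b⟩ := h0; ⟨x, a, fun c => by simp [b]⟩
      mul_mem' := by
        rintro φ ψ ⟨x, a, b⟩ ⟨y, a', b'⟩
        obtain ⟨w, e, e'⟩ := hm x y a a'
        exact ⟨w, e, fun c => by simp [e', b, b']⟩ }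
  let T : Subgroup ((A ⧸ H) →* kˣ) :=
    { T0 with
      inv_mem' := fun {φ} hφ => by
        have e : φ⁻¹ = φ ^ (n - 1) := by
          refine MonoidHom.ext fun g => ?_
          rw [MonoidHom.inv_apply, MonoidHom.pow_apply, inv_eq_iff_mul_eq_one, ← pow_succ',
            Nat.sub_add_cancel (Nat.pos_of_ne_zero hn0), ← map_pow, hp, map_one]
        exact e ▸ T0.pow_mem hφ _ }
  have hf : ∀ x, P x → ∃ φ ∈ T, ∀ c, (φ (π c) : k) = χ x c := fun x hx => by
    have hu : ∀ c, χ x c ≠ 0 := fun c e => by simpa [e, hn0] using h2 x hx c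
    have hz : χ x 0 = 1 := mul_left_cancel₀ (hu 0) (by rw [← h1 x hx, add_zero, mul_one])
    let ψ : A →* kˣ :=
      { toFun := fun a => Units.mk0 (χ x a.toAdd) (hu _)
        map_one' := Units.ext hz
        map_mul' := fun a b => Units.ext (h1 x hx _ _) }
    refine ⟨QuotientGroup.lift H ψ ?_, ⟨x, hx, fun c => rfl⟩, fun c => rfl⟩
    rintro _ ⟨a, rfl⟩
    rw [MonoidHom.mem_ker, powMonoidHom_apply, map_pow]
    exact Units.ext (h2 x hx _)
  let Φ := CommGroup.subgroupOrderIsoSubgroupMonoidHom (A ⧸ H) k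
  let B : Subgroup (A ⧸ H) := (AddSubgroup.toSubgroup U).map (QuotientGroup.mk' H)
  have key : π c ∈ Φ.symm (OrderDual.toDual T) ⊔ B := by
    refine (CommGroup.forall_monoidHom_apply_eq_one_iff k _ _).1 fun φ hφ => ?_
    have h3 : φ ∈ (Φ (Φ.symm (OrderDual.toDual T))).ofDual :=
      (CommGroup.mem_subgroupOrderIsoSubgroupMonoidHom_iff _ _ _).2 fun g hg =>
        hφ g (Subgroup.mem_sup_left hg)
    rw [OrderIso.apply_symm_apply] at h3
    obtain ⟨x, hx, e⟩ := h3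
    refine Units.ext ((e c).trans (h x hx fun u hu => (e u).symm.trans ?_))
    rw [hφ (π u) (Subgroup.mem_sup_right ⟨Multiplicative.ofAdd u, hu, rfl⟩), Units.val_one]
  obtain ⟨a, ha, _, ⟨u, hu, rfl⟩, e⟩ := Subgroup.mem_sup.1 key
  refine ⟨u.toAdd, hu, fun x hx => ?_⟩
  obtain ⟨φ, hφ, e'⟩ := hf x hx
  have h4 : π (c - u.toAdd) = a := by
    rw [eq_mul_inv_of_mul_eq e]
    simp [π, sub_eq_add_neg, ofAdd_add, ofAdd_neg]
  rw [← e', h4, (CommGroup.mem_subgroupOrderIsoSubgroupMonoidHom_symm_iff _ _ _).1 ha φ hφ,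
    Units.val_one]

variable {k L : Type} [Field k] [Field L] [Algebra k L]

/-- `g` lies in the inertia group of `O` over `K₀`. -/
def In (K₀ : Subfield L) (O : Subalgebra k L) (g : SA k L) : Prop :=
  Fx K₀ g ∧ g • O = O ∧ ∀ x ∈ O, ¬ Un O (g • x - x)

/-- `g` fixes the constants. -/
def Lin (g : SA k L) : Prop := ∀ c : k, g • algebraMap k L c = algebraMap k L c

/-- `x` lies in the maximal ideal of `O`. -/
def Nu (O : Subalgebra k L) (x : L) : Prop := x ∈ O ∧ ¬ Un O x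

variable {K₀ : Subfield L} {N : IntermediateField k L} {O O' D : Subalgebra k L} {g h : SA k L}
  {x y u v : L} {M : Submodule k L}

lemma Nu.zero (O : Subalgebra k L) : Nu O 0 := ⟨zero_mem _, fun h => h.2.1 rfl⟩

lemma Nu.add (hl : Lcl O) (hx : Nu O x) (hy : Nu O y) : Nu O (x + y) :=
  ⟨add_mem hx.1 hy.1, fun h => (hl x hx.1 y hy.1 h).elim hx.2 hy.2⟩

lemma Nu.mul (hx : Nu O x) (hy : y ∈ O) : Nu O (x * y) :=
  ⟨mul_mem hx.1 hy, fun h => hx.2 (Un.of_mul hx.1 hy h)⟩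

lemma Nu.mul' (hx : Nu O x) (hy : y ∈ O) : Nu O (y * x) := mul_comm x y ▸ hx.mul hy

lemma Nu.neg (hx : Nu O x) : Nu O (-x) := by simpa using hx.mul (neg_mem (one_mem O))

lemma Nu.sub (hl : Lcl O) (hx : Nu O x) (hy : Nu O y) : Nu O (x - y) :=
  sub_eq_add_neg x y ▸ hx.add hl hy.neg

lemma Nu.un (hl : Lcl O) (hx : Nu O (x - u)) (hu : Un O u) : Un O x := by
  by_contra H
  have h1 : Nu O x := ⟨by simpa using add_mem hx.1 hu.1, H⟩
  exact (h1.sub hl hx).2 (by simpa using hu)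

lemma Nu.of_mul (hu : Un O u) (hx : Nu O (u * x)) : Nu O x := by
  simpa [hu.2.1] using hx.mul' hu.2.2

lemma Nu.of_pow {n : ℕ} (hx : x ∈ O) (h : Nu O (x ^ n)) : Nu O x := ⟨hx, fun hu => h.2 (hu.pow n)⟩

lemma Nu.smul (hx : Nu O x) : Nu (g • O) (g • x) := ⟨smul_mem_sA.2 hx.1, mt P.un_smul.1 hx.2⟩

lemma Nu.mul_sub {a b : L} (hl : Lcl O) (hx : Nu O (x - a)) (hy : Nu O (y - b)) (h1 : x ∈ O)
    (h2 : b ∈ O) : Nu O (x * y - a * b) := by
  have : x * y - a * b = x * (y - b) + (x - a) * b := by ring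
  exact this ▸ (hy.mul' h1).add hl (hx.mul h2)

lemma Nu.pow_sub {a : L} (hl : Lcl O) (hx : Nu O (x - a)) (h1 : x ∈ O) (h2 : a ∈ O) (n : ℕ) :
    Nu O (x ^ n - a ^ n) := by
  induction n with
  | zero => simpa using Nu.zero O
  | succ n ih => rw [pow_succ, pow_succ]; exact ih.mul_sub hl hx (pow_mem h1 n) h2

lemma Nu.alg {c : k} (h : Nu O (algebraMap k L c)) : c = 0 := by_contra fun e => h.2 (un_alg O e)

lemma Lin.one : Lin (1 : SA k L) := fun _ => one_smul _ _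

lemma Lin.mul (a : Lin g) (b : Lin h) : Lin (g * h) := fun c => by rw [mul_smul, b, a]

lemma Lin.inv (a : Lin g) : Lin g⁻¹ := fun c => inv_smul_eq_iff.2 (a c).symm

lemma Lin.pow (a : Lin g) (n : ℕ) : Lin (g ^ n) := by
  induction n with
  | zero => simpa using Lin.one
  | succ n ih => rw [pow_succ]; exact ih.mul a

lemma fx_pow (a : Fx K₀ g) (n : ℕ) : Fx K₀ (g ^ n) := by
  induction n with
  | zero => simpa using Fx.one K₀
  | succ n ih => rw [pow_succ]; exact ih.mul a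

lemma Lin.smul (a : Lin g) (c : k) (x : L) : g • c • x = c • g • x := by
  rw [Algebra.smul_def, Algebra.smul_def, smul_mul', a]

lemma In.mem (a : In K₀ O g) (hx : x ∈ O) : g • x ∈ O := a.2.1 ▸ smul_mem_sA.2 hx

lemma In.un (a : In K₀ O g) (hx : Un O x) : Un O (g • x) := a.2.1 ▸ P.un_smul.2 hx

lemma In.nu (a : In K₀ O g) (hx : Nu O x) : Nu O (g • x) := a.2.1 ▸ hx.smul

lemma In.sub (a : In K₀ O g) (hx : x ∈ O) : Nu O (g • x - x) :=
  ⟨sub_mem (a.mem hx) hx, a.2.2 x hx⟩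

lemma In.lin (a : In K₀ O g) : Lin g := fun c => by
  have := a.sub (O.algebraMap_mem c)
  rw [SA.smul_alg, ← map_sub] at this
  rw [SA.smul_alg, sub_eq_zero.1 this.alg]

lemma In.one (K₀ : Subfield L) (O : Subalgebra k L) : In K₀ O 1 :=
  ⟨.one _, one_smul _ _, fun x _ => by simpa using (Nu.zero O).2⟩

lemma In.mul (hl : Lcl O) (a : In K₀ O g) (b : In K₀ O h) : In K₀ O (g * h) := by
  refine ⟨a.1.mul b.1, by rw [mul_smul, b.2.1, a.2.1], fun x hx => ?_⟩
  have := (a.sub (b.mem hx)).add hl (b.sub hx)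
  rw [sub_add_sub_cancel, ← mul_smul] at this
  exact this.2

lemma In.pow (hl : Lcl O) (a : In K₀ O g) (n : ℕ) : In K₀ O (g ^ n) := by
  induction n with
  | zero => simpa using In.one K₀ O
  | succ n ih => rw [pow_succ]; exact ih.mul hl a

lemma In.conj (a : In K₀ (h • O) g) (b : Fx K₀ h) : In K₀ O (h⁻¹ * g * h) := by
  refine ⟨(b.inv.mul a.1).mul b, by rw [mul_smul, mul_smul, a.2.1, inv_smul_smul], fun x hx => ?_⟩
  have := (a.sub (smul_mem_sA.2 hx)).smul (g := h⁻¹)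
  rw [inv_smul_smul, smul_sub, inv_smul_smul, ← mul_smul, ← mul_smul] at this
  exact this.2

lemma In.of_rt (hl : Lcl O) (hr : Rt O) (a : Fx K₀ g) (b : Lin g) (c : g • O = O) : In K₀ O g := by
  refine ⟨a, c, fun x hx => ?_⟩
  obtain ⟨e, he⟩ := hr x hx
  have h1 : Nu O (x - algebraMap k L e) := ⟨sub_mem hx (O.algebraMap_mem _), he⟩
  have h2 := h1.smul (g := g)
  rw [c, smul_sub, b] at h2
  simpa using (h2.sub hl h1).2

lemma In.congr (a : In K₀ O g) (b : Fx K₀ h) (hN : ∀ x ∈ N, h⁻¹ • x ∈ N) (hO : O ≤ N.toSubalgebra)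
    (e : ∀ x ∈ N, g • x = h • x) : In K₀ O h := by
  refine ⟨b, le_antisymm (sA_le_iff.2 fun x hx => e x (hO hx) ▸ a.mem hx) fun x hx => ?_,
    fun x hx => e x (hO hx) ▸ a.2.2 x hx⟩
  have h1 : g • h⁻¹ • x ∈ g • O := by rw [e _ (hN x (hO hx)), smul_inv_smul, a.2.1]; exact hx
  exact mem_sA.2 (smul_mem_sA.1 h1)

/-- `g` multiplies `u` by a unit with residue one. -/
def Tv (O : Subalgebra k L) (g : SA k L) (u : L) : Prop := Nu O (g • u / u - 1)

lemma In.quot_un (a : In K₀ O g) (hu : Un O u) : Tv O g u := by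
  have : g • u / u - 1 = (g • u - u) * u⁻¹ := by field_simp [hu.2.1]
  rw [Tv, this]; exact (a.sub hu.1).mul hu.2.2

lemma quot_mul (g : SA k L) (u v : L) : g • (u * v) / (u * v) = g • u / u * (g • v / v) := by
  rw [smul_mul', div_mul_div_comm]

lemma quot_comp (g h : SA k L) (hu : u ≠ 0) :
    (g * h) • u / u = g • (h • u / u) * (g • u / u) := by
  rw [mul_smul, smul_div₀', div_mul_div_cancel₀ (sm_ne_zero.2 hu)]

/-- The residue of `g u / u` only depends on `u` up to units. -/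
lemma In.quot_congr {a : L} (hl : Lcl O) (hg : In K₀ O g) (hu : Un O (u / v)) (ha : a ∈ O)
    (h : Nu O (g • v / v - a)) : Nu O (g • u / u - a) := by
  have hv : v ≠ 0 := fun e => hu.2.1 (by rw [e, div_zero])
  have h1 := hg.quot_un hu
  have h2 := h1.mul_sub hl h (by simpa using add_mem h1.1 (one_mem O)) ha
  rwa [← quot_mul, div_mul_cancel₀ _ hv, one_mul] at h2

lemma In.quot_pow (hl : Lcl O) (hg : In K₀ O g) (h0 : u ≠ 0) (hu : g • u / u ∈ O) (m : ℕ) :
    (g ^ m) • u / u ∈ O ∧ Nu O ((g ^ m) • u / u - (g • u / u) ^ m) := by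
  induction m with
  | zero => simpa [h0] using Nu.zero O
  | succ m ih =>
    rw [pow_succ', quot_comp _ _ h0, pow_succ]
    refine ⟨mul_mem (hg.mem ih.1) hu, ?_⟩
    have := ((hg.sub ih.1).add hl ih.2).mul hu
    rwa [sub_add_sub_cancel, sub_mul] at this

/-- The characters of an inertia group have order prime to `p`. -/
lemma In.root (p : ℕ) [Fact p.Prime] [CharP k p] {a n : ℕ} (hl : Lcl O) (hg : In K₀ O g)
    (h0 : u ≠ 0) (hu : g • u / u ∈ O) (hm : (g ^ (p ^ a * n)) • u = u) :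
    Nu O ((g • u / u) ^ n - 1) := by
  have : CharP L p := charP_of_injective_algebraMap (algebraMap k L).injective p
  have h1 := (hg.quot_pow hl h0 hu (p ^ a * n)).2.neg
  rw [hm, div_self h0, neg_sub, mul_comm, pow_mul, ← one_pow (p ^ a), ← sub_pow_char_pow] at h1
  exact h1.of_pow (sub_mem (pow_mem hu n) (one_mem O))

/-- Finitely many automorphisms represent all restrictions to `N`. -/
lemma exists_reps (hG : Gw K₀ N) (hM : Mdl N M) : ∃ F : Set (SA k L), F.Finite ∧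
    (∀ g ∈ F, Fx K₀ g ∧ Lin g) ∧ ∀ g : SA k L, Fx K₀ g → Lin g → ∃ g' ∈ F, ∀ x ∈ N, g • x = g' • x := by
  obtain ⟨T, hT0, e⟩ := exists_span hM.fg
  have hT : ∀ t : T, t.1 ∈ M := fun t => e ▸ Submodule.subset_span t.2
  have hf : ((fun (g : SA k L) (t : T) => g • t.1) '' {g | Fx K₀ g ∧ Lin g}).Finite :=
    (Set.Finite.pi' fun t : T => orb_fin k (hG.alg t (hM.le _ (hT t)))).subset (by
      rintro _ ⟨g, hg, rfl⟩ t
      exact ⟨g, hg.1, rfl⟩)
  obtain ⟨F, h1, h2, h3⟩ := Set.Finite.exists_subset_finite_image_eq hf subset_rfl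
  refine ⟨F, h2, fun g hg => h1 hg, fun g a b => ?_⟩
  obtain ⟨g', hg', e'⟩ := h3.ge ⟨g, ⟨a, b⟩, rfl⟩
  refine ⟨g', hg', fun x hx => ?_⟩
  have h4 : ∀ m ∈ M, g • m = g' • m := fun m hm => by
    rw [← e] at hm
    induction hm using Submodule.span_induction with
    | mem t ht => exact (congrFun e' ⟨t, ht⟩).symm
    | zero => simp
    | add a b _ _ ha hb => rw [smul_add, smul_add, ha, hb]
    | smul c a _ ha => rw [b.smul, (h1 hg').2.smul, ha]
  obtain ⟨m, hm, hm0⟩ := Submodule.exists_mem_ne_zero_of_ne_bot hM.ne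
  have h5 : ∀ y ∈ chart ⊥ M m, g • y = g' • y := fun y hy => by
    induction hy using Algebra.adjoin_induction with
    | mem y hy =>
      rcases hy with ⟨c, rfl⟩ | ⟨w, hw, rfl⟩
      · exact (b c).trans ((h1 hg').2 c).symm
      · rw [smul_div₀', smul_div₀', h4 w hw, h4 m hm]
    | algebraMap c => exact (b c).trans ((h1 hg').2 c).symm
    | add a b _ _ ha hb => rw [smul_add, smul_add, ha, hb]
    | mul a b _ _ ha hb => rw [smul_mul', smul_mul', ha, hb]
  obtain ⟨d, hd, hd0, hdx⟩ := hM.frac m hm hm0 x hx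
  have h6 := h5 _ hdx
  rw [smul_mul', smul_mul', h5 d hd] at h6
  exact mul_left_cancel₀ (sm_ne_zero.2 hd0) h6

/-- A common order and the exponent of the tame part. -/
lemma exists_ord (p : ℕ) [Fact p.Prime] [CharP k p] (hG : Gw K₀ N) (hM : Mdl N M) :
    ∃ a n w : ℕ, (n : k) ≠ 0 ∧ p ^ a ∣ w ∧ w ≡ 1 [MOD n] ∧
      ∀ g : SA k L, Fx K₀ g → Lin g → ∀ x ∈ N, (g ^ (p ^ a * n)) • x = x := by
  obtain ⟨F, hF, -, h⟩ := exists_reps hG hM
  obtain ⟨a, n, h1, h2⟩ := Nat.exists_eq_pow_mul_and_not_dvd (F.ncard.factorial_ne_zero) p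
    (Fact.out : p.Prime).ne_one
  have hn : 0 < n := Nat.pos_of_ne_zero fun e => h1 (e ▸ dvd_zero p)
  refine ⟨a, n, (p ^ a) ^ n.totient, (CharP.cast_eq_zero_iff k p n).not.2 h1,
    dvd_pow_self _ (Nat.totient_pos.2 hn).ne', Nat.ModEq.pow_totient
      (((Nat.Prime.coprime_iff_not_dvd Fact.out).2 h1).pow_left a), fun g b c x hx => ?_⟩
  choose f f1 f2 using fun i : ℕ => h (g ^ i) (fx_pow b i) (c.pow i)
  obtain ⟨i, hi, j, hj, hij, e⟩ := Finset.exists_ne_map_eq_of_card_lt_of_maps_to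
    (s := Finset.range (F.ncard + 1)) (t := hF.toFinset)
    (by rw [Finset.card_range, ← Set.ncard_eq_toFinset_card _ hF]; omega)
    (f := f) fun i _ => hF.mem_toFinset.2 (f1 i)
  wlog hlt : i < j generalizing i j
  · exact this j hj i hi hij.symm e.symm (by omega)
  have h3 : ∀ y ∈ N, (g ^ (j - i)) • y = y := fun y hy => by
    have := (f2 j y hy).trans (e ▸ (f2 i y hy).symm)
    rw [show j = i + (j - i) by omega, pow_add, mul_smul] at this
    exact MulAction.injective _ this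
  obtain ⟨d, hd⟩ : j - i ∣ F.ncard.factorial :=
    Nat.dvd_factorial (by omega) (by have := Finset.mem_range.1 hj; omega)
  rw [← h2, hd, pow_mul]
  clear hd
  induction d with
  | zero => simp
  | succ d ih => rw [pow_succ, mul_smul, h3 x hx, ih]

end Pool.Agent.MP_19ffc6_ag.Perf
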