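import Pool.Agent.MP_19ffc6_ag.perf.GD
import Pool.Agent.MP_19ffc6_ag.perf.VirtA

/-! PROJECT PERF, block T: framed points, towers, and the statements of the induction. -/

namespace Pool.Agent.MP_19ffc6_ag.Perf

open Pool.Agent.R72.Wild Pool.Agent.R72.Lci Pool.Agent.R72.Res Pool.Agent.R72.Res.B
  Pool.Agent.R72.Res.Tor Pool.Agent.R72.Res.P

section Defs

variable {k L : Type} [Field k] [Field L] [Algebra k L]

/-- A normal rational point of the field `K` of transcendence degree `n` with a frame. -/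
structure Fr (n : ℕ) (K : IntermediateField k L) (O : Subalgebra k L) (x : Fin n → L) : Prop where
  aff : ∃ D, Aff n K D O
  fr : Frame O x
  mem : ∀ j, x j ∈ K
  nrm : ∀ a ∈ K, IsIntegral O a → a ∈ O

/-- The algebra generated by the monomials that lie in `O`. -/
def mons (O : Subalgebra k L) {n : ℕ} (x : Fin n → L) : Subalgebra k L :=
  Algebra.adjoin k {m | m ∈ O ∧ ∃ c, m = mn x c}

/-- The ideal of the stratum of `W`: it is generated by the monomials that vanish at `W`. -/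
def fI (O W : Subalgebra k L) {n : ℕ} (x : Fin n → L) : Submodule O L :=
  Submodule.span O {m | m ∈ O ∧ ¬ Un W m ∧ ∃ c, m = mn x c}

/-- `g` acts trivially on `O` modulo the centre of `W`. -/
def Inr (g : SA k L) (O W : Subalgebra k L) : Prop := ∀ a ∈ O, ¬ Un W (g • a - a)

/-- The fixed locus of `g` is a union of closed strata. -/
def Strat (g : SA k L) (O : Subalgebra k L) {n : ℕ} (x : Fin n → L) : Prop :=
  ∀ W, Lcl W → O ≤ W → Inr g O W → ∀ a ∈ O, g • a - a ∈ fI O W x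

/-- The first `n` members of a sequence. -/
def xs (x : ℕ → L) (n : ℕ) : Fin n → L := fun j => x j

/-- A flag of framed points. -/
structure Tw (K₀ : Subfield L) (n : ℕ) (F : ℕ → IntermediateField k L)
    (Os : ℕ → Subalgebra k L) (x : ℕ → L) : Prop where
  fr : ∀ i ≤ n, Fr i (F i) (Os i) (xs x i)
  dom : ∀ i < n, Dom (Os i) (Os (i + 1))
  st : ∀ g : SA k L, Fx K₀ g → g • Os n = Os n → ∀ i ≤ n, g • Os i = Os i
  un : ∀ g : SA k L, Fx K₀ g → g • Os n = Os n → ∀ j < n, Un (Os (j + 1)) (g • x j / x j)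
  star : ∀ g : SA k L, Fx K₀ g → g • Os n = Os n → ∀ i ≤ n, Strat g (Os i) (xs x i)

/-- `O` is the top of a flag, the members of `S` are monomials and span all monomials, the
members of `T` are monomials and decided. -/
def TwPt (K₀ : Subfield L) (n : ℕ) (F : ℕ → IntermediateField k L) (S T : Finset L)
    (O : Subalgebra k L) : Prop :=
  ∃ (Os : ℕ → Subalgebra k L) (x : ℕ → L), Os n = O ∧ Tw K₀ n F Os x ∧ Ful S O (xs x n) ∧
    (∀ f ∈ S, LMon O (xs x n) f) ∧ ∀ t ∈ T, LMon O (xs x n) t ∧ (t ∈ O ∨ t⁻¹ ∈ O)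

/-- The field generated by `k₀` and the first `i` variables. -/
def Ek (k₀ : Subfield k) (y : ℕ → L) (i : ℕ) : Subfield L :=
  Subfield.closure (algebraMap k L '' k₀ ∪ y '' {j | j < i})

/-- `f` is fixed by all automorphisms over `K₀`. -/
def Ivt (k : Type) [Field k] [Algebra k L] (K₀ : Subfield L) (f : L) : Prop :=
  ∀ g : SA k L, Fx K₀ g → g • f = f

/-- A stable model all of whose rational points are tops of flags. -/
structure TwM (k₀ : Subfield k) (y : ℕ → L) (n : ℕ) (F : ℕ → IntermediateField k L)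
    (S T : Finset L) (M : Submodule k L) : Prop where
  gw : ∀ i ≤ n, Gw (Ek k₀ y i) (F i)
  fg : ∀ i ≤ n, (F i).FG
  mono : ∀ i < n, F i ≤ F (i + 1)
  deg : Algebra.trdeg k (F n) = n
  inv : ∀ f ∈ S, f ∈ F n ∧ Ivt k (Ek k₀ y n) f
  sub : ∀ t ∈ T, t ∈ F n
  stb : Stb (Ek k₀ y n) M
  mdl : Mdl (F n) M
  pt : ∀ O, Pt ⊥ M O → Rt O → TwPt (Ek k₀ y n) n F S T O

variable (L) in
/-- The inductive statement, weak form: invariant functions become monomials. -/
def Tower0 (k₀ : Subfield k) (n : ℕ) : Prop :=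
  ∀ y : ℕ → L, AlgebraicIndependent k (xs y n) → ∀ Z S₀ : Finset L,
    (∀ z ∈ Z, IsAlgebraic (Ek k₀ y n) z) →
    (∀ f ∈ S₀, f ≠ 0 ∧ IsAlgebraic (Ek k₀ y n) f ∧ Ivt k (Ek k₀ y n) f) →
    ∃ F S M, (∀ z ∈ Z, z ∈ F n) ∧ S₀ ⊆ S ∧ TwM k₀ y n F S ∅ M

variable (L) in
/-- The inductive statement, strong form: any functions become decided monomials. -/
def Tower (k₀ : Subfield k) (n : ℕ) : Prop :=
  ∀ y : ℕ → L, AlgebraicIndependent k (xs y n) → ∀ T : Finset L,
    (∀ t ∈ T, t ≠ 0 ∧ IsAlgebraic (Ek k₀ y n) t) → ∃ F S M, TwM k₀ y n F S T M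

/-- A monomial in the members of `S`. -/
noncomputable def smn (S : Finset L) (e : L → ℤ) : L := ∏ f ∈ S, f ^ e f

/-- `O'` is a point of a normalised blow-up of `O` in monomials in the members of `S`. -/
def Adm (N : IntermediateField k L) (S : Finset L) (O O' : Subalgebra k L) : Prop :=
  Dom O O' ∧ IsPoint (icl N (O ⊔ Algebra.adjoin k {m | m ∈ O' ∧ ∃ e, m = smn S e})) O'

/-- The elements of `N` that are fixed by all automorphisms over `K₀`. -/
def Iv (K₀ : Subfield L) (N : IntermediateField k L) : Subfield L where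
  carrier := {f | f ∈ N ∧ Ivt k K₀ f}
  mul_mem' ha hb := ⟨mul_mem ha.1 hb.1, fun g hg => by rw [smul_mul', ha.2 g hg, hb.2 g hg]⟩
  one_mem' := ⟨one_mem _, fun g _ => smul_one g⟩
  add_mem' ha hb := ⟨add_mem ha.1 hb.1, fun g hg => by rw [smul_add, ha.2 g hg, hb.2 g hg]⟩
  zero_mem' := ⟨zero_mem _, fun g _ => smul_zero g⟩
  neg_mem' ha := ⟨neg_mem ha.1, fun g hg => by rw [smul_neg, ha.2 g hg]⟩
  inv_mem' a ha := ⟨inv_mem ha.1, fun g hg => by rw [smul_inv'', ha.2 g hg]⟩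

lemma mem_Iv {K₀ : Subfield L} {N : IntermediateField k L} {f : L} :
    f ∈ Iv K₀ N ↔ f ∈ N ∧ Ivt k K₀ f := Iff.rfl

lemma fx_Iv {K₀ : Subfield L} {N : IntermediateField k L} (h : ∀ x ∈ K₀, x ∈ N) {g : SA k L} :
    Fx (Iv K₀ N) g ↔ Fx K₀ g :=
  ⟨fun H x hx => H x ⟨h x hx, fun _ hg => hg x hx⟩, fun H _ hx => hx.2 g H⟩

lemma Gw.iv {K₀ : Subfield L} {N : IntermediateField k L} (h : Gw K₀ N) : Gw (Iv K₀ N) N :=
  ⟨fun _ hx => hx.1, fun x hx => by
    have e : K₀ ≤ Iv K₀ N := fun a ha => ⟨h.le a ha, fun _ hg => hg a ha⟩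
    let _ := (Subfield.inclusion e).toAlgebra
    have : IsScalarTower K₀ (Iv K₀ N) L := .of_algebraMap_eq fun _ => rfl
    exact (h.alg x hx).tower_top _, fun g hg => h.st g ((fx_Iv h.le).1 hg)⟩

lemma fI_self (O : Subalgebra k L) {n : ℕ} (x : Fin n → L) : fI O O x = GD.nI O x := rfl

end Defs

section Stmt

variable (k L : Type) [Field k] [Field L] [Algebra k L]

/-! ### Framed points -/

/-- Row MONN: the monomials of a normal ring generate a normal ring. -/
def MonnStmt : Prop :=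
  ∀ (n : ℕ) (K : IntermediateField k L) (B : Subalgebra k L) (x : Fin n → L),
    AlgebraicIndependent k x → (∀ j, x j ∈ K) → (∀ a ∈ K, IsIntegral B a → a ∈ B) →
    IsIntegrallyClosed (mons B x)

/-- Row KIT: independence; every monomial is a quotient of two regular monomials. -/
def KitF : Prop :=
  ∀ (n : ℕ) (K : IntermediateField k L) (O : Subalgebra k L) (x : Fin n → L), Fr n K O x →
    AlgebraicIndependent k x ∧ ∀ c, ∃ e, mn x e ∈ O ∧ mn x (c + e) ∈ O

/-- Row BLOW: normalised monomial blow-ups and roots of monomials. -/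
def BlowStmt : Prop :=
  ∀ (n : ℕ) (K K' : IntermediateField k L) (O O' D' : Subalgebra k L) (x z : Fin n → L),
    Fr n K O x → Aff n K' D' O' → (∀ j, z j ∈ K' ∧ z j ≠ 0) → (∀ j, ∃ c, x j = mn z c) →
    K' ≤ K ⊔ IntermediateField.adjoin k (Set.range z) → Dom O O' →
    IsPoint (icl K' (O ⊔ mons O' z)) O' → Fr n K' O' z ∧ IsPoint (O ⊔ mons O' z) O'

/-- Row POLY: the regular monomials form a polyhedral cone. -/
def PolyStmt : Prop :=
  ∀ (n : ℕ) (K : IntermediateField k L) (D O : Subalgebra k L) (x : Fin n → L), Aff n K D O →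
    (∀ a ∈ K, IsIntegral O a → a ∈ O) → (∀ j, x j ∈ K ∧ x j ≠ 0) →
    ∃ (m : ℕ) (l : Fin m → Fin n → ℤ), ∀ c, mn x c ∈ O ↔ ∀ ρ, 0 ≤ l ρ ⬝ᵥ c

/-- Row TP: a framed point is toroidal. -/
def TpStmt : Prop :=
  ∀ (n : ℕ) (K : IntermediateField k L) (O : Subalgebra k L) (x : Fin n → L), Fr n K O x →
    ∃ (ι : Type) (_ : Fintype ι) (r s : ℕ) (τ : Typ ι r) (z : Fin r → L) (t : Fin s → L),
      TP n O τ z t ∧ (∀ i, ∃ c, z i = mn x c) ∧ (∀ c, LMon O z (mn x c)) ∧
      ∀ c, mn z c ∈ O → c ∈ τ.Reg 0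

/-- Row TRO. -/
def TroStmt : Prop :=
  ∀ (n : ℕ) (K : IntermediateField k L) (O : Subalgebra k L) (x : Fin n → L) (S : Finset L),
    Fr n K O x → Ful S O x → (∀ f ∈ S, LMon O x f) → TroF n S O

/-- Row FACE: the ideals of the strata are prime. -/
def FaceStmt : Prop :=
  ∀ (n : ℕ) (K : IntermediateField k L) (O W : Subalgebra k L) (x : Fin n → L), Fr n K O x →
    Lcl W → O ≤ W → ∀ a ∈ O, ∀ b ∈ O, a * b ∈ fI O W x → a ∈ fI O W x ∨ b ∈ fI O W x

/-- Row DIV: a function with a power that is a monomial, and a divisor of a monomial. -/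
structure DivF : Prop where
  pow : ∀ (n : ℕ) (K : IntermediateField k L) (O : Subalgebra k L) (x : Fin n → L), Fr n K O x →
    ∀ f ∈ K, ∀ N : ℕ, 0 < N → LMon O x (f ^ N) → LMon O x f
  div : ∀ (n : ℕ) (K : IntermediateField k L) (O : Subalgebra k L) (x : Fin n → L), Fr n K O x →
    ∀ f ∈ O, ∀ g ∈ O, LMon O x (f * g) → LMon O x f

/-- Row UZ: the displacements of the monomials generate all displacements. -/
def UzStmt : Prop :=
  ∀ (n : ℕ) (K : IntermediateField k L) (O : Subalgebra k L) (x : Fin n → L) (g : SA k L)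
    (I : Submodule O L), Fr n K O x → Lin g → g • O = O →
    (∀ c, mn x c ∈ O → g • mn x c - mn x c ∈ I) → ∀ a ∈ O, g • a - a ∈ I

/-- Row ADM: admissible points are framed by the same monomials. -/
def AdmStmt : Prop :=
  ∀ (n : ℕ) (N : IntermediateField k L) (S : Finset L) (O O' D' : Subalgebra k L)
    (x : Fin n → L), Fr n N O x → Ful S O x → (∀ f ∈ S, LMon O x f) → Aff n N D' O' →
    Adm N S O O' → Fr n N O' x ∧ IsPoint (O ⊔ mons O' x) O'

/-- Row PERS: fixed loci stay unions of strata under monomial blow-ups. -/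
def PersStmt : Prop :=
  ∀ (n : ℕ) (N : IntermediateField k L) (O O' : Subalgebra k L) (x : Fin n → L) (g : SA k L),
    Fr n N O x → O ≤ O' → IsPoint (O ⊔ mons O' x) O' → g • O = O →
    (∀ j, Un O (g • x j / x j)) → (Lin g → ∃ m, 0 < m ∧ ∀ a ∈ N, g ^ m • a = a) →
    Strat g O x → Strat g O' x

/-! ### The induction -/

/-- Row ORD: linear automorphisms over `K₀` have finite order on a finite stable extension. -/
def OrdStmt : Prop :=
  ∀ (K₀ : Subfield L) (N : IntermediateField k L), (∀ x ∈ N, IsAlgebraic K₀ x) → N.FG →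
    ∃ m, 0 < m ∧ ∀ g : SA k L, Fx K₀ g → Lin g → ∀ a ∈ N, g ^ m • a = a

/-- Row UP: flags persist at admissible points. -/
def UpStmt : Prop :=
  ∀ (k₀ : Subfield k) (y : ℕ → L) (n : ℕ) (F : ℕ → IntermediateField k L) (S T : Finset L)
    (M : Submodule k L) (O O' D' : Subalgebra k L), TwM k₀ y n F S T M → Pt ⊥ M O → Rt O →
    Aff n (F n) D' O' → Adm (F n) S O O' → TwPt (Ek k₀ y n) n F S T O'

/-- Row CMP: finitely many monomials are decided on an admissible modification. The toroidal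
system of the modification is unimodular. -/
def CmpStmt : Prop :=
  ∀ (n : ℕ) (K₀ : Subfield L) (N : IntermediateField k L) (S : Finset L) (M : Submodule k L)
    (Φ : Finset (L → ℤ)), Gw K₀ N → Algebra.trdeg k N = n → (∀ f ∈ S, f ∈ K₀) → Stb K₀ M →
    TorF n N S M → ∃ s : TS k L, GoodC (Cl K₀ N) s ∧ s.Uni ∧ Mdl N s.M ∧ (∀ f ∈ S, ∃ a, s.HasExp f a) ∧
      (∀ O', s.P O' → Ful S O' (s.ch O').z) ∧ ∀ O', s.P O' → Rt O' →
        (∀ e ∈ Φ, smn S e ∈ O' ∨ (smn S e)⁻¹ ∈ O') ∧ ∃ O, Pt ⊥ M O ∧ Rt O ∧ Adm N S O O'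

/-- Row TM: invariant equations for arbitrary functions. -/
def TmStmt : Prop :=
  ∀ (K₀ : Subfield L) (T : Finset L), (∀ t ∈ T, t ≠ 0 ∧ IsAlgebraic K₀ t) →
    ∃ S₀ : Finset L, (∀ f ∈ S₀, f ≠ 0 ∧ f ∈ K₀) ∧
      ∀ (n : ℕ) (N : IntermediateField k L) (O : Subalgebra k L) (x : Fin n → L), Fr n N O x →
        (∀ t ∈ T, t ∈ N) → (∀ f ∈ S₀, LMon O x f ∧ (f ∈ O ∨ f⁻¹ ∈ O)) →
        ∀ t ∈ T, LMon O x t ∧ (t ∈ O ∨ t⁻¹ ∈ O)

/-- Row STRONG. -/
def StrongStmt : Prop :=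
  ∀ (k₀ : Subfield k), Gd k₀ → ∀ n, Tower0 L k₀ n → Tower L k₀ n

/-- Row ZERO. -/
def ZeroStmt : Prop := ∀ (k₀ : Subfield k), Gd k₀ → Tower0 L k₀ 0

/-- Block FLOOR (helper52). -/
def FloorStmt : Prop :=
  ∀ (k₀ : Subfield k), Gd k₀ → ∀ n, Tower L k₀ n → Tower0 L k₀ (n + 1)

variable {k L}

theorem tower_of (h0 : ZeroStmt k L) (h1 : StrongStmt k L) (h2 : FloorStmt k L)
    {k₀ : Subfield k} (h : Gd k₀) (n : ℕ) : Tower L k₀ n := by
  induction n with
  | zero => exact h1 k₀ h 0 (h0 k₀ h)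
  | succ n ih => exact h1 k₀ h _ (h2 k₀ h n ih)

end Stmt

end Pool.Agent.MP_19ffc6_ag.Perf
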