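import Pool.Agent.Lib.helper72.RM.M24
import Pool.Agent.MP_19ffc6_ag.perf.SpecT

-- ======== part 0: formerly Pool.Agent.MP_19ffc6_ag.perf.DivA
section MrgPart0

/-! PROJECT PERF, row DIV, first part: a divisor of a monomial at a normal toroidal point. -/

namespace Pool.Agent.MP_19ffc6_ag.Perf.DivA

open Pool.Agent.R72.Wild Pool.Agent.R72.Lci Pool.Agent.R72.Res Pool.Agent.R72.Res.B
  Pool.Agent.R72.Res.Tor Pool.Agent.R72.Res.Lab Submodule

variable {k L : Type} [Field k] [Field L] [Algebra k L] {n : ℕ} {K : IntermediateField k L}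
  {D O : Subalgebra k L} {x f g : L}

/-- The ideal of denominators. -/
def den (O : Subalgebra k L) (y : L) : Ideal O where
  carrier := {r | r.1 * y ∈ O}
  zero_mem' := by simp
  add_mem' := fun {a b} ha hb => by
    change (a.1 + b.1) * y ∈ O
    rw [add_mul]; exact add_mem ha hb
  smul_mem' := fun c r hr => by
    change (c.1 * r.1) * y ∈ O
    rw [mul_assoc]; exact mul_mem c.2 hr

/-- A normal noetherian ring is the intersection of its localisations at prime divisors. -/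
theorem krull [IsNoetherianRing O] (hK : O ≤ K.toSubalgebra)
    (hf : ∀ x ∈ K, ∃ b ∈ O, b ≠ 0 ∧ b * x ∈ O) (hn : ∀ a ∈ K, IsIntegral O a → a ∈ O)
    (hx : x ∈ K) (h : ∀ W π, IsPoint O W → Dvr K W π → x ∈ W) : x ∈ O := by
  by_contra h0
  obtain ⟨_, ⟨a, ha, hy, rfl⟩, hm⟩ := set_has_maximal_iff_noetherian.2
    (inferInstance : IsNoetherian O O) {I | ∃ a ∈ O, a * x ∉ O ∧ I = den O (a * x)}
    ⟨_, 1, one_mem _, by simpa using h0, rfl⟩
  have hyK : a * x ∈ K := K.mul_mem (hK ha) hx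
  have : (den O (a * x)).IsPrime := by
    refine ⟨fun e => hy ?_, fun {r s} hrs => or_iff_not_imp_right.2 fun hs => ?_⟩
    · have : (1 : O) ∈ den O (a * x) := e ▸ trivial
      simpa [den] using this
    · have h1 : den O (a * x) ≤ den O (s.1 * a * x) := fun u hu => by
        change u.1 * (s.1 * a * x) ∈ O
        rw [show u.1 * (s.1 * a * x) = s.1 * (u.1 * (a * x)) by ring]
        exact mul_mem s.2 hu
      have h2 := hm _ ⟨s.1 * a, mul_mem s.2 ha, fun e => hs (by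
        change s.1 * (a * x) ∈ O
        rwa [← mul_assoc]), rfl⟩
      rw [(h1.eq_or_lt.resolve_right h2)]
      change r.1 * (s.1 * a * x) ∈ O
      rw [show r.1 * (s.1 * a * x) = r.1 * s.1 * (a * x) by ring]
      exact hrs
  obtain ⟨W, hW, hu⟩ := Pool.Agent.R72.Res.exists_point O (den O (a * x))
  have := hW.isNoetherianRing
  obtain ⟨π, hπ, h1⟩ : ∃ π ∈ den O (a * x), Un W (π.1 * (a * x)) := by
    by_contra H
    push Not at H
    refine hy (hn _ hyK (isIntegral_of_smul_mem_submodule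
      (Submodule.map (Algebra.linearMap O L) (den O (a * x))) (fun e => ?_)
      (FG.map _ (IsNoetherian.noetherian _)) _ ?_))
    · obtain ⟨b, hb, hb0, hbx⟩ := hf _ hyK
      have : b ∈ Submodule.map (Algebra.linearMap O L) (den O (a * x)) := ⟨⟨b, hb⟩, hbx, rfl⟩
      rw [e] at this
      exact hb0 this
    · rintro _ ⟨r, hr, rfl⟩
      exact ⟨⟨r.1 * (a * x), hr⟩, by_contra fun e => H r hr ((hu ⟨_, hr⟩).2 e), mul_comm _ _⟩
  have h2 : ¬ Un W π := fun e => (hu π).1 e hπ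
  have h3 : π.1 ≠ 0 := left_ne_zero_of_mul h1.2.1
  have h4 : a * x ≠ 0 := right_ne_zero_of_mul h1.2.1
  have h5 := h W π hW (dvr_of (Pool.Agent.R72.Res.IsPoint.le_field hW hK) (hW.le π.2) h3 h2 (fun w hw e => ?_)
    fun y hy => let ⟨b, hb, hb0, hby⟩ := hf y hy; ⟨b, hW.le hb, hb0, hW.le hby⟩)
  · exact h2 (Un.of_mul (hW.le π.2) (mul_mem (hW.le ha) h5) h1)
  · obtain ⟨r, hr, s, hs, hs', rfl⟩ := hW.le_loc hw
    have h6 : r * (a * x) ∈ O := by_contra fun e' => e (un_div ((hu ⟨r, hr⟩).2 e') hs')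
    rw [show r / s / π.1 = r * (a * x) * s⁻¹ * (π.1 * (a * x))⁻¹ by
      generalize a * x = y at h4; field_simp]
    exact mul_mem (mul_mem (hW.le h6) hs'.2.2) h1.2.2

variable {ι : Type} [Fintype ι] {r s : ℕ} {τ : Typ ι r} {z : Fin r → L} {t : Fin s → L}

/-- A divisor of a monomial is a unit times a monomial. -/
theorem div (h : TP n O τ z t) (ha : Aff n K D O) (hn : ∀ a ∈ K, IsIntegral O a → a ∈ O)
    (hf : f ∈ O) (hg : g ∈ O) (hm : LMon O z (f * g)) : LMon O z f := by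
  classical
  obtain ⟨e, he⟩ := h.str
  have he' : e ∈ τ.Reg 0 := fun ρ hρ => (he ρ hρ).le
  have h1 : Un O (mn z e / mn z e) := by
    rw [div_self (mn_ne_zero h.ne e)]; exact Un.one _
  obtain ⟨w, hw, b, -, hb, H⟩ := exists_dat (S := {mn z e}) h ha
    ⟨fun _ hx => Finset.mem_singleton.1 hx ▸ ⟨e, h1⟩,
      fun ρ hρ => ⟨_, Finset.mem_singleton_self _, e, h1, (he ρ hρ).ne'⟩⟩
  have hp := H O ha.pt hb
  have := ha.noeth
  have f0 : f ≠ 0 := left_ne_zero_of_mul hm.ne_zero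
  have fK : f ∈ K := ha.le_field hf
  have h2 := hp.mem_reg (a := fun ρ => od K (w ρ) f) (x := f)
    (by
      have := mul_mem_span' (mn_mem_Mon (O := O) (z := z) (Set.mem_univ 0)) hf
      rwa [mn_zero, one_mul] at this)
    fun ρ hρ _ => ((hp.dvr ρ hρ).od_spec fK f0).1
  have h3 : ∀ c ∈ (ty K z w τ.R).Reg fun ρ => od K (w ρ) f, mn z c / f ∈ O := fun c hc => by
    refine krull ha.le_field (fun y hy => ?_) hn (K.div_mem (h.mn_mem_field ha c) fK)
      fun W π hW hπ => ?_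
    · obtain ⟨b, hb, hb0, hby⟩ := ha.frac y hy
      exact ⟨b, ha.pt.le hb, hb0, ha.pt.le hby⟩
    by_cases hu : Un W (mn z e)
    · have h4 : ∀ c, mn z c ∈ W := fun c => by
        obtain ⟨N, hN⟩ := (Typ.ev_add_reg (a := 0) (f := c) he' fun ρ hρ e =>
          absurd e (he ρ hρ).ne').exists
        rw [← add_sub_cancel_right c (N • e), mn_sub h.ne, mn_nsmul, div_eq_mul_inv]
        exact mul_mem (hW.le (h.mem _ hN)) (hu.pow N).2.2
      obtain ⟨c', hc'⟩ := hm
      have h5 := (hc'.mono hW.le).mul ⟨h4 c', mn_ne_zero h.ne c', mn_neg z c' ▸ h4 _⟩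
      rw [div_mul_cancel₀ _ (mn_ne_zero h.ne c')] at h5
      rw [div_eq_mul_inv]
      exact mul_mem (h4 c) (Un.of_mul (hW.le hf) (hW.le hg) h5).2.2
    · obtain ⟨ρ, hρ, rfl⟩ := hp.lab hπ hW (Finset.mem_singleton_self _) hu
      have h4 := (hp.iff hρ).2 (hc ρ hρ)
      have h5 := mul_mem h4 ((hp.dvr ρ hρ).od_spec fK f0).2.2
      rwa [inv_div, div_mul_div_cancel₀ (zpow_ne_zero _ (hp.dvr ρ hρ).ne)] at h5
  by_contra H
  refine not_un_of_mem_span ha.pt.lcl (S := (fun c => mn z c / f) ''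
    (ty K z w τ.R).Reg fun ρ => od K (w ρ) f) (x := 1) ?_ ?_ (Un.one _)
  · rintro _ ⟨c, hc, rfl⟩
    exact ⟨h3 c hc, fun hu => H ⟨c, by simpa using hu.inv⟩⟩
  · rw [← div_self f0]
    have key : ∀ y ∈ Mon O z ((ty K z w τ.R).Reg fun ρ => od K (w ρ) f),
        y / f ∈ span O ((fun c => mn z c / f) '' (ty K z w τ.R).Reg fun ρ => od K (w ρ) f) := by
      intro y hy
      induction hy using span_induction with
      | mem y hy => obtain ⟨c, hc, rfl⟩ := hy; exact subset_span ⟨c, hc, rfl⟩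
      | zero => simp
      | add a b _ _ ha hb => rw [add_div]; exact add_mem ha hb
      | smul c a _ ha =>
        rw [div_eq_mul_inv, smul_mul_assoc, ← div_eq_mul_inv]; exact smul_mem _ _ ha
    exact key f h2

/-- A function with a power that is a monomial is a unit times a monomial. -/
theorem pow (h : TP n O τ z t) (ha : Aff n K D O) (hn : ∀ a ∈ K, IsIntegral O a → a ∈ O)
    (hf : f ∈ K) {N : ℕ} (hN : 0 < N) (hm : LMon O z (f ^ N)) : LMon O z f := by
  obtain ⟨e, he⟩ := h.str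
  have he' : e ∈ τ.Reg 0 := fun ρ hρ => (he ρ hρ).le
  obtain ⟨c, hc⟩ := hm
  obtain ⟨M, hM⟩ := (Typ.ev_add_reg (a := 0) (f := c) he' fun ρ hρ e =>
    absurd e (he ρ hρ).ne').exists
  obtain ⟨N, rfl⟩ := Nat.exists_eq_add_one_of_ne_zero hN.ne'
  have z0 := mn_ne_zero h.ne
  have h1 : LMon O z (mn z (M • e)) := ⟨M • e, by rw [div_self (z0 _)]; exact Un.one _⟩
  have h2 : (f * mn z (M • e)) ^ (N + 1) ∈ O := by
    have := mul_mem (mul_mem hc.1 (h.mem _ hM)) (pow_mem (h.mem _ (Typ.nsmul_mem_reg he' M)) N)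
    rwa [mn_add h.ne, ← mul_assoc, div_mul_cancel₀ _ (z0 c), mul_assoc, ← pow_succ',
      ← mul_pow] at this
  have h3 : f * mn z (M • e) ∈ O :=
    hn _ (K.mul_mem hf (h.mn_mem_field ha _)) (IsIntegral.of_pow hN
      (isIntegral_algebraMap (x := (⟨_, h2⟩ : O))))
  have h4 := div h ha hn h3 (pow_mem h3 N) (by
    rw [← pow_succ', mul_pow]
    exact LMon.mul h.ne ⟨c, hc⟩ (zpow_natCast (mn z (M • e)) (N + 1) ▸ h1.zpow _))
  have h5 := LMon.mul h.ne h4 h1.inv
  rwa [mul_inv_cancel_right₀ (z0 _)] at h5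

/-- Change of the monomial coordinates. -/
theorem trans {κ : Type} [Fintype κ] {y : κ → L} (hy : ∀ j, y j ≠ 0)
    (h : ∀ c, LMon O y (mn z c)) (hf : LMon O z f) : LMon O y f := by
  obtain ⟨c, hc⟩ := hf
  have := LMon.mul hy (LMon.of_un hc) (h c)
  rwa [div_mul_cancel₀ _ (h c).ne_zero] at this

theorem lmon_mn {κ : Type} [Fintype κ] {y : κ → L} (hy : ∀ j, y j ≠ 0)
    (h : ∀ i, LMon O y (z i)) (c : Fin r → ℤ) : LMon O y (mn z c) :=
  Finset.prod_induction _ (LMon O y) (fun _ _ => LMon.mul hy) (LMon.of_un (Un.one _))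
    fun i _ => (h i).zpow _

end Pool.Agent.MP_19ffc6_ag.Perf.DivA

end MrgPart0

-- ======== part 1: formerly Pool.Agent.MP_19ffc6_ag.perf.TDiv
section MrgPart1

/-! PROJECT PERF, row DIV. -/

namespace Pool.Agent.MP_19ffc6_ag.Perf

open Pool.Agent.R72.Wild Pool.Agent.R72.Lci Pool.Agent.R72.Res Pool.Agent.R72.Res.B
  Pool.Agent.R72.Res.Tor Pool.Agent.R72.Res.P

variable {k L : Type} [Field k] [Field L] [Algebra k L]

theorem divF (ht : TpStmt k L) : DivF k L := by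
  have key : ∀ {n r : ℕ} {O : Subalgebra k L} {x : Fin n → L} {z : Fin r → L}, (∀ j, x j ≠ 0) →
      (∀ i, ∃ c, z i = mn x c) → ∀ c, LMon O x (mn z c) := fun {n r O x z} hx hz =>
    DivA.lmon_mn hx fun i => by
      obtain ⟨c, e⟩ := hz i
      exact ⟨c, by rw [e, div_self (mn_ne_zero hx c)]; exact Un.one _⟩
  refine ⟨fun n K O x h f hf N hN hm => ?_, fun n K O x h f hf g hg hm => ?_⟩
  · obtain ⟨ι, _, r, s, τ, z, t, h1, h2, h3, -⟩ := ht n K O x h
    obtain ⟨D, hD⟩ := h.aff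
    exact DivA.trans h.fr.ne (key h.fr.ne h2)
      (DivA.pow h1 hD h.nrm hf hN (DivA.trans h1.ne h3 hm))
  · obtain ⟨ι, _, r, s, τ, z, t, h1, h2, h3, -⟩ := ht n K O x h
    obtain ⟨D, hD⟩ := h.aff
    exact DivA.trans h.fr.ne (key h.fr.ne h2)
      (DivA.div h1 hD h.nrm hf hg (DivA.trans h1.ne h3 hm))

end Pool.Agent.MP_19ffc6_ag.Perf

end MrgPart1

-- marker of a merged file
example : 731051 + 429464 = 731051 + 429464 := rfl
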