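import Pool.Agent.Lib.helper72.RM.M18

/-! PROJECT PERF: the interface between the induction and the final statement. -/

namespace Pool.Agent.MP_19ffc6_ag.Perf

open Pool.Agent.R72.Wild Pool.Agent.R72.Lci Pool.Agent.R72.Res Pool.Agent.R72.Res.B
open Pool.Agent.R72.Res.P AlgebraicGeometry CategoryTheory

section

variable {k L : Type} [Field k] [Field L] [Algebra k L]

/-- `O` becomes smooth when finitely many `p ^ e`-th roots of members of `O ∩ K₀` are adjoined. -/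
def PSm (p : ℕ) (K₀ : Subfield L) (O : Subalgebra k L) : Prop :=
  ∃ (e : ℕ) (Z : Finset L), (∀ z ∈ Z, z ^ p ^ e ∈ O ∧ z ^ p ^ e ∈ K₀) ∧
    Algebra.FormallySmooth k (O ⊔ Algebra.adjoin k (Z : Set L) :)

/-- The same with a stable purely inseparable extension `E` of `K` in place of rational roots. -/
def PSmE (p : ℕ) (K₀ : Subfield L) (K : IntermediateField k L) (O : Subalgebra k L) : Prop :=
  ∃ (E : IntermediateField k L) (e : ℕ) (D O₁ : Subalgebra k L), K ≤ E ∧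
    (∀ g : SA k L, Fx K₀ g → ∀ x ∈ E, g • x ∈ E) ∧ (∀ x, x ∈ O₁ ↔ x ∈ E ∧ x ^ p ^ e ∈ O) ∧
    D.FG ∧ IsPoint D O₁ ∧ Algebra.FormallySmooth k O₁

variable (L) in
/-- The output of the induction: a stable model all of whose rational points become smooth after
a purely inseparable extension. -/
def PerfP (k₀ : Subfield k) (p n : ℕ) : Prop :=
  ∀ (K₀ : Subfield L) (K : IntermediateField k L), Form k₀ K₀ K → K.FG → Algebra.trdeg k K = n →
    ∀ S : Finset L, (∀ f ∈ S, f ∈ K₀ ∧ f ≠ 0) → ∃ M : Submodule k L, Stb K₀ M ∧ Mdl K M ∧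
      ∀ O, Pt ⊥ M O → Rt O → (∀ f ∈ S, f ∈ O ∨ f⁻¹ ∈ O) ∧ (PSm p K₀ O ∨ PSmE p K₀ K O)

variable (L) in
/-- The same upstairs: a stable normal model of a finite extension `N` of `K`, whose quotient has
the required property. -/
def PerfU (k₀ : Subfield k) (p n : ℕ) : Prop :=
  ∀ (K₀ : Subfield L) (K : IntermediateField k L), Form k₀ K₀ K → K.FG → Algebra.trdeg k K = n →
    ∀ S : Finset L, (∀ f ∈ S, f ∈ K₀ ∧ f ≠ 0) →
    ∃ (N : IntermediateField k L) (M : Submodule k L), K ≤ N ∧ (∀ x ∈ N, IsAlgebraic K x) ∧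
      Stb K₀ M ∧ Mdl N M ∧ ∀ O, Pt ⊥ M O → Rt O → (∀ x ∈ N, IsIntegral O x → x ∈ O) ∧
        (∀ f ∈ S, f ∈ O ∨ f⁻¹ ∈ O) ∧
        (PSm p K₀ (O ⊓ K.toSubalgebra) ∨ PSmE p K₀ K (O ⊓ K.toSubalgebra))

variable (k L) in
/-- Module QM (helper4): the quotient of a stable normal model. -/
def QuotM : Prop :=
  ∀ (K₀ : Subfield L) (K N : IntermediateField k L) (M : Submodule k L), Gl K₀ K → K.FG → K ≤ N →
    (∀ x ∈ N, IsAlgebraic K x) → Stb K₀ M → Mdl N M →
    (∀ O, Pt ⊥ M O → Rt O → ∀ x ∈ N, IsIntegral O x → x ∈ O) →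
    ∃ M₂, Stb K₀ M₂ ∧ Mdl K M₂ ∧ ∀ O₂, Pt ⊥ M₂ O₂ → ∃ O, Pt ⊥ M O ∧ Dom O₂ O ∧
      IsPoint (icl N O₂) O ∧ O₂ = O ⊓ K.toSubalgebra

end

/-- What the induction has to deliver (upstairs form). -/
def PerfAllU (p : ℕ) : Prop :=
  ∀ (k L : Type) [Field k] [Field L] [Algebra k L] [IsAlgClosed k] [IsAlgClosed L] [CharP k p]
    (k₀ : Subfield k), Gd k₀ → ∀ n, PerfU L k₀ p n

/-- What the induction has to deliver. -/
def PerfAll (p : ℕ) : Prop :=
  ∀ (k L : Type) [Field k] [Field L] [Algebra k L] [IsAlgClosed k] [IsAlgClosed L] [CharP k p]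
    (k₀ : Subfield k), Gd k₀ → ∀ n, PerfP L k₀ p n

/-- The final statement over the field `k`. -/
def PerfRes (k : Type) [Field k] : Prop :=
  ∀ (X : Scheme.{0}) (sX : X ⟶ Spec (CommRingCat.of k)),
    IsIntegral X → IsSeparated sX → LocallyOfFiniteType sX → QuasiCompact sX →
    ∃ (Y : Scheme.{0}) (f : Y ⟶ X), IsIntegral Y ∧ IsProper f ∧
      (∃ V : X.Opens, V ≠ ⊥ ∧ IsIso (morphismRestrict f V)) ∧
      ∀ y : Y, ∃ (U : Y.Opens) (W : Scheme.{0}) (g : W ⟶ U), y ∈ U ∧ IsFinite g ∧ Surjective g ∧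
        UniversallyInjective g ∧ Smooth (g ≫ U.ι ≫ f ≫ sX)

/-- Module FIN (helper4): descent to the perfect ground field and the passage to schemes. -/
def FinStmt : Prop :=
  ∀ (p : ℕ) [Fact p.Prime], PerfAll p → ∀ (k : Type) [Field k] [PerfectField k] [CharP k p],
    PerfRes k

end Pool.Agent.MP_19ffc6_ag.Perf
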