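import Pool.Agent.Lib.helper72.RM.M19
import Pool.Agent.MP_19ffc6_ag.perf.FinSpec

-- ======== part 0: formerly Pool.Agent.MP_19ffc6_ag.perf.Kit
section MrgPart0

/-! PROJECT PERF: copies of the modules GAL, RAT, TORESP, MIN of RESP with a short import chain. -/

section Part3

/-! PROJECT RESP, module GAL: Galois descent and extension of automorphisms. -/

namespace Pool.Agent.MP_19ffc6_ag.Perf.Kit

open Pool.Agent.R72.Res Pool.Agent.R72.Res.P

open Submodule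

variable {k L : Type} [Field k] [Field L] [Algebra k L]

/-- The elements fixed by a set of automorphisms. -/
def Fix (Γ : Set (SA k L)) : Set L := {x | ∀ γ ∈ Γ, γ • x = x}

/-- A stable subspace is spanned by its fixed elements. -/
theorem speiser {Γ : Set (SA k L)} {V : Submodule k L} (hV : ∀ γ ∈ Γ, ∀ x ∈ V, γ • x ∈ V)
    (h : V ≤ span k (Fix Γ)) :
    span k (↑V ∩ Fix Γ) = V := by
  classical
  refine le_antisymm (span_le.2 Set.inter_subset_left) fun v hv => ?_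
  obtain ⟨s, hs, h1⟩ := mem_span_finite_of_mem_span (h hv)
  induction s using Finset.strongInduction generalizing v with
  | H s ih =>
  have key : ∀ e ∈ s, ∀ c : L → k, c e = 0 → ∑ x ∈ s, c x • x ∈ V →
      ∑ x ∈ s, c x • x ∈ span k (↑V ∩ Fix Γ) := fun e he c h2 h3 =>
    ih _ (Finset.erase_ssubset he) _ h3 (fun x hx => hs (Finset.mem_of_mem_erase hx)) (by
      rw [← Finset.add_sum_erase _ _ he, h2, zero_smul, zero_add]
      exact sum_mem fun x hx => smul_mem _ _ (subset_span hx))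
  obtain ⟨c, -, rfl⟩ := mem_span_finset.1 h1
  by_cases hA : ∃ a : L → k, ∑ x ∈ s, a x • x ∈ span k (↑V ∩ Fix Γ) ∧ ∃ e ∈ s, a e ≠ 0
  · obtain ⟨a, h2, e, h3, h4⟩ := hA
    have h5 : ∑ x ∈ s, (c x - c e / a e * a x) • x =
        ∑ x ∈ s, c x • x - (c e / a e) • ∑ x ∈ s, a x • x := by
      simp only [sub_smul, mul_smul, Finset.sum_sub_distrib, Finset.smul_sum]
    have h6 := key e h3 (fun x => c x - c e / a e * a x) (by simp [h4]) (by
      rw [h5]; exact sub_mem hv (smul_mem _ _ (span_le.2 Set.inter_subset_left h2)))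
    rw [h5] at h6
    simpa using add_mem h6 (smul_mem _ (c e / a e) h2)
  push Not at hA
  by_cases h0 : ∀ e ∈ s, c e = 0
  · rw [Finset.sum_eq_zero fun x hx => by rw [h0 x hx, zero_smul]]; exact zero_mem _
  push Not at h0
  obtain ⟨e, h3, h4⟩ := h0
  have h5 : (c e)⁻¹ • ∑ x ∈ s, c x • x ∈ V := smul_mem _ _ hv
  refine (smul_mem_iff _ (inv_ne_zero h4)).1 (subset_span ⟨h5, fun γ hγ => ?_⟩)
  have h6 : ∑ x ∈ s, (γ.σ ((c e)⁻¹ * c x) - (c e)⁻¹ * c x) • x =
      γ • ((c e)⁻¹ • ∑ x ∈ s, c x • x) - (c e)⁻¹ • ∑ x ∈ s, c x • x := by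
    simp only [Finset.smul_sum, ← mul_smul, SA.smul_smul', sub_smul, Finset.sum_sub_distrib]
    exact congrArg (· - _) (Finset.sum_congr rfl fun x hx => by rw [hs hx γ hγ])
  have h7 := hA _ (key e h3 (fun x => γ.σ ((c e)⁻¹ * c x) - (c e)⁻¹ * c x) (by simp [h4])
    (h6 ▸ sub_mem (hV γ hγ _ h5) h5))
  rw [← sub_eq_zero, ← h6]
  exact Finset.sum_eq_zero fun x hx => by rw [h7 x hx, zero_smul]

namespace Gal

/-- An automorphism of a subfield extends to an algebraically closed field. -/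
theorem exists_ext [IsAlgClosed L] {N : Type} [Field N] [Algebra N L] (σ : N ≃+* N) :
    ∃ e : L ≃+* L, ∀ x, e (algebraMap N L x) = algebraMap N L (σ x) := by
  obtain ⟨s, hs⟩ := exists_isTranscendenceBasis N L
  have := IsAlgClosed.isAlgClosure_of_transcendence_basis _ hs
  let a := hs.1.aevalEquiv
  let τ := (a.symm.toRingEquiv.trans (MvPolynomial.mapEquiv s σ)).trans a.toRingEquiv
  refine ⟨IsAlgClosure.equivOfEquiv L L τ, fun x => ?_⟩
  rw [IsScalarTower.algebraMap_apply N (Algebra.adjoin N (Set.range (Subtype.val : s → L))) L,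
    IsAlgClosure.equivOfEquiv_algebraMap, IsScalarTower.algebraMap_apply N
      (Algebra.adjoin N (Set.range (Subtype.val : s → L))) L]
  congr 1
  change a (MvPolynomial.mapEquiv s σ (a.symm (algebraMap N _ x))) = _
  rw [a.symm.commutes, ← a.commutes]
  congr 1
  simp

/-- An automorphism that fixes the small ground field is semilinear. -/
theorem exists_sa [IsAlgClosed k] {k₀ : Subfield k} (h0 : Gd k₀) (e : L ≃+* L)
    (he : ∀ c ∈ k₀, e (algebraMap k L c) = algebraMap k L c) : ∃ g : SA k L, g.e = e := by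
  have := h0.alg
  have : IsAlgClosure k₀ k := ⟨‹_›, this⟩
  let _ : Algebra k₀ L := ((algebraMap k L).comp k₀.subtype).toAlgebra
  have := IsScalarTower.of_algebraMap_eq (R := k₀) (S := k) (A := L) fun _ => rfl
  let e' : L ≃ₐ[k₀] L := { e with commutes' := fun c => he c c.2 }
  exact ⟨⟨e, e'.restrictNormal k, fun c => (e'.restrictNormal_commutes k c).symm⟩, rfl⟩

end Gal

/-- Module GAL, second part. -/
theorem extStmt [IsAlgClosed L] : ExtStmt k L := by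
  intro F N σ
  obtain ⟨e, he⟩ := Gal.exists_ext (L := L) σ.toRingEquiv
  refine ⟨⟨e, 1, fun c => ?_⟩, he⟩
  exact (he ⟨_, N.algebraMap_mem ⟨_, F.algebraMap_mem c⟩⟩).trans
    (congrArg Subtype.val (σ.commutes ⟨_, F.algebraMap_mem c⟩))

/-- Module GAL, first part. -/
theorem galStmt [IsAlgClosed k] : GalStmt k L := by
  intro k₀ K₀ K h0 hf hL
  have := h0.alg
  have := h0.perf
  have : IsAlgClosure k₀ k := ⟨‹_›, ‹_›⟩
  have : IsGalois k₀ k := {}
  let _ : Algebra k₀ K₀ :=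
    (((algebraMap k L).comp k₀.subtype).codRestrict K₀ fun c => hf.cst c c.2).toAlgebra
  let _ : Algebra k₀ L := ((algebraMap k L).comp k₀.subtype).toAlgebra
  have := IsScalarTower.of_algebraMap_eq (R := k₀) (S := k) (A := L) fun _ => rfl
  have := IsScalarTower.of_algebraMap_eq (R := k₀) (S := K₀) (A := L) fun _ => rfl
  let K' : IntermediateField K₀ L := IntermediateField.adjoin K₀ (Set.range (algebraMap k L))
  have h1 : ∀ x, x ∈ K ↔ x ∈ K' := fun x => by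
    rw [hf.eq]
    change x ∈ Subfield.closure _ ↔ x ∈ Subfield.closure _
    rw [Set.union_comm]
    congr! 3
    exact Subtype.range_coe.symm
  have h2 : ∀ x ∈ Set.range (algebraMap k L), IsSeparable K₀ x := by
    rintro _ ⟨c, rfl⟩
    exact IsSeparable.tower_top K₀ ((Algebra.IsSeparable.isSeparable k₀ c).map
      (IsScalarTower.toAlgHom k₀ k L) (algebraMap k L).injective)
  have h3 : ∀ x ∈ K', IsSeparable K₀ x := fun x hx =>
    (IntermediateField.adjoin_le_iff (T := separableClosure K₀ L)).2 h2 hx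
  have h4 : Algebra.IsSeparable K₀ K' := 
    (IntermediateField.isSeparable_adjoin_iff_isSeparable K₀ L).2 h2
  have h5 : Normal K₀ K' := normal_iff.2 fun x => ⟨Algebra.IsSeparable.isIntegral K₀ x, by
    rw [IntermediateField.minpoly_eq]
    refine IntermediateField.splits_of_mem_adjoin K₀ L (fun y hy => ⟨(h2 y hy).isIntegral, ?_⟩) x.2
    obtain ⟨c, rfl⟩ := hy
    let φ : k →+* K' := (algebraMap k L).codRestrict K' fun c =>
      IntermediateField.subset_adjoin _ _ ⟨c, rfl⟩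
    have a1 := (Normal.splits (inferInstance : Normal k₀ k) c).map φ
    have a2 : minpoly K₀ (algebraMap k L c) ∣ (minpoly k₀ c).map (algebraMap k₀ K₀) :=
      minpoly.dvd _ _ (by
        rw [Polynomial.aeval_map_algebraMap, Polynomial.aeval_algebraMap_apply, minpoly.aeval,
          map_zero])
    refine a1.of_dvd (Polynomial.map_ne_zero (Polynomial.map_ne_zero
      (minpoly.ne_zero (Algebra.IsSeparable.isIntegral k₀ c)))) ?_
    have a3 := Polynomial.map_dvd (algebraMap K₀ K') a2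
    rw [Polynomial.map_map] at a3 ⊢
    exact a3⟩
  have : IsGalois K₀ K' := {}
  have h6 : ∀ σ : K' ≃ₐ[K₀] K', ∃ g : SA k L, ∀ x : K', g • (x : L) = σ x := fun σ => by
    obtain ⟨e, he⟩ : ∃ e : L ≃+* L, ∀ x : K', e x = σ x := by
      rcases hL with hL | hL
      · exact Gal.exists_ext (L := L) σ.toRingEquiv
      · have h7 : ∀ x, x ∈ K' := fun x => (h1 x).1 (hL ▸ IntermediateField.mem_top)
        let a : K' ≃+* L := RingEquiv.ofBijective K'.val
          ⟨Subtype.val_injective, fun x => ⟨⟨x, h7 x⟩, rfl⟩⟩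
        exact ⟨(a.symm.trans σ.toRingEquiv).trans a, fun x =>
          congrArg (fun y => a (σ y)) (a.symm_apply_apply x)⟩
    obtain ⟨g, rfl⟩ := Gal.exists_sa h0 e fun c hc =>
      (he (algebraMap K₀ K' ⟨_, hf.cst c hc⟩)).trans (congrArg Subtype.val (σ.commutes _))
    exact ⟨g, he⟩
  have h8 : ∀ x ∈ K, (∀ g : SA k L, Fx K₀ g → g • x = x) → x ∈ K₀ := fun x hx h => by
    obtain ⟨y, hy⟩ := (InfiniteGalois.mem_range_algebraMap_iff_fixed (k := K₀)
      (⟨x, (h1 x).1 hx⟩ : K')).2 fun σ => by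
        obtain ⟨g, hg⟩ := h6 σ
        refine Subtype.ext ((hg _).symm.trans (h g fun y hy => ?_))
        exact (hg (algebraMap K₀ K' ⟨y, hy⟩)).trans (congrArg Subtype.val (σ.commutes _))
    have e : (y : L) = x := congrArg Subtype.val hy
    exact e ▸ y.2
  have h9 : ∀ x ∈ K, x ∈ span k (K₀ : Set L) := fun x hx => by
    have h : x ∈ K'.toSubalgebra := (h1 x).1 hx
    rw [IntermediateField.adjoin_toSubalgebra_of_isAlgebraic
      fun y hy => (h2 y hy).isIntegral.isAlgebraic] at h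
    clear hx
    induction h using Algebra.adjoin_induction with
    | mem y hy =>
      obtain ⟨c, rfl⟩ := hy
      rw [Algebra.algebraMap_eq_smul_one]
      exact smul_mem _ _ (subset_span K₀.one_mem)
    | algebraMap y => exact subset_span y.2
    | add y z _ _ hy hz => exact add_mem hy hz
    | mul y z _ _ hy hz =>
      have a1 := mul_mem_mul hy hz
      rw [span_mul_span] at a1
      refine span_mono ?_ a1
      rintro _ ⟨a, ha, b, hb, rfl⟩
      exact K₀.mul_mem ha hb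
  refine ⟨hf.eq, fun x hx => (h3 x ((h1 x).1 hx)).isIntegral.isAlgebraic, h8, fun V hV hs => ?_⟩
  have e := speiser (Γ := {γ : SA k L | Fx K₀ γ}) (V := V) hs
    fun x hx => span_mono (fun y hy γ hγ => hγ y hy) (h9 x (hV x hx))
  exact e.ge.trans (span_mono fun x hx => ⟨hx.1, h8 x (hV x hx.1) hx.2⟩)

end Pool.Agent.MP_19ffc6_ag.Perf.Kit

end Part3

section Part1

/-! PROJECT RESP: stable linear systems for models and for global modules. -/

namespace Pool.Agent.MP_19ffc6_ag.Perf.Kit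

open Pool.Agent.R72.Res Pool.Agent.R72.Res.P

open Pool.Agent.R72.Wild Pool.Agent.R72.Lci Pool.Agent.R72.Res.Tor
open Pool.Agent.R72.Res.B

variable {k L : Type} [Field k] [Field L] [Algebra k L] {K₀ : Subfield L}
  {K : IntermediateField k L} {M N : Submodule k L} {O : Subalgebra k L}

namespace Rtn

/-- The product of the conjugates. -/
theorem exists_norm (hG : Gl K₀ K) (hM : M.FG) (hK : ∀ x ∈ M, x ∈ K) :
    ∃ C, Stb K₀ (M * C) ∧ ∀ p : Submodule k L → Prop, p 1 → (∀ A B, p A → p B → p (A * B)) →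
      (∀ g : SA k L, Fx K₀ g → p (g • M)) → p C := by
  classical
  have hf := orbM_fin hM fun x hx => hG.alg x (hK x hx)
  refine ⟨∏ N ∈ hf.toFinset.erase M, N, stb_iff.2 fun g hg => ?_, fun p h1 h2 h3 =>
    Finset.prod_induction _ p h2 h1 fun N hN => ?_⟩
  · rw [Finset.mul_prod_erase _ (fun N => N) (hf.mem_toFinset.2 ⟨1, .one _, (one_smul _ _).symm⟩),
      sM_prod]
    refine Finset.prod_nbij' (g • ·) (g⁻¹ • ·) ?_ ?_ (fun _ _ => inv_smul_smul _ _)
      (fun _ _ => smul_inv_smul _ _) fun _ _ => rfl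
    all_goals
      intro N hN
      obtain ⟨g', hg', rfl⟩ := hf.mem_toFinset.1 hN
    exacts [hf.mem_toFinset.2 ⟨_, hg.mul hg', (mul_smul _ _ _).symm⟩,
      hf.mem_toFinset.2 ⟨_, hg.inv.mul hg', (mul_smul _ _ _).symm⟩]
  · obtain ⟨g, hg, rfl⟩ := hf.mem_toFinset.1 (Finset.mem_of_mem_erase hN)
    exact h3 g hg

theorem cl_smul (hG : Gl K₀ K) (hM : M.FG) (hK : ∀ x ∈ M, x ∈ K) {g : SA k L} (hg : Fx K₀ g) :
    (g • M).FG ∧ ∀ x ∈ g • M, x ∈ K :=
  ⟨fg_smul.2 hM, fun x hx => (hG.smul_mem_iff hg.inv x).1 (hK _ hx)⟩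

theorem cl_norm (hG : Gl K₀ K) (hM : M.FG) (hK : ∀ x ∈ M, x ∈ K) {C : Submodule k L}
    (h : ∀ p : Submodule k L → Prop, p 1 → (∀ A B, p A → p B → p (A * B)) →
      (∀ g : SA k L, Fx K₀ g → p (g • M)) → p C) : C.FG ∧ ∀ x ∈ C, x ∈ K :=
  h (fun C => C.FG ∧ ∀ x ∈ C, x ∈ K) ⟨(Cl.cls K₀ K).one.1, (Cl.cls K₀ K).one.2.2⟩
    (fun _ _ ha hb => ⟨ha.1.mul hb.1, mul_le_field ha.2 hb.2⟩) fun _ => cl_smul hG hM hK

/-- A linear system without base points does not change the model. -/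
theorem pt_mul_iff (h : ∀ O, Pt ⊥ M O → ∃ c ∈ N, c ≠ 0 ∧ ∀ x ∈ N, x / c ∈ O) :
    Pt ⊥ (M * N) O ↔ Pt ⊥ M O := by
  refine ⟨fun hO => ?_, fun hO => ?_⟩
  · obtain ⟨O', a, ha, h1, hD, ha0, hP⟩ := R72.Lci.Pt.of_mul_dom hO
    obtain ⟨c, hc, hc0, h2⟩ := h O' h1
    have h3 : Un O' (a / c) := hD.2 _ (h2 a ha) ⟨hD.1 (h2 a ha), div_ne_zero ha0 hc0, by
      rw [inv_div]; exact hP.le (div_mem_chart _ _ hc)⟩
    have h4 : O = O' := hD.eq_of_isPoint (hP.of_le_loc hD.1 ((chart_le le_rfl fun x hx => by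
      have : x / a = x / c * (a / c)⁻¹ := by field_simp
      rw [this]; exact mul_mem (h2 x hx) h3.2.2).trans (le_loc _ _)))
    exact h4 ▸ h1
  · obtain ⟨c, hc, hc0, h2⟩ := h O hO
    have h3 : Lcl O := let ⟨_, _, _, h⟩ := hO; h.lcl
    exact Pt.mul hO hc hc0 ⟨chart_le le_rfl h2, h3, (le_chart _ _ _).trans (le_loc _ _)⟩

end Rtn

open Rtn

/-- Module RAT, first part. -/
theorem ratStmt : RatStmt k L := by
  intro K₀ K M hG hM hst
  obtain ⟨C, h1, h2⟩ := exists_norm hG hM.fg hM.le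
  obtain ⟨h3, h4⟩ := cl_norm hG hM.fg hM.le h2
  have h5 := h2 (fun N => ∀ O, Pt ⊥ M O → ∃ c ∈ N, c ≠ 0 ∧ ∀ x ∈ N, x / c ∈ O)
    (fun O _ => ⟨1, Submodule.one_le.1 le_rfl, one_ne_zero, fun x hx => by
      obtain ⟨c, rfl⟩ := Submodule.mem_one.1 hx
      rw [div_one]; exact O.algebraMap_mem c⟩)
    (fun A B hA hB O hO => by
      obtain ⟨a, a1, a2, a3⟩ := hA O hO
      obtain ⟨b, b1, b2, b3⟩ := hB O hO
      refine ⟨a * b, Submodule.mul_mem_mul a1 b1, mul_ne_zero a2 b2, fun x hx => ?_⟩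
      refine Submodule.mul_induction_on hx (fun x hx y hy => ?_) fun x y hx hy => ?_
      · rw [← div_mul_div_comm]; exact mul_mem (a3 x hx) (b3 y hy)
      · rw [add_div]; exact add_mem hx hy)
    fun g hg O hO => by
      have := (pt_smul (g := g)).2 (hst _ hg.inv O hO)
      rw [smul_inv_smul] at this
      obtain ⟨c, hc, hc0, hP⟩ := this
      exact ⟨c, hc, hc0, fun x hx => hP.le (div_mem_chart _ _ hx)⟩
  obtain ⟨O, hO⟩ := exists_pt hM.ne
  obtain ⟨c, hc, hc0, -⟩ := h5 O hO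
  exact ⟨M * C, h1, hM.mul h3 (fun e => hc0 ((Submodule.mem_bot k).1 (e ▸ hc))) h4,
    fun O => pt_mul_iff h5⟩

/-- Module RAT, second part. -/
theorem normP [PerfectField k] : NormP k L := by
  intro K₀ E K M hG hM hst hEK hK halg
  obtain ⟨M', h1, h2, h3⟩ := hM.normIn hEK hK halg
  obtain ⟨M'', h4, h5, h6⟩ := ratStmt K₀ K M' hG h1 fun g hg O' hO' => by
    obtain ⟨O, a1, -, a2⟩ := h2 O' hO'
    exact h3 (g • O) _ ((hst.pt hg).2 a1)
      (by rw [icl_smul (hG.smul_mem_iff hg)]; exact isPoint_smul.2 a2)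
  exact ⟨M'', h4, h5, fun O' hO' => h2 O' ((h6 O').1 hO')⟩

/-- Module RAT, third part. -/
theorem globP : GlobP k L := by
  intro K₀ K M J hG hM hst hJ hJK heq
  obtain ⟨A, B, hA, hB, hAK, hBK, h⟩ : ∃ A B : Submodule k L, A.FG ∧ B.FG ∧ (∀ x ∈ A, x ∈ K) ∧
      (∀ x ∈ B, x ∈ K) ∧ ∀ O, Pt ⊥ M O →
        (∃ c, c ≠ 0 ∧ sp O B = sp O (pr k c)) ∧ sp O A = sp O (B * J O) := by
    obtain ⟨A, B, hA, hB, h⟩ := hJ
    obtain ⟨O, hO⟩ := exists_pt hM.ne
    obtain ⟨c, h0, h1, h2⟩ := h O hO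
    have hs : ∀ X : Submodule k L, (∀ x ∈ X, x ∈ K) → ∀ x ∈ sp O X, x ∈ K := fun X hX =>
      mul_le_field (fun x hx => hM.pt_le hO hx) hX
    have hp : pr k c⁻¹ * pr k c = 1 := by rw [pr_mul, inv_mul_cancel₀ h0, pr_one]
    refine ⟨pr k c⁻¹ * A, pr k c⁻¹ * B, (pr_fg _).mul hA, (pr_fg _).mul hB, fun x hx =>
      hs _ (hJK O hO) x ?_, fun x hx => hs _ (Cl.cls K₀ K).one.2.2 x ?_, fun O hO => ?_⟩
    · have := le_sp O _ hx
      rwa [sp_mul_congr rfl h2, ← mul_assoc, hp, one_mul] at this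
    · have := le_sp O _ hx
      rwa [sp_mul_congr rfl h1, hp] at this
    · obtain ⟨d, d0, d1, d2⟩ := h O hO
      refine ⟨⟨c⁻¹ * d, mul_ne_zero (inv_ne_zero h0) d0, by rw [sp_mul_congr rfl d1, pr_mul]⟩, ?_⟩
      rw [mul_assoc]
      exact sp_mul_congr rfl (d2.trans (sp_mul_congr d1.symm rfl))
  obtain ⟨C, h1, h2⟩ := exists_norm hG hB hBK
  obtain ⟨h3, h4⟩ := cl_norm hG hB hBK h2
  have h5 := h2 (fun N => ∀ O, Pt ⊥ M O → ∃ c, c ≠ 0 ∧ sp O N = sp O (pr k c))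
    (fun O _ => ⟨1, one_ne_zero, by rw [pr_one]⟩)
    (fun A B hA hB O hO => by
      obtain ⟨a, a1, a2⟩ := hA O hO
      obtain ⟨b, b1, b2⟩ := hB O hO
      exact ⟨a * b, mul_ne_zero a1 b1, by rw [sp_mul_congr a2 b2, pr_mul]⟩)
    fun g hg O hO => by
      obtain ⟨c, c0, c1⟩ := (h _ ((hst.pt hg.inv).2 hO)).1
      refine ⟨g • c, sm_ne_zero.2 c0, ?_⟩
      rw [← smul_inv_smul g O, pr_smul, sp_smul, sp_smul, c1]
  have hAC : (A * C).FG := hA.mul h3
  have hACK := mul_le_field hAK h4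
  have hf := orbM_fin hAC fun x hx => hG.alg x (hACK x hx)
  have h6 : ∀ g : SA k L, Fx K₀ g → ∀ O, Pt ⊥ M O →
      sp O (g • (A * C)) = sp O (B * C * J O) := fun g hg O hO => by
    have h7 := (hst.pt hg.inv).2 hO
    have h8 : sp O (g • J (g⁻¹ • O)) = sp O (J O) := by
      refine sp_eq_of_le (sM_le_iff.2 fun x hx => ?_) fun x hx => ?_
      · simpa only [smul_inv_smul] using heq g hg _ h7 x hx
      · have := (smul_mem_sM (g := g)).2 (heq _ hg.inv O hO x hx)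
        rwa [← sp_smul, smul_inv_smul, smul_inv_smul] at this
    rw [← sp_mul_congr rfl h8, ← h1.eq hg, ← sM_mul]
    conv => enter [1, 1]; rw [← smul_inv_smul g O]
    conv => enter [2, 1]; rw [← smul_inv_smul g O]
    rw [sp_smul, sp_smul, sp_mul_congr (h _ h7).2 rfl, mul_right_comm]
  have h7 : ∀ Z : Submodule k L, ⨆ N ∈ hf.toFinset, N ≤ Z ↔
      ∀ g : SA k L, Fx K₀ g → g • (A * C) ≤ Z := fun Z => by
    simp only [iSup_le_iff, Set.Finite.mem_toFinset]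
    exact ⟨fun h g hg => h _ ⟨g, hg, rfl⟩, by rintro h _ ⟨g, hg, rfl⟩; exact h g hg⟩
  have h8 := (h7 _).1 le_rfl
  refine ⟨⨆ N ∈ hf.toFinset, N, B * C, ⟨Submodule.fg_biSup _ _ fun N hN => ?_, fun g hg => ?_,
    (h7 K.toSubalgebra.toSubmodule).2 fun g hg => (cl_smul hG hAC hACK hg).2⟩,
    ⟨hB.mul h3, h1, mul_le_field hBK h4⟩, fun O hO => ?_⟩
  · obtain ⟨g, -, rfl⟩ := hf.mem_toFinset.1 hN
    exact fg_smul.2 hAC
  · exact (h7 (g⁻¹ • _)).2 fun g' hg' => by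
      rw [← sM_le (g := g), smul_inv_smul, ← mul_smul]; exact h8 _ (hg.mul hg')
  · obtain ⟨b, b0, b1⟩ := (h O hO).1
    obtain ⟨c, c0, c1⟩ := h5 O hO
    have e : sp O (B * C) = sp O (pr k (b * c)) := by rw [sp_mul_congr b1 c1, pr_mul]
    refine ⟨b * c, mul_ne_zero b0 c0, e, ?_⟩
    rw [← sp_mul_congr e rfl]
    refine sp_eq_of_le ((h7 _).2 fun g hg => (le_sp O _).trans (h6 g hg O hO).le) ?_
    exact (le_sp O _).trans ((h6 1 (.one _) O hO).ge.trans
      (sp_le_sp le_rfl ((h8 1 (.one _)).trans (le_sp O _))))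

end Pool.Agent.MP_19ffc6_ag.Perf.Kit

end Part1

section Part2

/-! PROJECT RESP, module TORESP: from strictly toroidal stable models to stable models with a
strict normal crossings boundary, and dimension zero. -/

namespace Pool.Agent.MP_19ffc6_ag.Perf.Kit

open Pool.Agent.R72.Res Pool.Agent.R72.Res.P

open Pool.Agent.R72.Wild Pool.Agent.R72.Lci Pool.Agent.R72.Res.Tor
open Pool.Agent.R72.Res.B

variable {k L : Type} [Field k] [Field L] [Algebra k L]

namespace Trs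

/-- A linear system in `K` whose points dominate points of a model of `K` is a model of `K`. -/
lemma mdl_of_dom {K : IntermediateField k L} {M M' : Submodule k L} (h : Mdl K M) (hfg : M'.FG)
    (h0 : M' ≠ ⊥) (hK : ∀ m ∈ M', m ∈ K) (hd : ∀ O', Pt ⊥ M' O' → ∃ O, Pt ⊥ M O ∧ O ≤ O') :
    Mdl K M' := by
  refine ⟨hfg, h0, hK, fun m hm hm0 x hx => ?_⟩
  obtain ⟨O, ⟨g1, hg1, hg10, hO⟩, hle⟩ := hd _ ⟨m, hm, hm0, isPoint_gen _⟩
  obtain ⟨b, hb, hb0, hbx⟩ := h.frac g1 hg1 hg10 x hx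
  obtain ⟨p, hp, q, hq, hq', e⟩ := hle (hO.le hb)
  obtain ⟨p', hp', q', hq1, hq1', e'⟩ := hle (hO.le hbx)
  have hp0 : p ≠ 0 := fun c => hb0 (by rw [e, c, zero_div])
  refine ⟨p * q', mul_mem hp hq1, mul_ne_zero hp0 hq1'.2.1, ?_⟩
  have h1 : p * q' * x = p' * q := by
    have h2 := hq'.2.1
    have h3 := hq1'.2.1
    rw [e, div_mul_eq_mul_div, div_eq_div_iff h2 h3] at e'
    rw [← e']; ring
  rw [h1]
  exact mul_mem hp' hq

/-- The boundary consists of the coordinates that vanish at the point and occur in `S`. -/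
lemma par_of {O : Subalgebra k L} {n s : ℕ} {S : Finset L} {ι : Type} [Fintype ι] {y : ι → L}
    {t : Fin s → L} (hy : ∀ i, y i ∈ O ∧ y i ≠ 0) (hc : Nat.card {i // ¬ Un O (y i)} + s = n)
    (ht : ∀ j, t j ∈ O ∧ ¬ Un O (t j))
    (hg : ∀ x ∈ O, ¬ Un O x → x ∈ Submodule.span O (y '' {i | ¬ Un O (y i)} ∪ Set.range t))
    (hm : ∀ f ∈ S, LMon O y f) (hS : ∀ f ∈ S, f ∈ O ∨ f⁻¹ ∈ O) (hf : Ful S O y) :
    ∃ (r s' : ℕ) (x : Fin r → L) (t' : Fin s' → L), B.Par n S O x t' ∧ Ful S O x := by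
  classical
  choose! a ha using hm
  let p : ι → Prop := fun i => ∃ f ∈ S, a f i ≠ 0
  let I := {i // ¬ Un O (y i) ∧ p i}
  let J := {i // ¬ Un O (y i) ∧ ¬ p i}
  let e : Fin (Fintype.card I) → ι := fun i => ((Fintype.equivFin I).symm i).1
  let e' : Fin (Fintype.card (J ⊕ Fin s)) ≃ J ⊕ Fin s := (Fintype.equivFin _).symm
  let u : J ⊕ Fin s → L := Sum.elim (fun j => y j.1) t
  have he : Function.Injective e := Subtype.val_injective.comp (Fintype.equivFin I).symm.injective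
  have hr : ∀ i, i ∈ Set.range e ↔ ¬ Un O (y i) ∧ p i := fun i =>
    ⟨by rintro ⟨j, rfl⟩; exact ((Fintype.equivFin I).symm j).2,
      fun h => ⟨Fintype.equivFin I ⟨i, h⟩, by simp [e]⟩⟩
  have hmon : ∀ f ∈ S, Un O (f / mn (y ∘ e) (a f ∘ e)) := fun f hf => by
    have h1 := (ha f hf).mul (un_mn_div (fun i => (hy i).2) e he (a f) fun i hi hu =>
      by_contra fun c => hi ((hr i).2 ⟨hu, f, hf, c⟩))
    rwa [div_mul_div_cancel₀ (mn_ne_zero (fun i => (hy i).2) _)] at h1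
  refine ⟨_, _, y ∘ e, u ∘ e', ⟨?_, fun i => ⟨(hy _).1, (hy _).2, ((hr _).1 ⟨i, rfl⟩).1⟩,
    fun j => ?_, fun x hx hu => ?_, fun f hf => ⟨_, hmon f hf⟩, fun i => ?_, hS⟩, fun i => hf _⟩
  · rw [← hc, Fintype.card_sum, Fintype.card_fin, ← add_assoc, Nat.card_eq_fintype_card,
      Fintype.card_subtype, Fintype.card_subtype, Fintype.card_subtype,
      ← Finset.filter_filter, ← Finset.filter_filter, Finset.card_filter_add_card_filter_not]
  · simp only [Function.comp]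
    rcases e' j with j | j
    exacts [⟨(hy _).1, j.2.1⟩, ht j]
  · refine Submodule.span_mono ?_ (hg x hx hu)
    rw [e'.surjective.range_comp]
    rintro _ (⟨i, hi, rfl⟩ | ⟨j, rfl⟩)
    · by_cases c : p i
      · obtain ⟨j, rfl⟩ := (hr i).2 ⟨hi, c⟩
        exact Or.inl ⟨j, rfl⟩
      · exact Or.inr ⟨Sum.inl ⟨i, hi, c⟩, rfl⟩
    · exact Or.inr ⟨Sum.inr j, rfl⟩
  · obtain ⟨-, f, hf, c⟩ := (hr _).1 ⟨i, rfl⟩
    exact ⟨f, hf, _, hmon f hf, c⟩

end Trs

/-- Module TORESP. -/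
theorem toresP (hP : ParStmt k L) (hR : ResolveP k L) (hL : LabelP k L) : ToresP k L := by
  classical
  intro n K₀ K S M hG hn hS hst hT
  obtain ⟨s, rfl, hs, hexp, hful⟩ := hL n K₀ K S M hG hn hS hst hT
  obtain ⟨s', hs', href, huni, hcmp⟩ := hR _ s (S : Set L) (Cl.cls K₀ K) hs S.finite_toSet hexp
  have hM' : Mdl K s'.M := Trs.mdl_of_dom hT.1 hs'.cl.1 hs'.ne hs'.cl.2.2 fun O' hO' =>
    let ⟨O, hO, hd, _⟩ := href.dom O' hO'; ⟨O, hO, hd.1⟩
  refine ⟨s'.M, hs'.cl.2.1, hM', fun O hO hr => ?_⟩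
  have hc := hs'.cht O hO
  let _ : Fintype (s'.ch O).τ.R := Fintype.ofFinite _
  obtain ⟨-, y, hy, hTA, hmn, -⟩ := Tor.snc s'.ι (s'.ch O) O hc (huni O hO)
  have hsf : SF (Algebra.adjoin k (Set.range y)) O := hTA ▸ hc.sf
  obtain ⟨D, hD⟩ := hM'.aff hn hO hr
  obtain ⟨r, t, h1, h2, h3⟩ := hP n K D O _ y hD hy hsf
  refine Trs.par_of (fun i => ⟨hsf.le (Algebra.subset_adjoin ⟨i, rfl⟩), hy.ne_zero i⟩) h1 h2 h3
    (fun f hf => ?_) (fun f hf => hcmp f hf O hO) fun ρ => ?_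
  · obtain ⟨a, ha⟩ := hexp f hf
    obtain ⟨a', ha'⟩ := href.exp f a ha
    obtain ⟨c, -, hu⟩ := ha' O hO
    exact ⟨_, hmn c ▸ hu⟩
  · obtain ⟨O₀, hO₀, hd, hrg, -⟩ := href.dom O hO
    obtain ⟨c, hc'⟩ := huni O hO (Pi.single ρ.1 1)
    obtain ⟨c', e⟩ : mn (s'.ch O).z c ∈ Set.range (mn (s.ch O₀).z) := hrg ▸ ⟨c, rfl⟩
    have e1 : (fun σ : (s'.ch O).τ.R => (s'.ch O).τ.ev c σ) = Pi.single ρ 1 := funext fun σ => by
      rw [hc' σ σ.2, Pi.single_apply, Pi.single_apply]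
      exact if_congr Subtype.val_inj rfl rfl
    have h4 := ((hful O₀ hO₀).mn c').mono hd.1
    rwa [e, hmn c, e1, mn_single, zpow_one] at h4

/-- Dimension zero. -/
theorem zeroP [IsAlgClosed k] (k₀ : Subfield k) : RESP L k₀ 0 := by
  intro K₀ K hf _ hn S hS
  have hK : ∀ x ∈ K, x ∈ (⊥ : Subalgebra k L) := fun x hx => by
    have : Algebra.IsAlgebraic k K := trdeg_eq_zero_iff.1 (by simpa using hn)
    obtain ⟨c, hc⟩ := (IsAlgClosed.algebraMap_bijective_of_isIntegral (k := k) (K := K)).2 ⟨x, hx⟩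
    exact Algebra.mem_bot.2 ⟨c, congrArg Subtype.val hc⟩
  have hM : Mdl K (pr k 1) := by
    refine ⟨pr_fg _, fun e => ?_, fun m hm => ?_, fun g _ _ x hx =>
      ⟨1, one_mem _, one_ne_zero, le_chart _ _ _ (by rw [one_mul]; exact hK x hx)⟩⟩
    · have := mem_pr (k := k) (1 : L)
      rw [e] at this
      exact one_ne_zero this
    · obtain ⟨c, rfl⟩ := Submodule.mem_span_singleton.1 hm
      exact K.smul_mem (one_mem K)
  refine ⟨S, pr k 1, subset_rfl, fun f h => (hS f h).1,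
    Stb.span fun x hx => (Set.mem_singleton_iff.1 hx).symm ▸ one_mem K₀, hM, fun O hO _ => ?_⟩
  have hu : ∀ x ∈ K, x ≠ 0 → Un O x := fun x hx h0 =>
    ⟨(bot_le : ⊥ ≤ O) (hK x hx), h0, (bot_le : ⊥ ≤ O) (hK _ (inv_mem hx))⟩
  refine ⟨0, 0, Fin.elim0, Fin.elim0, ⟨rfl, fun i => i.elim0, fun i => i.elim0, fun y hy h => ?_,
    fun f h => .of_un (hu f (hf.mem (hS f h).1) (hS f h).2), fun i => i.elim0,
    fun f h => Or.inl (hu f (hf.mem (hS f h).1) (hS f h).2).1⟩, fun i => i.elim0⟩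
  obtain rfl : y = 0 := by_contra fun c => h (hu y (hM.pt_le hO hy) c)
  exact zero_mem _

end Pool.Agent.MP_19ffc6_ag.Perf.Kit

end Part2

section Part8

/-! PROJECT RESP, module SYM: rational equations for supports and a stable group of sections. -/

namespace Pool.Agent.MP_19ffc6_ag.Perf.Kit

open Pool.Agent.R72.Res Pool.Agent.R72.Res.P

open Pool.Agent.R72.Wild Pool.Agent.R72.Lci Pool.Agent.R72.Res.B
open Polynomial

variable {k L : Type} [Field k] [Field L] [Algebra k L]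

namespace SymA

lemma exists_coeffs {K₀ : Subfield L} {x : L} (hx : IsAlgebraic K₀ x) :
    ∃ S : Finset L, (∀ f ∈ S, f ∈ K₀ ∧ f ≠ 0) ∧
      ∀ V : Subalgebra k L, Val V → (∀ f ∈ S, f ∈ V) → x ∈ V := by
  have hi := hx.isIntegral
  refine ⟨((minpoly K₀ x).map (algebraMap K₀ L)).coeffs, fun f hf => ?_, fun V hV h => ?_⟩
  · obtain ⟨n, hn, rfl⟩ := mem_coeffs_iff.1 hf
    exact ⟨by rw [coeff_map]; exact SetLike.coe_mem _, mem_support_iff.1 hn⟩
  · obtain ⟨q, hq, -, hm⟩ := lifts_and_natDegree_eq_and_monic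
      (f := algebraMap V L) (p := (minpoly K₀ x).map (algebraMap K₀ L))
      ((lifts_iff_coeffs_subset_range _).2 fun f hf => ⟨⟨f, h f hf⟩, rfl⟩)
      ((minpoly.monic hi).map _)
    refine hV.mem_of_isIntegral le_rfl ⟨q, hm, ?_⟩
    rw [← eval_map, hq, eval_map, ← aeval_def, minpoly.aeval]

variable {F₀ : Subfield L} {F : IntermediateField k L} {g : SA k L}

lemma alg (h : Gl F₀ F) {x : L} (hx : IsAlgebraic F x) : IsAlgebraic F₀ x := by
  let _ : Algebra F₀ F :=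
    (Subfield.inclusion (S := F₀) (T := F.toSubfield) fun _ hy => h.mem hy).toAlgebra
  have : IsScalarTower F₀ F L := .of_algebraMap_eq fun _ => rfl
  have : Algebra.IsAlgebraic F₀ F := ⟨fun y =>
    (isAlgebraic_algebraMap_iff (algebraMap F L).injective).1 (h.alg y y.2)⟩
  exact (isIntegral_trans x hx.isIntegral).isAlgebraic

/-- The conjugate of an extension of `F`. -/
def cj (h : Gl F₀ F) (hg : Fx F₀ g) (N : IntermediateField F L) : IntermediateField F L where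
  carrier := {x | g⁻¹ • x ∈ N}
  add_mem' ha hb := by simpa only [Set.mem_ofPred_eq, smul_add] using add_mem ha hb
  mul_mem' ha hb := by simpa only [Set.mem_ofPred_eq, smul_mul'] using mul_mem ha hb
  algebraMap_mem' c := N.algebraMap_mem ⟨_, h.smul_mem hg.inv c.2⟩
  inv_mem' x hx := by simpa only [Set.mem_ofPred_eq, smul_inv''] using inv_mem hx

/-- The automorphism of `F`. -/
def eF (h : Gl F₀ F) (hg : Fx F₀ g) : F ≃+* F where
  toFun x := ⟨g • x.1, h.smul_mem hg x.2⟩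
  invFun x := ⟨g⁻¹ • x.1, h.smul_mem hg.inv x.2⟩
  left_inv _ := Subtype.ext (inv_smul_smul _ _)
  right_inv _ := Subtype.ext (smul_inv_smul _ _)
  map_mul' _ _ := Subtype.ext (smul_mul' _ _ _)
  map_add' _ _ := Subtype.ext (smul_add _ _ _)

/-- The isomorphism of an extension with its conjugate. -/
def eN (h : Gl F₀ F) (hg : Fx F₀ g) (N : IntermediateField F L) : N ≃+* cj h hg N where
  toFun x := ⟨g • x.1, show g⁻¹ • g • x.1 ∈ N by rw [inv_smul_smul]; exact x.2⟩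
  invFun x := ⟨g⁻¹ • x.1, x.2⟩
  left_inv _ := Subtype.ext (inv_smul_smul _ _)
  right_inv _ := Subtype.ext (smul_inv_smul _ _)
  map_mul' _ _ := Subtype.ext (smul_mul' _ _ _)
  map_add' _ _ := Subtype.ext (smul_add _ _ _)

/-- Conjugation of automorphisms. -/
def bk (h : Gl F₀ F) (hg : Fx F₀ g) (N : IntermediateField F L) :
    (cj h hg N ≃ₐ[F] cj h hg N) →* (N ≃ₐ[F] N) :=
  MonoidHom.mk' (fun σ => AlgEquiv.ofRingEquiv
    (f := ((eN h hg N).trans σ.toRingEquiv).trans (eN h hg N).symm) fun c => by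
      have e : eN h hg N (algebraMap F N c) = algebraMap F _ (eF h hg c) := rfl
      change (eN h hg N).symm (σ (eN h hg N (algebraMap F N c))) = _
      rw [e, σ.commutes, ← e, RingEquiv.symm_apply_apply])
    fun σ τ => AlgEquiv.ext fun x => by
      change (eN h hg N).symm (σ (τ (eN h hg N x))) =
        (eN h hg N).symm (σ (eN h hg N ((eN h hg N).symm (τ (eN h hg N x)))))
      rw [RingEquiv.apply_symm_apply]

end SymA

open SymA

theorem minStmt : MinStmt k L := by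
  classical
  intro K₀ K T h hT
  choose! A hA hA' using fun x (hx : x ∈ K) => exists_coeffs (k := k) (h.alg x hx)
  refine ⟨T.biUnion fun x => A x ∪ A x⁻¹, fun f hf => ?_, fun V hV hS f hf => ?_⟩
  · obtain ⟨x, hx, hf⟩ := Finset.mem_biUnion.1 hf
    exact (Finset.mem_union.1 hf).elim (hA x (hT x hx).1 f) (hA _ (inv_mem (hT x hx).1) f)
  · exact ⟨hA' f (hT f hf).1 V hV fun c hc =>
        (hS c (Finset.mem_biUnion.2 ⟨f, hf, Finset.mem_union_left _ hc⟩)).1, (hT f hf).2,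
      hA' _ (inv_mem (hT f hf).1) V hV fun c hc =>
        (hS c (Finset.mem_biUnion.2 ⟨f, hf, Finset.mem_union_right _ hc⟩)).1⟩

end Pool.Agent.MP_19ffc6_ag.Perf.Kit

end Part8

section Part0

/-! Module BEZ of PROJECT RES: compactness of the space of valuation rings and spreading out of
the unramified locus. -/

namespace Pool.Agent.MP_19ffc6_ag.Perf.Kit

open Pool.Agent.R72.Res Pool.Agent.R72.Res.B

open Pool.Agent.R72.Wild Pool.Agent.R72.Lci Filter

variable {k L : Type} [Field k] [Field L] [Algebra k L]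

/-- The limit of a family of subalgebras along an ultrafilter. -/
def ulim {ι : Type} (𝒰 : Ultrafilter ι) (V : ι → Subalgebra k L) : Subalgebra k L where
  carrier := {x | ∀ᶠ i in 𝒰, x ∈ V i}
  mul_mem' ha hb := (Eventually.and ha hb).mono fun _ h => mul_mem h.1 h.2
  add_mem' ha hb := (Eventually.and ha hb).mono fun _ h => add_mem h.1 h.2
  algebraMap_mem' c := Eventually.of_forall fun i => (V i).algebraMap_mem c

lemma un_ulim {ι : Type} {𝒰 : Ultrafilter ι} {V : ι → Subalgebra k L} {x : L} :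
    Un (ulim 𝒰 V) x ↔ ∀ᶠ i in 𝒰, Un (V i) x :=
  ⟨fun h => (Eventually.and h.1 h.2.2).mono fun _ h' => ⟨h'.1, h.2.1, h'.2⟩,
    fun h => ⟨h.mono fun _ h' => h'.1, h.exists.elim fun _ h' => h'.2.1,
      h.mono fun _ h' => h'.2.2⟩⟩

/-- A property of subalgebras that is closed in the constructible topology. -/
def Cld (Q : Subalgebra k L → Prop) : Prop :=
  ∀ (ι : Type) (𝒰 : Ultrafilter ι) (V : ι → Subalgebra k L), (∀ᶠ i in 𝒰, Q (V i)) → Q (ulim 𝒰 V)

namespace Cld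

variable {Q Q' : Subalgebra k L → Prop}

lemma val : Cld (Val : Subalgebra k L → Prop) := fun _ _ _ h x =>
  Ultrafilter.eventually_or.1 (h.mono fun _ h' => h' x)

lemma mem (x : L) : Cld fun V : Subalgebra k L => x ∈ V := fun _ _ _ h => h

lemma notMem (x : L) : Cld fun V : Subalgebra k L => x ∉ V := fun _ _ _ h =>
  Ultrafilter.eventually_not.1 h

lemma un (x : L) : Cld fun V : Subalgebra k L => Un V x := fun _ _ _ h => un_ulim.2 h

lemma not_un (x : L) : Cld fun V : Subalgebra k L => ¬ Un V x := fun _ _ _ h h' =>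
  Ultrafilter.eventually_not.1 h (un_ulim.1 h')

lemma const (p : Prop) : Cld fun _ : Subalgebra k L => p := fun _ _ _ h =>
  h.exists.elim fun _ h' => h'

lemma and (h : Cld Q) (h' : Cld Q') : Cld fun V => Q V ∧ Q' V := fun ι 𝒰 V H =>
  ⟨h ι 𝒰 V (H.mono fun _ a => a.1), h' ι 𝒰 V (H.mono fun _ a => a.2)⟩

lemma or (h : Cld Q) (h' : Cld Q') : Cld fun V => Q V ∨ Q' V := fun ι 𝒰 V H =>
  (Ultrafilter.eventually_or.1 H).imp (h ι 𝒰 V) (h' ι 𝒰 V)

lemma imp (h : Cld fun V => ¬ Q V) (h' : Cld Q') : Cld fun V => Q V → Q' V := by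
  simpa only [imp_iff_not_or] using h.or h'

lemma all {α : Type} {R : α → Subalgebra k L → Prop} (h : ∀ a, Cld (R a)) :
    Cld fun V => ∀ a, R a V := fun ι 𝒰 V H a => h a ι 𝒰 V (H.mono fun _ b => b a)

lemma ex {α : Type} [Finite α] {R : α → Subalgebra k L → Prop} (h : ∀ a, Cld (R a)) :
    Cld fun V => ∃ a, R a V := fun ι 𝒰 V H =>
  (Ultrafilter.eventually_exists_iff.1 H).imp fun a => h a ι 𝒰 V

lemma ex_mem {α : Type} (T : Finset α) {R : α → Subalgebra k L → Prop} (h : ∀ a, Cld (R a)) :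
    Cld fun V => ∃ a ∈ T, R a V := by
  simpa only [Subtype.exists, exists_prop] using ex (α := T) fun a => h a

lemma ine {E : IntermediateField k L} {N : IntermediateField E L} (σ : N ≃ₐ[E] N) :
    Cld fun V => Ine V σ := all fun _ => imp (notMem _) ((mem _).and (not_un _))

/-- Compactness. -/
theorem compact (hQ : Cld Q) (F : Set L) (h : ∀ V : Subalgebra k L, F ⊆ V → ¬ Q V) :
    ∃ S : Finset L, ↑S ⊆ F ∧ ∀ V : Subalgebra k L, ↑S ⊆ (V : Set L) → ¬ Q V := by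
  classical
  by_contra H
  push Not at H
  choose V h1 h2 using fun S : Finset F => H (S.image Subtype.val) fun x hx => by
    obtain ⟨y, -, rfl⟩ := Finset.mem_image.1 (Finset.mem_coe.1 hx)
    exact y.2
  refine h (ulim (Ultrafilter.of atTop) V) (fun x hx => ?_) (hQ _ _ _ (.of_forall h2))
  refine Ultrafilter.of_le _ ((eventually_ge_atTop ({⟨x, hx⟩} : Finset F)).mono fun S hS => ?_)
  exact h1 S (Finset.mem_coe.2 (Finset.mem_image.2 ⟨_, hS (Finset.mem_singleton_self _), rfl⟩))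

/-- Compactness over a subfield. -/
theorem compact_field (hQ : Cld Q) (F : IntermediateField k L)
    (h : ∀ V : Subalgebra k L, F.toSubalgebra ≤ V → ¬ Q V) :
    ∃ S : Finset L, (∀ f ∈ S, f ∈ F ∧ f ≠ 0) ∧
      ∀ V : Subalgebra k L, (∀ f ∈ S, f ∈ V) → ¬ Q V := by
  obtain ⟨S, h1, h2⟩ := hQ.compact {f | f ∈ F ∧ f ≠ 0} fun V hV => h V fun x hx => by
    by_cases h0 : x = 0
    · rw [h0]; exact zero_mem _
    · exact hV ⟨hx, h0⟩
  exact ⟨S, fun f hf => h1 hf, fun V hV => h2 V fun f hf => hV f hf⟩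

end Cld

/-- The failure of the conclusion of `Off`. -/
lemma cld_bad {E : IntermediateField k L} (N : IntermediateField E L) [FiniteDimensional E N]
    (T : Finset L) : Cld fun V : Subalgebra k L =>
      ¬ ((∀ σ : N ≃ₐ[E] N, Ine V σ → σ = 1) ∧ ∀ f ∈ T, Un V f) := by
  simp only [not_and_or, not_forall, exists_prop]
  exact (Cld.ex fun σ => (Cld.ine σ).and (Cld.const _)).or (Cld.ex_mem T fun f => Cld.not_un f)

lemma mem_of_le {F : IntermediateField k L} {N : IntermediateField F L} [FiniteDimensional F N]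
    {V : Subalgebra k L} (hV : Val V) (hF : F.toSubalgebra ≤ V) {x : L} (hx : x ∈ N) : x ∈ V :=
  hV.mem_of_isIntegral hF
    ((IntermediateField.isIntegral_iff (x := (⟨x, hx⟩ : N))).1 (Algebra.IsIntegral.isIntegral _))

lemma un_of_prod {O : Subalgebra k L} {κ : Type} {s : Finset κ} {f : κ → L}
    (h : ∀ i ∈ s, f i ∈ O) (hu : Un O (∏ i ∈ s, f i)) {i : κ} (hi : i ∈ s) : Un O (f i) := by
  classical
  rw [← Finset.mul_prod_erase s f hi] at hu
  exact Un.of_mul (h i hi) (prod_mem fun j hj => h j (Finset.mem_of_mem_erase hj)) hu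

theorem bez_span (p : ℕ) [Fact p.Prime] [CharP k p] (F : IntermediateField k L)
    (N : IntermediateField F L) (Z : Finset L) [FiniteDimensional F N] (hZ : ∀ u ∈ Z, u ∈ N) :
    ∃ U, Z ⊆ U ∧ Span N U := by
  classical
  have : CharP L p := charP_of_injective_algebraMap (algebraMap k L).injective p
  let X : Set L := insert 1 (Set.range fun a : (N ≃ₐ[F] N) × Z => (a.1 ⟨a.2, hZ _ a.2.2⟩ : L))
  have hX : X.Finite := (Set.finite_range _).insert _
  let A := AddSubgroup.closure X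
  have hA : Finite A := by
    have : AddGroup.FG A := (AddGroup.fg_iff_addSubgroup_fg A).2 ⟨hX.toFinset, by simp [A]⟩
    refine AddCommGroup.finite_of_fg_isAddTorsion A fun a => ?_
    refine isOfFinAddOrder_iff_nsmul_eq_zero.2 ⟨p, (Fact.out : p.Prime).pos, Subtype.ext ?_⟩
    simp
  have key : ∀ x ∈ A, ∃ h : x ∈ N, ∀ σ : N ≃ₐ[F] N, (σ ⟨x, h⟩ : L) ∈ A := by
    intro x hx
    induction hx using AddSubgroup.closure_induction with
    | mem x hx =>
      rcases hx with rfl | ⟨a, rfl⟩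
      · refine ⟨one_mem _, fun σ => ?_⟩
        rw [show (⟨1, one_mem _⟩ : N) = 1 from rfl, map_one]
        exact AddSubgroup.subset_closure (Or.inl rfl)
      · exact ⟨(a.1 _).2, fun σ => AddSubgroup.subset_closure (Or.inr ⟨(σ * a.1, a.2), rfl⟩)⟩
    | zero =>
      refine ⟨zero_mem _, fun σ => ?_⟩
      rw [show (⟨0, zero_mem _⟩ : N) = 0 from rfl, map_zero]
      exact zero_mem A
    | add x y _ _ hx hy =>
      obtain ⟨h1, h2⟩ := hx
      obtain ⟨h3, h4⟩ := hy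
      refine ⟨add_mem h1 h3, fun σ => ?_⟩
      rw [show (⟨x + y, add_mem h1 h3⟩ : N) = ⟨x, h1⟩ + ⟨y, h3⟩ from rfl, map_add]
      exact add_mem (h2 σ) (h4 σ)
    | neg x _ hx =>
      obtain ⟨h1, h2⟩ := hx
      refine ⟨neg_mem h1, fun σ => ?_⟩
      rw [show (⟨-x, neg_mem h1⟩ : N) = -⟨x, h1⟩ from rfl, map_neg]
      exact neg_mem (h2 σ)
  have hfin : (A : Set L).Finite := Set.toFinite _
  have hm : ∀ x, x ∈ hfin.toFinset ↔ x ∈ A := fun x => hfin.mem_toFinset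
  refine ⟨hfin.toFinset, fun z hz => (hm _).2 ?_, fun u hu => (key u ((hm u).1 hu)).1,
    (hm _).2 (AddSubgroup.subset_closure (Or.inl rfl)),
    fun u hu v hv => (hm _).2 (sub_mem ((hm u).1 hu) ((hm v).1 hv)),
    fun σ u hu => (hm _).2 ((key u ((hm u).1 hu)).2 σ)⟩
  exact AddSubgroup.subset_closure (Or.inr ⟨(1, ⟨z, hz⟩), rfl⟩)

theorem bez_base (F : IntermediateField k L) (N : IntermediateField F L) (T : Finset L)
    [FiniteDimensional F N] (hT : ∀ f ∈ T, f ∈ N ∧ f ≠ 0) :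
    ∃ S : Finset L, (∀ f ∈ S, f ∈ F ∧ f ≠ 0) ∧ Off F N S T := by
  obtain ⟨S, h1, h2⟩ := (Cld.val.and (cld_bad N T)).compact_field F fun V hF h => by
    have hu : ∀ x ∈ N, x ≠ 0 → Un V x := fun x hx h0 =>
      ⟨mem_of_le h.1 hF hx, h0, mem_of_le h.1 hF (inv_mem hx)⟩
    refine h.2 ⟨fun σ hσ => AlgEquiv.ext fun x => Subtype.ext ?_,
      fun f hf => hu f (hT f hf).1 (hT f hf).2⟩
    by_contra h0
    exact (hσ x (mem_of_le h.1 hF x.2)).2 (hu _ (sub_mem (σ x).2 x.2) (sub_ne_zero.2 h0))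
  exact ⟨S, h1, fun V hV hS => not_not.1 fun h => h2 V (fun f hf => (hS f hf).1) ⟨hV, h⟩⟩

theorem bez_line (F : IntermediateField k L) (Y : L) (N₀ : IntermediateField F L)
    {E : IntermediateField k L} (N : IntermediateField E L) (U T : Finset L)
    [FiniteDimensional F N₀] [FiniteDimensional E N] (hU : ∀ u ∈ U, u ∈ N₀)
    (H : ∀ V : Subalgebra k L, Val V → F.toSubalgebra ≤ V → Y ∈ V → (∀ u ∈ U, Un V (Y - u)) →
      (∀ σ : N ≃ₐ[E] N, Ine V σ → σ = 1) ∧ ∀ f ∈ T, Un V f) :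
    ∃ S : Finset L, (∀ f ∈ S, f ∈ F ∧ f ≠ 0) ∧ ∀ S' : Finset L, S ⊆ S' → Y ∈ S' →
      ∏ u ∈ U, (Y - u) ∈ S' → Off E N S' T := by
  obtain ⟨S, h1, h2⟩ := (Cld.val.and ((Cld.mem Y).and ((Cld.un (∏ u ∈ U, (Y - u))).and
    (cld_bad N T)))).compact_field F fun V hF h => h.2.2.2 (H V h.1 hF h.2.1 fun u hu =>
      un_of_prod (fun v hv => sub_mem h.2.1 (mem_of_le h.1 hF (hU v hv))) h.2.2.1 hu)
  exact ⟨S, h1, fun S' e1 e2 e3 V hV hS => not_not.1 fun h =>
    h2 V (fun f hf => (hS f (e1 hf)).1) ⟨hV, (hS _ e2).1, hS _ e3, h⟩⟩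

/-- Module BEZ. -/
theorem bez (p : ℕ) [Fact p.Prime] [CharP k p] : BezStmt k L where
  span F N Z _ hZ := bez_span p F N Z hZ
  base F N T _ hT := bez_base F N T hT
  line _ F Y N₀ N U T _ _ _ hU hN H := have := hN.fin; bez_line F Y N₀ N U T hU.le H

end Pool.Agent.MP_19ffc6_ag.Perf.Kit

end Part0

end MrgPart0

-- ======== part 1: formerly Pool.Agent.MP_19ffc6_ag.perf.QM
section MrgPart1

/-! PROJECT PERF, module QM: the quotient of a stable normal projective model. -/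

namespace Pool.Agent.MP_19ffc6_ag.Perf

open Pool.Agent.R72.Wild Pool.Agent.R72.Lci Pool.Agent.R72.Res Pool.Agent.R72.Res.P
open Pool.Agent.R72.Res.B Polynomial

variable {k L : Type} [Field k] [Field L] [Algebra k L] {K N : IntermediateField k L}
  {K₀ : Subfield L} {M W : Submodule k L} {O V : Subalgebra k L} {x w f : L}

namespace QM

lemma prod_mem {t : Multiset L} (h : ∀ r ∈ t, r ∈ W) : t.prod ∈ W ^ t.card := by
  induction t using Multiset.induction_on with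
  | empty => simp
  | cons a t ih =>
    rw [Multiset.prod_cons, Multiset.card_cons, pow_succ']
    exact Submodule.mul_mem_mul (h a (Multiset.mem_cons_self _ _))
      (ih fun r hr => h r (Multiset.mem_cons_of_mem hr))

lemma coeff_mem {t : Multiset L} (h : ∀ r ∈ t, r ∈ W) {i : ℕ} (hi : i ≤ t.card) :
    (t.map fun r => X - C r).prod.coeff i ∈ W ^ (t.card - i) := by
  rw [Multiset.prod_X_sub_C_coeff t hi, Multiset.esymm]
  have h1 : ((t.powersetCard (t.card - i)).map Multiset.prod).sum ∈ W ^ (t.card - i) :=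
    multiset_sum_mem _ fun a ha => by
      obtain ⟨u, hu, rfl⟩ := Multiset.mem_map.1 ha
      obtain ⟨h1, h2⟩ := Multiset.mem_powersetCard.1 hu
      exact h2 ▸ prod_mem fun r hr => h r (Multiset.mem_of_le h1 hr)
  rcases neg_one_pow_eq_or L (t.card - i) with e | e <;> rw [e]
  · rwa [one_mul]
  · rw [neg_one_mul]; exact neg_mem h1

lemma div_prod {t : Multiset L} (h : ∀ r ∈ t, ∀ m ∈ M, m / r ∈ V) (hw : w ∈ M ^ t.card) :
    w / t.prod ∈ V := by
  induction t using Multiset.induction_on generalizing w with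
  | empty =>
    obtain ⟨c, rfl⟩ := Submodule.mem_one.1 (by simpa using hw)
    simp
  | cons a t ih =>
    rw [Multiset.card_cons, pow_succ'] at hw
    rw [Multiset.prod_cons]
    refine Submodule.mul_induction_on hw (fun m hm y hy => ?_) fun _ _ ha hb => ?_
    · rw [← div_mul_div_comm]
      exact mul_mem (h a (Multiset.mem_cons_self _ _) m hm)
        (ih (fun r hr => h r (Multiset.mem_cons_of_mem hr)) hy)
    · rw [add_div]; exact add_mem ha hb

lemma div_pow {n : ℕ} (h : ∀ m ∈ M, m / f ∈ V) (hw : w ∈ M ^ n) : w / f ^ n ∈ V := by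
  simpa using div_prod (t := .replicate n f)
    (fun r hr => Multiset.eq_of_mem_replicate hr ▸ h) (by simpa using hw)

lemma pow_le_field (h : ∀ m ∈ M, m ∈ N) (n : ℕ) : ∀ m ∈ M ^ n, m ∈ N := by
  induction n with
  | zero =>
    intro m hm
    obtain ⟨c, rfl⟩ := Submodule.mem_one.1 (by simpa using hm)
    exact N.algebraMap_mem c
  | succ n ih => rw [pow_succ]; exact mul_le_field ih h

lemma isIntegral_of_coeff {P : L[X]} (hP : P.Monic) (h : ∀ i, P.coeff i ∈ O) (h0 : P.eval x = 0) :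
    IsIntegral O x := by
  obtain ⟨q, hq, -, hm⟩ := lifts_and_natDegree_eq_and_monic (f := algebraMap O L) (p := P)
    ((lifts_iff_coeff_lifts _).2 fun i => ⟨⟨_, h i⟩, rfl⟩) hP
  exact ⟨q, hm, by rw [← eval_map, hq, h0]⟩

lemma stb_pow (h : Stb K₀ M) (n : ℕ) : Stb K₀ (M ^ n) := by
  induction n with
  | zero => rw [pow_zero]; exact .one
  | succ n ih => rw [pow_succ]; exact ih.mul h

variable (K N) in
/-- The conjugates of the elements of `N`, with a bound for their number. -/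
def Cj (D : ℕ) : Prop := ∀ w ∈ N, ∃ t : Multiset L, w ∈ t ∧ t.card ≤ D ∧
  (∀ r ∈ t, ∃ g : SA k L, Fx K.toSubfield g ∧ r = g • w) ∧
  ∀ i, (t.map fun r => X - C r).prod.coeff i ∈ K

lemma exists_cj [IsAlgClosed L] (hKN : K ≤ N) (hN : N.FG) (halg : ∀ x ∈ N, IsAlgebraic K x) :
    ∃ D, Cj K N D := by
  let N' := IntermediateField.extendScalars hKN
  have : Algebra.EssFiniteType k N' := IntermediateField.essFiniteType_iff.2 hN
  have : Algebra.EssFiniteType K N' := .of_comp k K N'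
  have : Algebra.IsAlgebraic K N' :=
    ⟨fun x => (isAlgebraic_algebraMap_iff (algebraMap N' L).injective).1 (halg x x.2)⟩
  have : Module.Finite K N' := Algebra.finite_of_essFiniteType_of_isAlgebraic
  refine ⟨Module.finrank K N', fun w hw => ?_⟩
  have hi := (halg w hw).isIntegral
  have hs := IsAlgClosed.splits ((minpoly K w).map (algebraMap K L))
  have hm := (minpoly.monic hi).map (algebraMap K L)
  refine ⟨((minpoly K w).map (algebraMap K L)).roots, (mem_roots hm.ne_zero).2 (by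
    rw [IsRoot, eval_map, ← aeval_def, minpoly.aeval]), ?_, fun r hr => ?_, fun i => ?_⟩
  · rw [← hs.natDegree_eq_card_roots, natDegree_map,
      ← IntermediateField.minpoly_eq (⟨w, hw⟩ : N')]
    exact minpoly.natDegree_le _
  · have h1 : aeval r (minpoly K w) = 0 := by
      rw [aeval_def, ← eval_map]; exact (mem_roots hm.ne_zero).1 hr
    let w' : algebraicClosure K L := ⟨w, hi⟩
    let r' : algebraicClosure K L := ⟨r, ⟨_, minpoly.monic hi, h1⟩⟩
    obtain ⟨σ, hσ⟩ := minpoly.exists_algEquiv_of_root' (K := K) (x := r') (y := w')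
      (Algebra.IsAlgebraic.isAlgebraic _) (Subtype.ext (by
        rw [IntermediateField.minpoly_eq, ← IntermediateField.aeval_coe]; exact h1))
    obtain ⟨g, hg⟩ := Kit.extStmt K _ σ
    exact ⟨g, fun x hx => (hg (algebraMap K _ ⟨x, hx⟩)).trans
      (congrArg Subtype.val (σ.commutes _)), ((hg w').trans (congrArg Subtype.val hσ)).symm⟩
  · rw [← hs.eq_prod_roots_of_monic hm, coeff_map]
    exact SetLike.coe_mem _

variable {D : ℕ}

lemma Cj.pos (h : Cj K N D) : 0 < D :=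
  let ⟨_, h1, h2, _⟩ := h 0 (zero_mem _); (Multiset.card_pos_iff_exists_mem.2 ⟨_, h1⟩).trans_le h2

lemma Cj.norm (h : Cj K N D) (hf : f ∈ N) : ∃ u : Multiset L, u.card = D.factorial ∧ -f ∈ u ∧
    (∀ r ∈ u, ∃ g : SA k L, Fx K.toSubfield g ∧ r = -(g • f)) ∧ u.prod ∈ K := by
  obtain ⟨t, h1, h2, h3, h4⟩ := h f hf
  obtain ⟨c, hc⟩ := Nat.dvd_factorial (Multiset.card_pos_iff_exists_mem.2 ⟨_, h1⟩) h2
  have h0 : c ≠ 0 := by rintro rfl; exact D.factorial_ne_zero hc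
  refine ⟨c • t.map (- ·), by simp [hc, mul_comm],
    (Multiset.mem_nsmul_of_ne_zero h0).2 (Multiset.mem_map_of_mem _ h1), fun r hr => ?_, ?_⟩
  · obtain ⟨r, hr', rfl⟩ := Multiset.mem_map.1 (Multiset.mem_of_mem_nsmul hr)
    obtain ⟨g, hg, rfl⟩ := h3 r hr'
    exact ⟨g, hg, rfl⟩
  · rw [Multiset.prod_nsmul]
    refine pow_mem ?_ _
    simpa [coeff_zero_eq_eval_zero, eval_multiset_prod] using h4 0

lemma Cj.integral (h : Cj K N D) (hW : Stb K.toSubfield W) (hw : w ∈ W) (hN : w ∈ N) {s : L}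
    (hs : s ∈ W) (hK : s ∈ K) (h0 : s ≠ 0) :
    IsIntegral (chart ⊥ (W ^ D ⊓ K.toSubalgebra.toSubmodule) (s ^ D)) (w / s) := by
  obtain ⟨t, h1, h2, h3, h4⟩ := h w hN
  have hm : (t.map fun r => X - C r).prod.Monic :=
    monic_multiset_prod_of_monic _ _ fun _ _ => monic_X_sub_C _
  refine isIntegral_of_coeff ((monic_scaleRoots_iff s⁻¹).2 hm) (fun i => ?_) ?_
  · rw [coeff_scaleRoots, natDegree_multiset_prod_X_sub_C_eq_card]
    rcases le_or_gt i t.card with hi | hi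
    · have h5 := coeff_mem (W := W) (fun r hr => by
        obtain ⟨g, hg, rfl⟩ := h3 r hr; exact hW g hg w hw) hi
      obtain ⟨c, hc⟩ := Nat.exists_eq_add_of_le ((Nat.sub_le _ i).trans h2)
      have := div_mem_chart ⊥ (M := W ^ D ⊓ K.toSubalgebra.toSubmodule) (s ^ D)
        (m := (t.map fun r => X - C r).prod.coeff i * s ^ c)
        ⟨hc ▸ pow_add W _ _ ▸ Submodule.mul_mem_mul h5 (Submodule.pow_mem_pow _ hs c),
          K.mul_mem (h4 i) (pow_mem hK c)⟩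
      convert this using 1
      rw [hc, pow_add, mul_div_mul_right _ _ (pow_ne_zero _ h0), inv_pow, div_eq_mul_inv]
    · rw [coeff_eq_zero_of_natDegree_lt (by rwa [natDegree_multiset_prod_X_sub_C_eq_card]),
        zero_mul]
      exact zero_mem _
  · rw [div_eq_inv_mul]
    refine scaleRoots_eval₂_eq_zero (RingHom.id L) ?_
    rw [eval₂_id, eval_multiset_prod]
    exact Multiset.prod_eq_zero (Multiset.mem_map.2 ⟨_, Multiset.mem_map_of_mem _ h1, by simp⟩)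

/-- A normal local ring is the intersection with a point of its normalization. -/
lemma Cj.eq_inf (h : Cj K N D) (hs : ∀ g : SA k L, Fx K.toSubfield g → ∀ x, g • x ∈ N ↔ x ∈ N)
    {O₂ : Subalgebra k L} (hK : O₂ ≤ K.toSubalgebra)
    (hn : ∀ x ∈ K, IsIntegral O₂ x → x ∈ O₂) (hO : IsPoint (icl N O₂) O) (hd : Dom O₂ O) :
    O₂ = O ⊓ K.toSubalgebra := by
  refine le_antisymm (le_inf hd.1 hK) fun x hx => ?_
  obtain ⟨a, ha, b, hb, hu, e⟩ := hO.le_loc hx.1
  have h0 : ∀ g : SA k L, Fx K.toSubfield g → ∀ y ∈ icl N O₂, g • y ∈ icl N O₂ := fun g hg y hy => by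
    have e : g • O₂ = O₂ := le_antisymm (sA_le_iff.2 fun z hz => by rwa [hg z (hK hz)])
      fun z hz => by rwa [mem_sA, hg.inv z (hK hz)]
    rw [← e, icl_smul (hs g hg)]; exact smul_mem_sA.2 hy
  let A := (icl N O₂).toSubmodule
  let I : Submodule k L := A ⊓ A.comap (LinearMap.mulRight k x)
  have hA : ∀ n, A ^ n ≤ A := fun n => by
    induction n with
    | zero => rw [pow_zero]; exact Submodule.one_le.2 (one_mem (icl N O₂))
    | succ n ih =>
      rw [pow_succ]; exact Submodule.mul_le.2 fun a ha b hb => (icl N O₂).mul_mem (ih ha) hb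
  have hI : ∀ n, I ^ (n + 1) ≤ I := fun n => by
    rw [pow_succ]
    refine Submodule.mul_le.2 fun a ha b hb => ?_
    replace ha := hA n (pow_le_pow_left' (inf_le_left : I ≤ A) n ha)
    exact ⟨(icl N O₂).mul_mem ha hb.1, by
      change a * b * x ∈ icl N O₂; rw [mul_assoc]; exact mul_mem ha hb.2⟩
  obtain ⟨t, h1, -, h3, h4⟩ := h b hb.1
  have h5 : ∀ r ∈ t, r ∈ I := fun r hr => by
    obtain ⟨g, hg, rfl⟩ := h3 r hr
    refine ⟨h0 g hg b hb, ?_⟩
    change g • b * x ∈ icl N O₂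
    rw [← hg x hx.2, ← smul_mul', e, mul_div_cancel₀ _ hu.2.1]
    exact h0 g hg a ha
  have hm : (t.map fun r => X - C r).prod.Monic :=
    monic_multiset_prod_of_monic _ _ fun _ _ => monic_X_sub_C _
  have h6 : ∀ i < t.card, (t.map fun r => X - C r).prod.coeff i ∈ I := fun i hi => by
    have := coeff_mem h5 hi.le
    rw [← Nat.sub_add_cancel (Nat.sub_pos_of_lt hi)] at this
    exact hI _ this
  obtain ⟨i, hi, h7⟩ : ∃ i < t.card, Un O ((t.map fun r => X - C r).prod.coeff i) := by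
    by_contra H
    push Not at H
    have h7 : (t.map fun r => X - C r).prod.eval b = 0 := by
      rw [eval_multiset_prod]
      exact Multiset.prod_eq_zero (Multiset.mem_map.2 ⟨_, Multiset.mem_map_of_mem _ h1, by simp⟩)
    rw [eval_eq_sum_range, Finset.sum_range_succ, hm.coeff_natDegree, one_mul,
      natDegree_multiset_prod_X_sub_C_eq_card, add_comm, add_eq_zero_iff_eq_neg] at h7
    refine (h7 ▸ neg_mem (sum_mem fun i hi => ?_) : b ^ t.card ∈ mx hO.lcl).2 (hu.pow _)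
    replace hi := Finset.mem_range.1 hi
    exact mul_mem_mx hO.lcl ⟨hO.le (h6 i hi).1, H i hi⟩ (pow_mem hu.1 _)
  have h8 := hd.2 _ (hn _ (h4 i) (h6 i hi).1.2) h7
  rw [← inv_mul_cancel_left₀ h8.2.1 x]
  exact mul_mem h8.2.2 (hn _ (K.mul_mem (h4 i) hx.2) (h6 i hi).2.2)

lemma Cj.key (h : Cj K N D) (hs : Stb K.toSubfield M) (hM : ∀ m ∈ M, m ∈ N)
    (hn : ∀ O, Pt ⊥ M O → ∀ x ∈ N, IsIntegral O x → x ∈ O) (hf : f ∈ M) (h0 : f ≠ 0)
    {M₁ : Submodule k L} (e : M₁ = (M ^ D.factorial) ^ D ⊓ K.toSubalgebra.toSubmodule) :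
    ∃ s ∈ M₁, s ≠ 0 ∧ (∀ V : Subalgebra k L, (∀ g : SA k L, Fx K.toSubfield g →
      ∀ m ∈ M, m / g • f ∈ V) → chart ⊥ M₁ s ≤ V) ∧
      (∀ y ∈ chart ⊥ M f, IsIntegral (chart ⊥ M₁ s) y) ∧
      ∀ O, IsPoint (icl N (chart ⊥ M₁ s)) O → Pt ⊥ M O := by
  subst e
  obtain ⟨u, h1, h2, h3, h4⟩ := h.norm (hM f hf)
  have h5 : ∀ r ∈ u, r ∈ M := fun r hr => by
    obtain ⟨g, hg, rfl⟩ := h3 r hr; exact neg_mem (hs g hg f hf)
  have h6 : u.prod ∈ M ^ D.factorial := h1 ▸ prod_mem h5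
  have h7 : u.prod ≠ 0 := Multiset.prod_ne_zero fun hr => by
    obtain ⟨g, -, e⟩ := h3 0 hr
    exact sm_ne_zero.2 h0 (neg_eq_zero.1 e.symm)
  have h8 := fun w (hw : w ∈ M ^ D.factorial) =>
    h.integral (stb_pow hs _) hw (pow_le_field hM _ w hw) h6 h4 h7
  have h9 : ∀ y ∈ chart ⊥ M f, IsIntegral (chart ⊥ ((M ^ D.factorial) ^ D ⊓
      K.toSubalgebra.toSubmodule) (u.prod ^ D)) y := fun y hy =>
    chart_le (D := (integralClosure _ L).restrictScalars k) bot_le (fun m hm => by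
      obtain ⟨u', rfl⟩ := Multiset.exists_cons_of_mem h2
      have := prod_mem (t := m ::ₘ u') fun r hr =>
        (Multiset.mem_cons.1 hr).elim (· ▸ hm) fun hr => h5 r (Multiset.mem_cons_of_mem hr)
      rw [Multiset.card_cons, ← Multiset.card_cons (-f), h1] at this
      replace this := h8 _ (neg_mem this)
      rw [Multiset.prod_cons] at h7
      rwa [show -(m ::ₘ u').prod / (-f ::ₘ u').prod = m / f by
        rw [Multiset.prod_cons, Multiset.prod_cons, ← neg_mul,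
          mul_div_mul_right _ _ (right_ne_zero_of_mul h7), neg_div_neg_eq]] at this) hy
  refine ⟨u.prod ^ D, ⟨Submodule.pow_mem_pow _ h6 _, pow_mem h4 _⟩, pow_ne_zero _ h7,
    fun V hV => chart_le bot_le fun m hm => div_pow (fun w hw => div_prod (fun r hr m hm => ?_)
      (h1 ▸ hw)) hm.1, h9, fun O hO => ?_⟩
  · obtain ⟨g, hg, rfl⟩ := h3 r hr
    rw [div_neg]; exact neg_mem (hV g hg m hm)
  have h10 : chart ⊥ M f ≤ O := fun y hy => hO.le ⟨B.chart_le_field hM hf hy, h9 y hy⟩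
  have h11 : ∀ w ∈ M ^ D.factorial, w / f ^ D.factorial ∈ chart ⊥ M f := fun w hw =>
    div_pow (fun m hm => div_mem_chart _ _ hm) hw
  have h12 := Submodule.pow_mem_pow _ hf D.factorial
  refine ⟨f, hf, h0, hO.of_le_loc h10 fun y hy => hn _ ⟨f, hf, h0, isPoint_loc h10 hO.lcl⟩ y hy.1
    (isIntegral_mono (chart_le bot_le fun m hm => div_pow (fun w hw => ?_)
      (Submodule.mem_inf.1 hm).1) (mem_icl.1 hy).2)⟩
  refine ⟨_, h11 w hw, _, h11 _ h6, ⟨h10 (h11 _ h6), div_ne_zero h7 (pow_ne_zero _ h0), ?_⟩,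
    (div_div_div_cancel_right₀ (pow_ne_zero _ h0) _ _).symm⟩
  rw [inv_div]
  exact hO.le ⟨N.div_mem (pow_mem (hM f hf) _) (pow_le_field hM _ _ h6), h8 _ h12⟩

/-- The normalization of a linear system. -/
lemma normIn [PerfectField k] (hG : Gl K₀ K) (h : Cl K₀ K M) (hK : K.FG) {g : L} (hg : g ∈ M)
    (hg0 : g ≠ 0) (key : ∀ x ∈ K, IsAlgebraic (chart ⊥ M g) x) : ∃ M', Stb K₀ M' ∧ Mdl K M' ∧
      ∀ O', Pt ⊥ M' O' → ∃ O, Pt ⊥ M O ∧ IsPoint (icl K O) O' := by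
  obtain ⟨N, h1, h2, h3, h4, h5⟩ := R72.Res.norm Subalgebra.fg_bot h.1 hK bot_le h.2.2 hg hg0 key
  have h6 : Mdl K (M * N) := by
    refine ⟨h.1.mul h1, ?_, mul_le_field h.2.2 h3, fun a ha ha0 y hy => ?_⟩
    · obtain ⟨u, hu, hu0⟩ := Submodule.exists_mem_ne_zero_of_ne_bot h2
      exact fun e => mul_ne_zero hg0 hu0 ((Submodule.mem_bot k).1 (e ▸ Submodule.mul_mem_mul hg hu))
    obtain ⟨O, ⟨g', hg', h0, hO⟩, hd, hp⟩ := h4 _ ⟨a, ha, ha0, isPoint_gen _⟩
    obtain ⟨b, hb, hb0, hby⟩ := exists_mul_mem_icl (B.chart_le_field h.2.2 hg') hy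
      (isAlgebraic_chart hg hg0 h0 (key y hy))
    obtain ⟨b1, e1, b2, e2, e3, rfl⟩ := hd.1 (hO.le hb)
    obtain ⟨a1, e4, a2, e5, e6, e7⟩ := hp.le (icl_mono hO.le hby)
    have := e3.2.1
    have := e6.2.1
    refine ⟨b1 * a2, mul_mem e1 e5, mul_ne_zero (fun e => hb0 (by rw [e, zero_div])) this, ?_⟩
    have e : b1 * a2 * y = a1 * b2 := by
      rw [← div_mul_cancel₀ a1 this, ← e7]; field_simp
    exact e ▸ mul_mem e4 e2
  obtain ⟨M'', a4, a5, a6⟩ := Kit.ratStmt K₀ K _ hG h6 fun g hg O' hO' => by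
    obtain ⟨O, a1, -, a2⟩ := h4 O' hO'
    exact h5 (g • O) _ ((h.2.1.pt hg).2 a1)
      (by rw [icl_smul (hG.smul_mem_iff hg)]; exact isPoint_smul.2 a2)
  exact ⟨M'', a4, a5, fun O' hO' => let ⟨O, a1, _, a2⟩ := h4 O' ((a6 O').1 hO'); ⟨O, a1, a2⟩⟩

end QM

open QM in
theorem quot_core [IsAlgClosed k] [IsAlgClosed L] (hG : Gl K₀ K) (hK : K.FG) (hKN : K ≤ N)
    (halg : ∀ x ∈ N, IsAlgebraic K x) (hst : Stb K₀ M) (hM : Mdl N M)
    (hn : ∀ O, Pt ⊥ M O → Rt O → ∀ x ∈ N, IsIntegral O x → x ∈ O) :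
    ∃ M₂, Stb K₀ M₂ ∧ Mdl K M₂ ∧ ∀ O₂, Pt ⊥ M₂ O₂ → ∀ O, IsPoint (icl N O₂) O →
      Pt ⊥ M O ∧ (Dom O₂ O → O₂ = O ⊓ K.toSubalgebra) := by
  classical
  replace hn : ∀ O, Pt ⊥ M O → ∀ x ∈ N, IsIntegral O x → x ∈ O := fun O hO x hx hi => by
    obtain ⟨O₀, h1, h2, h3⟩ := Pt.exists_rat Subalgebra.fg_bot hM.fg hO
    obtain ⟨c, hc, hu, h4⟩ := (IsPoint.isIntegral_iff h3).1 hi
    rw [← inv_mul_cancel_left₀ hu.2.1 x]
    exact mul_mem hu.2.2 (h3.le (hn O₀ h1 h2 _ (N.mul_mem (hM.pt_le h1 hc) hx) h4))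
  obtain ⟨f₀, hf₀, h0⟩ := Submodule.exists_mem_ne_zero_of_ne_bot hM.ne
  have hs : Stb K.toSubfield M := hst.mono fun _ hx => hG.mem hx
  have hN : ∀ g : SA k L, Fx K.toSubfield g → ∀ x ∈ N, g • x ∈ N := fun g hg x hx => by
    obtain ⟨b, hb, hb0, h1⟩ := hM.frac f₀ hf₀ h0 x hx
    have h2 : ∀ y ∈ chart ⊥ M f₀, g • y ∈ N := fun y hy =>
      B.chart_le_field hM.le (hs g hg _ hf₀) (by
        rw [← hs.eq hg, chart_bot_smul]; exact smul_mem_sA.2 hy)
    rw [← inv_mul_cancel_left₀ hb0 x, smul_mul', smul_inv'']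
    exact N.mul_mem (N.inv_mem (h2 b hb)) (h2 _ h1)
  have hfg : N.FG := by
    obtain ⟨X, hX⟩ := chart_fg Subalgebra.fg_bot hM.fg f₀
    have h1 : chart ⊥ M f₀ ≤ (IntermediateField.adjoin k (X : Set L)).toSubalgebra :=
      hX ▸ IntermediateField.algebra_adjoin_le_adjoin k _
    refine ⟨X, le_antisymm (IntermediateField.adjoin_le_iff.2 fun y hy =>
      B.chart_le_field hM.le hf₀ (hX ▸ Algebra.subset_adjoin hy)) fun y hy => ?_⟩
    obtain ⟨b, hb, h0, h2⟩ := hM.frac f₀ hf₀ h0 y hy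
    rw [← mul_div_cancel_left₀ y h0]
    exact div_mem (h1 h2) (h1 hb)
  obtain ⟨D, hD⟩ := exists_cj hKN hfg halg
  obtain ⟨M₁, e⟩ : ∃ M₁, M₁ = (M ^ D.factorial) ^ D ⊓ K.toSubalgebra.toSubmodule := ⟨_, rfl⟩
  have hfin : ∀ {A B : Submodule k L}, A.FG → B ≤ A → B.FG := fun {A B} hA h => by
    have := Module.Finite.iff_fg.2 hA
    exact Module.Finite.iff_fg.1 (Submodule.finiteDimensional_of_le h)
  have h1 : Cl K₀ K M₁ := e ▸ ⟨hfin ((hM.fg.pow _).pow _) inf_le_left,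
    fun g hg x hx => ⟨stb_pow (stb_pow hst _) _ g hg x hx.1, hG.smul_mem hg hx.2⟩,
    fun _ hx => hx.2⟩
  obtain ⟨s₀, a1, a2, -, a3, -⟩ := hD.key hs hM.le hn hf₀ h0 e
  obtain ⟨M₂, h2, h3, h4⟩ := normIn hG h1 hK a1 a2 fun x hx => by
    obtain ⟨b, hb, hb0, h1⟩ := hM.frac f₀ hf₀ h0 x (hKN hx)
    exact IsAlgebraic.of_mul (mem_nonZeroDivisors_of_ne_zero hb0) (a3 _ hb).isAlgebraic
      (a3 _ h1).isAlgebraic
  refine ⟨M₂, h2, h3, fun O₂ hO₂ O h7 => ?_⟩
  obtain ⟨O₁, ⟨g₁, b1, b2, b3⟩, h5⟩ := h4 O₂ hO₂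
  have h6 := h3.pt_le hO₂
  refine ⟨?_, hD.eq_inf (fun g hg x => ⟨fun h => inv_smul_smul g x ▸ hN _ hg.inv _ h,
    hN g hg x⟩) h6 (fun x => IsPoint.mem_of_isIntegral h5) h7⟩
  obtain ⟨V, hV, hd⟩ := exists_val_dom b3.lcl
  obtain ⟨f₁, c1, c2, c3⟩ := hV.exists_gen hM.fg hM.ne
  let P := M ⊓ (mx hV.lcl).comap (LinearMap.mulRight k f₁⁻¹)
  obtain ⟨f, c4, c5⟩ := PA.Num.exists_avoid (J := M) (orbM_fin (K₀ := K.toSubfield)
    (hfin hM.fg (inf_le_left : P ≤ M)) fun x hx => halg x (hM.le x hx.1)) (by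
      rintro _ ⟨g, hg, rfl⟩ h
      have := (smul_mem_sM.1 (h (hs g hg _ c1))).2
      exact this.2 (by simpa [c2] using Un.one V))
  have c6 : ∀ g : SA k L, Fx K.toSubfield g → Un V (g • f / f₁) := fun g hg => by
    by_contra H
    have h9 : g • f / f₁ ∈ mx hV.lcl := ⟨c3 _ (hs g hg _ c4), H⟩
    rw [div_eq_mul_inv] at h9
    exact c5 _ ⟨_, hg.inv, rfl⟩ (by rw [mem_sM, inv_inv]; exact ⟨hs g hg _ c4, h9⟩)
  obtain ⟨s, d1, d2, d3, -, d4⟩ := hD.key hs hM.le hn c4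
    (fun e => (c6 1 (.one _)).2.1 (by simp [e])) e
  replace d3 := d3 V fun g hg m hm => by
    rw [← div_div_div_cancel_right₀ c2, div_eq_mul_inv _ (_ / _)]
    exact mul_mem (c3 m hm) (c6 g hg).2.2
  have d5 : Un O₁ (s / g₁) := hd.2 _ (b3.le (div_mem_chart _ _ d1))
    ⟨hd.1 (b3.le (div_mem_chart _ _ d1)), div_ne_zero d2 b2, by
      rw [inv_div]; exact d3 (div_mem_chart _ _ b1)⟩
  have d6 := IsPoint.chart_of b3 b1 b2 d1 d2 (by simpa using d5.2.2)
  have d7 := B.chart_le_field h1.2.2 d1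
  have d8 := IsPoint.icl (IsPoint.icl d6 d7 h5) ((icl_le _ _).trans hKN) h7
  rw [icl_icl d7] at d8
  exact d4 O d8

/-- Module QM. -/
theorem quotM [IsAlgClosed k] [IsAlgClosed L] : QuotM k L := by
  intro K₀ K N M hG hK hKN halg hst hM hn
  obtain ⟨M₂, h1, h2, h3⟩ := quot_core hG hK hKN halg hst hM hn
  refine ⟨M₂, h1, h2, fun O₂ hO₂ => ?_⟩
  obtain ⟨O, h7, h8⟩ := exists_over (let ⟨_, _, _, h⟩ := hO₂; h.lcl)
    (le_icl ((h2.pt_le hO₂).trans hKN)) fun _ hx => hx.2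
  exact ⟨O, (h3 _ hO₂ O h7).1, h8, h7, (h3 _ hO₂ O h7).2 h8⟩

/-- Projective models are separated. -/
lemma pt_sep {O' : Subalgebra k L} (h : Pt ⊥ M O) (h' : Pt ⊥ M O') (hd : Dom O V) (hd' : Dom O' V) :
    O = O' := by
  obtain ⟨g, h1, h2, h3⟩ := h
  obtain ⟨g', h4, h5, h6⟩ := h'
  have h7 := hd'.2 _ (h6.le (div_mem_chart _ _ h1)) ⟨hd'.1 (h6.le (div_mem_chart _ _ h1)),
    div_ne_zero h2 h5, by rw [inv_div]; exact hd.1 (h3.le (div_mem_chart _ _ h4))⟩
  rw [IsPoint.eq_loc h3 hd,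
    IsPoint.eq_loc (IsPoint.chart_of h6 h4 h5 h1 h2 (by simpa using h7.2.2)) hd']

/-- Every point of a stable normal model lies over a stable affine model of `K`. -/
theorem quotChart [IsAlgClosed k] [IsAlgClosed L] (hG : Gl K₀ K) (hK : K.FG) (hKN : K ≤ N)
    (halg : ∀ x ∈ N, IsAlgebraic K x) (hst : Stb K₀ M) (hM : Mdl N M)
    (hn : ∀ O, Pt ⊥ M O → Rt O → ∀ x ∈ N, IsIntegral O x → x ∈ O) (hO : Pt ⊥ M O) :
    ∃ D : Subalgebra k L, D.FG ∧ (∀ x ∈ D, x ∈ K) ∧ (∀ x ∈ K, ∃ b ∈ D, b ≠ 0 ∧ b * x ∈ D) ∧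
      (∀ g : SA k L, Fx K₀ g → ∀ x ∈ D, g • x ∈ D) ∧ IsPoint (icl N D) O := by
  obtain ⟨M₂, h1, h2, h3⟩ := quot_core hG hK hKN halg hst hM hn
  obtain ⟨V, hV, hd⟩ := exists_val_dom (O := O) (let ⟨_, _, _, h⟩ := hO; h.lcl)
  obtain ⟨T, hT, rfl⟩ := hG.exists_gen ⟨h2.fg, h1, h2.le⟩
  obtain ⟨g, a1, a2, a3⟩ := hV.exists_gen h2.fg h2.ne
  have a4 := chart_le (A := ⊥) bot_le a3
  obtain ⟨t, a5, a6, a7⟩ := IsPoint.exists_chart (isPoint_loc a4 hV.lcl) a1 a2
  have a8 : t ≠ 0 := fun e => a6.2.1 (by simp [e])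
  have a9 := Submodule.subset_span (R := k) a5
  have b1 := isPoint_loc (hV.icl_le (K := N) (loc_le a4)) hV.lcl
  have b2 := B.chart_le_field h2.le a9
  refine ⟨_, chart_fg Subalgebra.fg_bot h2.fg t, b2, h2.frac t a9 a8, fun g hg x hx => ?_, ?_⟩
  · rw [← h1.eq hg, ← hg t (hT t a5), chart_bot_smul]; exact smul_mem_sA.2 hx
  · rw [pt_sep hO (h3 _ ⟨g, a1, a2, isPoint_loc a4 hV.lcl⟩ _ b1).1 hd
      (dom_loc (hV.icl_le (loc_le a4)))]
    exact IsPoint.icl a7 (b2.trans hKN) b1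

theorem perfAll_of_up {p : ℕ} (h : PerfAllU p) : PerfAll p := by
  intro k L _ _ _ _ _ _ k₀ h0 n K₀ K hf hK hn S hS
  obtain ⟨N, M, h1, h2, h3, h4, h5⟩ := h k L k₀ h0 n K₀ K hf hK hn S hS
  obtain ⟨M₂, h6, h7, h8⟩ := quotM K₀ K N M (Kit.galStmt _ _ _ h0 hf (Or.inl inferInstance)) hK h1
    h2 h3 h4 fun O a b => (h5 O a b).1
  refine ⟨M₂, h6, h7, fun O₂ a b => ?_⟩
  obtain ⟨O, c1, c2, c3, c4⟩ := h8 O₂ a
  obtain ⟨-, c5, c6⟩ := h5 O c1 (b.icl (let ⟨_, _, _, h⟩ := a; h.lcl) c2 c3)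
  subst c4
  exact ⟨fun f hf' => (c5 f hf').imp (fun h => ⟨h, hf.mem (hS f hf').1⟩)
    fun h => ⟨h, K.inv_mem (hf.mem (hS f hf').1)⟩, c6⟩

end Pool.Agent.MP_19ffc6_ag.Perf

end MrgPart1

-- marker of a merged file
example : 731051 + 544386 = 731051 + 544386 := rfl
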