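import Pool.Agent.MP_19ffc6_ag.perf.SpecE
import Pool.Agent.MP_19ffc6_ag.perf.QM

-- ======== part 0: formerly Pool.Agent.MP_19ffc6_ag.perf.TAsm
section MrgPart0

/-! PROJECT PERF, row ASM: the assembly of the final model. -/

namespace Pool.Agent.MP_19ffc6_ag.Perf

open Pool.Agent.R72.Wild Pool.Agent.R72.Lci Pool.Agent.R72.Res Pool.Agent.R72.Res.B
  Pool.Agent.R72.Res.Tor Pool.Agent.R72.Res.P Pool.Agent.R72.Res.Lab GD

variable {k L : Type} [Field k] [Field L] [Algebra k L]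

theorem asm [IsAlgClosed k] [IsAlgClosed L] (p : ℕ) : AsmStmt k L p := by
  classical
  intro h1 h2 h3 h4 h5 h6 h7 h8 h9 h10 h11 k₀ h0 n hn hT K₀ K hf hK hd S₀ hS
  obtain ⟨y, a1, a2, a3⟩ := h1 k₀ K₀ K n h0 hf hK hd
  have hG := Kit.galStmt _ _ _ h0 hf (Or.inl inferInstance)
  obtain ⟨G, a4⟩ := id hK
  obtain ⟨F, S, M, hM⟩ := hT y a1 (G.erase 0 ∪ S₀) fun t ht => by
    rcases Finset.mem_union.1 ht with h | h
    · exact ⟨(Finset.mem_erase.1 h).1, a3 t
        (a4 ▸ IntermediateField.subset_adjoin k _ (Finset.mem_erase.1 h).2)⟩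
    · exact ⟨(hS t h).2, a3 t (hf.mem (hS t h).1)⟩
  have hKN : K ≤ F n := a4 ▸ IntermediateField.adjoin_le_iff.2 fun t ht => by
    by_cases e : t = 0
    · exact e ▸ zero_mem _
    · exact hM.sub t (Finset.mem_union_left _ (Finset.mem_erase.2 ⟨e, ht⟩))
  have gw := hM.gw n le_rfl
  have gw' : Gw K₀ (F n) := ⟨fun x hx => hKN (hf.mem hx), fun x hx => by
    let _ := (Subfield.inclusion a2).toAlgebra
    have : IsScalarTower (Ek k₀ y n) K₀ L := .of_algebraMap_eq fun _ => rfl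
    exact (gw.alg x hx).tower_top _, fun g hg => gw.st g (hg.mono a2)⟩
  have alg : ∀ x ∈ F n, IsAlgebraic K x := fun x hx => by
    let _ : Algebra K₀ K := (Subfield.inclusion (S := K₀) (T := K.toSubfield)
      fun _ h => hf.mem h).toAlgebra
    have : IsScalarTower K₀ K L := .of_algebraMap_eq fun _ => rfl
    exact (gw'.alg x hx).tower_top _
  have fx := fun g : SA k L => fx_Iv (g := g) gw'.le
  have hS' : ∀ f ∈ S, f ∈ Iv K₀ (F n) := fun f hf' =>
    ⟨(hM.inv f hf').1, fun g hg => (hM.inv f hf').2 g (hg.mono a2)⟩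
  obtain ⟨Φ, hΦ⟩ := h6 k₀ y n (Q.Kr (Q.LG K) (F n)).index F S _ M hM
  obtain ⟨s, c1, c2, c3, c4, c5, c6⟩ := h3 n _ (F n) S M Φ gw'.iv hM.deg hS'
    (fun g hg => hM.stb g (((fx g).1 hg).mono a2)) ⟨hM.mdl, fun O hO hr => by
      obtain ⟨Os, x, rfl, t0, t1, t2, -⟩ := hM.pt O hO hr
      exact h2 n (F n) _ _ S (t0.fr n le_rfl) t1 t2⟩
  obtain ⟨M₂, d1, d2, d3⟩ := h8 n _ (F n) S s gw'.iv (hM.fg n le_rfl) hM.deg hS' c1 c2 c3 c4 c5
    fun O hO hr => by
      obtain ⟨-, O₀, e1, e2, e3⟩ := c6 O hO hr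
      obtain ⟨D', hA⟩ := c3.aff hM.deg hO hr
      have tw := h4 k₀ y n F S _ M O₀ O D' hM e1 e2 hA e3
      obtain ⟨Os, x, rfl, t0, t1, t2, -⟩ := id tw
      exact ⟨_, t0.fr n le_rfl, t1, t2, fun g hg => h5 _ n F S _ _ _ g tw gw
        (fun f hf' => (hM.inv f hf').2) (t0.fr n le_rfl) t1 t2
        ⟨((fx g).1 hg.1).mono a2, hg.2⟩⟩
  have d4 : Stb K₀ M₂ := fun g hg => d1 g ((fx g).2 hg)
  have d5 : ∀ O, Pt ⊥ M₂ O → Rt O → ∀ x ∈ F n, IsIntegral O x → x ∈ O := fun O a b x hx =>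
    let ⟨_, _, _, h, _⟩ := d3 O a b
    IsPoint.mem_of_isIntegral h.2 hx
  refine ⟨F n, M₂, hKN, alg, d4, d2, fun O hO hr => ⟨d5 O hO hr, ?_⟩⟩
  obtain ⟨O₁, e1, e2, e3, r, v, e4⟩ := d3 O hO hr
  obtain ⟨e5, O₀, e6, e7, e8⟩ := c6 O₁ e1 e2
  have e9 := h9 _ S _ _ _ (hM.mdl.pt_le e6) (fun f hf' => (hM.inv f hf').1) e8 e3
  obtain ⟨D', hA⟩ := d2.aff hM.deg hO hr
  have tw := h4 k₀ y n F S _ M O₀ O D' hM e6 e7 hA e9
  obtain ⟨W, z, f1⟩ := h7 k₀ y n _ F S _ M O hM tw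
    (hΦ O₀ O D' e6 hA e9 fun e he => (e5 e he).imp (@e3.1.1 _) (@e3.1.1 _))
  obtain ⟨D, f2, f3, f4, f5, f6⟩ := quotChart hG hK hKN alg d4 d2 d5 hO
  obtain ⟨f7, f8⟩ := h10 n r _ K₀ K _ W S D O z v hn hG a2 gw hKN hM.inv f2 f3 f4 f5 f6 hr f1
    ⟨e4.ym, fun j g hg => e4.ytr j g ⟨(fx g).2 hg.1, hg.2⟩, e4.pos,
      fun f a b c => e4.uni f a b fun g hg => c g ⟨(fx g).1 hg.1, hg.2⟩⟩
  obtain ⟨Os, x, rfl, -, -, -, t3⟩ := tw
  exact ⟨fun f hf' => (t3 f (Finset.mem_union_right _ hf')).2,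
    Or.inr (f8 ▸ h11 n K₀ K W D _ z r v f7)⟩

end Pool.Agent.MP_19ffc6_ag.Perf

end MrgPart0

-- ======== part 1: formerly Pool.Agent.MP_19ffc6_ag.perf.TAdmt
section MrgPart1

/-! PROJECT PERF, row ADMT: admissible points of admissible points are admissible. -/

namespace Pool.Agent.MP_19ffc6_ag.Perf

open Pool.Agent.R72.Wild Pool.Agent.R72.Lci Pool.Agent.R72.Res Pool.Agent.R72.Res.B
  Pool.Agent.R72.Res.P

variable {k L : Type} [Field k] [Field L] [Algebra k L]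

theorem admt : AdmtStmt k L := by
  intro N S O O' O'' h1 h2 ⟨h3, h4⟩ ⟨h5, h6⟩
  have a1 := (icl_mono (K := N) (sup_le_sup_right h3.1 _)).trans h6.le
  have a2 : O ⊔ Algebra.adjoin k {m | m ∈ O'' ∧ ∃ e, m = smn S e} ≤ N.toSubalgebra :=
    sup_le h1 (Algebra.adjoin_le (by
      rintro _ ⟨-, e, rfl⟩
      exact prod_mem fun f hf => zpow_mem (h2 f hf) _))
  refine ⟨Dom.trans h3 h5, h6.of_le_loc a1 fun x hx =>
    IsPoint.mem_of_isIntegral (isPoint_loc a1 h6.lcl) hx.1 (isIntegral_mono (sup_le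
      (h4.le_loc.trans (loc_mono (icl_mono (sup_le_sup_left (Algebra.adjoin_mono
        fun _ h => And.intro (h5.1 h.1) h.2) _)) h5.1))
      ((le_sup_right.trans (le_icl a2)).trans (le_loc _ _))) hx.2)⟩

end Pool.Agent.MP_19ffc6_ag.Perf

end MrgPart1

-- ======== part 2: formerly Pool.Agent.MP_19ffc6_ag.perf.EBasis
section MrgPart2

/-! PROJECT PERF, rows BASIS and END0. -/

namespace Pool.Agent.MP_19ffc6_ag.Perf

open Pool.Agent.R72.Wild Pool.Agent.R72.Lci Pool.Agent.R72.Res Pool.Agent.R72.Res.B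
  Pool.Agent.R72.Res.Tor Pool.Agent.R72.Res.P

variable {k L : Type} [Field k] [Field L] [Algebra k L]

/-- Row BASIS. -/
theorem basisS : BasisStmt k L := by
  intro k₀ K₀ K n hk hf _ hn
  let s : Set K := {x | (x : L) ∈ K₀}
  have : Algebra.IsAlgebraic (Algebra.adjoin k s) K := ⟨fun a => by
    have key : ∀ x ∈ IntermediateField.adjoin k (K₀ : Set L), ∀ hx : x ∈ K,
        IsAlgebraic (Algebra.adjoin k s) (⟨x, hx⟩ : K) := by
      intro x hx
      induction hx using IntermediateField.adjoin_induction with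
      | mem x hx =>
        exact fun h => isAlgebraic_algebraMap (R := Algebra.adjoin k s)
          ⟨⟨x, h⟩, Algebra.subset_adjoin hx⟩
      | algebraMap c =>
        exact fun _ => isAlgebraic_algebraMap (R := Algebra.adjoin k s) (A := K) (algebraMap k _ c)
      | add a b ha hb h h' => exact fun _ => (h (hf.eq ▸ ha)).add (h' (hf.eq ▸ hb))
      | inv a ha h => exact fun _ => (h (hf.eq ▸ ha)).inv
      | mul a b ha hb h h' => exact fun _ => (h (hf.eq ▸ ha)).mul (h' (hf.eq ▸ hb))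
    exact key a.1 (hf.eq ▸ a.2) a.2⟩
  obtain ⟨t, hts, ht⟩ := exists_isTranscendenceBasis_subset (R := k) s
  obtain ⟨e⟩ : Nonempty (Fin n ≃ t) := Cardinal.eq.1 (by
    rw [ht.cardinalMk_eq_trdeg, hn, Cardinal.mk_fin])
  let y : ℕ → L := fun i => if h : i < n then ((e ⟨i, h⟩ : K) : L) else 0
  have hy : ∀ j : Fin n, y j = ((e j : K) : L) := fun j => dif_pos j.2
  refine ⟨y, ?_, Subfield.closure_le.2 ?_, fun a ha => ?_⟩
  · rw [show xs y n = K.val ∘ Subtype.val ∘ e from funext hy]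
    exact (ht.1.comp e e.injective).map' Subtype.val_injective
  · rintro _ (⟨c, hc, rfl⟩ | ⟨j, hj, rfl⟩)
    · exact hf.cst c hc
    · rw [hy ⟨j, hj⟩]
      exact hts (e ⟨j, hj⟩).2
  · let F := algebraicClosure (Ek k₀ y n) L
    let R := Algebra.adjoin k (Set.range (Subtype.val : t → K))
    have hR : ∀ x ∈ R, (x : L) ∈ F := by
      intro x hx
      induction hx using Algebra.adjoin_induction with
      | mem x hx =>
        obtain ⟨u, rfl⟩ := hx
        obtain ⟨j, rfl⟩ := e.surjective u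
        exact F.algebraMap_mem ⟨_, Subfield.subset_closure (Or.inr ⟨j, j.2, hy j⟩)⟩
      | algebraMap c =>
        exact mem_algebraicClosure_iff.2 ((hk.alg.isAlgebraic c).isIntegral.map_of_comp_eq
          (((algebraMap k L).comp k₀.subtype).codRestrict (Ek k₀ y n)
            fun a => Subfield.subset_closure (Or.inl ⟨a, a.2, rfl⟩)) (algebraMap k L)
          rfl).isAlgebraic
      | add a b _ _ h h' => exact add_mem h h'
      | mul a b _ _ h h' => exact mul_mem h h'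
    have h1 : IsAlgebraic F a := (ht.isAlgebraic.isAlgebraic ⟨a, ha⟩).ringHom_of_comp_eq
      ((K.val.toRingHom.comp R.val.toRingHom).codRestrict F fun x => hR x.1 x.2)
      K.val.toRingHom
      (fun _ _ h => Subtype.ext (Subtype.ext (congrArg (fun u : F => (u : L)) h))) rfl
    exact h1.restrictScalars _

/-- Row END0. -/
theorem end0 (p : ℕ) [IsAlgClosed k] : End0Stmt k L p := by
  intro k₀ _ K₀ K hf _ hn S hS
  have hK : ∀ x ∈ K, x ∈ (⊥ : Subalgebra k L) := fun x hx => by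
    have : Algebra.IsAlgebraic k K := trdeg_eq_zero_iff.1 (by simpa using hn)
    obtain ⟨c, hc⟩ := (IsAlgClosed.algebraMap_bijective_of_isIntegral (k := k) (K := K)).2 ⟨x, hx⟩
    exact Algebra.mem_bot.2 ⟨c, congrArg Subtype.val hc⟩
  have hM : Mdl K (pr k 1) :=
    ⟨pr_fg _, fun e => one_ne_zero ((Submodule.mem_bot k).1 (e ▸ mem_pr (1 : L))), fun m hm => by
      obtain ⟨c, rfl⟩ := Submodule.mem_span_singleton.1 hm
      exact K.smul_mem (one_mem K),
      fun g _ _ x hx => ⟨1, one_mem _, one_ne_zero, le_chart _ _ _ (by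
        rw [one_mul]; exact hK x hx)⟩⟩
  refine ⟨K, pr k 1, le_rfl, fun x hx => isAlgebraic_algebraMap (⟨x, hx⟩ : K),
    Stb.span fun x hx => (Set.mem_singleton_iff.1 hx).symm ▸ one_mem K₀, hM, fun O _ _ =>
    ⟨fun x hx _ => (bot_le : ⊥ ≤ O) (hK x hx),
      fun f h => Or.inl ((bot_le : ⊥ ≤ O) (hK f (hf.mem (hS f h).1))),
      Or.inl ⟨0, ∅, by simp, ?_⟩⟩⟩
  rw [show O ⊓ K.toSubalgebra ⊔ Algebra.adjoin k ((∅ : Finset L) : Set L) = ⊥ from
    le_bot_iff.1 (sup_le (fun x hx => hK x hx.2) (by simp))]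
  exact .of_equiv (Algebra.botEquiv k L).symm

end Pool.Agent.MP_19ffc6_ag.Perf

end MrgPart2

-- ======== part 3: formerly Pool.Agent.MP_19ffc6_ag.perf.EQin
section MrgPart3

/-! PROJECT PERF, row QIN: the input of the local quotient. -/

namespace Pool.Agent.MP_19ffc6_ag.Perf

open Pool.Agent.R72.Wild Pool.Agent.R72.Lci Pool.Agent.R72.Res Pool.Agent.R72.Res.B
  Pool.Agent.R72.Res.P Pool.Agent.R72.Res.Lab GD

variable {k L : Type} [Field k] [Field L] [Algebra k L]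

namespace Qin

lemma fix_adjoin {g : SA k L} {T : Set L} (hl : Lin g) (h : ∀ y ∈ T, g • y = y) {x : L}
    (hx : x ∈ IntermediateField.adjoin k T) : g • x = x := by
  induction hx using IntermediateField.adjoin_induction with
  | mem y hy => exact h y hy
  | algebraMap c => exact hl c
  | add a b _ _ ha hb => rw [smul_add, ha, hb]
  | inv a _ ha => rw [smul_inv'', ha]
  | mul a b _ _ ha hb => rw [smul_mul', ha, hb]

lemma smul_eq {g : SA k L} {O : Subalgebra k L} (h : ∀ x, g • x ∈ O ↔ x ∈ O) : g • O = O :=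
  Subalgebra.ext ((fa_smul g).2 fun x => by rw [smul_mem_sA, h])

end Qin

open Qin in
theorem qin (p : ℕ) [Fact p.Prime] [CharP k p] (hd : DivF k L) : QinStmt k L p := by
  classical
  intro n r E₀ K₀ K N W S D O z y hn gl hE gw hKN hS Dfg Dle Dfr Dst pt rt lo vo
  have : CharP L p := charP_of_injective_algebraMap (algebraMap k L).injective p
  have hp : p ≠ 0 := (Fact.out : p.Prime).ne_zero
  obtain ⟨e, he⟩ := lo.ins
  obtain ⟨D', aff⟩ := lo.fr.aff
  have hl := aff.pt.lcl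
  have hz := lo.fr.fr.ne
  have hON : O ≤ N.toSubalgebra := B.IsPoint.le_field pt (icl_le _ _)
  have hOA : O ≤ icl W O := le_icl fun x hx => lo.le (hON hx)
  have dn : ∀ x ∈ N, x ∈ icl W O → x ∈ O := fun x hx h => IsPoint.mem_of_isIntegral pt hx h.2
  have dnu : ∀ x ∈ N, Un (icl W O) x → Un O x := fun x hx h =>
    ⟨dn x hx h.1, h.2.1, dn _ (inv_mem hx) h.2.2⟩
  have up : ∀ x, Nu O x → Nu (icl W O) x := fun x h => ⟨hOA h.1, fun U => h.2 (dnu x (hON h.1) U)⟩
  have fx : ∀ g : Q.LG K, Fx K₀ (g : SA k L) := fun g x hx => g.2 x (gl.mem hx)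
  have lin : ∀ g : Q.LG K, Lin (g : SA k L) := fun g c => g.2 _ (K.algebraMap_mem c)
  have gw' : Gw K₀ W := ⟨fun x hx => lo.le (hKN (gl.mem hx)), fun x hx => by
    let _ := (Subfield.inclusion hE).toAlgebra
    have : IsScalarTower E₀ K₀ L := .of_algebraMap_eq fun _ => rfl
    exact ((gw.alg _ (he x hx)).tower_top K₀).of_pow (pow_pos (Nat.pos_of_ne_zero hp) e),
    fun g hg => lo.st g (hg.mono hE)⟩
  have hin : ∀ g ∈ Q.Sb (Q.LG K) (icl W O), In K₀ O (g : SA k L) := fun g hg =>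
    In.of_rt pt.lcl rt (fx g) (lin g) (smul_eq fun x =>
      ⟨fun h => dn x ((gw.smul_mem_iff ((fx g).mono hE) x).1 (hON h)) ((hg x).1 (hOA h)),
        fun h => dn _ (gw.st _ ((fx g).mono hE) x (hON h)) ((hg x).2 (hOA h))⟩)
  have hin' : ∀ g ∈ Q.Sb (Q.LG K) (icl W O), In E₀ O (g : SA k L) := fun g hg =>
    ⟨(fx g).mono hE, (hin g hg).2⟩
  have hm : ∀ c : L → ℤ, ∏ f ∈ S, f ^ c f ∈ N := fun c =>
    prod_mem fun f hf => zpow_mem (hS f hf).1 _
  refine ⟨⟨gl, hKN.trans lo.le, gw', lo.fg, aff.deg, Dfg, Dle, Dfr, Dst, ?_, aff.rt, lo.fr.fr,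
    lo.fr.mem, fun g hg j => (lo.un g (hin' g hg) j).1, fun g hg _ _ _ => lo.star g (hin' g hg), ?_,
    fun j => ?_, fun j => ⟨hOA (vo.ym j).1, ?_⟩, fun j g hg => up _ (vo.ytr j g (hin g hg)),
    fun a ha => vo.pos a (dn _ (mn_mem_field (fun j => hON (vo.ym j).1) a) ha),
    e, fun c hc => ?_⟩, Subalgebra.ext fun x => ⟨fun h => ⟨dn x (hKN h.2) h.1, h.2⟩,
      fun h => ⟨hOA h.1, h.2⟩⟩⟩
  · have h1 : IsPoint (icl W (icl N D)) (icl W O) := IsPoint.icl pt (fun x hx => lo.le hx.1)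
      ⟨le_rfl, hl, le_loc _ _⟩
    rwa [show icl W (icl N D) = icl W D from le_antisymm
      (fun x hx => ⟨hx.1, isIntegral_trans' (D := icl N D) (fun y hy => hy.2) hx.2⟩)
      (icl_mono (le_icl fun x hx => hKN (Dle x hx)))] at h1
  · obtain ⟨dir, a, b, h1, h2⟩ := lo.gap
    have hw : ∀ h : Q.LG K, Q.Wd p K W (icl W O) h → In E₀ O (h : SA k L) ∧
        (∃ m : ℕ, ∀ a ∈ W, (h : SA k L) ^ p ^ m • a = a) ∧ ∃ a ∈ W, (h : SA k L) • a ≠ a := by
      rintro h ⟨h3, h4, m, h5⟩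
      refine ⟨hin' h h3, ⟨m, h5⟩, ?_⟩
      by_contra H
      push Not at H
      exact h4 H
    have hk : Q.Kr (Q.LG K) W = Q.Kr (Q.LG K) N := le_antisymm (fun g hg x hx => hg x (lo.le hx))
      fun g hg x hx => by
        have h6 := hg _ (he x hx)
        rw [smul_pow', ← sub_eq_zero, ← sub_pow_char_pow] at h6
        exact sub_eq_zero.1 (pow_eq_zero_iff (pow_ne_zero _ hp) |>.1 h6)
    refine ⟨fun h => if w : Q.Wd p K W (icl W O) h then dir h (hw h w) else ⟨0, hn⟩, a, b, _,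
      hk ▸ le_rfl, h1, fun h w => ?_, fun h w => ?_, fun h w h' w' => ?_⟩
    · rw [dif_pos w]
      obtain ⟨m, h5⟩ := w.2.2
      have := In.root p (a := m) (n := 1) hl (In.of_rt hl aff.rt (fx h) (lin h) (smul_eq w.1))
        (hz (dir h (hw h w))) (lo.un h (hw h w).1 _).1
        (by rw [mul_one]; exact h5 _ (lo.fr.mem _))
      rw [pow_one] at this
      exact ⟨(h2 h (hw h w)).1, this⟩
    · rw [dif_pos w]
      have := (h2 h (hw h w)).2.1
      simp only [pow_one] at this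
      exact this
    · rw [dif_pos w, dif_pos w']
      have := (h2 h (hw h w)).2.2 h' (hw h' w')
      simp only [pow_one] at this
      exact this
  · obtain ⟨m, h1, c, h2⟩ := lo.ful j
    exact ⟨m, _, h1, fun g hg => by
      rw [Finset.smul_prod']
      exact Finset.prod_congr rfl fun f hf => by
        rw [smul_zpow₀', (hS f hf).2 g (hg.mono hE)], h2⟩
  · obtain ⟨m, h1, c, h2⟩ := (vo.ym j).2.2
    have h3 : LMon (icl W O) z (∏ f ∈ S, f ^ c f) :=
      Finset.prod_induction _ _ (fun _ _ => LMon.mul hz) (LMon.of_un (Un.one _))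
        fun f hf => (lo.mon f hf).zpow _
    have h4 := (LMon.of_un (h2.mono hOA)).mul hz h3
    rw [div_mul_cancel₀ _ h3.ne_zero] at h4
    exact hd.pow n W _ z lo.fr _ (lo.le (hON (vo.ym j).1)) m h1 h4
  · have h0 : mn z c ^ p ^ e ∈ N := he _ (mn_mem_field lo.fr.mem c)
    obtain ⟨m, h1, d, h2⟩ := (lo.ful.mn c).zpow (p ^ e : ℕ)
    rw [zpow_natCast] at h2
    obtain ⟨a, ha⟩ := vo.uni _ h0 ⟨m, h1, d, dnu _ (div_mem (pow_mem h0 _) (hm d)) h2⟩
      fun g hg => by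
        have h3 : g ∈ Q.LG K := fun x hx => fix_adjoin hg.lin hg.1 (gl.eq ▸ hx)
        have h4 : Nu (icl W O) (g • mn z c / mn z c - 1) := hc ⟨g, h3⟩ fun x => by
          have := icl_smul (O := O) (gw'.smul_mem_iff hg.1)
          rw [hg.2.1] at this
          change g • x ∈ _ ↔ _
          rw [← smul_mem_sA (g := g) (x := x), ← this]
        have h5 := h4.pow_sub hl (by simpa using add_mem h4.1 (one_mem _)) (one_mem _) (p ^ e)
        rw [one_pow, div_pow, ← smul_pow'] at h5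
        exact ⟨dn _ (sub_mem (div_mem (gw.st g (hg.1.mono hE) _ h0) h0) (one_mem _)) h5.1,
          fun U => h5.2 (U.mono hOA)⟩
    exact ⟨a, ha.mono hOA⟩

end Pool.Agent.MP_19ffc6_ag.Perf

end MrgPart3

-- marker of a merged file
example : 731051 + 218335 = 731051 + 218335 := rfl
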