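import Pool.Agent.MP_19ffc6_ag.perf.SpecT

/-! PROJECT PERF: the statement of the module ENDM (the final model). -/

namespace Pool.Agent.MP_19ffc6_ag.Perf

open Pool.Agent.R72.Wild Pool.Agent.R72.Lci Pool.Agent.R72.Res Pool.Agent.R72.Res.B
  Pool.Agent.R72.Res.Tor Pool.Agent.R72.Res.P

variable (k L : Type) [Field k] [Field L] [Algebra k L]

/-- Module ENDM: a stable normal modification on which the monomials with trivial characters are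
generated by a free family `y`. -/
def EndM : Prop :=
  ∀ (n : ℕ) (K₀ : Subfield L) (N : IntermediateField k L) (S : Finset L) (s : TS k L),
    Gw K₀ N → N.FG → Algebra.trdeg k N = n → Mdl N s.M → GoodC (Cl K₀ N) s → s.Uni →
    (∀ f ∈ S, ∃ a, s.HasExp f a) → (∀ O, s.P O → Ful S O (s.ch O).z) →
    (∀ O, s.P O → Rt O → ∃ x : Fin n → L, Fr n N O x ∧ Ful S O x ∧ (∀ f ∈ S, LMon O x f) ∧
      ∀ g, In K₀ O g → ∀ a ∈ O, g • a - a ∈ GD.nI O x) →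
    ∃ M₂, Stb K₀ M₂ ∧ Mdl N M₂ ∧ ∀ O₂, Pt ⊥ M₂ O₂ → Rt O₂ →
      (∀ a ∈ N, IsIntegral O₂ a → a ∈ O₂) ∧ ∃ O, s.P O ∧ Rt O ∧ Adm N S O O₂ ∧
        ∃ (r : ℕ) (y : Fin r → L), (∀ j, y j ∈ O₂ ∧ y j ≠ 0 ∧ Pw S O₂ (y j)) ∧
          (∀ j g, In K₀ O₂ g → Tv O₂ g (y j)) ∧ (∀ a, mn y a ∈ O₂ → 0 ≤ a) ∧
          ∀ u ∈ N, Pw S O₂ u → (∀ g, In K₀ O₂ g → Tv O₂ g u) → ∃ a, Un O₂ (u / mn y a)

end Pool.Agent.MP_19ffc6_ag.Perf
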