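import Pool.Agent.MP_19ffc6_ag.perf.SpecE
import Pool.Agent.MP_19ffc6_ag.perf.EndSpec

/-! PROJECT PERF: the module ENDM gives the row VEND. -/

namespace Pool.Agent.MP_19ffc6_ag.Perf

variable {k L : Type} [Field k] [Field L] [Algebra k L]

theorem vend_of (h : EndM k L) : VendStmt k L := by
  intro n K₀ N S s h1 h2 h3 _ h5 h6 h7 h8 h9 h10
  obtain ⟨M, a1, a2, a3⟩ := h n K₀ N S s h1 h2 h3 h7 h5 h6 h8 h9 fun O hO hr => by
    obtain ⟨x, b1, b2, b3, b4⟩ := h10 O hO hr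
    exact ⟨x, b1, b2, b3, fun g hg => (b4 g hg).2⟩
  refine ⟨M, a1, a2, fun O' hO hr => ?_⟩
  obtain ⟨-, O, c1, c2, c3, r, y, d1, d2, d3, d4⟩ := a3 O' hO hr
  exact ⟨O, c1, c2, c3, r, y, d1, d2, d3, d4⟩

end Pool.Agent.MP_19ffc6_ag.Perf
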