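import Pool.Agent.Lib.helper72.RM.M19
import Pool.Agent.Lib.helper72.RM.M24

/-! PROJECT PERF, module UP: stable models of a field `N` that is algebraic over `K₀` and stable
under the automorphisms over `K₀`. -/

namespace Pool.Agent.MP_19ffc6_ag.Perf

open Pool.Agent.R72.Wild Pool.Agent.R72.Lci Pool.Agent.R72.Res Pool.Agent.R72.Res.Tor
  Pool.Agent.R72.Res.B Pool.Agent.R72.Res.P Pool.Agent.R72.Res.Lab

variable {k L : Type} [Field k] [Field L] [Algebra k L]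

/-- `K` is algebraic over `K₀` and stable under the automorphisms over `K₀`. -/
structure Gw (K₀ : Subfield L) (K : IntermediateField k L) : Prop where
  le : ∀ x ∈ K₀, x ∈ K
  alg : ∀ x ∈ K, IsAlgebraic K₀ x
  st : ∀ g : SA k L, Fx K₀ g → ∀ x ∈ K, g • x ∈ K

lemma Gw.of_gl {K₀ : Subfield L} {K : IntermediateField k L} (h : Gl K₀ K) : Gw K₀ K :=
  ⟨fun _ => h.mem, h.alg, fun _ hg _ => h.smul_mem hg⟩

lemma Gw.smul_mem_iff {K₀ : Subfield L} {K : IntermediateField k L} (h : Gw K₀ K) {g : SA k L}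
    (hg : Fx K₀ g) (x : L) : g • x ∈ K ↔ x ∈ K :=
  ⟨fun e => inv_smul_smul g x ▸ h.st _ hg.inv _ e, h.st g hg x⟩

section Stmt

variable (k L)

/-- Module RAT, first part: a model with a stable set of points has a stable linear system. -/
def RatW : Prop :=
  ∀ (K₀ : Subfield L) (K : IntermediateField k L) (M : Submodule k L), Gw K₀ K → Mdl K M →
    (∀ g : SA k L, Fx K₀ g → ∀ O, Pt ⊥ M O → Pt ⊥ M (g • O)) →
    ∃ M', Stb K₀ M' ∧ Mdl K M' ∧ ∀ O, Pt ⊥ M' O ↔ Pt ⊥ M O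

/-- Module RAT, second part: the normalization. -/
def NormW : Prop :=
  ∀ (K₀ : Subfield L) (E K : IntermediateField k L) (M : Submodule k L), Gw K₀ K → Mdl E M →
    Stb K₀ M → E ≤ K → K.FG → (∀ x ∈ K, IsAlgebraic E x) → ∃ M', Stb K₀ M' ∧ Mdl K M' ∧
      ∀ O', Pt ⊥ M' O' → ∃ O, Pt ⊥ M O ∧ Dom O O' ∧ IsPoint (icl K O) O'

/-- Module RAT, third part: an equivariant family of modules is given by stable spaces. -/
def GlobW : Prop :=
  ∀ (K₀ : Subfield L) (K : IntermediateField k L) (M : Submodule k L)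
    (J : Subalgebra k L → Submodule k L), Gw K₀ K → Mdl K M → Stb K₀ M → Glob M J →
    (∀ O, Pt ⊥ M O → ∀ x ∈ J O, x ∈ K) →
    (∀ g : SA k L, Fx K₀ g → ∀ O, Pt ⊥ M O → ∀ x ∈ J O, g • x ∈ sp (g • O) (J (g • O))) →
    GlobC (Cl K₀ K) M J

/-- Module LABELP. -/
def LabelW : Prop :=
  ∀ (n : ℕ) (K₀ : Subfield L) (K : IntermediateField k L) (S : Finset L) (M : Submodule k L),
    Gw K₀ K → Algebra.trdeg k K = n → (∀ f ∈ S, f ∈ K₀) → Stb K₀ M → TorF n K S M →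
    ∃ s : TS k L, s.M = M ∧ GoodC (Cl K₀ K) s ∧ (∀ f ∈ S, ∃ a, s.HasExp f a) ∧
      ∀ O, s.P O → Ful S O (s.ch O).z

/-- Module TORESP. -/
def ToresW : Prop :=
  ∀ (n : ℕ) (K₀ : Subfield L) (K : IntermediateField k L) (S : Finset L) (M : Submodule k L),
    Gw K₀ K → Algebra.trdeg k K = n → (∀ f ∈ S, f ∈ K₀) → Stb K₀ M → TorF n K S M →
    ∃ M', Stb K₀ M' ∧ SncF n K S M'

end Stmt

section Rat

variable {K₀ : Subfield L} {K : IntermediateField k L} {M N : Submodule k L} {O : Subalgebra k L}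

/-- The product of the conjugates. -/
theorem exists_normW (hG : Gw K₀ K) (hM : M.FG) (hK : ∀ x ∈ M, x ∈ K) :
    ∃ C, Stb K₀ (M * C) ∧ ∀ p : Submodule k L → Prop, p 1 → (∀ A B, p A → p B → p (A * B)) →
      (∀ g : SA k L, Fx K₀ g → p (g • M)) → p C := by
  classical
  have hf := orbM_fin hM fun x hx => hG.alg x (hK x hx)
  refine ⟨∏ N ∈ hf.toFinset.erase M, N, stb_iff.2 fun g hg => ?_, fun p h1 h2 h3 =>
    Finset.prod_induction _ p h2 h1 fun N hN => ?_⟩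
  · rw [Finset.mul_prod_erase _ (fun N => N) (hf.mem_toFinset.2 ⟨1, .one _, (one_smul _ _).symm⟩),
      sM_prod]
    refine Finset.prod_nbij' (g • ·) (g⁻¹ • ·) ?_ ?_ (fun _ _ => inv_smul_smul _ _)
      (fun _ _ => smul_inv_smul _ _) fun _ _ => rfl
    all_goals
      intro N hN
      obtain ⟨g', hg', rfl⟩ := hf.mem_toFinset.1 hN
    exacts [hf.mem_toFinset.2 ⟨_, hg.mul hg', (mul_smul _ _ _).symm⟩,
      hf.mem_toFinset.2 ⟨_, hg.inv.mul hg', (mul_smul _ _ _).symm⟩]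
  · obtain ⟨g, hg, rfl⟩ := hf.mem_toFinset.1 (Finset.mem_of_mem_erase hN)
    exact h3 g hg

theorem cl_smulW (hG : Gw K₀ K) (hM : M.FG) (hK : ∀ x ∈ M, x ∈ K) {g : SA k L} (hg : Fx K₀ g) :
    (g • M).FG ∧ ∀ x ∈ g • M, x ∈ K :=
  ⟨fg_smul.2 hM, fun x hx => (hG.smul_mem_iff hg.inv x).1 (hK _ hx)⟩

theorem cl_normW (hG : Gw K₀ K) (hM : M.FG) (hK : ∀ x ∈ M, x ∈ K) {C : Submodule k L}
    (h : ∀ p : Submodule k L → Prop, p 1 → (∀ A B, p A → p B → p (A * B)) →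
      (∀ g : SA k L, Fx K₀ g → p (g • M)) → p C) : C.FG ∧ ∀ x ∈ C, x ∈ K :=
  h (fun C => C.FG ∧ ∀ x ∈ C, x ∈ K) ⟨(Cl.cls K₀ K).one.1, (Cl.cls K₀ K).one.2.2⟩
    (fun _ _ ha hb => ⟨ha.1.mul hb.1, mul_le_field ha.2 hb.2⟩) fun _ => cl_smulW hG hM hK

/-- A linear system without base points does not change the model. -/
theorem pt_mul_iff (h : ∀ O, Pt ⊥ M O → ∃ c ∈ N, c ≠ 0 ∧ ∀ x ∈ N, x / c ∈ O) :
    Pt ⊥ (M * N) O ↔ Pt ⊥ M O := by
  refine ⟨fun hO => ?_, fun hO => ?_⟩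
  · obtain ⟨O', a, ha, h1, hD, ha0, hP⟩ := Pool.Agent.R72.Lci.Pt.of_mul_dom hO
    obtain ⟨c, hc, hc0, h2⟩ := h O' h1
    have h3 : Un O' (a / c) := hD.2 _ (h2 a ha) ⟨hD.1 (h2 a ha), div_ne_zero ha0 hc0, by
      rw [inv_div]; exact hP.le (div_mem_chart _ _ hc)⟩
    have h4 : O = O' := hD.eq_of_isPoint (hP.of_le_loc hD.1 ((chart_le le_rfl fun x hx => by
      have : x / a = x / c * (a / c)⁻¹ := by field_simp
      rw [this]; exact mul_mem (h2 x hx) h3.2.2).trans (le_loc _ _)))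
    exact h4 ▸ h1
  · obtain ⟨c, hc, hc0, h2⟩ := h O hO
    have h3 : Lcl O := let ⟨_, _, _, h⟩ := hO; h.lcl
    exact Pt.mul hO hc hc0 ⟨chart_le le_rfl h2, h3, (le_chart _ _ _).trans (le_loc _ _)⟩

/-- Module RAT, first part. -/
theorem ratW : RatW k L := by
  intro K₀ K M hG hM hst
  obtain ⟨C, h1, h2⟩ := exists_normW hG hM.fg hM.le
  obtain ⟨h3, h4⟩ := cl_normW hG hM.fg hM.le h2
  have h5 := h2 (fun N => ∀ O, Pt ⊥ M O → ∃ c ∈ N, c ≠ 0 ∧ ∀ x ∈ N, x / c ∈ O)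
    (fun O _ => ⟨1, Submodule.one_le.1 le_rfl, one_ne_zero, fun x hx => by
      obtain ⟨c, rfl⟩ := Submodule.mem_one.1 hx
      rw [div_one]; exact O.algebraMap_mem c⟩)
    (fun A B hA hB O hO => by
      obtain ⟨a, a1, a2, a3⟩ := hA O hO
      obtain ⟨b, b1, b2, b3⟩ := hB O hO
      refine ⟨a * b, Submodule.mul_mem_mul a1 b1, mul_ne_zero a2 b2, fun x hx => ?_⟩
      refine Submodule.mul_induction_on hx (fun x hx y hy => ?_) fun x y hx hy => ?_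
      · rw [← div_mul_div_comm]; exact mul_mem (a3 x hx) (b3 y hy)
      · rw [add_div]; exact add_mem hx hy)
    fun g hg O hO => by
      have := (pt_smul (g := g)).2 (hst _ hg.inv O hO)
      rw [smul_inv_smul] at this
      obtain ⟨c, hc, hc0, hP⟩ := this
      exact ⟨c, hc, hc0, fun x hx => hP.le (div_mem_chart _ _ hx)⟩
  obtain ⟨O, hO⟩ := exists_pt hM.ne
  obtain ⟨c, hc, hc0, -⟩ := h5 O hO
  exact ⟨M * C, h1, hM.mul h3 (fun e => hc0 ((Submodule.mem_bot k).1 (e ▸ hc))) h4,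
    fun O => pt_mul_iff h5⟩

/-- Module RAT, second part. -/
theorem normW [PerfectField k] : NormW k L := by
  intro K₀ E K M hG hM hst hEK hK halg
  obtain ⟨M', h1, h2, h3⟩ := hM.normIn hEK hK halg
  obtain ⟨M'', h4, h5, h6⟩ := ratW K₀ K M' hG h1 fun g hg O' hO' => by
    obtain ⟨O, a1, -, a2⟩ := h2 O' hO'
    exact h3 (g • O) _ ((hst.pt hg).2 a1)
      (by rw [icl_smul (hG.smul_mem_iff hg)]; exact isPoint_smul.2 a2)
  exact ⟨M'', h4, h5, fun O' hO' => h2 O' ((h6 O').1 hO')⟩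

/-- Module RAT, third part. -/
theorem globW : GlobW k L := by
  intro K₀ K M J hG hM hst hJ hJK heq
  obtain ⟨A, B, hA, hB, hAK, hBK, h⟩ : ∃ A B : Submodule k L, A.FG ∧ B.FG ∧ (∀ x ∈ A, x ∈ K) ∧
      (∀ x ∈ B, x ∈ K) ∧ ∀ O, Pt ⊥ M O →
        (∃ c, c ≠ 0 ∧ sp O B = sp O (pr k c)) ∧ sp O A = sp O (B * J O) := by
    obtain ⟨A, B, hA, hB, h⟩ := hJ
    obtain ⟨O, hO⟩ := exists_pt hM.ne
    obtain ⟨c, h0, h1, h2⟩ := h O hO
    have hs : ∀ X : Submodule k L, (∀ x ∈ X, x ∈ K) → ∀ x ∈ sp O X, x ∈ K := fun X hX =>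
      mul_le_field (fun x hx => hM.pt_le hO hx) hX
    have hp : pr k c⁻¹ * pr k c = 1 := by rw [pr_mul, inv_mul_cancel₀ h0, pr_one]
    refine ⟨pr k c⁻¹ * A, pr k c⁻¹ * B, (pr_fg _).mul hA, (pr_fg _).mul hB, fun x hx =>
      hs _ (hJK O hO) x ?_, fun x hx => hs _ (Cl.cls K₀ K).one.2.2 x ?_, fun O hO => ?_⟩
    · have := le_sp O _ hx
      rwa [sp_mul_congr rfl h2, ← mul_assoc, hp, one_mul] at this
    · have := le_sp O _ hx
      rwa [sp_mul_congr rfl h1, hp] at this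
    · obtain ⟨d, d0, d1, d2⟩ := h O hO
      refine ⟨⟨c⁻¹ * d, mul_ne_zero (inv_ne_zero h0) d0, by rw [sp_mul_congr rfl d1, pr_mul]⟩, ?_⟩
      rw [mul_assoc]
      exact sp_mul_congr rfl (d2.trans (sp_mul_congr d1.symm rfl))
  obtain ⟨C, h1, h2⟩ := exists_normW hG hB hBK
  obtain ⟨h3, h4⟩ := cl_normW hG hB hBK h2
  have h5 := h2 (fun N => ∀ O, Pt ⊥ M O → ∃ c, c ≠ 0 ∧ sp O N = sp O (pr k c))
    (fun O _ => ⟨1, one_ne_zero, by rw [pr_one]⟩)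
    (fun A B hA hB O hO => by
      obtain ⟨a, a1, a2⟩ := hA O hO
      obtain ⟨b, b1, b2⟩ := hB O hO
      exact ⟨a * b, mul_ne_zero a1 b1, by rw [sp_mul_congr a2 b2, pr_mul]⟩)
    fun g hg O hO => by
      obtain ⟨c, c0, c1⟩ := (h _ ((hst.pt hg.inv).2 hO)).1
      refine ⟨g • c, sm_ne_zero.2 c0, ?_⟩
      rw [← smul_inv_smul g O, pr_smul, sp_smul, sp_smul, c1]
  have hAC : (A * C).FG := hA.mul h3
  have hACK := mul_le_field hAK h4
  have hf := orbM_fin hAC fun x hx => hG.alg x (hACK x hx)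
  have h6 : ∀ g : SA k L, Fx K₀ g → ∀ O, Pt ⊥ M O →
      sp O (g • (A * C)) = sp O (B * C * J O) := fun g hg O hO => by
    have h7 := (hst.pt hg.inv).2 hO
    have h8 : sp O (g • J (g⁻¹ • O)) = sp O (J O) := by
      refine sp_eq_of_le (sM_le_iff.2 fun x hx => ?_) fun x hx => ?_
      · simpa only [smul_inv_smul] using heq g hg _ h7 x hx
      · have := (smul_mem_sM (g := g)).2 (heq _ hg.inv O hO x hx)
        rwa [← sp_smul, smul_inv_smul, smul_inv_smul] at this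
    rw [← sp_mul_congr rfl h8, ← h1.eq hg, ← sM_mul]
    conv => enter [1, 1]; rw [← smul_inv_smul g O]
    conv => enter [2, 1]; rw [← smul_inv_smul g O]
    rw [sp_smul, sp_smul, sp_mul_congr (h _ h7).2 rfl, mul_right_comm]
  have h7 : ∀ Z : Submodule k L, ⨆ N ∈ hf.toFinset, N ≤ Z ↔
      ∀ g : SA k L, Fx K₀ g → g • (A * C) ≤ Z := fun Z => by
    simp only [iSup_le_iff, Set.Finite.mem_toFinset]
    exact ⟨fun h g hg => h _ ⟨g, hg, rfl⟩, by rintro h _ ⟨g, hg, rfl⟩; exact h g hg⟩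
  have h8 := (h7 _).1 le_rfl
  refine ⟨⨆ N ∈ hf.toFinset, N, B * C, ⟨Submodule.fg_biSup _ _ fun N hN => ?_, fun g hg => ?_,
    (h7 K.toSubalgebra.toSubmodule).2 fun g hg => (cl_smulW hG hAC hACK hg).2⟩,
    ⟨hB.mul h3, h1, mul_le_field hBK h4⟩, fun O hO => ?_⟩
  · obtain ⟨g, -, rfl⟩ := hf.mem_toFinset.1 hN
    exact fg_smul.2 hAC
  · exact (h7 (g⁻¹ • _)).2 fun g' hg' => by
      rw [← sM_le (g := g), smul_inv_smul, ← mul_smul]; exact h8 _ (hg.mul hg')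
  · obtain ⟨b, b0, b1⟩ := (h O hO).1
    obtain ⟨c, c0, c1⟩ := h5 O hO
    have e : sp O (B * C) = sp O (pr k (b * c)) := by rw [sp_mul_congr b1 c1, pr_mul]
    refine ⟨b * c, mul_ne_zero b0 c0, e, ?_⟩
    rw [← sp_mul_congr e rfl]
    refine sp_eq_of_le ((h7 _).2 fun g hg => (le_sp O _).trans (h6 g hg O hO).le) ?_
    exact (le_sp O _).trans ((h6 1 (.one _) O hO).ge.trans
      (sp_le_sp le_rfl ((h8 1 (.one _)).trans (le_sp O _))))

end Rat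

section Lab

open Lb Filter Submodule

variable {g : SA k L} {O W : Subalgebra k L} {x π : L} {K₀ : Subfield L}
  {K : IntermediateField k L} {M : Submodule k L} {S : Finset L} {d : Dat k L}

lemma mem_sW (h : Gw K₀ K) (hg : Fx K₀ g) (hx : x ∈ K) : g • x ∈ K := h.st g hg x hx

lemma dvr_sW (h : Gw K₀ K) (hg : Fx K₀ g) (hW : Dvr K W π) : Dvr K (g • W) (g • π) := by
  refine ⟨fun x hx => smul_inv_smul g x ▸ mem_sW h hg (hW.le hx), smul_mem_sA.2 hW.mem,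
    ne_s hW.ne, mt un_s.1 hW.nu, fun x hx h0 => ?_⟩
  obtain ⟨n, hn⟩ := hW.ex _ (mem_sW h hg.inv hx) (ne_s h0)
  exact ⟨n, by simpa only [div_s, zpow_s, smul_inv_smul] using (un_s (g := g)).2 hn⟩

lemma od_sW (h : Gw K₀ K) (hg : Fx K₀ g) (hW : Dvr K W π) (hx : x ∈ K) (h0 : x ≠ 0) :
    od K (g • W) (g • x) = od K W x := by
  have h1 := dvr_sW h hg hW.pi
  have h2 := ((un_s (g := g)).2 (hW.od_spec hx h0)).mul (un_zpow (h1.un_div h1.pi) (od K W x))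
  rw [div_s, zpow_s, zpow_one, div_zpow, div_mul_div_cancel₀ (zpow_ne_zero _ h1.ne)] at h2
  exact h1.pi.uniq (h1.od_spec (mem_sW h hg hx) (ne_s h0)) h2

lemma ev_sW (h : Gw K₀ K) (hg : Fx K₀ g) (hp : Pk K S d O) {ρ : d.ι} (hρ : ρ ∈ d.R)
    (c : Fin d.r → ℤ) : ((cj g d).τ K).ev c ρ = (d.τ K).ev c ρ :=
  congrArg (· ⬝ᵥ c) (funext fun i => od_sW h hg (hp.dvr ρ hρ) (hp.zK i) (hp.ne i))

lemma pk_sW (h : Gw K₀ K) (hg : Fx K₀ g) (hS : ∀ f ∈ S, f ∈ K₀) (hp : Pk K S d O) :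
    Pk K S (cj g d) (g • O) := by
  have e := fun ρ hρ => ev_sW h hg hp (ρ := ρ) hρ
  have e1 : ((cj g d).τ K).Reg 0 = (d.τ K).Reg 0 :=
    Set.ext fun c => forall₂_congr fun ρ hρ => by rw [e ρ hρ]
  have e2 : ∀ ρ ∈ d.R, Pos ((cj g d).τ K) ρ = Pos (d.τ K) ρ := fun ρ hρ =>
    Set.ext fun c => and_congr (by rw [e1]) (by rw [e ρ hρ])
  refine ⟨fun c hc => hp.ptd c fun ρ hρ => e ρ hρ c ▸ hc ρ hρ,
    hp.str.imp fun c hc ρ hρ => (e ρ hρ c).symm ▸ hc ρ hρ, fun ρ hρ => (hp.fac ρ hρ).imp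
      fun c hc => ⟨(e ρ hρ c).trans hc.1, fun σ hσ b => (e σ hσ c).symm ▸ hc.2 σ hσ b⟩,
    ind_s hp.ind, fun i => mem_sW h hg (hp.zK i), fun ρ hρ => (dvr_sW h hg (hp.dvr ρ hρ)).pi,
    fun ρ hρ => (hp.one ρ hρ).imp fun c hc => (e ρ hρ c).trans hc, fun ρ hρ => (hp.see ρ hρ).imp
      fun f hf => ⟨hf.1, fun hu => hf.2 (un_s.1 ((hg f (hS f hf.1)).symm ▸ hu))⟩, ?_,
    fun f hf => (hp.mon f hf).imp fun c hc => ?_, fun ρ hρ => ?_⟩
  · have := sf_s (g := g) hp.sf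
    rwa [TA_s, TA, ← e1] at this
  · have e3 : f / mn (fun i => g • d.z i) c = g • (f / mn d.z c) := by
      rw [div_s, mn_s, hg f (hS f hf)]
    rw [e3]
    exact ⟨un_s.2 hc.1, fun ρ hρ => un_s.2 (hc.2 ρ hρ)⟩
  · rw [e2 ρ hρ]
    refine (hp.act ρ hρ).imp (fun a => smul_one g (N := L) ▸ Mon_s a) fun a =>
      ⟨pt_s a.1, fun x hx hu => ?_⟩
    obtain ⟨x, rfl⟩ := MulAction.surjective g x
    exact Mon_s (a.2 x (smul_mem_sA.1 hx) (mt un_s.2 hu))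

/-- Monomial modules with invariant exponents are permuted. -/
lemma equiW {K₀ : Subfield L} {g : SA k L} {d' : Dat k L} (h : Gw K₀ K) (hg : Fx K₀ g)
    (hS : ∀ f ∈ S, f ∈ K₀) (hp : Pk K S d O) (hp' : Pk K S d' (g • O)) (b : (S → ℤ) → ℤ) {x : L}
    (hx : x ∈ Mon O d.z ((d.τ K).Reg ((b ∘ vec K S) ∘ d.w))) :
    g • x ∈ Mon (g • O) d'.z ((d'.τ K).Reg ((b ∘ vec K S) ∘ d'.w)) := by
  refine (pk_sW h hg hS hp).compat hp' _ (span_mono (Set.image_mono fun c hc ρ hρ => ?_) (Mon_s hx))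
  have e : vec K S (g • d.w ρ) = vec K S (d.w ρ) := funext fun f => by
    have := od_sW h hg (hp.dvr ρ hρ) (x := f.1)
      (h.le _ (hS f f.2)) (ne_of hp f.2)
    rwa [hg f (hS f f.2)] at this
  rw [ev_sW h hg hp hρ]
  exact (congrArg b e).trans_le (hc ρ hρ)

/-- Module LABELP. -/
theorem labelW [IsAlgClosed k] : LabelW k L := by
  have h : GlobW k L := globW
  intro n K₀ K S M hG hn hS hM hT
  have hK : ∀ f ∈ S, f ∈ K := fun f hf => hG.le _ (hS f hf)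
  have hA := near hn hT
  obtain ⟨F, hF, hc⟩ := fin hT.1.fg hA
  choose! d hd hp hf using hc
  have hV : ∀ O, Pt ⊥ M O → (d O).w '' (d O).R ⊆ ⋃ d ∈ F, d.w '' d.R :=
    fun O hO W hW => Set.mem_biUnion (hd O hO) hW
  have hV' := hF.biUnion fun d _ => d.R.toFinite.image d.w
  generalize ⋃ d ∈ F, d.w '' d.R = V at hV hV'
  let _ := hV'.fintype
  obtain ⟨h1, h2⟩ := good hT.1.fg hT.1.ne (fun g a b O c => (hA g a b O c).imp fun _ e =>
    e.mono fun _ => And.left) (hF.subset (by rintro _ ⟨O, hO, rfl⟩; exact hd O hO)) hp hV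
  let s : TS k L := ⟨V, M, fun O => (d O).ch K V⟩
  let v : V → S → ℤ := fun W => vec K S W
  let _ := (Set.finite_range v).fintype
  have hw : ∀ O, s.P O → Wd (s.ch O).τ (Set.rangeFactorization v) := by
    rintro O hO ⟨_, _⟩ ⟨ρ, hρ, rfl⟩ ⟨_, _⟩ ⟨σ, hσ, rfl⟩ e
    exact funext (row_eq (hp O hO) (hf O hO) hK hρ hσ (congrArg Subtype.val e))
  have h3 := rel_good (s := s) h1 hw
  refine ⟨rel s (Set.rangeFactorization v), rfl, ⟨⟨hT.1.fg, hM, hT.1.le⟩, h3.ne, h3.fin, h3.cht,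
    fun a => h K₀ K M _ hG hT.1 hM (h3.glob a) (fun O hO x hx => ?_) fun g hg O hO x hx => ?_⟩,
    fun f hf => ⟨fun x => x.1 ⟨f, hf⟩, rel_exp hw (h2 f hf)⟩,
    fun O hO i => (hf O hO i).imp fun _ a => ⟨a.1, a.2.imp fun _ => And.left⟩⟩
  · exact ms_le (Z := K.toSubalgebra.toSubmodule) (fun c _ => mn_mem_field (hp O hO).zK c) hx
  · obtain ⟨b, rfl⟩ : ∃ b : (S → ℤ) → ℤ, a = b ∘ Subtype.val :=
      ⟨_, (Function.extend_comp Subtype.val_injective a 0).symm⟩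
    have e : ∀ O, Pt ⊥ M O → (rel s (Set.rangeFactorization v)).J (b ∘ Subtype.val) O =
        ms k (d O).z (((d O).τ K).Reg ((b ∘ vec K S) ∘ (d O).w)) := fun O hO =>
      (rel_J (hw O hO) _).trans (congrArg (ms k (d O).z) (Dat.reg_ch (hV O hO) (b ∘ vec K S)))
    have hO' := Pt_s hM hg hO
    exact (congrArg (sp _) (e _ hO')).ge (mem_sp_ms.2 (equiW hG hg hS (hp O hO) (hp _ hO') b
      (mem_sp_ms.1 (le_sp _ _ ((e O hO).le hx)))))

end Lab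

/-- A linear system in `K` whose points dominate points of a model of `K` is a model of `K`. -/
lemma mdl_of_dom {K : IntermediateField k L} {M M' : Submodule k L} (h : Mdl K M) (hfg : M'.FG)
    (h0 : M' ≠ ⊥) (hK : ∀ m ∈ M', m ∈ K) (hd : ∀ O', Pt ⊥ M' O' → ∃ O, Pt ⊥ M O ∧ O ≤ O') :
    Mdl K M' := by
  refine ⟨hfg, h0, hK, fun m hm hm0 x hx => ?_⟩
  obtain ⟨O, ⟨g1, hg1, hg10, hO⟩, hle⟩ := hd _ ⟨m, hm, hm0, isPoint_gen _⟩
  obtain ⟨b, hb, hb0, hbx⟩ := h.frac g1 hg1 hg10 x hx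
  obtain ⟨p, hp, q, hq, hq', e⟩ := hle (hO.le hb)
  obtain ⟨p', hp', q', hq1, hq1', e'⟩ := hle (hO.le hbx)
  have hp0 : p ≠ 0 := fun c => hb0 (by rw [e, c, zero_div])
  refine ⟨p * q', mul_mem hp hq1, mul_ne_zero hp0 hq1'.2.1, ?_⟩
  have h1 : p * q' * x = p' * q := by
    have h2 := hq'.2.1
    have h3 := hq1'.2.1
    rw [e, div_mul_eq_mul_div, div_eq_div_iff h2 h3] at e'
    rw [← e']; ring
  rw [h1]
  exact mul_mem hp' hq

/-- The boundary consists of the coordinates that vanish at the point and occur in `S`. -/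
lemma par_of {O : Subalgebra k L} {n s : ℕ} {S : Finset L} {ι : Type} [Fintype ι] {y : ι → L}
    {t : Fin s → L} (hy : ∀ i, y i ∈ O ∧ y i ≠ 0) (hc : Nat.card {i // ¬ Un O (y i)} + s = n)
    (ht : ∀ j, t j ∈ O ∧ ¬ Un O (t j))
    (hg : ∀ x ∈ O, ¬ Un O x → x ∈ Submodule.span O (y '' {i | ¬ Un O (y i)} ∪ Set.range t))
    (hm : ∀ f ∈ S, LMon O y f) (hS : ∀ f ∈ S, f ∈ O ∨ f⁻¹ ∈ O) (hf : Ful S O y) :
    ∃ (r s' : ℕ) (x : Fin r → L) (t' : Fin s' → L), B.Par n S O x t' ∧ Ful S O x := by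
  classical
  choose! a ha using hm
  let p : ι → Prop := fun i => ∃ f ∈ S, a f i ≠ 0
  let I := {i // ¬ Un O (y i) ∧ p i}
  let J := {i // ¬ Un O (y i) ∧ ¬ p i}
  let e : Fin (Fintype.card I) → ι := fun i => ((Fintype.equivFin I).symm i).1
  let e' : Fin (Fintype.card (J ⊕ Fin s)) ≃ J ⊕ Fin s := (Fintype.equivFin _).symm
  let u : J ⊕ Fin s → L := Sum.elim (fun j => y j.1) t
  have he : Function.Injective e := Subtype.val_injective.comp (Fintype.equivFin I).symm.injective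
  have hr : ∀ i, i ∈ Set.range e ↔ ¬ Un O (y i) ∧ p i := fun i =>
    ⟨by rintro ⟨j, rfl⟩; exact ((Fintype.equivFin I).symm j).2,
      fun h => ⟨Fintype.equivFin I ⟨i, h⟩, by simp [e]⟩⟩
  have hmon : ∀ f ∈ S, Un O (f / mn (y ∘ e) (a f ∘ e)) := fun f hf => by
    have h1 := (ha f hf).mul (un_mn_div (fun i => (hy i).2) e he (a f) fun i hi hu =>
      by_contra fun c => hi ((hr i).2 ⟨hu, f, hf, c⟩))
    rwa [div_mul_div_cancel₀ (mn_ne_zero (fun i => (hy i).2) _)] at h1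
  refine ⟨_, _, y ∘ e, u ∘ e', ⟨?_, fun i => ⟨(hy _).1, (hy _).2, ((hr _).1 ⟨i, rfl⟩).1⟩,
    fun j => ?_, fun x hx hu => ?_, fun f hf => ⟨_, hmon f hf⟩, fun i => ?_, hS⟩, fun i => hf _⟩
  · rw [← hc, Fintype.card_sum, Fintype.card_fin, ← add_assoc, Nat.card_eq_fintype_card,
      Fintype.card_subtype, Fintype.card_subtype, Fintype.card_subtype,
      ← Finset.filter_filter, ← Finset.filter_filter, Finset.card_filter_add_card_filter_not]
  · simp only [Function.comp]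
    rcases e' j with j | j
    exacts [⟨(hy _).1, j.2.1⟩, ht j]
  · refine Submodule.span_mono ?_ (hg x hx hu)
    rw [e'.surjective.range_comp]
    rintro _ (⟨i, hi, rfl⟩ | ⟨j, rfl⟩)
    · by_cases c : p i
      · obtain ⟨j, rfl⟩ := (hr i).2 ⟨hi, c⟩
        exact Or.inl ⟨j, rfl⟩
      · exact Or.inr ⟨Sum.inl ⟨i, hi, c⟩, rfl⟩
    · exact Or.inr ⟨Sum.inr j, rfl⟩
  · obtain ⟨-, f, hf, c⟩ := (hr _).1 ⟨i, rfl⟩
    exact ⟨f, hf, _, hmon f hf, c⟩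

/-- Module TORESP. -/
theorem toresW [IsAlgClosed k] : ToresW k L := by
  have hP : ParStmt k L := par
  have hR : ResolveP k L := resolveP
  have hL : LabelW k L := labelW
  classical
  intro n K₀ K S M hG hn hS hst hT
  obtain ⟨s, rfl, hs, hexp, hful⟩ := hL n K₀ K S M hG hn hS hst hT
  obtain ⟨s', hs', href, huni, hcmp⟩ := hR _ s (S : Set L) (Cl.cls K₀ K) hs S.finite_toSet hexp
  have hM' : Mdl K s'.M := mdl_of_dom hT.1 hs'.cl.1 hs'.ne hs'.cl.2.2 fun O' hO' =>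
    let ⟨O, hO, hd, _⟩ := href.dom O' hO'; ⟨O, hO, hd.1⟩
  refine ⟨s'.M, hs'.cl.2.1, hM', fun O hO hr => ?_⟩
  have hc := hs'.cht O hO
  let _ : Fintype (s'.ch O).τ.R := Fintype.ofFinite _
  obtain ⟨-, y, hy, hTA, hmn, -⟩ := Tor.snc s'.ι (s'.ch O) O hc (huni O hO)
  have hsf : SF (Algebra.adjoin k (Set.range y)) O := hTA ▸ hc.sf
  obtain ⟨D, hD⟩ := hM'.aff hn hO hr
  obtain ⟨r, t, h1, h2, h3⟩ := hP n K D O _ y hD hy hsf
  refine par_of (fun i => ⟨hsf.le (Algebra.subset_adjoin ⟨i, rfl⟩), hy.ne_zero i⟩) h1 h2 h3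
    (fun f hf => ?_) (fun f hf => hcmp f hf O hO) fun ρ => ?_
  · obtain ⟨a, ha⟩ := hexp f hf
    obtain ⟨a', ha'⟩ := href.exp f a ha
    obtain ⟨c, -, hu⟩ := ha' O hO
    exact ⟨_, hmn c ▸ hu⟩
  · obtain ⟨O₀, hO₀, hd, hrg, -⟩ := href.dom O hO
    obtain ⟨c, hc'⟩ := huni O hO (Pi.single ρ.1 1)
    obtain ⟨c', e⟩ : mn (s'.ch O).z c ∈ Set.range (mn (s.ch O₀).z) := hrg ▸ ⟨c, rfl⟩
    have e1 : (fun σ : (s'.ch O).τ.R => (s'.ch O).τ.ev c σ) = Pi.single ρ 1 := funext fun σ => by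
      rw [hc' σ σ.2, Pi.single_apply, Pi.single_apply]
      exact if_congr Subtype.val_inj rfl rfl
    have h4 := ((hful O₀ hO₀).mn c').mono hd.1
    rwa [e, hmn c, e1, mn_single, zpow_one] at h4

end Pool.Agent.MP_19ffc6_ag.Perf
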