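import Pool.Agent.MP_19ffc6_ag.perf.GD
import Pool.Agent.MP_19ffc6_ag.perf.Up
import Pool.Agent.MP_19ffc6_ag.perf.FinSpec

/-! PROJECT PERF: the local quotient. Statements of the modules. -/

namespace Pool.Agent.MP_19ffc6_ag.Perf.Q

open Pool.Agent.R72.Wild Pool.Agent.R72.Lci Pool.Agent.R72.Res Pool.Agent.R72.Res.B
  Pool.Agent.R72.Res.P GD

variable {k L : Type} [Field k] [Field L] [Algebra k L]

/-- The automorphisms of `L` over `K`. -/
def LG (K : IntermediateField k L) : Subgroup (SA k L) where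
  carrier := {g | ∀ x ∈ K, g • x = x}
  one_mem' x _ := one_smul _ x
  mul_mem' := fun {g h} hg hh x hx => by rw [mul_smul, hh x hx, hg x hx]
  inv_mem' := fun {g} hg x hx => inv_smul_eq_iff.2 (hg x hx).symm

lemma mem_LG {K : IntermediateField k L} {g : SA k L} : g ∈ LG K ↔ ∀ x ∈ K, g • x = x := Iff.rfl

instance (K : IntermediateField k L) : SMulCommClass (LG K) k L where
  smul_comm g c x := by
    change (g : SA k L) • c • x = c • (g : SA k L) • x
    rw [Algebra.smul_def, Algebra.smul_def, smul_mul', g.2 _ (K.algebraMap_mem c)]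

/-- `x` lies in the maximal ideal. -/
def Nu (O : Subalgebra k L) (x : L) : Prop := x ∈ O ∧ ¬ Un O x

/-- The maximal ideal is generated by `S`. -/
def Gn (O : Subalgebra k L) (S : Set L) : Prop := ∀ x, Nu O x → x ∈ Submodule.span O S

/-- The monomials in the maximal ideal. -/
def Mn (O : Subalgebra k L) {n : ℕ} (z : Fin n → L) : Set L :=
  {y | y ∈ O ∧ ¬ Un O y ∧ ∃ c, y = mn z c}

/-- `x` is fixed by the automorphisms over `K₀`. -/
def Ra (k : Type) [Field k] [Algebra k L] (K₀ : Subfield L) (x : L) : Prop :=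
  ∀ g : SA k L, Fx K₀ g → g • x = x

section Grp

variable (G : Type) [Group G] [MulSemiringAction G L]

/-- The stabiliser of a subalgebra. -/
def Sb (O : Subalgebra k L) : Subgroup G where
  carrier := {g | ∀ x, g • x ∈ O ↔ x ∈ O}
  one_mem' x := by rw [one_smul]
  mul_mem' := fun {g h} hg hh x => by rw [mul_smul, hg, hh]
  inv_mem' := fun {g} hg x => by rw [← hg, smul_inv_smul]

/-- The elements that fix a subfield pointwise. -/
def Kr (W : IntermediateField k L) : Subgroup G where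
  carrier := {g | ∀ x ∈ W, g • x = x}
  one_mem' x _ := one_smul _ x
  mul_mem' := fun {g h} hg hh x hx => by rw [mul_smul, hh x hx, hg x hx]
  inv_mem' := fun {g} hg x hx => inv_smul_eq_iff.2 (hg x hx).symm

/-- The invariants in a subfield. -/
def fixF [SMulCommClass G k L] (W : IntermediateField k L) : IntermediateField k L :=
  (fix G W.toSubalgebra).toIntermediateField fun x hx =>
    ⟨W.inv_mem hx.1, fun g => by rw [smul_inv'', hx.2 g]⟩

variable {G}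

lemma mem_Sb {O : Subalgebra k L} {g : G} : g ∈ Sb G O ↔ ∀ x, g • x ∈ O ↔ x ∈ O := Iff.rfl

lemma mem_Kr {W : IntermediateField k L} {g : G} : g ∈ Kr G W ↔ ∀ x ∈ W, g • x = x := Iff.rfl

lemma mem_fixF [SMulCommClass G k L] {W : IntermediateField k L} {x : L} :
    x ∈ fixF G W ↔ x ∈ W ∧ ∀ g : G, g • x = x := Iff.rfl

/-- The displacement data for the elements with property `w`. -/
structure GapD (w : G → Prop) (O : Subalgebra k L) {n : ℕ} (z : Fin n → L) (dir : G → Fin n)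
    (a b : ℕ) : Prop where
  mon : ∀ h, w h → LMon O z (dp h (z (dir h))) ∧ Nu O (dp h (z (dir h)))
  oth : ∀ h, w h → ∀ j ≠ dir h, dp h (z j) / dp h (z (dir h)) ^ b ∈ O
  pair : ∀ h, w h → ∀ h', w h' →
    (dir h = dir h' ∧ dp h (z (dir h)) ^ a / dp h' (z (dir h')) ∈ O ∧
      dp h' (z (dir h')) ^ a / dp h (z (dir h)) ∈ O) ∨
    dp h (z (dir h)) / dp h' (z (dir h')) ^ b ∈ O ∨ dp h' (z (dir h')) / dp h (z (dir h)) ^ b ∈ O

end Grp

/-- `h` stabilises `A`, moves `W`, and a `p`-power of `h` fixes `W`. -/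
def Wd (p : ℕ) (K W : IntermediateField k L) (A : Subalgebra k L) (h : LG K) : Prop :=
  h ∈ Sb (LG K) A ∧ h ∉ Kr (LG K) W ∧ ∃ m, h ^ p ^ m ∈ Kr (LG K) W

/-- THE INPUT of the local quotient: a rational point `A` of the normalization in `W` of a stable
affine model `D` of `K`, with a frame `z`, gaps and virtual parameters `y`. -/
structure QIn (p n : ℕ) (K₀ : Subfield L) (K W : IntermediateField k L) (D A : Subalgebra k L)
    (z : Fin n → L) {r : ℕ} (y : Fin r → L) : Prop where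
  gl : Gl K₀ K
  le : K ≤ W
  gw : Gw K₀ W
  fg : W.FG
  deg : Algebra.trdeg k W = n
  Dfg : D.FG
  Dle : ∀ x ∈ D, x ∈ K
  Dfr : ∀ x ∈ K, ∃ b ∈ D, b ≠ 0 ∧ b * x ∈ D
  Dst : ∀ g : SA k L, Fx K₀ g → ∀ x ∈ D, g • x ∈ D
  pt : IsPoint (icl W D) A
  rt : Rt A
  fr : Frame A z
  zW : ∀ j, z j ∈ W
  hu : ∀ g ∈ Sb (LG K) A, ∀ j, g • z j / z j ∈ A
  star : ∀ g ∈ Sb (LG K) A, ∀ m : ℕ, (m : k) ≠ 0 → g ^ m ∈ Kr (LG K) W →
    ∀ x ∈ A, g • x - x ∈ nI A z
  gap : ∃ (dir : LG K → Fin n) (a b c : ℕ), (Kr (LG K) W).index ≤ c ∧ gap c a c ≤ b ∧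
    GapD (Wd p K W A) A z dir a b
  ful : ∀ j, ∃ (N : ℕ) (s : L), 0 < N ∧ Ra k K₀ s ∧ Un A (z j ^ N / s)
  ym : ∀ j, y j ∈ A ∧ LMon A z (y j)
  ytr : ∀ j, ∀ g ∈ Sb (LG K) A, Nu A (dp g (y j))
  pos : ∀ a, mn y a ∈ A → 0 ≤ a
  uni : ∃ e, ∀ c, (∀ g ∈ Sb (LG K) A, Nu A (dp g (mn z c))) → ∃ a, Un A (mn z c ^ p ^ e / mn y a)

section Stmt

variable (k L)

/-- THE OUTPUT of the local quotient. -/
def QStmt (p : ℕ) : Prop :=
  ∀ (n : ℕ) (K₀ : Subfield L) (K W : IntermediateField k L) (D A : Subalgebra k L) (z : Fin n → L)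
    (r : ℕ) (y : Fin r → L), QIn p n K₀ K W D A z y → PSmE p K₀ K (A ⊓ K.toSubalgebra)

/-- Row WQ: the quotient by the stabiliser. -/
def WqStmt (p : ℕ) : Prop :=
  ∀ (G : Type) [Group G] [MulSemiringAction G L] [SMulCommClass G k L] (N : Subgroup G) [N.Normal]
    [N.FiniteIndex] (D O : Subalgebra k L) (n : ℕ) (z : Fin n → L) (dir : G → Fin n) (a b c : ℕ),
    D.FG → IsPoint D O → Rt O → (∀ g : G, ∀ x ∈ D, g • x ∈ D) → (∀ g : G, ∀ x ∈ O, g • x ∈ O) →
    Frame O z → (∀ g, g ∈ N ↔ ∀ x ∈ D, g • x = x) → (∀ g ∈ N, ∀ j, g • z j = z j) →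
    N.index ≤ c → gap c a c ≤ b →
    (∀ (g : G) j, g • z j / z j ∈ O) →
    (∀ (g : G) (m : ℕ), (m : k) ≠ 0 → g ^ m ∈ N → ∀ x ∈ O, g • x - x ∈ nI O z) →
    GapD (fun h => h ∉ N ∧ ∃ m, h ^ p ^ m ∈ N) O z dir a b →
    ∃ w : Fin n → L, (∀ (g : G) j, g • w j = w j) ∧ Frame (fix G O) w ∧ (∀ j, LMon O z (w j)) ∧
      (∀ f, (∀ g : G, g • f = f) → LMon O z f → LMon (fix G O) w f) ∧
      ∃ m, ∀ c, (∀ g : G, Nu O (dp g (mn z c))) →
        ∃ f, (∀ g : G, g • f = f) ∧ Un O (f / mn z c ^ p ^ m)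

/-- Row CEN: parameters of the stratum. -/
def CenStmt : Prop :=
  ∀ (O : Subalgebra k L) (n r : ℕ) (z : Fin n → L) (y : Fin r → L), Lcl O → Rt O → Frame O z →
    (∀ j, LMon O z (y j)) → (∀ a, Un O (mn y a) → a = 0) →
    ∃ (s : ℕ) (t : Fin s → L), r + s ≤ n ∧ (∀ j, Nu O (t j)) ∧ Gn O (Mn O z ∪ Set.range t)

/-- Row INS: the invariants of the automorphisms over `K` are purely inseparable over `K`. -/
def InsStmt (p : ℕ) : Prop :=
  ∀ K W : IntermediateField k L, K ≤ W → W.FG → (∀ x ∈ W, IsAlgebraic K x) →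
    (Kr (LG K) W).FiniteIndex ∧ ∃ e, ∀ x ∈ W, (∀ g : LG K, g • x = x) → x ^ p ^ e ∈ K

/-- Row INV: a generator of a rational divisor that is fixed by the stabiliser may be chosen
rational. -/
def InvStmt : Prop :=
  ∀ (K₀ : Subfield L) (K W : IntermediateField k L) (D A : Subalgebra k L) (w s : L) (N : ℕ),
    Gl K₀ K → K ≤ W → Gw K₀ W → W.FG → (∀ x ∈ D, x ∈ W) →
    (∀ g : SA k L, Fx K₀ g → ∀ x ∈ D, g • x ∈ D) → IsPoint (icl W D) A → Rt A → w ∈ W →
    (∀ g ∈ Sb (LG K) A, g • w = w) → 0 < N → Ra k K₀ s → Un A (w ^ N / s) →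
    ∃ ω, Ra k K₀ ω ∧ Un A (ω / w)

/-- Row AFQ: the image of a point in the quotient. -/
def AfqStmt : Prop :=
  ∀ (G : Type) [Group G] [MulSemiringAction G L] [SMulCommClass G k L] (n : ℕ)
    (W : IntermediateField k L) (D O : Subalgebra k L), (Kr G W).FiniteIndex →
    (∀ g : G, ∀ x ∈ D, g • x ∈ D) → Aff n W D O → Aff n (fixF G W) (fix G D) (fix G O)

/-- Row DESC: from the invariants of the stabiliser to the invariants of the group. -/
def DescStmt : Prop :=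
  ∀ (G : Type) [Group G] [MulSemiringAction G L] [SMulCommClass G k L] (n s : ℕ)
    (W : IntermediateField k L) (D O : Subalgebra k L) (S : Set L) (t : Fin s → L),
    (Kr G W).FiniteIndex → (∀ g : G, ∀ x ∈ D, g • x ∈ D) → Aff n W D O →
    (∀ f ∈ S, Nu O f ∧ ∀ g : G, g • f = f) → (∀ j, Nu (fix (Sb G O) O) (t j)) →
    Gn (fix (Sb G O) O) (S ∪ Set.range t) →
    ∃ t' : Fin s → L, (∀ j, Nu (fix G O) (t' j)) ∧ Gn (fix G O) (S ∪ Set.range t')

/-- Row LAT: rational roots of the virtual parameters. -/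
def LatStmt (p : ℕ) : Prop :=
  ∀ (K₀ : Subfield L) (W : IntermediateField k L) (A : Subalgebra k L) (r e m : ℕ) (y : Fin r → L),
    (∀ j, y j ≠ 0) → (∀ a, Un A (mn y a) → a = 0) → (∀ x ∈ W, x ^ p ∈ A → x ∈ A) →
    (∀ j, ∃ f ∈ W, Ra k K₀ f ∧ Un A (f ^ p ^ e / y j ^ p ^ m)) →
    ∃ v : Fin r → L, (∀ j, Ra k K₀ (v j) ∧ v j ^ p ^ m ∈ W ∧
      Un A ((v j ^ p ^ m) ^ p ^ e / y j ^ p ^ m)) ∧
      ∀ f ∈ W, ∀ a, Ra k K₀ f → Un A (f ^ p ^ e / mn y a) → Un A (f / mn v a)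

/-- Row REG: the point becomes regular when the roots are adjoined. -/
def RegStmt (p : ℕ) : Prop :=
  ∀ (n r s m : ℕ) (E : IntermediateField k L) (D R : Subalgebra k L) (v : Fin r → L)
    (t : Fin s → L) (F : Set L), Aff n E D R → r + s ≤ n → (∀ j, Nu R (v j ^ p ^ m)) →
    (∀ j, Nu R (t j)) → Gn R (F ∪ Set.range t) →
    (∀ f ∈ F, f ∈ Submodule.span (R ⊔ Algebra.adjoin k (Set.range v) :) (Set.range v)) →
    (∀ x ∈ R ⊔ Algebra.adjoin k (Set.range v), x ^ p ^ m ∈ R) ∧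
    (∃ D', Aff n (E ⊔ IntermediateField.adjoin k (Set.range v)) D'
      (R ⊔ Algebra.adjoin k (Set.range v))) ∧
    Algebra.FormallySmooth k (R ⊔ Algebra.adjoin k (Set.range v) :) ∧
    ∀ x ∈ E ⊔ IntermediateField.adjoin k (Set.range v),
      IsIntegral (R ⊔ Algebra.adjoin k (Set.range v) :) x → x ∈ R ⊔ Algebra.adjoin k (Set.range v)

/-- Row GLUE. -/
def QGlue (p : ℕ) : Prop :=
  WqStmt k L p → CenStmt k L → InsStmt k L p → InvStmt k L → AfqStmt k L → DescStmt k L →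
    LatStmt k L p → RegStmt k L p → QStmt k L p

end Stmt

end Pool.Agent.MP_19ffc6_ag.Perf.Q
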