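import Pool.Agent.Lib.helper72.RM.M06
import Pool.Agent.MP_19ffc6_ag.perf.VirtA

-- ======== part 0: formerly Pool.Agent.MP_19ffc6_ag.perf.ResW
section MrgPart0

/-! PROJECT PERF, module RESW: toric resolution of a weak toroidal system. The charts are only
asked to consist of monomials of the local ring. -/

namespace Pool.Agent.MP_19ffc6_ag.Perf

open Pool.Agent.R72.Wild Pool.Agent.R72.Lci Pool.Agent.R72.Res Pool.Agent.R72.Res.Tor
  Pool.Agent.R72.Res.Tor.TS Pool.Agent.R72.Res.P Submodule Filter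

variable {k L : Type} [Field k] [Field L] [Algebra k L] {C : Submodule k L → Prop}

/-- `c` is a weak chart at the point `O`. -/
structure WAt {ι : Type} (c : Ch L ι) (O : Subalgebra k L) : Prop where
  ptd : c.τ.Pointed
  str : c.τ.Strict
  ind : AlgebraicIndependent k c.z
  le : TA k c.z c.τ ≤ O

lemma WAt.ne {ι : Type} {c : Ch L ι} {O : Subalgebra k L} (h : WAt c O) (j : Fin c.r) :
    c.z j ≠ 0 := h.ind.ne_zero j

/-- A weak toroidal system with all global spaces in the class `C`. -/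
structure GoodW (C : Submodule k L → Prop) (s : TS k L) : Prop where
  cl : C s.M
  ne : s.M ≠ ⊥
  fin : ((fun O => (s.ch O).ty) '' {O | s.P O}).Finite
  cht : ∀ O, s.P O → WAt (s.ch O) O
  glob : ∀ a, GlobC C s.M (s.J a)

variable (k L) in
/-- Module RESW. -/
def ResW : Prop :=
  ∀ (C : Submodule k L → Prop) (s : TS k L) (S : Set L), Cls C → GoodW C s → S.Finite →
    (∀ f ∈ S, ∃ a, s.HasExp f a) →
    ∃ s' : TS k L, GoodW C s' ∧ s.Ref s' ∧ s'.Uni ∧ ∀ f ∈ S, s'.Cmp f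

lemma WAt.mem {ι : Type} {c : Ch L ι} {O : Subalgebra k L} (h : WAt c O) {e : Fin c.r → ℤ}
    (he : e ∈ c.τ.Reg 0) : mn c.z e ∈ O := h.le (mn_mem_TA he)

lemma WAt.sp_zero {ι : Type} {c : Ch L ι} {O : Subalgebra k L} (h : WAt c O) :
    sp O (ms k c.z (c.τ.Reg 0)) = sp O (pr k 1) :=
  sp_eq_of_le (ms_le fun _ he => mem_sp_pr.2 ⟨_, h.mem he, (mul_one _).symm⟩)
    ((pr_le (by simpa [mn_zero] using mn_mem_ms (z := c.z) Typ.zero_mem_reg)).trans (le_sp _ _))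

lemma GoodW.refl {s : TS k L} (hs : GoodW C s) : s.Ref s :=
  ⟨⟨1, by rw [← pr_one]; exact pr_fg _, (mul_one _).symm⟩, fun O hO =>
    ⟨O, hO, Dom.refl O, rfl, le_rfl, isPoint_self hO.lcl (hs.cht O hO).le⟩, fun _ a h => ⟨a, h⟩⟩

section Sys

variable {s : TS k L} {v : s.ι → ℚ}

lemma GoodW.glob_X (hC : Cls C) (hs : GoodW C s) (hv : 0 ≤ v) (a : s.ι → ℤ) (n : ℚ) :
    GlobC C s.M (s.X v a n) := by
  classical
  obtain ⟨𝒜, a1, a2, a3⟩ := dickson id a {b | a ≤ b ∧ n ≤ vp v b} fun b hb => hb.1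
  have hB : ∀ t : Σ r, Typ s.ι r, ∃ b : s.ι → ℤ, (¬ ∀ c, ∃ m : ℤ, vp v (t.2.ev c) = m) →
      (∀ m : ℤ, vp v b ≠ m) ∧ ∃ c, b = t.2.ev c := fun t => by
    by_cases h : ∀ c, ∃ m : ℤ, vp v (t.2.ev c) = m
    · exact ⟨0, fun h' => absurd h h'⟩
    · push Not at h
      obtain ⟨c, hc⟩ := h
      exact ⟨_, fun _ => ⟨hc, c, rfl⟩⟩
  choose b hb using hB
  let ℬ : Set (s.ι → ℤ) := b '' ((fun O => (s.ch O).ty) '' {O | s.P O}) ∩ {x | ∀ m : ℤ, vp v x ≠ m}
  have hℬ : ℬ.Finite := (hs.fin.image b).inter_of_left _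
  obtain ⟨t, ht⟩ := exists_nat_ge (n - vp v a)
  refine ((GlobC.biSup hC a1 fun x _ => hs.glob x).sup hC (((GlobC.biSup hC hℬ fun x _ =>
    (hs.glob x).mul hC (hs.glob (-x))).pow hC t).mul hC (hs.glob a))).congr fun O hO => ?_
  congr 1
  have hz := (hs.cht O hO).ne
  set K := ⨆ x ∈ ℬ, s.J x O * s.J (-x) O with hK
  have h1 : ⨆ x ∈ 𝒜, s.J x O ≤ s.J a O := iSup₂_le fun x hx => ms_mono (Typ.reg_mono (a2 hx).1)
  have h2 : K ≤ s.J 0 O := iSup₂_le fun x _ => ms_mul_le hz fun c hc c' hc' => by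
    simpa using Typ.add_mem_reg hc hc'
  have h3 : ∀ t : ℕ, K ^ t * s.J a O ≤ s.J a O := fun t => by
    induction t with
    | zero => simp
    | succ t ih =>
      rw [pow_succ', mul_assoc]
      exact (mul_le_mul' h2 ih).trans (ms_mul_le hz fun c hc c' hc' => by
        rw [add_comm]; exact Typ.add_mem_reg0 hc' hc)
  have h4 : ∀ c x, a ≤ x → n ≤ vp v x → (∀ ρ ∈ (s.ch O).τ.R, x ρ = (s.ch O).τ.ev c ρ) →
      mn (s.ch O).z c ∈ ⨆ x ∈ 𝒜, s.J x O := fun c x e1 e2 e3 => by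
    obtain ⟨y, hy, hy'⟩ := a3 x ⟨e1, e2⟩
    exact mem_iSup_of_mem y (mem_iSup_of_mem hy (mn_mem_ms fun ρ hρ => e3 ρ hρ ▸ hy' ρ))
  have h5 : ∀ c ∈ (s.ch O).τ.Reg a,
      a ≤ fun ρ => if ρ ∈ (s.ch O).τ.R then (s.ch O).τ.ev c ρ else a ρ := fun c hc ρ => by
    by_cases h : ρ ∈ (s.ch O).τ.R
    · simpa [h] using hc ρ h
    · simp [h]
  by_cases h : (s.ch O).τ.App v
  · rw [X_pos h]
    refine le_antisymm (sup_le (iSup₂_le fun x hx => ms_mono fun c hc =>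
      ⟨Typ.reg_mono (a2 hx).1 hc, (a2 hx).2.trans (h.le hv hc)⟩) ?_)
      (le_sup_of_le_left (ms_le fun c hc => h4 c _ (h5 c hc.1) ?_ fun ρ hρ => if_pos hρ))
    · have h6 : K ≤ ms k (s.ch O).z ((s.ch O).τ.Ex v 0 1) := by
        refine iSup₂_le fun x hx => ms_mul_le hz fun c hc c' hc' =>
          ⟨by simpa using Typ.add_mem_reg hc hc', ?_⟩
        obtain ⟨m, hm⟩ := h.2 c
        obtain ⟨m', hm'⟩ := h.2 (c + c')
        have e1 := lt_of_le_of_ne (h.le hv hc) (hm ▸ hx.2 m)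
        have e2 := h.le hv hc'
        have e3 : (0 : ℚ) < m' := by rw [← hm', Typ.vp_ev_add]; rw [vp_neg] at e2; linarith
        rw [hm']
        have : 0 < m' := by exact_mod_cast e3
        exact_mod_cast this
      have h7 : ∀ t : ℕ, K ^ t * s.J a O ≤
          ms k (s.ch O).z ((s.ch O).τ.Ex v a (t + vp v a)) := fun t => by
        induction t with
        | zero =>
          rw [pow_zero, one_mul]
          exact ms_mono fun c hc => ⟨hc, by simpa using h.le hv hc⟩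
        | succ t ih =>
          rw [pow_succ', mul_assoc]
          refine (mul_le_mul' h6 ih).trans (ms_mul_le hz fun c hc c' hc' =>
            ⟨by rw [add_comm]; exact Typ.add_mem_reg0 hc'.1 hc.1, ?_⟩)
          rw [Typ.vp_ev_add]; push_cast; linarith [hc.2, hc'.2]
      exact (h7 t).trans (ms_mono fun c hc => ⟨hc.1, by linarith [hc.2]⟩)
    · exact hc.2.trans (vp_congr fun ρ hρ => (if_pos (h.1 ρ hρ)).symm).le
  · rw [X_neg h]
    refine le_antisymm (sup_le h1 (h3 t)) ?_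
    by_cases h' : ∀ ρ, v ρ ≠ 0 → ρ ∈ (s.ch O).τ.R
    · obtain ⟨e1, c, e2⟩ : (∀ m : ℤ, vp v (b (s.ch O).ty) ≠ m) ∧ ∃ c : Fin (s.ch O).r → ℤ,
          b (s.ch O).ty = (s.ch O).τ.ev c := hb (s.ch O).ty fun H => h ⟨h', H⟩
      have h6 : (1 : L) ∈ K := by
        refine mem_iSup_of_mem (b (s.ch O).ty) (mem_iSup_of_mem ⟨⟨_, ⟨O, hO, rfl⟩, rfl⟩, e1⟩ ?_)
        rw [← mul_inv_cancel₀ (mn_ne_zero hz c), ← mn_neg, e2]
        exact mul_mem_mul (mn_mem_ms fun ρ _ => le_rfl) (mn_mem_ms fun ρ _ => (Typ.ev_neg c ρ).ge)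
      refine le_sup_of_le_right fun x hx => ?_
      simpa using mul_mem_mul (pow_mem_pow K h6 t) hx
    · push Not at h'
      obtain ⟨ρ, h0, hρ⟩ := h'
      have h0' : 0 < v ρ := lt_of_le_of_ne (hv ρ) (Ne.symm h0)
      refine le_sup_of_le_left (ms_le fun c hc => ?_)
      set x : s.ι → ℤ := fun ρ => if ρ ∈ (s.ch O).τ.R then (s.ch O).τ.ev c ρ else a ρ with hx
      obtain ⟨m, hm⟩ := exists_nat_ge ((n - vp v x) / v ρ)
      refine h4 c (x + Pi.single ρ (m : ℤ)) ((h5 c hc).trans (le_add_of_nonneg_right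
        (Pi.single_nonneg.2 (Nat.cast_nonneg m)))) ?_ fun σ hσ => ?_
      · rw [vp_add, vp_single, div_le_iff₀ h0'] at *
        push_cast; linarith
      · have : σ ≠ ρ := fun e => hρ (e ▸ hσ)
        simp [hx, hσ, Pi.single_eq_of_ne this]

/-- The star subdivision of a toroidal system at the weight `v`. -/
theorem GoodW.star (hC : Cls C) (hs : GoodW C s) (hv : 0 ≤ v) (hv0 : v ≠ 0) :
    ∃ (M : Submodule k L) (ch : Subalgebra k L → Ch L (Option s.ι)),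
      GoodW C (TS.mk (Option s.ι) M ch) ∧ s.Ref (TS.mk (Option s.ι) M ch) ∧
      (∀ f a, s.HasExp f a →
        (TS.mk (Option s.ι) M ch).HasExp f fun o => o.elim ⌊vp v a⌋ a) ∧
      ∀ O', Pt ⊥ M O' → ∃ O, s.P O ∧ ((¬ (s.ch O).τ.App v ∧ ch O' = (s.ch O).keep) ∨
        ((s.ch O).τ.App v ∧ ∃ g, 0 < vp v ((s.ch O).τ.ev g) ∧ ch O' = (s.ch O).star v g)) := by
  classical
  choose! G G1 G2 G3 using fun (t : Σ r, Typ s.ι r) (h : t.2.Pointed) => Typ.edges h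
  set 𝒯 := (fun O => (s.ch O).ty) '' {O | s.P O} with h𝒯
  have hT : ∀ t ∈ 𝒯, t.2.Pointed := by rintro _ ⟨O, hO, rfl⟩; exact (hs.cht O hO).ptd
  obtain ⟨n, hn⟩ : ∃ n : ℕ, ∀ t ∈ 𝒯, ∀ g ∈ G t, t.2.App v → 0 < vp v (t.2.ev g) →
      t.2.Vert v g n.factorial := by
    refine Eventually.exists (f := atTop) ((eventually_all_finite hs.fin).2 fun t ht =>
      (eventually_all_finite (G1 t (hT t ht))).2 fun g hg => ?_)
    by_cases h : t.2.App v ∧ 0 < vp v (t.2.ev g)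
    · filter_upwards [(G2 t (hT t ht) g hg).vert h.1 h.2] with n hn _ _ using hn
    · exact Eventually.of_forall fun _ h1 h2 => absurd ⟨h1, h2⟩ h
  set N := n.factorial with hN
  have hN0 : 0 < N := n.factorial_pos
  obtain ⟨A, B, hA, hB, hAB⟩ := hs.glob_X hC hv 0 N
  have key : ∀ O', ∃ (O : Subalgebra k L) (c : Ch L (Option s.ι)) (u : L), Pt ⊥ (s.M * A) O' →
      s.P O ∧ Dom O O' ∧ IsPoint (O ⊔ TA k c.z c.τ) O' ∧
      ((¬ (s.ch O).τ.App v ∧ c = (s.ch O).keep ∧ u = 1) ∨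
        ((s.ch O).τ.App v ∧ ∃ g : Fin (s.ch O).r → ℤ, g ∈ G (s.ch O).ty ∧
          0 < vp v ((s.ch O).τ.ev g) ∧
          c = (s.ch O).star v g ∧ ∃ q : ℕ, q * vp v ((s.ch O).τ.ev g) = N ∧
            u = mn (s.ch O).z (q • g))) := by
    intro O'
    by_cases hO' : Pt ⊥ (s.M * A) O'
    swap
    · exact ⟨O', (s.ch O').keep, 1, fun h => absurd h hO'⟩
    obtain ⟨O, a, ha, hO, hD, ha0, hP⟩ := Pt.of_mul_dom hO'
    obtain ⟨b, hb, -, e⟩ := hAB O hO
    have hc := hs.cht O hO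
    by_cases h : (s.ch O).τ.App v
    · rw [X_pos h] at e
      obtain ⟨g, hg, h0, q, hq, hP'⟩ := star_chart hc.ne h hv
        (fun g hg => (G2 (s.ch O).ty hc.ptd g hg).1) (G3 (s.ch O).ty hc.ptd) hN0
        (fun g hg => hn _ ⟨O, hO, rfl⟩ g hg h) hc.le hb e ha ha0 hP
      exact ⟨O, (s.ch O).star v g, _, fun _ => ⟨hO, hD, hP', Or.inr ⟨h, g, hg, h0, rfl, q, hq, rfl⟩⟩⟩
    · rw [X_neg h, TS.J, sp_mul_congr rfl hc.sp_zero, pr_mul, mul_one] at e
      have h1 : ∀ x ∈ A, x / b ∈ O := fun x hx => (mem_sp_pr_iff hb).1 (e ▸ le_sp _ _ hx)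
      have h2 : b / a ∈ O' := div_mem_of_mem_sp hD.1 (fun x hx => hP.le (div_mem_chart _ _ hx))
        (e ▸ le_sp _ _ (mem_pr b))
      have h3 : Un O (a / b) := hD.2 _ (h1 a ha) ⟨hD.1 (h1 a ha), div_ne_zero ha0 hb, by
        rwa [inv_div]⟩
      have h4 : O' = O := hD.eq_of_isPoint (hP.of_le_loc hD.1 ((chart_le le_rfl fun x hx => by
        have : x / a = x / b * (a / b)⁻¹ := by field_simp
        rw [this]; exact mul_mem (h1 x hx) h3.2.2).trans (le_loc _ _)))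
      subst h4
      refine ⟨O', (s.ch O').keep, 1, fun _ => ⟨hO, hD, isPoint_self hP.lcl (TA_le fun c hc' =>
        hc.mem ?_), Or.inl ⟨h, rfl, rfl⟩⟩⟩
      exact Typ.reg_keep (τ := (s.ch O').τ) 0 ▸ hc'
  choose ctr ch u H using key
  have hreg : ∀ O', Pt ⊥ (s.M * A) O' → WAt (ch O') O' ∧
      Set.range (mn (ch O').z) = Set.range (mn (s.ch (ctr O')).z) ∧
      TA k (s.ch (ctr O')).z (s.ch (ctr O')).τ ≤ TA k (ch O').z (ch O').τ := by
    intro O' hO'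
    obtain ⟨hO, -, hP, h⟩ := H O' hO'
    have hc := hs.cht _ hO
    rcases h with ⟨-, e, -⟩ | ⟨h, g, hg, h0, e, -⟩
    · rw [e] at hP ⊢
      have hle : (s.ch (ctr O')).τ.Reg 0 ⊆ (s.ch (ctr O')).τ.keep.Reg 0 :=
        (Typ.reg_keep (τ := (s.ch (ctr O')).τ) 0).ge
      exact ⟨⟨hc.ptd.keep, hc.str.keep, hc.ind, le_sup_right.trans hP.le⟩, rfl,
        TA_le fun c hc => mn_mem_TA (hle hc)⟩
    · rw [e] at hP ⊢
      have hle : (s.ch (ctr O')).τ.Reg 0 ⊆ ((s.ch (ctr O')).τ.star v g).Reg 0 := fun c hc =>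
        (Typ.mem_reg_star h).2 ⟨fun ρ hρ _ => hc ρ hρ, by simpa using h.nonneg hv hc⟩
      exact ⟨⟨(G2 (s.ch (ctr O')).ty hc.ptd g hg).pointed_star h h0, hc.str.star h hv hv0, hc.ind,
        le_sup_right.trans hP.le⟩, rfl, TA_le fun c hc => mn_mem_TA (hle hc)⟩
  have hexp : ∀ f a, s.HasExp f a →
      (TS.mk (Option s.ι) (s.M * A) ch).HasExp f fun o => o.elim ⌊vp v a⌋ a := by
    intro f a hf O' hO'
    obtain ⟨hO, hD, -, h⟩ := H O' hO'
    obtain ⟨c, h1, h2⟩ := hf _ hO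
    change ∃ c, (∀ ρ ∈ (ch O').τ.R, (ch O').τ.ev c ρ = _) ∧ Un O' (f / mn (ch O').z c)
    rcases h with ⟨-, e, -⟩ | ⟨h, g, -, -, e, -⟩
    · rw [e]
      refine ⟨c, ?_, h2.mono hD.1⟩
      rintro _ ⟨ρ, hρ, rfl⟩
      exact h1 ρ hρ
    · rw [e]
      refine ⟨c, ?_, h2.mono hD.1⟩
      rintro (_ | ρ) hρ
      · change ((s.ch (ctr O')).τ.star v g).ev c none = ⌊vp v a⌋
        rw [← vp_congr fun ρ hρ => h1 ρ (h.1 ρ hρ), ← Typ.ev_star_none (g := g) h,
          Int.floor_intCast]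
      · exact h1 ρ (Typ.some_mem_star.1 hρ).1
  have hu0 : ∀ O', Pt ⊥ (s.M * A) O' → u O' ≠ 0 := fun O' hO' => by
    obtain ⟨hO, -, -, ⟨-, -, e⟩ | ⟨-, g, -, -, -, q, -, e⟩⟩ := H O' hO'
    · rw [e]; exact one_ne_zero
    · rw [e]; exact mn_ne_zero (hs.cht _ hO).ne _
  have hpull : ∀ a n, GlobC C (s.M * A) fun O' => s.X v a n (ctr O') := fun a n =>
    (hs.glob_X hC hv a n).pull ctr fun O' hO' => ⟨(H O' hO').1, (H O' hO').2.1.1⟩
  -- the new modules in terms of the old ones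
  have hnew : ∀ (a : Option s.ι → ℤ) (t : ℕ), (∀ τ ∈ 𝒯, ∀ g ∈ G τ, τ.2.App v →
      ∀ c ∈ (τ.2.star v g).Reg a, ∃ f, c - f ∈ (τ.2.star v g).Reg 0 ∧
        f ∈ (τ.2.star v g).Reg a ∧ f + t • g ∈ τ.2.Reg fun ρ => a (some ρ)) →
      ∀ O', Pt ⊥ (s.M * A) O' →
        sp O' (pr k (u O')⁻¹ ^ t * s.X v (fun ρ => a (some ρ)) (a none + t * N) (ctr O')) =
          sp O' (ms k (ch O').z ((ch O').τ.Reg a)) := by
    intro a t ht O' hO'
    have hAt := (hreg O' hO').1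
    obtain ⟨hO, -, -, ⟨h, e, e'⟩ | ⟨h, g, hg, h0, e, q, hq, e'⟩⟩ := H O' hO'
    · rw [X_neg h, e, e', inv_one, pr_one, one_pow, one_mul]
      exact congrArg (fun S => sp O' (ms k _ S)) (Typ.reg_keep (τ := (s.ch (ctr O')).τ) a).symm
    · have hz := (hs.cht _ hO).ne
      have hg0 : g ∈ (s.ch (ctr O')).τ.Reg 0 := (G2 (s.ch (ctr O')).ty (hs.cht _ hO).ptd g hg).1
      have hw : vp v ((s.ch (ctr O')).τ.ev (t • q • g)) = t * N := by
        rw [Typ.vp_ev_nsmul, Typ.vp_ev_nsmul, hq]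
      rw [e] at hAt
      rw [X_pos h, e, e', pr_pow, inv_pow, ← mn_nsmul, ← mn_neg]
      change _ = sp O' (ms k (s.ch (ctr O')).z (((s.ch (ctr O')).τ.star v g).Reg a))
      refine sp_eq_of_le ((pr_mul_ms_le fun c hc => ?_).trans (le_sp _ _)) (ms_le fun c hc => ?_)
      · rw [← mn_add hz, neg_add_eq_sub]
        refine mn_mem_ms ((Typ.mem_reg_star h).2 ⟨fun ρ hρ e0 => ?_, ?_⟩)
        · rw [Typ.ev_sub, Typ.ev_nsmul, Typ.ev_nsmul, e0]; simpa using hc.1 ρ hρ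
        · rw [Typ.vp_ev_sub, hw]; linarith [hc.2]
      · obtain ⟨f, f1, f2, f3⟩ : ∃ f : Fin (s.ch (ctr O')).r → ℤ,
            c - f ∈ ((s.ch (ctr O')).τ.star v g).Reg 0 ∧ f ∈ ((s.ch (ctr O')).τ.star v g).Reg a ∧
            f + t • g ∈ (s.ch (ctr O')).τ.Reg fun ρ => a (some ρ) := ht _ ⟨_, hO, rfl⟩ g hg h c hc
        have hq0 : q ≠ 0 := by
          rintro rfl
          have : (N : ℚ) = 0 := by simpa using hq.symm
          exact hN0.ne' (by exact_mod_cast this)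
        obtain ⟨q, rfl⟩ := Nat.exists_eq_succ_of_ne_zero hq0
        have e1 : mn (s.ch (ctr O')).z c = mn (s.ch (ctr O')).z (c - f) *
            (mn (s.ch (ctr O')).z (-(t • q.succ • g)) *
              mn (s.ch (ctr O')).z (f + t • q.succ • g)) := by
          rw [← mn_add hz, ← mn_add hz]; congr 1; abel
        refine e1 ▸ mul_mem_sp (hAt.mem f1) (le_sp _ _ (mul_mem_mul (mem_pr _)
          (mn_mem_ms ⟨?_, ?_⟩)))
        · have : f + t • q.succ • g = (f + t • g) + (t * q) • g := by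
            rw [Nat.succ_eq_add_one]; module
          rw [this]
          exact Typ.add_mem_reg0 f3 (Typ.nsmul_mem_reg hg0 _)
        · rw [Typ.vp_ev_add, hw]
          linarith [((Typ.mem_reg_star h).1 f2).2]
  have hinv : GlobC C (s.M * A) fun O' => pr k (u O')⁻¹ := by
    refine GlobC.inv ((hpull 0 N).congr fun O' hO' => ?_) hu0
    have hAt := (hreg O' hO').1
    obtain ⟨hO, hD, -, ⟨h, -, e'⟩ | ⟨h, g, hg, h0, e, q, hq, e'⟩⟩ := H O' hO'
    · rw [X_neg h, e']; exact sp_congr hD.1 (hs.cht _ hO).sp_zero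
    · have hz := (hs.cht _ hO).ne
      have hg0 : g ∈ (s.ch (ctr O')).τ.Reg 0 := (G2 (s.ch (ctr O')).ty (hs.cht _ hO).ptd g hg).1
      have hw : vp v ((s.ch (ctr O')).τ.ev (q • g)) = N := by rw [Typ.vp_ev_nsmul, hq]
      rw [e] at hAt
      rw [X_pos h, e']
      refine sp_eq_of_le (ms_le fun c hc => ?_) ((pr_le (mn_mem_ms
        (And.intro (Typ.nsmul_mem_reg hg0 q) hw.ge))).trans (le_sp _ _))
      rw [mem_sp_pr_iff (mn_ne_zero hz _), ← mn_sub hz]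
      refine hAt.mem ((Typ.mem_reg_star h).2 ⟨fun ρ hρ e0 => ?_, ?_⟩)
      · rw [Typ.ev_sub, Typ.ev_nsmul, e0]; simpa using hc.1 ρ hρ
      · rw [Typ.vp_ev_sub, hw]; simpa using hc.2
  refine ⟨s.M * A, ch, ⟨hC.mul _ _ hs.cl hA, ?_, ?_, fun O' hO' => (hreg O' hO').1,
    fun a => ?_⟩,
    ⟨⟨A, hC.fg _ hA, rfl⟩, fun O' hO' => ⟨ctr O', (H O' hO').1, (H O' hO').2.1,
      (hreg O' hO').2.1,
      (hreg O' hO').2.2, (H O' hO').2.2.1⟩, fun f a h => ⟨_, hexp f a h⟩⟩, hexp, fun O' hO' => ?_⟩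
  · rw [Ne, Submodule.mul_eq_bot, not_or]
    refine ⟨hs.ne, fun e => ?_⟩
    obtain ⟨O, hO⟩ := exists_pt hs.ne
    obtain ⟨b, hb, -, e'⟩ := hAB O hO
    have hc := hs.cht O hO
    obtain ⟨c, hc'⟩ : ∃ c, mn (s.ch O).z c ∈ s.X v 0 N O := by
      by_cases h : (s.ch O).τ.App v
      · obtain ⟨g, hg⟩ := (hc.str.star (g := 0) h hv hv0)
        have h1 := hg none Typ.none_mem_star
        have h2 : (1 : ℚ) ≤ vp v ((s.ch O).τ.ev g) := by
          rw [← Typ.ev_star_none (g := 0) h]; exact_mod_cast h1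
        refine ⟨N • g, X_pos (s := s) h ▸ mn_mem_ms ⟨Typ.nsmul_mem_reg (fun ρ hρ =>
          (hg (some ρ) (Typ.some_mem_star.2 ⟨hρ, Typ.ev_zero ρ⟩)).le) N, ?_⟩⟩
        rw [Typ.vp_ev_nsmul]
        exact le_mul_of_one_le_right (Nat.cast_nonneg N) h2
      · exact ⟨0, X_neg (s := s) h ▸ mn_mem_ms Typ.zero_mem_reg⟩
    have := e' ▸ le_sp O _ (mul_mem_mul (mem_pr b) hc')
    rw [e, sp, Submodule.mul_bot, Submodule.mem_bot] at this
    exact mul_ne_zero hb (mn_ne_zero hc.ne c) this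
  · refine ((hs.fin.image fun t => (⟨t.1, t.2.keep⟩ : Σ r, Typ (Option s.ι) r)).union
      (hs.fin.biUnion fun t ht => (G1 t (hT t ht)).image
        fun g => (⟨t.1, t.2.star v g⟩ : Σ r, Typ (Option s.ι) r))).subset ?_
    rintro _ ⟨O', hO', rfl⟩
    obtain ⟨hO, -, -, ⟨-, e, -⟩ | ⟨-, g, hg, -, e, -⟩⟩ := H O' hO'
    · exact Or.inl ⟨_, ⟨_, hO, rfl⟩, (congrArg Ch.ty e).symm⟩
    · exact Or.inr (Set.mem_biUnion ⟨_, hO, rfl⟩ ⟨g, hg, (congrArg Ch.ty e).symm⟩)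
  · obtain ⟨t, ht⟩ : ∃ t : ℕ, ∀ τ ∈ 𝒯, ∀ g ∈ G τ, τ.2.App v →
        ∀ c ∈ (τ.2.star v g).Reg a, ∃ f, c - f ∈ (τ.2.star v g).Reg 0 ∧
          f ∈ (τ.2.star v g).Reg a ∧ f + t • g ∈ τ.2.Reg fun ρ => a (some ρ) := by
      refine Eventually.exists (f := atTop) ((eventually_all_finite hs.fin).2 fun τ hτ =>
        (eventually_all_finite (G1 τ (hT τ hτ))).2 fun g hg => ?_)
      by_cases h : τ.2.App v
      · obtain ⟨F, F1, F2, F3⟩ := Typ.reg_fg (τ := τ.2.star v g) a _ subset_rfl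
        have : ∀ᶠ t : ℕ in atTop, ∀ f ∈ F, f + t • g ∈ τ.2.Reg fun ρ => a (some ρ) :=
          (eventually_all_finite F1).2 fun f hf => Typ.ev_add_reg (G2 τ (hT τ hτ) g hg).1
            ((Typ.mem_reg_star h).1 (F2 hf)).1
        filter_upwards [this] with t ht _ c hc
        obtain ⟨f, hf, hf'⟩ := F3 c hc
        exact ⟨f, hf', F2 hf, ht f hf⟩
      · exact Eventually.of_forall fun _ h1 => absurd h1 h
    exact ((hinv.pow hC t).mul hC (hpull _ _)).congr (hnew a t ht)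
  · obtain ⟨hO, -, -, ⟨h, e, -⟩ | ⟨h, g, -, h0, e, -⟩⟩ := H O' hO'
    · exact ⟨_, hO, Or.inl ⟨h, e⟩⟩
    · exact ⟨_, hO, Or.inr ⟨h, g, h0, e⟩⟩

/-- Principalization of one monomial function. -/
lemma cmp_oneW (hC : Cls C) (f : L) (n : ℕ) : ∀ (s : TS k L) (a : s.ι → ℤ), GoodW C s →
    s.HasExp f a →
    {p : s.ι × s.ι | 0 < a p.1 ∧ a p.2 < 0 ∧ ∃ O, s.P O ∧ p.1 ∈ (s.ch O).τ.R ∧
      p.2 ∈ (s.ch O).τ.R}.ncard ≤ n → ∃ s' : TS k L, GoodW C s' ∧ s.Ref s' ∧ s'.Cmp f := by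
  classical
  induction n using Nat.strong_induction_on with
  | _ n ih =>
    intro s a hs hf hn
    by_cases hB : ∃ p : s.ι × s.ι, 0 < a p.1 ∧ a p.2 < 0 ∧ ∃ O, s.P O ∧ p.1 ∈ (s.ch O).τ.R ∧
      p.2 ∈ (s.ch O).τ.R
    swap
    · refine ⟨s, hs, hs.refl, fun O hO => ?_⟩
      obtain ⟨c, h1, h2⟩ := hf O hO
      have hc := hs.cht O hO
      by_cases h : c ∈ (s.ch O).τ.Reg 0
      · left
        rw [← div_mul_cancel₀ f (mn_ne_zero hc.ne c)]
        exact mul_mem h2.1 (hc.mem h)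
      · right
        simp only [Typ.Reg, Set.mem_ofPred_eq, not_forall, not_le] at h
        obtain ⟨σ, hσ, h⟩ := h
        have h3 : -c ∈ (s.ch O).τ.Reg 0 := fun ρ hρ => by
          rw [Typ.ev_neg, h1 ρ hρ]
          by_contra H
          exact hB ⟨(ρ, σ), by simpa using H, by simpa [h1 σ hσ] using h, O, hO, hρ, hσ⟩
        have : f⁻¹ = (f / mn (s.ch O).z c)⁻¹ * mn (s.ch O).z (-c) := by
          have := mn_ne_zero hc.ne c
          rw [mn_neg]; field_simp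
        rw [this]; exact mul_mem h2.2.2 (hc.mem h3)
    obtain ⟨⟨α, β⟩, hα, hβ, hαβ⟩ := hB
    have hne : α ≠ β := fun e => by subst e; simp only at hα hβ; omega
    let v : s.ι → ℚ := Pi.single α (-a β : ℤ) + Pi.single β (a α : ℤ)
    have hvp : ∀ b, vp v b = (-a β * b α + a α * b β : ℤ) := fun b => by
      simp only [vp, v, Pi.add_apply, add_mul, Finset.sum_add_distrib, Pi.single_apply, ite_mul,
        zero_mul, Finset.sum_ite_eq', Finset.mem_univ, if_true]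
      push_cast; ring
    have hsup : ∀ ρ, v ρ ≠ 0 → ρ = α ∨ ρ = β := fun ρ hρ => by
      by_contra H
      push Not at H
      simp [v, Pi.single_eq_of_ne H.1, Pi.single_eq_of_ne H.2] at hρ
    have hv : 0 ≤ v := add_nonneg (Pi.single_nonneg.2 (by simp only at hβ; exact_mod_cast by omega))
      (Pi.single_nonneg.2 (by simp only at hα; exact_mod_cast hα.le))
    have hv0 : v ≠ 0 := fun e => by
      have := congrFun e β
      simp [v, Pi.single_eq_of_ne hne.symm] at this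
      simp only at hα; omega
    obtain ⟨M, ch, h1, h2, h3, h4⟩ := hs.star hC hv hv0
    have h0 : ⌊vp v a⌋ = 0 := by rw [hvp, Int.floor_intCast]; ring
    have h5 := h3 f a hf
    rw [h0] at h5
    set B := {p : s.ι × s.ι | 0 < a p.1 ∧ a p.2 < 0 ∧ ∃ O, s.P O ∧ p.1 ∈ (s.ch O).τ.R ∧
      p.2 ∈ (s.ch O).τ.R} with hB
    have hmem : (α, β) ∈ B := ⟨hα, hβ, hαβ⟩
    obtain ⟨s', a1, a2, a3⟩ := ih _ (lt_of_lt_of_le (lt_of_le_of_lt (Set.ncard_image_le
      (f := Prod.map some some) (Set.toFinite _)) (Set.ncard_sdiff_singleton_lt_of_mem hmem)) hn)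
      _ _ h1 h5 (Set.ncard_le_ncard (by
        rintro ⟨_ | ρ, _ | σ⟩ ⟨b1, b2, O', hO', b3, b4⟩ <;> try simp at b1 b2
        obtain ⟨O, hO, ⟨h, e⟩ | ⟨h, g, hg, e⟩⟩ := h4 O' hO'
        · change some ρ ∈ (ch O').τ.R at b3
          change some σ ∈ (ch O').τ.R at b4
          rw [e] at b3 b4
          have c3 : ρ ∈ (s.ch O).τ.R := by simpa [Ch.keep, Typ.keep] using b3
          have c4 : σ ∈ (s.ch O).τ.R := by simpa [Ch.keep, Typ.keep] using b4
          refine ⟨(ρ, σ), ⟨⟨b1, b2, O, hO, c3, c4⟩, fun e' => h ⟨fun τ hτ => ?_,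
            fun c => ⟨_, hvp _⟩⟩⟩, rfl⟩
          cases e'
          rcases hsup τ hτ with rfl | rfl <;> assumption
        · change some ρ ∈ (ch O').τ.R at b3
          change some σ ∈ (ch O').τ.R at b4
          rw [e] at b3 b4
          have c3 := (Typ.some_mem_star (τ := (s.ch O).τ) (g := g)).1 b3
          have c4 := (Typ.some_mem_star (τ := (s.ch O).τ) (g := g)).1 b4
          refine ⟨(ρ, σ), ⟨⟨b1, b2, O, hO, c3.1, c4.1⟩, fun e' => ?_⟩, rfl⟩
          cases e'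
          rw [hvp, c3.2, c4.2] at hg
          simp at hg) (Set.toFinite _))
    exact ⟨s', a1, h2.trans a2, a3⟩

/-- Triangulation. -/
lemma free_allW (hC : Cls C) (n : ℕ) : ∀ s : TS k L, GoodW C s →
    {ρ : s.ι | ∃ O, s.P O ∧ ρ ∈ (s.ch O).τ.R ∧ ¬ (s.ch O).τ.Free ρ}.ncard ≤ n →
    ∃ s' : TS k L, GoodW C s' ∧ s.Ref s' ∧
      ∀ O, s'.P O → ∀ ρ ∈ (s'.ch O).τ.R, (s'.ch O).τ.Free ρ := by
  classical
  induction n using Nat.strong_induction_on with
  | _ n ih =>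
    intro s hs hn
    by_cases hB : ∃ ρ, ∃ O, s.P O ∧ ρ ∈ (s.ch O).τ.R ∧ ¬ (s.ch O).τ.Free ρ
    swap
    · refine ⟨s, hs, hs.refl, fun O hO ρ hρ => ?_⟩
      by_contra H
      exact hB ⟨ρ, O, hO, hρ, H⟩
    obtain ⟨α, hα⟩ := hB
    let v : s.ι → ℚ := Pi.single α 1
    have hvp : ∀ b, vp v b = b α := fun b => by simp [vp, v, Pi.single_apply]
    have hv0 : v ≠ 0 := fun e => by simpa [v] using congrFun e α
    obtain ⟨M, ch, h1, h2, -, h4⟩ := hs.star (v := v) hC (Pi.single_nonneg.2 zero_le_one) hv0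
    set B := {ρ : s.ι | ∃ O, s.P O ∧ ρ ∈ (s.ch O).τ.R ∧ ¬ (s.ch O).τ.Free ρ} with hB
    have hmem : α ∈ B := hα
    obtain ⟨s', a1, a2, a3⟩ := ih _ (lt_of_lt_of_le (lt_of_le_of_lt (Set.ncard_image_le
      (f := some) (Set.toFinite _)) (Set.ncard_sdiff_singleton_lt_of_mem hmem)) hn)
      _ h1 (Set.ncard_le_ncard (by
        rintro o ⟨O', hO', b1, b2⟩
        change o ∈ (ch O').τ.R at b1
        change ¬ (ch O').τ.Free o at b2
        obtain ⟨O, hO, ⟨h, e⟩ | ⟨h, g, hg, e⟩⟩ := h4 O' hO'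
        · rw [e] at b1 b2
          obtain ⟨ρ, hρ, rfl⟩ := b1
          refine ⟨ρ, ⟨⟨O, hO, hρ, fun H => b2 H.keep⟩, fun e' => h ⟨fun τ hτ => ?_,
            fun c => ⟨_, hvp _⟩⟩⟩, rfl⟩
          cases e'
          by_contra H
          exact hτ (Pi.single_eq_of_ne (fun e : τ = α => H (e ▸ hρ)) _)
        · rw [e] at b1 b2
          cases o with
          | none => exact absurd (Typ.free_star_none h hg) b2
          | some ρ =>
            have c1 := (Typ.some_mem_star (τ := (s.ch O).τ) (g := g)).1 b1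
            refine ⟨ρ, ⟨⟨O, hO, c1.1, fun H => b2 (H.star h hg c1.2)⟩, fun e' => ?_⟩, rfl⟩
            cases e'
            rw [hvp, c1.2] at hg
            simp at hg) (Set.toFinite _))
    exact ⟨s', a1, h2.trans a2, a3⟩

/-- Reduction of the multiplicity of simplicial cones. -/
lemma uni_allW (hC : Cls C) (W : ℕ) : ∀ (n : ℕ) (s : TS k L), GoodW C s →
    (∀ O, s.P O → ∀ ρ ∈ (s.ch O).τ.R, (s.ch O).τ.Free ρ) →
    (∀ O, s.P O → (s.ch O).τ.Par.ncard ≤ W) →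
    {t | t ∈ (fun O => (s.ch O).ty) '' {O | s.P O} ∧ t.2.Par.ncard = W}.ncard ≤ n →
    ∃ s' : TS k L, GoodW C s' ∧ s.Ref s' ∧ s'.Uni := by
  induction W using Nat.strong_induction_on with
  | _ W ihW =>
  intro n
  induction n using Nat.strong_induction_on with
  | _ n ih =>
    intro s hs hF hW hn
    by_cases hU : s.Uni
    · exact ⟨s, hs, hs.refl, hU⟩
    have hfin : ∀ O, s.P O → (s.ch O).τ.Par.Finite := fun O hO => Typ.par_finite (hF O hO)
    have hzero : ∀ O, (0 : s.ι → ℚ) ∈ (s.ch O).τ.Par := fun O =>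
      ⟨fun _ => ⟨le_rfl, zero_lt_one⟩, fun _ h => absurd rfl h, fun _ => ⟨0, by simp [vp]⟩⟩
    have hW2 : 1 < W := by
      by_contra H
      refine hU fun O hO => Typ.uni_of_par fun w hw => ?_
      exact (Set.ncard_le_one (hfin O hO)).1 ((hW O hO).trans (by omega)) w hw 0 (hzero O)
    by_cases hB : ∃ O, s.P O ∧ (s.ch O).τ.Par.ncard = W
    swap
    · refine ihW (W - 1) (by omega) _ s hs hF (fun O hO => ?_) le_rfl
      have := hW O hO
      have : (s.ch O).τ.Par.ncard ≠ W := fun e => hB ⟨O, hO, e⟩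
      omega
    obtain ⟨O₀, hO₀, e₀⟩ := hB
    obtain ⟨v, hv, hv0⟩ := Set.exists_ne_of_one_lt_ncard (e₀ ▸ hW2) 0
    obtain ⟨M, ch, h1, h2, -, h4⟩ := hs.star (v := v) hC (fun ρ => (hv.1 ρ).1) hv0
    set B := {t | t ∈ (fun O => (s.ch O).ty) '' {O | s.P O} ∧ t.2.Par.ncard = W} with hB
    have hmem : (s.ch O₀).ty ∈ B := ⟨⟨O₀, hO₀, rfl⟩, e₀⟩
    have hBf : B.Finite := hs.fin.subset fun t ht => ht.1
    refine (ih _ (lt_of_lt_of_le (lt_of_le_of_lt (Set.ncard_image_le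
      (f := fun t => (⟨t.1, t.2.keep⟩ : Σ r, Typ (Option s.ι) r)) (hBf.subset Set.sdiff_subset))
      (Set.ncard_sdiff_singleton_lt_of_mem hmem hBf)) hn) _ h1 (fun O' hO' o ho => ?_)
      (fun O' hO' => ?_) (Set.ncard_le_ncard ?_ ((hBf.subset Set.sdiff_subset).image _))).imp
      fun s' a => ⟨a.1, h2.trans a.2.1, a.2.2⟩
    · change o ∈ (ch O').τ.R at ho
      change (ch O').τ.Free o
      obtain ⟨O, hO, ⟨h, e⟩ | ⟨h, g, hg, e⟩⟩ := h4 O' hO'
      · rw [e] at ho ⊢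
        obtain ⟨ρ, hρ, rfl⟩ := ho
        exact (hF O hO ρ hρ).keep
      · rw [e] at ho ⊢
        cases o with
        | none => exact Typ.free_star_none h hg
        | some ρ =>
          have c1 := Typ.some_mem_star.1 ho
          exact (hF O hO ρ c1.1).star h hg c1.2
    · change (ch O').τ.Par.ncard ≤ W
      obtain ⟨O, hO, ⟨h, e⟩ | ⟨h, g, hg, e⟩⟩ := h4 O' hO'
      · rw [e]; exact (Typ.ncard_par_keep (hfin O hO)).trans (hW O hO)
      · rw [e]; exact (Typ.ncard_par_star (hfin O hO) ⟨hv.1, h⟩ hg).le.trans (hW O hO)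
    · rintro _ ⟨⟨O', hO', rfl⟩, b⟩
      change (ch O').τ.Par.ncard = W at b
      obtain ⟨O, hO, ⟨h, e⟩ | ⟨h, g, hg, e⟩⟩ := h4 O' hO'
      · rw [e] at b
        refine ⟨(s.ch O).ty, ⟨⟨⟨O, hO, rfl⟩, le_antisymm (hW O hO)
          (b ▸ Typ.ncard_par_keep (hfin O hO))⟩, fun e' => h ?_⟩, (congrArg Ch.ty e).symm⟩
        have : ∀ t t' : Σ r, Typ s.ι r, t = t' → t'.2.App v → t.2.App v := by
          rintro _ _ rfl h; exact h
        exact this _ _ e' hv.2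
      · rw [e] at b
        have := (Typ.ncard_par_star (hfin O hO) ⟨hv.1, h⟩ hg).trans_le (hW O hO)
        exact absurd b this.ne

end Sys

/-- Module RESW. -/
theorem resW : ResW k L := by
  intro C s S hC hs hS hm
  obtain ⟨s1, a1, a2, a3⟩ : ∃ s' : TS k L, GoodW C s' ∧ s.Ref s' ∧ ∀ f ∈ S, s'.Cmp f := by
    induction S, hS using Set.Finite.induction_on with
    | empty => exact ⟨s, hs, hs.refl, fun _ h => h.elim⟩
    | @insert f S _ _ ih =>
      obtain ⟨s1, a1, a2, a3⟩ := ih fun g hg => hm g (Set.mem_insert_of_mem _ hg)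
      obtain ⟨a, ha⟩ := hm f (Set.mem_insert _ _)
      obtain ⟨a', ha'⟩ := a2.exp f a ha
      obtain ⟨s2, b1, b2, b3⟩ := cmp_oneW hC f _ s1 a' a1 ha' le_rfl
      refine ⟨s2, b1, a2.trans b2, ?_⟩
      rintro g (rfl | hg)
      exacts [b3, b2.cmp (a3 g hg)]
  obtain ⟨s2, b1, b2, b3⟩ := free_allW hC _ s1 a1 le_rfl
  obtain ⟨W, hW⟩ := (b1.fin.image fun t => t.2.Par.ncard).bddAbove
  obtain ⟨s3, c1, c2, c3⟩ := uni_allW hC W _ s2 b1 b3
    (fun O hO => hW ⟨_, ⟨O, hO, rfl⟩, rfl⟩) le_rfl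
  exact ⟨s3, c1, (a2.trans b2).trans c2, c3, fun f hf => c2.cmp (b2.cmp (a3 f hf))⟩


end Pool.Agent.MP_19ffc6_ag.Perf

end MrgPart0

-- ======== part 1: formerly Pool.Agent.MP_19ffc6_ag.perf.VirtB
section MrgPart1

/-! PROJECT PERF, module VIRT, second part: monomials with trivial characters. -/

namespace Pool.Agent.MP_19ffc6_ag.Perf

open Pool.Agent.R72.Wild Pool.Agent.R72.Lci Pool.Agent.R72.Res Pool.Agent.R72.Res.Tor
  Pool.Agent.R72.Res.B Pool.Agent.R72.Res.P Pool.Agent.R72.Res.Lab Filter Submodule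

variable {k L : Type} [Field k] [Field L] [Algebra k L] {K₀ : Subfield L}
  {N : IntermediateField k L} {O O₀ D : Subalgebra k L} {g h : SA k L} {x y u : L}
  {M X Y : Submodule k L}

section Loc

lemma Nu.sum {κ : Type} (hl : Lcl O) (S : Finset κ) {f : κ → L} (h : ∀ i ∈ S, Nu O (f i)) :
    Nu O (∑ i ∈ S, f i) := Finset.sum_induction f (Nu O) (fun _ _ => .add hl) (.zero O) h

lemma Nu.zpow_sub {a : L} (hl : Lcl O) (hx : Nu O (x - a)) (ha : Un O a) (n : ℤ) :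
    Nu O (x ^ n - a ^ n) := by
  have hu := hx.un hl ha
  obtain ⟨m, rfl | rfl⟩ := n.eq_nat_or_neg
  · simpa using hx.pow_sub hl hu.1 ha.1 m
  · have e : (x ^ m)⁻¹ - (a ^ m)⁻¹ = -(x ^ m - a ^ m) * ((x ^ m)⁻¹ * (a ^ m)⁻¹) := by
      field_simp [hu.2.1, ha.2.1]; ring
    rw [zpow_neg, zpow_neg, zpow_natCast, zpow_natCast, e]
    exact (hx.pow_sub hl hu.1 ha.1 m).neg.mul (mul_mem (hu.pow m).2.2 (ha.pow m).2.2)

lemma nu_mn {κ : Type} [Fintype κ] {q : κ → L} {α : κ → k} (hl : Lcl O) (h0 : ∀ i, α i ≠ 0)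
    (h : ∀ i, Nu O (q i - algebraMap k L (α i))) (c : κ → ℤ) :
    Nu O (mn q c - algebraMap k L (mn α c)) := by
  classical
  have key : ∀ S : Finset κ, ∏ i ∈ S, q i ^ c i ∈ O ∧
      Nu O (∏ i ∈ S, q i ^ c i - algebraMap k L (∏ i ∈ S, α i ^ c i)) := fun S => by
    induction S using Finset.induction_on with
    | empty => simpa using Nu.zero O
    | insert i S hi ih =>
      have h1 := (un_zpow ((h i).un hl (un_alg O (h0 i))) (c i)).1
      rw [Finset.prod_insert hi, Finset.prod_insert hi, map_mul, map_zpow₀]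
      exact ⟨mul_mem h1 ih.1, ((h i).zpow_sub hl (un_alg O (h0 i)) _).mul_sub hl ih.2 h1
        (O.algebraMap_mem _)⟩
  exact (key _).2

lemma quot_mn {κ : Type} [Fintype κ] (g : SA k L) (z : κ → L) (c : κ → ℤ) :
    g • mn z c / mn z c = mn (fun i => g • z i / z i) c := by
  simp only [mn, sm_prod, smul_zpow₀', div_zpow, Finset.prod_div_distrib]

/-- The residue of `x` at a rational point. -/
noncomputable def rs (O : Subalgebra k L) (x : L) : k :=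
  Classical.epsilon fun c => ¬ Un O (x - algebraMap k L c)

lemma rs_spec (hr : Rt O) (hx : x ∈ O) : Nu O (x - algebraMap k L (rs O x)) :=
  ⟨sub_mem hx (O.algebraMap_mem _), Classical.epsilon_spec (hr x hx)⟩

lemma Nu.uniq {a b : k} (hl : Lcl O) (ha : Nu O (x - algebraMap k L a))
    (hb : Nu O (x - algebraMap k L b)) : a = b := by
  have := hb.sub hl ha
  rw [sub_sub_sub_cancel_left, ← map_sub] at this
  exact sub_eq_zero.1 this.alg

lemma rs_ne (hr : Rt O) (hx : Un O x) : rs O x ≠ 0 := fun e =>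
  (rs_spec hr hx.1).2 (by simpa [e] using hx)

/-- A simple root of unity stays the residue in a neighbourhood. -/
lemma ev_root {n : ℕ} {α : k} (hn : (n : k) ≠ 0) (hO : IsPoint D O₀) (hx : x ∈ O₀)
    (h : Nu O₀ (x - algebraMap k L α)) (hα : α ^ n = 1) :
    ∀ᶠ O in nb D O₀, Nu O (x ^ n - 1) → Nu O (x - algebraMap k L α) := by
  have hα0 : α ≠ 0 := fun e => by
    have : n ≠ 0 := fun e => hn (by simp [e])
    simp [e, this] at hα
  have h1 : Un O₀ (∑ i ∈ Finset.range n, x ^ i * algebraMap k L α ^ (n - 1 - i)) := by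
    refine Nu.un hO.lcl ?_ (un_alg O₀ (mul_ne_zero hn (pow_ne_zero (n - 1) hα0)))
    have e : algebraMap k L (n * α ^ (n - 1)) =
        ∑ i ∈ Finset.range n, algebraMap k L α ^ i * algebraMap k L α ^ (n - 1 - i) := by
      rw [geom_sum₂_self]; simp
    rw [e, ← Finset.sum_sub_distrib]
    refine Nu.sum hO.lcl _ fun i _ => ?_
    rw [← sub_mul]
    exact (h.pow_sub hO.lcl hx (O₀.algebraMap_mem _) i).mul (pow_mem (O₀.algebraMap_mem _) _)
  filter_upwards [ev_un hO h1] with O a b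
  refine Nu.of_mul a ?_
  rwa [geom_sum₂_mul, ← map_pow, hα, map_one]

lemma sp_cancel {c : L} (hc : c ≠ 0) (h : sp O (pr k c * X) = sp O (pr k c * Y)) :
    sp O X = sp O Y := by
  have := sp_mul_congr (rfl : sp O (pr k c⁻¹) = _) h
  rwa [← mul_assoc, ← mul_assoc, pr_mul, inv_mul_cancel₀ hc, pr_one, one_mul, one_mul] at this

lemma un_of_sp {v : L} (hu : u ≠ 0) (hv : v ≠ 0) (h : sp O (pr k u) = sp O (pr k v)) :
    Un O (u / v) :=
  ⟨(mem_sp_pr_iff hv).1 (h ▸ le_sp _ _ (mem_pr u)), div_ne_zero hu hv, by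
    rw [inv_div]; exact (mem_sp_pr_iff hu).1 (h ▸ le_sp _ _ (mem_pr v))⟩

lemma ev_sp_le (hO : IsPoint D O₀) (hX : X.FG) (h : X ≤ sp O₀ Y) :
    ∀ᶠ O in nb D O₀, X ≤ sp O Y := by
  obtain ⟨S, rfl⟩ := hX
  exact ((eventually_all_finset S).2 fun x hx =>
    ev_span hO (mem_sp_iff.1 (h (subset_span hx)))).mono fun O h =>
      span_le.2 fun x hx => mem_sp_iff.2 (h x hx)

lemma ev_sp_eq (hO : IsPoint D O₀) (hX : X.FG) (hY : Y.FG) (h : sp O₀ X = sp O₀ Y) :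
    ∀ᶠ O in nb D O₀, sp O X = sp O Y :=
  ((ev_sp_le hO hX ((le_sp _ _).trans h.le)).and
    (ev_sp_le hO hY ((le_sp _ _).trans h.ge))).mono fun _ h => sp_eq_of_le h.1 h.2

variable {ι : Type} {r : ℕ} {τ : Typ ι r} {z : Fin r → L} {a : ι → ℤ} {c : Fin r → ℤ}

open Classical in
/-- The orders of the monomial `c`, completed by `a`. -/
noncomputable def ext (τ : Typ ι r) (c : Fin r → ℤ) (a : ι → ℤ) : ι → ℤ :=
  fun ρ => if ρ ∈ τ.R then τ.ev c ρ else a ρ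

lemma le_ext (hc : c ∈ τ.Reg a) : a ≤ ext τ c a := fun ρ => by
  by_cases h : ρ ∈ τ.R
  · simpa [ext, h] using hc ρ h
  · simp [ext, h]

lemma sp_ext (hz : ∀ i, z i ≠ 0) (h : TA k z τ ≤ O) (c : Fin r → ℤ) (a : ι → ℤ) :
    sp O (ms k z (τ.Reg (ext τ c a))) = sp O (pr k (mn z c)) := by
  refine sp_eq_of_le (ms_le fun e he => ?_)
    ((pr_le (mn_mem_ms fun ρ hρ => by simp [ext, hρ])).trans (le_sp _ _))
  rw [mem_sp_pr_iff (mn_ne_zero hz c), ← mn_sub hz]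
  refine h (mn_mem_TA fun ρ hρ => ?_)
  have := he ρ hρ
  simp only [ext, hρ, if_true] at this
  rw [Typ.ev_sub]; simpa using this

lemma exists_of_sp {S : Set (Fin r → ℤ)} (hl : Lcl O) (hu : u ≠ 0)
    (h : sp O (ms k z S) = sp O (pr k u)) : ∃ c ∈ S, Un O (mn z c / u) := by
  obtain ⟨_, ⟨c, hc, rfl⟩, e⟩ := exists_un_of_span hl (S := mn z '' S) hu
    (fun x hx => (mem_sp_pr_iff hu).1 (h ▸ le_sp _ _ (subset_span hx)))
    (h.ge (le_sp _ _ (mem_pr u)))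
  exact ⟨c, hc, e⟩

lemma sp_fg [Finite ι] (hz : ∀ i, z i ≠ 0) (τ : Typ ι r) (a : ι → ℤ) : ∃ X : Submodule k L, X.FG ∧
    ∀ O, TA k z τ ≤ O → sp O (ms k z (τ.Reg a)) = sp O X := by
  obtain ⟨F, h1, h2, h3⟩ := Typ.reg_fg (τ := τ) a _ subset_rfl
  refine ⟨ms k z F, fg_span (h1.image _), fun O hO => sp_eq_of_le (ms_le fun c hc => ?_)
    ((ms_mono h2).trans (le_sp _ _))⟩
  obtain ⟨f, hf, e⟩ := h3 c hc
  rw [← sub_add_cancel c f, mn_add hz]
  exact mul_mem_sp (hO (mn_mem_TA e)) (le_sp _ _ (mn_mem_ms hf))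

lemma mn_mem_N [Finite ι] (hs : τ.Strict) (hz : ∀ i, z i ≠ 0) (h : TA k z τ ≤ N.toSubalgebra)
    (c : Fin r → ℤ) : mn z c ∈ N := by
  obtain ⟨g, hg, hc⟩ := exists_sub hs c
  rw [← add_sub_cancel_right c g, mn_sub hz]
  exact N.div_mem (h (mn_mem_TA hc)) (h (mn_mem_TA hg))

/-- A unit monomial is a quotient of unit monomials of the cone. -/
lemma exists_face [Finite ι] (hi : AlgebraicIndependent k z) (hs : τ.Strict)
    (hf : SF (TA k z τ) O) (hl : Lcl O) (h : Un O (mn z c)) :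
    ∃ f₁ ∈ τ.Reg 0, ∃ f₂ ∈ τ.Reg 0, Un O (mn z f₁) ∧ Un O (mn z f₂) ∧ c = f₁ - f₂ := by
  have hz := hi.ne_zero
  obtain ⟨g, hg, hc⟩ := exists_sub hs c
  have h1 := Mon_inter hi hs hf (x := mn z g) (T := {e | e - g ∈ τ.Reg 0})
    (T' := {e | e - (c + g) ∈ τ.Reg 0})
    (fun e he d hd => by rw [Set.mem_ofPred_eq, add_sub_assoc]; exact Typ.add_mem_reg0 hd he)
    (fun e he d hd => by rw [Set.mem_ofPred_eq, add_sub_assoc]; exact Typ.add_mem_reg0 hd he)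
    (mn_mem_Mon (by simpa using Typ.zero_mem_reg)) (by
      have := mul_mem_span h.2.2 (mn_mem_Mon (O := O) (z := z) (c := c + g)
        (T := {e | e - (c + g) ∈ τ.Reg 0}) (by simpa using Typ.zero_mem_reg))
      rwa [mn_add hz, inv_mul_cancel_left₀ h.2.1] at this)
  obtain ⟨_, ⟨e, he, rfl⟩, h2⟩ := exists_un_of_span hl (mn_ne_zero hz g) (by
    rintro _ ⟨e, he, rfl⟩
    rw [← mn_sub hz]; exact hf.le (mn_mem_TA he.1)) (mem_sp_ms.2 h1)
  rw [← mn_sub hz] at h2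
  refine ⟨_, he.1, _, he.2, h2, ?_, by abel⟩
  rw [show e - (c + g) = e - g - c by abel, mn_sub hz]
  exact un_div h2 h

/-- Finitely many generators, compatible with the residue classes modulo `n`. -/
lemma reg_fg_mod [Finite ι] (τ : Typ ι r) (a : ι → ℤ) {n : ℕ} (hn : n ≠ 0) :
    ∃ F : Set (Fin r → ℤ), F.Finite ∧ F ⊆ τ.Reg a ∧
      ∀ c ∈ τ.Reg a, ∃ f ∈ F, c - f ∈ τ.Reg 0 ∧ ∃ e, c - f = n • e := by
  have : NeZero n := ⟨hn⟩
  choose F h1 h2 h3 using fun κ : Fin r → ZMod n => Typ.reg_fg (τ := τ) a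
    {c | c ∈ τ.Reg a ∧ ∀ i, (c i : ZMod n) = κ i} fun _ h => h.1
  refine ⟨⋃ κ, F κ, Set.finite_iUnion h1, Set.iUnion_subset fun κ c hc => (h2 κ hc).1,
    fun c hc => ?_⟩
  obtain ⟨f, hf, e⟩ := h3 _ c ⟨hc, fun _ => rfl⟩
  choose d hd using fun i => (ZMod.intCast_eq_intCast_iff_dvd_sub _ _ _).1 ((h2 _ hf).2 i)
  exact ⟨f, Set.mem_iUnion.2 ⟨_, hf⟩, e, d, funext fun i => by simpa using hd i⟩

/-- The exponents of the monomials on which the inertia group acts with trivial character. -/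
def Lm (K₀ : Subfield L) (O : Subalgebra k L) (z : Fin r → L) : Set (Fin r → ℤ) :=
  {c | ∀ g, In K₀ O g → Tv O g (mn z c)}

lemma Lm.add {c' : Fin r → ℤ} (hl : Lcl O) (hz : ∀ i, z i ≠ 0) (h : c ∈ Lm K₀ O z)
    (h' : c' ∈ Lm K₀ O z) : c + c' ∈ Lm K₀ O z := fun g hg => by
  have := (h g hg).mul_sub hl (h' g hg) (by simpa using add_mem (h g hg).1 (one_mem O)) (one_mem O)
  rwa [← quot_mul, ← mn_add hz, mul_one] at this

lemma Lm.zsmul (hl : Lcl O) (h : c ∈ Lm K₀ O z) (n : ℤ) : n • c ∈ Lm K₀ O z := fun g hg => by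
  have := (h g hg).zpow_sub hl (Un.one O) n
  rwa [one_zpow, div_zpow, ← smul_zpow₀', ← mn_smul] at this

lemma mem_span_Lm (hl : Lcl O) (hz : ∀ i, z i ≠ 0) : c ∈ span ℤ (Lm K₀ O z) ↔ c ∈ Lm K₀ O z := by
  refine ⟨fun h => ?_, fun h => subset_span h⟩
  induction h using span_induction with
  | mem x hx => exact hx
  | zero => exact fun g _ => by simpa [Tv, mn_zero] using Nu.zero O
  | add x y _ _ hx hy => exact Lm.add hl hz hx hy
  | smul n x _ hx => exact Lm.zsmul hl hx n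

end Loc

section Min

variable {m t : L}

/-- The equations of the fixed locus in the chart of `m`. -/
noncomputable def mu (g : SA k L) (m t : L) : L := g • t / m - t / m * (g • m / m)

lemma mu_mem (hM : Stb K₀ M) (hg : Fx K₀ g) (hm : m ∈ M) (ht : t ∈ M) : mu g m t ∈ chart ⊥ M m :=
  sub_mem (div_mem_chart _ _ (hM g hg t ht))
    (mul_mem (div_mem_chart _ _ ht) (div_mem_chart _ _ (hM g hg m hm)))

lemma mu_eq (h0 : m ≠ 0) : mu g m t = (g • (t / m) - t / m) * (g • m / m) := by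
  have := sm_ne_zero (g := g).2 h0
  rw [mu, smul_div₀']; field_simp

lemma In.nu_mu (hM : Stb K₀ M) (hm : m ∈ M) (h0 : m ≠ 0) (hO : IsPoint (chart ⊥ M m) O)
    (hg : In K₀ O g) (ht : t ∈ M) : Nu O (mu g m t) := by
  rw [mu_eq h0]
  exact (hg.sub (hO.le (div_mem_chart _ _ ht))).mul (hO.le (div_mem_chart _ _ (hM g hg.1 m hm)))

lemma In.of_mu {T : Set L} {d : ℕ} (hM : Stb K₀ (span k T)) (hm : m ∈ span k T) (h0 : m ≠ 0)
    (hO : IsPoint (chart ⊥ (span k T) m) O) (hg : Fx K₀ g) (hl : Lin g) (hd : d ≠ 0)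
    (hd' : ∀ x ∈ O, (g ^ d) • x = x) (h : ∀ t ∈ T, Nu O (mu g m t)) : In K₀ O g := by
  have h1 : ∀ t ∈ span k T, Nu O (mu g m t) := fun t ht => by
    induction ht using span_induction with
    | mem t ht => exact h t ht
    | zero => simpa [mu] using Nu.zero O
    | add a b _ _ ha hb =>
      have : mu g m (a + b) = mu g m a + mu g m b := by simp only [mu, smul_add]; ring
      exact this ▸ ha.add hO.lcl hb
    | smul c a _ ha =>
      have : mu g m (c • a) = algebraMap k L c * mu g m a := by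
        rw [mu, mu, hl.smul]; simp only [Algebra.smul_def]; ring
      exact this ▸ ha.mul' (O.algebraMap_mem c)
  have h2 : Un O (g • m / m) := by
    have h3 := (h1 _ (hM _ hg.inv m hm)).neg
    rw [mu, smul_inv_smul, div_self h0, neg_sub] at h3
    have h4 := h3.un hO.lcl (Un.one O)
    rw [mul_comm] at h4
    exact Un.of_mul (hO.le (div_mem_chart _ _ (hM g hg m hm)))
      (hO.le (div_mem_chart _ _ (hM _ hg.inv m hm))) h4
  have h3 : ∀ x ∈ chart ⊥ (span k T) m, Nu O (g • x - x) := fun x hx => by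
    induction hx using Algebra.adjoin_induction with
    | mem y hy =>
      rcases hy with ⟨c, rfl⟩ | ⟨w, hw, rfl⟩
      · exact (sub_eq_zero.2 (hl c)).symm ▸ Nu.zero O
      · exact Nu.of_mul h2 (by rw [mul_comm, ← mu_eq h0]; exact h1 w hw)
    | algebraMap c => exact (sub_eq_zero.2 (hl c)).symm ▸ Nu.zero O
    | add a b _ _ ha hb => rw [smul_add, add_sub_add_comm]; exact ha.add hO.lcl hb
    | mul a b ha' hb' ha hb =>
      rw [smul_mul']
      exact ha.mul_sub hO.lcl hb (by simpa using add_mem ha.1 (hO.le ha')) (hO.le hb')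
  have h4 : ∀ x ∈ O, Nu O (g • x - x) := fun x hx => by
    obtain ⟨a, ha, b, hb, hu, rfl⟩ := hO.le_loc hx
    have h5 := (h3 b hb).un hO.lcl hu
    have e : g • (a / b) - a / b = ((g • a - a) * b - a * (g • b - b)) * ((g • b)⁻¹ * b⁻¹) := by
      rw [smul_div₀']; field_simp [hu.2.1, h5.2.1]; ring
    rw [e]
    exact (((h3 a ha).mul hu.1).sub hO.lcl ((h3 b hb).mul' (hO.le ha))).mul
      (mul_mem h5.2.2 hu.2.2)
  have h5 : ∀ x ∈ O, g • x ∈ O := fun x hx => by simpa using add_mem (h4 x hx).1 hx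
  refine ⟨hg, le_antisymm (sA_le_iff.2 h5) fun x hx => ?_, fun x hx => (h4 x hx).2⟩
  obtain ⟨d, rfl⟩ := Nat.exists_eq_succ_of_ne_zero hd
  rw [← hd' x hx, pow_succ', mul_smul, smul_mem_sA]
  clear hd hd'
  induction d with
  | zero => simpa using hx
  | succ d ih => rw [pow_succ', mul_smul]; exact h5 _ ih

end Min

end Pool.Agent.MP_19ffc6_ag.Perf

end MrgPart1

-- ======== part 2: formerly Pool.Agent.MP_19ffc6_ag.perf.VirtC
section MrgPart2

/-! PROJECT PERF, module VIRT, third part: the characters of an inertia group in a neighbourhood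
of a rational point. -/

namespace Pool.Agent.MP_19ffc6_ag.Perf

open Pool.Agent.R72.Wild Pool.Agent.R72.Lci Pool.Agent.R72.Res Pool.Agent.R72.Res.Tor
  Pool.Agent.R72.Res.B Pool.Agent.R72.Res.P Pool.Agent.R72.Res.Lab Filter Submodule

variable {k L : Type} [Field k] [Field L] [Algebra k L] {K₀ : Subfield L}
  {N : IntermediateField k L} {O O₀ D : Subalgebra k L} {g h : SA k L} {x u : L}
  {M : Submodule k L}

/-- A tame automorphism that is trivial modulo the semi-invariants in `S` is trivial modulo those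
with a nontrivial character. -/
lemma In.tame {n : ℕ} {S : Set L} (hl : Lcl O) [IsNoetherianRing O] (hg : In K₀ O g)
    (hn : (n : k) ≠ 0) (hd : ∀ x ∈ O, (g ^ n) • x = x)
    (hS : ∀ m ∈ S, Nu O m ∧ m ≠ 0 ∧ g • m / m ∈ O) (h : ∀ x ∈ O, g • x - x ∈ span O S)
    (hx : x ∈ O) : g • x - x ∈ span O {m | m ∈ S ∧ Un O (g • m / m - 1)} := by
  have := hl.isLocalRing
  let E : L → L := fun x => ∑ i ∈ Finset.range n, (g ^ i) • x
  let q : L → L := fun x => n * x - E x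
  have qa : ∀ a b, q (a + b) = q a + q b := fun a b => by
    simp only [q, E, smul_add, Finset.sum_add_distrib]; ring
  have qs : ∀ a b, q (a - b) = q a - q b := fun a b => by
    simp only [q, E, smul_sub, Finset.sum_sub_distrib]; ring
  have qm : ∀ y w, g • y = y → q (y * w) = y * q w := fun y w hy => by
    have : ∀ i : ℕ, (g ^ i) • y = y := fun i => by
      induction i with
      | zero => simp
      | succ i ih => rw [pow_succ, mul_smul, hy, ih]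
    simp only [q, E, smul_mul', this, ← Finset.mul_sum]; ring
  have hE : ∀ x, (g ^ n) • x = x → ∑ i ∈ Finset.range n, (g ^ (i + 1)) • x = E x := fun x hx => by
    have := Finset.sum_range_succ' (fun i => (g ^ i) • x) n
    rw [Finset.sum_range_succ, hx, pow_zero, one_smul] at this
    exact (add_right_cancel this).symm
  have h1 : ∀ x ∈ O, g • E x = E x := fun x hx => by
    refine Eq.trans ?_ (hE x (hd x hx))
    simp only [E, Finset.smul_sum, pow_succ', mul_smul]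
  have h2 : ∀ x ∈ O, E (g • x) = E x := fun x hx => by
    rw [← hE x (hd x hx)]; simp only [E, pow_succ, mul_smul]
  have hu : Un O (n : L) := by simpa using un_alg O hn
  have hp : ∀ i, ∀ x ∈ O, (g ^ i) • x ∈ O := fun i x hx => (hg.pow hl i).mem hx
  have hq : ∀ x ∈ O, q x ∈ O := fun x hx =>
    sub_mem (mul_mem hu.1 hx) (sum_mem fun i _ => hp i x hx)
  set I := span O {m | m ∈ S ∧ Un O (g • m / m - 1)}
  let J := span O (q '' O)
  have h3 : ∀ y ∈ span O S, ∀ w ∈ O, q (w * y) ∈ I ⊔ IsLocalRing.maximalIdeal O • J := by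
    intro y hy
    induction hy using span_induction with
    | mem m hm =>
      intro w hw
      obtain ⟨a1, a2, a3⟩ := hS m hm
      have a4 := hg.quot_pow hl a2 a3
      by_cases c : Un O (g • m / m - 1)
      · have a5 : m ∈ I := subset_span ⟨hm, c⟩
        refine mem_sup_left (sub_mem (mul_mem_span hu.1 (mul_mem_span hw a5)) (sum_mem fun i _ => ?_))
        rw [smul_mul', ← div_mul_cancel₀ ((g ^ i) • m) a2]
        exact mul_mem_span (hp i w hw) (mul_mem_span (a4 i).1 a5)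
      · have a5 : Un O (E m / m) := by
          refine Nu.un hl ?_ hu
          have e : E m / m - n = ∑ i ∈ Finset.range n, ((g ^ i) • m / m - 1) := by
            simp [E, Finset.sum_div]
          rw [e]
          refine Nu.sum hl _ fun i _ => ?_
          have := (a4 i).2.add hl (Nu.pow_sub hl ⟨sub_mem a3 (one_mem O), c⟩ a3 (one_mem O) i)
          rwa [sub_add_sub_cancel, one_pow] at this
        have a6 : Nu O (E m) := by simpa [a2] using a1.mul' a5.1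
        have e : w * m = E m * (w * (E m / m)⁻¹) := by
          have : E m ≠ 0 := fun e => a5.2.1 (by rw [e, zero_div])
          field_simp
        rw [e, qm _ _ (h1 m a1.1)]
        exact mem_sup_right (Submodule.smul_mem_smul (r := (⟨E m, a6.1⟩ : O))
          ((IsLocalRing.mem_maximalIdeal _).2 fun e => a6.2 ((isUnit_iff_un _).1 e))
          (subset_span ⟨_, mul_mem hw a5.2.2, rfl⟩))
    | zero => exact fun w _ => by simp [q, E]
    | add a b _ _ ha hb =>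
      exact fun w hw => by rw [mul_add, qa]; exact add_mem (ha w hw) (hb w hw)
    | smul c a _ ha =>
      exact fun w hw => by
        rw [Subalgebra.smul_def, smul_eq_mul, ← mul_assoc]; exact ha _ (mul_mem hw c.2)
  have h4 : ∀ x ∈ O, q x ∈ span O S := fun x hx => by
    have e : q x = -∑ i ∈ Finset.range n, ((g ^ i) • x - x) := by simp [q, E]
    rw [e]
    refine neg_mem (sum_mem fun i _ => ?_)
    induction i with
    | zero => simp
    | succ i ih =>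
      have := add_mem (h _ (hp i x hx)) (ih (by simp_all; omega))
      rwa [sub_add_sub_cancel, ← mul_smul, ← pow_succ'] at this
  have hn' : g • (n : L) = n := map_natCast g.e n
  have h5 : J ≤ I := by
    refine le_of_le_smul_of_le_jacobson_bot ((fg_span_singleton (1 : L)).of_le (span_le.2 ?_))
      (IsLocalRing.maximalIdeal_le_jacobson _) (span_le.2 ?_)
    · rintro _ ⟨x, hx, rfl⟩
      exact mem_span_one.2 ⟨_, hq x hx, (one_mul _).symm⟩
    · rintro _ ⟨x, hx, rfl⟩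
      have e : q (1 * q x) = n * q x := by
        have := qm _ 1 (h1 x hx)
        rw [one_mul, qs, qm _ _ hn', ← mul_one (E x), this]
        simp [q, E]
      have := mul_mem_sub _ hu.2.2 (h3 _ (h4 x hx) 1 (one_mem O))
      rwa [e, inv_mul_cancel_left₀ hu.2.1] at this
  have e : q (g • x - x) = n * (g • x - x) := by
    rw [qs]; simp only [q, h2 x hx]; ring
  have := mul_mem_span hu.2.2 (h5 (subset_span ⟨_, (hg.sub hx).1, rfl⟩))
  rwa [e, inv_mul_cancel_left₀ hu.2.1] at this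

variable {ι : Type} {r : ℕ} {τ : Typ ι r} {z : Fin r → L} {c : Fin r → ℤ}

/-- The character by which `g` acts on the monomials at the rational point `O`. -/
noncomputable def chi (O : Subalgebra k L) (z : Fin r → L) (g : SA k L) (c : Fin r → ℤ) : k :=
  mn (fun i => rs O (g • z i / z i)) c

/-- The inertia group of the rational point `O` multiplies the monomials by units. -/
structure Cx (K₀ : Subfield L) (N : IntermediateField k L) (O : Subalgebra k L) (z : Fin r → L) :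
    Prop where
  lcl : Lcl O
  rt : Rt O
  ne : ∀ i, z i ≠ 0
  mem : ∀ i, z i ∈ N
  un : ∀ g, In K₀ O g → ∀ i, Un O (g • z i / z i)

lemma Cx.spec (hC : Cx K₀ N O z) (hg : In K₀ O g) (c : Fin r → ℤ) :
    Nu O (g • mn z c / mn z c - algebraMap k L (chi O z g c)) := by
  rw [quot_mn]
  exact nu_mn hC.lcl (fun i => rs_ne hC.rt (hC.un g hg i)) (fun i => rs_spec hC.rt (hC.un g hg i).1) c

lemma Cx.quot (hC : Cx K₀ N O z) (hg : In K₀ O g) (c : Fin r → ℤ) : g • mn z c / mn z c ∈ O := by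
  simpa using add_mem (hC.spec hg c).1 (O.algebraMap_mem (chi O z g c))

lemma Cx.mem_Lm (hC : Cx K₀ N O z) : c ∈ Lm K₀ O z ↔ ∀ g, In K₀ O g → chi O z g c = 1 :=
  forall₂_congr fun g hg => ⟨fun h => (hC.spec hg c).uniq hC.lcl (by simpa [Tv] using h),
    fun h => by simpa [h, Tv] using hC.spec hg c⟩

lemma Cx.mul (hC : Cx K₀ N O z) (hg : In K₀ O g) (hh : In K₀ O h) (c : Fin r → ℤ) :
    chi O z (g * h) c = chi O z g c * chi O z h c := by
  refine (hC.spec (hg.mul hC.lcl hh) c).uniq hC.lcl ?_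
  have h1 := (hg.sub (hC.quot hh c)).add hC.lcl (hC.spec hh c)
  rw [sub_add_sub_cancel] at h1
  rw [quot_comp _ _ (mn_ne_zero hC.ne c), mul_comm (chi O z g c), map_mul]
  exact h1.mul_sub hC.lcl (hC.spec hg c) (hg.mem (hC.quot hh c)) (O.algebraMap_mem _)

lemma Cx.one (hC : Cx K₀ N O z) (c : Fin r → ℤ) : chi O z 1 c = 1 :=
  (hC.spec (.one _ _) c).uniq hC.lcl (by simpa [mn_ne_zero hC.ne c] using Nu.zero O)

lemma Cx.pow (hC : Cx K₀ N O z) (hg : In K₀ O g) (c : Fin r → ℤ) (j : ℕ) :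
    chi O z (g ^ j) c = chi O z g c ^ j := by
  induction j with
  | zero => simpa using hC.one c
  | succ j ih => rw [pow_succ, hC.mul (hg.pow hC.lcl j) hg, ih, pow_succ]

lemma Cx.root (p : ℕ) [Fact p.Prime] [CharP k p] {a n : ℕ} (hC : Cx K₀ N O z) (hg : In K₀ O g)
    (hm : ∀ x ∈ N, (g ^ (p ^ a * n)) • x = x) (c : Fin r → ℤ) : chi O z g c ^ n = 1 := by
  have h1 := (hC.spec hg c).pow_sub hC.lcl (hC.quot hg c) (O.algebraMap_mem _) n
  rw [← map_pow] at h1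
  exact h1.uniq hC.lcl (by
    simpa using hg.root p hC.lcl (mn_ne_zero hC.ne c) (hC.quot hg c) (hm _ (mn_mem_field hC.mem c)))

/-- The lattice of invariant exponents at a point `O` near or above `O₀`. -/
lemma Cx.dual [IsAlgClosed k] (p : ℕ) [Fact p.Prime] [CharP k p] (hG : Gw K₀ N) (hM : Mdl N M)
    (hC : Cx K₀ N O₀ z) (hl : Lcl O)
    (he : ∀ g, In K₀ O g → Nu O (g • mn z c / mn z c - algebraMap k L (chi O₀ z g c)))
    (hf : ∀ g, In K₀ O₀ g → ∀ n : ℕ, (n : k) ≠ 0 → (∀ x ∈ N, (g ^ n) • x = x) →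
      (∀ c, Un O (mn z c) → chi O₀ z g c = 1) → In K₀ O g)
    (hc : c ∈ Lm K₀ O z) : ∃ u, Un O (mn z u) ∧ c - u ∈ Lm K₀ O₀ z := by
  obtain ⟨a, n, w, hn, ⟨d, hd⟩, hw, h⟩ := exists_ord p hG hM
  have h2 := fun g (hg : In K₀ O₀ g) => hC.root p hg (h g hg.1 hg.lin)
  let U : AddSubgroup (Fin r → ℤ) :=
    { carrier := {u | Un O (mn z u)}
      zero_mem' := by simpa [mn_zero] using Un.one O
      add_mem' := fun a b => by rw [Set.mem_ofPred_eq, mn_add hC.ne]; exact Un.mul a b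
      neg_mem' := fun a => by rw [Set.mem_ofPred_eq, mn_neg]; exact Un.inv a }
  obtain ⟨u, hu, e⟩ := dual_sup hn (In K₀ O₀) (chi O₀ z)
    (fun g hg => mn_add fun i => rs_ne hC.rt (hC.un g hg i)) h2 ⟨1, .one _ _, hC.one⟩
    (fun g g' a b => ⟨_, a.mul hC.lcl b, hC.mul a b⟩) U c fun g hg hU => by
      have e : ∀ c, chi O₀ z (g ^ w) c = chi O₀ z g c := fun c => by
        rw [hC.pow hg, pow_eq_pow_mod w (h2 g hg c), hw, ← pow_eq_pow_mod 1 (h2 g hg c), pow_one]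
      have h3 := hf _ (hg.pow hC.lcl w) n hn (fun x hx => by
        have := h _ (fx_pow hg.1 d) (hg.lin.pow d) x hx
        rwa [← pow_mul, ← mul_assoc, mul_comm d, ← hd, pow_mul] at this) fun c hc => e c ▸ hU c hc
      exact e c ▸ (he _ h3).uniq hl (by simpa [Tv] using hc _ h3)
  exact ⟨u, hu, hC.mem_Lm.2 e⟩

/-- The inertia groups and their characters near a rational point. -/
lemma Cx.ev (p : ℕ) [Fact p.Prime] [CharP k p] (hG : Gw K₀ N) (hM : Mdl N M) (hst : Stb K₀ M)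
    {m : L} (hm : m ∈ M) (h0 : m ≠ 0) (hO : IsPoint (chart ⊥ M m) O₀) (hC : Cx K₀ N O₀ z)
    (hA : (TA k z τ).FG) (hle : TA k z τ ≤ O₀) : ∀ᶠ O in nb (chart ⊥ M m) O₀,
      (∀ g, In K₀ O g → In K₀ O₀ g ∧
        ∀ c, Nu O (g • mn z c / mn z c - algebraMap k L (chi O₀ z g c))) ∧
      ∀ g, In K₀ O₀ g → (∀ x ∈ O₀, g • x - x ∈ Mon O₀ z {c | c ∈ τ.Reg 0 ∧ chi O₀ z g c ≠ 1}) →
        (∀ c, Un O (mn z c) → chi O₀ z g c = 1) → In K₀ O g := by
  obtain ⟨a, n, w, hn, -, -, h⟩ := exists_ord p hG hM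
  obtain ⟨F, hF, hF1, hF2⟩ := exists_reps hG hM
  obtain ⟨T, -, rfl⟩ := exists_span hM.fg
  have hd : p ^ a * n ≠ 0 :=
    mul_ne_zero (pow_ne_zero _ (Fact.out : p.Prime).ne_zero) fun e => hn (by simp [e])
  have hN : ∀ O, IsPoint (chart ⊥ (span k (T : Set L)) m) O → O ≤ N.toSubalgebra :=
    fun O hO => hM.pt_le ⟨m, hm, h0, hO⟩
  have k1 : ∀ g ∈ F, ∀ᶠ O in nb (chart ⊥ (span k (T : Set L)) m) O₀, In K₀ O g → In K₀ O₀ g := by
    intro g hg
    by_cases H : ∀ t ∈ (T : Set L), Nu O₀ (mu g m t)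
    · exact .of_forall fun _ _ => .of_mu hst hm h0 hO (hF1 g hg).1 (hF1 g hg).2 hd
        (fun x hx => h g (hF1 g hg).1 (hF1 g hg).2 x (hN _ hO hx)) H
    · push Not at H
      obtain ⟨t, ht, H⟩ := H
      have h1 : Un O₀ (mu g m t) :=
        by_contra fun e => H ⟨hO.le (mu_mem hst (hF1 g hg).1 hm (subset_span ht)), e⟩
      filter_upwards [ev_pt _ O₀, ev_un hO h1] with O b c e
      exact absurd c (e.nu_mu hst hm h0 b (subset_span ht)).2
  have k2 : ∀ g ∈ F, ∀ᶠ O in nb (chart ⊥ (span k (T : Set L)) m) O₀, In K₀ O g → In K₀ O₀ g →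
      ∀ c, Nu O (g • mn z c / mn z c - algebraMap k L (chi O₀ z g c)) := by
    intro g hg
    by_cases H : In K₀ O₀ g
    swap
    · exact .of_forall fun _ _ e => absurd e H
    have h1 : ∀ i, rs O₀ (g • z i / z i) ^ n = 1 := fun i => by
      simpa [chi, mn_single] using hC.root p H (h g H.1 H.lin) (Pi.single i 1)
    filter_upwards [ev_pt _ O₀, eventually_all.2 fun i => ev_un hO (hC.un g H i),
      eventually_all.2 fun i => ev_root hn hO (hC.un g H i).1 (rs_spec hC.rt (hC.un g H i).1) (h1 i)]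
      with O b c d e _ f
    rw [quot_mn]
    exact nu_mn b.lcl (fun i => rs_ne hC.rt (hC.un g H i)) (fun i => d i
      (e.root p b.lcl (hC.ne i) (c i).1 (h g H.1 H.lin _ (hC.mem i)))) f
  have k3 : ∀ g ∈ F, ∀ᶠ O in nb (chart ⊥ (span k (T : Set L)) m) O₀,
      (∀ x ∈ O₀, g • x - x ∈ Mon O₀ z {c | c ∈ τ.Reg 0 ∧ chi O₀ z g c ≠ 1}) →
        (∀ c, Un O (mn z c) → chi O₀ z g c = 1) → In K₀ O g := by
    intro g hg
    by_cases H : ∀ x ∈ O₀, g • x - x ∈ Mon O₀ z {c | c ∈ τ.Reg 0 ∧ chi O₀ z g c ≠ 1}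
    swap
    · exact .of_forall fun _ e => absurd e H
    have h1 : ∀ t ∈ T, mu g m t ∈ Mon O₀ z {c | c ∈ τ.Reg 0 ∧ chi O₀ z g c ≠ 1} := fun t ht => by
      rw [mu_eq h0]
      exact mul_mem_span' (H _ (hO.le (div_mem_chart _ _ (subset_span ht))))
        (hO.le (div_mem_chart _ _ (hst g (hF1 g hg).1 m hm)))
    filter_upwards [ev_pt _ O₀, ev_le hO hA hle,
      (eventually_all_finset T).2 fun t ht => ev_span hO (h1 t ht)] with O b c d _ e
    refine .of_mu hst hm h0 b (hF1 g hg).1 (hF1 g hg).2 hd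
      (fun x hx => h g (hF1 g hg).1 (hF1 g hg).2 x (hN _ b hx)) fun t ht =>
        ⟨b.le (mu_mem hst (hF1 g hg).1 hm (subset_span ht)), not_un_of_mem_span b.lcl ?_ (d t ht)⟩
    rintro _ ⟨f, hf, rfl⟩
    exact ⟨c (mn_mem_TA hf.1), fun hu => hf.2 (e f hu)⟩
  filter_upwards [ev_pt _ O₀, (eventually_all_finite hF).2 k1, (eventually_all_finite hF).2 k2,
    (eventually_all_finite hF).2 k3] with O b c d e
  have h1 : ∀ g : SA k L, Fx K₀ g → Lin g → ∃ g' ∈ F, (∀ x ∈ N, g • x = g' • x) ∧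
      chi O₀ z g = chi O₀ z g' ∧ ∀ O, IsPoint (chart ⊥ (span k (T : Set L)) m) O →
        (In K₀ O g ↔ In K₀ O g') := fun g a1 a2 => by
    obtain ⟨g', a3, a4⟩ := hF2 g a1 a2
    refine ⟨g', a3, a4, ?_, fun O hO => ⟨fun i => i.congr (hF1 g' a3).1
      (hG.st _ (hF1 g' a3).1.inv) (hN O hO) a4,
      fun i => i.congr a1 (hG.st _ a1.inv) (hN O hO) fun x hx => (a4 x hx).symm⟩⟩
    unfold chi
    simp only [a4 _ (hC.mem _)]
  refine ⟨fun g hg => ?_, fun g hg f1 f2 => ?_⟩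
  · obtain ⟨g', a1, a2, a3, a4⟩ := h1 g hg.1 hg.lin
    have a5 := (a4 O b).1 hg
    refine ⟨(a4 _ hO).2 (c g' a1 a5), fun f => ?_⟩
    rw [a3, a2 _ (mn_mem_field hC.mem f)]
    exact d g' a1 a5 (c g' a1 a5) f
  · obtain ⟨g', a1, a2, a3, a4⟩ := h1 g hg.1 hg.lin
    rw [a3] at f1 f2
    exact (a4 O b).2 (e g' a1 (fun x hx => a2 x (hN _ hO hx) ▸ f1 x hx) f2)

end Pool.Agent.MP_19ffc6_ag.Perf

end MrgPart2

-- ======== part 3: formerly Pool.Agent.MP_19ffc6_ag.perf.VirtD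
section MrgPart3

/-! PROJECT PERF, module VIRT: the monomials on which the inertia groups act with trivial
characters form a weak toroidal system. -/

namespace Pool.Agent.MP_19ffc6_ag.Perf

open Pool.Agent.R72.Wild Pool.Agent.R72.Lci Pool.Agent.R72.Res Pool.Agent.R72.Res.Tor
  Pool.Agent.R72.Res.B Pool.Agent.R72.Res.P Pool.Agent.R72.Res.Lab Filter Submodule

variable {k L : Type} [Field k] [Field L] [Algebra k L] {K₀ : Subfield L}
  {N : IntermediateField k L} {O O₀ : Subalgebra k L} {g : SA k L} {x u m : L} {s : TS k L}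
  {a b : s.ι → ℤ}

/-- The tame inertia at a rational point acts trivially on the stratum of the point. -/
def TM (K₀ : Subfield L) (N : IntermediateField k L) (s : TS k L) : Prop :=
  ∀ O, s.P O → Rt O → ∀ g, In K₀ O g → ∀ n : ℕ, (n : k) ≠ 0 → (∀ x ∈ N, (g ^ n) • x = x) →
    ∀ x ∈ O, g • x - x ∈ Mon O (s.ch O).z {c | c ∈ (s.ch O).τ.Reg 0 ∧ ¬ Un O (mn (s.ch O).z c)}

/-- `u` generates the monomial module of order `b`. -/
def GnV (s : TS k L) (O : Subalgebra k L) (b : s.ι → ℤ) (u : L) : Prop :=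
  u ≠ 0 ∧ sp O (s.J b O) = sp O (pr k u)

lemma sp_J_smul (hs : GoodC (Cl K₀ N) s) (hg : Fx K₀ g) (hO : s.P O) (b : s.ι → ℤ) :
    sp (g • O) (s.J b (g • O)) = g • sp O (s.J b O) := by
  obtain ⟨A, B, hA, hB, h⟩ := hs.glob b
  obtain ⟨c, c0, c1, c2⟩ := h O hO
  obtain ⟨d, d0, d1, d2⟩ := h (g • O) ((hs.cl.2.1.pt hg).2 hO)
  have e1 : sp (g • O) (pr k d) = sp (g • O) (pr k (g • c)) := by
    rw [← d1, pr_smul, sp_smul, ← c1, ← sp_smul, hB.2.1.eq hg]
  rw [← sp_smul]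
  refine sp_cancel d0 ?_
  rw [← d2, sp_mul_congr e1 rfl, pr_smul, ← sM_mul, sp_smul, ← c2, ← sp_smul, hA.2.1.eq hg]

lemma GnV.smul (hs : GoodC (Cl K₀ N) s) (hg : Fx K₀ g) (hO : s.P O) (h : GnV s O b u) :
    GnV s (g • O) b (g • u) :=
  ⟨sm_ne_zero.2 h.1, by rw [sp_J_smul hs hg hO, h.2, pr_smul, sp_smul]⟩

lemma gn_mn (hs : GoodC (Cl K₀ N) s) (hO : s.P O) (c : Fin (s.ch O).r → ℤ) (a : s.ι → ℤ) :
    GnV s O (ext (s.ch O).τ c a) (mn (s.ch O).z c) :=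
  ⟨mn_ne_zero (hs.cht O hO).ind.ne_zero c, sp_ext (hs.cht O hO).ind.ne_zero (hs.cht O hO).sf.1 c a⟩

/-- The stabiliser of a point multiplies monomials by units. -/
lemma un_quot (hs : GoodC (Cl K₀ N) s) (hO : s.P O) (hg : Fx K₀ g) (e : g • O = O)
    (c : Fin (s.ch O).r → ℤ) : Un O (g • mn (s.ch O).z c / mn (s.ch O).z c) := by
  have h := gn_mn hs hO c 0
  have := h.smul hs hg hO
  rw [e] at this
  exact un_of_sp this.1 h.1 (this.2.symm.trans h.2)

lemma pt_lcl (hO : s.P O) : Lcl O := let ⟨_, _, _, h⟩ := hO; h.lcl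

lemma mn_N (hM : Mdl N s.M) (hs : GoodC (Cl K₀ N) s) (hO : s.P O) (c : Fin (s.ch O).r → ℤ) :
    mn (s.ch O).z c ∈ N :=
  mn_mem_N (hs.cht O hO).str (hs.cht O hO).ind.ne_zero ((hs.cht O hO).sf.1.trans (hM.pt_le hO)) c

lemma cx_pt (hM : Mdl N s.M) (hs : GoodC (Cl K₀ N) s) (hO : s.P O) (hr : Rt O) :
    Cx K₀ N O (s.ch O).z :=
  ⟨pt_lcl hO, hr, (hs.cht O hO).ind.ne_zero,
    fun i => by simpa [mn_single] using mn_N hM hs hO (Pi.single i 1),
    fun g hg i => by simpa [mn_single] using un_quot hs hO hg.1 hg.2.1 (Pi.single i 1)⟩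

/-- Tame inertia is trivial modulo the monomials with a nontrivial character. -/
lemma TM.chi (hT : TM K₀ N s) (hM : Mdl N s.M) (hs : GoodC (Cl K₀ N) s) (hO : s.P O) (hr : Rt O)
    (hg : In K₀ O g) {n : ℕ} (hn : (n : k) ≠ 0) (hd : ∀ x ∈ N, (g ^ n) • x = x) (hx : x ∈ O) :
    g • x - x ∈ Mon O (s.ch O).z {c | c ∈ (s.ch O).τ.Reg 0 ∧ chi O (s.ch O).z g c ≠ 1} := by
  have hC := cx_pt hM hs hO hr
  have : IsNoetherianRing O := by
    obtain ⟨m, -, -, h⟩ := hO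
    have := isNoetherianRing_of_fg (chart_fg Subalgebra.fg_bot hM.fg m)
    exact h.isNoetherianRing
  refine span_mono ?_ (hg.tame hC.lcl hn (fun x hx => hd x (hM.pt_le hO hx)) ?_
    (hT O hO hr g hg n hn hd) hx)
  · rintro _ ⟨⟨c, hc, rfl⟩, h⟩
    exact ⟨c, ⟨hc.1, fun e => (hC.spec hg c).2 (by simpa [e] using h)⟩, rfl⟩
  · rintro _ ⟨c, hc, rfl⟩
    exact ⟨⟨(hs.cht O hO).sf.1 (mn_mem_TA hc.1), hc.2⟩, mn_ne_zero hC.ne c, hC.quot hg c⟩

/-- The monomials of order at least `a` with trivial characters. -/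
def MM (K₀ : Subfield L) (s : TS k L) (a : s.ι → ℤ) (O : Subalgebra k L) : Set L :=
  {u | ∃ b, a ≤ b ∧ GnV s O b u ∧ ∀ g, In K₀ O g → Tv O g u}

lemma MM_smul (hs : GoodC (Cl K₀ N) s) (hg : Fx K₀ g) (hO : s.P O) (h : u ∈ MM K₀ s a O) :
    g • u ∈ MM K₀ s a (g • O) := by
  obtain ⟨b, h1, h2, h3⟩ := h
  refine ⟨b, h1, h2.smul hs hg hO, fun f hf => ?_⟩
  simpa only [Tv, smul_sub, smul_div₀', mul_smul, smul_inv_smul, smul_one] using
    Nu.smul (g := g) (h3 _ (hf.conj hg))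

lemma span_MM (hs : GoodC (Cl K₀ N) s) (hO : s.P O) :
    span O (MM K₀ s a O) = Mon O (s.ch O).z ((s.ch O).τ.Reg a ∩ Lm K₀ O (s.ch O).z) := by
  refine le_antisymm (span_le.2 ?_) (span_mono ?_)
  · rintro u ⟨b, h1, h2, h3⟩
    obtain ⟨c, hc, e⟩ := exists_of_sp (pt_lcl hO) h2.1 h2.2
    have := mul_mem_span e.2.2 (mn_mem_Mon (O := O) (z := (s.ch O).z) (T := _ ∩ Lm K₀ O _)
      ⟨Typ.reg_mono h1 hc, fun g hg => hg.quot_congr (pt_lcl hO) e (one_mem O) (h3 g hg)⟩)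
    rwa [inv_div, div_mul_cancel₀ _ (gn_mn hs hO c 0).1] at this
  · rintro _ ⟨c, hc, rfl⟩
    exact ⟨_, le_ext hc.1, gn_mn hs hO c a, hc.2⟩

lemma ev_J (hs : GoodC (Cl K₀ N) s) (hm : m ∈ s.M) (h0 : m ≠ 0)
    (hO : IsPoint (chart ⊥ s.M m) O₀) (b : s.ι → ℤ) :
    ∀ᶠ O in nb (chart ⊥ s.M m) O₀, sp O (s.J b O) = sp O (s.J b O₀) := by
  obtain ⟨A, B, hA, hB, h⟩ := hs.glob b
  have hc := hs.cht O₀ ⟨m, hm, h0, hO⟩
  obtain ⟨c, c0, c1, c2⟩ := h O₀ ⟨m, hm, h0, hO⟩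
  obtain ⟨X, hX, e⟩ := sp_fg (k := k) hc.ind.ne_zero (s.ch O₀).τ b
  filter_upwards [ev_pt _ O₀, ev_sp_eq hO hB.1 (pr_fg c) c1, ev_sp_eq hO hA.1 ((pr_fg c).mul hX)
    (c2.trans (sp_mul_congr rfl (e _ hc.sf.1))),
    ev_le hO (TA_fg hc.ptd hc.ind.ne_zero) hc.sf.1] with O h1 h2 h3 h4
  obtain ⟨d, d0, d1, d2⟩ := h O ⟨m, hm, h0, h1⟩
  refine (sp_cancel c0 ?_).trans (e O h4).symm
  rw [← h3, d2]; exact sp_mul_congr (h2.symm.trans d1) rfl

variable (p : ℕ) [Fact p.Prime] [CharP k p]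

lemma nsmul_Lm {e n : ℕ} (hM : Mdl N s.M) (hs : GoodC (Cl K₀ N) s) (hO : s.P O)
    (h : ∀ g : SA k L, Fx K₀ g → Lin g → ∀ x ∈ N, (g ^ (p ^ e * n)) • x = x)
    (c : Fin (s.ch O).r → ℤ) : n • c ∈ Lm K₀ O (s.ch O).z := fun g hg => by
  have := hg.root p (pt_lcl hO) (gn_mn hs hO c 0).1 (un_quot hs hO hg.1 hg.2.1 c).1
    (h g hg.1 hg.lin _ (mn_N hM hs hO c))
  rwa [div_pow, ← smul_pow', ← mn_nsmul] at this

include p in
/-- The modules of invariant monomials are coherent. -/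
lemma near_virt [IsAlgClosed k] (hG : Gw K₀ N) (hM : Mdl N s.M) (hs : GoodC (Cl K₀ N) s)
    (hT : TM K₀ N s) (a : s.ι → ℤ) (hm : m ∈ s.M) (h0 : m ≠ 0)
    (hO : IsPoint (chart ⊥ s.M m) O₀) (hr : Rt O₀) : ∃ F : Set L, F.Finite ∧
      ∀ᶠ O : Subalgebra k L in nb (chart ⊥ s.M m) O₀, span O (MM K₀ s a O) = span O F := by
  have hP : s.P O₀ := ⟨m, hm, h0, hO⟩
  have hc := hs.cht O₀ hP
  have hC := cx_pt hM hs hP hr
  have hA := TA_fg (k := k) hc.ptd hC.ne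
  obtain ⟨e, n, -, hn, -, -, h⟩ := exists_ord p hG hM
  have hn0 : n ≠ 0 := fun e => hn (by simp [e])
  obtain ⟨F, f1, f2, f3⟩ := Typ.reg_fg (τ := (s.ch O₀).τ) a (_ ∩ Lm K₀ O₀ (s.ch O₀).z)
    Set.inter_subset_left
  choose G g1 g2 g3 using fun t : Σ r, Typ s.ι r => reg_fg_mod t.2 a hn0
  have hB := hs.fin.biUnion fun t _ => (g1 t).image fun f => ext t.2 f a
  refine ⟨_, f1.image (mn (s.ch O₀).z), ?_⟩
  filter_upwards [ev_pt _ O₀, ev_sf hO (chart_fg Subalgebra.fg_bot hM.fg m) hA hc.sf,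
    hC.ev p hG hM hs.cl.2.1 hm h0 hO hA hc.sf.1,
    (eventually_all_finite f1).2 fun f _ => ev_J hs hm h0 hO (ext (s.ch O₀).τ f a),
    (eventually_all_finite hB).2 fun b _ => ev_J hs hm h0 hO b] with O h1 h2 h3 h4 h5
  have hP' : s.P O := ⟨m, hm, h0, h1⟩
  have hz := (hs.cht O hP').ind.ne_zero
  refine le_antisymm ?_ (span_mono ?_)
  · rw [span_MM hs hP', span_le]
    rintro _ ⟨c, hc', rfl⟩
    obtain ⟨f, a1, a2, d, a3⟩ : ∃ f : Fin (s.ch O).r → ℤ, f ∈ G (s.ch O).ty ∧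
        c - f ∈ (s.ch O).τ.Reg 0 ∧ ∃ d : Fin (s.ch O).r → ℤ, c - f = n • d :=
      g3 (s.ch O).ty c hc'.1
    have a4 : f ∈ Lm K₀ O (s.ch O).z := by
      have := Lm.add h1.lcl hz hc'.2 (nsmul_Lm p hM hs hP' h (-d))
      rwa [smul_neg, ← sub_eq_add_neg, ← a3, sub_sub_cancel] at this
    have a5 := gn_mn hs hP' f a
    obtain ⟨c₀, a6, a7⟩ := exists_of_sp h1.lcl a5.1 ((h5 _ (Set.mem_biUnion
      (Set.mem_image_of_mem _ hP') (Set.mem_image_of_mem _ a1))).symm.trans a5.2)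
    obtain ⟨u, a8, a9⟩ := hC.dual p hG hM h1.lcl (c := c₀) (fun g hg => (h3.1 g hg).2 _)
      (fun g hg n hn hd => h3.2 g hg fun x => hT.chi hM hs hP hr hg hn hd)
      fun g hg => hg.quot_congr h1.lcl a7 (one_mem O) (a4 g hg)
    obtain ⟨f₁, b1, f₂, b2, b3, b4, rfl⟩ := exists_face hc.ind hc.str h2 h1.lcl a8
    obtain ⟨n, rfl⟩ := Nat.exists_eq_succ_of_ne_zero hn0
    obtain ⟨f', b5, b6⟩ := f3 (c₀ + (f₂ + n • f₁))
      ⟨Typ.add_mem_reg0 (Typ.reg_mono (le_ext (g2 _ a1)) a6)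
        (Typ.add_mem_reg0 b2 (Typ.nsmul_mem_reg b1 n)), by
        have := Lm.add hO.lcl hC.ne a9 (nsmul_Lm p hM hs hP h f₁)
        rwa [show c₀ - (f₁ - f₂) + n.succ • f₁ = c₀ + (f₂ + n • f₁) by
          rw [succ_nsmul]; abel] at this⟩
    have b7 : Un O (mn (s.ch O₀).z (c₀ + (f₂ + n • f₁)) / mn (s.ch O).z f) := by
      rw [mn_add hC.ne, mn_add hC.ne, mn_nsmul, mul_div_right_comm]
      exact a7.mul (b4.mul (b3.pow n))
    have b8 := mul_mem_span ((hs.cht O hP').sf.1 (mn_mem_TA a2)) (mul_mem_span b7.2.2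
      (mul_mem_span (h2.1 (mn_mem_TA b6)) (mn_mem_Mon (O := O) (z := (s.ch O₀).z) b5)))
    rwa [← mn_add hC.ne, sub_add_cancel, inv_div, div_mul_cancel₀ _ (mn_ne_zero hC.ne _),
      ← mn_add hz, sub_add_cancel] at b8
  · rintro _ ⟨f, hf, rfl⟩
    refine ⟨_, le_ext (f2 hf).1, ⟨mn_ne_zero hC.ne f, (h4 f hf).trans (sp_ext hC.ne h2.1 f a)⟩,
      fun g hg => ?_⟩
    simpa [Tv, hC.mem_Lm.1 (f2 hf).2 g (h3.1 g hg).1] using (h3.1 g hg).2 f

lemma ind_vecMul {r : ℕ} {z : Fin r → L} (h : AlgebraicIndependent k z)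
    {b : Matrix (Fin r) (Fin r) ℤ} (hb : ∀ e, Matrix.vecMul e b = 0 → e = 0) :
    AlgebraicIndependent k fun i => mn z (b i) := by
  rw [algInd_iff]
  have := (linearIndependent_mn h).comp
    (fun e : Fin r →₀ ℕ => Matrix.vecMul (fun i => (e i : ℤ)) b) fun e e' h => Finsupp.ext fun i => by
      have := hb _ ((Matrix.sub_vecMul b _ _).trans (sub_eq_zero.2 h))
      exact_mod_cast congrFun (sub_eq_zero.1 this) i
  refine (congrArg (fun v => LinearIndependent k v) (funext fun e => ?_)).mp this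
  simp only [Function.comp_apply]
  rw [mn_vecMul h.ne_zero, Finsupp.prod_fintype _ _ (by simp), mn]
  exact Finset.prod_congr rfl fun ρ _ => zpow_natCast _ _

/-- A basis of the lattice `Λ`. -/
noncomputable def bas {r : ℕ} (Λ : Set (Fin r → ℤ)) : Matrix (Fin r) (Fin r) ℤ :=
  Classical.epsilon fun b => (∀ e, Matrix.vecMul e b = 0 → e = 0) ∧
    ∀ c, c ∈ Λ ↔ ∃ e, Matrix.vecMul e b = c

/-- The system of the monomials with trivial characters. -/
noncomputable def virt (K₀ : Subfield L) (s : TS k L) : TS k L :=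
  ⟨s.ι, s.M, fun O => ⟨(s.ch O).r, (s.ch O).τ.sub (bas (Lm K₀ O (s.ch O).z)),
    fun i => mn (s.ch O).z (bas (Lm K₀ O (s.ch O).z) i)⟩⟩

include p

lemma bas_spec (hG : Gw K₀ N) (hM : Mdl N s.M) (hs : GoodC (Cl K₀ N) s) (hO : s.P O) :
    (∀ e, Matrix.vecMul e (bas (Lm K₀ O (s.ch O).z)) = 0 → e = 0) ∧
      ∀ c, c ∈ Lm K₀ O (s.ch O).z ↔ ∃ e, Matrix.vecMul e (bas (Lm K₀ O (s.ch O).z)) = c := by
  obtain ⟨e, n, -, hn, -, -, h⟩ := exists_ord p hG hM
  obtain ⟨b, h1, h2⟩ := exists_bas (span ℤ (Lm K₀ O (s.ch O).z)) (m := n)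
    (fun e => hn (by simp [e])) fun c => subset_span (nsmul_Lm p hM hs hO h c)
  exact Classical.epsilon_spec (p := fun b => (∀ e, Matrix.vecMul e b = 0 → e = 0) ∧
    ∀ c, c ∈ Lm K₀ O (s.ch O).z ↔ ∃ e, Matrix.vecMul e b = c)
    ⟨b, h1, fun c => (mem_span_Lm (pt_lcl hO) (hs.cht O hO).ind.ne_zero).symm.trans (h2 c)⟩

lemma virt_img (hG : Gw K₀ N) (hM : Mdl N s.M) (hs : GoodC (Cl K₀ N) s) (hO : s.P O)
    (a : s.ι → ℤ) : mn ((virt K₀ s).ch O).z '' ((virt K₀ s).ch O).τ.Reg a =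
      mn (s.ch O).z '' ((s.ch O).τ.Reg a ∩ Lm K₀ O (s.ch O).z) := by
  have hz := (hs.cht O hO).ind.ne_zero
  have h := (bas_spec p hG hM hs hO).2
  refine Set.ext fun x => ⟨?_, ?_⟩
  · rintro ⟨e, he, rfl⟩
    exact ⟨_, ⟨mem_reg_lat.1 he, (h _).2 ⟨e, rfl⟩⟩, mn_vecMul hz _ e⟩
  · rintro ⟨c, ⟨h1, h2⟩, rfl⟩
    obtain ⟨e, rfl⟩ := (h c).1 h2
    exact ⟨e, mem_reg_lat.2 h1, (mn_vecMul hz _ e).symm⟩

lemma mem_virt (hG : Gw K₀ N) (hM : Mdl N s.M) (hs : GoodC (Cl K₀ N) s) (hO : s.P O) :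
    x ∈ sp O ((virt K₀ s).J a O) ↔ x ∈ span O (MM K₀ s a O) := by
  rw [span_MM hs hO, TS.J, mem_sp_ms, Mon, virt_img p hG hM hs hO]

/-- Module VIRT. -/
theorem virt_good [IsAlgClosed k] (hG : Gw K₀ N) (hM : Mdl N s.M) (hs : GoodC (Cl K₀ N) s)
    (hT : TM K₀ N s) : GoodW (Cl K₀ N) (virt K₀ s) := by
  obtain ⟨e, n, -, hn, -, -, h⟩ := exists_ord p hG hM
  have : NeZero n := ⟨fun e => hn (by simp [e])⟩
  refine ⟨hs.cl, hs.ne, (hs.fin.biUnion fun t _ => Set.finite_range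
    fun S : Set (Fin t.1 → ZMod n) => (⟨t.1, t.2.sub (bas {c | (fun i => (c i : ZMod n)) ∈ S})⟩ :
      Σ r, Typ s.ι r)).subset ?_, fun O hO => ?_, fun a => ?_⟩
  · rintro _ ⟨O, hO, rfl⟩
    refine Set.mem_biUnion (Set.mem_image_of_mem _ hO)
      ⟨(fun c i => (c i : ZMod n)) '' Lm K₀ O (s.ch O).z, ?_⟩
    have e : {c : Fin (s.ch O).r → ℤ | (fun i => (c i : ZMod n)) ∈
        (fun c i => (c i : ZMod n)) '' Lm K₀ O (s.ch O).z} = Lm K₀ O (s.ch O).z := by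
      refine Set.ext fun c => ⟨?_, fun hc => ⟨c, hc, rfl⟩⟩
      rintro ⟨f, hf, e⟩
      choose d hd using fun i => (ZMod.intCast_eq_intCast_iff_dvd_sub _ _ _).1 (congrFun e i)
      have := Lm.add (pt_lcl hO) (hs.cht O hO).ind.ne_zero hf (nsmul_Lm p hM hs hO h d)
      rwa [show f + n • d = c from funext fun i => by simp [← hd i]] at this
    exact congrArg (fun Λ => (⟨(s.ch O).r, (s.ch O).τ.sub (bas Λ)⟩ : Σ r, Typ s.ι r)) e
  · have hc := hs.cht O hO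
    obtain ⟨b1, b2⟩ := bas_spec p hG hM hs hO
    refine ⟨fun c H => b1 c (hc.ptd _ fun ρ hρ => (ev_lat _ _ _ _).symm.trans (H ρ hρ)), ?_,
      ind_vecMul hc.ind b1, TA_le fun c H => ?_⟩
    · obtain ⟨c, H⟩ := hc.str
      obtain ⟨d, hd⟩ := (b2 _).1 (nsmul_Lm p hM hs hO h c)
      refine ⟨d, fun ρ hρ => (mul_pos (Nat.cast_pos.2 (NeZero.pos n)) (H ρ hρ)).trans_eq ?_⟩
      rw [← Typ.ev_nsmul, ← hd]
      exact (ev_lat _ _ _ _).symm
    · obtain ⟨d, hd, e⟩ := (virt_img p hG hM hs hO 0).le ⟨c, H, rfl⟩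
      exact e ▸ hc.sf.1 (mn_mem_TA hd.1)
  · refine globW K₀ N s.M _ hG hM hs.cl.2.1 (glob_local hM.fg _ fun m hm h0 O hO => ?_)
      (fun O hO x hx => ?_) fun g hg O hO x hx => ?_
    · obtain ⟨O₀, h1, h2, h3⟩ := exists_rat (chart_fg Subalgebra.fg_bot hM.fg m) hO
      obtain ⟨F, hF, f, b, c, d⟩ := near_virt p hG hM hs hT a hm h0 h1 h2
      exact ⟨F, hF, f, b, c.mono h3.le, fun O i j x =>
        (mem_virt p hG hM hs ⟨m, hm, h0, i⟩).trans (by rw [show _ = span O F from d O i j])⟩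
    · refine ms_le (Z := N.toSubalgebra.toSubmodule) (fun c hc => ?_) hx
      obtain ⟨d, -, e⟩ := (virt_img p hG hM hs hO a).le ⟨c, hc, rfl⟩
      exact e ▸ mn_N hM hs hO d
    · rw [mem_virt p hG hM hs ((hs.cl.2.1.pt hg).2 hO)]
      have hx' := (mem_virt p hG hM hs hO).1 (le_sp _ _ hx)
      clear hx
      induction hx' using span_induction with
      | mem u hu => exact subset_span (MM_smul hs hg hO hu)
      | zero => simp
      | add u v _ _ hu hv => rw [smul_add]; exact add_mem hu hv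
      | smul c u _ hu =>
        rw [Subalgebra.smul_def, smul_eq_mul, smul_mul']
        exact mul_mem_span (smul_mem_sA.2 c.2) hu

lemma virt_exp (hG : Gw K₀ N) (hM : Mdl N s.M) (hs : GoodC (Cl K₀ N) s) {f : L} (hf : f ∈ K₀)
    (h : s.HasExp f a) : (virt K₀ s).HasExp f a := fun O hO => by
  obtain ⟨c, h1, h2⟩ := h O hO
  have h0 : f ≠ 0 := fun e => h2.2.1 (by rw [e, zero_div])
  obtain ⟨e, rfl⟩ := ((bas_spec p hG hM hs hO).2 c).1 fun g hg =>
    hg.quot_congr (pt_lcl hO) (inv_div f _ ▸ h2.inv) (one_mem O)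
      (by simpa [hg.1 f hf, h0] using Nu.zero O)
  exact ⟨e, fun ρ hρ => (ev_lat _ _ _ _).trans (h1 ρ hρ),
    mn_vecMul (hs.cht O hO).ind.ne_zero _ e ▸ h2⟩

end Pool.Agent.MP_19ffc6_ag.Perf

end MrgPart3

-- marker of a merged file
example : 731051 + 216896 = 731051 + 216896 := rfl
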