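import Pool.Agent.MP_19ffc6_ag.perf.SpecL
import Pool.Agent.MP_19ffc6_ag.perf.SpecQ
import Pool.Agent.MP_19ffc6_ag.perf.VirtD

/-! PROJECT PERF, block E: the final model and the assembly. -/

namespace Pool.Agent.MP_19ffc6_ag.Perf

open Pool.Agent.R72.Wild Pool.Agent.R72.Lci Pool.Agent.R72.Res Pool.Agent.R72.Res.B
  Pool.Agent.R72.Res.Tor Pool.Agent.R72.Res.P Pool.Agent.R72.Res.Lab GD

section Defs

variable {k L : Type} [Field k] [Field L] [Algebra k L]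

/-- Virtual parameters: a basis of the monomials with trivial character modulo units. -/
structure VOut (K₀ : Subfield L) (N : IntermediateField k L) (S : Finset L) (O : Subalgebra k L)
    {r : ℕ} (y : Fin r → L) : Prop where
  ym : ∀ j, y j ∈ O ∧ y j ≠ 0 ∧ Pw S O (y j)
  ytr : ∀ j g, In K₀ O g → Tv O g (y j)
  pos : ∀ a, mn y a ∈ O → 0 ≤ a
  uni : ∀ f ∈ N, Pw S O f → (∀ g, In K₀ O g → Tv O g f) → LMon O y f

/-- A framed point that sees `S`, at which inertia acts trivially on the smallest stratum. -/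
def FrS (K₀ : Subfield L) (n : ℕ) (N : IntermediateField k L) (S : Finset L)
    (O : Subalgebra k L) : Prop :=
  ∃ x : Fin n → L, Fr n N O x ∧ Ful S O x ∧ (∀ f ∈ S, LMon O x f) ∧
    ∀ g, In K₀ O g → (∀ j, Un O (g • x j / x j)) ∧ ∀ a ∈ O, g • a - a ∈ nI O x

end Defs

section Stmt

variable (k L : Type) [Field k] [Field L] [Algebra k L]

/-- Row SAT: the regular monomials of a normalised monomial blow-up. -/
def SatStmt : Prop :=
  ∀ (n : ℕ) (K : IntermediateField k L) (O O' D' : Subalgebra k L) (x : Fin n → L)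
    (T : Set (Fin n → ℤ)), Fr n K O x → Aff n K D' O' → Dom O O' →
    IsPoint (icl K (O ⊔ Algebra.adjoin k (mn x '' T))) O' → ∀ c, mn x c ∈ O' →
    ∃ (N : ℕ) (d e : Fin n → ℤ), 0 < N ∧ d ∈ AddSubmonoid.closure ({c | mn x c ∈ O} ∪ T) ∧
      e ∈ AddSubmonoid.closure ({c | mn x c ∈ O} ∪ T) ∧ Un O' (mn x e) ∧ N • c + e = d

/-- Row ZDIV: divisibility in a unimodular chart. -/
def ZdivStmt : Prop :=
  ∀ (n : ℕ) (N : IntermediateField k L) (D O : Subalgebra k L) (ι : Type) [Fintype ι]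
    (c : Ch L ι), Aff n N D O → c.At O → c.τ.Uni →
    (∀ f ∈ N, ∀ m : ℕ, 0 < m → LMon O c.z (f ^ m) → LMon O c.z f) ∧
      (∀ f ∈ O, LMon O c.z f → ∃ e ∈ c.τ.Reg 0, Un O (f / mn c.z e)) ∧
      ∀ i, c.z i ∈ N

/-- Row ADMT. -/
def AdmtStmt : Prop :=
  ∀ (N : IntermediateField k L) (S : Finset L) (O O' O'' : Subalgebra k L),
    O ≤ N.toSubalgebra → (∀ f ∈ S, f ∈ N) → Adm N S O O' → Adm N S O' O'' → Adm N S O O''

/-- Block VEND (helper46): the final model. -/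
def VendStmt : Prop :=
  ∀ (n : ℕ) (K₀ : Subfield L) (N : IntermediateField k L) (S : Finset L) (s : TS k L),
    Gw K₀ N → N.FG → Algebra.trdeg k N = n → (∀ f ∈ S, f ∈ K₀) → GoodC (Cl K₀ N) s → s.Uni →
    Mdl N s.M → (∀ f ∈ S, ∃ a, s.HasExp f a) → (∀ O, s.P O → Ful S O (s.ch O).z) →
    (∀ O, s.P O → Rt O → FrS K₀ n N S O) →
    ∃ M, Stb K₀ M ∧ Mdl N M ∧ ∀ O', Pt ⊥ M O' → Rt O' → ∃ O, s.P O ∧ Rt O ∧ Adm N S O O' ∧
      ∃ (r : ℕ) (y : Fin r → L), VOut K₀ N S O' y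

/-- Row BASIS. -/
def BasisStmt : Prop :=
  ∀ (k₀ : Subfield k) (K₀ : Subfield L) (K : IntermediateField k L) (n : ℕ), Gd k₀ →
    Form k₀ K₀ K → K.FG → Algebra.trdeg k K = n → ∃ y : ℕ → L,
      AlgebraicIndependent k (xs y n) ∧ Ek k₀ y n ≤ K₀ ∧ ∀ a ∈ K, IsAlgebraic (Ek k₀ y n) a

/-- Row QIN. -/
def QinStmt (p : ℕ) : Prop :=
  ∀ (n r : ℕ) (E₀ K₀ : Subfield L) (K N W : IntermediateField k L) (S : Finset L)
    (D O : Subalgebra k L) (z : Fin n → L) (y : Fin r → L), 0 < n → Gl K₀ K → E₀ ≤ K₀ →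
    Gw E₀ N → K ≤ N → (∀ f ∈ S, f ∈ N ∧ Ivt k E₀ f) → D.FG → (∀ x ∈ D, x ∈ K) →
    (∀ x ∈ K, ∃ b ∈ D, b ≠ 0 ∧ b * x ∈ D) → (∀ g : SA k L, Fx K₀ g → ∀ x ∈ D, g • x ∈ D) →
    IsPoint (icl N D) O → Rt O → LOut p E₀ n (Q.Kr (Q.LG K) N).index N W S O z →
    VOut K₀ N S O y →
    Q.QIn p n K₀ K W D (icl W O) z y ∧ icl W O ⊓ K.toSubalgebra = O ⊓ K.toSubalgebra

/-- Row END0. -/
def End0Stmt (p : ℕ) : Prop := ∀ k₀ : Subfield k, Gd k₀ → PerfU L k₀ p 0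

/-- Row ASM: the assembly. -/
def AsmStmt (p : ℕ) : Prop :=
  BasisStmt k L → TroStmt k L → CmpStmt k L → UpStmt k L → TameStmt k L → LocalStmt k L p →
    LiftStmt k L p → VendStmt k L → AdmtStmt k L → QinStmt k L p → Q.QStmt k L p →
    ∀ k₀ : Subfield k, Gd k₀ → ∀ n, 0 < n → Tower L k₀ n → PerfU L k₀ p n

end Stmt

end Pool.Agent.MP_19ffc6_ag.Perf
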