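import Pool.Agent.MP_19ffc6_ag.perf.SpecT
import Pool.Agent.MP_19ffc6_ag.perf.Up

-- ======== part 0: formerly Pool.Agent.MP_19ffc6_ag.perf.TMonn
section MrgPart0

/-! PROJECT PERF, block T, rows MONN and KIT. -/

namespace Pool.Agent.MP_19ffc6_ag.Perf

open Pool.Agent.R72.Wild Pool.Agent.R72.Lci Pool.Agent.R72.Res Pool.Agent.R72.Res.B
  Pool.Agent.R72.Res.Tor Pool.Agent.R72.Res.P Polynomial

variable {k L : Type} [Field k] [Field L] [Algebra k L]

namespace Monn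

section

variable {κ : Type} [Fintype κ] {z : κ → L}

/-- A Laurent polynomial that is integral over a ring generated by monomials on which an additive
form with values in an ordered group is nonnegative has its support in the half space. -/
lemma supp_nonneg {Γ : Type} [AddCommGroup Γ] [LinearOrder Γ] [IsOrderedAddMonoid Γ]
    (hz : AlgebraicIndependent k z) (ℓ : (κ → ℤ) →+ Γ) {P : Set (κ → ℤ)}
    (hP : ∀ c ∈ P, 0 ≤ ℓ c) (f : AddMonoidAlgebra k (κ → ℤ))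
    (hf : IsIntegral (Algebra.adjoin k (mn z '' P))
      (AddMonoidAlgebra.lift k L _ (mnHom hz.ne_zero) f)) : ∀ c ∈ f.coeff.support, 0 ≤ ℓ c := by
  classical
  let ev := AddMonoidAlgebra.lift k L _ (mnHom hz.ne_zero)
  have hev : ∀ f, ev f = Finsupp.linearCombination k (mn z) f.coeff := fun f =>
    AddMonoidAlgebra.lift_apply _ _
  have hinj : Function.Injective ev := fun f g e => by
    rw [hev, hev] at e
    exact AddMonoidAlgebra.coeff_injective (li_mn hz e)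
  let T : Multiplicative (κ → ℤ) →* HahnSeries Γ L :=
    { toFun := fun c => HahnSeries.single (ℓ c.toAdd) (mn z c.toAdd)
      map_one' := by simp [mn_zero]
      map_mul' := fun c c' => by simp [HahnSeries.single_mul_single, mn_add hz.ne_zero] }
  let θ : AddMonoidAlgebra k (κ → ℤ) →+* HahnSeries Γ L := AddMonoidAlgebra.liftNCRingHom
    (HahnSeries.C.comp (algebraMap k L)) T fun _ _ => .all _ _
  have hθ : ∀ c a, θ (.single c a) = HahnSeries.single (ℓ c) (a • mn z c) := fun c a => by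
    simp [θ, T, HahnSeries.C_apply, HahnSeries.single_mul_single, Algebra.smul_def]
  let θ' : ev.range →+* HahnSeries Γ L :=
    θ.comp (AlgEquiv.ofInjective ev hinj).symm.toRingEquiv.toRingHom
  have hθ' : ∀ f, θ' ⟨ev f, f, rfl⟩ = θ f := fun f =>
    congrArg θ ((AlgEquiv.ofInjective ev hinj).symm_apply_apply f)
  let v := AddValuation.toValuation (HahnSeries.addVal Γ L)
  have hv : ∀ y, y ∈ v.integer ↔ 0 ≤ y.orderTop := fun y => Iff.rfl
  let A := Algebra.adjoin k (mn z '' P)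
  have hA : ∀ a ∈ A, ∃ f, ev f = a ∧ θ f ∈ v.integer := by
    intro a ha
    induction ha using Algebra.adjoin_induction with
    | mem _ hx =>
      obtain ⟨c, hc, rfl⟩ := hx
      refine ⟨.single c 1, by simp [ev, mnHom], ?_⟩
      rw [hθ, hv]
      exact le_trans (WithTop.coe_le_coe.2 (hP c hc)) HahnSeries.orderTop_single_le
    | algebraMap a =>
      refine ⟨.single 0 a, by simp [ev, mnHom, mn_zero, Algebra.smul_def], ?_⟩
      rw [hθ, hv, map_zero]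
      exact HahnSeries.orderTop_single_le (a := (0 : Γ))
    | add _ _ _ _ ha hb =>
      obtain ⟨f, rfl, hf⟩ := ha
      obtain ⟨g, rfl, hg⟩ := hb
      exact ⟨f + g, map_add _ _ _, by rw [map_add]; exact add_mem hf hg⟩
    | mul _ _ _ _ ha hb =>
      obtain ⟨f, rfl, hf⟩ := ha
      obtain ⟨g, rfl, hg⟩ := hb
      exact ⟨f * g, map_mul _ _ _, by rw [map_mul]; exact mul_mem hf hg⟩
  have hA' : A ≤ ev.range := fun a ha => (hA a ha).imp fun _ h => h.1
  let _ : Algebra A ev.range := (Subalgebra.inclusion hA').toRingHom.toAlgebra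
  have : IsScalarTower A ev.range L := .of_algebraMap_eq fun _ => rfl
  have h1 : IsIntegral A (⟨ev f, f, rfl⟩ : ev.range) :=
    (isIntegral_algebraMap_iff (B := L) Subtype.val_injective).1 hf
  let φ : A →+* v.integer := (θ'.comp (algebraMap A ev.range)).codRestrict _ fun a => by
    obtain ⟨g, e, hg⟩ := hA a a.2
    have : algebraMap A ev.range a = ⟨ev g, g, rfl⟩ := Subtype.ext e.symm
    rwa [RingHom.comp_apply, this, hθ']
  have h2 := (Valuation.integer.integers v).mem_of_integral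
    (h1.map_of_comp_eq φ θ' (RingHom.ext fun _ => rfl))
  have h3 : 0 ≤ (θ f).orderTop := hθ' f ▸ (hv _).1 h2
  intro c hc
  by_contra H
  have h4 := HahnSeries.coeff_eq_zero_of_lt_orderTop
    (lt_of_lt_of_le (WithTop.coe_lt_coe.2 (not_le.1 H)) h3)
  have h5 : (θ f).coeff (ℓ c) =
      ∑ c' ∈ f.coeff.support, (if ℓ c = ℓ c' then f.coeff c' else 0) • mn z c' := by
    conv_lhs => rw [← AddMonoidAlgebra.sum_coeff_single f, Finsupp.sum, map_sum]
    rw [HahnSeries.coeff_sum]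
    refine Finset.sum_congr rfl fun c' _ => ?_
    rw [hθ, HahnSeries.coeff_single]
    split_ifs <;> simp
  have hli : LinearIndependent k (mn z) := li_mn hz
  rw [linearIndependent_iff'] at hli
  have h6 := hli _ _ (h5.symm.trans h4) c hc
  rw [if_pos rfl] at h6
  exact Finsupp.mem_support_iff.1 hc h6

end

variable {n : ℕ} {K : IntermediateField k L} {O : Subalgebra k L} {x : Fin n → L} {a : L}

lemma mons_eq (O : Subalgebra k L) (x : Fin n → L) :
    mons O x = Algebra.adjoin k (mn x '' {c | mn x c ∈ O}) :=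
  congrArg (Algebra.adjoin k) (Set.ext fun _ => ⟨fun ⟨h, c, e⟩ => ⟨c, (e ▸ h : mn x c ∈ O), e.symm⟩,
    fun ⟨c, h, e⟩ => ⟨e ▸ h, c, e.symm⟩⟩)

lemma mons_le (O : Subalgebra k L) (x : Fin n → L) : mons O x ≤ O :=
  Algebra.adjoin_le fun _ h => h.1

lemma mn_mem_mons {c : Fin n → ℤ} (h : mn x c ∈ O) : mn x c ∈ mons O x :=
  Algebra.subset_adjoin ⟨h, c, rfl⟩

lemma mons_le_field (O : Subalgebra k L) (x : Fin n → L) :
    mons O x ≤ (IntermediateField.adjoin k (Set.range x)).toSubalgebra := by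
  refine Algebra.adjoin_le ?_
  rintro _ ⟨-, c, rfl⟩
  exact prod_mem fun i _ =>
    zpow_mem (IntermediateField.subset_adjoin k _ (Set.mem_range_self i)) _

lemma span_shift (hx : ∀ j, x j ≠ 0) {P Q : Set (Fin n → ℤ)} {d : Fin n → ℤ}
    (h : ∀ c ∈ P, c + d ∈ Q) (ha : a ∈ Submodule.span k (mn x '' P)) :
    a * mn x d ∈ Submodule.span k (mn x '' Q) := by
  induction ha using Submodule.span_induction with
  | mem _ h' =>
    obtain ⟨c, hc, rfl⟩ := h'
    exact Submodule.subset_span ⟨c + d, h c hc, mn_add hx c d⟩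
  | zero => rw [zero_mul]; exact zero_mem _
  | add _ _ _ _ ha hb => rw [add_mul]; exact add_mem ha hb
  | smul c _ _ ha => rw [smul_mul_assoc]; exact Submodule.smul_mem _ c ha

/-- The algebra of the monomials is spanned by the monomials. -/
lemma mons_span (hx : ∀ j, x j ≠ 0) (ha : a ∈ mons O x) :
    a ∈ Submodule.span k (mn x '' {c | mn x c ∈ O}) := by
  let S : Submonoid L :=
    { carrier := mn x '' {c | mn x c ∈ O}
      one_mem' := ⟨0, (by rw [Set.mem_ofPred_eq, mn_zero]; exact one_mem _), mn_zero x⟩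
      mul_mem' := by
        rintro _ _ ⟨c, hc, rfl⟩ ⟨c', hc', rfl⟩
        exact ⟨c + c', (by rw [Set.mem_ofPred_eq, mn_add hx]; exact mul_mem hc hc'),
          mn_add hx c c'⟩ }
  rw [mons_eq, ← Subalgebra.mem_toSubmodule, Algebra.adjoin_eq_span] at ha
  exact Submodule.span_mono (Submonoid.closure_le (S := S).2 fun _ h => h) ha

/-- A monomial that is algebraic over the monomials of `O` has a power in the group that they
generate. -/
lemma exists_rel (hx : AlgebraicIndependent k x) {c : Fin n → ℤ}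
    (h : IsAlgebraic (mons O x) (mn x c)) :
    ∃ (N : ℕ) (c₁ c₂ : Fin n → ℤ), 0 < N ∧ mn x c₁ ∈ O ∧ mn x c₂ ∈ O ∧ N • c + c₂ = c₁ := by
  by_contra H
  obtain ⟨p, hp, h0⟩ := h
  have h1 : ∀ (i : ℕ) (Q : Set (Fin n → ℤ)), (∀ e, mn x e ∈ O → e + i • c ∈ Q) →
      p.coeff i • mn x c ^ i ∈ Submodule.span k (mn x '' Q) := fun i Q hQ => by
    rw [← mn_nsmul]
    exact span_shift hx.ne_zero hQ (mons_span hx.ne_zero (p.coeff i).2)
  rw [aeval_eq_sum_range, Finset.sum_range_succ, add_eq_zero_iff_neg_eq] at h0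
  have h2 := (li_mn hx).disjoint_span_image (s := {e | mn x (e - p.natDegree • c) ∈ O})
    (t := {e | ∃ i < p.natDegree, mn x (e - i • c) ∈ O}) (Set.disjoint_left.2 fun e h2 ⟨i, hi, h3⟩ =>
      H ⟨p.natDegree - i, _, _, Nat.sub_pos_of_lt hi, h3, h2, by
        obtain ⟨m, hm⟩ := Nat.exists_eq_add_of_le hi.le
        rw [hm, Nat.add_sub_cancel_left, add_smul]; abel⟩)
  have h3 := Submodule.disjoint_def.1 h2 _ (h1 p.natDegree _ fun e he => by simpa using he) (by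
    rw [← h0]
    exact neg_mem (sum_mem fun i hi => h1 i _ fun e he =>
      ⟨i, Finset.mem_range.1 hi, by simpa using he⟩))
  exact mul_ne_zero (fun e => leadingCoeff_ne_zero.2 hp (Subtype.ext e))
    (pow_ne_zero _ (mn_ne_zero hx.ne_zero c)) h3

/-- The field is algebraic over the algebra of the monomials. -/
lemma alg_mons (h : Fr n K O x) (ha : a ∈ K) : IsAlgebraic (mons O x) a := by
  obtain ⟨D, hD⟩ := h.aff
  have hS : ∀ s ∈ GD.gens O x, s ∈ mons O x ∧ ¬ Un O s := by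
    rintro _ ⟨h1, c, b, h2, rfl⟩
    exact ⟨sub_mem (mn_mem_mons h2) (Subalgebra.algebraMap_mem _ b), h1⟩
  have hp : R72.Res.Par O (GD.gens O x) := fun y hy =>
    (hD.rt y hy).imp fun c hc => h.fr.gen _ (sub_mem hy (O.algebraMap_mem c)) hc
  obtain ⟨b, hb, hb0, hbx⟩ := hD.frac a ha
  have h1 := (isAlgebraic_of_par hD.fg hD.pt (mons_le O x) hS hp (hD.pt.le hbx)).mul
    (isAlgebraic_of_par hD.fg hD.pt (mons_le O x) hS hp (hD.pt.le hb)).inv
  rwa [mul_comm b, mul_inv_cancel_right₀ hb0] at h1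

end Monn

open Monn in
theorem monn : MonnStmt k L := by
  intro n K B x hx hK hB
  have := normal_laurent hx
  have h1 : mons B x ≤ Algebra.adjoin k (Set.range (mn x)) :=
    Algebra.adjoin_mono fun _ ⟨_, c, e⟩ => ⟨c, e.symm⟩
  refine normal_of_mem fun y q hq hq0 hqy hy => ?_
  have h2 := mem_of_integral (h1 hq) hq0 (h1 hqy) (isIntegral_mono h1 hy)
  let ev := AddMonoidAlgebra.lift k L _ (mnHom hx.ne_zero)
  have h3 : Algebra.adjoin k (Set.range (mn x)) ≤ ev.range := Algebra.adjoin_le (by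
    rintro _ ⟨c, rfl⟩
    exact ⟨.single c 1, by simp [ev, mnHom]⟩)
  obtain ⟨f, rfl⟩ := h3 h2
  change AddMonoidAlgebra.lift k L _ (mnHom hx.ne_zero) f ∈ _
  rw [AddMonoidAlgebra.lift_apply]
  refine sum_mem fun c hc => Subalgebra.smul_mem _ (mn_mem_mons
    (hB _ (mn_mem_field hK c) (isIntegral_of_val fun V hV hle => ?_))) _
  let u : (Fin n → ℤ) → hV.vs.ValueGroupˣ := fun c =>
    Units.mk0 (hV.vs.valuation (mn x c)) ((Valuation.ne_zero_iff _).2 (mn_ne_zero hx.ne_zero c))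
  let ℓ : (Fin n → ℤ) →+ (Additive hV.vs.ValueGroupˣ)ᵒᵈ :=
    { toFun := fun c => OrderDual.toDual (Additive.ofMul (u c))
      map_zero' := Units.ext (by simp [u, mn_zero])
      map_add' := fun c c' => Units.ext (by simp [u, mn_add hx.ne_zero]) }
  have hℓ : ∀ c, 0 ≤ ℓ c ↔ mn x c ∈ V := fun c => hV.vs.valuation_le_one_iff (mn x c)
  rw [mons_eq] at hy
  exact (hℓ c).1 (supp_nonneg hx ℓ (fun c hc => (hℓ c).2 (hle hc)) f hy c hc)

open Monn in
theorem kitF : KitF k L := by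
  intro n K O x h
  have hi : AlgebraicIndependent k x := by
    obtain ⟨D, hD⟩ := h.aff
    obtain ⟨B, hB⟩ := exists_isTranscendenceBasis k K
    refine indep x (hB.1.map' (f := K.val) Subtype.val_injective) ?_ fun i => ?_
    · rw [hB.cardinalMk_eq_trdeg, hD.deg, Cardinal.mk_fin]
    · rw [← IntermediateField.isAlgebraic_adjoin_iff]
      exact isAlgebraic_mono (mons_le_field O x) (alg_mons h i.1.2)
  refine ⟨hi, fun c => ?_⟩
  obtain ⟨N, c₁, c₂, hN, h1, h2, e⟩ := exists_rel hi (alg_mons h (mn_mem_field h.mem c))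
  refine ⟨c₂, h2, h.nrm _ (mn_mem_field h.mem _) (.of_pow hN (isIntegral_of_mem ?_))⟩
  obtain ⟨m, rfl⟩ := Nat.exists_eq_succ_of_ne_zero hN.ne'
  rw [← mn_nsmul, show m.succ • (c + c₂) = c₁ + m • c₂ by
    rw [← e, smul_add, succ_nsmul c₂]; abel, mn_add hi.ne_zero, mn_nsmul]
  exact mul_mem h1 (pow_mem h2 m)

end Pool.Agent.MP_19ffc6_ag.Perf

end MrgPart0

-- ======== part 1: formerly Pool.Agent.MP_19ffc6_ag.perf.TFace
section MrgPart1

/-! PROJECT PERF, block T, row FACE: the ideals of the strata are prime. -/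

namespace Pool.Agent.MP_19ffc6_ag.Perf

open Pool.Agent.R72.Wild Pool.Agent.R72.Lci Pool.Agent.R72.Res Pool.Agent.R72.Res.B
  Pool.Agent.R72.Res.Tor Pool.Agent.R72.Res.P Submodule

variable {k L : Type} [Field k] [Field L] [Algebra k L]

namespace Face

open Classical in
/-- The monomials on which a nonnegative form is positive generate a prime ideal. -/
theorem prime_form {n : ℕ} {K : IntermediateField k L} {D O : Subalgebra k L} {ι : Type}
    [Fintype ι] {r s : ℕ} {τ : Typ ι r} {z : Fin r → L} {t : Fin s → L} (h : TP n O τ z t)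
    (hA : Aff n K D O) (l : (Fin r → ℤ) →+ ℤ) (hl : ∀ c ∈ τ.Reg 0, 0 ≤ l c) {a b : L}
    (ha : a ∈ O) (hb : b ∈ O) (H : a * b ∈ span O (mn z '' {c | c ∈ τ.Reg 0 ∧ 0 < l c})) :
    a ∈ span O (mn z '' {c | c ∈ τ.Reg 0 ∧ 0 < l c}) ∨
      b ∈ span O (mn z '' {c | c ∈ τ.Reg 0 ∧ 0 < l c}) := by
  have := hA.noeth
  obtain ⟨h1, h2, -, -⟩ := h.kit hA
  let φ : (Fin r ⊕ Fin s → ℤ) →+ Option ι ⊕ Fin s → ℤ := AddMonoidHom.mk'
    (fun c => Sum.elim (fun o => o.elim (l (c ∘ .inl))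
      fun σ => if σ ∈ τ.R then τ.ev (c ∘ .inl) σ else 0) (c ∘ .inr))
    fun c e => by
      ext ((_ | σ) | j)
      · exact l.map_add (c ∘ .inl) (e ∘ .inl)
      · have := τ.ev_add (c ∘ .inl) (e ∘ .inl) σ
        by_cases hσ : σ ∈ τ.R <;> simp [hσ]
        exact this
      · rfl
  have p0 : ∀ c, φ c (.inl none) = l (c ∘ .inl) := fun c => rfl
  have p1 : ∀ c, ∀ σ ∈ τ.R, φ c (.inl (some σ)) = τ.ev (c ∘ .inl) σ := fun c σ hσ => if_pos hσ
  have p2 : ∀ c, 0 ≤ φ c ↔ c ∘ .inl ∈ τ.Reg 0 ∧ 0 ≤ c ∘ .inr := fun c => by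
    refine ⟨fun hc => ⟨fun σ hσ => p1 c σ hσ ▸ hc (.inl (some σ)), fun j => hc (.inr j)⟩, ?_⟩
    rintro hc ((_ | σ) | j)
    · exact hl _ hc.1
    · by_cases hσ : σ ∈ τ.R
      · rw [p1 c σ hσ]; exact hc.1 σ hσ
      · exact (if_neg hσ).ge
    · exact hc.2 j
  have p3 : ∀ c, mn (Sum.elim z t) c = mn z (c ∘ .inl) * mn t (c ∘ .inr) := fun c =>
    Fintype.prod_sum_type _
  have p4 : ∀ c, mn (Sum.elim z t) (Sum.elim c 0) = mn z c := fun c => by
    rw [p3]; exact (congrArg _ (mn_zero t)).trans (mul_one _)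
  have p5 : ∀ j, mn (Sum.elim z t) (Sum.elim 0 (Pi.single j 1)) = t j := fun j => by
    rw [p3, Sum.elim_comp_inl, Sum.elim_comp_inr, mn_zero, mn_single, one_mul, zpow_one]
  have p6 : ∀ c, 0 ≤ c → mn t c ∈ O := fun c hc =>
    h.sup_le ((le_sup_right : _ ≤ TA k z τ ⊔ _) (mn_mem_adjoin t hc))
  have p7 : ∀ j, 0 ≤ φ (Sum.elim 0 (Pi.single j 1)) := fun j =>
    (p2 _).2 ⟨fun σ _ => (τ.ev_zero σ).ge, Pi.single_nonneg.2 zero_le_one⟩
  have e1 : span O (mn (Sum.elim z t) '' {c | 0 ≤ φ c ∧ 0 < φ c (.inl none)}) =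
      span O (mn z '' {c | c ∈ τ.Reg 0 ∧ 0 < l c}) := by
    refine le_antisymm (span_le.2 ?_) (span_mono ?_)
    · rintro _ ⟨c, hc, rfl⟩
      rw [p3]
      exact mul_mem_span' (subset_span ⟨_, ⟨((p2 c).1 hc.1).1, p0 c ▸ hc.2⟩, rfl⟩)
        (p6 _ ((p2 c).1 hc.1).2)
    · rintro _ ⟨c, hc, rfl⟩
      exact ⟨Sum.elim c 0, ⟨(p2 _).2 ⟨hc.1, le_rfl⟩, by rw [p0]; exact hc.2⟩, p4 c⟩
  have e2 : Algebra.adjoin k (mn (Sum.elim z t) '' {c | 0 ≤ φ c}) =
      TA k z τ ⊔ Algebra.adjoin k (Set.range t) := by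
    refine le_antisymm (Algebra.adjoin_le ?_)
      (_root_.sup_le (Algebra.adjoin_mono ?_) (Algebra.adjoin_mono ?_))
    · rintro _ ⟨c, hc, rfl⟩
      rw [p3]
      exact mul_mem ((le_sup_left : TA k z τ ≤ _) (mn_mem_TA ((p2 c).1 hc).1))
        ((le_sup_right : _ ≤ TA k z τ ⊔ _) (mn_mem_adjoin t ((p2 c).1 hc).2))
    · rintro _ ⟨c, hc, rfl⟩
      exact ⟨Sum.elim c 0, (p2 _).2 ⟨hc, le_rfl⟩, p4 c⟩
    · rintro _ ⟨j, rfl⟩
      exact ⟨_, p7 j, p5 j⟩
  rw [← e1] at H ⊢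
  refine Pr.Ce.prime ⟨fun c hc => ?_, h1, e2 ▸ h2, hA.pt.lcl, fun c hc h0 hu => h0 ?_,
    (h.par hA.rt).mono ?_⟩ ha hb H
  · ext (j | j)
    · exact congrFun (h.ptd (c ∘ .inl) fun σ hσ => p1 c σ hσ ▸ congrFun hc (.inl (some σ))) j
    · exact congrFun hc (.inr j)
  · obtain ⟨c1, c2⟩ := (p2 c).1 hc
    rw [p3] at hu
    have u1 := Un.of_mul (h.mem _ c1) (p6 _ c2) hu
    have u2 := Un.of_mul (p6 _ c2) (h.mem _ c1) (mul_comm (mn z _) _ ▸ hu)
    ext (j | j)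
    · exact congrFun (not_not.1 fun e => h.nu _ c1 e u1) j
    · by_contra e
      exact not_un_of_mem_span hA.pt.lcl (by rintro _ rfl; exact h.tm j)
        (mn_mem_span (fun j => ⟨(h.tm j).1, h1.ne_zero (.inr j)⟩) (fun j _ => c2 j)
          (lt_of_le_of_ne (c2 j) (Ne.symm e))) u2
  · rintro _ (⟨c, hc, rfl⟩ | ⟨j, rfl⟩)
    · exact subset_span ⟨Sum.elim c 0, ⟨(p2 _).2 ⟨hc.1, le_rfl⟩,
        fun e => hc.2 (congrArg (· ∘ Sum.inl) e)⟩, p4 c⟩
    · exact subset_span ⟨_, ⟨p7 j, fun e => by simpa using congrFun e (.inr j)⟩, p5 j⟩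

open Classical in
/-- The regular monomials that are units at `W` are cut out by one nonnegative form. -/
theorem exists_form {O W : Subalgebra k L} {ι : Type} [Fintype ι] {r : ℕ} {τ : Typ ι r}
    {z : Fin r → L} (hz : ∀ i, z i ≠ 0) (hm : ∀ c ∈ τ.Reg 0, mn z c ∈ O) (hW : O ≤ W) :
    ∃ l : (Fin r → ℤ) →+ ℤ, (∀ c ∈ τ.Reg 0, 0 ≤ l c) ∧
      ∀ c ∈ τ.Reg 0, (Un W (mn z c) ↔ l c = 0) := by
  let A : Finset ι := Finset.univ.filter fun ρ =>
    ρ ∈ τ.R ∧ ∀ f ∈ τ.Reg 0, Un W (mn z f) → τ.ev f ρ = 0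
  have hA : ∀ ρ, ρ ∈ A ↔ ρ ∈ τ.R ∧ ∀ f ∈ τ.Reg 0, Un W (mn z f) → τ.ev f ρ = 0 := by
    simp [A]
  have h0 : ∀ c ∈ τ.Reg 0, ∀ ρ ∈ A, 0 ≤ τ.ev c ρ := fun c hc ρ hρ => hc ρ ((hA ρ).1 hρ).1
  refine ⟨AddMonoidHom.mk' (fun c => ∑ ρ ∈ A, τ.ev c ρ) fun c e => by
    simp only [Typ.ev_add, Finset.sum_add_distrib], fun c hc => Finset.sum_nonneg (h0 c hc),
    fun c hc => ⟨fun hu => Finset.sum_eq_zero fun ρ hρ => ((hA ρ).1 hρ).2 c hc hu, fun e => ?_⟩⟩
  have h1 : ∀ ρ ∈ A, τ.ev c ρ = 0 := (Finset.sum_eq_zero_iff_of_nonneg (h0 c hc)).1 e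
  have h2 : ∀ B : Finset ι, ∃ f ∈ τ.Reg 0, Un W (mn z f) ∧
      ∀ ρ ∈ B, ρ ∈ τ.R → τ.ev c ρ ≤ τ.ev f ρ := by
    intro B
    induction B using Finset.induction_on with
    | empty => exact ⟨0, Typ.zero_mem_reg, by rw [mn_zero]; exact Un.one W, by simp⟩
    | insert σ B _ ih =>
      obtain ⟨f, f1, f2, f3⟩ := ih
      by_cases hσ : σ ∈ τ.R → σ ∈ A
      · refine ⟨f, f1, f2, fun ρ hρ hR => ?_⟩
        rcases Finset.mem_insert.1 hρ with rfl | hρ
        · rw [h1 ρ (hσ hR)]; exact f1 ρ hR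
        · exact f3 ρ hρ hR
      · obtain ⟨s1, s2⟩ := Classical.not_imp.1 hσ
        rw [hA] at s2
        push Not at s2
        obtain ⟨g, g1, g2, g3⟩ := s2 s1
        have c0 : ∀ ρ ∈ τ.R, 0 ≤ τ.ev c ρ := hc
        have g0 : ∀ ρ ∈ τ.R, 0 ≤ τ.ev g ρ := g1
        have f0 : ∀ ρ ∈ τ.R, 0 ≤ τ.ev f ρ := f1
        have m0 : ((τ.ev c σ).toNat : ℤ) = τ.ev c σ := Int.toNat_of_nonneg (c0 σ s1)
        have n0 : ∀ ρ ∈ τ.R, 0 ≤ τ.ev ((τ.ev c σ).toNat • g) ρ := fun ρ hρ => by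
          rw [Typ.ev_nsmul]; exact mul_nonneg (Int.natCast_nonneg _) (g0 ρ hρ)
        refine ⟨f + (τ.ev c σ).toNat • g, Typ.add_mem_reg0 f1 n0, ?_, fun ρ hρ hR => ?_⟩
        · rw [mn_add hz, mn_nsmul]; exact f2.mul (g2.pow _)
        · rw [Typ.ev_add]
          rcases Finset.mem_insert.1 hρ with rfl | hρ
          · rw [Typ.ev_nsmul, m0]
            have a1 := c0 ρ hR
            have a2 : 1 ≤ τ.ev g ρ := by have := g0 ρ hR; omega
            have a3 := f0 ρ hR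
            nlinarith
          · have a1 := f3 ρ hρ hR
            have a2 := n0 ρ hR
            omega
  obtain ⟨f, -, f2, f3⟩ := h2 Finset.univ
  have h3 : f - c ∈ τ.Reg 0 := fun ρ hρ => by
    rw [Typ.ev_sub]; exact sub_nonneg.2 (f3 ρ (Finset.mem_univ ρ) hρ)
  refine Un.of_mul (hW (hm c hc)) (hW (hm _ h3)) ?_
  rwa [← mn_add hz, add_sub_cancel]

/-- A monomial in monomials is a monomial. -/
lemma mn_mn {n r : ℕ} {x : Fin n → L} {z : Fin r → L} (hx : ∀ j, x j ≠ 0)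
    (h : ∀ i, ∃ c, z i = mn x c) (c : Fin r → ℤ) : ∃ e, mn z c = mn x e := by
  refine Finset.prod_induction _ (fun w => ∃ e, w = mn x e) ?_ ⟨0, (mn_zero x).symm⟩ ?_
  · rintro _ _ ⟨a, rfl⟩ ⟨b, rfl⟩
    exact ⟨a + b, (mn_add hx a b).symm⟩
  · intro i _
    obtain ⟨e, he⟩ := h i
    exact ⟨c i • e, by rw [mn_smul, he]⟩

end Face

theorem face (h : TpStmt k L) : FaceStmt k L := by
  intro n K O W x hF _ hW a ha b hb H
  obtain ⟨ι, _, r, s, τ, z, t, hT, h1, h2, h3⟩ := h n K O x hF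
  obtain ⟨D, hA⟩ := hF.aff
  obtain ⟨l, l1, l2⟩ := Face.exists_form hT.ne hT.mem hW
  have e : fI O W x = span O (mn z '' {c | c ∈ τ.Reg 0 ∧ 0 < l c}) := by
    refine le_antisymm (span_le.2 ?_) (span_mono ?_)
    · rintro _ ⟨m1, m2, c, rfl⟩
      obtain ⟨e, he⟩ := h2 c
      have e0 := mn_ne_zero hT.ne e
      have e1 : mn x c = mn x c / mn z e * mn z e := (div_mul_cancel₀ _ e0).symm
      have e2 : mn z e ∈ O := by
        have := mul_mem he.2.2 m1
        rwa [inv_div, div_mul_cancel₀ _ (mn_ne_zero hF.fr.ne c)] at this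
      have e3 := h3 e e2
      have e4 : l e ≠ 0 := fun e5 => m2 (e1 ▸ (he.mono hW).mul ((l2 e e3).2 e5))
      rw [e1]
      exact mul_mem_span he.1 (subset_span ⟨e, ⟨e3, lt_of_le_of_ne (l1 e e3) e4.symm⟩, rfl⟩)
    · rintro _ ⟨c, hc, rfl⟩
      exact ⟨hT.mem c hc.1, fun hu => hc.2.ne' ((l2 c hc.1).1 hu), Face.mn_mn hF.fr.ne h1 c⟩
  rw [e] at H ⊢
  exact Face.prime_form hT hA l l1 ha hb H

end Pool.Agent.MP_19ffc6_ag.Perf

end MrgPart1

-- ======== part 2: formerly Pool.Agent.MP_19ffc6_ag.perf.TCmp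
section MrgPart2

/-! PROJECT PERF, row CMP: finitely many monomials are decided on an admissible modification. -/

namespace Pool.Agent.MP_19ffc6_ag.Perf

open Pool.Agent.R72.Wild Pool.Agent.R72.Lci Pool.Agent.R72.Res Pool.Agent.R72.Res.Tor
  Pool.Agent.R72.Res.B Pool.Agent.R72.Res.P Pool.Agent.R72.Res.Lab

variable {k L : Type} [Field k] [Field L] [Algebra k L]

namespace Cmp

lemma exp_prod {s : TS k L} (hs : ∀ O, s.P O → (s.ch O).At O) (T : Finset L)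
    (h : ∀ f ∈ T, ∃ a, s.HasExp f a) (e : L → ℤ) : ∃ a, s.HasExp (smn T e) a := by
  classical
  induction T using Finset.induction_on with
  | empty =>
    exact ⟨0, fun O _ => ⟨0, fun ρ _ => Typ.ev_zero ρ, by simpa [smn, mn_zero] using Un.one O⟩⟩
  | insert f T hf ih =>
    obtain ⟨a, ha⟩ := ih fun g hg => h g (Finset.mem_insert_of_mem hg)
    obtain ⟨b, hb⟩ := h f (Finset.mem_insert_self _ _)
    refine ⟨e f • b + a, fun O hO => ?_⟩
    obtain ⟨c, h1, h2⟩ := ha O hO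
    obtain ⟨d, h3, h4⟩ := hb O hO
    refine ⟨e f • d + c, fun ρ hρ => ?_, ?_⟩
    · rw [Typ.ev_add, Typ.ev_smul, h1 ρ hρ, h3 ρ hρ]; rfl
    · rw [smn, Finset.prod_insert hf]
      exact un_exp_mul (hs O hO).ne (un_exp_zpow h4 _) h2

lemma adm {N : IntermediateField k L} {S : Finset L} {O O' T : Subalgebra k L} {X : Set L}
    (hd : Dom O O') (hp : IsPoint (O ⊔ T) O') (hT : T = Algebra.adjoin k X)
    (hX : ∀ m ∈ X, Pw S O m) (hN : O' ≤ N.toSubalgebra)
    (hn : ∀ a ∈ N, IsIntegral O' a → a ∈ O') : Adm N S O O' := by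
  have hA : O ⊔ Algebra.adjoin k {m | m ∈ O' ∧ ∃ e, m = smn S e} ≤ O' :=
    sup_le hd.1 (Algebra.adjoin_le fun _ hm => hm.1)
  refine ⟨hd, hp.of_le_loc (fun a ha => hn a ha.1 (isIntegral_mono hA ha.2))
    (le_trans ?_ (le_loc _ _))⟩
  refine sup_le (le_sup_left.trans (le_icl (hA.trans hN))) (hT ▸ Algebra.adjoin_le fun m hm => ?_)
  have hm' : m ∈ O' := hp.le ((le_sup_right : T ≤ _) (hT ▸ Algebra.subset_adjoin hm))
  obtain ⟨n, hn0, e, hu⟩ := hX m hm
  have h0 : smn S e ≠ 0 := fun c => hu.2.1 (by rw [show ∏ f ∈ S, f ^ e f = 0 from c, div_zero])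
  have h1 : m ^ n = m ^ n / smn S e * smn S e := (div_mul_cancel₀ _ h0).symm
  have h2 : smn S e ∈ O' := by
    have := mul_mem (hd.1 hu.2.2) (pow_mem hm' n)
    rwa [show ∏ f ∈ S, f ^ e f = smn S e from rfl, inv_div,
      div_mul_cancel₀ _ (fun c => hu.2.1 (by rw [c, zero_div]))] at this
  refine ⟨hN hm', (isIntegral_of_mem ?_).of_pow hn0⟩
  rw [h1]
  exact mul_mem ((le_sup_left : O ≤ _) hu.1)
    ((le_sup_right : Algebra.adjoin k _ ≤ _) (Algebra.subset_adjoin ⟨h2, e, rfl⟩))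

end Cmp

theorem cmpT [IsAlgClosed k] : CmpStmt k L := by
  have hP : ParStmt k L := par
  have hR : ResolveP k L := resolveP
  have hL : LabelW k L := labelW
  classical
  intro n K₀ K S M Φ hG hn hS hst hT
  obtain ⟨s, rfl, hs, hexp, hful⟩ := hL n K₀ K S M hG hn hS hst hT
  obtain ⟨s', hs', href, huni, hcmp⟩ := hR _ s ((S : Set L) ∪ smn S '' Φ) (Cl.cls K₀ K) hs
    (S.finite_toSet.union (Φ.finite_toSet.image _)) (by
      rintro f (hf | ⟨e, -, rfl⟩)
      exacts [hexp f hf, Cmp.exp_prod hs.cht S hexp e])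
  have hM' : Mdl K s'.M := mdl_of_dom hT.1 hs'.cl.1 hs'.ne hs'.cl.2.2 fun O' hO' =>
    let ⟨O, hO, hd, _⟩ := href.dom O' hO'; ⟨O, hO, hd.1⟩
  refine ⟨s', hs', huni, hM', fun f hf => (hexp f hf).elim (href.exp f), fun O hO i => ?_,
    fun O hO hr => ⟨fun e he => hcmp _ (Or.inr ⟨e, he, rfl⟩) O hO, ?_⟩⟩
  · obtain ⟨O₀, hO₀, hd, hrg, -⟩ := href.dom O hO
    obtain ⟨c', e⟩ : mn (s'.ch O).z (Pi.single i 1) ∈ Set.range (mn (s.ch O₀).z) :=
      hrg ▸ ⟨_, rfl⟩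
    have h4 := ((hful O₀ hO₀).mn c').mono hd.1
    rwa [e, mn_single, zpow_one] at h4
  obtain ⟨O₀, hO₀, hd, hrg, -, hpt⟩ := href.dom O hO
  have hpw : ∀ c, Pw S O₀ (mn (s'.ch O).z c) := fun c => by
    obtain ⟨c', e⟩ : mn (s'.ch O).z c ∈ Set.range (mn (s.ch O₀).z) := hrg ▸ ⟨c, rfl⟩
    exact e ▸ (hful O₀ hO₀).mn c'
  have hc := hs'.cht O hO
  let _ : Fintype (s'.ch O).τ.R := Fintype.ofFinite _
  obtain ⟨-, y, hy, hTA, hmn, -⟩ := Tor.snc s'.ι (s'.ch O) O hc (huni O hO)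
  have hsf : SF (Algebra.adjoin k (Set.range y)) O := hTA ▸ hc.sf
  obtain ⟨D, hD⟩ := hM'.aff hn hO hr
  obtain ⟨r, t, h1, h2, h3⟩ := hP n K D O _ y hD hy hsf
  obtain ⟨_, _, x, t', hpar, -⟩ := par_of (S := S)
    (fun i => ⟨hsf.le (Algebra.subset_adjoin ⟨i, rfl⟩), hy.ne_zero i⟩) h1 h2 h3
    (fun f hf => by
      obtain ⟨a, ha⟩ := hexp f hf
      obtain ⟨a', ha'⟩ := href.exp f a ha
      obtain ⟨c, -, hu⟩ := ha' O hO
      exact ⟨_, hmn c ▸ hu⟩) (fun f hf => hcmp f (Or.inl hf) O hO) fun ρ => by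
      obtain ⟨c, hc'⟩ := huni O hO (Pi.single ρ.1 1)
      have e1 : (fun σ : (s'.ch O).τ.R => (s'.ch O).τ.ev c σ) = Pi.single ρ 1 := funext fun σ => by
        rw [hc' σ σ.2, Pi.single_apply, Pi.single_apply]
        exact if_congr Subtype.val_inj rfl rfl
      have h4 := (hpw c).mono hd.1
      rwa [hmn c, e1, mn_single, zpow_one] at h4
  refine ⟨O₀, hO₀, fun a ha => (hr a (hd.1 ha)).imp fun c hc hu => hc (hu.mono hd.1),
    Cmp.adm hd hpt rfl ?_ hD.le_field fun a ha hi => hpar.normal hD ha hi⟩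
  rintro _ ⟨c, -, rfl⟩
  exact hpw c

end Pool.Agent.MP_19ffc6_ag.Perf

end MrgPart2

-- marker of a merged file
example : 731051 + 679070 = 731051 + 679070 := rfl
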