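import Pool.Agent.MP_19ffc6_ag.perf.SpecL

-- ======== part 0: formerly Pool.Agent.MP_19ffc6_ag.perf.TEps0
section MrgPart0

/-! PROJECT PERF, row EPS0: in the limit ring the displacements have the radical of a monomial. -/

namespace Pool.Agent.MP_19ffc6_ag.Perf

open Pool.Agent.R72.Wild Pool.Agent.R72.Lci Pool.Agent.R72.Res Pool.Agent.R72.Res.B
  Pool.Agent.R72.Res.P GD Polynomial

variable {k L : Type} [Field k] [Field L] [Algebra k L]

namespace Eps0

variable {n : ℕ} {O R V W : Subalgebra k L} {x : Fin n → L} {g : SA k L} {a : L}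

lemma le_RV : O ≤ RV O V x := le_sup_left.trans (le_loc _ _)

lemma mn_RV {c : Fin n → ℤ} (h : mn x c ∈ V) : mn x c ∈ RV O V x :=
  (le_sup_right.trans (le_loc _ _) : mons V x ≤ _) (Algebra.subset_adjoin ⟨h, c, rfl⟩)

lemma sup_le_V (h : O ≤ V) : O ⊔ mons V x ≤ V := sup_le h (Algebra.adjoin_le fun _ h => h.1)

lemma dom_RV (h : O ≤ V) : Dom (RV O V x) V := dom_loc (sup_le_V h)

lemma pt_RV (hV : Val V) (h : O ≤ V) : IsPoint (O ⊔ mons (RV O V x) x) (RV O V x) := by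
  have e : mons (RV O V x) x = mons V x := congrArg (Algebra.adjoin k) (Set.ext fun m =>
    ⟨fun hm => ⟨(dom_RV h).1 hm.1, hm.2⟩, by rintro ⟨h1, c, rfl⟩; exact ⟨mn_RV h1, c, rfl⟩⟩)
  rw [e]
  exact isPoint_loc (sup_le_V h) hV.lcl

/-- The monomials are totally ordered by division. -/
lemma tot {ι : Type} [Fintype ι] (hV : Val V) (hz : ∀ j, x j ≠ 0)
    (hm : ∀ c, mn x c ∈ V → mn x c ∈ R) {a : ι → L} (h : ∀ i, a i ∈ fI R W x) :
    (∀ i, a i = 0) ∨ ∃ c, mn x c ∈ R ∧ ¬ Un W (mn x c) ∧ ∀ i, a i / mn x c ∈ R := by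
  classical
  choose T h1 h2 using fun i => Submodule.mem_span_finite_of_mem_span (h i)
  have h3 : ∀ t ∈ Finset.univ.biUnion T, t ∈ R ∧ ¬ Un W t ∧ ∃ c, t = mn x c := fun t ht =>
    let ⟨i, _, hi⟩ := Finset.mem_biUnion.1 ht
    h1 i hi
  have h4 : ∀ i, ∀ t ∈ T i, t ∈ Finset.univ.biUnion T := fun i t ht =>
    Finset.mem_biUnion.2 ⟨i, Finset.mem_univ i, ht⟩
  rcases (Finset.univ.biUnion T).eq_empty_or_nonempty with e | e
  · refine Or.inl fun i => ?_
    have := h2 i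
    rw [Finset.eq_empty_of_forall_notMem (s := T i) fun t ht => by
      simpa [e] using h4 i t ht] at this
    simpa using this
  obtain ⟨s, hs, h5⟩ := hV.exists_min e fun t ht =>
    let ⟨_, _, c, e⟩ := h3 t ht
    e ▸ mn_ne_zero hz c
  obtain ⟨h6, h7, c, rfl⟩ := h3 s hs
  refine Or.inr ⟨c, h6, h7, fun i => ?_⟩
  obtain ⟨w, hw, e⟩ := mem_span_one.1 (span_le_span (S' := {mn x c}) le_rfl (fun t ht => by
    obtain ⟨-, -, d, rfl⟩ := h1 i ht
    have := h5 _ (h4 i _ ht)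
    rw [← mn_sub hz] at this
    exact mem_span_one.2 ⟨_, hm _ this, by
      rw [mn_sub hz, mul_div_cancel₀ _ (mn_ne_zero hz c)]⟩) (h2 i))
  rwa [e, mul_div_cancel_left₀ _ (mn_ne_zero hz c)]

/-- The displacements of the coordinates generate the displacements in the limit ring. -/
lemma disp_RV (hV : Val V) (hOV : O ≤ V) (hz : ∀ j, x j ≠ 0) (hg : Lin g)
    {I : Submodule (RV O V x) L} (hI : ∀ y ∈ I, y ∈ mx (pt_RV (x := x) hV hOV).lcl)
    (h1 : ∀ a ∈ O, g • a - a ∈ I) (h2 : ∀ j, g • x j / x j - 1 ∈ I) (ha : a ∈ RV O V x) :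
    g • a - a ∈ I := by
  have hl := (pt_RV (x := x) hV hOV).lcl
  have hs : ∀ a ∈ RV O V x, g • a - a ∈ I → g • a ∈ RV O V x := fun a ha h => by
    simpa using add_mem (hI _ h).1 ha
  let Z : Subalgebra k L :=
    { carrier := {a | a ∈ RV O V x ∧ g • a - a ∈ I}
      mul_mem' := fun {a b} ha hb => ⟨mul_mem ha.1 hb.1, by
        rw [show g • (a * b) - a * b = g • a * (g • b - b) + b * (g • a - a) by
          rw [smul_mul']; ring]
        exact add_mem (mul_mem' (hs a ha.1 ha.2) hb.2) (mul_mem' hb.1 ha.2)⟩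
      add_mem' := fun {a b} ha hb => ⟨add_mem ha.1 hb.1, by
        rw [smul_add, add_sub_add_comm]; exact add_mem ha.2 hb.2⟩
      algebraMap_mem' := fun c => ⟨Subalgebra.algebraMap_mem _ c, by
        rw [hg c, sub_self]; exact zero_mem _⟩ }
  have hZ : O ⊔ mons V x ≤ Z := sup_le (fun a ha => ⟨le_RV ha, h1 a ha⟩) (Algebra.adjoin_le (by
    rintro _ ⟨h3, c, rfl⟩
    refine ⟨mn_RV h3, ?_⟩
    have h4 := mul_mem' (mn_RV h3) (one_mn hl hI h2 c)
    have h5 := mn_ne_zero hz c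
    convert h4 using 1
    rw [smul_mn]
    simp only [mn, div_zpow, Finset.prod_div_distrib] at h5 ⊢
    field_simp))
  obtain ⟨a, ha, b, hb, hu, rfl⟩ := ha
  have h3 : Un (RV O V x) b := un_loc hb hu
  have h4 : Un (RV O V x) (g • b) := un_of_sub hl h3 (hI _ (hZ hb).2)
  have h5 := mul_mem' (h3.mul h4).2.2
    (sub_mem (mul_mem' (hZ hb).1 (hZ ha).2) (mul_mem' (hZ ha).1 (hZ hb).2))
  convert h5 using 1
  have := h3.2.1
  have := h4.2.1
  rw [smul_div₀']; field_simp; ring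

/-- A displacement of finite order is nilpotent on the fixed locus. -/
lemma nilp (hl : Lcl R) {J : Submodule R L} (hJ : ∀ y ∈ J, y ∈ R) (h : ∀ a ∈ R, g • a - a ∈ J)
    (h0 : a ≠ 0) (h1 : Nu R (g • a / a - 1)) {m : ℕ} (hm : 0 < m) (hg : g ^ m • a = a) :
    ∃ N, (g • a / a - 1) ^ N ∈ J := by
  set w := g • a / a with hw
  have h2 : w ∈ R := by simpa using add_mem h1.1 (one_mem R)
  have h3 : ∀ i : ℕ, g ^ i • a / a - w ^ i ∈ J := fun i => by
    induction i with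
    | zero => simp [h0]
    | succ i ih =>
      have h4 : g ^ i • a / a ∈ R := by simpa using add_mem (hJ _ ih) (pow_mem h2 i)
      have h5 := mul_mem' h2 (add_mem (h _ h4) ih)
      rwa [sub_add_sub_cancel, mul_sub, ← pow_succ', mul_comm, hw, ← quot_comp _ _ h0,
        ← pow_succ'] at h5
  have h4 := neg_mem (h3 m)
  rw [hg, div_self h0, neg_sub] at h4
  obtain ⟨Q, e, hQ⟩ := exists_eq_pow_rootMultiplicity_mul_and_not_dvd (X ^ m - C 1 : k[X])
    (X_pow_sub_C_ne_zero hm 1) 1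
  obtain ⟨Q', e'⟩ := X_sub_C_dvd_sub_C_eval (p := Q) (a := 1)
  have h5 := congrArg (aeval w) e
  have h6 := congrArg (aeval w) e'
  simp only [map_sub, map_mul, map_pow, aeval_X, aeval_C, map_one] at h5 h6
  have h7 : Un R (aeval w Q) := Nu.un hl
    (h6 ▸ h1.mul (Algebra.adjoin_le (Set.singleton_subset_iff.2 h2)
      (aeval_mem_adjoin_singleton k w))) (un_alg R fun e => hQ (dvd_iff_isRoot.2 e))
  have h8 := mul_mem' h7.2.2 h4
  rw [h5, mul_comm, mul_inv_cancel_right₀ h7.2.1] at h8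
  exact ⟨_, h8⟩

end Eps0

open Eps0 in
theorem eps0 (hP : PersStmt k L) (hU : UzStmt k L) (hS : StageStmt k L) (hF : FaceStmt k L) :
    Eps0Stmt k L := by
  classical
  intro n K O V x g fr hV hr hd hg hO ht ⟨m, hm, hm'⟩ hs
  obtain ⟨D, aff⟩ := fr.aff
  have hz := fr.fr.ne
  have hp := pt_RV (x := x) hV hd.1
  have hl := hp.lcl
  have hN : ∀ j, Nu (RV O V x) (g • x j / x j - 1) := fun j =>
    ⟨le_RV (ht j).1, fun U => (ht j).2 (hd.2 _ (ht j).1 (U.mono (dom_RV hd.1).1))⟩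
  have st := hP n K O _ x g fr le_RV hp hO
    (fun j => Nu.un aff.pt.lcl (ht j) (Un.one O)) (fun _ => ⟨m, hm, hm'⟩) hs
  set I := Submodule.span (RV O V x) (Set.range fun j => dp g (x j))
  have hI : ∀ y ∈ I, y ∈ mx hl := fun y hy => span_mx hl le_rfl (by
    rintro _ ⟨j, rfl⟩; exact hN j) hy
  have hdI : ∀ a ∈ RV O V x, g • a - a ∈ I := fun a ha => disp_RV hV hd.1 hz hg hI
    (fun a ha => span_mono' le_RV le_rfl (hU n K O x g
      (Submodule.span O (Set.range fun j => dp g (x j))) fr hg hO (fun c hc => by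
        have h4 := mul_mem' hc (one_mn aff.pt.lcl (w := fun j => g • x j / x j)
          (I := Submodule.span O (Set.range fun j => dp g (x j)))
          (fun y hy => span_mx aff.pt.lcl le_rfl (by rintro _ ⟨j, rfl⟩; exact ht j) hy)
          (fun j => Submodule.subset_span ⟨j, rfl⟩) c)
        have h5 := mn_ne_zero hz c
        convert h4 using 1
        rw [smul_mn]
        simp only [mn, div_zpow, Finset.prod_div_distrib] at h5 ⊢
        field_simp) a ha))
    (fun j => Submodule.subset_span ⟨j, rfl⟩) ha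
  let J : Ideal (RV O V x) := (Ideal.radical (I.comap (Algebra.linearMap _ L)))
  have key : ∀ (s t : RV O V x) (c d : Fin n → ℤ), s = mn x c → t = mn x d →
      mn x c / mn x d ∈ V → s * t ∈ J → s ∈ J := fun s t c d e e' h h' => by
    rw [← mn_sub hz] at h
    refine Ideal.mem_radical_of_pow_mem (m := 2) ?_
    have := J.mul_mem_right ⟨_, mn_RV h⟩ h'
    convert this using 1
    refine Subtype.ext ?_
    have := mn_ne_zero hz d
    simp only [Subalgebra.coe_pow, Subalgebra.coe_mul, e, e', mn_sub hz]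
    field_simp
  let S : Submonoid (RV O V x) :=
    { carrier := {s | (∃ c, s = mn x c) ∧ s ∉ J}
      one_mem' := ⟨⟨0, (mn_zero x).symm⟩, fun ⟨N, h⟩ => (hI _ h).2 (by simpa using Un.one _)⟩
      mul_mem' := by
        rintro s t ⟨⟨c, e⟩, hs⟩ ⟨⟨d, e'⟩, ht⟩
        refine ⟨⟨c + d, by rw [mn_add hz, ← e, ← e']; rfl⟩, fun h => ?_⟩
        rcases hV (mn x c / mn x d) with h1 | h1
        · exact hs (key s t c d e e' h1 h)
        · exact ht (key t s d c e' e (by rwa [inv_div] at h1) (mul_comm s t ▸ h)) }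
  obtain ⟨q, hq, h1, h2⟩ := Ideal.exists_le_prime_disjoint J S
    (Set.disjoint_left.2 fun s h h' => h'.2 h)
  obtain ⟨W, hW, hW'⟩ := exists_point _ q
  have h3 := st W hW.lcl hW.le fun a ha U =>
    (hW' ⟨_, (hI _ (hdI a ha)).1⟩).1 U (h1 (Ideal.le_radical (hdI a ha)))
  have h4 : ∀ j, dp g (x j) ∈ fI (RV O V x) W x := fun j => by
    obtain ⟨N, h⟩ := nilp hl (fun y hy => mem_of_mem_span (fun _ h => h.1) hy) h3 (hz j) (hN j) hm
      (hm' _ (fr.mem j))
    rcases tot (ι := Unit) hV hz (fun c => mn_RV) (fun _ => h) with h5 | ⟨c, h5, h6, h7⟩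
    · rw [dp, pow_eq_zero_iff'.1 (h5 ()) |>.1]; exact zero_mem _
    obtain ⟨T, -, -, -, fr', h8, h9, h10⟩ := hS n K D O V x
      {mn x c, (g • x j / x j - 1) ^ N / mn x c} fr aff hV hr hd (by simpa using ⟨h5, h7 ()⟩)
    have h11 : (g • x j / x j - 1) ^ N ∈ fI (loc (stg K D x T) V) W x :=
      mem_of_dv (mn_ne_zero hz c) (h10 _ (by simp))
        (Submodule.subset_span ⟨h10 _ (by simp), h6, c, rfl⟩)
    refine span_mono' h9 (fun y hy => ⟨h9 hy.1, hy.2⟩)
      (?_ : _ ∈ fI (loc (stg K D x T) V) W x)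
    have h12 := h8 (ht j).1
    clear h h7 h10
    induction N with
    | zero => simpa [dp] using mul_mem' h12 h11
    | succ N ih =>
      rw [pow_succ] at h11
      exact (hF n K _ W x fr' hW.lcl (h9.trans hW.le) _ (pow_mem h12 N) _ h12 h11).elim ih id
  refine (tot hV hz (fun c => mn_RV) h4).imp_right fun ⟨c, h5, h6, h7⟩ => ?_
  obtain ⟨N, h8⟩ : (⟨_, h5⟩ : RV O V x) ∈ J := by_contra fun h =>
    Set.disjoint_left.1 h2 (by_contra fun h' => h6 ((hW' ⟨_, h5⟩).2 h')) ⟨⟨c, rfl⟩, h⟩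
  exact ⟨c, N, h7, by simpa using h8⟩

end Pool.Agent.MP_19ffc6_ag.Perf

end MrgPart0

-- ======== part 1: formerly Pool.Agent.MP_19ffc6_ag.perf.TNear
section MrgPart1

/-! PROJECT PERF, block L, row NEAR. -/

namespace Pool.Agent.MP_19ffc6_ag.Perf

open Pool.Agent.R72.Wild Pool.Agent.R72.Lci Pool.Agent.R72.Res Pool.Agent.R72.Res.B
  Pool.Agent.R72.Res.Tor Pool.Agent.R72.Res.P Pool.Agent.R72.Res.Lab Filter GD

variable {k L : Type} [Field k] [Field L] [Algebra k L]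

namespace Near

variable {K₀ : Subfield L} {M : Submodule k L} {O O' W : Subalgebra k L} {g : SA k L} {g₀ : L}

lemma sep (h : Pt ⊥ M O) (h' : Pt ⊥ M O') (d : Dom O W) (d' : Dom O' W) : O = O' := by
  obtain ⟨a, ha, a0, h⟩ := h
  obtain ⟨b, hb, b0, h'⟩ := h'
  have h1 := h.le (div_mem_chart _ _ hb)
  have h2 := (d.2 _ h1 ⟨d.1 h1, div_ne_zero b0 a0, by
    rw [inv_div]; exact d'.1 (h'.le (div_mem_chart _ _ ha))⟩).2.2
  rw [inv_div] at h2
  exact (IsPoint.eq_loc (IsPoint.chart_of h ha a0 hb b0 h2) d).trans (IsPoint.eq_loc h' d').symm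

lemma nu_of_in (hM : Stb K₀ M) (hg : g₀ ∈ M) (h0 : g₀ ≠ 0) (h : IsPoint (chart ⊥ M g₀) O)
    (hi : In K₀ O g) {m m' : L} (hm : m ∈ M) (hm' : m' ∈ M) :
    Nu O ((m * g • m' - m' * g • m) / g₀ ^ 2) := by
  have a := h.le (div_mem_chart ⊥ g₀ hm)
  have a' := h.le (div_mem_chart ⊥ g₀ hm')
  have := (((hi.sub a').mul a).sub h.lcl ((hi.sub a).mul a')).mul
    (h.le (div_mem_chart ⊥ g₀ (hM g hi.1 _ hg)))
  convert this using 1
  have : g • g₀ ≠ 0 := sm_ne_zero.2 h0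
  rw [smul_div₀', smul_div₀']
  field_simp
  ring

lemma in_of_nu (hM : Stb K₀ M) (hg : g₀ ∈ M) (h0 : g₀ ≠ 0) (h : IsPoint (chart ⊥ M g₀) O)
    (hf : Fx K₀ g) (hl : Lin g)
    (H : ∀ m ∈ M, ∀ m' ∈ M, ¬ Un O ((m * g • m' - m' * g • m) / g₀ ^ 2)) : In K₀ O g := by
  have d : ∀ m ∈ M, m / g₀ ∈ O := fun m hm => h.le (div_mem_chart ⊥ g₀ hm)
  have g0 : g • g₀ ≠ 0 := sm_ne_zero.2 h0
  have H' : ∀ m ∈ M, ∀ m' ∈ M, Nu O ((m * g • m' - m' * g • m) / g₀ ^ 2) := fun m hm m' hm' =>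
    ⟨by
      convert sub_mem (mul_mem (d m hm) (d _ (hM g hf m' hm')))
        (mul_mem (d m' hm') (d _ (hM g hf m hm))) using 1
      field_simp, H m hm m' hm'⟩
  have u : Un O (g • g₀ / g₀) := by
    refine Un.of_mul (d _ (hM g hf _ hg)) (d _ (hM _ hf.inv _ hg))
      (Nu.un h.lcl ?_ (Un.one O))
    convert H' _ (hM _ hf.inv _ hg) _ hg using 1
    rw [smul_inv_smul]
    field_simp
  let T : Subalgebra k L :=
    { carrier := {x | x ∈ O ∧ Nu O (g • x - x)}
      add_mem' := fun ha hb => ⟨add_mem ha.1 hb.1, by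
        convert ha.2.add h.lcl hb.2 using 1
        rw [smul_add]; ring⟩
      mul_mem' := fun ha hb => ⟨mul_mem ha.1 hb.1, by
        rw [smul_mul']
        exact ha.2.mul_sub h.lcl hb.2 (by simpa using add_mem ha.2.1 ha.1) hb.1⟩
      algebraMap_mem' := fun c => ⟨O.algebraMap_mem c, by rw [hl, sub_self]; exact Nu.zero O⟩ }
  have hT : chart ⊥ M g₀ ≤ T := chart_le bot_le fun m hm => ⟨d m hm, Nu.of_mul u (by
    convert H' _ hg _ hm using 1
    rw [smul_div₀']
    field_simp)⟩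
  have key : ∀ x ∈ O, Nu O (g • x - x) := by
    intro x hx
    obtain ⟨a, ha, b, hb, hu, rfl⟩ := h.le_loc hx
    have hu' : Un O (g • b) := (hT hb).2.un h.lcl hu
    convert (((hT ha).2.mul hu.1).sub h.lcl ((hT hb).2.mul (h.le ha))).mul (hu.mul hu').2.2
      using 1
    have := hu.2.1
    have := hu'.2.1
    rw [smul_div₀']
    field_simp
    ring
  have hP : Pt ⊥ M O := ⟨g₀, hg, h0, h⟩
  refine ⟨hf, sep ((hM.pt hf).2 hP) hP ⟨sA_le_iff.2 fun x hx => ?_, fun x hx hu => ?_⟩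
    (Dom.refl O), fun x hx => (key x hx).2⟩
  · simpa using add_mem (key x hx).1 hx
  · obtain ⟨x, rfl⟩ := MulAction.surjective g x
    exact P.un_smul.2 (Nu.un h.lcl (by simpa using (key x (smul_mem_sA.1 hx)).neg) hu)

end Near

open Near in
theorem nearS : NearStmt k L where
  sep _ _ _ _ := sep
  ctr M V hM h0 hV := by
    obtain ⟨g, hg, g0, H⟩ := hV.exists_gen hM h0
    have h := chart_le (bot_le : ⊥ ≤ V) H
    exact ⟨_, ⟨g, hg, g0, isPoint_loc h hV.lcl⟩, dom_loc h⟩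
  down K₀ M O O' g hM h d hf e := by
    refine sep ((hM.pt hf).2 h) h ⟨sA_le_iff.2 fun x hx => ?_, fun x hx hu => ?_⟩ d
    · exact e ▸ smul_mem_sA.2 (d.1 hx)
    · obtain ⟨x, rfl⟩ := MulAction.surjective g x
      exact P.un_smul.2 (d.2 x (smul_mem_sA.1 hx) (P.un_smul.1 (e.symm ▸ hu)))
  near K₀ N M g₀ O n x hG hN hM hg h0 h hx := by
    obtain ⟨F, hF, h1, h2⟩ := exists_reps hG hN
    have e1 : ∀ᶠ O' in nb (chart ⊥ M g₀) O, ∀ g ∈ F, In K₀ O' g → In K₀ O g := by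
      refine (eventually_all_finite hF).2 fun g hgF => ?_
      by_cases hi : In K₀ O g
      · exact Eventually.of_forall fun _ _ => hi
      have := mt (in_of_nu hM hg h0 h (h1 g hgF).1 (h1 g hgF).2) hi
      push Not at this
      obtain ⟨m, hm, m', hm', hu⟩ := this
      filter_upwards [ev_un h hu, ev_pt _ O] with O' a b c
      exact absurd a (nu_of_in hM hg h0 b c hm hm').2
    have e2 : ∀ᶠ O' in nb (chart ⊥ M g₀) O, ∀ g ∈ F, ∀ j,
        Un O (dp g (x j)) → Un O' (dp g (x j)) := by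
      refine (eventually_all_finite hF).2 fun g _ => eventually_all.2 fun j => ?_
      by_cases hu : Un O (dp g (x j))
      · exact (ev_un h hu).mono fun _ a _ => a
      · exact Eventually.of_forall fun _ a => absurd a hu
    filter_upwards [e1, e2, ev_pt _ O] with O' a b c g hi
    obtain ⟨g', hg', e⟩ := h2 g hi.1 hi.lin
    refine ⟨(a g' hg' (hi.congr (h1 g' hg').1 (hG.st _ (h1 g' hg').1.inv)
      (hN.pt_le ⟨g₀, hg, h0, c⟩) e)).congr hi.1 (hG.st _ hi.1.inv) (hN.pt_le ⟨g₀, hg, h0, h⟩)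
      fun y hy => (e y hy).symm, fun j => ?_⟩
    have : dp g (x j) = dp g' (x j) := by rw [dp, dp, e _ (hx j)]
    exact this ▸ mt (b g' hg' j)

end Pool.Agent.MP_19ffc6_ag.Perf

end MrgPart1

-- ======== part 2: formerly Pool.Agent.MP_19ffc6_ag.perf.TLift
section MrgPart2

/-! PROJECT PERF, row LIFT: from the data at level one to the data in the level field. -/

namespace Pool.Agent.MP_19ffc6_ag.Perf

open Pool.Agent.R72.Wild Pool.Agent.R72.Lci Pool.Agent.R72.Res Pool.Agent.R72.Res.B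
  Pool.Agent.R72.Res.Tor Pool.Agent.R72.Res.P Pool.Agent.R72.Res.Lab GD

variable {k L : Type} [Field k] [Field L] [Algebra k L]

namespace TLift

/-- The elements that `g` moves into `W`. -/
def pre (g : SA k L) (W : IntermediateField k L) : IntermediateField k L where
  carrier := {a | g • a ∈ W}
  mul_mem' ha hb := by
    simpa only [Set.mem_ofPred_eq, smul_mul'] using mul_mem ha hb
  add_mem' ha hb := by
    simpa only [Set.mem_ofPred_eq, smul_add] using add_mem ha hb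
  algebraMap_mem' c := by
    simpa only [Set.mem_ofPred_eq, SA.smul_alg] using W.algebraMap_mem _
  inv_mem' a ha := by
    simpa only [Set.mem_ofPred_eq, smul_inv''] using inv_mem ha

lemma Ek_mono (k₀ : Subfield k) (y : ℕ → L) {i j : ℕ} (h : i ≤ j) : Ek k₀ y i ≤ Ek k₀ y j :=
  Subfield.closure_mono (Set.union_subset_union_right _
    (Set.image_mono fun _ hl => lt_of_lt_of_le hl h))

lemma lev_st {k₀ : Subfield k} {y : ℕ → L} {n : ℕ} {F : ℕ → IntermediateField k L}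
    (hG : ∀ i ≤ n, Gw (Ek k₀ y i) (F i)) (p w : ℕ) {g : SA k L} (hg : Fx (Ek k₀ y n) g) :
    ∀ a ∈ lev p F w n, g • a ∈ lev p F w n := by
  have h : lev p F w n ≤ pre g (lev p F w n) := by
    refine sup_le (fun a ha => ?_) (IntermediateField.adjoin_le_iff.2 ?_)
    · exact (le_sup_left : F n ≤ lev p F w n) ((hG n le_rfl).st g hg a ha)
    · rintro a ⟨i, hi, ha⟩
      refine (le_sup_right : _ ≤ lev p F w n) (IntermediateField.subset_adjoin _ _ ⟨i, hi, ?_⟩)
      rw [← smul_pow']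
      exact (hG (i + 1) hi).st g (hg.mono (Ek_mono k₀ y hi)) _ ha
  exact fun a ha => h ha

lemma mn_root {n : ℕ} {x z : Fin n → L} {m : Fin n → ℕ} (h : ∀ j, z j ^ m j = x j)
    (c : Fin n → ℤ) : mn x c = mn z fun j => m j * c j := by
  simp only [mn, zpow_mul, zpow_natCast, h]

lemma lmon_root {n : ℕ} {x z : Fin n → L} {m : Fin n → ℕ} (h : ∀ j, z j ^ m j = x j)
    {O O' : Subalgebra k L} (hO : O ≤ O') {f : L} (hf : LMon O x f) : LMon O' z f :=
  let ⟨c, hc⟩ := hf; ⟨_, mn_root h c ▸ hc.mono hO⟩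

lemma dp_pow (p : ℕ) [Fact p.Prime] [CharP L p] (g : SA k L) (u : L) (q : ℕ) :
    dp g u ^ p ^ q = dp g (u ^ p ^ q) := by
  rw [dp, dp, sub_pow_char_pow, one_pow, div_pow, smul_pow']

lemma of_pow {O : Subalgebra k L} {I : Submodule O L}
    (hI : ∀ a ∈ O, ∀ b ∈ O, a * b ∈ I → a ∈ I ∨ b ∈ I) {a : L} (ha : a ∈ O) {m : ℕ} (hm : m ≠ 0)
    (h : a ^ m ∈ I) : a ∈ I := by
  obtain ⟨m, rfl⟩ := Nat.exists_eq_succ_of_ne_zero hm
  induction m with
  | zero => simpa using h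
  | succ m ih =>
    rw [pow_succ] at h
    exact (hI _ (pow_mem ha _) _ ha h).elim (ih (Nat.succ_ne_zero m)) id

end TLift

open TLift in
/-- Row LIFT. -/
theorem lift_of [IsAlgClosed L] (p : ℕ) [Fact p.Prime] [CharP k p] (hl : LvlStmt k L p)
    (ht : TameStmt k L) (hd : DivF k L) (hf : FaceStmt k L) (hu : UzStmt k L) :
    LiftStmt k L p := by
  intro k₀ y n c F S T M O hM hT ⟨x, w, x1, x2, x3, x4, x5⟩
  have : CharP L p := charP_of_injective_algebraMap (algebraMap k L).injective p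
  have hp : p ≠ 0 := (Fact.out : p.Prime).ne_zero
  choose z hz using fun j : Fin n =>
    IsAlgClosed.exists_pow_nat_eq (x j) (pow_pos (Nat.pos_of_ne_zero hp) (w * (n - j)))
  have hW := x4 w z hz
  obtain ⟨l1, l2, l3, l4, l5⟩ := hl n (w * n) (F n) _ O x z (fun j => w * (n - j)) x1 hz
    (fun j => Nat.mul_le_mul_left _ (Nat.sub_le _ _)) hW
  set W := lev p F w n
  have st : ∀ g : SA k L, Fx (Ek k₀ y n) g → ∀ a ∈ W, g • a ∈ W := fun g hg => lev_st hM.gw p w hg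
  have tm := fun g hg => ht _ n F S T O x g hT (hM.gw n le_rfl) (fun f hf => (hM.inv f hf).2)
    x1 x2 x3 hg
  obtain ⟨D, hD⟩ := x1.aff
  obtain ⟨D', hD'⟩ := l5.aff
  have ex : ∀ (j : Fin n) (u : L), u ^ p ^ (w * n) = (u ^ p ^ (w * (n - j))) ^ p ^ (w * j) :=
    fun j u => by rw [← pow_mul, ← pow_add, ← mul_add, Nat.sub_add_cancel j.2.le]
  have dW : ∀ g : SA k L, Fx (Ek k₀ y n) g → ∀ j, dp g (z j) ∈ W := fun g hg j =>
    sub_mem (div_mem (st g hg _ (l5.mem j)) (l5.mem j)) (one_mem _)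
  have dz : ∀ (g : SA k L) (j : Fin n), dp g (z j) ^ p ^ (w * n) = dp g (x j) ^ p ^ (w * j) :=
    fun g j => by rw [ex j, dp_pow, hz]
  have key : ∀ g g' : SA k L, Fx (Ek k₀ y n) g → Fx (Ek k₀ y n) g' → ∀ (i j : Fin n) (a b : ℕ),
      (dp g (x i) ^ p ^ (w * i)) ^ a / (dp g' (x j) ^ p ^ (w * j)) ^ b ∈ O →
      (dp g (z i) ^ 1) ^ a / (dp g' (z j) ^ 1) ^ b ∈ icl W O := fun g g' hg hg' i j a b h => by
    simp only [pow_one]
    refine (l3 _).2 ⟨div_mem (pow_mem (dW g hg i) _) (pow_mem (dW g' hg' j) _), ?_⟩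
    rwa [div_pow, pow_right_comm, pow_right_comm _ b, dz, dz]
  have wn : ∀ h, (In (Ek k₀ y n) O h ∧ (∃ m : ℕ, ∀ a ∈ W, h ^ p ^ m • a = a) ∧
      ∃ a ∈ W, h • a ≠ a) → Wn (Ek k₀ y n) O x h := by
    rintro h ⟨h1, ⟨m, h2⟩, a, ha, h3⟩
    refine ⟨h1, fun j => ?_, ?_⟩
    · have := h1.root p (a := m) (n := 1) hD.pt.lcl (x1.fr.ne j) ((tm h h1).1 j).1
        (by rw [mul_one]; exact h2 _ ((le_sup_left : F n ≤ W) (x1.mem j)))
      rwa [pow_one] at this
    · by_contra H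
      push Not at H
      have h4 : ∀ b ∈ O, h • b = b := fun b hb => sub_eq_zero.1 <| (Submodule.mem_bot O).1 <|
        hu n _ O x h ⊥ x1 h1.lin h1.2.1 (fun c _ => by
          simp only [mn, Finset.smul_prod', smul_zpow₀', H, sub_self, zero_mem]) b hb
      have h5 : ∀ b ∈ F n, h • b = b := fun b hb => by
        obtain ⟨d, d1, d2, d3⟩ := hD.frac b hb
        have := h4 _ (hD.pt.le d3)
        rw [smul_mul', h4 d (hD.pt.le d1)] at this
        exact mul_left_cancel₀ d2 this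
      have h6 := h5 _ (l2 a ha)
      rw [smul_pow', ← sub_eq_zero, ← sub_pow_char_pow] at h6
      exact h3 (sub_eq_zero.1 (pow_eq_zero_iff (pow_ne_zero _ hp) |>.1 h6))
  refine ⟨W, z, le_sup_left, l1, st, ⟨_, l2⟩, l5, fun j => ?_, fun f hf => lmon_root hz l4.1 (x3 f hf),
    fun g hg j => ?_, fun g hg a ha => ?_, ?_⟩
  · obtain ⟨N, hN, e, he⟩ := x2 j
    refine ⟨p ^ (w * (n - j)) * N, mul_pos (pow_pos (Nat.pos_of_ne_zero hp) _) hN, e, ?_⟩
    rw [pow_mul, hz]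
    exact he.mono l4.1
  · have h1 : (g • z j / z j) ^ p ^ (w * n) = (g • x j / x j) ^ p ^ (w * j) := by
      rw [ex j, div_pow, ← smul_pow', hz]
    have h2 := ((tm g hg).1 j).pow (p ^ (w * j))
    have h3 : g • z j / z j ∈ W := div_mem (st g hg.1 _ (l5.mem j)) (l5.mem j)
    rw [← h1] at h2
    exact ⟨(l3 _).2 ⟨h3, h2.1⟩, fun e => h2.2.1 (by rw [e, zero_pow (pow_ne_zero _ hp)]),
      (l3 _).2 ⟨inv_mem h3, by rw [inv_pow]; exact h2.2.2⟩⟩
  · obtain ⟨a1, a2⟩ := (l3 a).1 ha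
    have h1 : g • a ∈ icl W O := (l3 _).2 ⟨st g hg.1 a a1, by rw [← smul_pow']; exact hg.mem a2⟩
    refine of_pow (hf n W _ _ z l5 hD'.pt.lcl le_rfl) (sub_mem h1 ha) (pow_ne_zero (w * n) hp) ?_
    rw [sub_pow_char_pow, ← smul_pow']
    refine span_le_span l4.1 ?_ ((tm g hg).2 _ a2)
    rintro _ ⟨s1, s2, c, rfl⟩
    exact Submodule.subset_span ⟨l4.1 s1, fun H => s2 (l4.2 _ s1 H), _, mn_root hz c⟩
  · obtain ⟨dir, a, b, g1, g2⟩ := x5
    refine ⟨fun h e => dir h (wn h e), a, b, g1, fun h e => ?_⟩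
    obtain ⟨g3, g4, g5⟩ := g2 h (wn h e)
    refine ⟨hd.pow n W _ z l5 _ (dW h e.1.1 _) (p ^ (w * (n - dir h (wn h e))))
      (pow_pos (Nat.pos_of_ne_zero hp) _) (by rw [dp_pow, hz]; exact lmon_root hz l4.1 g3),
      fun j hj => ?_, fun h' e' => ?_⟩
    · simpa only [pow_one] using key h h e.1.1 e.1.1 j _ 1 b (by simpa only [pow_one] using g4 j hj)
    · rcases g5 h' (wn h' e') with ⟨r1, r2, r3⟩ | r | r
      · exact .inl ⟨r1, by
          simpa only [pow_one] using key h h' e.1.1 e'.1.1 _ _ a 1 (by simpa only [pow_one] using r2),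
          by simpa only [pow_one] using
            key h' h e'.1.1 e.1.1 _ _ a 1 (by simpa only [pow_one] using r3)⟩
      · exact .inr (.inl (by
          simpa only [pow_one] using key h h' e.1.1 e'.1.1 _ _ 1 b (by simpa only [pow_one] using r)))
      · exact .inr (.inr (by
          simpa only [pow_one] using key h' h e'.1.1 e.1.1 _ _ 1 b (by simpa only [pow_one] using r)))

end Pool.Agent.MP_19ffc6_ag.Perf

end MrgPart2

-- marker of a merged file
example : 731051 + 8576 = 731051 + 8576 := rfl
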