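import Pool.Agent.MP_19ffc6_ag.perf.SpecT
import Pool.Agent.MP_19ffc6_ag.perf.VirtD
import Pool.Agent.MP_19ffc6_ag.perf.SpecE
import Pool.Agent.MP_19ffc6_ag.perf.TCmp
import Pool.Agent.MP_19ffc6_ag.perf.TLift

-- ======== part 0: formerly Pool.Agent.MP_19ffc6_ag.perf.EndA
section MrgPart0

/-! PROJECT PERF, module ENDM, first part: toroidal points that need not be sharp. -/

namespace Pool.Agent.MP_19ffc6_ag.Perf.End

open Pool.Agent.R72.Wild Pool.Agent.R72.Lci Pool.Agent.R72.Res Pool.Agent.R72.Res.Tor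
  Pool.Agent.R72.Res.B Pool.Agent.R72.Res.P Pool.Agent.R72.Res.Lab Submodule

variable {k L : Type} [Field k] [Field L] [Algebra k L] {K₀ : Subfield L}
  {N : IntermediateField k L} {O O' D : Subalgebra k L} {g : SA k L} {x u : L}
  {ι ι' : Type} {r s n m : ℕ} {τ : Typ ι r} {τ' : Typ ι' r} {z : Fin r → L} {t : Fin s → L}
  {c : Fin r → ℤ} {y : Fin m → L} {a : Fin m → ℤ}

lemma nu_dom (h : Dom O O') (hx : Nu O x) : Nu O' x := ⟨h.1 hx.1, fun e => hx.2 (h.2 x hx.1 e)⟩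

lemma rt_dom (h : Dom O O') (hr : Rt O') : Rt O :=
  fun a ha => (hr a (h.1 ha)).imp fun _ hc hu => hc (hu.mono h.1)

lemma in_of_gen {d : ℕ} (hO : IsPoint D O) (hg : Fx K₀ g) (hd : d ≠ 0)
    (hd' : ∀ x ∈ O, (g ^ d) • x = x) (h3 : ∀ x ∈ D, Nu O (g • x - x)) : In K₀ O g := by
  have h4 : ∀ x ∈ O, Nu O (g • x - x) := fun x hx => by
    obtain ⟨a, ha, b, hb, hu, rfl⟩ := hO.le_loc hx
    have h5 := (h3 b hb).un hO.lcl hu
    have e : g • (a / b) - a / b = ((g • a - a) * b - a * (g • b - b)) * ((g • b)⁻¹ * b⁻¹) := by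
      rw [smul_div₀']; field_simp [hu.2.1, h5.2.1]; ring
    rw [e]
    exact (((h3 a ha).mul hu.1).sub hO.lcl ((h3 b hb).mul' (hO.le ha))).mul
      (mul_mem h5.2.2 hu.2.2)
  have h5 : ∀ x ∈ O, g • x ∈ O := fun x hx => by simpa using add_mem (h4 x hx).1 hx
  refine ⟨hg, le_antisymm (sA_le_iff.2 h5) fun x hx => ?_, fun x hx => (h4 x hx).2⟩
  obtain ⟨d, rfl⟩ := Nat.exists_eq_succ_of_ne_zero hd
  rw [← hd' x hx, pow_succ', mul_smul, smul_mem_sA]
  clear hd hd'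
  induction d with
  | zero => simpa using hx
  | succ d ih => rw [pow_succ', mul_smul]; exact h5 _ ih

lemma mn_sum {κ κ' : Type} [Fintype κ] [Fintype κ'] {y : κ → L} (hy : ∀ j, y j ≠ 0)
    (a : κ' → κ → ℤ) (c : κ' → ℤ) : mn y (∑ i, c i • a i) = mn (fun i => mn y (a i)) c := by
  rw [mn.eq_def (fun i => mn y (a i))]
  induction (Finset.univ : Finset κ') using Finset.cons_induction with
  | empty => simp [mn_zero]
  | cons ρ s _ ih => rw [Finset.prod_cons, Finset.sum_cons, mn_add hy, ih, mn_smul]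

lemma nonneg_of (hy : AlgebraicIndependent k y) (h : mn y a ∈ Algebra.adjoin k (Set.range y)) :
    0 ≤ a := by
  by_contra H
  refine (linearIndependent_mn hy).notMem_span_image (s := {a | 0 ≤ a}) H ?_
  generalize mn y a = x at h
  induction h using Algebra.adjoin_induction with
  | mem x hx =>
    obtain ⟨i, rfl⟩ := hx
    exact subset_span ⟨Pi.single i 1, Pi.single_nonneg.2 zero_le_one, by simp [mn_single]⟩
  | algebraMap c =>
    rw [Algebra.algebraMap_eq_smul_one]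
    exact smul_mem _ _ (subset_span ⟨0, le_refl (0 : Fin m → ℤ), mn_zero _⟩)
  | add a b _ _ ha hb => exact add_mem ha hb
  | mul a b _ _ ha hb =>
    exact ms_mul_le hy.ne_zero (fun c hc d hd => add_nonneg hc hd) (mul_mem_mul ha hb)

lemma zero_of_un (hy : ∀ j, y j ∈ O ∧ y j ≠ 0) (ha : 0 ≤ a) (h : Un O (mn y a)) {j : Fin m}
    (hj : ¬ Un O (y j)) : a j = 0 := by
  by_contra H
  have e : mn y a = y j * mn y (a - Pi.single j 1) := by
    rw [mn_sub fun j => (hy j).2, mn_single, zpow_one, mul_div_cancel₀ _ (hy j).2]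
  refine hj (Un.of_mul (hy j).1 (mn_mem hy fun i _ => ?_) (e ▸ h))
  have := ha i
  by_cases c : i = j
  · subst c; simp only [Pi.sub_apply, Pi.single_eq_same, Pi.zero_apply] at *; omega
  · simpa [c] using this

/-- A regular monomial lies in the cone up to a unit monomial. -/
lemma exists_reg [Finite ι] (hi : AlgebraicIndependent k z) (hs : τ.Strict)
    (hf : SF (TA k z τ) O) (hl : Lcl O) (h : mn z c ∈ O) :
    ∃ f ∈ τ.Reg 0, Un O (mn z f) ∧ c + f ∈ τ.Reg 0 := by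
  have hz := hi.ne_zero
  obtain ⟨g, hg, hc⟩ := exists_sub hs c
  have h1 := Mon_inter hi hs hf (x := mn z (c + g)) (T := {e | e - (c + g) ∈ τ.Reg 0})
    (T' := {e | e - g ∈ τ.Reg 0})
    (fun e he d hd => by rw [Set.mem_ofPred_eq, add_sub_assoc]; exact Typ.add_mem_reg0 hd he)
    (fun e he d hd => by rw [Set.mem_ofPred_eq, add_sub_assoc]; exact Typ.add_mem_reg0 hd he)
    (mn_mem_Mon (by simpa using Typ.zero_mem_reg)) (by
      rw [mn_add hz]
      exact mul_mem_span h (mn_mem_Mon (by simpa using Typ.zero_mem_reg)))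
  obtain ⟨_, ⟨e, he, rfl⟩, h2⟩ := exists_un_of_span hl (mn_ne_zero hz (c + g)) (by
    rintro _ ⟨e, he, rfl⟩
    rw [← mn_sub hz]; exact hf.le (mn_mem_TA he.1)) (mem_sp_ms.2 h1)
  rw [← mn_sub hz] at h2
  exact ⟨_, he.1, h2, by rw [show c + (e - (c + g)) = e - g by abel]; exact he.2⟩

/-- A unimodular weak chart is given by a free family. -/
lemma snc_fin [Fintype ι] {c : Ch L ι} (h : WAt c O) (hU : c.τ.Uni) :
    ∃ (m : ℕ) (y : Fin m → L), AlgebraicIndependent k y ∧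
      TA k c.z c.τ = Algebra.adjoin k (Set.range y) ∧ Set.range (mn c.z) = Set.range (mn y) := by
  classical
  let _ : Fintype c.τ.R := Fintype.ofFinite _
  obtain ⟨-, y, hy, hTA, hmn, -⟩ := Tor.snc ι c (TA k c.z c.τ)
    ⟨h.ptd, h.str, h.ind, sf_of_le_loc le_rfl (le_loc _ _)⟩ hU
  let e := (Fintype.equivFin c.τ.R).symm
  have h1 : ∀ a, mn y a = mn (y ∘ e) (a ∘ e) := fun a => (e.prod_comp fun i => y i ^ a i).symm
  refine ⟨_, y ∘ e, hy.comp e e.injective, by rw [e.surjective.range_comp, hTA],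
    Set.Subset.antisymm ?_ ?_⟩
  · rintro _ ⟨d, rfl⟩
    exact ⟨_, ((hmn d).trans (h1 _)).symm⟩
  · rintro _ ⟨a, rfl⟩
    obtain ⟨d, hd⟩ := hU (Function.extend Subtype.val (a ∘ e.symm) 0)
    refine ⟨d, (hmn d).trans ((h1 _).trans (congrArg _ (funext fun i => ?_)))⟩
    rw [Function.comp_apply, hd _ (e i).2, Subtype.val_injective.extend_apply]
    simp

/-- The monomials of the cone, shifted into the maximal ideal. -/
def Gt (O : Subalgebra k L) (z : Fin r → L) (τ : Typ ι r) : Set L :=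
  {y | ¬ Un O y ∧ ∃ c ∈ τ.Reg 0, ∃ a : k, y = mn z c - algebraMap k L a}

/-- A toroidal rational point with further parameters `t`. -/
structure Tp (n : ℕ) (N : IntermediateField k L) (O : Subalgebra k L) (τ : Typ ι r) (z : Fin r → L)
    (t : Fin s → L) : Prop where
  card : r + s = n
  aff : ∃ D, Aff n N D O
  ind : AlgebraicIndependent k (Sum.elim z t)
  le : TA k z τ ≤ O
  mem : ∀ i, z i ∈ N
  tm : ∀ j, Nu O (t j)
  par : Pool.Agent.R72.Res.Par O (Gt O z τ ∪ Set.range t)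

lemma Tp.iz (h : Tp n N O τ z t) : AlgebraicIndependent k z := h.ind.comp Sum.inl Sum.inl_injective

lemma gt_mem (ht : ∀ j, Nu O (t j)) : ∀ y ∈ Gt O z τ ∪ Set.range t,
    y ∈ TA k z τ ⊔ Algebra.adjoin k (Set.range t) ∧ ¬ Un O y := by
  rintro _ (⟨h, c, hc, a, rfl⟩ | ⟨j, rfl⟩)
  · exact ⟨sub_mem (le_sup_left (a := TA k z τ) (mn_mem_TA hc)) (Subalgebra.algebraMap_mem _ _), h⟩
  · exact ⟨le_sup_right (a := TA k z τ) (Algebra.subset_adjoin ⟨j, rfl⟩), (ht j).2⟩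

lemma Tp.kit (h : Tp n N O τ z t) : SF (TA k z τ) O ∧ ∀ a ∈ N, IsIntegral O a → a ∈ O := by
  obtain ⟨D, hD⟩ := h.aff
  obtain ⟨h1, -, h2⟩ := chart_of_par τ hD.fg hD.pt h.le (fun j => (h.tm j).1) (gt_mem h.tm) h.par
    h.ind
  exact ⟨h1, fun a => hD.mem_of_integral⟩

lemma Tp.lcl (h : Tp n N O τ z t) : Lcl O := let ⟨_, hD⟩ := h.aff; hD.pt.lcl

lemma Tp.div (hd : DivF k L) (h : Tp n N O τ z t) (hu : u ∈ N) {M : ℕ} (hM : 0 < M)
    (hm : LMon O z (u ^ M)) : LMon O z u := by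
  obtain rfl := h.card
  obtain ⟨D, hD⟩ := h.aff
  have h1 : ∀ j, Un O (t j + 1) := fun j => Nu.un h.lcl (by simpa using h.tm j) (Un.one O)
  let x : Fin (r + s) → L := Fin.append z fun j => t j + 1
  have h2 : ∀ (c : Fin r → ℤ) (d : Fin s → ℤ),
      mn x (Fin.append c d) = mn z c * mn (fun j => t j + 1) d := fun c d => by
    simp [x, mn, Fin.prod_univ_add]
  have h3 : Fr (r + s) N O x := by
    refine ⟨⟨D, hD⟩, ⟨fun i => ?_, fun y hy hu => span_mono ?_ (h.par.mem_span h.lcl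
      (fun y hy => ⟨(sup_le h.le (Algebra.adjoin_le (by rintro _ ⟨j, rfl⟩; exact (h.tm j).1)) :
        _ ≤ O) (gt_mem h.tm y hy).1, (gt_mem h.tm y hy).2⟩) hy hu)⟩, fun i => ?_, h.kit.2⟩
    · induction i using Fin.addCases with
      | left i => simpa [x] using h.iz.ne_zero i
      | right j => simpa only [x, Fin.append_right] using (h1 j).2.1
    · rintro _ (⟨a, c, hc, b, rfl⟩ | ⟨j, rfl⟩)
      · exact ⟨a, Fin.append c 0, b, by simpa [h2, mn_zero] using h.le (mn_mem_TA hc),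
          by simp [h2, mn_zero]⟩
      · exact ⟨(h.tm j).2, Fin.append 0 (Pi.single j 1), 1,
          by simpa [h2, mn_zero, mn_single] using (h1 j).1, by simp [h2, mn_zero, mn_single]⟩
    · induction i using Fin.addCases with
      | left i => simpa [x] using h.mem i
      | right j => simp only [x, Fin.append_right]; exact hD.le_field (h1 j).1
  obtain ⟨c, hc⟩ := hm
  obtain ⟨e, he⟩ := hd.pow _ N O x h3 u hu M hM ⟨Fin.append c 0, by simpa [h2, mn_zero] using hc⟩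
  rw [← Fin.append_castAdd_natAdd (f := e), h2] at he
  have h4 := mn_un (O := O) (u := fun j => t j + 1) (c := fun j => e (Fin.natAdd r j))
    fun j hj => absurd (h1 j) hj
  have := he.mul h4
  rw [← div_div, div_mul_cancel₀ _ h4.2.1] at this
  exact ⟨_, this⟩

lemma Tp.up [Fintype ι'] (h : Tp n N O τ z t) (hp : τ'.Pointed) (hle : τ.Reg 0 ⊆ τ'.Reg 0)
    (hP : IsPoint (O ⊔ TA k z τ') O') (hd : Dom O O') (hr : Rt O') : Tp n N O' τ' z t := by
  obtain ⟨D, hD⟩ := h.aff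
  have hA : TA k z τ' ≤ O' := le_sup_right.trans hP.le
  refine ⟨h.card, ⟨D ⊔ TA k z τ', hD.deg, hD.fg.sup (TA_fg hp h.iz.ne_zero),
    (sup_le (c := N.toSubalgebra) hD.le (TA_le fun c _ => mn_mem_field h.mem c) :), fun x hx =>
      let ⟨b, b1, b2, b3⟩ := hD.frac x hx; ⟨b, le_sup_left (a := D) b1, b2, le_sup_left (a := D) b3⟩,
    hP.of_le_loc (sup_le (hD.pt.le.trans hd.1) hA) (sup_le (hD.pt.le_loc.trans
      (loc_mono le_sup_left hd.1)) (le_sup_right.trans (le_loc _ _))), hr⟩, h.ind, hA, h.mem,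
    fun j => nu_dom hd (h.tm j), fun x hx => ?_⟩
  set I := span O' (Gt O' z τ' ∪ Set.range t)
  let T : Subalgebra k L :=
    { carrier := {x | x ∈ O' ∧ ∃ c : k, x - algebraMap k L c ∈ I}
      add_mem' := fun {a b} ⟨a1, c, a2⟩ ⟨b1, d, b2⟩ => ⟨add_mem a1 b1, c + d, by
        rw [map_add, add_sub_add_comm]; exact add_mem a2 b2⟩
      mul_mem' := fun {a b} ⟨a1, c, a2⟩ ⟨b1, d, b2⟩ => ⟨mul_mem a1 b1, c * d, by
        rw [map_mul, show a * b - algebraMap k L c * algebraMap k L d =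
          a * (b - algebraMap k L d) + algebraMap k L d * (a - algebraMap k L c) by ring]
        exact add_mem (mul_mem_span a1 b2) (mul_mem_span (O'.algebraMap_mem d) a2)⟩
      algebraMap_mem' := fun c => ⟨O'.algebraMap_mem c, c, by simp⟩ }
  have h1 : O ⊔ TA k z τ' ≤ T := by
    refine sup_le (fun x hx => ⟨hd.1 hx, (h.par x hx).imp fun c => span_mono' hd.1
      (Set.union_subset_union_left _ ?_)⟩) (TA_le fun c hc => ⟨hA (mn_mem_TA hc),
        (hr _ (hA (mn_mem_TA hc))).imp fun a ha => subset_span (Or.inl ⟨ha, c, hc, a, rfl⟩)⟩)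
    rintro _ ⟨a, c, hc, b, rfl⟩
    exact ⟨fun e => a (hd.2 _ (sub_mem (h.le (mn_mem_TA hc)) (O.algebraMap_mem b)) e),
      c, hle hc, b, rfl⟩
  obtain ⟨a, ha, b, hb, hu, rfl⟩ := hP.le_loc hx
  obtain ⟨a1, c, a2⟩ := h1 ha
  obtain ⟨b1, d, b2⟩ := h1 hb
  have h2 : d ≠ 0 := fun e => not_un_of_mem_span hP.lcl (fun y hy =>
    ⟨(sup_le hA (Algebra.adjoin_le (by rintro _ ⟨j, rfl⟩; exact hd.1 (h.tm j).1)) : _ ≤ O')
      (gt_mem (fun j => nu_dom hd (h.tm j)) y hy).1, (gt_mem (fun j => nu_dom hd (h.tm j)) y hy).2⟩)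
    b2 (by simpa [e] using hu)
  refine ⟨c / d, ?_⟩
  have h3 := (un_alg O' h2).2.1
  rw [show a / b - algebraMap k L (c / d) = b⁻¹ * ((a - algebraMap k L c) -
    algebraMap k L (c / d) * (b - algebraMap k L d)) by
      rw [map_div₀]; field_simp [hu.2.1]; ring]
  exact mul_mem_span hu.2.2 (sub_mem a2 (mul_mem_span (O'.algebraMap_mem _) b2))

/-- A unimodular chart at a rational point. -/
lemma tp_uni [Fintype ι] {c : Ch L ι} (h : c.At O) (hU : c.τ.Uni) (hD : Aff n N D O)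
    (hz : ∀ i, c.z i ∈ N) : ∃ (s : ℕ) (t : Fin s → L), Tp n N O c.τ c.z t := by
  classical
  let _ : Fintype c.τ.R := Fintype.ofFinite _
  obtain ⟨-, y, hy, hTA, hmn, -⟩ := Tor.snc ι c O h hU
  have hO : ∀ i, y i ∈ O := fun i => h.sf.le (hTA ▸ Algebra.subset_adjoin ⟨i, rfl⟩)
  let w : c.τ.R → L := fun i => y i - algebraMap k L (rs O (y i))
  have hw : ∀ i, Nu O (w i) := fun i => rs_spec hD.rt (hO i)
  have h1 : ∀ i, y i ∈ Algebra.adjoin k (Set.range w) := fun i => by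
    simpa [w] using add_mem (Algebra.subset_adjoin ⟨i, rfl⟩ : w i ∈ Algebra.adjoin k (Set.range w))
      (Subalgebra.algebraMap_mem _ (rs O (y i)))
  have h2 : Algebra.adjoin k (Set.range y) = Algebra.adjoin k (Set.range w) :=
    le_antisymm (Algebra.adjoin_le (by rintro _ ⟨i, rfl⟩; exact h1 i)) (Algebra.adjoin_le (by
      rintro _ ⟨i, rfl⟩
      exact sub_mem (Algebra.subset_adjoin ⟨i, rfl⟩) (Subalgebra.algebraMap_mem _ _)))
  obtain ⟨s, t, t1, t2, t3⟩ := (par : ParStmt k L) n N D O _ w hD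
    (indep w hy le_rfl fun i => isAlgebraic_algebraMap (⟨_, h1 i⟩ : Algebra.adjoin k (Set.range w)))
    (h2 ▸ hTA ▸ h.sf)
  have h3 : c.r = Fintype.card c.τ.R := by
    let f : (Fin c.r → ℤ) →ₗ[ℤ] (c.τ.R → ℤ) :=
      { toFun := fun e ρ => c.τ.ev e ρ
        map_add' := fun a b => funext fun ρ => Typ.ev_add a b ρ.1
        map_smul' := fun a b => funext fun ρ => Typ.ev_smul a b ρ.1 }
    simpa using (LinearEquiv.ofBijective f ⟨(injective_iff_map_eq_zero f).2 fun e he =>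
      h.ptd e fun ρ hρ => congrFun he ⟨ρ, hρ⟩, fun a => (hU (Function.extend Subtype.val a 0)).imp
        fun e he => funext fun ρ => (he ρ ρ.2).trans
          (Subtype.val_injective.extend_apply _ _ _)⟩).finrank_eq
  have h4 : Fintype.card c.τ.R + s = n := by
    rw [← t1, Nat.card_congr (Equiv.subtypeUnivEquiv fun i => (hw i).2), Nat.card_eq_fintype_card]
  have h5 : Pool.Agent.R72.Res.Par O (Gt O c.z c.τ ∪ Set.range t) := fun x hx => by
    refine (hD.rt x hx).imp fun a ha => span_mono (Set.union_subset_union_left _ ?_)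
      (t3 _ (sub_mem hx (O.algebraMap_mem a)) ha)
    rintro _ ⟨ρ, -, rfl⟩
    obtain ⟨e, he⟩ := hU (Pi.single ρ.1 1)
    have e1 : (fun σ : c.τ.R => c.τ.ev e σ) = Pi.single ρ 1 := funext fun σ => by
      rw [he σ σ.2, Pi.single_apply, Pi.single_apply]
      exact if_congr Subtype.val_inj rfl rfl
    exact ⟨(hw ρ).2, e, fun σ hσ => (he σ hσ).symm ▸ Pi.single_nonneg.2 zero_le_one σ, rs O (y ρ),
      by rw [hmn e, e1, mn_single, zpow_one]⟩
  have h6 : ∀ i, Nu O (Sum.elim w t i) := by rintro (i | i); exacts [hw i, t2 i]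
  refine ⟨s, t, h3 ▸ h4, ⟨D, hD⟩, indep_of_par c.τ hD.fg hD.pt h.sf.le (fun j => (t2 j).1)
    (gt_mem t2) h5 (hD.of_gen (v := Sum.elim w t) (by rw [Fintype.card_sum, Fintype.card_fin, h4]) h6 fun x hx hu => span_mono ?_
      (t3 x hx hu)).1 (by simp [← h3]) fun i => isAlgebraic_algebraMap (⟨_, (h6 i).1⟩ : O),
    h.sf.le, hz, t2, h5⟩
  rintro _ (⟨i, -, rfl⟩ | ⟨i, rfl⟩)
  exacts [⟨.inl i, rfl⟩, ⟨.inr i, rfl⟩]

end Pool.Agent.MP_19ffc6_ag.Perf.End

end MrgPart0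

-- ======== part 1: formerly Pool.Agent.MP_19ffc6_ag.perf.EndM
section MrgPart1

/-! PROJECT PERF, block VEND: the final model. -/

namespace Pool.Agent.MP_19ffc6_ag.Perf

open Pool.Agent.R72.Wild Pool.Agent.R72.Lci Pool.Agent.R72.Res Pool.Agent.R72.Res.Tor
  Pool.Agent.R72.Res.B Pool.Agent.R72.Res.P Pool.Agent.R72.Res.Lab Submodule

variable {k L : Type} [Field k] [Field L] [Algebra k L]

namespace End

variable {K₀ : Subfield L} {N : IntermediateField k L} {O O' O₂ D : Subalgebra k L} {g : SA k L}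
  {u : L} {ι : Type} {r s n m : ℕ} {τ : Typ ι r} {z : Fin r → L} {t : Fin s → L}
  {y : Fin m → L} {S : Finset L}

lemma lmon_pw {κ : Type} [Fintype κ] {z : κ → L} (hz : ∀ i, z i ≠ 0) (hS : ∀ f ∈ S, LMon O z f)
    (h : Pw S O u) : ∃ M, 0 < M ∧ LMon O z (u ^ M) := by
  obtain ⟨M, hM, e, h⟩ := h
  have h1 : LMon O z (∏ f ∈ S, f ^ e f) :=
    Finset.prod_induction _ (LMon O z) (fun _ _ => LMon.mul hz) (LMon.of_un (Un.one _))
      fun f hf => (hS f hf).zpow _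
  have := LMon.mul hz (LMon.of_un h) h1
  rw [div_mul_cancel₀ _ h1.ne_zero] at this
  exact ⟨M, hM, this⟩

/-- The normalisation of the modification is the toric modification for the saturated cone. -/
lemma sat {d : ℕ} {Λ : Set (Fin r → ℤ)} (h : Tp n N O τ z t) (hy : AlgebraicIndependent k y)
    (hd : d ≠ 0) (h1 : ∀ c, d • c ∈ Λ) (h2 : Set.range (mn y) = mn z '' Λ)
    (h3 : ∀ c ∈ τ.Reg 0 ∩ Λ, mn z c ∈ Algebra.adjoin k (Set.range y))
    (hP : IsPoint (O ⊔ Algebra.adjoin k (Set.range y)) O') (hD : Dom O O')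
    (hP' : IsPoint (icl N O') O₂) (hD' : Dom O' O₂) (hr : Rt O₂) :
    ∃ σ : Typ (Fin m) r, σ.R = Set.univ ∧ σ.Strict ∧ (∀ c, mn z c ^ d = mn y (σ.ev c)) ∧
      IsPoint (O ⊔ TA k z σ) O₂ ∧ Tp n N O₂ σ z t := by
  have hz := h.iz.ne_zero
  have iy := (linearIndependent_mn hy).injective
  choose a ha using fun i => h2.ge (Set.mem_image_of_mem _ (h1 (Pi.single i 1)))
  let σ : Typ (Fin m) r := ⟨Set.univ, fun j i => a i j⟩
  have e1 : ∀ c, mn z c ^ d = mn y (σ.ev c) := fun c => by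
    have : σ.ev c = ∑ i, c i • a i := funext fun j => by
      simp [σ, Typ.ev, dotProduct, mul_comm]
    rw [this, mn_sum hy.ne_zero]
    simp only [ha, mn_nsmul, mn_single, zpow_one]
    rw [mn, mn, ← Finset.prod_pow]
    exact Finset.prod_congr rfl fun i _ => by
      rw [← zpow_natCast, ← zpow_natCast, ← zpow_mul, ← zpow_mul, mul_comm]
  have e2 : ∀ b, ∃ c, mn z c = mn y b ∧ σ.ev c = d • b := fun b => by
    obtain ⟨c, -, hc⟩ := h2.le ⟨b, rfl⟩
    exact ⟨c, hc, iy (by rw [← e1, hc, mn_nsmul])⟩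
  have e3 : ∀ c, c ∈ σ.Reg 0 ↔ 0 ≤ σ.ev c := fun c => ⟨fun h j => h j trivial, fun h j _ => h j⟩
  have e4 : σ.Pointed := fun c hc => nsmul_right_injective hd ((linearIndependent_mn h.iz).injective
    (by simp only [mn_nsmul, e1, show σ.ev c = σ.ev 0 from funext fun j => by
      rw [hc j trivial, Typ.ev_zero]]))
  have e5 : τ.Reg 0 ⊆ σ.Reg 0 := fun c hc => (e3 c).2 (nonneg_of hy (by
    rw [← e1, ← mn_nsmul]; exact h3 _ ⟨Typ.nsmul_mem_reg hc d, h1 c⟩))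
  have e6 : Algebra.adjoin k (Set.range y) ≤ TA k z σ := Algebra.adjoin_le (by
    rintro _ ⟨j, rfl⟩
    obtain ⟨c, c1, c2⟩ := e2 (Pi.single j 1)
    rw [mn_single, zpow_one] at c1
    exact c1 ▸ mn_mem_TA ((e3 c).2 (c2 ▸ nsmul_nonneg (Pi.single_nonneg.2 zero_le_one) d)))
  have e7 : ∀ j, y j ∈ O' ∧ y j ≠ 0 := fun j =>
    ⟨hP.le (le_sup_right (a := O) (Algebra.subset_adjoin ⟨j, rfl⟩)), hy.ne_zero j⟩
  have e8 : O ⊔ TA k z σ ≤ O₂ := sup_le (hD.1.trans hD'.1) (TA_le fun c hc => hP'.le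
    ⟨mn_mem_field h.mem c, (isIntegral_of_mem (by
      rw [e1]; exact mn_mem e7 fun j _ => (e3 c).1 hc j)).of_pow (Nat.pos_of_ne_zero hd)⟩)
  have e9 := h.up e4 e5 (isPoint_loc e8 hP'.lcl) (dom_loc_of_dom (Dom.trans hD hD') le_sup_left e8)
    (rt_dom (dom_loc e8) hr)
  have e10 : loc (O ⊔ TA k z σ) O₂ = O₂ := le_antisymm (loc_le e8) (hP'.le_loc.trans
    (TreeA.loc_le_of_dom (fun x hx => e9.kit.2 x hx.1 (isIntegral_mono (hP.le_loc.trans
      (loc_mono (sup_le_sup_left e6 O) hD'.1)) hx.2)) (dom_loc e8)))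
  obtain ⟨c, -, hc⟩ := e2 1
  refine ⟨σ, rfl, ⟨c, fun j _ => ?_⟩, e1, ⟨e8, hP'.lcl, e10.ge⟩, e10 ▸ e9⟩
  rw [hc]; simpa using Nat.pos_of_ne_zero hd

/-- The virtual parameters. -/
lemma vout [IsAlgClosed k] (p : ℕ) [Fact p.Prime] [CharP k p] (hdv : DivF k L) {d : ℕ}
    {M : Submodule k L} {σ : Typ (Fin m) r} (hG : Gw K₀ N) (hM : Mdl N M) (hC : Cx K₀ N O z)
    (hy : AlgebraicIndependent k y) (hd : d ≠ 0) (h2 : Set.range (mn y) = mn z '' Lm K₀ O z)
    (hyO : ∀ j, y j ∈ O₂) (hR : σ.R = Set.univ) (hs : σ.Strict)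
    (e1 : ∀ c, mn z c ^ d = mn y (σ.ev c)) (hP : IsPoint (O ⊔ TA k z σ) O₂)
    (h : Tp n N O₂ σ z t) (hD : Dom O O₂) (hI : ∀ g, In K₀ O₂ g → In K₀ O g) (hF : Ful S O z)
    (hS : ∀ f ∈ S, LMon O z f) : ∃ (r : ℕ) (y : Fin r → L), VOut K₀ N S O₂ y := by
  classical
  have hz := hC.ne
  have hl := h.lcl
  have e7 : ∀ j, y j ∈ O₂ ∧ y j ≠ 0 := fun j => ⟨hyO j, hy.ne_zero j⟩
  let I := {j // ¬ Un O₂ (y j)}
  let e : Fin (Fintype.card I) → Fin m := fun i => ((Fintype.equivFin I).symm i).1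
  have he : Function.Injective e := Subtype.val_injective.comp (Fintype.equivFin I).symm.injective
  have h3 : ∀ a, Un O₂ (mn y a / mn (y ∘ e) (a ∘ e)) := fun a =>
    un_mn_div hy.ne_zero e he a fun i hi hu =>
      absurd ⟨Fintype.equivFin I ⟨i, hu⟩, by simp [e]⟩ hi
  have h4 : ∀ j, ∃ c ∈ Lm K₀ O z, mn z c = y j := fun j => by
    simpa [mn_single] using h2.le ⟨Pi.single j 1, rfl⟩
  have h0 : ∀ a, mn (y ∘ e) a ≠ 0 := mn_ne_zero fun j => hy.ne_zero _
  refine ⟨_, y ∘ e, fun j => ⟨hyO _, hy.ne_zero _, ?_⟩, fun j g hg => ?_, fun a ha i => ?_,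
    fun u hu h5 h6 => ?_⟩
  · obtain ⟨c, -, hc⟩ := h4 (e j)
    rw [Function.comp_apply, ← hc]; exact (hF.mn c).mono hD.1
  · obtain ⟨c, h5, hc⟩ := h4 (e j)
    rw [Function.comp_apply, ← hc]; exact nu_dom hD (h5 g (hI g hg))
  · have h5 := h3 (Function.extend e a 0)
    rw [Function.extend_comp he] at h5
    have h6 := mul_mem h5.1 ha
    rw [div_mul_cancel₀ _ (h0 a)] at h6
    obtain ⟨c, -, hc⟩ := h2.le ⟨Function.extend e a 0, rfl⟩
    obtain ⟨f, f1, f2, f3⟩ := exists_reg h.iz hs h.kit.1 hl (hc ▸ h6)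
    have f4 := zero_of_un e7 (fun j => f1 j (hR ▸ trivial)) (e1 f ▸ f2.pow d)
      ((Fintype.equivFin I).symm i).2
    have f5 : σ.ev c = d • Function.extend e a 0 :=
      (linearIndependent_mn hy).injective (by rw [← e1, hc, mn_nsmul])
    have f6 := f3 (e i) (hR ▸ trivial)
    rw [Typ.ev_add, show σ.ev f (e i) = 0 from f4, f5, Pi.smul_apply, he.extend_apply, add_zero,
      nsmul_eq_mul] at f6
    exact nonneg_of_mul_nonneg_right f6 (Nat.cast_pos.2 (Nat.pos_of_ne_zero hd))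
  · obtain ⟨M, hM0, h7⟩ := lmon_pw hz (fun f hf => (hS f hf).imp fun _ h => h.mono hD.1) h5
    obtain ⟨c, hc⟩ := h.div hdv hu hM0 h7
    have h8 : ∀ g, In K₀ O g → ∀ n : ℕ, (n : k) ≠ 0 → (∀ x ∈ N, (g ^ n) • x = x) →
        (∀ c, Un O₂ (mn z c) → chi O z g c = 1) → In K₀ O₂ g := fun g hg n hn hd' H => by
      obtain ⟨D, hA⟩ := h.aff
      let T : Subalgebra k L :=
        { carrier := {x | x ∈ O₂ ∧ Nu O₂ (g • x - x)}
          add_mem' := fun ha hb => ⟨add_mem ha.1 hb.1, by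
            rw [smul_add, add_sub_add_comm]; exact ha.2.add hl hb.2⟩
          mul_mem' := fun ha hb => ⟨mul_mem ha.1 hb.1, by
            rw [smul_mul']
            exact ha.2.mul_sub hl hb.2 (by simpa using add_mem ha.2.1 ha.1) hb.1⟩
          algebraMap_mem' := fun c => ⟨O₂.algebraMap_mem c, by
            rw [hg.lin c, sub_self]; exact Nu.zero _⟩ }
      have h9 : O ⊔ TA k z σ ≤ T := by
        refine sup_le (fun x hx => ⟨hD.1 hx, nu_dom hD (hg.sub hx)⟩) (TA_le fun c hc => ?_)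
        have a1 := h.le (mn_mem_TA hc)
        refine ⟨a1, ?_⟩
        rw [show g • mn z c - mn z c = mn z c * (g • mn z c / mn z c - 1) by
          field_simp [mn_ne_zero hz c]]
        by_cases a2 : Un O₂ (mn z c)
        · exact (nu_dom hD (by simpa [H c a2] using hC.spec hg c)).mul' a1
        · exact Nu.mul ⟨a1, a2⟩ (sub_mem (hD.1 (hC.quot hg c)) (one_mem _))
      exact in_of_gen hP hg.1 (fun e => hn (by simp [e])) (fun x hx => hd' x (hA.le_field hx))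
        fun x hx => (h9 hx).2
    obtain ⟨v, v1, v2⟩ := hC.dual p hG hM hl (c := c)
      (fun g hg => nu_dom hD (hC.spec (hI g hg) c)) h8
      fun g hg => hg.quot_congr hl (inv_div u _ ▸ hc.inv) (one_mem _) (h6 g hg)
    obtain ⟨a, ha⟩ := h2.ge ⟨_, v2, rfl⟩
    refine ⟨a ∘ e, ?_⟩
    have := (hc.mul v1).mul (h3 a)
    rw [ha, mn_sub hz] at this
    convert this using 1
    field_simp [mn_ne_zero hz c, mn_ne_zero hz v, h0]

end End

open End in
/-- Block VEND. -/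
theorem vend [IsAlgClosed k] (p : ℕ) [Fact p.Prime] [CharP k p] (hdv : DivF k L) :
    VendStmt k L := by
  intro n K₀ N S s hG hN hn _ hs hU hM hE hF hX
  have hS : ∀ O, s.P O → ∀ f ∈ S, LMon O (s.ch O).z f := fun O hO f hf =>
    let ⟨_, h⟩ := hE f hf; (h O hO).imp fun _ => And.right
  have hT : ∀ O, s.P O → Rt O → ∃ (m : ℕ) (t : Fin m → L), Tp n N O (s.ch O).τ (s.ch O).z t :=
    fun O hO hr => let ⟨_, hD⟩ := hM.aff hn hO hr
      tp_uni (hs.cht O hO) (hU O hO) hD (cx_pt hM hs hO hr).mem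
  have hTM : TM K₀ N s := fun O hO hr g hg _ _ _ a ha => by
    obtain ⟨x, h1, h2, -, h3⟩ := hX O hO hr
    obtain ⟨_, t, h4⟩ := hT O hO hr
    have hc := hs.cht O hO
    refine span_le_span le_rfl ?_ ((h3 g hg).2 a ha)
    rintro _ ⟨a1, a2, c, rfl⟩
    obtain ⟨M, a3, a4⟩ := lmon_pw hc.ne (hS O hO) (h2.mn c)
    obtain ⟨d, a5⟩ := h4.div hdv (mn_mem_field h1.mem c) a3 a4
    have a0 := mn_ne_zero h1.fr.ne c
    obtain ⟨f, f1, f2, f3⟩ := exists_reg hc.ind hc.str hc.sf h4.lcl (c := d) (by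
      simpa [a0] using mul_mem a5.2.2 a1)
    have a6 : Un O (mn x c / mn (s.ch O).z (d + f)) := by
      rw [mn_add hc.ne, ← div_div]; exact un_div a5 f2
    have a7 := div_mul_cancel₀ (mn x c) (mn_ne_zero hc.ne (d + f))
    exact a7 ▸ mul_mem_span a6.1 (mn_mem_Mon ⟨f3, fun e => a2 (a7 ▸ a6.mul e)⟩)
  obtain ⟨s', hs', hR, hU', -⟩ := (resW : ResW k L) _ _ ∅ (Cl.cls K₀ N)
    (virt_good p hG hM hs hTM) Set.finite_empty fun _ h => h.elim
  have hM' : Mdl N s'.M := mdl_of_dom hM hs'.cl.1 hs'.ne hs'.cl.2.2 fun O' hO' =>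
    let ⟨O, hO, hd, _⟩ := hR.dom O' hO'; ⟨O, hO, hd.1⟩
  obtain ⟨M, m1, m2, m3⟩ := (normW : NormW k L) K₀ N N s'.M hG hM' hs'.cl.2.1 le_rfl hN
    fun x hx => isAlgebraic_algebraMap (⟨x, hx⟩ : N)
  refine ⟨M, m1, m2, fun O₂ h1 hr => ?_⟩
  obtain ⟨O', h2, h3, h4⟩ := m3 O₂ h1
  obtain ⟨O, hO, h5, h6, h7, h8⟩ := hR.dom O' h2
  replace hO : s.P O := hO
  have hD := Dom.trans h5 h3
  have hr' := rt_dom hD hr
  obtain ⟨m, y, y1, y2, y3⟩ := snc_fin (hs'.cht O' h2) (hU' O' h2)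
  obtain ⟨_, t, h9⟩ := hT O hO hr'
  obtain ⟨e, d, -, hd, -, -, h⟩ := exists_ord p hG hM
  have hd0 : d ≠ 0 := fun e => hd (by simp [e])
  have hz := (hs.cht O hO).ne
  have a1 : Set.range (mn y) = mn (s.ch O).z '' Lm K₀ O (s.ch O).z := by
    rw [← y3, h6]
    have h := (bas_spec p hG hM hs hO).2
    refine Set.Subset.antisymm ?_ ?_
    · rintro _ ⟨e, rfl⟩
      exact ⟨_, (h _).2 ⟨e, rfl⟩, mn_vecMul hz _ e⟩
    · rintro _ ⟨c, hc, rfl⟩
      obtain ⟨e, rfl⟩ := (h c).1 hc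
      exact ⟨e, (mn_vecMul hz _ e).symm⟩
  rw [y2] at h7 h8
  obtain ⟨σ, s1, s2, s3, s4, s5⟩ := sat h9 y1 hd0 (nsmul_Lm p hM hs hO h) a1 (fun c hc =>
    h7 (Algebra.subset_adjoin ((virt_img p hG hM hs hO 0).ge ⟨c, hc, rfl⟩))) h8 h5 h4 h3 hr
  refine ⟨O, hO, hr', Cmp.adm hD s4 rfl ?_ (m2.pt_le h1) s5.kit.2,
    vout p hdv hG hM (cx_pt hM hs hO hr') y1 hd0 a1 (fun j => h3.1 (h8.le (le_sup_right (a := O)
      (Algebra.subset_adjoin ⟨j, rfl⟩)))) s1 s2 s3 s4 s5 hD (fun g hg => ?_) (hF O hO) (hS O hO)⟩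
  · rintro _ ⟨c, -, rfl⟩
    exact (hF O hO).mn c
  · exact .of_rt (pt_lcl hO) hr' hg.1 hg.lin
      (nearS.down K₀ s.M O O₂ g hs.cl.2.1 hO hD hg.1 hg.2.1)

end Pool.Agent.MP_19ffc6_ag.Perf

end MrgPart1

-- marker of a merged file
example : 731051 + 831484 = 731051 + 831484 := rfl
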