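import Pool.Agent.MP_19ffc6_ag.perf.FinA
import Pool.Agent.MP_19ffc6_ag.perf.QM
import Pool.Agent.Lib.helper72.RM.M26

/-! PROJECT PERF, module FIN: Galois descent to a perfect ground field. -/

namespace Pool.Agent.MP_19ffc6_ag.Perf.Fin

open Pool.Agent.R72.Wild Pool.Agent.R72.Lci Pool.Agent.R72.Res
open Pool.Agent.R72.Res.P Pool.Agent.R72.Res.B Algebra

variable {κ k L : Type} [Field κ] [Field k] [Field L] [Algebra κ k] [Algebra κ L] [Algebra k L]
  [IsScalarTower κ k L] {K₀ : Subfield L} {K : IntermediateField k L} {G : Set L}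
  {O : Subalgebra k L} {O₀ : Subalgebra κ L} {x : L}

lemma fs_smul (g : SA k L) (h : FormallySmooth k O) : FormallySmooth k (g • O :) := by
  rw [← RingHom.formallySmooth_algebraMap] at h ⊢
  have e : algebraMap k (g • O :) = ((sEq g O).toRingHom.comp (algebraMap k O)).comp
      g.σ.symm.toRingHom := RingHom.ext fun c => Subtype.ext
    ((congrArg _ (g.σ.apply_symm_apply c).symm).trans (g.map _).symm)
  rw [e]
  exact RingHom.FormallySmooth.respectsIso.2 _ _ (RingHom.FormallySmooth.respectsIso.1 _ _ h)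

lemma adjoin_fix (hG : ∀ x ∈ G, x ∈ K₀) {g : SA k L} (hg : Fx K₀ g) :
    g • adjoin k G = adjoin k G := by
  rw [← adjoin_smul, Set.image_congr fun x hx => hg x (hG x hx), Set.image_id']

lemma adjoin_stb (hG : ∀ x ∈ G, x ∈ K₀) {g : SA k L} (hg : Fx K₀ g) (hx : x ∈ adjoin k G) :
    g • x ∈ adjoin k G := adjoin_fix hG hg ▸ smul_mem_sA.2 hx

lemma adjoin_le_field (h : Gl K₀ K) (hG : ∀ x ∈ G, x ∈ K₀) : adjoin k G ≤ K.toSubalgebra :=
  adjoin_le fun x hx => h.mem (hG x hx)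

lemma adjoin_up (hx : x ∈ adjoin κ G) : x ∈ adjoin k G :=
  (adjoin_le subset_adjoin : adjoin κ G ≤ (adjoin k G).restrictScalars κ) hx

omit [Algebra κ k] [IsScalarTower κ k L] in
lemma adjoin_span (hx : x ∈ adjoin k G) : x ∈ Submodule.span k (adjoin κ G : Set L) := by
  rw [← Subalgebra.mem_toSubmodule, adjoin_eq_span] at hx
  exact Submodule.span_mono ((Submonoid.closure_le (S := (adjoin κ G).toSubmonoid)).2
    subset_adjoin) hx

variable (κ) in
/-- Galois descent from `K` to `K₀`, whose field of constants is `κ`. -/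
structure Ds (K₀ : Subfield L) (K : IntermediateField k L) : Prop where
  gl : Gl K₀ K
  cst : ∀ c : k, algebraMap k L c ∈ K₀ → c ∈ (algebraMap κ k).range
  sub : ∀ c : κ, algebraMap κ L c ∈ K₀

namespace Ds

variable (h : Ds κ K₀ K)
include h

omit [IsScalarTower κ k L] in
lemma adj_mem (hG : ∀ x ∈ G, x ∈ K₀) (hx : x ∈ adjoin κ G) : x ∈ K₀ :=
  (Algebra.adjoin_le hG : adjoin κ G ≤ ⟨K₀.toSubsemiring, h.sub⟩) hx

lemma mem {V : Submodule κ L} (hV : ∀ x ∈ V, x ∈ K₀) (hx : x ∈ K₀)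
    (h' : x ∈ Submodule.span k (V : Set L)) : x ∈ V := by
  by_contra H
  obtain ⟨b, h1, -, h2, h3⟩ :=
    exists_linearIndepOn_id_extension (linearIndepOn_empty κ id) (Set.empty_subset (V : Set L))
  have h4 : x ∉ b := fun e => H (h1 e)
  have h5 := Dsc.indep h.gl h.cst (s := insert x b)
    (by rintro y (rfl | hy); exacts [hx, hV y (h1 hy)])
    ((linearIndepOn_id_insert h4).2 ⟨h3, fun e => H (Submodule.span_le.2 h1 e)⟩)
  exact ((linearIndepOn_id_insert h4).1 h5).2 ((Submodule.span_le (p := Submodule.span k b)).2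
    (fun y hy => Submodule.span_le_restrictScalars κ k b (h2 hy)) h')

lemma mem_adjoin (hG : ∀ x ∈ G, x ∈ K₀) (hx : x ∈ K₀) (h' : x ∈ adjoin k G) : x ∈ adjoin κ G :=
  h.mem (V := (adjoin κ G).toSubmodule) (fun _ => h.adj_mem hG) hx (adjoin_span h')

lemma smooth (hG : ∀ x ∈ G, x ∈ K₀) (hf : G.Finite)
    (H : ∀ O, IsPoint (adjoin k G) O → FormallySmooth k O) : Smooth κ (adjoin κ G) := by
  let _ : Algebra κ K₀ := ((algebraMap κ L).codRestrict K₀ h.sub).toAlgebra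
  let j : K₀ →ₐ[κ] L := { K₀.subtype with commutes' := fun _ => rfl }
  have e : j '' (j ⁻¹' G) = G :=
    Set.image_preimage_eq_of_subset fun x hx => ⟨⟨x, hG x hx⟩, rfl⟩
  have := (Dsc.chart_desc (S := ∅) j (Dsc.mu_inj j h.gl h.cst fun x => x.2)
    (hf.preimage j.injective.injOn) fun O hO => ⟨fun _ h => h.elim, H O (e ▸ hO)⟩).1
  exact .of_equiv (((adjoin κ (j ⁻¹' G)).equivMapOfInjective j j.injective).trans
    (Subalgebra.equivOfEq _ _ (by rw [AlgHom.map_adjoin, e])))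

lemma unit (hG : ∀ x ∈ G, x ∈ K₀) {I : Submodule k L} (hI : ∀ x ∈ I, x ∈ adjoin k G)
    (hs : Stb K₀ I) (hO : IsPoint (adjoin k G) O) (hx : x ∈ I) (hu : Un O x) :
    ∃ b ∈ I, b ∈ adjoin κ G ∧ Un O b := by
  by_contra H
  push Not at H
  exact ((Submodule.span_le (p := mx hO.lcl)).2 (fun y hy => ⟨hO.le (hI y hy.1),
    H y hy.1 (h.mem_adjoin hG hy.2 (hI y hy.1))⟩)
    (h.gl.desc I (fun y hy => adjoin_le_field h.gl hG (hI y hy)) hs hx)).2 hu

lemma den (hG : ∀ x ∈ G, x ∈ K₀) (hO : IsPoint (adjoin k G) O) {T : Set L} (hT : T.Finite)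
    (h' : ∀ x ∈ T, x ∈ O ∧ x ∈ K₀) :
    ∃ b ∈ adjoin κ G, Un O b ∧ ∀ x ∈ T, b * x ∈ adjoin κ G := by
  obtain ⟨b, h1, h2, h3⟩ := exists_den hO hT fun x hx => (h' x hx).1
  let I : Submodule k L :=
    { carrier := {b | b ∈ adjoin k G ∧ ∀ x ∈ T, b * x ∈ adjoin k G}
      add_mem' := fun ha hb => ⟨add_mem ha.1 hb.1, fun x hx => by
        rw [add_mul]; exact add_mem (ha.2 x hx) (hb.2 x hx)⟩
      zero_mem' := ⟨zero_mem _, fun x _ => by rw [zero_mul]; exact zero_mem _⟩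
      smul_mem' := fun c a ha => ⟨Subalgebra.smul_mem _ ha.1 c, fun x hx => by
        rw [smul_mul_assoc]; exact Subalgebra.smul_mem _ (ha.2 x hx) c⟩ }
  obtain ⟨b, h4, h5, h6⟩ := h.unit hG (I := I) (fun _ h => h.1) (fun g hg a ha =>
    ⟨adjoin_stb hG hg ha.1, fun x hx => by
      rw [← hg x (h' x hx).2, ← smul_mul']; exact adjoin_stb hG hg (ha.2 x hx)⟩) hO ⟨h1, h3⟩ h2
  exact ⟨b, h5, h6, fun x hx =>
    h.mem_adjoin hG (mul_mem (h.adj_mem hG h5) (h' x hx).2) (h4.2 x hx)⟩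

lemma cover [IsAlgClosed k] (hG : ∀ x ∈ G, x ∈ K₀) (hf : G.Finite) (Q : L → Prop)
    (H : ∀ O, IsPoint (adjoin k G) O → Rt O → ∃ a ∈ adjoin κ G, Un O a ∧ Q a)
    (h₀ : IsPoint (adjoin κ G) O₀) : ∃ a ∈ adjoin κ G, Un O₀ a ∧ Q a := by
  obtain ⟨T, c, h1, h2⟩ := Descent.exists_cover (adjoin k G) (fun a => a ∈ adjoin κ G ∧ Q a)
    fun q hq => by
      obtain ⟨O', h1, h2, -⟩ := Descent.exists_point _ q
      obtain ⟨O, h3, h4, h5⟩ := exists_rat (Subalgebra.fg_def.2 ⟨_, hf, rfl⟩) h1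
      obtain ⟨a, h6, h7, h8⟩ := H O h3 h4
      exact ⟨⟨a, adjoin_up h6⟩, (h2 _).1 (h7.mono h5.le), h6, h8⟩
  by_contra H'
  push Not at H'
  refine (h.mem (V := mx h₀.lcl ⊓ (adjoin κ G).toSubmodule) (fun x hx => h.adj_mem hG hx.2)
    (one_mem _) (h2 ▸ sum_mem fun x hx => ?_)).1.2 (Un.one _)
  obtain ⟨-, h3, h4, h5⟩ := h1 x hx
  have h6 := adjoin_span (κ := κ) h3
  generalize c x = y at h6
  induction h6 using Submodule.span_induction with
  | mem y hy => exact Submodule.subset_span ⟨mul_comm x y ▸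
      mul_mem_mx h₀.lcl ⟨h₀.le h4, fun u => H' x h4 u h5⟩ (h₀.le hy), (adjoin κ G).mul_mem hy h4⟩
  | zero => rw [zero_mul]; exact zero_mem _
  | add a b _ _ ha hb => rw [add_mul]; exact add_mem ha hb
  | smul c a _ ha => rw [smul_mul_assoc]; exact Submodule.smul_mem _ c ha

end Ds

variable {p : ℕ} [Fact p.Prime] [CharP L p]

/-- Rational roots from a stable purely inseparable extension. -/
theorem psm_of_stable [IsAlgClosed k] (h : Gl K₀ K) (hG : ∀ x ∈ G, x ∈ K₀)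
    (hO : IsPoint (adjoin k G) O) (hs : PSmE p K₀ K O) : PSm p K₀ O := by
  classical
  obtain ⟨E, e, D, O₁, hKE, hE, h1, ⟨T, rfl⟩, hD, hs⟩ := hs
  obtain ⟨b, hb, hu, h2⟩ := exists_den hO (T.finite_toSet.image (· ^ p ^ e)) (by
    rintro _ ⟨d, hd, rfl⟩; exact ((h1 d).1 (hD.le (subset_adjoin hd))).2)
  have hA := adjoin_le_field h hG
  let V : Submodule k L :=
    { carrier := {y | y ∈ adjoin k G ∧ ∃ x ∈ E, x ^ p ^ e = y}
      add_mem' := by
        rintro _ _ ⟨ha, x, hx, rfl⟩ ⟨hb, y, hy, rfl⟩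
        exact ⟨add_mem ha hb, x + y, add_mem hx hy, add_pow_char_pow ..⟩
      zero_mem' := ⟨zero_mem _, 0, zero_mem _, zero_pow (q_ne p e)⟩
      smul_mem' := by
        rintro c _ ⟨ha, x, hx, rfl⟩
        obtain ⟨c, rfl⟩ := IsAlgClosed.exists_pow_nat_eq c (Nat.pos_of_ne_zero (q_ne p e))
        exact ⟨Subalgebra.smul_mem _ ha _, c • x, E.smul_mem hx, smul_pow ..⟩ }
  let R : Set L := {x | x ∈ E ∧ x ^ p ^ e ∈ adjoin k G ∧ x ^ p ^ e ∈ K₀}
  have h3 : ∀ y ∈ Submodule.span k {y | y ∈ V ∧ y ∈ K₀},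
      ∃ x ∈ Submodule.span k R, x ^ p ^ e = y := fun y hy => by
    induction hy using Submodule.span_induction with
    | mem y hy =>
      obtain ⟨⟨ha, x, hx, rfl⟩, hb⟩ := hy
      exact ⟨x, Submodule.subset_span ⟨hx, ha, hb⟩, rfl⟩
    | zero => exact ⟨0, zero_mem _, zero_pow (q_ne p e)⟩
    | add _ _ _ _ ha hb =>
      obtain ⟨x, hx, rfl⟩ := ha
      obtain ⟨y, hy, rfl⟩ := hb
      exact ⟨x + y, add_mem hx hy, add_pow_char_pow ..⟩
    | smul c _ _ ha =>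
      obtain ⟨x, hx, rfl⟩ := ha
      obtain ⟨c, rfl⟩ := IsAlgClosed.exists_pow_nat_eq c (Nat.pos_of_ne_zero (q_ne p e))
      exact ⟨c • x, Submodule.smul_mem _ _ hx, smul_pow ..⟩
  have h4 : ∀ d ∈ T, ∃ Z : Finset L, (Z : Set L) ⊆ R ∧ b * d ∈ Submodule.span k (Z : Set L) :=
    fun d hd => by
      obtain ⟨x, hx, e1⟩ := h3 ((b * d) ^ p ^ e) (h.desc V (fun y hy => hA hy.1)
        (by
          rintro g hg _ ⟨ha, x, hx, rfl⟩
          exact ⟨adjoin_stb hG hg ha, g • x, hE g hg x hx, (smul_pow' ..).symm⟩)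
        ⟨mul_pow_mem hb (h2 _ ⟨d, hd, rfl⟩), _,
          mul_mem (hKE (hA hb)) ((h1 d).1 (hD.le (subset_adjoin hd))).1, rfl⟩)
      obtain rfl : x = b * d := iterateFrobenius_inj L p e e1
      exact Submodule.mem_span_finite_of_mem_span hx
  choose! Z h5 h6 using h4
  have h7 : ∀ z ∈ T.biUnion Z, z ∈ R := fun z hz =>
    let ⟨d, hd, hz⟩ := Finset.mem_biUnion.1 hz; h5 d hd hz
  refine ⟨e, T.biUnion Z, fun z hz => ⟨hO.le (h7 z hz).2.1, (h7 z hz).2.2⟩, ?_⟩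
  have h8 : adjoin k (T : Set L) ≤ O ⊔ adjoin k (T.biUnion Z : Set L) := adjoin_le fun d hd => by
    rw [SetLike.mem_coe, ← inv_mul_cancel_left₀ hu.2.1 d]
    refine mul_mem ((le_sup_left : O ≤ _) hu.2.2) ((le_sup_right : _ ≤ O ⊔ _) ?_)
    exact span_le_adjoin _ _ (Submodule.span_mono (Finset.subset_biUnion_of_mem Z hd) (h6 d hd))
  suffices O ⊔ adjoin k (T.biUnion Z : Set L) = O₁ by rwa [this]
  refine le_antisymm (sup_le (fun x hx => (h1 x).2 ⟨hKE (R72.Res.IsPoint.le_field hO hA hx), pow_mem hx _⟩)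
    (adjoin_le fun z hz => (h1 z).2 ⟨(h7 z hz).1, hO.le (h7 z hz).2.1⟩)) fun x hx => ?_
  obtain ⟨u, h9, v, hv, h10, rfl⟩ := hD.le_loc hx
  rw [div_eq_mul_inv]
  exact mul_mem (h8 h9) (un_of_pow (h8 hv)
    ((un_pow (e := e) (fun x hx => ((h1 x).1 hx).2) h10).mono le_sup_left)).2.2

/-- Descent of a radicial smooth cover. -/
theorem Ds.psm (h : Ds κ K₀ K)
    (hE : ∀ e, ∃ E : IntermediateField k L, Ds κ (K₀.comap (iterateFrobenius L p e)) E)
    (hG : ∀ x ∈ G, x ∈ K₀) (hf : G.Finite) (hO : IsPoint (adjoin k G) O) (hs : PSm p K₀ O) :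
    ∃ a ∈ adjoin κ G, Un O a ∧ ∀ O₀, IsPoint (adjoin κ G) O₀ → Un O₀ a → PSm p ⊤ O₀ := by
  classical
  obtain ⟨e, Z, hZ, hs⟩ := hs
  obtain ⟨E, hE⟩ := hE e
  obtain ⟨b, hb, hu, h1⟩ := h.den hG hO (Z.finite_toSet.image (· ^ p ^ e))
    (by rintro _ ⟨z, hz, rfl⟩; exact hZ z hz)
  rw [← sup_scale hu, ← Finset.coe_image] at hs
  have h2 : ∀ z ∈ Z.image (b * ·), z ^ p ^ e ∈ adjoin κ G := fun z hz => by
    obtain ⟨z, hz', rfl⟩ := Finset.mem_image.1 hz
    exact mul_pow_mem hb (h1 _ ⟨z, hz', rfl⟩)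
  generalize Z.image (b * ·) = C at hs h2
  have h3 : ∀ x ∈ G ∪ C, x ∈ K₀.comap (iterateFrobenius L p e) := by
    rintro x (hx | hx)
    exacts [pow_mem (hG x hx) _, h.adj_mem hG (h2 x hx)]
  have h4 : (G ∪ C).Finite := hf.union C.finite_toSet
  have h5 : IsPoint (adjoin k (G ∪ C)) (O ⊔ adjoin k (C : Set L)) := by
    rw [adjoin_union]; exact isPoint_root hO fun z hz => hO.le (adjoin_up (h2 z hz))
  obtain ⟨β, h6, h7, h8⟩ := exists_smooth (Subalgebra.fg_def.2 ⟨_, h4, rfl⟩) h5 hs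
  let I : Submodule k L :=
    { carrier := {β | β ∈ adjoin k (G ∪ C) ∧
        ∀ O', IsPoint (adjoin k (G ∪ C)) O' → Un O' β → FormallySmooth k O'}
      add_mem' := fun ha hb => ⟨add_mem ha.1 hb.1, fun O' h' u =>
        (h'.lcl _ (h'.le ha.1) _ (h'.le hb.1) u).elim (ha.2 O' h') (hb.2 O' h')⟩
      zero_mem' := ⟨zero_mem _, fun _ _ u => (u.2.1 rfl).elim⟩
      smul_mem' := fun c a ha => ⟨Subalgebra.smul_mem _ ha.1 c, fun O' h' u => ha.2 O' h' (by
        rw [Algebra.smul_def, mul_comm] at u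
        exact Un.of_mul (h'.le ha.1) (O'.algebraMap_mem c) u)⟩ }
  obtain ⟨β, h9, h10, h11⟩ := hE.unit h3 (I := I) (fun _ h => h.1) (fun g hg a ha =>
    ⟨adjoin_stb h3 hg ha.1, fun O' h' u => smul_inv_smul g O' ▸ fs_smul g (ha.2 _
      (adjoin_fix h3 hg.inv ▸ isPoint_smul.2 h') (inv_smul_smul g a ▸ un_smul.2 u))⟩) h5 ⟨h6, h8⟩ h7
  have h12 : adjoin κ (G ∪ C) ≤ root p e (adjoin κ G) := adjoin_le (by
    rintro x (hx | hx)
    exacts [le_root (subset_adjoin hx), h2 x hx])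
  have h13 : Un O (β ^ p ^ e) :=
    un_pow (sup_le le_root (adjoin_le fun z hz => hO.le (adjoin_up (h2 z hz)))) h11
  refine ⟨_, h12 h10, h13, fun O₀ h₀ u => ⟨e, C, fun z hz => ⟨h₀.le (h2 z hz), trivial⟩, ?_⟩⟩
  have := hE.smooth (G := G ∪ C ∪ {(β ^ p ^ e)⁻¹}) (by
    rintro x (hx | rfl)
    exacts [h3 x hx, inv_mem (pow_mem (hE.adj_mem h3 h10) _)])
    (h4.union (Set.finite_singleton _)) fun O' h' => by
      rw [adjoin_union] at h'
      obtain ⟨h14, h15⟩ := isPoint_of_adj (pow_mem h9.1 _) h13.2.1 h'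
      exact h9.2 O' h14 (un_of_pow (h14.le h9.1) h15)
  have h14 := isPoint_root h₀ fun z hz => h₀.le (h2 z hz)
  rw [← adjoin_union] at h14
  refine (h14.of_le_loc (D' := adjoin κ (G ∪ C ∪ {(β ^ p ^ e)⁻¹})) ?_
    ((adjoin_mono Set.subset_union_left).trans (le_loc _ _))).sf.formallySmooth
  rw [adjoin_union]
  exact adj_le h14.le ((le_sup_left : O₀ ≤ _) u.2.2)

omit [IsScalarTower κ k L] [Fact p.Prime] [CharP L p] in
lemma psm_res [IsScalarTower κ k L] [FormallySmooth κ k] (h : PSm p ⊤ O) :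
    PSm p ⊤ (O.restrictScalars κ) := by
  obtain ⟨e, Z, h1, h2⟩ := h
  refine ⟨e, Z, h1, ?_⟩
  have e : O.restrictScalars κ ⊔ adjoin κ (Z : Set L) =
      (O ⊔ adjoin k (Z : Set L)).restrictScalars κ := le_antisymm
    (sup_le (fun x hx => (le_sup_left : O ≤ _) hx)
      fun x hx => (le_sup_right : _ ≤ O ⊔ _) (adjoin_up hx))
    (sup_le (α := Subalgebra k L)
      (c := ⟨(O.restrictScalars κ ⊔ adjoin κ (Z : Set L)).toSubsemiring,
        fun c => (le_sup_left : O.restrictScalars κ ≤ _) (O.algebraMap_mem c)⟩)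
      (fun x hx => (le_sup_left : O.restrictScalars κ ≤ _) hx)
      (adjoin_le fun x hx => (le_sup_right : _ ≤ O.restrictScalars κ ⊔ _) (subset_adjoin hx)))
  rw [e]
  exact (.comp κ k _ : FormallySmooth κ (O ⊔ adjoin k (Z : Set L) :))

/-- The output of the induction, downstairs, with normal points. -/
def PerfAllN (p : ℕ) : Prop :=
  ∀ (k L : Type) [Field k] [Field L] [Algebra k L] [IsAlgClosed k] [IsAlgClosed L] [CharP k p]
    (k₀ : Subfield k), Gd k₀ → ∀ (n : ℕ) (K₀ : Subfield L) (K : IntermediateField k L),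
    Form k₀ K₀ K → K.FG → Algebra.trdeg k K = n →
    ∀ S : Finset L, (∀ f ∈ S, f ∈ K₀ ∧ f ≠ 0) → ∃ M : Submodule k L, Stb K₀ M ∧ Mdl K M ∧
      ∀ O, Pt ⊥ M O → Rt O → (∀ f ∈ S, f ∈ O ∨ f⁻¹ ∈ O) ∧ (∀ x ∈ K, IsIntegral O x → x ∈ O) ∧
        (PSm p K₀ O ∨ PSmE p K₀ K O)

theorem perfAllN_of_up {p : ℕ} (h : PerfAllU p) : PerfAllN p := by
  intro k L _ _ _ _ _ _ k₀ h0 n K₀ K hf hK hn S hS
  obtain ⟨N, M, h1, h2, h3, h4, h5⟩ := h k L k₀ h0 n K₀ K hf hK hn S hS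
  obtain ⟨M₂, h6, h7, h8⟩ := quotM K₀ K N M (Kit.galStmt _ _ _ h0 hf (Or.inl inferInstance)) hK h1
    h2 h3 h4 fun O a b => (h5 O a b).1
  refine ⟨M₂, h6, h7, fun O₂ a b => ?_⟩
  obtain ⟨O, c1, c2, c3, c4⟩ := h8 O₂ a
  obtain ⟨c7, c5, c6⟩ := h5 O c1 (b.icl (let ⟨_, _, _, h⟩ := a; h.lcl) c2 c3)
  subst c4
  exact ⟨fun f hf' => (c5 f hf').imp (fun h => ⟨h, hf.mem (hS f hf').1⟩)
    fun h => ⟨h, K.inv_mem (hf.mem (hS f hf').1)⟩,
    fun x hx hi => ⟨c7 x (h1 hx) (isIntegral_mono c2.1 hi), hx⟩, c6⟩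

theorem modelQ {κ : Type} [Field κ] [PerfectField κ] {p : ℕ} [Fact p.Prime] [CharP κ p]
    (hR : PerfAllN p) : ModelQ κ p := by
  classical
  intro K _ _ S hS htop
  have hK := IntermediateField.fg_def.2 ⟨S, hS, htop⟩
  let L := AlgebraicClosure K
  let k₁ := algebraicClosure κ K
  let k := algebraicClosure κ L
  have : IsAlgClosed k := IsAlgClosure.isAlgClosed κ
  have : FiniteDimensional κ k₁ := Dsc.finite_const hK
  have : PerfectField k₁ := Algebra.IsAlgebraic.perfectField κ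
  have : CharP k p := (Algebra.charP_iff κ k p).1 inferInstance
  have : CharP k₁ p := (Algebra.charP_iff κ k₁ p).1 inferInstance
  have : CharP L p := (Algebra.charP_iff κ L p).1 inferInstance
  let _ : Algebra k₁ k := (((algebraMap K L).comp (algebraMap k₁ K)).codRestrict k fun x =>
    (map_mem_algebraicClosure_iff (IsScalarTower.toAlgHom κ K L)).2 x.2).toAlgebra
  have : IsScalarTower k₁ k L := .of_algebraMap_eq fun _ => rfl
  let j : K →ₐ[κ] L := IsScalarTower.toAlgHom κ K L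
  let K₀ : Subfield L := (algebraMap K L).fieldRange
  let K' := IntermediateField.adjoin k (K₀ : Set L)
  have hf : Form (algebraMap κ k).fieldRange K₀ K' :=
    ⟨by rintro _ ⟨c, rfl⟩; exact ⟨algebraMap κ K c, rfl⟩, rfl⟩
  have hd : Gd (algebraMap κ k).fieldRange :=
    ⟨.of_ringEquiv (algebraMap κ k).rangeRestrictFieldEquiv, .ringHom_of_comp_eq
      (algebraMap κ k).rangeRestrictField (RingHom.id k) (RingHom.injective _)
      Function.surjective_id rfl⟩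
  have hg : Ds k₁ K₀ K' := ⟨Kit.galStmt _ _ _ hd hf (Or.inl inferInstance),
    fun c ⟨x, hx⟩ => ⟨⟨x, (map_mem_algebraicClosure_iff j).1 (by
      change algebraMap K L x ∈ _; rw [hx]; exact c.2)⟩, Subtype.ext hx⟩, fun c => ⟨c, rfl⟩⟩
  have hE : ∀ e, ∃ E : IntermediateField k L, Ds k₁ (K₀.comap (iterateFrobenius L p e)) E :=
    fun e => ⟨_, Kit.galStmt _ _ _ hd ⟨fun c hc => pow_mem (hf.cst c hc) _, rfl⟩
      (Or.inl inferInstance), fun c hc => by
        obtain ⟨d, hd⟩ := hg.cst (c ^ p ^ e) (by rw [map_pow]; exact hc)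
        obtain ⟨d, rfl⟩ := (iterateFrobeniusEquiv k₁ p e).surjective d
        exact ⟨d, iterateFrobenius_inj k p e ((map_pow _ _ _).symm.trans hd)⟩,
      fun c => pow_mem (hg.sub c) _⟩
  have := IntermediateField.fg_top_iff.1 hK
  obtain ⟨m, hm⟩ : ∃ m : ℕ, trdeg κ K = m := Cardinal.lt_aleph0.1 (trdeg_lt_aleph0 κ K)
  have hdeg : trdeg k K' = m := by
    let _ : Algebra K K' := ((algebraMap K L).codRestrict K' fun x => hf.mem ⟨x, rfl⟩).toAlgebra
    have : IsScalarTower K K' L := .of_algebraMap_eq fun _ => rfl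
    have : IsScalarTower κ K K' := .of_algebraMap_eq fun _ => rfl
    have : Algebra.IsAlgebraic K K' := .of_injective (IsScalarTower.toAlgHom K K' L)
      (algebraMap K' L).injective
    have h1 := trdeg_add_eq κ k (A := K')
    rw [← trdeg_add_eq κ K (A := K'), trdeg_eq_zero (R := κ) (A := k),
      trdeg_eq_zero (R := K) (A := K'), zero_add, add_zero] at h1
    exact h1.trans hm
  have hfg : K'.FG := by
    refine IntermediateField.fg_def.2 ⟨j '' S, hS.image _, le_antisymm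
      (IntermediateField.adjoin.mono _ _ _ (by rintro _ ⟨x, -, rfl⟩; exact ⟨x, rfl⟩))
      (IntermediateField.adjoin_le_iff.2 ?_)⟩
    rintro _ ⟨x, rfl⟩
    have : (IntermediateField.adjoin κ S).map j ≤
        (IntermediateField.adjoin k (j '' S)).restrictScalars κ := by
      rw [IntermediateField.adjoin_map]
      exact IntermediateField.adjoin_le_iff.2 (IntermediateField.subset_adjoin k _)
    exact this ⟨x, htop ▸ trivial, rfl⟩
  obtain ⟨M, hst, hM, hP⟩ := hR k L _ hd m K₀ K' hf hfg hdeg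
    ((hS.toFinset.image j).erase 0) fun f hf => by
      obtain ⟨h0, hf⟩ := Finset.mem_erase.1 hf
      obtain ⟨r, -, rfl⟩ := Finset.mem_image.1 hf
      exact ⟨⟨r, rfl⟩, h0⟩
  obtain ⟨T, hT, rfl⟩ := hg.gl.exists_gen ⟨hM.fg, hst, hM.le⟩
  have hT' : ∀ x ∈ Submodule.span k₁ (T : Set L), x ∈ K₀ := fun x hx =>
    hg.adj_mem hT (span_le_adjoin _ _ hx)
  refine ⟨L, inferInstance, inferInstance, j, (Submodule.span k₁ (T : Set L)).restrictScalars κ,
    (Submodule.fg_span T.finite_toSet).restrictScalars, fun e => hM.ne ?_, hT',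
    fun O ⟨g, hg1, hg0, hO⟩ => ?_⟩
  · exact Submodule.span_eq_bot.2 fun x hx =>
      (Submodule.mem_bot κ).1 (e.le (Submodule.subset_span (R := k₁) hx))
  have c1 : ∀ c : k₁, algebraMap k₁ L c ∈
      chart ⊥ ((Submodule.span k₁ (T : Set L)).restrictScalars κ) g := fun c => by
    have := div_mem_chart (⊥ : Subalgebra κ L)
      (M := (Submodule.span k₁ (T : Set L)).restrictScalars κ) g
      ((Submodule.span k₁ (T : Set L)).smul_mem c hg1)
    rwa [Algebra.smul_def, mul_div_cancel_right₀ _ hg0] at this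
  have e : chart ⊥ ((Submodule.span k₁ (T : Set L)).restrictScalars κ) g =
      (chart ⊥ (Submodule.span k₁ (T : Set L)) g).restrictScalars κ :=
    le_antisymm (chart_le bot_le fun x hx => div_mem_chart (⊥ : Subalgebra k₁ L) g hx)
      (chart_le (D := ⟨(chart ⊥ ((Submodule.span k₁ (T : Set L)).restrictScalars κ) g).toSubsemiring,
        c1⟩) bot_le fun x hx => div_mem_chart (⊥ : Subalgebra κ L) g hx)
  let O₁ : Subalgebra k₁ L := ⟨O.toSubsemiring, fun c => hO.le (c1 c)⟩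
  rw [e, Descent.chart_span] at hO
  have h1 : IsPoint (adjoin k₁ ((· / g) '' (T : Set L))) O₁ := ⟨hO.le, hO.lcl, hO.le_loc⟩
  have hG : ∀ x ∈ (· / g) '' (T : Set L), x ∈ K₀ := by
    rintro _ ⟨x, hx, rfl⟩; exact div_mem (hT x hx) (hT' g hg1)
  have hGf := T.finite_toSet.image (· / g)
  have key := fun O (hO : IsPoint (adjoin k ((· / g) '' (T : Set L))) O) => hP O
    ⟨g, Submodule.span_le_restrictScalars k₁ k _ hg1, hg0, by rwa [Descent.chart_span]⟩
  refine ⟨fun r hr => ?_, normal_of_mem fun z q hq hq0 hz hi => ?_, ?_⟩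
  · by_cases h0 : j r = 0
    · exact Or.inl (h0 ▸ zero_mem O)
    obtain ⟨a, -, h2, h3⟩ := hg.cover hG hGf (fun a => ∃ y, (y = j r ∨ y = (j r)⁻¹) ∧
      a * y ∈ adjoin k₁ ((· / g) '' (T : Set L))) (fun O hO hr' => by
        obtain ⟨y, h2, h3⟩ : ∃ y, (y = j r ∨ y = (j r)⁻¹) ∧ y ∈ O :=
          ((key O hO hr').1 _ (Finset.mem_erase.2 ⟨h0, Finset.mem_image_of_mem _
            (hS.mem_toFinset.2 hr)⟩)).elim (fun h => ⟨_, Or.inl rfl, h⟩) fun h => ⟨_, Or.inr rfl, h⟩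
        obtain ⟨b, h4, h5, h6⟩ := hg.den hG hO (Set.finite_singleton y) (by
          rintro _ rfl
          exact ⟨h3, by rcases h2 with rfl | rfl; exacts [⟨r, rfl⟩, inv_mem ⟨r, rfl⟩]⟩)
        exact ⟨b, h4, h5, y, h2, h6 y rfl⟩) h1
    obtain ⟨y, h3, h4⟩ := h3
    have h5 : y ∈ O := inv_mul_cancel_left₀ h2.2.1 y ▸ mul_mem h2.2.2 (h1.le h4)
    rcases h3 with rfl | rfl
    exacts [Or.inl h5, Or.inr h5]
  · have hO' : ∀ x ∈ O, x ∈ K₀ := fun x hx => by
      obtain ⟨a, ha, b, hb, -, rfl⟩ := h1.le_loc hx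
      exact div_mem (hg.adj_mem hG ha) (hg.adj_mem hG hb)
    obtain ⟨c, h2, h3, h4⟩ := (IsPoint.isIntegral_iff h1).1 (show IsIntegral O₁ z from hi)
    have h5 : c * z ∈ K₀ := mul_mem (hg.adj_mem hG h2) (by
      rw [← mul_div_cancel_left₀ z hq0]; exact div_mem (hO' _ hz) (hO' _ hq))
    obtain ⟨a, -, h6, h7⟩ := hg.cover hG hGf
      (fun a => a * (c * z) ∈ adjoin k₁ ((· / g) '' (T : Set L))) (fun O hO hr' => by
        obtain ⟨b, h6, h7, h8⟩ := hg.den hG hO (Set.finite_singleton (c * z)) (by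
          rintro _ rfl
          exact ⟨(key O hO hr').2.1 _ (hf.mem h5) (isIntegral_mono (k := k₁)
            (O := O.restrictScalars k₁) (fun x hx => hO.le (adjoin_up hx)) h4), h5⟩)
        exact ⟨b, h6, h7, h8 _ rfl⟩) h1
    rw [← inv_mul_cancel_left₀ h3.2.1 z, ← inv_mul_cancel_left₀ h6.2.1 (c * z)]
    exact mul_mem h3.2.2 (mul_mem h6.2.2 (h1.le h7))
  · obtain ⟨a, -, h2, h3⟩ := hg.cover hG hGf _ (fun O hO hr => hg.psm hE hG hGf hO
      ((key O hO hr).2.2.elim id (psm_of_stable hg.gl hG hO))) h1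
    exact psm_res (κ := κ) (O := O₁) (h3 O₁ h1 h2)

end Pool.Agent.MP_19ffc6_ag.Perf.Fin

namespace Pool.Agent.MP_19ffc6_ag.Perf

/-- The final statement from the upstairs form of the induction. -/
theorem perfRes_of_up (p : ℕ) [Fact p.Prime] (h : PerfAllU p) (k : Type) [Field k] [PerfectField k]
    [CharP k p] : PerfResN k := Fin.main_of p (Fin.modelQ (Fin.perfAllN_of_up h))

end Pool.Agent.MP_19ffc6_ag.Perf
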