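import Pool.Agent.MP_19ffc6_ag.perf.FinSpec

/-! PROJECT PERF, module FIN, first part: roots, spreading out and the passage to schemes. -/

namespace Pool.Agent.MP_19ffc6_ag.Perf.Fin

open Pool.Agent.R72.Wild Pool.Agent.R72.Lci Pool.Agent.R72.Res
open Pool.Agent.R72.Lci.Bridge Algebra

variable {k L : Type} [Field k] [Field L] [Algebra k L] {D O O' B : Subalgebra k L} {x : L}

lemma smoothAt_iff (h : IsPoint B O) : IsSmoothAt k (ctr h.lcl h.le) ↔ FormallySmooth k O := by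
  let _ := (Subalgebra.inclusion h.le).toRingHom.toAlgebra
  have : IsScalarTower k B O := .of_algebraMap_eq fun _ => rfl
  have h1 := isLocalization_of_le_loc h.le h.le_loc
  rw [show unMonoid B O = (ctr h.lcl h.le).primeCompl from
    Submonoid.ext fun x => not_not.symm] at h1
  let e := (IsLocalization.algEquiv (ctr h.lcl h.le).primeCompl
    (Localization.AtPrime (ctr h.lcl h.le)) O).restrictScalars k
  exact ⟨fun _ => .of_equiv e, fun _ => .of_equiv e.symm⟩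

/-- The smooth locus is open. -/
lemma exists_smooth (hB : B.FG) (h : IsPoint B O) (hs : FormallySmooth k O) :
    ∃ β ∈ B, Un O β ∧ ∀ O', IsPoint B O' → Un O' β → FormallySmooth k O' := by
  have : FiniteType k B := (Subalgebra.fg_iff_finiteType _).1 hB
  have : FinitePresentation k B := FinitePresentation.of_finiteType.1 inferInstance
  have := (smoothAt_iff h).2 hs
  obtain ⟨β, h1, h2⟩ := IsSmoothAt.exists_notMem_smooth k (ctr h.lcl h.le)
  refine ⟨β, β.2, not_not.1 h1, fun O' h' hu => (smoothAt_iff h').1 ?_⟩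
  exact basicOpen_subset_smoothLocus_iff_smooth.2 h2
    (show (⟨ctr h'.lcl h'.le, inferInstance⟩ : PrimeSpectrum B) ∈ _ from not_not.2 hu)

lemma exists_den (h : IsPoint D O) {T : Set L} (hT : T.Finite) (h' : ∀ x ∈ T, x ∈ O) :
    ∃ b ∈ D, Un O b ∧ ∀ x ∈ T, b * x ∈ D := by
  induction T, hT using Set.Finite.induction_on with
  | empty => exact ⟨1, one_mem _, Un.one _, fun _ h => h.elim⟩
  | @insert a T _ _ ih =>
    obtain ⟨b, h1, h2, h3⟩ := ih fun x hx => h' x (Or.inr hx)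
    obtain ⟨u, hu, v, hv, h4, e⟩ := h.le_loc (h' a (Or.inl rfl))
    refine ⟨v * b, mul_mem hv h1, h4.mul h2, ?_⟩
    rintro x (rfl | hx)
    · rw [e, mul_right_comm, mul_div_cancel₀ _ h4.2.1]; exact mul_mem hu h1
    · rw [mul_assoc]; exact mul_mem hv (h3 x hx)

lemma adj_fg (hD : D.FG) (x : L) : (adj D x).FG := hD.sup ⟨{x}, by simp⟩

lemma adj_inv_le_loc {t : L} (ht : t ∈ D) (hu : Un O t) : adj D t⁻¹ ≤ loc D O :=
  adj_le (le_loc _ _) (un_loc ht hu).2.2

lemma isPoint_of_adj {h : L} (hh : h ∈ B) (h0 : h ≠ 0) (H : IsPoint (adj B h⁻¹) O) :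
    IsPoint B O ∧ Un O h :=
  have h1 : Un O h := ⟨H.le (le_adj _ _ hh), h0, H.le (self_mem_adj _ _)⟩
  ⟨H.of_le_loc ((le_adj _ _).trans H.le) (adj_inv_le_loc hh h1), h1⟩

section Root

variable (p : ℕ) [Fact p.Prime] [CharP L p] (e : ℕ)

/-- The `p ^ e`-th roots of the members of `O`. -/
def root (O : Subalgebra k L) : Subalgebra k L where
  carrier := {x | x ^ p ^ e ∈ O}
  mul_mem' := fun ha hb => by simpa only [Set.mem_ofPred_eq, mul_pow] using mul_mem ha hb
  add_mem' := fun ha hb => by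
    simpa only [Set.mem_ofPred_eq, add_pow_char_pow] using add_mem ha hb
  algebraMap_mem' := fun c => pow_mem (O.algebraMap_mem c) _

variable {p e}

lemma mem_root : x ∈ root p e O ↔ x ^ p ^ e ∈ O := Iff.rfl

lemma le_root : O ≤ root p e O := fun _ hx => pow_mem hx _

lemma q_ne (p e : ℕ) [hp : Fact p.Prime] : p ^ e ≠ 0 := pow_ne_zero _ hp.out.ne_zero

omit [CharP L p] in
lemma un_of_pow (hx : x ∈ O) (h : Un O (x ^ p ^ e)) : Un O x := by
  rw [← Nat.sub_add_cancel (Nat.one_le_iff_ne_zero.2 (q_ne p e)), pow_succ'] at h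
  exact Un.of_mul hx (pow_mem hx _) h

lemma un_pow (h : O' ≤ root p e O) (hx : Un O' x) : Un O (x ^ p ^ e) :=
  ⟨h hx.1, pow_ne_zero _ hx.2.1, inv_pow x _ ▸ h hx.2.2⟩

lemma lcl_root (hO : Lcl O) (h : O ≤ O') (h' : O' ≤ root p e O) : Lcl O' := fun x hx y hy H => by
  have h1 := un_pow h' H
  rw [add_pow_char_pow] at h1
  exact (hO _ (h' hx) _ (h' hy) h1).imp (fun u => un_of_pow hx (u.mono h))
    fun u => un_of_pow hy (u.mono h)

lemma isPoint_root (h : IsPoint D O) {Z : Set L} (hZ : ∀ z ∈ Z, z ^ p ^ e ∈ O) :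
    IsPoint (D ⊔ adjoin k Z) (O ⊔ adjoin k Z) := by
  refine ⟨sup_le_sup_right h.le _, lcl_root (e := e) h.lcl le_sup_left
    (sup_le le_root (adjoin_le hZ)), sup_le (fun x hx => ?_) (le_sup_right.trans (le_loc _ _))⟩
  obtain ⟨a, ha, b, hb, hu, rfl⟩ := h.le_loc hx
  exact ⟨a, (le_sup_left : D ≤ _) ha, b, (le_sup_left : D ≤ _) hb, hu.mono le_sup_left, rfl⟩

lemma sup_scale {b : L} (hb : Un O b) (Z : Set L) :
    O ⊔ adjoin k ((b * ·) '' Z) = O ⊔ adjoin k Z := by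
  refine le_antisymm (sup_le le_sup_left (adjoin_le ?_)) (sup_le le_sup_left (adjoin_le ?_))
  · rintro _ ⟨z, hz, rfl⟩
    exact mul_mem ((le_sup_left : O ≤ _) hb.1) ((le_sup_right : _ ≤ O ⊔ _) (subset_adjoin hz))
  · intro z hz
    rw [SetLike.mem_coe, ← inv_mul_cancel_left₀ hb.2.1 z]
    exact mul_mem ((le_sup_left : O ≤ _) hb.2.2)
      ((le_sup_right : _ ≤ O ⊔ _) (subset_adjoin ⟨z, hz, rfl⟩))

omit [CharP L p] in
lemma mul_pow_mem {b z : L} (hb : b ∈ D) (h : b * z ^ p ^ e ∈ D) : (b * z) ^ p ^ e ∈ D := by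
  rw [mul_pow]
  nth_rw 1 [← Nat.sub_add_cancel (Nat.one_le_iff_ne_zero.2 (q_ne p e))]
  rw [pow_succ, mul_assoc]
  exact mul_mem (pow_mem hb _) h

/-- Spreading out. -/
lemma spread (hD : D.FG) (h : IsPoint D O) (hs : PSm p ⊤ O) : ∃ a ∈ D, Un O a ∧
    ∃ (e : ℕ) (B : Subalgebra k L), adj D a⁻¹ ≤ B ∧ B ≤ root p e (adj D a⁻¹) ∧ Smooth k B := by
  obtain ⟨e, Z, hZ, hs⟩ := hs
  obtain ⟨b, hb, hu, h1⟩ := exists_den h (Z.finite_toSet.image (· ^ p ^ e))
    (by rintro _ ⟨z, hz, rfl⟩; exact (hZ z hz).1)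
  have h2 : ∀ z ∈ (b * ·) '' (Z : Set L), z ^ p ^ e ∈ D := by
    rintro _ ⟨z, hz, rfl⟩; exact mul_pow_mem hb (h1 _ ⟨z, hz, rfl⟩)
  rw [← sup_scale hu] at hs
  have h3 : (D ⊔ adjoin k ((b * ·) '' (Z : Set L))).FG :=
    hD.sup (Subalgebra.fg_def.2 ⟨_, Z.finite_toSet.image _, rfl⟩)
  have h4 : D ⊔ adjoin k ((b * ·) '' (Z : Set L)) ≤ root p e D := sup_le le_root (adjoin_le h2)
  obtain ⟨β, h5, h6, h7⟩ := exists_smooth h3 (isPoint_root h fun z hz => h.le (h2 z hz)) hs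
  have h8 : Un O (β ^ p ^ e) :=
    un_pow (sup_le le_root (adjoin_le fun z hz => h.le (h2 z hz))) h6
  have := (Subalgebra.fg_iff_finiteType _).1 (adj_fg h3 (β ^ p ^ e)⁻¹)
  refine ⟨_, h4 h5, h8, e, adj _ (β ^ p ^ e)⁻¹, sup_le_sup_right le_sup_left _,
    adj_le (fun x hx => le_adj _ _ (h4 hx)) (le_root (self_mem_adj _ _)),
    smooth_of_points _ fun O' h' => ?_⟩
  obtain ⟨h9, h10⟩ := isPoint_of_adj (pow_mem h5 _) h8.2.1 h'
  exact h7 O' h9 (un_of_pow (h9.le h5) h10)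

end Root

section Scheme

open AlgebraicGeometry CategoryTheory Limits

set_option backward.isDefEq.respectTransparency false

lemma radicial (p : ℕ) [Fact p.Prime] [CharP L p] {e : ℕ} (h : D ≤ B) (h' : B ≤ root p e D)
    [FiniteType k B] : IsFinite (ic h) ∧ Surjective (ic h) ∧ UniversallyInjective (ic h) := by
  let _ := (Subalgebra.inclusion h).toRingHom.toAlgebra
  have : IsScalarTower k D B := .of_algebraMap_eq fun _ => rfl
  have : Algebra.IsIntegral D B := ⟨fun x => IsIntegral.of_pow (Nat.pos_of_ne_zero (q_ne p e))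
    (by exact isIntegral_algebraMap (x := (⟨_, h' x.2⟩ : D)))⟩
  have : FiniteType D B := .of_restrictScalars_finiteType k D B
  have h1 : Module.Finite D B := Algebra.IsIntegral.finite
  have h2 : FaithfulSMul D B :=
    (faithfulSMul_iff_algebraMap_injective _ _).2 (Subalgebra.inclusion_injective h)
  refine ⟨(IsFinite.SpecMap_iff _).2 h1, ⟨?_⟩, ((tfae_universallyInjective _).out 0 1).2 ?_⟩
  · exact Algebra.IsIntegral.comap_surjective D B
  · intro F _ g₁ g₂ hg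
    obtain ⟨φ₁, rfl⟩ := exists_sp g₁
    obtain ⟨φ₂, rfl⟩ := exists_sp g₂
    simp only [sp_comp] at hg
    have h3 := sp_inj hg
    have : CharP B p := B.val.toRingHom.charP Subtype.val_injective p
    have : CharP F p := CharP.of_ringHom_of_ne_zero φ₁ p (Fact.out : p.Prime).ne_zero
    congr 2
    ext x
    refine iterateFrobenius_inj F p e ?_
    simp only [iterateFrobenius_def, ← map_pow]
    exact RingHom.congr_fun h3 ⟨_, h' x.2⟩

/-- A point of a chart with a smooth radicial cover. -/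
lemma rad_chart (p : ℕ) [Fact p.Prime] [CharP L p] {Y : Scheme.{0}}
    {η : Spec (CommRingCat.of L) ⟶ Y} {sY : Y ⟶ Spec (CommRingCat.of k)}
    (hη : η ≫ sY = sp (algebraMap k L)) {j : Spec (CommRingCat.of D) ⟶ Y} (hj : IsChart η D j)
    (hD : D.FG) (H : ∀ O, IsPoint D O → PSm p ⊤ O) (y : Y) (hy : y ∈ Set.range j) :
    ∃ (U : Y.Opens) (W : Scheme.{0}) (g : W ⟶ U), y ∈ U ∧ IsFinite g ∧ Surjective g ∧
      UniversallyInjective g ∧ Smooth (g ≫ U.ι ≫ sY) := by
  obtain ⟨q, rfl⟩ := hy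
  obtain ⟨O, hO, hq, -⟩ := Descent.exists_point D q.asIdeal
  obtain ⟨h, hh, hu, e, B, h3, h5, h6⟩ := spread hD hO (H O hO)
  obtain ⟨h1, h2⟩ := away (le_adj D h⁻¹) hh hu.2.1 (self_mem_adj _ _) le_rfl
  obtain ⟨q', rfl⟩ := (h2 q).2 ((hq ⟨h, hh⟩).1 hu)
  have := hj.opn
  have h4 : IsChart η _ (ic (le_adj D h⁻¹) ≫ j) :=
    ⟨inferInstance, by rw [← Category.assoc, gp_ic, hj.gen]⟩
  obtain ⟨a1, a2, a3⟩ := radicial p h3 h5
  refine ⟨(ic (le_adj D h⁻¹) ≫ j).opensRange, _,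
    ic h3 ≫ (ic (le_adj D h⁻¹) ≫ j).isoOpensRange.hom, ⟨q', by simp⟩, inferInstance,
    inferInstance, MorphismProperty.comp_mem @UniversallyInjective _ _ a3 inferInstance, ?_⟩
  rw [Category.assoc, Scheme.Hom.isoOpensRange_hom_ι_assoc, h4.over hη, sp_comp,
    HasRingHomProperty.Spec_iff (P := @Smooth)]
  exact RingHom.smooth_algebraMap.2 h6

/-- A point of a chart whose points are normal. -/
lemma normal_chart {Y : Scheme.{0}} {η : Spec (CommRingCat.of L) ⟶ Y}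
    {j : Spec (CommRingCat.of D) ⟶ Y} (hj : IsChart η D j)
    (H : ∀ O, IsPoint D O → IsIntegrallyClosed O) (y : Y) (hy : y ∈ Set.range j) :
    IsIntegrallyClosed (Y.presheaf.stalk y) := by
  obtain ⟨q, rfl⟩ := hy
  obtain ⟨O, hO, hq, -⟩ := Descent.exists_point D q.asIdeal
  have := hj.opn
  have := H O hO
  let _ := (Subalgebra.inclusion hO.le).toRingHom.toAlgebra
  have h1 := isLocalization_of_le_loc hO.le hO.le_loc
  rw [show unMonoid D O = q.asIdeal.primeCompl from Submonoid.ext hq] at h1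
  let _ : Algebra D ((Spec (CommRingCat.of D)).presheaf.stalk q) :=
    StructureSheaf.stalkAlgebra D q
  have : IsLocalization.AtPrime ((Spec (CommRingCat.of D)).presheaf.stalk q) q.asIdeal :=
    StructureSheaf.IsLocalization.to_stalk D q
  exact .of_equiv ((IsLocalization.algEquiv q.asIdeal.primeCompl O
    ((Spec (CommRingCat.of D)).presheaf.stalk q)).toRingEquiv.trans
    (asIso <| j.stalkMap q).commRingCatIsoToRingEquiv.symm)

variable (k) in
/-- The final statement over the field `k`, with a normal model. -/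
def _root_.Pool.Agent.MP_19ffc6_ag.Perf.PerfResN : Prop :=
  ∀ (X : Scheme.{0}) (sX : X ⟶ Spec (CommRingCat.of k)),
    IsIntegral X → IsSeparated sX → LocallyOfFiniteType sX → QuasiCompact sX →
    ∃ (Y : Scheme.{0}) (f : Y ⟶ X), IsIntegral Y ∧ IsProper f ∧
      (∃ V : X.Opens, V ≠ ⊥ ∧ IsIso (morphismRestrict f V)) ∧
      ∀ y : Y, IsIntegrallyClosed (Y.presheaf.stalk y) ∧
        ∃ (U : Y.Opens) (W : Scheme.{0}) (g : W ⟶ U), y ∈ U ∧ IsFinite g ∧ Surjective g ∧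
          UniversallyInjective g ∧ Smooth (g ≫ U.ι ≫ f ≫ sX)

variable (k) in
/-- The algebraic form of the final statement. -/
def ModelQ (p : ℕ) : Prop :=
  ∀ (K : Type) [Field K] [Algebra k K] (S : Set K), S.Finite →
    IntermediateField.adjoin k S = ⊤ →
    ∃ (L : Type) (_ : Field L) (_ : Algebra k L) (j : K →ₐ[k] L) (M : Submodule k L),
      M.FG ∧ M ≠ ⊥ ∧ (∀ x ∈ M, x ∈ j.range) ∧ ∀ O : Subalgebra k L, Pt ⊥ M O →
        (∀ r ∈ S, j r ∈ O ∨ (j r)⁻¹ ∈ O) ∧ IsIntegrallyClosed O ∧ PSm p ⊤ O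

theorem main_of (p : ℕ) [Fact p.Prime] [CharP k p] (hM : ModelQ k p) : PerfResN k := by
  intro X sX hint _ hlft hqc
  obtain ⟨K, _, _, η0, ι, hι, A0, c0, hη0, hc0, hcov0, hfr0⟩ := exists_atlas X sX
  choose t ht using fun i => (hc0 i).fg hη0
  obtain ⟨i0, -⟩ := hcov0 (genericPoint X)
  have hgen : IntermediateField.adjoin k (⋃ i, (t i : Set K)) = ⊤ := by
    have h1 : ∀ a ∈ A0 i0, a ∈ IntermediateField.adjoin k (⋃ i, (t i : Set K)) := fun a ha => by
      rw [← ht i0] at ha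
      exact IntermediateField.algebra_adjoin_le_adjoin k _
        (Algebra.adjoin_mono (Set.subset_iUnion (fun i => (t i : Set K)) i0) ha)
    refine eq_top_iff.2 fun x _ => ?_
    obtain ⟨b, hb, hb0, hbx⟩ := hfr0 i0 x
    have h2 := mul_mem (inv_mem (h1 _ hb)) (h1 _ hbx)
    rwa [inv_mul_cancel_left₀ hb0] at h2
  obtain ⟨L, _, _, φ, M, ⟨T0, rfl⟩, hM0, hMφ, hP⟩ := hM K (⋃ i, (t i : Set K))
    (Set.finite_iUnion fun i => (t i).finite_toSet) hgen
  have : CharP L p := (Algebra.charP_iff k L p).1 inferInstance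
  obtain ⟨T, hT, hT0, hTM⟩ : ∃ T : Set L, T.Finite ∧ (∀ m ∈ T, m ≠ 0) ∧
      Submodule.span k (T0 : Set L) = Submodule.span k T :=
    ⟨(T0 : Set L) \ {0}, T0.finite_toSet.sdiff, fun m hm => hm.2,
      Submodule.span_sdiff_singleton_zero.symm⟩
  rw [hTM] at hM0 hMφ hP
  obtain ⟨m0⟩ : Nonempty T := by
    by_contra H
    rw [not_nonempty_iff, Set.isEmpty_coe_sort] at H
    exact hM0 (by rw [H, Submodule.span_empty])
  have hη : (sp φ.toRingHom ≫ η0) ≫ sX = sp (algebraMap k L) := by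
    rw [Category.assoc, hη0, sp_comp]
    congr 2
    exact RingHom.ext φ.commutes
  have hch : ∀ i, ∃ c, IsChart (sp φ.toRingHom ≫ η0) ((A0 i).map φ) c ∧
      Set.range c = Set.range (c0 i) := fun i => by
    have := (hc0 i).opn
    refine chart_of_injective (c0 i) (φ.toRingHom.comp (A0 i).val.toRingHom)
      (φ.toRingHom.injective.comp Subtype.val_injective)
      (by rw [← sp_comp, Category.assoc, (hc0 i).gen]) _ fun x => ?_
    exact ⟨fun ⟨y, hy, e⟩ => ⟨⟨y, hy⟩, e⟩, fun ⟨y, e⟩ => ⟨y, y.2, e⟩⟩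
  choose c hc hc' using hch
  obtain ⟨P, sP, ζ, κ, hpr, hζ, hκ, hκ'⟩ := proj_model (k := k) T hT hT0 m0
  choose j hj hjf hjc using fun i (m : T) => prod_chart hη hζ (hc i) (hκ m)
  have hcov : ∀ y, ∃ i m, y ∈ Set.range (j i m) := fun y => by
    obtain ⟨i, hi⟩ := hcov0 _
    obtain ⟨m, hm⟩ := hκ' _
    exact ⟨i, m, hjc i m y (hc' i ▸ hi) hm⟩
  refine ⟨_, (pullback.lift (sp φ.toRingHom ≫ η0) ζ (hη.trans hζ.symm)).imageι ≫
    pullback.fst sX sP, isIntegral_of_charts (k := k) (Scheme.Hom.toImage _) fun y => ?_,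
    inferInstance, ?_, fun y => ?_⟩
  · obtain ⟨i, m, h⟩ := hcov y
    exact ⟨_, _, hj i m, h⟩
  · have := hT.to_subtype
    have := (hc i0).opn
    obtain ⟨a, ha, ha0, hat⟩ := exists_denom ((A0 i0).map φ) (fun x : T × T => (x.1 : L) / x.2)
      fun x => by
        obtain ⟨u, hu⟩ := hMφ _ (Submodule.subset_span x.1.2)
        obtain ⟨v, hv⟩ := hMφ _ (Submodule.subset_span x.2.2)
        obtain ⟨b, hb, hb0, hb'⟩ := hfr0 i0 (u / v)
        refine ⟨φ b, ⟨b, hb, rfl⟩, (_root_.map_ne_zero φ).2 hb0, _, hb', ?_⟩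
        rw [← hu, ← hv]
        simp
    refine birational _ (c i0) ha ha0 m0 _ (fun _ => le_sup_left)
      (fun m => sup_le (le_adj _ _) (chart_le bot_le fun y hy => ?_)) (j i0) (hj i0) (hjf i0)
      fun y hy => ?_
    · induction hy using Submodule.span_induction with
      | mem y hy => exact hat (⟨y, hy⟩, m)
      | zero => simp
      | add a b _ _ ha hb => rw [add_div]; exact add_mem ha hb
      | smul c a _ ha => rw [smul_div_assoc]; exact Subalgebra.smul_mem _ ha c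
    · obtain ⟨m, hm⟩ := hκ' _
      exact ⟨m, hjc i0 m y hy hm⟩
  · obtain ⟨i, m, h⟩ := hcov y
    have h1 : (pullback.lift (sp φ.toRingHom ≫ η0) ζ (hη.trans hζ.symm)).toImage ≫
        ((pullback.lift (sp φ.toRingHom ≫ η0) ζ (hη.trans hζ.symm)).imageι ≫
          pullback.fst sX sP) ≫ sX = sp (algebraMap k L) := by
      rw [← Category.assoc, Scheme.Hom.toImage_imageι_assoc, pullback.lift_fst]
      exact hη
    suffices H : ∀ O, IsPoint _ O → IsIntegrallyClosed O ∧ PSm p ⊤ O from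
      ⟨normal_chart (hj i m) (fun O hO => (H O hO).1) y h,
        rad_chart p h1 (hj i m) ((hj i m).fg h1) (fun O hO => (H O hO).2) y h⟩
    intro O hO
    refine (hP O (pt_of_cmp (Submodule.subset_span m.2) (hT0 m m.2) hO (S := φ '' t i) ?_ ?_
      fun O' hO' => ?_)).2
    · rw [← ht i, AlgHom.map_adjoin]
    · rintro _ ⟨r, hr, rfl⟩
      exact ⟨r, ht i ▸ Algebra.subset_adjoin hr, rfl⟩
    · rintro _ ⟨r, hr, rfl⟩
      exact (hP O' hO').1 r (Set.mem_iUnion.2 ⟨i, hr⟩)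

end Scheme

end Pool.Agent.MP_19ffc6_ag.Perf.Fin
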