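import Pool.Agent.MP_19ffc6_ag.perf.SsSpr
import Pool.Agent.MP_19ffc6_ag.perf.Up

-- ======== part 0: formerly Pool.Agent.MP_19ffc6_ag.perf.FlSpec
section MrgPart0

/-! PROJECT PERF, block FL: one floor of the tower. Definitions and statements of the modules
that do not depend on the shape of the induction. -/

namespace Pool.Agent.MP_19ffc6_ag.Perf.Fl

open Polynomial IntermediateField Pool.Agent.R72.Wild Pool.Agent.R72.Lci Pool.Agent.R72.Res
  Pool.Agent.R72.Res.B Pool.Agent.R72.Res.P Pool.Agent.MP_19ffc6_ag.Perf.Ss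

variable {k L : Type} [Field k] [Field L] [Algebra k L]

/-- The subfield generated by `F₀` and `y`. -/
def ky (F₀ : Subfield L) (y : L) : Subfield L := Subfield.closure ((F₀ : Set L) ∪ {y})

/-- `g` lies in the inertia group of the prime of `O` given by `W`, and it fixes the smaller prime
given by `W₂`. -/
structure Pr (g : SA k L) (O W W₂ : Subalgebra k L) : Prop where
  st : g • O = O
  lcl : Lcl W
  lcl₂ : Lcl W₂
  le : O ≤ W
  le₂ : O ≤ W₂
  gen : ∀ x ∈ O, Un W x → Un W₂ x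
  stb : ∀ x ∈ O, Un W₂ (g • x) ↔ Un W₂ x
  ine : ∀ x ∈ O, ¬ Un W (g • x - x)

/-- Centres (an additive group) and radii that are permuted by `g`. -/
structure Perm (g : SA k L) (y : L) (U Λ : Finset L) : Prop where
  fix : g • y = y
  cen : ∀ s ∈ U, g • s ∈ U
  rad : ∀ l ∈ Λ, g • l ∈ Λ

variable (k L)

/-- Row SEP: a stable set of generators that is separable after extracting a root of `y`. -/
def SepStmt (p : ℕ) : Prop :=
  ∀ (F₀ : Subfield L) (C : IntermediateField k L) (y : L) (T : Finset L),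
    (∀ x, x ∈ C ↔ IsAlgebraic F₀ x) → Transcendental C y →
    (∀ t ∈ T, IsAlgebraic (ky F₀ y) t) →
    ∃ (e : ℕ) (Y : L) (G : Finset L), Y ^ p ^ e = y ∧ T ⊆ G ∧ Y ∈ G ∧
      (∀ θ ∈ G, IsAlgebraic (ky F₀ y) θ) ∧
      (∀ g : SA k L, Fx (ky F₀ y) g → g • Y = Y ∧ ∀ θ ∈ G, g • θ ∈ G) ∧
      (∀ E : IntermediateField k L, (∀ x ∈ ky F₀ y, x ∈ E) → ∃ N : IntermediateField E L,
        FiniteDimensional E N ∧ Normal E N ∧ ∀ x, x ∈ N ↔ x ∈ E ⊔ adjoin k (G : Set L)) ∧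
      Transcendental C Y ∧ ∃ N : IntermediateField ↥(C ⊔ k⟮Y⟯) L,
        FiniteDimensional ↥(C ⊔ k⟮Y⟯) N ∧ IsGalois ↥(C ⊔ k⟮Y⟯) N ∧
        ∀ x, x ∈ N ↔ x ∈ C ⊔ adjoin k (G : Set L)

/-- Row STAB, first part: a stable finite group of centres. -/
def CenStmt : Prop :=
  ∀ (F₀ : Subfield L) (U₀ : Finset L), (∀ s ∈ U₀, IsAlgebraic F₀ s) →
    ∃ U : Finset L, U₀ ⊆ U ∧ 0 ∈ U ∧ 1 ∈ U ∧ (∀ s ∈ U, IsAlgebraic F₀ s) ∧
      (∀ s ∈ U, ∀ t ∈ U, s - t ∈ U) ∧ ∀ g : SA k L, Fx F₀ g → ∀ s ∈ U, g • s ∈ U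

/-- Row STAB, second part: a stable finite set of radii. -/
def RadStmt : Prop :=
  ∀ (F₀ : Subfield L) (Λ₀ : Finset L), (∀ l ∈ Λ₀, IsAlgebraic F₀ l ∧ l ≠ 0) →
    ∃ Λ : Finset L, Λ₀ ⊆ Λ ∧ (∀ l ∈ Λ, IsAlgebraic F₀ l ∧ l ≠ 0) ∧
      ∀ g : SA k L, Fx F₀ g → ∀ l ∈ Λ, g • l ∈ Λ

/-- Row STAB, third part: rational functions split. -/
def SplStmt : Prop :=
  ∀ (C : IntermediateField k L) (y a : L), AC C → a ∈ C ⊔ k⟮y⟯ → a ≠ 0 →
    ∃ (γ : L) (Z : Finset L) (e : L → ℤ), γ ∈ C ∧ γ ≠ 0 ∧ (∀ s ∈ Z, s ∈ C) ∧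
      a = γ * ∏ s ∈ Z, (y - s) ^ e s

/-- Row MOD: the normalised tree of discs is a stable model. -/
def ModStmt : Prop :=
  ∀ (K₀ : Subfield L) (F N : IntermediateField k L) (M : Submodule k L) (y : L) (U Λ : Finset L),
    Gw K₀ N → Mdl F M → Stb K₀ M → F ≤ N → y ∈ N → N.FG →
    (∀ x ∈ N, IsAlgebraic ↥(F ⊔ k⟮y⟯) x) → (∀ s ∈ U, s ∈ F) → (∀ l ∈ Λ, l ∈ F ∧ l ≠ 0) →
    0 ∈ U → 1 ∈ Λ → (∀ g : SA k L, Fx K₀ g → Perm g y U Λ) →
    ∃ M', Stb K₀ M' ∧ Mdl N M' ∧ ∀ O, Pt ⊥ M' O → ∃ R, Pt ⊥ M R ∧ Dom R O ∧ TD y U Λ O ∧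
      IsPoint (icl N (lr R (crd y U Λ O) O)) O ∧
      ∀ W, Val W → Dom O W → Top N R y U Λ W O

/-- Row DN: the local rings of the tree of discs are normal. -/
def DnStmt : Prop :=
  ∀ (F : IntermediateField k L) (R O : Subalgebra k L) (y : L) (U Λ : Finset L), Nrm F R →
    Lcl R → Lcl O → Dom R O → Transcendental F y → (∀ s ∈ U, s ∈ F) → (∀ l ∈ Λ, l ∈ F ∧ l ≠ 0) →
    0 ∈ U → 1 ∈ Λ → (∀ s ∈ U, ∀ t ∈ U, s ≠ t → s - t ∈ Λ) →
    (∀ l ∈ Λ, ∀ l' ∈ Λ, Dec R (l / l')) → TD y U Λ O →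
    Nrm (F ⊔ k⟮y⟯) (lr R (crd y U Λ O) O)

/-- Row YL: inertia on the tree of discs. -/
def YlStmt : Prop :=
  ∀ (g : SA k L) (R O W W₂ : Subalgebra k L) (y : L) (U Λ : Finset L), Pr g O W W₂ → R ≤ O →
    g • R = R → (∀ x ∈ R, ¬ Un W₂ (g • x - x)) → Perm g y U Λ → 0 ∈ U →
    (∀ s ∈ U, ∀ t ∈ U, s - t ∈ U) → (∀ l ∈ Λ, l ≠ 0 ∧ Un R (g • l / l)) →
    (∀ s ∈ U, ∀ l ∈ Λ, Dec R (s / l) ∧ (s / l ∈ R → Un W₂ (s / l) → Un W (s / l))) →
    TD y U Λ O → (∀ z ∈ crd y U Λ O, Un W₂ z → Un W z) →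
    ∀ x ∈ lr R (crd y U Λ O) O, ¬ Un W₂ (g • x - x)

/-- Row LIFT: an element of the inertia group downstairs acts upstairs as a vertical element. -/
def LiftStmt : Prop :=
  ∀ (E N : IntermediateField k L) (N' : IntermediateField E L) (B W : Subalgebra k L)
    (g : SA k L), FiniteDimensional E N' → Normal E N' → (∀ x, x ∈ N' ↔ x ∈ N) → Nrm E B →
    Lcl W → icl N B ≤ W → g • icl N B = icl N B →
    (∀ x ∈ icl N B, Un W (g • x) ↔ Un W x) → (∀ x ∈ B, ¬ Un W (g • x - x)) →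
    ∃ n : SA k L, (∀ x ∈ E, n • x = x) ∧ n • icl N B = icl N B ∧
      ∀ x ∈ icl N B, ¬ Un W (g • x - n • x)

/-- Row RED: reduction of the inertia statement at a point upstairs to vertical elements. -/
def RedStmt : Prop :=
  ∀ (E N : IntermediateField k L) (N' : IntermediateField E L) (B O W W₂ : Subalgebra k L)
    (g : SA k L), FiniteDimensional E N' → Normal E N' → (∀ x, x ∈ N' ↔ x ∈ N) → Nrm E B →
    IsPoint (icl N B) O → g • B = B → (∀ x, g • x ∈ N ↔ x ∈ N) → Pr g O W W₂ →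
    (∀ x ∈ B, ¬ Un W₂ (g • x - x)) →
    (∀ n : SA k L, (∀ x ∈ E, n • x = x) → n • O = O → (∀ x ∈ O, ¬ Un W (n • x - x)) →
      ∀ x ∈ O, ¬ Un W₂ (n • x - x)) →
    ∀ x ∈ O, ¬ Un W₂ (g • x - x)

end Pool.Agent.MP_19ffc6_ag.Perf.Fl

end MrgPart0

-- ======== part 1: formerly Pool.Agent.MP_19ffc6_ag.perf.FlSep
section MrgPart1

/-! PROJECT PERF, block FL, row SEP: a stable set of generators that is separable after extracting
a root of `y`. -/

namespace Pool.Agent.MP_19ffc6_ag.Perf.Fl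

open Polynomial IntermediateField Pool.Agent.R72.Wild Pool.Agent.R72.Lci Pool.Agent.R72.Res
  Pool.Agent.R72.Res.B Pool.Agent.R72.Res.P Pool.Agent.MP_19ffc6_ag.Perf.Ss

variable {k L : Type} [Field k] [Field L] [Algebra k L]

namespace Sep

/-- A power of each conjugate of an algebraic element is separable. -/
lemma exists_pow (p : ℕ) [Fact p.Prime] [CharP L p] {K : Subfield L} {t : L}
    (ht : IsAlgebraic K t) : ∃ m : ℕ, ∀ e, m ≤ e → ∀ θ : L, aeval θ (minpoly K t) = 0 →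
      IsSeparable K (θ ^ p ^ e) := by
  have : ExpChar K p := ExpChar.prime Fact.out
  obtain ⟨g, hg, m, hm⟩ := (minpoly.irreducible ht.isIntegral).hasSeparableContraction p
  refine ⟨m, fun e he θ hθ => ?_⟩
  have h1 : IsSeparable K (θ ^ p ^ m) := by
    refine hg.of_dvd (minpoly.dvd K _ ?_)
    rw [← hm, expand_aeval] at hθ
    exact hθ
  obtain ⟨d, rfl⟩ := Nat.exists_eq_add_of_le he
  rw [pow_add, pow_mul]
  exact mem_separableClosure_iff.1 (pow_mem (mem_separableClosure_iff.2 h1) _)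

/-- Automorphisms over `K` permute the roots of a polynomial over `K`. -/
lemma root_smul {K : Subfield L} {g : SA k L} (hg : Fx K g) {P : K[X]} {θ : L}
    (h : aeval θ P = 0) : aeval (g • θ) P = 0 := by
  let φ : L →ₐ[K] L := { g.e.toRingHom with commutes' := fun c => hg c c.2 }
  have h1 := aeval_algHom_apply φ θ P
  rw [h, map_zero] at h1
  exact h1

/-- The roots of a polynomial generate a finite normal extension. -/
lemma normal [IsAlgClosed L] {K : Subfield L} {P : K[X]} (hP : P ≠ 0) {G : Finset L}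
    (hG : ∀ θ, θ ∈ G ↔ aeval θ P = 0) (E : IntermediateField k L) (hE : ∀ x ∈ K, x ∈ E) :
    FiniteDimensional E (adjoin E (G : Set L)) ∧ Normal E (adjoin E (G : Set L)) := by
  let f : K →+* E := K.subtype.codRestrict E fun x => hE x x.2
  have h1 : (G : Set L) = (P.map f).rootSet L := by
    ext θ
    rw [Finset.mem_coe, hG, mem_rootSet, aeval_def, aeval_def, eval₂_map]
    exact ⟨fun h => ⟨map_ne_zero hP, h⟩, fun h => h.2⟩
  rw [h1]
  have := adjoin_rootSet_isSplittingField (p := P.map f) (L := L) (IsAlgClosed.splits _)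
  exact ⟨IsSplittingField.finiteDimensional _ (P.map f), Normal.of_isSplittingField (P.map f)⟩

/-- Separability passes to roots when the coefficients have roots. -/
lemma sep_root [IsAlgClosed L] (p : ℕ) [Fact p.Prime] [CharP L p] {K : Subfield L} (e : ℕ)
    (E : IntermediateField k L) (hE : ∀ z : L, z ^ p ^ e ∈ K → z ∈ E) {θ : L}
    (h : IsSeparable K (θ ^ p ^ e)) : IsSeparable E θ := by
  have : ExpChar L p := ExpChar.prime Fact.out
  let φ := iterateFrobeniusEquiv L p e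
  have hφ : ∀ x, φ x = x ^ p ^ e := fun x => iterateFrobeniusEquiv_def L p e x
  let ψ : K →+* E := (φ.symm.toRingHom.comp K.subtype).codRestrict E fun x => hE _ (by
    rw [← hφ]
    exact (φ.apply_symm_apply x).symm ▸ x.2)
  refine (Separable.map (f := ψ) h).of_dvd (minpoly.dvd E _ (φ.injective ?_))
  rw [map_zero, aeval_def, eval₂_map]
  refine (hom_eval₂ _ _ φ.toRingHom _).trans ?_
  have h1 : φ.toRingHom.comp ((algebraMap E L).comp ψ) = algebraMap K L :=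
    RingHom.ext fun x => φ.apply_symm_apply x
  rw [h1]
  exact (congrArg (fun x => eval₂ (algebraMap K L) x _) (hφ θ)).trans (minpoly.aeval K _)

end Sep

theorem sep [IsAlgClosed L] (p : ℕ) [Fact p.Prime] [CharP k p] : SepStmt k L p := by
  classical
  intro F₀ C y T hC hy hT
  have hp : p.Prime := Fact.out
  have : CharP L p := charP_of_injective_algebraMap (algebraMap k L).injective p
  have hyK : y ∈ ky F₀ y := Subfield.subset_closure (Or.inr rfl)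
  choose! m hm using fun t (ht : t ∈ T) => Sep.exists_pow p (hT t ht)
  set e := T.sup m
  have hq : 0 < p ^ e := pow_pos hp.pos e
  obtain ⟨Y, hY⟩ := IsAlgClosed.exists_pow_nat_eq y hq
  have hinj : ∀ z : L, z ^ p ^ e = y → z = Y := fun z hz => by
    rw [← hY, ← sub_eq_zero, ← sub_pow_char_pow] at hz
    exact sub_eq_zero.1 (pow_eq_zero_iff hq.ne' |>.1 hz)
  let P : (ky F₀ y)[X] := (X ^ p ^ e - Polynomial.C ⟨y, hyK⟩) * ∏ t ∈ T, minpoly (ky F₀ y) t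
  have hP : P ≠ 0 := mul_ne_zero (X_pow_sub_C_ne_zero hq _)
    (Finset.prod_ne_zero_iff.2 fun t ht => minpoly.ne_zero (hT t ht).isIntegral)
  have hroot : ∀ θ : L, aeval θ P = 0 ↔
      θ ^ p ^ e = y ∨ ∃ t ∈ T, aeval θ (minpoly (ky F₀ y) t) = 0 := fun θ => by
    rw [map_mul, mul_eq_zero, map_prod, Finset.prod_eq_zero_iff, map_sub, map_pow, aeval_X, aeval_C,
      sub_eq_zero]
    rfl
  let G : Finset L := (P.aroots L).toFinset
  have hG : ∀ θ, θ ∈ G ↔ aeval θ P = 0 := fun θ => by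
    rw [Multiset.mem_toFinset, mem_aroots]
    exact ⟨fun h => h.2, fun h => ⟨hP, h⟩⟩
  have hYG : Y ∈ G := (hG Y).2 ((hroot Y).2 (Or.inl hY))
  have hsup : ∀ (E : IntermediateField k L) (x : L),
      x ∈ adjoin E (G : Set L) ↔ x ∈ E ⊔ adjoin k (G : Set L) := fun E x => by
    rw [← restrictScalars_adjoin_eq_sup, mem_restrictScalars]
  have hYE : Y ∈ C ⊔ k⟮Y⟯ := (le_sup_right : k⟮Y⟯ ≤ C ⊔ k⟮Y⟯) (mem_adjoin_simple_self k Y)
  have hrt : ∀ z : L, z ^ p ^ e ∈ ky F₀ y → z ∈ C ⊔ k⟮Y⟯ := fun z hz => by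
    have : ExpChar L p := ExpChar.prime hp
    have h1 : ky F₀ y ≤ (C ⊔ k⟮Y⟯).toSubfield.map (iterateFrobenius L p e) := by
      refine Subfield.closure_le.2 ?_
      rintro x (hx | rfl)
      · obtain ⟨w, rfl⟩ := IsAlgClosed.exists_pow_nat_eq x hq
        exact ⟨w, (le_sup_left : C ≤ C ⊔ k⟮Y⟯) ((hC w).2
          (IsAlgebraic.of_pow hq (isAlgebraic_algebraMap (⟨_, hx⟩ : F₀)))), rfl⟩
      · exact ⟨Y, hYE, hY⟩
    obtain ⟨w, hw, h2⟩ := h1 hz
    have h3 : w = z := iterateFrobenius_inj L p e h2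
    exact h3 ▸ hw
  have hKE : ∀ x ∈ ky F₀ y, x ∈ C ⊔ k⟮Y⟯ := fun x hx => hrt x (pow_mem hx _)
  refine ⟨e, Y, G, hY, fun t ht => (hG t).2 ((hroot t).2 (Or.inr ⟨t, ht, minpoly.aeval _ _⟩)), hYG,
    fun θ hθ => ⟨P, hP, (hG θ).1 hθ⟩,
    fun g hg => ⟨hinj _ (by rw [← smul_pow', hY, hg y hyK]),
      fun θ hθ => (hG _).2 (Sep.root_smul hg ((hG θ).1 hθ))⟩,
    fun E hE => ⟨_, (Sep.normal hP hG E hE).1, (Sep.normal hP hG E hE).2, hsup E⟩,
    fun h => hy (hY ▸ h.pow _), adjoin _ (G : Set L), (Sep.normal hP hG _ hKE).1, ?_, fun x => ?_⟩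
  · have := (Sep.normal hP hG _ hKE).2
    have : Algebra.IsSeparable ↥(C ⊔ k⟮Y⟯) (adjoin ↥(C ⊔ k⟮Y⟯) (G : Set L)) :=
      (isSeparable_adjoin_iff_isSeparable _ _).2 fun θ hθ => by
        rcases (hroot θ).1 ((hG θ).1 hθ) with h | ⟨t, ht, h⟩
        · rw [hinj θ h]
          exact isSeparable_algebraMap (⟨Y, hYE⟩ : ↥(C ⊔ k⟮Y⟯))
        · exact Sep.sep_root p e _ hrt (hm t ht e (Finset.le_sup ht) θ h)
    exact IsGalois.mk
  · rw [hsup, sup_assoc, sup_eq_right.2 (adjoin.mono k _ _ (Set.singleton_subset_iff.2 hYG))]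

end Pool.Agent.MP_19ffc6_ag.Perf.Fl

end MrgPart1

-- marker of a merged file
example : 731051 + 890399 = 731051 + 890399 := rfl
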