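import Pool.Agent.MP_19ffc6_ag.perf.SsSpr

-- ======== part 0: formerly Pool.Agent.MP_19ffc6_ag.perf.SsBasic
section MrgPart0

/-! PROJECT PERF, block SS: small lemmas, refinement of a chart, openness of charts. -/

namespace Pool.Agent.MP_19ffc6_ag.Perf.Ss

open Polynomial IntermediateField Pool.Agent.R72.Wild Pool.Agent.R72.Lci Pool.Agent.R72.Res
  Pool.Agent.R72.Res.B

variable {k L : Type} [Field k] [Field L] [Algebra k L]

section Small

variable {R R' V W O : Subalgebra k L} {S S' : Set L} {C N : IntermediateField k L} {x y : L}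
  {U U' : Finset L}

lemma Dec.mem (h : Dec O x) (hd : Dom O V) (hx : x ∈ V) : x ∈ O := by
  rcases h with h | h
  · exact h
  by_cases h0 : x = 0
  · rw [h0]; exact zero_mem _
  simpa using (hd.2 _ h ⟨hd.1 h, inv_ne_zero h0, by simpa using hx⟩).2.2

lemma Dec.inv (h : Dec O x) : Dec O x⁻¹ := h.symm.imp id fun h => by simpa using h

lemma Dec.of_le (h : Dec O x) (hO : O ≤ W) : Dec W x := h.imp (@hO _) (@hO _)

lemma Dec.un (h : Dec O x) (hd : Dom O V) (hx : Un V x) : Un O x :=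
  hd.2 _ (h.mem hd hx.1) hx

lemma Dec.un_mul (h : Dec O x) (hy : Un O y) : Dec O (y * x) :=
  h.imp (mul_mem hy.1) fun h => by rw [mul_inv]; exact mul_mem hy.2.2 h

lemma Dec.pow (h : Dec O x) (n : ℕ) : Dec O (x ^ n) :=
  h.imp (fun h => pow_mem h n) fun h => by rw [← inv_pow]; exact pow_mem h n

lemma Dec.zpow (h : Dec O x) (n : ℤ) : Dec O (x ^ n) := by
  obtain ⟨n, rfl | rfl⟩ := n.eq_nat_or_neg
  · simpa using h.pow n
  · simpa using (h.pow n).inv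

lemma Val.dec (h : Val V) (x : L) : Dec V x := h x

lemma cs_le (C : IntermediateField k L) (V : Subalgebra k L) : cs C V ≤ V := inf_le_left

lemma dec_cs (h : Val V) (hx : x ∈ C) : Dec (cs C V) x :=
  (h x).imp (fun h => ⟨h, hx⟩) fun h => mem_cs.2 ⟨h, C.inv_mem hx⟩

lemma Dom.lcl (h : Dom O V) (hV : Lcl V) : Lcl O := fun x hx y hy hxy =>
  (hV x (h.1 hx) y (h.1 hy) (hxy.mono h.1)).imp (h.2 x hx) (h.2 y hy)

lemma Up.mem_of_pow (h : Up N R V O) (hx : x ∈ N) {n : ℕ} (hn : n ≠ 0) (hp : x ^ n ∈ O) :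
    x ∈ O :=
  h.int x hx ((isIntegral_of_mem hp).of_pow (Nat.pos_of_ne_zero hn))

lemma Up.dec_of_pow (h : Up N R V O) (hx : x ∈ N) {n : ℕ} (hn : n ≠ 0) (hp : Dec O (x ^ n)) :
    Dec O x :=
  hp.imp (h.mem_of_pow hx hn) fun hp => h.mem_of_pow (inv_mem hx) hn (by rwa [inv_pow])

lemma Up.dec_of_zpow (h : Up N R V O) (hx : x ∈ N) {n : ℤ} (hn : n ≠ 0) (hp : Dec O (x ^ n)) :
    Dec O x := by
  obtain ⟨n, rfl | rfl⟩ := n.eq_nat_or_neg
  · exact h.dec_of_pow hx (by simpa using hn) (by simpa using hp)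
  · exact h.dec_of_pow hx (by simpa using hn) (by simpa using hp.inv)

lemma le_lr (R : Subalgebra k L) (S : Set L) (V : Subalgebra k L) : R ≤ lr R S V :=
  le_sup_left.trans (le_loc _ _)

lemma mem_lr (R V : Subalgebra k L) (hx : x ∈ S) : x ∈ lr R S V :=
  le_loc _ _ ((le_sup_right : Algebra.adjoin k S ≤ _) (Algebra.subset_adjoin hx))

lemma sup_adjoin_le (h : R ≤ O) (hS : ∀ x ∈ S, x ∈ O) : R ⊔ Algebra.adjoin k S ≤ O :=
  sup_le h (Algebra.adjoin_le hS)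

lemma lr_le_val (h : R ≤ V) (hS : ∀ x ∈ S, x ∈ V) : lr R S V ≤ V := loc_le (sup_adjoin_le h hS)

lemma dom_lr (h : R ≤ V) (hS : ∀ x ∈ S, x ∈ V) : Dom (lr R S V) V := dom_loc (sup_adjoin_le h hS)

lemma loc_le_dom {D : Subalgebra k L} (h : D ≤ O) (hd : Dom O V) : loc D V ≤ O := by
  rintro _ ⟨a, ha, b, hb, hu, rfl⟩
  rw [div_eq_mul_inv]
  exact mul_mem (h ha) (hd.2 b (h hb) hu).2.2

lemma lr_le (h : R ≤ O) (hS : ∀ x ∈ S, x ∈ O) (hd : Dom O V) : lr R S V ≤ O :=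
  loc_le_dom (sup_adjoin_le h hS) hd

lemma un_lr (hx : x ∈ lr R S V) (hu : Un V x) : Un (lr R S V) x :=
  ⟨hx, hu.2.1, inv_mem_loc hx hu⟩

lemma lr_le_lr (h : R ≤ lr R' S' V) (hS : ∀ x ∈ S, x ∈ lr R' S' V) (h' : R' ≤ V)
    (hS' : ∀ x ∈ S', x ∈ V) : lr R S V ≤ lr R' S' V :=
  lr_le h hS (dom_lr h' hS')

lemma Std.mono {A A' : Subalgebra k L} {η : L} (h : Std A V η) (hA : A ≤ A') : Std A' V η :=
  let ⟨P, h1, h2, h3, h4⟩ := h; ⟨P, h1, fun i => hA (h2 i), h3, h4⟩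

lemma Std.isIntegral {A : Subalgebra k L} {η : L} (h : Std A V η) : IsIntegral A η := by
  obtain ⟨P, h1, h2, h3, -⟩ := h
  have : P ∈ lifts (algebraMap A L) := by
    rw [lifts_iff_coeff_lifts]; exact fun n => ⟨⟨_, h2 n⟩, rfl⟩
  obtain ⟨Q, e, -, hQ⟩ := lifts_and_degree_eq_and_monic this h1
  exact ⟨Q, hQ, by rw [← eval_map, e, h3]⟩

lemma Std.mem {A : Subalgebra k L} {η : L} (h : Std A V η) (hV : Val V) (hA : A ≤ V) : η ∈ V :=
  hV.mem_of_isIntegral hA h.isIntegral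

lemma AC.root_nat [IsAlgClosed L] (h : AC C) (hx : x ∈ C) {n : ℕ} (hn : n ≠ 0) :
    ∃ μ ∈ C, μ ^ n = x := by
  obtain ⟨μ, hμ⟩ := IsAlgClosed.exists_pow_nat_eq x (Nat.pos_of_ne_zero hn)
  refine ⟨μ, h μ ?_, hμ⟩
  have : IsIntegral C (μ ^ n) := by
    rw [hμ]; exact isIntegral_algebraMap (x := (⟨x, hx⟩ : C))
  exact (this.of_pow (Nat.pos_of_ne_zero hn)).isAlgebraic

lemma AC.root [IsAlgClosed L] (h : AC C) (hx : x ∈ C) {n : ℤ} (hn : n ≠ 0) :
    ∃ μ ∈ C, μ ^ n = x := by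
  obtain ⟨n, rfl | rfl⟩ := n.eq_nat_or_neg
  · obtain ⟨μ, h1, h2⟩ := h.root_nat hx (n := n) (by simpa using hn)
    exact ⟨μ, h1, by rw [zpow_natCast, h2]⟩
  · obtain ⟨μ, h1, h2⟩ := h.root_nat (C.inv_mem hx) (n := n) (by simpa using hn)
    exact ⟨μ, h1, by rw [zpow_neg, zpow_natCast, h2, inv_inv]⟩

lemma Mono.mono (hU : U ⊆ U') {g : L} (hg : g ∈ Mono C y U) : g ∈ Mono C y U' :=
  Submonoid.closure_mono (Set.union_subset_union_right _ (by
    rintro _ ⟨s, hs, h⟩; exact ⟨s, hU hs, h⟩)) hg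

lemma Mono.inv {g : L} (hg : g ∈ Mono C y U) : g⁻¹ ∈ Mono C y U := by
  induction hg using Submonoid.closure_induction with
  | mem x hx =>
    refine Submonoid.subset_closure ?_
    rcases hx with ⟨h1, h2⟩ | ⟨s, hs, rfl | rfl⟩
    exacts [Or.inl ⟨inv_mem h1, inv_ne_zero h2⟩, Or.inr ⟨s, hs, Or.inr rfl⟩,
      Or.inr ⟨s, hs, Or.inl (inv_inv _)⟩]
  | one => simp
  | mul a b _ _ ha hb => rw [mul_inv]; exact mul_mem ha hb

lemma ne_of_tr (h : Transcendental C x) (hy : y ∈ C) : x ≠ y := fun e =>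
  h (e ▸ isAlgebraic_algebraMap (⟨y, hy⟩ : C))

lemma tr_div (h : Transcendental C x) (hy : y ∈ C) (h0 : y ≠ 0) : Transcendental C (x / y) :=
  fun e => h (by
    have := e.mul (isAlgebraic_algebraMap (⟨y, hy⟩ : C))
    rwa [show algebraMap C L ⟨y, hy⟩ = y from rfl, div_mul_cancel₀ _ h0] at this)

lemma pair_le {u u' η : L} (h : u ∈ C ⊔ k⟮u', η⟯) : C ⊔ k⟮u, η⟯ ≤ C ⊔ k⟮u', η⟯ :=
  sup_le le_sup_left (adjoin_le_iff.2 (Set.insert_subset h (Set.singleton_subset_iff.2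
    ((le_sup_right : k⟮u', η⟯ ≤ _) (subset_adjoin k _ (by simp))))))

lemma fst_mem (C : IntermediateField k L) (u η : L) : u ∈ C ⊔ k⟮u, η⟯ :=
  (le_sup_right : k⟮u, η⟯ ≤ _) (subset_adjoin k _ (by simp))

lemma TD.mono {Λ Λ' : Finset L} (h : TD y U' Λ' O) (hU : U ⊆ U') (hΛ : Λ ⊆ Λ') : TD y U Λ O :=
  fun s hs l hl => h s (hU hs) l (hΛ hl)

lemma Out.mono {Γ Γ' : Finset L} {u m : L} (h : Out Γ U y R O u m) (hΓ : Γ ⊆ Γ') :
    Out Γ' U y R O u m :=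
  { h with
    mΓ := h.mΓ.imp id (@hΓ _)
    mon := let ⟨c, i, h1, h2⟩ := h.mon; ⟨c, i, fun s hs => ⟨hΓ (h1 s hs).1, (h1 s hs).2⟩, h2⟩ }

lemma Ax.ne {u m η : L} {c : L → L} {i : L → ℤ} (h : Ax C N y U V u m η c i) : u ≠ 0 :=
  ne_of_tr h.tr (zero_mem _)

lemma Ax.eV {u m η : L} {c : L → L} {i : L → ℤ} (h : Ax C N y U V u m η c i) (hV : Val V) :
    η ∈ V :=
  h.std.mem hV (lr_le_val (cs_le _ _) (by rintro _ (rfl | rfl); exacts [h.uV, h.mV]))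

lemma Ax.c_ne {u m η : L} {c : L → L} {i : L → ℤ} (h : Ax C N y U V u m η c i) {s : L}
    (hs : s ∈ U) : c s ≠ 0 := fun e => (h.mon s hs).2.2.1 (by simp [e])

end Small

/-- Refinement of an annulus chart. -/
theorem ref : RefStmt k L := by
  classical
  intro C N y u m η U Lv c i V O hCN hV h hO hd hu hm hL
  have u0 := h.ne
  obtain ⟨a, ha, Ha⟩ := hV.exists_min (T := (insert 1 (Lv.filter fun μ => u / μ ∈ V)).image (·⁻¹))
    (by simp) (by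
      intro t ht
      obtain ⟨μ, hμ, rfl⟩ := Finset.mem_image.1 ht
      rcases Finset.mem_insert.1 hμ with rfl | hμ
      exacts [by simp, inv_ne_zero (hL μ (Finset.mem_filter.1 hμ).1).2.1])
  obtain ⟨ν, hν, rfl⟩ := Finset.mem_image.1 ha
  have Hν : ∀ μ ∈ insert 1 (Lv.filter fun μ => u / μ ∈ V), ν / μ ∈ V := fun μ hμ => by
    have := Ha _ (Finset.mem_image_of_mem _ hμ)
    rwa [inv_div_inv] at this
  have h1 : ν ∈ C ∧ ν ≠ 0 ∧ u / ν ∈ O := by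
    rcases Finset.mem_insert.1 hν with rfl | hν
    · exact ⟨one_mem _, one_ne_zero, by simpa using hu⟩
    · obtain ⟨e1, e2⟩ := Finset.mem_filter.1 hν
      exact ⟨(hL ν e1).1, (hL ν e1).2.1, (hL ν e1).2.2.mem hd e2⟩
  obtain ⟨νC, ν0, uO⟩ := h1
  have νV : ν ∈ V := by simpa using Hν 1 (Finset.mem_insert_self _ _)
  obtain ⟨b, bC, bO, hb, Hb⟩ : ∃ b ∈ C, b / u ∈ O ∧ (∃ r ∈ cs C V, m = r * b) ∧
      ∀ μ ∈ Lv, μ / u ∈ V → ∃ r ∈ cs C V, μ = r * b := by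
    let T := (insert m (Lv.filter fun μ => μ / u ∈ V)).erase 0
    have hT : ∀ t ∈ T, t ∈ C ∧ t / u ∈ O := fun t ht => by
      rcases Finset.mem_insert.1 (Finset.mem_of_mem_erase ht) with rfl | ht
      · exact ⟨h.mC, hm⟩
      · obtain ⟨e1, e2⟩ := Finset.mem_filter.1 ht
        exact ⟨(hL t e1).1, Dec.mem (by simpa using (hL t e1).2.2.inv) hd e2⟩
    rcases T.eq_empty_or_nonempty with e | e
    · have : ∀ t ∈ insert m (Lv.filter fun μ => μ / u ∈ V), t = 0 := fun t ht => by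
        by_contra h0
        exact Finset.notMem_empty t (e ▸ Finset.mem_erase.2 ⟨h0, ht⟩)
      exact ⟨0, zero_mem _, by simp, ⟨0, zero_mem _, by simp [this m (by simp)]⟩,
        fun μ h1 h2 => ⟨0, zero_mem _, by simp [this μ (by simp [h1, h2])]⟩⟩
    · obtain ⟨b, hb, Hb⟩ := hV.exists_min e fun t ht => Finset.ne_of_mem_erase ht
      have b0 := Finset.ne_of_mem_erase hb
      have : ∀ t ∈ insert m (Lv.filter fun μ => μ / u ∈ V), t ∈ C → ∃ r ∈ cs C V, t = r * b :=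
        fun t ht hC => by
        by_cases h0 : t = 0
        · exact ⟨0, zero_mem _, by simp [h0]⟩
        · exact ⟨t / b, mem_cs.2 ⟨Hb t (Finset.mem_erase.2 ⟨h0, ht⟩),
            C.div_mem hC (hT b hb).1⟩, (div_mul_cancel₀ _ b0).symm⟩
      exact ⟨b, (hT b hb).1, (hT b hb).2, this m (by simp) h.mC,
        fun μ h1 h2 => this μ (by simp [h1, h2]) (hL μ h1).1⟩
  have e1 : b / ν / (u / ν) = b / u := by field_simp
  have key : ∀ S : Set L, u / ν ∈ S → b / u ∈ S →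
      u ∈ lr (cs C V) S V ∧ m / u ∈ lr (cs C V) S V := fun S s1 s2 => by
    constructor
    · have := mul_mem (le_lr _ S V (mem_cs.2 ⟨νV, νC⟩)) (mem_lr _ _ s1)
      rwa [mul_div_cancel₀ _ ν0] at this
    · obtain ⟨r, hr, e⟩ := hb
      rw [e, mul_div_assoc]
      exact mul_mem (le_lr _ _ _ hr) (mem_lr _ _ s2)
  have uV := hd.1 uO
  have bV := hd.1 bO
  have hle : lr (cs C V) {u, m / u, η} V ≤ lr (cs C V) {u / ν, b / u, η} V :=
    lr_le_lr (le_lr _ _ _) (by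
      rintro _ (rfl | rfl | rfl)
      exacts [(key _ (by simp) (by simp)).1, (key _ (by simp) (by simp)).2, mem_lr _ _ (by simp)])
      (cs_le _ _) (by rintro _ (rfl | rfl | rfl); exacts [uV, bV, h.eV hV])
  refine ⟨ν, b / ν, νC, ν0, ?_, uO, e1 ▸ bO, fun hu' => ?_, e1 ▸ hle, fun μ hμ => ?_⟩
  · refine ⟨div_mem bC νC, tr_div h.tr νC ν0, div_mem h.uN (hCN νC), h.eN,
      fun x hx => pair_le ?_ (h.gen x hx), uV, e1 ▸ bV, ?_, fun s hs => ⟨?_, ?_⟩⟩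
    · have := mul_mem ((le_sup_left : C ≤ _) νC) (fst_mem C (u / ν) η)
      rwa [mul_div_cancel₀ _ ν0] at this
    · rw [e1]
      exact h.std.mono (lr_le_lr (le_lr _ _ _) (by
        rintro _ (rfl | rfl)
        exacts [(key _ (by simp) (by simp)).1, (key _ (by simp) (by simp)).2])
        (cs_le _ _) (by rintro _ (rfl | rfl); exacts [uV, bV]))
    · exact mul_mem (h.mon s hs).1 (zpow_mem νC _)
    · rw [e1, mul_assoc, ← mul_zpow, mul_div_cancel₀ _ ν0]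
      exact (h.mon s hs).2.mono hle
  · refine ⟨uV, div_ne_zero u0 ν0, ?_⟩
    rw [inv_div, div_eq_mul_inv]
    exact mul_mem νV hu'.2.2
  · rw [e1]
    obtain ⟨μC, μ0, -⟩ := hL μ hμ
    rcases hV (u / μ) with h2 | h2
    · left
      rw [show u / μ = ν / μ * (u / ν) by field_simp]
      exact mul_mem (le_lr _ _ _ (mem_cs.2 ⟨Hν μ (by simp [hμ, h2]), C.div_mem νC μC⟩))
        (mem_lr _ _ (by simp))
    · right
      rw [inv_div] at h2 ⊢
      obtain ⟨r, hr, e⟩ := Hb μ hμ h2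
      rw [e, mul_div_assoc]
      exact mul_mem (le_lr _ _ _ hr) (mem_lr _ _ (by simp))

section Near

/-- The Zariski neighbourhoods of `V`. -/
def near (V : Subalgebra k L) : Filter (Subalgebra k L) where
  sets := {s | ∃ E : Finset L, (∀ x ∈ E, x ∈ V) ∧ ∀ W, (∀ x ∈ E, x ∈ W) → W ∈ s}
  univ_sets := ⟨∅, by simp, fun _ _ => trivial⟩
  sets_of_superset := fun ⟨E, h1, h2⟩ hs => ⟨E, h1, fun W a => hs (h2 W a)⟩
  inter_sets := fun ⟨E, h1, h2⟩ ⟨E', h1', h2'⟩ => by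
    classical
    exact ⟨E ∪ E', fun x hx => (Finset.mem_union.1 hx).elim (h1 x) (h1' x), fun W a =>
      ⟨h2 W fun x hx => a x (Finset.mem_union_left _ hx),
        h2' W fun x hx => a x (Finset.mem_union_right _ hx)⟩⟩

variable {V : Subalgebra k L} {C N : IntermediateField k L} {S : Set L} {x : L}

lemma near_iff {p : Subalgebra k L → Prop} : (∀ᶠ W in near V, p W) ↔
    ∃ E : Finset L, (∀ x ∈ E, x ∈ V) ∧ ∀ W, (∀ x ∈ E, x ∈ W) → p W := Iff.rfl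

lemma ev_mem (hx : x ∈ V) : ∀ᶠ W in near V, x ∈ W := ⟨{x}, by simpa, by simp⟩

lemma ev_un (hx : Un V x) : ∀ᶠ W in near V, Un W x :=
  ((ev_mem hx.1).and (ev_mem hx.2.2)).mono fun _ h => ⟨h.1, hx.2.1, h.2⟩

lemma ev_sup (hx : x ∈ cs C V ⊔ Algebra.adjoin k S) :
    ∀ᶠ W in near V, x ∈ cs C W ⊔ Algebra.adjoin k S := by
  let q : L → Prop := fun x => ∀ᶠ W in near V, x ∈ cs C W ⊔ Algebra.adjoin k S
  have q1 : ∀ {a b}, q a → q b → q (a * b) := fun ha hb =>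
    (Filter.Eventually.and ha hb).mono fun _ h => mul_mem h.1 h.2
  have q2 : ∀ {a b}, q a → q b → q (a + b) := fun ha hb =>
    (Filter.Eventually.and ha hb).mono fun _ h => add_mem h.1 h.2
  have q3 : ∀ c : k, q (algebraMap k L c) := fun c =>
    Filter.Eventually.of_forall fun _ => Subalgebra.algebraMap_mem _ c
  have q4 : ∀ x ∈ cs C V, q x := fun x hx =>
    (ev_mem (mem_cs.1 hx).1).mono fun W h =>
      (le_sup_left : cs C W ≤ _) (mem_cs.2 ⟨h, (mem_cs.1 hx).2⟩)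
  have q5 : ∀ x ∈ Algebra.adjoin k S, q x := fun x hx =>
    Filter.Eventually.of_forall fun W => (le_sup_right : Algebra.adjoin k S ≤ _) hx
  let B : Subalgebra k L :=
    { carrier := {x | q x}, mul_mem' := q1, add_mem' := q2, algebraMap_mem' := q3 }
  exact (sup_le q4 q5 : cs C V ⊔ Algebra.adjoin k S ≤ B) hx

lemma ev_lr (hx : x ∈ lr (cs C V) S V) : ∀ᶠ W in near V, x ∈ lr (cs C W) S W := by
  obtain ⟨a, ha, b, hb, hu, rfl⟩ := hx
  filter_upwards [ev_sup ha, ev_sup hb, ev_un hu] with W h1 h2 h3 using ⟨a, h1, b, h2, h3, rfl⟩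

lemma ev_un_lr (hx : Un (lr (cs C V) S V) x) : ∀ᶠ W in near V, Un (lr (cs C W) S W) x :=
  ((ev_lr hx.1).and (ev_lr hx.2.2)).mono fun _ h => ⟨h.1, hx.2.1, h.2⟩

lemma ev_std {η : L} (h : Std (lr (cs C V) S V) V η) :
    ∀ᶠ W in near V, Std (lr (cs C W) S W) W η := by
  obtain ⟨P, h1, h2, h3, h4⟩ := h
  filter_upwards [(Filter.eventually_all_finset P.support).2 fun i _ => ev_lr (h2 i), ev_un h4]
    with W a b
  refine ⟨P, h1, fun i => ?_, h3, b⟩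
  by_cases hi : i ∈ P.support
  · exact a i hi
  · rw [notMem_support_iff.1 hi]; exact zero_mem _

lemma ev_ax {y u m η : L} {U : Finset L} {c : L → L} {i : L → ℤ} (h : Ax C N y U V u m η c i) :
    ∀ᶠ W in near V, Ax C N y U W u m η c i := by
  filter_upwards [ev_mem h.uV, ev_mem h.mV, ev_std h.std,
    (Filter.eventually_all_finset U).2 fun s hs => ev_un_lr (h.mon s hs).2] with W a b d e
  exact ⟨h.mC, h.tr, h.uN, h.eN, h.gen, a, b, d, fun s hs => ⟨(h.mon s hs).1, e s hs⟩⟩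

end Near

end Pool.Agent.MP_19ffc6_ag.Perf.Ss

end MrgPart0

-- ======== part 1: formerly Pool.Agent.MP_19ffc6_ag.perf.SsAsm
section MrgPart1

/-! PROJECT PERF, block SS: assembly from the statements of the rows. -/

namespace Pool.Agent.MP_19ffc6_ag.Perf.Ss

open Polynomial IntermediateField Pool.Agent.R72.Wild Pool.Agent.R72.Lci Pool.Agent.R72.Res
  Pool.Agent.R72.Res.B

variable {k L : Type} [Field k] [Field L] [Algebra k L]

/-- A refined chart that lies in `O`. -/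
def Gd (C N : IntermediateField k L) (y : L) (U : Finset L) (η : L) (V O : Subalgebra k L) :
    Prop :=
  ∃ (u m : L) (c : L → L) (i : L → ℤ), Ax C N y U V u m η c i ∧ Sees1 V U u i ∧ u ∈ O ∧ m / u ∈ O

lemma Dsc.sub {C N : IntermediateField k L} {y t η s : L} {V : Subalgebra k L}
    (h : Dsc C N y V t η) (hV : Val V) (hs : s ∈ C) :
    ∃ c ∈ C, c ≠ 0 ∧ (y - s) / c ∈ lr (cs C V) {t, η} V := by
  obtain ⟨c, hc, h0, h⟩ := h.reg
  by_cases h1 : s / c ∈ V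
  · refine ⟨c, hc, h0, ?_⟩
    rw [sub_div]
    exact sub_mem h (le_lr _ _ _ (mem_cs.2 ⟨h1, C.div_mem hs hc⟩))
  · have hs0 : s ≠ 0 := fun e => h1 (by rw [e, zero_div]; exact zero_mem _)
    refine ⟨s, hs, hs0, ?_⟩
    rw [show (y - s) / s = (s / c)⁻¹ * (y / c) - 1 by field_simp]
    exact sub_mem (mul_mem (le_lr _ _ _
      (mem_cs.2 ⟨(hV _).resolve_left h1, C.inv_mem (C.div_mem hs hc)⟩)) h) (one_mem _)

/-- Finitely many radii suffice on a region covered by one disc chart. -/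
theorem lev (comp : CompStmt k L) (fact : FactStmt k L) (ax1 : Ax1Stmt k L)
    {C N : IntermediateField k L} {y : L} {U : Finset L} (hC : AC C) (hCN : C ≤ N)
    (hy : Transcendental C y) (hU : ∀ s ∈ U, s ∈ C) (t η : L) (A : Finset L) :
    ∃ Λ : Finset L, (∀ l ∈ Λ, l ∈ C ∧ l ≠ 0) ∧
      ((∀ V, Val V → (∀ a ∈ A, a ∈ V) → Dsc C N y V t η) →
        ∀ V O : Subalgebra k L, Val V → (∀ a ∈ A, a ∈ V) → Up N (cs C V) V O → t ∈ O → η ∈ O →
          TD y U Λ O → Gd C N y U η V O) := by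
  classical
  by_cases hD : ∀ V, Val V → (∀ a ∈ A, a ∈ V) → Dsc C N y V t η
  swap
  · exact ⟨∅, by simp, fun h => absurd h hD⟩
  let ι := {j : (L → L) × (L → Multiset L) // ∀ s ∈ U, s ∈ C ∧ j.1 s ∈ C ∧ ∀ τ ∈ j.2 s, τ ∈ C}
  obtain ⟨I, hI⟩ := comp ι (fun j W => ∀ s ∈ U, (∀ τ ∈ j.1.2 s, τ ∈ W) ∧
      Un (lr (cs C W) {t, η} W) ((y - s) / (j.1.1 s * ((j.1.2 s).map fun τ => t - τ).prod))) A (by
    intro V hV hR hA
    have hd := hD V hV hA
    have : ∀ s, ∃ (c : L) (T : Multiset L), s ∈ U → c ∈ C ∧ (∀ τ ∈ T, τ ∈ cs C V) ∧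
        Un (lr (cs C V) {t, η} V) ((y - s) / (c * (T.map fun τ => t - τ).prod)) := fun s => by
      by_cases hs : s ∈ U
      swap
      · exact ⟨0, 0, fun h => absurd h hs⟩
      obtain ⟨c, hc, h0, h⟩ := hd.sub hV (hU s hs)
      obtain ⟨d, hdC, T, hT, hu⟩ := fact C V t η _ hC hV hR hd.tr hd.tV hd.std h
        (div_ne_zero (sub_ne_zero.2 (ne_of_tr hy (hU s hs))) h0)
      exact ⟨c * d, T, fun _ => ⟨mul_mem hc hdC, hT, by rwa [div_div, ← mul_assoc] at hu⟩⟩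
    choose c T H using this
    refine ⟨⟨(c, T), fun s hs => ⟨hU s hs, (H s hs).1, fun τ h => ((H s hs).2.1 τ h).2⟩⟩, ?_⟩
    obtain ⟨E, h1, h2⟩ := near_iff.1 ((Filter.eventually_all_finset U).2 fun s hs =>
      ((Filter.eventually_all_finset (T s).toFinset).2 fun τ h =>
        ev_mem ((H s hs).2.1 τ (Multiset.mem_toFinset.1 h)).1).and (ev_un_lr (H s hs).2.2))
    exact ⟨E, h1, fun W _ hW s hs => ⟨fun τ h => (h2 W hW s hs).1 τ (Multiset.mem_toFinset.2 h),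
      (h2 W hW s hs).2⟩⟩)
  choose Λ h1 h2 using fun j : ι => ax1 C U j.1.1 j.1.2 j.2
  refine ⟨I.biUnion Λ, fun l hl => ?_, fun _ V O hV hA hO ht hη hT => ?_⟩
  · obtain ⟨j, -, hj⟩ := Finset.mem_biUnion.1 hl
    exact h1 j l hj
  · obtain ⟨j, hj, H⟩ := hI V hV hA
    exact h2 j N y t η V O hCN hV (hD V hV hA) H hO ht hη
      (hT.mono subset_rfl (Finset.subset_biUnion_of_mem Λ hj))

/-- The centre of `V` on the normalised tree over the valuation ring of `C`. -/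
lemma up_top {C N : IntermediateField k L} {y : L} {U Λ : Finset L} {V : Subalgebra k L}
    (hCN : C ≤ N) (hy : y ∈ N) (hU : ∀ s ∈ U, s ∈ C) (hΛ : ∀ l ∈ Λ, l ∈ C ∧ l ≠ 0) (hV : Val V) :
    Up N (cs C V) V (loc (icl N (cs C V ⊔ Algebra.adjoin k (crd y U Λ V))) V) ∧
      TD y U Λ (loc (icl N (cs C V ⊔ Algebra.adjoin k (crd y U Λ V))) V) := by
  have h1 : cs C V ⊔ Algebra.adjoin k (crd y U Λ V) ≤ N.toSubalgebra :=
    sup_adjoin_le (fun x hx => hCN hx.2) (by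
      rintro _ ⟨-, s, hs, l, hl, rfl | rfl⟩
      exacts [N.div_mem (N.sub_mem hy (hCN (hU s hs))) (hCN (hΛ l hl).1),
        N.inv_mem (N.div_mem (N.sub_mem hy (hCN (hU s hs))) (hCN (hΛ l hl).1))])
  have h2 := hV.icl_le (K := N) (sup_adjoin_le (cs_le C V) fun x (hx : x ∈ crd y U Λ V) => hx.1)
  have h3 := isPoint_loc h2 hV.lcl
  have h4 := (le_icl h1).trans h3.le
  refine ⟨⟨le_sup_left.trans h4, h3.lcl, dom_loc h2,
    fun x hx => R72.Res.IsPoint.le_field h3 (icl_le _ _) hx,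
    fun x hx h => IsPoint.mem_of_isIntegral h3 hx h⟩, fun s hs l hl => ?_⟩
  have h5 : ∀ x ∈ crd y U Λ V, x ∈ _ := fun x hx =>
    h4 ((le_sup_right : Algebra.adjoin k _ ≤ _) (Algebra.subset_adjoin hx))
  exact (hV _).imp (fun h => h5 _ ⟨h, s, hs, l, hl, Or.inl rfl⟩)
    fun h => h5 _ ⟨h, s, hs, l, hl, Or.inr rfl⟩

/-- A chart together with an open set on which it is valid. -/
structure Cht (C N : IntermediateField k L) (y : L) where
  t : L
  m : L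
  η : L
  s : L
  c : L → L
  i : L → ℤ
  E : Finset L
  hs : s ∈ C
  hi : i s ≠ 0 ∨ m = 0
  ax : ∀ W : Subalgebra k L, (∀ x ∈ E, x ∈ W) → Ax C N y {s} W t m η c i

variable (k L) in
/-- The output of the block, open form: the same `u` on an open set of valuation rings. -/
def SSOpen : Prop :=
  ∀ (C N₀ : IntermediateField k L) (y : L) (N : IntermediateField ↥(C ⊔ k⟮y⟯) L), AC C →
    Transcendental C y → FiniteDimensional ↥(C ⊔ k⟮y⟯) N → IsGalois ↥(C ⊔ k⟮y⟯) N → N₀.FG →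
    (∀ x, x ∈ N ↔ x ∈ C ⊔ N₀) →
    ∃ U₀ : Finset L, (∀ s ∈ U₀, s ∈ C) ∧ ∀ U : Finset L, U₀ ⊆ U → (∀ s ∈ U, s ∈ C) →
    ∃ Λ₀ : Finset L, (∀ l ∈ Λ₀, l ∈ C ∧ l ≠ 0) ∧ ∀ Λ : Finset L, Λ₀ ⊆ Λ →
      (∀ l ∈ Λ, l ∈ C ∧ l ≠ 0) →
    ∃ Γ : Finset L, (∀ z ∈ Γ, z ∈ C ∧ z ≠ 0) ∧ ∀ V : Subalgebra k L, Val V →
      ∃ (u m : L) (E : Finset L), (∀ x ∈ E, x ∈ V) ∧ Transcendental C u ∧
        ∀ (F : IntermediateField k L) (R W O : Subalgebra k L), F ≤ C → Nrm F R → Lcl R →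
          (∀ z ∈ Γ, Dec R z) → Val W → (∀ x ∈ E, x ∈ W) → Dom R O →
          Top (F ⊔ N₀) R y U Λ W O → Rt O → Out Γ U y R O u m

theorem SSOpen.ss (h : SSOpen k L) : SSStmt k L := by
  intro C N₀ y N h1 h2 h3 h4 h5 h6
  obtain ⟨U₀, a, H⟩ := h C N₀ y N h1 h2 h3 h4 h5 h6
  refine ⟨U₀, a, fun U b c => ?_⟩
  obtain ⟨Λ₀, a, H⟩ := H U b c
  refine ⟨Λ₀, a, fun Λ b c => ?_⟩
  obtain ⟨Γ, a, H⟩ := H Λ b c
  refine ⟨Γ, a, fun F R W O c1 c2 c3 c4 hW c5 c6 c7 => ?_⟩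
  obtain ⟨u, m, E, e1, e2, H⟩ := H W hW
  exact ⟨u, m, e2, H F R W O c1 c2 c3 c4 hW e1 c5 c6 c7⟩

theorem ss_of [IsAlgClosed L] (hr : HR2Stmt k L) (comp : CompStmt k L) (ch : ChStmt k L)
    (uco : UcoStmt k L) (mono : MonoStmt k L) (dsc : DscStmt k L) (fact : FactStmt k L)
    (ax1 : Ax1Stmt k L) (ann : AnnStmt k L) (ax2 : Ax2Stmt k L) (spr : SprStmt k L) :
    SSOpen k L := by
  classical
  intro C N₀ y N₁ hC hy hfd hgal hFG hN
  obtain ⟨N, hN1⟩ : ∃ N : IntermediateField k L, ∀ x, x ∈ N ↔ x ∈ N₁ :=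
    ⟨N₁.restrictScalars k, fun _ => Iff.rfl⟩
  have eN : N = C ⊔ N₀ := IntermediateField.ext fun x => (hN1 x).trans (hN x)
  have hCN : C ≤ N := eN ▸ le_sup_left
  have hyN : y ∈ N := (hN1 y).2 (N₁.algebraMap_mem
    ⟨y, (le_sup_right : k⟮y⟯ ≤ _) (mem_adjoin_simple_self k y)⟩)
  have halg : ∀ x ∈ N, IsAlgebraic ↥(C ⊔ k⟮y⟯) x := fun x hx =>
    (isAlgebraic_algHom_iff N₁.val Subtype.val_injective).2
      (Algebra.IsAlgebraic.isAlgebraic (⟨x, (hN1 x).1 hx⟩ : N₁))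
  obtain ⟨I, hI⟩ := comp (Cht C N y) (fun j W => ∀ x ∈ j.E, x ∈ W) ∅ (by
    intro V hV hR _
    obtain ⟨u, η, h1, h2, h3, h4, h5, h6, h7⟩ := hr C y N₁ V hC hy hfd hgal hV hR
    obtain ⟨t, m, s, c, i, hs, ha, hi⟩ := ch C N y u η V hC hCN hyN hy halg hV hR ((hN1 _).2 h1)
      ((hN1 _).2 h2) h3 h4 (fun x hx => h5 x ((hN1 _).1 hx)) (fun x hx => h6 x ((hN1 _).1 hx))
      fun x hx => h7 x ((hN1 _).1 hx)
    obtain ⟨E, e1, e2⟩ := near_iff.1 (ev_ax ha)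
    exact ⟨⟨t, m, η, s, c, i, E, hs, hi, e2⟩, E, e1, fun W _ h => h⟩)
  choose Ux Gx hU1 hG1 hG2 using fun x : N => uco C y x hC hy (halg x x.2)
  have top := fun j : Cht C N y => j.ax ⊤ fun _ _ => trivial
  let X : Finset N := I.biUnion fun j => {⟨j.t, (top j).uN⟩,
    ⟨j.m / j.t, N.div_mem (hCN (top j).mC) (top j).uN⟩, ⟨j.η, (top j).eN⟩}
  refine ⟨X.biUnion Ux ∪ I.image (·.s), fun s hs => ?_, fun U hU0 hU => ?_⟩
  · rcases Finset.mem_union.1 hs with h | h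
    · obtain ⟨x, -, h⟩ := Finset.mem_biUnion.1 h
      exact hU1 x s h
    · obtain ⟨j, -, rfl⟩ := Finset.mem_image.1 h
      exact j.hs
  have hm : ∀ g : L, ∃ Λ : Finset L, (∀ l ∈ Λ, l ∈ C ∧ l ≠ 0) ∧ (g ∈ Mono C y U →
      ∀ V O : Subalgebra k L, Val V → cs C V ≤ O → Dom O V → TD y U Λ O → Dec O g) := fun g => by
    by_cases hg : g ∈ Mono C y U
    · obtain ⟨Λ, h1, h2⟩ := mono C y g U hC hy hU hg
      exact ⟨Λ, h1, fun _ => h2⟩
    · exact ⟨∅, by simp, fun h => absurd h hg⟩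
  choose Λm hm1 hm2 using hm
  have hρ : ∀ (j : Cht C N y) (s : L), ∃ ρ, j.i j.s ≠ 0 → s ∈ U →
      ρ ∈ C ∧ ρ ^ j.i j.s = (s - j.s) / j.c j.s := fun j s => by
    by_cases h : j.i j.s ≠ 0 ∧ s ∈ U
    · obtain ⟨ρ, h1, h2⟩ := hC.root (C.div_mem (C.sub_mem (hU s h.2) j.hs)
        ((top j).mon j.s (by simp)).1) h.1
      exact ⟨ρ, fun _ _ => ⟨h1, h2⟩⟩
    · exact ⟨0, fun a b => absurd ⟨a, b⟩ h⟩
  choose ρ hρ using hρ
  choose Λl hl1 hl2 using lev comp fact ax1 hC hCN hy hU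
  let Λ1 := (X.biUnion Gx).biUnion Λm
  let Λ2 := ((U ×ˢ U).image fun p => p.1 - p.2).erase 0
  let Λ3 := I.biUnion fun j => Λl j.t j.η j.E ∪ U.biUnion fun s =>
    Λl (j.t / ρ j s) j.η (insert (j.t / ρ j s) (insert (j.t / ρ j s)⁻¹ j.E))
  refine ⟨Λ1 ∪ Λ2 ∪ Λ3, fun l hl => ?_, fun Λ hΛ0 hΛ => ?_⟩
  · rcases Finset.mem_union.1 hl with h | h
    · rcases Finset.mem_union.1 h with h | h
      · obtain ⟨g, -, h⟩ := Finset.mem_biUnion.1 h
        exact hm1 g l h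
      · obtain ⟨h0, h⟩ := Finset.mem_erase.1 h
        obtain ⟨p, hp, rfl⟩ := Finset.mem_image.1 h
        obtain ⟨p1, p2⟩ := Finset.mem_product.1 hp
        exact ⟨C.sub_mem (hU _ p1) (hU _ p2), h0⟩
    · obtain ⟨j, -, h⟩ := Finset.mem_biUnion.1 h
      rcases Finset.mem_union.1 h with h | h
      · exact hl1 _ _ _ l h
      · obtain ⟨s, -, h⟩ := Finset.mem_biUnion.1 h
        exact hl1 _ _ _ l h
  have i1 : Λ1 ⊆ Λ := (Finset.subset_union_left.trans Finset.subset_union_left).trans hΛ0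
  have i2 : Λ2 ⊆ Λ := (Finset.subset_union_right.trans Finset.subset_union_left).trans hΛ0
  have i3 : Λ3 ⊆ Λ := Finset.subset_union_right.trans hΛ0
  let ι := {j : Finset L × L × L × Finset L // (∀ z ∈ j.1, z ∈ C ∧ z ≠ 0) ∧
    Transcendental C j.2.1 ∧ ∀ (F : IntermediateField k L) (R W O : Subalgebra k L), F ≤ C →
      Nrm F R → Lcl R → (∀ z ∈ j.1, Dec R z) → Val W → (∀ x ∈ j.2.2.2, x ∈ W) → Dom R O →
      Top (F ⊔ N₀) R y U Λ W O → Rt O → Out j.1 U y R O j.2.1 j.2.2.1}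
  obtain ⟨J, hJ⟩ := comp ι (fun j W => ∀ x ∈ j.1.2.2.2, x ∈ W) ∅ (by
    intro V hV _ _
    obtain ⟨j, hj, hE⟩ := hI V hV (by simp)
    have ha := j.ax V hE
    obtain ⟨hB, hT⟩ := up_top hCN hyN hU hΛ hV
    generalize eB : loc (icl N (cs C V ⊔ Algebra.adjoin k (crd y U Λ V))) V = B at hB hT
    have hX : ∀ x ∈ X, x.1 ∈ V → x.1 ∈ B := fun x hx => (hG2 x B hB.lcl
      (fun c hc h => hB.int _ (N.mul_mem (hB.sub c hc) x.2) h) fun g hg => hm2 g
        (Mono.mono ((Finset.subset_biUnion_of_mem Ux hx).trans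
          (Finset.subset_union_left.trans hU0)) (hG1 x g hg)) V B hV hB.le hB.dom
        (hT.mono subset_rfl ((Finset.subset_biUnion_of_mem Λm
          (Finset.mem_biUnion.2 ⟨x, hx, hg⟩)).trans i1))).mem hB.dom
    have tB : j.t ∈ B := hX ⟨_, (top j).uN⟩ (Finset.mem_biUnion.2 ⟨j, hj, by simp⟩) ha.uV
    have mB : j.m / j.t ∈ B := hX ⟨_, N.div_mem (hCN (top j).mC) (top j).uN⟩
      (Finset.mem_biUnion.2 ⟨j, hj, by simp⟩) ha.mV
    have eB' : j.η ∈ B := hX ⟨_, (top j).eN⟩ (Finset.mem_biUnion.2 ⟨j, hj, by simp⟩) (ha.eV hV)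
    have sU : j.s ∈ U := hU0 (Finset.mem_union_right _ (Finset.mem_image_of_mem _ hj))
    have i4 := (Finset.subset_biUnion_of_mem _ hj).trans i3
    have hd : ∀ s ∈ U, s ≠ j.s → Dec B ((y - j.s) / (s - j.s)) := fun s hs h =>
      hT _ sU _ (i2 (Finset.mem_erase.2 ⟨sub_ne_zero.2 h,
        Finset.mem_image.2 ⟨(s, j.s), Finset.mem_product.2 ⟨hs, sU⟩, rfl⟩⟩))
    obtain ⟨u, m, c, i, h1, h2, h3, h4⟩ : Gd C N y U j.η V B := by
      by_cases hi : j.i j.s = 0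
      · exact hl2 _ _ _ (fun W hW h => (dsc C N y _ _ _ _ _ _ W hCN hW j.hs (j.ax W h)).1 hi
          (j.hi.resolve_left (not_not.2 hi))) V B hV hE hB tB eB'
          (hT.mono subset_rfl (Finset.subset_union_left.trans i4))
      by_cases h : ∃ s ∈ U, s ≠ j.s ∧ Un V (j.t / ρ j s)
      · obtain ⟨s, hs, h1, h2⟩ := h
        obtain ⟨r1, r2⟩ := hρ j s hi hs
        refine hl2 (j.t / ρ j s) _ (insert (j.t / ρ j s) (insert (j.t / ρ j s)⁻¹ j.E))
          (fun W hW h => (dsc C N y _ _ _ _ _ _ W hCN hW j.hs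
            (j.ax W fun x hx => h x (by simp [hx]))).2 _ r1
              ⟨h _ (by simp), h2.2.1, h _ (by simp)⟩) V B hV ?_ hB ?_ eB'
          (hT.mono subset_rfl (((Finset.subset_biUnion_of_mem _ hs).trans
            Finset.subset_union_right).trans i4))
        · simp only [Finset.forall_mem_insert]
          exact ⟨h2.1, h2.2.2, hE⟩
        · have hu := ((ha.mon j.s (by simp)).2.mono (lr_le hB.le (by
            rintro _ (rfl | rfl | rfl); exacts [tB, mB, eB']) hB.dom)).inv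
          refine (hB.dec_of_zpow (N.div_mem ha.uN (hCN r1)) hi ?_).mem hB.dom h2.1
          convert (hd s hs h1).un_mul hu using 1
          have := sub_ne_zero.2 (ne_of_tr hy j.hs)
          have := sub_ne_zero.2 h1
          have := ha.c_ne (Finset.mem_singleton_self _)
          rw [div_zpow, r2]
          field_simp
      · exact ann C N y _ _ _ _ _ (ρ j) _ U V B hCN hV ha hi sU hU (fun s hs h1 =>
          ⟨(hρ j s hi hs).1, (hρ j s hi hs).2, fun h2 => h ⟨s, hs, h1, h2⟩, hd s hs h1⟩) hB tB mB eB'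
    obtain ⟨u', m', c', a1, a2, a3, a4, a5⟩ :=
      ax2 C N y u m _ U Λ c i V B hC hCN hV h1 h2 hB h3 h4 eB' hΛ hT
    obtain ⟨Γ, E, b1, b2, b3⟩ := spr C N N₀ y u' m' _ U Λ c' i V hFG eN hV a1 a2 (by
      rw [eB]; rintro _ (rfl | rfl | rfl); exacts [a3, a4, eB']) a5
    exact ⟨⟨(Γ, u', m', E), b1, a1.tr, b3⟩, E, b2, fun W _ h => h⟩)
  refine ⟨J.biUnion (·.1.1), fun z hz => ?_, fun V hV => ?_⟩
  · obtain ⟨j, -, h⟩ := Finset.mem_biUnion.1 hz
    exact j.2.1 z h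
  · obtain ⟨j, hj, H⟩ := hJ V hV (by simp)
    have := Finset.subset_biUnion_of_mem (fun j : ι => j.1.1) hj
    exact ⟨_, _, _, H, j.2.2.1, fun F R W O c1 c2 c3 c4 hW c5 c6 c7 c8 =>
      (j.2.2.2 F R W O c1 c2 c3 (fun z hz => c4 z (this hz)) hW c5 c6 c7 c8).mono this⟩

end Pool.Agent.MP_19ffc6_ag.Perf.Ss

end MrgPart1

-- marker of a merged file
example : 731051 + 319733 = 731051 + 319733 := rfl
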