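import Pool.Agent.MP_19ffc6_ag.perf.FlSpec2
import Pool.Agent.MP_19ffc6_ag.perf.FlSep
import Pool.Agent.MP_19ffc6_ag.perf.SsAsm

-- ======== part 0: formerly Pool.Agent.MP_19ffc6_ag.perf.FlBase
section MrgPart0

/-! PROJECT PERF, block FL, row BASE: bookkeeping of fields. -/

namespace Pool.Agent.MP_19ffc6_ag.Perf.Fl

open Polynomial IntermediateField Pool.Agent.R72.Wild Pool.Agent.R72.Lci Pool.Agent.R72.Res
  Pool.Agent.R72.Res.B Pool.Agent.R72.Res.P Pool.Agent.MP_19ffc6_ag.Perf.Ss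

variable {k L : Type} [Field k] [Field L] [Algebra k L]

namespace Base

/-- Algebraic over a ring implies algebraic over a ring with a larger image. -/
lemma algOf {R S : Type} [CommRing R] [CommRing S] [Algebra R L] [Algebra S L]
    (hi : Function.Injective (algebraMap R L))
    (h : ∀ r : R, ∃ s : S, algebraMap S L s = algebraMap R L r) {a : L} (ha : IsAlgebraic R a) :
    IsAlgebraic S a := by
  obtain ⟨p, h0, hp⟩ := ha
  obtain ⟨q, hq⟩ : p.map (algebraMap R L) ∈ lifts (algebraMap S L) :=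
    (lifts_iff_coeff_lifts _).2 fun i => by rw [coeff_map]; exact h _
  replace hq : q.map (algebraMap S L) = p.map (algebraMap R L) := hq
  refine ⟨q, fun e => h0 (map_injective _ hi ?_), ?_⟩
  · rw [← hq, e, Polynomial.map_zero, Polynomial.map_zero]
  · rw [← eval_map_algebraMap, hq, eval_map_algebraMap, hp]

lemma algS {A B : Subfield L} (h : A ≤ B) {a : L} (ha : IsAlgebraic A a) : IsAlgebraic B a :=
  algOf (algebraMap A L).injective (fun r => ⟨⟨r, h r.2⟩, rfl⟩) ha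

lemma algI {A : Subfield L} {E : IntermediateField k L} (h : ∀ a ∈ A, a ∈ E) {a : L}
    (ha : IsAlgebraic A a) : IsAlgebraic E a :=
  algOf (algebraMap A L).injective (fun r => ⟨⟨r, h r r.2⟩, rfl⟩) ha

/-- The elements that are algebraic over `K₀`. -/
lemma exC (K₀ : Subfield L) (hk : ∀ c : k, IsAlgebraic K₀ (algebraMap k L c)) :
    ∃ C : IntermediateField k L, (∀ a, a ∈ C ↔ IsAlgebraic K₀ a) ∧ AC C := by
  refine ⟨(algebraicClosure K₀ L).toSubfield.toIntermediateField fun c =>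
    mem_algebraicClosure_iff.2 (hk c), fun a => mem_algebraicClosure_iff, fun a ha => ?_⟩
  have h1 : IsAlgebraic (algebraicClosure K₀ L) a :=
    algOf (RingHom.injective _) (fun r => ⟨⟨r, r.2⟩, rfl⟩) ha
  exact mem_algebraicClosure_iff.2 (h1.restrictScalars K₀)

lemma Ek_le (k₀ : Subfield k) (y : ℕ → L) (n : ℕ) :
    ∀ a ∈ Ek k₀ y n, a ∈ adjoin k (Set.range (xs y n)) := by
  refine Subfield.closure_le (t := (adjoin k (Set.range (xs y n))).toSubfield).2 ?_
  rintro _ (⟨c, -, rfl⟩ | ⟨j, hj, rfl⟩)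
  · exact IntermediateField.algebraMap_mem _ c
  · exact subset_adjoin k _ ⟨⟨j, hj⟩, rfl⟩

lemma le_ky (F₀ : Subfield L) (y : L) : F₀ ≤ ky F₀ y := fun _ h => Subfield.subset_closure (.inl h)

end Base

open Base

theorem base : BaseStmt k L where
  succ k₀ y n := by
    refine le_antisymm (Subfield.closure_le.2 ?_) (Subfield.closure_le.2 ?_)
    · rintro _ (h | ⟨j, hj, rfl⟩)
      · exact le_ky _ _ (Subfield.subset_closure (.inl h))
      · rcases Nat.lt_succ_iff_lt_or_eq.1 hj with h | rfl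
        · exact le_ky _ _ (Subfield.subset_closure (.inr ⟨j, h, rfl⟩))
        · exact Subfield.subset_closure (.inr rfl)
    · rintro _ (h | rfl)
      · exact Subfield.closure_mono (Set.union_subset_union_right _
          (Set.image_mono fun j (hj : j < n) => hj.trans n.lt_succ_self)) h
      · exact Subfield.subset_closure (.inr ⟨n, n.lt_succ_self, rfl⟩)
  cl k₀ hk y n h := by
    refine ⟨h.comp Fin.castSucc (Fin.castSucc_injective n), ?_⟩
    obtain ⟨C, h1, h2⟩ := exC (k := k) (Ek k₀ y n) fun c => by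
      have := hk.alg
      exact algOf (RingHom.injective _)
        (fun r => ⟨⟨_, Subfield.subset_closure (.inl ⟨r, r.2, rfl⟩)⟩, rfl⟩)
        ((Algebra.IsAlgebraic.isAlgebraic (R := k₀) c).algebraMap)
    refine ⟨C, h1, h2, fun ha => ?_⟩
    have h3 := isAlgebraic_adjoin_iff.1 (algI (Ek_le k₀ y n) ((h1 _).1 (h2 _ ha)))
    have h4 := h.transcendental_adjoin (s := Set.range Fin.castSucc) (i := Fin.last n)
      fun ⟨j, hj⟩ => (Fin.castSucc_lt_last j).ne hj
    rw [← Set.range_comp] at h4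
    exact h4 h3
  deg k₀ y n N h hG := by
    let x : Fin n → N := fun j => ⟨y j, hG.le _ (Subfield.subset_closure (.inr ⟨j, j.2, rfl⟩))⟩
    have h1 : AlgebraicIndependent k x := AlgebraicIndependent.of_comp N.val h
    have h2 : IsTranscendenceBasis k x := h1.isTranscendenceBasis_iff_isAlgebraic.2 ⟨fun a => by
      rw [← isAlgebraic_algebraMap_iff (algebraMap N L).injective]
      refine algOf Subtype.val_injective (fun r => ?_)
        (isAlgebraic_adjoin_iff.1 (algI (Ek_le k₀ y n) (hG.alg a a.2)))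
      have h3 : (r : L) ∈ (Algebra.adjoin k (Set.range x)).map N.val := by
        rw [AlgHom.map_adjoin, ← Set.range_comp]
        exact r.2
      obtain ⟨s, hs, e⟩ := h3
      exact ⟨⟨s, hs⟩, e⟩⟩
    rw [← h2.cardinalMk_eq_trdeg, Cardinal.mk_fin]
  gw F₀ F y G hG ha hs hy := by
    refine ⟨Subfield.closure_le (t := (F ⊔ adjoin k (G : Set L)).toSubfield).2 ?_, ?_,
      fun g hg => ?_⟩
    · rintro _ (h | rfl)
      · exact le_sup_left (a := F) (hG.le _ h)
      · exact le_sup_right (a := F) hy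
    · obtain ⟨C, h1, -⟩ := exC (k := k) (ky F₀ y) fun c =>
        algS (le_ky _ _) (hG.alg _ (F.algebraMap_mem c))
      have h2 : F ⊔ adjoin k (G : Set L) ≤ C :=
        sup_le (fun a h => (h1 a).2 (algS (le_ky _ _) (hG.alg a h)))
          (adjoin_le_iff.2 fun a h => (h1 a).2 (ha a h))
      exact fun a h => (h1 a).1 (h2 h)
    · let T : IntermediateField k L :=
        ((F ⊔ adjoin k (G : Set L)).toSubfield.comap (g.e : L →+* L)).toIntermediateField
          fun c => by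
            change g.e _ ∈ F ⊔ adjoin k (G : Set L)
            rw [g.map]
            exact IntermediateField.algebraMap_mem _ _
      have h2 : F ⊔ adjoin k (G : Set L) ≤ T :=
        sup_le (fun a h => le_sup_left (a := F) (hG.st g (hg.mono (le_ky _ _)) a h))
          (adjoin_le_iff.2 fun a h => le_sup_right (a := F) (subset_adjoin k _ (hs g hg a h)))
      exact fun a h => h2 h
  alg _ _ h _ ha := algI h ha
  tr F C y h hy ha := hy (algOf (algebraMap F L).injective (fun r => ⟨⟨r, h r.2⟩, rfl⟩) ha)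

end Pool.Agent.MP_19ffc6_ag.Perf.Fl

end MrgPart0

-- ======== part 1: formerly Pool.Agent.MP_19ffc6_ag.perf.FlDn
section MrgPart1

/-! PROJECT PERF, block FL, row DN: the local rings of the tree of discs are normal. -/

namespace Pool.Agent.MP_19ffc6_ag.Perf.Fl

open Polynomial IntermediateField Pool.Agent.R72.Wild Pool.Agent.R72.Lci Pool.Agent.R72.Res
  Pool.Agent.R72.Res.B Pool.Agent.R72.Res.P Pool.Agent.MP_19ffc6_ag.Perf.Ss

variable {k L : Type} [Field k] [Field L] [Algebra k L]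

namespace Dn

theorem nrm_loc {E : IntermediateField k L} {D O : Subalgebra k L} (h : Nrm E D) (hD : D ≤ O)
    (hO : Lcl O) : Nrm E (loc D O) := by
  refine ⟨?_, fun x hx => ?_, fun x hx hi => ?_⟩
  · rintro _ ⟨a, ha, b, hb, -, rfl⟩
    exact div_mem (h.le a ha) (h.le b hb)
  · obtain ⟨b, h1, h2, h3⟩ := h.frac x hx
    exact ⟨b, le_loc _ _ h1, h2, le_loc _ _ h3⟩
  · obtain ⟨c, h1, h2, h3⟩ := (IsPoint.isIntegral_iff (isPoint_loc hD hO)).1 hi
    have := mul_mem h2.2.2 (le_loc D O (h.int _ (mul_mem (h.le c h1) hx) h3))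
    rwa [inv_mul_cancel_left₀ h2.2.1] at this

theorem sup_eq {F : IntermediateField k L} {u y : L} (h1 : u ∈ F ⊔ k⟮y⟯) (h2 : y ∈ F ⊔ k⟮u⟯) :
    F ⊔ k⟮u⟯ = F ⊔ k⟮y⟯ :=
  le_antisymm (sup_le le_sup_left (adjoin_simple_le_iff.2 h1))
    (sup_le le_sup_left (adjoin_simple_le_iff.2 h2))

theorem self_mem (F : IntermediateField k L) (y : L) : y ∈ F ⊔ k⟮y⟯ :=
  (le_sup_right : k⟮y⟯ ≤ _) (mem_adjoin_simple_self k y)

/-- If the discs with the nearest centre are decided, all discs are decided. -/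
theorem td_of {R A W : Subalgebra k L} {y b : L} {U Λ : Finset L} (hR : R ≤ A) (hA : Dom A W)
    (h0 : ∀ s ∈ U, y - s ≠ 0) (hb : b ∈ U) (hn : ∀ s ∈ U, (y - b) / (y - s) ∈ W)
    (hΛ : ∀ l ∈ Λ, l ≠ 0) (hd : ∀ s ∈ U, ∀ t ∈ U, s ≠ t → s - t ∈ Λ)
    (hl : ∀ l ∈ Λ, ∀ l' ∈ Λ, Dec R (l / l')) (h : ∀ l ∈ Λ, Dec A ((y - b) / l)) :
    Ss.TD y U Λ A := by
  intro s hs l hl'
  by_cases e : b = s
  · exact e ▸ h l hl'
  have hd' := hd b hb s hs e
  have n1 := h0 s hs
  have n2 := h0 b hb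
  have n3 := hΛ _ hd'
  rcases h _ hd' with h1 | h1
  · have h2 : (y - s) / (b - s) = 1 + (y - b) / (b - s) := by field_simp; ring
    have h3 : (y - s) / (b - s) ∈ A := h2 ▸ add_mem (one_mem _) h1
    have h4 : ((y - s) / (b - s))⁻¹ = 1 - (y - b) / (y - s) := by field_simp; ring
    have h5 : Un A ((y - s) / (b - s)) :=
      hA.2 _ h3 ⟨hA.1 h3, div_ne_zero n1 n3, h4 ▸ sub_mem (one_mem _) (hn s hs)⟩
    have := ((hl _ hd' l hl').of_le hR).un_mul h5
    rwa [div_mul_div_cancel₀ n3] at this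
  · have h2 : (y - s) / (y - b) = 1 + ((y - b) / (b - s))⁻¹ := by field_simp; ring
    have h3 : (y - s) / (y - b) ∈ A := h2 ▸ add_mem (one_mem _) h1
    have h5 : Un A ((y - s) / (y - b)) :=
      hA.2 _ h3 ⟨hA.1 h3, div_ne_zero n1 n2, by rw [inv_div]; exact hn s hs⟩
    have := (h l hl').un_mul h5
    rwa [div_mul_div_cancel₀ n2] at this

end Dn

open Dn in
theorem dn (hn : Ss.NodStmt k L) : DnStmt k L := by
  classical
  intro F R O y U Λ hR _ hO hRO htr hU hΛ h0 h1 hd hl htd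
  obtain ⟨W, hW, hOW⟩ := exists_val_dom hO
  have hRW := Dom.trans hRO hOW
  have n0 : ∀ s ∈ U, y - s ≠ 0 := fun s hs => sub_ne_zero.2 (ne_of_tr htr (hU s hs))
  obtain ⟨b, hb, hnear⟩ : ∃ b ∈ U, ∀ s ∈ U, (y - b) / (y - s) ∈ W := by
    obtain ⟨g, hg, H⟩ := hW.exists_min (T := U.image fun s => (y - s)⁻¹)
      (Finset.image_nonempty.2 ⟨0, h0⟩) (by
        intro t ht
        obtain ⟨s, hs, rfl⟩ := Finset.mem_image.1 ht
        exact inv_ne_zero (n0 s hs))
    obtain ⟨b, hb, rfl⟩ := Finset.mem_image.1 hg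
    refine ⟨b, hb, fun s hs => ?_⟩
    have := H _ (Finset.mem_image_of_mem _ hs)
    rwa [inv_div_inv] at this
  have nb := n0 b hb
  have hq : ∀ l ∈ Λ, ∀ l' ∈ Λ, l / l' ∈ W → l / l' ∈ R := fun l a l' a' => (hl l a l' a').mem hRW
  have hc : ∀ x ∈ crd y U Λ O, x ∈ O := fun x hx => hx.1
  have c1 : ∀ l ∈ Λ, (y - b) / l ∈ W → (y - b) / l ∈ crd y U Λ O := fun l a h =>
    ⟨(htd b hb l a).mem hOW h, b, hb, l, a, Or.inl rfl⟩
  have c2 : ∀ l ∈ Λ, l / (y - b) ∈ W → l / (y - b) ∈ crd y U Λ O := fun l a h => by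
    rw [← inv_div] at h ⊢
    exact ⟨(htd b hb l a).inv.mem hOW h, b, hb, l, a, Or.inr rfl⟩
  have tx : Transcendental F (y - b) := fun e => htr (by
    have := e.add (isAlgebraic_algebraMap (⟨b, hU b hb⟩ : F))
    rwa [show algebraMap F L ⟨b, hU b hb⟩ = b from rfl, sub_add_cancel] at this)
  have fF : ∀ (z : L) {c : L}, c ∈ F → c ∈ F ⊔ k⟮z⟯ := fun z _ h => (le_sup_left : F ≤ _) h
  have fin : ∀ u m : L, Transcendental F u → u ∈ F ⊔ k⟮y⟯ → y ∈ F ⊔ k⟮u⟯ → m ∈ R →
      u ∈ lr R (crd y U Λ O) O → m / u ∈ lr R (crd y U Λ O) O →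
      (∀ l ∈ Λ, Dec (lr R {u, m / u} O) ((y - b) / l)) →
      Nrm (F ⊔ k⟮y⟯) (lr R (crd y U Λ O) O) := by
    intro u m t1 t2 t3 t4 t5 t6 t7
    have hB := lr_le_val hRO.1 hc
    have hS : ∀ x ∈ ({u, m / u} : Set L), x ∈ lr R (crd y U Λ O) O := by
      rintro _ (rfl | rfl) <;> assumption
    have hS' : ∀ x ∈ ({u, m / u} : Set L), x ∈ O := fun x hx => hB (hS x hx)
    have hA := dom_lr hRO.1 hS'
    have hT := td_of (le_lr R _ O) (Dom.trans hA hOW) n0 hb hnear (fun l a => (hΛ l a).2) hd hl t7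
    have e : lr R (crd y U Λ O) O = lr R {u, m / u} O := by
      refine le_antisymm (lr_le_lr (le_lr _ _ _) ?_ hRO.1 hS') (lr_le_lr (le_lr _ _ _) hS hRO.1 hc)
      rintro x ⟨hx, s, hs, l, a, rfl | rfl⟩
      · exact (hT s hs l a).mem hA hx
      · exact (hT s hs l a).inv.mem hA hx
    rw [e, ← sup_eq t2 t3]
    exact nrm_loc (hn F R u m hR t1 t4) (sup_adjoin_le hRO.1 hS') hO
  obtain ⟨l₁, a₁, H₁⟩ : ∃ l₁, (l₁ = 0 ∨ l₁ ∈ Λ ∧ l₁ / (y - b) ∈ W) ∧
      ∀ l ∈ Λ, l / (y - b) ∈ W → l₁ ∈ Λ ∧ l / l₁ ∈ R := by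
    rcases (Λ.filter fun l => l / (y - b) ∈ W).eq_empty_or_nonempty with e | e
    · exact ⟨0, Or.inl rfl, fun l a h => absurd h (Finset.filter_eq_empty_iff.1 e a)⟩
    · obtain ⟨g, hg, H⟩ := hW.exists_min e fun t ht => (hΛ t (Finset.mem_filter.1 ht).1).2
      have hg' := Finset.mem_filter.1 hg
      exact ⟨g, Or.inr hg', fun l a h =>
        ⟨hg'.1, hq l a g hg'.1 (H l (Finset.mem_filter.2 ⟨a, h⟩))⟩⟩
  have low : ∀ A : Subalgebra k L, R ≤ A → l₁ / (y - b) ∈ A → ∀ l ∈ Λ, l / (y - b) ∈ W →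
      Dec A ((y - b) / l) := by
    intro A hA h l a hw
    obtain ⟨k1, k2⟩ := H₁ l a hw
    have := mul_mem (hA k2) h
    rw [div_mul_div_cancel₀ (hΛ _ k1).2] at this
    exact Or.inr (by rwa [inv_div])
  rcases (Λ.filter fun l => (y - b) / l ∈ W).eq_empty_or_nonempty with e | e
  · have hw : ∀ l ∈ Λ, l / (y - b) ∈ W := fun l a => by
      rw [← inv_div]
      exact (hW _).resolve_left (Finset.filter_eq_empty_iff.1 e a)
    have a := (H₁ 1 h1 (hw 1 h1)).1
    obtain ⟨f1, f2⟩ := hΛ _ a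
    refine fin (l₁ / (y - b)) 0 (fun h => tr_div tx f1 f2 (by simpa using h.inv))
      (div_mem (fF _ f1) (sub_mem (self_mem F y) (fF _ (hU b hb)))) ?_ (zero_mem _)
      (mem_lr _ _ (c2 _ a (hw _ a))) (by simp) fun l a' =>
        low _ (le_lr _ _ _) (mem_lr _ _ (by simp)) l a' (hw l a')
    have := add_mem (fF _ (hU b hb)) (div_mem (fF _ f1) (self_mem F (l₁ / (y - b))))
    rwa [div_div_cancel₀ f2, add_sub_cancel] at this
  · obtain ⟨g, hg, H⟩ := hW.exists_min (T := (Λ.filter fun l => (y - b) / l ∈ W).image (·⁻¹))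
      (Finset.image_nonempty.2 e) (by
        intro t ht
        obtain ⟨s, hs, rfl⟩ := Finset.mem_image.1 ht
        exact inv_ne_zero (hΛ s (Finset.mem_filter.1 hs).1).2)
    obtain ⟨l₂, hl₂, rfl⟩ := Finset.mem_image.1 hg
    obtain ⟨a, w₂⟩ := Finset.mem_filter.1 hl₂
    obtain ⟨f1, f2⟩ := hΛ _ a
    have em : l₁ / l₂ / ((y - b) / l₂) = l₁ / (y - b) := by field_simp
    refine fin ((y - b) / l₂) (l₁ / l₂) (tr_div tx f1 f2)
      (div_mem (sub_mem (self_mem F y) (fF _ (hU b hb))) (fF _ f1)) ?_ ?_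
      (mem_lr _ _ (c1 _ a w₂)) ?_ fun l a' => ?_
    · have := add_mem (fF _ (hU b hb)) (mul_mem (self_mem F ((y - b) / l₂)) (fF _ f1))
      rwa [div_mul_cancel₀ _ f2, add_sub_cancel] at this
    · rcases a₁ with rfl | ⟨k1, k2⟩
      · simp
      · refine hq _ k1 _ a ?_
        have := mul_mem k2 w₂
        rwa [div_mul_div_cancel₀ nb] at this
    · rw [em]
      rcases a₁ with rfl | ⟨k1, k2⟩
      · simp
      · exact mem_lr _ _ (c2 _ k1 k2)
    · rcases hW ((y - b) / l) with h | h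
      · have k1 := H _ (Finset.mem_image_of_mem _ (Finset.mem_filter.2 ⟨a', h⟩))
        rw [inv_div_inv] at k1
        have := mul_mem (mem_lr R O (S := {(y - b) / l₂, l₁ / l₂ / ((y - b) / l₂)})
          (Or.inl rfl)) (le_lr _ _ _ (hq _ a _ a' k1))
        rw [div_mul_div_cancel₀ f2] at this
        exact Or.inl this
      · rw [inv_div] at h
        exact low _ (le_lr _ _ _) (mem_lr _ _ (Or.inr em.symm)) l a' h

end Pool.Agent.MP_19ffc6_ag.Perf.Fl

end MrgPart1

-- marker of a merged file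
example : 731051 + 124189 = 731051 + 124189 := rfl
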