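import Pool.Agent.MP_19ffc6_ag.perf.FlSpec2

-- ======== part 0: formerly Pool.Agent.MP_19ffc6_ag.perf.FlAsm
section MrgPart0

/-! PROJECT PERF, block FL: assembly of one floor of the tower. -/

namespace Pool.Agent.MP_19ffc6_ag.Perf.Fl

open Polynomial IntermediateField Pool.Agent.R72.Wild Pool.Agent.R72.Lci Pool.Agent.R72.Res
  Pool.Agent.R72.Res.B Pool.Agent.R72.Res.P Pool.Agent.MP_19ffc6_ag.Perf.Ss

variable {k L : Type} [Field k] [Field L] [Algebra k L]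

lemma ky_le {F₀ : Subfield L} {y : L} {E : IntermediateField k L} (h : ∀ a ∈ F₀, a ∈ E)
    (hy : y ∈ E) : ∀ a ∈ ky F₀ y, a ∈ E := fun _ ha =>
  (Subfield.closure_le (t := E.toSubfield)).2 (Set.union_subset h (Set.singleton_subset_iff.2 hy)) ha

lemma le_ky (F₀ : Subfield L) (y : L) : F₀ ≤ ky F₀ y := fun _ ha =>
  Subfield.subset_closure (Or.inl ha)

lemma prod_fix {g : SA k L} {y : L} {U Λ : Finset L} (h : Perm g y U Λ) (h' : Perm g⁻¹ y U Λ) :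
    g • ∏ s ∈ U, (y - s) = ∏ s ∈ U, (y - s) := by
  rw [Finset.smul_prod']
  exact Finset.prod_nbij' (g • ·) (g⁻¹ • ·) h.cen h'.cen (fun _ _ => inv_smul_smul _ _)
    (fun _ _ => smul_inv_smul _ _) fun s _ => by rw [smul_sub, h.fix]

theorem floor_of {p : ℕ} (hsep : SepStmt k L p) (hcen : CenStmt k L) (hrad : RadStmt k L)
    (hmod : ModStmt k L) (hss : SSStmt k L) (hb : BaseStmt k L) (hfrm : FrmStmt k L)
    (hmonu : MonuStmt k L) (hstar : StarStmt k L) (hsm : SmallStmt k L) (htw : TwStmt k L) :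
    FloorStmt k L := by
  classical
  intro k₀ h0 n hT y hy Z S₀ hZ hS₀
  obtain ⟨hy', C, hC, hAC, htr⟩ := hb.cl k₀ h0 y n hy
  have hK := hb.succ k₀ y n
  rw [hK] at hZ hS₀
  obtain ⟨e, Y, G, hY, hTG, hYG, hGa, hGs, hN', hYt, N₁, fd₁, gal₁, hN₁⟩ :=
    hsep (Ek k₀ y n) C (y n) (insert 0 (Z ∪ S₀)) hC htr (by
      intro t ht
      rcases Finset.mem_insert.1 ht with rfl | ht
      · exact isAlgebraic_zero
      · exact (Finset.mem_union.1 ht).elim (hZ t) fun h => (hS₀ t h).2.1)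
  have hF₀K := le_ky (Ek k₀ y n) (y n)
  have hKE : ∀ E : IntermediateField k L, (∀ a ∈ Ek k₀ y n, a ∈ E) →
      ∀ a ∈ ky (Ek k₀ y n) (y n), a ∈ E ⊔ k⟮Y⟯ := fun E hE =>
    ky_le (fun a ha => le_sup_left (α := IntermediateField k L) (hE a ha))
      (hY ▸ pow_mem (le_sup_right (α := IntermediateField k L) (mem_adjoin_simple_self k Y)) _)
  have hF₀C : ∀ a ∈ Ek k₀ y n, a ∈ C := fun a ha =>
    (hC a).2 (isAlgebraic_algebraMap (⟨a, ha⟩ : Ek k₀ y n))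
  have hΘ : ∀ {θ θ'}, θ ∈ G → θ' ∈ G → θ ≠ θ' →
      θ - θ' ∈ ((G ×ˢ G).image fun q => q.1 - q.2).erase 0 := fun h h' hne =>
    Finset.mem_erase.2 ⟨sub_ne_zero.2 hne,
      Finset.mem_image.2 ⟨(_, _), Finset.mem_product.2 ⟨h, h'⟩, rfl⟩⟩
  obtain ⟨U₁, Γ₁, hU₁, hΓ₁, hmon⟩ := hmonu C Y (((G ×ˢ G).image fun q => q.1 - q.2).erase 0) hAC (by
    intro θ hθ
    obtain ⟨h1, h2⟩ := Finset.mem_erase.1 hθ
    obtain ⟨q, hq, rfl⟩ := Finset.mem_image.1 h2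
    obtain ⟨h3, h4⟩ := Finset.mem_product.1 hq
    exact ⟨h1, (hb.alg _ _ (hKE C hF₀C) _ (hGa _ h3)).sub (hb.alg _ _ (hKE C hF₀C) _ (hGa _ h4))⟩)
  obtain ⟨U₀, hU₀, hss⟩ := hss C (adjoin k (G : Set L)) Y N₁ hAC hYt fd₁ gal₁
    (fg_adjoin_finset G) hN₁
  obtain ⟨U, hU, h0U, h1U, hUa, hUs, hUg⟩ := hcen (Ek k₀ y n) (U₀ ∪ U₁) fun s hs =>
    (hC s).1 ((Finset.mem_union.1 hs).elim (hU₀ s) (hU₁ s))
  obtain ⟨Λ₀, hΛ₀, hss⟩ := hss U (Finset.subset_union_left.trans hU) fun s hs => (hC s).2 (hUa s hs)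
  obtain ⟨Λ, hΛ, hΛa, hΛg⟩ := hrad (Ek k₀ y n) (Λ₀ ∪ U.erase 0) fun l hl =>
    (Finset.mem_union.1 hl).elim (fun h => ⟨(hC l).1 (hΛ₀ l h).1, (hΛ₀ l h).2⟩) fun h =>
      ⟨hUa l (Finset.mem_erase.1 h).2, (Finset.mem_erase.1 h).1⟩
  obtain ⟨Γ, hΓ, hss⟩ := hss Λ (Finset.subset_union_left.trans hΛ) fun l hl =>
    ⟨(hC l).2 (hΛa l hl).1, (hΛa l hl).2⟩
  have hUΛ : ∀ s ∈ U, s ≠ 0 → s ∈ Λ := fun s hs h =>
    hΛ (Finset.mem_union_right _ (Finset.mem_erase.2 ⟨h, hs⟩))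
  obtain ⟨T, hT1, hT2, hT3, hT4, hT5⟩ : ∃ T : Finset L, Γ ⊆ T ∧ Γ₁ ⊆ T ∧ Λ ⊆ T ∧
      (∀ l ∈ Λ, ∀ l' ∈ Λ, l / l' ∈ T) ∧ ∀ t ∈ T, t ≠ 0 ∧ IsAlgebraic (Ek k₀ y n) t := by
    refine ⟨Γ ∪ Γ₁ ∪ Λ ∪ (Λ ×ˢ Λ).image fun q => q.1 / q.2, fun _ h => by simp [h],
      fun _ h => by simp [h], fun _ h => by simp [h], fun l hl l' hl' => Finset.mem_union_right _
        (Finset.mem_image.2 ⟨(l, l'), Finset.mem_product.2 ⟨hl, hl'⟩, rfl⟩), fun t ht => ?_⟩
    simp only [Finset.mem_union, Finset.mem_image, Finset.mem_product] at ht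
    rcases ht with ((h | h) | h) | ⟨q, ⟨h1, h2⟩, rfl⟩
    · exact ⟨(hΓ t h).2, (hC t).1 (hΓ t h).1⟩
    · exact ⟨(hΓ₁ t h).2, (hC t).1 (hΓ₁ t h).1⟩
    · exact (hΛa t h).symm
    · exact ⟨div_ne_zero (hΛa _ h1).2 (hΛa _ h2).2,
        (hC _).1 (div_mem ((hC _).2 (hΛa _ h1).1) ((hC _).2 (hΛa _ h2).1))⟩
  obtain ⟨F, S, M, hM⟩ := hT y hy' T hT5
  have hg0 := hM.gw n le_rfl
  have hFC : F n ≤ C := fun a ha => (hC a).2 (hg0.alg a ha)
  have hGG : ∀ θ ∈ G, θ ∈ adjoin k (G : Set L) := fun θ h => subset_adjoin k _ h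
  have hGw := hb.gw (Ek k₀ y n) (F n) (y n) G hg0 hGa (fun g hg => (hGs g hg).2)
    (hY ▸ pow_mem (hGG Y hYG) _)
  replace hKE := hKE (F n) hg0.le
  obtain ⟨N', fd', nm', hN'⟩ := hN' _ hKE
  have hEN : F n ⊔ k⟮Y⟯ ⊔ adjoin k (G : Set L) = F n ⊔ adjoin k (G : Set L) := by
    rw [sup_assoc, sup_eq_right.2 (adjoin_simple_le_iff.2 (hGG Y hYG))]
  rw [hEN] at hN'
  generalize hN : F n ⊔ adjoin k (G : Set L) = N at hGw hN' hEN
  have hFN : F n ≤ N := hN ▸ le_sup_left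
  have hGN : ∀ θ ∈ G, θ ∈ N := fun θ h =>
    hN ▸ le_sup_right (α := IntermediateField k L) (hGG θ h)
  have hNfg : N.FG := hN ▸ fg_sup (hM.fg n le_rfl) (fg_adjoin_finset G)
  have perm : ∀ g : SA k L, Fx (ky (Ek k₀ y n) (y n)) g → Perm g Y U Λ := fun g hg =>
    ⟨(hGs g hg).1, hUg g (hg.mono hF₀K), hΛg g (hg.mono hF₀K)⟩
  have hΛF : ∀ l ∈ Λ, l ∈ F n := fun l hl => hM.sub l (hT3 hl)
  have hUF : ∀ s ∈ U, s ∈ F n := fun s hs => by
    by_cases h : s = 0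
    exacts [h ▸ zero_mem _, hΛF s (hUΛ s hs h)]
  obtain ⟨M', hst, hmdl, hM'⟩ := hmod _ (F n) N M Y U Λ hGw hM.mdl (hM.stb.mono hF₀K) hFN
    (hGN Y hYG) hNfg (fun a ha => hb.alg _ _ hKE a (hGw.alg a ha)) hUF
    (fun l hl => ⟨hΛF l hl, (hΛa l hl).2⟩) h0U (hUΛ 1 h1U one_ne_zero) perm
  have hdeg : Algebra.trdeg k N = (n + 1 : ℕ) := hb.deg k₀ y (n + 1) N hy (hK ▸ hGw)
  have hS₀G : ∀ f ∈ S₀, f ∈ G := fun f hf => hTG (by simp [hf])
  have hinv : ∀ f ∈ insert (∏ s ∈ U, (Y - s)) (S ∪ S₀),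
      f ∈ N ∧ Ivt k (ky (Ek k₀ y n) (y n)) f := by
    intro f hf
    rcases Finset.mem_insert.1 hf with rfl | hf
    · exact ⟨prod_mem fun s hs => sub_mem (hGN Y hYG) (hFN (hUF s hs)),
        fun g hg => prod_fix (perm g hg) (perm _ hg.inv)⟩
    rcases Finset.mem_union.1 hf with hf | hf
    · exact ⟨hFN (hM.inv f hf).1, fun g hg => (hM.inv f hf).2 g (hg.mono hF₀K)⟩
    · exact ⟨hGN f (hS₀G f hf), (hS₀ f hf).2.2⟩
  have up1 : Function.update F (n + 1) N (n + 1) = N := Function.update_self ..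
  have up2 : ∀ i ≤ n, Function.update F (n + 1) N i = F i := fun i hi =>
    Function.update_of_ne (Nat.lt_succ_of_le hi).ne ..
  refine ⟨Function.update F (n + 1) N, insert (∏ s ∈ U, (Y - s)) (S ∪ S₀), M',
    fun z hz => up1.symm ▸ hGN z (hTG (by simp [hz])), fun f hf => by simp [hf],
    fun i hi => ?_, fun i hi => ?_, fun i hi => ?_, up1.symm ▸ hdeg, by rw [up1, hK]; exact hinv,
    by simp, hK ▸ hst, up1.symm ▸ hmdl, fun O hO hr => ?_⟩
  · rcases Nat.le_succ_iff.1 hi with hi | rfl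
    · rw [up2 i hi]; exact hM.gw i hi
    · rw [up1, hK]; exact hGw
  · rcases Nat.le_succ_iff.1 hi with hi | rfl
    · rw [up2 i hi]; exact hM.fg i hi
    · rw [up1]; exact hNfg
  · rcases Nat.lt_succ_iff_lt_or_eq.1 hi with hi | rfl
    · rw [up2 i hi.le, up2 _ hi]; exact hM.mono i hi
    · rw [up1, up2 _ le_rfl]; exact hFN
  obtain ⟨R, hR, hD, hTD, hP, hTop⟩ := hM' O hO
  obtain ⟨Os, x, rfl, hTw, hFul, hSm, hTm⟩ := hM.pt R hR fun a ha =>
    (hr a (hD.1 ha)).imp fun c hc h => hc (h.mono hD.1)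
  have hfr := hTw.fr n le_rfl
  obtain ⟨hnrm, hlcl, -, -⟩ := hsm.nrm _ _ _ _ hfr
  obtain ⟨W, hW, hOW⟩ := exists_val_dom hP.lcl
  obtain ⟨u, m, -, hout⟩ := hss (F n) (Os n) W O hFC hnrm hlcl (fun z hz => (hTm z (hT1 hz)).2) hW
    hD (hN.symm ▸ hTop W hW hOW) hr
  have hNd : Nd n (F n) (Os n) O (xs x n) u m := ⟨hfr, hD, hout.ne, hout.um, hout.mu,
    hout.mΓ.imp id fun h => (hTm m (hT1 h)).1, hout.rel⟩
  obtain ⟨D, hD'⟩ := hmdl.aff hdeg hO hr
  have hint := (hTop W hW hOW).up.int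
  have hFr := hfrm n (F n) N (Os n) O D _ u m hNd hFN hD' hint
  obtain ⟨c, i, hci, hsee⟩ := hout.mon
  have hz0 := hFr.fr.ne
  have hT' : ∀ t ∈ T, LMon O (sn (xs x n) u) t := fun t ht => lmon_sn hD.1 (hTm t ht).1
  have hYs : ∀ s ∈ U, LMon O (sn (xs x n) u) (Y - s) := fun s hs => by
    have h1 := (hT' _ (hT1 (hci s hs).1)).mul hz0 ((lmon_last hout.ne).zpow (i s))
    have h2 := (LMon.of_un (hci s hs).2).mul hz0 h1
    rwa [div_mul_cancel₀ _ h1.ne_zero] at h2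
  replace hmon := hmon _ N O _ hFr (by
      intro θ hθ
      obtain ⟨q, hq, rfl⟩ := Finset.mem_image.1 (Finset.mem_erase.1 hθ).2
      exact sub_mem (hGN _ (Finset.mem_product.1 hq).1) (hGN _ (Finset.mem_product.1 hq).2))
    (fun s hs => hYs s (hU (Finset.mem_union_right _ hs))) fun γ h => hT' γ (hT2 h)
  have hGm : ∀ θ ∈ G, θ ≠ 0 → LMon O (sn (xs x n) u) θ := fun θ h h' => by
    simpa using hmon _ (hΘ h (hTG (Finset.mem_insert_self _ _)) h')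
  have hS' : ∀ f ∈ insert (∏ s ∈ U, (Y - s)) (S ∪ S₀), LMon O (sn (xs x n) u) f := by
    intro f hf
    rcases Finset.mem_insert.1 hf with rfl | hf
    · exact Finset.prod_induction _ _ (fun _ _ => LMon.mul hz0) (.of_un (Un.one O)) hYs
    rcases Finset.mem_union.1 hf with hf | hf
    exacts [lmon_sn hD.1 (hSm f hf), hGm f (hS₀G f hf) (hS₀ f hf).1]
  have hful := hsm.ful n S _ U (Os n) O (xs x n) Y u c i hfr.fr.ne hD.1 hFul
    (fun f hf => by simp [hf]) (fun f hf => (hS' f hf).ne_zero) (Finset.mem_insert_self _ _)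
    (fun s hs => ⟨(hTm _ (hT1 (hci s hs).1)).1, (hci s hs).2⟩) hout.ne hsee
  have hun : ∀ g : SA k L, Fx (ky (Ek k₀ y n) (y n)) g → g • O = O →
      ∀ j, Un O (g • sn (xs x n) u j / sn (xs x n) u j) := fun g hg hgO j =>
    hsm.un N O _ _ g hint (hful j) (fun f hf => (hinv f hf).2 g hg) hgO (hFr.mem j)
      (hGw.st g hg _ (hFr.mem j))
  have hVt : Vt (F n ⊔ k⟮Y⟯) N G O (sn (xs x n) u) := ⟨hEN.ge,
    fun g hg => (hGs g fun a ha => hg a (hKE a ha)).2, fun g hg => hun g fun a ha => hg a (hKE a ha),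
    hGm, fun _ h _ h' hne => hmon _ (hΘ h h' hne)⟩
  have hTr : Tr (F n) (Os n) (xs x n) Y U Λ := ⟨hb.tr _ _ _ hFC hYt,
    fun l hl => ⟨hΛF l hl, (hTm l (hT3 hl)).1⟩, h0U, h1U, hUs, hUΛ,
    fun l hl l' hl' => (hTm _ (hT4 l hl l' hl')).2⟩
  refine ⟨Function.update Os (n + 1) O, Function.update x n u, Function.update_self .., ?_,
    by rw [xs_update_succ]; exact hful, by rw [xs_update_succ]; exact hS', by simp⟩
  rw [hK]
  refine htw _ _ n F N Os O x u hF₀K hTw hFr hD fun g hg hgO => ?_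
  have hgR := hsm.st M _ O g (hM.stb.eq (hg.mono hF₀K)) hR hD hgO
  have hgu : Un O (g • u / u) := by simpa using hun g hg hgO (Fin.last n)
  exact ⟨hgR, hgu, hstar n (F n) N Y N' (Os n) O _ u m U Λ G g hNd hFr hTr hTD hP hYs fd' nm' hN'
    hVt hgO hgR (hGw.smul_mem_iff hg) (perm g hg) (perm _ hg.inv)
    (hsm.tun _ _ _ _ _ g hTw (hg.mono hF₀K) hgR) hgu (hTw.star g (hg.mono hF₀K) hgR n le_rfl)⟩

end Pool.Agent.MP_19ffc6_ag.Perf.Fl

end MrgPart0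

-- ======== part 1: formerly Pool.Agent.MP_19ffc6_ag.perf.FlMonu
section MrgPart1

/-! PROJECT PERF, block FL, row MONU: finitely many centres and constants make algebraic
functions monomial. -/

namespace Pool.Agent.MP_19ffc6_ag.Perf.Fl

open Polynomial IntermediateField Pool.Agent.R72.Wild Pool.Agent.R72.Lci Pool.Agent.R72.Res
  Pool.Agent.R72.Res.B Pool.Agent.R72.Res.P Pool.Agent.MP_19ffc6_ag.Perf.Ss

variable {k L : Type} [Field k] [Field L] [Algebra k L]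

namespace Monu

variable {n : ℕ} {N : IntermediateField k L} {O : Subalgebra k L} {z : Fin n → L}

lemma lmon_one : LMon O z 1 := LMon.of_un (Un.one O)

lemma lmon_mn (hz : ∀ j, z j ≠ 0) (c : Fin n → ℤ) : LMon O z (mn z c) :=
  ⟨c, by rw [div_self (mn_ne_zero hz c)]; exact Un.one O⟩

lemma lmon_neg {a : L} (hz : ∀ j, z j ≠ 0) (h : LMon O z a) : LMon O z (-a) := by
  have e : Un O (-1 : L) := ⟨neg_mem (one_mem _), by simp, by simp⟩
  simpa using (LMon.of_un e).mul hz h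

lemma lmon_prod {ι : Type} (hz : ∀ j, z j ≠ 0) (s : Finset ι) (f : ι → L)
    (h : ∀ i ∈ s, LMon O z (f i)) : LMon O z (∏ i ∈ s, f i) :=
  Finset.prod_induction f (LMon O z) (fun _ _ ha hb => ha.mul hz hb) lmon_one h

/-- A common regular denominator. -/
lemma den (hk : KitF k L) (hf : Fr n N O z) (A : Finset L) (hA : ∀ a ∈ A, LMon O z a) :
    ∃ μ ∈ O, LMon O z μ ∧ ∀ a ∈ A, μ * a ∈ O := by
  classical
  have hz := hf.fr.ne
  induction A using Finset.induction_on with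
  | empty => exact ⟨1, one_mem _, lmon_one, by simp⟩
  | insert a A _ ih =>
    obtain ⟨μ, h1, h2, h3⟩ := ih fun b hb => hA b (Finset.mem_insert_of_mem hb)
    obtain ⟨c, hc⟩ := hA a (Finset.mem_insert_self _ _)
    obtain ⟨e, he, hce⟩ := (hk n N O z hf).2 c
    refine ⟨μ * mn z e, mul_mem h1 he, h2.mul hz (lmon_mn hz e), fun b hb => ?_⟩
    rcases Finset.mem_insert.1 hb with rfl | hb
    · have h0 := mn_ne_zero hz c
      have : μ * mn z e * b = μ * (mn z (c + e) * (b / mn z c)) := by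
        rw [mn_add hz]; field_simp
      rw [this]; exact mul_mem h1 (mul_mem hce hc.1)
    · rw [mul_right_comm]; exact mul_mem (h3 b hb) he

/-- A root of a monic polynomial with monomial coefficients is monomial. -/
lemma root (hk : KitF k L) (hd : DivF k L) (hf : Fr n N O z) {θ : L} (hθ : θ ∈ N) {P : L[X]}
    (hP : P.Monic) (hr : P.eval θ = 0) (h0 : P.coeff 0 ≠ 0)
    (hc : ∀ i, P.coeff i ≠ 0 → LMon O z (P.coeff i)) : LMon O z θ := by
  classical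
  have hz := hf.fr.ne
  obtain ⟨D, hD⟩ := hf.aff
  obtain ⟨μ, h1, h2, h3⟩ := den hk hf (P.support.image P.coeff) (by
    intro a ha
    obtain ⟨i, hi, rfl⟩ := Finset.mem_image.1 ha
    exact hc i (mem_support_iff.1 hi))
  have h4 : ∀ i, μ * P.coeff i ∈ O := fun i => by
    by_cases hi : P.coeff i = 0
    · rw [hi, mul_zero]; exact zero_mem _
    · exact h3 _ (Finset.mem_image_of_mem _ (mem_support_iff.2 hi))
  have hl : P.scaleRoots μ ∈ lifts (algebraMap O L) := by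
    rw [lifts_iff_coeff_lifts]
    intro i
    have : (P.scaleRoots μ).coeff i ∈ O := by
      rw [coeff_scaleRoots]
      rcases lt_trichotomy i P.natDegree with h | h | h
      · obtain ⟨j, hj⟩ : ∃ j, P.natDegree - i = j + 1 := ⟨P.natDegree - i - 1, by omega⟩
        rw [hj, pow_succ, show P.coeff i * (μ ^ j * μ) = μ ^ j * (μ * P.coeff i) by ring]
        exact mul_mem (pow_mem h1 _) (h4 i)
      · rw [h, hP.coeff_natDegree, one_mul]; exact pow_mem h1 _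
      · rw [coeff_eq_zero_of_natDegree_lt h, zero_mul]; exact zero_mem _
    exact ⟨⟨_, this⟩, rfl⟩
  obtain ⟨Q, hQ, -, hm⟩ := lifts_and_natDegree_eq_and_monic hl ((monic_scaleRoots_iff μ).2 hP)
  have hv : aeval (μ * θ) Q = 0 := by
    rw [← eval_map_algebraMap, hQ, scaleRoots_eval_mul, hr, mul_zero]
  have hO : μ * θ ∈ O := hf.nrm _ (mul_mem (hD.le_field h1) hθ) ⟨Q, hm, hv⟩
  have hq : ((Q.coeff 0 : O) : L) = P.coeff 0 * μ ^ P.natDegree := by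
    have := congrArg (fun R => R.coeff 0) hQ
    simpa [coeff_map, coeff_scaleRoots] using this
  have hh : aeval (μ * θ) Q.divX ∈ O := by
    have : aeval (μ * θ) Q.divX = algebraMap O L (aeval (⟨μ * θ, hO⟩ : O) Q.divX) :=
      aeval_algebraMap_apply L (⟨μ * θ, hO⟩ : O) Q.divX
    rw [this]; exact Subtype.property _
  have he : μ * θ * aeval (μ * θ) Q.divX = -(P.coeff 0 * μ ^ P.natDegree) := by
    have := congrArg (aeval (μ * θ)) (X_mul_divX_add Q)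
    rw [hv, map_add, map_mul, aeval_X, aeval_C] at this
    rw [← hq]; exact eq_neg_of_add_eq_zero_left this
  have hm' : LMon O z (μ * θ) := hd.div n N O z hf _ hO _ hh (by
    rw [he]
    exact lmon_neg hz ((hc 0 h0).mul hz (by simpa using h2.zpow (P.natDegree : ℤ))))
  have := h2.inv.mul hz hm'
  rwa [inv_mul_cancel_left₀ h2.ne_zero] at this

end Monu

/-- Row MONU. -/
theorem monu (hk : KitF k L) (hd : DivF k L) (hs : SplStmt k L) : MonuStmt k L := by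
  classical
  intro C y Θ hC hΘ
  choose! γ Z e hγ hγ0 hZ hsp using fun a => hs C y a hC
  let P : L → L[X] := fun θ => (minpoly ↥(C ⊔ k⟮y⟯) θ).map (algebraMap _ L)
  let A : Finset L := Θ.biUnion fun θ => (P θ).support.image (P θ).coeff
  have hA : ∀ a ∈ A, a ∈ C ⊔ k⟮y⟯ ∧ a ≠ 0 := by
    intro a ha
    obtain ⟨θ, -, ha⟩ := Finset.mem_biUnion.1 ha
    obtain ⟨i, hi, rfl⟩ := Finset.mem_image.1 ha
    refine ⟨?_, mem_support_iff.1 hi⟩
    simp only [P, coeff_map]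
    exact Subtype.property _
  refine ⟨A.biUnion Z, A.image γ, fun s hs => ?_, fun g hg => ?_, ?_⟩
  · obtain ⟨a, ha, hs⟩ := Finset.mem_biUnion.1 hs
    exact hZ a (hA a ha).1 (hA a ha).2 s hs
  · obtain ⟨a, ha, rfl⟩ := Finset.mem_image.1 hg
    exact ⟨hγ a (hA a ha).1 (hA a ha).2, hγ0 a (hA a ha).1 (hA a ha).2⟩
  intro n N O z hf hN hU hΓ θ hθ
  have hz := hf.fr.ne
  have hi := (hΘ θ hθ).2.isIntegral
  refine Monu.root hk hd hf (hN θ hθ) (P := P θ) ((minpoly.monic hi).map _) ?_ ?_ fun i h => ?_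
  · simp only [P]; rw [eval_map_algebraMap, minpoly.aeval]
  · simp only [P, coeff_map]
    exact (_root_.map_ne_zero _).2 (minpoly.coeff_zero_ne_zero hi (hΘ θ hθ).1)
  · have ha : (P θ).coeff i ∈ A :=
      Finset.mem_biUnion.2 ⟨θ, hθ, Finset.mem_image_of_mem _ (mem_support_iff.2 h)⟩
    rw [hsp _ (hA _ ha).1 (hA _ ha).2]
    exact (hΓ _ (Finset.mem_image_of_mem _ ha)).mul hz (Monu.lmon_prod hz _ _ fun s hs =>
      (hU s (Finset.mem_biUnion.2 ⟨_, ha, hs⟩)).zpow _)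

end Pool.Agent.MP_19ffc6_ag.Perf.Fl

end MrgPart1

-- marker of a merged file
example : 731051 + 584747 = 731051 + 584747 := rfl
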