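import Pool.Agent.MP_19ffc6_ag.perf.FlSep
import Pool.Agent.MP_19ffc6_ag.perf.QM
import Pool.Agent.MP_19ffc6_ag.perf.SsAsm

-- ======== part 0: formerly Pool.Agent.MP_19ffc6_ag.perf.FlLift
section MrgPart0

/-! PROJECT PERF, block FL, row LIFT: inertia downstairs acts upstairs as a vertical element. -/

namespace Pool.Agent.MP_19ffc6_ag.Perf.Fl

open Polynomial IntermediateField Pool.Agent.R72.Wild Pool.Agent.R72.Lci Pool.Agent.R72.Res
  Pool.Agent.R72.Res.B Pool.Agent.R72.Res.P Pool.Agent.MP_19ffc6_ag.Perf.Ss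

variable {k L : Type} [Field k] [Field L] [Algebra k L]

namespace Lift

/-- an automorphism that acts trivially on the invariants modulo `Q` acts modulo `Q` as a member
of the group -/
theorem core {B G : Type} [CommRing B] [Group G] [Finite G] [MulSemiringAction G B] (Q : Ideal B)
    [Q.IsPrime] (φ : B ≃+* B) (hQ : ∀ x, φ x ∈ Q ↔ x ∈ Q)
    (hA : ∀ a, (∀ σ : G, σ • a = a) → φ a - a ∈ Q) : ∃ σ : G, ∀ x, φ x - σ • x ∈ Q := by
  let A := FixedPoints.subring B G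
  have : Algebra.IsInvariant A B G := ⟨fun b hb => ⟨⟨b, hb⟩, rfl⟩⟩
  have : Q.LiesOver (Q.under A) := ⟨rfl⟩
  have h1 : Q = Q.map (φ : B →+* B) := by
    refine Eq.trans ?_ (Ideal.map_comap_of_equiv φ).symm
    ext x
    rw [Ideal.mem_comap, ← hQ (φ.symm x), φ.apply_symm_apply]
  obtain ⟨σ, hσ⟩ := Ideal.Quotient.stabilizerHom_surjective G (Q.under A) Q
    { Ideal.quotientEquiv Q Q φ h1 with
      commutes' := by
        rintro ⟨a⟩
        exact Ideal.Quotient.eq.2 (hA a a.2) }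
  exact ⟨σ, fun x => Ideal.Quotient.eq.1 (DFunLike.congr_fun hσ (Ideal.Quotient.mk Q x)).symm⟩

/-- the fixed elements of a normal extension are purely inseparable -/
theorem pow_mem {E N : Type} [Field E] [Field N] [Algebra E N] [Normal E N] (q : ℕ) [ExpChar E q]
    {a : N} (h : ∀ σ : N ≃ₐ[E] N, σ a = a) : ∃ j : ℕ, a ^ q ^ j ∈ (algebraMap E N).range := by
  classical
  have ha := Normal.isIntegral ‹_› a
  rw [← minpoly.natSepDegree_eq_one_iff_pow_mem,
    natSepDegree_eq_of_splits _ (Normal.splits ‹_› a), Finset.card_eq_one]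
  refine ⟨a, Finset.eq_singleton_iff_unique_mem.2 ⟨?_, fun x hx => ?_⟩⟩
  · exact Multiset.mem_toFinset.2 (mem_aroots.2 ⟨minpoly.ne_zero ha, minpoly.aeval _ _⟩)
  · obtain ⟨σ, rfl⟩ := minpoly.exists_algEquiv_of_root' ha.isAlgebraic
      (mem_aroots.1 (Multiset.mem_toFinset.1 hx)).2
    exact h σ

lemma mem_iff {g : SA k L} {D : Subalgebra k L} (h : g • D = D) (x : L) : g • x ∈ D ↔ x ∈ D := by
  rw [← smul_mem_sA (g := g) (x := x), h]

/-- the restriction to a stable subalgebra -/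
def res (g : SA k L) {D : Subalgebra k L} (h : g • D = D) : D ≃+* D where
  toFun x := ⟨g • x, (mem_iff h _).2 x.2⟩
  invFun x := ⟨g⁻¹ • x, (mem_iff h _).1 (by rw [smul_inv_smul]; exact x.2)⟩
  left_inv x := Subtype.ext (inv_smul_smul g (x : L))
  right_inv x := Subtype.ext (smul_inv_smul g (x : L))
  map_mul' x y := Subtype.ext (smul_mul' g (x : L) y)
  map_add' x y := Subtype.ext (smul_add g (x : L) y)

end Lift

theorem lift [IsAlgClosed L] : LiftStmt k L := by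
  intro E N N' B W g _ _ hN hB hW hle hg hu hi
  choose n hn using Kit.extStmt (k := k) E N'
  have hE : ∀ σ, ∀ x ∈ E, n σ • x = x := fun σ x hx =>
    (hn σ (algebraMap E N' ⟨x, hx⟩)).trans (congrArg Subtype.val (σ.commutes _))
  have hnN : ∀ σ x, n σ • x ∈ N ↔ x ∈ N := fun σ x => by
    refine ⟨fun h => ?_, fun h => (hN _).1 ((hn σ ⟨x, (hN x).2 h⟩).symm ▸ (σ _).2)⟩
    have := hn σ (σ.symm ⟨_, (hN _).2 h⟩)
    rw [σ.apply_symm_apply] at this
    exact (hN _).1 (MulAction.injective (n σ) this ▸ (σ.symm _).2)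
  have hD : ∀ σ, n σ • icl N B = icl N B := fun σ => by
    rw [← icl_smul (hnN σ)]
    congr 1
    refine Subalgebra.ext fun x => ⟨fun h => ?_, fun h => ?_⟩
    · have := hE σ _ (hB.le _ (mem_sA.1 h))
      rw [smul_inv_smul] at this
      exact this ▸ mem_sA.1 h
    · rw [← hE σ x (hB.le _ h)]
      exact smul_mem_sA.2 h
  let _ : MulSemiringAction (N' ≃ₐ[E] N') (icl N B) :=
    { smul σ x := Lift.res (n σ) (hD σ) x
      one_smul x := Subtype.ext (hn 1 ⟨x, (hN _).2 x.2.1⟩)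
      mul_smul σ τ x := Subtype.ext ((hn (σ * τ) ⟨x, (hN _).2 x.2.1⟩).trans
        ((hn σ (τ ⟨x, (hN _).2 x.2.1⟩)).symm.trans
          (congrArg (n σ • ·) (hn τ ⟨x, (hN _).2 x.2.1⟩).symm)))
      smul_zero σ := map_zero (Lift.res (n σ) (hD σ))
      smul_add σ := map_add (Lift.res (n σ) (hD σ))
      smul_one σ := map_one (Lift.res (n σ) (hD σ))
      smul_mul σ := map_mul (Lift.res (n σ) (hD σ)) }
  have := hW.isLocalRing
  let Q : Ideal (icl N B) := (IsLocalRing.maximalIdeal W).comap (Subalgebra.inclusion hle)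
  have hQ : ∀ x, x ∈ Q ↔ ¬ Un W x := fun x => not_congr (isUnit_iff_un _)
  obtain ⟨σ, hσ⟩ := Lift.core (G := N' ≃ₐ[E] N') Q (Lift.res g hg)
    (fun x => by rw [hQ, hQ]; exact not_congr (hu x x.2)) fun a ha => by
      obtain ⟨q, hq⟩ := ExpChar.exists E
      have := expChar_of_injective_algebraMap (algebraMap E L).injective q
      obtain ⟨j, b, hb⟩ := Lift.pow_mem q (a := (⟨a, (hN _).2 a.2.1⟩ : N')) fun σ =>
        Subtype.ext ((hn σ _).symm.trans (congrArg Subtype.val (ha σ)))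
      have h1 : (b : L) = (a : L) ^ q ^ j := congrArg Subtype.val hb
      have h2 := hi _ (hB.int _ (h1 ▸ b.2) (a.2.2.pow (q ^ j)))
      rw [smul_pow', ← sub_pow_expChar_pow] at h2
      exact (hQ _).2 fun h => h2 (h.pow _)
  exact ⟨n σ, hE σ, hD σ, fun x hx => (hQ _).1 (hσ ⟨x, hx⟩)⟩

end Pool.Agent.MP_19ffc6_ag.Perf.Fl

end MrgPart0

-- ======== part 1: formerly Pool.Agent.MP_19ffc6_ag.perf.FlMod
section MrgPart1

/-! PERF, block FL, row MOD: the normalised tree of discs is a stable model. -/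

namespace Pool.Agent.MP_19ffc6_ag.Perf.Fl

open Polynomial IntermediateField Pool.Agent.R72.Wild Pool.Agent.R72.Lci Pool.Agent.R72.Res
  Pool.Agent.R72.Res.B Pool.Agent.R72.Res.P Pool.Agent.MP_19ffc6_ag.Perf.Ss

variable {k L : Type} [Field k] [Field L] [Algebra k L]

namespace ModH

/-- `M` has a generator over `O`. -/
def Gn (O : Subalgebra k L) (M : Submodule k L) : Prop := ∃ a ∈ M, a ≠ 0 ∧ ∀ x ∈ M, x / a ∈ O

variable {O O' A : Subalgebra k L} {M N : Submodule k L} {g y s l : L} {U Λ : Finset L}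

theorem Gn.one : Gn O 1 := ⟨1, Submodule.one_le.1 le_rfl, one_ne_zero, fun x hx => by
  obtain ⟨c, rfl⟩ := Submodule.mem_one.1 hx
  rw [div_one]
  exact O.algebraMap_mem c⟩

theorem Gn.mul (h : Gn O M) (h' : Gn O N) : Gn O (M * N) := by
  obtain ⟨a, ha, a0, h1⟩ := h
  obtain ⟨b, hb, b0, h2⟩ := h'
  refine ⟨a * b, Submodule.mul_mem_mul ha hb, mul_ne_zero a0 b0, fun x hx => ?_⟩
  refine Submodule.mul_induction_on hx (fun u hu v hv => ?_) fun u v hu hv => ?_
  · rw [← div_mul_div_comm]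
    exact mul_mem (h1 u hu) (h2 v hv)
  · rw [add_div]
    exact add_mem hu hv

theorem chart_le_of_gn (hA : A ≤ O) (h : Gn O M) (hd : Dom O O') (hg : g ∈ M) (hg0 : g ≠ 0)
    (hc : chart A M g ≤ O') : chart A M g ≤ O := by
  obtain ⟨a, ha, a0, h1⟩ := h
  have h2 : Un O (g / a) := hd.2 _ (h1 g hg) ⟨hd.1 (h1 g hg), div_ne_zero hg0 a0, by
    rw [inv_div]
    exact hc (div_mem_chart _ _ ha)⟩
  refine chart_le hA fun y hy => ?_
  rw [show y / g = y / a * (g / a)⁻¹ by field_simp]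
  exact mul_mem (h1 y hy) h2.2.2

theorem gn_of_mul (hO : Lcl O) (hg : g ∈ M * N) (hg0 : g ≠ 0) (hc : chart A (M * N) g ≤ O) :
    Gn O N := by
  have hm : ∀ x ∈ M * N, x / g ∈ O := fun x hx => hc (div_mem_chart _ _ hx)
  obtain ⟨_, ⟨a, ha, b, hb, rfl⟩, hu⟩ := exists_un_of_span hO
    (S := {x | ∃ a ∈ M, ∃ b ∈ N, x = a * b}) hg0
    (by rintro _ ⟨a, ha, b, hb, rfl⟩; exact hm _ (Submodule.mul_mem_mul ha hb)) (by
      refine le_sp O _ (Submodule.mul_induction_on hg (fun a ha b hb => ?_) fun _ _ => add_mem)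
      exact Submodule.subset_span ⟨a, ha, b, hb, rfl⟩)
  have h0 := (div_ne_zero_iff.1 hu.2.1).1
  have ha0 := left_ne_zero_of_mul h0
  have hb0 := right_ne_zero_of_mul h0
  refine ⟨b, hb, hb0, fun x hx => ?_⟩
  rw [show x / b = a * x / g * (a * b / g)⁻¹ by field_simp]
  exact mul_mem (hm _ (Submodule.mul_mem_mul ha hx)) hu.2.2

theorem dec_of_gn (hO : Lcl O) {x : L} (h : Gn O (Submodule.span k {l, x})) : Dec O (x / l) := by
  obtain ⟨b, hb, b0, h1⟩ := h
  obtain ⟨_, hz, hu⟩ := exists_un_of_span hO (S := {l, x}) b0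
    (fun z hz => h1 z (Submodule.subset_span hz)) (le_sp O _ hb)
  have h2 := h1 l (Submodule.subset_span (by simp))
  have h3 := h1 x (Submodule.subset_span (by simp))
  have h0 := (div_ne_zero_iff.1 hu.2.1).1
  rcases hz with rfl | rfl
  · exact Or.inl (by simpa [div_mul_div_cancel₀, b0] using mul_mem h3 hu.2.2)
  · exact Or.inr (by simpa [div_mul_div_cancel₀, b0] using mul_mem h2 hu.2.2)

theorem gn_of_dec (hl : l ≠ 0) {x : L} (h : Dec O (x / l)) : Gn O (Submodule.span k {l, x}) := by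
  have key : ∀ a b : L, a ≠ 0 → b / a ∈ O → Gn O (Submodule.span k {a, b}) := fun a b a0 h =>
    ⟨a, Submodule.subset_span (by simp), a0, fun z hz => by
      obtain ⟨c, d, rfl⟩ := Submodule.mem_span_pair.1 hz
      rw [add_div, smul_div_assoc, smul_div_assoc, div_self a0]
      exact add_mem (O.smul_mem (one_mem _) c) (O.smul_mem h d)⟩
  rcases eq_or_ne x 0 with rfl | h0
  · exact key _ _ hl (by simp)
  rcases h with h | h
  · exact key _ _ hl h
  · rw [Set.pair_comm]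
    exact key _ _ h0 (by rwa [inv_div] at h)

/-- The product of the centres of the blow-ups. -/
noncomputable def Jt (k : Type) [Field k] [Algebra k L] (y : L) (U Λ : Finset L) :
    Submodule k L := ∏ q ∈ U ×ˢ Λ, Submodule.span k {q.2, y - q.1}

theorem stb_Jt {K₀ : Subfield L} (h : ∀ g : SA k L, Fx K₀ g → Perm g y U Λ) :
    Stb K₀ (Jt k y U Λ) := by
  refine stb_iff.2 fun g hg => ?_
  have h1 := h g hg
  have h2 := h _ hg.inv
  rw [Jt, sM_prod]
  refine Finset.prod_nbij' (fun q => (g • q.1, g • q.2)) (fun q => (g⁻¹ • q.1, g⁻¹ • q.2))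
    (fun q hq => ?_) (fun q hq => ?_) (fun q _ => by simp) (fun q _ => by simp) fun q _ => ?_
  · exact Finset.mem_product.2 ⟨h1.cen _ (Finset.mem_product.1 hq).1,
      h1.rad _ (Finset.mem_product.1 hq).2⟩
  · exact Finset.mem_product.2 ⟨h2.cen _ (Finset.mem_product.1 hq).1,
      h2.rad _ (Finset.mem_product.1 hq).2⟩
  · rw [← span_smul, Set.image_pair, smul_sub, h1.fix]

theorem td_of_chart (hO : Lcl O) (hg : g ∈ M * Jt k y U Λ) (hg0 : g ≠ 0)
    (hc : chart A (M * Jt k y U Λ) g ≤ O) : TD y U Λ O := by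
  classical
  intro s hs l hl
  rw [Jt, ← Finset.prod_erase_mul _ _ (Finset.mk_mem_product hs hl), ← mul_assoc] at hg hc
  exact dec_of_gn hO (gn_of_mul hO hg hg0 hc)

theorem dec_crd {B : Subalgebra k L} (h : TD y U Λ B) {z : L} (hz : z ∈ crd y U Λ O) :
    Dec B z := by
  obtain ⟨-, s, hs, l, hl, rfl | rfl⟩ := hz
  exacts [h s hs l hl, (h s hs l hl).inv]

theorem td_lr (R : Subalgebra k L) (h : TD y U Λ O) : TD y U Λ (lr R (crd y U Λ O) O) :=
  fun s hs l hl => (h s hs l hl).imp (fun e => mem_lr _ _ ⟨e, s, hs, l, hl, Or.inl rfl⟩)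
    fun e => mem_lr _ _ ⟨e, s, hs, l, hl, Or.inr rfl⟩

end ModH

open ModH in
theorem mod [IsAlgClosed k] : ModStmt k L := by
  intro K₀ F N M y U Λ hG hM hst hFN hy hfg halg hU hΛ h0 h1 hP
  have hyE : y ∈ F ⊔ k⟮y⟯ := (le_sup_right : k⟮y⟯ ≤ _) (mem_adjoin_simple_self k y)
  have hFE : F ≤ F ⊔ k⟮y⟯ := le_sup_left
  have hJ : (Jt k y U Λ).FG ∧ Jt k y U Λ ≠ ⊥ ∧ ∀ m ∈ Jt k y U Λ, m ∈ F ⊔ k⟮y⟯ := by
    refine Finset.prod_induction _ (fun J : Submodule k L => J.FG ∧ J ≠ ⊥ ∧ ∀ m ∈ J, m ∈ F ⊔ k⟮y⟯)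
      (fun A B a b => ⟨a.1.mul b.1, fun e => (Submodule.mul_eq_bot.1 e).elim a.2.1 b.2.1,
        mul_le_field a.2.2 b.2.2⟩) ⟨?_, ?_, fun m hm => ?_⟩ fun q hq => ⟨?_, ?_, ?_⟩
    · rw [Submodule.one_eq_span]
      exact Submodule.fg_span (Set.toFinite _)
    · exact fun e => one_ne_zero ((Submodule.mem_bot k).1 (e ▸ Submodule.one_le.1 le_rfl))
    · obtain ⟨c, rfl⟩ := Submodule.mem_one.1 hm
      exact IntermediateField.algebraMap_mem _ c
    · exact Submodule.fg_span (Set.toFinite _)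
    · exact fun e => (hΛ _ (Finset.mem_product.1 hq).2).2
        ((Submodule.mem_bot k).1 (e ▸ Submodule.subset_span (by simp)))
    · refine Submodule.span_le (p := (F ⊔ k⟮y⟯).toSubalgebra.toSubmodule).2 ?_
      rintro _ (rfl | rfl)
      exacts [hFE (hΛ _ (Finset.mem_product.1 hq).2).1,
        sub_mem hyE (hFE (hU _ (Finset.mem_product.1 hq).1))]
  have hM1 := (hM.line y).mul hJ.1 hJ.2.1 hJ.2.2
  have hs1 : Stb K₀ (M * Submodule.span k {1, y} * Jt k y U Λ) :=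
    (hst.mul (Stb.span' fun g hg x hx => Submodule.subset_span (by
      rcases hx with rfl | rfl
      exacts [Or.inl (smul_one g), Or.inr (hP g hg).fix]))).mul (stb_Jt hP)
  obtain ⟨M', s1, s2, s3⟩ := normW K₀ _ N _ hG hM1 hs1
    (sup_le hFN (adjoin_simple_le_iff.2 hy)) hfg halg
  refine ⟨M', s1, s2, fun O hO => ?_⟩
  obtain ⟨O₁, p1, d1, p2⟩ := s3 O hO
  rw [mul_assoc] at p1
  obtain ⟨R, h, hh, p3, d2, h0', p4⟩ := Pool.Agent.R72.Lci.Pt.of_mul_dom p1
  have t1 : TD y U Λ O₁ := td_of_chart p4.lcl hh h0' p4.le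
  have t2 : TD y U Λ O := fun s hs l hl => (t1 s hs l hl).of_le d1.1
  have d3 : Dom R O := Dom.trans d2 d1
  have d4 : Dom (lr R (crd y U Λ O) O) O := dom_lr d3.1 fun x hx => hx.1
  have t3 := td_lr R t2
  have e : O₁ = lr R (crd y U Λ O) O := by
    refine le_antisymm ?_ (lr_le d2.1 (fun z hz => (dec_crd t1 hz).mem d1 hz.1) d1)
    refine (p4.le_loc.trans (loc_mono le_rfl d1.1)).trans (loc_le_dom ?_ d4)
    refine chart_le_of_gn (le_lr _ _ _) (Gn.mul ?_ ?_) d4 hh h0' (p4.le.trans d1.1)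
    · exact gn_of_dec one_ne_zero (by simpa using t3 0 h0 1 h1)
    · exact Finset.prod_induction _ _ (fun _ _ => Gn.mul) Gn.one fun q hq =>
        gn_of_dec (hΛ _ (Finset.mem_product.1 hq).2).2
          (t3 _ (Finset.mem_product.1 hq).1 _ (Finset.mem_product.1 hq).2)
  rw [e] at p2
  refine ⟨R, p3, d3, t2, p2, fun W _ hd => ⟨⟨d3.1, p2.lcl, hd,
    fun x hx => B.IsPoint.le_field p2 (icl_le _ _) hx,
    fun x hx hi => IsPoint.mem_of_isIntegral p2 hx hi⟩, t2, fun B hB tB => ?_⟩⟩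
  have b1 : lr R (crd y U Λ O) O ≤ B := (loc_mono le_rfl hd.1).trans
    (lr_le hB.le (fun z hz => (dec_crd tB hz).mem hB.dom (hd.1 hz.1)) hB.dom)
  exact (p2.le_loc.trans (loc_mono le_rfl hd.1)).trans
    (loc_le_dom (fun x hx => hB.int x hx.1 (isIntegral_mono b1 (mem_icl.1 hx).2)) hB.dom)

end Pool.Agent.MP_19ffc6_ag.Perf.Fl

end MrgPart1

-- ======== part 2: formerly Pool.Agent.MP_19ffc6_ag.perf.FlRed
section MrgPart2

/-! PROJECT PERF, block FL, row RED. -/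

namespace Pool.Agent.MP_19ffc6_ag.Perf.Fl

open Pool.Agent.R72.Wild Pool.Agent.R72.Lci Pool.Agent.R72.Res
  Pool.Agent.R72.Res.B Pool.Agent.R72.Res.P

variable {k L : Type} [Field k] [Field L] [Algebra k L]

namespace Red

variable {D O W : Subalgebra k L} {g : SA k L} {x : L}

lemma mem (hg : g • O = O) (hx : x ∈ O) : g • x ∈ O := hg ▸ smul_mem_sA.2 hx

lemma un (hg : g • O = O) : Un O (g • x) ↔ Un O x := by
  conv_lhs => rw [← hg]
  exact un_smul

lemma frac (hp : IsPoint D O) (hg : g • O = O) (hl : Lcl W) (hW : O ≤ W)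
    (h : ∀ x ∈ D, ¬ Un W (g • x - x)) (hx : x ∈ O) : ¬ Un W (g • x - x) := by
  obtain ⟨a, ha, s, hs, hu, rfl⟩ := hp.le_loc hx
  have h1 := (un hg).2 hu
  have h2 : ∀ y ∈ D, g • y - y ∈ mx hl := fun y hy =>
    ⟨hW (sub_mem (mem hg (hp.le hy)) (hp.le hy)), h y hy⟩
  have h3 := sub_mem (mul_mem_mx hl (h2 a ha) (hW h1.2.2))
    (mul_mem_mx hl (h2 s hs) (hW (mul_mem hx h1.2.2)))
  have h4 := hu.2.1
  have h5 := h1.2.1
  refine fun U => h3.2 ?_
  convert U using 1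
  rw [smul_div₀']; field_simp; ring

end Red

open Red in
theorem red (hl : LiftStmt k L) : RedStmt k L := by
  intro E N N' B O W W₂ g hf hn hN hB hp hgB hgN h hB' hv
  have h1 : g • icl N B = icl N B := by rw [← icl_smul hgN, hgB]
  obtain ⟨n, n1, n2, n3⟩ := hl E N N' B W₂ g hf hn hN hB h.lcl₂ (hp.le.trans h.le₂) h1
    (fun x hx => h.stb x (hp.le hx)) hB'
  have h2 : ∀ x ∈ icl N B, g • x - n • x ∈ O := fun x hx =>
    hp.le (sub_mem (mem h1 hx) (mem n2 hx))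
  have h3 : ∀ x ∈ icl N B, Un O (n • x) ↔ Un O x := fun x hx => by
    have h4 : g • x - n • x ∈ mx hp.lcl := ⟨h2 x hx, fun U => n3 x hx (U.mono h.le₂)⟩
    rw [← un h.st (x := x), ← not_iff_not]
    constructor
    · intro U
      simpa using (add_mem h4 (⟨hp.le (mem n2 hx), U⟩ : _ ∈ mx hp.lcl)).2
    · intro U
      simpa using (sub_mem (⟨hp.le (mem h1 hx), U⟩ : _ ∈ mx hp.lcl) h4).2
  have h4 : n • O = O := by
    refine IsPoint.ext (n2 ▸ isPoint_smul.2 hp) hp fun x hx => ?_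
    rw [un_smul', ← h3 _ (mem_sA.1 (n2.symm ▸ hx)), smul_inv_smul]
  have h5 := hv n n1 h4 fun x hx => frac hp h4 h.lcl h.le (fun x hx => by
    have h6 : g • x - x ∈ mx h.lcl :=
      ⟨h.le (sub_mem (mem h.st (hp.le hx)) (hp.le hx)), h.ine x (hp.le hx)⟩
    have h7 : g • x - n • x ∈ mx h.lcl := ⟨h.le (h2 x hx), fun U => n3 x hx (h.gen _ (h2 x hx) U)⟩
    simpa using (sub_mem h6 h7).2) hx
  refine fun x hx => frac hp h.st h.lcl₂ h.le₂ (fun x hx => ?_) hx
  have h6 : n • x - x ∈ mx h.lcl₂ :=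
    ⟨h.le₂ (sub_mem (mem h4 (hp.le hx)) (hp.le hx)), h5 x (hp.le hx)⟩
  have h7 : g • x - n • x ∈ mx h.lcl₂ := ⟨h.le₂ (h2 x hx), n3 x hx⟩
  simpa using (add_mem h7 h6).2

end Pool.Agent.MP_19ffc6_ag.Perf.Fl

end MrgPart2

-- marker of a merged file
example : 731051 + 125379 = 731051 + 125379 := rfl
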