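import Pool.Agent.MP_19ffc6_ag.perf.FlSep
import Pool.Agent.MP_19ffc6_ag.perf.SsAsm
import Pool.Agent.MP_19ffc6_ag.perf.SpecT

/-! PROJECT PERF, block FL, second part: the step from a framed base point to a point of the
semistable curve over it. Definitions and statements. -/

namespace Pool.Agent.MP_19ffc6_ag.Perf.Fl

open Polynomial IntermediateField Pool.Agent.R72.Wild Pool.Agent.R72.Lci Pool.Agent.R72.Res
  Pool.Agent.R72.Res.B Pool.Agent.R72.Res.P Pool.Agent.MP_19ffc6_ag.Perf.Ss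

variable {k L : Type} [Field k] [Field L] [Algebra k L]

/-- The frame `x` with one more member. -/
def sn {n : ℕ} (x : Fin n → L) (u : L) : Fin (n + 1) → L := Fin.snoc (α := fun _ => L) x u

section Sn

variable {n : ℕ} {x : Fin n → L} {u f : L} {R O : Subalgebra k L}

@[simp] lemma sn_castSucc (j : Fin n) : sn x u j.castSucc = x j := by simp [sn]

@[simp] lemma sn_last : sn x u (Fin.last n) = u := by simp [sn]

lemma sn_forall {p : L → Prop} (hx : ∀ j, p (x j)) (hu : p u) (j : Fin (n + 1)) : p (sn x u j) := by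
  induction j using Fin.lastCases <;> simp [hx, hu]

lemma mn_sn (c : Fin (n + 1) → ℤ) :
    mn (sn x u) c = mn x (fun j => c j.castSucc) * u ^ c (Fin.last n) := by
  simp [mn, Fin.prod_univ_castSucc]

lemma mn_snoc (c : Fin n → ℤ) (e : ℤ) :
    mn (sn x u) (Fin.snoc (α := fun _ => ℤ) c e) = mn x c * u ^ e := by
  simp [mn_sn]

lemma lmon_sn (h : R ≤ O) (hf : LMon R x f) : LMon O (sn x u) f := by
  obtain ⟨c, hc⟩ := hf
  exact ⟨Fin.snoc (α := fun _ => ℤ) c 0, by simpa [mn_snoc] using hc.mono h⟩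

lemma lmon_last (hu : u ≠ 0) : LMon O (sn x u) u :=
  ⟨Fin.snoc (α := fun _ => ℤ) (0 : Fin n → ℤ) 1, by
    simpa [mn_snoc, mn_zero, hu] using Un.one O⟩

lemma xs_update_succ (x : ℕ → L) (n : ℕ) (u : L) :
    xs (Function.update x n u) (n + 1) = sn (xs x n) u := by
  funext j
  induction j using Fin.lastCases with
  | last => simp [xs]
  | cast j => simp [xs, Function.update_of_ne j.2.ne]

lemma xs_update_le (x : ℕ → L) {i n : ℕ} (h : i ≤ n) (u : L) :
    xs (Function.update x n u) i = xs x i := by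
  funext j
  simp [xs, Function.update_of_ne (j.2.trans_le h).ne]

end Sn

/-- A monomial that vanishes at `W` lies in the ideal of the stratum of `W`. -/
lemma mem_fI {n : ℕ} {x : Fin n → L} {f : L} {O W : Subalgebra k L} (hx : ∀ j, x j ≠ 0)
    (h : O ≤ W) (hf : f ∈ O) (hm : LMon O x f) (hW : ¬ Un W f) : f ∈ fI O W x := by
  obtain ⟨c, hc⟩ := hm
  have h0 := mn_ne_zero hx c
  have e : f = f / mn x c * mn x c := by field_simp
  have e' : mn x c = (f / mn x c)⁻¹ * f := by have := hc.2.1; field_simp [div_ne_zero_iff.1 this]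
  rw [e]
  exact GD.mul_mem' hc.1 (Submodule.subset_span ⟨e' ▸ mul_mem hc.2.2 hf,
    fun H => hW (e ▸ (hc.mono h).mul H), c, rfl⟩)

/-- A node `u * (m / u) = m` (or a smooth point) over the framed base point `R`. -/
structure Nd (n : ℕ) (F : IntermediateField k L) (R O : Subalgebra k L) (x : Fin n → L)
    (u m : L) : Prop where
  fr : Fr n F R x
  dom : Dom R O
  ne : u ≠ 0
  um : u ∈ O
  mu : m / u ∈ O
  mon : m = 0 ∨ LMon R x m
  rel : ∃ a b : k, ¬ Un O (u - algebraMap k L a) ∧ ¬ Un O (m / u - algebraMap k L b) ∧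
    Pool.Agent.R72.Res.Par O
      ({r | r ∈ R ∧ ¬ Un R r} ∪ {u - algebraMap k L a, m / u - algebraMap k L b})

/-- A tree of discs over the framed base point `R`. -/
structure Tr {n : ℕ} (F : IntermediateField k L) (R : Subalgebra k L) (x : Fin n → L) (y : L)
    (U Λ : Finset L) : Prop where
  tr : Transcendental F y
  rad : ∀ l ∈ Λ, l ∈ F ∧ LMon R x l
  zero : 0 ∈ U
  one : 1 ∈ U
  sub : ∀ s ∈ U, ∀ t ∈ U, s - t ∈ U
  cen : ∀ s ∈ U, s ≠ 0 → s ∈ Λ
  dec : ∀ l ∈ Λ, ∀ l' ∈ Λ, Dec R (l / l')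

/-- Generators of `N` over `E` that are monomials and whose differences are monomials. -/
structure Vt (E N : IntermediateField k L) (G : Finset L) (O : Subalgebra k L) {n : ℕ}
    (z : Fin n → L) : Prop where
  gen : N ≤ E ⊔ adjoin k (G : Set L)
  st : ∀ g : SA k L, (∀ a ∈ E, g • a = a) → ∀ θ ∈ G, g • θ ∈ G
  un : ∀ g : SA k L, (∀ a ∈ E, g • a = a) → g • O = O → ∀ j, Un O (g • z j / z j)
  mon : ∀ θ ∈ G, θ ≠ 0 → LMon O z θ
  dif : ∀ θ ∈ G, ∀ θ' ∈ G, θ ≠ θ' → LMon O z (θ - θ')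

variable (k L)

/-- Row BASE: bookkeeping of fields. -/
structure BaseStmt : Prop where
  succ : ∀ (k₀ : Subfield k) (y : ℕ → L) (n : ℕ), Ek k₀ y (n + 1) = ky (Ek k₀ y n) (y n)
  cl : ∀ k₀ : Subfield k, Gd k₀ → ∀ (y : ℕ → L) (n : ℕ), AlgebraicIndependent k (xs y (n + 1)) →
    AlgebraicIndependent k (xs y n) ∧ ∃ C : IntermediateField k L,
      (∀ a, a ∈ C ↔ IsAlgebraic (Ek k₀ y n) a) ∧ AC C ∧ Transcendental C (y n)
  deg : ∀ (k₀ : Subfield k) (y : ℕ → L) (n : ℕ) (N : IntermediateField k L),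
    AlgebraicIndependent k (xs y n) → Gw (Ek k₀ y n) N → Algebra.trdeg k N = n
  gw : ∀ (F₀ : Subfield L) (F : IntermediateField k L) (y : L) (G : Finset L), Gw F₀ F →
    (∀ θ ∈ G, IsAlgebraic (ky F₀ y) θ) → (∀ g : SA k L, Fx (ky F₀ y) g → ∀ θ ∈ G, g • θ ∈ G) →
    y ∈ adjoin k (G : Set L) → Gw (ky F₀ y) (F ⊔ adjoin k (G : Set L))
  alg : ∀ (K₀ : Subfield L) (E : IntermediateField k L), (∀ a ∈ K₀, a ∈ E) →
    ∀ a : L, IsAlgebraic K₀ a → IsAlgebraic E a
  tr : ∀ (F C : IntermediateField k L) (y : L), F ≤ C → Transcendental C y → Transcendental F y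

/-- Row FRM: the point over a framed point is framed. -/
def FrmStmt : Prop :=
  ∀ (n : ℕ) (F N : IntermediateField k L) (R O D : Subalgebra k L) (x : Fin n → L) (u m : L),
    Nd n F R O x u m → F ≤ N → Aff (n + 1) N D O → (∀ a ∈ N, IsIntegral O a → a ∈ O) →
    Fr (n + 1) N O (sn x u)

/-- Row MONU: finitely many centres and constants make algebraic functions monomial. -/
def MonuStmt : Prop :=
  ∀ (C : IntermediateField k L) (y : L) (Θ : Finset L), AC C →
    (∀ θ ∈ Θ, θ ≠ 0 ∧ IsAlgebraic ↥(C ⊔ k⟮y⟯) θ) →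
    ∃ U Γ : Finset L, (∀ s ∈ U, s ∈ C) ∧ (∀ γ ∈ Γ, γ ∈ C ∧ γ ≠ 0) ∧
      ∀ (n : ℕ) (N : IntermediateField k L) (O : Subalgebra k L) (z : Fin n → L), Fr n N O z →
        (∀ θ ∈ Θ, θ ∈ N) → (∀ s ∈ U, LMon O z (y - s)) → (∀ γ ∈ Γ, LMon O z γ) →
        ∀ θ ∈ Θ, LMon O z θ

/-- Row VERT, first part: the displacements of generators of the maximal ideal generate all
displacements. -/
def UzpStmt : Prop :=
  ∀ (O : Subalgebra k L) (S : Set L) (g : SA k L) (I : Submodule O L), Lcl O →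
    IsNoetherianRing O → Lin g → g • O = O → Pool.Agent.R72.Res.Par O S →
    (∀ t ∈ S, t ∈ O ∧ ¬ Un O t ∧ g • t - t ∈ I) → ∀ a ∈ O, g • a - a ∈ I

/-- Row VERT, second part: the fixed locus of a vertical automorphism is a union of strata. -/
def VertStmt : Prop :=
  ∀ (n : ℕ) (F E N : IntermediateField k L) (R O : Subalgebra k L) (x : Fin n → L) (u m : L)
    (G : Finset L) (g : SA k L), Nd n F R O x u m → Fr (n + 1) N O (sn x u) → F ≤ E →
    Vt E N G O (sn x u) → (∀ a ∈ E, g • a = a) → g • O = O → Strat g O (sn x u)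

/-- Row LOC: the generic point of a stratum. -/
def LocStmt : Prop :=
  ∀ (n : ℕ) (N : IntermediateField k L) (O W : Subalgebra k L) (z : Fin n → L) (g : SA k L),
    Fr n N O z → Lcl W → O ≤ W → g • O = O → (∀ j, Un O (g • z j / z j)) → Inr g O W →
    ∃ W₂, Pr g O W W₂ ∧ ∀ a ∈ O, ¬ Un W₂ a ↔ a ∈ fI O W z

/-- Row STAR: the fixed locus stays a union of strata one floor higher. -/
def StarStmt : Prop :=
  ∀ (n : ℕ) (F N : IntermediateField k L) (y : L) (N' : IntermediateField ↥(F ⊔ k⟮y⟯) L)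
    (R O : Subalgebra k L) (x : Fin n → L) (u m : L) (U Λ G : Finset L) (g : SA k L),
    Nd n F R O x u m → Fr (n + 1) N O (sn x u) → Tr F R x y U Λ → TD y U Λ O →
    IsPoint (icl N (lr R (crd y U Λ O) O)) O → (∀ s ∈ U, LMon O (sn x u) (y - s)) →
    FiniteDimensional ↥(F ⊔ k⟮y⟯) N' → Normal ↥(F ⊔ k⟮y⟯) N' → (∀ a, a ∈ N' ↔ a ∈ N) →
    Vt (F ⊔ k⟮y⟯) N G O (sn x u) → g • O = O → g • R = R → (∀ a, g • a ∈ N ↔ a ∈ N) →
    Perm g y U Λ → Perm g⁻¹ y U Λ → (∀ j, Un R (g • x j / x j)) → Un O (g • u / u) →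
    Strat g R x → Strat g O (sn x u)

/-- Row SMALL: five small facts. -/
structure SmallStmt : Prop where
  st : ∀ (M : Submodule k L) (R O : Subalgebra k L) (g : SA k L), g • M = M → Pt ⊥ M R →
    Dom R O → g • O = O → g • R = R
  un : ∀ (N : IntermediateField k L) (O : Subalgebra k L) (S : Finset L) (u : L) (g : SA k L),
    (∀ a ∈ N, IsIntegral O a → a ∈ O) → Pw S O u → (∀ f ∈ S, g • f = f) → g • O = O → u ∈ N →
    g • u ∈ N → Un O (g • u / u)
  ful : ∀ (n : ℕ) (S S' U : Finset L) (R O : Subalgebra k L) (x : Fin n → L) (y u : L)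
    (c : L → L) (i : L → ℤ), (∀ j, x j ≠ 0) → R ≤ O → Ful S R x → S ⊆ S' → (∀ f ∈ S', f ≠ 0) →
    (∏ s ∈ U, (y - s)) ∈ S' → (∀ s ∈ U, LMon R x (c s) ∧ Un O ((y - s) / (c s * u ^ i s))) →
    u ≠ 0 → Sees1 O U u i → Ful S' O (sn x u)
  nrm : ∀ (n : ℕ) (F : IntermediateField k L) (R : Subalgebra k L) (x : Fin n → L),
    Fr n F R x → Nrm F R ∧ Lcl R ∧ Rt R ∧ IsNoetherianRing R
  tun : ∀ (F₀ : Subfield L) (n : ℕ) (F : ℕ → IntermediateField k L) (Os : ℕ → Subalgebra k L)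
    (x : ℕ → L) (g : SA k L), Tw F₀ n F Os x → Fx F₀ g → g • Os n = Os n →
    ∀ j, Un (Os n) (g • xs x n j / xs x n j)

/-- Row TW: a flag is extended by one floor. -/
def TwStmt : Prop :=
  ∀ (F₀ K₀ : Subfield L) (n : ℕ) (F : ℕ → IntermediateField k L) (N : IntermediateField k L)
    (Os : ℕ → Subalgebra k L) (O : Subalgebra k L) (x : ℕ → L) (u : L), F₀ ≤ K₀ →
    Tw F₀ n F Os x → Fr (n + 1) N O (sn (xs x n) u) → Dom (Os n) O →
    (∀ g : SA k L, Fx K₀ g → g • O = O →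
      g • Os n = Os n ∧ Un O (g • u / u) ∧ Strat g O (sn (xs x n) u)) →
    Tw K₀ (n + 1) (Function.update F (n + 1) N) (Function.update Os (n + 1) O)
      (Function.update x n u)

end Pool.Agent.MP_19ffc6_ag.Perf.Fl
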