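import Pool.Agent.MP_19ffc6_ag.perf.FlSep
import Pool.Agent.MP_19ffc6_ag.perf.FlSpec2

-- ======== part 0: formerly Pool.Agent.MP_19ffc6_ag.perf.FlStab
section MrgPart0

/-! PROJECT PERF, block FL, row STAB: stable centres and radii; rational functions split. -/

namespace Pool.Agent.MP_19ffc6_ag.Perf.Fl

open Polynomial IntermediateField Pool.Agent.R72.Wild Pool.Agent.R72.Lci Pool.Agent.R72.Res
  Pool.Agent.R72.Res.B Pool.Agent.R72.Res.P Pool.Agent.MP_19ffc6_ag.Perf.Ss

variable {k L : Type} [Field k] [Field L] [Algebra k L]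

namespace Stab

/-- An automorphism that fixes `F₀` maps roots of polynomials over `F₀` to roots. -/
lemma aeval_smul {F₀ : Subfield L} {g : SA k L} (hg : Fx F₀ g) (P : F₀[X]) (x : L) :
    aeval (g • x) P = g • aeval x P :=
  aeval_algHom_apply
    ({ toRingHom := (g.e : L →+* L), commutes' := fun c => hg c c.2 } : L →ₐ[F₀] L) x P

/-- A finite set of algebraic elements lies in a finite stable set of algebraic elements. -/
lemma orb (F₀ : Subfield L) (U₀ : Finset L) (h : ∀ s ∈ U₀, IsAlgebraic F₀ s) :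
    ∃ U : Finset L, U₀ ⊆ U ∧ (∀ s ∈ U, IsAlgebraic F₀ s) ∧
      ∀ g : SA k L, Fx F₀ g → ∀ s ∈ U, g • s ∈ U := by
  classical
  have key : ∀ x, x ∈ U₀.biUnion (fun s => ((minpoly F₀ s).aroots L).toFinset) ↔
      ∃ s ∈ U₀, aeval x (minpoly F₀ s) = 0 := fun x => by
    simp only [Finset.mem_biUnion, Multiset.mem_toFinset, mem_aroots]
    exact ⟨fun ⟨s, hs, _, h2⟩ => ⟨s, hs, h2⟩,
      fun ⟨s, hs, h2⟩ => ⟨s, hs, minpoly.ne_zero (h s hs).isIntegral, h2⟩⟩
  refine ⟨_, fun s hs => (key s).2 ⟨s, hs, minpoly.aeval _ _⟩, fun x hx => ?_,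
    fun g hg x hx => ?_⟩
  · obtain ⟨s, hs, h2⟩ := (key x).1 hx
    exact ⟨_, minpoly.ne_zero (h s hs).isIntegral, h2⟩
  · obtain ⟨s, hs, h2⟩ := (key x).1 hx
    exact (key _).2 ⟨s, hs, by rw [aeval_smul hg, h2, smul_zero]⟩

/-- In characteristic `p` a finite set generates a finite additive group. -/
lemma fin_closure (p : ℕ) [Fact p.Prime] [CharP L p] (U : Finset L) :
    (AddSubgroup.closure (U : Set L) : Set L).Finite := by
  have : Finite (AddSubgroup.closure (U : Set L)) :=
    AddCommGroup.finite_of_fg_isAddTorsion _ fun x =>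
      isOfFinAddOrder_iff_nsmul_eq_zero.2 ⟨p, (Fact.out : p.Prime).pos, Subtype.ext (by
        simp only [AddSubgroupClass.coe_nsmul, ZeroMemClass.coe_zero, nsmul_eq_mul,
          CharP.cast_eq_zero, zero_mul])⟩
  exact Set.toFinite _

/-- The value of a polynomial over `C` is a constant times linear factors. -/
lemma poly [IsAlgClosed L] {C : IntermediateField k L} (hC : AC C) (y : L) (r : C[X])
    (h : aeval y r ≠ 0) :
    ∃ (γ : L) (T : Multiset L), γ ∈ C ∧ γ ≠ 0 ∧ (∀ s ∈ T, s ∈ C ∧ y - s ≠ 0) ∧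
      aeval y r = γ * (T.map fun s => y - s).prod := by
  have hr : r ≠ 0 := fun e => h (by rw [e, map_zero])
  have e : aeval y r = (r.leadingCoeff : L) * ((r.aroots L).map fun s => y - s).prod :=
    (IsAlgClosed.splits (r.map (algebraMap C L))).aeval_eq_prod_aroots y
  refine ⟨_, r.aroots L, r.leadingCoeff.2, fun e0 => h (by rw [e, e0, zero_mul]),
    fun s hs => ⟨hC s ⟨r, hr, (mem_aroots.1 hs).2⟩, fun e0 => h ?_⟩, e⟩
  rw [sub_eq_zero.1 e0]
  exact (mem_aroots.1 hs).2

lemma prod_count [DecidableEq L] (f : L → L) (T : Multiset L) (Z : Finset L)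
    (h : T.toFinset ⊆ Z) : (T.map f).prod = ∏ s ∈ Z, f s ^ T.count s := by
  rw [Finset.prod_multiset_map_count]
  refine Finset.prod_subset h fun s _ hs => ?_
  rw [Multiset.count_eq_zero.2 (fun h' => hs (Multiset.mem_toFinset.2 h')), pow_zero]

end Stab

open Stab

theorem rad : RadStmt k L := by
  classical
  intro F₀ Λ₀ h
  obtain ⟨U, h1, h2, h3⟩ := orb (k := k) F₀ Λ₀ fun l hl => (h l hl).1
  refine ⟨U.filter (· ≠ 0), fun l hl => Finset.mem_filter.2 ⟨h1 hl, (h l hl).2⟩,
    fun l hl => ⟨h2 l (Finset.mem_filter.1 hl).1, (Finset.mem_filter.1 hl).2⟩,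
    fun g hg l hl => Finset.mem_filter.2 ⟨h3 g hg l (Finset.mem_filter.1 hl).1, ?_⟩⟩
  exact (smul_ne_zero_iff_ne g).2 (Finset.mem_filter.1 hl).2

theorem cen (p : ℕ) [Fact p.Prime] [CharP k p] : CenStmt k L := by
  classical
  intro F₀ U₀ h
  have : CharP L p := charP_of_injective_algebraMap (algebraMap k L).injective p
  obtain ⟨U, h1, h2, h3⟩ := orb (k := k) F₀ (insert 1 U₀) fun s hs => by
    rcases Finset.mem_insert.1 hs with rfl | hs
    · exact isAlgebraic_one
    · exact h s hs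
  have key : ∀ x, x ∈ (fin_closure p U).toFinset ↔ x ∈ AddSubgroup.closure (U : Set L) :=
    fun x => Set.Finite.mem_toFinset _
  refine ⟨(fin_closure p U).toFinset,
    fun s hs => (key s).2 (AddSubgroup.subset_closure (h1 (Finset.mem_insert_of_mem hs))),
    (key _).2 (zero_mem _),
    (key _).2 (AddSubgroup.subset_closure (h1 (Finset.mem_insert_self _ _))),
    fun s hs => ?_, fun s hs t ht => (key _).2 (sub_mem ((key _).1 hs) ((key _).1 ht)),
    fun g hg s hs => (key _).2 ?_⟩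
  · replace hs := (key s).1 hs
    induction hs using AddSubgroup.closure_induction with
    | mem x hx => exact h2 x hx
    | zero => exact isAlgebraic_zero
    | add x y _ _ hx hy => exact hx.add hy
    | neg x _ hx => exact hx.neg
  · replace hs := (key s).1 hs
    induction hs using AddSubgroup.closure_induction with
    | mem x hx => exact AddSubgroup.subset_closure (h3 g hg x hx)
    | zero => rw [smul_zero]; exact zero_mem _
    | add x y _ _ hx hy => rw [smul_add]; exact add_mem hx hy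
    | neg x _ hx => rw [smul_neg]; exact neg_mem hx

theorem spl [IsAlgClosed L] : SplStmt k L := by
  classical
  intro C y a hC ha h0
  rw [← restrictScalars_adjoin_eq_sup, mem_restrictScalars, mem_adjoin_simple_iff] at ha
  obtain ⟨r, s, rfl⟩ := ha
  obtain ⟨γ, T, hγ, hγ0, hT, e⟩ := poly hC y r (div_ne_zero_iff.1 h0).1
  obtain ⟨δ, S, hδ, hδ0, hS, e'⟩ := poly hC y s (div_ne_zero_iff.1 h0).2
  have hZ : ∀ z ∈ T.toFinset ∪ S.toFinset, z ∈ C ∧ y - z ≠ 0 := fun z hz => by
    rcases Finset.mem_union.1 hz with hz | hz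
    · exact hT z (Multiset.mem_toFinset.1 hz)
    · exact hS z (Multiset.mem_toFinset.1 hz)
  refine ⟨γ / δ, T.toFinset ∪ S.toFinset, fun z => (T.count z : ℤ) - S.count z, div_mem hγ hδ,
    div_ne_zero hγ0 hδ0, fun z hz => (hZ z hz).1, ?_⟩
  rw [e, e', prod_count _ T _ Finset.subset_union_left, prod_count _ S _ Finset.subset_union_right,
    mul_div_mul_comm, ← Finset.prod_div_distrib]
  congr 1
  refine Finset.prod_congr rfl fun z hz => ?_
  rw [zpow_sub₀ (hZ z hz).2, zpow_natCast, zpow_natCast]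

end Pool.Agent.MP_19ffc6_ag.Perf.Fl

end MrgPart0

-- ======== part 1: formerly Pool.Agent.MP_19ffc6_ag.perf.FlStar
section MrgPart1

/-! PROJECT PERF, block FL, row STAR: the fixed locus stays a union of strata one floor higher. -/

namespace Pool.Agent.MP_19ffc6_ag.Perf.Fl

open Polynomial IntermediateField Pool.Agent.R72.Wild Pool.Agent.R72.Lci Pool.Agent.R72.Res
  Pool.Agent.R72.Res.B Pool.Agent.R72.Res.P Pool.Agent.MP_19ffc6_ag.Perf.Ss

variable {k L : Type} [Field k] [Field L] [Algebra k L]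

namespace StarA

variable {g : SA k L} {R O : Subalgebra k L} {y : L} {U Λ : Finset L}

lemma mem_st (h : g • O = O) {a : L} (ha : a ∈ O) : g • a ∈ O := by
  rw [← h]; exact smul_mem_sA.2 ha

lemma inv_st (h : g • O = O) : g⁻¹ • O = O := inv_smul_eq_iff.2 h.symm

/-- A monomial is moved by a unit. -/
lemma un_mon {n : ℕ} {x : Fin n → L} {l : L} (h : g • R = R) (hx : ∀ j, x j ≠ 0)
    (hu : ∀ j, Un R (g • x j / x j)) (hl : LMon R x l) : Un R (g • l / l) := by
  have l0 := hl.ne_zero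
  obtain ⟨c, hc⟩ := hl
  have h1 : Un R (g • (l / mn x c)) := by
    have := (un_smul (g := g)).2 hc
    rwa [h] at this
  have h2 : Un R (g • mn x c / mn x c) := by
    rw [Lb.mn_s, mn, mn, ← Finset.prod_div_distrib]
    exact un_prod _ _ fun j _ => by rw [← div_zpow]; exact un_zpow (hu j) _
  have h0 := mn_ne_zero hx c
  have h3 : g • mn x c ≠ 0 := Lb.ne_s h0
  have := (un_div h1 hc).mul h2
  rw [Lb.div_s] at this
  convert this using 1
  field_simp

lemma le_inv (hR : g • R = R) (hO : g • O = O) (hp : Perm g y U Λ) :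
    R ⊔ Algebra.adjoin k (crd y U Λ O) ≤ g⁻¹ • (R ⊔ Algebra.adjoin k (crd y U Λ O)) := by
  refine sup_adjoin_le (fun a ha => ?_) ?_
  · rw [mem_sA, inv_inv]
    exact (le_sup_left : R ≤ _) (mem_st hR ha)
  · rintro a ⟨ha, s, hs, l, hl, e⟩
    rw [mem_sA, inv_inv]
    refine (le_sup_right : Algebra.adjoin k _ ≤ _) (Algebra.subset_adjoin
      ⟨mem_st hO ha, g • s, hp.cen s hs, g • l, hp.rad l hl, ?_⟩)
    rcases e with rfl | rfl
    · left; rw [Lb.div_s, smul_sub, hp.fix]
    · right; rw [smul_inv'', Lb.div_s, smul_sub, hp.fix]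

lemma lr_st (hR : g • R = R) (hO : g • O = O) (hp : Perm g y U Λ) (hp' : Perm g⁻¹ y U Λ) :
    g • lr R (crd y U Λ O) O = lr R (crd y U Λ O) O := by
  have := le_inv (inv_st hR) (inv_st hO) hp'
  rw [inv_inv] at this
  rw [lr, ← loc_smul, Lb.eq_s (le_inv hR hO hp) this, hO]

end StarA

open StarA in
theorem star (hl : LocStmt k L) (hy : YlStmt k L) (hn : DnStmt k L) (hr : RedStmt k L)
    (hv : VertStmt k L) (hs : SmallStmt k L) : StarStmt k L := by
  intro n F N y N' R O x u m U Λ G g hnd hfr htr htd hpt hmon hfd hno hN' hvt hO hR hN hp hp'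
    hx hu hst W hW hle hI
  have hRO : R ≤ O := hnd.dom.1
  have x0 := hnd.fr.fr.ne
  obtain ⟨W₂, hpr, hW₂⟩ := hl (n + 1) N O W (sn x u) g hfr hW hle hO
    (sn_forall (p := fun t => Un O (g • t / t)) (fun j => (hx j).mono hRO) hu) hI
  have LM : ∀ z ∈ O, LMon O (sn x u) z → Un W₂ z → Un W z := fun z hz hm h => by
    by_contra H
    exact (hW₂ z hz).2 (mem_fI hfr.fr.ne hle hz hm H) h
  have hRm : ∀ a ∈ R, ¬ Un W₂ (g • a - a) := fun a ha =>
    (hW₂ _ (hRO (sub_mem (mem_st hR ha) ha))).2 <| span_le_span hRO (by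
      rintro _ ⟨h1, h2, c, rfl⟩
      exact Submodule.subset_span ⟨hRO h1, h2, Fin.snoc (α := fun _ => ℤ) c 0, by
        simp [mn_snoc]⟩) (hst W hW (hRO.trans hle) (fun a ha => hI a (hRO ha)) a ha)
  have h1 : (1 : L) ∈ Λ := htr.cen 1 htr.one one_ne_zero
  obtain ⟨hnr, hlc, -, -⟩ := hs.nrm n F R x hnd.fr
  have hB := hn F R O y U Λ hnr hlc hpt.lcl hnd.dom htr.tr (fun s hs => by
      by_cases h : s = 0
      · rw [h]; exact zero_mem _
      · exact (htr.rad s (htr.cen s hs h)).1)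
    (fun l hl => ⟨(htr.rad l hl).1, (htr.rad l hl).2.ne_zero⟩) htr.zero h1
    (fun s hs t ht h => htr.cen _ (htr.sub s hs t ht) (sub_ne_zero.2 h)) htr.dec htd
  have hY := hy g R O W W₂ y U Λ hpr hRO hR hRm hp htr.zero htr.sub
    (fun l hl => ⟨(htr.rad l hl).2.ne_zero, un_mon hR x0 hx (htr.rad l hl).2⟩)
    (fun s hs l hl => by
      by_cases h : s = 0
      · rw [h, zero_div]
        exact ⟨Or.inl (zero_mem _), fun _ H => (H.2.1 rfl).elim⟩
      · have hs' := htr.cen s hs h
        refine ⟨htr.dec s hs' l hl, fun H => LM _ (hRO H) (lmon_sn hRO ?_)⟩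
        rw [div_eq_mul_inv]
        exact (htr.rad s hs').2.mul x0 (htr.rad l hl).2.inv) htd (by
      rintro z ⟨hz, s, hs, l, hl, e⟩
      have : LMon O (sn x u) ((y - s) / l) := by
        rw [div_eq_mul_inv]
        exact (hmon s hs).mul hfr.fr.ne (lmon_sn hRO (htr.rad l hl).2).inv
      refine LM z hz ?_
      rcases e with rfl | rfl
      exacts [this, this.inv])
  have key := hr _ N N' _ O W W₂ g hfd hno hN' hB hpt (lr_st hR hO hp hp') hN hpr hY
    fun v hv1 hv2 hv3 a ha => (hW₂ _ (sub_mem (mem_st hv2 ha) ha)).2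
      (hv n F _ N R O x u m G v hnd hfr le_sup_left hvt hv1 hv2 W hW hle hv3 a ha)
  exact fun a ha => (hW₂ _ (sub_mem (mem_st hO ha) ha)).1 (key a ha)

end Pool.Agent.MP_19ffc6_ag.Perf.Fl

end MrgPart1

-- marker of a merged file
example : 731051 + 60175 = 731051 + 60175 := rfl
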