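import Pool.Agent.MP_19ffc6_ag.perf.FlSpec2

/-! PROJECT PERF, block FL, row VERT: the fixed locus of a vertical automorphism at a node is a
union of strata. -/

namespace Pool.Agent.MP_19ffc6_ag.Perf.Fl

open Polynomial IntermediateField Pool.Agent.R72.Wild Pool.Agent.R72.Lci Pool.Agent.R72.Res
  Pool.Agent.R72.Res.B Pool.Agent.R72.Res.P Pool.Agent.MP_19ffc6_ag.Perf.Ss

variable {k L : Type} [Field k] [Field L] [Algebra k L]

theorem uzp : UzpStmt k L := by
  intro O S g I hl hn lin hO hP hS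
  have := hl.isLocalRing
  have hm : ∀ a ∈ O, g • a ∈ O := fun a ha => by
    have := (smul_mem_sA (g := g)).2 ha
    rwa [hO] at this
  let J : Submodule O L := Submodule.span O {b | ∃ a ∈ O, b = g • a - a}
  have hJ : ∀ a ∈ O, g • a - a ∈ J := fun a ha => Submodule.subset_span ⟨a, ha, rfl⟩
  have fg : J.FG := by
    have := isNoetherian_span_of_finite O (Set.finite_singleton (1 : L))
    refine Submodule.FG.of_le_of_isNoetherian (T := Submodule.span O {(1 : L)})
      (Submodule.span_le.2 ?_)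
    rintro _ ⟨a, ha, rfl⟩
    exact mem_span_one.2 ⟨_, sub_mem (hm a ha) ha, (one_mul _).symm⟩
  have key : J ≤ I := by
    refine Submodule.le_of_le_smul_of_le_jacobson_bot fg
      (IsLocalRing.maximalIdeal_le_jacobson ⊥) (Submodule.span_le.2 ?_)
    rintro _ ⟨a, ha, rfl⟩
    obtain ⟨c, hc⟩ := hP a ha
    let X : AddSubmonoid L :=
      { carrier := {b | g • b - b ∈ I ⊔ IsLocalRing.maximalIdeal O • J}
        zero_mem' := by simp
        add_mem' := fun {a b} ha hb => by
          rw [Set.mem_ofPred_eq] at ha hb ⊢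
          rw [smul_add, add_sub_add_comm]
          exact add_mem ha hb }
    have h1 := GD.span_mul_mem (X := X) (fun s hs r hr => ?_) hc 1 (one_mem _)
    · have h2 : g • (1 * (a - algebraMap k L c)) - 1 * (a - algebraMap k L c) ∈
        I ⊔ IsLocalRing.maximalIdeal O • J := h1
      rwa [one_mul, smul_sub, lin c, sub_sub_sub_cancel_right] at h2
    · obtain ⟨h1, h2, h3⟩ := hS s hs
      change g • (r * s) - r * s ∈ I ⊔ IsLocalRing.maximalIdeal O • J
      rw [show g • (r * s) - r * s = r * (g • s - s) + g • s * (g • r - r) by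
        rw [smul_mul']; ring]
      refine Submodule.add_mem_sup (GD.mul_mem' hr h3)
        (Submodule.smul_mem_smul (r := (⟨g • s, hm s h1⟩ : O)) (fun hu => h2 ?_) (hJ r hr))
      have h4 : Un O (g • s) := (isUnit_iff_un _).1 hu
      rwa [← hO, P.un_smul] at h4
  exact fun a ha => key (hJ a ha)

namespace Vert

/-- The elements fixed by a linear automorphism. -/
def fixd (g : SA k L) (lin : Lin g) : IntermediateField k L where
  carrier := {a | g • a = a}
  mul_mem' := fun {a b} (ha : g • a = a) (hb : g • b = b) => show g • (a * b) = a * b by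
    rw [smul_mul', ha, hb]
  add_mem' := fun {a b} (ha : g • a = a) (hb : g • b = b) => show g • (a + b) = a + b by
    rw [smul_add, ha, hb]
  algebraMap_mem' := lin
  inv_mem' := fun a (ha : g • a = a) => show g • a⁻¹ = a⁻¹ by rw [smul_inv'', ha]

variable {n : ℕ} {F : IntermediateField k L} {R O : Subalgebra k L} {x : Fin n → L} {u m : L}
  {g : SA k L}

lemma le_field (h : Nd n F R O x u m) {a : L} (ha : a ∈ R) : a ∈ F :=
  let ⟨_, hD⟩ := h.fr.aff
  hD.le_field ha

lemma m_mem (h : Nd n F R O x u m) : m ∈ F := by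
  rcases h.mon with rfl | ⟨c, hc⟩
  · exact zero_mem _
  · have := mul_mem (le_field h hc.1) (mn_mem_field h.fr.mem c)
    rwa [div_mul_cancel₀ _ (mn_ne_zero h.fr.fr.ne c)] at this

/-- The displacements of the two branches generate all displacements. -/
lemma key (h : Nd n F R O x u m) (hl : Lcl O) (hn : IsNoetherianRing O)
    (hg : ∀ a ∈ F, g • a = a) (hO : g • O = O) {I : Submodule O L} (h1 : g • u - u ∈ I)
    (h2 : g • (m / u) - m / u ∈ I) : ∀ a ∈ O, g • a - a ∈ I := by
  have lin : Lin g := fun c => hg _ (F.algebraMap_mem c)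
  obtain ⟨a, b, ha, hb, hP⟩ := h.rel
  refine uzp O _ g I hl hn lin hO hP ?_
  rintro t (⟨ht, hu⟩ | rfl | rfl)
  · exact ⟨h.dom.1 ht, fun H => hu (h.dom.2 t ht H), by
      rw [hg t (le_field h ht), sub_self]; exact zero_mem _⟩
  · exact ⟨sub_mem h.um (O.algebraMap_mem a), ha, by
      rwa [smul_sub, lin a, sub_sub_sub_cancel_right]⟩
  · exact ⟨sub_mem h.mu (O.algebraMap_mem b), hb, by
      rwa [smul_sub, lin b, sub_sub_sub_cancel_right]⟩

end Vert

theorem vert (hd : DivF k L) : VertStmt k L := by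
  intro n F E N R O x u m G g h hF hFE hV hg hO W hW hOW hI
  have hg' : ∀ a ∈ F, g • a = a := fun a ha => hg a (hFE ha)
  have lin : Lin g := fun c => hg _ (E.algebraMap_mem c)
  obtain ⟨D, hD⟩ := hF.aff
  have hl : Lcl O := hD.pt.lcl
  have hz := hF.fr.ne
  have hu := h.ne
  have key := fun I => Vert.key (I := I) h hl hD.noeth hg' hO
  obtain ⟨ε, hε⟩ : ∃ ε, ε = g • u / u := ⟨_, rfl⟩
  have he : Un O ε := by simpa [hε] using hV.un g hg hO (Fin.last n)
  have he1 : ε - 1 ∈ O := sub_mem he.1 (one_mem _)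
  have e0 : g • u = ε * u := by rw [hε, div_mul_cancel₀ _ hu]
  have e1 : g • u - u = (ε - 1) * u := by rw [e0]; ring
  have e2 : g • (m / u) - m / u = (ε - 1) * (-ε⁻¹ * (m / u)) := by
    have := he.2.1
    rw [smul_div₀', hg' m (Vert.m_mem h), e0]
    field_simp
    ring
  have hw : -ε⁻¹ * (m / u) ∈ O := mul_mem (neg_mem he.2.2) h.mu
  have k1 : ∀ I : Submodule O L, ε - 1 ∈ I → ∀ a ∈ O, g • a - a ∈ I := fun I hI => key I
    (by rw [e1, mul_comm]; exact GD.mul_mem' h.um hI)
    (by rw [e2, mul_comm]; exact GD.mul_mem' hw hI)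
  by_cases hWe : Un W (ε - 1)
  · have hu1 : u ∈ fI O W (sn x u) := mem_fI hz hOW h.um (lmon_last hu) fun H =>
      hI u h.um (e1 ▸ hWe.mul H)
    have hu2 : m / u ∈ fI O W (sn x u) := by
      rcases h.mon with rfl | hm
      · rw [zero_div]; exact zero_mem _
      · refine mem_fI hz hOW h.mu ?_ fun H => hI _ h.mu (e2 ▸ hWe.mul (Un.mul ?_ H))
        · rw [div_eq_mul_inv]
          exact (lmon_sn h.dom.1 hm).mul hz (lmon_last hu).inv
        · have := (he.mono hOW).inv
          exact ⟨neg_mem this.1, neg_ne_zero.2 this.2.1, by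
            rw [inv_neg]; exact neg_mem this.2.2⟩
    exact key _ (e1 ▸ GD.mul_mem' he1 hu1)
      (e2 ▸ GD.mul_mem' he1 (GD.mul_mem' (neg_mem he.2.2) hu2))
  by_cases hG : ∀ θ ∈ G, g • θ = θ
  · intro a ha
    have h1 : E ⊔ adjoin k (G : Set L) ≤ Vert.fixd g lin :=
      sup_le hg (adjoin_le_iff.2 hG)
    have h2 : g • a = a := h1 (hV.gen (hD.le_field ha))
    rw [h2, sub_self]
    exact zero_mem _
  push Not at hG
  obtain ⟨θ, hθ, hne⟩ := hG
  have h0 : θ ≠ 0 := by rintro rfl; exact hne (smul_zero g)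
  have hm := hV.mon θ hθ h0
  have hdif := (hV.dif _ (hV.st g hg θ hθ) θ hθ hne).mul hz hm.inv
  obtain ⟨c, hc⟩ := hm
  obtain ⟨v, hv⟩ : ∃ v, v = θ / mn (sn x u) c := ⟨_, rfl⟩
  rw [← hv] at hc
  have hx := mn_ne_zero h.fr.fr.ne fun j => c j.castSucc
  have e3 : θ = v * (mn x (fun j => c j.castSucc) * u ^ c (Fin.last n)) := by
    rw [hv, ← mn_sn, div_mul_cancel₀ _ (mn_ne_zero hz c)]
  have e4 : (g • θ - θ) * θ⁻¹ = g • v / v * ε ^ c (Fin.last n) - 1 := by
    have h1 : g • u ^ c (Fin.last n) = (g • u) ^ c (Fin.last n) := map_zpow₀ g.e _ _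
    have h2 := hc.2.1
    have h3 := zpow_ne_zero (c (Fin.last n)) hu
    rw [e3, smul_mul', smul_mul', hg' _ (mn_mem_field h.fr.mem _), h1, e0, mul_zpow]
    field_simp
  have hI1 : ∀ a ∈ Submodule.span O {ε - 1}, a ∈ mx hl := fun a ha =>
    GD.span_mx hl le_rfl (by rintro _ rfl; exact ⟨he1, fun H => hWe (H.mono hOW)⟩) ha
  have hs := Submodule.mem_span_singleton_self (R := O) (ε - 1)
  have h5 : g • v / v - 1 ∈ Submodule.span O {ε - 1} := by
    rw [show g • v / v - 1 = v⁻¹ * (g • v - v) by have := hc.2.1; field_simp]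
    exact GD.mul_mem' hc.2.2 (k1 _ hs v hc.1)
  obtain ⟨w, hw', e5⟩ := mem_span_one.1
    (GD.one_mul' hl hI1 h5 (GD.one_zpow' hl hI1 hs (c (Fin.last n))))
  rw [e4, e5] at hdif
  exact k1 _ (mem_fI hz hOW he1 (hd.div _ N O _ hF _ he1 w hw' hdif) hWe)

end Pool.Agent.MP_19ffc6_ag.Perf.Fl
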