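import Pool.Agent.MP_19ffc6_ag.perf.FlSep

/-! PROJECT PERF, block FL, row YL: inertia on the tree of discs. -/

namespace Pool.Agent.MP_19ffc6_ag.Perf.Fl

open Polynomial IntermediateField Pool.Agent.R72.Wild Pool.Agent.R72.Lci Pool.Agent.R72.Res
  Pool.Agent.R72.Res.B Pool.Agent.R72.Res.P Pool.Agent.MP_19ffc6_ag.Perf.Ss

variable {k L : Type} [Field k] [Field L] [Algebra k L]

namespace Yl

variable {g : SA k L} {A R W W₂ : Subalgebra k L} {x y : L} {U Λ : Finset L}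

lemma un_add (h : Lcl W) (hx : Un W x) (hy : y ∈ mx h) : Un W (x + y) := by
  by_contra H
  have := sub_mem (show x + y ∈ mx h from ⟨add_mem hx.1 hy.1, H⟩) hy
  rw [add_sub_cancel_right] at this
  exact this.2 hx

lemma mx_of_mul (h : Lcl W) (hx : x ∈ W) (hy : Un W y) (hm : x * y ∈ mx h) : x ∈ mx h :=
  ⟨hx, fun e => hm.2 (e.mul hy)⟩

lemma un_div_iff (hy : Un W y) : Un W (x / y) ↔ Un W x :=
  ⟨fun h => by simpa [hy.2.1] using h.mul hy, fun h => by
    rw [div_eq_mul_inv]; exact h.mul hy.inv⟩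

lemma div_mx (h : Lcl W) {a b : L} (ha : a ∈ W) (hb : Un W b) (hb' : Un W (g • b))
    (h1 : g • a - a ∈ mx h) (h2 : g • b - b ∈ mx h) : g • (a / b) - a / b ∈ mx h := by
  have := mul_mem_mx h (sub_mem (mul_mem_mx h h1 hb.1) (mul_mem_mx h h2 ha)) (hb.mul hb').2.2
  convert this using 1
  have := hb.2.1
  have := hb'.2.1
  rw [smul_div₀']
  field_simp
  ring

lemma inv_mx (h : Lcl W) (hx : x ∈ W) (hx' : g • x ∈ W) (h1 : g • x⁻¹ - x⁻¹ ∈ mx h) :
    g • x - x ∈ mx h := by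
  rcases eq_or_ne x 0 with rfl | h0
  · simp
  have := neg_mem (mul_mem_mx h (mul_mem_mx h h1 hx) hx')
  convert this using 1
  have : g • x ≠ 0 := (smul_ne_zero_iff_ne g).2 h0
  rw [smul_inv'']
  field_simp
  ring

/-- the one sided form of `Pr` -/
structure Q (g : SA k L) (A : Subalgebra k L) (h : Lcl W) (h₂ : Lcl W₂) : Prop where
  st : ∀ x ∈ A, g • x ∈ A
  le : A ≤ W
  le₂ : A ≤ W₂
  gen : ∀ x ∈ A, Un W x → Un W₂ x
  stb : ∀ x ∈ A, Un W₂ (g • x) ↔ Un W₂ x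
  ine : ∀ x ∈ A, g • x - x ∈ mx h

variable {h : Lcl W} {h₂ : Lcl W₂}

lemma Q.un (q : Q g A h h₂) (hx : x ∈ A) (hu : Un W x) : Un W (g • x) := by
  simpa using un_add h hu (q.ine x hx)

lemma Q.mx (q : Q g A h h₂) (hx : x ∈ A) (hm : x ∈ mx h₂) : x ∈ mx h :=
  ⟨q.le hx, fun e => hm.2 (q.gen x hx e)⟩

lemma Q.loc (q : Q g A h h₂) : Q g (loc A W) h h₂ where
  st := by
    rintro _ ⟨a, ha, b, hb, hu, rfl⟩
    exact ⟨_, q.st a ha, _, q.st b hb, q.un hb hu, smul_div₀' _ _ _⟩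
  le := loc_le q.le
  le₂ := by
    rintro _ ⟨a, ha, b, hb, hu, rfl⟩
    rw [div_eq_mul_inv]
    exact mul_mem (q.le₂ ha) (q.gen b hb hu).2.2
  gen := by
    rintro _ ⟨a, ha, b, hb, hu, rfl⟩
    rw [un_div_iff hu, un_div_iff (q.gen b hb hu)]
    exact q.gen a ha
  stb := by
    rintro _ ⟨a, ha, b, hb, hu, rfl⟩
    rw [smul_div₀', un_div_iff (q.gen b hb hu), un_div_iff (q.gen _ (q.st b hb) (q.un hb hu))]
    exact q.stb a ha
  ine := by
    rintro _ ⟨a, ha, b, hb, hu, rfl⟩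
    exact div_mx h (q.le ha) hu (q.un hb hu) (q.ine a ha) (q.ine b hb)

lemma Q.pow (q : Q g A h h₂) (n : ℕ) : Q (g ^ n) A h h₂ := by
  induction n with
  | zero => exact ⟨by simp, q.le, q.le₂, q.gen, by simp, by simp⟩
  | succ n ih =>
    refine ⟨fun x hx => ?_, q.le, q.le₂, q.gen, fun x hx => ?_, fun x hx => ?_⟩ <;>
      rw [pow_succ', mul_smul]
    · exact q.st _ (ih.st x hx)
    · exact (q.stb _ (ih.st x hx)).trans (ih.stb x hx)
    · simpa using add_mem (q.ine _ (ih.st x hx)) (ih.ine x hx)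

lemma pow_mem_fin (hU : ∀ s ∈ U, g • s ∈ U) (hx : x ∈ U) (n : ℕ) : g ^ n • x ∈ U := by
  induction n with
  | zero => simpa using hx
  | succ n ih => rw [pow_succ', mul_smul]; exact hU _ ih

lemma pow_fix (hx : g • x = x) (n : ℕ) : g ^ n • x = x := by
  induction n with
  | zero => simp
  | succ n ih => rw [pow_succ', mul_smul, ih, hx]

lemma per (hU : ∀ s ∈ U, g • s ∈ U) (hx : x ∈ U) : ∃ e, 0 < e ∧ g ^ e • x = x := by
  obtain ⟨i, j, hij, e⟩ := Set.Finite.exists_lt_map_eq_of_forall_mem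
    (f := fun n : ℕ => g ^ n • x) (pow_mem_fin hU hx) U.finite_toSet
  refine ⟨j - i, by omega, MulAction.injective (g ^ i) ?_⟩
  change g ^ i • g ^ (j - i) • x = g ^ i • x
  rw [← mul_smul, ← pow_add, Nat.add_sub_cancel' hij.le]
  exact e.symm

lemma add_U (h0 : 0 ∈ U) (hs : ∀ s ∈ U, ∀ t ∈ U, s - t ∈ U) (hx : x ∈ U) (hy : y ∈ U) :
    x + y ∈ U := by simpa using hs x hx _ (hs 0 h0 y hy)

lemma sum_U (h0 : 0 ∈ U) (hs : ∀ s ∈ U, ∀ t ∈ U, s - t ∈ U) {f : ℕ → L} (hf : ∀ i, f i ∈ U)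
    (n : ℕ) : ∑ i ∈ Finset.range n, f i ∈ U := by
  induction n with
  | zero => simpa using h0
  | succ n ih => rw [Finset.sum_range_succ]; exact add_U h0 hs ih (hf n)

section Main

variable (q : Q g A h h₂) (hRA : R ≤ A)
  (hR : ∀ x ∈ R, g • x - x ∈ mx h₂) (hP : Perm g y U Λ)
  (hΛ : ∀ l ∈ Λ, l ≠ 0 ∧ Un R (g • l / l)) {l : L} (hl : l ∈ Λ)

include hP hΛ hl in
lemma eps_un (j : ℕ) : Un R (g ^ j • l / l) := by
  induction j with
  | zero => simpa [(hΛ l hl).1] using Un.one R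
  | succ j ih =>
    have h1 := hΛ _ (pow_mem_fin hP.rad hl j)
    have := h1.2.mul ih
    rwa [div_mul_div_cancel₀ h1.1, ← mul_smul, ← pow_succ'] at this

include q hRA hR hP hΛ hl in
lemma eps_pow (j : ℕ) : g ^ j • l / l - (g • l / l) ^ j ∈ mx h₂ := by
  induction j with
  | zero => simp [(hΛ l hl).1]
  | succ j ih =>
    have := mul_mem_mx h₂ (add_mem (hR _ (eps_un hP hΛ hl j).1) ih) (q.le₂ (hRA (hΛ l hl).2.1))
    convert this using 1
    have h0 := (hΛ l hl).1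
    have h1 : g • l ≠ 0 := (smul_ne_zero_iff_ne g).2 h0
    rw [smul_div₀', pow_succ', mul_smul, pow_succ]
    field_simp
    ring

end Main

end Yl

open Yl in
theorem yl (p : ℕ) [Fact p.Prime] [CharP k p] : YlStmt k L := by
  intro g R O W W₂ y U Λ hP hRO hgR hR hM h0 hs hΛ hD hT hc
  have : CharP L p := charP_of_injective_algebraMap (algebraMap k L).injective p
  have h := hP.lcl
  have h₂ := hP.lcl₂
  have hO : ∀ x ∈ O, g • x ∈ O := fun x hx => hP.st ▸ smul_mem_sA.2 hx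
  have hg : ∀ x ∈ R, g • x ∈ R := fun x hx => hgR ▸ smul_mem_sA.2 hx
  have q : Q g (loc O W) h h₂ := Q.loc ⟨hO, hP.le, hP.le₂, hP.gen, hP.stb, fun x hx =>
    ⟨hP.le (sub_mem (hO x hx) hx), hP.ine x hx⟩⟩
  have hOA := le_loc O W
  have hinv : ∀ x ∈ loc O W, Un W x → x⁻¹ ∈ loc O W := fun x => inv_mem_loc
  set A := loc O W
  have hRA := hRO.trans hOA
  replace hR : ∀ x ∈ R, g • x - x ∈ mx h₂ := fun x hx =>
    ⟨q.le₂ (hRA (sub_mem (hg x hx) hx)), hR x hx⟩
  have dec : ∀ {B : Subalgebra k L} {x : L}, B ≤ A → Dec B x → x ∈ mx h → x ∈ B :=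
    fun hB hd hx => hd.elim id fun e => by
      by_contra H
      exact hx.2 ⟨hx.1, fun e0 => H (e0 ▸ zero_mem _), q.le (hB e)⟩
  have main : ∀ s ∈ U, ∀ l ∈ Λ, (y - s) / l ∈ A →
      g • ((y - s) / l) - (y - s) / l ∈ mx h₂ := by
    intro s hsU l hl hz
    obtain ⟨l0, hε⟩ := hΛ l hl
    have l1 : g • l ≠ 0 := (smul_ne_zero_iff_ne g).2 l0
    have hε1 : g • l / l - 1 ∈ A := sub_mem (hRA hε.1) (one_mem _)
    by_cases hA : Un W₂ (g • l / l - 1)
    swap
    · have m1 : (g • l / l - 1) * ((y - s) / l * (g • l / l)⁻¹) ∈ mx h₂ :=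
        mul_mem_mx h₂ ⟨q.le₂ hε1, hA⟩ (q.le₂ (mul_mem hz (hRA hε.2.2)))
      have e : (s - g • s) / g • l = g • ((y - s) / l) - (y - s) / l +
          (g • l / l - 1) * ((y - s) / l * (g • l / l)⁻¹) := by
        rw [smul_div₀', smul_sub, hM.fix]
        field_simp
        ring
      have m2 : (s - g • s) / g • l ∈ mx h :=
        e ▸ add_mem (q.ine _ hz) (q.mx (mul_mem hε1 (mul_mem hz (hRA hε.2.2))) m1)
      obtain ⟨d1, d2⟩ := hD _ (hs s hsU _ (hM.cen s hsU)) _ (hM.rad l hl)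
      have m3 := dec hRA d1 m2
      have := sub_mem (show _ ∈ mx h₂ from ⟨q.le₂ (hRA m3), fun e => m2.2 (d2 m3 e)⟩) m1
      rwa [e, add_sub_cancel_right] at this
    obtain ⟨e1, p1, f1⟩ := per hM.cen hsU
    obtain ⟨e2, p2, f2⟩ := per hM.rad hl
    obtain ⟨a, e, he, hae⟩ := Nat.exists_eq_pow_mul_and_not_dvd (Nat.mul_pos p1 p2).ne' p
      (Fact.out : p.Prime).ne_one
    have e0 : (e : k) ≠ 0 := mt (CharP.cast_eq_zero_iff k p e).1 he
    have e0' : (e : L) ≠ 0 := mt (CharP.cast_eq_zero_iff L p e).1 he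
    have f3 : (g ^ p ^ a) ^ e • s = s := by rw [← pow_mul, ← hae, pow_mul]; exact pow_fix f1 _
    have f4 : g ^ (p ^ a * e) • l = l := by rw [← hae, pow_mul']; exact pow_fix f2 _
    have hp := eps_pow q hRA hR hM hΛ hl
    set ε := g • l / l
    have hS : ∑ i ∈ Finset.range e, ε ^ i ∈ A := sum_mem fun i _ => pow_mem (hRA hε.1) i
    have u1 : Un W (ε - 1) := by
      by_contra H
      have m1 := neg_mem (hp (p ^ a * e))
      rw [f4, div_self l0, neg_sub, pow_mul', ← one_pow (p ^ a), ← sub_pow_char_pow,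
        ← geom_sum_mul] at m1
      have m2 := q.mx hS ⟨q.le₂ hS, fun e => m1.2 ((e.mul hA).pow _)⟩
      have m3 : ∑ i ∈ Finset.range e, (ε ^ i - 1) ∈ mx h := sum_mem fun i _ => by
        rw [← mul_geom_sum]
        exact mul_mem_mx h ⟨q.le hε1, H⟩ (sum_mem fun j _ => pow_mem (q.le (hRA hε.1)) j)
      have m4 := sub_mem m2 m3
      rw [← Finset.sum_sub_distrib] at m4
      exact m4.2 (by simpa using un_algebraMap W e0)
    set γ := g ^ p ^ a with hγ
    have hη := eps_un hM hΛ hl (p ^ a)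
    have u2 : Un W (γ • l / l - 1) := by
      have := un_add h (u1.pow (p ^ a))
        (q.mx (sub_mem (hRA hη.1) (pow_mem (hRA hε.1) _)) (hp (p ^ a)))
      rw [sub_pow_char_pow, one_pow] at this
      convert this using 1
      ring
    obtain ⟨n, hn⟩ : ∃ n : ℕ, (n : L) * e = 1 := by
      refine ⟨e ^ (p - 2), mul_right_cancel₀ e0' ?_⟩
      rw [Nat.cast_pow, ← pow_succ, ← pow_succ, Nat.sub_add_cancel (Fact.out : p.Prime).two_le,
        one_mul]
      exact map_natCast (frobenius L p) e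
    have hγU : ∀ i, γ ^ i • s ∈ U := fun i => by rw [← pow_mul]; exact pow_mem_fin hM.cen hsU _
    set b := (n : L) * ∑ i ∈ Finset.range e, γ ^ i • s with hb
    have b1 : b ∈ U := by
      simpa using sum_U h0 hs (fun _ => sum_U h0 hs hγU e) n
    have b2 : γ • b = b := by
      rw [hb, smul_mul', Finset.smul_sum]
      congr 1
      · exact map_natCast (MulSemiringAction.toRingHom _ L γ) n
      · have := Finset.sum_range_succ' (fun i => γ ^ i • s) e
        rw [Finset.sum_range_succ, f3, pow_zero, one_smul, add_left_inj] at this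
        simp only [this, pow_succ', mul_smul]
    have z1 : (y - b) / l ∈ A := by
      have : (y - b) / l = n * ∑ i ∈ Finset.range e,
          g ^ (p ^ a * i) • ((y - s) / l) * (g ^ (p ^ a * i) • l / l) := by
        have : ∀ j : ℕ, g ^ j • ((y - s) / l) * (g ^ j • l / l) = (y - g ^ j • s) / l := fun j => by
          rw [smul_div₀', smul_sub, pow_fix hM.fix,
            div_mul_div_cancel₀ ((smul_ne_zero_iff_ne _).2 l0)]
        simp only [this]
        simp only [pow_mul, ← Finset.sum_div, Finset.sum_sub_distrib, Finset.sum_const,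
          Finset.card_range, nsmul_eq_mul]
        rw [← mul_div_assoc, mul_sub, ← mul_assoc, hn, one_mul]
      rw [this]
      exact mul_mem (natCast_mem _ n) (sum_mem fun i _ =>
        mul_mem ((q.pow _).st _ hz) (hRA (eps_un hM hΛ hl _).1))
    have z2 : (y - b) / l ∈ mx h := by
      refine mx_of_mul h (q.le z1) (u2.mul (hη.mono (hRA.trans q.le)).inv) ?_
      convert neg_mem ((q.pow (p ^ a)).ine _ z1) using 1
      have : γ • l ≠ 0 := (smul_ne_zero_iff_ne _).2 l0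
      rw [smul_div₀', smul_sub, pow_fix hM.fix, b2, ← hγ]
      field_simp
      ring
    have z3 := dec hOA (hT b b1 l hl) z2
    have z4 : (y - b) / l ∈ mx h₂ :=
      ⟨q.le₂ z1, fun e => z2.2 (hc _ ⟨z3, b, b1, l, hl, Or.inl rfl⟩ e)⟩
    have z5 : g • ((y - b) / l) ∈ mx h₂ := ⟨q.le₂ (q.st _ z1), fun e => z4.2 ((q.stb _ z1).1 e)⟩
    have e3 : (b - s) / l = (y - s) / l - (y - b) / l := by ring
    have r1 : (b - s) / l ∈ A := e3 ▸ sub_mem hz z1
    have r2 : g • ((b - s) / l) - (b - s) / l ∈ mx h₂ :=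
      (hD _ (hs b b1 s hsU) l hl).1.elim (hR _) fun e =>
        inv_mx h₂ (q.le₂ r1) (q.le₂ (q.st _ r1)) (hR _ e)
    convert add_mem r2 (sub_mem z5 z4) using 1
    rw [e3, smul_sub]
    ring
  let T : Subalgebra k L :=
    { carrier := {x | x ∈ O ∧ g • x - x ∈ mx h₂}
      add_mem' := fun ha hb => ⟨add_mem ha.1 hb.1, by
        convert add_mem ha.2 hb.2 using 1
        rw [smul_add]; ring⟩
      mul_mem' := fun ha hb => ⟨mul_mem ha.1 hb.1, by
        convert add_mem (mul_mem_mx h₂ ha.2 (hP.le₂ (hO _ hb.1)))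
          (mul_mem_mx h₂ hb.2 (hP.le₂ ha.1)) using 1
        rw [smul_mul']; ring⟩
      algebraMap_mem' := fun c => ⟨O.algebraMap_mem c, hR _ (R.algebraMap_mem c)⟩ }
  have hle : R ⊔ Algebra.adjoin k (crd y U Λ O) ≤ T := by
    refine sup_le (fun x hx => ⟨hRO hx, hR x hx⟩) (Algebra.adjoin_le fun x hx => ⟨hx.1, ?_⟩)
    obtain ⟨hx1, s, hsU, l, hl, e | e⟩ := id hx
    · exact e ▸ main s hsU l hl (e ▸ hOA hx1)
    by_cases hu : Un W₂ x
    · refine inv_mx h₂ (hP.le₂ hx1) (hP.le₂ (hO x hx1)) ?_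
      have e' : x⁻¹ = (y - s) / l := by rw [e, inv_inv]
      exact e' ▸ main s hsU l hl (e' ▸ hinv x (hOA hx1) (hc x hx hu))
    · exact sub_mem (show _ ∈ mx h₂ from ⟨hP.le₂ (hO x hx1), fun e => hu ((hP.stb x hx1).1 e)⟩)
        ⟨hP.le₂ hx1, hu⟩
  rintro _ ⟨a, ha, b, hb, hu, rfl⟩
  exact (div_mx h₂ (hP.le₂ (hle ha).1) (hu.mono hP.le₂) ((hP.stb b hu.1).2 (hu.mono hP.le₂))
    (hle ha).2 (hle hb).2).2

end Pool.Agent.MP_19ffc6_ag.Perf.Fl
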