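import Mathlib.FieldTheory.Galois.Basic
import Mathlib.FieldTheory.IsAlgClosed.Basic
import Mathlib.RingTheory.Valuation.ValuationSubring
import Mathlib.RingTheory.Derivation.Basic
import Mathlib.RingTheory.Algebraic.Defs
import Mathlib.RingTheory.LocalRing.ResidueField.Basic
import Mathlib.RingTheory.Nakayama
import Mathlib.RingTheory.Localization.Submodule
import Mathlib.RingTheory.Adjoin.FG
import Mathlib.RingTheory.Jacobson.Ideal
import Mathlib.Algebra.Polynomial.Identities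
import Mathlib.RingTheory.Trace.Basic
import Mathlib.FieldTheory.Minpoly.MinpolyDiv
import Mathlib.FieldTheory.PrimitiveElement

-- ======== part 0: formerly Pool.Agent.MP_19ffc6_ag.perf.HrSpec
section MrgPart0

/-!
Henselian rationality in any rank over an algebraically closed base field `C`:
definitions and the statements of the modules.
-/

namespace Pool.Agent.MP_19ffc6_ag.Perf.Hr

open Polynomial IntermediateField

section Defs

variable {C Ω Γ M : Type} [Field C] [Field Ω] [Algebra C Ω] [LinearOrderedCommGroupWithZero Γ]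
  [Field M] [Algebra C M]

/-- the residue field of `w` is that of `C`, and it is infinite -/
structure Ctx (C : Type) [Field C] [Algebra C M] (w : Valuation M Γ) : Prop where
  res : ∀ x : M, w x ≤ 1 → ∃ c : C, w (x - algebraMap C M c) < 1
  inf : ∃ e : ℕ → C, (∀ i, w (algebraMap C M (e i)) ≤ 1) ∧
    ∀ i j, i ≠ j → w (algebraMap C M (e i - e j)) = 1

/-- the valuation induced along an embedding -/
def vm (v : Valuation Ω Γ) (φ : M →ₐ[C] Ω) : Valuation M Γ := v.comap (φ : M →+* Ω)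

@[simp] lemma vm_apply (v : Valuation Ω Γ) (φ : M →ₐ[C] Ω) (x : M) : vm v φ x = v (φ x) := rfl

lemma Ctx.vm {v : Valuation Ω Γ} (h : Ctx C v) (φ : M →ₐ[C] Ω) : Ctx C (vm v φ) where
  res x hx := by
    obtain ⟨c, hc⟩ := h.res (φ x) hx
    exact ⟨c, by simpa using hc⟩
  inf := by
    obtain ⟨e, h1, h2⟩ := h.inf
    exact ⟨e, fun i => by simpa using h1 i, fun i j hij => by
      rw [vm_apply, AlgHom.commutes]; exact h2 i j hij⟩

/-- restriction of an embedding to a subfield -/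
def dn (M : Type) [Field M] [Algebra C M] {M' : Type} [Field M'] [Algebra C M'] [Algebra M M']
    [IsScalarTower C M M'] (φ : M' →ₐ[C] Ω) : M →ₐ[C] Ω :=
  φ.comp (IsScalarTower.toAlgHom C M M')

@[simp] lemma dn_apply {M' : Type} [Field M'] [Algebra C M'] [Algebra M M']
    [IsScalarTower C M M'] (φ : M' →ₐ[C] Ω) (x : M) : dn M φ x = φ (algebraMap M M' x) := rfl

/-- `σ` and `φ` induce the same valuation ring -/
def Iso (v : Valuation Ω Γ) (φ σ : M →ₐ[C] Ω) : Prop := ∀ x, v (σ x) ≤ 1 ↔ v (φ x) ≤ 1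

/-- all conjugates of `b` over `E` are integral -/
def Ent (v : Valuation Ω Γ) (φ : M →ₐ[C] Ω) (E : IntermediateField C M) (b : M) : Prop :=
  ∀ σ : M →ₐ[C] Ω, (∀ e ∈ E, σ e = φ e) → v (σ b) ≤ 1

/-- `u` is a separating variable of the function field `M` -/
structure Fn (C : Type) [Field C] [Algebra C M] (u : M) : Prop where
  tr : Transcendental C u
  fin : FiniteDimensional C⟮u⟯ M
  sep : Algebra.IsSeparable C⟮u⟯ M

/-- `u` is a coordinate: `M` lies in the henselisation of `C(u)` -/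
structure Co (v : Valuation Ω Γ) (φ : M →ₐ[C] Ω) (u : M) : Prop where
  fn : Fn C u
  fix : ∀ σ : M →ₐ[C] Ω, σ u = φ u → Iso v φ σ → σ = φ

/-- value transcendental coordinate -/
def T3 (C : Type) [Field C] [Algebra C M] (w : Valuation M Γ) (u : M) : Prop :=
  ∀ c : C, w u ≠ w (algebraMap C M c)

/-- immediate extension -/
def T4 (C : Type) [Field C] [Algebra C M] (w : Valuation M Γ) : Prop :=
  ∀ x : M, ∃ c : C, w x = w (algebraMap C M c)

/-- coefficients in the valuation ring of `C(u)` -/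
def In (C : Type) [Field C] [Algebra C M] (w : Valuation M Γ) (u : M) (f : M[X]) : Prop :=
  ∀ i, f.coeff i ∈ C⟮u⟯ ∧ w (f.coeff i) ≤ 1

/-- standard etale presentation of the valuation ring of `M` over that of `C(u)` -/
structure Pres (C : Type) [Field C] [Algebra C M] (w : Valuation M Γ) (u η : M) (P : M[X]) :
    Prop where
  monic : P.Monic
  coe : In C w u P
  int : w η ≤ 1
  root : P.eval η = 0
  der : w (P.derivative.eval η) = 1
  gen : ∀ x : M, x ∈ C⟮u, η⟯
  min : ∀ Q : M[X], (∀ i, Q.coeff i ∈ C⟮u⟯) → Q.eval η = 0 → Q.degree < P.degree → Q = 0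
  loc : ∀ x : M, w x ≤ 1 → ∃ f g : M[X], In C w u f ∧ In C w u g ∧ w (g.eval η) = 1 ∧
    x * g.eval η = f.eval η
  imm : ∀ x : M, ∃ e ∈ C⟮u⟯, w x = w e

/-- closed under inverses of units and under simple roots -/
structure Cls (w : Valuation M Γ) (S : Subring M) : Prop where
  inv : ∀ x ∈ S, w x = 1 → x⁻¹ ∈ S
  root : ∀ (P : M[X]) (η : M), (∀ i, P.coeff i ∈ S) → P.eval η = 0 → w η ≤ 1 →
    w (P.derivative.eval η) = 1 → η ∈ S

/-- the operator `x ↦ s * D x` -/
def th (D : Derivation C M M) (s : M) : Module.End C M := (s • D : Derivation C M M).toLinearMap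

@[simp] lemma th_apply (D : Derivation C M M) (s x : M) : th D s x = s * D x := rfl

/-- projector onto the `p`-th powers along the span of `s, .., s ^ (p - 1)` (if `D s = 1`) -/
def Pj (p : ℕ) (D : Derivation C M M) (s : M) : Module.End C M := 1 - th D s ^ (p - 1)

/-- integral coefficients, one of them a unit -/
def Prim (w : Valuation M Γ) (f : C[X]) : Prop :=
  (∀ i, w (algebraMap C M (f.coeff i)) ≤ 1) ∧ ∃ i, w (algebraMap C M (f.coeff i)) = 1

/-- the constants of value at most one -/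
def Oc (C : Type) [Field C] [Algebra C M] (w : Valuation M Γ) : Subring C :=
  (w.comap (algebraMap C M)).integer

lemma mem_Oc {w : Valuation M Γ} {c : C} : c ∈ Oc C w ↔ w (algebraMap C M c) ≤ 1 := Iff.rfl

/-- the ring `R[t, η]` -/
def Rg (R : Subring C) (t η : M) : Subring M :=
  Subring.closure (algebraMap C M '' (R : Set C) ∪ {t, η})

/-- localisation at the centre of `w` -/
def Lc (w : Valuation M Γ) (S : Subring M) : Subring M where
  carrier := {x | ∃ g ∈ S, w g = 1 ∧ x * g ∈ S}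
  one_mem' := ⟨1, S.one_mem, map_one w, by simp⟩
  zero_mem' := ⟨1, S.one_mem, map_one w, by simp⟩
  mul_mem' := by
    rintro x y ⟨g, hg, h1, h2⟩ ⟨g', hg', h1', h2'⟩
    refine ⟨g * g', S.mul_mem hg hg', by rw [map_mul, h1, h1', one_mul], ?_⟩
    rw [mul_mul_mul_comm]; exact S.mul_mem h2 h2'
  add_mem' := by
    rintro x y ⟨g, hg, h1, h2⟩ ⟨g', hg', h1', h2'⟩
    refine ⟨g * g', S.mul_mem hg hg', by rw [map_mul, h1, h1', one_mul], ?_⟩
    have : (x + y) * (g * g') = x * g * g' + y * g' * g := by ring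
    rw [this]; exact S.add_mem (S.mul_mem h2 hg') (S.mul_mem h2' hg)
  neg_mem' := by
    rintro x ⟨g, hg, h1, h2⟩
    exact ⟨g, hg, h1, by rw [neg_mul]; exact S.neg_mem h2⟩

lemma mem_Lc {w : Valuation M Γ} {S : Subring M} {x : M} :
    x ∈ Lc w S ↔ ∃ g ∈ S, w g = 1 ∧ x * g ∈ S := Iff.rfl

/-- `C · B` -/
def Sat (C : Type) [Field C] [Algebra C M] (B : Subring M) : Set M :=
  {x | ∃ e : C, e ≠ 0 ∧ e • x ∈ B}

/-- `C · B` as a subalgebra -/
def satA (w : Valuation M Γ) (B : Subring M)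
    (hB : ∀ c : C, w (algebraMap C M c) ≤ 1 → algebraMap C M c ∈ B) : Subalgebra C M where
  carrier := Sat C B
  mul_mem' := by
    rintro x y ⟨e, he, h⟩ ⟨e', he', h'⟩
    exact ⟨e * e', mul_ne_zero he he', by rw [← smul_mul_smul_comm]; exact B.mul_mem h h'⟩
  add_mem' := by
    have key : ∀ {x y : M} {e e' : C}, e ≠ 0 → e' ≠ 0 → e • x ∈ B → e' • y ∈ B →
        w (algebraMap C M e) ≤ w (algebraMap C M e') → x + y ∈ Sat C B := by
      intro x y e e' he he' h h' hle
      have h0 : w (algebraMap C M e') ≠ 0 := by simpa using he'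
      have h1 : algebraMap C M (e / e') ∈ B := hB _ (by
        rw [map_div₀, map_div₀]; exact div_le_one_of_le₀ hle zero_le)
      refine ⟨e, he, ?_⟩
      have : e • (x + y) = e • x + algebraMap C M (e / e') * (e' • y) := by
        rw [← Algebra.smul_def, smul_smul, div_mul_cancel₀ _ he', smul_add]
      rw [this]; exact B.add_mem h (B.mul_mem h1 h')
    rintro x y ⟨e, he, h⟩ ⟨e', he', h'⟩
    rcases le_total (w (algebraMap C M e)) (w (algebraMap C M e')) with hle | hle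
    · exact key he he' h h' hle
    · rw [add_comm]; exact key he' he h' h hle
  algebraMap_mem' c := by
    rcases eq_or_ne c 0 with rfl | hc
    · exact ⟨1, one_ne_zero, by simp⟩
    · exact ⟨c⁻¹, inv_ne_zero hc, by
        rw [Algebra.smul_def, ← map_mul, inv_mul_cancel₀ hc, map_one]; exact B.one_mem⟩

lemma mem_satA {w : Valuation M Γ} {B : Subring M}
    {hB : ∀ c : C, w (algebraMap C M c) ≤ 1 → algebraMap C M c ∈ B} {x : M} :
    x ∈ satA w B hB ↔ x ∈ Sat C B := Iff.rfl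

/-- value of a polynomial in two variables -/
noncomputable def ev2 (t η : M) : C[X][X] →+* M := eval₂RingHom (aeval t : C[X] →ₐ[C] M).toRingHom η

/-- a standard etale chart over the disc with coordinate `t` -/
structure Ch (w : Valuation M Γ) (t η : M) (P : C[X][X]) : Prop where
  small : w t < 1
  int : w η ≤ 1
  monic : P.Monic
  coe : ∀ i j, w (algebraMap C M ((P.coeff i).coeff j)) ≤ 1
  root : ev2 t η P = 0
  der : w (ev2 t η (derivative P)) = 1
  min : ∀ Q : C[X][X], ev2 t η Q = 0 → P ∣ Q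

/-- what the immediate case uses of a chart of radius `ρ`; `B` = local ring, `A` = `C · B` -/
structure Disc (w : Valuation M Γ) (D : Derivation C M M) (u : M) (ρ : C) (B : Subring M)
    (A : Subalgebra C M) : Prop where
  ne : ρ ≠ 0
  pt : ∃ c : C, w (u - algebraMap C M c) < w (algebraMap C M ρ)
  le : ∀ b ∈ B, w b ≤ 1
  cst : ∀ c : C, w (algebraMap C M c) ≤ 1 → algebraMap C M c ∈ B
  crd : ∀ c : C, w (u - algebraMap C M c) < w (algebraMap C M ρ) →
    ρ⁻¹ • (u - algebraMap C M c) ∈ B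
  mem : ∀ x, x ∈ A ↔ x ∈ Sat C B
  der : ∀ b ∈ B, ρ • D b ∈ B
  ind : ∀ S : Subring M, Cls w S → (∀ c : C, w (algebraMap C M c) ≤ 1 → algebraMap C M c ∈ S) →
    (∀ c : C, w (u - algebraMap C M c) < w (algebraMap C M ρ) →
      ρ⁻¹ • (u - algebraMap C M c) ∈ S) → B ≤ S
  ev : ∀ c : C, w (u - algebraMap C M c) < w (algebraMap C M ρ) → ∃ ev : A →ₐ[C] C,
    (∀ x : A, (x : M) = u → ev x = c) ∧
      ∀ x : A, (x : M) ∈ B → w (algebraMap C M (ev x) - x) < 1
  cl : ∀ c : C, w (u - algebraMap C M c) < w (algebraMap C M ρ) → ∀ r : C, r ≠ 0 →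
    w (algebraMap C M r) < w (algebraMap C M ρ) → ∀ x ∈ A, x ≠ 0 →
    ∃ (μ π : C) (f : C[X]) (n : ℕ) (b : M), μ ≠ 0 ∧ w (algebraMap C M π) < 1 ∧ b ∈ B ∧ Prim w f ∧
      x = μ • (aeval (r⁻¹ • (u - algebraMap C M c)) f +
        π • ((r⁻¹ • (u - algebraMap C M c)) ^ n * b))

/-- the extension generated by `α` is not split -/
def NS (v : Valuation Ω Γ) (M : Type) [Field M] [Algebra C M] {M' : Type} [Field M'] [Algebra C M']
    [Algebra M M'] [IsScalarTower C M M'] (φ : M' →ₐ[C] Ω) (α : M') : Prop :=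
  ∃ σ : M' →ₐ[C] Ω, dn M σ = dn M φ ∧ Iso v φ σ ∧ σ α ≠ φ α

/-- two embeddings that agree on `M` and on a generator agree -/
lemma ext_gen {M' : Type} [Field M'] [Algebra C M'] [Algebra M M'] [IsScalarTower C M M']
    {φ σ : M' →ₐ[C] Ω} {α : M'} (hg : M⟮α⟯ = ⊤) (h : dn M σ = dn M φ) (ha : σ α = φ α) :
    σ = φ := by
  ext x
  have hx : x ∈ M⟮α⟯ := hg ▸ mem_top
  induction hx using IntermediateField.adjoin_induction with
  | mem x hx => rw [Set.mem_singleton_iff.1 hx]; exact ha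
  | algebraMap x => exact DFunLike.congr_fun h x
  | add x y _ _ hx hy => rw [map_add, map_add, hx, hy]
  | inv x _ hx => rw [map_inv₀, map_inv₀, hx]
  | mul x y _ _ hx hy => rw [map_mul, map_mul, hx, hy]

lemma Iso.dn {v : Valuation Ω Γ} {M' : Type} [Field M'] [Algebra C M'] [Algebra M M']
    [IsScalarTower C M M'] {φ σ : M' →ₐ[C] Ω} (h : Iso v φ σ) : Iso v (dn M φ) (dn M σ) :=
  fun x => h (algebraMap M M' x)

end Defs

section Stmts

variable (C : Type) {Ω Γ : Type} [Field C] [Field Ω] [Algebra C Ω]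
  [LinearOrderedCommGroupWithZero Γ] (v : Valuation Ω Γ) (p : ℕ)

/-- row BAS: valuation lemmas -/
structure Bas : Prop where
  tie : ∀ (M : Type) [Field M] [Algebra C M] (w : Valuation M Γ) (E : IntermediateField C M)
    (x : M), IsAlgebraic E x → ∃ n : ℕ, 0 < n ∧ ∃ e ∈ E, w x ^ n = w e
  iso_res : ∀ (M : Type) [Field M] [Algebra C M] (φ σ : M →ₐ[C] Ω), Iso v φ σ →
    ∀ x, v (φ x) ≤ 1 → v (σ x - φ x) < 1
  iso_val : ∀ (M : Type) [Field M] [Algebra C M] (φ σ : M →ₐ[C] Ω) (E : IntermediateField C M),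
    Iso v φ σ → (∀ e ∈ E, σ e = φ e) → ∀ x, IsAlgebraic E x → v (σ x) = v (φ x)
  t4_alg : ∀ (M M' : Type) [Field M] [Algebra C M] [Field M'] [Algebra C M'] [Algebra M M']
    [IsScalarTower C M M'] [Algebra.IsAlgebraic M M'] (φ : M' →ₐ[C] Ω),
    T4 C (vm v (dn M φ)) → T4 C (vm v φ)
  prim : ∀ (M : Type) [Field M] [Algebra C M] (w : Valuation M Γ), Ctx C w → ∀ f : C[X],
    Prim w f → ∃ τ : C, w (algebraMap C M τ) ≤ 1 ∧ w (algebraMap C M (f.eval τ)) = 1
  loc : ∀ (M : Type) [Field M] [Algebra C M] (φ : M →ₐ[C] Ω) (E : IntermediateField C M) (x : M),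
    IsAlgebraic E x → v (φ x) ≤ 1 → ∃ s, Ent v φ E s ∧ Ent v φ E (s * x) ∧ v (φ s) = 1
  sb : ∀ (M : Type) [Field M] [Algebra C M] (φ σ : M →ₐ[C] Ω) (E : IntermediateField C M),
    Algebra.IsAlgebraic E M → (∀ e ∈ E, σ e = φ e) → ¬ Iso v φ σ →
    ∃ b, Ent v φ E b ∧ v (φ b) = 1 ∧ v (σ b) < 1

/-- row DQ: difference quotients and small derivatives -/
structure Dq : Prop where
  dq : ∀ (M : Type) [Field M] [Algebra C M] (φ σ : M →ₐ[C] Ω) (D : Derivation C M M) (δ : Ω),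
    Iso v φ σ → δ ≠ 0 → v δ < 1 → ∃ S : Subring M, Cls (vm v φ) S ∧
      ∀ b, b ∈ S ↔ v (φ b) ≤ 1 ∧ v (φ (D b)) ≤ 1 ∧ v (σ b - φ b - δ * φ (D b)) < v δ
  dl : ∀ (M : Type) [Field M] [Algebra C M] (w : Valuation M Γ) (D : Derivation C M M),
    ∃ S : Subring M, Cls w S ∧ ∀ b, b ∈ S ↔ w b ≤ 1 ∧ w (D b) < 1
  pres : ∀ (M : Type) [Field M] [Algebra C M] (w : Valuation M Γ) (u η : M) (P : M[X])
    (S : Subring M), Pres C w u η P → Cls w S → (∀ x ∈ C⟮u⟯, w x ≤ 1 → x ∈ S) →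
    ∀ x, w x ≤ 1 → x ∈ S
  ext3 : ∀ (M : Type) [Field M] [Algebra C M] (w : Valuation M Γ) (u : M) (S : Subring M),
    T3 C w u → (∀ x ∈ S, w x = 1 → x⁻¹ ∈ S) →
    (∀ c : C, w (algebraMap C M c) ≤ 1 → algebraMap C M c ∈ S) →
    (∀ c : C, w (c • u) < 1 → c • u ∈ S) → (∀ c : C, w (c • u⁻¹) < 1 → c • u⁻¹ ∈ S) →
    ∀ x ∈ C⟮u⟯, w x ≤ 1 → x ∈ S
  val3 : ∀ (M : Type) [Field M] [Algebra C M] (w : Valuation M Γ) (u : M), T3 C w u →
    ∀ x ∈ C⟮u⟯, x ≠ 0 → ∃ (c : C) (n : ℤ), c ≠ 0 ∧ w x = w (c • u ^ n)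

/-- row DER: derivations and separability -/
structure Der : Prop where
  ex : ∀ (M : Type) [Field M] [Algebra C M] (u : M), Fn C u →
    ∃ D : Derivation C M M, D u = 1
  up : ∀ (M M' : Type) [Field M] [Algebra C M] [Field M'] [Algebra C M'] [Algebra M M']
    [IsScalarTower C M M'] [FiniteDimensional M M'] [Algebra.IsSeparable M M']
    (D : Derivation C M M),
    ∃ D' : Derivation C M' M', ∀ x, D' (algebraMap M M' x) = algebraMap M M' (D x)
  sep : ∀ (M M' : Type) [Field M] [Algebra C M] [Field M'] [Algebra C M'] [Algebra M M']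
    [IsScalarTower C M M'] [FiniteDimensional M M'] [Algebra.IsSeparable M M'] (u : M)
    (D' : Derivation C M' M') (z : M'), Fn C u → D' z ≠ 0 → Fn C z

/-- row ETV -/
def EtvStmt : Prop := ∀ (M : Type) [Field M] [Algebra C M] (φ : M →ₐ[C] Ω) (u : M),
  Co v φ u → ∃ η P, Pres C (vm v φ) u η P

/-- row XS: a finite dimensional space stable under all the Cartier type operators -/
def XsStmt : Prop := ∀ (M : Type) [Field M] [Algebra C M] (u : M) (D : Derivation C M M),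
  Fn C u → D u = 1 → ∀ a : M, ∃ (n : ℕ) (x : Fin n → M) (A : Fin n → Fin n → C[X])
    (b : Fin n → C[X]), ∀ c : C,
    Pj p D (u - algebraMap C M c) a = ∑ i, (b i).eval c • x i ^ p ∧
    ∀ j, Pj p D (u - algebraMap C M c) (x j) = ∑ i, (A i j).eval c • x i ^ p

/-- row SOL, first part -/
def SolStmt : Prop := ∀ (n : ℕ) (A : Fin n → Fin n → C) (b : Fin n → C),
  ∃ h : Fin n → C, ∀ i, h i ^ p = b i + ∑ j, A i j * h j

/-- row SOL, second part -/
def IntStmt : Prop := ∀ (R : Type) [CommRing R] (n : ℕ) (A : Fin n → Fin n → R) (b : Fin n → R)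
  (y0 : R) (y : Fin n → R), ∃ χ : R[X], χ.Monic ∧ ∀ (F : Type) [CommRing F] (g : R →+* F)
    (h : Fin n → F), (∀ i, h i ^ p = g (b i) + ∑ j, g (A i j) * h j) →
    χ.eval₂ g (g y0 + ∑ i, h i * g (y i)) = 0

/-- row CH: small charts in the immediate case -/
def ChStmt (Γ : Type) [LinearOrderedCommGroupWithZero Γ] : Prop :=
  ∀ (M : Type) [Field M] [Algebra C M] (w : Valuation M Γ) (u η : M)
  (P : M[X]), Ctx C w → Transcendental C u → Pres C w u η P → T4 C w → ∀ F : Finset M,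
  ∃ (c ρ : C) (η' : M) (P' : C[X][X]), ρ ≠ 0 ∧ Ch w (ρ⁻¹ • (u - algebraMap C M c)) η' P' ∧
    ∀ f ∈ F, w f ≤ 1 → f ∈ Lc w (Rg (Oc C w) (ρ⁻¹ • (u - algebraMap C M c)) η')

/-- row EV: evaluation at a point `τ` of the open disc; `e` is the value of `η` -/
def EvStmt (Γ : Type) [LinearOrderedCommGroupWithZero Γ] : Prop :=
  ∀ (M : Type) [Field M] [Algebra C M] (w : Valuation M Γ) (t η : M)
  (P : C[X][X]) (A : Subalgebra C M) (τ : C), Ch w t η P →
  (∀ x, x ∈ A ↔ x ∈ Sat C (Lc w (Rg (Oc C w) t η))) → w (algebraMap C M τ) < 1 →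
  ∃ (ev : A →ₐ[C] C) (e : C), w (algebraMap C M e) ≤ 1 ∧ (∀ x : A, (x : M) = t → ev x = τ) ∧
    ∀ R : Subring C, R ≤ Oc C w → τ ∈ R → e ∈ R → (∀ i j, (P.coeff i).coeff j ∈ R) →
      ∀ x : A, (x : M) ∈ Lc w (Rg R t η) → algebraMap C M (ev x) ∈ Lc w (Rg R t η) ∧
        ∃ x1 ∈ Lc w (Rg R t η), (x : M) = algebraMap C M (ev x) + (t - algebraMap C M τ) * x1

/-- row CL: the content lemma on the closed disc of radius `ε` round `τ` -/
def ClStmt (Γ : Type) [LinearOrderedCommGroupWithZero Γ] : Prop :=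
  ∀ (M : Type) [Field M] [Algebra C M] (w : Valuation M Γ) (t η : M)
  (P : C[X][X]) (τ ε : C), Ch w t η P → w (algebraMap C M τ) < 1 → ε ≠ 0 →
  w (algebraMap C M ε) < 1 → ∀ x ∈ Lc w (Rg (Oc C w) t η), x ≠ 0 →
  ∃ (μ π : C) (f : C[X]) (n : ℕ) (b : M), μ ≠ 0 ∧ w (algebraMap C M π) < 1 ∧
    b ∈ Lc w (Rg (Oc C w) t η) ∧ Prim w f ∧
    x = μ • (aeval (ε⁻¹ • (t - algebraMap C M τ)) f +
      π • ((ε⁻¹ • (t - algebraMap C M τ)) ^ n * b))

/-- row CH, second part -/
def DiscStmt (Γ : Type) [LinearOrderedCommGroupWithZero Γ] : Prop :=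
  ∀ (M : Type) [Field M] [Algebra C M] (w : Valuation M Γ) (u η : M)
  (P : M[X]) (D : Derivation C M M), Ctx C w → Transcendental C u → Pres C w u η P → T4 C w →
  D u = 1 → ∀ F : Finset M, ∃ (ρ : C) (B : Subring M) (A : Subalgebra C M), Disc w D u ρ B A ∧
    ∀ f ∈ F, f ≠ 0 → ∃ e : C, e ≠ 0 ∧ e • f ∈ B ∧ w (e • f) = 1

/-- row T3: Kummer step, value transcendental case -/
def K3Stmt : Prop := ∀ (M M' : Type) [Field M] [Algebra C M] [Field M'] [Algebra C M']
  [Algebra M M'] [IsScalarTower C M M'] [FiniteDimensional M M'] [Algebra.IsSeparable M M']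
  (φ : M' →ₐ[C] Ω) (u a : M) (α : M') (l : ℕ), Co v (dn M φ) u → T3 C (vm v (dn M φ)) u →
  l.Prime → (l : C) ≠ 0 → α ^ l = algebraMap M M' a → M⟮α⟯ = ⊤ → NS v M φ α →
  ∃ u' : M', Co v φ u' ∧ T3 C (vm v φ) u'

/-- row T3: no Kummer step in the immediate case -/
def K4Stmt : Prop := ∀ (M M' : Type) [Field M] [Algebra C M] [Field M'] [Algebra C M']
  [Algebra M M'] [IsScalarTower C M M'] (φ : M' →ₐ[C] Ω) (a : M) (α : M') (l : ℕ),
  T4 C (vm v (dn M φ)) → (l : C) ≠ 0 → α ^ l = algebraMap M M' a → ¬ NS v M φ α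

/-- row T3: Artin-Schreier step, value transcendental case -/
def A3Stmt : Prop := ∀ (M M' : Type) [Field M] [Algebra C M] [Field M'] [Algebra C M']
  [Algebra M M'] [IsScalarTower C M M'] [FiniteDimensional M M'] [Algebra.IsSeparable M M']
  (φ : M' →ₐ[C] Ω) (u a : M) (α : M'), Co v (dn M φ) u → T3 C (vm v (dn M φ)) u →
  α ^ p - α = algebraMap M M' a → M⟮α⟯ = ⊤ → NS v M φ α →
  ∃ u' : M', Co v φ u' ∧ T3 C (vm v φ) u'

/-- row T4: Artin-Schreier step, immediate case -/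
def A4Stmt : Prop := ∀ (M M' : Type) [Field M] [Algebra C M] [Field M'] [Algebra C M']
  [Algebra M M'] [IsScalarTower C M M'] [FiniteDimensional M M'] [Algebra.IsSeparable M M']
  (φ : M' →ₐ[C] Ω) (u a : M) (α : M'), Co v (dn M φ) u → T4 C (vm v (dn M φ)) →
  α ^ p - α = algebraMap M M' a → M⟮α⟯ = ⊤ → NS v M φ α → ∃ u' : M', Co v φ u'

/-- row TOWER: henselian rationality -/
def TowStmt : Prop := ∀ (E N : Type) [Field E] [Algebra C E] [Field N] [Algebra C N] [Algebra E N]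
  [IsScalarTower C E N] [FiniteDimensional E N] [IsGalois E N] (φ : N →ₐ[C] Ω) (y : E),
  Transcendental C y → C⟮y⟯ = ⊤ →
  ∃ u : N, Co v φ u ∧ (T3 C (vm v φ) u ∨ T4 C (vm v φ))

end Stmts

end Pool.Agent.MP_19ffc6_ag.Perf.Hr

end MrgPart0

-- ======== part 1: formerly Pool.Agent.MP_19ffc6_ag.perf.HrBas
section MrgPart1

/-! PERF, block HR, row BAS: valuation lemmas. -/

namespace Pool.Agent.MP_19ffc6_ag.Perf.Hr

open Polynomial IntermediateField

namespace BasH

variable {C Ω Γ M : Type} [Field C] [Field Ω] [Algebra C Ω] [LinearOrderedCommGroupWithZero Γ]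
  [Field M] [Algebra C M] {v : Valuation Ω Γ}

theorem tie_aux (w : Valuation M Γ) {x a b : M} {i j : ℕ} (hx : x ≠ 0) (hb : b ≠ 0) (hij : i < j)
    (h : w (a * x ^ i) = w (b * x ^ j)) : w x ^ (j - i) = w (a / b) := by
  have h1 : w x ^ i ≠ 0 := pow_ne_zero _ (by simpa using hx)
  have h2 : w b ≠ 0 := by simpa using hb
  rw [map_mul, map_mul, map_pow, map_pow, ← Nat.sub_add_cancel hij.le, pow_add, ← mul_assoc] at h
  rw [map_div₀, eq_div_iff h2, mul_right_cancel₀ h1 h, mul_comm]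

theorem tie {E : Type} [Field E] [Algebra E M] (w : Valuation M Γ) {x : M}
    (hx : IsAlgebraic E x) : ∃ n : ℕ, 0 < n ∧ ∃ e : E, w x ^ n = w (algebraMap E M e) := by
  classical
  rcases eq_or_ne x 0 with rfl | h0
  · exact ⟨1, one_pos, 0, by simp⟩
  obtain ⟨p, hp, hpx⟩ := hx
  have hne : ∀ i ∈ p.support, algebraMap E M (p.coeff i) ≠ 0 := fun i hi => by
    simpa using hi
  obtain ⟨j, hj, hmax⟩ := p.support.exists_max_image
    (fun i => w (algebraMap E M (p.coeff i) * x ^ i)) (support_nonempty.2 hp)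
  have hs : ∑ i ∈ p.support, algebraMap E M (p.coeff i) * x ^ i = 0 := by
    rw [aeval_def, eval₂_eq_sum, Polynomial.sum_def] at hpx
    exact hpx
  obtain ⟨i, hi, hlt⟩ : ∃ i ∈ p.support \ {j}, ¬ w (algebraMap E M (p.coeff i) * x ^ i) <
      w (algebraMap E M (p.coeff j) * x ^ j) := by
    by_contra hn
    push Not at hn
    have := w.map_sum_eq_of_lt (f := fun i => algebraMap E M (p.coeff i) * x ^ i) hj hn
    rw [hs, map_zero] at this
    exact mul_ne_zero (hne j hj) (pow_ne_zero _ h0) (by simpa using this.symm)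
  obtain ⟨hi1, hi2⟩ := Finset.mem_sdiff.1 hi
  have he := le_antisymm (hmax i hi1) (not_lt.1 hlt)
  rcases lt_or_gt_of_ne (Finset.notMem_singleton.1 hi2) with h | h
  · exact ⟨j - i, Nat.sub_pos_of_lt h, p.coeff i / p.coeff j, by
      rw [map_div₀]; exact tie_aux w h0 (hne j hj) h he⟩
  · exact ⟨i - j, Nat.sub_pos_of_lt h, p.coeff j / p.coeff i, by
      rw [map_div₀]; exact tie_aux w h0 (hne i hi1) h he.symm⟩

theorem iso_lt {φ σ : M →ₐ[C] Ω} (h : Iso v φ σ) {y : M} (hy : v (φ y) < 1) : v (σ y) < 1 := by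
  rcases eq_or_ne y 0 with rfl | h0
  · simp
  by_contra hn
  have h1 : v (σ y⁻¹) ≤ 1 := by
    rw [map_inv₀, map_inv₀]
    exact inv_le_one_of_one_le₀ (not_lt.1 hn)
  have h2 := (h _).1 h1
  have h3 : 0 < v (φ y) := zero_lt_iff.2 (by simpa using h0)
  rw [map_inv₀, map_inv₀, inv_le_one₀ h3] at h2
  exact absurd hy (not_lt.2 h2)

theorem iso_one {φ σ : M →ₐ[C] Ω} (h : Iso v φ σ) {y : M} (hy : v (φ y) = 1) : v (σ y) = 1 :=
  le_antisymm ((h y).2 hy.le) (not_lt.1 fun hn =>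
    (iso_lt (φ := σ) (σ := φ) (fun x => (h x).symm) hn).ne hy)

theorem iso_res (hc : Ctx C v) {φ σ : M →ₐ[C] Ω} (h : Iso v φ σ) (x : M) (hx : v (φ x) ≤ 1) :
    v (σ x - φ x) < 1 := by
  obtain ⟨c, h1⟩ := hc.res _ hx
  have h2 : v (φ (x - algebraMap C M c)) < 1 := by rwa [map_sub, AlgHom.commutes]
  have h3 := iso_lt h h2
  rw [map_sub, AlgHom.commutes] at h3
  have : σ x - φ x = (σ x - algebraMap C Ω c) - (φ x - algebraMap C Ω c) := by ring
  rw [this]
  exact v.map_sub_lt h3 h1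

theorem tie' (φ : M →ₐ[C] Ω) (E : IntermediateField C M) {x : M} (hx : IsAlgebraic E x)
    (h0 : x ≠ 0) : ∃ n : ℕ, 0 < n ∧ ∃ e ∈ E, v (φ x) ^ n = v (φ e) ∧ v (φ e) ≠ 0 ∧
      v (φ (x ^ n / e)) = 1 := by
  obtain ⟨n, hn, e, he⟩ := tie (vm v φ) hx
  have he' : v (φ x) ^ n = v (φ e) := he
  have h1 : v (φ e) ≠ 0 := he' ▸ pow_ne_zero _ (by simpa using h0)
  exact ⟨n, hn, e, e.2, he', h1, by rw [map_div₀, map_div₀, map_pow, map_pow, he', div_self h1]⟩

theorem iso_val {φ σ : M →ₐ[C] Ω} (E : IntermediateField C M) (h : Iso v φ σ)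
    (hE : ∀ e ∈ E, σ e = φ e) (x : M) (hx : IsAlgebraic E x) : v (σ x) = v (φ x) := by
  rcases eq_or_ne x 0 with rfl | h0
  · simp
  obtain ⟨n, hn, e, he, h1, h2, h3⟩ := tie' (v := v) φ E hx h0
  have h4 := iso_one h h3
  rw [map_div₀, map_div₀, map_pow, map_pow, hE e he, div_eq_one_iff_eq h2, ← h1] at h4
  exact (pow_left_inj₀ zero_le zero_le hn.ne').1 h4

theorem prim (w : Valuation M Γ) (hc : Ctx C w) (f : C[X]) (hf : Prim w f) :
    ∃ τ : C, w (algebraMap C M τ) ≤ 1 ∧ w (algebraMap C M (f.eval τ)) = 1 := by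
  let u : Valuation C Γ := w.comap (algebraMap C M)
  let O := u.valuationSubring
  have hO : ∀ a : O, IsLocalRing.residue O a = 0 ↔ w (algebraMap C M a) < 1 := fun a => by
    rw [IsLocalRing.residue_eq_zero_iff]
    exact u.mem_maximalIdeal_iff
  obtain ⟨g, hg⟩ : f ∈ lifts O.subtype :=
    (lifts_iff_coeff_lifts f).2 fun i => ⟨⟨f.coeff i, hf.1 i⟩, rfl⟩
  rw [coe_mapRingHom] at hg
  obtain ⟨e, e1, e2⟩ := hc.inf
  let e' : ℕ → O := fun i => ⟨e i, e1 i⟩
  have hinj : Function.Injective fun i => IsLocalRing.residue O (e' i) := fun i j hij => by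
    by_contra hn
    have h1 : IsLocalRing.residue O (e' i - e' j) = 0 := by rw [map_sub]; exact sub_eq_zero.2 hij
    exact ((hO _).1 h1).ne (e2 i j hn)
  have hne : g.map (IsLocalRing.residue O) ≠ 0 := fun h0 => by
    obtain ⟨i, hi⟩ := hf.2
    have h1 : IsLocalRing.residue O (g.coeff i) = 0 := by rw [← coeff_map, h0, coeff_zero]
    refine ((hO _).1 h1).ne ?_
    rw [← hg, coeff_map] at hi
    exact hi
  obtain ⟨i, hi⟩ : ∃ i, ¬ IsRoot (g.map (IsLocalRing.residue O)) (IsLocalRing.residue O (e' i)) := by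
    by_contra hn
    push Not at hn
    exact hne (eq_zero_of_infinite_isRoot _ (Set.infinite_of_injective_forall_mem hinj hn))
  have h2 : f.eval (e i) = (g.eval (e' i) : O) := by
    rw [← hg]
    exact eval_map_apply (p := g) O.subtype (e' i)
  rw [IsRoot.def, eval_map_apply, hO] at hi
  exact ⟨e i, e1 i, by rw [h2]; exact le_antisymm (g.eval (e' i)).2 (not_lt.1 hi)⟩

theorem loc (φ : M →ₐ[C] Ω) (E : IntermediateField C M) (x : M) (hx : IsAlgebraic E x)
    (h1 : v (φ x) ≤ 1) : ∃ s, Ent v φ E s ∧ Ent v φ E (s * x) ∧ v (φ s) = 1 := by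
  classical
  obtain ⟨p, hp, hpx⟩ := hx
  obtain ⟨m, hm, hmax⟩ := p.support.exists_max_image (fun i => v (φ (p.coeff i)))
    (support_nonempty.2 hp)
  have hm0 : 0 < v (φ (p.coeff m)) := zero_lt_iff.2 (by simpa using hm)
  let a : ℕ → M := fun i => ((p.coeff i / p.coeff m : E) : M)
  have aE : ∀ i, a i ∈ E := fun i => SetLike.coe_mem _
  have av : ∀ i, v (φ (a i)) = v (φ (p.coeff i)) / v (φ (p.coeff m)) := fun i => by
    simp [a]
  have a1 : ∀ i, v (φ (a i)) ≤ 1 := fun i => by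
    rw [av, div_le_one₀ hm0]
    by_cases hi : i ∈ p.support
    · exact hmax i hi
    · simp [notMem_support_iff.1 hi]
  have hmN : m < p.natDegree + 1 := Nat.lt_succ_of_le (le_natDegree_of_mem_supp m hm)
  have hs : ∑ i ∈ Finset.range (p.natDegree + 1), a i * x ^ i = 0 := by
    rw [aeval_eq_sum_range] at hpx
    have : ∀ i, a i * x ^ i = (p.coeff i • x ^ i) / (p.coeff m : M) := fun i => by
      simp only [a, Algebra.smul_def]
      push_cast
      rw [div_mul_eq_mul_div]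
      rfl
    simp only [this, div_eq_mul_inv]
    rw [← Finset.sum_mul, hpx, zero_mul]
  obtain ⟨j, hj, hjm⟩ := ((Finset.range (p.natDegree + 1)).filter
    fun i => v (φ (a i)) = 1).exists_max_image id
    ⟨m, Finset.mem_filter.2 ⟨Finset.mem_range.2 hmN, by rw [av, div_self hm0.ne']⟩⟩
  obtain ⟨hj1, hj2⟩ := Finset.mem_filter.1 hj
  obtain ⟨k, hk⟩ := Nat.exists_eq_add_of_lt (Finset.mem_range.1 hj1)
  rw [hk, add_assoc, Finset.sum_range_add] at hs
  set s := ∑ i ∈ Finset.range (k + 1), a (j + i) * x ^ i with hsd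
  have h2 : s * x * x ^ j = -∑ i ∈ Finset.range j, a i * x ^ (i + 1) := by
    have e1 : s * x ^ j = ∑ i ∈ Finset.range (k + 1), a (j + i) * x ^ (j + i) := by
      rw [hsd, Finset.sum_mul]
      exact Finset.sum_congr rfl fun i _ => by ring
    have e2 : ∑ i ∈ Finset.range j, a i * x ^ (i + 1) =
        (∑ i ∈ Finset.range j, a i * x ^ i) * x := by
      rw [Finset.sum_mul]
      exact Finset.sum_congr rfl fun i _ => by ring
    rw [← e1] at hs
    rw [e2]
    linear_combination x * hs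
  have key : ∀ σ : M →ₐ[C] Ω, (∀ e ∈ E, σ e = φ e) → v (σ s) ≤ 1 ∧ v (σ (s * x)) ≤ 1 := by
    intro σ hσ
    rcases le_or_gt (v (σ x)) 1 with h | h
    · have h3 : v (σ s) ≤ 1 := by
        rw [hsd, map_sum]
        refine v.map_sum_le fun i _ => ?_
        rw [map_mul, map_mul, map_pow, map_pow, hσ _ (aE _)]
        exact mul_le_one' (a1 _) (pow_le_one' h _)
      exact ⟨h3, by rw [map_mul, map_mul]; exact mul_le_one' h3 h⟩
    · have h3 : v (σ (s * x)) * v (σ x) ^ j ≤ 1 * v (σ x) ^ j := by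
        rw [← map_pow, ← map_mul, ← map_pow, ← map_mul, h2, map_neg, Valuation.map_neg, map_sum,
          one_mul]
        refine v.map_sum_le fun i hi => ?_
        rw [map_mul, map_mul, map_pow, map_pow, map_pow, map_pow, hσ _ (aE _)]
        exact (mul_le_of_le_one_left' (a1 _)).trans
          (pow_le_pow_right₀ h.le (Finset.mem_range.1 hi))
      have h4 := le_of_mul_le_mul_right h3 (pow_pos (zero_lt_one.trans h) j)
      refine ⟨le_trans ?_ h4, h4⟩
      rw [map_mul, map_mul]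
      exact le_mul_of_one_le_right' h.le
  refine ⟨s, fun σ hσ => (key σ hσ).1, fun σ hσ => (key σ hσ).2, ?_⟩
  rw [hsd, Finset.sum_range_succ', map_add, pow_zero, mul_one, add_zero, ← hj2]
  refine v.map_add_eq_of_lt_right ?_
  rw [hj2, map_sum]
  refine v.map_sum_lt one_ne_zero fun i hi => ?_
  rw [map_mul, map_mul, map_pow, map_pow]
  refine (mul_le_of_le_one_right' (pow_le_one' h1 _)).trans_lt (lt_of_le_of_ne (a1 _) fun h => ?_)
  have := hjm (j + (i + 1)) (Finset.mem_filter.2 ⟨Finset.mem_range.2 (by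
    have := Finset.mem_range.1 hi
    omega), h⟩)
  simp only [id] at this
  omega

theorem sb (φ σ : M →ₐ[C] Ω) (E : IntermediateField C M) (hE : Algebra.IsAlgebraic E M)
    (hσ : ∀ e ∈ E, σ e = φ e) (hn : ¬ Iso v φ σ) :
    ∃ b, Ent v φ E b ∧ v (φ b) = 1 ∧ v (σ b) < 1 := by
  by_contra hb
  push Not at hb
  have h1 : ∀ x, v (φ x) ≤ 1 → v (σ x) ≤ 1 := fun x hx => by
    obtain ⟨s, s1, s2, s3⟩ := loc φ E x (hE.isAlgebraic x) hx
    have := s2 σ hσ
    rw [map_mul, map_mul] at this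
    exact (le_mul_of_one_le_left' (hb s s1 s3)).trans this
  refine hn fun x => ⟨fun hx => ?_, h1 x⟩
  by_contra hc
  have h2 : 1 < v (φ x) := not_le.1 hc
  have h0 : x ≠ 0 := fun h => by simp [h] at h2
  obtain ⟨n, hn, e, he, h3, h4, h5⟩ := tie' (v := v) φ E (hE.isAlgebraic x⁻¹) (inv_ne_zero h0)
  have h6 := h1 _ h5.le
  rw [map_div₀, map_div₀, map_pow, map_pow, hσ e he, div_le_one₀ (zero_lt_iff.2 h4), ← h3] at h6
  have h7 := (pow_le_pow_iff_left₀ zero_le zero_le hn.ne').1 h6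
  rw [map_inv₀, map_inv₀, map_inv₀, map_inv₀,
    inv_le_inv₀ (zero_lt_iff.2 (by simpa using h0)) (zero_lt_one.trans h2)] at h7
  exact hc (h7.trans hx)

end BasH

variable {C Ω Γ : Type} [Field C] [Field Ω] [Algebra C Ω] [LinearOrderedCommGroupWithZero Γ]
  [IsAlgClosed C] {v : Valuation Ω Γ}

theorem bas (h : Ctx C v) : Bas C v where
  tie M _ _ w E x hx := by
    obtain ⟨n, hn, e, he⟩ := BasH.tie w hx
    exact ⟨n, hn, e, e.2, he⟩
  iso_res M _ _ φ σ hi x hx := BasH.iso_res h hi x hx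
  iso_val M _ _ φ σ E hi hE x hx := BasH.iso_val E hi hE x hx
  t4_alg M M' _ _ _ _ _ _ hA φ h4 x := by
    obtain ⟨n, hn, e, he⟩ := BasH.tie (vm v φ) (hA.isAlgebraic x)
    obtain ⟨c, hc⟩ := h4 e
    obtain ⟨c1, rfl⟩ := IsAlgClosed.exists_pow_nat_eq c hn
    refine ⟨c1, (pow_left_inj₀ zero_le zero_le hn.ne').1 (he.trans (hc.trans ?_))⟩
    rw [vm_apply, vm_apply, AlgHom.commutes, AlgHom.commutes, map_pow, map_pow]
  prim M _ _ w hc f hf := BasH.prim w hc f hf
  loc M _ _ φ E x hx h1 := BasH.loc φ E x hx h1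
  sb M _ _ φ σ E hE hσ hn := BasH.sb φ σ E hE hσ hn

end Pool.Agent.MP_19ffc6_ag.Perf.Hr

end MrgPart1

-- ======== part 2: formerly Pool.Agent.MP_19ffc6_ag.perf.HrCl
section MrgPart2

/-! Row CL: the content lemma on a closed disc. -/

namespace Pool.Agent.MP_19ffc6_ag.Perf.Hr

open Polynomial

namespace Cl

/-- an expansion in powers of `s` ends in the ideal of its coefficients -/
theorem nak {B : Type} [CommRing B] [IsNoetherianRing B] (s : B) (hs : ∀ y, IsUnit (s * y + 1))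
    (x b : ℕ → B) (h : ∀ i, x i = b i + s * x (i + 1)) :
    ∃ (n : ℕ) (β : Fin (n + 1) → B),
      x 0 = ∑ i : Fin (n + 1), b i * s ^ (i : ℕ) + s ^ (n + 1) * ∑ i, β i * b i := by
  have tel : ∀ k, x 0 = ∑ i ∈ Finset.range k, b i * s ^ i + s ^ k * x k := fun k => by
    induction k with
    | zero => simp
    | succ k ih => rw [ih, Finset.sum_range_succ, h k]; ring
  let I : ℕ →o Ideal B := ⟨fun n => Ideal.span (Set.range fun i : Fin (n + 1) => x i),
    fun n m hnm => Ideal.span_mono (by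
      rintro _ ⟨i, rfl⟩
      exact ⟨⟨i, by omega⟩, rfl⟩)⟩
  obtain ⟨n, hn⟩ := monotone_stabilizes_iff_noetherian.2 (inferInstance : IsNoetherian B B) I
  have hx : ∀ i ≤ n + 1, x i ∈ I n := fun i hi => by
    rw [hn (n + 1) (Nat.le_succ n)]
    exact Ideal.subset_span ⟨⟨i, by omega⟩, rfl⟩
  have key : I n ≤ Ideal.span (Set.range fun i : Fin (n + 1) => b i) := by
    refine Submodule.le_of_le_smul_of_le_jacobson_bot (I := Ideal.span {s})
      (IsNoetherian.noetherian _) ?_ ?_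
    · rw [Ideal.span_le, Set.singleton_subset_iff]
      exact Ideal.mem_jacobson_bot.2 hs
    · refine Ideal.span_le.2 ?_
      rintro _ ⟨i, rfl⟩
      beta_reduce
      rw [h i]
      exact Submodule.add_mem_sup (Ideal.subset_span ⟨i, rfl⟩)
        (Submodule.smul_mem_smul (Ideal.subset_span rfl) (hx _ (by omega)))
  obtain ⟨β, hβ⟩ := Ideal.mem_span_range_iff_exists_fun.1 (key (hx _ le_rfl))
  exact ⟨n, β, by rw [hβ, tel (n + 1), Finset.sum_range]⟩

variable {C Γ M : Type} [Field C] [LinearOrderedCommGroupWithZero Γ] [Field M] [Algebra C M]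
  {w : Valuation M Γ} {t η : M}

theorem le_Lc (S : Subring M) : S ≤ Lc w S := fun x hx =>
  ⟨1, S.one_mem, map_one w, by rwa [mul_one]⟩

theorem Lc_mono {S S' : Subring M} (h : S ≤ S') : Lc w S ≤ Lc w S' :=
  fun _ ⟨g, hg, h1, h2⟩ => ⟨g, h hg, h1, h h2⟩

theorem Rg_mono {R R' : Subring C} (h : R ≤ R') : Rg R t η ≤ Rg R' t η :=
  Subring.closure_mono (Set.union_subset_union_left _ (Set.image_mono h))

theorem cst_mem {R : Subring C} {c : C} (h : c ∈ R) : algebraMap C M c ∈ Rg R t η :=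
  Subring.subset_closure (Or.inl ⟨c, h, rfl⟩)

theorem t_mem (R : Subring C) : t ∈ Rg R t η := Subring.subset_closure (Or.inr (Or.inl rfl))

theorem Rg_le {R : Subring C} (hR : R ≤ Oc C w) (ht : w t ≤ 1) (hη : w η ≤ 1) :
    Rg R t η ≤ w.integer := by
  refine Subring.closure_le.2 ?_
  rintro _ (⟨c, hc, rfl⟩ | rfl | rfl)
  exacts [hR hc, ht, hη]

theorem Lc_le {S : Subring M} (h : S ≤ w.integer) {x : M} (hx : x ∈ Lc w S) : w x ≤ 1 := by
  obtain ⟨g, -, h1, h2⟩ := hx
  have : w (x * g) ≤ 1 := h h2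
  rwa [map_mul, h1, mul_one] at this

theorem inv_mem {S : Subring M} {x : M} (hx : x ∈ Lc w S) (h : w x = 1) : x⁻¹ ∈ Lc w S := by
  obtain ⟨g, hg, h1, h2⟩ := hx
  have h0 : x ≠ 0 := fun h0 => by simp [h0] at h
  exact ⟨x * g, h2, by rw [map_mul, h, h1, one_mul], by rwa [inv_mul_cancel_left₀ h0]⟩

theorem unit {S : Subring M} (x : Lc w S) (h : w x = 1) : IsUnit x := by
  have h0 : (x : M) ≠ 0 := fun h0 => by simp [h0] at h
  exact IsUnit.of_mul_eq_one ⟨_, inv_mem x.2 h⟩ (Subtype.ext (mul_inv_cancel₀ h0))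

theorem noeth_Lc (S : Subring M) (h : IsNoetherianRing S) : IsNoetherianRing (Lc w S) := by
  let _ : Algebra S (Lc w S) := (Subring.inclusion (le_Lc S)).toAlgebra
  let U : Submonoid S :=
    { carrier := {g | w g = 1}
      one_mem' := map_one w
      mul_mem' := fun {a b} ha hb => by
        change w ((a : M) * b) = 1
        rw [map_mul, ha, hb, one_mul] }
  have : IsLocalization U (Lc w S) :=
    { map_units := fun y => unit _ y.2
      surj := fun z => by
        obtain ⟨g, hg, h1, h2⟩ := z.2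
        exact ⟨(⟨_, h2⟩, ⟨⟨g, hg⟩, h1⟩), rfl⟩
      exists_of_eq := fun {a b} hab => ⟨1, by
        have : (a : M) = b := congrArg (fun z : Lc w S => (z : M)) hab
        rw [Subtype.ext this]⟩ }
  exact IsLocalization.isNoetherianRing U _ h

theorem noeth_Rg {F : Set C} (hF : F.Finite) (t η : M) :
    IsNoetherianRing (Rg (Subring.closure F) t η) := by
  have : Rg (Subring.closure F) t η = Subring.closure (algebraMap C M '' F ∪ {t, η}) := by
    refine le_antisymm (Subring.closure_le.2 (Set.union_subset ?_ ?_)) (Subring.closure_mono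
      (Set.union_subset_union_left _ (Set.image_mono Subring.subset_closure)))
    · rw [← Subring.coe_map, RingHom.map_closure]
      exact Subring.closure_mono Set.subset_union_left
    · exact Set.subset_union_right.trans Subring.subset_closure
  rw [this]
  exact is_noetherian_subring_closure _ ((hF.image _).union (Set.toFinite _))

theorem fin_Rg {R : Subring C} {z : M} (hz : z ∈ Rg R t η) :
    ∃ F : Set C, F.Finite ∧ F ⊆ R ∧ z ∈ Rg (Subring.closure F) t η := by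
  have two : ∀ {x y : M}, (∃ F : Set C, F.Finite ∧ F ⊆ R ∧ x ∈ Rg (Subring.closure F) t η) →
      (∃ F : Set C, F.Finite ∧ F ⊆ R ∧ y ∈ Rg (Subring.closure F) t η) →
      ∃ F : Set C, F.Finite ∧ F ⊆ R ∧ x ∈ Rg (Subring.closure F) t η ∧
        y ∈ Rg (Subring.closure F) t η := by
    rintro x y ⟨F, f1, f2, f3⟩ ⟨G, g1, g2, g3⟩
    exact ⟨F ∪ G, f1.union g1, Set.union_subset f2 g2,
      Rg_mono (Subring.closure_mono Set.subset_union_left) f3,
      Rg_mono (Subring.closure_mono Set.subset_union_right) g3⟩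
  induction hz using Subring.closure_induction with
  | mem x hx =>
    rcases hx with ⟨c, hc, rfl⟩ | hx
    · exact ⟨{c}, Set.finite_singleton c, Set.singleton_subset_iff.2 hc,
        cst_mem (Subring.subset_closure rfl)⟩
    · exact ⟨∅, Set.finite_empty, Set.empty_subset _, Subring.subset_closure (Or.inr hx)⟩
  | zero => exact ⟨∅, Set.finite_empty, Set.empty_subset _, zero_mem _⟩
  | one => exact ⟨∅, Set.finite_empty, Set.empty_subset _, one_mem _⟩
  | add x y _ _ hx hy =>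
    obtain ⟨F, f1, f2, f3, f4⟩ := two hx hy
    exact ⟨F, f1, f2, add_mem f3 f4⟩
  | neg x _ hx =>
    obtain ⟨F, f1, f2, f3⟩ := hx
    exact ⟨F, f1, f2, neg_mem f3⟩
  | mul x y _ _ hx hy =>
    obtain ⟨F, f1, f2, f3, f4⟩ := two hx hy
    exact ⟨F, f1, f2, mul_mem f3 f4⟩

theorem fin_coe (P : C[X][X]) : (Set.range fun q : ℕ × ℕ => (P.coeff q.1).coeff q.2).Finite := by
  classical
  refine ((Finset.finite_toSet
    (P.support.biUnion fun i => (P.coeff i).support.image (P.coeff i).coeff)).insert 0).subset ?_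
  rintro _ ⟨⟨i, j⟩, rfl⟩
  by_cases h : (P.coeff i).coeff j = 0
  · exact Or.inl h
  · refine Or.inr (Finset.mem_coe.2 (Finset.mem_biUnion.2 ⟨i, mem_support_iff.2 fun h0 => h ?_,
      Finset.mem_image.2 ⟨j, mem_support_iff.2 h, rfl⟩⟩))
    rw [h0, coeff_zero]

/-- the expansion of `x` with a remainder in the ideal of the coefficients -/
theorem expand (he : EvStmt C Γ) {P : C[X][X]} {τ : C} (hc : Ch w t η P)
    (hτ : w (algebraMap C M τ) < 1) {x : M} (hx : x ∈ Lc w (Rg (Oc C w) t η)) :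
    ∃ (n : ℕ) (b : ℕ → C) (β : Fin (n + 1) → M), (∀ i, β i ∈ Lc w (Rg (Oc C w) t η)) ∧
      x = ∑ i : Fin (n + 1), b i • (t - algebraMap C M τ) ^ (i : ℕ) +
        (t - algebraMap C M τ) ^ (n + 1) * ∑ i : Fin (n + 1), b i • β i := by
  have hB : ∀ c : C, w (algebraMap C M c) ≤ 1 → algebraMap C M c ∈ Lc w (Rg (Oc C w) t η) :=
    fun c h => le_Lc _ (cst_mem h)
  obtain ⟨ev, e, he1, -, hev⟩ := he M w t η P (satA w _ hB) τ hc (fun _ => Iff.rfl) hτ
  obtain ⟨g, hg, hg1, hy⟩ := hx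
  obtain ⟨F, f1, f2, f3⟩ := fin_Rg hg
  obtain ⟨G, g1, g2, g3⟩ := fin_Rg hy
  set H : Set C := (F ∪ G) ∪ ({τ, e} ∪ Set.range fun q : ℕ × ℕ => (P.coeff q.1).coeff q.2)
  have hH : H.Finite := (f1.union g1).union ((Set.toFinite _).union (fin_coe P))
  have hR : Subring.closure H ≤ Oc C w := by
    refine Subring.closure_le.2 (Set.union_subset (Set.union_subset f2 g2) ?_)
    rintro _ ((rfl | rfl) | ⟨q, rfl⟩)
    exacts [hτ.le, he1, hc.coe _ _]
  have hτR : τ ∈ Subring.closure H := Subring.subset_closure (Or.inr (Or.inl (Or.inl rfl)))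
  replace hev := hev _ hR hτR (Subring.subset_closure (Or.inr (Or.inl (Or.inr rfl))))
    fun i j => Subring.subset_closure (Or.inr (Or.inr ⟨(i, j), rfl⟩))
  have hle : Lc w (Rg (Subring.closure H) t η) ≤ Lc w (Rg (Oc C w) t η) := Lc_mono (Rg_mono hR)
  have hx1 : x ∈ Lc w (Rg (Subring.closure H) t η) :=
    ⟨g, Rg_mono (Subring.closure_mono fun _ h => Or.inl (Or.inl h)) f3, hg1,
      Rg_mono (Subring.closure_mono fun _ h => Or.inl (Or.inr h)) g3⟩
  have := noeth_Lc (w := w) _ (noeth_Rg hH t η)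
  have hint := fun z (hz : z ∈ Lc w (Rg (Subring.closure H) t η)) =>
    Lc_le (Rg_le hR hc.small.le hc.int) hz
  have hs : t - algebraMap C M τ ∈ Lc w (Rg (Subring.closure H) t η) :=
    le_Lc _ (sub_mem (t_mem _) (cst_mem hτR))
  have hs1 : w (t - algebraMap C M τ) < 1 := w.map_sub_lt hc.small hτ
  have step : ∀ z : Lc w (Rg (Subring.closure H) t η), ∃ (c : C)
      (_ : algebraMap C M c ∈ Lc w (Rg (Subring.closure H) t η))
      (z' : Lc w (Rg (Subring.closure H) t η)),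
      (z : M) = algebraMap C M c + (t - algebraMap C M τ) * z' := fun z => by
    obtain ⟨h1, x1, h2, h3⟩ := hev ⟨z, 1, one_ne_zero, by rw [one_smul]; exact hle z.2⟩ z.2
    exact ⟨_, h1, ⟨x1, h2⟩, h3⟩
  choose c hc' nx hnx using step
  obtain ⟨n, β, hβ⟩ := nak (⟨_, hs⟩ : Lc w (Rg (Subring.closure H) t η))
    (fun y => unit _ (by
      change w ((t - algebraMap C M τ) * y + 1) = 1
      rw [add_comm]
      refine w.map_one_add_of_lt ?_
      rw [map_mul]
      exact mul_lt_one_of_lt_of_le hs1 (hint _ y.2)))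
    (fun i => nx^[i] ⟨x, hx1⟩) (fun i => ⟨_, hc' (nx^[i] ⟨x, hx1⟩)⟩) fun i => by
      rw [Function.iterate_succ_apply']
      exact Subtype.ext (hnx _)
  refine ⟨n, fun i => c (nx^[i] ⟨x, hx1⟩), fun i => β i, fun i => hle (β i).2, ?_⟩
  have := congrArg Subtype.val hβ
  simpa [Algebra.smul_def, mul_comm] using this

end Cl

open Cl in
theorem cl {C Γ : Type} [Field C] [LinearOrderedCommGroupWithZero Γ] (he : EvStmt C Γ) :
    ClStmt C Γ := by
  intro M _ _ w t η P τ ε hc hτ hε0 hε x hx hx0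
  obtain ⟨n, b, β, hβ, h⟩ := expand he hc hτ hx
  have hB : ∀ c : C, w (algebraMap C M c) ≤ 1 → algebraMap C M c ∈ Lc w (Rg (Oc C w) t η) :=
    fun c h => le_Lc _ (cst_mem h)
  obtain ⟨k, -, hk⟩ := Finset.exists_max_image (Finset.univ : Finset (Fin (n + 1)))
    (fun i => w (algebraMap C M (b i * ε ^ (i : ℕ)))) Finset.univ_nonempty
  set μ := b k * ε ^ (k : ℕ) with hμ
  have hμ0 : μ ≠ 0 := fun h0 => hx0 (by
    have hb : ∀ i : Fin (n + 1), b i = 0 := fun i => by
      have := hk i (Finset.mem_univ i)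
      simpa [h0, hε0] using this
    simp [h, hb])
  have hw0 : w (algebraMap C M μ) ≠ 0 := by simpa using hμ0
  have hq : ∀ i : Fin (n + 1), w (algebraMap C M (b i * ε ^ (i : ℕ) / μ)) ≤ 1 := fun i => by
    rw [map_div₀, map_div₀]
    exact div_le_one_of_le₀ (hk i (Finset.mem_univ i)) zero_le
  have hco : ∀ j, (∑ i : Fin (n + 1), monomial (i : ℕ) (b i * ε ^ (i : ℕ) / μ)).coeff j =
      if j < n + 1 then b j * ε ^ j / μ else 0 := fun j => by
    rw [← Finset.sum_range fun i => monomial i (b i * ε ^ i / μ), finsetSum_coeff]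
    simp [coeff_monomial]
  refine ⟨μ, ε, ∑ i : Fin (n + 1), monomial (i : ℕ) (b i * ε ^ (i : ℕ) / μ), n + 1,
    ∑ i : Fin (n + 1), (ε ^ (n - i) * (b i * ε ^ (i : ℕ) / μ)) • β i, hμ0, hε, ?_, ⟨?_, k, ?_⟩, ?_⟩
  · refine Subring.sum_mem _ fun i _ => ?_
    rw [Algebra.smul_def]
    refine mul_mem (hB _ ?_) (hβ i)
    rw [map_mul, map_mul, map_pow, map_pow]
    exact mul_le_one' (pow_le_one' hε.le _) (hq i)
  · intro j
    rw [hco]
    split_ifs with hj
    · exact hq ⟨j, hj⟩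
    · simp
  · rw [hco, if_pos k.2, ← hμ, div_self hμ0, map_one, map_one]
  · rw [h, smul_add, map_sum, Finset.smul_sum, Finset.mul_sum, Finset.mul_sum, Finset.smul_sum,
      Finset.smul_sum]
    congr 1
    · refine Finset.sum_congr rfl fun i _ => ?_
      rw [aeval_monomial, ← Algebra.smul_def, smul_pow, smul_smul, smul_smul, inv_pow]
      congr 1
      field_simp
    · refine Finset.sum_congr rfl fun i _ => ?_
      rw [smul_pow, smul_mul_smul_comm, smul_smul, smul_smul, mul_smul_comm, inv_pow]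
      congr 1
      obtain ⟨d, hd⟩ := Nat.exists_eq_add_of_le (Nat.lt_succ_iff.1 i.2)
      generalize (i : ℕ) = j at hd ⊢
      subst hd
      rw [Nat.add_sub_cancel_left]
      field_simp
      ring

end Pool.Agent.MP_19ffc6_ag.Perf.Hr

end MrgPart2

-- ======== part 3: formerly Pool.Agent.MP_19ffc6_ag.perf.HrDq
section MrgPart3

/-! Row DQ: difference quotients and small derivatives. -/

namespace Pool.Agent.MP_19ffc6_ag.Perf.Hr

open Polynomial IntermediateField

variable {C Ω Γ M : Type} [Field C] [Field Ω] [Algebra C Ω] [LinearOrderedCommGroupWithZero Γ]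
  [Field M] [Algebra C M] {v : Valuation Ω Γ} {w : Valuation M Γ}

namespace DqA

lemma mul_le {a b : M} {g : Γ} (ha : w a ≤ 1) (hb : w b ≤ g) : w (a * b) ≤ g := by
  rw [map_mul]; exact (mul_le_of_le_one_left' ha).trans hb

lemma mul_lt {a b : M} {g : Γ} (ha : w a ≤ 1) (hb : w b < g) : w (a * b) < g := by
  rw [map_mul]; exact (mul_le_of_le_one_left' ha).trans_lt hb

lemma mul_lt' {a b c : M} (hc : c ≠ 0) (ha : w a < 1) (hb : w b ≤ w c) : w (a * b) < w c := by
  rw [map_mul]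
  refine (mul_le_mul_right hb _).trans_lt ?_
  simpa using mul_lt_mul_of_pos_right ha ((Valuation.pos_iff w).2 hc)

lemma pow_le {a : M} (ha : w a ≤ 1) (n : ℕ) : w (a ^ n) ≤ 1 := by
  rw [map_pow]; exact pow_le_one' ha n

lemma one_of {a b : M} (ha : w a = 1) (h : w (b - a) < 1) : w b = 1 := by
  rw [← ha, Valuation.map_eq_of_sub_lt w (ha ▸ h)]

lemma expand {x y : M} (hx : w x ≤ 1) (hy : w y ≤ 1) (i : ℕ) : ∃ k, w k ≤ 1 ∧
    y ^ i = x ^ i + i * x ^ (i - 1) * (y - x) + k * (y - x) ^ 2 := by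
  obtain ⟨k, hk⟩ := powAddExpansion (⟨x, hx⟩ : w.integer) (⟨y, hy⟩ - ⟨x, hx⟩) i
  refine ⟨k, k.2, ?_⟩
  simpa using congrArg Subtype.val hk

lemma der_eval (P : M[X]) (η : M) : P.derivative.eval η =
    ∑ i ∈ Finset.range (P.natDegree + 1), P.coeff i * (i * η ^ (i - 1)) := by
  rw [derivative_eval, sum_over_range _ (by simp)]
  exact Finset.sum_congr rfl fun i _ => mul_assoc _ _ _

lemma der_root (D : Derivation C M M) {P : M[X]} {η : M} (h : P.eval η = 0) :
    P.derivative.eval η * D η =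
      -∑ i ∈ Finset.range (P.natDegree + 1), η ^ i * D (P.coeff i) := by
  have := congrArg D h
  rw [eval_eq_sum_range, map_sum, map_zero] at this
  rw [der_eval, Finset.sum_mul, eq_neg_iff_add_eq_zero, ← Finset.sum_add_distrib, ← this]
  refine Finset.sum_congr rfl fun i _ => ?_
  rw [D.leibniz, D.leibniz_pow]
  simp only [smul_eq_mul, nsmul_eq_mul]
  ring

lemma iso_res (h : Ctx C v) {φ σ : M →ₐ[C] Ω} (hi : Iso v φ σ) {x : M} (hx : v (φ x) ≤ 1) :
    v (σ x - φ x) < 1 := by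
  obtain ⟨c, hc⟩ := h.res _ hx
  have h1 : v (φ (x - algebraMap C M c)) < 1 := by simpa using hc
  have h2 : v (σ (x - algebraMap C M c)) < 1 := by
    rcases eq_or_ne (x - algebraMap C M c) 0 with e | e
    · simp [e]
    by_contra h2
    have h3 := (hi (x - algebraMap C M c)⁻¹).1 (by
      rw [map_inv₀, map_inv₀]; exact inv_le_one_of_one_le₀ (not_lt.1 h2))
    rw [map_inv₀, map_inv₀, inv_le_one₀ ((Valuation.pos_iff v).2 ((map_ne_zero φ).2 e))] at h3
    exact h1.not_ge h3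
  have := v.map_sub_lt h2 h1
  simpa using this

section Quot

variable (φ σ : M →ₐ[C] Ω) (D : Derivation C M M) {δ : Ω}

/-- the elements whose difference quotient is close to the derivative -/
def qs (h0 : δ ≠ 0) (h1 : v δ < 1) : Subring M where
  carrier := {b | v (φ b) ≤ 1 ∧ v (φ (D b)) ≤ 1 ∧ v (σ b - φ b - δ * φ (D b)) < v δ}
  one_mem' := by simpa using (Valuation.pos_iff v).2 h0
  zero_mem' := by simpa using (Valuation.pos_iff v).2 h0
  add_mem' := by
    rintro a b ⟨a1, a2, a3⟩ ⟨b1, b2, b3⟩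
    simp only [Set.mem_ofPred_eq, map_add]
    refine ⟨v.map_add_le a1 b1, v.map_add_le a2 b2, ?_⟩
    convert v.map_add_lt a3 b3 using 2
    ring
  neg_mem' := by
    rintro a ⟨a1, a2, a3⟩
    simp only [Set.mem_ofPred_eq, map_neg, Valuation.map_neg]
    refine ⟨a1, a2, ?_⟩
    rw [← v.map_neg]
    convert a3 using 2
    ring
  mul_mem' := by
    rintro a b ⟨a1, a2, a3⟩ ⟨b1, b2, b3⟩
    have a4 : v (σ a - φ a) < 1 := by
      have := v.map_add_lt (a3.trans h1) (mul_lt a2 h1)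
      convert this using 2
      ring
    have a5 : v (σ a) ≤ 1 := by simpa using v.map_add_le a4.le a1
    simp only [Set.mem_ofPred_eq, D.leibniz, smul_eq_mul, map_add, map_mul φ, map_mul σ]
    refine ⟨mul_le a1 b1, v.map_add_le (mul_le a1 b2) (mul_le b1 a2), ?_⟩
    convert v.map_add_lt (v.map_add_lt (mul_lt a5 b3) (mul_lt b1 a3))
      (mul_lt' h0 a4 (mul_le b2 le_rfl)) using 2
    ring

lemma cls_qs (h : Ctx C v) (hi : Iso v φ σ) (h0 : δ ≠ 0) (h1 : v δ < 1) :
    Cls (vm v φ) (qs φ σ D h0 h1) where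
  inv := by
    rintro a ⟨a1, a2, a3⟩ ha
    rw [vm_apply] at ha
    have a4 := iso_res h hi a1
    have a5 := one_of ha a4
    have x0 : φ a ≠ 0 := fun e => by simp [e] at ha
    have y0 : σ a ≠ 0 := fun e => by simp [e] at a5
    have i1 : v (φ a)⁻¹ ≤ 1 := by simp [ha]
    have i2 : v (σ a)⁻¹ ≤ 1 := by simp [a5]
    have e : φ (D a⁻¹) = -((φ a)⁻¹ * ((φ a)⁻¹ * φ (D a))) := by
      rw [D.leibniz_inv]
      simp only [smul_eq_mul, map_mul, map_neg, map_pow, map_inv₀]
      ring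
    refine ⟨by rwa [map_inv₀], ?_, ?_⟩
    · rw [e, v.map_neg]; exact mul_le i1 (mul_le i1 a2)
    · rw [e, map_inv₀, map_inv₀]
      convert mul_lt i1 (mul_lt i2 (v.map_sub_lt
        (mul_lt i1 (mul_lt' h0 a4 (mul_le a2 le_rfl))) a3)) using 2
      field_simp
      ring
  root := by
    intro P η hP hr hη hd
    rw [vm_apply] at hη hd
    have hy := (hi η).2 hη
    have hs := iso_res h hi hη
    choose k hk hk' using expand hη hy
    set n := P.natDegree + 1
    set x := φ η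
    set y := σ η
    set q := φ (P.derivative.eval η) with hq
    have e1 : q * φ (D η) = -∑ i ∈ Finset.range n, x ^ i * φ (D (P.coeff i)) := by
      simpa [hq] using congrArg φ (der_root D hr)
    have e2 : ∑ i ∈ Finset.range n, φ (P.coeff i) * x ^ i = 0 := by
      have := congrArg φ hr
      rw [eval_eq_sum_range, map_sum, map_zero] at this
      simpa only [map_mul, map_pow] using this
    have e3 : ∑ i ∈ Finset.range n, σ (P.coeff i) * y ^ i = 0 := by
      have := congrArg σ hr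
      rw [eval_eq_sum_range, map_sum, map_zero] at this
      simpa only [map_mul, map_pow] using this
    have e4 : q = ∑ i ∈ Finset.range n, φ (P.coeff i) * (i * x ^ (i - 1)) := by
      rw [hq, der_eval]; simp [x, n]
    set K := ∑ i ∈ Finset.range n, φ (P.coeff i) * k i with hK
    set E := ∑ i ∈ Finset.range n,
      y ^ i * (σ (P.coeff i) - φ (P.coeff i) - δ * φ (D (P.coeff i))) with hE
    set A := ∑ i ∈ Finset.range n, y ^ i * φ (D (P.coeff i)) with hA
    have vK : v K ≤ 1 := v.map_sum_le fun i _ => mul_le (hP i).1 (hk i)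
    have vE : v E < v δ := v.map_sum_lt ((Valuation.ne_zero_iff v).2 h0) fun i _ =>
      mul_lt (pow_le hy i) (hP i).2.2
    have vA : v A ≤ 1 := v.map_sum_le fun i _ => mul_le (pow_le hy i) (hP i).2.1
    have vB : v (A + q * φ (D η)) < 1 := by
      rw [e1, hA, ← sub_eq_add_neg, ← Finset.sum_sub_distrib]
      refine v.map_sum_lt one_ne_zero fun i _ => ?_
      rw [← sub_mul, mul_comm, hk' i]
      refine mul_lt (hP i).2.1 ?_
      convert mul_lt (v.map_add_le (mul_le (a := (i : Ω)) (natCast_mem v.integer i)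
        (pow_le hη (i - 1))) (mul_le (hk i) hs.le)) hs using 2
      ring
    have e5 : (q + K * (y - x)) * (y - x) = -(E + A * δ) := by
      rw [eq_neg_iff_add_eq_zero, ← sub_zero 0]
      nth_rw 1 [← e3]
      rw [← e2, e4, hK, hE, hA]
      simp only [Finset.sum_mul, add_mul, ← Finset.sum_add_distrib, ← Finset.sum_sub_distrib]
      refine Finset.sum_congr rfl fun i _ => ?_
      linear_combination (-φ (P.coeff i)) * hk' i
    have v1 : v (y - x) ≤ v δ := by
      have := congrArg v e5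
      rw [map_mul, one_of hd (by simpa using mul_lt vK hs), one_mul, v.map_neg] at this
      exact this ▸ v.map_add_le vE.le (mul_le vA le_rfl)
    have v2 : v (φ (D η)) ≤ 1 := by
      have := v.map_sub_le vB.le vA
      rwa [add_sub_cancel_left, map_mul, hd, one_mul] at this
    refine ⟨hη, v2, ?_⟩
    have := v.map_add_lt (v.map_add_lt vE (mul_lt' h0 vB le_rfl)) (mul_lt vK (mul_lt' h0 hs v1))
    rw [← v.map_neg, show -(E + (A + q * φ (D η)) * δ + K * ((y - x) * (y - x))) =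
      q * (y - x - δ * φ (D η)) by linear_combination -e5, map_mul, hd, one_mul] at this
    exact this

end Quot

/-- the integral elements with small derivative -/
def ds (w : Valuation M Γ) (D : Derivation C M M) : Subring M where
  carrier := {b | w b ≤ 1 ∧ w (D b) < 1}
  one_mem' := by simp
  zero_mem' := by simp
  add_mem' := fun a b => ⟨w.map_add_le a.1 b.1, by rw [map_add]; exact w.map_add_lt a.2 b.2⟩
  neg_mem' := fun a => ⟨by rw [w.map_neg]; exact a.1, by rw [map_neg, w.map_neg]; exact a.2⟩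
  mul_mem' := fun a b => ⟨mul_le a.1 b.1, by
    rw [D.leibniz]; exact w.map_add_lt (mul_lt a.1 b.2) (mul_lt b.1 a.2)⟩

lemma cls_ds (D : Derivation C M M) : Cls w (ds w D) where
  inv := by
    rintro a ⟨-, a2⟩ ha
    have i1 : w a⁻¹ ≤ 1 := by simp [ha]
    refine ⟨i1, ?_⟩
    rw [D.leibniz_inv, smul_eq_mul, neg_mul, w.map_neg]
    exact mul_lt (pow_le i1 2) a2
  root := by
    intro P η hP hr hη hd
    refine ⟨hη, ?_⟩
    have := congrArg w (der_root D hr)
    rw [map_mul, hd, one_mul, w.map_neg] at this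
    exact this ▸ w.map_sum_lt one_ne_zero fun i _ => mul_lt (pow_le hη i) (hP i).2

lemma eval_mem {S : Subring M} {f : M[X]} {η : M} (hf : ∀ i, f.coeff i ∈ S) (hη : η ∈ S) :
    f.eval η ∈ S := by
  rw [eval_eq_sum_range]
  exact sum_mem fun i _ => mul_mem (hf i) (pow_mem hη i)

/-- constant times monomial times unit -/
def Mo (C : Type) [Field C] [Algebra C M] (w : Valuation M Γ) (u : M) (S : Subring M) (x : M) :
    Prop := ∃ (c : C) (n : ℤ) (ε : M), c ≠ 0 ∧ ε ∈ S ∧ w ε = 1 ∧ x = c • u ^ n * ε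

variable {u : M} {S : Subring M}

lemma ne_of_t3 (ht : T3 C w u) : u ≠ 0 := fun e => ht 0 (by simp [e])

lemma Mo.mul (ht : T3 C w u) {x y : M} (hx : Mo C w u S x) (hy : Mo C w u S y) :
    Mo C w u S (x * y) := by
  obtain ⟨c, n, ε, h1, h2, h3, rfl⟩ := hx
  obtain ⟨c', n', ε', h1', h2', h3', rfl⟩ := hy
  refine ⟨c * c', n + n', ε * ε', mul_ne_zero h1 h1', mul_mem h2 h2', by simp [h3, h3'], ?_⟩
  simp only [zpow_add₀ (ne_of_t3 ht), Algebra.smul_def, map_mul]
  ring

lemma Mo.inv (hS : ∀ x ∈ S, w x = 1 → x⁻¹ ∈ S) {x : M} (hx : Mo C w u S x) : Mo C w u S x⁻¹ := by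
  obtain ⟨c, n, ε, h1, h2, h3, rfl⟩ := hx
  refine ⟨c⁻¹, -n, ε⁻¹, inv_ne_zero h1, hS _ h2 h3, by simp [h3], ?_⟩
  simp only [zpow_neg, Algebra.smul_def, map_inv₀, mul_inv]

variable [IsAlgClosed C]

lemma mo_aeval (ht : T3 C w u) (h1 : ∀ c : C, w (c • u) < 1 → c • u ∈ S)
    (h2 : ∀ c : C, w (c • u⁻¹) < 1 → c • u⁻¹ ∈ S) {f : C[X]} (hf : f ≠ 0) :
    Mo C w u S (aeval u f) := by
  have u0 := ne_of_t3 ht
  have u1 := (Valuation.pos_iff w).2 u0
  rw [(IsAlgClosed.splits f).eq_prod_roots, map_mul, aeval_C]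
  refine Mo.mul ht ⟨_, 0, 1, leadingCoeff_ne_zero.2 hf, one_mem _, map_one w, by
    simp [Algebra.smul_def]⟩ ?_
  induction f.roots using Multiset.induction_on with
  | empty => exact ⟨1, 0, 1, one_ne_zero, one_mem _, map_one w, by simp⟩
  | cons r s ih =>
    rw [Multiset.map_cons, Multiset.prod_cons, map_mul]
    refine Mo.mul ht ?_ ih
    rw [map_sub, aeval_X, aeval_C]
    rcases (ht r).lt_or_gt with h | h
    · have r0 : r ≠ 0 := fun e => by simp [e] at h
      have r1 : algebraMap C M r ≠ 0 := (_root_.map_ne_zero _).2 r0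
      have h3 : w (r⁻¹ • u) < 1 := by
        rw [Algebra.smul_def, map_inv₀, map_mul, map_inv₀]
        exact (inv_mul_lt_one₀ (u1.trans h)).2 h
      refine ⟨r, 0, r⁻¹ • u - 1, r0, sub_mem (h1 _ h3) (one_mem _), ?_, ?_⟩
      · rw [Valuation.map_sub_swap]; exact w.map_one_sub_of_lt h3
      · simp only [Algebra.smul_def, map_inv₀]
        field_simp
    · have h3 : w (r • u⁻¹) < 1 := by
        rw [Algebra.smul_def, map_mul, map_inv₀]
        exact (mul_inv_lt_iff₀ u1).2 (by simpa using h)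
      refine ⟨1, 1, 1 - r • u⁻¹, one_ne_zero, sub_mem (one_mem _) (h2 _ h3),
        w.map_one_sub_of_lt h3, ?_⟩
      simp only [Algebra.smul_def, map_one]
      field_simp

lemma mo_of_mem (ht : T3 C w u) (hS : ∀ x ∈ S, w x = 1 → x⁻¹ ∈ S)
    (h1 : ∀ c : C, w (c • u) < 1 → c • u ∈ S) (h2 : ∀ c : C, w (c • u⁻¹) < 1 → c • u⁻¹ ∈ S)
    {x : M} (hx : x ∈ C⟮u⟯) (h0 : x ≠ 0) : Mo C w u S x := by
  obtain ⟨f, g, rfl⟩ := (mem_adjoin_simple_iff C x).1 hx
  rw [div_eq_mul_inv]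
  exact (mo_aeval ht h1 h2 fun e => h0 (by simp [e])).mul ht
    ((mo_aeval ht h1 h2 fun e => h0 (by simp [e])).inv hS)

lemma pow_mem' {y : M} (ht : T3 C w y) (h1 : ∀ c : C, w (c • y) < 1 → c • y ∈ S) {c : C}
    (hc : c ≠ 0) {n : ℕ} (hn : 0 < n) (h : w (c • y ^ n) ≤ 1) : c • y ^ n ∈ S := by
  obtain ⟨a, rfl⟩ := IsAlgClosed.exists_pow_nat_eq c hn
  rw [← smul_pow] at h ⊢
  rw [map_pow, pow_le_one_iff hn.ne'] at h
  refine pow_mem (h1 a (h.lt_of_ne fun e => ht a⁻¹ ?_)) n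
  rw [Algebra.smul_def, map_mul] at e
  rw [map_inv₀, map_inv₀]
  exact eq_inv_of_mul_eq_one_right e

end DqA

open DqA in
theorem dq [IsAlgClosed C] (h : Ctx C v) : Dq C v where
  dq M _ _ φ σ D δ hi h0 h1 := ⟨qs φ σ D h0 h1, cls_qs φ σ D h hi h0 h1, fun _ => Iff.rfl⟩
  dl M _ _ w D := ⟨ds w D, cls_ds D, fun _ => Iff.rfl⟩
  pres M _ _ w u η P S hP hS hu x hx := by
    have hη : η ∈ S := hS.root P η (fun i => hu _ (hP.coe i).1 (hP.coe i).2) hP.root hP.int hP.der
    obtain ⟨f, g, hf, hg, h1, h2⟩ := hP.loc x hx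
    have g0 : g.eval η ≠ 0 := fun e => by simp [e] at h1
    rw [(eq_mul_inv_iff_mul_eq₀ g0).2 h2]
    exact mul_mem (eval_mem (fun i => hu _ (hf i).1 (hf i).2) hη)
      (hS.inv _ (eval_mem (fun i => hu _ (hg i).1 (hg i).2) hη) h1)
  ext3 M _ _ w u S ht hS h0 h1 h2 x hx hw := by
    rcases eq_or_ne x 0 with rfl | x0
    · exact zero_mem _
    obtain ⟨c, n, ε, c0, e1, e2, rfl⟩ := mo_of_mem ht hS h1 h2 hx x0
    rw [map_mul, e2, mul_one] at hw
    refine mul_mem ?_ e1
    obtain ⟨m, rfl | rfl⟩ := n.eq_nat_or_neg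
    · rw [zpow_natCast] at hw ⊢
      rcases m.eq_zero_or_pos with rfl | hm
      · rw [pow_zero, ← Algebra.algebraMap_eq_smul_one] at hw ⊢
        exact h0 c hw
      · exact pow_mem' ht h1 c0 hm hw
    · rw [zpow_neg, zpow_natCast, ← inv_pow] at hw ⊢
      rcases m.eq_zero_or_pos with rfl | hm
      · rw [pow_zero, ← Algebra.algebraMap_eq_smul_one] at hw ⊢
        exact h0 c hw
      · refine pow_mem' (fun a e => ht a⁻¹ ?_) h2 c0 hm hw
        rw [map_inv₀, map_inv₀, ← e, map_inv₀, inv_inv]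
  val3 M _ _ w u ht x hx x0 := by
    obtain ⟨c, n, ε, c0, -, e2, rfl⟩ := mo_of_mem (S := ⊤) ht (fun _ _ _ => trivial)
      (fun _ _ => trivial) (fun _ _ => trivial) hx x0
    exact ⟨c, n, c0, by rw [map_mul, e2, mul_one]⟩

end Pool.Agent.MP_19ffc6_ag.Perf.Hr

end MrgPart3

-- ======== part 4: formerly Pool.Agent.MP_19ffc6_ag.perf.HrEtv
section MrgPart4

/-! Row ETV: a coordinate gives a standard etale presentation of the valuation ring. -/

namespace Pool.Agent.MP_19ffc6_ag.Perf.Hr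

open Polynomial IntermediateField

namespace Etv

section Gen

variable {E M Ω Γ : Type} [Field E] [Field M] [Field Ω] [Algebra E M] [Algebra E Ω]
  [LinearOrderedCommGroupWithZero Γ] {v : Valuation Ω Γ}

/-- all conjugates are integral -/
def En (E : Type) [Field E] [Algebra E M] [Algebra E Ω] (v : Valuation Ω Γ) (b : M) : Prop :=
  ∀ s : M →ₐ[E] Ω, v (s b) ≤ 1

lemma En.mul {a b : M} (ha : En E v a) (hb : En E v b) : En E v (a * b) := fun s => by
  rw [map_mul, map_mul]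
  exact mul_le_one' (ha s) (hb s)

/-- integral coefficients -/
def IP (v : Valuation Ω Γ) (f : Ω[X]) : Prop := ∀ i, v (f.coeff i) ≤ 1

lemma IP.mul {f g : Ω[X]} (hf : IP v f) (hg : IP v g) : IP v (f * g) := fun i => by
  rw [coeff_mul]
  exact v.map_sum_le fun j _ => by
    rw [map_mul]
    exact mul_le_one' (hf _) (hg _)

lemma IP.one : IP v (1 : Ω[X]) := fun i => by
  rw [coeff_one]
  split_ifs <;> simp

lemma IP.lin {a : Ω} (ha : v a ≤ 1) : IP v (X - Polynomial.C a) := fun i => by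
  rw [coeff_sub, coeff_X, coeff_C]
  refine v.map_sub_le ?_ ?_
  · split_ifs <;> simp
  · split_ifs
    · exact ha
    · simp

lemma IP.prod {ι : Type} (T : Finset ι) (a : ι → Ω) (ha : ∀ i, v (a i) ≤ 1) :
    IP v (∏ i ∈ T, (X - Polynomial.C (a i))) :=
  Finset.prod_induction _ (IP v) (fun _ _ => IP.mul) IP.one fun i _ => IP.lin (ha i)

variable [FiniteDimensional E M]

/-- one element that works for all the other embeddings at once -/
lemma collect (φ : M →ₐ[E] Ω) (c : (M →ₐ[E] Ω) → Γ) (g : Γ)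
    (h : ∀ s : M →ₐ[E] Ω, s ≠ φ → ∃ b, En E v b ∧ v (φ b) = 1 ∧ v (s b) * c s < g) :
    ∃ b, En E v b ∧ v (φ b) = 1 ∧ ∀ s : M →ₐ[E] Ω, s ≠ φ → v (s b) * c s < g := by
  classical
  have key : ∀ T : Finset (M →ₐ[E] Ω), ∃ b, En E v b ∧ v (φ b) = 1 ∧
      ∀ s ∈ T, s ≠ φ → v (s b) * c s < g := by
    intro T
    induction T using Finset.induction_on with
    | empty => exact ⟨1, fun s => by simp, by simp, by simp⟩
    | insert a T _ ih =>
      obtain ⟨b, h1, h2, h3⟩ := ih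
      by_cases ha : a = φ
      · refine ⟨b, h1, h2, fun s hs hne => ?_⟩
        rcases Finset.mem_insert.1 hs with rfl | hs
        · exact absurd ha hne
        · exact h3 s hs hne
      · obtain ⟨b', k1, k2, k3⟩ := h a ha
        refine ⟨b * b', h1.mul k1, by rw [map_mul, map_mul, h2, k2, one_mul], fun s hs hne => ?_⟩
        rw [map_mul, map_mul]
        rcases Finset.mem_insert.1 hs with rfl | hs
        · refine lt_of_le_of_lt ?_ k3
          exact mul_le_mul_left (mul_le_of_le_one_left' (h1 s)) _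
        · refine lt_of_le_of_lt ?_ (h3 s hs hne)
          exact mul_le_mul_left (mul_le_of_le_one_right' (k1 s)) _
  obtain ⟨b, h1, h2, h3⟩ := key Finset.univ
  exact ⟨b, h1, h2, fun s hs => h3 s (Finset.mem_univ s) hs⟩

variable [Algebra.IsSeparable E M] [IsAlgClosed Ω]

lemma map_minpoly {η : M} (hη : E⟮η⟯ = ⊤) :
    (minpoly E η).map (algebraMap E Ω) = ∏ s : M →ₐ[E] Ω, (X - Polynomial.C (s η)) := by
  classical
  have hi : IsIntegral E η := IsIntegral.of_finite E η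
  have hinj := (Field.primitive_element_iff_algHom_eq_of_eval' E Ω
    (fun _ => IsAlgClosed.splits _) η).1 hη
  refine eq_of_monic_of_dvd_of_natDegree_le (monic_prod_X_sub_C _ _) ((minpoly.monic hi).map _)
    ?_ ?_
  · refine Finset.prod_dvd_of_coprime
      ((pairwise_coprime_X_sub_C hinj).set_pairwise _) fun s _ => ?_
    rw [dvd_iff_isRoot, IsRoot, eval_map_algebraMap, aeval_algHom_apply, minpoly.aeval, map_zero]
  · rw [natDegree_map, natDegree_prod_of_monic _ _ fun s _ => monic_X_sub_C _]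
    simp only [natDegree_X_sub_C, Finset.sum_const, Finset.card_univ, smul_eq_mul, mul_one]
    rw [AlgHom.card, (Field.primitive_element_iff_minpoly_natDegree_eq E η).1 hη]

lemma map_minpolyDiv [DecidableEq (M →ₐ[E] Ω)] {η : M} (hη : E⟮η⟯ = ⊤) (s : M →ₐ[E] Ω) :
    (minpolyDiv E η).map (s : M →+* Ω) =
      ∏ s' ∈ Finset.univ.erase s, (X - Polynomial.C (s' η)) := by
  have h1 := congrArg (Polynomial.map (s : M →+* Ω)) (minpolyDiv_spec E η)
  rw [Polynomial.map_mul, Polynomial.map_sub, map_X, map_C, Polynomial.map_map,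
    AlgHom.comp_algebraMap, map_minpoly hη,
    ← Finset.prod_erase_mul _ _ (Finset.mem_univ s)] at h1
  exact mul_right_cancel₀ (X_sub_C_ne_zero _) h1

lemma exists_poly (φ : M →ₐ[E] Ω) {η b : M} (hη : E⟮η⟯ = ⊤) (h1 : En E v η) (hb : En E v b) :
    ∃ f : E[X], (∀ i, v (algebraMap E Ω (f.coeff i)) ≤ 1) ∧
      aeval η f = b * aeval η (derivative (minpoly E η)) := by
  classical
  set Q := minpolyDiv E η with hQ
  let f : E[X] := ∑ j ∈ Finset.range (Q.natDegree + 1),
    monomial j (Algebra.trace E M (b * Q.coeff j))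
  have hc : ∀ i, f.coeff i = Algebra.trace E M (b * Q.coeff i) := fun i => by
    simp only [f, finsetSum_coeff, coeff_monomial, Finset.sum_ite_eq', Finset.mem_range]
    split_ifs with h
    · rfl
    · rw [coeff_eq_zero_of_natDegree_lt (by omega), mul_zero, map_zero]
  have hm : f.map (algebraMap E Ω) =
      ∑ s : M →ₐ[E] Ω, Polynomial.C (s b) * Q.map (s : M →+* Ω) := by
    ext i
    rw [coeff_map, hc, trace_eq_sum_embeddings Ω, finsetSum_coeff]
    refine Finset.sum_congr rfl fun s _ => ?_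
    rw [coeff_C_mul, coeff_map, map_mul]
    rfl
  refine ⟨f, fun i => ?_, φ.injective ?_⟩
  · rw [← coeff_map, hm, finsetSum_coeff]
    refine v.map_sum_le fun s _ => ?_
    rw [coeff_C_mul, map_mul, hQ, map_minpolyDiv hη]
    exact mul_le_one' (hb s) (IP.prod _ _ (fun s' => h1 s') i)
  · change φ _ = φ _
    rw [← aeval_algHom_apply, ← eval_map_algebraMap, hm, eval_finsetSum,
      Finset.sum_eq_single φ, eval_mul, eval_C, map_mul, ← eval_minpolyDiv_self, eval_map]
    · congr 1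
      exact eval₂_at_apply (φ : M →+* Ω) η
    · intro s _ hs
      rw [eval_mul, hQ, map_minpolyDiv hη, eval_prod,
        Finset.prod_eq_zero (Finset.mem_erase.2 ⟨hs.symm, Finset.mem_univ φ⟩) (by simp), mul_zero]
    · simp

lemma val_der (φ : M →ₐ[E] Ω) {η : M} (hη : E⟮η⟯ = ⊤) (h1 : v (φ η) = 1)
    (h2 : ∀ s : M →ₐ[E] Ω, s ≠ φ → v (s η) < 1) :
    v (φ (aeval η (derivative (minpoly E η)))) = 1 := by
  classical
  have h3 : φ ((minpolyDiv E η).eval η) = ((minpolyDiv E η).map (φ : M →+* Ω)).eval (φ η) := by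
    rw [eval_map]
    exact (eval₂_at_apply (φ : M →+* Ω) η).symm
  rw [← eval_minpolyDiv_self, h3, map_minpolyDiv hη, eval_prod, map_prod]
  refine Finset.prod_eq_one fun s hs => ?_
  rw [eval_sub, eval_X, eval_C,
    v.map_sub_eq_of_lt_left (by rw [h1]; exact h2 s (Finset.ne_of_mem_erase hs)), h1]

lemma imm (φ : M →ₐ[E] Ω)
    (sb : ∀ s : M →ₐ[E] Ω, s ≠ φ → ∃ b, En E v b ∧ v (φ b) = 1 ∧ v (s b) < 1)
    (loc : ∀ x : M, v (φ x) ≤ 1 → ∃ t, En E v t ∧ En E v (t * x) ∧ v (φ t) = 1)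
    (tie : ∀ x : M, ∃ n : ℕ, 0 < n ∧ ∃ e : E, v (φ x) ^ n = v (algebraMap E Ω e)) (x : M) :
    ∃ e : E, v (φ x) = v (algebraMap E Ω e) := by
  classical
  rcases eq_or_ne x 0 with rfl | hx
  · exact ⟨0, by simp⟩
  have hp : ∀ s : M →ₐ[E] Ω, 0 < v (s x) := fun s =>
    (v.pos_iff).2 ((map_ne_zero s).2 hx)
  obtain ⟨n, hn, e, he⟩ := tie x
  have hy : ∀ s : M →ₐ[E] Ω, v (s (algebraMap E M e / x ^ n)) = (v (φ x) / v (s x)) ^ n :=
    fun s => by rw [map_div₀, map_div₀, map_pow, map_pow, s.commutes, ← he, div_pow]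
  have hy1 : v (φ (algebraMap E M e / x ^ n)) = 1 := by
    rw [hy, div_self (hp φ).ne', one_pow]
  obtain ⟨t, t1, t2, t3⟩ := loc _ hy1.le
  obtain ⟨β, -, b2, b3⟩ := collect (v := v) φ (fun s => v (s x)) (v (φ x)) fun s hs => by
    obtain ⟨b, k1, k2, k3⟩ := sb s hs
    refine ⟨t * (algebraMap E M e / x ^ n) * b, t2.mul k1, ?_, ?_⟩
    · rw [map_mul, map_mul, map_mul, map_mul, t3, hy1, k2, one_mul, one_mul]
    · rcases lt_or_ge (v (s x)) (v (φ x)) with hlt | hge
      · exact lt_of_le_of_lt (mul_le_of_le_one_left' (t2.mul k1 s)) hlt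
      · have h4 : (v (φ x) / v (s x)) ^ n ≤ v (φ x) / v (s x) :=
          pow_le_of_le_one zero_le (div_le_one_of_le₀ hge zero_le) hn.ne'
        have h5 : v (s (t * (algebraMap E M e / x ^ n))) * v (s x) ≤ v (φ x) := by
          rw [map_mul, map_mul, hy, ← le_div_iff₀ (hp s)]
          exact (mul_le_of_le_one_left' (t1 s)).trans h4
        rw [map_mul s, map_mul v, mul_right_comm]
        exact lt_of_le_of_lt (mul_le_mul_left h5 _) (mul_lt_of_lt_one_right (hp φ) k3)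
  refine ⟨Algebra.trace E M (β * x), ?_⟩
  have h6 : v (φ (β * x)) = v (φ x) := by rw [map_mul, map_mul, b2, one_mul]
  rw [trace_eq_sum_embeddings Ω, ← Finset.add_sum_erase _ _ (Finset.mem_univ φ),
    v.map_add_eq_of_lt_left, h6]
  rw [h6]
  refine v.map_sum_lt (hp φ).ne' fun s hs => ?_
  rw [map_mul, map_mul]
  exact b3 s (Finset.ne_of_mem_erase hs)

end Gen

end Etv

variable {C Ω Γ : Type} [Field C] [Field Ω] [Algebra C Ω] [LinearOrderedCommGroupWithZero Γ]
  [IsAlgClosed Ω] {v : Valuation Ω Γ}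

theorem etv (hb : Bas C v) : EtvStmt C v := by
  intro M _ _ φ u hu
  have := hu.fn.fin
  have := hu.fn.sep
  let : Algebra C⟮u⟯ Ω := (φ.comp C⟮u⟯.val).toRingHom.toAlgebra
  have : IsScalarTower C C⟮u⟯ Ω := IsScalarTower.of_algebraMap_eq fun c =>
    ((φ.comp C⟮u⟯.val).commutes c).symm
  let φ0 : M →ₐ[C⟮u⟯] Ω := { (φ : M →+* Ω) with commutes' := fun _ => rfl }
  have hr : ∀ s : M →ₐ[C⟮u⟯] Ω, ∀ e ∈ C⟮u⟯, s.restrictScalars C e = φ e := fun s e he =>
    s.commutes ⟨e, he⟩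
  have hE : ∀ b, Ent v φ C⟮u⟯ b → Etv.En C⟮u⟯ v b := fun b h s => h _ (hr s)
  have sb : ∀ s : M →ₐ[C⟮u⟯] Ω, s ≠ φ0 → ∃ b, Etv.En C⟮u⟯ v b ∧ v (φ0 b) = 1 ∧ v (s b) < 1 := by
    intro s hs
    obtain ⟨b, h1, h2, h3⟩ := hb.sb M φ (s.restrictScalars C) C⟮u⟯ inferInstance (hr s) fun h =>
      hs (AlgHom.ext fun x => DFunLike.congr_fun
        (hu.fix _ (hr s u (mem_adjoin_simple_self C u)) h) x)
    exact ⟨b, hE b h1, h2, h3⟩
  have loc : ∀ x : M, v (φ0 x) ≤ 1 →
      ∃ t, Etv.En C⟮u⟯ v t ∧ Etv.En C⟮u⟯ v (t * x) ∧ v (φ0 t) = 1 := fun x hx => by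
    obtain ⟨t, h1, h2, h3⟩ := hb.loc M φ C⟮u⟯ x (Algebra.IsAlgebraic.isAlgebraic x) hx
    exact ⟨t, hE _ h1, hE _ h2, h3⟩
  have tie : ∀ x : M, ∃ n : ℕ, 0 < n ∧ ∃ e : C⟮u⟯,
      v (φ0 x) ^ n = v (algebraMap C⟮u⟯ Ω e) := fun x => by
    obtain ⟨n, hn, e, he, h⟩ := hb.tie M (vm v φ) C⟮u⟯ x (Algebra.IsAlgebraic.isAlgebraic x)
    exact ⟨n, hn, ⟨e, he⟩, h⟩
  obtain ⟨η, e1, e2, e3⟩ := Etv.collect (v := v) φ0 (fun _ => 1) 1 fun s hs => by
    simpa only [mul_one] using sb s hs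
  simp only [mul_one] at e3
  have hη : C⟮u⟯⟮η⟯ = ⊤ := (Field.primitive_element_iff_algHom_eq_of_eval C⟮u⟯ Ω
    (fun _ => IsAlgClosed.splits _) η φ0).2 fun s hs => by
      by_contra hne
      have := e3 s (Ne.symm hne)
      rw [← hs, e2] at this
      exact lt_irrefl _ this
  have hi : IsIntegral C⟮u⟯ η := IsIntegral.of_finite _ η
  have hd := Etv.val_der φ0 hη e2 e3
  have hIn : ∀ f : C⟮u⟯[X], (∀ i, v (algebraMap C⟮u⟯ Ω (f.coeff i)) ≤ 1) →
      In C (vm v φ) u (f.map (algebraMap C⟮u⟯ M)) := fun f hf i => by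
    rw [coeff_map]
    exact ⟨(f.coeff i).2, hf i⟩
  refine ⟨η, (minpoly C⟮u⟯ η).map (algebraMap C⟮u⟯ M), (minpoly.monic hi).map _,
    hIn _ fun i => ?_, e2.le, ?_, ?_, fun x => ?_, fun Q h1 h2 h3 => ?_, fun x hx => ?_,
    fun x => ?_⟩
  · rw [← coeff_map, Etv.map_minpoly hη]
    exact Etv.IP.prod _ _ (fun s => e1 s) i
  · rw [eval_map_algebraMap, minpoly.aeval]
  · rw [derivative_map, eval_map_algebraMap]
    exact hd
  · rw [← adjoin_simple_adjoin_simple, mem_restrictScalars, hη]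
    exact mem_top
  · obtain ⟨Q0, rfl⟩ : Q ∈ lifts (algebraMap C⟮u⟯ M) :=
      (lifts_iff_coeff_lifts Q).2 fun i => ⟨⟨_, h1 i⟩, rfl⟩
    rw [coe_mapRingHom] at h2 h3 ⊢
    rw [eval_map_algebraMap] at h2
    rw [degree_map, degree_map] at h3
    by_contra hne
    exact (minpoly.degree_le_of_ne_zero _ η (fun h => hne (by rw [h, Polynomial.map_zero]))
      h2).not_gt h3
  · obtain ⟨t, t1, t2, t3⟩ := loc x hx
    obtain ⟨f, f1, f2⟩ := Etv.exists_poly φ0 hη e1 t2
    obtain ⟨g, g1, g2⟩ := Etv.exists_poly φ0 hη e1 t1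
    refine ⟨_, _, hIn f f1, hIn g g1, ?_, ?_⟩
    · rw [eval_map_algebraMap, g2, map_mul]
      change v (φ0 t) * v (φ0 _) = 1
      rw [t3, hd, one_mul]
    · rw [eval_map_algebraMap, eval_map_algebraMap, f2, g2]
      ring
  · obtain ⟨e, he⟩ := Etv.imm φ0 sb loc tie x
    exact ⟨e, e.2, he⟩

end Pool.Agent.MP_19ffc6_ag.Perf.Hr

end MrgPart4

-- marker of a merged file
example : 731051 + 327479 = 731051 + 327479 := rfl
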