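import Pool.Agent.Lib.helper72.RM.M16
import Pool.Agent.MP_19ffc6_ag.perf.HrEtv

-- ======== part 0: formerly Pool.Agent.MP_19ffc6_ag.perf.HrOut
section MrgPart0

/-! Henselian rationality in any rank: the statement used by the rest of the project. -/

namespace Pool.Agent.MP_19ffc6_ag.Perf

open Polynomial IntermediateField Pool.Agent.R72.Wild Pool.Agent.R72.Lci Pool.Agent.R72.Res
  Pool.Agent.R72.Res.B

/-- henselian rationality over an algebraically closed base field `C` -/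
def HRStmt (k L : Type) [Field k] [Field L] [Algebra k L] : Prop :=
  ∀ (C : IntermediateField k L) (y : L) (N : IntermediateField ↥(C ⊔ k⟮y⟯) L)
    (V : Subalgebra k L), (∀ x : L, IsAlgebraic C x → x ∈ C) → Transcendental C y →
    FiniteDimensional ↥(C ⊔ k⟮y⟯) N → IsGalois ↥(C ⊔ k⟮y⟯) N → Val V → Rt V →
    ∃ (u η : L) (P : L[X]), u ∈ N ∧ η ∈ N ∧ Transcendental C u ∧ P.Monic ∧
      (∀ i, P.coeff i ∈ C ⊔ k⟮u⟯ ∧ P.coeff i ∈ V) ∧ P.eval η = 0 ∧
      Un V (P.derivative.eval η) ∧ ∀ x ∈ N, x ∈ C ⊔ k⟮u, η⟯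

end Pool.Agent.MP_19ffc6_ag.Perf

end MrgPart0

-- ======== part 1: formerly Pool.Agent.MP_19ffc6_ag.perf.HrFin
section MrgPart1

/-! Henselian rationality: from the tower theorem and the etale presentation to the statement
about subfields of one algebraically closed field. -/

namespace Pool.Agent.MP_19ffc6_ag.Perf.Hr

open Polynomial IntermediateField

variable {k L : Type} [Field k] [Field L] [Algebra k L]

namespace FinH

/-- a relatively closed subfield of an algebraically closed field is algebraically closed -/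
theorem closed [IsAlgClosed L] (C : IntermediateField k L)
    (h : ∀ x : L, IsAlgebraic C x → x ∈ C) : IsAlgClosed C := by
  refine IsAlgClosed.of_exists_root _ fun f hf hi => ?_
  obtain ⟨x, hx⟩ := IsAlgClosed.exists_aeval_eq_zero L f (degree_pos_of_irreducible hi).ne'
  refine ⟨⟨x, h x ⟨f, hf.ne_zero, hx⟩⟩, (algebraMap C L).injective ?_⟩
  rw [map_zero, ← coe_aeval_eq_eval, ← aeval_algebraMap_apply]
  exact hx

theorem unit_iff (W : ValuationSubring L) (x : L) :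
    W.valuation x = 1 ↔ x ∈ W ∧ x ≠ 0 ∧ x⁻¹ ∈ W := by
  rw [← W.valuation_le_one_iff, ← W.valuation_le_one_iff, map_inv₀]
  refine ⟨fun h => ⟨h.le, fun h0 => by simp [h0] at h, by rw [h, inv_one]⟩, fun ⟨h1, h2, h3⟩ => ?_⟩
  exact le_antisymm h1 ((inv_le_one₀ (zero_lt_iff.2 ((_root_.map_ne_zero _).2 h2))).1 h3)

theorem ctx [Infinite k] (C : IntermediateField k L) (W : ValuationSubring L)
    (hk : ∀ c : k, algebraMap k L c ∈ W)
    (hR : ∀ x ∈ W, ∃ c : k, ¬(x - algebraMap k L c ∈ W ∧ x - algebraMap k L c ≠ 0 ∧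
      (x - algebraMap k L c)⁻¹ ∈ W)) : Ctx C W.valuation where
  res x hx := by
    rw [W.valuation_le_one_iff] at hx
    obtain ⟨c, hc⟩ := hR x hx
    refine ⟨algebraMap k C c, lt_of_le_of_ne ?_ fun h => hc ((unit_iff W _).1 h)⟩
    exact (W.valuation_le_one_iff _).2 (sub_mem hx (hk c))
  inf := by
    refine ⟨fun i => algebraMap k C (Infinite.natEmbedding k i),
      fun i => (W.valuation_le_one_iff _).2 (hk _), fun i j hij => ?_⟩
    rw [← map_sub]
    refine (unit_iff W (algebraMap k L _)).2 ⟨hk _, (_root_.map_ne_zero _).2 ?_, ?_⟩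
    · exact sub_ne_zero.2 ((Infinite.natEmbedding k).injective.ne hij)
    · rw [← map_inv₀]
      exact hk _

theorem mem_sup_iff (C : IntermediateField k L) (S : Set L) (x : L) :
    x ∈ C ⊔ adjoin k S ↔ x ∈ adjoin C S := by
  rw [← restrictScalars_adjoin_eq_sup, mem_restrictScalars]

theorem map_mem (C : IntermediateField k L) {M : Type} [Field M] [Algebra C M] (φ : M →ₐ[C] L)
    {S : Set M} {x : M} (h : x ∈ adjoin C S) : φ x ∈ C ⊔ adjoin k (φ '' S) := by
  rw [mem_sup_iff, ← adjoin_map]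
  exact ⟨x, h, rfl⟩

theorem adjoin_eq_top (C : IntermediateField k L) {M : Type} [Field M] [Algebra C M]
    (φ : M →ₐ[C] L) (y : M) (h : ∀ x, φ x ∈ C ⊔ k⟮φ y⟯) : C⟮y⟯ = ⊤ := by
  refine eq_top_iff.2 fun x _ => ?_
  have h1 := h x
  rw [mem_sup_iff, ← Set.image_singleton, ← adjoin_map] at h1
  obtain ⟨z, hz, e⟩ := h1
  exact φ.injective e ▸ hz

/-- the statement for a valuation subring -/
theorem core (p : ℕ) [Fact p.Prime] [CharP k p] [IsAlgClosed k] [IsAlgClosed L]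
    (ht : ∀ (C : Type) [Field C] [Algebra C L] [IsAlgClosed C] [CharP C p] (Γ : Type)
      [LinearOrderedCommGroupWithZero Γ] (v : Valuation L Γ), Ctx C v → TowStmt C v ∧ EtvStmt C v)
    (C : IntermediateField k L) (y : L) (N : IntermediateField ↥(C ⊔ k⟮y⟯) L)
    (W : ValuationSubring L) (hk : ∀ c : k, algebraMap k L c ∈ W)
    (hC : ∀ x : L, IsAlgebraic C x → x ∈ C) (hy : Transcendental C y)
    [FiniteDimensional ↥(C ⊔ k⟮y⟯) N] [IsGalois ↥(C ⊔ k⟮y⟯) N]
    (hR : ∀ x ∈ W, ∃ c : k, ¬(x - algebraMap k L c ∈ W ∧ x - algebraMap k L c ≠ 0 ∧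
      (x - algebraMap k L c)⁻¹ ∈ W)) :
    ∃ (u η : L) (P : L[X]), u ∈ N ∧ η ∈ N ∧ Transcendental C u ∧ P.Monic ∧
      (∀ i, P.coeff i ∈ C ⊔ k⟮u⟯ ∧ P.coeff i ∈ W) ∧ P.eval η = 0 ∧
      W.valuation (P.derivative.eval η) = 1 ∧ ∀ x ∈ N, x ∈ C ⊔ k⟮u, η⟯ := by
  have := closed C hC
  have : CharP C p := charP_of_injective_algebraMap (algebraMap k C).injective p
  obtain ⟨h1, h2⟩ := ht C _ W.valuation (ctx C W hk hR)
  let _ : Algebra C ↥(C ⊔ k⟮y⟯) := (inclusion (le_sup_left : C ≤ C ⊔ k⟮y⟯)).toAlgebra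
  have : IsScalarTower C ↥(C ⊔ k⟮y⟯) L := IsScalarTower.of_algebraMap_eq fun _ => rfl
  let ψ : ↥(C ⊔ k⟮y⟯) →ₐ[C] L := IsScalarTower.toAlgHom C _ L
  let φ : N →ₐ[C] L := N.val.restrictScalars C
  let y' : ↥(C ⊔ k⟮y⟯) := ⟨y, (le_sup_right : k⟮y⟯ ≤ C ⊔ k⟮y⟯) (mem_adjoin_simple_self k y)⟩
  obtain ⟨u, hu, -⟩ := h1 ↥(C ⊔ k⟮y⟯) N φ y' (fun h => hy (h.algHom ψ))
    (adjoin_eq_top C ψ y' fun x => x.2)
  obtain ⟨η, P, hP⟩ := h2 N φ u hu
  have e : ∀ Q : N[X], (Q.map (φ : N →+* L)).eval (φ η) = φ (Q.eval η) := fun Q =>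
    eval_map_apply _ _
  refine ⟨φ u, φ η, P.map (φ : N →+* L), u.2, η.2,
    fun h => hu.fn.tr ((isAlgebraic_algHom_iff φ φ.injective).1 h), hP.monic.map _,
    fun i => ?_, by rw [e, hP.root, map_zero], by rw [derivative_map, e]; exact hP.der,
    fun x hx => ?_⟩
  · rw [coeff_map]
    refine ⟨?_, (W.valuation_le_one_iff _).1 (hP.coe i).2⟩
    have := map_mem C φ (hP.coe i).1
    rwa [Set.image_singleton] at this
  · have := map_mem C φ (hP.gen ⟨x, hx⟩)
    rwa [Set.image_pair] at this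

end FinH

theorem hr_of (p : ℕ) [Fact p.Prime] [CharP k p] [IsAlgClosed k] [IsAlgClosed L]
    (ht : ∀ (C : Type) [Field C] [Algebra C L] [IsAlgClosed C] [CharP C p] (Γ : Type)
      [LinearOrderedCommGroupWithZero Γ] (v : Valuation L Γ), Ctx C v → TowStmt C v ∧ EtvStmt C v) :
    HRStmt k L := by
  intro C y N V hC hy _ _ hV hR
  obtain ⟨u, η, P, h1, h2, h3, h4, h5, h6, h7, h8⟩ :=
    FinH.core p ht C y N ⟨V.toSubring, hV⟩ V.algebraMap_mem hC hy hR
  exact ⟨u, η, P, h1, h2, h3, h4, h5, h6, (FinH.unit_iff _ _).1 h7, h8⟩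

end Pool.Agent.MP_19ffc6_ag.Perf.Hr

end MrgPart1

-- marker of a merged file
example : 731051 + 437785 = 731051 + 437785 := rfl
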