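import Mathlib.Algebra.Polynomial.Lifts
import Mathlib.RingTheory.Polynomial.ScaleRoots
import Pool.Agent.MP_19ffc6_ag.perf.HrEtv
import Mathlib.RingTheory.Etale.Kaehler
import Mathlib.RingTheory.Etale.Field
import Mathlib.FieldTheory.RatFunc.AsPolynomial
import Mathlib.Algebra.Polynomial.Derivation
import Mathlib.Algebra.Ring.GeomSum
import Mathlib.Algebra.CharP.Algebra
import Mathlib.Algebra.CharP.Lemmas
import Mathlib.Data.Int.GCD
import Mathlib.RingTheory.Algebraic.Integral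

-- ======== part 0: formerly Pool.Agent.MP_19ffc6_ag.perf.HrCh
section MrgPart0

/-! PERF, block HR, row CH: small charts in the immediate case. -/

namespace Pool.Agent.MP_19ffc6_ag.Perf.Hr

open Polynomial IntermediateField

variable {C Γ : Type} [Field C] [LinearOrderedCommGroupWithZero Γ]

namespace ChP

variable {M : Type} [Field M] [Algebra C M] {w : Valuation M Γ}

lemma le_Lc (S : Subring M) : S ≤ Lc w S := fun x hx =>
  ⟨1, S.one_mem, map_one w, by simpa using hx⟩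

lemma Lc_mono {S T : Subring M} (h : S ≤ T) : Lc w S ≤ Lc w T :=
  fun _ ⟨g, hg, h1, h2⟩ => ⟨g, h hg, h1, h h2⟩

lemma ne_of_one {x : M} (h : w x = 1) : x ≠ 0 := fun h0 => by simp [h0] at h

lemma Lc_inv {S : Subring M} {x : M} (hx : x ∈ Lc w S) (h : w x = 1) : x⁻¹ ∈ Lc w S := by
  obtain ⟨g, hg, h1, h2⟩ := hx
  refine ⟨x * g, h2, by rw [map_mul, h, h1, one_mul], ?_⟩
  rwa [← mul_assoc, inv_mul_cancel₀ (ne_of_one h), one_mul]

lemma Lc_le {S T : Subring M} (h : S ≤ T) (hT : ∀ x ∈ T, w x = 1 → x⁻¹ ∈ T) : Lc w S ≤ T := by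
  rintro x ⟨g, hg, h1, h2⟩
  have := T.mul_mem (h h2) (hT g (h hg) h1)
  rwa [mul_assoc, mul_inv_cancel₀ (ne_of_one h1), mul_one] at this

lemma eval_mem {S : Subring M} {f : M[X]} {η : M} (hf : ∀ i, f.coeff i ∈ S) (hη : η ∈ S) :
    f.eval η ∈ S := by
  rw [eval_eq_sum_range]
  exact S.sum_mem fun i _ => S.mul_mem (hf i) (S.pow_mem hη i)

lemma aeval_mem {S : Subring M} {f : C[X]} {t : M} (hf : ∀ i, algebraMap C M (f.coeff i) ∈ S)
    (ht : t ∈ S) : aeval t f ∈ S := by
  rw [← eval_map_algebraMap]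
  exact eval_mem (fun i => by rw [coeff_map]; exact hf i) ht

lemma cst_mem {R : Subring C} {t η : M} {c : C} (hc : c ∈ R) : algebraMap C M c ∈ Rg R t η :=
  Subring.subset_closure (Or.inl ⟨c, hc, rfl⟩)

lemma t_mem {R : Subring C} {t η : M} : t ∈ Rg R t η := Subring.subset_closure (Or.inr (by simp))

lemma η_mem {R : Subring C} {t η : M} : η ∈ Rg R t η := Subring.subset_closure (Or.inr (by simp))

lemma Rg_le {R : Subring C} {t η : M} {S : Subring M} (h1 : ∀ c ∈ R, algebraMap C M c ∈ S)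
    (h2 : t ∈ S) (h3 : η ∈ S) : Rg R t η ≤ S := by
  refine Subring.closure_le.2 ?_
  rintro x (⟨c, hc, rfl⟩ | rfl | rfl)
  exacts [h1 c hc, h2, h3]

/-- evaluation of integral polynomials -/
noncomputable def φ (w : Valuation M Γ) (t : M) : (Oc C w)[X] →+* M :=
  (aeval t : C[X] →ₐ[C] M).toRingHom.comp (mapRingHom (Oc C w).subtype)

lemma φ_le {t : M} {S : Subring M} (h1 : ∀ c ∈ Oc C w, algebraMap C M c ∈ S) (h2 : t ∈ S) :
    (φ (C := C) w t).range ≤ S := by
  rintro x ⟨f, rfl⟩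
  exact aeval_mem (f := f.map (Oc C w).subtype) (fun i => by
    rw [coeff_map]; exact h1 _ (f.coeff i).2) h2

lemma cst_φ {t : M} {c : C} (hc : w (algebraMap C M c) ≤ 1) :
    algebraMap C M c ∈ (φ (C := C) w t).range :=
  ⟨Polynomial.C ⟨c, hc⟩, by simp [φ]⟩

lemma t_φ {t : M} : t ∈ (φ (C := C) w t).range := ⟨X, by simp [φ]⟩

/-- a disc that contains `u` -/
def Dc (w : Valuation M Γ) (u : M) (d : C × C) : Prop :=
  d.2 ≠ 0 ∧ w (u - algebraMap C M d.1) < w (algebraMap C M d.2)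

/-- the coordinate of a disc -/
def tt (u : M) (d : C × C) : M := d.2⁻¹ • (u - algebraMap C M d.1)

/-- the local ring of a disc -/
noncomputable def Bd (w : Valuation M Γ) (u : M) (d : C × C) : Subring M :=
  Lc w (φ (C := C) w (tt u d)).range

lemma w_smul (c : C) (x : M) : w (c • x) = w (algebraMap C M c) * w x := by
  rw [Algebra.smul_def, map_mul]

lemma w_pos {c : C} (hc : c ≠ 0) : 0 < w (algebraMap C M c) :=
  zero_lt_iff.2 (by simpa using hc)

lemma inv_smul_lt {ρ : C} (hρ : ρ ≠ 0) {x : M} :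
    w (ρ⁻¹ • x) < 1 ↔ w x < w (algebraMap C M ρ) := by
  rw [w_smul, map_inv₀, map_inv₀, inv_mul_lt_iff₀ (w_pos hρ), mul_one]

lemma ctr_lt {u : M} {c c' ρ : C} (h : w (u - algebraMap C M c) < w (algebraMap C M ρ))
    (h' : w (u - algebraMap C M c') < w (algebraMap C M ρ)) (hρ : ρ ≠ 0) :
    w (algebraMap C M ((c' - c) / ρ)) < 1 := by
  have e : algebraMap C M ((c' - c) / ρ) =
      ρ⁻¹ • ((u - algebraMap C M c) - (u - algebraMap C M c')) := by
    rw [Algebra.smul_def, map_div₀, map_sub, map_inv₀]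
    ring
  rw [e, inv_smul_lt hρ]
  exact w.map_sub_lt h h'

lemma Bd_mono {u : M} {d d' : C × C} (h : Dc w u d) (h' : Dc w u d')
    (hle : w (algebraMap C M d'.2) ≤ w (algebraMap C M d.2)) : Bd w u d ≤ Bd w u d' := by
  refine Lc_mono (φ_le (fun c hc => cst_φ hc) ?_)
  have e : tt u d = algebraMap C M ((d'.1 - d.1) / d.2) +
      algebraMap C M (d'.2 / d.2) * tt u d' := by
    have h1 : algebraMap C M d.2 ≠ 0 := by simpa using h.1
    have h2 : algebraMap C M d'.2 ≠ 0 := by simpa using h'.1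
    simp only [tt, Algebra.smul_def, map_div₀, map_sub, map_inv₀]
    field_simp
    ring
  rw [e]
  refine Subring.add_mem _ (cst_φ (ctr_lt h.2 (h'.2.trans_le hle) h.1).le)
    (Subring.mul_mem _ (cst_φ ?_) t_φ)
  rw [map_div₀, map_div₀]
  exact div_le_one_of_le₀ hle zero_le

lemma two {u : M} {d d' : C × C} (h : Dc w u d) (h' : Dc w u d') :
    ∃ d'' : C × C, Dc w u d'' ∧ Bd w u d ≤ Bd w u d'' ∧ Bd w u d' ≤ Bd w u d'' := by
  rcases le_total (w (algebraMap C M d'.2)) (w (algebraMap C M d.2)) with hle | hle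
  · exact ⟨d', h', Bd_mono h h' hle, le_rfl⟩
  · exact ⟨d, h, le_rfl, Bd_mono h' h hle⟩

/-- a constant times a unit of the local ring of a disc -/
def Un (C : Type) [Field C] [Algebra C M] (w : Valuation M Γ) (u x : M) : Prop :=
  ∃ d : C × C, Dc w u d ∧ ∃ (e : C) (ε : M), e ≠ 0 ∧ ε ∈ Bd w u d ∧ w ε = 1 ∧ x = e • ε

lemma Un.mul {u x y : M} (h : Un C w u x) (h' : Un C w u y) : Un C w u (x * y) := by
  obtain ⟨d, hd, e, ε, he, h1, h2, rfl⟩ := h
  obtain ⟨d', hd', e', ε', he', h1', h2', rfl⟩ := h'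
  obtain ⟨d'', hd'', l1, l2⟩ := two hd hd'
  exact ⟨d'', hd'', e * e', ε * ε', mul_ne_zero he he', Subring.mul_mem _ (l1 h1) (l2 h1'),
    by rw [map_mul, h2, h2', one_mul], smul_mul_smul_comm _ _ _ _⟩

lemma Un.inv {u x : M} (h : Un C w u x) : Un C w u x⁻¹ := by
  obtain ⟨d, hd, e, ε, he, h1, h2, rfl⟩ := h
  exact ⟨d, hd, e⁻¹, ε⁻¹, inv_ne_zero he, Lc_inv h1 h2, by rw [map_inv₀, h2, inv_one],
    smul_inv₀ _ _⟩

lemma un_lin {u : M} (hc : Ctx C w) (hu : Transcendental C u) (h4 : T4 C w) (r : C) :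
    Un C w u (u - algebraMap C M r) := by
  have h0 : u - algebraMap C M r ≠ 0 := fun h =>
    hu (sub_eq_zero.1 h ▸ isAlgebraic_algebraMap r)
  obtain ⟨ρ, hρ⟩ := h4 (u - algebraMap C M r)
  have ρ0 : ρ ≠ 0 := fun h => h0 (by simpa [h] using hρ)
  have h1 : w (ρ⁻¹ • (u - algebraMap C M r)) = 1 := by
    rw [w_smul, hρ, ← map_mul, ← map_mul, inv_mul_cancel₀ ρ0, map_one, map_one]
  obtain ⟨o, ho⟩ := hc.res _ h1.le
  have e : tt u (r + ρ * o, ρ) = ρ⁻¹ • (u - algebraMap C M r) - algebraMap C M o := by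
    have h2 : algebraMap C M ρ ≠ 0 := by simpa using ρ0
    simp only [tt, Algebra.smul_def, map_add, map_mul, map_inv₀]
    field_simp
    ring
  have h3 : w (algebraMap C M o) ≤ 1 := by
    have := w.map_sub_le h1.le ho.le
    rwa [sub_sub_cancel] at this
  refine ⟨(r + ρ * o, ρ), ⟨ρ0, (inv_smul_lt ρ0).1 (e ▸ ho : w (tt u (r + ρ * o, ρ)) < 1)⟩, ρ, _,
    ρ0, le_Lc _ ?_, h1, (smul_inv_smul₀ ρ0 _).symm⟩
  rw [eq_add_of_sub_eq e.symm]
  exact Subring.add_mem _ t_φ (cst_φ h3)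

lemma un_cst {u : M} (hc : Ctx C w) (hu : Transcendental C u) (h4 : T4 C w) {c : C}
    (h0 : c ≠ 0) : Un C w u (algebraMap C M c) := by
  obtain ⟨d, hd, -⟩ := un_lin hc hu h4 0
  exact ⟨d, hd, c, 1, h0, Subring.one_mem _, map_one w, Algebra.algebraMap_eq_smul_one c⟩

lemma un_poly [IsAlgClosed C] {u : M} (hc : Ctx C w) (hu : Transcendental C u) (h4 : T4 C w)
    {f : C[X]} (h0 : f ≠ 0) : Un C w u (aeval u f) := by
  rw [(IsAlgClosed.splits f).eq_prod_roots, map_mul, aeval_C]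
  refine (un_cst hc hu h4 (leadingCoeff_ne_zero.2 h0)).mul ?_
  induction f.roots using Multiset.induction_on with
  | empty => simpa using un_cst hc hu h4 (one_ne_zero (α := C))
  | cons a s ih =>
    rw [Multiset.map_cons, Multiset.prod_cons, map_mul]
    exact Un.mul (by simpa using un_lin hc hu h4 a) ih

lemma mem_Bd [IsAlgClosed C] {u : M} (hc : Ctx C w) (hu : Transcendental C u) (h4 : T4 C w)
    {x : M} (hx : x ∈ C⟮u⟯) (h1 : w x ≤ 1) : ∃ d : C × C, Dc w u d ∧ x ∈ Bd w u d := by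
  rcases eq_or_ne x 0 with rfl | h0
  · obtain ⟨d, hd, -⟩ := un_lin hc hu h4 0
    exact ⟨d, hd, Subring.zero_mem _⟩
  obtain ⟨f, g, rfl⟩ := (mem_adjoin_simple_iff C x).1 hx
  have hf : f ≠ 0 := fun h => h0 (by simp [h])
  have hg : g ≠ 0 := fun h => h0 (by simp [h])
  obtain ⟨d, hd, e, ε, -, h2, h3, h5⟩ := (un_poly hc hu h4 hf).mul (un_poly hc hu h4 hg).inv
  rw [div_eq_mul_inv, h5] at h1 ⊢
  rw [w_smul, h3, mul_one] at h1
  exact ⟨d, hd, by
    rw [Algebra.smul_def]; exact Subring.mul_mem _ (le_Lc _ (cst_φ h1)) h2⟩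

lemma fin_Bd [IsAlgClosed C] {u : M} (hc : Ctx C w) (hu : Transcendental C u) (h4 : T4 C w)
    {ι : Type} (Z : Finset ι) (p : ι → Subring M → Prop)
    (hm : ∀ i S T, S ≤ T → p i S → p i T)
    (h : ∀ i ∈ Z, ∃ d : C × C, Dc w u d ∧ p i (Bd w u d)) :
    ∃ d : C × C, Dc w u d ∧ ∀ i ∈ Z, p i (Bd w u d) := by
  classical
  induction Z using Finset.induction_on with
  | empty =>
    obtain ⟨d, hd, -⟩ := un_lin hc hu h4 0
    exact ⟨d, hd, by simp⟩
  | insert a s _ ih =>
    obtain ⟨d, hd, h1⟩ := h a (Finset.mem_insert_self _ _)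
    obtain ⟨d', hd', h2⟩ := ih fun i hi => h i (Finset.mem_insert_of_mem hi)
    obtain ⟨d'', hd'', l1, l2⟩ := two hd hd'
    refine ⟨d'', hd'', fun i hi => ?_⟩
    rcases Finset.mem_insert.1 hi with rfl | hi
    exacts [hm _ _ _ l1 h1, hm _ _ _ l2 (h2 i hi)]

lemma in_Bd [IsAlgClosed C] {u : M} (hc : Ctx C w) (hu : Transcendental C u) (h4 : T4 C w)
    {f : M[X]} (hf : In C w u f) : ∃ d : C × C, Dc w u d ∧ ∀ i, f.coeff i ∈ Bd w u d := by
  obtain ⟨d, hd, h⟩ := fin_Bd hc hu h4 f.support (fun i S => f.coeff i ∈ S)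
    (fun _ _ _ h h' => h h') fun i _ => mem_Bd hc hu h4 (hf i).1 (hf i).2
  refine ⟨d, hd, fun i => ?_⟩
  by_cases hi : i ∈ f.support
  · exact h i hi
  · rw [notMem_support_iff.1 hi]
    exact Subring.zero_mem _

lemma den {S : Subring M} {f : M[X]} (hf : ∀ i, f.coeff i ∈ Lc w S) :
    ∃ s ∈ S, w s = 1 ∧ ∀ i, f.coeff i * s ∈ S := by
  classical
  choose g h1 h2 h3 using hf
  refine ⟨∏ i ∈ f.support, g i, S.prod_mem fun i _ => h1 i, by simp [map_prod, h2], fun i => ?_⟩
  by_cases hi : i ∈ f.support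
  · rw [← Finset.mul_prod_erase _ _ hi, ← mul_assoc]
    exact S.mul_mem (h3 i) (S.prod_mem fun j _ => h1 j)
  · rw [notMem_support_iff.1 hi, zero_mul]
    exact S.zero_mem

lemma ev2_eq (t η : M) (Q : C[X][X]) :
    ev2 t η Q = (Q.map (aeval t : C[X] →ₐ[C] M).toRingHom).eval η := by
  rw [eval_map]
  rfl

lemma scale_comp (P : M[X]) (s : M) :
    (P.scaleRoots s).comp (Polynomial.C s * X) = Polynomial.C (s ^ P.natDegree) * P := by
  ext i
  rw [comp_C_mul_X_coeff, coeff_scaleRoots, coeff_C_mul]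
  rcases le_or_gt i P.natDegree with h | h
  · rw [mul_assoc, ← pow_add, Nat.sub_add_cancel h, mul_comm]
  · simp [coeff_eq_zero_of_natDegree_lt h]

end ChP

open ChP

theorem ch [IsAlgClosed C] : ChStmt C Γ := by
  intro M _ _ w u η P hc hu hP h4 F
  obtain ⟨d1, hd1, k1⟩ := in_Bd hc hu h4 hP.coe
  obtain ⟨d2, hd2, k2⟩ := fin_Bd hc hu h4 F (fun x S => w x ≤ 1 → ∃ f g : M[X],
      (∀ i, f.coeff i ∈ S) ∧ (∀ i, g.coeff i ∈ S) ∧ w (g.eval η) = 1 ∧ x * g.eval η = f.eval η)
    (fun _ _ _ h h' hx => by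
      obtain ⟨f, g, a1, a2, a3⟩ := h' hx
      exact ⟨f, g, fun i => h (a1 i), fun i => h (a2 i), a3⟩)
    fun x _ => by
      by_cases hx : w x ≤ 1
      · obtain ⟨f, g, a1, a2, a3⟩ := hP.loc x hx
        obtain ⟨d, hd, b1⟩ := in_Bd hc hu h4 a1
        obtain ⟨d', hd', b2⟩ := in_Bd hc hu h4 a2
        obtain ⟨d'', hd'', l1, l2⟩ := two hd hd'
        exact ⟨d'', hd'', fun _ => ⟨f, g, fun i => l1 (b1 i), fun i => l2 (b2 i), a3⟩⟩
      · exact ⟨d1, hd1, fun h => absurd h hx⟩
  obtain ⟨d, hd, l1, l2⟩ := two hd1 hd2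
  obtain ⟨s, hs, s1, hsP⟩ := den fun i => l1 (k1 i)
  have s0 := ne_of_one s1
  have hl : P.scaleRoots s ∈ lifts (φ (C := C) w (tt u d)) := by
    refine (lifts_iff_coeff_lifts _).2 fun i => ?_
    change _ ∈ (φ (C := C) w (tt u d)).range
    rw [coeff_scaleRoots]
    rcases lt_trichotomy i P.natDegree with h | rfl | h
    · obtain ⟨k, hk⟩ : ∃ k, P.natDegree - i = k + 1 := ⟨P.natDegree - i - 1, by omega⟩
      rw [hk, pow_succ', ← mul_assoc]
      exact Subring.mul_mem _ (hsP i) (Subring.pow_mem _ hs k)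
    · simp [hP.monic.coeff_natDegree]
    · simp [coeff_eq_zero_of_natDegree_lt h]
  obtain ⟨Q, hQ, dQ, mQ⟩ := lifts_and_degree_eq_and_monic hl
    ((monic_scaleRoots_iff s).2 hP.monic)
  have hm : (Q.map (mapRingHom (Oc C w).subtype)).map
      (aeval (tt u d) : C[X] →ₐ[C] M).toRingHom = P.scaleRoots s := by
    rw [Polynomial.map_map]
    exact hQ
  have mP := mQ.map (mapRingHom (Oc C w).subtype)
  have hroot : ev2 (tt u d) (s * η) (Q.map (mapRingHom (Oc C w).subtype)) = 0 := by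
    rw [ev2_eq, hm, scaleRoots_eval_mul, hP.root, mul_zero]
  have tu : tt u d ∈ C⟮u⟯ :=
    C⟮u⟯.smul_mem (sub_mem (mem_adjoin_simple_self C u) (C⟮u⟯.algebraMap_mem _))
  have φu : (φ (C := C) w (tt u d)).range ≤ C⟮u⟯.toSubring :=
    φ_le (fun c _ => C⟮u⟯.algebraMap_mem c) tu
  have tr : Transcendental C (tt u d) := fun h => hu (by
    have := (h.smul d.2).add (isAlgebraic_algebraMap d.1)
    rwa [tt, smul_inv_smul₀ hd.1, sub_add_cancel] at this)
  refine ⟨d.1, d.2, s * η, Q.map (mapRingHom (Oc C w).subtype), hd.1,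
    ⟨(inv_smul_lt hd.1).2 hd.2, by rw [map_mul, s1, one_mul]; exact hP.int, mP, fun i j => ?_,
      hroot, ?_, fun R hR => ?_⟩, fun x hx h1 => ?_⟩
  · rw [coeff_map, coe_mapRingHom, coeff_map]
    exact ((Q.coeff i).coeff j).2
  · have h1 := congrArg (fun f => w (eval η (derivative f))) (scale_comp P s)
    simp only [derivative_comp, derivative_C_mul, derivative_X, mul_one, eval_mul, eval_C,
      eval_comp, eval_X, w.map_mul, w.map_pow, s1, hP.der, one_pow, one_mul] at h1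
    change w (ev2 (tt u d) _ _) = 1
    rwa [ev2_eq, ← derivative_map, hm]
  · change ev2 (tt u d) _ _ = 0 at hR
    rw [← modByMonic_eq_zero_iff_dvd mP]
    set R' := R %ₘ Q.map (mapRingHom (Oc C w).subtype) with hR'
    have h1 : ev2 (tt u d) (s * η) R' = 0 := by
      rw [hR', modByMonic_eq_sub_mul_div, map_sub, map_mul, hR, hroot, zero_mul, sub_zero]
    have h2 : R'.degree < P.degree := by
      rw [← degree_scaleRoots P (s := s), ← dQ, ← mQ.degree_map (mapRingHom (Oc C w).subtype)]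
      exact degree_modByMonic_lt R mP
    have h3 := hP.min ((R'.map (aeval (tt u d) : C[X] →ₐ[C] M).toRingHom).comp
      (Polynomial.C s * X)) (fun i => by
        rw [comp_C_mul_X_coeff, coeff_map]
        exact mul_mem (aeval_mem (S := C⟮u⟯.toSubring) (fun j => C⟮u⟯.algebraMap_mem _) tu)
          (pow_mem (φu hs) i))
      (by rw [eval_comp, eval_mul, eval_C, eval_X, ← ev2_eq, h1])
      (lt_of_le_of_lt ((degree_le_iff_coeff_zero _ _).2 fun i hi => by
        rw [comp_C_mul_X_coeff, coeff_map, coeff_eq_zero_of_degree_lt hi, map_zero, zero_mul]) h2)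
    ext1 i
    have h5 := congrArg (fun f => f.coeff i) h3
    simp only [comp_C_mul_X_coeff, coeff_map, coeff_zero, mul_eq_zero, pow_eq_zero_iff', s0,
      false_and, or_false] at h5
    exact (transcendental_iff.1 tr) _ h5
  · obtain ⟨f, g, a1, a2, a3, a4⟩ := k2 x hx h1
    change x ∈ Lc w (Rg (Oc C w) (tt u d) (s * η))
    have l3 : (φ (C := C) w (tt u d)).range ≤ Rg (Oc C w) (tt u d) (s * η) :=
      φ_le (fun c hc => cst_mem hc) t_mem
    have hη : η ∈ Lc w (Rg (Oc C w) (tt u d) (s * η)) :=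
      ⟨s, l3 hs, s1, by rw [mul_comm]; exact η_mem⟩
    have b1 := eval_mem (fun i => Lc_mono l3 (l2 (a1 i))) hη
    have b2 := eval_mem (fun i => Lc_mono l3 (l2 (a2 i))) hη
    rw [(eq_mul_inv_iff_mul_eq₀ (ne_of_one a3)).2 a4]
    exact Subring.mul_mem _ b1 (Lc_inv b2 a3)

end Pool.Agent.MP_19ffc6_ag.Perf.Hr

end MrgPart0

-- ======== part 1: formerly Pool.Agent.MP_19ffc6_ag.perf.HrDer
section MrgPart1

/-! Row DER: derivations of function fields and separating variables. -/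

namespace Pool.Agent.MP_19ffc6_ag.Perf.Hr

open Polynomial IntermediateField

namespace DerAux

variable {C : Type} [Field C]

/-- derivations extend along formally etale maps -/
lemma extend {R S : Type} [CommRing R] [CommRing S] [Algebra C R] [Algebra C S] [Algebra R S]
    [IsScalarTower C R S] [Algebra.FormallyEtale R S] (D : Derivation C R S) :
    ∃ D' : Derivation C S S, ∀ x, D' (algebraMap R S x) = D x := by
  have h := KaehlerDifferential.isBaseChange_of_formallyEtale C R S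
  refine ⟨(h.lift D.liftKaehlerDifferential).compDer (KaehlerDifferential.D C S), fun x => ?_⟩
  change h.lift D.liftKaehlerDifferential (KaehlerDifferential.D C S (algebraMap R S x)) = D x
  rw [← KaehlerDifferential.map_D C C R S, h.lift_eq, Derivation.liftKaehlerDifferential_comp_D]

lemma up {M M' : Type} [Field M] [Algebra C M] [Field M'] [Algebra C M'] [Algebra M M']
    [IsScalarTower C M M'] [Algebra.IsSeparable M M'] (D : Derivation C M M) :
    ∃ D' : Derivation C M' M', ∀ x, D' (algebraMap M M' x) = algebraMap M M' (D x) := by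
  have := Algebra.FormallyEtale.of_isSeparable M M'
  exact extend ((Algebra.linearMap M M').compDer D)

lemma ex {M : Type} [Field M] [Algebra C M] {u : M} (h : Fn C u) :
    ∃ D : Derivation C M M, D u = 1 := by
  let : Algebra C[X] C⟮u⟯ := (aeval (AdjoinSimple.gen C u) : C[X] →ₐ[C] C⟮u⟯).toAlgebra
  have : IsScalarTower C C[X] C⟮u⟯ := .of_algebraMap_eq fun c =>
    ((aeval (AdjoinSimple.gen C u) : C[X] →ₐ[C] C⟮u⟯).commutes c).symm
  have : Algebra.FormallyEtale C[X] (RatFunc C) :=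
    Algebra.FormallyEtale.of_isLocalization (nonZeroDivisors C[X])
  have : Algebra.FormallyEtale C[X] C⟮u⟯ := .of_equiv (A := RatFunc C)
    { RatFunc.algEquivOfTranscendental u h.tr with
      commutes' := RatFunc.algEquivOfTranscendental_algebraMap u h.tr }
  obtain ⟨D₀, h₀⟩ := extend (mkDerivation C (1 : C⟮u⟯))
  have h1 : D₀ (AdjoinSimple.gen C u) = 1 := by
    have := h₀ X
    rwa [mkDerivation_X, show algebraMap C[X] C⟮u⟯ X = AdjoinSimple.gen C u from aeval_X _] at this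
  have := h.sep
  obtain ⟨D, hD⟩ := up (M' := M) D₀
  exact ⟨D, by simpa [h1] using hD (AdjoinSimple.gen C u)⟩

/-- a derivation that vanishes on a subfield vanishes on the separable elements -/
lemma zero_of_sep {E L N : Type} [Field E] [Field L] [Algebra C L] [Algebra E L] [AddCommGroup N]
    [Module L N] [Module C N] [Algebra.IsSeparable E L] (δ : Derivation C L N)
    (h : ∀ e, δ (algebraMap E L e) = 0) (x : L) : δ x = 0 := by
  have key : ∀ P : E[X], δ (aeval x P) = aeval x (derivative P) • δ x := fun P => by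
    induction P using Polynomial.induction_on' with
    | add P Q hP hQ => simp only [map_add, hP, hQ, add_smul]
    | monomial n a =>
      rw [aeval_monomial, derivative_monomial, aeval_monomial, Derivation.leibniz, h, smul_zero,
        add_zero, Derivation.leibniz_pow, map_mul, map_natCast, ← Nat.cast_smul_eq_nsmul L,
        smul_smul, smul_smul]
  have h1 := key (minpoly E x)
  rw [minpoly.aeval, map_zero] at h1
  exact (smul_eq_zero.1 h1.symm).resolve_left
    ((Algebra.IsSeparable.isSeparable E x).aeval_derivative_ne_zero (minpoly.aeval E x))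

/-- a derivation is determined by its value at a separating variable -/
lemma zero_of {M M' N : Type} [Field M] [Algebra C M] [Field M'] [Algebra C M'] [Algebra M M']
    [IsScalarTower C M M'] [Algebra.IsSeparable M M'] [AddCommGroup N] [Module M' N] [Module C N]
    {u : M} (h : Fn C u) (δ : Derivation C M' N) (h0 : δ (algebraMap M M' u) = 0) (x : M') :
    δ x = 0 := by
  have := h.sep
  have h1 : ∀ e ∈ C⟮u⟯, δ (algebraMap M M' e) = 0 := fun e he => by
    induction he using IntermediateField.adjoin_induction with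
    | mem y hy => rw [Set.mem_singleton_iff.1 hy, h0]
    | algebraMap c => rw [← IsScalarTower.algebraMap_apply, Derivation.map_algebraMap]
    | add y z _ _ hy hz => rw [map_add, map_add, hy, hz, add_zero]
    | inv y _ hy => rw [map_inv₀, Derivation.leibniz_inv, hy, smul_zero]
    | mul y z _ _ hy hz => rw [map_mul, Derivation.leibniz, hy, hz, smul_zero, smul_zero, add_zero]
  have : Algebra.IsSeparable C⟮u⟯ M' := Algebra.IsSeparable.trans C⟮u⟯ M M'
  exact zero_of_sep (E := C⟮u⟯) δ (fun e => h1 e e.2) x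

lemma sep [IsAlgClosed C] {M M' : Type} [Field M] [Algebra C M] [Field M'] [Algebra C M']
    [Algebra M M'] [IsScalarTower C M M'] [FiniteDimensional M M'] [Algebra.IsSeparable M M']
    {u : M} (D' : Derivation C M' M') {z : M'} (h : Fn C u) (hz : D' z ≠ 0) : Fn C z := by
  obtain ⟨D, hD⟩ := ex h
  obtain ⟨D₀, h₀⟩ := up (M' := M') D
  have h1 : D₀ (algebraMap M M' u) = 1 := by rw [h₀, hD, map_one]
  have key : ∀ (N : Type) [AddCommGroup N] [Module M' N] [Module C N] [IsScalarTower C M' N]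
      (δ : Derivation C M' N) (x : M'), δ x = D₀ x • δ (algebraMap M M' u) := by
    intro N _ _ _ _ δ x
    have := zero_of h (δ - (LinearMap.toSpanSingleton M' N (δ (algebraMap M M' u))).compDer D₀)
      (by
        change δ _ - D₀ _ • δ _ = 0
        rw [h1, one_smul, sub_self]) x
    exact sub_eq_zero.1 this
  have h2 : D₀ z ≠ 0 := fun e => hz (by rw [key _ D' z, e, zero_smul])
  have := h.fin
  have : Algebra.EssFiniteType C C⟮u⟯ :=
    essFiniteType_iff.2 ⟨{u}, by rw [Finset.coe_singleton]⟩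
  have : Algebra.EssFiniteType C M := .comp C C⟮u⟯ M
  have : Algebra.EssFiniteType C M' := .comp C M M'
  have : Algebra.EssFiniteType C⟮z⟯ M' := .of_comp C _ _
  have : Algebra.FormallyUnramified C⟮z⟯ M' := by
    have h3 := key _ ((KaehlerDifferential.D C⟮z⟯ M').restrictScalars C)
    have h4 : KaehlerDifferential.D C⟮z⟯ M' z = 0 :=
      (KaehlerDifferential.D C⟮z⟯ M').map_algebraMap (AdjoinSimple.gen C z)
    have h5 : KaehlerDifferential.D C⟮z⟯ M' (algebraMap M M' u) = 0 :=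
      (smul_eq_zero.1 ((h3 z).symm.trans h4)).resolve_left h2
    have h6 : ∀ x, KaehlerDifferential.D C⟮z⟯ M' x = 0 := fun x =>
      (h3 x).trans (by
        change D₀ x • KaehlerDifferential.D C⟮z⟯ M' (algebraMap M M' u) = 0
        rw [h5, smul_zero])
    refine ⟨subsingleton_iff_forall_eq 0 |>.2 fun ω => ?_⟩
    have h7 : (⊤ : Submodule M' Ω[M'⁄C⟮z⟯]) ≤ ⊥ := by
      rw [← KaehlerDifferential.span_range_derivation, Submodule.span_le]
      rintro _ ⟨x, rfl⟩
      exact h6 x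
    exact h7 Submodule.mem_top
  have hs := Algebra.FormallyUnramified.isSeparable C⟮z⟯ M'
  refine ⟨fun ha => hz ?_, Algebra.finite_of_essFiniteType_of_isAlgebraic, hs⟩
  obtain ⟨c, rfl⟩ := minpoly.mem_range_of_degree_eq_one C z
    (IsAlgClosed.degree_eq_one_of_irreducible C (minpoly.irreducible ha.isIntegral))
  exact D'.map_algebraMap c

end DerAux

variable {C : Type} [Field C] [IsAlgClosed C]

/-- the statement holds in every characteristic -/
theorem der' : Der C where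
  ex _ _ _ _ h := DerAux.ex h
  up _ _ _ _ _ _ _ _ _ _ D := DerAux.up D
  sep _ _ _ _ _ _ _ _ _ _ _ D' _ h hz := DerAux.sep D' h hz

theorem der (p : ℕ) [Fact p.Prime] [CharP C p] : Der C := der'

end Pool.Agent.MP_19ffc6_ag.Perf.Hr

end MrgPart1

-- ======== part 2: formerly Pool.Agent.MP_19ffc6_ag.perf.HrT3
section MrgPart2

/-! Henselian rationality: the Kummer steps and the value transcendental Artin-Schreier step. -/

namespace Pool.Agent.MP_19ffc6_ag.Perf.Hr

open Polynomial IntermediateField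

variable {C Ω Γ : Type} [Field C] [Field Ω] [Algebra C Ω] [LinearOrderedCommGroupWithZero Γ]
  {v : Valuation Ω Γ} {p : ℕ}

namespace Tt

section U
variable {m : Γ} {x y : Ω}

theorem u_val (hm : m ≤ 1) (hx : v (x - 1) < m) : v x = 1 := by
  have := v.map_one_add_of_lt (hx.trans_le hm)
  rwa [add_sub_cancel] at this

theorem u_mul (hm : m ≤ 1) (hx : v (x - 1) < m) (hy : v (y - 1) < m) : v (x * y - 1) < m := by
  rw [show x * y - 1 = x * (y - 1) + (x - 1) by ring]
  exact v.map_add_lt (by rwa [map_mul, u_val hm hx, one_mul]) hx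

theorem ne_of_val (hx : v x = 1) : x ≠ 0 := fun h => by simp [h] at hx

theorem u_inv (hm : m ≤ 1) (hx : v (x - 1) < m) : v (x⁻¹ - 1) < m := by
  have h1 := u_val hm hx
  have h0 := ne_of_val h1
  rwa [show x⁻¹ - 1 = -(x⁻¹ * (x - 1)) by field_simp; ring, v.map_neg, map_mul, map_inv₀, h1,
    inv_one, one_mul]

theorem u_pow (hm : m ≤ 1) (hx : v (x - 1) < m) (n : ℕ) : v (x ^ n - 1) < m := by
  induction n with
  | zero => simpa using zero_le.trans_lt hx
  | succ n ih => rw [pow_succ]; exact u_mul hm ih hx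

theorem u_zpow (hm : m ≤ 1) (hx : v (x - 1) < m) (n : ℤ) : v (x ^ n - 1) < m := by
  cases n with
  | ofNat n => simpa using u_pow hm hx n
  | negSucc n => rw [zpow_negSucc]; exact u_inv hm (u_pow hm hx _)

theorem u_div (hy : v y = 1) (h : v (x - y) < m) : v (x / y - 1) < m := by
  rwa [div_sub_one (ne_of_val hy), map_div₀, hy, div_one]

theorem val_fix (hp : 2 ≤ p) (hx : x ^ p = x) (h0 : x ≠ 0) : v x = 1 := by
  obtain ⟨k, rfl⟩ : ∃ k, p = k + 1 := ⟨p - 1, by omega⟩
  have h1 : x ^ k = 1 := mul_right_cancel₀ h0 (by rw [← pow_succ, hx, one_mul])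
  have h2 : v x ^ k = 1 ^ k := by rw [← map_pow, h1, map_one, one_pow]
  exact (pow_left_inj₀ zero_le zero_le (by omega)).1 h2

theorem val_int (p : ℕ) [Fact p.Prime] [CharP Ω p] {n : ℤ} (hn : (n : Ω) ≠ 0) : v n = 1 :=
  val_fix (Fact.out : p.Prime).two_le (map_intCast (frobenius Ω p) n) hn

theorem val_int_le (p : ℕ) [Fact p.Prime] [CharP Ω p] (n : ℤ) : v n ≤ 1 := by
  rcases eq_or_ne (n : Ω) 0 with h | h
  · simp [h]
  · exact (val_int p h).le

theorem root_one {l : ℕ} (hl : v l = 1) (hx : x ^ l = 1) (h : v (x - 1) < 1) : x = 1 := by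
  by_contra hne
  have h1 := geom_sum_mul x l
  rw [hx, sub_self, mul_eq_zero, sub_eq_zero] at h1
  have h2 : v (∑ i ∈ Finset.range l, (x ^ i - 1)) < 1 :=
    v.map_sum_lt one_ne_zero fun i _ => u_pow le_rfl h i
  rw [Finset.sum_sub_distrib, h1.resolve_right hne] at h2
  simp [hl] at h2

end U

variable {M M' : Type} [Field M] [Algebra C M] [Field M'] [Algebra C M'] [Algebra M M']
  [IsScalarTower C M M']

/-- a Kummer extension without ramification is split -/
theorem nsk (hb : Bas C v) (φ : M' →ₐ[C] Ω) {a g : M} {α : M'} {l : ℕ} (hl : v l = 1)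
    (ha : α ^ l = algebraMap M M' a) (hg : v (φ α) ^ l = v (dn M φ g) ^ l) : ¬ NS v M φ α := by
  rintro ⟨σ, h1, h2, h3⟩
  have e : ∀ x, σ (algebraMap M M' x) = φ (algebraMap M M' x) := DFunLike.congr_fun h1
  have l0 : l ≠ 0 := fun h => by simp [h] at hl
  have hg' := (pow_left_inj₀ zero_le zero_le l0).1 hg
  have a0 : φ α ≠ 0 := fun h => h3 (by rw [(map_eq_zero φ).1 h, map_zero, map_zero])
  have g0 : φ (algebraMap M M' g) ≠ 0 := fun h => by
    rw [dn_apply, h, map_zero] at hg'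
    exact a0 (by simpa using hg')
  have b1 : v (φ (α / algebraMap M M' g)) = 1 := by
    rw [map_div₀, map_div₀, hg', dn_apply, div_self (by simpa using g0)]
  have b2 := u_div b1 (hb.iso_res M' φ σ h2 _ b1.le)
  rw [map_div₀, map_div₀, e, div_div_div_cancel_right₀ g0] at b2
  refine h3 ((div_eq_one_iff_eq a0).1 (root_one hl ?_ b2))
  rw [div_pow, ← map_pow, ← map_pow, ha, e, ← ha, map_pow, div_self (pow_ne_zero _ a0)]

theorem ne_of_T3 {w : Valuation M Γ} {u : M} (h3 : T3 C w u) : u ≠ 0 := fun h =>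
  h3 0 (by rw [h, map_zero (algebraMap C M)])

/-- the valuation ring is generated by the small monomials -/
theorem ind (hq : Dq C v) (he : EtvStmt C v) {φ : M →ₐ[C] Ω} {u : M} (hco : Co v φ u)
    (h3 : T3 C (vm v φ) u) {S : Subring M} (hS : Cls (vm v φ) S)
    (h0 : ∀ c : C, vm v φ (algebraMap C M c) ≤ 1 → algebraMap C M c ∈ S)
    (h1 : ∀ c : C, vm v φ (c • u) < 1 → c • u ∈ S)
    (h2 : ∀ c : C, vm v φ (c • u⁻¹) < 1 → c • u⁻¹ ∈ S) (x : M) (hx : v (φ x) ≤ 1) : x ∈ S := by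
  obtain ⟨η, P, hP⟩ := he M φ u hco
  exact hq.pres M _ u η P S hP hS (hq.ext3 M _ u S h3 hS.inv h0 h1 h2) x hx

theorem dec (hq : Dq C v) (he : EtvStmt C v) {φ : M →ₐ[C] Ω} {u : M} (hco : Co v φ u)
    (h3 : T3 C (vm v φ) u) {f : M} (hf : f ≠ 0) :
    ∃ (c : C) (n : ℤ) (ε : M), c ≠ 0 ∧ v (φ ε) = 1 ∧ f = c • u ^ n * ε := by
  obtain ⟨η, P, hP⟩ := he M φ u hco
  obtain ⟨e, he, h1⟩ := hP.imm f
  obtain ⟨c, n, hc, h2⟩ := hq.val3 M _ u h3 e he fun h => hf (by simpa [h] using h1)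
  have h0 : c • u ^ n ≠ 0 := smul_ne_zero hc (zpow_ne_zero _ (ne_of_T3 h3))
  refine ⟨c, n, f / (c • u ^ n), hc, ?_, (mul_div_cancel₀ _ h0).symm⟩
  rw [← vm_apply, map_div₀, h1, h2, div_self (by rwa [Ne, map_eq_zero])]

/-- `u D` is small on the valuation ring -/
theorem thl (hq : Dq C v) (he : EtvStmt C v) {φ : M →ₐ[C] Ω} {u : M} (hco : Co v φ u)
    (h3 : T3 C (vm v φ) u) {D : Derivation C M M} (hD : D u = 1) (x : M) (hx : v (φ x) ≤ 1) :
    v (φ (u * D x)) < 1 := by
  obtain ⟨S, hS, hm⟩ := hq.dl M (vm v φ) (u • D)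
  have u0 := ne_of_T3 h3
  refine ((hm x).1 (ind hq he hco h3 hS (fun c hc => (hm _).2 ⟨hc, by simp⟩)
    (fun c hc => (hm _).2 ⟨hc.le, ?_⟩) (fun c hc => (hm _).2 ⟨hc.le, ?_⟩) x hx)).2
  · rwa [Derivation.map_smul, Derivation.smul_apply, hD, smul_eq_mul, mul_one]
  · rwa [Derivation.map_smul, Derivation.smul_apply, Derivation.leibniz_inv, hD,
      show u • -u⁻¹ ^ 2 • (1 : M) = -u⁻¹ by simp only [smul_eq_mul]; field_simp, smul_neg,
      Valuation.map_neg]

theorem ld_mul (D : Derivation C M M) {x y : M} (hx : x ≠ 0) (hy : y ≠ 0) :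
    D (x * y) / (x * y) = D x / x + D y / y := by
  rw [D.leibniz, smul_eq_mul, smul_eq_mul]
  field_simp
  ring

theorem ld_zpow (D : Derivation C M M) {x : M} (hx : x ≠ 0) (n : ℤ) :
    D (x ^ n) / x ^ n = n * (D x / x) := by
  have := zpow_ne_zero n hx
  rw [D.leibniz_zpow, smul_eq_mul, zsmul_eq_mul, zpow_sub_one₀ hx]
  field_simp

/-- the logarithmic derivative -/
theorem ld_dec {D : Derivation C M M} {u ε : M} (hD : D u = 1) (c : C) (n : ℤ)
    (hu : u ≠ 0) (hε : ε ≠ 0) :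
    u * D (c • u ^ n * ε) = (c • u ^ n * ε) * (n + u * D ε / ε) := by
  have h0 := zpow_ne_zero n hu
  have h1 := ld_mul D h0 hε
  rw [ld_zpow D hu, hD, div_eq_iff (mul_ne_zero h0 hε)] at h1
  rw [smul_mul_assoc, D.map_smul, h1, mul_smul_comm, smul_mul_assoc]
  congr 1
  field_simp

/-- the new coordinate -/
theorem core (hb : Bas C v) (hq : Dq C v) (he : EtvStmt C v) (φ : M' →ₐ[C] Ω) {u ε : M}
    {α ε' : M'} {c : C} {l n i j : ℤ} (hco : Co v (dn M φ) u) (h3 : T3 C (vm v (dn M φ)) u)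
    (hg : M⟮α⟯ = ⊤) (hc : c ≠ 0) (hα : α ≠ 0) (hε : v (dn M φ ε) = 1) (hε' : v (φ ε') = 1)
    (hS : ∀ S : Subring M', (1 < v (φ α) → α⁻¹ ∈ S) → ε' ∈ S)
    (ha : α ^ l * ε' = algebraMap M M' (c • u ^ n * ε)) (hij : n * i + l * j = 1)
    (hf : Fn C (α ^ i * algebraMap M M' u ^ j)) :
    Co v φ (α ^ i * algebraMap M M' u ^ j) ∧ T3 C (vm v φ) (α ^ i * algebraMap M M' u ^ j) := by
  have u0 := ne_of_T3 h3
  have ev : ∀ σ : M' →ₐ[C] Ω, σ α ^ l * σ ε' = algebraMap C Ω c * dn M σ u ^ n * dn M σ ε :=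
    fun σ => by
      rw [← map_zpow₀, ← map_mul, ha, ← dn_apply, map_mul, map_smul, map_zpow₀, Algebra.smul_def]
  have c0 : algebraMap C Ω c ≠ 0 := by simpa using hc
  have nu : ∀ σ : M' →ₐ[C] Ω, dn M σ u ≠ 0 := fun σ => by simpa using u0
  have na : ∀ σ : M' →ₐ[C] Ω, σ α ≠ 0 := fun σ => by simpa using hα
  refine ⟨⟨hf, fun σ hσ hI => ?_⟩, fun c' h => h3 (c' ^ l / c ^ i) ?_⟩
  · set z := dn M σ u / dn M φ u with hz
    set z' := σ α / φ α with hz'
    have z0 : z ≠ 0 := div_ne_zero (nu σ) (nu φ)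
    have z0' : z' ≠ 0 := div_ne_zero (na σ) (na φ)
    have e1 : z' ^ i * z ^ j = 1 := by
      rw [map_mul, map_mul, map_zpow₀, map_zpow₀, map_zpow₀, map_zpow₀] at hσ
      rw [hz, hz', div_zpow, div_zpow, div_mul_div_comm, dn_apply, dn_apply, hσ]
      exact div_self (mul_ne_zero (zpow_ne_zero _ (na φ)) (zpow_ne_zero _ (nu φ)))
    have s0 : σ ε' ≠ 0 := by simpa using ne_of_val hε'
    have e2 : z' ^ l = z ^ n * (dn M σ ε / dn M φ ε * (σ ε' / φ ε')⁻¹) := by
      have := ne_of_val hε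
      have := ne_of_val hε'
      have := zpow_ne_zero n (nu φ)
      rw [hz, hz', div_zpow, div_zpow, eq_div_of_mul_eq s0 (ev σ),
        eq_div_of_mul_eq (ne_of_val hε') (ev φ)]
      field_simp
    have key : ∀ m : Γ, m ≤ 1 → v (dn M σ ε - dn M φ ε) < m → v (σ ε' - φ ε') < m →
        v (z - 1) < m ∧ v (z' - 1) < m := fun m hm k1 k2 => by
      have k := u_mul hm (u_div hε k1) (u_inv hm (u_div hε' k2))
      rw [show dn M σ ε / dn M φ ε * (σ ε' / φ ε')⁻¹ = z' ^ l / z ^ n from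
        eq_div_of_mul_eq (zpow_ne_zero _ z0) (by rw [e2, mul_comm])] at k
      have e3 : z' ^ i = z ^ (-j) := by rw [zpow_neg]; exact eq_inv_of_mul_eq_one_left e1
      have e4 : z ^ j = z' ^ (-i) := by rw [zpow_neg]; exact eq_inv_of_mul_eq_one_right e1
      have k3 := u_zpow hm k (-i)
      have k4 := u_zpow hm k j
      rw [zpow_neg, div_zpow, inv_div, zpow_comm z', e3, ← zpow_mul, ← zpow_mul, ← zpow_sub₀ z0,
        show n * i - -j * l = 1 by linear_combination hij, zpow_one] at k3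
      rw [div_zpow, zpow_comm z, e4, ← zpow_mul, ← zpow_mul, ← zpow_sub₀ z0',
        show l * j - -i * n = 1 by linear_combination hij, zpow_one] at k4
      exact ⟨k3, k4⟩
    obtain ⟨k1, k2⟩ := key 1 le_rfl (hb.iso_res M _ _ hI.dn ε hε.le) (hb.iso_res M' _ _ hI ε' hε'.le)
    have main : ∀ d : Ω, d ≠ 0 → v d < 1 → v (z - 1) ≤ v d → v (z' - 1) ≤ v d →
        v (z - 1) < v d ∧ v (z' - 1) < v d := fun d d0 d1 d2 d3 => by
      have dp : 0 < v d := by rwa [Valuation.pos_iff]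
      have sm : ∀ x y : Ω, v x < 1 → v y ≤ v d → v (x * y) < v d := fun x y hx hy => by
        rw [map_mul]
        exact (mul_le_mul_right hy _).trans_lt (mul_lt_of_lt_one_left dp hx)
      have iv : ∀ y : Ω, v (y - 1) < 1 → v (y⁻¹ - 1) = v (y - 1) := fun y hy => by
        have h1 := u_val le_rfl hy
        have h0 := ne_of_val h1
        rw [show y⁻¹ - 1 = -(y⁻¹ * (y - 1)) by field_simp; ring, v.map_neg, map_mul, map_inv₀, h1,
          inv_one, one_mul]
      obtain ⟨S, s1, s2⟩ := hq.dq M _ _ 0 d hI.dn d0 d1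
      obtain ⟨S', -, s3⟩ := hq.dq M' _ _ 0 d hI d0 d1
      simp only [Derivation.coe_zero, Pi.zero_apply, map_zero, zero_le, true_and, mul_zero,
        sub_zero] at s2 s3
      refine key _ d1.le ((s2 ε).1 (ind hq he hco h3 s1 (fun c hc => (s2 _).2 ⟨hc, ?_⟩)
        (fun c hc => (s2 _).2 ⟨hc.le, ?_⟩) (fun c hc => (s2 _).2 ⟨hc.le, ?_⟩) ε hε.le)).2
        ((s3 ε').1 (hS S' fun h1 => ?_)).2
      · rwa [AlgHom.commutes, AlgHom.commutes, sub_self, map_zero]
      · convert sm (dn M φ (c • u)) _ hc d2 using 2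
        have := nu φ
        rw [map_smul, map_smul, Algebra.smul_def, Algebra.smul_def, hz]
        field_simp
      · convert sm (dn M φ (c • u⁻¹)) _ hc ((iv z k1).trans_le d2) using 2
        have := nu φ
        have := nu σ
        rw [map_smul, map_smul, Algebra.smul_def, Algebra.smul_def, hz, map_inv₀, map_inv₀]
        field_simp
      · have h2 : v (φ α⁻¹) < 1 := by
          rw [map_inv₀, map_inv₀]
          exact inv_lt_one_of_one_lt₀ h1
        refine (s3 _).2 ⟨h2.le, ?_⟩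
        convert sm _ _ h2 ((iv z' k2).trans_le d3) using 2
        have := na φ
        have := na σ
        rw [hz', map_inv₀, map_inv₀]
        field_simp
    have fin : z - 1 = 0 ∧ z' - 1 = 0 := by
      rcases le_total (v (z - 1)) (v (z' - 1)) with h | h
      · have h0 : z' - 1 = 0 := by
          by_contra h0
          exact (main _ h0 k2 h le_rfl).2.false
        exact ⟨by simpa [h0] using h, h0⟩
      · have h0 : z - 1 = 0 := by
          by_contra h0
          exact (main _ h0 k1 le_rfl h).1.false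
        exact ⟨h0, by simpa [h0] using h⟩
    exact ext_gen hg (hco.fix _ ((div_eq_one_iff_eq (nu φ)).1 (sub_eq_zero.1 fin.1)) hI.dn)
      ((div_eq_one_iff_eq (na φ)).1 (sub_eq_zero.1 fin.2))
  · have e := congrArg v (ev φ)
    simp only [map_mul, map_zpow₀, hε, hε', mul_one] at e
    simp only [vm_apply, map_mul, map_zpow₀, AlgHom.commutes, ← dn_apply] at h
    have U0 : v (dn M φ u) ≠ 0 := by simpa using nu φ
    have C0 : v (algebraMap C Ω c) ≠ 0 := by simpa using c0
    rw [vm_apply, vm_apply, AlgHom.commutes, map_div₀, map_div₀, map_zpow₀, map_zpow₀, map_zpow₀,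
      map_zpow₀, ← h, mul_zpow, zpow_comm, e, mul_zpow, ← zpow_mul, ← zpow_mul, mul_assoc,
      ← zpow_add₀ U0, mul_comm j, hij, zpow_one, mul_div_cancel_left₀ _ (zpow_ne_zero _ C0)]

theorem ns_sub {φ : M' →ₐ[C] Ω} {α : M'} (h : NS v M φ α) (x : M) :
    NS v M φ (α - algebraMap M M' x) := by
  obtain ⟨σ, h1, h2, h3⟩ := h
  refine ⟨σ, h1, h2, fun h => h3 ?_⟩
  rwa [map_sub, map_sub, ← dn_apply, ← dn_apply, h1, sub_left_inj] at h

theorem gen_sub {α : M'} (hg : M⟮α⟯ = ⊤) (x : M) : M⟮α - algebraMap M M' x⟯ = ⊤ := by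
  rw [eq_top_iff, ← hg, adjoin_simple_le_iff]
  simpa using add_mem (mem_adjoin_simple_self M (α - algebraMap M M' x))
    (IntermediateField.algebraMap_mem _ x)

/-- a non split Artin-Schreier generator is large -/
theorem as_big [Fact p.Prime] [CharP Ω p] (hb : Bas C v) {φ : M' →ₐ[C] Ω} {a : M} {α : M'}
    (ha : α ^ p - α = algebraMap M M' a) (h : NS v M φ α) : 1 < v (φ α) := by
  obtain ⟨σ, h1, h2, h3⟩ := h
  by_contra hle
  have e : σ α ^ p - σ α = φ α ^ p - φ α := by
    rw [← map_pow, ← map_sub, ← map_pow, ← map_sub, ha, ← dn_apply, ← dn_apply, h1]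
  refine (hb.iso_res M' φ σ h2 α (not_lt.1 hle)).ne
    (val_fix (Fact.out : p.Prime).two_le ?_ (sub_ne_zero.2 h3))
  rw [sub_pow_char]
  linear_combination e

/-- the normal form of an Artin-Schreier polynomial -/
theorem normal [Fact p.Prime] [CharP C p] (hx : XsStmt C p) (hs : SolStmt C p) {u : M}
    {D : Derivation C M M} (hf : Fn C u) (hD : D u = 1) (a : M) :
    ∃ h : M, a - h ^ p + h = (th D u ^ (p - 1)) (a - h ^ p + h) := by
  have : CharP M p := charP_of_injective_algebraMap (algebraMap C M).injective p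
  obtain ⟨n, x, A, b, hA⟩ := hx M u D hf hD a
  obtain ⟨h1, h2⟩ := hA 0
  simp only [map_zero, sub_zero] at h1 h2
  obtain ⟨g, hg⟩ := hs n (fun i j => (A i j).eval 0) fun i => (b i).eval 0
  refine ⟨∑ i, g i • x i, ?_⟩
  have e0 : ∀ y : M, Pj p D u (y ^ p) = y ^ p := fun y => by
    obtain ⟨k, hk⟩ : ∃ k, p - 1 = k + 1 := ⟨p - 2, by have := (Fact.out : p.Prime).two_le; omega⟩
    simp [Pj, hk, pow_succ (th D u), Derivation.leibniz_pow]
  have e1 : Pj p D u (a - (∑ i, g i • x i) ^ p + ∑ i, g i • x i) = 0 := by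
    rw [map_add, map_sub, e0, h1, map_sum, sum_pow_char]
    simp only [map_smul, h2, smul_pow, hg, add_smul, Finset.sum_add_distrib, Finset.smul_sum,
      Finset.sum_smul, smul_smul]
    rw [Finset.sum_comm]
    simp only [mul_comm (g _)]
    ring
  rwa [Pj, LinearMap.sub_apply, Module.End.one_apply, sub_eq_zero] at e1

theorem bez {l : ℕ} {n : ℤ} (hp : l.Prime) (h : ¬ (l : ℤ) ∣ n) : ∃ i j : ℤ, n * i + l * j = 1 := by
  have h1 : Int.gcd l n = 1 := hp.coprime_iff_not_dvd.2 fun h' => h (Int.natCast_dvd.2 h')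
  have h2 := Int.gcd_eq_gcd_ab l n
  rw [h1] at h2
  exact ⟨_, _, by rw [add_comm]; exact h2.symm⟩

theorem ld_new {D : Derivation C M M} {U α : M} {i j : ℤ} (hD : D U = 1) (hU : U ≠ 0) (hα : α ≠ 0)
    (h : D (α ^ i * U ^ j) = 0) : i * (U * D α / α) = -j := by
  have e := ld_mul D (zpow_ne_zero i hα) (zpow_ne_zero j hU)
  rw [h, zero_div, ld_zpow D hα, ld_zpow D hU, hD] at e
  have e' := congrArg (U * ·) e
  simp only [mul_zero, mul_add, mul_left_comm U, mul_one_div_cancel hU, mul_one] at e'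
  rw [mul_div_assoc]
  linear_combination -e'

theorem small (hq : Dq C v) (he : EtvStmt C v) {φ : M →ₐ[C] Ω} {u ε : M} (hco : Co v φ u)
    (h3 : T3 C (vm v φ) u) {D : Derivation C M M} (hD : D u = 1) (hε : v (φ ε) = 1) :
    v (φ (u * D ε / ε)) < 1 := by
  rw [map_div₀, map_div₀, hε, div_one]
  exact thl hq he hco h3 hD ε hε.le

end Tt

open Tt

theorem k4 [IsAlgClosed C] (p : ℕ) [Fact p.Prime] [CharP C p] (_h : Ctx C v) (hb : Bas C v) :
    K4Stmt C v := by
  intro M M' _ _ _ _ _ _ φ a α l h4 hl ha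
  have : CharP Ω p := charP_of_injective_algebraMap (algebraMap C Ω).injective p
  obtain ⟨c, hc⟩ := h4 a
  obtain ⟨c1, rfl⟩ := IsAlgClosed.exists_pow_nat_eq c (n := l) (Nat.pos_of_ne_zero fun h => by
    simp [h] at hl)
  refine nsk hb φ (g := algebraMap C M c1) ?_ ha ?_
  · simpa using val_int (v := v) p (n := l) (by simpa using (map_ne_zero (algebraMap C Ω)).2 hl)
  · rw [← map_pow, ← map_pow, ha, ← map_pow, ← map_pow, ← map_pow]
    exact hc

theorem k3 [IsAlgClosed C] (p : ℕ) [Fact p.Prime] [CharP C p] (_h : Ctx C v) (hb : Bas C v)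
    (hq : Dq C v) (hd : Der C) (he : EtvStmt C v) : K3Stmt C v := by
  intro M M' _ _ _ _ _ _ _ _ φ u a α l hco h3 hp hl ha hg hn
  have : CharP Ω p := charP_of_injective_algebraMap (algebraMap C Ω).injective p
  have vl : v l = 1 := by
    simpa using val_int (v := v) p (n := l) (by simpa using (map_ne_zero (algebraMap C Ω)).2 hl)
  have α0 : α ≠ 0 := by
    rintro rfl
    obtain ⟨σ, -, -, h⟩ := hn
    simp at h
  have a0 : a ≠ 0 := by
    rintro rfl
    exact pow_ne_zero l α0 (ha.trans (map_zero _))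
  have u0 := ne_of_T3 h3
  obtain ⟨c, n, ε, hc, hε, rfl⟩ := dec hq he hco h3 a0
  have ε0 : ε ≠ 0 := by simpa using ne_of_val hε
  have hnd : ¬ (l : ℤ) ∣ n := by
    rintro ⟨k, rfl⟩
    obtain ⟨c1, rfl⟩ := IsAlgClosed.exists_pow_nat_eq c hp.pos
    refine nsk hb φ (g := c1 • u ^ k) vl ha ?_ hn
    rw [← map_pow, ← map_pow, ha, ← dn_apply, map_mul, map_mul, hε, mul_one, ← map_pow, ← map_pow,
      smul_pow, mul_comm (l : ℤ), zpow_mul, zpow_natCast]
  obtain ⟨i, j, hij⟩ := bez hp hnd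
  obtain ⟨D, hD⟩ := hd.ex M u hco.fn
  obtain ⟨D', hD'⟩ := hd.up M M' D
  have U0 : algebraMap M M' u ≠ 0 := by simpa using u0
  refine ⟨_, core hb hq he φ (ε' := 1) (l := l) (n := n) (i := i) (j := j) hco h3 hg hc α0 hε
    (by simp) (fun S _ => S.one_mem) (by rw [mul_one, zpow_natCast, ha]) hij
    (hd.sep M M' u D' _ hco.fn fun h0 => ?_)⟩
  have e1 := ld_new (by rw [hD', hD, map_one]) U0 α0 h0
  have e2 := ld_zpow D' α0 l
  have e3 := congrArg (algebraMap M M') (ld_dec hD c n u0 ε0)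
  rw [map_mul, ← hD', map_mul (algebraMap M M') (c • u ^ n * ε), ← ha, map_add, map_intCast,
    ← zpow_natCast, mul_comm (α ^ (l : ℤ)), ← div_eq_iff (zpow_ne_zero _ α0), mul_div_assoc,
    e2] at e3
  have e4 : (n : M') * i + (l : ℤ) * j = 1 := by exact_mod_cast congrArg (Int.cast : ℤ → M') hij
  have e5 : i * algebraMap M M' (u * D ε / ε) = -1 := by
    rw [mul_div_assoc] at e1
    linear_combination (l : ℤ) * e1 - i * e3 - e4
  have e6 := congrArg (fun x => v (φ x)) e5
  simp only [map_mul, map_neg, map_one, map_intCast, Valuation.map_neg, ← dn_apply] at e6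
  exact (mul_lt_one_of_nonneg_of_lt_one_right (val_int_le p i) zero_le
    (small hq he hco h3 hD hε)).ne e6

theorem a3 [Fact p.Prime] [CharP C p] (_h : Ctx C v) (hb : Bas C v) (hq : Dq C v) (hd : Der C)
    (he : EtvStmt C v) (hx : XsStmt C p) (hs : SolStmt C p) : A3Stmt C v p := by
  intro M M' _ _ _ _ _ _ _ _ φ u a' α' hco h3 ha' hg' hn'
  have : CharP Ω p := charP_of_injective_algebraMap (algebraMap C Ω).injective p
  have : CharP M' p := charP_of_injective_algebraMap (algebraMap C M').injective p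
  have hp : p.Prime := Fact.out
  obtain ⟨D, hD⟩ := hd.ex M u hco.fn
  obtain ⟨D', hD'⟩ := hd.up M M' D
  obtain ⟨g, hN⟩ := normal hx hs hco.fn hD a'
  have hg := gen_sub hg' g
  have hn := ns_sub hn' g
  have ha : (α' - algebraMap M M' g) ^ p - (α' - algebraMap M M' g) =
      algebraMap M M' (a' - g ^ p + g) := by
    rw [sub_pow_char, map_add, map_sub, map_pow, ← ha']
    ring
  generalize α' - algebraMap M M' g = α at hg hn ha
  generalize a' - g ^ p + g = a at ha hN
  have big := as_big hb ha hn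
  have A0 : v (φ α) ≠ 0 := (zero_lt_one.trans big).ne'
  have α0 : α ≠ 0 := by simpa using A0
  obtain ⟨k, hk⟩ : ∃ k, p = k + 1 + 1 := ⟨p - 2, by have := hp.two_le; omega⟩
  have sm : v (φ (α⁻¹ ^ (k + 1))) < 1 := by
    rw [map_pow, map_pow, map_inv₀, map_inv₀]
    exact pow_lt_one₀ zero_le (inv_lt_one_of_one_lt₀ big) k.succ_ne_zero
  have hε' : v (φ (1 - α⁻¹ ^ (k + 1))) = 1 := by
    rw [map_sub, map_one]
    exact v.map_one_sub_of_lt sm
  have ha2 : α ^ (p : ℤ) * (1 - α⁻¹ ^ (k + 1)) = algebraMap M M' a := by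
    rw [← ha, zpow_natCast, hk, mul_sub, mul_one, inv_pow, pow_succ' α (k + 1),
      mul_inv_cancel_right₀ (pow_ne_zero _ α0)]
  have va : v (dn M φ a) = v (φ α) ^ p := by
    rw [dn_apply, ← ha2, map_mul, map_mul, hε', mul_one, zpow_natCast, map_pow, map_pow]
  have a0 : a ≠ 0 := by
    rintro rfl
    exact pow_ne_zero p A0 (by simpa using va.symm)
  have u0 := ne_of_T3 h3
  have thle : ∀ f : M, v (dn M φ (th D u f)) ≤ v (dn M φ f) := fun f => by
    rcases eq_or_ne f 0 with rfl | f0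
    · simp
    obtain ⟨c, n, ε, hc, hε, rfl⟩ := dec hq he hco h3 f0
    rw [th_apply, ld_dec hD c n u0 (by simpa using ne_of_val hε), map_mul, map_mul, map_add,
      map_intCast]
    exact mul_le_of_le_one_right' (v.map_add_le (val_int_le p n) (small hq he hco h3 hD hε).le)
  have thp : ∀ (r : ℕ) (f : M), v (dn M φ ((th D u ^ r) f)) ≤ v (dn M φ f) := fun r => by
    induction r with
    | zero => simp
    | succ r ih => exact fun f => by rw [pow_succ]; exact (ih _).trans (thle f)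
  have vth : v (dn M φ (u * D a)) = v (dn M φ a) := by
    refine (thle a).antisymm ?_
    conv_lhs => rw [hN, hk, Nat.add_sub_cancel, pow_succ]
    exact thp k _
  obtain ⟨c, n, ε, hc, hε, rfl⟩ := dec hq he hco h3 a0
  have ε0 : ε ≠ 0 := by simpa using ne_of_val hε
  have hnd : ¬ (p : ℤ) ∣ n := fun h => by
    rw [ld_dec hD c n u0 ε0, map_mul _ (c • u ^ n * ε), map_mul v, map_add, map_intCast,
      (CharP.intCast_eq_zero_iff Ω p n).2 h, zero_add,
      mul_right_eq_self₀, map_eq_zero, map_eq_zero] at vth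
    exact vth.elim (small hq he hco h3 hD hε).ne a0
  obtain ⟨i, j, hij⟩ := bez hp hnd
  have U0 : algebraMap M M' u ≠ 0 := by simpa using u0
  refine ⟨_, core hb hq he φ hco h3 hg hc α0 hε hε'
    (fun S hS => S.sub_mem S.one_mem (S.pow_mem (hS big) _)) ha2 hij
    (hd.sep M M' u D' _ hco.fn fun h0 => ?_)⟩
  have e1 := ld_new (by rw [hD', hD, map_one]) U0 α0 h0
  have e2 := congrArg D' ha
  rw [map_sub, hD', D'.leibniz_pow, nsmul_eq_mul, CharP.cast_eq_zero, zero_mul, zero_sub,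
    neg_eq_iff_eq_neg] at e2
  rw [e2, mul_neg, ← map_mul] at e1
  have i0 : (i : Ω) ≠ 0 := fun h => by
    have e := congrArg (Int.cast : ℤ → Ω) hij
    simp [h] at e
  have e3 := congrArg (fun x => v (φ x)) e1
  simp only [map_mul φ, map_mul v, map_neg, map_div₀, map_intCast, Valuation.map_neg, ← dn_apply,
    val_int p i0, one_mul, vth, va] at e3
  have e4 := val_int_le (v := v) p j
  rw [← e3, hk, pow_succ, mul_div_cancel_right₀ _ A0] at e4
  exact (one_lt_pow₀ big k.succ_ne_zero).not_ge e4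

end Pool.Agent.MP_19ffc6_ag.Perf.Hr

end MrgPart2

-- ======== part 3: formerly Pool.Agent.MP_19ffc6_ag.perf.HrT4a
section MrgPart3

/-! Immediate case, part one: functions on closed discs and their values at rational points. -/

namespace Pool.Agent.MP_19ffc6_ag.Perf.Hr.T4

open Polynomial

variable {C Γ M : Type} [Field C] [LinearOrderedCommGroupWithZero Γ] [Field M] [Algebra C M]
  {w : Valuation M Γ} {D : Derivation C M M} {u : M} {ρ : C} {B : Subring M} {A : Subalgebra C M}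

/-- value of a constant -/
def cv (w : Valuation M Γ) : Valuation C Γ := w.comap (algebraMap C M)

lemma cv_def (c : C) : cv w c = w (algebraMap C M c) := rfl

lemma w_smul (c : C) (x : M) : w (c • x) = cv w c * w x := by
  rw [Algebra.smul_def, map_mul, cv_def]

/-- coordinate of the disc with centre `c` and radius `r` -/
def tt (u : M) (c r : C) : M := r⁻¹ • (u - algebraMap C M c)

/-- functions on the closed disc -/
def HH (B : Subring M) (u : M) (c r : C) : Subring M := Subring.closure (B ∪ {tt u c r})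

lemma le_HH (c r : C) : B ≤ HH B u c r := fun _ hx => Subring.subset_closure (Or.inl hx)

lemma tt_mem (c r : C) : tt u c r ∈ HH B u c r := Subring.subset_closure (Or.inr rfl)

lemma HH_le {c r : C} {S : Subring M} (h1 : B ≤ S) (h2 : tt u c r ∈ S) : HH B u c r ≤ S :=
  Subring.closure_le.2 (by
    rintro x (hx | hx)
    · exact h1 hx
    · rw [Set.mem_singleton_iff.1 hx]; exact h2)

/-- `x` is a constant, whose value satisfies `q`, times an element of `H` -/
def Bq (w : Valuation M Γ) (C : Type) [Field C] [Algebra C M] (H : Subring M) (q : Γ → Prop)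
    (x : M) : Prop := ∃ π : C, q (cv w π) ∧ ∃ b ∈ H, x = π • b

section Bq

variable {H : Subring M} {q q' : Γ → Prop} {x y : M}

lemma Bq.mono (h : Bq w C H q x) (hq : ∀ g, q g → q' g) : Bq w C H q' x := by
  obtain ⟨π, h1, h2⟩ := h
  exact ⟨π, hq _ h1, h2⟩

lemma smul_mem (hH : ∀ c : C, cv w c ≤ 1 → algebraMap C M c ∈ H) {c : C} (hc : cv w c ≤ 1)
    (hx : x ∈ H) : c • x ∈ H := by
  rw [Algebra.smul_def]; exact H.mul_mem (hH c hc) hx

lemma Bq.add (hH : ∀ c : C, cv w c ≤ 1 → algebraMap C M c ∈ H) (h : Bq w C H q x)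
    (h' : Bq w C H q y) : Bq w C H q (x + y) := by
  have key : ∀ {π π' : C} {b b' : M}, b ∈ H → b' ∈ H → cv w π' ≤ cv w π →
      ∃ b'' ∈ H, π • b + π' • b' = π • b'' := by
    intro π π' b b' hb hb' hle
    rcases eq_or_ne π 0 with rfl | h0
    · have : π' = 0 := by simpa using hle
      exact ⟨0, H.zero_mem, by simp [this]⟩
    · refine ⟨b + (π' / π) • b', H.add_mem hb (smul_mem hH ?_ hb'), ?_⟩
      · rw [map_div₀]; exact div_le_one_of_le₀ hle zero_le
      · rw [smul_add, smul_smul, mul_div_cancel₀ _ h0]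
  obtain ⟨π, h1, b, hb, rfl⟩ := h
  obtain ⟨π', h1', b', hb', rfl⟩ := h'
  rcases le_total (cv w π') (cv w π) with hle | hle
  · exact ⟨π, h1, key hb hb' hle⟩
  · rw [add_comm]; exact ⟨π', h1', key hb' hb hle⟩

lemma Bq.map (h : Bq w C H q x) (L : M →ₗ[C] M) (hL : ∀ b ∈ H, L b ∈ H) : Bq w C H q (L x) := by
  obtain ⟨π, h1, b, hb, rfl⟩ := h
  exact ⟨π, h1, L b, hL b hb, by rw [map_smul]⟩

lemma Bq.neg (h : Bq w C H q x) : Bq w C H q (-x) := by
  obtain ⟨π, h1, b, hb, rfl⟩ := h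
  exact ⟨π, h1, -b, H.neg_mem hb, by rw [smul_neg]⟩

lemma Bq.mul_mem (h : Bq w C H q x) (hy : y ∈ H) : Bq w C H q (y * x) := by
  obtain ⟨π, h1, b, hb, rfl⟩ := h
  exact ⟨π, h1, y * b, H.mul_mem hy hb, by rw [mul_smul_comm]⟩

lemma Bq.le (h : Bq w C H q x) (hH : ∀ b ∈ H, w b ≤ 1) : ∃ g, q g ∧ w x ≤ g := by
  obtain ⟨π, h1, b, hb, rfl⟩ := h
  exact ⟨_, h1, by rw [w_smul]; exact mul_le_of_le_one_right' (hH b hb)⟩

lemma pow_map_mem {L : Module.End C M} (hL : ∀ b ∈ H, L b ∈ H) (n : ℕ) :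
    ∀ b ∈ H, (L ^ n) b ∈ H := by
  induction n with
  | zero => intro b hb; simpa using hb
  | succ n ih => intro b hb; rw [pow_succ, Module.End.mul_apply]; exact ih _ (hL b hb)

end Bq

/-- `c` lies in the open disc of radius `ρ` round `u` -/
def Dc (w : Valuation M Γ) (u : M) (ρ c : C) : Prop := w (u - algebraMap C M c) < cv w ρ

lemma Dc.near {c c' r : C} (hc : Dc w u ρ c) (hr : cv w r < cv w ρ) (h : cv w (c' - c) ≤ cv w r) :
    Dc w u ρ c' := by
  have : u - algebraMap C M c' = (u - algebraMap C M c) - algebraMap C M (c' - c) := by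
    rw [map_sub]; ring
  rw [Dc, this]
  exact w.map_sub_lt hc (h.trans_lt hr)

open Classical in
/-- value of a function at a rational point -/
noncomputable def val (hd : Disc w D u ρ B A) (c : C) (x : M) : C :=
  if h : Dc w u ρ c ∧ x ∈ A then (hd.ev c h.1).choose ⟨x, h.2⟩ else 0

section Val

variable (hd : Disc w D u ρ B A) {c c' r : C} {x y : M}
include hd

lemma val_eq (hc : Dc w u ρ c) (x : A) : val hd c x = (hd.ev c hc).choose x := by
  rw [val, dif_pos ⟨hc, x.2⟩]

lemma B_le (hx : x ∈ B) : x ∈ A := (hd.mem x).2 ⟨1, one_ne_zero, by simpa using hx⟩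

lemma sub_mem_A (hc : Dc w u ρ c) : u - algebraMap C M c ∈ A :=
  (hd.mem _).2 ⟨ρ⁻¹, inv_ne_zero hd.ne, hd.crd c hc⟩

lemma u_mem : u ∈ A := by
  obtain ⟨c, hc⟩ := hd.pt
  simpa using A.add_mem (sub_mem_A hd hc) (A.algebraMap_mem c)

lemma der_mem (hx : x ∈ A) : D x ∈ A := by
  obtain ⟨e, he, h⟩ := (hd.mem x).1 hx
  refine (hd.mem _).2 ⟨ρ * e, mul_ne_zero hd.ne he, ?_⟩
  have := hd.der _ h
  rwa [Derivation.map_smul, smul_smul] at this

lemma val_add (hc : Dc w u ρ c) (hx : x ∈ A) (hy : y ∈ A) :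
    val hd c (x + y) = val hd c x + val hd c y := by
  rw [val_eq hd hc ⟨x, hx⟩, val_eq hd hc ⟨y, hy⟩, ← map_add]
  exact val_eq hd hc (⟨x, hx⟩ + ⟨y, hy⟩)

lemma val_mul (hc : Dc w u ρ c) (hx : x ∈ A) (hy : y ∈ A) :
    val hd c (x * y) = val hd c x * val hd c y := by
  rw [val_eq hd hc ⟨x, hx⟩, val_eq hd hc ⟨y, hy⟩, ← map_mul]
  exact val_eq hd hc (⟨x, hx⟩ * ⟨y, hy⟩)

lemma val_neg (hc : Dc w u ρ c) (hx : x ∈ A) : val hd c (-x) = -val hd c x := by
  rw [val_eq hd hc ⟨x, hx⟩, ← map_neg]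
  exact val_eq hd hc (-⟨x, hx⟩)

lemma val_pow (hc : Dc w u ρ c) (hx : x ∈ A) (n : ℕ) : val hd c (x ^ n) = val hd c x ^ n := by
  rw [val_eq hd hc ⟨x, hx⟩, ← map_pow]
  exact val_eq hd hc (⟨x, hx⟩ ^ n)

lemma val_smul (hc : Dc w u ρ c) (hx : x ∈ A) (e : C) : val hd c (e • x) = e * val hd c x := by
  rw [val_eq hd hc ⟨x, hx⟩, ← smul_eq_mul, ← map_smul]
  exact val_eq hd hc (e • ⟨x, hx⟩)

lemma val_alg (hc : Dc w u ρ c) (e : C) : val hd c (algebraMap C M e) = e := by
  have := val_eq hd hc (algebraMap C A e)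
  rwa [AlgHom.commutes] at this

lemma val_u (hc : Dc w u ρ c) : val hd c u = c := by
  rw [val_eq hd hc ⟨u, u_mem hd⟩]; exact (hd.ev c hc).choose_spec.1 _ rfl

lemma val_B (hc : Dc w u ρ c) (hx : x ∈ B) : w (algebraMap C M (val hd c x) - x) < 1 := by
  rw [val_eq hd hc ⟨x, B_le hd hx⟩]; exact (hd.ev c hc).choose_spec.2 _ hx

lemma tt_mem_A (c r : C) : tt u c r ∈ A :=
  A.smul_mem (A.sub_mem (u_mem hd) (A.algebraMap_mem c)) _

lemma val_tt (hc : Dc w u ρ c') (c r : C) : val hd c' (tt u c r) = r⁻¹ * (c' - c) := by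
  rw [tt, val_smul hd hc (A.sub_mem (u_mem hd) (A.algebraMap_mem c)), sub_eq_add_neg,
    val_add hd hc (u_mem hd) (A.neg_mem (A.algebraMap_mem c)),
    val_neg hd hc (A.algebraMap_mem c), val_u hd hc, val_alg hd hc, sub_eq_add_neg]

lemma HH_le_A (hx : x ∈ HH B u c r) : x ∈ A :=
  HH_le (S := A.toSubring) (fun _ h => B_le hd h) (tt_mem_A hd c r) hx

lemma cst_HH (e : C) (he : cv w e ≤ 1) : algebraMap C M e ∈ HH B u c r :=
  le_HH c r (hd.cst e he)

lemma Bq.mem_A {q : Γ → Prop} (h : Bq w C (HH B u c r) q x) : x ∈ A := by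
  obtain ⟨π, -, b, hb, rfl⟩ := h
  exact A.smul_mem (HH_le_A hd hb) _

lemma HH_le_W (h : w (u - algebraMap C M c) ≤ cv w r) (hx : x ∈ HH B u c r) : w x ≤ 1 := by
  refine HH_le (S := w.integer) (fun b hb => hd.le b hb) ?_ hx
  show w (tt u c r) ≤ 1
  rw [tt, w_smul, map_inv₀, mul_comm, ← div_eq_mul_inv]
  exact div_le_one_of_le₀ h zero_le

/-- values at the points of the closed disc are integral -/
lemma val_HH (hc' : Dc w u ρ c') (h : cv w (c' - c) ≤ cv w r) (hx : x ∈ HH B u c r) :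
    cv w (val hd c' x) ≤ 1 := by
  induction hx using Subring.closure_induction with
  | mem x hx =>
    rcases hx with hx | hx
    · have h1 : algebraMap C M (val hd c' x) = (algebraMap C M (val hd c' x) - x) + x := by ring
      rw [cv_def, h1]
      exact w.map_add_le (val_B hd hc' hx).le (hd.le x hx)
    · rw [Set.mem_singleton_iff.1 hx, val_tt hd hc', map_mul, map_inv₀, mul_comm,
        ← div_eq_mul_inv]
      exact div_le_one_of_le₀ h zero_le
  | zero => rw [← map_zero (algebraMap C M), val_alg hd hc']; simp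
  | one => rw [← map_one (algebraMap C M), val_alg hd hc']; simp
  | add x y hx hy h1 h2 =>
    rw [val_add hd hc' (HH_le_A hd hx) (HH_le_A hd hy)]; exact (cv w).map_add_le h1 h2
  | neg x hx h1 => rw [val_neg hd hc' (HH_le_A hd hx), Valuation.map_neg]; exact h1
  | mul x y hx hy h1 h2 =>
    rw [val_mul hd hc' (HH_le_A hd hx) (HH_le_A hd hy), map_mul]; exact mul_le_one' h1 h2

/-- values at the points of the open disc are congruent to the function -/
lemma val_HH_near (hr : cv w r < cv w ρ) (hc : Dc w u r c) (hc' : Dc w u r c')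
    (hx : x ∈ HH B u c r) : w (algebraMap C M (val hd c' x) - x) < 1 := by
  have h' : Dc w u ρ c' := lt_trans hc' hr
  have hcc : cv w (c' - c) ≤ cv w r := by
    have : algebraMap C M (c' - c) = (u - algebraMap C M c) - (u - algebraMap C M c') := by
      rw [map_sub]; ring
    rw [cv_def, this]; exact (w.map_sub_lt hc hc').le
  induction hx using Subring.closure_induction with
  | mem x hx =>
    rcases hx with hx | hx
    · exact val_B hd h' hx
    · have : algebraMap C M (r⁻¹ * (c' - c)) - tt u c r = -(r⁻¹ • (u - algebraMap C M c')) := by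
        rw [tt, Algebra.smul_def, Algebra.smul_def, map_mul, map_sub]; ring
      rw [Set.mem_singleton_iff.1 hx, val_tt hd h', this, Valuation.map_neg, w_smul, map_inv₀,
        mul_comm, ← div_eq_mul_inv]
      exact (div_lt_one₀ (zero_le.trans_lt hc')).2 hc'
  | zero => rw [← map_zero (algebraMap C M), val_alg hd h']; simp
  | one => rw [← map_one (algebraMap C M), val_alg hd h']; simp
  | add x y hx hy h1 h2 =>
    rw [val_add hd h' (HH_le_A hd hx) (HH_le_A hd hy), map_add, add_sub_add_comm]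
    exact w.map_add_lt h1 h2
  | neg x hx h1 =>
    rw [val_neg hd h' (HH_le_A hd hx), map_neg, ← neg_sub', Valuation.map_neg]; exact h1
  | mul x y hx hy h1 h2 =>
    have : algebraMap C M (val hd c' x * val hd c' y) - x * y =
        algebraMap C M (val hd c' x) * (algebraMap C M (val hd c' y) - y) +
          (algebraMap C M (val hd c' x) - x) * y := by rw [map_mul]; ring
    rw [val_mul hd h' (HH_le_A hd hx) (HH_le_A hd hy), this]
    refine w.map_add_lt ?_ ?_
    · rw [map_mul]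
      exact (mul_le_of_le_one_left' (val_HH hd h' hcc hx)).trans_lt h2
    · rw [map_mul]
      exact (mul_le_of_le_one_right' (HH_le_W hd hc.le hy)).trans_lt h1

lemma Bq.val {q : Γ → Prop} (hc' : Dc w u ρ c') (h : cv w (c' - c) ≤ cv w r)
    (hx : Bq w C (HH B u c r) q x) : ∃ g, q g ∧ cv w (val hd c' x) ≤ g := by
  obtain ⟨π, h1, b, hb, rfl⟩ := hx
  refine ⟨_, h1, ?_⟩
  rw [val_smul hd hc' (HH_le_A hd hb), map_mul]
  exact mul_le_of_le_one_right' (val_HH hd hc' h hb)

lemma der_HH (hD : D u = 1) (hr0 : r ≠ 0) (hr : cv w r < cv w ρ) (hx : x ∈ HH B u c r) :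
    r • D x ∈ HH B u c r := by
  induction hx using Subring.closure_induction with
  | mem x hx =>
    rcases hx with hx | hx
    · have : r • D x = (r / ρ) • (ρ • D x) := by rw [smul_smul, div_mul_cancel₀ _ hd.ne]
      rw [this]
      refine smul_mem (cst_HH hd) ?_ (le_HH c r (hd.der x hx))
      rw [map_div₀]; exact div_le_one_of_le₀ hr.le zero_le
    · rw [Set.mem_singleton_iff.1 hx, tt, Derivation.map_smul, map_sub, hD,
        Derivation.map_algebraMap, sub_zero, smul_smul, mul_inv_cancel₀ hr0, one_smul]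
      exact Subring.one_mem _
  | zero => simp
  | one => simp
  | add x y _ _ h1 h2 => rw [map_add, smul_add]; exact Subring.add_mem _ h1 h2
  | neg x _ h1 => rw [map_neg, smul_neg]; exact Subring.neg_mem _ h1
  | mul x y hx hy h1 h2 =>
    rw [Derivation.leibniz, smul_add, smul_eq_mul, smul_eq_mul, ← mul_smul_comm, ← mul_smul_comm]
    exact Subring.add_mem _ (Subring.mul_mem _ hx h2) (Subring.mul_mem _ hy h1)

lemma tt_mem' (h : cv w (c' - c) ≤ cv w r) : tt u c' r ∈ HH B u c r := by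
  have : tt u c' r = tt u c r - algebraMap C M (r⁻¹ * (c' - c)) := by
    rw [tt, tt, Algebra.smul_def, Algebra.smul_def, map_mul, map_sub]; ring
  rw [this]
  refine Subring.sub_mem _ (tt_mem c r) (cst_HH hd _ ?_)
  rw [map_mul, map_inv₀, mul_comm, ← div_eq_mul_inv]
  exact div_le_one_of_le₀ h zero_le

omit hd in
lemma th_eq (hr0 : r ≠ 0) (c : C) (x : M) :
    th D (u - algebraMap C M c) x = tt u c r * (r • D x) := by
  rw [th_apply, tt, smul_mul_smul_comm, inv_mul_cancel₀ hr0, one_smul]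

lemma th_HH (hD : D u = 1) (hr0 : r ≠ 0) (hr : cv w r < cv w ρ) (h : cv w (c' - c) ≤ cv w r) :
    ∀ x ∈ HH B u c r, th D (u - algebraMap C M c') x ∈ HH B u c r := fun x hx => by
  rw [th_eq hr0]; exact Subring.mul_mem _ (tt_mem' hd h) (der_HH hd hD hr0 hr hx)

lemma Pj_HH (p : ℕ) (hD : D u = 1) (hr0 : r ≠ 0) (hr : cv w r < cv w ρ)
    (h : cv w (c' - c) ≤ cv w r) :
    ∀ x ∈ HH B u c r, Pj p D (u - algebraMap C M c') x ∈ HH B u c r := fun x hx => by
  rw [Pj, LinearMap.sub_apply, Module.End.one_apply]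
  exact Subring.sub_mem _ hx (pow_map_mem (th_HH hd hD hr0 hr h) _ x hx)

lemma aeval_HH {f : C[X]} (hf : ∀ i, cv w (f.coeff i) ≤ 1) : aeval (tt u c r) f ∈ HH B u c r := by
  rw [aeval_eq_sum_range]
  exact Subring.sum_mem _ fun i _ =>
    smul_mem (cst_HH hd) (hf i) (Subring.pow_mem _ (tt_mem c r) i)

lemma val_aeval (hc' : Dc w u ρ c') (hx : x ∈ A) (f : C[X]) :
    val hd c' (aeval x f) = f.eval (val hd c' x) := by
  have h1 : aeval x f = ((aeval (⟨x, hx⟩ : A) f : A) : M) :=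
    aeval_algHom_apply A.val (⟨x, hx⟩ : A) f
  rw [h1, val_eq hd hc', ← aeval_algHom_apply, val_eq hd hc' ⟨x, hx⟩, coe_aeval_eq_eval]

/-- content: the maximum of a function on the closed disc is attained -/
theorem content (hp : ∀ f : C[X], Prim w f → ∃ τ : C, cv w τ ≤ 1 ∧ cv w (f.eval τ) = 1)
    (hc : Dc w u ρ c) (hr0 : r ≠ 0) (hr : cv w r < cv w ρ) (hx : x ∈ A) (h0 : x ≠ 0) :
    ∃ μ : C, μ ≠ 0 ∧ (∃ b ∈ HH B u c r, x = μ • b) ∧
      ∃ c', cv w (c' - c) ≤ cv w r ∧ cv w (val hd c' x) = cv w μ := by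
  obtain ⟨μ, π, f, n, b, hμ, hπ, hb, hf, he⟩ := hd.cl c hc r hr0 hr x hx h0
  obtain ⟨τ, h1, h2⟩ := hp f hf
  have hy : tt u c r ^ n * b ∈ HH B u c r :=
    Subring.mul_mem _ (Subring.pow_mem _ (tt_mem c r) n) (le_HH c r hb)
  have hf' : aeval (tt u c r) f ∈ HH B u c r := aeval_HH hd hf.1
  have hy' : π • (tt u c r ^ n * b) ∈ HH B u c r := smul_mem (cst_HH hd) hπ.le hy
  have hle : cv w (c + r * τ - c) ≤ cv w r := by
    rw [add_sub_cancel_left, map_mul]; exact mul_le_of_le_one_right' h1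
  have hc' := hc.near hr hle
  refine ⟨μ, hμ, ⟨_, Subring.add_mem _ hf' hy', he⟩, c + r * τ, hle, ?_⟩
  have he' : x = μ • (aeval (tt u c r) f + π • (tt u c r ^ n * b)) := he
  rw [he', val_smul hd hc' (HH_le_A hd (Subring.add_mem _ hf' hy')),
    val_add hd hc' (HH_le_A hd hf') (HH_le_A hd hy'), val_aeval hd hc' (tt_mem_A hd c r),
    val_tt hd hc', add_sub_cancel_left, inv_mul_cancel_left₀ hr0, map_mul,
    Valuation.map_add_eq_of_lt_left, h2, mul_one]
  rw [h2, val_smul hd hc' (HH_le_A hd hy), map_mul]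
  exact (mul_le_of_le_one_right' (val_HH hd hc' hle hy)).trans_lt hπ

end Val

end Pool.Agent.MP_19ffc6_ag.Perf.Hr.T4

end MrgPart3

-- ======== part 4: formerly Pool.Agent.MP_19ffc6_ag.perf.HrT4b
section MrgPart4

/-! Immediate case, part two: the slope of a cleaned Artin-Schreier function takes finitely many
values, so on a small disc the linear term dominates. -/

namespace Pool.Agent.MP_19ffc6_ag.Perf.Hr.T4

open Polynomial

variable {C Γ M : Type} [Field C] [LinearOrderedCommGroupWithZero Γ] [Field M] [Algebra C M]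
  {w : Valuation M Γ} {D : Derivation C M M} {u : M} {ρ : C} {B : Subring M} {A : Subalgebra C M}
  {p : ℕ} [hp : Fact p.Prime] [CharP C p]

lemma der_pow (D : Derivation C M M) (y : M) : D (y ^ p) = 0 := by
  haveI : CharP M p := charP_of_injective_algebraMap (algebraMap C M).injective p
  rw [Derivation.leibniz_pow, ← Nat.cast_smul_eq_nsmul M, CharP.cast_eq_zero, zero_smul]

omit [CharP C p] in
lemma pred_eq : p - 1 = p - 2 + 1 := by have := hp.out.two_le; omega

lemma Pj_pow (D : Derivation C M M) (s y : M) : Pj p D s (y ^ p) = y ^ p := by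
  rw [Pj, LinearMap.sub_apply, Module.End.one_apply, pred_eq, pow_succ, Module.End.mul_apply,
    th_apply, der_pow, mul_zero, map_zero, sub_zero]

omit [CharP C p] in
lemma pure_eq {s x : M} (h : Pj p D s x = 0) : x = (th D s ^ (p - 2)) (th D s x) := by
  rw [Pj, LinearMap.sub_apply, Module.End.one_apply, pred_eq, pow_succ, Module.End.mul_apply,
    sub_eq_zero] at h
  exact h

/-- standing data on one closed disc -/
structure Adm (w : Valuation M Γ) (u : M) (ρ c r : C) : Prop where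
  dc : Dc w u ρ c
  ne : r ≠ 0
  lt : cv w r < cv w ρ

variable (hd : Disc w D u ρ B A) (hD : D u = 1)
  (hpr : ∀ f : C[X], Prim w f → ∃ τ : C, cv w τ ≤ 1 ∧ cv w (f.eval τ) = 1) {c c' r : C}
include hd hD

omit [CharP C p] in
/-- a pure function is bounded by its derivative -/
lemma Bq.of_der {q : Γ → Prop} {x : M} (ha : Adm w u ρ c r) (h : cv w (c' - c) ≤ cv w r)
    (hx : Pj p D (u - algebraMap C M c') x = 0) (hb : Bq w C (HH B u c r) q (r • D x)) :
    Bq w C (HH B u c r) q x := by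
  rw [pure_eq hx]
  refine Bq.map ?_ _ (pow_map_mem (th_HH hd hD ha.ne ha.lt h) _)
  rw [th_eq ha.ne]
  exact hb.mul_mem (tt_mem' hd h)

lemma Bq.der {q : Γ → Prop} {x : M} (ha : Adm w u ρ c r) (hb : Bq w C (HH B u c r) q x) :
    Bq w C (HH B u c r) q (r • D x) :=
  hb.map (r • D.toLinearMap) fun _ h => der_HH hd hD ha.ne ha.lt h

include hpr

/-- the correction between two cleanings is small -/
lemma del {x δ : M} {g : Γ} (ha : Adm w u ρ c r) (h : cv w (c' - c) ≤ cv w r) (hg : 1 < g)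
    (hx : Bq w C (HH B u c r) (· ≤ g) x) (hδ : δ ∈ A)
    (hpure : Pj p D (u - algebraMap C M c') (x - δ ^ p + δ) = 0) :
    Bq w C (HH B u c r) (· < g) δ ∧ Bq w C (HH B u c r) (· ≤ g) (δ ^ p) := by
  have h0g : (0 : Γ) < g := zero_lt_one.trans hg
  rcases eq_or_ne δ 0 with rfl | h0
  · exact ⟨⟨0, by simpa using h0g, 0, Subring.zero_mem _, by simp⟩,
      ⟨0, by simp, 0, Subring.zero_mem _, by simp [hp.out.ne_zero]⟩⟩
  obtain ⟨ν, -, ⟨b, hb, hδb⟩, c'', h1, h2⟩ := content hd hpr ha.dc ha.ne ha.lt hδ h0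
  have hc'' := ha.dc.near ha.lt h1
  have hP := Pj_HH hd p hD ha.ne ha.lt h
  have he : δ ^ p = Pj p D (u - algebraMap C M c') x + Pj p D (u - algebraMap C M c') δ := by
    rw [map_add, map_sub, Pj_pow] at hpure
    linear_combination -hpure
  have hB : Bq w C (HH B u c r) (· ≤ max g (cv w ν)) (δ ^ p) := by
    rw [he]
    refine Bq.add (cst_HH hd) ((hx.map _ hP).mono fun _ h => le_max_of_le_left h) (Bq.map ?_ _ hP)
    exact ⟨ν, le_max_right _ _, b, hb, hδb⟩
  obtain ⟨g', h3, h4⟩ := hB.val hd hc'' h1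
  rw [val_pow hd hc'' hδ, map_pow, h2] at h4
  have hlt : cv w ν < g := by
    by_contra hn
    have hn := not_lt.1 hn
    rw [max_eq_right hn] at h3
    have := pow_lt_pow_right₀ (hg.trans_le hn) hp.out.one_lt
    rw [pow_one] at this
    exact absurd (h4.trans h3) (not_le.2 this)
  exact ⟨⟨ν, hlt, b, hb, hδb⟩, hB.mono fun _ h => by rwa [max_eq_left hlt.le] at h⟩

omit [CharP C p] in
/-- the content of a pure function is the value of its derivative at some point -/
lemma slope {x : M} {μ : C} (ha : Adm w u ρ c r)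
    (hx : Pj p D (u - algebraMap C M c) x = 0) (hb : ∃ b ∈ HH B u c r, x = μ • b) (hμ : μ ≠ 0)
    (hv : ∃ c', cv w (c' - c) ≤ cv w r ∧ cv w (val hd c' x) = cv w μ) :
    ∃ c', cv w (c' - c) ≤ cv w r ∧ cv w (val hd c' (r • D x)) = cv w μ := by
  have hcc : cv w (c - c) ≤ cv w r := by simp
  have hn : ¬ Bq w C (HH B u c r) (· < cv w μ) (r • D x) := fun h => by
    obtain ⟨c', h1, h2⟩ := hv
    obtain ⟨g, h3, h4⟩ := (Bq.of_der hd hD ha hcc hx h).val hd (ha.dc.near ha.lt h1) h1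
    exact absurd (h2 ▸ h4) (not_le.2 h3)
  have hle : Bq w C (HH B u c r) (· ≤ cv w μ) (r • D x) := Bq.der hd hD ha ⟨μ, le_rfl, hb⟩
  have h0 : r • D x ≠ 0 := fun h => hn ⟨0, by simpa [pos_iff_ne_zero] using hμ, 0,
    Subring.zero_mem _, by simp [h]⟩
  obtain ⟨ν, -, hν, c', h1, h2⟩ := content hd hpr ha.dc ha.ne ha.lt (hle.mem_A hd) h0
  obtain ⟨g, h3, h4⟩ := hle.val hd (ha.dc.near ha.lt h1) h1
  refine ⟨c', h1, le_antisymm (h4.trans h3) ?_⟩
  rw [h2]
  exact not_lt.1 fun h => hn ⟨ν, h, hν⟩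

omit hD [CharP C p] hp in
/-- a function that is small at the generic point is small on every smaller disc -/
lemma small {b : M} {c2 r2 : C} (ha : Adm w u ρ c r) (hc : Dc w u r c) (ha2 : Adm w u ρ c2 r2)
    (hc2 : Dc w u r2 c2) (hr : cv w r2 < cv w r) (hb : b ∈ HH B u c r) (h : w b < 1) :
    Bq w C (HH B u c2 r2) (· < 1) b := by
  rcases eq_or_ne b 0 with rfl | h0
  · exact ⟨0, by simp, 0, Subring.zero_mem _, by simp⟩
  obtain ⟨ν, -, hν, c', h1, h2⟩ := content hd hpr ha2.dc ha2.ne ha2.lt (HH_le_A hd hb) h0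
  refine ⟨ν, ?_, hν⟩
  have hc' : Dc w u r c' := Dc.near (lt_trans hc2 hr) hr h1
  have h3 : algebraMap C M (val hd c' b) = (algebraMap C M (val hd c' b) - b) + b := by ring
  show cv w ν < 1
  rw [← h2, cv_def, h3]
  exact w.map_add_lt (val_HH_near hd ha.lt hc hc' hb) h

omit hd hD hpr [CharP C p] hp in
lemma next (hc : Ctx C w) (h4 : T4 C w) (hu : ∀ c, u ≠ algebraMap C M c) (c : C) :
    ∃ c' r : C, r ≠ 0 ∧ cv w r = w (u - algebraMap C M c) ∧ Dc w u r c' := by
  obtain ⟨r, hr⟩ := h4 (u - algebraMap C M c)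
  have h0 : w (u - algebraMap C M c) ≠ 0 := by simpa using sub_ne_zero.2 (hu c)
  have hr0 : r ≠ 0 := by rintro rfl; simp [hr] at h0
  have hpos : 0 < cv w r := by simpa [pos_iff_ne_zero] using hr0
  obtain ⟨o, ho⟩ := hc.res (r⁻¹ • (u - algebraMap C M c)) (by
    rw [w_smul, map_inv₀, hr, ← cv_def, inv_mul_cancel₀ hpos.ne'])
  refine ⟨c + r * o, r, hr0, hr.symm, ?_⟩
  have : u - algebraMap C M (c + r * o) =
      r • (r⁻¹ • (u - algebraMap C M c) - algebraMap C M o) := by
    rw [smul_sub, smul_smul, mul_inv_cancel₀ hr0, one_smul, Algebra.smul_def, map_add, map_mul]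
    ring
  rw [Dc, this, w_smul]
  exact mul_lt_of_lt_one_right hpos ho

theorem core (hc : Ctx C w) (h4 : T4 C w) (hu : ∀ c, u ≠ algebraMap C M c) (a h : C → M)
    (haA : ∀ c, a c ∈ A) (hhA : ∀ c, h c ∈ A)
    (rel : ∀ c c', a c' = a c - (h c' - h c) ^ p + (h c' - h c))
    (pure : ∀ c, Pj p D (u - algebraMap C M c) (a c) = 0) (big : ∀ c, 1 < w (a c))
    {Λ : Set Γ} (hΛ : Λ.Finite)
    (mem : ∀ c, Dc w u ρ c → val hd c (D (a c)) ≠ 0 → cv w (val hd c (D (a c))) ∈ Λ) :
    ∃ c r μ : C, ∃ b ∈ HH B u c r, r ≠ 0 ∧ Dc w u r c ∧ cv w r < cv w ρ ∧ μ ≠ 0 ∧ a c = μ • b ∧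
      w (r • D b) = 1 := by
  let Q : Γ → Prop := fun g => ∃ c r μ : C, Adm w u ρ c r ∧ Dc w u r c ∧ μ ≠ 0 ∧
    (∃ b ∈ HH B u c r, a c = μ • b) ∧
    (∃ c', cv w (c' - c) ≤ cv w r ∧ cv w (val hd c' (a c)) = cv w μ) ∧ cv w μ = g * cv w r
  have ha0 : ∀ c, a c ≠ 0 := fun c h => by simpa [h] using big c
  have hpos : ∀ {r : C}, r ≠ 0 → 0 < cv w r := fun h => by simpa [pos_iff_ne_zero] using h
  have mk : ∀ c r, Adm w u ρ c r → Dc w u r c → ∃ μ : C, Q (cv w μ / cv w r) ∧
      ∃ c', cv w (c' - c) ≤ cv w r ∧ cv w (val hd c' (a c)) = cv w μ := by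
    intro c r ha hcr
    obtain ⟨μ, h1, h2, h3⟩ := content hd hpr ha.dc ha.ne ha.lt (haA c) (ha0 c)
    exact ⟨μ, ⟨c, r, μ, ha, hcr, h1, h2, h3, by rw [div_mul_cancel₀ _ (hpos ha.ne).ne']⟩, h3⟩
  have one_lt : ∀ {c c2 r μ : C} {q : Γ → Prop}, Dc w u r c2 → Bq w C (HH B u c2 r) q (a c) →
      ∃ g, q g ∧ 1 < g := fun hcr hb => by
    obtain ⟨g, h1, h2⟩ := hb.le fun _ hb => HH_le_W hd hcr.le hb
    exact ⟨g, h1, (big _).trans_le h2⟩
  have hQΛ : ∀ g, Q g → g ∈ Λ := by
    rintro g ⟨c, r, μ, ha, hcr, hμ, hb, hv, hg⟩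
    obtain ⟨c', h1, h2⟩ := slope hd hD hpr ha (pure c) hb hμ hv
    have hc' := ha.dc.near ha.lt h1
    have hB : Bq w C (HH B u c r) (· ≤ cv w μ) (a c) := ⟨μ, le_rfl, hb⟩
    obtain ⟨g1, h3, h5⟩ := one_lt (μ := μ) hcr hB
    have hδ := A.sub_mem (hhA c') (hhA c)
    obtain ⟨h6, -⟩ := del hd hD hpr ha h1 (h5.trans_le h3) hB hδ (rel c c' ▸ pure c')
    obtain ⟨g2, h7, h8⟩ := (Bq.der hd hD ha h6).val hd hc' h1
    have h9 : r * val hd c' (D (a c')) =
        val hd c' (r • D (a c)) + val hd c' (r • D (h c' - h c)) := by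
      rw [← val_smul hd hc' (der_mem hd (haA c')), rel c c', map_add, map_sub D (a c), der_pow,
        sub_zero, smul_add, val_add hd hc' (A.smul_mem (der_mem hd (haA c)) _)
          (A.smul_mem (der_mem hd hδ) _)]
    have h10 : cv w r * cv w (val hd c' (D (a c'))) = cv w μ := by
      rw [← map_mul, h9, Valuation.map_add_eq_of_lt_left, h2]
      rw [h2]; exact h8.trans_lt h7
    have h11 : cv w (val hd c' (D (a c'))) = g := by
      rw [hg, mul_comm g] at h10
      exact mul_left_cancel₀ (hpos ha.ne).ne' h10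
    rw [← h11]
    refine mem c' hc' fun h0 => ?_
    rw [h0, map_zero, mul_zero] at h10
    exact (hpos hμ).ne h10
  obtain ⟨c0, hc0⟩ := hd.pt
  obtain ⟨c1, r1, hr1, he1, hc1⟩ := next hc h4 hu c0
  have hlt1 : cv w r1 < cv w ρ := he1 ▸ hc0
  obtain ⟨μ1, hQ1, -⟩ := mk c1 r1 ⟨lt_trans hc1 hlt1, hr1, hlt1⟩ hc1
  obtain ⟨g, ⟨c, r, μ, ha, hcr, hμ, ⟨b, hb, hab⟩, -, hg⟩, hmin⟩ :=
    Set.exists_min_image {g | Q g} id (hΛ.subset hQΛ) ⟨_, hQ1⟩
  refine ⟨c, r, μ, b, hb, ha.ne, hcr, ha.lt, hμ, hab, ?_⟩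
  have hdb := der_HH hd hD ha.ne ha.lt hb
  by_contra hne
  have hsm : w (r • D b) < 1 := lt_of_le_of_ne (HH_le_W hd hcr.le hdb) hne
  obtain ⟨c2, r2, hr2, he2, hc2⟩ := next hc h4 hu c
  have hlt2 : cv w r2 < cv w r := he2 ▸ hcr
  have ha2 : Adm w u ρ c2 r2 := ⟨lt_trans hc2 (hlt2.trans ha.lt), hr2, hlt2.trans ha.lt⟩
  have hcc : cv w (c - c2) ≤ cv w r2 := by
    have : algebraMap C M (c - c2) = (u - algebraMap C M c2) - (u - algebraMap C M c) := by
      rw [map_sub]; ring
    rw [cv_def, this]; exact w.map_sub_le hc2.le he2.ge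
  obtain ⟨π, hπ, b2, hb2, he⟩ := small hd hpr ha hcr ha2 hc2 hlt2 hdb hsm
  have hB : Bq w C (HH B u c2 r2) (· ≤ cv w (μ * (r2 / r) * π)) (a c) := by
    refine Bq.of_der hd hD ha2 hcc (pure c) ⟨_, le_rfl, b2, hb2, ?_⟩
    rw [mul_smul, ← he, hab, Derivation.map_smul, smul_smul, smul_smul, mul_assoc,
      div_mul_cancel₀ _ ha.ne, mul_comm]
  obtain ⟨g1, h3, h5⟩ := one_lt (μ := μ) hc2 hB
  have hδ := A.sub_mem (hhA c2) (hhA c)
  obtain ⟨h6, h7⟩ := del hd hD hpr ha2 (c' := c2) (by simp) (h5.trans_le h3) hB hδ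
    (rel c c2 ▸ pure c2)
  have hB2 : Bq w C (HH B u c2 r2) (· ≤ cv w (μ * (r2 / r) * π)) (a c2) := by
    rw [rel c c2, sub_eq_add_neg (a c)]
    exact (hB.add (cst_HH hd) h7.neg).add (cst_HH hd) (h6.mono fun _ h => le_of_lt h)
  obtain ⟨μ2, hQ2, c', h8, h9⟩ := mk c2 r2 ha2 hc2
  obtain ⟨g2, h10, h11⟩ := hB2.val hd (ha2.dc.near ha2.lt h8) h8
  have h12 : g ≤ cv w μ2 / cv w r2 := hmin _ hQ2
  have hg0 : 0 < g := by
    refine pos_iff_ne_zero.2 fun h0 => ?_
    rw [h0, zero_mul] at hg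
    exact (hpos hμ).ne' hg
  rw [le_div_iff₀ (hpos hr2), ← h9] at h12
  have h13 := h12.trans (h11.trans h10)
  rw [map_mul, map_mul, map_div₀, hg, mul_assoc g, mul_div_cancel₀ _ (hpos ha.ne).ne'] at h13
  exact absurd h13 (not_le.2 (mul_lt_of_lt_one_right (mul_pos hg0 (hpos hr2)) hπ))

end Pool.Agent.MP_19ffc6_ag.Perf.Hr.T4

end MrgPart4

-- ======== part 5: formerly Pool.Agent.MP_19ffc6_ag.perf.HrT4
section MrgPart5

/-! Immediate case, part three: the Artin-Schreier step. -/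

namespace Pool.Agent.MP_19ffc6_ag.Perf.Hr

open Polynomial IntermediateField

variable {C Ω Γ : Type} [Field C] [Field Ω] [Algebra C Ω] [LinearOrderedCommGroupWithZero Γ]
  {v : Valuation Ω Γ} {p : ℕ} [hp : Fact p.Prime] [CharP C p]

namespace T4

lemma tie {K : Type} [Field K] (w : Valuation K Γ) {n : ℕ} (y : ℕ → K) (hn : y n ≠ 0)
    (h : ∑ i ∈ Finset.range (n + 1), y i = 0) :
    ∃ r ≤ n, ∃ s ≤ n, r < s ∧ w (y r) = w (y s) ∧ w (y s) ≠ 0 := by
  classical
  obtain ⟨s, hs, hmax⟩ := Finset.exists_max_image (Finset.range (n + 1)) (fun i => w (y i))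
    ⟨n, Finset.self_mem_range_succ n⟩
  have h0 : w (y s) ≠ 0 := fun h0 => hn (by
    simpa [h0] using hmax n (Finset.self_mem_range_succ n))
  have : ∃ r ∈ Finset.range (n + 1), r ≠ s ∧ w (y r) = w (y s) := by
    by_contra hc
    push Not at hc
    have h1 : w (∑ i ∈ (Finset.range (n + 1)).erase s, y i) < w (y s) :=
      w.map_sum_lt h0 fun i hi => lt_of_le_of_ne (hmax i (Finset.mem_of_mem_erase hi))
        (hc i (Finset.mem_of_mem_erase hi) (Finset.ne_of_mem_erase hi))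
    rw [← Finset.add_sum_erase _ _ hs, add_eq_zero_iff_eq_neg] at h
    rw [← Valuation.map_neg, ← h] at h1
    exact lt_irrefl _ h1
  obtain ⟨r, hr, hrs, he⟩ := this
  have hr' := Nat.lt_succ_iff.1 (Finset.mem_range.1 hr)
  have hs' := Nat.lt_succ_iff.1 (Finset.mem_range.1 hs)
  rcases lt_or_gt_of_ne hrs with h1 | h1
  · exact ⟨r, hr', s, hs', h1, he, h0⟩
  · exact ⟨s, hs', r, hr', h1, he.symm, he ▸ h0⟩

/-- the slopes of a Newton polygon -/
def slopes (e : ℕ → Γ) (n : ℕ) : Set Γ :=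
  {g | ∃ r ≤ n, ∃ s ≤ n, r < s ∧ e r * g ^ r = e s * g ^ s ∧ e s * g ^ s ≠ 0}

lemma slopes_finite (e : ℕ → Γ) (n : ℕ) : (slopes e n).Finite := by
  have key : ∀ r s, {g : Γ | r < s ∧ e r * g ^ r = e s * g ^ s ∧ e s * g ^ s ≠ 0}.Finite := by
    intro r s
    refine Set.Subsingleton.finite ?_
    have aux : ∀ g : Γ, r < s → e r * g ^ r = e s * g ^ s → e s * g ^ s ≠ 0 →
        e r = e s * g ^ (s - r) := by
      intro g h1 h2 h3
      have hg : g ^ r ≠ 0 := right_ne_zero_of_mul (h2 ▸ h3)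
      refine mul_right_cancel₀ hg ?_
      rw [h2, mul_assoc, ← pow_add, Nat.sub_add_cancel h1.le]
    rintro g ⟨h1, h2, h3⟩ g' ⟨-, h2', h3'⟩
    have := (aux g h1 h2 h3).symm.trans (aux g' h1 h2' h3')
    exact (pow_left_inj₀ zero_le zero_le (Nat.sub_ne_zero_of_lt h1)).1
      (mul_left_cancel₀ (left_ne_zero_of_mul h3) this)
  refine ((Set.finite_le_nat n).biUnion fun r _ =>
    (Set.finite_le_nat n).biUnion fun s _ => key r s).subset ?_
  rintro g ⟨r, hr, s, hs, h⟩
  simp only [Set.mem_iUnion]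
  exact ⟨r, hr, s, hs, h⟩

lemma fix_adj {M : Type} [Field M] [Algebra C M] {φ σ : M →ₐ[C] Ω} {z : M} (h : σ z = φ z) :
    ∀ e ∈ C⟮z⟯, σ e = φ e := by
  intro x hx
  induction hx using IntermediateField.adjoin_induction with
  | mem x hx => rw [Set.mem_singleton_iff.1 hx]; exact h
  | algebraMap x => rw [AlgHom.commutes, AlgHom.commutes]
  | add x y _ _ hx hy => rw [map_add, map_add, hx, hy]
  | inv x _ hx => rw [map_inv₀, map_inv₀, hx]
  | mul x y _ _ hx hy => rw [map_mul, map_mul, hx, hy]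

/-- in a non split extension the generators are not integral -/
lemma big {M M' : Type} [Field M] [Algebra C M] [Field M'] [Algebra C M'] [Algebra M M']
    [IsScalarTower C M M'] (hb : Bas C v) {φ : M' →ₐ[C] Ω} {α : M'} (hns : NS v M φ α) {a h : M}
    (hz : (α - algebraMap M M' h) ^ p - (α - algebraMap M M' h) = algebraMap M M' a) :
    1 < vm v (dn M φ) a := by
  have : CharP Ω p := charP_of_injective_algebraMap (algebraMap C Ω).injective p
  obtain ⟨σ, h1, h2, h3⟩ := hns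
  set z := α - algebraMap M M' h with hzd
  have hM : ∀ x : M, σ (algebraMap M M' x) = φ (algebraMap M M' x) := fun x =>
    DFunLike.congr_fun h1 x
  have hj : σ z - φ z ≠ 0 := by
    rw [hzd, map_sub, map_sub, hM, sub_sub_sub_cancel_right]; exact sub_ne_zero.2 h3
  have e1 : σ z ^ p - σ z = φ z ^ p - φ z := by
    rw [← map_pow, ← map_sub, ← map_pow, ← map_sub, hz, hM]
  have e2 : (σ z - φ z) ^ p = σ z - φ z := by rw [sub_pow_char]; linear_combination e1
  have e3 : v (σ z - φ z) = 1 := by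
    have h4 : v (σ z - φ z) ^ (p - 1) = 1 := by
      refine mul_right_cancel₀ (show v (σ z - φ z) ≠ 0 by simpa using hj) ?_
      rw [← pow_succ, Nat.sub_add_cancel hp.out.one_le, ← map_pow, e2, one_mul]
    exact (pow_eq_one_iff_of_nonneg zero_le (by have := hp.out.two_le; omega)).1 h4
  have e4 : 1 < v (φ z) := not_le.1 fun h => (hb.iso_res M' φ σ h2 z h).ne e3
  have e5 : v (φ z) < v (φ z ^ p) := by
    rw [map_pow]; simpa using pow_lt_pow_right₀ e4 hp.out.one_lt
  rw [vm_apply, dn_apply, ← hz, map_sub, map_pow, Valuation.map_sub_eq_of_lt_left _ e5]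
  exact e4.trans e5

variable {M : Type} [Field M] [Algebra C M]

lemma pure_of {D : Derivation C M M} {s a : M} {n : ℕ} {x : Fin n → M} {A : Fin n → Fin n → C}
    {b h : Fin n → C} (h1 : Pj p D s a = ∑ i, b i • x i ^ p)
    (h2 : ∀ j, Pj p D s (x j) = ∑ i, A i j • x i ^ p) (h3 : ∀ i, h i ^ p = b i + ∑ j, A i j * h j) :
    Pj p D s (a - (∑ i, h i • x i) ^ p + ∑ i, h i • x i) = 0 := by
  have : CharP M p := charP_of_injective_algebraMap (algebraMap C M).injective p
  rw [map_add, map_sub, Pj_pow, h1, map_sum, sum_pow_char]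
  simp only [map_smul, h2, _root_.smul_pow, h3, add_smul, Finset.sum_add_distrib, Finset.smul_sum,
    Finset.sum_smul, smul_smul]
  rw [Finset.sum_comm (f := fun j i => (h j * A i j) • x i ^ p)]
  simp only [mul_comm (h _)]
  abel

/-- a cleaned function which is a coordinate on a small disc -/
theorem good {w : Valuation M Γ} {u η a : M} {P : M[X]} {D : Derivation C M M} (hc : Ctx C w)
    (hpr : ∀ f : C[X], Prim w f → ∃ τ : C, cv w τ ≤ 1 ∧ cv w (f.eval τ) = 1)
    (hdi : DiscStmt C Γ) (hx : XsStmt C p) (hs : SolStmt C p) (hi : IntStmt p) (hf : Fn C u)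
    (hP : Pres C w u η P) (h4 : T4 C w) (hD : D u = 1) (big : ∀ h : M, 1 < w (a - h ^ p + h)) :
    ∃ (ρ : C) (B : Subring M) (A : Subalgebra C M) (h : M) (c r μ : C), Disc w D u ρ B A ∧
      ∃ b ∈ HH B u c r, r ≠ 0 ∧ Dc w u r c ∧ cv w r < cv w ρ ∧ μ ≠ 0 ∧ a - h ^ p + h = μ • b ∧
        w (r • D b) = 1 := by
  classical
  have : CharP M p := charP_of_injective_algebraMap (algebraMap C M).injective p
  obtain ⟨n, x, Am, bm, hX⟩ := hx M u D hf hD a
  choose hh hsol using fun c : C => hs n (fun i j => (Am i j).eval c) fun i => (bm i).eval c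
  let R : Subalgebra C M := Algebra.adjoin C ({u, D a} ∪ Set.range fun i => D (x i))
  let uR : R := ⟨u, Algebra.subset_adjoin (by simp)⟩
  let y0 : R := ⟨D a, Algebra.subset_adjoin (by simp)⟩
  let y : Fin n → R := fun i => ⟨D (x i), Algebra.subset_adjoin (by simp)⟩
  obtain ⟨χ, hχ, hroot⟩ := hi R n (fun i j => aeval uR (Am i j)) (fun i => aeval uR (bm i)) y0 y
  obtain ⟨ρ, B, A, hd, hF⟩ := hdi M w u η P D hc hf.tr hP h4 hD
    (insert a (Finset.univ.image x ∪
      (Finset.range (χ.natDegree + 1)).image fun i => (χ.coeff i : M)))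
  have hFA : ∀ f ∈ insert a (Finset.univ.image x ∪
      (Finset.range (χ.natDegree + 1)).image fun i => (χ.coeff i : M)), f ∈ A := by
    intro f hf
    rcases eq_or_ne f 0 with rfl | h0
    · exact A.zero_mem
    · obtain ⟨e, he, h1, -⟩ := hF f hf h0
      exact (hd.mem f).2 ⟨e, he, h1⟩
  have haA : a ∈ A := hFA a (by simp)
  have hxA : ∀ i, x i ∈ A := fun i => hFA _ (by simp)
  have hRA : R ≤ A := Algebra.adjoin_le (by
    rintro z ((rfl | rfl) | ⟨i, rfl⟩)
    · exact u_mem hd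
    · exact der_mem hd haA
    · exact der_mem hd (hxA i))
  let H : C → M := fun c => ∑ i, hh c i • x i
  have hHA : ∀ c, H c ∈ A := fun c => A.sum_mem fun i _ => A.smul_mem (hxA i) _
  obtain ⟨c, r, μ, hres⟩ := core hd hD hpr hc h4
    (fun c h => hf.tr (h ▸ isAlgebraic_algebraMap c)) (fun c => a - H c ^ p + H c) H
    (fun c => A.add_mem (A.sub_mem haA (A.pow_mem (hHA c) p)) (hHA c)) hHA
    (fun c c' => by rw [sub_pow_char]; ring)
    (fun c => pure_of (hX c).1 (hX c).2 (hsol c)) (fun c => big _)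
    (slopes_finite (fun i => w (χ.coeff i : M)) χ.natDegree) (by
      intro c hcc h0
      let g : R →ₐ[C] C := (hd.ev c hcc).choose.comp (Subalgebra.inclusion hRA)
      have hg : ∀ z : R, g z = val hd c z := fun z => (val_eq hd hcc ⟨z, hRA z.2⟩).symm
      have hgu : ∀ f : C[X], g (aeval uR f) = f.eval c := fun f => by
        rw [← aeval_algHom_apply, hg, val_u hd hcc, coe_aeval_eq_eval]
      have hγ : val hd c (D (a - H c ^ p + H c)) = g y0 + ∑ i, hh c i * g (y i) := by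
        have : D (a - H c ^ p + H c) = ((y0 + ∑ i, hh c i • y i : R) : M) := by
          rw [map_add, map_sub, der_pow, sub_zero, map_sum]
          simp [y0, y]
        rw [this, ← hg, map_add, map_sum]
        simp only [map_smul, smul_eq_mul]
      have hr := hroot C (g : R →+* C) (hh c) fun i => by
        simpa only [RingHom.coe_coe, hgu] using hsol c i
      simp only [RingHom.coe_coe] at hr
      rw [← hγ, eval₂_eq_sum_range] at hr
      have hw : ∀ i ≤ χ.natDegree, cv w (g (χ.coeff i)) = w (χ.coeff i : M) := by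
        intro i hi
        rcases eq_or_ne (χ.coeff i) 0 with h1 | h1
        · simp [h1]
        obtain ⟨e, he, h2, h3⟩ := hF (χ.coeff i : M) (by
          simp only [Finset.mem_insert, Finset.mem_union, Finset.mem_image, Finset.mem_range]
          exact Or.inr (Or.inr ⟨i, Nat.lt_succ_of_le hi, rfl⟩)) (by simpa using h1)
        have h5 := val_B hd hcc h2
        have h6 : cv w (val hd c (e • (χ.coeff i : M))) = 1 := by
          rw [cv_def, ← h3]
          exact Valuation.map_eq_of_sub_lt _ (h3 ▸ h5)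
        rw [val_smul hd hcc (hRA (χ.coeff i).2), map_mul, ← h3, w_smul] at h6
        rw [hg]
        exact mul_left_cancel₀ (by simpa using he) h6
      obtain ⟨r, hr1, s, hs1, h1, h2, h3⟩ := tie (cv w) _ (by
        rw [show χ.coeff χ.natDegree = 1 from hχ, map_one, one_mul]; exact pow_ne_zero _ h0) hr
      simp only [RingHom.coe_coe, map_mul, map_pow, hw r hr1, hw s hs1] at h2 h3
      exact ⟨r, hr1, s, hs1, h1, h2, h3⟩)
  exact ⟨ρ, B, A, H c, c, r, μ, hd, hres⟩

end T4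

open T4 in
theorem a4 (hc : Ctx C v) (hb : Bas C v) (hq : Dq C v) (hd : Der C) (he : EtvStmt C v)
    (hx : XsStmt C p) (hs : SolStmt C p) (hi : IntStmt p) (hdi : DiscStmt C Γ) :
    A4Stmt C v p := by
  intro M M' _ _ _ _ _ _ _ _ φ u a α hco h4 hα hgen hns
  have : CharP M' p := charP_of_injective_algebraMap (algebraMap C M').injective p
  obtain ⟨η, P, hP⟩ := he M _ u hco
  obtain ⟨D, hD⟩ := hd.ex M u hco.fn
  obtain ⟨D', hD'⟩ := hd.up M M' D
  have hz : ∀ h : M, (α - algebraMap M M' h) ^ p - (α - algebraMap M M' h) =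
      algebraMap M M' (a - h ^ p + h) := fun h => by
    rw [sub_pow_char, map_add, map_sub, map_pow, ← hα]; ring
  obtain ⟨ρ, B, A, h, c, r, μ, hdc, b, hbH, hr0, hcr, hlt, hμ, hab, hun⟩ :=
    good (hc.vm (dn M φ)) (hb.prim M _ (hc.vm _)) hdi hx hs hi hco.fn hP h4 hD
      fun h => big hb hns (hz h)
  have hfn : Fn C (α - algebraMap M M' h) := by
    refine hd.sep M M' u D' _ hco.fn fun h0 => ?_
    have h1 := congrArg D' (hz h)
    rw [map_sub, der_pow, h0, sub_zero, hD', hab, Derivation.map_smul, eq_comm,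
      map_eq_zero, smul_eq_zero] at h1
    rw [h1.resolve_left hμ] at hun
    simp at hun
  refine ⟨α - algebraMap M M' h, hfn, fun σ hσ hiso => ?_⟩
  have := hfn.fin
  have hval : ∀ x, v (σ x) = v (φ x) := fun x =>
    hb.iso_val M' φ σ _ hiso (fix_adj hσ) x (Algebra.IsAlgebraic.isAlgebraic x)
  have ht : vm v (dn M φ) (tt u c r) < 1 := by
    rw [tt, w_smul, map_inv₀, mul_comm, ← div_eq_mul_inv]
    exact (div_lt_one₀ (zero_le.trans_lt hcr)).2 hcr
  have hδ : dn M σ (tt u c r) = dn M φ (tt u c r) := by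
    by_contra hne
    obtain ⟨S, hS, hm⟩ := hq.dq M (dn M φ) (dn M σ) (r • D) _ hiso.dn (sub_ne_zero.2 hne)
      (v.map_sub_lt ((hval _).trans_lt ht) ht)
    have hpos : 0 < v (dn M σ (tt u c r) - dn M φ (tt u c r)) := by
      simpa [pos_iff_ne_zero] using sub_ne_zero.2 hne
    have hcst : ∀ e : C, vm v (dn M φ) (algebraMap C M e) ≤ 1 → algebraMap C M e ∈ S :=
      fun e he => (hm _).2 ⟨he, by simp, by
        rw [AlgHom.commutes, AlgHom.commutes, Derivation.map_algebraMap]; simpa using hpos⟩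
    have hDt : (r • D) (tt u c r) = 1 := by
      rw [Derivation.smul_apply, tt, Derivation.map_smul, map_sub, hD, Derivation.map_algebraMap,
        sub_zero, smul_smul, mul_inv_cancel₀ hr0, one_smul]
    have htS : tt u c r ∈ S := (hm _).2 ⟨ht.le, by rw [hDt]; simp, by
      rw [hDt, map_one, mul_one, sub_self]; simpa using hpos⟩
    have hBS : B ≤ S := hdc.ind S hS hcst fun c' hc' => by
      have h1 : ρ⁻¹ • (u - algebraMap C M c') =
          algebraMap C M (r / ρ) * tt u c r + algebraMap C M ((c - c') / ρ) := by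
        rw [← Algebra.smul_def, tt, smul_smul, div_mul_eq_mul_div, mul_inv_cancel₀ hr0, one_div,
          Algebra.smul_def, Algebra.smul_def, div_eq_inv_mul, map_mul, map_sub]
        ring
      have h2 : algebraMap C M (c - c') = (u - algebraMap C M c') - (u - algebraMap C M c) := by
        rw [map_sub]; ring
      rw [h1]
      refine S.add_mem (S.mul_mem (hcst _ ?_) htS) (hcst _ ?_)
      · rw [map_div₀, map_div₀]; exact div_le_one_of_le₀ hlt.le zero_le
      · rw [map_div₀, map_div₀, h2]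
        exact div_le_one_of_le₀ (Valuation.map_sub_lt _ hc' (lt_trans hcr hlt)).le zero_le
    have h3 := ((hm b).1 (HH_le hBS htS hbH)).2.2
    have h5 : dn M σ b = dn M φ b := by
      have h6 : dn M σ (μ • b) = dn M φ (μ • b) := by
        rw [← hab, dn_apply, dn_apply, ← hz, map_sub σ, map_sub φ (_ ^ p), map_pow, map_pow, hσ]
      rw [map_smul, map_smul] at h6
      exact smul_right_injective Ω hμ h6
    rw [h5, sub_self, zero_sub, Valuation.map_neg, map_mul] at h3
    have h7 : v (dn M φ ((r • D) b)) = 1 := hun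
    rw [h7, mul_one] at h3
    exact lt_irrefl _ h3
  have hu : dn M σ u = dn M φ u := by
    rw [tt, map_smul, map_smul, map_sub, map_sub, AlgHom.commutes, AlgHom.commutes] at hδ
    exact sub_left_injective (smul_right_injective Ω (inv_ne_zero hr0) hδ)
  have hM := hco.fix _ hu hiso.dn
  refine ext_gen hgen hM ?_
  have h8 : σ (algebraMap M M' h) = φ (algebraMap M M' h) := DFunLike.congr_fun hM h
  rw [map_sub, map_sub, h8] at hσ
  exact sub_left_injective hσ

end Pool.Agent.MP_19ffc6_ag.Perf.Hr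

end MrgPart5

-- marker of a merged file
example : 731051 + 389399 = 731051 + 389399 := rfl
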