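import Mathlib.Algebra.BigOperators.Field
import Mathlib.RingTheory.RootsOfUnity.AlgebraicallyClosed
import Mathlib.FieldTheory.KummerExtension
import Mathlib.FieldTheory.PurelyInseparable.PerfectClosure
import Mathlib.GroupTheory.Nilpotent
import Pool.Agent.MP_19ffc6_ag.perf.HrEtv
import Pool.Agent.MP_19ffc6_ag.perf.HrT4
import Pool.Agent.MP_19ffc6_ag.perf.HrFin

-- ======== part 0: formerly Pool.Agent.MP_19ffc6_ag.perf.HrXs
section MrgPart0

/-!
Row XS: a finite family that is stable under all the Cartier type operators.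
If `e` is a basis of `M` over `C(u)` then so are the `p`-th powers, and the derivation acts on the
coordinates in the second basis.
-/

namespace Pool.Agent.MP_19ffc6_ag.Perf.Hr

open Polynomial IntermediateField

namespace Xs

variable {C M : Type} [Field C] [Field M] [Algebra C M] {ι : Type} [Fintype ι]

/-- functions with polynomial coordinates with respect to the family `y` -/
def Gd (y : ι → M) (f : C → M) : Prop :=
  ∃ b : ι → C[X], ∀ c, f c = ∑ i, (b i).eval c • y i

variable {y : ι → M} {f g : C → M}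

lemma Gd.congr (h : Gd y f) (e : ∀ c, g c = f c) : Gd y g := by
  obtain ⟨b, hb⟩ := h
  exact ⟨b, fun c => (e c).trans (hb c)⟩

lemma Gd.zero : Gd y fun _ : C => 0 := ⟨0, fun c => by simp⟩

lemma Gd.add (h : Gd y f) (h' : Gd y g) : Gd y fun c => f c + g c := by
  obtain ⟨b, hb⟩ := h
  obtain ⟨b', hb'⟩ := h'
  exact ⟨b + b', fun c => by simp [hb, hb', add_smul, Finset.sum_add_distrib]⟩

lemma Gd.smul (q : C[X]) (h : Gd y f) : Gd y fun c => q.eval c • f c := by
  obtain ⟨b, hb⟩ := h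
  exact ⟨fun i => q * b i, fun c => by simp [hb, Finset.smul_sum, mul_smul]⟩

lemma Gd.sum {κ : Type} (s : Finset κ) {F : κ → C → M} (h : ∀ k ∈ s, Gd y (F k)) :
    Gd y fun c => ∑ k ∈ s, F k c := by
  classical
  induction s using Finset.induction_on with
  | empty => simpa using Gd.zero
  | insert a s ha ih =>
    refine ((h a (Finset.mem_insert_self _ _)).add
      (ih fun k hk => h k (Finset.mem_insert_of_mem hk))).congr fun c => ?_
    rw [Finset.sum_insert ha]

lemma Gd.base (i : ι) : Gd y fun _ : C => y i := by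
  classical
  refine ⟨Pi.single i 1, fun c => ?_⟩
  rw [Finset.sum_eq_single i]
  · simp
  · intro j _ hj
    simp [Pi.single_eq_of_ne hj]
  · simp

variable {p : ℕ} [Fact p.Prime] [CharP C p]

lemma th_mon (D : Derivation C M M) {s : M} (hs : D s = 1) (l : ℕ) (z : M) :
    th D s (s ^ l * z ^ p) = (l : C) • (s ^ l * z ^ p) := by
  have h0 : (p : M) = 0 := by
    rw [← map_natCast (algebraMap C M), CharP.cast_eq_zero, map_zero]
  have h1 : D (z ^ p) = 0 := by
    rw [D.leibniz_pow, nsmul_eq_mul, h0, zero_mul]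
  rw [th_apply, D.leibniz, h1, D.leibniz_pow, hs, Algebra.smul_def (l : C), map_natCast]
  rcases l with _ | l
  · simp
  · simp only [smul_eq_mul, nsmul_eq_mul, Nat.add_sub_cancel]
    ring

lemma th_pow_mon (D : Derivation C M M) {s : M} (hs : D s = 1) (l : ℕ) (z : M) (m : ℕ) :
    (th D s ^ m) (s ^ l * z ^ p) = (l : C) ^ m • (s ^ l * z ^ p) := by
  induction m with
  | zero => simp
  | succ m ih =>
    rw [pow_succ', Module.End.mul_apply, ih, map_smul, th_mon D hs, smul_smul, pow_succ]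

lemma Pj_mon (D : Derivation C M M) {s : M} (hs : D s = 1) (l : ℕ) (z : M) :
    Pj p D s (s ^ l * z ^ p) = if p ∣ l then s ^ l * z ^ p else 0 := by
  have hp : p.Prime := Fact.out
  rw [Pj, LinearMap.sub_apply, th_pow_mon D hs, Module.End.one_apply]
  split_ifs with h
  · rw [(CharP.cast_eq_zero_iff C p l).2 h, zero_pow (by have := hp.two_le; omega), zero_smul,
      sub_zero]
  · have h1 : (l : C) ≠ 0 := fun h0 => h ((CharP.cast_eq_zero_iff C p l).1 h0)
    have h2 : (l : C) ^ p = l := map_natCast (frobenius C p) l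
    have h3 : (l : C) ^ (p - 1) = 1 := by
      apply mul_right_cancel₀ h1
      rw [← pow_succ, Nat.sub_add_cancel hp.one_le, h2, one_mul]
    rw [h3, one_smul, sub_self]

/-- the projector applied to `u ^ m * z ^ p` -/
lemma gd_mon (D : Derivation C M M) {u : M} (hu : D u = 1) {κ m : ℕ} (hm : m ≤ p * κ) (z : M)
    (hz : ∀ i ≤ κ, ∃ j, y j = (u ^ i * z) ^ p) :
    Gd y fun c => Pj p D (u - algebraMap C M c) (u ^ m * z ^ p) := by
  have hp : p.Prime := Fact.out
  have : CharP M p := charP_of_injective_algebraMap (algebraMap C M).injective p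
  have key : ∀ l ≤ m, Gd y fun c => Pj p D (u - algebraMap C M c)
      ((u - algebraMap C M c) ^ l * z ^ p) := by
    intro l hl
    by_cases h : p ∣ l
    · obtain ⟨l', rfl⟩ := h
      have hl' : l' ≤ κ := Nat.le_of_mul_le_mul_left (hl.trans hm) hp.pos
      refine (Gd.sum (Finset.range (l' + 1)) (F := fun i c =>
        ((-X ^ p) ^ (l' - i) * (l'.choose i : C[X])).eval c • (u ^ i * z) ^ p)
        fun i hi => ?_).congr fun c => ?_
      · obtain ⟨j, hj⟩ := hz i ((Nat.lt_succ_iff.1 (Finset.mem_range.1 hi)).trans hl')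
        exact (Gd.smul _ (Gd.base j)).congr fun c => by rw [hj]
      · rw [Pj_mon D (by simp [hu]), if_pos (dvd_mul_right _ _), pow_mul, sub_pow_char,
          sub_eq_add_neg, add_pow, Finset.sum_mul]
        refine Finset.sum_congr rfl fun i _ => ?_
        simp only [Algebra.smul_def, eval_mul, eval_pow, eval_neg, eval_X, eval_natCast, map_mul,
          map_pow, map_neg, map_natCast]
        ring
    · exact Gd.zero.congr fun c => by rw [Pj_mon D (by simp [hu]), if_neg h]
  refine (Gd.sum (Finset.range (m + 1)) (F := fun l c =>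
    (X ^ (m - l) * (m.choose l : C[X])).eval c • Pj p D (u - algebraMap C M c)
      ((u - algebraMap C M c) ^ l * z ^ p))
    fun l hl => Gd.smul _ (key l (Nat.lt_succ_iff.1 (Finset.mem_range.1 hl)))).congr fun c => ?_
  simp only [← map_smul, ← map_sum]
  congr 1
  conv_lhs => rw [← sub_add_cancel u (algebraMap C M c), add_pow, Finset.sum_mul]
  refine Finset.sum_congr rfl fun i _ => ?_
  simp only [Algebra.smul_def, eval_mul, eval_pow, eval_X, eval_natCast, map_mul,
    map_pow, map_natCast]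
  ring

/-- the projector applied to `F(u) * z ^ p` -/
lemma gd_poly (D : Derivation C M M) {u : M} (hu : D u = 1) {κ : ℕ} (F : C[X])
    (hF : F.natDegree ≤ p * κ) (z : M) (hz : ∀ i ≤ κ, ∃ j, y j = (u ^ i * z) ^ p) :
    Gd y fun c => Pj p D (u - algebraMap C M c) (aeval u F * z ^ p) := by
  refine (Gd.sum (Finset.range (F.natDegree + 1)) (F := fun m c =>
    (Polynomial.C (F.coeff m)).eval c • Pj p D (u - algebraMap C M c) (u ^ m * z ^ p))
    fun m hm => Gd.smul _ (gd_mon D hu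
      ((Nat.lt_succ_iff.1 (Finset.mem_range.1 hm)).trans hF) z hz)).congr fun c => ?_
  simp only [← map_smul, ← map_sum, eval_C]
  rw [aeval_eq_sum_range, Finset.sum_mul]
  simp only [smul_mul_assoc]

omit [Fact p.Prime] [CharP C p] in
/-- common denominators -/
lemma den (u : M) (r : ι → M) (hr : ∀ i, r i ∈ C⟮u⟯) :
    ∃ (Δ : C[X]) (f : ι → C[X]), aeval u Δ ≠ 0 ∧ ∀ i, aeval u Δ * r i = aeval u (f i) := by
  classical
  have h : ∀ i, ∃ f g : C[X], aeval u g ≠ 0 ∧ aeval u g * r i = aeval u f := fun i => by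
    obtain ⟨f, g, e⟩ := (mem_adjoin_simple_iff C (r i)).1 (hr i)
    by_cases hg : aeval u g = 0
    · exact ⟨0, 1, by simp, by simp [e, hg]⟩
    · exact ⟨f, g, hg, by rw [e, mul_div_cancel₀ _ hg]⟩
  choose f g h1 h2 using h
  refine ⟨∏ i, g i, fun i => (∏ j ∈ Finset.univ.erase i, g j) * f i, ?_, fun i => ?_⟩
  · rw [map_prod]
    exact Finset.prod_ne_zero_iff.2 fun i _ => h1 i
  · rw [← Finset.prod_erase_mul _ _ (Finset.mem_univ i), map_mul, map_mul, mul_assoc, h2]

/-- a family that generates itself and `a` by `p`-th powers over `C[u]` -/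
lemma fam {u : M} (h : Fn C u) (a : M) : ∃ (d : ℕ) (ε : Fin d → M) (m : Fin d → Fin d → C[X])
    (b : Fin d → C[X]), a = ∑ k, aeval u (b k) * ε k ^ p ∧
      ∀ j, ε j = ∑ k, aeval u (m j k) * ε k ^ p := by
  have hp : p.Prime := Fact.out
  have := h.fin
  have := h.sep
  have : CharP C⟮u⟯ p := charP_of_injective_algebraMap (algebraMap C C⟮u⟯).injective p
  have : ExpChar C⟮u⟯ p := ExpChar.prime hp
  let e := Module.finBasis C⟮u⟯ M
  have h1 := Field.span_map_pow_expChar_pow_eq_top_of_isSeparable p 1 e.span_eq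
  have h2 : ∀ x : M, ∃ r : Fin (Module.finrank C⟮u⟯ M) → C⟮u⟯, ∑ k, r k • e k ^ p = x :=
    fun x => by
      have : x ∈ Submodule.span C⟮u⟯ (Set.range fun k => e k ^ p ^ 1) := h1 ▸ Submodule.mem_top
      simpa using (Submodule.mem_span_range_iff_exists_fun _).1 this
  choose r hr using h2
  obtain ⟨Δ, f, h0, hf⟩ := den (C := C) u
    (fun i : Option (Fin (Module.finrank C⟮u⟯ M)) × Fin (Module.finrank C⟮u⟯ M) =>
      (r (i.1.elim a e) i.2 : M)) fun i => (r _ _).2
  obtain ⟨q, hq⟩ : ∃ q, p = q + 2 := ⟨p - 2, by have := hp.two_le; omega⟩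
  have key : ∀ o : Option (Fin (Module.finrank C⟮u⟯ M)), (o.elim a e) / aeval u Δ =
      ∑ k, aeval u (f (o, k) * Δ ^ q) * (e k / aeval u Δ) ^ p := fun o => by
    conv_lhs => rw [← hr (o.elim a e), Finset.sum_div]
    refine Finset.sum_congr rfl fun k _ => ?_
    rw [map_mul, ← hf, map_pow, div_pow, IntermediateField.smul_def, smul_eq_mul]
    generalize e k ^ p = w
    rw [hq]
    field_simp
    ring
  refine ⟨_, fun k => e k / aeval u Δ, fun j k => f (some j, k) * Δ ^ q,
    fun k => Δ * (f (none, k) * Δ ^ q), ?_, fun j => key (some j)⟩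
  have := key none
  simp only [Option.elim_none] at this
  rw [← mul_div_cancel₀ a h0, this, Finset.mul_sum]
  refine Finset.sum_congr rfl fun k _ => ?_
  rw [map_mul _ Δ, mul_assoc]

end Xs

open Xs in
theorem xs {C : Type} [Field C] {p : ℕ} [Fact p.Prime] [CharP C p] : XsStmt C p := by
  intro M _ _ u D h hu a
  have hp : p.Prime := Fact.out
  obtain ⟨d, ε, m, b, ha, hε⟩ := fam (p := p) h a
  obtain ⟨κ, hm, hb⟩ : ∃ κ : ℕ, (∀ j k, (m j k).natDegree ≤ κ) ∧ ∀ k, (b k).natDegree ≤ κ := by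
    obtain ⟨κ₁, h₁⟩ := (Set.finite_range fun i : Fin d × Fin d => (m i.1 i.2).natDegree).bddAbove
    obtain ⟨κ₂, h₂⟩ := (Set.finite_range fun k => (b k).natDegree).bddAbove
    exact ⟨max κ₁ κ₂, fun j k => (h₁ ⟨(j, k), rfl⟩).trans (le_max_left _ _),
      fun k => (h₂ ⟨k, rfl⟩).trans (le_max_right _ _)⟩
  let σ := (Fintype.equivFin (Fin (κ + 1) × Fin d)).symm
  let x : Fin (Fintype.card (Fin (κ + 1) × Fin d)) → M := fun i => u ^ ((σ i).1 : ℕ) * ε (σ i).2
  have hz : ∀ k, ∀ i ≤ κ, ∃ j, x j ^ p = (u ^ i * ε k) ^ p := fun k i hi =>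
    ⟨σ.symm (⟨i, Nat.lt_succ_of_le hi⟩, k), by simp [x]⟩
  have h2 : 2 * κ ≤ p * κ := Nat.mul_le_mul_right _ hp.two_le
  have g1 : Gd (fun i => x i ^ p) fun c => Pj p D (u - algebraMap C M c) a :=
    (Gd.sum Finset.univ fun k _ => gd_poly D hu (b k) (by have := hb k; omega) (ε k)
      (hz k)).congr fun c => by rw [← map_sum, ← ha]
  have g2 : ∀ j, Gd (fun i => x i ^ p) fun c => Pj p D (u - algebraMap C M c) (x j) := fun j =>
    (Gd.sum Finset.univ fun k _ => gd_poly D hu (X ^ ((σ j).1 : ℕ) * m (σ j).2 k) (by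
      have h3 := hm (σ j).2 k
      have h4 := (σ j).1.2
      have h5 := natDegree_mul_le (p := (X : C[X]) ^ ((σ j).1 : ℕ)) (q := m (σ j).2 k)
      rw [natDegree_X_pow] at h5
      omega) (ε k) (hz k)).congr fun c => by
        rw [← map_sum]
        congr 1
        simp only [x, map_mul, map_pow, aeval_X, mul_assoc, ← Finset.mul_sum]
        rw [← hε]
  obtain ⟨B, hB⟩ := g1
  choose A hA using g2
  exact ⟨_, x, fun i j => A j i, B, fun c => ⟨hB c, fun j => hA j c⟩⟩

end Pool.Agent.MP_19ffc6_ag.Perf.Hr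

end MrgPart0

-- ======== part 1: formerly Pool.Agent.MP_19ffc6_ag.perf.HrSol
section MrgPart1

/-! The additive system `h ^ p = b + A h`: solvability and integrality. -/

namespace Pool.Agent.MP_19ffc6_ag.Perf.Hr

open Polynomial Finset

namespace Sol

variable {C : Type} [Field C] [IsAlgClosed C] {p : ℕ} [Fact p.Prime] [CharP C p]

omit [IsAlgClosed C] in
theorem dep {V : Type} [AddCommGroup V] [Module C V] [FiniteDimensional C V] (v : ℕ → V) :
    ∃ (m : ℕ) (l : ℕ → C), v m = ∑ i ∈ range m, l i • v i := by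
  classical
  have h : ¬LinearIndependent C v := fun h => not_finite_iff_infinite.2 inferInstance h.finite
  rw [linearIndependent_iff'] at h
  push Not at h
  obtain ⟨s, g, h1, i, hi, h2⟩ := h
  have hne : (s.filter fun i => g i ≠ 0).Nonempty := ⟨i, mem_filter.2 ⟨hi, h2⟩⟩
  obtain ⟨m, hm, hmax⟩ := exists_max_image _ id hne
  obtain ⟨hm1, hm2⟩ := mem_filter.1 hm
  have h3 : ∑ i ∈ range (m + 1), (if i ∈ s then g i else 0) • v i = 0 := by
    rw [← h1]
    refine (sum_subset_zero_on_sdiff (s₁ := s.filter fun i => g i ≠ 0) (fun j hj => ?_)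
      (fun j hj => ?_) fun j hj => ?_).symm.trans (sum_filter_of_ne fun j _ k e => ?_)
    · exact mem_range.2 (Nat.lt_succ_of_le (hmax j hj))
    · split_ifs with k
      · rw [by_contra fun e : ¬g j = 0 => (mem_sdiff.1 hj).2 (mem_filter.2 ⟨k, e⟩), zero_smul]
      · exact zero_smul _ _
    · rw [if_pos (mem_filter.1 hj).1]
    · exact k (by rw [e, zero_smul])
  rw [sum_range_succ, if_pos hm1] at h3
  refine ⟨m, fun i => -(g m)⁻¹ * if i ∈ s then g i else 0, ?_⟩
  simp only [mul_smul, ← smul_sum]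
  rw [eq_neg_of_add_eq_zero_left h3, neg_smul, smul_neg, neg_neg, smul_smul, inv_mul_cancel₀ hm2,
    one_smul]

theorem fix {V : Type} [AddCommGroup V] [Module C V] [FiniteDimensional C V] (ψ : V →+ V)
    (hψ : ∀ (z : C) (x : V), ψ (z ^ p • x) = z • ψ x) (β : V) : ∃ h, h = β + ψ h := by
  have hp : p.Prime := Fact.out
  obtain ⟨m, l, hm⟩ := dep (C := C) fun i => ψ^[i] β
  rcases m with - | m
  · refine ⟨0, ?_⟩
    rw [map_zero, add_zero]
    simpa using hm.symm
  let r := (frobeniusEquiv C p).symm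
  have hr : ∀ x, r x ^ p = x := fun x => (frobeniusEquiv C p).apply_symm_apply x
  let f : C[X] := 1 + ∑ i ∈ range (m + 1), Polynomial.C (l i ^ p ^ i) * X ^ p ^ i
  have hf : f.degree < (p ^ (m + 1) : ℕ) := by
    refine (degree_add_le _ _).trans_lt (max_lt (degree_one_le.trans_lt ?_) ?_)
    · exact_mod_cast pow_pos hp.pos _
    · refine (degree_sum_le _ _).trans_lt ((Finset.sup_lt_iff (WithBot.bot_lt_coe _)).2
        fun i hi => (degree_C_mul_X_pow_le _ _).trans_lt ?_)
      exact_mod_cast Nat.pow_lt_pow_right hp.one_lt (mem_range.1 hi)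
  obtain ⟨w, hw⟩ := IsAlgClosed.exists_root (X ^ p ^ (m + 1) - f) (by
    rw [degree_sub_eq_left_of_degree_lt (by rwa [degree_X_pow]), degree_X_pow]
    exact_mod_cast (pow_pos hp.pos _).ne')
  let z : ℕ → C := fun i => Nat.rec (1 + l 0 * w) (fun i y => r y + l (i + 1) * w) i
  have z0 : z 0 = 1 + l 0 * w := rfl
  have z1 : ∀ i, z (i + 1) = r (z i) + l (i + 1) * w := fun _ => rfl
  have z2 : ∀ i, z i ^ p ^ i = 1 + ∑ j ∈ range (i + 1), l j ^ p ^ j * w ^ p ^ j := by
    intro i
    induction i with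
    | zero => simp [z0]
    | succ i ih =>
      rw [z1, add_pow_char_pow, pow_succ' p, pow_mul, hr, ih, sum_range_succ _ (i + 1), mul_pow,
        ← pow_succ' p, add_assoc]
  have z3 : r (z m) = w := by
    have e : (w ^ p) ^ p ^ m = z m ^ p ^ m := by
      rw [z2, ← pow_mul, ← pow_succ']
      simpa [f, sub_eq_zero, eval_finsetSum] using hw
    have e2 : w ^ p = z m := iterateFrobenius_inj C p m e
    rw [← e2]
    exact (frobeniusEquiv C p).symm_apply_apply w
  refine ⟨∑ i ∈ range (m + 1), z i • ψ^[i] β, ?_⟩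
  have e1 : ∀ i, ψ (z i • ψ^[i] β) = r (z i) • ψ^[i + 1] β := fun i => by
    rw [Function.iterate_succ_apply', ← hψ, hr]
  rw [map_sum, sum_congr rfl fun i _ => e1 i, sum_range_succ (fun i => r (z i) • ψ^[i + 1] β),
    sum_range_succ', z3, hm, sum_range_succ']
  simp only [z0, z1, add_smul, sum_add_distrib, smul_add, smul_sum, smul_smul, mul_comm w,
    one_smul, Function.iterate_zero_apply]
  abel

theorem int_of {R S : Type} [CommRing R] [CommRing S] [Algebra R S] {p n : ℕ} (hp : 2 ≤ p)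
    (A : Fin n → Fin n → R) (b : Fin n → R) (h : Fin n → S)
    (e : ∀ i, h i ^ p = algebraMap R S (b i) + ∑ j, algebraMap R S (A i j) * h j) {x : S}
    (hx : x ∈ Algebra.adjoin R (Set.range h)) : IsIntegral R x := by
  classical
  let T : Submodule R S :=
    Submodule.span R (Set.range fun d : Fin n → Fin p => ∏ i, h i ^ (d i : ℕ))
  have h1 : ∀ (m : ℕ) (d : Fin n → ℕ), ∑ i, d i = m → ∏ i, h i ^ d i ∈ T := by
    intro m
    induction m using Nat.strong_induction_on with
    | _ m ih =>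
      intro d hd
      by_cases k : ∀ i, d i < p
      · exact Submodule.subset_span ⟨fun i => ⟨d i, k i⟩, rfl⟩
      push Not at k
      obtain ⟨i, hi⟩ := k
      obtain ⟨d', rfl⟩ : ∃ d' : Fin n → ℕ, d = d' + Pi.single i p :=
        ⟨d - Pi.single i p, funext fun t => by
          by_cases k : t = i
          · subst k
            simp only [Pi.add_apply, Pi.sub_apply, Pi.single_eq_same]
            omega
          · simp only [Pi.add_apply, Pi.sub_apply, Pi.single_eq_of_ne k]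
            omega⟩
      have e1 : ∀ (j : Fin n) (c : ℕ),
          ∏ t, h t ^ (d' + Pi.single j c : Fin n → ℕ) t = (∏ t, h t ^ d' t) * h j ^ c := by
        intro j c
        simp only [Pi.add_apply, pow_add, prod_mul_distrib]
        congr 1
        rw [prod_eq_single j (fun t _ ht => by rw [Pi.single_eq_of_ne ht, pow_zero])
          fun k => absurd (mem_univ j) k, Pi.single_eq_same]
      have e2 : ∀ (j : Fin n) (c : ℕ),
          ∑ t, (d' + Pi.single j c : Fin n → ℕ) t = ∑ t, d' t + c := by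
        intro j c
        simp only [Pi.add_apply, sum_add_distrib, Finset.sum_pi_single', mem_univ, if_true]
      rw [e2] at hd
      rw [e1, e, mul_add, mul_sum]
      refine T.add_mem ?_ (T.sum_mem fun j _ => ?_)
      · rw [mul_comm, ← Algebra.smul_def]
        exact T.smul_mem _ (ih _ (by omega) d' rfl)
      · rw [mul_left_comm, ← Algebra.smul_def, ← pow_one (h j), ← e1]
        exact T.smul_mem _ (ih _ (by rw [e2]; omega) _ rfl)
  have h2 : (Algebra.adjoin R (Set.range h)).toSubmodule = T := by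
    refine le_antisymm ?_ (Submodule.span_le.2 ?_)
    · rw [Algebra.adjoin_eq_span]
      refine Submodule.span_le.2 fun y hy => ?_
      have : ∃ d : Fin n → ℕ, ∏ i, h i ^ d i = y := by
        induction hy using Submonoid.closure_induction with
        | mem y hy =>
          obtain ⟨j, rfl⟩ := hy
          refine ⟨Pi.single j 1, ?_⟩
          rw [prod_eq_single j (fun t _ ht => by rw [Pi.single_eq_of_ne ht, pow_zero])
            fun k => absurd (mem_univ j) k, Pi.single_eq_same, pow_one]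
        | one => exact ⟨0, by simp⟩
        | mul x y _ _ hx hy =>
          obtain ⟨d, rfl⟩ := hx
          obtain ⟨d', rfl⟩ := hy
          exact ⟨d + d', by simp only [Pi.add_apply, pow_add, prod_mul_distrib]⟩
      obtain ⟨d, rfl⟩ := this
      exact h1 _ d rfl
    · rintro _ ⟨d, rfl⟩
      exact Subalgebra.prod_mem _ fun i _ =>
        Subalgebra.pow_mem _ (Algebra.subset_adjoin (Set.mem_range_self i)) _
  exact IsIntegral.of_mem_of_fg _ (h2 ▸ Submodule.fg_span (Set.finite_range _)) x hx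

end Sol

theorem sol {C : Type} [Field C] [IsAlgClosed C] {p : ℕ} [Fact p.Prime] [CharP C p]
    (_hp : 2 ≤ p) : SolStmt C p := by
  intro n A b
  let r := (frobeniusEquiv C p).symm
  have hr : ∀ x, r x ^ p = x := fun x => (frobeniusEquiv C p).apply_symm_apply x
  have hr' : ∀ x, r (x ^ p) = x := fun x => (frobeniusEquiv C p).symm_apply_apply x
  let ψ : (Fin n → C) →+ (Fin n → C) :=
    { toFun := fun h i => r (∑ j, A i j * h j)
      map_zero' := by ext i; simp
      map_add' := fun x y => by ext i; simp [mul_add, sum_add_distrib] }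
  obtain ⟨h, hh⟩ := Sol.fix (p := p) ψ (fun z x => by
    ext i
    change r (∑ j, A i j * (z ^ p * x j)) = z * r (∑ j, A i j * x j)
    simp only [mul_left_comm _ (z ^ p), ← mul_sum, map_mul, hr']) fun i => r (b i)
  refine ⟨h, fun i => ?_⟩
  have e : h i = r (b i) + r (∑ j, A i j * h j) := congrFun hh i
  rw [e, ← map_add, hr]

theorem int {p : ℕ} (hp : 2 ≤ p) : IntStmt p := by
  intro R _ n A b y0 y
  let I : Ideal (MvPolynomial (Fin n) R) := Ideal.span (Set.range fun i =>
    MvPolynomial.X i ^ p - (MvPolynomial.C (b i) + ∑ j, MvPolynomial.C (A i j) * MvPolynomial.X j))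
  let h : Fin n → MvPolynomial (Fin n) R ⧸ I := fun i => Ideal.Quotient.mk I (MvPolynomial.X i)
  have e0 : ∀ c, algebraMap R (MvPolynomial (Fin n) R ⧸ I) c =
      Ideal.Quotient.mk I (MvPolynomial.C c) := fun _ => rfl
  obtain ⟨χ, h1, h2⟩ := Sol.int_of hp A b h (fun i => by
    simp only [e0, h, ← map_pow, ← map_mul, ← map_sum, ← map_add]
    exact Ideal.Quotient.eq.2 (Ideal.subset_span ⟨i, rfl⟩))
    (x := algebraMap R _ y0 + ∑ i, h i * algebraMap R _ (y i))
    (add_mem (Subalgebra.algebraMap_mem _ _) (sum_mem fun i _ =>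
      mul_mem (Algebra.subset_adjoin ⟨i, rfl⟩) (Subalgebra.algebraMap_mem _ _)))
  refine ⟨χ, h1, fun F _ g k hk => ?_⟩
  let G : MvPolynomial (Fin n) R ⧸ I →+* F :=
    Ideal.Quotient.lift I (MvPolynomial.eval₂Hom g k) fun a ha => by
      refine (Ideal.span_le (I := RingHom.ker (MvPolynomial.eval₂Hom g k))).2 ?_ ha
      rintro _ ⟨i, rfl⟩
      simp [RingHom.mem_ker, hk]
  have g1 : ∀ c, G (algebraMap R _ c) = g c := fun c => MvPolynomial.eval₂Hom_C g k c
  have g2 : ∀ i, G (h i) = k i := fun i => MvPolynomial.eval₂Hom_X' g k i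
  have h3 := congrArg G h2
  rw [hom_eval₂, map_zero, show G.comp (algebraMap R _) = g from RingHom.ext g1] at h3
  simpa only [map_add, map_sum, map_mul, g1, g2] using h3

end Pool.Agent.MP_19ffc6_ag.Perf.Hr

end MrgPart1

-- ======== part 2: formerly Pool.Agent.MP_19ffc6_ag.perf.HrEv
section MrgPart2

/-! Evaluation of the local ring of a standard etale chart at a point of the open disc. -/

namespace Pool.Agent.MP_19ffc6_ag.Perf.Hr

open Polynomial

variable {C Γ : Type} [Field C] [LinearOrderedCommGroupWithZero Γ]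

namespace Ev

variable {M : Type} [Field M] [Algebra C M]

theorem taylor1 (S : Subring M) (f : M[X]) (hf : ∀ i, f.coeff i ∈ S) {a b : M} (ha : a ∈ S)
    (hb : b ∈ S) : f.eval a ∈ S ∧
      ∃ k ∈ S, f.eval b = f.eval a + f.derivative.eval a * (b - a) + k * (b - a) ^ 2 := by
  have h : (↑f.coeffs : Set M) ⊆ S := fun c hc => by
    obtain ⟨n, -, rfl⟩ := mem_coeffs_iff.1 hc
    exact hf n
  have e : ∀ (g : S[X]) (x : S), (g.map S.subtype).eval (x : M) = (g.eval x : S) := fun g x => by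
    rw [eval_map]; exact eval₂_at_apply S.subtype x
  rw [← map_toSubring f S h]
  generalize f.toSubring S h = g
  obtain ⟨k, hk⟩ := binomExpansion g ⟨a, ha⟩ ⟨b - a, S.sub_mem hb ha⟩
  refine ⟨e g ⟨a, ha⟩ ▸ (g.eval ⟨a, ha⟩).2, k, k.2, ?_⟩
  have h1 := congrArg (fun z : S => (z : M)) hk
  rw [derivative_map, e g ⟨a, ha⟩, e g.derivative ⟨a, ha⟩, e g ⟨b, hb⟩]
  have h2 : (⟨a, ha⟩ + ⟨b - a, S.sub_mem hb ha⟩ : S) = ⟨b, hb⟩ := Subtype.ext (by simp)
  rw [h2] at h1
  simpa using h1

theorem ev2_eq (t η : M) (Q : C[X][X]) :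
    ev2 t η Q = (Q.map (aeval t : C[X] →ₐ[C] M).toRingHom).eval η := by
  rw [eval_map]; rfl

theorem aeval_eq (t : M) (f : C[X]) : aeval t f = (f.map (algebraMap C M)).eval t := by
  rw [eval_map]; rfl

/-- variation of the first variable -/
theorem diff1 (S : Subring M) (Q : C[X][X])
    (hQ : ∀ i j, algebraMap C M ((Q.coeff i).coeff j) ∈ S) {a a' b : M} (ha : a ∈ S) (ha' : a' ∈ S)
    (hb : b ∈ S) : ∃ G ∈ S, ev2 a' b Q = ev2 a b Q + (a' - a) * G := by
  have h : ∀ i, ∃ G ∈ S, aeval a' (Q.coeff i) = aeval a (Q.coeff i) + (a' - a) * G := fun i => by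
    have hc : ∀ j, ((Q.coeff i).map (algebraMap C M)).coeff j ∈ S := fun j => by
      rw [coeff_map]; exact hQ i j
    obtain ⟨-, k, hk, e⟩ := taylor1 S _ hc ha ha'
    have hd := (taylor1 S (derivative ((Q.coeff i).map (algebraMap C M))) (fun j => by
      rw [coeff_derivative]
      exact S.mul_mem (hc _) (S.add_mem (natCast_mem S j) S.one_mem)) ha ha).1
    refine ⟨_, S.add_mem hd (S.mul_mem hk (S.sub_mem ha' ha)), ?_⟩
    rw [aeval_eq, aeval_eq, e]; ring
  choose G hG e using h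
  refine ⟨∑ i ∈ Q.support, G i * b ^ i,
    S.sum_mem fun i _ => S.mul_mem (hG i) (S.pow_mem hb i), ?_⟩
  simp only [ev2, coe_eval₂RingHom, eval₂_eq_sum, Polynomial.sum, Finset.mul_sum,
    ← Finset.sum_add_distrib]
  refine Finset.sum_congr rfl fun i _ => ?_
  change aeval a' (Q.coeff i) * b ^ i = aeval a (Q.coeff i) * b ^ i + _
  rw [e]; ring

theorem coe_der (S : Subring M) (Q : C[X][X])
    (hQ : ∀ i j, algebraMap C M ((Q.coeff i).coeff j) ∈ S) (i j : ℕ) :
    algebraMap C M (((derivative Q).coeff i).coeff j) ∈ S := by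
  rw [coeff_derivative, ← Nat.cast_succ, coeff_mul_natCast, map_mul, map_natCast]
  exact S.mul_mem (hQ _ _) (natCast_mem S _)

variable {w : Valuation M Γ} {t η : M} {P : C[X][X]} {τ e : C}

theorem c_mem {R : Subring C} {c : C} (hc : c ∈ R) : algebraMap C M c ∈ Rg R t η :=
  Subring.subset_closure (Or.inl ⟨c, hc, rfl⟩)

theorem t_mem {R : Subring C} : t ∈ Rg R t η := Subring.subset_closure (Or.inr (by simp))

theorem e_mem {R : Subring C} : η ∈ Rg R t η := Subring.subset_closure (Or.inr (by simp))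

theorem rg_le (h : Ch w t η P) {R : Subring C} (hR : R ≤ Oc C w) {x : M} (hx : x ∈ Rg R t η) :
    w x ≤ 1 := by
  have : Rg R t η ≤ w.integer := Subring.closure_le.2 (by
    rintro x (⟨c, hc, rfl⟩ | rfl | rfl)
    · exact hR hc
    · exact h.small.le
    · exact h.int)
  exact this hx

theorem le_lc {S : Subring M} {x : M} (hx : x ∈ S) : x ∈ Lc w S :=
  ⟨1, S.one_mem, map_one w, by rwa [mul_one]⟩

theorem lc_le {S : Subring M} (hS : ∀ x ∈ S, w x ≤ 1) {x : M} (hx : x ∈ Lc w S) : w x ≤ 1 := by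
  obtain ⟨g, -, h1, h2⟩ := hx
  have := hS _ h2
  rwa [map_mul, h1, mul_one] at this

theorem inv_lc {S : Subring M} {g : M} (hg : g ∈ S) (h1 : w g = 1) : g⁻¹ ∈ Lc w S :=
  ⟨g, hg, h1, by
    rw [inv_mul_cancel₀ (fun h => by simp [h] at h1)]; exact S.one_mem⟩

theorem small (h : Ch w t η P) (hτ : w (algebraMap C M τ) < 1) {x : M} (hx : w x ≤ 1) :
    w ((t - algebraMap C M τ) * x) < 1 := by
  rw [map_mul]
  exact (mul_le_of_le_one_right' hx).trans_lt (w.map_sub_lt h.small hτ)

/-- evaluation of polynomials at the point `(τ, e)` -/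
noncomputable def ev0 (τ e : C) : C[X][X] →+* C := ev2 τ e

theorem ev2_c (τ e : C) (Q : C[X][X]) :
    ev2 (algebraMap C M τ) (algebraMap C M e) Q = algebraMap C M (ev0 τ e Q) := by
  have : ev2 (algebraMap C M τ) (algebraMap C M e) = (algebraMap C M).comp (ev0 τ e) := by
    refine Polynomial.ringHom_ext' (Polynomial.ringHom_ext' ?_ ?_) ?_
    · ext c; simp [ev2, ev0]
    · simp [ev2, ev0]
    · simp [ev2, ev0]
  rw [this]; rfl

theorem exists_e [IsAlgClosed C] (h : Ch w t η P) (hτ : w (algebraMap C M τ) < 1) :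
    ∃ e : C, ev0 τ e P = 0 ∧ w (η - algebraMap C M e) < 1 := by
  obtain ⟨G, hG, e1⟩ := diff1 (Rg (Oc C w) t η) P (fun i j => c_mem (h.coe i j))
    (c_mem (mem_Oc.2 hτ.le)) t_mem e_mem
  have h1 : w (ev2 (algebraMap C M τ) η P) < 1 := by
    rw [h.root, eq_comm, add_eq_zero_iff_eq_neg] at e1
    rw [e1, w.map_neg]
    exact small h hτ (rg_le h le_rfl hG)
  set f : C[X] := P.map (aeval τ : C[X] →ₐ[C] C).toRingHom with hf
  have hm : f.Monic := h.monic.map _
  have e2 : ev2 (algebraMap C M τ) η P = aeval η f := by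
    rw [ev2_eq, aeval_eq, hf, Polynomial.map_map]
    congr 2
    refine Polynomial.ringHom_ext' ?_ ?_
    · ext c; simp
    · simp
  rw [e2, (IsAlgClosed.splits f).eq_prod_roots_of_monic hm, map_multiset_prod, map_multiset_prod,
    Multiset.map_map, Multiset.map_map] at h1
  by_contra hn
  refine absurd h1 (not_lt.2 (Multiset.one_le_prod_of_one_le fun x hx => ?_))
  obtain ⟨r, hr, rfl⟩ := Multiset.mem_map.1 hx
  refine not_lt.1 fun k => hn ⟨r, ?_, by simpa using k⟩
  rw [ev0, ev2_eq]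
  exact (mem_roots hm.ne_zero).1 hr

/-- `c` is the value of `x` at the point `(τ, e)` -/
def Vl (t η : M) (τ e : C) (x : M) (c : C) : Prop :=
  ∃ Q₁ Q₂ : C[X][X], ev0 τ e Q₂ ≠ 0 ∧ x * ev2 t η Q₂ = ev2 t η Q₁ ∧ c * ev0 τ e Q₂ = ev0 τ e Q₁

theorem Vl.of (Q : C[X][X]) : Vl t η τ e (ev2 t η Q) (ev0 τ e Q) :=
  ⟨Q, 1, by simp, by simp, by simp⟩

theorem Vl.const (c : C) : Vl t η τ e (algebraMap C M c) c := by
  simpa [ev2, ev0] using Vl.of (t := t) (η := η) (τ := τ) (e := e) (Polynomial.C (Polynomial.C c))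

theorem Vl.zero : Vl t η τ e 0 0 := map_zero (algebraMap C M) ▸ Vl.const 0

theorem Vl.one : Vl t η τ e 1 1 := map_one (algebraMap C M) ▸ Vl.const 1

theorem Vl.tt : Vl t η τ e t τ := by
  simpa [ev2, ev0] using Vl.of (t := t) (η := η) (τ := τ) (e := e) (Polynomial.C X)

theorem Vl.eta : Vl t η τ e η e := by
  simpa [ev2, ev0] using Vl.of (t := t) (η := η) (τ := τ) (e := e) X

theorem Vl.uniq (h : Ch w t η P) (he : ev0 τ e P = 0) {x : M} {c c' : C} (h1 : Vl t η τ e x c)
    (h2 : Vl t η τ e x c') : c = c' := by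
  obtain ⟨Q₁, Q₂, n1, a1, b1⟩ := h1
  obtain ⟨Q₃, Q₄, n2, a2, b2⟩ := h2
  obtain ⟨Z, hZ⟩ := h.min (Q₁ * Q₄ - Q₃ * Q₂) (by
    rw [map_sub, map_mul, map_mul, ← a1, ← a2]; ring)
  have := congrArg (ev0 τ e) hZ
  rw [map_sub, map_mul, map_mul, map_mul, he, zero_mul, ← b1, ← b2] at this
  exact mul_right_cancel₀ (mul_ne_zero n1 n2) (by linear_combination this)

theorem Vl.add {x y : M} {c d : C} (h1 : Vl t η τ e x c) (h2 : Vl t η τ e y d) :
    Vl t η τ e (x + y) (c + d) := by
  obtain ⟨Q₁, Q₂, n1, a1, b1⟩ := h1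
  obtain ⟨Q₃, Q₄, n2, a2, b2⟩ := h2
  refine ⟨Q₁ * Q₄ + Q₃ * Q₂, Q₂ * Q₄, by rw [map_mul]; exact mul_ne_zero n1 n2, ?_, ?_⟩
  · rw [map_add, map_mul, map_mul, map_mul, ← a1, ← a2]; ring
  · rw [map_add, map_mul, map_mul, map_mul, ← b1, ← b2]; ring

theorem Vl.mul {x y : M} {c d : C} (h1 : Vl t η τ e x c) (h2 : Vl t η τ e y d) :
    Vl t η τ e (x * y) (c * d) := by
  obtain ⟨Q₁, Q₂, n1, a1, b1⟩ := h1
  obtain ⟨Q₃, Q₄, n2, a2, b2⟩ := h2
  refine ⟨Q₁ * Q₃, Q₂ * Q₄, by rw [map_mul]; exact mul_ne_zero n1 n2, ?_, ?_⟩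
  · rw [map_mul, map_mul, ← a1, ← a2]; ring
  · rw [map_mul, map_mul, ← b1, ← b2]; ring

theorem Vl.div {x g y : M} {c d : C} (h1 : Vl t η τ e y c) (h2 : Vl t η τ e g d) (hd : d ≠ 0)
    (hx : x * g = y) : Vl t η τ e x (c / d) := by
  obtain ⟨Q₁, Q₂, n1, a1, b1⟩ := h1
  obtain ⟨Q₃, Q₄, n2, a2, b2⟩ := h2
  refine ⟨Q₁ * Q₄, Q₂ * Q₃, ?_, ?_, ?_⟩
  · rw [map_mul, ← b2]; exact mul_ne_zero n1 (mul_ne_zero hd n2)
  · rw [map_mul, map_mul, ← a1, ← a2, ← hx]; ring
  · rw [map_mul, map_mul, ← b1, ← b2]; field_simp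

section

variable (h : Ch w t η P) (hτ : w (algebraMap C M τ) < 1) (he : ev0 τ e P = 0)
  (hη : w (η - algebraMap C M e) < 1) {R : Subring C} (hR : R ≤ Oc C w) (τR : τ ∈ R) (eR : e ∈ R)
  (PR : ∀ i j, (P.coeff i).coeff j ∈ R)
include h hτ he hη hR τR eR PR

theorem eta_exp : ∃ x1 ∈ Lc w (Rg R t η), η = algebraMap C M e + (t - algebraMap C M τ) * x1 := by
  have hP : ∀ i j, algebraMap C M ((P.coeff i).coeff j) ∈ Rg R t η := fun i j => c_mem (PR i j)
  obtain ⟨G, hG, e1⟩ := diff1 (Rg R t η) P hP (c_mem τR) t_mem e_mem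
  obtain ⟨G', hG', e2⟩ := diff1 (Rg R t η) _ (coe_der _ P hP) (c_mem τR) t_mem e_mem
  have hc : ∀ i, (P.map (aeval (algebraMap C M τ) : C[X] →ₐ[C] M).toRingHom).coeff i ∈
      Rg R t η := fun i => by
    rw [coeff_map]
    change aeval _ _ ∈ _
    rw [aeval_eq]
    exact (taylor1 _ _ (fun j => by rw [coeff_map]; exact hP i j) (c_mem τR) (c_mem τR)).1
  obtain ⟨-, k, hk, e3⟩ := taylor1 (Rg R t η) _ hc e_mem (c_mem eR)
  have hd := (taylor1 (Rg R t η) (derivative _) (fun j => by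
    rw [coeff_derivative]
    exact mul_mem (hc _) (add_mem (natCast_mem _ j) (one_mem _))) e_mem e_mem).1
  rw [derivative_map, ← ev2_eq] at hd e3
  rw [← ev2_eq, ← ev2_eq, ev2_c, he, map_zero] at e3
  rw [h.root] at e1
  set d := ev2 (algebraMap C M τ) η (derivative P)
  have hq : d + k * (algebraMap C M e - η) ∈ Rg R t η :=
    add_mem hd (mul_mem hk (sub_mem (c_mem eR) e_mem))
  have wq : w (d + k * (algebraMap C M e - η)) = 1 := by
    have : d + k * (algebraMap C M e - η) = ev2 t η (derivative P) +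
        -((t - algebraMap C M τ) * G' + (η - algebraMap C M e) * k) := by rw [e2]; ring
    rw [this, w.map_add_eq_of_lt_left, h.der]
    rw [h.der, w.map_neg]
    refine w.map_add_lt (small h hτ (rg_le h hR hG')) ?_
    rw [map_mul]
    exact (mul_le_of_le_one_right' (rg_le h hR hk)).trans_lt hη
  have q0 : d + k * (algebraMap C M e - η) ≠ 0 := fun k => by simp [k] at wq
  refine ⟨-G * (d + k * (algebraMap C M e - η))⁻¹,
    mul_mem (le_lc (neg_mem hG)) (inv_lc hq wq), ?_⟩
  rw [← mul_assoc, ← sub_eq_iff_eq_add', eq_mul_inv_iff_mul_eq₀ q0]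
  linear_combination e3 - e1

theorem rg_exp {x : M} (hx : x ∈ Rg R t η) : ∃ c ∈ R, Vl t η τ e x c ∧
    ∃ x1 ∈ Lc w (Rg R t η), x = algebraMap C M c + (t - algebraMap C M τ) * x1 := by
  induction hx using Subring.closure_induction with
  | mem x hx =>
    rcases hx with ⟨c, hc, rfl⟩ | hx | hx
    · exact ⟨c, hc, Vl.const c, 0, zero_mem _, by simp⟩
    · exact ⟨τ, τR, hx ▸ Vl.tt, 1, one_mem _, by rw [hx]; ring⟩
    · rw [Set.mem_singleton_iff.1 hx]
      exact ⟨e, eR, Vl.eta, eta_exp h hτ he hη hR τR eR PR⟩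
  | zero => exact ⟨0, zero_mem _, Vl.zero, 0, zero_mem _, by simp⟩
  | one => exact ⟨1, one_mem _, Vl.one, 0, zero_mem _, by simp⟩
  | add x y _ _ hx hy =>
    obtain ⟨c, hc, r, x1, h1, e1⟩ := hx
    obtain ⟨d, hd, r', y1, h2, e2⟩ := hy
    exact ⟨c + d, add_mem hc hd, r.add r', x1 + y1, add_mem h1 h2, by
      rw [map_add]; linear_combination e1 + e2⟩
  | neg x _ hx =>
    obtain ⟨c, hc, r, x1, h1, e1⟩ := hx
    exact ⟨-c, neg_mem hc, by simpa using (Vl.const (-1 : C)).mul r, -x1, neg_mem h1, by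
      rw [map_neg]; linear_combination -e1⟩
  | mul x y _ hy' hx hy =>
    obtain ⟨c, hc, r, x1, h1, e1⟩ := hx
    obtain ⟨d, hd, r', y1, h2, e2⟩ := hy
    exact ⟨c * d, mul_mem hc hd, r.mul r', x1 * y + algebraMap C M c * y1,
      add_mem (mul_mem h1 (le_lc hy')) (mul_mem (le_lc (c_mem hc)) h2), by
        rw [map_mul]; linear_combination y * e1 + algebraMap C M c * e2⟩

theorem lc_exp {x : M} (hx : x ∈ Lc w (Rg R t η)) : ∃ c, Vl t η τ e x c ∧
    algebraMap C M c ∈ Lc w (Rg R t η) ∧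
    ∃ x1 ∈ Lc w (Rg R t η), x = algebraMap C M c + (t - algebraMap C M τ) * x1 := by
  obtain ⟨g, hg, wg, hy⟩ := hx
  obtain ⟨c, hc, r, y1, h1, e1⟩ := rg_exp h hτ he hη hR τR eR PR hy
  obtain ⟨d, hd, r', g1, h2, e2⟩ := rg_exp h hτ he hη hR τR eR PR hg
  have wd : w (algebraMap C M d) = 1 := by
    rw [eq_sub_of_add_eq e2.symm, w.map_sub_eq_of_lt_left, wg]
    rw [wg]
    exact small h hτ (lc_le (fun _ => rg_le h hR) h2)
  have d0 : algebraMap C M d ≠ 0 := fun k => by simp [k] at wd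
  have g0 : g ≠ 0 := fun k => by simp [k] at wg
  refine ⟨c / d, r.div r' (fun k => d0 (by rw [k, map_zero])) rfl, ?_,
    (y1 * algebraMap C M d - g1 * algebraMap C M c) * (g⁻¹ * (algebraMap C M d)⁻¹),
    mul_mem (sub_mem (mul_mem h1 (le_lc (c_mem hd))) (mul_mem h2 (le_lc (c_mem hc))))
      (mul_mem (inv_lc hg wg) (inv_lc (c_mem hd) wd)), ?_⟩
  · rw [map_div₀, div_eq_mul_inv]
    exact mul_mem (le_lc (c_mem hc)) (inv_lc (c_mem hd) wd)
  · rw [map_div₀]
    field_simp
    linear_combination algebraMap C M d * e1 - algebraMap C M c * e2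

end

end Ev

open Ev in
theorem ev [IsAlgClosed C] : EvStmt C Γ := by
  intro M _ _ w t η P A τ h hA hτ
  obtain ⟨e, he, hη⟩ := exists_e h hτ
  have we : w (algebraMap C M e) ≤ 1 := by
    rw [← sub_sub_cancel η (algebraMap C M e)]
    exact w.map_sub_le h.int hη.le
  have ex : ∀ x : A, ∃ c, Vl t η τ e x c := fun x => by
    obtain ⟨a, ha, hx⟩ := (hA x).1 x.2
    obtain ⟨c, r, -⟩ := lc_exp h hτ he hη le_rfl hτ.le we h.coe hx
    exact ⟨_, r.div (Vl.const a) ha (by rw [Algebra.smul_def, mul_comm])⟩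
  choose f hf using ex
  refine ⟨{ toFun := f
            map_one' := (hf 1).uniq h he (Vl.one)
            map_mul' := fun x y => (hf (x * y)).uniq h he ((hf x).mul (hf y))
            map_zero' := (hf 0).uniq h he (Vl.zero)
            map_add' := fun x y => (hf (x + y)).uniq h he ((hf x).add (hf y))
            commutes' := fun c => (hf _).uniq h he (Vl.const c) }, e, we,
    fun x hx => (hf x).uniq h he (hx ▸ Vl.tt), fun R hR τR eR PR x hx => ?_⟩
  obtain ⟨c, r, k⟩ := lc_exp h hτ he hη hR τR eR PR hx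
  change algebraMap C M (f x) ∈ _ ∧ ∃ x1 ∈ _, _ = algebraMap C M (f x) + _
  rwa [(hf x).uniq h he r]

end Pool.Agent.MP_19ffc6_ag.Perf.Hr

end MrgPart2

-- ======== part 3: formerly Pool.Agent.MP_19ffc6_ag.perf.HrDisc
section MrgPart3

/-! Henselian rationality: the properties of a small chart that the immediate case uses. -/

namespace Pool.Agent.MP_19ffc6_ag.Perf.Hr

open Polynomial IntermediateField

namespace Dsc

variable {C Γ M : Type} [Field C] [LinearOrderedCommGroupWithZero Γ] [Field M] [Algebra C M]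
  {w : Valuation M Γ}

lemma le_Lc (S : Subring M) : S ≤ Lc w S := fun x hx =>
  ⟨1, S.one_mem, map_one w, by rwa [mul_one]⟩

lemma Lc_inv {S : Subring M} {x : M} (hx : x ∈ Lc w S) (h1 : w x = 1) : x⁻¹ ∈ Lc w S := by
  obtain ⟨g, hg, k1, k2⟩ := hx
  have h0 : x ≠ 0 := by
    rintro rfl
    simp at h1
  exact ⟨x * g, k2, by rw [map_mul, h1, k1, one_mul], by rwa [inv_mul_cancel_left₀ h0]⟩

lemma Lc_le {S T : Subring M} (h : S ≤ T) (hi : ∀ x ∈ S, w x = 1 → x⁻¹ ∈ T) : Lc w S ≤ T := by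
  rintro x ⟨g, hg, k1, k2⟩
  have h0 : g ≠ 0 := by
    rintro rfl
    simp at k1
  rw [← mul_inv_cancel_right₀ h0 x]
  exact T.mul_mem (h k2) (hi g hg k1)

lemma Rg_le {R : Subring C} {t η : M} {T : Subring M} (h1 : ∀ c ∈ R, algebraMap C M c ∈ T)
    (h2 : t ∈ T) (h3 : η ∈ T) : Rg R t η ≤ T := by
  refine Subring.closure_le.2 ?_
  rintro x (⟨c, hc, rfl⟩ | rfl | rfl)
  exacts [h1 c hc, h2, h3]

lemma aeval_mem {T : Subring M} {t : M} (q : C[X]) (h1 : ∀ j, algebraMap C M (q.coeff j) ∈ T)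
    (h2 : t ∈ T) : aeval t q ∈ T := by
  rw [aeval_eq_sum_range]
  exact T.sum_mem fun j _ => by
    rw [Algebra.smul_def]
    exact T.mul_mem (h1 j) (T.pow_mem h2 j)

lemma eval_mem {T : Subring M} {η : M} (Q : M[X]) (h1 : ∀ j, Q.coeff j ∈ T) (h2 : η ∈ T) :
    Q.eval η ∈ T := by
  rw [eval_eq_sum_range]
  exact T.sum_mem fun j _ => T.mul_mem (h1 j) (T.pow_mem h2 j)

lemma ev2_eq (t η : M) (P : C[X][X]) :
    ev2 t η P = (P.map (aeval t : C[X] →ₐ[C] M).toRingHom).eval η := by
  rw [eval_map]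
  rfl

/-- the elements of `B` with derivative in `B` -/
def dS (D : Derivation C M M) (B : Subring M) : Subring M where
  carrier := {x | x ∈ B ∧ D x ∈ B}
  one_mem' := ⟨B.one_mem, by rw [D.map_one_eq_zero]; exact B.zero_mem⟩
  zero_mem' := ⟨B.zero_mem, by rw [map_zero]; exact B.zero_mem⟩
  mul_mem' := fun a b => ⟨B.mul_mem a.1 b.1, by
    rw [D.leibniz]
    exact B.add_mem (B.mul_mem a.1 b.2) (B.mul_mem b.1 a.2)⟩
  add_mem' := fun a b => ⟨B.add_mem a.1 b.1, by rw [map_add]; exact B.add_mem a.2 b.2⟩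
  neg_mem' := fun a => ⟨B.neg_mem a.1, by rw [map_neg]; exact B.neg_mem a.2⟩

lemma der_eval (D : Derivation C M M) {B : Subring M} {η : M} (Q : M[X])
    (h1 : ∀ j, D (Q.coeff j) ∈ B) (h2 : η ∈ B) :
    D (Q.eval η) - Q.derivative.eval η * D η ∈ B := by
  rw [derivative_eval, eval_eq_sum, Polynomial.sum, Polynomial.sum, map_sum, Finset.sum_mul,
    ← Finset.sum_sub_distrib]
  refine B.sum_mem fun j _ => ?_
  have : D (Q.coeff j * η ^ j) - Q.coeff j * j * η ^ (j - 1) * D η = η ^ j * D (Q.coeff j) := by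
    rw [D.leibniz, D.leibniz_pow]
    simp only [smul_eq_mul, nsmul_eq_mul]
    ring
  rw [this]
  exact B.mul_mem (B.pow_mem h2 j) (h1 j)

lemma lt_one_iff {ρ : C} (h : ρ ≠ 0) (x : M) :
    w (ρ⁻¹ • x) < 1 ↔ w x < w (algebraMap C M ρ) := by
  have h0 : 0 < w (algebraMap C M ρ) := zero_lt_iff.2 (by simpa using h)
  rw [Algebra.smul_def, map_inv₀, map_mul, map_inv₀, inv_mul_lt_one₀ h0]

end Dsc

open Dsc in
theorem disc {C Γ : Type} [Field C] [LinearOrderedCommGroupWithZero Γ] (hc : ChStmt C Γ)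
    (he : EvStmt C Γ) (hl : ClStmt C Γ) : DiscStmt C Γ := by
  classical
  intro M _ _ w u η₀ P₀ D hx hu hP h4 hD F
  choose κ hκ using h4
  obtain ⟨c₀, ρ, η, P, h0, hC, hF⟩ := hc M w u η₀ P₀ hx hu hP (fun x => ⟨κ x, hκ x⟩)
    (F.image fun f => (κ f)⁻¹ • f)
  obtain ⟨t, ht⟩ : ∃ t, t = ρ⁻¹ • (u - algebraMap C M c₀) := ⟨_, rfl⟩
  rw [← ht] at hC hF
  obtain ⟨S, hS⟩ : ∃ S, S = Rg (Oc C w) t η := ⟨_, rfl⟩
  have s1 : ∀ c : C, w (algebraMap C M c) ≤ 1 → algebraMap C M c ∈ S := fun c h =>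
    hS ▸ Subring.subset_closure (.inl ⟨c, h, rfl⟩)
  have s2 : t ∈ S := hS ▸ Subring.subset_closure (.inr (.inl rfl))
  have s3 : η ∈ S := hS ▸ Subring.subset_closure (.inr (.inr rfl))
  have b1 : ∀ c : C, w (algebraMap C M c) ≤ 1 → algebraMap C M c ∈ Lc w S := fun c h =>
    le_Lc S (s1 c h)
  have ble : ∀ b ∈ Lc w S, w b ≤ 1 := by
    rintro b ⟨g, -, k1, k2⟩
    have : S ≤ w.integer := hS ▸ Rg_le (fun c h => h) hC.small.le hC.int
    have k : w (b * g) ≤ 1 := this k2
    rwa [map_mul, k1, mul_one] at k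
  have e1 : ∀ c : C, ρ⁻¹ • (u - algebraMap C M c) = t - algebraMap C M (ρ⁻¹ * (c - c₀)) := by
    intro c
    rw [ht, map_mul, ← Algebra.smul_def, ← smul_sub, map_sub, sub_sub_sub_cancel_right]
  have e2 : ∀ c : C, w (u - algebraMap C M c) < w (algebraMap C M ρ) →
      w (algebraMap C M (ρ⁻¹ * (c - c₀))) < 1 := by
    intro c h
    rw [← lt_one_iff h0, e1] at h
    rw [← sub_sub_cancel t (algebraMap C M _)]
    exact w.map_sub_lt hC.small h
  have pt : w (u - algebraMap C M c₀) < w (algebraMap C M ρ) := by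
    rw [← lt_one_iff h0, ← ht]
    exact hC.small
  obtain ⟨Q, hQ⟩ : ∃ Q, Q = P.map (aeval t : C[X] →ₐ[C] M).toRingHom := ⟨_, rfl⟩
  have q1 : Q.eval η = 0 := by rw [hQ, ← ev2_eq]; exact hC.root
  have q2 : w (Q.derivative.eval η) = 1 := by rw [hQ, derivative_map, ← ev2_eq]; exact hC.der
  have q3 : ∀ T : Subring M, (∀ c : C, w (algebraMap C M c) ≤ 1 → algebraMap C M c ∈ T) → t ∈ T →
      ∀ i, Q.coeff i ∈ T := fun T a b i => by
    rw [hQ, coeff_map]
    exact aeval_mem _ (fun j => a _ (hC.coe i j)) b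
  refine ⟨ρ, Lc w S, satA w _ b1, ⟨h0, ⟨c₀, pt⟩, ble, b1, fun c h => ?_, fun _ => Iff.rfl, ?_,
    fun T hT a b => ?_, fun c h => ?_, fun c h r r0 hr x hx x0 => ?_⟩, fun f hf f0 => ?_⟩
  · rw [e1]
    exact sub_mem (le_Lc S s2) (b1 _ (e2 c h).le)
  · have d1 : ∀ c : C, w (algebraMap C M c) ≤ 1 → algebraMap C M c ∈ dS (ρ • D) (Lc w S) :=
      fun c h => ⟨b1 c h, by rw [Derivation.map_algebraMap]; exact zero_mem _⟩
    have d2 : t ∈ dS (ρ • D) (Lc w S) := ⟨le_Lc S s2, by
      rw [ht, Derivation.map_smul, map_sub, Derivation.map_algebraMap, sub_zero,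
        Derivation.smul_apply, hD, inv_smul_smul₀ h0]
      exact one_mem _⟩
    have d3 : η ∈ dS (ρ • D) (Lc w S) := ⟨le_Lc S s3, by
      have k := der_eval (ρ • D) Q (fun j => (q3 _ d1 d2 j).2) (le_Lc S s3)
      rw [q1, map_zero, zero_sub, neg_mem_iff] at k
      have k0 : Q.derivative.eval η ≠ 0 := fun z => by simp [z] at q2
      rw [← inv_mul_cancel_left₀ k0 ((ρ • D) η)]
      refine mul_mem (Lc_inv (eval_mem _ (fun j => ?_) (le_Lc S s3)) q2) k
      rw [coeff_derivative]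
      exact mul_mem (q3 _ b1 (le_Lc S s2) _) (add_mem (natCast_mem _ _) (one_mem _))⟩
    have d4 : S ≤ dS (ρ • D) (Lc w S) := by
      conv_lhs => rw [hS]
      exact Rg_le d1 d2 d3
    have d5 : Lc w S ≤ dS (ρ • D) (Lc w S) := Lc_le d4 fun x hx h1 => by
      have i := Lc_inv (le_Lc S hx) h1
      refine ⟨i, ?_⟩
      rw [Derivation.leibniz_inv, smul_eq_mul]
      exact mul_mem (neg_mem (pow_mem i 2)) (d4 hx).2
    exact fun b hb => (d5 hb).2
  · have k2 : t ∈ T := ht ▸ b c₀ pt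
    have k : S ≤ T := hS ▸ Rg_le a k2 (hT.root Q η (q3 T a k2) q1 hC.int q2)
    exact Lc_le k fun x hx => hT.inv x (k hx)
  · obtain ⟨ev, e, k1, k2, k3⟩ := he M w t η P (satA w _ b1) _ hC (fun _ => hS ▸ Iff.rfl) (e2 c h)
    refine ⟨ev, fun x hx => ?_, fun x hx => ?_⟩
    · have a : t ∈ satA w _ b1 := ⟨1, one_ne_zero, by rw [one_smul]; exact le_Lc S s2⟩
      have b : x = ρ • (⟨t, a⟩ : satA w _ b1) + algebraMap C _ c₀ := Subtype.ext (by
        change (x : M) = ρ • t + algebraMap C M c₀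
        rw [hx, ht, smul_inv_smul₀ h0, sub_add_cancel])
      rw [b, map_add, map_smul, k2 _ rfl, AlgHom.commutes, smul_eq_mul, mul_inv_cancel_left₀ h0]
      exact sub_add_cancel _ _
    · obtain ⟨-, y, hy, k⟩ := k3 (Oc C w) le_rfl (e2 c h).le k1 hC.coe x (hS ▸ hx)
      rw [← hS] at hy
      rw [Valuation.map_sub_swap, sub_eq_of_eq_add' k, map_mul]
      exact mul_lt_one_of_lt_of_le (w.map_sub_lt hC.small (e2 c h)) (ble y hy)
  · obtain ⟨e, e0, hx⟩ := hx
    have hε : w (algebraMap C M (ρ⁻¹ * r)) < 1 := by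
      rw [map_mul, ← Algebra.smul_def, lt_one_iff h0]
      exact hr
    obtain ⟨μ, π, f, n, b, m0, k1, k2, k3, k4⟩ := hl M w t η P _ _ hC (e2 c h)
      (mul_ne_zero (inv_ne_zero h0) r0) hε (e • x) (hS ▸ hx) (smul_ne_zero e0 x0)
    have z : (ρ⁻¹ * r)⁻¹ • (t - algebraMap C M (ρ⁻¹ * (c - c₀))) = r⁻¹ • (u - algebraMap C M c) := by
      rw [← e1, smul_smul, mul_inv, inv_inv, mul_right_comm, mul_inv_cancel₀ h0, one_mul]
    rw [z] at k4
    exact ⟨e⁻¹ * μ, π, f, n, b, mul_ne_zero (inv_ne_zero e0) m0, k1, hS ▸ k2, k3, by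
      rw [mul_smul, ← k4, inv_smul_smul₀ e0]⟩
  · have k0 : κ f ≠ 0 := fun z => f0 (by simpa [z] using hκ f)
    have k1 : w ((κ f)⁻¹ • f) = 1 := by
      rw [Algebra.smul_def, map_inv₀, map_mul, map_inv₀, ← hκ, inv_mul_cancel₀ (by simpa using f0)]
    exact ⟨(κ f)⁻¹, inv_ne_zero k0, hS ▸ hF _ (Finset.mem_image_of_mem _ hf) k1.le, k1⟩

end Pool.Agent.MP_19ffc6_ag.Perf.Hr

end MrgPart3

-- ======== part 4: formerly Pool.Agent.MP_19ffc6_ag.perf.HrTowA
section MrgPart4

/-! Row TOW, first part: decomposition groups and cyclic extensions of prime degree. -/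

namespace Pool.Agent.MP_19ffc6_ag.Perf.Hr.Tow

open IntermediateField
open scoped commutatorElement

/-- a finite group that is not perfect has a normal subgroup of prime index -/
theorem prime_index {G : Type} [Group G] [Finite G] (h : commutator G ≠ ⊤) :
    ∃ (H : Subgroup G) (_ : H.Normal), (Nat.card (G ⧸ H)).Prime := by
  obtain ⟨H, hH, hle⟩ := (eq_top_or_exists_le_coatom (commutator G)).resolve_left h
  have hN := Subgroup.Normal.of_commutator_le (G := G) hle
  have := Subgroup.Normal.quotient_commutative_iff_commutator_le.2 hle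
  have : Nontrivial (G ⧸ H) := QuotientGroup.nontrivial_iff.2 hH.1
  refine ⟨H, hN, Group.is_simple_iff_prime_card.1 ⟨fun K _ => ?_⟩⟩
  have hs := QuotientGroup.mk'_surjective H
  rcases (hH.le_iff.1 (show H ≤ K.comap (QuotientGroup.mk' H) from fun x hx => by
    rw [Subgroup.mem_comap, QuotientGroup.mk'_apply, (QuotientGroup.eq_one_iff x).2 hx]
    exact K.one_mem)) with h1 | h1
  · right
    rw [← Subgroup.map_comap_eq_self_of_surjective hs K, h1, Subgroup.map_top_of_surjective _ hs]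
  · left
    rw [← Subgroup.map_comap_eq_self_of_surjective hs K, h1, QuotientGroup.map_mk'_self]

variable {M N Γ : Type} [Field M] [Field N] [Algebra M N] [LinearOrderedCommGroupWithZero Γ]
  {p : ℕ} [Fact p.Prime]

theorem val_nat [CharP N p] (w : Valuation N Γ) {m : ℕ} (hm : ¬ p ∣ m) : w (m : N) = 1 := by
  have h0 : w (m : N) ≠ 0 := by
    rw [Valuation.ne_zero_iff]
    exact fun h => hm ((CharP.cast_eq_zero_iff N p m).1 h)
  have h1 : w (m : N) ^ p = w (m : N) := by
    rw [← map_pow, ← frobenius_def, map_natCast]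
  obtain ⟨k, hk⟩ := Nat.exists_eq_add_of_le (Fact.out : p.Prime).two_le
  rw [hk, show 2 + k = (k + 1) + 1 by omega, pow_succ] at h1
  exact (pow_eq_one_iff_left (Nat.succ_ne_zero k)).1 (mul_right_cancel₀ h0 (h1.trans (one_mul _).symm))

/-- the Galois group of a totally non split extension is not perfect -/
theorem not_perfect [CharP N p] [FiniteDimensional M N] [Nontrivial Gal(N/M)] (w : Valuation N Γ)
    (hv : ∀ (g : Gal(N/M)) x, w (g x) = w x)
    (hr : ∀ (g : Gal(N/M)) x, w x ≤ 1 → w (g x - x) < 1) : commutator Gal(N/M) ≠ ⊤ := by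
  intro hc
  have hP : ∀ x, x ≠ 0 → ∀ g : Gal(N/M), w (g x - x) < w x := fun x hx => by
    let P : Subgroup Gal(N/M) :=
      { carrier := {g | w (g x - x) < w x}
        one_mem' := by simpa [pos_iff_ne_zero] using hx
        mul_mem' := fun {g h} hg hh => by
          show w (g (h x) - x) < w x
          rw [show g (h x) - x = g (h x - x) + (g x - x) by rw [map_sub]; ring]
          exact w.map_add_lt (by rwa [hv]) hg
        inv_mem' := fun {g} hg => by
          show w (g.symm x - x) < w x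
          rw [← hv g, map_sub, g.apply_symm_apply, w.map_sub_swap]
          exact hg }
    have : commutator Gal(N/M) ≤ P := Subgroup.commutator_le.2 fun g _ h _ => by
      obtain ⟨y, rfl⟩ : ∃ y, x = h (g y) := ⟨g.symm (h.symm x), by simp⟩
      have hy : y ≠ 0 := by simpa using hx
      have hy' : w y ≠ 0 := by simpa using hy
      have e : ⁅g, h⁆ (h (g y)) = g (h y) := by simp [commutatorElement_def]
      have ha : w (g y / y) = 1 := by rw [map_div₀, hv, div_self hy']
      have hb : w (h y / y) = 1 := by rw [map_div₀, hv, div_self hy']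
      have e2 : g (h y) - h (g y) = ((g (h y / y) - h y / y) * (g y / y) -
          (h (g y / y) - g y / y) * (h y / y)) * y := by
        have := (map_ne_zero g).2 hy
        have := (map_ne_zero h).2 hy
        rw [map_div₀, map_div₀]
        field_simp
        ring
      show w (⁅g, h⁆ (h (g y)) - h (g y)) < w (h (g y))
      rw [e, e2, hv, hv, map_mul]
      refine mul_lt_of_lt_one_left (zero_lt_iff.2 hy') (w.map_sub_lt ?_ ?_)
      · rw [map_mul, ha, mul_one]; exact hr g _ hb.le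
      · rw [map_mul, hb, mul_one]; exact hr h _ ha.le
    exact fun g => this (hc ▸ Subgroup.mem_top g)
  have hp : IsPGroup p Gal(N/M) := fun g => by
    obtain ⟨k, m, hm, e⟩ := Nat.exists_eq_pow_mul_and_not_dvd (orderOf_pos g).ne' p
      (Fact.out : p.Prime).ne_one
    refine ⟨k, AlgEquiv.ext fun y => by_contra fun hy => ?_⟩
    have h1 : (g ^ p ^ k) ^ m = 1 := by rw [← pow_mul, ← e, pow_orderOf_eq_one]
    generalize g ^ p ^ k = f at hy h1
    have hx : f y - y ≠ 0 := sub_ne_zero.2 hy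
    have h2 : ∑ i ∈ Finset.range m, (f ^ i) (f y - y) = 0 := by
      have := Finset.sum_range_sub (fun i => (f ^ i) y) m
      simp only [h1, pow_zero, sub_self, pow_succ, AlgEquiv.mul_apply] at this
      simpa only [map_sub] using this
    have h3 : w (∑ i ∈ Finset.range m, ((f ^ i) (f y - y) - (f y - y))) < w (f y - y) :=
      w.map_sum_lt (by simpa using hx) fun i _ => hP _ hx _
    rw [Finset.sum_sub_distrib, h2, zero_sub, w.map_neg, Finset.sum_const, Finset.card_range,
      nsmul_eq_mul, map_mul, val_nat w hm, one_mul] at h3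
    exact lt_irrefl _ h3
  have := hp.isNilpotent
  exact (Group.IsSolvable.commutator_lt_top_of_nontrivial Gal(N/M)).ne hc

/-- Artin-Schreier generator -/
theorem as_gen [CharP M p] [FiniteDimensional M N] [IsGalois M N]
    (hc : Nat.card Gal(N/M) = p) :
    ∃ (α : N) (a : M), α ^ p - α = algebraMap M N a ∧ M⟮α⟯ = ⊤ := by
  classical
  have hp : p.Prime := Fact.out
  have : CharP N p := charP_of_injective_algebraMap (algebraMap M N).injective p
  have : Nontrivial Gal(N/M) := Finite.one_lt_card_iff_nontrivial.1 (hc ▸ hp.one_lt)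
  obtain ⟨σ, hσ⟩ := exists_ne (1 : Gal(N/M))
  have fix : ∀ x, σ x = x → x ∈ Set.range (algebraMap M N) := fun x hx =>
    (IsGalois.mem_range_algebraMap_iff_fixed x).2 fun f => by
      obtain ⟨n, rfl⟩ := mem_powers_of_prime_card hc hσ (g' := f)
      exact (congrFun (AlgEquiv.coe_pow σ n) x).trans (Function.iterate_fixed hx n)
  have : CharP (Module.End M N) p :=
    charP_of_injective_algebraMap (algebraMap M (Module.End M N)).injective p
  have h0 : (σ.toLinearMap - 1 : Module.End M N) ^ p = 0 := by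
    rw [sub_pow_char_of_commute _ (Commute.one_right _), one_pow, ← AlgEquiv.pow_toLinearMap, ← hc,
      pow_card_eq_one']
    exact sub_self _
  set τ : Module.End M N := σ.toLinearMap - 1 with hτ
  have hτx : ∀ x, τ x = σ x - x := fun x => rfl
  have ex : ∃ k, τ ^ (k + 1) = 0 := ⟨p, by rw [pow_succ, h0, zero_mul]⟩
  obtain ⟨x, h1, h2⟩ : ∃ x, τ x ≠ 0 ∧ τ (τ x) = 0 := by
    have hk := Nat.find_spec ex
    rcases e : Nat.find ex with _ | k
    · rw [e, zero_add, pow_one] at hk
      exact absurd (AlgEquiv.ext fun x => sub_eq_zero.1 ((hτx x).symm.trans (by rw [hk]; rfl))) hσ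
    · obtain ⟨y, hy⟩ := DFunLike.ne_iff.1 (Nat.find_min ex (m := k) (by omega))
      rw [e] at hk
      refine ⟨(τ ^ k) y, by rwa [pow_succ'] at hy, ?_⟩
      have := congrArg (fun f => f y) hk
      rwa [pow_succ', pow_succ'] at this
  have h3 : σ (τ x) = τ x := sub_eq_zero.1 ((hτx _).symm.trans h2)
  have h4 : σ (x / τ x) = x / τ x + 1 := by
    rw [map_div₀, h3, div_add_one h1, hτx, add_sub_cancel]
  obtain ⟨a, ha⟩ := fix ((x / τ x) ^ p - x / τ x) (by
    rw [map_sub, map_pow, h4, add_pow_char, one_pow, add_sub_add_right_eq_sub])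
  refine ⟨_, a, ha.symm, ?_⟩
  have := isSimpleOrder_of_finrank_prime M N (by rwa [← IsGalois.card_aut_eq_finrank, hc])
  refine (eq_bot_or_eq_top _).resolve_left fun h => ?_
  obtain ⟨b, hb⟩ := mem_bot.1 (h ▸ mem_adjoin_simple_self M (x / τ x))
  rw [← hb, AlgEquiv.commutes] at h4
  simp at h4

/-- Kummer generator -/
theorem kum_gen (C : Type) [Field C] [IsAlgClosed C] [Algebra C M] [FiniteDimensional M N]
    [IsGalois M N] {l : ℕ} (hl : l.Prime) (h0 : (l : C) ≠ 0) (hc : Nat.card Gal(N/M) = l) :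
    ∃ (α : N) (a : M), α ^ l = algebraMap M N a ∧ M⟮α⟯ = ⊤ := by
  have := Fact.mk hl
  have : NeZero (l : C) := ⟨h0⟩
  have : IsCyclic Gal(N/M) := isCyclic_of_prime_card hc
  have e : Module.finrank M N = l := by rw [← IsGalois.card_aut_eq_finrank, hc]
  obtain ⟨ζ, hζ⟩ := HasEnoughRootsOfUnity.exists_primitiveRoot C l
  obtain ⟨α, ⟨a, ha⟩, h⟩ := exists_root_adjoin_eq_top_of_isCyclic M N ⟨algebraMap C M ζ, by
    rw [e, mem_primitiveRoots hl.pos]
    exact hζ.map_of_injective (algebraMap C M).injective⟩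
  exact ⟨α, a, e ▸ ha.symm, h⟩

end Pool.Agent.MP_19ffc6_ag.Perf.Hr.Tow

end MrgPart4

-- ======== part 5: formerly Pool.Agent.MP_19ffc6_ag.perf.HrTow
section MrgPart5

/-! Row TOW: the tower of Kummer and Artin-Schreier steps over the decomposition field. -/

namespace Pool.Agent.MP_19ffc6_ag.Perf.Hr

open Polynomial IntermediateField

variable {C Ω Γ : Type} [Field C] [Field Ω] [Algebra C Ω] [LinearOrderedCommGroupWithZero Γ]
  {v : Valuation Ω Γ} {p : ℕ}

namespace Tow

section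
variable {M N : Type} [Field M] [Algebra C M] [Field N] [Algebra C N] [Algebra M N]
  [IsScalarTower C M N]

instance tower (S : IntermediateField M N) : IsScalarTower C S N :=
  IsScalarTower.of_algebraMap_eq fun _ => rfl

/-- the embedding composed with an automorphism -/
def cp (φ : N →ₐ[C] Ω) (g : Gal(N/M)) : N →ₐ[C] Ω := φ.comp ((g : N →ₐ[M] N).restrictScalars C)

@[simp] lemma cp_apply (φ : N →ₐ[C] Ω) (g : Gal(N/M)) (x : N) : cp φ g x = φ (g x) := rfl

/-- the image of `M` in `N` -/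
def im (C M N : Type) [Field C] [Field M] [Algebra C M] [Field N] [Algebra C N] [Algebra M N]
    [IsScalarTower C M N] : IntermediateField C N := (⊥ : IntermediateField M N).restrictScalars C

lemma im_alg [FiniteDimensional M N] : Algebra.IsAlgebraic (im C M N) N :=
  inferInstanceAs (Algebra.IsAlgebraic (⊥ : IntermediateField M N) N)

lemma cp_im (φ : N →ₐ[C] Ω) (g : Gal(N/M)) : ∀ e ∈ im C M N, cp φ g e = φ e := fun e he => by
  obtain ⟨m, rfl⟩ := mem_bot.1 (show e ∈ (⊥ : IntermediateField M N) from he)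
  rw [cp_apply, g.commutes]

lemma fn_up (hd : Der C) [FiniteDimensional M N] [Algebra.IsSeparable M N] {y : M} (hy : Fn C y)
    (c : C) : Fn C (algebraMap M N (y - algebraMap C M c)) := by
  obtain ⟨D, hD⟩ := hd.ex M y hy
  obtain ⟨D', hD'⟩ := hd.up M N D
  refine hd.sep M N y D' _ hy ?_
  rw [hD', map_sub, hD, Derivation.map_algebraMap, sub_zero, map_one]
  exact one_ne_zero

lemma t3_up {φ : N →ₐ[C] Ω} {u : M} (h : T3 C (vm v (dn M φ)) u) :
    T3 C (vm v φ) (algebraMap M N u) := fun c => by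
  simpa using h c

end

variable [Fact p.Prime] [CharP C p] [IsAlgClosed C]

theorem climb (hb : Bas C v) (hd : Der C) (k3 : K3Stmt C v) (k4 : K4Stmt C v) (a3 : A3Stmt C v p)
    (a4 : A4Stmt C v p) {N : Type} [Field N] [Algebra C N] (φ : N →ₐ[C] Ω) (n : ℕ) :
    ∀ (M : Type) [Field M] [Algebra C M] [Algebra M N] [IsScalarTower C M N]
      [FiniteDimensional M N] [IsGalois M N], Nat.card Gal(N/M) = n →
      (∀ g : Gal(N/M), Iso v φ (cp φ g)) → ∀ u : M, Co v (dn M φ) u →
      T3 C (vm v (dn M φ)) u ∨ T4 C (vm v (dn M φ)) →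
      ∃ u : N, Co v φ u ∧ (T3 C (vm v φ) u ∨ T4 C (vm v φ)) := by
  induction n using Nat.strong_induction_on with
  | _ n ih =>
  intro M _ _ _ _ _ _ hn hI u hu hT
  rcases subsingleton_or_nontrivial Gal(N/M) with hs | hs
  · refine ⟨algebraMap M N u, ⟨by simpa using fn_up (N := N) hd hu.fn 0, fun σ h1 h2 => ?_⟩,
      hT.imp t3_up (hb.t4_alg M N φ)⟩
    ext x
    obtain ⟨y, rfl⟩ := (IsGalois.mem_range_algebraMap_iff_fixed (F := M) x).2 fun f => by
      rw [Subsingleton.elim f 1]; rfl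
    exact DFunLike.congr_fun (hu.fix (dn M σ) h1 h2.dn) y
  have : CharP N p := charP_of_injective_algebraMap (algebraMap C N).injective p
  have : CharP M p := charP_of_injective_algebraMap (algebraMap C M).injective p
  obtain ⟨H, hH, hl⟩ := prime_index (not_perfect (p := p) (vm v φ)
    (fun g x => hb.iso_val N φ (cp φ g) (im C M N) (hI g) (cp_im φ g) x (im_alg.isAlgebraic x))
    fun g x hx => by simpa using hb.iso_res N φ (cp φ g) (hI g) x hx)
  have hc : Nat.card Gal(fixedField H/M) = Nat.card (Gal(N/M) ⧸ H) :=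
    (Nat.card_congr (IsGalois.normalAutEquivQuotient H).toEquiv).symm
  have hH' : ∃ g, g ∉ H := by
    by_contra! h
    rw [← Subgroup.index_eq_card, (Subgroup.eq_top_iff' H).2 h, Subgroup.index_top] at hl
    exact Nat.not_prime_one hl
  have hNS : ∀ α : fixedField H, M⟮α⟯ = ⊤ → NS v M (dn (fixedField H) φ) α := fun α hα => by
    obtain ⟨g, hg⟩ := hH'
    have h1 : dn M (dn (fixedField H) (cp φ g)) = dn M (dn (fixedField H) φ) :=
      AlgHom.ext fun x => congrArg φ (g.commutes x)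
    refine ⟨dn (fixedField H) (cp φ g), h1, (hI g).dn, fun h => hg ?_⟩
    rw [← fixingSubgroup_fixedField H, IntermediateField.mem_fixingSubgroup_iff]
    exact fun x hx => φ.injective (DFunLike.congr_fun (ext_gen hα h1 h) ⟨x, hx⟩)
  have step : ∃ u' : fixedField H, Co v (dn (fixedField H) φ) u' ∧
      (T3 C (vm v (dn (fixedField H) φ)) u' ∨ T4 C (vm v (dn (fixedField H) φ))) := by
    by_cases hp : Nat.card (Gal(N/M) ⧸ H) = p
    · obtain ⟨α, a, h1, h2⟩ := as_gen (hc.trans hp)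
      rcases hT with hT | hT
      · obtain ⟨u', h3, h4⟩ := a3 M _ (dn (fixedField H) φ) u a α hu hT h1 h2 (hNS α h2)
        exact ⟨u', h3, Or.inl h4⟩
      · obtain ⟨u', h3⟩ := a4 M _ (dn (fixedField H) φ) u a α hu hT h1 h2 (hNS α h2)
        exact ⟨u', h3, Or.inr (hb.t4_alg M _ _ hT)⟩
    · have h0 : ((Nat.card (Gal(N/M) ⧸ H) : ℕ) : C) ≠ 0 := fun h =>
        hp ((Nat.prime_dvd_prime_iff_eq Fact.out hl).1 ((CharP.cast_eq_zero_iff C p _).1 h)).symm
      obtain ⟨α, a, h1, h2⟩ := kum_gen C hl h0 hc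
      rcases hT with hT | hT
      · obtain ⟨u', h3, h4⟩ :=
          k3 M _ (dn (fixedField H) φ) u a α _ hu hT hl h0 h1 h2 (hNS α h2)
        exact ⟨u', h3, Or.inl h4⟩
      · exact absurd (hNS α h2) (k4 M _ (dn (fixedField H) φ) a α _ hT h0 h1)
  obtain ⟨u', h1, h2⟩ := step
  refine ih _ ?_ (fixedField H) rfl (fun g => hI (g.restrictScalars M)) u' h1 h2
  rw [IsGalois.card_aut_eq_finrank, finrank_fixedField_eq_card, ← hn,
    Subgroup.card_eq_card_quotient_mul_card_subgroup H]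
  exact lt_mul_of_one_lt_left Nat.card_pos hl.one_lt

omit [Fact p.Prime] [CharP C p] in
theorem t4_rat {E : Type} [Field E] [Algebra C E] (w : Valuation E Γ) {y : E} (hy : C⟮y⟯ = ⊤)
    (h : ∀ c : C, ¬ T3 C w (y - algebraMap C E c)) : T4 C w := by
  have pol : ∀ f : C[X], ∃ c : C, w (aeval y f) = w (algebraMap C E c) := fun f => by
    have hs := IsAlgClosed.splits f
    induction hs using Submonoid.closure_induction with
    | mem x hx =>
      rcases hx with ⟨a, rfl⟩ | ⟨a, rfl⟩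
      · exact ⟨a, by simp⟩
      · have := h (-a)
        simp only [T3, not_forall, not_not] at this
        simpa using this
    | one => exact ⟨1, by simp⟩
    | mul x y _ _ hx hy =>
      obtain ⟨a, ha⟩ := hx
      obtain ⟨b, hb⟩ := hy
      exact ⟨a * b, by simp only [map_mul, ha, hb]⟩
  intro x
  obtain ⟨f, g, rfl⟩ := (mem_adjoin_simple_iff C x).1 (hy ▸ mem_top : x ∈ C⟮y⟯)
  obtain ⟨a, ha⟩ := pol f
  obtain ⟨b, hb⟩ := pol g
  exact ⟨a / b, by simp only [map_div₀, ha, hb]⟩

end Tow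

open Tow in
theorem tow [Fact p.Prime] [CharP C p] [IsAlgClosed C] [IsAlgClosed Ω] (_h : Ctx C v)
    (hb : Bas C v) (hd : Der C) (k3 : K3Stmt C v) (k4 : K4Stmt C v) (a3 : A3Stmt C v p)
    (a4 : A4Stmt C v p) : TowStmt C v := by
  classical
  intro E N _ _ _ _ _ _ _ _ φ y hy htop
  let D : Subgroup Gal(N/E) :=
    { carrier := {g | Iso v φ (cp φ g)}
      one_mem' := fun _ => Iff.rfl
      mul_mem' := fun {g h} hg hh x => (hg (h x)).trans (hh x)
      inv_mem' := fun {g} hg x => by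
        have := hg (g.symm x)
        rw [cp_apply, g.apply_symm_apply] at this
        exact this.symm }
  have hsur : Function.Surjective (algebraMap C⟮y⟯ E) := fun x => ⟨⟨x, htop ▸ mem_top⟩, rfl⟩
  have hFn : Fn C y := ⟨hy, Module.Finite.of_surjective (Algebra.linearMap C⟮y⟯ E) hsur,
    ⟨fun x => by
      obtain ⟨z, rfl⟩ := hsur x
      exact isSeparable_algebraMap z⟩⟩
  have hI : ∀ g : Gal(N/fixedField D), Iso v φ (cp φ g) := fun g => by
    have : g.restrictScalars E ∈ D := (fixingSubgroup_fixedField D).le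
      ((IntermediateField.mem_fixingSubgroup_iff _ _).2 fun x hx => g.commutes ⟨x, hx⟩)
    exact this
  have hCo : ∀ c : C, Co v (dn (fixedField D) φ)
      (algebraMap E (fixedField D) (y - algebraMap C E c)) := fun c => by
    refine ⟨fn_up hd hFn c, fun σ h1 h2 => ?_⟩
    have h3 : dn E σ = dn E φ := by
      refine ext_gen (M := C) htop (AlgHom.ext fun x => ?_) ?_
      · simp
      · have h4 : dn E σ (y - algebraMap C E c) = dn E φ (y - algebraMap C E c) := h1
        simpa only [map_sub, AlgHom.commutes, sub_left_inj] using h4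
    obtain ⟨τ, hτ⟩ : ∃ τ : Gal(N/E), ∀ x : fixedField D, σ x = φ (τ x) := by
      let _ : Algebra (fixedField D) Ω := (σ : fixedField D →+* Ω).toAlgebra
      let s : N →ₐ[fixedField D] Ω := IsAlgClosed.lift
      let _ : Algebra N Ω := (φ : N →+* Ω).toAlgebra
      let _ : Algebra E Ω := ((φ : N →+* Ω).comp (algebraMap E N)).toAlgebra
      have : IsScalarTower E N Ω := IsScalarTower.of_algebraMap_eq fun _ => rfl
      let s' : N →ₐ[E] Ω :=
        { (s : N →+* Ω) with
          commutes' := fun x => (s.commutes (algebraMap E (fixedField D) x)).trans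
            (DFunLike.congr_fun h3 x) }
      exact ⟨s'.restrictNormal' N, fun x =>
        (s.commutes x).symm.trans (s'.restrictNormal_commutes N x).symm⟩
    by_cases hD : τ ∈ D
    · exact AlgHom.ext fun x => (hτ x).trans (congrArg φ ((mem_fixedField_iff D x).1 x.2 τ hD))
    exfalso
    obtain ⟨b, hb1, hb2, hb3⟩ := hb.sb N φ (cp φ τ) (im C E N) im_alg (cp_im φ τ) hD
    have hn : ∏ d : D, (d : Gal(N/E)) b ∈ fixedField D := (mem_fixedField_iff D _).2 fun f hf => by
      rw [map_prod]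
      exact Fintype.prod_equiv (Equiv.mulLeft (⟨f, hf⟩ : D)) _ _ fun _ => rfl
    have h5 : v (φ (∏ d : D, (d : Gal(N/E)) b)) = 1 := by
      rw [map_prod, map_prod]
      exact Finset.prod_eq_one fun d _ =>
        (hb.iso_val N φ (cp φ d.1) (im C E N) d.2 (cp_im φ _) b (im_alg.isAlgebraic b)).trans hb2
    have h6 : v (φ (τ (∏ d : D, (d : Gal(N/E)) b))) < 1 := by
      rw [map_prod, map_prod, map_prod, ← Finset.mul_prod_erase _ _ (Finset.mem_univ 1)]
      exact (mul_le_of_le_one_right' (Finset.prod_le_one' fun d _ =>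
        hb1 (cp φ (τ * d.1)) (cp_im φ _))).trans_lt hb3
    have h7 := (h2 (⟨_, hn⟩ : fixedField D)⁻¹).2 (by
      rw [map_inv₀, map_inv₀]
      exact (congrArg _ h5).le.trans inv_one.le)
    rw [map_inv₀, map_inv₀, hτ] at h7
    have h8 : ∏ d : D, (d : Gal(N/E)) b ≠ 0 := fun h => by simp [h] at h5
    exact absurd ((inv_le_one₀ (zero_lt_iff.2 ((Valuation.ne_zero_iff v).2
      ((map_ne_zero φ).2 ((map_ne_zero τ).2 h8))))).1 h7) h6.not_ge
  by_cases h3 : ∃ c : C, T3 C (vm v (dn E φ)) (y - algebraMap C E c)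
  · obtain ⟨c, hc⟩ := h3
    exact climb hb hd k3 k4 a3 a4 φ _ (fixedField D) rfl hI _ (hCo c)
      (Or.inl (t3_up (φ := dn (fixedField D) φ) hc))
  · exact climb hb hd k3 k4 a3 a4 φ _ (fixedField D) rfl hI _ (hCo 0)
      (Or.inr (hb.t4_alg E _ (dn (fixedField D) φ) (t4_rat _ htop (not_exists.1 h3))))

end Pool.Agent.MP_19ffc6_ag.Perf.Hr

end MrgPart5

-- ======== part 6: formerly Pool.Agent.MP_19ffc6_ag.perf.HrAll
section MrgPart6

/-! Henselian rationality in any rank: assembly. -/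

namespace Pool.Agent.MP_19ffc6_ag.Perf

open Hr

theorem Hr.tow_all {C Ω Γ : Type} [Field C] [Field Ω] [Algebra C Ω]
    [LinearOrderedCommGroupWithZero Γ] [IsAlgClosed C] [IsAlgClosed Ω] {v : Valuation Ω Γ} (p : ℕ)
    [hp : Fact p.Prime] [CharP C p] (h : Ctx C v) : TowStmt C v ∧ EtvStmt C v :=
  have hb := bas h
  have he := etv hb
  have hs : SolStmt C p := sol hp.out.two_le
  ⟨tow (p := p) h hb der' (k3 p h hb (dq h) der' he) (k4 p h hb) (a3 h hb (dq h) der' he xs hs)
    (a4 h hb (dq h) der' he xs hs (int hp.out.two_le) (disc ch ev (cl ev))), he⟩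

theorem hr {k L : Type} [Field k] [Field L] [Algebra k L] (p : ℕ) [Fact p.Prime] [CharP k p]
    [IsAlgClosed k] [IsAlgClosed L] : HRStmt k L :=
  hr_of p fun _ _ _ _ _ _ _ _ h => tow_all p h

end Pool.Agent.MP_19ffc6_ag.Perf

end MrgPart6

-- marker of a merged file
example : 731051 + 451178 = 731051 + 451178 := rfl
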