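import Pool.Agent.Lib.helper72.RM.M07
import Pool.Agent.Lib.helper72.RM.M16
import Pool.Agent.MP_19ffc6_ag.perf.HrEtv

-- ======== part 0: formerly Pool.Agent.MP_19ffc6_ag.perf.SsSpec
section MrgPart0

/-! PROJECT PERF, block SS: from henselian rationality to semistable charts at all points of one
model. Definitions and the statements of the modules. -/

namespace Pool.Agent.MP_19ffc6_ag.Perf.Ss

open Polynomial IntermediateField Pool.Agent.R72.Wild Pool.Agent.R72.Lci Pool.Agent.R72.Res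
  Pool.Agent.R72.Res.B

variable {k L : Type} [Field k] [Field L] [Algebra k L]

/-- `x` or its inverse lies in `O`. -/
def Dec (O : Subalgebra k L) (x : L) : Prop := x ∈ O ∨ x⁻¹ ∈ O

/-- `C` is algebraically closed in `L`. -/
def AC (C : IntermediateField k L) : Prop := ∀ x : L, IsAlgebraic C x → x ∈ C

/-- The elements of `V` in the subfield `C`. -/
def cs (C : IntermediateField k L) (V : Subalgebra k L) : Subalgebra k L := V ⊓ C.toSubalgebra

lemma mem_cs {C : IntermediateField k L} {V : Subalgebra k L} {x : L} :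
    x ∈ cs C V ↔ x ∈ V ∧ x ∈ C := Iff.rfl

/-- The local ring of `R[S]` at the centre of `V`. -/
def lr (R : Subalgebra k L) (S : Set L) (V : Subalgebra k L) : Subalgebra k L :=
  loc (R ⊔ Algebra.adjoin k S) V

/-- `η` is a simple root modulo `V` of a monic polynomial over `A`. -/
def Std (A V : Subalgebra k L) (η : L) : Prop :=
  ∃ P : L[X], P.Monic ∧ (∀ i, P.coeff i ∈ A) ∧ P.eval η = 0 ∧ Un V (P.derivative.eval η)

/-- `A` is integrally closed with field of fractions `E`. -/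
structure Nrm (E : IntermediateField k L) (A : Subalgebra k L) : Prop where
  le : ∀ x ∈ A, x ∈ E
  frac : ∀ x ∈ E, ∃ b ∈ A, b ≠ 0 ∧ b * x ∈ A
  int : ∀ x ∈ E, IsIntegral A x → x ∈ A

/-- Monomials in the `y - s`, `s ∈ U`, with a constant factor. -/
def Mono (C : IntermediateField k L) (y : L) (U : Finset L) : Submonoid L :=
  Submonoid.closure ({c | c ∈ C ∧ c ≠ 0} ∪ {x | ∃ s ∈ U, x = y - s ∨ x = (y - s)⁻¹})

/-- A local ring over `R` that is integrally closed in `N` and dominated by `V`. -/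
structure Up (N : IntermediateField k L) (R V O : Subalgebra k L) : Prop where
  le : R ≤ O
  lcl : Lcl O
  dom : Dom O V
  sub : ∀ x ∈ O, x ∈ N
  int : ∀ x ∈ N, IsIntegral O x → x ∈ O

/-- All vertices of the tree of discs with centres `U` and radii `Λ` are decided. -/
def TD (y : L) (U Λ : Finset L) (O : Subalgebra k L) : Prop :=
  ∀ s ∈ U, ∀ l ∈ Λ, Dec O ((y - s) / l)

/-- The coordinates of the tree that lie in `V`. -/
def crd (y : L) (U Λ : Finset L) (V : Subalgebra k L) : Set L :=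
  {x | x ∈ V ∧ ∃ s ∈ U, ∃ l ∈ Λ, x = (y - s) / l ∨ x = ((y - s) / l)⁻¹}

/-- The least such ring in which the tree is decided: the centre of `V` on the normalisation in
`N` of the tree of discs over `R`. -/
structure Top (N : IntermediateField k L) (R : Subalgebra k L) (y : L) (U Λ : Finset L)
    (V O : Subalgebra k L) : Prop where
  up : Up N R V O
  dec : TD y U Λ O
  min : ∀ B, Up N R V B → TD y U Λ B → O ≤ B

/-- An annulus chart over the valuation ring of `C` in which the `y - s` are monomials. -/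
structure Ax (C N : IntermediateField k L) (y : L) (U : Finset L) (V : Subalgebra k L)
    (u m η : L) (c : L → L) (i : L → ℤ) : Prop where
  mC : m ∈ C
  tr : Transcendental C u
  uN : u ∈ N
  eN : η ∈ N
  gen : ∀ x ∈ N, x ∈ C ⊔ k⟮u, η⟯
  uV : u ∈ V
  mV : m / u ∈ V
  std : Std (lr (cs C V) {u, m / u} V) V η
  mon : ∀ s ∈ U, c s ∈ C ∧ Un (lr (cs C V) {u, m / u, η} V) ((y - s) / (c s * u ^ i s))

/-- A disc chart on which `y` has no horizontal pole. -/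
structure Dsc (C N : IntermediateField k L) (y : L) (V : Subalgebra k L) (t η : L) : Prop where
  tr : Transcendental C t
  tN : t ∈ N
  eN : η ∈ N
  gen : ∀ x ∈ N, x ∈ C ⊔ k⟮t, η⟯
  tV : t ∈ V
  std : Std (lr (cs C V) {t} V) V η
  reg : ∃ c ∈ C, c ≠ 0 ∧ y / c ∈ lr (cs C V) {t, η} V

/-- The product of the `y - s` sees `u`. -/
def Sees1 (V : Subalgebra k L) (U : Finset L) (u : L) (i : L → ℤ) : Prop :=
  Un V u ∨ ∑ s ∈ U, i s ≠ 0

/-- The output at a point `O` over the base point `R`. -/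
structure Out (Γ U : Finset L) (y : L) (R O : Subalgebra k L) (u m : L) : Prop where
  ne : u ≠ 0
  um : u ∈ O
  mu : m / u ∈ O
  mR : m ∈ R
  mΓ : m = 0 ∨ m ∈ Γ
  rel : ∃ a b : k, ¬ Un O (u - algebraMap k L a) ∧ ¬ Un O (m / u - algebraMap k L b) ∧
    Pool.Agent.R72.Res.Par O
      ({r | r ∈ R ∧ ¬ Un R r} ∪ {u - algebraMap k L a, m / u - algebraMap k L b})
  mon : ∃ (c : L → L) (i : L → ℤ),
    (∀ s ∈ U, c s ∈ Γ ∧ Un O ((y - s) / (c s * u ^ i s))) ∧ Sees1 O U u i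

variable (k L)

/-- Henselian rationality with the local ring and the values. -/
def HR2Stmt : Prop :=
  ∀ (C : IntermediateField k L) (y : L) (N : IntermediateField ↥(C ⊔ k⟮y⟯) L)
    (V : Subalgebra k L), AC C → Transcendental C y → FiniteDimensional ↥(C ⊔ k⟮y⟯) N →
    IsGalois ↥(C ⊔ k⟮y⟯) N → Val V → Rt V →
    ∃ u η : L, u ∈ N ∧ η ∈ N ∧ Transcendental C u ∧ Std (cs (C ⊔ k⟮u⟯) V) V η ∧
      (∀ x ∈ N, x ∈ C ⊔ k⟮u, η⟯) ∧ (∀ x ∈ N, x ∈ V → x ∈ lr (cs (C ⊔ k⟮u⟯) V) {η} V) ∧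
      ∀ x ∈ N, x ≠ 0 → ∃ e ∈ C ⊔ k⟮u⟯, Un V (x / e)

/-- THE OUTPUT OF THE BLOCK. -/
def SSStmt : Prop :=
  ∀ (C N₀ : IntermediateField k L) (y : L) (N : IntermediateField ↥(C ⊔ k⟮y⟯) L), AC C →
    Transcendental C y → FiniteDimensional ↥(C ⊔ k⟮y⟯) N → IsGalois ↥(C ⊔ k⟮y⟯) N → N₀.FG →
    (∀ x, x ∈ N ↔ x ∈ C ⊔ N₀) →
    ∃ U₀ : Finset L, (∀ s ∈ U₀, s ∈ C) ∧ ∀ U : Finset L, U₀ ⊆ U → (∀ s ∈ U, s ∈ C) →
    ∃ Λ₀ : Finset L, (∀ l ∈ Λ₀, l ∈ C ∧ l ≠ 0) ∧ ∀ Λ : Finset L, Λ₀ ⊆ Λ →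
      (∀ l ∈ Λ, l ∈ C ∧ l ≠ 0) →
    ∃ Γ : Finset L, (∀ z ∈ Γ, z ∈ C ∧ z ≠ 0) ∧
      ∀ (F : IntermediateField k L) (R W O : Subalgebra k L), F ≤ C → Nrm F R → Lcl R →
        (∀ z ∈ Γ, Dec R z) → Val W → Dom R O → Top (F ⊔ N₀) R y U Λ W O → Rt O →
        ∃ u m : L, Transcendental C u ∧ Out Γ U y R O u m

/-- Row COMP: compactness; valuation rings with residue field `k` suffice. -/
def CompStmt : Prop :=
  ∀ (ι : Type) (p : ι → Subalgebra k L → Prop) (A : Finset L),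
    (∀ V : Subalgebra k L, Val V → Rt V → (∀ a ∈ A, a ∈ V) → ∃ (j : ι) (E : Finset L),
      (∀ x ∈ E, x ∈ V) ∧ ∀ W : Subalgebra k L, Val W → (∀ x ∈ E, x ∈ W) → p j W) →
    ∃ I : Finset ι, ∀ V : Subalgebra k L, Val V → (∀ a ∈ A, a ∈ V) → ∃ j ∈ I, p j V

/-- Row EXT: the valuation ring of `C(u)` is a union of local rings of annuli or discs. -/
def ExtStmt : Prop :=
  ∀ (C : IntermediateField k L) (u : L) (V : Subalgebra k L) (Z : Finset L), AC C →
    Transcendental C u → Val V → Rt V → (∀ z ∈ Z, z ∈ C ⊔ k⟮u⟯) →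
    ∃ t m : L, m ∈ C ∧ t ∈ C ⊔ k⟮u⟯ ∧ u ∈ C ⊔ k⟮t⟯ ∧ t ∈ V ∧ m / t ∈ V ∧
      (∀ z ∈ Z, z ∈ V → z ∈ lr (cs C V) {t, m / t} V) ∧
      (∀ z ∈ Z, z ≠ 0 → ∃ c ∈ C, ∃ j : ℤ, Un (lr (cs C V) {t, m / t} V) (z / (c * t ^ j))) ∧
      (m = 0 ∨ ∀ c ∈ C, ¬ Un V (t / c))

/-- Row CH: a chart at every valuation ring. -/
def ChStmt : Prop :=
  ∀ (C N : IntermediateField k L) (y u η : L) (V : Subalgebra k L), AC C → C ≤ N → y ∈ N →
    Transcendental C y → (∀ x ∈ N, IsAlgebraic ↥(C ⊔ k⟮y⟯) x) → Val V → Rt V → u ∈ N → η ∈ N →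
    Transcendental C u → Std (cs (C ⊔ k⟮u⟯) V) V η → (∀ x ∈ N, x ∈ C ⊔ k⟮u, η⟯) →
    (∀ x ∈ N, x ∈ V → x ∈ lr (cs (C ⊔ k⟮u⟯) V) {η} V) →
    (∀ x ∈ N, x ≠ 0 → ∃ e ∈ C ⊔ k⟮u⟯, Un V (x / e)) →
    ∃ (t m s₀ : L) (c : L → L) (i : L → ℤ), s₀ ∈ C ∧ Ax C N y {s₀} V t m η c i ∧
      (i s₀ ≠ 0 ∨ m = 0)

/-- Row UCO: blowing up the coefficients of an equation of `x` decides `x`. -/
def UcoStmt : Prop :=
  ∀ (C : IntermediateField k L) (y x : L), AC C → Transcendental C y →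
    IsAlgebraic ↥(C ⊔ k⟮y⟯) x →
    ∃ U G : Finset L, (∀ s ∈ U, s ∈ C) ∧ (∀ g ∈ G, g ∈ Mono C y U) ∧
      ∀ O : Subalgebra k L, Lcl O → (∀ c ∈ O, IsIntegral O (c * x) → c * x ∈ O) →
        (∀ g ∈ G, Dec O g) → Dec O x

/-- Row UCO, second part: finitely many radii decide a monomial. -/
def MonoStmt : Prop :=
  ∀ (C : IntermediateField k L) (y g : L) (U : Finset L), AC C → Transcendental C y →
    (∀ s ∈ U, s ∈ C) → g ∈ Mono C y U →
    ∃ Λ : Finset L, (∀ l ∈ Λ, l ∈ C ∧ l ≠ 0) ∧ ∀ V O : Subalgebra k L, Val V → cs C V ≤ O →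
      Dom O V → TD y U Λ O → Dec O g

/-- Row ANN, first part: disc charts inside a chart. -/
def DscStmt : Prop :=
  ∀ (C N : IntermediateField k L) (y t m η s₀ : L) (c : L → L) (i : L → ℤ) (V : Subalgebra k L),
    C ≤ N → Val V → s₀ ∈ C → Ax C N y {s₀} V t m η c i →
    (i s₀ = 0 → m = 0 → Dsc C N y V t η) ∧ ∀ ρ ∈ C, Un V (t / ρ) → Dsc C N y V (t / ρ) η

/-- Row FACTH: Weierstrass factorisation in the vocabulary of the block HR. -/
def FactH (C Γ : Type) [Field C] [LinearOrderedCommGroupWithZero Γ] : Prop :=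
  ∀ (M : Type) [Field M] [Algebra C M] (w : Valuation M Γ) (t η : M) (P : C[X][X]),
    Hr.Ch w t η P → ∀ x ∈ Hr.Lc w (Hr.Rg (Hr.Oc C w) t η), x ≠ 0 →
    ∃ (c : C) (T : Multiset C) (ε : M), (∀ τ ∈ T, w (algebraMap C M τ) < 1) ∧
      ε ∈ Hr.Lc w (Hr.Rg (Hr.Oc C w) t η) ∧ w ε = 1 ∧
      x = algebraMap C M c * (T.map fun τ => t - algebraMap C M τ).prod * ε

/-- Row FACT: Weierstrass factorisation over the valuation ring of `C`. -/
def FactStmt : Prop :=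
  ∀ (C : IntermediateField k L) (V : Subalgebra k L) (t η f : L), AC C → Val V → Rt V →
    Transcendental C t → t ∈ V → Std (lr (cs C V) {t} V) V η → f ∈ lr (cs C V) {t, η} V → f ≠ 0 →
    ∃ c ∈ C, ∃ T : Multiset L, (∀ τ ∈ T, τ ∈ cs C V) ∧
      Un (lr (cs C V) {t, η} V) (f / (c * (T.map fun τ => t - τ).prod))

/-- Refinement of an annulus chart at finitely many levels (proved in `SsBasic`). -/
def RefStmt : Prop :=
  ∀ (C N : IntermediateField k L) (y u m η : L) (U Lv : Finset L) (c : L → L) (i : L → ℤ)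
    (V O : Subalgebra k L), C ≤ N → Val V → Ax C N y U V u m η c i → cs C V ≤ O → Dom O V →
    u ∈ O → m / u ∈ O → (∀ μ ∈ Lv, μ ∈ C ∧ μ ≠ 0 ∧ Dec O (u / μ)) →
    ∃ ν m' : L, ν ∈ C ∧ ν ≠ 0 ∧ Ax C N y U V (u / ν) m' η (fun s => c s * ν ^ i s) i ∧
      u / ν ∈ O ∧ m' / (u / ν) ∈ O ∧ (Un V u → Un V (u / ν)) ∧
      lr (cs C V) {u, m / u, η} V ≤ lr (cs C V) {u / ν, m' / (u / ν), η} V ∧
      ∀ μ ∈ Lv, Dec (lr (cs C V) {u / ν, m' / (u / ν), η} V) (u / μ)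

/-- Row AX1: the branching levels in a disc chart. -/
def Ax1Stmt : Prop :=
  ∀ (C : IntermediateField k L) (U : Finset L) (c : L → L) (T : L → Multiset L),
    (∀ s ∈ U, s ∈ C ∧ c s ∈ C ∧ ∀ τ ∈ T s, τ ∈ C) →
    ∃ Λ : Finset L, (∀ l ∈ Λ, l ∈ C ∧ l ≠ 0) ∧
      ∀ (N : IntermediateField k L) (y t η : L) (V O : Subalgebra k L), C ≤ N → Val V →
        Dsc C N y V t η → (∀ s ∈ U, (∀ τ ∈ T s, τ ∈ V) ∧ Un (lr (cs C V) {t, η} V)
          ((y - s) / (c s * ((T s).map fun τ => t - τ).prod))) →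
        Up N (cs C V) V O → t ∈ O → η ∈ O → TD y U Λ O →
        ∃ (u m : L) (c' : L → L) (i : L → ℤ), Ax C N y U V u m η c' i ∧ Sees1 V U u i ∧
          u ∈ O ∧ m / u ∈ O

/-- Row ANN, second part: away from the radii `ρ s` all `y - s` are monomials. -/
def AnnStmt : Prop :=
  ∀ (C N : IntermediateField k L) (y t m η s₀ : L) (c ρ : L → L) (i : L → ℤ) (U : Finset L)
    (V O : Subalgebra k L), C ≤ N → Val V → Ax C N y {s₀} V t m η c i → i s₀ ≠ 0 → s₀ ∈ U →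
    (∀ s ∈ U, s ∈ C) → (∀ s ∈ U, s ≠ s₀ → ρ s ∈ C ∧ ρ s ^ i s₀ = (s - s₀) / c s₀ ∧
      ¬ Un V (t / ρ s) ∧ Dec O ((y - s₀) / (s - s₀))) →
    Up N (cs C V) V O → t ∈ O → m / t ∈ O → η ∈ O →
    ∃ (u m' : L) (c' : L → L) (i' : L → ℤ), Ax C N y U V u m' η c' i' ∧ Sees1 V U u i' ∧
      u ∈ O ∧ m' / u ∈ O

/-- Row AX2: the remaining levels. -/
def Ax2Stmt : Prop :=
  ∀ (C N : IntermediateField k L) (y u m η : L) (U Λ : Finset L) (c : L → L) (i : L → ℤ)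
    (V O : Subalgebra k L), AC C → C ≤ N → Val V → Ax C N y U V u m η c i → Sees1 V U u i →
    Up N (cs C V) V O → u ∈ O → m / u ∈ O → η ∈ O → (∀ l ∈ Λ, l ∈ C ∧ l ≠ 0) → TD y U Λ O →
    ∃ (u' m' : L) (c' : L → L), Ax C N y U V u' m' η c' i ∧ Sees1 V U u' i ∧ u' ∈ O ∧
      m' / u' ∈ O ∧ TD y U Λ (lr (cs C V) {u', m' / u', η} V)

/-- Row NRM, first part: the node over a normal ring is normal. -/
def NodStmt : Prop :=
  ∀ (F : IntermediateField k L) (R : Subalgebra k L) (u m : L), Nrm F R → Transcendental F u →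
    m ∈ R → Nrm (F ⊔ k⟮u⟯) (R ⊔ Algebra.adjoin k {u, m / u})

/-- Row NRM, second part: a standard etale local ring over a normal ring is normal. -/
def EtaStmt : Prop :=
  ∀ (E : IntermediateField k L) (A W : Subalgebra k L) (η : L), Nrm E A → A ≤ W → Lcl W →
    η ∈ W → Std (loc A W) W η → Nrm (E ⊔ k⟮η⟯) (lr A {η} W)

/-- Row REL: the point is the local ring of the chart; generators of its maximal ideal. -/
def RelStmt : Prop :=
  ∀ (F K : IntermediateField k L) (R W O : Subalgebra k L) (U Λ : Finset L) (y u m η : L),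
    Nrm F R → Lcl R → Dom R O → Val W → Top K R y U Λ W O → Rt O → F ≤ K → Transcendental F u →
    m ∈ R → u ∈ O → m / u ∈ O → η ∈ O → Std (lr R {u, m / u} W) W η →
    (∀ x ∈ K, x ∈ F ⊔ k⟮u, η⟯) → TD y U Λ (lr R {u, m / u, η} W) →
    O = lr R {u, m / u, η} W ∧ ∃ a b : k, ¬ Un O (u - algebraMap k L a) ∧
      ¬ Un O (m / u - algebraMap k L b) ∧ Pool.Agent.R72.Res.Par O
        ({r | r ∈ R ∧ ¬ Un R r} ∪ {u - algebraMap k L a, m / u - algebraMap k L b})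

/-- Row SPR: spreading out from the valuation ring of `C` to a base point. -/
def SprStmt : Prop :=
  ∀ (C N N₀ : IntermediateField k L) (y u m η : L) (U Λ : Finset L) (c : L → L) (i : L → ℤ)
    (V : Subalgebra k L), N₀.FG → N = C ⊔ N₀ → Val V → Ax C N y U V u m η c i → Sees1 V U u i →
    (∀ z ∈ ({u, m / u, η} : Set L),
      z ∈ loc (icl N (cs C V ⊔ Algebra.adjoin k (crd y U Λ V))) V) →
    TD y U Λ (lr (cs C V) {u, m / u, η} V) →
    ∃ Γ E : Finset L, (∀ z ∈ Γ, z ∈ C ∧ z ≠ 0) ∧ (∀ x ∈ E, x ∈ V) ∧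
      ∀ (F : IntermediateField k L) (R W O : Subalgebra k L), F ≤ C → Nrm F R → Lcl R →
        (∀ z ∈ Γ, Dec R z) → Val W → (∀ x ∈ E, x ∈ W) → Dom R O → Top (F ⊔ N₀) R y U Λ W O →
        Rt O → Out Γ U y R O u m

end Pool.Agent.MP_19ffc6_ag.Perf.Ss

end MrgPart0

-- ======== part 1: formerly Pool.Agent.MP_19ffc6_ag.perf.SsSpr
section MrgPart1

/-! PERF, block SS, row SPR: spreading out from the valuation ring of `C` to a base point. -/

namespace Pool.Agent.MP_19ffc6_ag.Perf.Ss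

open Polynomial IntermediateField Pool.Agent.R72.Wild Pool.Agent.R72.Lci Pool.Agent.R72.Res
  Pool.Agent.R72.Res.B Filter

variable {k L : Type} [Field k] [Field L] [Algebra k L]

namespace Spr

/-- triples (base field, base point, valuation ring) that contain enough constants -/
def ev (C : IntermediateField k L) (V : Subalgebra k L) :
    Filter (IntermediateField k L × Subalgebra k L × Subalgebra k L) where
  sets := {s | ∃ Γ E : Finset L, (∀ z ∈ Γ, z ∈ C ∧ z ≠ 0) ∧ (∀ x ∈ E, x ∈ V) ∧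
    ∀ t : IntermediateField k L × Subalgebra k L × Subalgebra k L,
      (∀ z ∈ Γ, z ∈ t.1 ∧ (z ∈ t.2.2 → z ∈ t.2.1)) → (∀ x ∈ E, x ∈ t.2.2) → t ∈ s}
  univ_sets := ⟨∅, ∅, by simp, by simp, fun _ _ _ => trivial⟩
  sets_of_superset := by
    rintro s s' ⟨Γ, E, h1, h2, h3⟩ h
    exact ⟨Γ, E, h1, h2, fun t a b => h (h3 t a b)⟩
  inter_sets := by
    classical
    rintro s s' ⟨Γ, E, h1, h2, h3⟩ ⟨Γ', E', h1', h2', h3'⟩
    exact ⟨Γ ∪ Γ', E ∪ E', fun z hz => (Finset.mem_union.1 hz).elim (h1 z) (h1' z),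
      fun z hz => (Finset.mem_union.1 hz).elim (h2 z) (h2' z), fun t a b =>
      ⟨h3 t (fun z hz => a z (Finset.mem_union_left _ hz))
        fun z hz => b z (Finset.mem_union_left _ hz),
      h3' t (fun z hz => a z (Finset.mem_union_right _ hz))
        fun z hz => b z (Finset.mem_union_right _ hz)⟩⟩

variable {C : IntermediateField k L} {V : Subalgebra k L} {x : L} {S : Set L}

theorem ev_W (h : x ∈ V) : ∀ᶠ t in ev C V, x ∈ t.2.2 :=
  ⟨∅, {x}, by simp, by simpa using h, fun _ _ b => b x (Finset.mem_singleton_self x)⟩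

theorem ev_un (h : Un V x) : ∀ᶠ t in ev C V, Un t.2.2 x :=
  ((ev_W h.1).and (ev_W h.2.2)).mono fun _ ht => ⟨ht.1, h.2.1, ht.2⟩

theorem ev_F (h : x ∈ C) : ∀ᶠ t in ev C V, x ∈ t.1 ∧ (x ∈ t.2.2 → x ∈ t.2.1) := by
  rcases eq_or_ne x 0 with rfl | h0
  · exact .of_forall fun t => ⟨zero_mem _, fun _ => zero_mem _⟩
  · exact ⟨{x}, ∅, by simpa using ⟨h, h0⟩, by simp, fun _ a _ => a x (Finset.mem_singleton_self x)⟩

theorem ev_R (h : x ∈ cs C V) : ∀ᶠ t in ev C V, x ∈ t.2.1 :=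
  ((ev_F h.2).and (ev_W h.1)).mono fun _ ht => ht.1.2 ht.2

theorem ev_sup (h : x ∈ cs C V ⊔ Algebra.adjoin k S) :
    ∀ᶠ t in ev C V, x ∈ t.2.1 ⊔ Algebra.adjoin k S := by
  rw [← Algebra.adjoin_eq (cs C V), ← Algebra.adjoin_union] at h
  induction h using Algebra.adjoin_induction with
  | mem x hx =>
    rcases hx with hx | hx
    · exact (ev_R hx).mono fun t ht => Algebra.mem_sup_left ht
    · exact .of_forall fun t => Algebra.mem_sup_right (Algebra.subset_adjoin hx)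
  | algebraMap r => exact .of_forall fun t => algebraMap_mem _ r
  | add x y _ _ hx hy => exact (hx.and hy).mono fun t ht => add_mem ht.1 ht.2
  | mul x y _ _ hx hy => exact (hx.and hy).mono fun t ht => mul_mem ht.1 ht.2

theorem ev_lr (h : x ∈ lr (cs C V) S V) : ∀ᶠ t in ev C V, x ∈ lr t.2.1 S t.2.2 := by
  obtain ⟨a, ha, b, hb, hu, rfl⟩ := h
  filter_upwards [ev_sup ha, ev_sup hb, ev_un hu] with t h1 h2 h3 using ⟨a, h1, b, h2, h3, rfl⟩

theorem ev_fld {N : IntermediateField k L} (h : x ∈ C ⊔ N) : ∀ᶠ t in ev C V, x ∈ t.1 ⊔ N := by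
  rw [IntermediateField.sup_def] at h
  induction h using IntermediateField.adjoin_induction with
  | mem x hx =>
    rcases hx with hx | hx
    · exact (ev_F hx).mono fun t ht => (le_sup_left : t.1 ≤ t.1 ⊔ N) ht.1
    · exact .of_forall fun t => (le_sup_right : N ≤ t.1 ⊔ N) hx
  | algebraMap r => exact .of_forall fun t => IntermediateField.algebraMap_mem _ r
  | add x y _ _ hx hy => exact (hx.and hy).mono fun t ht => add_mem ht.1 ht.2
  | inv x _ hx => exact hx.mono fun t ht => inv_mem ht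
  | mul x y _ _ hx hy => exact (hx.and hy).mono fun t ht => mul_mem ht.1 ht.2

theorem ev_coeff {ι : Type} {f : Filter ι} {A : ι → Subalgebra k L} (P : L[X])
    (h : ∀ i, ∀ᶠ t in f, P.coeff i ∈ A t) : ∀ᶠ t in f, ∀ i, P.coeff i ∈ A t := by
  filter_upwards [(eventually_all_finset P.support).2 fun i _ => h i] with t ht i
  by_cases hi : i ∈ P.support
  · exact ht i hi
  · rw [notMem_support_iff.1 hi]
    exact zero_mem _

theorem isIntegral_iff {A : Subalgebra k L} : IsIntegral A x ↔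
    ∃ P : L[X], P.Monic ∧ (∀ i, P.coeff i ∈ A) ∧ P.eval x = 0 := by
  constructor
  · rintro ⟨p, hp, h⟩
    exact ⟨p.map (algebraMap A L), hp.map _, fun i => by rw [coeff_map]; exact (p.coeff i).2,
      by rwa [eval_map]⟩
  · rintro ⟨P, hP, h1, h2⟩
    obtain ⟨p, rfl, -, hp⟩ := lifts_and_degree_eq_and_monic (f := algebraMap A L)
      ((lifts_iff_coeff_lifts P).2 fun i => ⟨⟨_, h1 i⟩, rfl⟩) hP
    exact ⟨p, hp, by rwa [eval_map] at h2⟩

theorem ev_int (h : IsIntegral ↥(cs C V ⊔ Algebra.adjoin k S) x) :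
    ∀ᶠ t in ev C V, IsIntegral ↥(t.2.1 ⊔ Algebra.adjoin k S) x := by
  obtain ⟨P, h1, h2, h3⟩ := isIntegral_iff.1 h
  exact (ev_coeff P fun i => ev_sup (h2 i)).mono fun t ht => isIntegral_iff.2 ⟨P, h1, ht, h3⟩

theorem ev_std (h : Std (lr (cs C V) S V) V x) :
    ∀ᶠ t in ev C V, Std (lr t.2.1 S t.2.2) t.2.2 x := by
  obtain ⟨P, h1, h2, h3, h4⟩ := h
  filter_upwards [ev_coeff P fun i => ev_lr (h2 i), ev_un h4] with t a b using ⟨P, h1, a, h3, b⟩

theorem dec_mem {O W : Subalgebra k L} (hd : Dom O W) (h : Dec O x) (hx : x ∈ W) : x ∈ O := by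
  rcases eq_or_ne x 0 with rfl | h0
  · exact zero_mem _
  refine h.elim id fun h1 => ?_
  simpa using (hd.2 _ h1 ⟨hd.1 h1, inv_ne_zero h0, by simpa using hx⟩).2.2

theorem crd_finite (y : L) (U Λ : Finset L) (V : Subalgebra k L) : (crd y U Λ V).Finite := by
  refine (((U ×ˢ Λ).finite_toSet.image fun q => (y - q.1) / q.2).union
    ((U ×ˢ Λ).finite_toSet.image fun q => ((y - q.1) / q.2)⁻¹)).subset ?_
  rintro x ⟨-, s, hs, l, hl, h | h⟩
  · exact Or.inl ⟨(s, l), Finset.mem_coe.2 (Finset.mem_product.2 ⟨hs, hl⟩), h.symm⟩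
  · exact Or.inr ⟨(s, l), Finset.mem_coe.2 (Finset.mem_product.2 ⟨hs, hl⟩), h.symm⟩

theorem ev_top {N₀ : IntermediateField k L} {y : L} {U Λ : Finset L}
    (h : x ∈ loc (icl (C ⊔ N₀) (cs C V ⊔ Algebra.adjoin k (crd y U Λ V))) V) :
    ∀ᶠ t in ev C V, ∀ O, Top (t.1 ⊔ N₀) t.2.1 y U Λ t.2.2 O → x ∈ O := by
  obtain ⟨a, ha, b, hb, hu, rfl⟩ := h
  filter_upwards [ev_fld ha.1, ev_fld hb.1, ev_int (mem_icl.1 ha).2, ev_int (mem_icl.1 hb).2,
    ev_un hu, (eventually_all_finite (crd_finite y U Λ V)).2 fun z hz => ev_W hz.1]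
    with t a1 b1 a2 b2 h3 h4 O hO
  have h5 : t.2.1 ⊔ Algebra.adjoin k (crd y U Λ V) ≤ O := by
    refine sup_le hO.up.le (Algebra.adjoin_le fun z hz => dec_mem hO.up.dom ?_ (h4 z hz))
    obtain ⟨-, s, hs, l, hl, rfl | rfl⟩ := hz
    · exact hO.dec s hs l hl
    · exact (hO.dec s hs l hl).symm.imp id fun h => by rwa [inv_inv]
  rw [div_eq_mul_inv]
  exact mul_mem (hO.up.int a a1 (isIntegral_mono h5 a2))
    (hO.up.dom.2 b (hO.up.int b b1 (isIntegral_mono h5 b2)) h3).2.2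

theorem tr_le {F : IntermediateField k L} (h : F ≤ C) (hx : Transcendental C x) :
    Transcendental F x := fun ha =>
  hx (ha.ringHom_of_comp_eq (IntermediateField.inclusion h).toRingHom (RingHom.id L)
    (IntermediateField.inclusion h).injective rfl)

end Spr

open Spr in
theorem spr (hr : RelStmt k L) : SprStmt k L := by
  classical
  rintro C _ N₀ y u m η U Λ c i V ⟨T, hT⟩ rfl hV hA hS hz hD
  have u0 : u ≠ 0 := fun h => hA.tr (h ▸ isAlgebraic_zero)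
  have hm : m ∈ cs C V := ⟨by simpa [u0] using mul_mem hA.mV hA.uV, hA.mC⟩
  have e1 : ∀ᶠ t in ev C V, ∀ x ∈ T, x ∈ t.1 ⊔ k⟮u, η⟯ :=
    (eventually_all_finset T).2 fun x hx => ev_fld (hA.gen x ((le_sup_right : N₀ ≤ C ⊔ N₀)
      (hT ▸ IntermediateField.subset_adjoin k _ hx)))
  have e2 : ∀ᶠ t in ev C V, TD y U Λ (lr t.2.1 {u, m / u, η} t.2.2) :=
    (eventually_all_finset U).2 fun s hs => (eventually_all_finset Λ).2 fun l hl =>
      (hD s hs l hl).elim (fun h => (ev_lr h).mono fun _ => Or.inl)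
        fun h => (ev_lr h).mono fun _ => Or.inr
  have e3 : ∀ᶠ t in ev C V, ∀ s ∈ U,
      Un (lr t.2.1 {u, m / u, η} t.2.2) ((y - s) / (c s * u ^ i s)) :=
    (eventually_all_finset U).2 fun s hs =>
      ((ev_lr (hA.mon s hs).2.1).and (ev_lr (hA.mon s hs).2.2.2)).mono fun _ h =>
        ⟨h.1, (hA.mon s hs).2.2.1, h.2⟩
  have e4 : ∀ᶠ t in ev C V, Sees1 t.2.2 U u i :=
    hS.elim (fun h => (ev_un h).mono fun _ => Or.inl) fun h => .of_forall fun _ => Or.inr h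
  obtain ⟨Γ, E, h1, h2, h3⟩ := (((e1.and e2).and (e3.and e4)).and ((ev_R hm).and
    (ev_std hA.std))).and ((ev_top (hz u (by simp))).and ((ev_top (hz (m / u) (by simp))).and
      (ev_top (hz η (by simp)))))
  refine ⟨Γ ∪ (({m} : Finset L).filter (· ≠ 0) ∪ U.image c), E, fun z hz => ?_, h2, ?_⟩
  · rcases Finset.mem_union.1 hz with h | h
    · exact h1 z h
    rcases Finset.mem_union.1 h with h | h
    · obtain ⟨h4, h5⟩ := Finset.mem_filter.1 h
      exact ⟨Finset.mem_singleton.1 h4 ▸ hA.mC, h5⟩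
    · obtain ⟨s, hs, rfl⟩ := Finset.mem_image.1 h
      exact ⟨(hA.mon s hs).1, fun h0 => (hA.mon s hs).2.2.1 (by simp [h0])⟩
  intro F R W O hF hN hL hΓ hW hE hRO hT' hO
  obtain ⟨⟨⟨⟨a1, a2⟩, a3, a4⟩, a5, a6⟩, a7, a8, a9⟩ := h3 (F, R, W) (fun z hz => by
    have h4 := hΓ z (Finset.mem_union_left _ hz)
    exact ⟨h4.elim (hN.le z) fun h => by simpa using inv_mem (hN.le _ h),
      dec_mem (Dom.trans hRO hT'.up.dom) h4⟩) hE
  have b1 : F ⊔ N₀ ≤ F ⊔ k⟮u, η⟯ :=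
    sup_le le_sup_left (hT ▸ IntermediateField.adjoin_le_iff.2 fun x hx => a1 x hx)
  obtain ⟨r1, r2⟩ := hr F (F ⊔ N₀) R W O U Λ y u m η hN hL hRO hW hT' hO le_sup_left
    (tr_le hF hA.tr) a5 (a7 O hT') (a8 O hT') (a9 O hT') a6 (fun x hx => b1 hx) a2
  refine ⟨u0, a7 O hT', a8 O hT', a5, ?_, r2, c, i, fun s hs => ⟨?_, r1 ▸ a3 s hs⟩, ?_⟩
  · exact (eq_or_ne m 0).imp id fun h => by simp [h]
  · exact Finset.mem_union_right _ (Finset.mem_union_right _ (Finset.mem_image_of_mem c hs))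
  · exact a4.imp (hT'.up.dom.2 u (a7 O hT')) id

end Pool.Agent.MP_19ffc6_ag.Perf.Ss

end MrgPart1

-- marker of a merged file
example : 731051 + 856343 = 731051 + 856343 := rfl
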