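import Pool.Agent.MP_19ffc6_ag.perf.HrFin
import Pool.Agent.MP_19ffc6_ag.perf.SsSpr

/-! Henselian rationality with the local ring and the values. -/

namespace Pool.Agent.MP_19ffc6_ag.Perf.Hr

open Polynomial IntermediateField Pool.Agent.R72.Wild Pool.Agent.R72.Lci Pool.Agent.R72.Res
  Pool.Agent.R72.Res.B

variable {k L : Type} [Field k] [Field L] [Algebra k L]

theorem hr2_of (p : ℕ) [Fact p.Prime] [CharP k p] [IsAlgClosed k] [IsAlgClosed L]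
    (ht : ∀ (C : Type) [Field C] [Algebra C L] [IsAlgClosed C] [CharP C p] (Γ : Type)
      [LinearOrderedCommGroupWithZero Γ] (v : Valuation L Γ), Ctx C v → TowStmt C v ∧ EtvStmt C v) :
    Ss.HR2Stmt k L := by
  intro C y N V hC hy _ _ hV hR
  have := FinH.closed C hC
  have : CharP C p := charP_of_injective_algebraMap (algebraMap k C).injective p
  obtain ⟨h1, h2⟩ := ht C _ hV.vs.valuation (FinH.ctx C hV.vs V.algebraMap_mem hR)
  let _ : Algebra C ↥(C ⊔ k⟮y⟯) := (inclusion (le_sup_left : C ≤ C ⊔ k⟮y⟯)).toAlgebra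
  have : IsScalarTower C ↥(C ⊔ k⟮y⟯) L := IsScalarTower.of_algebraMap_eq fun _ => rfl
  let ψ : ↥(C ⊔ k⟮y⟯) →ₐ[C] L := IsScalarTower.toAlgHom C _ L
  let φ : N →ₐ[C] L := N.val.restrictScalars C
  let y' : ↥(C ⊔ k⟮y⟯) := ⟨y, (le_sup_right : k⟮y⟯ ≤ C ⊔ k⟮y⟯) (mem_adjoin_simple_self k y)⟩
  obtain ⟨u, hu, -⟩ := h1 ↥(C ⊔ k⟮y⟯) N φ y' (fun h => hy (h.algHom ψ))
    (FinH.adjoin_eq_top C ψ y' fun x => x.2)
  obtain ⟨η, P, hP⟩ := h2 N φ u hu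
  have e : ∀ Q : N[X], (Q.map (φ : N →+* L)).eval (φ η) = φ (Q.eval η) := fun Q =>
    eval_map_apply _ _
  have m1 : ∀ x ∈ C⟮u⟯, φ x ∈ C ⊔ k⟮φ u⟯ := fun x hx => by
    have := FinH.map_mem C φ hx
    rwa [Set.image_singleton] at this
  have m2 : ∀ Q : N[X], In C (vm hV.vs.valuation φ) u Q → ∀ i,
      (Q.map (φ : N →+* L)).coeff i ∈ Ss.cs (C ⊔ k⟮φ u⟯) V := fun Q hQ i => by
    rw [coeff_map]
    exact ⟨(hV.vs.valuation_le_one_iff _).1 (hQ i).2, m1 _ (hQ i).1⟩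
  have m3 : ∀ Q : N[X], In C (vm hV.vs.valuation φ) u Q →
      φ (Q.eval η) ∈ Ss.cs (C ⊔ k⟮φ u⟯) V ⊔ Algebra.adjoin k {φ η} := fun Q hQ => by
    rw [← e, eval_eq_sum_range]
    exact sum_mem fun i _ => mul_mem ((le_sup_left : Ss.cs _ V ≤ _) (m2 Q hQ i))
      (pow_mem ((le_sup_right : Algebra.adjoin k {φ η} ≤ _) (Algebra.subset_adjoin rfl)) i)
  refine ⟨φ u, φ η, u.2, η.2,
    fun h => hu.fn.tr ((isAlgebraic_algHom_iff φ φ.injective).1 h),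
    ⟨P.map (φ : N →+* L), hP.monic.map _, m2 P hP.coe, by rw [e, hP.root, map_zero],
      (FinH.unit_iff hV.vs _).1 (by rw [derivative_map, e]; exact hP.der)⟩,
    fun x hx => ?_, fun x hx hx' => ?_, fun x hx h0 => ?_⟩
  · have := FinH.map_mem C φ (hP.gen ⟨x, hx⟩)
    rwa [Set.image_pair] at this
  · obtain ⟨f, g, hf, hg, k1, k2⟩ := hP.loc ⟨x, hx⟩ ((hV.vs.valuation_le_one_iff _).2 hx')
    have k3 : Un V (φ (g.eval η)) := (FinH.unit_iff hV.vs _).1 k1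
    refine ⟨_, m3 f hf, _, m3 g hg, k3, ?_⟩
    rw [eq_div_iff k3.2.1, ← k2, map_mul]
    rfl
  · obtain ⟨a, ha, k1⟩ := hP.imm ⟨x, hx⟩
    refine ⟨φ a, m1 a ha, (FinH.unit_iff hV.vs _).1 ?_⟩
    rw [map_div₀]
    exact (div_eq_one_iff_eq fun h => h0 ((map_eq_zero hV.vs.valuation).1 (k1.trans h))).2 k1

end Pool.Agent.MP_19ffc6_ag.Perf.Hr
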