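import Pool.Agent.MP_19ffc6_ag.perf.SsSpr

/-! PROJECT PERF, block SS, row COMP: compactness of the space of valuation rings, tested on the
valuation rings with residue field `k`. -/

namespace Pool.Agent.MP_19ffc6_ag.Perf.Ss

open Polynomial IntermediateField Pool.Agent.R72.Wild Pool.Agent.R72.Lci Pool.Agent.R72.Res
  Pool.Agent.R72.Res.B Filter

variable {k L : Type} [Field k] [Field L] [Algebra k L]

namespace Comp

/-- The elements of `D` up to elements of value less than one. -/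
def thick (v : ValuationSubring L) (D : Subalgebra k L) (hD : ∀ d ∈ D, v.valuation d ≤ 1) :
    Subring L where
  carrier := {y | ∃ d ∈ D, v.valuation (y - d) < 1}
  one_mem' := ⟨1, one_mem _, by simp⟩
  zero_mem' := ⟨0, zero_mem _, by simp⟩
  add_mem' := by
    rintro y y' ⟨d, hd, h⟩ ⟨d', hd', h'⟩
    refine ⟨d + d', add_mem hd hd', ?_⟩
    rw [add_sub_add_comm]
    exact v.valuation.map_add_lt h h'
  neg_mem' := by
    rintro y ⟨d, hd, h⟩
    refine ⟨-d, neg_mem hd, ?_⟩
    rwa [← neg_sub', Valuation.map_neg]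
  mul_mem' := by
    rintro y y' ⟨d, hd, h⟩ ⟨d', hd', h'⟩
    refine ⟨d * d', mul_mem hd hd', ?_⟩
    have e : y * y' - d * d' = (y - d) * (y' - d') + (d * (y' - d') + d' * (y - d)) := by ring
    rw [e]
    refine v.valuation.map_add_lt ?_ (v.valuation.map_add_lt ?_ ?_) <;> rw [map_mul]
    · exact mul_lt_one_of_nonneg_of_lt_one_left zero_le h h'.le
    · exact mul_lt_one_of_nonneg_of_lt_one_right (hD d hd) zero_le h'
    · exact mul_lt_one_of_nonneg_of_lt_one_right (hD d' hd') zero_le h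

/-- A smaller valuation ring in which `x` is congruent to a constant. -/
lemma step [IsAlgClosed k] {V : Subalgebra k L} (hV : Val V) (A : Finset L) (hA : ∀ a ∈ A, a ∈ V)
    {x : L} (hx : x ∈ V) : ∃ V' : Subalgebra k L, Val V' ∧ V' ≤ V ∧ (∀ a ∈ A, a ∈ V') ∧
      ∃ c : k, ¬ Un V' (x - algebraMap k L c) := by
  classical
  let v := hV.vs
  let D : Subalgebra k L := Algebra.adjoin k (insert x A : Finset L)
  have hDV : D ≤ V := Algebra.adjoin_le fun y hy => by
    rcases Finset.mem_insert.1 (Finset.mem_coe.1 hy) with rfl | h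
    exacts [hx, hA y h]
  have hD : ∀ d ∈ D, v.valuation d ≤ 1 := fun d hd => v.valuation_le_one_iff d |>.2 (hDV hd)
  have : Algebra.FiniteType k D := (Subalgebra.fg_iff_finiteType D).1 ⟨_, rfl⟩
  let p : Ideal D :=
    { carrier := {d | v.valuation (d : L) < 1}
      zero_mem' := by simp
      add_mem' := fun h h' => v.valuation.map_add_lt h h'
      smul_mem' := fun r d h => by
        change v.valuation ((r : L) * d) < 1
        rw [map_mul]
        exact mul_lt_one_of_nonneg_of_lt_one_right (hD _ r.2) zero_le h }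
  obtain ⟨n, hn, hpn⟩ := p.exists_le_maximal (p.ne_top_iff_one.2 fun h => by
    change v.valuation ((1 : D) : L) < 1 at h
    simp at h)
  let := Ideal.Quotient.field n
  have : Module.Finite k (D ⧸ n) := finite_of_finite_type_of_isJacobsonRing k (D ⧸ n)
  have hxD : x ∈ D := Algebra.subset_adjoin (by simp)
  obtain ⟨c, hc⟩ := (IsAlgClosed.algebraMap_bijective_of_isIntegral (k := k) (K := D ⧸ n)).2
    (Ideal.Quotient.mk n ⟨x, hxD⟩)
  have hc' : (⟨x, hxD⟩ - algebraMap k D c : D) ∈ n := Ideal.Quotient.eq.1 hc.symm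
  let I : Ideal (thick v D hD) :=
    { carrier := {y | ∃ d ∈ n, v.valuation ((y : L) - (d : L)) < 1}
      zero_mem' := ⟨0, zero_mem _, by simp⟩
      add_mem' := by
        rintro y y' ⟨d, hd, h⟩ ⟨d', hd', h'⟩
        refine ⟨d + d', add_mem hd hd', ?_⟩
        push_cast
        rw [add_sub_add_comm]
        exact v.valuation.map_add_lt h h'
      smul_mem' := by
        rintro ⟨y, d, hd, h⟩ y' ⟨d', hd', h'⟩
        refine ⟨⟨d, hd⟩ * d', n.mul_mem_left _ hd', ?_⟩
        change v.valuation (y * y' - d * d') < 1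
        have e : y * y' - d * d' = (y - d) * (y' - d') + (d * (y' - d') + d' * (y - d)) := by ring
        rw [e]
        refine v.valuation.map_add_lt ?_ (v.valuation.map_add_lt ?_ ?_) <;> rw [map_mul]
        · exact mul_lt_one_of_nonneg_of_lt_one_left zero_le h h'.le
        · exact mul_lt_one_of_nonneg_of_lt_one_right (hD d hd) zero_le h'
        · exact mul_lt_one_of_nonneg_of_lt_one_right (hD _ d'.2) zero_le h }
  obtain ⟨B, hB, hI⟩ := I.image_subset_nonunits_valuationSubring (I.ne_top_iff_one.2 (by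
    rintro ⟨d, hd, h⟩
    have h1 : 1 - d ∈ n := hpn h
    exact n.ne_top_iff_one.1 hn.ne_top (by simpa using n.add_mem h1 hd)))
  have hDB : ∀ d ∈ D, d ∈ B := fun d hd => hB (⟨d, hd, by simp⟩ : d ∈ thick v D hD)
  refine ⟨ofVs B fun c => hDB _ (D.algebraMap_mem c), val_ofVs _ _, fun z hz => ?_,
    fun a ha => hDB a (Algebra.subset_adjoin (by simp [ha])), c, fun hu => ?_⟩
  · by_contra hzV
    have h0 : z ≠ 0 := fun h => hzV (h ▸ zero_mem _)
    have h1 : v.valuation z⁻¹ < 1 :=
      (v.inv_mem_nonunits_iff.2 (Or.inr hzV))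
    have h2 := hI ⟨⟨z⁻¹, 0, zero_mem _, by simpa using h1⟩, ⟨0, zero_mem _, by simpa using h1⟩, rfl⟩
    exact (B.inv_mem_nonunits_iff.1 h2).elim h0 fun h => h hz
  · have h2 := hI ⟨⟨x - algebraMap k L c, _, sub_mem hxD (D.algebraMap_mem c), by simp⟩,
      ⟨_, hc', by simp⟩, rfl⟩
    have h3 : (x - algebraMap k L c)⁻¹⁻¹ ∈ B.nonunits := by rw [inv_inv]; exact h2
    exact (B.inv_mem_nonunits_iff.1 h3).elim (inv_ne_zero hu.2.1) fun h => h hu.2.2

/-- Below every valuation ring there is one with residue field `k`. -/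
lemma exists_rt [IsAlgClosed k] {W : Subalgebra k L} (hW : Val W) (A : Finset L)
    (hA : ∀ a ∈ A, a ∈ W) :
    ∃ V : Subalgebra k L, Val V ∧ Rt V ∧ V ≤ W ∧ ∀ a ∈ A, a ∈ V := by
  obtain ⟨V, hVW, hV⟩ := zorn_le_nonempty₀ (α := (Subalgebra k L)ᵒᵈ)
    {V : Subalgebra k L | Val V ∧ ∀ a ∈ A, a ∈ V} (fun c hc hch y hy => by
      refine ⟨sInf (α := Subalgebra k L) c, ⟨fun x => ?_, fun a ha =>
        Algebra.mem_sInf.2 fun B hB => (hc hB).2 a ha⟩,
        fun z hz => sInf_le (α := Subalgebra k L) hz⟩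
      by_contra h
      simp only [Algebra.mem_sInf, not_or, not_forall] at h
      obtain ⟨⟨B, hB, h1⟩, B', hB', h2⟩ := h
      rcases hch.total hB hB' with h | h
      · exact h1 (h (((hc hB').1 x).resolve_right h2))
      · exact h2 (h (((hc hB).1 x).resolve_left h1))) W ⟨hW, hA⟩
  refine ⟨V, hV.prop.1, fun x hx => ?_, hVW, hV.prop.2⟩
  obtain ⟨V', h1, h2, h3, c, hc⟩ := step hV.prop.1 A hV.prop.2 hx
  exact ⟨c, fun hu => hc (hu.mono (hV.2 ⟨h1, h3⟩ h2))⟩

end Comp

theorem comp [IsAlgClosed k] : CompStmt k L := by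
  intro ι p A h
  by_contra hc
  push Not at hc
  choose W hW hA hp using hc
  let 𝒰 : Ultrafilter (Finset ι) := Ultrafilter.of atTop
  let V₀ : Subalgebra k L :=
    { carrier := {x | ∀ᶠ I in 𝒰, x ∈ W I}
      mul_mem' := fun ha hb => (Eventually.and ha hb).mono fun _ h => mul_mem h.1 h.2
      add_mem' := fun ha hb => (Eventually.and ha hb).mono fun _ h => add_mem h.1 h.2
      algebraMap_mem' := fun c => Eventually.of_forall fun I => (W I).algebraMap_mem c }
  obtain ⟨V, h1, h2, h3, h4⟩ := Comp.exists_rt (W := V₀)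
    (fun x => Ultrafilter.eventually_or.1 (.of_forall fun I => hW I x)) A
    fun a ha => .of_forall fun I => hA I a ha
  obtain ⟨j, E, h5, h6⟩ := h V h1 h2 h4
  have h7 : ∀ᶠ I in 𝒰, ∀ x ∈ E, x ∈ W I := (eventually_all_finset E).2 fun x hx => h3 (h5 x hx)
  have h8 : ∀ᶠ I : Finset ι in 𝒰, j ∈ I := Ultrafilter.of_le _
    ((eventually_ge_atTop ({j} : Finset ι)).mono fun I hI => hI (Finset.mem_singleton_self j))
  obtain ⟨I, h9, h10⟩ := (h7.and h8).exists
  exact hp I j h10 (h6 _ (hW I) h9)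

end Pool.Agent.MP_19ffc6_ag.Perf.Ss
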