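import Pool.Agent.MP_19ffc6_ag.perf.SsSpr

-- ======== part 0: formerly Pool.Agent.MP_19ffc6_ag.perf.SsAnn
section MrgPart0

/-! PROJECT PERF, block SS, row ANN: disc charts inside a chart, annuli away from the branching
radii, and the remaining levels of the tree. -/

namespace Pool.Agent.MP_19ffc6_ag.Perf.Ss

open Polynomial IntermediateField Pool.Agent.R72.Wild Pool.Agent.R72.Lci Pool.Agent.R72.Res
  Pool.Agent.R72.Res.B

variable {k L : Type} [Field k] [Field L] [Algebra k L]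

namespace Ann

variable {C N : IntermediateField k L} {R R' A A' V O B : Subalgebra k L} {S S' : Set L}
  {x z : L}

lemma le_lr : R ≤ lr R S V := le_sup_left.trans (le_loc _ _)

lemma mem_lr (h : x ∈ S) : x ∈ lr R S V :=
  le_loc _ _ ((le_sup_right : _ ≤ R ⊔ Algebra.adjoin k S) (Algebra.subset_adjoin h))

lemma un_lr (h : x ∈ lr R S V) (hu : Un V x) : Un (lr R S V) x := ⟨h, hu.2.1, inv_mem_loc h hu⟩

lemma sup_le' (h : R ≤ O) (hS : ∀ x ∈ S, x ∈ O) : R ⊔ Algebra.adjoin k S ≤ O :=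
  sup_le h (Algebra.adjoin_le hS)

lemma lr_le_lr (h : ∀ x ∈ S, x ∈ lr R S' V) (hR : R ≤ V) (hS : ∀ x ∈ S', x ∈ V) :
    lr R S V ≤ lr R S' V := loc_le_loc (sup_le' le_lr h) (sup_le' hR hS)

lemma lr_le_dom (hd : Dom O V) (h : R ≤ O) (hS : ∀ x ∈ S, x ∈ O) : lr R S V ≤ O := by
  rintro _ ⟨a, ha, b, hb, hu, rfl⟩
  rw [div_eq_mul_inv]
  exact mul_mem (sup_le' h hS ha) (hd.2 b (sup_le' h hS hb) hu).2.2

lemma cs_le : cs C V ≤ V := inf_le_left

lemma std_mono {η : L} (h : Std A V η) (hA : A ≤ A') : Std A' V η :=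
  let ⟨P, h1, h2, h3⟩ := h; ⟨P, h1, fun i => hA (h2 i), h3⟩

lemma std_mem {η : L} (hV : Val V) (hA : A ≤ V) (h : Std A V η) : η ∈ V := by
  obtain ⟨P, h1, h2, h3, -⟩ := h
  refine hV.mem_of_isIntegral le_rfl ?_
  obtain ⟨Q, hQ, -, hm⟩ := lifts_and_natDegree_eq_and_monic (f := algebraMap V L) (p := P)
    ((lifts_iff_coeff_lifts P).2 fun i => ⟨⟨_, hA (h2 i)⟩, rfl⟩) h1
  exact ⟨Q, hm, by rw [← eval_map, hQ, h3]⟩

lemma dec_inv (h : Dec O x) : Dec O x⁻¹ := by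
  rw [Dec, inv_inv]; exact h.symm

lemma dec_mul (hu : Un O z) (h : Dec O x) : Dec O (z * x) :=
  h.imp (mul_mem hu.1) fun h => by rw [mul_inv]; exact mul_mem hu.2.2 h

lemma dec_zpow (h : Dec O x) (e : ℤ) : Dec O (x ^ e) := by
  have key : ∀ n : ℕ, Dec O (x ^ n) := fun n =>
    h.imp (pow_mem · n) fun h => by rw [← inv_pow]; exact pow_mem h n
  obtain ⟨n, rfl | rfl⟩ := e.eq_nat_or_neg
  · rw [zpow_natCast]; exact key n
  · rw [zpow_neg, zpow_natCast]; exact dec_inv (key n)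

lemma dec_cs (hV : Val V) (hx : x ∈ C) (hB : cs C V ≤ B) : Dec B x :=
  (hV x).imp (fun h => hB ⟨h, hx⟩) fun h => hB ⟨h, C.inv_mem hx⟩

lemma dec_of_zpow (hi : ∀ x ∈ N, IsIntegral O x → x ∈ O) (hx : x ∈ N) {e : ℤ} (he : e ≠ 0)
    (h : Dec O (x ^ e)) : Dec O x := by
  have key : ∀ n : ℕ, n ≠ 0 → Dec O (x ^ n) → Dec O x := fun n hn h =>
    h.imp (fun h => hi x hx ((isIntegral_of_mem h).of_pow (Nat.pos_of_ne_zero hn))) fun h =>
      hi _ (N.inv_mem hx) (IsIntegral.of_pow (Nat.pos_of_ne_zero hn)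
        (isIntegral_of_mem (by rwa [inv_pow])))
  obtain ⟨n, rfl | rfl⟩ := e.eq_nat_or_neg
  · rw [zpow_natCast] at h
    exact key n (by simpa using he) h
  · rw [zpow_neg, zpow_natCast] at h
    exact key n (by simpa using he) (by simpa using dec_inv h)

lemma un_of_zpow (hV : Val V) {e : ℤ} (he : e ≠ 0) (h : Un V (x ^ e)) : Un V x := by
  have key0 : ∀ (x : L) (n : ℕ), n ≠ 0 → x ^ n ∈ V → x ∈ V := fun x n hn h =>
    hV.mem_of_isIntegral le_rfl ((isIntegral_of_mem h).of_pow (Nat.pos_of_ne_zero hn))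
  have key : ∀ n : ℕ, n ≠ 0 → Un V (x ^ n) → Un V x := fun n hn h =>
    ⟨key0 x n hn h.1, fun h0 => h.2.1 (by rw [h0, zero_pow hn]),
      key0 _ n hn (by rw [inv_pow]; exact h.2.2)⟩
  obtain ⟨n, rfl | rfl⟩ := e.eq_nat_or_neg
  · rw [zpow_natCast] at h
    exact key n (by simpa using he) h
  · rw [zpow_neg, zpow_natCast] at h
    exact key n (by simpa using he) (by simpa using h.inv)

lemma root [IsAlgClosed L] (hC : AC C) (hx : x ∈ C) {e : ℤ} (he : e ≠ 0) :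
    ∃ μ ∈ C, μ ^ e = x := by
  have key : ∀ n : ℕ, n ≠ 0 → ∃ μ ∈ C, μ ^ n = x := fun n hn => by
    obtain ⟨μ, hμ⟩ := IsAlgClosed.exists_pow_nat_eq x (Nat.pos_of_ne_zero hn)
    refine ⟨μ, hC μ (IsIntegral.of_pow (Nat.pos_of_ne_zero hn) ?_).isAlgebraic, hμ⟩
    rw [hμ]
    exact isIntegral_algebraMap (R := C) (x := (⟨x, hx⟩ : C))
  obtain ⟨n, rfl | rfl⟩ := e.eq_nat_or_neg
  · simpa using key n (by simpa using he)
  · obtain ⟨μ, h1, h2⟩ := key n (by simpa using he)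
    exact ⟨μ⁻¹, C.inv_mem h1, by simpa using h2⟩

lemma reg (hV : Val V) (hB : cs C V ≤ B) {y s c : L} (hs : s ∈ C) (hc : c ∈ C) (h0 : c ≠ 0)
    (h : (y - s) / c ∈ B) : ∃ c ∈ C, c ≠ 0 ∧ y / c ∈ B := by
  by_cases h1 : s / c ∈ V
  · refine ⟨c, hc, h0, ?_⟩
    rw [show y / c = (y - s) / c + s / c by ring]
    exact add_mem h (hB ⟨h1, C.div_mem hs hc⟩)
  · have hs0 : s ≠ 0 := fun e => h1 (by rw [e, zero_div]; exact zero_mem _)
    refine ⟨s, hs, hs0, ?_⟩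
    rw [show y / s = 1 + (s / c)⁻¹ * ((y - s) / c) by field_simp; ring]
    exact add_mem (one_mem _)
      (mul_mem (hB ⟨(hV _).resolve_left h1, C.inv_mem (C.div_mem hs hc)⟩) h)

variable {y u m η : L} {U : Finset L} {c : L → L} {i : L → ℤ}

lemma ax_eV (hV : Val V) (h : Ax C N y U V u m η c i) : η ∈ V :=
  std_mem hV (loc_le (sup_le' cs_le (by simp [h.uV, h.mV]))) h.std

lemma ax_lcl (hV : Val V) (h : Ax C N y U V u m η c i) : Lcl (lr (cs C V) {u, m / u, η} V) :=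
  (isPoint_loc (sup_le' cs_le (by simp [h.uV, h.mV, ax_eV hV h])) hV.lcl).lcl

lemma ax_le (hV : Val V) (h : Ax C N y U V u m η c i) : lr (cs C V) {u, m / u, η} V ≤ V :=
  loc_le (sup_le' cs_le (by simp [h.uV, h.mV, ax_eV hV h]))

lemma ne_of_un {a b : L} (h : Un O (a / b)) : a ≠ 0 ∧ b ≠ 0 := div_ne_zero_iff.1 h.2.1

/-- the level `μ` of a radius `l` -/
lemma level {a l μ c u : L} {e : ℤ} (hc : c * u ^ e ≠ 0) (hl : l ≠ 0) (hμ : μ ^ e = l / c) :
    a / l = a / (c * u ^ e) * (u / μ) ^ e := by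
  have h1 := left_ne_zero_of_mul hc
  have h2 := right_ne_zero_of_mul hc
  rw [div_zpow, hμ]
  field_simp

lemma dec_level (hO : Up N R V O) {a l μ c u : L} {e : ℤ} (he : e ≠ 0) (hl : l ≠ 0)
    (hμ : μ ^ e = l / c) (hN : u / μ ∈ N) (hu : Un O (a / (c * u ^ e))) (h : Dec O (a / l)) :
    μ ≠ 0 ∧ Dec O (u / μ) := by
  have hc := (ne_of_un hu).2
  refine ⟨fun h0 => div_ne_zero hl (left_ne_zero_of_mul hc) (by rw [← hμ, h0, zero_zpow e he]),
    dec_of_zpow hO.int hN he ?_⟩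
  have := dec_mul hu.inv h
  rwa [level hc hl hμ, inv_mul_cancel_left₀ hu.2.1] at this

end Ann

open Ann

theorem dsc : DscStmt k L := by
  intro C N y t m η s₀ c i V hCN hV hs h
  obtain ⟨hc, hu⟩ := h.mon s₀ (Finset.mem_singleton_self _)
  have hη := ax_eV hV h
  refine ⟨fun hi hm => ?_, fun ρ hρ ht => ?_⟩
  · subst hm
    rw [hi, zpow_zero, mul_one] at hu
    refine ⟨h.tr, h.uN, h.eN, h.gen, h.uV, std_mono h.std (lr_le_lr ?_ cs_le ?_),
      reg hV le_lr hs hc (ne_of_un hu).2 (lr_le_lr ?_ cs_le ?_ hu.1)⟩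
    · simp [mem_lr]
    · simp [h.uV]
    · simp [mem_lr]
    · simp [h.uV, hη]
  · obtain ⟨ht0, hρ0⟩ := ne_of_un ht
    have key : ∀ S : Set L, t / ρ ∈ S → t ∈ lr (cs C V) S V ∧ m / t ∈ lr (cs C V) S V := by
      intro S hS
      have h1 : ρ ∈ V := by
        rw [show ρ = t * (t / ρ)⁻¹ by field_simp]
        exact mul_mem h.uV ht.2.2
      have h2 : m / ρ ∈ V := by
        rw [show m / ρ = m / t * (t / ρ) by field_simp]
        exact mul_mem h.mV ht.1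
      have h3 : Un (lr (cs C V) S V) (t / ρ) := un_lr (mem_lr hS) ht
      constructor
      · rw [show t = ρ * (t / ρ) by field_simp]
        exact mul_mem (le_lr ⟨h1, hρ⟩) h3.1
      · rw [show m / t = m / ρ * (t / ρ)⁻¹ by field_simp]
        exact mul_mem (le_lr ⟨h2, C.div_mem h.mC hρ⟩) h3.2.2
    have hle : lr (cs C V) {t, m / t, η} V ≤ lr (cs C V) {t / ρ, η} V :=
      lr_le_lr (by simp [key, mem_lr]) cs_le (by simp [ht.1, hη])
    refine ⟨fun ha => h.tr ?_, N.div_mem h.uN (hCN hρ), h.eN, fun x hx => ?_, ht.1,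
      std_mono h.std (lr_le_lr (by simp [key]) cs_le (by simp [ht.1])),
      reg hV le_lr hs (C.mul_mem hc (zpow_mem hρ (i s₀)))
        (mul_ne_zero (left_ne_zero_of_mul (ne_of_un hu).2) (zpow_ne_zero _ hρ0)) ?_⟩
    · rw [show t = ρ * (t / ρ) by field_simp]
      exact (isAlgebraic_algebraMap (⟨ρ, hρ⟩ : C)).mul ha
    · refine (sup_le le_sup_left (adjoin_le_iff.2 ?_) : C ⊔ k⟮t, η⟯ ≤ _) (h.gen x hx)
      have h1 : ∀ z ∈ ({t / ρ, η} : Set L), z ∈ C ⊔ k⟮t / ρ, η⟯ := fun z hz =>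
        (le_sup_right : _ ≤ C ⊔ k⟮t / ρ, η⟯) (subset_adjoin _ _ hz)
      rintro z (rfl | rfl)
      · rw [show z = ρ * (z / ρ) by field_simp]
        exact mul_mem ((le_sup_left : C ≤ _) hρ) (by
          convert h1 (z / ρ) (by simp) using 1; field_simp)
      · exact h1 _ (by simp)
    · have hc0 := left_ne_zero_of_mul (ne_of_un hu).2
      rw [level (μ := ρ) (ne_of_un hu).2 (mul_ne_zero hc0 (zpow_ne_zero _ hρ0))
        (mul_div_cancel_left₀ _ hc0).symm]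
      exact mul_mem (hle hu.1) (un_zpow (un_lr (mem_lr (by simp)) ht) _).1

theorem ann (hr : RefStmt k L) : AnnStmt k L := by
  classical
  intro C N y t m η s₀ c ρ i U V O hCN hV h he hs₀ hU hρ hO ht hm hη
  obtain ⟨hc, hu⟩ := h.mon s₀ (Finset.mem_singleton_self _)
  have hle : lr (cs C V) {t, m / t, η} V ≤ O := lr_le_dom hO.dom hO.le (by simp [ht, hm, hη])
  obtain ⟨ν, m', -, -, h', h1, h2, -, h3, h4⟩ := hr C N y t m η {s₀} ((U.erase s₀).image ρ) c i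
    V O hCN hV h hO.le hO.dom ht hm (by
      intro μ hμ
      obtain ⟨s, hs, rfl⟩ := Finset.mem_image.1 hμ
      obtain ⟨hne, hs⟩ := Finset.mem_erase.1 hs
      obtain ⟨a1, a2, -, a4⟩ := hρ s hs hne
      exact ⟨a1, dec_level hO he (sub_ne_zero.2 hne) a2 (N.div_mem h.uN (hCN a1))
        (hu.mono hle) a4⟩)
  obtain ⟨hc', hu'⟩ := h'.mon s₀ (Finset.mem_singleton_self _)
  have hl := ax_lcl hV h'
  have hBV := ax_le hV h'
  set B := lr (cs C V) {t / ν, m' / (t / ν), η} V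
  have key : ∀ s ∈ U, ∃ (c' : L) (j : ℕ), (s = s₀ → j = 1) ∧ c' ∈ C ∧
      Un B ((y - s) / (c' * (t / ν) ^ (j * i s₀))) := by
    intro s hs
    by_cases hne : s = s₀
    · exact ⟨_, 1, fun _ => rfl, hc', by rw [hne, Nat.cast_one, one_mul]; exact hu'⟩
    obtain ⟨a1, a2, a3, -⟩ := hρ s hs hne
    have h0 : s - s₀ ≠ 0 := sub_ne_zero.2 hne
    have hq := level (a := y - s₀) (ne_of_un hu).2 h0 a2
    have hd : Dec B ((y - s₀) / (s - s₀)) := by
      rw [hq]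
      exact dec_mul (hu.mono h3) (dec_zpow (h4 _ (Finset.mem_image_of_mem ρ
        (Finset.mem_erase.2 ⟨hne, hs⟩))) _)
    have hn : ¬ Un B ((y - s₀) / (s - s₀)) := fun hq' => a3 (un_of_zpow hV he (by
      have := ((hu.mono h3).inv.mul hq').mono hBV
      rwa [hq, inv_mul_cancel_left₀ hu.2.1] at this))
    have hone : ∀ q ∈ B, ¬ Un B q → Un B (1 - q) := fun q h1 h2 =>
      (hl q h1 _ (sub_mem (one_mem _) h1) (by simpa using Un.one B)).resolve_left h2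
    rcases hd with hd | hd
    · refine ⟨s₀ - s, 0, fun e => absurd e hne, C.sub_mem (hU _ hs₀) (hU _ hs), ?_⟩
      convert hone _ hd hn using 1
      have : s₀ - s ≠ 0 := sub_ne_zero.2 (Ne.symm hne)
      simp only [Nat.cast_zero, zero_mul, zpow_zero, mul_one]
      field_simp
      ring
    · refine ⟨_, 1, fun _ => rfl, hc', ?_⟩
      convert hu'.mul (hone _ hd fun h => hn (by simpa using h.inv)) using 1
      have := (ne_of_un hu).1
      rw [Nat.cast_one, one_mul, inv_div, div_mul_eq_mul_div]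
      congr 1
      field_simp
      ring
  choose! c' j k1 k2 k3 using key
  refine ⟨t / ν, m', c', fun s => j s * i s₀, ⟨h'.mC, h'.tr, h'.uN, h'.eN, h'.gen, h'.uV, h'.mV,
    h'.std, fun s hs => ⟨k2 s hs, k3 s hs⟩⟩, .inr ?_, h1, h2⟩
  rw [← Finset.sum_mul, ← Nat.cast_sum]
  refine mul_ne_zero (Nat.cast_ne_zero.2 fun h0 => ?_) he
  have := Finset.sum_eq_zero_iff.1 h0 s₀ hs₀
  rw [k1 s₀ hs₀ rfl] at this
  exact one_ne_zero this

theorem ax2 [IsAlgClosed L] (hr : RefStmt k L) : Ax2Stmt k L := by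
  classical
  intro C N y u m η U Λ c i V O hC hCN hV h hs hO hu hm hη hΛ hT
  have hle : lr (cs C V) {u, m / u, η} V ≤ O := lr_le_dom hO.dom hO.le (by simp [hu, hm, hη])
  have ex : ∀ q : L × L, q.1 ∈ U → q.2 ∈ Λ → i q.1 ≠ 0 → ∃ μ ∈ C, μ ^ i q.1 = q.2 / c q.1 :=
    fun q h1 h2 h3 => root hC (C.div_mem (hΛ _ h2).1 (h.mon _ h1).1) h3
  choose! μ m1 m2 using ex
  obtain ⟨ν, m', -, -, h', h1, h2, h5, h3, h4⟩ := hr C N y u m η U
    (((U ×ˢ Λ).filter fun q => i q.1 ≠ 0).image μ) c i V O hCN hV h hO.le hO.dom hu hm (by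
      intro z hz
      obtain ⟨q, hq, rfl⟩ := Finset.mem_image.1 hz
      obtain ⟨hq, a3⟩ := Finset.mem_filter.1 hq
      obtain ⟨a1, a2⟩ := Finset.mem_product.1 hq
      exact ⟨m1 q a1 a2 a3, dec_level hO a3 (hΛ _ a2).2 (m2 q a1 a2 a3)
        (N.div_mem h.uN (hCN (m1 q a1 a2 a3))) ((h.mon _ a1).2.mono hle) (hT _ a1 _ a2)⟩)
  refine ⟨u / ν, m', _, h', hs.imp h5 id, h1, h2, fun s a1 l a2 => ?_⟩
  obtain ⟨hc, hε⟩ := h.mon s a1
  by_cases a3 : i s = 0
  · rw [a3, zpow_zero, mul_one] at hε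
    have := (ne_of_un hε).2
    rw [show (y - s) / l = (y - s) / c s * (c s / l) by field_simp]
    exact dec_mul (hε.mono h3) (dec_cs hV (C.div_mem hc (hΛ l a2).1) le_lr)
  · rw [level (ne_of_un hε).2 (hΛ l a2).2 (m2 (s, l) a1 a2 a3)]
    exact dec_mul (hε.mono h3) (dec_zpow (h4 _ (Finset.mem_image_of_mem μ
      (Finset.mem_filter.2 ⟨Finset.mem_product.2 ⟨a1, a2⟩, a3⟩))) _)

end Pool.Agent.MP_19ffc6_ag.Perf.Ss

end MrgPart0

-- ======== part 1: formerly Pool.Agent.MP_19ffc6_ag.perf.SsAx1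
section MrgPart1

/-! PROJECT PERF, block SS, row AX1: the branching levels in a disc chart. -/

namespace Pool.Agent.MP_19ffc6_ag.Perf.Ss

open Polynomial IntermediateField Pool.Agent.R72.Wild Pool.Agent.R72.Lci Pool.Agent.R72.Res
  Pool.Agent.R72.Res.B

variable {k L : Type} [Field k] [Field L] [Algebra k L]

namespace Ax1

lemma lr_le {R V O : Subalgebra k L} {S : Set L} (hR : R ≤ O) (hS : ∀ x ∈ S, x ∈ O)
    (hd : Dom O V) : lr R S V ≤ O := by
  have h : R ⊔ Algebra.adjoin k S ≤ O := sup_le hR (Algebra.adjoin_le hS)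
  rintro _ ⟨a, ha, b, hb, hu, rfl⟩
  rw [div_eq_mul_inv]
  exact mul_mem (h ha) (hd.2 b (h hb) hu).2.2

lemma mem_gen {R : Subalgebra k L} {S : Set L} {x : L} (hx : x ∈ S) :
    x ∈ R ⊔ Algebra.adjoin k S :=
  (le_sup_right : Algebra.adjoin k S ≤ _) (Algebra.subset_adjoin hx)

lemma lr_mono {R V : Subalgebra k L} {S S' : Set L}
    (h : ∀ x ∈ S, x ∈ R ⊔ Algebra.adjoin k S') : lr R S V ≤ lr R S' V :=
  loc_mono (sup_le le_sup_left (Algebra.adjoin_le h)) le_rfl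

lemma un_lr {R V : Subalgebra k L} {S : Set L} {x : L} (hx : x ∈ lr R S V) (hu : Un V x) :
    Un (lr R S V) x := ⟨hx, hu.2.1, inv_mem_loc hx hu⟩

lemma un_add {O : Subalgebra k L} (hl : Lcl O) {a b : L} (ha : Un O a) (hb : b ∈ O)
    (hb' : ¬ Un O b) : Un O (a + b) := by
  rcases hl (a + b) (add_mem ha.1 hb) (-b) (neg_mem hb) (by simpa using ha) with h | h
  · exact h
  · exact (hb' ⟨hb, by simpa using h.2.1, by simpa using neg_mem h.2.2⟩).elim

lemma tr_sub {C : IntermediateField k L} {t τ : L} (ht : Transcendental C t) (hτ : τ ∈ C) :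
    Transcendental C (t - τ) := by
  intro h
  apply ht
  have h2 : IsAlgebraic C τ := isAlgebraic_algebraMap (⟨τ, hτ⟩ : C)
  simpa using h.add h2

lemma ne_of_tr {C : IntermediateField k L} {t τ : L} (ht : Transcendental C t) (hτ : τ ∈ C) :
    t - τ ≠ 0 := fun h => tr_sub ht hτ (h ▸ isAlgebraic_zero)

/-- moving the centre of the disc -/
lemma shift {C N : IntermediateField k L} {y t η τ : L} {V : Subalgebra k L} (hCN : C ≤ N)
    (hD : Dsc C N y V t η) (hτ : τ ∈ cs C V) (c : L → L) (i : L → ℤ) :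
    Ax C N y ∅ V (t - τ) 0 η c i ∧
      lr (cs C V) {t, η} V ≤ lr (cs C V) {t - τ, 0 / (t - τ), η} V := by
  have ht : ∀ S : Set L, t - τ ∈ S → t ∈ cs C V ⊔ Algebra.adjoin k S := fun S hS => by
    have := add_mem (mem_gen (R := cs C V) hS) ((le_sup_left : cs C V ≤ _) hτ)
    rwa [sub_add_cancel] at this
  refine ⟨⟨zero_mem _, tr_sub hD.tr hτ.2, sub_mem hD.tN (hCN hτ.2), hD.eN, fun x hx => ?_,
    sub_mem hD.tV hτ.1, by rw [zero_div]; exact zero_mem _, ?_, by simp⟩, lr_mono ?_⟩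
  · refine (sup_le le_sup_left (adjoin_le_iff.2 ?_) : C ⊔ k⟮t, η⟯ ≤ C ⊔ k⟮t - τ, η⟯) (hD.gen x hx)
    have hr : ∀ z ∈ ({t - τ, η} : Set L), z ∈ C ⊔ k⟮t - τ, η⟯ := fun z hz =>
      (le_sup_right : k⟮t - τ, η⟯ ≤ _) (subset_adjoin k _ hz)
    rintro z (rfl | rfl)
    · have := add_mem (hr (z - τ) (by simp)) ((le_sup_left : C ≤ _) hτ.2)
      rwa [sub_add_cancel] at this
    · exact hr z (by simp)
  · obtain ⟨P, h1, h2, h3, h4⟩ := hD.std
    refine ⟨P, h1, fun j => lr_mono ?_ (h2 j), h3, h4⟩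
    rintro z rfl
    exact ht _ (by simp)
  · rintro z (rfl | rfl)
    · exact ht _ (by simp)
    · exact mem_gen (by simp)

lemma coe_prod {O : Subalgebra k L} (T : Multiset L[X]) (h : ∀ Q ∈ T, ∀ i, Q.coeff i ∈ O) :
    ∀ i, T.prod.coeff i ∈ O := by
  induction T using Multiset.induction_on with
  | empty => intro i; rw [Multiset.prod_zero, coeff_one]; split_ifs <;> simp
  | cons Q T ih =>
    intro i
    rw [Multiset.prod_cons, coeff_mul]
    exact sum_mem fun z _ => mul_mem (h Q (by simp) _) (ih (fun Q hQ => h Q (by simp [hQ])) _)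

lemma unit_coeff {O : Subalgebra k L} (hl : Lcl O) (n : ℕ) (Q : L[X]) (hQ : ∀ i, Q.coeff i ∈ O)
    (hu : Un O (Q.coeff (n + 1))) (T : Multiset L) (hT : ∀ b ∈ T, b ∈ O ∧ ¬ Un O b) :
    (∀ i, (Q * (T.map fun b => 1 + Polynomial.C b * X).prod).coeff i ∈ O) ∧
      Un O ((Q * (T.map fun b => 1 + Polynomial.C b * X).prod).coeff (n + 1)) := by
  induction T using Multiset.induction_on with
  | empty => simpa using ⟨hQ, hu⟩
  | cons b T ih =>
    obtain ⟨h1, h2⟩ := ih fun b hb => hT b (by simp [hb])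
    obtain ⟨hb, hb'⟩ := hT b (by simp)
    set R := Q * (T.map fun b => 1 + Polynomial.C b * X).prod with hR
    have e : Q * ((b ::ₘ T).map fun b => 1 + Polynomial.C b * X).prod =
        R + Polynomial.C b * (R * X) := by
      rw [Multiset.map_cons, Multiset.prod_cons, hR]; ring
    rw [e]
    refine ⟨fun i => ?_, ?_⟩
    · rw [coeff_add, coeff_C_mul]
      refine add_mem (h1 i) (mul_mem hb ?_)
      cases i with
      | zero => rw [coeff_mul_X_zero]; exact zero_mem _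
      | succ i => rw [coeff_mul_X]; exact h1 i
    · rw [coeff_add, coeff_C_mul, coeff_mul_X]
      exact un_add hl h2 (mul_mem hb (h1 n)) fun h => hb' (Un.of_mul hb (h1 n) h)

/-- the branching level is decided -/
lemma dec {O : Subalgebra k L} (hl : Lcl O) {z ε g : L}
    (hn : ∀ c ∈ O, IsIntegral O (c * z) → c * z ∈ O) (A B : Multiset L) (hA : ∀ a ∈ A, a ∈ O)
    (h0 : (0 : L) ∈ A) (hB : ∀ b ∈ B, b ∈ O ∧ ¬ Un O b) (hε : Un O ε) (hg : Dec O g) (hg0 : g ≠ 0)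
    (e : g = ε * ((A.map fun a => z + a).prod * (B.map fun b => 1 + b * z).prod)) : Dec O z := by
  set Q₁ : L[X] := (A.map fun a => X + Polynomial.C a).prod with hQ₁
  have hm : Q₁.Monic := monic_multiset_prod_of_monic _ _ fun a _ => monic_X_add_C a
  have hd : Q₁.natDegree = A.card := by
    rw [hQ₁, natDegree_multiset_prod_of_monic]
    · simp [Multiset.map_map]
    · intro f hf
      obtain ⟨a, -, rfl⟩ := Multiset.mem_map.1 hf
      exact monic_X_add_C a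
  obtain ⟨n, hnA⟩ : ∃ n, A.card = n + 1 :=
    Nat.exists_eq_succ_of_ne_zero fun h => by simp [Multiset.card_eq_zero.1 h] at h0
  have hc : ∀ i, Q₁.coeff i ∈ O := coe_prod _ fun Q hQ i => by
    obtain ⟨a, ha, rfl⟩ := Multiset.mem_map.1 hQ
    rw [coeff_add, coeff_X, coeff_C]
    exact add_mem (by split_ifs <;> simp) (by split_ifs; exacts [hA a ha, zero_mem _])
  have hu : Un O (Q₁.coeff (n + 1)) := by
    rw [← hnA, ← hd, hm.coeff_natDegree]; exact Un.one _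
  obtain ⟨h1, h2⟩ := unit_coeff hl n Q₁ hc hu B hB
  set Q := Q₁ * (B.map fun b => 1 + Polynomial.C b * X).prod with hQ
  have hev : ∀ w : L, Q.eval w =
      (A.map fun a => w + a).prod * (B.map fun b => 1 + b * w).prod := fun w => by
    simp [hQ, hQ₁, eval_multiset_prod, Multiset.map_map]
  have hQ0 : Q.coeff 0 = 0 := by
    rw [coeff_zero_eq_eval_zero, hev, Multiset.prod_eq_zero, zero_mul]
    exact Multiset.mem_map.2 ⟨0, h0, by simp⟩
  rcases hg with hg | hg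
  · refine uu hl hn (P := Polynomial.C ε * Q - Polynomial.C g) (fun i => ?_) ⟨n + 1, ?_⟩ ?_
    · rw [coeff_sub, coeff_C_mul, coeff_C]
      exact sub_mem (mul_mem hε.1 (h1 i)) (by split_ifs; exacts [hg, zero_mem _])
    · rw [coeff_sub, coeff_C_mul, coeff_C_succ, sub_zero]; exact hε.mul h2
    · rw [eval_sub, eval_mul, eval_C, eval_C, hev, ← e, sub_self]
  · refine uu hl hn (P := Polynomial.C (g⁻¹ * ε) * Q - 1) (fun i => ?_) ⟨0, ?_⟩ ?_
    · rw [coeff_sub, coeff_C_mul, coeff_one]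
      exact sub_mem (mul_mem (mul_mem hg hε.1) (h1 i)) (by split_ifs <;> simp)
    · rw [coeff_sub, coeff_C_mul, hQ0, mul_zero, coeff_one_zero, zero_sub]
      exact ⟨neg_mem (one_mem _), by simp, by simp⟩
    · rw [eval_sub, eval_mul, eval_C, eval_one, hev, mul_assoc, ← e, inv_mul_cancel₀ hg0, sub_self]

lemma un_prod_div {B : Subalgebra k L} {t u : L} {d : L → L} {j : L → ℕ} (T : Multiset L)
    (h : ∀ σ ∈ T, Un B ((t - σ) / (d σ * u ^ j σ))) :
    Un B ((T.map fun σ => t - σ).prod / ((T.map d).prod * u ^ (T.map j).sum)) := by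
  induction T using Multiset.induction_on with
  | empty => simpa using Un.one B
  | cons σ T ih =>
    have := (h σ (by simp)).mul (ih fun σ hσ => h σ (by simp [hσ]))
    rw [div_mul_div_comm] at this
    simp only [Multiset.map_cons, Multiset.prod_cons, Multiset.sum_cons, pow_add]
    convert this using 2
    ring

lemma split_prod {t τ μ : L} (hμ : μ ≠ 0) (A B : Multiset L) (hB : ∀ σ ∈ B, τ - σ ≠ 0) :
    ((A + B).map fun σ => t - σ).prod = μ ^ A.card * (B.map fun σ => τ - σ).prod *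
      (((A.map fun σ => (τ - σ) / μ).map fun a => (t - τ) / μ + a).prod *
        ((B.map fun σ => μ / (τ - σ)).map fun b => 1 + b * ((t - τ) / μ)).prod) := by
  have h1 : (A.map fun σ => t - σ).prod =
      μ ^ A.card * ((A.map fun σ => (τ - σ) / μ).map fun a => (t - τ) / μ + a).prod := by
    induction A using Multiset.induction_on with
    | empty => simp
    | cons a A ih =>
      simp only [Multiset.map_cons, Multiset.prod_cons, Multiset.card_cons, pow_succ, ih]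
      field_simp
      ring
  have h2 : (B.map fun σ => t - σ).prod = (B.map fun σ => τ - σ).prod *
      ((B.map fun σ => μ / (τ - σ)).map fun b => 1 + b * ((t - τ) / μ)).prod := by
    induction B using Multiset.induction_on with
    | empty => simp
    | cons a B ih =>
      have ha := hB a (by simp)
      simp only [Multiset.map_cons, Multiset.prod_cons, ih fun σ hσ => hB σ (by simp [hσ])]
      rw [show t - a = (τ - a) * (1 + μ / (τ - a) * ((t - τ) / μ)) by field_simp; ring]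
      exact mul_mul_mul_comm _ _ _ _
  rw [Multiset.map_add, Multiset.prod_add, h1, h2]
  ring

end Ax1

open Ax1 in
theorem ax1 (hr : RefStmt k L) : Ax1Stmt k L := by
  classical
  intro C U c T hU
  set Th : Finset L := U.biUnion fun s => (T s).toFinset with hTh
  have mTh : ∀ τ, τ ∈ Th ↔ ∃ s ∈ U, τ ∈ T s := fun τ => by simp [hTh]
  have ThC : ∀ τ ∈ Th, τ ∈ C := fun τ hτ => by
    obtain ⟨s, hs, h⟩ := (mTh τ).1 hτ
    exact (hU s hs).2.2 τ h
  set Λ : Finset L := (U.biUnion fun s => Th.biUnion fun τ => Th.biUnion fun τ' =>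
    (Multiset.antidiagonal (T s)).toFinset.image fun AB =>
      c s * ((τ - τ') ^ AB.1.card * (AB.2.map fun σ => τ - σ).prod)).erase 0 with hΛ
  have mΛ : ∀ l, l ∈ Λ ↔ l ≠ 0 ∧ ∃ s ∈ U, ∃ τ ∈ Th, ∃ τ' ∈ Th, ∃ A B : Multiset L, A + B = T s ∧
      c s * ((τ - τ') ^ A.card * (B.map fun σ => τ - σ).prod) = l := fun l => by
    simp only [hΛ, Finset.mem_erase, Finset.mem_biUnion, Finset.mem_image, Multiset.mem_toFinset,
      Multiset.mem_antidiagonal, Prod.exists]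
  refine ⟨Λ, fun l hl => ?_, ?_⟩
  · obtain ⟨h0, s, hs, τ, hτ, τ', hτ', A, B, hAB, rfl⟩ := (mΛ l).1 hl
    refine ⟨mul_mem (hU s hs).2.1 (mul_mem (pow_mem (sub_mem (ThC τ hτ) (ThC τ' hτ')) _)
      (multiset_prod_mem _ fun z hz => ?_)), h0⟩
    obtain ⟨σ, hσ, rfl⟩ := Multiset.mem_map.1 hz
    exact sub_mem (ThC τ hτ) ((hU s hs).2.2 σ (hAB ▸ Multiset.mem_add.2 (Or.inr hσ)))
  intro N y t η V O hCN hV hD hT hO ht hη hTD
  have ThV : ∀ τ ∈ Th, τ ∈ cs C V := fun τ hτ => by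
    obtain ⟨s, hs, h⟩ := (mTh τ).1 hτ
    exact ⟨(hT s hs).1 τ h, (hU s hs).2.2 τ h⟩
  have hBO : lr (cs C V) {t, η} V ≤ O := lr_le hO.le (by rintro z (rfl | rfl) <;> assumption) hO.dom
  rcases Th.eq_empty_or_nonempty with hE | hE
  · obtain ⟨τ, hτ, hu⟩ : ∃ τ ∈ cs C V, Un V (t - τ) := by
      rcases hV.lcl t hD.tV (1 - t) (sub_mem (one_mem _) hD.tV) (by simpa using Un.one V) with h | h
      · exact ⟨0, zero_mem _, by simpa using h⟩
      · refine ⟨1, one_mem _, ?_⟩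
        have := h.mul (show Un V (-1) from ⟨neg_mem (one_mem _), by simp, by simp⟩)
        simpa using this
    obtain ⟨h1, h2⟩ := shift hCN hD hτ c 0
    refine ⟨t - τ, 0, c, 0, ⟨h1.mC, h1.tr, h1.uN, h1.eN, h1.gen, h1.uV, h1.mV, h1.std,
      fun s hs => ⟨(hU s hs).2.1, ?_⟩⟩, Or.inl hu, sub_mem ht (hO.le hτ), by
        rw [zero_div]; exact zero_mem _⟩
    have hs0 : T s = 0 := Multiset.eq_zero_of_forall_notMem fun σ hσ => by
      have := (mTh σ).2 ⟨s, hs, hσ⟩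
      simp [hE] at this
    have := ((hT s hs).2).mono h2
    simpa [hs0] using this
  obtain ⟨τ, hτ, hmin⟩ := Pool.Agent.R72.Res.TreeM.exists_top V (fun σ => t - σ) Th hE
    (fun σ hσ => ne_of_tr hD.tr (ThC σ hσ)) fun a _ b _ => by
      rcases hV ((t - a) / (t - b)) with h | h
      · exact Or.inl h
      · exact Or.inr (by rwa [inv_div] at h)
  obtain ⟨s₁, hs₁, hτ₁⟩ := (mTh τ).1 hτ
  have hx0 : t - τ ≠ 0 := ne_of_tr hD.tr (ThC τ hτ)
  set Lv : Finset L := (Th.image fun σ => τ - σ).erase 0 with hLv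
  have hdec : ∀ μ ∈ Lv, μ ∈ C ∧ μ ≠ 0 ∧ Dec O ((t - τ) / μ) := by
    intro μ hμ
    obtain ⟨hμ0, hμ⟩ := Finset.mem_erase.1 hμ
    obtain ⟨τ', hτ', hμe⟩ := Finset.mem_image.1 hμ
    have hμC : μ ∈ C := hμe ▸ sub_mem (ThC τ hτ) (ThC τ' hτ')
    refine ⟨hμC, hμ0, ?_⟩
    set A := (T s₁).filter fun σ => (τ - σ) / μ ∈ V with hA
    set B := (T s₁).filter fun σ => ¬ (τ - σ) / μ ∈ V with hB
    have hAB : A + B = T s₁ := Multiset.filter_add_not _ _
    have hB0 : ∀ σ ∈ B, τ - σ ≠ 0 := fun σ hσ h =>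
      (Multiset.mem_filter.1 hσ).2 (by rw [h, zero_div]; exact zero_mem _)
    have hε := ((hT s₁ hs₁).2).mono hBO
    have hy0 : y - s₁ ≠ 0 := (div_ne_zero_iff.1 hε.2.1).1
    have hc0 : c s₁ ≠ 0 := left_ne_zero_of_mul (div_ne_zero_iff.1 hε.2.1).2
    have hp0 : (B.map fun σ => τ - σ).prod ≠ 0 := Multiset.prod_ne_zero fun h => by
      obtain ⟨σ, hσ, h⟩ := Multiset.mem_map.1 h
      exact hB0 σ hσ h
    have hl0 : c s₁ * (μ ^ A.card * (B.map fun σ => τ - σ).prod) ≠ 0 :=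
      mul_ne_zero hc0 (mul_ne_zero (pow_ne_zero _ hμ0) hp0)
    have hl : c s₁ * (μ ^ A.card * (B.map fun σ => τ - σ).prod) ∈ Λ :=
      (mΛ _).2 ⟨hl0, s₁, hs₁, τ, hτ, τ', hτ', A, B, hAB, by rw [hμe]⟩
    have hq0 : ((T s₁).map fun σ => t - σ).prod ≠ 0 :=
      right_ne_zero_of_mul (div_ne_zero_iff.1 hε.2.1).2
    refine dec hO.lcl (fun a ha hi => hO.int _ (mul_mem (hO.sub a ha)
      (div_mem (sub_mem hD.tN (hCN (ThC τ hτ))) (hCN hμC))) hi) (A.map fun σ => (τ - σ) / μ)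
      (B.map fun σ => μ / (τ - σ)) (fun a ha => ?_) ?_ (fun b hb => ?_) hε (hTD s₁ hs₁ _ hl)
      (div_ne_zero hy0 hl0) ?_
    · obtain ⟨σ, hσ, rfl⟩ := Multiset.mem_map.1 ha
      obtain ⟨h1, h2⟩ := Multiset.mem_filter.1 hσ
      exact hO.le (mem_cs.2 ⟨h2, C.div_mem (C.sub_mem (ThC τ hτ) ((hU s₁ hs₁).2.2 σ h1)) hμC⟩)
    · exact Multiset.mem_map.2 ⟨τ, Multiset.mem_filter.2 ⟨hτ₁, by simp⟩, by simp⟩
    · obtain ⟨σ, hσ, rfl⟩ := Multiset.mem_map.1 hb
      obtain ⟨h1, h2⟩ := Multiset.mem_filter.1 hσ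
      refine ⟨hO.le (mem_cs.2 ⟨?_, C.div_mem hμC (C.sub_mem (ThC τ hτ) ((hU s₁ hs₁).2.2 σ h1))⟩),
        fun h => h2 ?_⟩
      · have := (hV _).resolve_left h2
        rwa [inv_div] at this
      · have := hO.dom.1 h.2.2
        rwa [inv_div] at this
    · have e := split_prod (t := t) hμ0 A B hB0
      rw [hAB] at e
      rw [e] at hq0 ⊢
      have := right_ne_zero_of_mul hq0
      have key : ∀ a b d e : L, e ≠ 0 → a / (b * d) = a / (b * (d * e)) * e := by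
        intro a b d e he
        rw [← mul_assoc, ← div_div a (b * d) e, div_mul_cancel₀ _ he]
      exact key _ _ _ _ this
  obtain ⟨h1, h2⟩ := shift hCN hD (ThV τ hτ) c 0
  obtain ⟨ν, m, hνC, hν0, hA, huO, hmO, -, hle, hLd⟩ := hr C N y (t - τ) 0 η ∅ Lv c 0 V O hCN hV h1
    hO.le hO.dom (sub_mem ht (hO.le (ThV τ hτ))) (by rw [zero_div]; exact zero_mem _) hdec
  set u := (t - τ) / ν with hu
  set B := lr (cs C V) {u, m / u, η} V with hB
  have hBV : B ≤ V := loc_le (sup_le inf_le_left (Algebra.adjoin_le (by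
    rintro z (rfl | rfl | rfl)
    exacts [hA.uV, hA.mV, hO.dom.1 hη])))
  have key : ∀ σ, ∃ (d : L) (j : ℕ), σ ∈ Th →
      d ∈ C ∧ (σ = τ → j = 1) ∧ Un B ((t - σ) / (d * u ^ j)) := by
    intro σ
    by_cases hσ : σ ∈ Th
    swap
    · exact ⟨0, 0, fun h => (hσ h).elim⟩
    have e1 : ν * u ^ 1 = t - τ := by rw [hu]; field_simp
    by_cases hστ : σ = τ
    · refine ⟨ν, 1, fun _ => ⟨hνC, fun _ => rfl, ?_⟩⟩
      rw [e1, hστ, div_self hx0]; exact Un.one _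
    have hμ0 : τ - σ ≠ 0 := sub_ne_zero.2 (Ne.symm hστ)
    have hσ0 : t - σ ≠ 0 := ne_of_tr hD.tr (ThC σ hσ)
    have hm := hmin σ hσ
    rcases hLd (τ - σ) (Finset.mem_erase.2 ⟨hμ0, Finset.mem_image_of_mem _ hσ⟩) with h | h
    · refine ⟨τ - σ, 0, fun _ => ⟨sub_mem (ThC τ hτ) (ThC σ hσ), fun h => (hστ h).elim, ?_⟩⟩
      rw [pow_zero, mul_one]
      have hb : (t - σ) / (τ - σ) ∈ B := by
        rw [show (t - σ) / (τ - σ) = 1 + (t - τ) / (τ - σ) by field_simp; ring]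
        exact add_mem (one_mem _) h
      refine un_lr hb ⟨hBV hb, div_ne_zero hσ0 hμ0, ?_⟩
      rw [show ((t - σ) / (τ - σ))⁻¹ = 1 - (t - τ) / (t - σ) by field_simp; ring]
      exact sub_mem (one_mem _) hm
    · refine ⟨ν, 1, fun _ => ⟨hνC, fun _ => rfl, ?_⟩⟩
      rw [e1]
      have hb : (t - σ) / (t - τ) ∈ B := by
        rw [show (t - σ) / (t - τ) = 1 + ((t - τ) / (τ - σ))⁻¹ by field_simp; ring]
        exact add_mem (one_mem _) h
      refine un_lr hb ⟨hBV hb, div_ne_zero hσ0 hx0, ?_⟩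
      rwa [inv_div]
  choose d j hdj using key
  have hTs : ∀ s ∈ U, ∀ σ ∈ T s, σ ∈ Th := fun s hs σ hσ => (mTh σ).2 ⟨s, hs, hσ⟩
  refine ⟨u, m, fun s => c s * ((T s).map d).prod, fun s => (((T s).map j).sum : ℕ),
    ⟨hA.mC, hA.tr, hA.uN, hA.eN, hA.gen, hA.uV, hA.mV, hA.std, fun s hs => ⟨?_, ?_⟩⟩,
    Or.inr ?_, huO, hmO⟩
  · refine mul_mem (hU s hs).2.1 (multiset_prod_mem _ fun z hz => ?_)
    obtain ⟨σ, hσ, rfl⟩ := Multiset.mem_map.1 hz
    exact (hdj σ (hTs s hs σ hσ)).1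
  · have hε := ((hT s hs).2).mono (h2.trans hle)
    have hq0 : ((T s).map fun σ => t - σ).prod ≠ 0 :=
      right_ne_zero_of_mul (div_ne_zero_iff.1 hε.2.1).2
    have := hε.mul (un_prod_div (T s) fun σ hσ => (hdj σ (hTs s hs σ hσ)).2.2)
    rw [zpow_natCast]
    convert this using 1
    field_simp
  · rw [← Nat.cast_sum, Nat.cast_ne_zero]
    intro h
    have h3 := Finset.sum_eq_zero_iff.1 h s₁ hs₁
    have h4 := Multiset.sum_eq_zero_iff.1 h3 (j τ) (Multiset.mem_map_of_mem _ hτ₁)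
    rw [(hdj τ hτ).2.1 rfl] at h4
    exact one_ne_zero h4

end Pool.Agent.MP_19ffc6_ag.Perf.Ss

end MrgPart1

-- ======== part 2: formerly Pool.Agent.MP_19ffc6_ag.perf.SsExt
section MrgPart2

/-! PROJECT PERF, block SS, row EXT: the valuation ring of `C(u)` is a union of local rings of
annuli or discs. -/

namespace Pool.Agent.MP_19ffc6_ag.Perf.Ss

open Polynomial IntermediateField Pool.Agent.R72.Wild Pool.Agent.R72.Lci Pool.Agent.R72.Res
  Pool.Agent.R72.Res.B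

variable {k L : Type} [Field k] [Field L] [Algebra k L]

namespace Ext

variable {C : IntermediateField k L} {V B : Subalgebra k L} {x y z : L}

lemma mono_inv {U : Finset L} (h : z ∈ Mono C x U) : z⁻¹ ∈ Mono C x U := by
  induction h using Submonoid.closure_induction with
  | mem z hz =>
    refine Submonoid.subset_closure (hz.imp (fun h => ⟨inv_mem h.1, inv_ne_zero h.2⟩) ?_)
    rintro ⟨s, hs, rfl | rfl⟩
    exacts [⟨s, hs, Or.inr rfl⟩, ⟨s, hs, Or.inl (inv_inv _)⟩]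
  | one => simp
  | mul a b _ _ ha hb => rw [mul_inv]; exact mul_mem ha hb

lemma mono_mono {U U' : Finset L} (h : U ⊆ U') : Mono C x U ≤ Mono C x U' :=
  Submonoid.closure_mono (Set.union_subset_union_right _ fun _ ⟨s, hs, e⟩ => ⟨s, h hs, e⟩)

lemma poly_mono [IsAlgClosed L] (hC : AC C) (x : L) {p : C[X]} (hp : p ≠ 0) :
    ∃ U : Finset L, (∀ r ∈ U, r ∈ C) ∧ aeval x p ∈ Mono C x U := by
  classical
  refine ⟨(p.aroots L).toFinset, fun r hr => hC r ⟨p, hp, (mem_aroots.1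
    (Multiset.mem_toFinset.1 hr)).2⟩, ?_⟩
  rw [← eval_map_algebraMap, (IsAlgClosed.splits (p.map (algebraMap C L))).eq_prod_roots, eval_mul,
    eval_C, eval_multiset_prod, leadingCoeff_map]
  refine mul_mem (Submonoid.subset_closure (Or.inl ⟨p.leadingCoeff.2, by simpa using hp⟩))
    (multiset_prod_mem _ fun a ha => ?_)
  simp only [Multiset.map_map, Multiset.mem_map] at ha
  obtain ⟨r, hr, rfl⟩ := ha
  exact Submonoid.subset_closure (Or.inr ⟨r, Multiset.mem_toFinset.2 hr, Or.inl (by simp)⟩)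

lemma exists_mono [IsAlgClosed L] (hC : AC C) (x : L) (Z : Finset L)
    (hZ : ∀ z ∈ Z, z ∈ C ⊔ k⟮x⟯) :
    ∃ U : Finset L, 0 ∈ U ∧ (∀ r ∈ U, r ∈ C) ∧ ∀ z ∈ Z, z ≠ 0 → z ∈ Mono C x U := by
  classical
  have : ∀ z ∈ Z, ∃ U : Finset L, (∀ r ∈ U, r ∈ C) ∧ (z ≠ 0 → z ∈ Mono C x U) := fun z hz => by
    have h := hZ z hz
    rw [← restrictScalars_adjoin_eq_sup, mem_restrictScalars, mem_adjoin_simple_iff] at h
    obtain ⟨p, q, rfl⟩ := h
    by_cases h0 : aeval x p / aeval x q = 0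
    · exact ⟨∅, by simp, fun h => absurd h0 h⟩
    obtain ⟨U, h1, h2⟩ := poly_mono hC x (p := p) fun e => h0 (by simp [e])
    obtain ⟨U', h3, h4⟩ := poly_mono hC x (p := q) fun e => h0 (by simp [e])
    refine ⟨U ∪ U', fun r hr => (Finset.mem_union.1 hr).elim (h1 r) (h3 r), fun _ => ?_⟩
    rw [div_eq_mul_inv]
    exact mul_mem (mono_mono Finset.subset_union_left h2)
      (mono_inv (mono_mono Finset.subset_union_right h4))
  choose! U h1 h2 using this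
  refine ⟨insert 0 (Z.biUnion U), Finset.mem_insert_self _ _, fun r hr => ?_, fun z hz h0 =>
    mono_mono ((Finset.subset_biUnion_of_mem U hz).trans (Finset.subset_insert _ _)) (h2 z hz h0)⟩
  rcases Finset.mem_insert.1 hr with rfl | hr
  · exact zero_mem _
  · obtain ⟨z, hz, hr⟩ := Finset.mem_biUnion.1 hr
    exact h1 z hz r hr

lemma root [IsAlgClosed L] (hC : AC C) {c : L} (hc : c ∈ C) {j : ℤ} (hj : j ≠ 0) :
    ∃ μ ∈ C, μ ^ j = c := by
  have key : ∀ c ∈ C, ∀ n : ℕ, n ≠ 0 → ∃ μ ∈ C, μ ^ n = c := fun c hc n hn => by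
    obtain ⟨μ, h⟩ := IsAlgClosed.exists_pow_nat_eq c hn.bot_lt
    exact ⟨μ, hC μ (.of_pow hn.bot_lt (h ▸ isAlgebraic_algebraMap (⟨c, hc⟩ : C))), h⟩
  obtain ⟨n, rfl | rfl⟩ := j.eq_nat_or_neg
  · simpa using key c hc n (by simpa using hj)
  · obtain ⟨μ, h1, h2⟩ := key _ (inv_mem hc) n (by simpa using hj)
    exact ⟨μ, h1, by rw [zpow_neg, zpow_natCast, h2, inv_inv]⟩

lemma fld_le (h : x ∈ C ⊔ k⟮y⟯) : C ⊔ k⟮x⟯ ≤ C ⊔ k⟮y⟯ :=
  sup_le le_sup_left (adjoin_simple_le_iff.2 h)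

lemma cst_mem (h : x ∈ C) : x ∈ C ⊔ k⟮y⟯ := (le_sup_left : C ≤ _) h

lemma gen_mem : y ∈ C ⊔ k⟮y⟯ := (le_sup_right : _ ≤ C ⊔ _) (mem_adjoin_simple_self k y)

lemma mem_iff (h : Val V) : x ∈ V ↔ h.vs.valuation x ≤ 1 := (h.vs.valuation_le_one_iff x).symm

lemma un_iff (h : Val V) : Un V x ↔ h.vs.valuation x = 1 := by
  rw [Un, mem_iff h, mem_iff h, map_inv₀]
  constructor
  · rintro ⟨h1, h2, h3⟩
    exact le_antisymm h1 ((inv_le_one₀ ((Valuation.pos_iff _).2 h2)).1 h3)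
  · intro e
    exact ⟨e.le, fun h0 => by simp [h0] at e, by simp [e]⟩

lemma div_mem_iff (h : Val V) (hy : y ≠ 0) : x / y ∈ V ↔ h.vs.valuation x ≤ h.vs.valuation y := by
  rw [mem_iff h, map_div₀, div_le_one₀ ((Valuation.pos_iff _).2 hy)]

/-- What is used of the local ring. -/
structure Gd (C : IntermediateField k L) (V B : Subalgebra k L) : Prop where
  cst : ∀ c ∈ C, c ∈ V → c ∈ B
  le : B ≤ V
  un : ∀ x ∈ B, Un V x → Un B x

lemma gd_lr {S : Set L} (hS : ∀ s ∈ S, s ∈ V) : Gd C V (lr (cs C V) S V) ∧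
    ∀ s ∈ S, s ∈ lr (cs C V) S V :=
  ⟨⟨fun _ hc hv => le_loc _ _ ((le_sup_left : cs C V ≤ _) ⟨hv, hc⟩),
    loc_le (sup_le inf_le_left (Algebra.adjoin_le hS)),
    fun _ hx hu => ⟨hx, hu.2.1, inv_mem_loc hx hu⟩⟩,
    fun _ hs => le_loc _ _ ((le_sup_right : _ ≤ cs C V ⊔ _) (Algebra.subset_adjoin hs))⟩

lemma Gd.one_sub (g : Gd C V B) (h : Val V) (hx : x ∈ B) (hv : h.vs.valuation x < 1) :
    Un B (1 - x) := g.un _ (sub_mem (one_mem _) hx) ((un_iff h).2 (Valuation.map_one_sub_of_lt _ hv))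

/-- `z` is a constant times a power of `x` times a unit of all rings of the class `P`. -/
def Mo (C : IntermediateField k L) (P : Subalgebra k L → Prop) (J : AddSubgroup ℤ) (x z : L) :
    Prop := ∃ c ∈ C, ∃ j ∈ J, ∀ B, P B → Un B (z / (c * x ^ j))

lemma mo_of_mono {P : Subalgebra k L → Prop} {J : AddSubgroup ℤ} {U : Finset L} (hx : x ≠ 0)
    (hU : ∀ r ∈ U, Mo C P J x (y - r)) (hz : z ∈ Mono C y U) : Mo C P J x z := by
  induction hz using Submonoid.closure_induction with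
  | mem z hz =>
    obtain hz | ⟨s, hs, rfl | rfl⟩ := hz
    · exact ⟨z, hz.1, 0, zero_mem _, fun B _ => by simpa [hz.2] using Un.one B⟩
    · exact hU s hs
    · obtain ⟨c, hc, j, hj, h⟩ := hU s hs
      exact ⟨c⁻¹, inv_mem hc, -j, neg_mem hj, fun B hB => by
        rw [zpow_neg, ← mul_inv, inv_div_inv, ← inv_div]; exact (h B hB).inv⟩
  | one => exact ⟨1, one_mem _, 0, zero_mem _, fun B _ => by simpa using Un.one B⟩
  | mul a b _ _ ha hb =>
    obtain ⟨c, hc, j, hj, h⟩ := ha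
    obtain ⟨c', hc', j', hj', h'⟩ := hb
    exact ⟨c * c', mul_mem hc hc', j + j', add_mem hj hj', fun B hB => by
      rw [zpow_add₀ hx, mul_mul_mul_comm, mul_div_mul_comm]; exact (h B hB).mul (h' B hB)⟩

/-- The conclusion. -/
def Res (C : IntermediateField k L) (u : L) (V : Subalgebra k L) (Z : Finset L) : Prop :=
  ∃ t m : L, m ∈ C ∧ t ∈ C ⊔ k⟮u⟯ ∧ u ∈ C ⊔ k⟮t⟯ ∧ t ∈ V ∧ m / t ∈ V ∧
    (∀ z ∈ Z, z ∈ V → z ∈ lr (cs C V) {t, m / t} V) ∧
    (∀ z ∈ Z, z ≠ 0 → ∃ c ∈ C, ∃ j : ℤ, Un (lr (cs C V) {t, m / t} V) (z / (c * t ^ j))) ∧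
    (m = 0 ∨ ∀ c ∈ C, ¬ Un V (t / c))

lemma Res.of {Z : Finset L} (h : Res C x V Z) (hx : x ∈ C ⊔ k⟮y⟯) (hy : y ∈ C ⊔ k⟮x⟯) :
    Res C y V Z :=
  let ⟨t, m, h1, h2, h3, h4⟩ := h
  ⟨t, m, h1, fld_le hx h2, fld_le h3 hy, h4⟩

lemma t4 [IsAlgClosed L] (hC : AC C) (hV : Val V) (hr : Rt V) {u : L} {Z : Finset L}
    (hZ : ∀ z ∈ Z, z ∈ C ⊔ k⟮u⟯) (H : ∀ r ∈ C, ∃ c ∈ C, Un V ((u - r) / c)) : Res C u V Z := by
  obtain ⟨U, h0, hU, hm⟩ := exists_mono hC u Z hZ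
  set v := hV.vs.valuation
  have H' : ∀ r ∈ C, ∃ c ∈ C, c ≠ 0 ∧ v (u - r) = v c := fun r hr => by
    obtain ⟨c, hc, h⟩ := H r hr
    have h1 : c ≠ 0 := fun e => h.2.1 (by rw [e, div_zero])
    rw [un_iff hV, map_div₀, div_eq_one_iff_eq ((Valuation.ne_zero_iff _).2 h1)] at h
    exact ⟨c, hc, h1, h⟩
  obtain ⟨r0, hr0, hmin⟩ := U.exists_min_image (fun r => v (u - r)) ⟨0, h0⟩
  obtain ⟨c, hc, hc0, e⟩ := H' r0 (hU r0 hr0)
  have h1 := (div_mem_iff hV hc0).2 e.le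
  obtain ⟨a, ha⟩ := hr _ h1
  set c1 := r0 + algebraMap k L a * c with hc1
  have hc1C : c1 ∈ C := add_mem (hU r0 hr0) (mul_mem (C.algebraMap_mem a) hc)
  obtain ⟨ρ, hρ, hρ0, e'⟩ := H' c1 hc1C
  have h2 : v ρ < v c := by
    have h3 := lt_of_le_of_ne ((mem_iff hV).1 (sub_mem h1 (V.algebraMap_mem a)))
      fun e => ha ((un_iff hV).2 e)
    rwa [show (u - r0) / c - algebraMap k L a = (u - c1) / c by rw [hc1]; field_simp; ring,
      map_div₀, div_lt_one₀ ((Valuation.pos_iff _).2 hc0), e'] at h3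
  set t := (u - c1) / ρ with ht
  have htV : t ∈ V := (div_mem_iff hV hρ0).2 e'.le
  obtain ⟨g, hg⟩ := gd_lr (C := C) (V := V) (S := {t, 0 / t}) (by simp [htV])
  have h3 : ∀ r ∈ U, Mo C (· = lr (cs C V) {t, 0 / t} V) ⊥ 1 (u - r) := fun r hr' => by
    have h4 : v (u - c1) < v (u - r) := e' ▸ h2.trans_le (e ▸ hmin r hr')
    have h5 : v (c1 - r) = v (u - r) := by
      rw [show c1 - r = u - r - (u - c1) by ring, Valuation.map_sub_eq_of_lt_left _ h4]
    have h6 : c1 - r ≠ 0 := fun e => by simp [e, ← h5] at h4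
    have h7 : v (-ρ / (c1 - r)) < 1 := by
      rwa [map_div₀, div_lt_one₀ ((Valuation.pos_iff _).2 h6), Valuation.map_neg, h5, ← e']
    refine ⟨c1 - r, sub_mem hc1C (hU r hr'), 0, zero_mem _, ?_⟩
    rintro _ rfl
    have := g.one_sub hV (mul_mem (g.cst _ (div_mem (neg_mem hρ) (sub_mem hc1C (hU r hr')))
      ((mem_iff hV).2 h7.le)) (hg t (by simp)))
      (by rw [map_mul]; exact mul_lt_one_of_lt_of_le h7 ((mem_iff hV).1 htV))
    rwa [show 1 - -ρ / (c1 - r) * t = (u - r) / ((c1 - r) * 1 ^ (0 : ℤ)) by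
      rw [ht]; field_simp; ring] at this
  have h4 : ∀ z ∈ Z, z ≠ 0 → ∃ c ∈ C, Un (lr (cs C V) {t, 0 / t} V) (z / c) := fun z hz h0 => by
    obtain ⟨c, hc, j, -, h⟩ := mo_of_mono one_ne_zero h3 (hm z hz h0)
    exact ⟨c, hc, by simpa using h _ rfl⟩
  refine ⟨t, 0, zero_mem _, div_mem (sub_mem gen_mem (cst_mem hc1C)) (cst_mem hρ), ?_, htV,
    by simp, fun z hz hzV => ?_, fun z hz h0 => ?_, Or.inl rfl⟩
  · rw [show u = c1 + ρ * t by rw [ht]; field_simp; ring]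
    exact add_mem (cst_mem hc1C) (mul_mem (cst_mem hρ) gen_mem)
  · by_cases h0 : z = 0
    · rw [h0]; exact zero_mem _
    obtain ⟨c, hc, h⟩ := h4 z hz h0
    have h5 : c ≠ 0 := fun e => h.2.1 (by rw [e, div_zero])
    have h6 : c ∈ V := by
      have := mul_mem hzV (g.le h.2.2)
      rwa [inv_div, mul_div_cancel₀ _ h0] at this
    have := mul_mem h.1 (g.cst c hc h6)
    rwa [div_mul_cancel₀ _ h5] at this
  · obtain ⟨c, hc, h⟩ := h4 z hz h0
    exact ⟨c, hc, 0, by simpa using h⟩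

lemma t3 [IsAlgClosed L] (hC : AC C) (hV : Val V) {Z : Finset L}
    (hZ : ∀ z ∈ Z, z ∈ C ⊔ k⟮x⟯) (hx : x ∈ V)
    (H : ∀ c ∈ C, hV.vs.valuation x ≠ hV.vs.valuation c) : Res C x V Z := by
  classical
  obtain ⟨U, h0, hU, hm⟩ := exists_mono hC x Z hZ
  set v := hV.vs.valuation
  have hx0 : x ≠ 0 := fun e => H 0 (zero_mem _) (by rw [e])
  have pos : ∀ {y : L}, y ≠ 0 → 0 < v y := fun h => (Valuation.pos_iff _).2 h
  let P : Finset L → Subalgebra k L → Prop := fun U B =>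
    Gd C V B ∧ ∀ r ∈ U, (v x < v r → x / r ∈ B) ∧ (v r < v x → r / x ∈ B)
  have h1 : ∀ r ∈ U, Mo C (P U) ⊤ x (x - r) := fun r hr => by
    rcases lt_or_gt_of_ne (H r (hU r hr)) with h | h
    · have h2 : r ≠ 0 := fun e => by simp [e] at h
      refine ⟨-r, neg_mem (hU r hr), 0, trivial, fun B hB => ?_⟩
      have := hB.1.one_sub hV ((hB.2 r hr).1 h) (by rwa [map_div₀, div_lt_one₀ (pos h2)])
      rwa [show 1 - x / r = (x - r) / (-r * x ^ (0 : ℤ)) by field_simp; ring] at this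
    · refine ⟨1, one_mem _, 1, trivial, fun B hB => ?_⟩
      have := hB.1.one_sub hV ((hB.2 r hr).2 h) (by rwa [map_div₀, div_lt_one₀ (pos hx0)])
      rwa [show 1 - r / x = (x - r) / (1 * x ^ (1 : ℤ)) by field_simp] at this
  have h2 : ∀ z ∈ Z, ∃ c j μ, c ∈ C ∧ μ ∈ C ∧ (j ≠ 0 → μ ^ j = c⁻¹) ∧
      (z ≠ 0 → ∀ B, P U B → Un B (z / (c * x ^ (j : ℤ)))) := fun z hz => by
    by_cases h0 : z = 0
    · exact ⟨0, 0, 0, zero_mem _, zero_mem _, by simp, fun h => absurd h0 h⟩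
    obtain ⟨c, hc, j, -, h⟩ := mo_of_mono hx0 h1 (hm z hz h0)
    by_cases hj : j = 0
    · exact ⟨c, j, 0, hc, zero_mem _, fun h => absurd hj h, fun _ => h⟩
    obtain ⟨μ, h3, h4⟩ := root hC (inv_mem hc) hj
    exact ⟨c, j, μ, hc, h3, fun _ => h4, fun _ => h⟩
  choose! c j μ hc hμ hj hu using h2
  set W := insert 1 (U ∪ Z.image μ) with hW
  have hWC : ∀ r ∈ W, r ∈ C := fun r hr => by
    simp only [hW, Finset.mem_insert, Finset.mem_union, Finset.mem_image] at hr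
    obtain rfl | hr | ⟨z, hz, rfl⟩ := hr
    exacts [one_mem _, hU r hr, hμ z hz]
  have hx1 : v x < v 1 := lt_of_le_of_ne (by rw [map_one]; exact (mem_iff hV).1 hx) (H 1 (one_mem _))
  obtain ⟨ν, hν, hmin⟩ := (W.filter fun r => v x < v r).exists_min_image v
    ⟨1, Finset.mem_filter.2 ⟨Finset.mem_insert_self _ _, hx1⟩⟩
  obtain ⟨m, hm', hmax⟩ := (W.filter fun r => v r < v x).exists_max_image v
    ⟨0, Finset.mem_filter.2 ⟨by simp [hW, h0], by simpa using pos hx0⟩⟩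
  simp only [Finset.mem_filter, and_imp] at hν hmin hm' hmax
  have hν0 : ν ≠ 0 := fun e => by simp [e] at hν
  have e1 : m / ν / (x / ν) = m / x := div_div_div_cancel_right₀ hν0 _ _
  have htV : x / ν ∈ V := (div_mem_iff hV hν0).2 hν.2.le
  have hmV : m / ν / (x / ν) ∈ V := e1 ▸ (div_mem_iff hV hx0).2 hm'.2.le
  obtain ⟨g, hg⟩ := gd_lr (C := C) (V := V) (S := {x / ν, m / ν / (x / ν)}) (by simp [htV, hmV])
  set B := lr (cs C V) {x / ν, m / ν / (x / ν)} V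
  have hB : P W B := ⟨g, fun r hr => ⟨fun h => ?_, fun h => ?_⟩⟩
  rotate_left
  · have h2 : r ≠ 0 := fun e => by simp [e] at h
    have := mul_mem (hg (x / ν) (by simp)) (g.cst _ (div_mem (hWC ν hν.1) (hWC r hr))
      ((div_mem_iff hV h2).2 (hmin r hr h)))
    rwa [div_mul_div_cancel₀ hν0] at this
  · by_cases h2 : r = 0
    · simp [h2]
    have h3 : m ≠ 0 := fun e => (pos h2).not_ge (by simpa [e] using hmax r hr h)
    have := mul_mem (g.cst _ (div_mem (hWC r hr) (hWC m hm'.1))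
      ((div_mem_iff hV h3).2 (hmax r hr h))) (e1 ▸ hg (m / ν / (x / ν)) (by simp))
    rwa [div_mul_div_cancel₀ h3] at this
  have hBU : P U B := ⟨g, fun r hr => hB.2 r (by simp [hW, hr])⟩
  refine ⟨x / ν, m / ν, div_mem (hWC m hm'.1) (hWC ν hν.1), div_mem gen_mem (cst_mem (hWC ν hν.1)),
    ?_, htV, hmV, fun z hz hzV => ?_, fun z hz h0 => ⟨c z * ν ^ j z,
      mul_mem (hc z hz) (zpow_mem (hWC ν hν.1) _), j z, ?_⟩, Or.inr fun d hd hu => ?_⟩
  · have := mul_mem (gen_mem : x / ν ∈ C ⊔ k⟮x / ν⟯) (cst_mem (hWC ν hν.1))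
    rwa [div_mul_cancel₀ _ hν0] at this
  · by_cases h0 : z = 0
    · rw [h0]; exact zero_mem _
    have h3 := hu z hz h0 B hBU
    have h4 : c z * x ^ j z ≠ 0 := fun e => h3.2.1 (by rw [e, div_zero])
    have h5 : c z * x ^ j z ∈ V := by
      have := mul_mem hzV (g.le h3.2.2)
      rwa [inv_div, mul_div_cancel₀ _ h0] at this
    suffices h : c z * x ^ j z ∈ B by
      have := mul_mem h3.1 h
      rwa [div_mul_cancel₀ _ h4] at this
    by_cases hj0 : j z = 0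
    · rw [hj0, zpow_zero, mul_one] at h5 ⊢
      exact g.cst _ (hc z hz) h5
    have h6 : c z * x ^ j z = (x / μ z) ^ j z := by
      rw [div_zpow, hj z hz hj0, div_inv_eq_mul, mul_comm]
    have h7 : μ z ≠ 0 := fun e => h4 (by rw [h6, e, div_zero, zero_zpow _ hj0])
    have h8 := hB.2 (μ z) (by simp only [hW, Finset.mem_insert, Finset.mem_union]
                              exact Or.inr (Or.inr (Finset.mem_image_of_mem μ hz)))
    have key : ∀ (y : L) (i : ℤ), y ∈ B → y ≠ 0 → v y < 1 → y ^ i ∈ V → y ^ i ∈ B :=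
      fun y i hy hy0 hv h => by
        rw [mem_iff hV, map_zpow₀, zpow_le_one_iff_right_of_lt_one₀ (pos hy0) hv] at h
        obtain ⟨n, rfl⟩ := Int.eq_ofNat_of_zero_le h
        simpa using pow_mem hy n
    rw [h6] at h5 ⊢
    rcases lt_or_gt_of_ne (H _ (hμ z hz)) with h | h
    · exact key _ _ (h8.1 h) (div_ne_zero hx0 h7) (by rwa [map_div₀, div_lt_one₀ (pos h7)]) h5
    · rw [← inv_div, inv_zpow'] at h5 ⊢
      exact key _ _ (h8.2 h) (div_ne_zero h7 hx0) (by rwa [map_div₀, div_lt_one₀ (pos hx0)]) h5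
  · rw [mul_assoc, ← mul_zpow, mul_div_cancel₀ _ hν0]
    exact hu z hz h0 B hBU
  · have h3 : d ≠ 0 := fun e => hu.2.1 (by rw [e, div_zero])
    rw [un_iff hV, div_div, map_div₀, div_eq_one_iff_eq (pos (mul_ne_zero hν0 h3)).ne'] at hu
    exact H _ (mul_mem (hWC ν hν.1) hd) hu

end Ext

open Ext in
theorem ext [IsAlgClosed L] : ExtStmt k L := by
  intro C u V Z hC hu hV hr hZ
  by_cases H : ∀ r ∈ C, ∃ c ∈ C, Un V ((u - r) / c)
  · exact t4 hC hV hr hZ H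
  push Not at H
  obtain ⟨r, hr, H⟩ := H
  have h0 : u - r ≠ 0 := fun e => hu (sub_eq_zero.1 e ▸ isAlgebraic_algebraMap (⟨r, hr⟩ : C))
  have H' : ∀ c ∈ C, hV.vs.valuation (u - r) ≠ hV.vs.valuation c := fun c hc e => H c hc (by
    rw [un_iff hV, map_div₀, ← e, div_self ((Valuation.ne_zero_iff _).2 h0)])
  have h1 : u - r ∈ C ⊔ k⟮u⟯ := sub_mem gen_mem (cst_mem hr)
  rcases hV (u - r) with h | h
  · have h2 : u ∈ C ⊔ k⟮u - r⟯ := by
      simpa using add_mem (gen_mem : u - r ∈ C ⊔ k⟮u - r⟯) (cst_mem hr)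
    exact (t3 hC hV (fun z hz => fld_le h2 (hZ z hz)) h H').of h1 h2
  · have h2 : u ∈ C ⊔ k⟮(u - r)⁻¹⟯ := by
      simpa using add_mem (inv_mem (gen_mem : (u - r)⁻¹ ∈ C ⊔ k⟮(u - r)⁻¹⟯)) (cst_mem hr)
    refine (t3 hC hV (fun z hz => fld_le h2 (hZ z hz)) h fun c hc e => H' _ (inv_mem hc) ?_).of
      (inv_mem h1) h2
    rw [map_inv₀, ← e, map_inv₀, inv_inv]

end Pool.Agent.MP_19ffc6_ag.Perf.Ss

end MrgPart2

-- marker of a merged file
example : 731051 + 409715 = 731051 + 409715 := rfl
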