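import Pool.Agent.MP_19ffc6_ag.perf.SsSpr

-- ======== part 0: formerly Pool.Agent.MP_19ffc6_ag.perf.SsNrm
section MrgPart0

/-! PROJECT PERF, block SS, row NRM: nodes and standard etale local rings over normal rings are
normal. -/

namespace Pool.Agent.MP_19ffc6_ag.Perf.Ss

open Polynomial IntermediateField Pool.Agent.R72.Wild Pool.Agent.R72.Lci Pool.Agent.R72.Res
  Pool.Agent.R72.Res.B

variable {k L : Type} [Field k] [Field L] [Algebra k L]

namespace NrmA

/-- The field of fractions of a subalgebra. -/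
def fr (D : Subalgebra k L) : IntermediateField k L where
  carrier := {x | ∃ b ∈ D, b ≠ 0 ∧ b * x ∈ D}
  mul_mem' := by
    rintro x y ⟨b, hb, h0, h⟩ ⟨b', hb', h0', h'⟩
    exact ⟨b * b', mul_mem hb hb', mul_ne_zero h0 h0', by
      rw [mul_mul_mul_comm]; exact mul_mem h h'⟩
  add_mem' := by
    rintro x y ⟨b, hb, h0, h⟩ ⟨b', hb', h0', h'⟩
    exact ⟨b * b', mul_mem hb hb', mul_ne_zero h0 h0', by
      rw [show b * b' * (x + y) = b * x * b' + b * (b' * y) by ring]
      exact add_mem (mul_mem h hb') (mul_mem hb h')⟩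
  algebraMap_mem' r := ⟨1, one_mem _, one_ne_zero, by rw [one_mul]; exact D.algebraMap_mem r⟩
  inv_mem' := by
    rintro x ⟨b, hb, h0, h⟩
    rcases eq_or_ne x 0 with rfl | hx
    · exact ⟨1, one_mem _, one_ne_zero, by simp⟩
    · exact ⟨b * x, h, mul_ne_zero h0 hx, by rwa [mul_inv_cancel_right₀ hx]⟩

lemma mem_fr {D : Subalgebra k L} {x : L} (hx : x ∈ D) : x ∈ fr D :=
  ⟨1, one_mem _, one_ne_zero, by rwa [one_mul]⟩

lemma fr_mono {D D' : Subalgebra k L} (h : D ≤ D') : fr D ≤ fr D' :=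
  fun _ ⟨b, hb, h0, hx⟩ => ⟨b, h hb, h0, h hx⟩

lemma normal {E : IntermediateField k L} {A : Subalgebra k L} (h : Nrm E A) :
    IsIntegrallyClosed A :=
  normal_of_mem fun z q hq hq0 hqz hz => h.int z (by
    rw [show z = q * z / q by field_simp]
    exact div_mem (h.le _ hqz) (h.le _ hq)) hz

lemma nrm_of {E : IntermediateField k L} {A : Subalgebra k L} [IsIntegrallyClosed A]
    (h1 : A ≤ E.toSubalgebra) (h2 : E ≤ fr A) : Nrm E A where
  le := h1
  frac := h2
  int x hx hi := by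
    obtain ⟨b, hb, h0, h⟩ := h2 hx
    exact mem_of_integral hb h0 h hi

/-- The ring `R[u]`. -/
abbrev pl (R : Subalgebra k L) (u : L) : Subalgebra k L := R ⊔ Algebra.adjoin k {u}

lemma le_pl (R : Subalgebra k L) (u : L) : R ≤ pl R u := le_sup_left

lemma self_pl (R : Subalgebra k L) (u : L) : u ∈ pl R u :=
  (le_sup_right : Algebra.adjoin k {u} ≤ _) (Algebra.self_mem_adjoin_singleton k u)

lemma pl_le {R D : Subalgebra k L} {u : L} (h : R ≤ D) (hu : u ∈ D) : pl R u ≤ D :=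
  sup_le h (Algebra.adjoin_le (Set.singleton_subset_iff.2 hu))

lemma exists_aeval {R : Subalgebra k L} {u x : L} (hx : x ∈ pl R u) :
    ∃ f : R[X], aeval u f = x :=
  Algebra.adjoin_mem_exists_aeval R u ((mem_sup_adjoin R _ x).1 hx)

lemma split {R : Subalgebra k L} {u x : L} (hx : x ∈ pl R u) :
    ∃ c ∈ R, ∃ y ∈ pl R u, x = c + u * y := by
  obtain ⟨f, rfl⟩ := exists_aeval hx
  refine ⟨f.coeff 0, (f.coeff 0).2, aeval u f.divX, aeval_mem (le_pl R u) (self_pl R u) _, ?_⟩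
  conv_lhs => rw [← X_mul_divX_add f]
  rw [map_add, map_mul, aeval_X, aeval_C, add_comm]; rfl

lemma normal_pl {R : Subalgebra k L} [IsIntegrallyClosed R] {u : L} (hu : Transcendental R u) :
    IsIntegrallyClosed (pl R u) := by
  have : IsIntegrallyClosed (Algebra.adjoin R {u}) :=
    .of_equiv (Polynomial.algEquivOfTranscendental R u hu).toRingEquiv
  exact .of_equiv (R := Algebra.adjoin R {u})
    (RingEquiv.subringCongr (s := (Algebra.adjoin R {u}).toSubring)
      (t := (pl R u).toSubring) (Subring.ext fun x => (mem_sup_adjoin R {u} x).symm))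

/-- The ring `P[1/u]`. -/
def aw (P : Subalgebra k L) {u : L} (hu : u ∈ P) : Subalgebra k L where
  carrier := {x | ∃ n : ℕ, u ^ n * x ∈ P}
  mul_mem' := by
    rintro x y ⟨n, h⟩ ⟨n', h'⟩
    exact ⟨n + n', by rw [pow_add, mul_mul_mul_comm]; exact mul_mem h h'⟩
  add_mem' := by
    rintro x y ⟨n, h⟩ ⟨n', h'⟩
    exact ⟨n + n', by
      rw [show u ^ (n + n') * (x + y) = u ^ n * x * u ^ n' + u ^ n * (u ^ n' * y) by ring]
      exact add_mem (mul_mem h (pow_mem hu _)) (mul_mem (pow_mem hu _) h')⟩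
  algebraMap_mem' r := ⟨0, by rw [pow_zero, one_mul]; exact P.algebraMap_mem r⟩

lemma le_aw (P : Subalgebra k L) {u : L} (hu : u ∈ P) : P ≤ aw P hu :=
  fun x hx => ⟨0, by rwa [pow_zero, one_mul]⟩

lemma normal_aw (P : Subalgebra k L) [IsIntegrallyClosed P] {u : L} (hu : u ∈ P) (h0 : u ≠ 0) :
    IsIntegrallyClosed (aw P hu) := by
  have h1 : Un (aw P hu) u :=
    ⟨le_aw P hu hu, h0, 1, by rw [pow_one, mul_inv_cancel₀ h0]; exact one_mem _⟩
  refine normal_of_le_loc (le_aw P hu) ?_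
  rintro x ⟨n, h⟩
  exact ⟨_, h, _, pow_mem hu n, h1.pow n, by field_simp⟩

lemma dec_aw {R : Subalgebra k L} {u : L} (h0 : u ≠ 0) (n : ℕ) :
    ∀ x, u ^ n * x ∈ pl R u → ∃ a ∈ pl R u, ∃ b ∈ pl R u⁻¹, x = a + u⁻¹ * b := by
  induction n with
  | zero => exact fun x hx => ⟨x, by simpa using hx, 0, zero_mem _, by simp⟩
  | succ n ih =>
    intro x hx
    obtain ⟨c, hc, y, hy, e⟩ := split hx
    have h1 : u ^ n * (x - c * u⁻¹ ^ (n + 1)) = y := by
      have : c = u ^ (n + 1) * x - u * y := by rw [e]; ring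
      rw [this, inv_pow]; field_simp; ring
    obtain ⟨a, ha, b, hb, e'⟩ := ih _ (h1 ▸ hy)
    refine ⟨a, ha, b + c * u⁻¹ ^ n,
      add_mem hb (mul_mem (le_pl R _ hc) (pow_mem (self_pl R _) n)), ?_⟩
    rw [eq_add_of_sub_eq e']; ring

lemma key {R D : Subalgebra k L} [IsIntegrallyClosed R] {u m x : L} (hu : Transcendental R u)
    (hm : m ∈ R) (hD : D ≤ R ⊔ Algebra.adjoin k {u, m / u}) (hx : x ∈ fr (pl R u))
    (hi : IsIntegral D x) : ∃ a ∈ pl R u, ∃ b ∈ pl R u⁻¹, x = a + u⁻¹ * b := by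
  have h0 : u ≠ 0 := by rintro rfl; exact hu isAlgebraic_zero
  have := normal_pl hu
  have := normal_aw (pl R u) (self_pl R u) h0
  have h1 : D ≤ aw (pl R u) (self_pl R u) := hD.trans <|
    sup_le ((le_pl R u).trans (le_aw _ _)) (Algebra.adjoin_le (by
      rintro z (rfl | rfl)
      · exact le_aw _ _ (self_pl R _)
      · exact ⟨1, by rw [pow_one, mul_div_cancel₀ _ h0]; exact le_pl R u hm⟩))
  obtain ⟨b, hb, hb0, hbx⟩ := hx
  obtain ⟨n, hn⟩ := mem_of_integral (le_aw _ _ hb) hb0 (le_aw _ _ hbx) (isIntegral_mono h1 hi)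
  exact dec_aw h0 n x hn

lemma eq_zero {B : Subalgebra k L} {u y z : L} (hu : Transcendental B u) (hy : y ∈ pl B u)
    (hz : z ∈ pl B u⁻¹) (e : y = u⁻¹ * z) : y = 0 := by
  have h0 : u ≠ 0 := by rintro rfl; exact hu isAlgebraic_zero
  obtain ⟨f, rfl⟩ := exists_aeval hy
  obtain ⟨g, rfl⟩ := exists_aeval hz
  let _ : Invertible u⁻¹ := invertibleOfNonzero (inv_ne_zero h0)
  have h1 := eval₂_reverse_mul_pow (algebraMap B L) u⁻¹ g
  rw [invOf_eq_inv, inv_inv, ← aeval_def, ← aeval_def] at h1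
  have h2 : X ^ (g.natDegree + 1) * f = g.reverse := by
    refine transcendental_iff_injective.1 hu ?_
    rw [map_mul, map_pow, aeval_X, e, ← h1, inv_pow]
    field_simp
    ring
  by_contra hf
  have hf0 : f ≠ 0 := by rintro rfl; exact hf (map_zero _)
  have h3 := congrArg natDegree h2
  rw [natDegree_X_pow_mul _ hf0] at h3
  have := reverse_natDegree_le g
  omega

/-- The derivative of the minimal polynomial lies in the conductor. -/
lemma cond {A M : Type} [CommRing A] [IsDomain A] [IsIntegrallyClosed A] [Field M] [Algebra A M]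
    [FaithfulSMul A M] {η y : M} (hi : IsIntegral A η) (hy : IsIntegral (Algebra.adjoin A {η}) y)
    {U G : A[X]} (hU : aeval η U ≠ 0) (e : aeval η U * y = aeval η G) :
    ∃ g : A[X], aeval η (derivative (minpoly A η)) * y = aeval η g := by
  let F := FractionRing A
  let _ := FractionRing.liftAlgebra A M
  have := FractionRing.isScalarTower_liftAlgebra A M
  let B : IntermediateField F M := IntermediateField.adjoin F {η}
  have hF : IsIntegral F η := hi.tower_top
  let η' : B := IntermediateField.AdjoinSimple.gen F η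
  have hB : ∀ g : A[X], aeval η g ∈ B := fun g => by
    rw [← aeval_map_algebraMap F]
    exact IntermediateField.algebra_adjoin_le_adjoin F _ (aeval_mem_adjoin_singleton F η)
  have h4 : IsIntegral A y := by
    have : Algebra.IsIntegral A (Algebra.adjoin A {η}) :=
      Algebra.IsIntegral.adjoin (by simpa using hi)
    exact isIntegral_trans _ hy
  have h5 : y ∈ B := by
    rw [show y = aeval η G / aeval η U by rw [← e]; field_simp]
    exact div_mem (hB _) (hB _)
  let φ : F[X] →ₐ[A] B := (aeval η').restrictScalars A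
  have hφ : ∀ g, (φ g : M) = aeval η g := fun g => by
    change algebraMap B M (aeval η' g) = _
    rw [← aeval_algebraMap_apply]; rfl
  have hφ' : Function.Surjective φ := fun y => by
    have h6 : (y : M) ∈ Algebra.adjoin F {η} := by
      rw [← IntermediateField.adjoin_simple_toSubalgebra_of_isAlgebraic hF.isAlgebraic]
      exact y.2
    obtain ⟨g, hg⟩ := Algebra.adjoin_mem_exists_aeval F η h6
    exact ⟨g, Subtype.ext ((hφ g).trans hg)⟩
  have hmp := minpoly.isIntegrallyClosed_eq_field_fractions' F hi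
  have : IsScalarTower A B M := .of_algebraMap_eq fun _ => rfl
  obtain ⟨g, hg, hg'⟩ := exists_derivative_mul_eq_and_isIntegral_coeff hφ'
    (f := minpoly F η) (minpoly.monic hF)
    (fun i => by rw [hmp, coeff_map]; exact isIntegral_algebraMap)
    (Ideal.ext fun g => by
      rw [RingHom.mem_ker, Ideal.mem_span_singleton, minpoly.dvd_iff, ← hφ]
      exact Subtype.ext_iff)
    (y := ⟨_, h5⟩) ((isIntegral_algebraMap_iff (B := M) Subtype.val_injective).1 h4)
  have h6 : aeval η (derivative (minpoly A η)) * y = aeval η g := by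
    have := congrArg (fun y : B => (y : M)) hg
    simp only [MulMemClass.coe_mul, hφ] at this
    rwa [hmp, derivative_map, aeval_map_algebraMap] at this
  obtain ⟨g', rfl⟩ := (mem_lifts (f := algebraMap A F) g).1 ((lifts_iff_coeff_lifts g).2 fun i =>
    IsIntegrallyClosed.isIntegral_iff.1 (hg' i))
  exact ⟨g', by rw [h6, aeval_map_algebraMap]⟩

/-- A local ring of `A[η]` at which `η` is a simple root is normal. -/
theorem normal_eta {A O : Subalgebra k L} [IsIntegrallyClosed A] (hA : A ≤ O) (hO : Lcl O) {η : L}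
    {P : A[X]} (hη : η ∈ O) (hm : P.Monic) (h0 : aeval η P = 0)
    (h1 : Un O (aeval η (derivative P)))
    (h2 : ∀ x ∈ O, ∃ U G : A[X], Un O (aeval η U) ∧ x = aeval η G / aeval η U) :
    IsIntegrallyClosed O := by
  have hi : IsIntegral A η := ⟨P, hm, h0⟩
  obtain ⟨q, hq⟩ := minpoly.isIntegrallyClosed_dvd hi h0
  have h3 : Un O (aeval η (derivative (minpoly A η))) := by
    rw [hq, derivative_mul, map_add, map_mul, map_mul, minpoly.aeval, zero_mul, add_zero] at h1
    exact Un.of_mul (aeval_mem hA hη _) (aeval_mem hA hη _) h1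
  let E : Subalgebra k L := (Algebra.adjoin A {η}).restrictScalars k
  have hE : E ≤ O := fun x hx => by
    obtain ⟨g, rfl⟩ := Algebra.adjoin_mem_exists_aeval A η hx
    exact aeval_mem hA hη g
  have hE' : IsPoint E O := ⟨hE, hO, fun x hx => by
    obtain ⟨U, G, h4, rfl⟩ := h2 x hx
    exact ⟨_, aeval_mem_adjoin_singleton A η, _, aeval_mem_adjoin_singleton A η, h4, rfl⟩⟩
  refine normal_of_mem fun x q hq hq0 hqx hx => ?_
  obtain ⟨s, hs, hu, hsx⟩ := (IsPoint.isIntegral_iff hE').1 hx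
  obtain ⟨U, G, hU, e⟩ := h2 _ hq
  obtain ⟨U', G', hU', e'⟩ := h2 _ (mul_mem hu.1 hqx)
  have hG : aeval η G ≠ 0 := fun h => hq0 (by rw [e, h, zero_div])
  obtain ⟨g, hg⟩ := cond (y := s * x) (U := G * U') (G := G' * U) hi hsx
    (by rw [map_mul]; exact mul_ne_zero hG hU'.2.1) (by
      rw [map_mul, map_mul, ← (eq_div_iff hU.2.1).1 e, ← (eq_div_iff hU'.2.1).1 e']; ring)
  have h7 := aeval_mem hA hη g
  rw [← hg, ← mul_assoc] at h7
  have h8 := mul_mem (h3.mul hu).2.2 h7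
  rwa [inv_mul_cancel_left₀ (h3.mul hu).2.1] at h8

/-- A monic polynomial with coefficients in a subalgebra comes from the subalgebra. -/
lemma lift_monic {A : Subalgebra k L} {P : L[X]} (hm : P.Monic) (hc : ∀ i, P.coeff i ∈ A) :
    ∃ Q : A[X], Q.Monic ∧ Q.map (algebraMap A L) = P := by
  obtain ⟨Q, h1, -, h2⟩ := lifts_and_degree_eq_and_monic (f := algebraMap A L) (p := P)
    ((lifts_iff_coeff_lifts P).2 fun i => ⟨⟨_, hc i⟩, rfl⟩) hm
  exact ⟨Q, h2, h1⟩

end NrmA

open NrmA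

theorem nod : NodStmt k L := by
  intro F R u m hR hu hm
  have := normal hR
  have hRF : R ≤ F.toSubalgebra := hR.le
  have hF : ∀ z, Transcendental F z → Transcendental R z := fun z hz h =>
    hz (isAlgebraic_mono hRF h)
  have h0 : u ≠ 0 := by rintro rfl; exact hu isAlgebraic_zero
  set D := R ⊔ Algebra.adjoin k {u, m / u} with hD
  have hu1 : u ∈ D := (le_sup_right : Algebra.adjoin k _ ≤ _) (Algebra.subset_adjoin (by simp))
  have hv1 : m / u ∈ D := (le_sup_right : Algebra.adjoin k _ ≤ _) (Algebra.subset_adjoin (by simp))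
  have huE : u ∈ F ⊔ k⟮u⟯ := (le_sup_right : k⟮u⟯ ≤ _) (mem_adjoin_simple_self k u)
  have hfr : ∀ z : L, u ∈ fr (pl R z) → F ⊔ k⟮u⟯ ≤ fr (pl R z) := fun z hz =>
    sup_le (fun x hx => fr_mono (le_pl R z) (hR.frac x hx)) (adjoin_simple_le_iff.2 hz)
  have hle : D ≤ (F ⊔ k⟮u⟯).toSubalgebra :=
    sup_le (fun x hx => (le_sup_left : F ≤ _) (hRF hx)) (Algebra.adjoin_le (by
      rintro z (rfl | rfl)
      · exact huE
      · exact (F ⊔ k⟮u⟯).div_mem ((le_sup_left : F ≤ _) (hRF hm)) huE))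
  have hp : pl R u ≤ D := pl_le le_sup_left hu1
  have hf1 := hfr u (mem_fr (self_pl R u))
  refine ⟨hle, fun x hx => fr_mono hp (hf1 hx), fun x hx hi => ?_⟩
  rcases eq_or_ne m 0 with rfl | hm0
  · have := normal_pl (hF u hu)
    have h1 : D ≤ pl R u := sup_le (le_pl R u) (Algebra.adjoin_le (by
      rintro z (rfl | rfl)
      · exact self_pl R _
      · rw [zero_div]; exact zero_mem _))
    obtain ⟨b, hb, hb0, hbx⟩ := hf1 hx
    exact hp (mem_of_integral hb hb0 hbx (isIntegral_mono h1 hi))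
  have e1 : m / (m / u) = u := by field_simp
  have hv : Transcendental F (m / u) := fun h => hu (by
    rw [← e1, div_eq_mul_inv]
    exact (isAlgebraic_algebraMap (⟨m, hRF hm⟩ : F)).mul h.inv)
  obtain ⟨a, ha, b, hb, e⟩ := key (hF u hu) hm le_rfl (hf1 hx) hi
  obtain ⟨a', ha', b', hb', e'⟩ := key (D := D) (hF _ hv) hm (by rw [e1, Set.pair_comm])
    (hfr _ (by
      have := div_mem (mem_fr (le_pl R (m / u) hm)) (mem_fr (self_pl R (m / u)))
      rwa [e1] at this) hx) hi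
  obtain ⟨c, hc, y, hy, rfl⟩ := split ha'
  have hmF : m ∈ F.toSubalgebra := hRF hm
  have hi1 : (m / u)⁻¹ ∈ pl F.toSubalgebra u := by
    rw [inv_div, div_eq_mul_inv]
    exact mul_mem (self_pl _ u) (le_pl _ u (F.inv_mem hmF))
  have hi2 : m / u ∈ pl F.toSubalgebra u⁻¹ := by
    rw [div_eq_mul_inv]
    exact mul_mem (le_pl _ _ hmF) (self_pl _ _)
  have h2 : a - (m / u)⁻¹ * b' - c = 0 :=
    eq_zero (B := F.toSubalgebra) (z := m * y - b) hu
      (sub_mem (sub_mem (pl_le (hRF.trans (le_pl _ _)) (self_pl _ _) ha)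
        (mul_mem hi1 (pl_le (hRF.trans (le_pl _ _)) hi1 hb'))) (le_pl _ _ (hRF hc)))
      (sub_mem (mul_mem (le_pl _ _ hmF) (pl_le (hRF.trans (le_pl _ _)) hi2 hy))
        (pl_le (hRF.trans (le_pl _ _)) (self_pl _ _) hb))
      (by rw [div_eq_mul_inv] at e' ⊢; linear_combination e' - e)
  have h3 : x = a + m / u * y := by linear_combination e' - h2
  rw [h3]
  exact add_mem (hp ha) (mul_mem hv1 (pl_le le_sup_left hv1 hy))

theorem eta : EtaStmt k L := by
  rintro E A W η hA hAW hW hη ⟨P, hm, hc, h0, h1⟩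
  have := normal hA
  have hP := isPoint_loc hAW hW
  have := normal_of_le_loc hP.le hP.le_loc
  have hDW : pl A η ≤ W := pl_le hAW hη
  have hQ := isPoint_loc hDW hW
  have hOW : loc (pl A η) W ≤ W := loc_le hDW
  have hA' : loc A W ≤ loc (pl A η) W := loc_le_loc ((le_pl A η).trans (le_loc _ _)) hDW
  have hη' : η ∈ loc (pl A η) W := le_loc _ _ (self_pl A η)
  have hun : ∀ x ∈ loc (pl A η) W, Un W x → Un (loc (pl A η) W) x := by
    rintro _ ⟨a, ha, b, hb, hu, rfl⟩ hx
    have h2 := hx.mul hu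
    rw [div_mul_cancel₀ _ hu.2.1] at h2
    rw [div_eq_mul_inv]
    exact (un_loc ha h2).mul (un_loc hb hu).inv
  obtain ⟨Q, hQm, rfl⟩ := lift_monic hm hc
  rw [eval_map_algebraMap] at h0
  rw [derivative_map, eval_map_algebraMap] at h1
  have : IsIntegrallyClosed (lr A {η} W) :=
    normal_eta hA' hQ.lcl hη' hQm h0 (hun _ (aeval_mem hA' hη' _) h1) (by
      rintro _ ⟨a, ha, b, hb, hu, rfl⟩
      have h2 : pl A η ≤ pl (loc A W) η := pl_le (hP.le.trans (le_pl _ _)) (self_pl _ _)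
      obtain ⟨G, rfl⟩ := exists_aeval (h2 ha)
      obtain ⟨U, rfl⟩ := exists_aeval (h2 hb)
      exact ⟨U, G, un_loc hb hu, rfl⟩)
  refine nrm_of ?_ (sup_le (fun x hx => fr_mono ((le_pl A η).trans (le_loc _ _)) (hA.frac x hx))
    (adjoin_simple_le_iff.2 (mem_fr hη')))
  have h2 : pl A η ≤ (E ⊔ k⟮η⟯).toSubalgebra :=
    pl_le (fun x hx => (le_sup_left : E ≤ _) (hA.le x hx))
      ((le_sup_right : k⟮η⟯ ≤ _) (mem_adjoin_simple_self k η))
  rintro _ ⟨a, ha, b, hb, -, rfl⟩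
  exact (E ⊔ k⟮η⟯).div_mem (h2 ha) (h2 hb)

end Pool.Agent.MP_19ffc6_ag.Perf.Ss

end MrgPart0

-- ======== part 1: formerly Pool.Agent.MP_19ffc6_ag.perf.SsUco
section MrgPart1

/-! PROJECT PERF, block SS, row UCO: deciding algebraic elements and monomials. -/

namespace Pool.Agent.MP_19ffc6_ag.Perf.Ss

open Polynomial IntermediateField Pool.Agent.R72.Wild Pool.Agent.R72.Lci Pool.Agent.R72.Res
  Pool.Agent.R72.Res.B

variable {k L : Type} [Field k] [Field L] [Algebra k L]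

namespace Uco

variable {C : IntermediateField k L} {V O : Subalgebra k L} {x y g : L} {U U' : Finset L}

lemma dec_of_un (h : Dec O x) (hu : Un O (g / x)) : Dec O g := by
  have hx : x ≠ 0 := fun e => hu.2.1 (by simp [e])
  rcases h with h | h
  · left
    rw [← div_mul_cancel₀ g hx]
    exact mul_mem hu.1 h
  · right
    rw [← div_mul_cancel₀ g hx, mul_inv]
    exact mul_mem hu.2.2 h

lemma dec_zpow (h : Dec O x) (n : ℤ) : Dec O (x ^ n) := by
  have key : ∀ m : ℕ, Dec O (x ^ m) := fun m =>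
    h.imp (fun h => pow_mem h m) fun h => by rw [← inv_pow]; exact pow_mem h m
  obtain ⟨m, rfl | rfl⟩ := n.eq_nat_or_neg
  · rw [zpow_natCast]; exact key m
  · rw [zpow_neg, zpow_natCast]
    exact (key m).symm.imp id fun h => by rwa [inv_inv]

lemma dec_mem (hd : Dom O V) (h : Dec O x) (hx : x ∈ V) : x ∈ O := by
  refine h.elim id fun h => ?_
  by_cases h0 : x = 0
  · rw [h0]; exact zero_mem _
  simpa using (hd.2 _ h ⟨hd.1 h, inv_ne_zero h0, by simpa using hx⟩).2.2

/-- a largest member of a finite family whose ratios are decided -/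
lemma exists_max {ι : Type} {T : Finset ι} (hT : T.Nonempty) (f : ι → L) (h0 : ∀ t ∈ T, f t ≠ 0)
    (hd : ∀ a ∈ T, ∀ b ∈ T, Dec O (f a / f b)) : ∃ j ∈ T, ∀ t ∈ T, f t / f j ∈ O := by
  classical
  induction hT using Finset.Nonempty.cons_induction with
  | singleton a => exact ⟨a, by simp, by simp [div_self (h0 a (by simp))]⟩
  | cons a s ha hs ih =>
    obtain ⟨j, hj, H⟩ := ih (fun t ht => h0 t (by simp [ht]))
      fun a ha b hb => hd a (by simp [ha]) b (by simp [hb])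
    have ha0 := h0 a (by simp)
    have hj0 := h0 j (by simp [hj])
    rcases hd a (by simp) j (by simp [hj]) with h1 | h1
    · refine ⟨j, by simp [hj], fun t ht => ?_⟩
      rcases Finset.mem_cons.1 ht with rfl | ht
      exacts [h1, H t ht]
    · refine ⟨a, by simp, fun t ht => ?_⟩
      rcases Finset.mem_cons.1 ht with rfl | ht
      · rw [div_self ha0]; exact one_mem _
      · rw [show f t / f a = f t / f j * (f a / f j)⁻¹ by field_simp]
        exact mul_mem (H t ht) h1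

lemma mono_mono (h : U ⊆ U') : Mono C y U ≤ Mono C y U' :=
  Submonoid.closure_mono (Set.union_subset_union_right _ fun _ ⟨s, hs, e⟩ => ⟨s, h hs, e⟩)

lemma mono_inv (h : g ∈ Mono C y U) : g⁻¹ ∈ Mono C y U := by
  induction h using Submonoid.closure_induction with
  | mem x hx =>
    refine Submonoid.subset_closure ?_
    rcases hx with hx | ⟨s, hs, rfl | rfl⟩
    · exact .inl ⟨inv_mem hx.1, inv_ne_zero hx.2⟩
    · exact .inr ⟨s, hs, .inr rfl⟩
    · exact .inr ⟨s, hs, .inl (inv_inv _)⟩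
  | one => rw [inv_one]; exact one_mem _
  | mul a b _ _ ha hb => rw [mul_inv]; exact mul_mem ha hb

lemma mono_aeval [IsAlgClosed L] (hC : AC C) (y : L) {p : C[X]} (hp : aeval y p ≠ 0) :
    ∃ U : Finset L, (∀ s ∈ U, s ∈ C) ∧ aeval y p ∈ Mono C y U := by
  classical
  have hp0 : p ≠ 0 := fun e => hp (by simp [e])
  refine ⟨(p.map (algebraMap C L)).roots.toFinset, fun s hs => hC s ⟨p, hp0, ?_⟩, ?_⟩
  · have := (mem_roots'.1 (Multiset.mem_toFinset.1 hs)).2
    rwa [IsRoot, eval_map_algebraMap] at this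
  · rw [← eval_map_algebraMap, (IsAlgClosed.splits (p.map (algebraMap C L))).eval_eq_prod_roots]
    refine mul_mem (Submonoid.subset_closure (.inl ⟨?_, ?_⟩)) (Submonoid.multiset_prod_mem _ _ ?_)
    · rw [leadingCoeff_map]
      exact p.leadingCoeff.2
    · exact leadingCoeff_ne_zero.2 (Polynomial.map_ne_zero hp0)
    · intro z hz
      obtain ⟨s, hs, rfl⟩ := Multiset.mem_map.1 hz
      exact Submonoid.subset_closure (.inr ⟨s, Multiset.mem_toFinset.2 hs, .inl rfl⟩)

/-- rational functions are monomials -/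
lemma mono_rat [IsAlgClosed L] (hC : AC C) {a : L} (ha : a ∈ C ⊔ k⟮y⟯) (h0 : a ≠ 0) :
    ∃ U : Finset L, (∀ s ∈ U, s ∈ C) ∧ a ∈ Mono C y U := by
  classical
  rw [← restrictScalars_adjoin_eq_sup, mem_restrictScalars, mem_adjoin_simple_iff] at ha
  obtain ⟨p, q, rfl⟩ := ha
  obtain ⟨U, h1, h2⟩ := mono_aeval hC y (div_ne_zero_iff.1 h0).1
  obtain ⟨U', h3, h4⟩ := mono_aeval hC y (div_ne_zero_iff.1 h0).2
  refine ⟨U ∪ U', fun s hs => (Finset.mem_union.1 hs).elim (h1 s) (h3 s), ?_⟩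
  rw [div_eq_mul_inv]
  exact mul_mem (mono_mono Finset.subset_union_left h2)
    (mono_inv (mono_mono Finset.subset_union_right h4))

/-- the shape of a monomial on a region of the tree -/
lemma shape {s₀ : L} (hU : ∀ s ∈ U, s ∈ C) (hs : s₀ ∈ C) (h0 : y - s₀ ≠ 0) (J : Finset L)
    (h : g ∈ Mono C y U) : ∃ c ∈ C, ∃ i : ℤ, ∀ O : Subalgebra k L,
      (∀ s ∈ U, (s ∈ J → Un O ((y - s) / (y - s₀))) ∧ (s ∉ J → Un O ((y - s) / (s - s₀)))) →
      Un O (g / (c * (y - s₀) ^ i)) := by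
  have key : ∀ s ∈ U, ∃ c ∈ C, ∃ i : ℤ, ∀ O : Subalgebra k L,
      (∀ s ∈ U, (s ∈ J → Un O ((y - s) / (y - s₀))) ∧ (s ∉ J → Un O ((y - s) / (s - s₀)))) →
      Un O ((y - s) / (c * (y - s₀) ^ i)) := fun s hs' => by
    by_cases hJ : s ∈ J
    · exact ⟨1, one_mem _, 1, fun O H => by simpa using (H s hs').1 hJ⟩
    · exact ⟨s - s₀, sub_mem (hU s hs') hs, 0, fun O H => by simpa using (H s hs').2 hJ⟩
  induction h using Submonoid.closure_induction with
  | mem x hx =>
    rcases hx with hx | ⟨s, hs', rfl | rfl⟩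
    · exact ⟨x, hx.1, 0, fun O _ => by simpa [div_self hx.2] using Un.one O⟩
    · exact key s hs'
    · obtain ⟨c, hc, i, H⟩ := key s hs'
      refine ⟨c⁻¹, inv_mem hc, -i, fun O HO => ?_⟩
      rw [zpow_neg, ← mul_inv, ← inv_div']
      exact (H O HO).inv
  | one => exact ⟨1, one_mem _, 0, fun O _ => by simpa using Un.one O⟩
  | mul a b _ _ ha hb =>
    obtain ⟨c, hc, i, H⟩ := ha
    obtain ⟨c', hc', i', H'⟩ := hb
    refine ⟨c * c', mul_mem hc hc', i + i', fun O HO => ?_⟩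
    rw [zpow_add₀ h0, mul_mul_mul_comm, ← div_mul_div_comm]
    exact (H O HO).mul (H' O HO)

lemma root [IsAlgClosed L] (hC : AC C) {c : L} (hc : c ∈ C) (i : ℤ) :
    ∃ μ, (μ ∈ C ∧ μ ≠ 0) ∧ (c ≠ 0 → i ≠ 0 → μ ^ i = c) := by
  by_cases h : c = 0 ∨ i = 0
  · exact ⟨1, ⟨one_mem _, one_ne_zero⟩, fun h1 h2 => (h.elim h1 h2).elim⟩
  push Not at h
  obtain ⟨μ, hμ⟩ := IsAlgClosed.exists_pow_nat_eq c (Int.natAbs_pos.2 h.2)
  have h1 : μ ∈ C := hC μ (IsAlgebraic.of_pow (Int.natAbs_pos.2 h.2)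
    (hμ ▸ isAlgebraic_algebraMap (⟨c, hc⟩ : C)))
  have h2 : μ ≠ 0 := fun e => h.1 (by rw [← hμ, e, zero_pow (Int.natAbs_pos.2 h.2).ne'])
  rcases Int.natAbs_eq i with e | e
  · exact ⟨μ, ⟨h1, h2⟩, fun _ _ => by rw [e, zpow_natCast, hμ]⟩
  · exact ⟨μ⁻¹, ⟨inv_mem h1, inv_ne_zero h2⟩, fun _ _ => by
      rw [e, inv_zpow', neg_neg, zpow_natCast, hμ]⟩

/-- seen from the nearest centre -/
lemma near {s s₀ : L} (hV : Val V) (hd : Dom O V) (h0 : y - s ≠ 0)
    (hn : (y - s₀) / (y - s) ∈ V) (h : Dec O ((y - s) / (s - s₀)))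
    (hJ : ¬ Un O ((y - s) / (y - s₀))) : Un O ((y - s) / (s - s₀)) := by
  have e : ((y - s) / (s - s₀))⁻¹ = (y - s₀) / (y - s) - 1 := by field_simp; ring
  have h1 : ((y - s) / (s - s₀))⁻¹ ∈ O :=
    dec_mem hd (h.symm.imp id fun h => by rwa [inv_inv]) (e ▸ sub_mem hn (one_mem _))
  have h2 : (y - s₀) / (y - s) ∈ O := by simpa [e] using add_mem h1 (one_mem O)
  rcases hV.lcl _ hn _ (neg_mem (hd.1 h1)) (by rw [e]; simpa using Un.one V) with h3 | h3
  · exact absurd (by simpa using (hd.2 _ h2 h3).inv) hJ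
  · simpa using (hd.2 _ h1 (by simpa using un_neg h3)).inv

end Uco

open Uco

theorem uco [IsAlgClosed L] : UcoStmt k L := by
  classical
  rintro C y x hC - ⟨P, hP0, hP⟩
  set Q := P.map (algebraMap _ L) with hQ
  have h0 : ∀ i ∈ Q.support, Q.coeff i ≠ 0 := fun i => mem_support_iff.1
  have h1 : ∀ i, ∃ U : Finset L, (∀ s ∈ U, s ∈ C) ∧ (i ∈ Q.support → Q.coeff i ∈ Mono C y U) := by
    intro i
    by_cases hi : i ∈ Q.support
    · obtain ⟨U, h1, h2⟩ := mono_rat hC (y := y) (by rw [hQ, coeff_map]; exact (P.coeff i).2)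
        (h0 i hi)
      exact ⟨U, h1, fun _ => h2⟩
    · exact ⟨∅, by simp, fun h => absurd h hi⟩
  choose U h1 h2 using h1
  have h3 : ∀ i ∈ Q.support, Q.coeff i ∈ Mono C y (Q.support.biUnion U) := fun i hi =>
    mono_mono (Finset.subset_biUnion_of_mem U hi) (h2 i hi)
  refine ⟨Q.support.biUnion U,
    (Q.support ×ˢ Q.support).image fun p => Q.coeff p.1 / Q.coeff p.2, fun s hs => ?_,
    fun g hg => ?_, fun O hl hn hG => ?_⟩
  · obtain ⟨i, -, hi⟩ := Finset.mem_biUnion.1 hs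
    exact h1 i s hi
  · obtain ⟨p, hp, rfl⟩ := Finset.mem_image.1 hg
    rw [div_eq_mul_inv]
    exact mul_mem (h3 _ (Finset.mem_product.1 hp).1) (mono_inv (h3 _ (Finset.mem_product.1 hp).2))
  · obtain ⟨j, hj, H⟩ := exists_max (O := O) (support_nonempty.2 (Polynomial.map_ne_zero hP0))
      Q.coeff h0 fun a ha b hb =>
        hG _ (Finset.mem_image.2 ⟨(a, b), Finset.mem_product.2 ⟨ha, hb⟩, rfl⟩)
    refine uu hl hn (P := Q * Polynomial.C (Q.coeff j)⁻¹) (fun i => ?_) ⟨j, ?_⟩ ?_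
    · rw [coeff_mul_C, ← div_eq_mul_inv]
      by_cases hi : i ∈ Q.support
      · exact H i hi
      · rw [notMem_support_iff.1 hi, zero_div]
        exact zero_mem _
    · rw [coeff_mul_C, mul_inv_cancel₀ (h0 j hj)]
      exact Un.one O
    · rw [eval_mul, hQ, eval_map_algebraMap, hP, zero_mul]

theorem mono [IsAlgClosed L] : MonoStmt k L := by
  classical
  intro C y g U hC hy hU hg
  have hdec : ∀ {V O : Subalgebra k L}, Val V → cs C V ≤ O → ∀ c ∈ C, Dec O c :=
    fun hV h c hc => (hV c).imp (fun h1 => h ⟨h1, hc⟩) fun h1 => h ⟨h1, C.inv_mem hc⟩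
  rcases U.eq_empty_or_nonempty with rfl | hne
  · refine ⟨∅, by simp, fun V O hV h _ _ => hdec hV h g ?_⟩
    refine (Submonoid.closure_le (S := C.toSubalgebra.toSubmonoid)).2 ?_ hg
    rintro x (hx | ⟨s, hs, -⟩)
    · exact hx.1
    · simp at hs
  have h0 : ∀ s ∈ U, y - s ≠ 0 := fun s hs e =>
    hy (sub_eq_zero.1 e ▸ isAlgebraic_algebraMap (⟨s, hU s hs⟩ : C))
  choose c hc i H using fun (p : U × Finset L) => shape hU (hU _ p.1.2) (h0 _ p.1.2) p.2 hg
  choose μ hμ hμ' using fun p => root hC (inv_mem (hc p)) (i p)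
  refine ⟨((U ×ˢ U).image fun p => p.1 - p.2).erase 0 ∪ (Finset.univ ×ˢ U.powerset).image μ,
    fun l hl => ?_, fun V O hV h hd hT => ?_⟩
  · rcases Finset.mem_union.1 hl with hl | hl
    · obtain ⟨h1, h2⟩ := Finset.mem_erase.1 hl
      obtain ⟨p, hp, rfl⟩ := Finset.mem_image.1 h2
      exact ⟨sub_mem (hU _ (Finset.mem_product.1 hp).1) (hU _ (Finset.mem_product.1 hp).2), h1⟩
    · obtain ⟨p, -, rfl⟩ := Finset.mem_image.1 hl
      exact hμ p
  obtain ⟨s₀, hs₀, hn⟩ := exists_max (O := V) hne (fun s => (y - s)⁻¹)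
    (fun s hs => inv_ne_zero (h0 s hs)) fun _ _ _ _ => hV _
  let p : U × Finset L := (⟨s₀, hs₀⟩, U.filter fun s => Un O ((y - s) / (y - s₀)))
  have h1 : Un O (g / (c p * (y - s₀) ^ i p)) := H p O fun s hs =>
    ⟨fun hJ => (Finset.mem_filter.1 hJ).2, fun hJ => by
      have hJ' : ¬ Un O ((y - s) / (y - s₀)) := fun h => hJ (Finset.mem_filter.2 ⟨hs, h⟩)
      have e : s - s₀ ≠ 0 := fun e => hJ' (by
        rw [sub_eq_zero.1 e, div_self (h0 _ hs₀)]; exact Un.one O)
      refine near hV hd (h0 s hs) (by have := hn s hs; rwa [inv_div_inv] at this)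
        (hT s hs _ (Finset.mem_union_left _ (Finset.mem_erase.2 ⟨e, Finset.mem_image.2
          ⟨(s, s₀), Finset.mem_product.2 ⟨hs, hs₀⟩, rfl⟩⟩))) hJ'⟩
  refine dec_of_un ?_ h1
  by_cases hi : i p = 0
  · rw [hi, zpow_zero, mul_one]
    exact hdec hV h _ (hc p)
  have hc0 : c p ≠ 0 := fun e => h1.2.1 (by simp [e])
  have := dec_zpow (hT s₀ hs₀ (μ p) (Finset.mem_union_right _ (Finset.mem_image_of_mem μ
    (Finset.mem_product.2 ⟨Finset.mem_univ _, Finset.mem_powerset.2 (Finset.filter_subset _ _)⟩))))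
    (i p)
  rwa [div_zpow, hμ' p (inv_ne_zero hc0) hi, div_inv_eq_mul, mul_comm] at this

end Pool.Agent.MP_19ffc6_ag.Perf.Ss

end MrgPart1

-- marker of a merged file
example : 731051 + 597557 = 731051 + 597557 := rfl
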