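import Pool.Agent.MP_19ffc6_ag.perf.SsSpr
import Pool.Agent.MP_19ffc6_ag.perf.HrEtv
import Pool.Agent.MP_19ffc6_ag.perf.HrT4
import Pool.Agent.MP_19ffc6_ag.perf.SsAsm
import Pool.Agent.MP_19ffc6_ag.perf.SsExt
import Pool.Agent.MP_19ffc6_ag.perf.SsComp
import Pool.Agent.MP_19ffc6_ag.perf.SsUco
import Pool.Agent.MP_19ffc6_ag.perf.HrAll
import Pool.Agent.MP_19ffc6_ag.perf.HrFin2

-- ======== part 0: formerly Pool.Agent.MP_19ffc6_ag.perf.SsCh
section MrgPart0

/-! PROJECT PERF, block SS, row CH: a chart at every valuation ring. -/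

namespace Pool.Agent.MP_19ffc6_ag.Perf.Ss

open Polynomial IntermediateField Pool.Agent.R72.Wild Pool.Agent.R72.Lci Pool.Agent.R72.Res
  Pool.Agent.R72.Res.B

variable {k L : Type} [Field k] [Field L] [Algebra k L]

namespace ChP

lemma un_iff_val {V : Subalgebra k L} (h : Val V) {x : L} : Un V x ↔ h.vs.valuation x = 1 := by
  have m : ∀ z, z ∈ V ↔ h.vs.valuation z ≤ 1 := fun z => (h.vs.valuation_le_one_iff z).symm
  rw [Un, m, m, map_inv₀]
  refine ⟨fun ⟨h1, h0, h2⟩ => le_antisymm h1 ?_, fun e => ⟨e.le, ?_, by rw [e, inv_one]⟩⟩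
  · exact (inv_le_one₀ (zero_lt_iff.2 ((Valuation.ne_zero_iff _).2 h0))).1 h2
  · rintro rfl
    simp at e

lemma fin_sup {R : Subalgebra k L} {S : Set L} {x : L} (hx : x ∈ R ⊔ Algebra.adjoin k S) :
    ∃ Z : Finset L, (∀ z ∈ Z, z ∈ R) ∧
      ∀ B : Subalgebra k L, (∀ z ∈ Z, z ∈ B) → S ⊆ B → x ∈ B := by
  classical
  rw [← Algebra.adjoin_eq R, ← Algebra.adjoin_union] at hx
  induction hx using Algebra.adjoin_induction with
  | mem x hx =>
    rcases hx with hx | hx
    · exact ⟨{x}, by simpa using hx, fun B h _ => h x (Finset.mem_singleton_self x)⟩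
    · exact ⟨∅, by simp, fun B _ h => h hx⟩
  | algebraMap c => exact ⟨∅, by simp, fun B _ _ => B.algebraMap_mem c⟩
  | add x y _ _ h1 h2 =>
    obtain ⟨Z, a, b⟩ := h1
    obtain ⟨Z', a', b'⟩ := h2
    exact ⟨Z ∪ Z', fun z hz => (Finset.mem_union.1 hz).elim (a z) (a' z), fun B h hS =>
      add_mem (b B (fun z hz => h z (Finset.mem_union_left _ hz)) hS)
        (b' B (fun z hz => h z (Finset.mem_union_right _ hz)) hS)⟩
  | mul x y _ _ h1 h2 =>
    obtain ⟨Z, a, b⟩ := h1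
    obtain ⟨Z', a', b'⟩ := h2
    exact ⟨Z ∪ Z', fun z hz => (Finset.mem_union.1 hz).elim (a z) (a' z), fun B h hS =>
      mul_mem (b B (fun z hz => h z (Finset.mem_union_left _ hz)) hS)
        (b' B (fun z hz => h z (Finset.mem_union_right _ hz)) hS)⟩

/-- the value of `x` is a value of `C` -/
def VC (C : IntermediateField k L) (V : Subalgebra k L) (x : L) : Prop := ∃ c ∈ C, Un V (x / c)

variable {C : IntermediateField k L} {V : Subalgebra k L} {x y : L}

lemma VC.mul (h : VC C V x) (h' : VC C V y) : VC C V (x * y) := by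
  obtain ⟨c, hc, h⟩ := h
  obtain ⟨c', hc', h'⟩ := h'
  exact ⟨c * c', mul_mem hc hc', by rw [mul_div_mul_comm]; exact h.mul h'⟩

lemma VC.inv (h : VC C V x) : VC C V x⁻¹ := by
  obtain ⟨c, hc, h⟩ := h
  exact ⟨c⁻¹, inv_mem hc, by rw [inv_div_inv, ← inv_div]; exact h.inv⟩

lemma vc_cst (hx : x ∈ C) (h0 : x ≠ 0) : VC C V x := ⟨x, hx, by rw [div_self h0]; exact Un.one V⟩

lemma vc_poly [IsAlgClosed L] (hC : AC C) (h : ∀ s ∈ C, VC C V (y - s)) {f : C[X]} (h0 : f ≠ 0) :
    VC C V (aeval y f) := by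
  have h1 : f.map (algebraMap C L) ≠ 0 := Polynomial.map_ne_zero h0
  have h2 : ∀ r ∈ (f.map (algebraMap C L)).roots, r ∈ C := fun r hr =>
    hC r ⟨f, h0, by rw [← eval_map_algebraMap]; exact (mem_roots h1).1 hr⟩
  rw [← eval_map_algebraMap, (IsAlgClosed.splits (f.map (algebraMap C L))).eq_prod_roots,
    eval_mul, eval_C]
  refine (vc_cst ?_ (leadingCoeff_ne_zero.2 h1)).mul ?_
  · rw [leadingCoeff_map]
    exact f.leadingCoeff.2
  · generalize (f.map (algebraMap C L)).roots = T at h2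
    induction T using Multiset.induction_on with
    | empty => simpa using vc_cst (V := V) C.one_mem one_ne_zero
    | cons a s ih =>
      rw [Multiset.map_cons, Multiset.prod_cons, eval_mul]
      exact VC.mul (by simpa using h a (h2 a (Multiset.mem_cons_self _ _)))
        (ih fun r hr => h2 r (Multiset.mem_cons_of_mem hr))

lemma vc_rat [IsAlgClosed L] (hC : AC C) (h : ∀ s ∈ C, VC C V (y - s)) (hx : x ∈ C ⊔ k⟮y⟯)
    (h0 : x ≠ 0) : VC C V x := by
  rw [← restrictScalars_adjoin_eq_sup, mem_restrictScalars] at hx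
  obtain ⟨f, g, rfl⟩ := (mem_adjoin_simple_iff C x).1 hx
  rw [div_eq_mul_inv]
  exact (vc_poly hC h fun e => h0 (by simp [e])).mul (vc_poly hC h fun e => h0 (by simp [e])).inv

lemma vc_alg [IsAlgClosed L] (hC : AC C) (hV : Val V) (h : ∀ s ∈ C, VC C V (y - s))
    (hx : IsAlgebraic ↥(C ⊔ k⟮y⟯) x) (h0 : x ≠ 0) : VC C V x := by
  obtain ⟨n, hn, e, he⟩ := Hr.BasH.tie hV.vs.valuation hx
  have e0 : (e : L) ≠ 0 := fun h1 => by
    rw [show algebraMap _ L e = 0 from h1, map_zero] at he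
    exact h0 (by simpa [hn.ne'] using he)
  obtain ⟨c, hc, h1⟩ := vc_rat hC h e.2 e0
  obtain ⟨c1, rfl⟩ := IsAlgClosed.exists_pow_nat_eq c hn
  refine ⟨c1, hC c1 (IsAlgebraic.of_pow hn (isAlgebraic_algebraMap (⟨_, hc⟩ : C))), ?_⟩
  rw [un_iff_val hV] at h1 ⊢
  rw [map_div₀, show hV.vs.valuation (e : L) = _ from he.symm, map_pow, ← div_pow,
    ← map_div₀] at h1
  exact (pow_eq_one_iff_left hn.ne').1 h1

end ChP

open ChP

theorem ch [IsAlgClosed L] (he : ExtStmt k L) : ChStmt k L := by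
  classical
  intro C N y u η V hC hCN hy ty halg hV hR hu hη tu ⟨P, mP, cP, rP, dP⟩ hgen hloc himm
  have hE : C ⊔ k⟮u⟯ ≤ N := sup_le hCN (adjoin_simple_le_iff.2 hu)
  obtain ⟨s₀, hs, hs'⟩ : ∃ s₀ ∈ C, ¬ VC C V (y - s₀) ∨ ∀ s ∈ C, VC C V (y - s) := by
    by_cases h : ∀ s ∈ C, VC C V (y - s)
    · exact ⟨0, C.zero_mem, Or.inr h⟩
    · push Not at h
      obtain ⟨s, h1, h2⟩ := h
      exact ⟨s, h1, Or.inl h2⟩
  have y0 : y - s₀ ≠ 0 := fun h =>
    ty (sub_eq_zero.1 h ▸ isAlgebraic_algebraMap (⟨s₀, hs⟩ : C))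
  have yN : y - s₀ ∈ N := sub_mem hy (hCN hs)
  obtain ⟨e, eE, ue⟩ := himm _ yN y0
  have e0 : e ≠ 0 := fun h => ue.2.1 (by simp [h])
  obtain ⟨a, ha, b, hb, ub, hab⟩ := hloc _ (div_mem yN (hE eE)) ue.1
  obtain ⟨Za, a1, a2⟩ := fin_sup ha
  obtain ⟨Zb, b1, b2⟩ := fin_sup hb
  have cP' : ∀ z ∈ P.coeffs, z ∈ cs (C ⊔ k⟮u⟯) V := fun z hz => by
    obtain ⟨i, -, rfl⟩ := mem_coeffs_iff.1 hz
    exact cP i
  obtain ⟨t, m, mC, tE, ut, tV, mV, h1, h2, h3⟩ := he C u V (insert e (Za ∪ Zb ∪ P.coeffs)) hC tu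
    hV hR fun z hz => by
      simp only [Finset.mem_insert, Finset.mem_union] at hz
      rcases hz with rfl | (hz | hz) | hz
      exacts [eE, (a1 z hz).2, (b1 z hz).2, (cP' z hz).2]
  obtain ⟨c, hc, j, uj⟩ := h2 e (Finset.mem_insert_self _ _) e0
  have tt : Transcendental C t := fun h => tu (isAlgebraic_algebraMap
    (⟨u, (sup_le le_rfl (adjoin_simple_le_iff.2 (hC t h)) : C ⊔ k⟮t⟯ ≤ C) ut⟩ : C))
  have l1 : lr (cs C V) {t, m / t} V ≤ lr (cs C V) {t, m / t, η} V :=
    loc_mono (sup_le_sup_left (Algebra.adjoin_mono (Set.insert_subset_insert (by simp))) _) le_rfl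
  have l2 : lr (cs C V) {t, m / t} V ≤ V :=
    loc_le (sup_le inf_le_left (Algebra.adjoin_le (by
      rintro z (rfl | rfl)
      exacts [tV, mV])))
  have l3 : ({η} : Set L) ⊆ lr (cs C V) {t, m / t, η} V := by
    rintro z rfl
    exact le_loc _ _ (Algebra.mem_sup_right (Algebra.subset_adjoin (by simp)))
  have ha' := a2 _ (fun z hz => l1 (h1 z (by simp [hz]) (a1 z hz).1)) l3
  have hb' := b2 _ (fun z hz => l1 (h1 z (by simp [hz]) (b1 z hz).1)) l3
  have ue' : Un (lr (cs C V) {t, m / t, η} V) ((y - s₀) / e) := by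
    have h5 : (y - s₀) / e ∈ lr (cs C V) {t, m / t, η} V := by
      rw [hab, div_eq_mul_inv a b]
      exact mul_mem ha' (inv_mem_loc hb' ub)
    exact ⟨h5, ue.2.1, inv_mem_loc h5 ue⟩
  have e1 : (y - s₀) / (c * t ^ j) = (y - s₀) / e * (e / (c * t ^ j)) := by
    rw [div_mul_div_cancel₀ e0]
  refine ⟨t, m, s₀, fun _ => c, fun _ => j, hs, ⟨mC, tt, hE tE, hη, fun x hx => ?_, tV, mV,
    ⟨P, mP, fun i => ?_, rP, dP⟩, fun s hs => ⟨hc, ?_⟩⟩, ?_⟩
  · refine (sup_le le_sup_left (adjoin_le_iff.2 ?_) : C ⊔ k⟮u, η⟯ ≤ C ⊔ k⟮t, η⟯) (hgen x hx)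
    rintro z (rfl | rfl)
    · exact sup_le_sup_left (adjoin.mono _ _ _ (by simp)) C ut
    · exact (le_sup_right : k⟮t, z⟯ ≤ _) (subset_adjoin _ _ (by simp))
  · by_cases h : P.coeff i = 0
    · rw [h]
      exact zero_mem _
    · exact h1 _ (by simp [coeff_mem_coeffs h]) (cP i).1
  · rw [Finset.mem_singleton.1 hs, e1]
    exact ue'.mul (uj.mono l1)
  · rcases hs' with h | h
    · refine Or.inl fun j0 => h ⟨c, hc, ?_⟩
      have := ue.mul (uj.mono l2)
      rwa [← e1, show j = 0 from j0, zpow_zero, mul_one] at this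
    · refine Or.inr (h3.resolve_right fun h4 => ?_)
      obtain ⟨c', hc', h5⟩ := vc_alg hC hV h (halg t (hE tE))
        fun h0 => tt (h0 ▸ isAlgebraic_zero)
      exact h4 c' hc' h5

end Pool.Agent.MP_19ffc6_ag.Perf.Ss

end MrgPart0

-- ======== part 1: formerly Pool.Agent.MP_19ffc6_ag.perf.SsFact
section MrgPart1

/-! PERF, block SS, row FACT: Weierstrass factorisation over the valuation ring of `C`. -/

namespace Pool.Agent.MP_19ffc6_ag.Perf.Ss

open Polynomial IntermediateField Pool.Agent.R72.Wild Pool.Agent.R72.Lci Pool.Agent.R72.Res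
  Pool.Agent.R72.Res.B

namespace FactB

open Hr Hr.ChP

section

variable {C Γ M : Type} [Field C] [LinearOrderedCommGroupWithZero Γ] [Field M] [Algebra C M]
  {w : Valuation M Γ}

theorem φ_int {t : M} (ht : w t ≤ 1) {x : M} (hx : x ∈ (φ (C := C) w t).range) : w x ≤ 1 :=
  φ_le (C := C) (S := w.integer) (fun _ hc => hc) ht hx

theorem clear (Q : C[X][X]) : ∃ e : C, e ≠ 0 ∧ w (algebraMap C M e) ≤ 1 ∧
    ∃ Q' : (Oc C w)[X][X], Q'.map (mapRingHom (Oc C w).subtype) =
      Polynomial.C (Polynomial.C e) * Q := by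
  induction Q using Polynomial.induction_on' with
  | add p q hp hq =>
    obtain ⟨e, e0, e1, p', hp⟩ := hp
    obtain ⟨e', e0', e1', q', hq⟩ := hq
    refine ⟨e * e', mul_ne_zero e0 e0', by rw [map_mul, map_mul]; exact mul_le_one' e1 e1',
      Polynomial.C (Polynomial.C ⟨e', e1'⟩) * p' + Polynomial.C (Polynomial.C ⟨e, e1⟩) * q', ?_⟩
    simp only [Polynomial.map_add, Polynomial.map_mul, hp, hq, map_C, coe_mapRingHom,
      Subring.coe_subtype, map_mul]
    ring
  | monomial n a =>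
    induction a using Polynomial.induction_on' with
    | add p q hp hq =>
      obtain ⟨e, e0, e1, p', hp⟩ := hp
      obtain ⟨e', e0', e1', q', hq⟩ := hq
      refine ⟨e * e', mul_ne_zero e0 e0', by rw [map_mul, map_mul]; exact mul_le_one' e1 e1',
        Polynomial.C (Polynomial.C ⟨e', e1'⟩) * p' + Polynomial.C (Polynomial.C ⟨e, e1⟩) * q', ?_⟩
      simp only [Polynomial.map_add, Polynomial.map_mul, hp, hq, map_C, coe_mapRingHom,
        Subring.coe_subtype, map_mul, map_add]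
      ring
    | monomial m c =>
      by_cases h : w (algebraMap C M c) ≤ 1
      · exact ⟨1, one_ne_zero, by simp, monomial n (monomial m ⟨c, h⟩), by simp⟩
      · have c0 : c ≠ 0 := fun e => h (by simp [e])
        refine ⟨c⁻¹, inv_ne_zero c0, ?_, monomial n (monomial m 1), ?_⟩
        · rw [map_inv₀, map_inv₀]
          exact inv_le_one_of_one_le₀ (not_le.1 h).le
        · simp [C_mul_monomial, c0]

theorem mk_ch {t η : M} (ht : w t < 1) (tr : Transcendental C t) {P : M[X]} (hm : P.Monic)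
    (hc : ∀ i, P.coeff i ∈ Lc w (φ (C := C) w t).range) (h0 : P.eval η = 0)
    (h1 : w (P.derivative.eval η) = 1) :
    ∃ s ∈ (φ (C := C) w t).range, w s = 1 ∧ ∃ P' : C[X][X], Ch w t (s * η) P' := by
  obtain ⟨s, hs, s1, hsP⟩ := den hc
  have hl : P.scaleRoots s ∈ lifts (φ (C := C) w t) := by
    refine (lifts_iff_coeff_lifts _).2 fun i => ?_
    change _ ∈ (φ (C := C) w t).range
    rw [coeff_scaleRoots]
    rcases lt_trichotomy i P.natDegree with h | rfl | h
    · obtain ⟨k, hk⟩ : ∃ k, P.natDegree - i = k + 1 := ⟨P.natDegree - i - 1, by omega⟩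
      rw [hk, pow_succ', ← mul_assoc]
      exact Subring.mul_mem _ (hsP i) (Subring.pow_mem _ hs k)
    · simp [hm.coeff_natDegree]
    · simp [coeff_eq_zero_of_natDegree_lt h]
  obtain ⟨Q, hQ, -, mQ⟩ := lifts_and_degree_eq_and_monic hl ((monic_scaleRoots_iff s).2 hm)
  let _ : Algebra (Oc C w)[X] M := (φ (C := C) w t).toAlgebra
  have hinj : Function.Injective (algebraMap (Oc C w)[X] M) :=
    (transcendental_iff_injective.1 tr).comp (map_injective _ Subtype.val_injective)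
  have : FaithfulSMul (Oc C w)[X] M := (faithfulSMul_iff_algebraMap_injective _ _).2 hinj
  have : IsIntegrallyClosed (Oc C w) :=
    inferInstanceAs (IsIntegrallyClosed (w.comap (algebraMap C M)).integer)
  have e1 : ∀ R : (Oc C w)[X][X],
      ev2 t (s * η) (R.map (mapRingHom (Oc C w).subtype)) = aeval (s * η) R := fun R => by
    rw [ev2_eq, Polynomial.map_map, eval_map]
    rfl
  have e2 : ∀ R : (Oc C w)[X][X], aeval (s * η) R = (R.map (φ (C := C) w t)).eval (s * η) :=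
    fun R => by rw [eval_map]; rfl
  have hroot : aeval (s * η) Q = 0 := by rw [e2, hQ, scaleRoots_eval_mul, h0, mul_zero]
  have hi : IsIntegral (Oc C w)[X] (s * η) := ⟨Q, mQ, hroot⟩
  have hη : w (s * η) ≤ 1 := by
    have : IsIntegral w.integer (s * η) := hi.map_of_comp_eq
      ((φ (C := C) w t).codRestrict w.integer fun x => φ_int ht.le ⟨x, rfl⟩) (RingHom.id M) rfl
    exact (Valuation.integer.integers w).isIntegral_iff_v_le_one.1 this
  have e3 : ∀ R : (Oc C w)[X][X], w (aeval (s * η) R) ≤ 1 := fun R => by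
    rw [e2]
    exact eval_mem (S := w.integer) (fun i => by rw [coeff_map]; exact φ_int ht.le ⟨_, rfl⟩) hη
  have hd : w (aeval (s * η) Q.derivative) = 1 := by
    have h2 := congrArg (fun f => w (eval η (derivative f))) (scale_comp P s)
    simp only [derivative_comp, derivative_C_mul, derivative_X, mul_one, eval_mul, eval_C,
      eval_comp, eval_X, w.map_mul, w.map_pow, s1, h1, one_pow, one_mul] at h2
    rwa [e2, ← derivative_map, hQ]
  obtain ⟨G, hG⟩ := minpoly.isIntegrallyClosed_dvd hi hroot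
  refine ⟨s, hs, s1, (minpoly (Oc C w)[X] (s * η)).map (mapRingHom (Oc C w).subtype), ht, hη,
    (minpoly.monic hi).map _, fun i j => ?_, by rw [e1, minpoly.aeval], ?_, fun R hR => ?_⟩
  · rw [coeff_map, coe_mapRingHom, coeff_map]
    exact (((minpoly (Oc C w)[X] (s * η)).coeff i).coeff j).2
  · rw [derivative_map, e1]
    rw [hG, derivative_mul, map_add, map_mul, map_mul, minpoly.aeval, zero_mul, add_zero,
      map_mul] at hd
    exact le_antisymm (e3 _) (hd ▸ mul_le_of_le_one_right' (e3 _))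
  · obtain ⟨e, e0, -, R', hR'⟩ := clear (w := w) R
    have h2 : aeval (s * η) R' = 0 := by rw [← e1, hR', map_mul, hR, mul_zero]
    have h3 := map_dvd (mapRingHom (Oc C w).subtype) (minpoly.isIntegrallyClosed_dvd hi h2)
    rw [hR'] at h3
    exact (isUnit_C.2 (isUnit_C.2 e0.isUnit)).dvd_mul_left.1 h3

end

variable {k L : Type} [Field k] [Field L] [Algebra k L]

theorem closed [IsAlgClosed L] {C : IntermediateField k L} (h : AC C) : IsAlgClosed C := by
  refine IsAlgClosed.of_exists_root _ fun f hf hi => ?_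
  obtain ⟨x, hx⟩ := IsAlgClosed.exists_aeval_eq_zero L f (degree_pos_of_irreducible hi).ne'
  refine ⟨⟨x, h x ⟨f, hf.ne_zero, hx⟩⟩, (algebraMap C L).injective ?_⟩
  rw [map_zero, ← coe_aeval_eq_eval, ← aeval_algebraMap_apply]
  exact hx

theorem le_iff {V : Subalgebra k L} (hV : Val V) (x : L) : hV.vs.valuation x ≤ 1 ↔ x ∈ V :=
  hV.vs.valuation_le_one_iff x

theorem unit_iff {V : Subalgebra k L} (hV : Val V) (x : L) :
    hV.vs.valuation x = 1 ↔ Pool.Agent.R72.Wild.Un V x := by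
  rw [Pool.Agent.R72.Wild.Un, ← le_iff hV, ← le_iff hV, map_inv₀]
  refine ⟨fun h => ⟨h.le, fun h0 => by simp [h0] at h, by rw [h, inv_one]⟩, fun ⟨h1, h2, h3⟩ => ?_⟩
  exact le_antisymm h1 ((inv_le_one₀ (zero_lt_iff.2 ((_root_.map_ne_zero _).2 h2))).1 h3)

theorem lr_sub {C : IntermediateField k L} {V : Subalgebra k L} (hV : Val V) {Z : Set L}
    {S : Subring L} (h1 : ∀ c : C, hV.vs.valuation (algebraMap C L c) ≤ 1 → algebraMap C L c ∈ S)
    (h2 : ∀ x ∈ S, hV.vs.valuation x = 1 → x⁻¹ ∈ S) (h3 : ∀ z ∈ Z, z ∈ S) {x : L}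
    (hx : x ∈ lr (cs C V) Z V) : x ∈ S := by
  let S' : Subalgebra k L := { S with
    algebraMap_mem' := fun c => h1 (algebraMap k C c) ((le_iff hV _).2 (V.algebraMap_mem c)) }
  have h4 : cs C V ⊔ Algebra.adjoin k Z ≤ S' :=
    sup_le (fun y hy => h1 ⟨y, hy.2⟩ ((le_iff hV _).2 hy.1)) (Algebra.adjoin_le h3)
  obtain ⟨a, ha, b, hb, hu, rfl⟩ := hx
  rw [div_eq_mul_inv]
  exact S.mul_mem (h4 ha) (h2 b (h4 hb) ((unit_iff hV b).2 hu))

end FactB

open FactB Hr Hr.ChP in
theorem fact {k L : Type} [Field k] [Field L] [Algebra k L] [IsAlgClosed L]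
    (hf : ∀ (C Γ : Type) [Field C] [IsAlgClosed C] [LinearOrderedCommGroupWithZero Γ],
      FactH C Γ) : FactStmt k L := by
  intro C V t η f hC hV hR tr ht ⟨P, hm, hc, h0, h1⟩ hfm f0
  have := closed hC
  obtain ⟨a, ha⟩ := hR t ht
  have aV : algebraMap k L a ∈ V := V.algebraMap_mem a
  have a1 : hV.vs.valuation (algebraMap C L (algebraMap k C a)) ≤ 1 := (le_iff hV _).2 aV
  have t1 : hV.vs.valuation (t - algebraMap k L a) < 1 :=
    lt_of_le_of_ne ((le_iff hV _).2 (sub_mem ht aV)) fun h => ha ((unit_iff hV _).1 h)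
  have tr' : Transcendental C (t - algebraMap k L a) := fun h => tr (by
    have := h.add (isAlgebraic_algebraMap (algebraMap k C a))
    rwa [← IsScalarTower.algebraMap_apply, sub_add_cancel] at this)
  obtain ⟨s, hs, s1, P', hP'⟩ := mk_ch t1 tr' hm (fun i => lr_sub hV
    (fun c hc => le_Lc _ (cst_φ hc)) (fun x hx => Lc_inv hx) (fun z hz => by
      have := Subring.add_mem _ (t_φ (t := t - algebraMap k L a)) (cst_φ a1)
      rw [← IsScalarTower.algebraMap_apply, sub_add_cancel] at this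
      rw [hz]
      exact le_Lc _ this) (hc i)) h0 ((unit_iff hV _).2 h1)
  have l3 := φ_le (w := hV.vs.valuation) (C := C) (fun c hc => cst_mem (η := s * η) hc)
    (t_mem (t := t - algebraMap k L a))
  obtain ⟨c, T, ε, hT, hε, ε1, e⟩ := hf C _ L hV.vs.valuation _ _ P' hP' f (lr_sub hV
    (fun c hc => le_Lc _ (cst_mem hc)) (fun x hx => Lc_inv hx) (fun z hz => by
      rcases hz with rfl | rfl
      · have := Subring.add_mem _ (t_mem (t := z - algebraMap k L a) (η := s * η))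
          (cst_mem (R := Oc C hV.vs.valuation) a1)
        rw [← IsScalarTower.algebraMap_apply, sub_add_cancel] at this
        exact le_Lc _ this
      · exact ⟨s, l3 hs, s1, by rw [mul_comm]; exact η_mem⟩) hfm) f0
  have k1 : ∀ c ∈ Oc C hV.vs.valuation, algebraMap C L c ∈ (lr (cs C V) {t, η} V).toSubring :=
    fun c hc => le_loc _ _ (le_sup_left (a := cs C V) ⟨(le_iff hV _).1 hc, c.2⟩)
  have k2 : ∀ z ∈ ({t, η} : Set L), z ∈ lr (cs C V) {t, η} V := fun z hz =>
    le_loc _ _ (le_sup_right (a := cs C V) (Algebra.subset_adjoin hz))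
  have k3 : t - algebraMap k L a ∈ (lr (cs C V) {t, η} V).toSubring :=
    sub_mem (k2 t (.inl rfl)) (Subalgebra.algebraMap_mem _ a)
  have k4 : ε ∈ lr (cs C V) {t, η} V := Lc_le (T := (lr (cs C V) {t, η} V).toSubring)
    (Rg_le k1 k3 (mul_mem (φ_le k1 k3 hs) (k2 η (.inr rfl))))
    (fun x hx h => inv_mem_loc hx ((unit_iff hV x).1 h)) hε
  refine ⟨c, c.2, T.map fun τ => algebraMap C L τ + algebraMap k L a, fun τ hτ => ?_, ?_⟩
  · obtain ⟨τ, h, rfl⟩ := Multiset.mem_map.1 hτ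
    exact ⟨add_mem ((le_iff hV _).1 (hT τ h).le) aV, add_mem τ.2 (C.algebraMap_mem a)⟩
  · have e2 : ((T.map fun τ => algebraMap C L τ + algebraMap k L a).map fun τ => t - τ) =
        T.map fun τ => t - algebraMap k L a - algebraMap C L τ := by
      rw [Multiset.map_map]
      exact Multiset.map_congr rfl fun τ _ => by simp only [Function.comp]; ring
    have e3 := left_ne_zero_of_mul (e ▸ f0)
    rw [e2, e]
    erw [mul_div_cancel_left₀ _ e3]
    exact ⟨k4, ne_of_one ε1, inv_mem_loc k4 ((unit_iff hV ε).1 ε1)⟩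

end Pool.Agent.MP_19ffc6_ag.Perf.Ss

end MrgPart1

-- ======== part 2: formerly Pool.Agent.MP_19ffc6_ag.perf.SsFactH
section MrgPart2

/-! Row FACTH: Weierstrass factorisation on a standard etale chart over the open disc. -/

namespace Pool.Agent.MP_19ffc6_ag.Perf.Ss

open Polynomial Pool.Agent.MP_19ffc6_ag.Perf.Hr

namespace FactHH

variable {C Γ M : Type} [Field C] [LinearOrderedCommGroupWithZero Γ] [Field M] [Algebra C M]
  {w : Valuation M Γ} {t η : M} {P : C[X][X]}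

/-- the local ring of the chart -/
abbrev BB (C : Type) [Field C] [Algebra C M] (w : Valuation M Γ) (t η : M) : Subring M :=
  Lc w (Rg (Oc C w) t η)

lemma cB {c : C} (h : w (algebraMap C M c) ≤ 1) : algebraMap C M c ∈ BB C w t η :=
  Cl.le_Lc _ (Cl.cst_mem h)

lemma tB : t ∈ BB C w t η := Cl.le_Lc _ (Cl.t_mem _)

lemma leB (hc : Ch w t η P) {x : M} (hx : x ∈ BB C w t η) : w x ≤ 1 :=
  Cl.Lc_le (Cl.Rg_le le_rfl hc.small.le hc.int) hx

/-- `C` times the local ring -/
abbrev AA (C : Type) [Field C] [Algebra C M] (w : Valuation M Γ) (t η : M) : Subalgebra C M :=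
  satA w (BB C w t η) fun _ h => cB h

lemma BA {x : M} (hx : x ∈ BB C w t η) : x ∈ AA C w t η := ⟨1, one_ne_zero, by rwa [one_smul]⟩

/-- small constant multiples of members of the local ring -/
def Sm (C : Type) [Field C] [Algebra C M] (w : Valuation M Γ) (t η : M) : AddSubgroup M where
  carrier := {z | ∃ π : C, w (algebraMap C M π) < 1 ∧ ∃ β ∈ BB C w t η, z = algebraMap C M π * β}
  zero_mem' := ⟨0, by simp, 0, zero_mem _, by simp⟩
  neg_mem' := by
    rintro _ ⟨π, h, β, hβ, rfl⟩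
    exact ⟨π, h, -β, neg_mem hβ, by ring⟩
  add_mem' := by
    have key : ∀ {π π' : C} {β β' : M}, w (algebraMap C M π') ≤ w (algebraMap C M π) →
        β ∈ BB C w t η → β' ∈ BB C w t η → ∃ γ ∈ BB C w t η,
          algebraMap C M π * β + algebraMap C M π' * β' = algebraMap C M π * γ := by
      intro π π' β β' hle hβ hβ'
      rcases eq_or_ne π 0 with rfl | h0
      · have : π' = 0 := by simpa using hle
        exact ⟨0, zero_mem _, by simp [this]⟩
      · have h1 : algebraMap C M π ≠ 0 := by simpa using h0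
        refine ⟨β + algebraMap C M (π' / π) * β', add_mem hβ (mul_mem (cB ?_) hβ'), ?_⟩
        · rw [map_div₀, map_div₀]
          exact div_le_one_of_le₀ hle zero_le
        · rw [map_div₀]
          field_simp
    rintro _ _ ⟨π, h, β, hβ, rfl⟩ ⟨π', h', β', hβ', rfl⟩
    rcases le_total (w (algebraMap C M π')) (w (algebraMap C M π)) with hle | hle
    · obtain ⟨γ, h1, h2⟩ := key hle hβ hβ'
      exact ⟨π, h, γ, h1, h2⟩
    · obtain ⟨γ, h1, h2⟩ := key hle hβ' hβ
      exact ⟨π', h', γ, h1, (add_comm _ _).trans h2⟩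

lemma Sm.mul {z b : M} (hz : z ∈ Sm C w t η) (hb : b ∈ BB C w t η) : z * b ∈ Sm C w t η := by
  obtain ⟨π, h, β, hβ, rfl⟩ := hz
  exact ⟨π, h, β * b, mul_mem hβ hb, mul_assoc _ _ _⟩

lemma Sm.mem {z : M} (hz : z ∈ Sm C w t η) : z ∈ BB C w t η := by
  obtain ⟨π, h, β, hβ, rfl⟩ := hz
  exact mul_mem (cB h.le) hβ

lemma Sm.lt (hc : Ch w t η P) {z : M} (hz : z ∈ Sm C w t η) : w z < 1 := by
  obtain ⟨π, h, β, hβ, rfl⟩ := hz
  rw [map_mul]
  exact mul_lt_one_of_lt_of_le h (leB hc hβ)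

lemma tne (hc : Ch w t η P) (r : C) : t - algebraMap C M r ≠ 0 := fun h => by
  have h1 : P ∣ Polynomial.C (X - Polynomial.C r) := hc.min _ (by simpa [ev2] using h)
  refine hc.monic.not_dvd_of_natDegree_lt (C_ne_zero.2 (X_sub_C_ne_zero r)) ?_ h1
  rw [natDegree_C]
  refine Nat.pos_of_ne_zero fun h0 => ?_
  have h2 := hc.root
  rw [hc.monic.natDegree_eq_zero.1 h0, map_one] at h2
  exact one_ne_zero h2

lemma evA (he : EvStmt C Γ) (hc : Ch w t η P) {τ : C} (hτ : w (algebraMap C M τ) < 1) :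
    ∃ ev : AA C w t η →ₐ[C] C, ev ⟨t, BA tB⟩ = τ ∧ ∀ (x : M) (hx : x ∈ BB C w t η),
      w (algebraMap C M (ev ⟨x, BA hx⟩)) ≤ 1 ∧ ∃ x1 ∈ BB C w t η,
        x = algebraMap C M (ev ⟨x, BA hx⟩) + (t - algebraMap C M τ) * x1 := by
  obtain ⟨ev, e, he1, h1, h2⟩ := he M w t η P (AA C w t η) τ hc (fun _ => Iff.rfl) hτ
  refine ⟨ev, h1 _ rfl, fun x hx => ?_⟩
  obtain ⟨h3, h4⟩ := h2 (Oc C w) le_rfl hτ.le he1 hc.coe ⟨x, BA hx⟩ hx
  exact ⟨leB hc h3, h4⟩

/-- the content of a member of the local ring -/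
lemma content (he : EvStmt C Γ) (hc : Ch w t η P) {x : M} (hx : x ∈ BB C w t η) (hx0 : x ≠ 0) :
    ∃ (μ : C) (d : ℕ) (ε z : M), μ ≠ 0 ∧ ε ∈ BB C w t η ∧ w ε = 1 ∧ z ∈ Sm C w t η ∧
      x = algebraMap C M μ * (t ^ d * ε + z) := by
  classical
  obtain ⟨n, b, β, hβ, h⟩ := Cl.expand (τ := 0) he hc (by simp) hx
  rw [map_zero, sub_zero] at h
  have hex : ∃ i, i < n + 1 ∧ ∀ j < n + 1, w (algebraMap C M (b j)) ≤ w (algebraMap C M (b i)) := by
    obtain ⟨k, hk, h⟩ := Finset.exists_max_image (Finset.range (n + 1))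
      (fun i => w (algebraMap C M (b i))) Finset.nonempty_range_add_one
    exact ⟨k, Finset.mem_range.1 hk, fun j hj => h j (Finset.mem_range.2 hj)⟩
  obtain ⟨d, ⟨hd, hmax⟩, hmin⟩ : ∃ d, (d < n + 1 ∧
      ∀ j < n + 1, w (algebraMap C M (b j)) ≤ w (algebraMap C M (b d))) ∧
      ∀ i < d, w (algebraMap C M (b i)) < w (algebraMap C M (b d)) := by
    refine ⟨Nat.find hex, Nat.find_spec hex, fun i hi => ?_⟩
    have h1 := Nat.find_min hex hi
    have h2 := Nat.find_spec hex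
    push Not at h1
    obtain ⟨j, hj, h3⟩ := h1 (hi.trans h2.1)
    exact h3.trans_le (h2.2 j hj)
  have hμ : b d ≠ 0 := fun h0 => hx0 (by
    have hb : ∀ i : Fin (n + 1), b i = 0 := fun i => by simpa [h0] using hmax i i.2
    simp [h, hb])
  have hμ' : algebraMap C M (b d) ≠ 0 := by simpa using hμ
  have hw : 0 < w (algebraMap C M (b d)) := w.pos_iff.2 hμ'
  have hq : ∀ j < n + 1, algebraMap C M (b j / b d) ∈ BB C w t η := fun j hj => cB (by
    rw [map_div₀, map_div₀]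
    exact div_le_one_of_le₀ (hmax j hj) zero_le)
  let F : AddSubmonoid M :=
    { carrier := {y | ∃ γ ∈ BB C w t η, ∃ z ∈ Sm C w t η, y = t ^ (d + 1) * γ + z}
      zero_mem' := ⟨0, zero_mem _, 0, zero_mem _, by simp⟩
      add_mem' := by
        rintro _ _ ⟨γ, h1, z, h2, rfl⟩ ⟨γ', h1', z', h2', rfl⟩
        exact ⟨γ + γ', add_mem h1 h1', z + z', add_mem h2 h2', by ring⟩ }
  have hF : ∀ (j : ℕ) (γ : M), d < j → γ ∈ BB C w t η → t ^ j * γ ∈ F := fun j γ hj hγ => by
    obtain ⟨e, rfl⟩ := Nat.exists_eq_add_of_le (Nat.succ_le_of_lt hj)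
    exact ⟨t ^ e * γ, mul_mem (pow_mem tB e) hγ, 0, zero_mem _, by
      rw [Nat.succ_eq_add_one]; ring⟩
  have h1 : ∑ i ∈ (Finset.range (n + 1)).erase d, t ^ i * algebraMap C M (b i / b d) +
      t ^ (n + 1) * ∑ i : Fin (n + 1), algebraMap C M (b i / b d) * β i ∈ F := by
    refine add_mem (sum_mem fun i hi => ?_)
      (hF _ _ hd (sum_mem fun i _ => mul_mem (hq i i.2) (hβ i)))
    obtain ⟨hi1, hi2⟩ := Finset.mem_erase.1 hi
    rcases lt_or_gt_of_ne hi1 with hlt | hgt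
    · refine ⟨0, zero_mem _, _, ⟨b i / b d, ?_, t ^ i, pow_mem tB i, rfl⟩, by ring⟩
      rw [map_div₀, map_div₀]
      exact (div_lt_one₀ hw).2 (hmin i hlt)
    · exact hF _ _ hgt (hq i (Finset.mem_range.1 hi2))
  obtain ⟨γ, hγ, z, hz, h2⟩ := h1
  refine ⟨b d, d, 1 + t * γ, z, hμ, add_mem (one_mem _) (mul_mem tB hγ), ?_, hz, ?_⟩
  · refine w.map_one_add_of_lt ?_
    rw [map_mul]
    exact mul_lt_one_of_lt_of_le hc.small (leB hc hγ)
  · have h3 : t ^ d * (1 + t * γ) + z = t ^ d + (t ^ (d + 1) * γ + z) := by ring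
    have h4 : ∑ i ∈ (Finset.range (n + 1)).erase d, b i • t ^ i = algebraMap C M (b d) *
        ∑ i ∈ (Finset.range (n + 1)).erase d, t ^ i * algebraMap C M (b i / b d) := by
      rw [Finset.mul_sum]
      refine Finset.sum_congr rfl fun i _ => ?_
      rw [Algebra.smul_def, map_div₀]
      field_simp
    have h5 : ∑ i : Fin (n + 1), b i • β i = algebraMap C M (b d) *
        ∑ i : Fin (n + 1), algebraMap C M (b i / b d) * β i := by
      rw [Finset.mul_sum]
      refine Finset.sum_congr rfl fun i _ => ?_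
      rw [Algebra.smul_def, map_div₀]
      field_simp
    rw [h3, ← h2, h, ← Finset.sum_range fun i => b i • t ^ i,
      ← Finset.add_sum_erase _ _ (Finset.mem_range.2 hd), h4, h5, Algebra.smul_def]
    ring

lemma not_sm [IsAlgClosed C] (he : EvStmt C Γ) (hc : Ch w t η P) {n : ℕ} (hn : 0 < n) {ε : M}
    (hε : ε ∈ BB C w t η) (h1 : w ε = 1) : t ^ n * ε ∉ Sm C w t η := by
  rintro ⟨π, hπ, β, hβ, h⟩
  obtain ⟨τ, rfl⟩ := IsAlgClosed.exists_pow_nat_eq π (n := n + n) (by omega)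
  have hτ : w (algebraMap C M τ) < 1 := by
    rw [map_pow, map_pow] at hπ
    exact lt_of_not_ge fun h' => hπ.not_ge (one_le_pow₀ h')
  rcases eq_or_ne τ 0 with rfl | h0
  · rw [zero_pow (by omega), map_zero, zero_mul] at h
    rcases mul_eq_zero.1 h with h2 | h2
    · exact tne hc 0 (by rw [map_zero, sub_zero]; exact pow_eq_zero_iff hn.ne' |>.1 h2)
    · simp [h2] at h1
  obtain ⟨ev, e1, e2⟩ := evA he hc hτ
  have h2 : (⟨t, BA tB⟩ : AA C w t η) ^ n * ⟨ε, BA hε⟩ =
      algebraMap C _ (τ ^ (n + n)) * ⟨β, BA hβ⟩ := Subtype.ext h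
  have h3 := congrArg ev h2
  rw [map_mul, map_mul, map_pow, e1, AlgHom.commutes, Algebra.algebraMap_self, RingHom.id_apply,
    pow_add, mul_assoc] at h3
  have h4 := mul_left_cancel₀ (pow_ne_zero n h0) h3
  obtain ⟨-, x1, hx1, h5⟩ := e2 ε hε
  have h6 : w ε < 1 := by
    rw [h5]
    refine w.map_add_lt ?_ ?_
    · rw [h4, map_mul, map_mul, map_pow, map_pow]
      exact mul_lt_one_of_lt_of_le (pow_lt_one₀ zero_le hτ hn.ne') (e2 β hβ).1
    · rw [map_mul]
      exact mul_lt_one_of_lt_of_le (w.map_sub_lt hc.small hτ) (leB hc hx1)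
  exact h6.ne h1

lemma prime (he : EvStmt C Γ) (hc : Ch w t η P) {r : C} (hr : w (algebraMap C M r) < 1)
    {x y a : M} (hx : x ∈ BB C w t η) (hy : y ∈ BB C w t η) (ha : a ∈ AA C w t η)
    (h : x * y = (t - algebraMap C M r) * a) :
    (∃ x1 ∈ BB C w t η, x = (t - algebraMap C M r) * x1) ∨
      ∃ y1 ∈ BB C w t η, y = (t - algebraMap C M r) * y1 := by
  obtain ⟨ev, e1, e2⟩ := evA he hc hr
  have h2 : (⟨x, BA hx⟩ : AA C w t η) * ⟨y, BA hy⟩ =
      (⟨t, BA tB⟩ - algebraMap C _ r) * ⟨a, ha⟩ := Subtype.ext h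
  have h3 := congrArg ev h2
  rw [map_mul, map_mul, map_sub, e1, AlgHom.commutes, Algebra.algebraMap_self, RingHom.id_apply,
    sub_self, zero_mul] at h3
  rcases mul_eq_zero.1 h3 with h4 | h4
  · obtain ⟨-, x1, hx1, h5⟩ := e2 x hx
    rw [h4, map_zero, zero_add] at h5
    exact Or.inl ⟨x1, hx1, h5⟩
  · obtain ⟨-, x1, hx1, h5⟩ := e2 y hy
    rw [h4, map_zero, zero_add] at h5
    exact Or.inr ⟨x1, hx1, h5⟩

lemma exists_mul {x : M} (hc : Ch w t η P) (hx : x ∈ BB C w t η) (hx0 : x ≠ 0) :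
    ∃ y ∈ BB C w t η, ∃ h : C[X], h ≠ 0 ∧ x * y = aeval t h := by
  let _ : Algebra C[X] M := (aeval t : C[X] →ₐ[C] M).toRingHom.toAlgebra
  have hal : ∀ q : C[X], algebraMap C[X] M q = aeval t q := fun _ => rfl
  obtain ⟨g, hg, hg1, ha⟩ := hx
  have hg0 : g ≠ 0 := fun h0 => by simp [h0] at hg1
  have h1 : Rg (Oc C w) t η ≤ (integralClosure C[X] M).toSubring := by
    refine Subring.closure_le.2 ?_
    rintro _ (⟨c, -, rfl⟩ | rfl | rfl)
    · have := isIntegral_algebraMap (A := M) (x := (Polynomial.C c : C[X]))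
      rwa [hal, aeval_C] at this
    · have := isIntegral_algebraMap (A := M) (x := (X : C[X]))
      rwa [hal, aeval_X] at this
    · exact ⟨P, hc.monic, hc.root⟩
  have h2 : IsIntegral C[X] (x * g) := h1 ha
  obtain ⟨y, hy, h, h0, h3⟩ := h2.isAlgebraic.exists_nonzero_eq_adjoin_mul
    (mem_nonZeroDivisors_of_ne_zero (mul_ne_zero hx0 hg0))
  have h4 : y ∈ AA C w t η := by
    clear h3
    induction hy using Algebra.adjoin_induction with
    | mem z hz => rw [Set.mem_singleton_iff.1 hz]; exact BA (Cl.le_Lc _ ha)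
    | algebraMap q =>
      rw [hal]
      exact Algebra.adjoin_le (Set.singleton_subset_iff.2 (BA tB)) (aeval_mem_adjoin_singleton C t)
    | add _ _ _ _ a b => exact add_mem a b
    | mul _ _ _ _ a b => exact mul_mem a b
  obtain ⟨e, he0, he⟩ := h4
  refine ⟨g * e • y, mul_mem (Cl.le_Lc _ hg) he, e • h, smul_ne_zero he0 h0, ?_⟩
  rw [map_smul, ← hal, ← h3, ← mul_assoc, mul_smul_comm]

lemma main [IsAlgClosed C] (he : EvStmt C Γ) (hc : Ch w t η P) (T : Multiset C) :
    ∀ (c : C) (x y : M), c ≠ 0 → x ∈ BB C w t η → y ∈ BB C w t η →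
      x * y = algebraMap C M c * (T.map fun τ => t - algebraMap C M τ).prod →
      ∃ (c : C) (T : Multiset C) (ε : M), (∀ τ ∈ T, w (algebraMap C M τ) < 1) ∧
        ε ∈ BB C w t η ∧ w ε = 1 ∧
        x = algebraMap C M c * (T.map fun τ => t - algebraMap C M τ).prod * ε := by
  induction T using Multiset.induction_on with
  | empty =>
    intro c x y hc0 hx hy h
    rw [Multiset.map_zero, Multiset.prod_zero, mul_one] at h
    have h0 : x * y ≠ 0 := by rw [h]; simpa using hc0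
    obtain ⟨μ, d, ε, z, hμ, hε, h1, hz, e⟩ := content he hc hx (left_ne_zero_of_mul h0)
    obtain ⟨μ', d', ε', z', hμ', hε', h1', hz', e'⟩ := content he hc hy (right_ne_zero_of_mul h0)
    rcases Nat.eq_zero_or_pos d with rfl | hd
    · refine ⟨μ, 0, ε + z, by simp, add_mem hε (Sm.mem hz), ?_, by simpa using e⟩
      rw [w.map_add_eq_of_lt_left (by rw [h1]; exact Sm.lt hc hz), h1]
    exfalso
    have m1 : t ^ d * ε ∈ BB C w t η := mul_mem (pow_mem tB d) hε
    have m2 : t ^ d' * ε' + z' ∈ BB C w t η := add_mem (mul_mem (pow_mem tB d') hε') (Sm.mem hz')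
    have k1 : (t ^ d * ε + z) * (t ^ d' * ε' + z') = algebraMap C M (c / (μ * μ')) := by
      have a1 : algebraMap C M μ ≠ 0 := by simpa using hμ
      have a2 : algebraMap C M μ' ≠ 0 := by simpa using hμ'
      rw [map_div₀, map_mul, ← h, e, e']
      field_simp
    have k2 : (t ^ d * ε + z) * (t ^ d' * ε' + z') ∈ Sm C w t η := by
      refine ⟨c / (μ * μ'), ?_, 1, one_mem _, by rw [k1, mul_one]⟩
      rw [← k1, map_mul]
      refine mul_lt_one_of_lt_of_le (w.map_add_lt ?_ (Sm.lt hc hz)) (leB hc m2)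
      rw [map_mul, h1, mul_one, map_pow]
      exact pow_lt_one₀ zero_le hc.small hd.ne'
    refine not_sm he hc (n := d + d') (by omega) (mul_mem hε hε')
      (by rw [map_mul, h1, h1', one_mul]) ?_
    have k3 := sub_mem (sub_mem k2 (Sm.mul hz m2)) (Sm.mul hz' m1)
    convert k3 using 1
    ring
  | cons r T ih =>
    intro c x y hc0 hx hy h
    rw [Multiset.map_cons, Multiset.prod_cons, mul_left_comm] at h
    rcases lt_or_ge (w (algebraMap C M r)) 1 with hr | hr
    · have ha : algebraMap C M c * (T.map fun τ => t - algebraMap C M τ).prod ∈ AA C w t η := by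
        refine mul_mem (Subalgebra.algebraMap_mem _ c) (multiset_prod_mem _ fun a ha => ?_)
        obtain ⟨τ, -, rfl⟩ := Multiset.mem_map.1 ha
        exact sub_mem (BA tB) (Subalgebra.algebraMap_mem _ τ)
      rcases prime he hc hr hx hy ha h with ⟨x1, h1, rfl⟩ | ⟨y1, h1, rfl⟩
      · rw [mul_assoc] at h
        obtain ⟨c', T', ε, k1, k2, k3, k4⟩ := ih c x1 y hc0 h1 hy (mul_left_cancel₀ (tne hc r) h)
        refine ⟨c', r ::ₘ T', ε, fun τ hτ => ?_, k2, k3, ?_⟩
        · rcases Multiset.mem_cons.1 hτ with rfl | hτ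
          exacts [hr, k1 τ hτ]
        · rw [Multiset.map_cons, Multiset.prod_cons, k4]
          ring
      · rw [mul_left_comm] at h
        exact ih c x y1 hc0 hx h1 (mul_left_cancel₀ (tne hc r) h)
    · have hw : 0 < w (algebraMap C M r) := lt_of_lt_of_le zero_lt_one hr
      have r0 : algebraMap C M r ≠ 0 := w.pos_iff.1 hw
      have r1 : w (algebraMap C M r⁻¹) ≤ 1 := by
        rw [map_inv₀, map_inv₀]
        exact inv_le_one_of_one_le₀ hr
      have u1 : 1 - t * algebraMap C M r⁻¹ ∈ BB C w t η :=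
        sub_mem (one_mem _) (mul_mem tB (cB r1))
      have u2 : w (1 - t * algebraMap C M r⁻¹) = 1 := w.map_one_sub_of_lt (by
        rw [map_mul]
        exact mul_lt_one_of_lt_of_le hc.small r1)
      have u0 : 1 - t * algebraMap C M r⁻¹ ≠ 0 := fun h0 => by
        rw [h0, map_zero] at u2
        exact zero_ne_one u2
      refine ih (c * -r) x (y * (1 - t * algebraMap C M r⁻¹)⁻¹)
        (mul_ne_zero hc0 (neg_ne_zero.2 fun h0 => r0 (by simp [h0]))) hx
        (mul_mem hy (Cl.inv_mem u1 u2)) ?_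
      rw [← mul_assoc, h, mul_inv_eq_iff_eq_mul₀ u0, map_mul, map_neg, map_inv₀]
      field_simp
      ring

end FactHH

theorem factH {C Γ : Type} [Field C] [LinearOrderedCommGroupWithZero Γ] [IsAlgClosed C]
    (he : Hr.EvStmt C Γ) : FactH C Γ := by
  intro M _ _ w t η P hc x hx hx0
  obtain ⟨y, hy, h, h0, e⟩ := FactHH.exists_mul hc hx hx0
  refine FactHH.main he hc h.roots h.leadingCoeff x y (leadingCoeff_ne_zero.2 h0) hx hy ?_
  rw [e]
  conv_lhs => rw [(IsAlgClosed.splits h).eq_prod_roots]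
  rw [map_mul, aeval_C, map_multiset_prod, Multiset.map_map]
  simp

end Pool.Agent.MP_19ffc6_ag.Perf.Ss

end MrgPart2

-- ======== part 3: formerly Pool.Agent.MP_19ffc6_ag.perf.SsRel
section MrgPart3

/-! PROJECT PERF, block SS, row REL: the point is the local ring of the chart; generators of its
maximal ideal. -/

namespace Pool.Agent.MP_19ffc6_ag.Perf.Ss

open Polynomial IntermediateField Pool.Agent.R72.Wild Pool.Agent.R72.Lci Pool.Agent.R72.Res
  Pool.Agent.R72.Res.B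

variable {k L : Type} [Field k] [Field L] [Algebra k L]

namespace RelH

/-- The elements of `O` that are constant modulo the ideal generated by `S`. -/
def cm (O : Subalgebra k L) (S : Set L) : Subalgebra k L where
  carrier := {x | x ∈ O ∧ ∃ c : k, x - algebraMap k L c ∈ Submodule.span O S}
  mul_mem' := by
    rintro x y ⟨hx, c, hc⟩ ⟨hy, d, hd⟩
    refine ⟨mul_mem hx hy, c * d, ?_⟩
    have h1 := Submodule.smul_mem _ (⟨x, hx⟩ : O) hd
    have h2 := Submodule.smul_mem _ (⟨_, O.algebraMap_mem d⟩ : O) hc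
    convert add_mem h1 h2 using 1
    simp only [Subalgebra.smul_def, smul_eq_mul, map_mul]
    ring
  add_mem' := by
    rintro x y ⟨hx, c, hc⟩ ⟨hy, d, hd⟩
    refine ⟨add_mem hx hy, c + d, ?_⟩
    convert add_mem hc hd using 1
    rw [map_add]
    ring
  algebraMap_mem' c := ⟨O.algebraMap_mem c, c, by simp⟩

variable {O W D : Subalgebra k L} {S : Set L}

theorem mul_mem_span {x y : L} (hx : x ∈ O) (hy : y ∈ Submodule.span O S) :
    x * y ∈ Submodule.span O S := Submodule.smul_mem _ (⟨x, hx⟩ : O) hy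

theorem loc_le_cm (hO : Lcl O) (hd : Dom O W) (hS : ∀ s ∈ S, s ∈ O ∧ ¬ Un O s)
    (h : D ≤ cm O S) : loc D W ≤ cm O S := by
  rintro _ ⟨a, ha, b, hb, hu, rfl⟩
  obtain ⟨hbO, d, hd'⟩ := h hb
  have hub := hd.2 b hbO hu
  have hd0 : d ≠ 0 := by
    rintro rfl
    exact not_un_of_mem_span hO hS (by simpa using hd') hub
  rw [div_eq_mul_inv]
  refine mul_mem (h ha) ⟨hub.2.2, d⁻¹, ?_⟩
  have h1 := mul_mem_span (neg_mem (mul_mem hub.2.2 (O.algebraMap_mem d⁻¹))) hd'
  have h2 : algebraMap k L d ≠ 0 := (_root_.map_ne_zero _).2 hd0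
  have h3 := hub.2.1
  convert h1 using 1
  rw [map_inv₀]
  field_simp
  ring

theorem mem_span_of (hO : Lcl O) (hS : ∀ s ∈ S, s ∈ O ∧ ¬ Un O s) {x : L} (hx : x ∈ cm O S)
    (hu : ¬ Un O x) : x ∈ Submodule.span O S := by
  obtain ⟨hx, c, hc⟩ := hx
  by_cases h0 : c = 0
  · simpa [h0] using hc
  · have h1 : x - algebraMap k L c ∈ mx hO :=
      ⟨sub_mem hx (O.algebraMap_mem c), not_un_of_mem_span hO hS hc⟩
    have h2 := sub_mem (show x ∈ mx hO from ⟨hx, hu⟩) h1
    rw [sub_sub_cancel] at h2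
    exact absurd (un_algebraMap O h0) h2.2

/-- A simple root with a rational residue is constant modulo `S`. -/
theorem root_mem (hO : Lcl O) (hd : Dom O W) (hS : ∀ s ∈ S, s ∈ O ∧ ¬ Un O s) (hr : Rt O)
    (h : D ≤ cm O S) {η : L} (hη : η ∈ O) (hs : Std D W η) : η ∈ cm O S := by
  obtain ⟨P, -, hc, h0, hu⟩ := hs
  obtain ⟨e, he⟩ := hr η hη
  obtain ⟨Q, rfl⟩ : P ∈ lifts (algebraMap O L) :=
    (lifts_iff_coeff_lifts P).2 fun n => ⟨⟨_, (h (hc n)).1⟩, rfl⟩
  let x : O := ⟨η, hη⟩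
  let z : O := algebraMap k O e - x
  obtain ⟨κ, hκ⟩ := Q.binomExpansion x z
  have ex : algebraMap O L x = η := rfl
  have ez : (z : L) = algebraMap k L e - η := rfl
  have e0 : Q.eval x = 0 := by
    apply Subtype.ext
    have := eval_map_apply (p := Q) (algebraMap O L) x
    rw [ex] at this
    exact this.symm.trans h0
  have e1 : Un O ((Q.derivative.eval x : O) : L) := by
    refine hd.2 _ (Q.derivative.eval x).2 ?_
    have := eval_map_apply (p := Q.derivative) (algebraMap O L) x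
    rw [ex, ← derivative_map] at this
    exact (show ((Q.derivative.eval x : O) : L) = _ from this.symm) ▸ hu
  have hz : ¬ Un O (z : L) := fun k => he (by
    have := un_neg k
    rwa [ez, neg_sub] at this)
  have e2 : Un O ((Q.derivative.eval x + κ * z : O) : L) := by
    refine (hO _ (Q.derivative.eval x + κ * z).2 _ (-(κ * z)).2 ?_).resolve_right fun k => hz ?_
    · simpa using e1
    · refine Un.of_mul z.2 (-κ).2 ?_
      simpa [mul_comm] using k
  have e3 : ((Q.eval (x + z) : O) : L) = ((Q.derivative.eval x + κ * z : O) : L) * z := by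
    rw [hκ, e0]
    push_cast
    ring
  have e4 : ((Q.eval (x + z) : O) : L) ∈ cm O S := by
    have := eval_map_apply (p := Q) (algebraMap O L) (x + z)
    have e5 : algebraMap O L (x + z) = algebraMap k L e := by
      change η + (algebraMap k L e - η) = _
      ring
    rw [e5, eval_eq_sum_range] at this
    exact (show ((Q.eval (x + z) : O) : L) = _ from this.symm) ▸
      sum_mem fun i _ => mul_mem (h (hc i)) (pow_mem (Subalgebra.algebraMap_mem _ e) i)
  have e6 := mem_span_of hO hS e4 fun k => hz (by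
    rw [e3, mul_comm] at k
    exact Un.of_mul z.2 e2.1 k)
  refine ⟨hη, e, ?_⟩
  have e7 := mul_mem_span (neg_mem e2.2.2) e6
  rw [e3, neg_mul, inv_mul_cancel_left₀ e2.2.1, ez, neg_sub] at e7
  exact e7

end RelH

open RelH in
theorem rel (hn : NodStmt k L) (he : EtaStmt k L) : RelStmt k L := by
  intro F K R W O U Λ y u m η hR _ hRO hW hT hr _ htr hm hu hmu hη hs hg htd
  have hOW := hT.up.dom
  have hA : R ⊔ Algebra.adjoin k {u, m / u} ≤ O := by
    refine sup_le hRO.1 (Algebra.adjoin_le ?_)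
    rintro _ (rfl | rfl) <;> assumption
  have eD : R ⊔ Algebra.adjoin k {u, m / u} ⊔ Algebra.adjoin k {η} =
      R ⊔ Algebra.adjoin k {u, m / u, η} := by
    rw [sup_assoc, ← Algebra.adjoin_union]
    congr 2
    ext z
    simp only [Set.mem_union, Set.mem_insert_iff, Set.mem_singleton_iff, or_assoc]
  have hD : R ⊔ Algebra.adjoin k {u, m / u, η} ≤ O := by
    rw [← eD]
    exact sup_le hA (Algebra.adjoin_le (by simpa using hη))
  have hB : lr R {u, m / u, η} W ≤ O := by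
    rintro _ ⟨a, ha, b, hb, hub, rfl⟩
    rw [div_eq_mul_inv]
    exact mul_mem (hD ha) (hOW.2 b (hD hb) hub).2.2
  have hN := he _ _ W η (hn F R u m hR htr hm) (hA.trans hOW.1) hW.lcl (hOW.1 hη) hs
  rw [lr, eD] at hN
  have hE : F ⊔ k⟮u, η⟯ ≤ F ⊔ k⟮u⟯ ⊔ k⟮η⟯ := by
    refine sup_le (le_sup_of_le_left le_sup_left) (adjoin_le_iff.2 ?_)
    rintro _ (rfl | rfl)
    · exact (le_sup_of_le_left le_sup_right : k⟮_⟯ ≤ _) (mem_adjoin_simple_self k _)
    · exact (le_sup_right : k⟮_⟯ ≤ _) (mem_adjoin_simple_self k _)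
  have hU : Up K R W (lr R {u, m / u, η} W) :=
    ⟨le_sup_left.trans (le_loc _ _), (isPoint_loc (hD.trans hOW.1) hW.lcl).lcl,
      dom_loc (hD.trans hOW.1), fun x hx => hT.up.sub x (hB hx),
      fun x hx hi => hN.int x (hE (hg x hx)) hi⟩
  have e : O = lr R {u, m / u, η} W := le_antisymm (hT.min _ hU htd) hB
  obtain ⟨a, ha⟩ := hr u hu
  obtain ⟨b, hb⟩ := hr _ hmu
  refine ⟨e, a, b, ha, hb, ?_⟩
  set S : Set L := {r | r ∈ R ∧ ¬ Un R r} ∪ {u - algebraMap k L a, m / u - algebraMap k L b}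
  have hS : ∀ s ∈ S, s ∈ O ∧ ¬ Un O s := by
    rintro s (⟨h1, h2⟩ | rfl | rfl)
    · exact ⟨hRO.1 h1, fun k => h2 (hRO.2 s h1 k)⟩
    · exact ⟨sub_mem hu (O.algebraMap_mem a), ha⟩
    · exact ⟨sub_mem hmu (O.algebraMap_mem b), hb⟩
  have h1 : R ⊔ Algebra.adjoin k {u, m / u} ≤ cm O S := by
    refine sup_le (fun r h => ?_) (Algebra.adjoin_le ?_)
    · obtain ⟨c, hc⟩ := hr r (hRO.1 h)
      exact ⟨hRO.1 h, c, Submodule.subset_span
        (Or.inl ⟨sub_mem h (R.algebraMap_mem c), fun k => hc (k.mono hRO.1)⟩)⟩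
    · rintro _ (rfl | rfl)
      · exact ⟨hu, a, Submodule.subset_span (Or.inr (Or.inl rfl))⟩
      · exact ⟨hmu, b, Submodule.subset_span (Or.inr (Or.inr rfl))⟩
  have h2 := root_mem hT.up.lcl hOW hS hr (loc_le_cm hT.up.lcl hOW hS h1) hη hs
  have h3 : R ⊔ Algebra.adjoin k {u, m / u, η} ≤ cm O S := by
    rw [← eD]
    exact sup_le h1 (Algebra.adjoin_le (by simpa using h2))
  intro x hx
  exact (loc_le_cm hT.up.lcl hOW hS h3 (e.le hx)).2

end Pool.Agent.MP_19ffc6_ag.Perf.Ss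

end MrgPart3

-- ======== part 4: formerly Pool.Agent.MP_19ffc6_ag.perf.SsAll
section MrgPart4

/-! PROJECT PERF, block SS: semistable charts at all points of one model. -/

namespace Pool.Agent.MP_19ffc6_ag.Perf.Ss

theorem ssOpen {k L : Type} [Field k] [Field L] [Algebra k L] (p : ℕ) [Fact p.Prime] [CharP k p]
    [IsAlgClosed k] [IsAlgClosed L] : SSOpen k L :=
  ss_of (Hr.hr2_of p fun _ _ _ _ _ _ _ _ h => Hr.tow_all p h) comp (ch ext) uco mono dsc
    (fact fun _ _ _ _ _ => factH Hr.ev) (ax1 ref) (ann ref) (ax2 ref) (spr (rel nod eta))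

end Pool.Agent.MP_19ffc6_ag.Perf.Ss

end MrgPart4

-- marker of a merged file
example : 731051 + 788908 = 731051 + 788908 := rfl
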