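import Pool.Agent.MP_19ffc6_ag.perf.FlSpec2
import Pool.Agent.MP_19ffc6_ag.perf.FlMonu
import Pool.Agent.MP_19ffc6_ag.perf.FlDn
import Pool.Agent.MP_19ffc6_ag.perf.FlRed
import Pool.Agent.MP_19ffc6_ag.perf.FlSep
import Pool.Agent.MP_19ffc6_ag.perf.FlStar
import Pool.Agent.MP_19ffc6_ag.perf.FlVert
import Pool.Agent.MP_19ffc6_ag.perf.FlYl
import Pool.Agent.MP_19ffc6_ag.perf.SsAll

-- ======== part 0: formerly Pool.Agent.MP_19ffc6_ag.perf.FlFrm
section MrgPart0

/-! PERF, block FL, row FRM: the point over a framed point is framed. -/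

namespace Pool.Agent.MP_19ffc6_ag.Perf.Fl

open Polynomial IntermediateField Pool.Agent.R72.Wild Pool.Agent.R72.Lci Pool.Agent.R72.Res
  Pool.Agent.R72.Res.B Pool.Agent.R72.Res.P Pool.Agent.MP_19ffc6_ag.Perf.Ss

variable {k L : Type} [Field k] [Field L] [Algebra k L]

theorem frm : FrmStmt k L := by
  intro n F N R O D x u m h hFN hA hN
  have hl := hA.pt.lcl
  obtain ⟨D₀, hD₀⟩ := h.fr.aff
  obtain ⟨a, b, ha, hb, hP⟩ := h.rel
  have hr : ∀ r ∈ R, ¬ Un R r → r ∈ Submodule.span O (GD.gens O (sn x u)) := fun r h1 h2 => by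
    have h3 := h.fr.fr.gen r h1 h2
    clear h1 h2
    induction h3 using Submodule.span_induction with
    | mem y hy =>
      obtain ⟨h4, c, e, h5, rfl⟩ := hy
      exact Submodule.subset_span ⟨fun H => h4 (h.dom.2 _ (sub_mem h5 (R.algebraMap_mem e)) H),
        Fin.snoc (α := fun _ => ℤ) c 0, e, by simpa [mn_snoc] using h.dom.1 h5, by simp [mn_snoc]⟩
    | zero => exact zero_mem _
    | add y z _ _ hy hz => exact add_mem hy hz
    | smul s y _ hy => exact GD.mul_mem' (h.dom.1 s.2) hy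
  have hu : u - algebraMap k L a ∈ Submodule.span O (GD.gens O (sn x u)) :=
    Submodule.subset_span ⟨ha, Fin.snoc (α := fun _ => ℤ) (0 : Fin n → ℤ) 1, a,
      by simpa [mn_snoc, mn_zero] using h.um, by simp [mn_snoc, mn_zero]⟩
  have hm : m / u - algebraMap k L b ∈ Submodule.span O (GD.gens O (sn x u)) := by
    rcases h.mon with rfl | ⟨c, hc⟩
    · obtain rfl : b = 0 := by
        by_contra hb0
        exact hb (by simpa using un_algebraMap O (neg_ne_zero.2 hb0))
      simp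
    obtain ⟨v, hv⟩ := hD₀.rt _ hc.1
    have hv0 : v ≠ 0 := fun e => hv (by simpa [e] using hc)
    have hv1 : algebraMap k L v ≠ 0 := by simpa using hv0
    have h0 := mn_ne_zero h.fr.fr.ne c
    have hm0 : m ≠ 0 := (div_ne_zero_iff.1 hc.2.1).1
    have hu0 := h.ne
    have h1 : mn x c * u⁻¹ ∈ O := by
      rw [show mn x c * u⁻¹ = (m / mn x c)⁻¹ * (m / u) by field_simp]
      exact mul_mem (h.dom.1 hc.2.2) h.mu
    have h2 : m / mn x c - algebraMap k L v ∈ R := sub_mem hc.1 (R.algebraMap_mem v)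
    have e : m / u - algebraMap k L b =
        algebraMap k L v * (mn x c * u⁻¹ - algebraMap k L (b / v)) +
          mn x c * u⁻¹ * (m / mn x c - algebraMap k L v) := by
      rw [map_div₀]
      field_simp
      ring
    have h3 : ¬ Un O (mn x c * u⁻¹ - algebraMap k L (b / v)) := fun H => by
      have h4 : mn x c * u⁻¹ * (m / mn x c - algebraMap k L v) ∈ mx hl :=
        mx_mul hl h1 ⟨h.dom.1 h2, fun H => hv (h.dom.2 _ h2 H)⟩
      have h5 : m / u - algebraMap k L b ∈ mx hl := ⟨sub_mem h.mu (O.algebraMap_mem b), hb⟩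
      have h6 := sub_mem h5 h4
      rw [e, add_sub_cancel_right] at h6
      exact h6.2 ((un_algebraMap O hv0).mul H)
    rw [e]
    exact add_mem (GD.mul_mem' (O.algebraMap_mem v) (Submodule.subset_span
      ⟨h3, Fin.snoc (α := fun _ => ℤ) c (-1), b / v, by simpa [mn_snoc] using h1,
        by simp [mn_snoc]⟩)) (GD.mul_mem' h1 (hr _ h2 hv))
  refine ⟨⟨D, hA⟩, ⟨sn_forall (p := fun y => y ≠ 0) h.fr.fr.ne h.ne, fun y hy hy' => ?_⟩,
    sn_forall (p := fun y => y ∈ N) (fun j => hFN (h.fr.mem j)) (hA.le_field h.um), hN⟩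
  obtain ⟨c, hc⟩ := hP y hy
  have h1 : y - algebraMap k L c ∈ Submodule.span O (GD.gens O (sn x u)) := by
    refine Submodule.span_le.2 ?_ hc
    rintro s (hs | rfl | rfl)
    exacts [hr s hs.1 hs.2, hu, hm]
  obtain rfl : c = 0 := by
    by_contra hc0
    have h2 := GD.span_mx hl le_rfl (fun s hs => ⟨GD.gens_mem hs, hs.1⟩) h1
    have h3 := sub_mem (show y ∈ mx hl from ⟨hy, hy'⟩) h2
    rw [sub_sub_cancel] at h3
    exact h3.2 (un_algebraMap O hc0)
  rw [map_zero, sub_zero] at h1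
  exact h1

end Pool.Agent.MP_19ffc6_ag.Perf.Fl

end MrgPart0

-- ======== part 1: formerly Pool.Agent.MP_19ffc6_ag.perf.FlLoc
section MrgPart1

/-! PROJECT PERF, block FL, row LOC: the generic point of a stratum. -/

namespace Pool.Agent.MP_19ffc6_ag.Perf.Fl

open Polynomial IntermediateField Pool.Agent.R72.Wild Pool.Agent.R72.Lci Pool.Agent.R72.Res
  Pool.Agent.R72.Res.B Pool.Agent.R72.Res.P Pool.Agent.MP_19ffc6_ag.Perf.Ss

variable {k L : Type} [Field k] [Field L] [Algebra k L]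

namespace Loc

variable {n : ℕ} {O W : Subalgebra k L} {z : Fin n → L} {g : SA k L} {a : L}

lemma nu (hW : Lcl W) (h : O ≤ W) (ha : a ∈ fI O W z) : ¬ Un W a :=
  (GD.span_mx hW h (fun _ hs => ⟨h hs.1, hs.2.1⟩) ha).2

lemma stab (hz : ∀ j, z j ≠ 0) (hg : ∀ x ∈ O, g • x ∈ O) (hu : ∀ j, Un O (g • z j / z j))
    (ha : a ∈ fI O W z) : g • a ∈ fI O W z := by
  induction ha using Submodule.span_induction with
  | mem x hx =>
    obtain ⟨h1, h2, c, rfl⟩ := hx
    have h3 : Un O (mn (fun j => g • z j) c / mn z c) := by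
      have := mn_un (O := O) (u := fun j => g • z j / z j) (c := c) fun j hj => absurd (hu j) hj
      simpa only [mn, div_zpow, Finset.prod_div_distrib] using this
    have h4 : g • mn z c = mn (fun j => g • z j) c :=
      (map_prod g.e _ _).trans (Finset.prod_congr rfl fun _ _ => map_zpow₀ g.e _ _)
    rw [h4, ← div_mul_cancel₀ (mn (fun j => g • z j) c) (mn_ne_zero hz c)]
    exact GD.mul_mem' h3.1 (Submodule.subset_span ⟨h1, h2, c, rfl⟩)
  | zero => rw [smul_zero]; exact zero_mem _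
  | add x y _ _ hx hy => rw [smul_add]; exact add_mem hx hy
  | smul r x _ hx =>
    change g • ((r : L) * x) ∈ _
    rw [smul_mul']
    exact GD.mul_mem' (hg _ r.2) hx

/-- The localisation at a prime ideal. -/
def lp (O : Subalgebra k L) (q : Submodule O L) (h1 : (1 : L) ∉ q)
    (hq : ∀ a ∈ O, ∀ b ∈ O, a * b ∈ q → a ∈ q ∨ b ∈ q) : Subalgebra k L where
  carrier := {x | ∃ a ∈ O, ∃ b ∈ O, b ∉ q ∧ x = a / b}
  mul_mem' := by
    rintro _ _ ⟨a, ha, b, hb, hu, rfl⟩ ⟨a', ha', b', hb', hu', rfl⟩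
    exact ⟨a * a', mul_mem ha ha', b * b', mul_mem hb hb',
      fun h => (hq _ hb _ hb' h).elim hu hu', div_mul_div_comm _ _ _ _⟩
  add_mem' := by
    rintro _ _ ⟨a, ha, b, hb, hu, rfl⟩ ⟨a', ha', b', hb', hu', rfl⟩
    exact ⟨a * b' + b * a', add_mem (mul_mem ha hb') (mul_mem hb ha'), b * b', mul_mem hb hb',
      fun h => (hq _ hb _ hb' h).elim hu hu',
      div_add_div _ _ (fun e => hu (e ▸ zero_mem q)) (fun e => hu' (e ▸ zero_mem q))⟩
  algebraMap_mem' r := ⟨_, O.algebraMap_mem r, 1, one_mem _, h1, by simp⟩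

variable {q : Submodule O L} {h1 : (1 : L) ∉ q}
  {hq : ∀ a ∈ O, ∀ b ∈ O, a * b ∈ q → a ∈ q ∨ b ∈ q} {b : L}

lemma le_lp : O ≤ lp O q h1 hq := fun x hx => ⟨x, hx, 1, one_mem _, h1, by simp⟩

lemma un_div (ha : a ∈ O) (hb : b ∈ O) (hb' : b ∉ q) : Un (lp O q h1 hq) (a / b) ↔ a ∉ q := by
  have hb0 : b ≠ 0 := fun e => hb' (e ▸ zero_mem q)
  constructor
  · rintro ⟨-, h0, c, hc, d, hd, hd', e⟩ h
    have ha0 : a ≠ 0 := (div_ne_zero_iff.1 h0).1
    have hd0 : d ≠ 0 := fun e => hd' (e ▸ zero_mem q)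
    rw [inv_div, div_eq_div_iff ha0 hd0] at e
    exact (hq _ hb _ hd (e ▸ GD.mul_mem' hc h)).elim hb' hd'
  · intro h
    exact ⟨⟨a, ha, b, hb, hb', rfl⟩, div_ne_zero (fun e => h (e ▸ zero_mem q)) hb0,
      b, hb, a, ha, h, inv_div _ _⟩

lemma un_iff (ha : a ∈ O) : Un (lp O q h1 hq) a ↔ a ∉ q := by
  simpa using un_div (h1 := h1) (hq := hq) ha (one_mem O) h1

lemma lcl_lp : Lcl (lp O q h1 hq) := by
  rintro _ ⟨a, ha, b, hb, hu, rfl⟩ _ ⟨a', ha', b', hb', hu', rfl⟩ hxy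
  have h0 : b ≠ 0 := fun e => hu (e ▸ zero_mem q)
  have h0' : b' ≠ 0 := fun e => hu' (e ▸ zero_mem q)
  rw [div_add_div _ _ h0 h0', un_div (add_mem (mul_mem ha hb') (mul_mem hb ha')) (mul_mem hb hb')
      fun h => (hq _ hb _ hb' h).elim hu hu'] at hxy
  rw [un_div ha hb hu, un_div ha' hb' hu']
  by_contra H
  rw [not_or, not_not, not_not] at H
  exact hxy (add_mem (mul_comm b' a ▸ GD.mul_mem' hb' H.1) (GD.mul_mem' hb H.2))

end Loc

open Loc in
/-- Row LOC. -/
theorem locS (hf : FaceStmt k L) : LocStmt k L := by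
  intro n N O W z g hO hW hle hg hu hi
  have h1 : (1 : L) ∉ fI O W z := fun h => nu hW hle h (Un.one W)
  have hq := hf n N O W z hO hW hle
  have hz := hO.fr.ne
  have hg' : g⁻¹ • O = O := inv_smul_eq_iff.2 hg.symm
  have m1 : ∀ x ∈ O, g • x ∈ O := fun x hx => hg ▸ smul_mem_sA.2 hx
  have m2 : ∀ x ∈ O, g⁻¹ • x ∈ O := fun x hx => hg' ▸ smul_mem_sA.2 hx
  have hu' : ∀ j, Un O (g⁻¹ • z j / z j) := fun j => by
    have e : g⁻¹ • z j / z j = g⁻¹ • (g • z j / z j)⁻¹ := by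
      rw [inv_div]
      exact ((map_div₀ g⁻¹.e _ _).trans (congrArg _ (inv_smul_smul g (z j)))).symm
    have h2 := (hu j).inv
    rw [e]
    refine ⟨m2 _ h2.1, (map_ne_zero g⁻¹.e).2 h2.2.1, ?_⟩
    rw [← smul_inv'']
    exact m2 _ h2.2.2
  refine ⟨lp O _ h1 hq, ⟨hg, hW, lcl_lp, hle, le_lp, fun x hx h => ?_, fun x hx => ?_, hi⟩,
    fun a ha => by rw [un_iff ha, not_not]⟩
  · exact (un_iff hx).2 fun h' => nu hW hle h' h
  · rw [un_iff (m1 x hx), un_iff hx, not_iff_not]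
    exact ⟨fun h => inv_smul_smul g x ▸ stab hz m2 hu' h, stab hz m1 hu⟩

end Pool.Agent.MP_19ffc6_ag.Perf.Fl

end MrgPart1

-- ======== part 2: formerly Pool.Agent.MP_19ffc6_ag.perf.FlSmall
section MrgPart2

/-! PROJECT PERF, block FL, rows SMALL and TW. -/

namespace Pool.Agent.MP_19ffc6_ag.Perf.Fl

open Polynomial IntermediateField Pool.Agent.R72.Wild Pool.Agent.R72.Lci Pool.Agent.R72.Res
  Pool.Agent.R72.Res.B Pool.Agent.R72.Res.P Pool.Agent.MP_19ffc6_ag.Perf.Ss

variable {k L : Type} [Field k] [Field L] [Algebra k L]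

namespace Small

/-- Two points of one model that are dominated by the same ring are equal. -/
lemma pt_uniq {A R R' O : Subalgebra k L} {M : Submodule k L} (h : Pt A M R) (h' : Pt A M R')
    (hd : Dom R O) (hd' : Dom R' O) : R = R' := by
  obtain ⟨a, ha, ha0, h⟩ := h
  obtain ⟨b, hb, hb0, h'⟩ := h'
  have h1 : b / a ∈ R := h.le (div_mem_chart _ _ hb)
  have h2 : a / b ∈ R' := h'.le (div_mem_chart _ _ ha)
  have h3 : Un O (b / a) := ⟨hd.1 h1, div_ne_zero hb0 ha0, by rw [inv_div]; exact hd'.1 h2⟩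
  have h4 : a / b ∈ R := by simpa using (hd.2 _ h1 h3).2.2
  rw [IsPoint.eq_loc (IsPoint.chart_of h ha ha0 hb hb0 h4) hd, ← IsPoint.eq_loc h' hd']

lemma dom_smul {R O : Subalgebra k L} (g : SA k L) (h : Dom R O) : Dom (g • R) (g • O) :=
  ⟨sA_le.2 h.1, fun _ hx hu => un_smul'.2 (h.2 _ hx (un_smul'.1 hu))⟩

lemma st (M : Submodule k L) (R O : Subalgebra k L) (g : SA k L) (hM : g • M = M)
    (h : Pt ⊥ M R) (hd : Dom R O) (hO : g • O = O) : g • R = R := by
  have h1 : Pt ⊥ M (g • R) := hM ▸ (pt_smul (g := g)).2 h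
  have h2 : Dom (g • R) O := hO ▸ dom_smul g hd
  exact pt_uniq h1 h h2 hd

lemma mem_of_pow {N : IntermediateField k L} {O : Subalgebra k L}
    (hn : ∀ a ∈ N, IsIntegral O a → a ∈ O) {v : L} (hv : v ∈ N) {m : ℕ} (hm : 0 < m)
    (h : v ^ m ∈ O) : v ∈ O :=
  hn v hv (IsIntegral.of_pow hm (isIntegral_algebraMap (x := (⟨_, h⟩ : O))))

lemma un (N : IntermediateField k L) (O : Subalgebra k L) (S : Finset L) (u : L) (g : SA k L)
    (hn : ∀ a ∈ N, IsIntegral O a → a ∈ O) (h : Pw S O u) (hS : ∀ f ∈ S, g • f = f)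
    (hO : g • O = O) (hu : u ∈ N) (hu' : g • u ∈ N) : Un O (g • u / u) := by
  obtain ⟨m, hm, e, h⟩ := h
  have hP : g • ∏ f ∈ S, f ^ e f = ∏ f ∈ S, f ^ e f := by
    rw [sm_prod]
    refine Finset.prod_congr rfl fun f hf => ?_
    have : g • f ^ e f = (g • f) ^ e f := map_zpow₀ g.e f (e f)
    rw [this, hS f hf]
  have h1 : Un O ((g • u) ^ m / ∏ f ∈ S, f ^ e f) := by
    have := (P.un_smul (g := g)).2 h
    rwa [hO, smul_div₀', hP, smul_pow'] at this
  have h0 := (div_ne_zero_iff.1 h.2.1).2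
  have h2 : Un O ((g • u / u) ^ m) := by
    have := h1.mul h.inv
    rwa [inv_div, div_mul_div_cancel₀ h0, ← div_pow] at this
  have hv : g • u / u ∈ N := div_mem hu' hu
  refine ⟨mem_of_pow hn hv hm h2.1, fun e => h2.2.1 (by rw [e, zero_pow hm.ne']), ?_⟩
  exact mem_of_pow hn (inv_mem hv) hm (by rw [inv_pow]; exact h2.2.2)

lemma ful (n : ℕ) (S S' U : Finset L) (R O : Subalgebra k L) (x : Fin n → L) (y u : L)
    (c : L → L) (i : L → ℤ) (hR : R ≤ O) (hF : Ful S R x) (hS : S ⊆ S')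
    (h0 : ∀ f ∈ S', f ≠ 0) (hP : (∏ s ∈ U, (y - s)) ∈ S')
    (hU : ∀ s ∈ U, LMon R x (c s) ∧ Un O ((y - s) / (c s * u ^ i s))) (hu : u ≠ 0)
    (hs : Sees1 O U u i) : Ful S' O (sn x u) := by
  have hF' : Ful S' O x := Ful.mono (Ful.subset hF hS) hR
  refine sn_forall (p := Pw S' O) hF' ?_
  rcases hs with hs | hs
  · exact Pw.of_un hs
  have hc : ∀ s ∈ U, Pw S' O (c s) := fun s h => by
    obtain ⟨e, he⟩ := (hU s h).1
    exact (Ful.mn hF' e).of_div (he.mono hR)
  have h1 : Pw S' O (∏ s ∈ U, (y - s) / (c s * u ^ i s)) :=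
    Pw.prod _ fun s h => Pw.of_un (hU s h).2
  have h2 := ((Pw.of_mem (O := O) hP (h0 _ hP)).div h1).div (Pw.prod U hc)
  have h3 : (∏ s ∈ U, (y - s)) / (∏ s ∈ U, (y - s) / (c s * u ^ i s)) / ∏ s ∈ U, c s =
      u ^ ∑ s ∈ U, i s := by
    have e : ∀ V : Finset L, u ^ ∑ s ∈ V, i s = ∏ s ∈ V, u ^ i s := fun V => by
      classical
      induction V using Finset.induction_on with
      | empty => simp
      | insert a V ha ih => rw [Finset.sum_insert ha, Finset.prod_insert ha, zpow_add₀ hu, ih]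
    rw [e, ← Finset.prod_div_distrib, ← Finset.prod_div_distrib]
    refine Finset.prod_congr rfl fun s h => ?_
    have a1 := (div_ne_zero_iff.1 (hU s h).2.2.1).1
    have a2 := (hc s h).ne
    have a3 := zpow_ne_zero (i s) hu
    field_simp
  rw [h3] at h2
  refine Pw.of_pow (Int.natAbs_ne_zero.2 hs) ?_
  rcases Int.natAbs_eq (∑ s ∈ U, i s) with e | e
  · rwa [e, zpow_natCast] at h2
  · have := h2.inv
    rwa [e, zpow_neg, inv_inv, zpow_natCast] at this

lemma nrm (n : ℕ) (F : IntermediateField k L) (R : Subalgebra k L) (x : Fin n → L)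
    (h : Fr n F R x) : Ss.Nrm F R ∧ Lcl R ∧ Rt R ∧ IsNoetherianRing R := by
  obtain ⟨D, hD⟩ := h.aff
  refine ⟨⟨fun a ha => Aff.le_field hD ha, fun a ha => ?_, h.nrm⟩, hD.pt.lcl, hD.rt, Aff.noeth hD⟩
  obtain ⟨b, hb, hb0, e⟩ := hD.frac a ha
  exact ⟨b, hD.pt.le hb, hb0, hD.pt.le e⟩

lemma tw_le {F₀ : Subfield L} {n : ℕ} {F : ℕ → IntermediateField k L} {Os : ℕ → Subalgebra k L}
    {x : ℕ → L} (h : Tw F₀ n F Os x) {i j : ℕ} (hij : i ≤ j) (hj : j ≤ n) : Os i ≤ Os j := by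
  induction j, hij using Nat.le_induction with
  | base => exact le_rfl
  | succ j _ ih => exact (ih (Nat.le_of_succ_le hj)).trans (h.dom j hj).1

lemma tun (F₀ : Subfield L) (n : ℕ) (F : ℕ → IntermediateField k L) (Os : ℕ → Subalgebra k L)
    (x : ℕ → L) (g : SA k L) (h : Tw F₀ n F Os x) (hg : Fx F₀ g) (hO : g • Os n = Os n)
    (j : Fin n) : Un (Os n) (g • xs x n j / xs x n j) :=
  (h.un g hg hO j j.2).mono (tw_le h j.2 le_rfl)

end Small

theorem small : SmallStmt k L where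
  st := Small.st
  un := Small.un
  ful n S S' U R O x y u c i _ := Small.ful n S S' U R O x y u c i
  nrm := Small.nrm
  tun := Small.tun

theorem tw : TwStmt k L := by
  intro F₀ K₀ n F N Os O x u hK h hF hd H
  have e1 : ∀ i ≤ n, Function.update Os (n + 1) O i = Os i := fun i hi =>
    Function.update_of_ne (by omega) _ _
  have e2 : ∀ i ≤ n, Function.update F (n + 1) N i = F i := fun i hi =>
    Function.update_of_ne (by omega) _ _
  refine ⟨fun i hi => ?_, fun i hi => ?_, fun g hg hO i hi => ?_, fun g hg hO j hj => ?_,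
    fun g hg hO i hi => ?_⟩
  · rcases Nat.of_le_succ hi with hi | rfl
    · rw [e1 i hi, e2 i hi, xs_update_le x hi]; exact h.fr i hi
    · rw [Function.update_self, Function.update_self, xs_update_succ]; exact hF
  · rcases Nat.lt_succ_iff_lt_or_eq.1 hi with hi | rfl
    · rw [e1 i hi.le, e1 _ hi]; exact h.dom i hi
    · rw [e1 i le_rfl, Function.update_self]; exact hd
  · rw [Function.update_self] at hO
    rcases Nat.of_le_succ hi with hi | rfl
    · rw [e1 i hi]; exact h.st g (hg.mono hK) (H g hg hO).1 i hi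
    · rw [Function.update_self]; exact hO
  · rw [Function.update_self] at hO
    rcases Nat.lt_succ_iff_lt_or_eq.1 hj with hj | rfl
    · rw [e1 _ hj, Function.update_of_ne hj.ne]; exact h.un g (hg.mono hK) (H g hg hO).1 j hj
    · rw [Function.update_self, Function.update_self]; exact (H g hg hO).2.1
  · rw [Function.update_self] at hO
    rcases Nat.of_le_succ hi with hi | rfl
    · rw [e1 i hi, xs_update_le x hi]; exact h.star g (hg.mono hK) (H g hg hO).1 i hi
    · rw [Function.update_self, xs_update_succ]; exact (H g hg hO).2.2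

end Pool.Agent.MP_19ffc6_ag.Perf.Fl

end MrgPart2

-- ======== part 3: formerly Pool.Agent.MP_19ffc6_ag.perf.FlAll
section MrgPart3

/-! PROJECT PERF, block FL: one floor of the tower. -/

namespace Pool.Agent.MP_19ffc6_ag.Perf.Fl

theorem floor {k L : Type} [Field k] [Field L] [Algebra k L] (p : ℕ) [Fact p.Prime] [CharP k p]
    [IsAlgClosed k] [IsAlgClosed L] (hk : KitF k L) (hd : DivF k L) (hf : FaceStmt k L) :
    FloorStmt k L :=
  floor_of (sep p) (cen p) rad mod (Ss.ssOpen p).ss base frm (monu hk hd spl)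
    (star (locS hf) (yl p) (dn Ss.nod) (red lift) (vert hd) small) small tw

end Pool.Agent.MP_19ffc6_ag.Perf.Fl

end MrgPart3

-- marker of a merged file
example : 731051 + 684183 = 731051 + 684183 := rfl
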