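import Pool.Agent.Lib.helper72.RM.M18

section Part0

/-! PROJECT PERF, gap domination, part A: descent of a frame to the trace of a subfield. -/

namespace Pool.Agent.MP_19ffc6_ag.Perf

open Pool.Agent.R72.Wild Pool.Agent.R72.Lci Pool.Agent.R72.Res Pool.Agent.R72.Res.B Polynomial

variable {k L : Type} [Field k] [Field L] [Algebra k L]

/-- The maximal ideal is generated by differences of monomials and constants. -/
structure Frame (O : Subalgebra k L) {n : ℕ} (z : Fin n → L) : Prop where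
  ne : ∀ i, z i ≠ 0
  gen : ∀ x ∈ O, ¬ Un O x → x ∈ Submodule.span O
    {y | ¬ Un O y ∧ ∃ (c : Fin n → ℤ) (a : k), mn z c ∈ O ∧ y = mn z c - algebraMap k L a}

namespace GD

variable {O : Subalgebra k L} {n : ℕ} {z z' : Fin n → L} {x y : L}

/-- The ideal generated by the monomials that are not units. -/
def nI (O : Subalgebra k L) (z : Fin n → L) : Submodule O L :=
  Submodule.span O {y | y ∈ O ∧ ¬ Un O y ∧ ∃ c, y = mn z c}

/-- The generators of the maximal ideal in a frame. -/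
def gens (O : Subalgebra k L) (z : Fin n → L) : Set L :=
  {y | ¬ Un O y ∧ ∃ (c : Fin n → ℤ) (a : k), mn z c ∈ O ∧ y = mn z c - algebraMap k L a}

lemma gens_mem (h : y ∈ gens O z) : y ∈ O := by
  obtain ⟨-, c, a, h1, rfl⟩ := h
  exact sub_mem h1 (O.algebraMap_mem a)

lemma mul_mem' {I : Submodule O L} (hx : x ∈ O) (hy : y ∈ I) : x * y ∈ I :=
  I.smul_mem ⟨x, hx⟩ hy

lemma span_mx (hl : Lcl O) {B : Subalgebra k L} (hB : B ≤ O) {S : Set L} (hS : ∀ s ∈ S, s ∈ mx hl)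
    (hx : x ∈ Submodule.span B S) : x ∈ mx hl := by
  induction hx using Submodule.span_induction with
  | mem x hx => exact hS x hx
  | zero => exact zero_mem _
  | add x y _ _ hx hy => exact add_mem hx hy
  | smul r x _ hx => exact mx_mul hl (hB r.2) hx

lemma nI_mx (hl : Lcl O) (hx : x ∈ nI O z) : x ∈ mx hl :=
  span_mx hl le_rfl (fun _ hs => ⟨hs.1, hs.2.1⟩) hx

/-- Induction over an ideal with a free multiplier. -/
lemma span_mul_mem {S : Set L} {X : AddSubmonoid L} (h : ∀ s ∈ S, ∀ r ∈ O, r * s ∈ X)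
    (hx : x ∈ Submodule.span O S) : ∀ r ∈ O, r * x ∈ X := by
  induction hx using Submodule.span_induction with
  | mem x hx => exact h x hx
  | zero => intro r _; rw [mul_zero]; exact zero_mem _
  | add x y _ _ hx hy => intro r hr; rw [mul_add]; exact add_mem (hx r hr) (hy r hr)
  | smul s x _ hx =>
    intro r hr
    change r * ((s : L) * x) ∈ X
    rw [← mul_assoc]; exact hx _ (mul_mem hr s.2)

section One

variable {I : Submodule O L} (hl : Lcl O) (hI : ∀ x ∈ I, x ∈ mx hl)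
include hI

lemma one_un (hx : x - 1 ∈ I) : Un O x := un_of_sub hl (Un.one O) (hI _ hx)

lemma one_mul' (hx : x - 1 ∈ I) (hy : y - 1 ∈ I) : x * y - 1 ∈ I := by
  rw [show x * y - 1 = x * (y - 1) + (x - 1) by ring]
  exact add_mem (mul_mem' (one_un hl hI hx).1 hy) hx

lemma one_inv (hx : x - 1 ∈ I) : x⁻¹ - 1 ∈ I := by
  have h := one_un hl hI hx
  rw [show x⁻¹ - 1 = -(x⁻¹ * (x - 1)) by have := h.2.1; field_simp; ring]
  exact neg_mem (mul_mem' h.2.2 hx)

lemma one_div' (hx : x - 1 ∈ I) (hy : y - 1 ∈ I) : x / y - 1 ∈ I := by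
  rw [div_eq_mul_inv]; exact one_mul' hl hI hx (one_inv hl hI hy)

lemma one_prod {κ : Type} (s : Finset κ) {f : κ → L} (h : ∀ i ∈ s, f i - 1 ∈ I) :
    ∏ i ∈ s, f i - 1 ∈ I :=
  Finset.prod_induction f (fun x => x - 1 ∈ I) (fun _ _ => one_mul' hl hI) (by simp) h

lemma one_pow' (hx : x - 1 ∈ I) (m : ℕ) : x ^ m - 1 ∈ I := by
  induction m with
  | zero => simp
  | succ m ih => rw [pow_succ]; exact one_mul' hl hI ih hx

lemma one_zpow' (hx : x - 1 ∈ I) (m : ℤ) : x ^ m - 1 ∈ I := by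
  obtain ⟨m, rfl | rfl⟩ := m.eq_nat_or_neg
  · rw [zpow_natCast]; exact one_pow' hl hI hx m
  · rw [zpow_neg, zpow_natCast]; exact one_inv hl hI (one_pow' hl hI hx m)

lemma one_mn {w : Fin n → L} (h : ∀ i, w i - 1 ∈ I) (c : Fin n → ℤ) : mn w c - 1 ∈ I :=
  one_prod hl hI _ fun i _ => one_zpow' hl hI (h i) _

end One

/-- Powers of the maximal ideal. -/
def Mp (hl : Lcl O) (l : ℕ) : Submodule O L :=
  haveI := hl.isLocalRing
  Submodule.map (Algebra.linearMap O L) (IsLocalRing.maximalIdeal O ^ l)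

lemma mem_Mp_zero (hl : Lcl O) (hx : x ∈ O) : x ∈ Mp hl 0 :=
  ⟨⟨x, hx⟩, by simp, rfl⟩

lemma Mp_succ (hl : Lcl O) {l : ℕ} (hx : x ∈ Mp hl l) (hy : y ∈ mx hl) : x * y ∈ Mp hl (l + 1) := by
  have := hl.isLocalRing
  obtain ⟨x, hx, rfl⟩ := hx
  refine ⟨x * ⟨y, hy.1⟩, ?_, rfl⟩
  rw [pow_succ]
  exact Ideal.mul_mem_mul hx fun h => hy.2 ((isUnit_iff_un _).1 h)

lemma Mp_anti (hl : Lcl O) {l j : ℕ} (h : l ≤ j) : Mp hl j ≤ Mp hl l :=
  Submodule.map_mono (Ideal.pow_le_pow_right h)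

lemma exists_Mp_le (hl : Lcl O) [IsNoetherianRing O] {S : Set L} (hS : ∀ s ∈ S, s ∈ O)
    (hg : ∀ x ∈ O, ¬ Un O x → x ∈ Submodule.span O S) {J : Submodule O L}
    (h : ∀ s ∈ S, ∀ hs : s ∈ O,
      (⟨s, hs⟩ : O) ∈ Ideal.radical (J.comap (Algebra.linearMap O L))) :
    ∃ l, Mp hl l ≤ J := by
  have := hl.isLocalRing
  set I : Ideal O := J.comap (Algebra.linearMap O L)
  obtain ⟨l, hl'⟩ := Ideal.exists_radical_pow_le_of_fg I (IsNoetherian.noetherian _)
  refine ⟨l, Submodule.map_le_iff_le_comap.2 ((Ideal.pow_right_mono ?_ l).trans hl')⟩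
  intro x hx
  have h1 := hg x x.2 fun hu => hx ((isUnit_iff_un _).2 hu)
  have h2 : Submodule.span O S ≤ Submodule.map (Algebra.linearMap O L) I.radical :=
    Submodule.span_le.2 fun s hs => ⟨⟨s, hS s hs⟩, h s hs _, rfl⟩
  obtain ⟨y, hy, e⟩ := h2 h1
  rwa [← show y = x from Subtype.ext e]

/-- The span of the monomials. -/
def Sp (O : Subalgebra k L) (z : Fin n → L) : Submodule k L :=
  Submodule.span k {y | y ∈ O ∧ ∃ c, y = mn z c}

lemma Sp_mul (hz : ∀ i, z i ≠ 0) (hy : y ∈ Sp O z) {c : Fin n → ℤ} (hc : mn z c ∈ O) :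
    y * mn z c ∈ Sp O z := by
  induction hy using Submodule.span_induction with
  | mem x hx =>
    obtain ⟨h1, d, rfl⟩ := hx
    exact Submodule.subset_span ⟨mul_mem h1 hc, d + c, (mn_add hz d c).symm⟩
  | zero => rw [zero_mul]; exact zero_mem _
  | add x y _ _ hx hy => rw [add_mul]; exact add_mem hx hy
  | smul s x _ hx => rw [smul_mul_assoc]; exact Submodule.smul_mem _ _ hx

lemma Sp_dense (hl : Lcl O) (hr : Rt O) (hf : Frame O z) (l : ℕ) :
    ∀ x ∈ O, ∃ y ∈ Sp O z, x - y ∈ Mp hl l := by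
  induction l with
  | zero => exact fun x hx => ⟨0, zero_mem _, by simpa using mem_Mp_zero hl hx⟩
  | succ l ih =>
    intro x hx
    obtain ⟨a, ha⟩ := hr.mx hl hx
    let X : AddSubmonoid L := (Sp O z ⊔ (Mp hl (l + 1)).restrictScalars k).toAddSubmonoid
    have h1 : 1 * (x - algebraMap k L a) ∈ X := by
      refine span_mul_mem (O := O) (fun s hs r hr' => ?_) (hf.gen _ ha.1 ha.2) 1 (one_mem _)
      obtain ⟨y, hy, hy'⟩ := ih r hr'
      have hs' : s ∈ mx hl := ⟨gens_mem hs, hs.1⟩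
      obtain ⟨-, c, b, hc, rfl⟩ := hs
      rw [show r * (mn z c - algebraMap k L b) = (y * mn z c - b • y) +
        (r - y) * (mn z c - algebraMap k L b) by rw [Algebra.smul_def]; ring]
      exact Submodule.add_mem_sup (sub_mem (Sp_mul hf.ne hy hc) (Submodule.smul_mem _ _ hy))
        (Mp_succ hl hy' hs')
    rw [one_mul] at h1
    obtain ⟨y, hy, m, hm, e⟩ := Submodule.mem_sup.1 h1
    refine ⟨y + a • 1, add_mem hy (Submodule.smul_mem _ _
      (Submodule.subset_span ⟨one_mem _, 0, (mn_zero z).symm⟩)), ?_⟩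
    rw [show x - (y + a • (1 : L)) = m by
      rw [Algebra.smul_def, mul_one]; linear_combination -e]
    exact hm

/-- The exponent of the coordinate `j`. -/
def ex (i : Fin n) (e : ℕ) (j : Fin n) : ℕ := if j = i then e else 1

/-- The quotient of an exponent vector. -/
def qv (i : Fin n) (e : ℕ) (c : Fin n → ℤ) : Fin n → ℤ := fun j => c j / ex i e j

/-- The remainder of an exponent vector. -/
def rm (i : Fin n) (e : ℕ) (c : Fin n → ℤ) : ℕ := (c i % e).toNat

/-- The corrected monomial. -/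
noncomputable def mh (z z' : Fin n → L) (i : Fin n) (e : ℕ) (c : Fin n → ℤ) : L :=
  z i ^ rm i e c * mn z' (qv i e c)

/-- The data of one descent step. -/
structure SA (O : Subalgebra k L) (F : IntermediateField k L) (z z' : Fin n → L) (i : Fin n)
    (e : ℕ) : Prop where
  lcl : Lcl O
  rt : Rt O
  noe : IsNoetherianRing O
  fr : Frame O z
  fin : ∃ T : Set L, T.Finite ∧ (∀ x ∈ T, x ∈ O) ∧
    ∀ x ∈ O, x ∈ Submodule.span (O ⊓ F.toSubalgebra : Subalgebra k L) T
  pos : 0 < e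
  frob : ∀ x y : L, (x - y) ^ e = x ^ e - y ^ e
  mem : ∀ j, z' j ∈ F
  near : ∀ j, z' j / z j ^ ex i e j - 1 ∈ nI O z
  li : ∀ P : L[X], (∀ m, P.coeff m ∈ F) → P.degree < e → P.eval (z i) = 0 → P = 0

variable {F : IntermediateField k L} {i : Fin n} {e : ℕ}

lemma rm_lt (he : 0 < e) (c : Fin n → ℤ) : rm i e c < e := by
  have h1 := Int.emod_lt_of_pos (c i) (b := e) (by exact_mod_cast he)
  have h2 := Int.emod_nonneg (c i) (b := e) (by exact_mod_cast he.ne')
  unfold rm; omega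

lemma mn_split (hz : ∀ j, z j ≠ 0) (he : 0 < e) (c : Fin n → ℤ) :
    mn z c = z i ^ rm i e c * mn (fun j => z j ^ ex i e j) (qv i e c) := by
  have h1 : mn (fun j => z j ^ ex i e j) (qv i e c) = mn z fun j => ex i e j * qv i e c j := by
    simp only [mn, ← zpow_natCast, ← zpow_mul]
  rw [h1, ← zpow_natCast, ← mn_single z i, ← mn_add hz]
  congr 1
  funext j
  have h2 := Int.emod_nonneg (c i) (b := e) (by exact_mod_cast he.ne')
  by_cases hj : j = i
  · subst hj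
    simp only [Pi.add_apply, Pi.single_eq_same, rm, qv, ex, if_true, Int.toNat_of_nonneg h2]
    exact (Int.emod_add_mul_ediv _ _).symm
  · simp [qv, ex, hj]

lemma un_inf (hx : x ∈ F) : Un (O ⊓ F.toSubalgebra : Subalgebra k L) x ↔ Un O x :=
  ⟨fun h => h.mono inf_le_left, fun h => ⟨⟨h.1, hx⟩, h.2.1, h.2.2, F.inv_mem hx⟩⟩

namespace SA

variable (h : SA O F z z' i e)
include h

lemma ne' (j : Fin n) : z' j ≠ 0 := fun e0 =>
  (one_un h.lcl (fun _ => nI_mx h.lcl) (h.near j)).2.1 (by rw [e0, zero_div])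

lemma mn_mem (c : Fin n → ℤ) : mn z' c ∈ F :=
  prod_mem fun j _ => zpow_mem (h.mem j) _

lemma near_mn (c : Fin n → ℤ) : mn z' c / mn (fun j => z j ^ ex i e j) c - 1 ∈ nI O z := by
  have := one_mn h.lcl (fun _ => nI_mx h.lcl) h.near c
  simpa only [mn, div_zpow, Finset.prod_div_distrib] using this

lemma near_mh (c : Fin n → ℤ) : mh z z' i e c / mn z c - 1 ∈ nI O z := by
  rw [mh, mn_split (i := i) h.fr.ne h.pos c, mul_div_mul_left _ _ (pow_ne_zero _ (h.fr.ne i))]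
  exact h.near_mn _

lemma un_mh (c : Fin n → ℤ) : Un O (mh z z' i e c / mn z c) :=
  one_un h.lcl (fun _ => nI_mx h.lcl) (h.near_mh c)

lemma mh_mem {c : Fin n → ℤ} (hc : mn z c ∈ O) : mh z z' i e c ∈ O := by
  have := mul_mem (h.un_mh c).1 hc
  rwa [div_mul_cancel₀ _ (mn_ne_zero h.fr.ne c)] at this

end SA

/-- The span of the corrected monomials with remainder in `s`. -/
def Ws (O : Subalgebra k L) (F : IntermediateField k L) (z z' : Fin n → L) (i : Fin n) (e : ℕ)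
    (s : Set ℕ) : Submodule (O ⊓ F.toSubalgebra : Subalgebra k L) L :=
  Submodule.span _ {y | ∃ c, mn z c ∈ O ∧ rm i e c ∈ s ∧ y = mh z z' i e c}

namespace SA

variable (h : SA O F z z' i e)
include h

lemma sep {b : ℕ} (hb : b < e) (hy : y ∈ Ws O F z z' i e {b}ᶜ) (hF : y / z i ^ b ∈ F) : y = 0 := by
  have h1 : ∃ P : L[X], (∀ m, P.coeff m ∈ F) ∧ P.degree < e ∧ P.coeff b = 0 ∧
      P.eval (z i) = y := by
    clear hF
    induction hy using Submodule.span_induction with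
    | mem x hx =>
      obtain ⟨c, -, hc, rfl⟩ := hx
      refine ⟨monomial (rm i e c) (mn z' (qv i e c)), fun m => ?_,
        (degree_monomial_le _ _).trans_lt (by exact_mod_cast rm_lt h.pos c), ?_, ?_⟩
      · rw [coeff_monomial]; split_ifs
        exacts [h.mn_mem _, zero_mem _]
      · rw [coeff_monomial, if_neg (show ¬ rm i e c = b from hc)]
      · rw [eval_monomial, mh, mul_comm]
    | zero => exact ⟨0, fun m => by simp, by simp, by simp, by simp⟩
    | add x y _ _ hx hy =>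
      obtain ⟨P, p1, p2, p3, rfl⟩ := hx
      obtain ⟨Q, q1, q2, q3, rfl⟩ := hy
      exact ⟨P + Q, fun m => by rw [coeff_add]; exact add_mem (p1 m) (q1 m),
        (degree_add_le _ _).trans_lt (max_lt p2 q2), by simp [p3, q3], by simp⟩
    | smul r x _ hx =>
      obtain ⟨P, p1, p2, p3, rfl⟩ := hx
      exact ⟨C (r : L) * P, fun m => by rw [coeff_C_mul]; exact mul_mem r.2.2 (p1 m),
        by rw [← smul_eq_C_mul]; exact (degree_smul_le _ _).trans_lt p2, by simp [p3],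
        by rw [eval_C_mul]; rfl⟩
  obtain ⟨P, p1, p2, p3, p4⟩ := h1
  have h0 := pow_ne_zero b (h.fr.ne i)
  have h2 := h.li (P - monomial b (y / z i ^ b)) (fun m => by
      rw [coeff_sub, coeff_monomial]; split_ifs
      exacts [sub_mem (p1 m) hF, sub_mem (p1 m) (zero_mem _)])
    ((degree_sub_le _ _).trans_lt (max_lt p2
      ((degree_monomial_le _ _).trans_lt (by exact_mod_cast hb))))
    (by rw [eval_sub, eval_monomial, p4, div_mul_cancel₀ _ h0, sub_self])
  have h3 := congrArg (fun Q => Q.coeff b) h2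
  simpa [p3, h0] using h3

lemma Ws_div {b : ℕ} (hy : y ∈ Ws O F z z' i e {b}) : y / z i ^ b ∈ F := by
  induction hy using Submodule.span_induction with
  | mem x hx =>
    obtain ⟨c, -, hc, rfl⟩ := hx
    rw [mh, show rm i e c = b from hc, mul_div_cancel_left₀ _ (pow_ne_zero b (h.fr.ne i))]
    exact h.mn_mem _
  | zero => rw [zero_div]; exact zero_mem _
  | add x y _ _ hx hy => rw [add_div]; exact add_mem hx hy
  | smul r x _ hx =>
    change (r : L) * x / _ ∈ F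
    rw [mul_div_assoc]; exact mul_mem r.2.2 hx

lemma gens_of {c : Fin n → ℤ} {a : k} (hc : mn z' c ∈ O) (hu : ¬ Un O (mn z' c - algebraMap k L a)) :
    mn z' c - algebraMap k L a ∈ gens (O ⊓ F.toSubalgebra : Subalgebra k L) z' :=
  ⟨fun H => hu (H.mono inf_le_left), c, a, ⟨hc, h.mn_mem c⟩, rfl⟩

omit h [Field k] [Algebra k L] in
lemma mh_smul (c : Fin n → ℤ) : mh z z' i e ((e : ℤ) • c) = mn z' (qv i e ((e : ℤ) • c)) := by
  simp [mh, rm]

lemma exists_le : ∃ l, Mp h.lcl l ≤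
    Submodule.span O (gens (O ⊓ F.toSubalgebra : Subalgebra k L) z') := by
  have := h.noe
  set J := Submodule.span O (gens (O ⊓ F.toSubalgebra : Subalgebra k L) z')
  set I : Ideal O := J.comap (Algebra.linearMap O L)
  have hz := h.fr.ne
  have h1 : nI O z ≤ Submodule.map (Algebra.linearMap O L) I.radical := by
    refine Submodule.span_le.2 ?_
    rintro _ ⟨h1, h2, c, rfl⟩
    refine ⟨⟨_, h1⟩, ⟨e, ?_⟩, rfl⟩
    change mn z c ^ e ∈ J
    have h3 := h.un_mh ((e : ℤ) • c)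
    have h4 : mn z ((e : ℤ) • c) ∈ O := by rw [mn_smul, zpow_natCast]; exact pow_mem h1 e
    have h5 := h.mh_mem h4
    rw [mh_smul] at h3 h5
    have h6 : ¬ Un O (mn z' (qv i e ((e : ℤ) • c)) - algebraMap k L 0) := fun H => h2 <| by
      rw [map_zero, sub_zero] at H
      have h7 := un_div H h3
      rw [div_div_cancel₀ H.2.1, mn_smul, zpow_natCast, ← Nat.sub_add_cancel h.pos, pow_succ'] at h7
      exact Un.of_mul h1 (pow_mem h1 _) h7
    have h7 := mul_mem' h3.2.2 (Submodule.subset_span (h.gens_of h5 h6) : _ ∈ J)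
    rwa [map_zero, sub_zero, inv_div, div_mul_cancel₀ _ (mn_ne_zero h.ne' _), mn_smul,
      zpow_natCast] at h7
  refine exists_Mp_le h.lcl (S := gens O z) (fun s hs => gens_mem hs) h.fr.gen ?_
  rintro _ ⟨hu, c, a, hc, rfl⟩ hs
  have h4 : mn z ((e : ℤ) • c) ∈ O := by rw [mn_smul, zpow_natCast]; exact pow_mem hc e
  have h5 := h.mh_mem h4
  have h6 := mul_mem' h4 (h.near_mh ((e : ℤ) • c))
  rw [mul_sub, mul_div_cancel₀ _ (mn_ne_zero hz _), mul_one] at h6
  rw [mh_smul] at h5 h6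
  rw [mn_smul, zpow_natCast] at h6
  have h7 : (mn z c - algebraMap k L a) ^ e ∈ mx h.lcl := by
    rw [← pow_sub_one_mul h.pos.ne']
    exact mx_mul h.lcl (pow_mem hs _) ⟨hs, hu⟩
  have h8 : (mn z c - algebraMap k L a) ^ e = (mn z' (qv i e ((e : ℤ) • c)) -
      algebraMap k L (a ^ e)) - (mn z' (qv i e ((e : ℤ) • c)) - mn z c ^ e) := by
    rw [h.frob, map_pow]; ring
  have h9 := h.gens_of (a := a ^ e) h5 (by
    have := add_mem h7 (nI_mx h.lcl h6)
    rw [h8, sub_add_cancel] at this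
    exact this.2)
  obtain ⟨w, hw, ew⟩ := h1 h6
  refine Ideal.radical_idem I ▸ ⟨e, ?_⟩
  have h10 : (⟨_, hs⟩ : O) ^ e = ⟨_, sub_mem h5 (O.algebraMap_mem (a ^ e))⟩ - w :=
    Subtype.ext (h8.trans (by rw [← ew]; rfl))
  rw [h10]
  exact sub_mem (Ideal.le_radical (Submodule.subset_span h9 : _ ∈ J)) hw

/-- Multiples of a monomial are approximated by corrected monomials. -/
lemma walk (X : Submodule k L) (g₀ : Fin n → ℤ)
    (hm : ∀ c, mn z c ∈ O → mh z z' i e (c + g₀) ∈ X)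
    (hJ : ∀ y ∈ Submodule.span O (gens (O ⊓ F.toSubalgebra : Subalgebra k L) z'),
      y * mn z g₀ ∈ X) (hx : x ∈ O) : x * mn z g₀ ∈ X := by
  obtain ⟨l, hl⟩ := h.exists_le
  have hz := h.fr.ne
  have key : ∀ m j, l ≤ m + j → ∀ g, mn z g ∈ O → mn z g ∈ Mp h.lcl j →
      ∀ r ∈ O, r * mn z g * mn z g₀ ∈ X := by
    intro m
    induction m with
    | zero =>
      intro j hj g _ hg r hr
      exact hJ _ (mul_mem' hr (hl (Mp_anti h.lcl (by omega) hg)))
    | succ m ih =>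
      intro j hj g hg hg' r hr
      obtain ⟨y, hy, hy'⟩ := Sp_dense h.lcl h.rt h.fr l r hr
      rw [show r * mn z g = y * mn z g + mn z g * (r - y) by ring, add_mul]
      refine add_mem ?_ (hJ _ (mul_mem' hg (hl hy')))
      clear hy'
      induction hy using Submodule.span_induction with
      | mem y hy =>
        obtain ⟨h1, c, rfl⟩ := hy
        have h2 : mn z (c + g) ∈ O := by rw [mn_add hz]; exact mul_mem h1 hg
        let Y : AddSubmonoid L :=
          (X.comap (LinearMap.mulRight k (mn z g * mn z g₀))).toAddSubmonoid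
        have h3 : mn z c * (mh z z' i e (c + g + g₀) / mn z (c + g + g₀) - 1) ∈ Y := by
          refine span_mul_mem (O := O) ?_ (h.near_mh (c + g + g₀)) _ h1
          rintro _ ⟨d1, d2, d, rfl⟩ s hs
          change s * mn z d * (mn z g * mn z g₀) ∈ X
          rw [← mul_assoc, mul_assoc s, mul_comm (mn z d), ← mn_add hz]
          refine ih (j + 1) (by omega) _ ?_ ?_ s hs <;> rw [mn_add hz]
          exacts [mul_mem hg d1, Mp_succ h.lcl hg' ⟨d1, d2⟩]
        have h4 := sub_mem (hm _ h2) (h3 : _ * (mn z g * mn z g₀) ∈ X)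
        have h5 := mn_ne_zero hz c
        have h6 := mn_ne_zero hz g
        have h7 := mn_ne_zero hz g₀
        convert h4 using 1
        rw [LinearMap.mulRight_apply, mn_add hz, mn_add hz]; field_simp; ring
      | zero => rw [zero_mul, zero_mul]; exact zero_mem _
      | add x y _ _ hx hy => rw [add_mul, add_mul]; exact add_mem hx hy
      | smul s x _ hx => rw [smul_mul_assoc, smul_mul_assoc]; exact X.smul_mem _ hx
  simpa [mn_zero] using key l 0 le_rfl 0 (by rw [mn_zero]; exact one_mem _)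
    (mem_Mp_zero _ (by rw [mn_zero]; exact one_mem _)) x hx

/-- The main approximation: constants, terms of nonzero remainder and the new maximal ideal. -/
lemma approx (hx : x ∈ O) : ∃ a : k, ∃ v ∈ Ws O F z z' i e {0}ᶜ, x - algebraMap k L a - v ∈
    Submodule.span O (gens (O ⊓ F.toSubalgebra : Subalgebra k L) z') := by
  set J := Submodule.span O (gens (O ⊓ F.toSubalgebra : Subalgebra k L) z')
  let X : Submodule k L := (Submodule.span k {1} ⊔ (Ws O F z z' i e {0}ᶜ).restrictScalars k) ⊔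
    J.restrictScalars k
  have hJ : ∀ y ∈ J, y ∈ X := fun y hy => Submodule.mem_sup_right hy
  have hm : ∀ c, mn z c ∈ O → mh z z' i e c ∈ X := fun c hc => by
    by_cases h0 : rm i e c = 0
    · have h1 := h.mh_mem hc
      rw [mh, h0, pow_zero, one_mul] at h1 ⊢
      obtain ⟨a, ha⟩ := h.rt _ h1
      rw [← add_sub_cancel (algebraMap k L a) (mn z' _)]
      refine add_mem (Submodule.mem_sup_left (Submodule.mem_sup_left ?_))
        (hJ _ (Submodule.subset_span (h.gens_of h1 ha)))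
      rw [Algebra.algebraMap_eq_smul_one]
      exact Submodule.smul_mem _ _ (Submodule.subset_span rfl)
    · exact Submodule.mem_sup_left (Submodule.mem_sup_right
        (Submodule.subset_span ⟨c, hc, h0, rfl⟩ : _ ∈ Ws O F z z' i e {0}ᶜ))
  have h1 := h.walk X 0 (by simpa using hm) (by simpa [mn_zero] using hJ) hx
  rw [mn_zero, mul_one] at h1
  obtain ⟨_, h2, w, hw, rfl⟩ := Submodule.mem_sup.1 h1
  obtain ⟨_, h3, v, hv, rfl⟩ := Submodule.mem_sup.1 h2
  obtain ⟨a, rfl⟩ := Submodule.mem_span_singleton.1 h3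
  refine ⟨a, v, hv, ?_⟩
  rw [Algebra.algebraMap_eq_smul_one, show a • (1 : L) + v + w - a • 1 - v = w by ring]
  exact hw

lemma nI_le (hx : x ∈ nI (O ⊓ F.toSubalgebra : Subalgebra k L) z') : x ∈ nI O z := by
  induction hx using Submodule.span_induction with
  | mem x hx =>
    obtain ⟨h1, h2, c, rfl⟩ := hx
    have h3 := one_un h.lcl (fun _ => nI_mx h.lcl) (h.near_mn c)
    have h4 : mn (fun j => z j ^ ex i e j) c = mn z fun j => ex i e j * c j := by
      simp only [mn, ← zpow_natCast, ← zpow_mul]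
    rw [h4] at h3
    have h5 := mn_ne_zero h.fr.ne fun j => ex i e j * c j
    have h6 := mul_mem h3.2.2 h1.1
    rw [inv_div, div_mul_cancel₀ _ (mn_ne_zero h.ne' c)] at h6
    have h7 := mul_mem' h3.1 (Submodule.subset_span ⟨h6, fun U => h2 ((un_inf h1.2).2 (by
      have := h3.mul U
      rwa [div_mul_cancel₀ _ h5] at this)), _, rfl⟩ : _ ∈ nI O z)
    rwa [div_mul_cancel₀ _ h5] at h7
  | zero => exact zero_mem _
  | add x y _ _ hx hy => exact add_mem hx hy
  | smul r x _ hx => exact mul_mem' r.2.1 hx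

lemma lclB : Lcl (O ⊓ F.toSubalgebra : Subalgebra k L) := fun x hx y hy hxy => by
  rw [un_inf hx.2, un_inf hy.2]
  exact h.lcl x hx.1 y hy.1 (hxy.mono inf_le_left)

lemma decomp (hx : x ∈ O) :
    ∃ b ∈ (O ⊓ F.toSubalgebra : Subalgebra k L), ∃ v ∈ Ws O F z z' i e {0}ᶜ, x = b + v := by
  set B : Subalgebra k L := O ⊓ F.toSubalgebra
  have := h.lclB.isLocalRing
  obtain ⟨T, hT, hTO, hT'⟩ := h.fin
  have h1 : Submodule.span B T ≤ Submodule.span B {1} ⊔ Ws O F z z' i e {0}ᶜ := by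
    refine Submodule.le_of_le_smul_of_le_jacobson_bot (Submodule.fg_span hT)
      (IsLocalRing.maximalIdeal_le_jacobson ⊥) (Submodule.span_le.2 fun t ht => ?_)
    obtain ⟨a, v, hv, ha⟩ := h.approx (hTO t ht)
    have h2 := span_mul_mem (O := O)
      (X := (IsLocalRing.maximalIdeal B • Submodule.span B T).toAddSubmonoid)
      (fun s hs r hr => by
        rw [mul_comm]
        exact Submodule.smul_mem_smul (r := (⟨s, gens_mem hs⟩ : B))
          (fun H => hs.1 ((isUnit_iff_un _).1 H)) (hT' r hr)) ha 1 (one_mem _)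
    rw [one_mul] at h2
    rw [show t = (algebraMap k L a + v) + (t - algebraMap k L a - v) by ring]
    refine Submodule.add_mem_sup (Submodule.add_mem_sup ?_ hv) h2
    exact Submodule.mem_span_singleton.2 ⟨⟨_, B.algebraMap_mem a⟩, mul_one _⟩
  obtain ⟨_, h2, v, hv, e1⟩ := Submodule.mem_sup.1 (h1 (hT' x hx))
  obtain ⟨b, rfl⟩ := Submodule.mem_span_singleton.1 h2
  exact ⟨b, b.2, v, hv, by rw [← e1]; congr 1; exact mul_one _⟩

theorem frame : Frame (O ⊓ F.toSubalgebra : Subalgebra k L) z' := by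
  set B : Subalgebra k L := O ⊓ F.toSubalgebra
  refine ⟨h.ne', fun x hx hu => ?_⟩
  change x ∈ Submodule.span B (gens B z')
  obtain ⟨a, v, hv, ha⟩ := h.approx hx.1
  have h2 := span_mul_mem (O := O)
    (X := (Submodule.span B (gens B z') ⊔ Ws O F z z' i e {0}ᶜ).toAddSubmonoid)
    (fun s hs r hr => by
      obtain ⟨b, hb, w, hw, rfl⟩ := h.decomp hr
      rw [add_mul, mul_comm w]
      exact Submodule.add_mem_sup (mul_mem' hb (Submodule.subset_span hs))
        (mul_mem' (gens_mem hs) hw)) ha 1 (one_mem _)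
  rw [one_mul] at h2
  obtain ⟨j, hj, w, hw, e1⟩ := Submodule.mem_sup.1 h2
  have hj' : j ∈ mx h.lclB := span_mx h.lclB le_rfl (fun s hs => ⟨gens_mem hs, hs.1⟩) hj
  have h3 : v + w = x - algebraMap k L a - j := by linear_combination e1
  have h4 := h.sep h.pos (add_mem hv hw) (by
    rw [pow_zero, div_one, h3]
    exact sub_mem (sub_mem hx.2 (F.algebraMap_mem a)) hj'.1.2)
  have h5 : algebraMap k L a = x - j := by linear_combination h3 - h4
  have h6 : a = 0 := by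
    by_contra h0
    exact (sub_mem (⟨hx, hu⟩ : x ∈ mx h.lclB) hj').2 (h5 ▸ un_alg B h0)
  rw [h6, map_zero, eq_comm, sub_eq_zero] at h5
  exact h5 ▸ hj

open Pointwise in
theorem nI_inf (hF : x ∈ F) (hx : x ∈ nI O z) :
    x ∈ nI (O ⊓ F.toSubalgebra : Subalgebra k L) z' := by
  set B : Subalgebra k L := O ⊓ F.toSubalgebra
  have := h.lclB.isLocalRing
  have := h.noe
  have hz := h.fr.ne
  let I : Submodule B L :=
    { carrier := nI O z
      add_mem' := add_mem
      zero_mem' := zero_mem _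
      smul_mem' := fun r x hx => mul_mem' r.2.1 hx }
  have hI : I.FG := by
    obtain ⟨T, hT, hTO, hT'⟩ := h.fin
    obtain ⟨U, hU, hU'⟩ := Submodule.fg_def.1 ((Submodule.fg_span (R := O)
      (Set.finite_singleton (1 : L))).of_le (S := nI O z) fun x hx =>
        Submodule.mem_span_singleton.2 ⟨⟨x, (nI_mx h.lcl hx).1⟩, mul_one _⟩)
    refine Submodule.fg_def.2 ⟨_, hT.mul hU, le_antisymm (Submodule.span_le.2 ?_) fun y hy => ?_⟩
    · rintro _ ⟨t, ht, u, hu, rfl⟩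
      exact mul_mem' (I := nI O z) (hTO t ht) (hU' ▸ Submodule.subset_span hu)
    · have := span_mul_mem (O := O) (S := U) (X := (Submodule.span B (T * U)).toAddSubmonoid)
        (fun s hs r hr => by
          rw [← Submodule.span_mul_span]
          exact Submodule.mul_mem_mul (hT' r hr) (Submodule.subset_span hs))
        (by rw [hU']; exact hy) 1 (one_mem _)
      rwa [one_mul] at this
  have h1 : I ≤ nI B z' ⊔ Ws O F z z' i e {0}ᶜ := by
    refine Submodule.le_of_le_smul_of_le_jacobson_bot hI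
      (IsLocalRing.maximalIdeal_le_jacobson ⊥) fun y hy => ?_
    let X := (nI B z' ⊔ Ws O F z z' i e {0}ᶜ) ⊔ IsLocalRing.maximalIdeal B • I
    have := span_mul_mem (O := O) (X := X.toAddSubmonoid) (by
      rintro _ ⟨g1, g2, g, rfl⟩ r hr
      have g3 : mn z g ∈ nI O z := Submodule.subset_span ⟨g1, g2, g, rfl⟩
      refine h.walk (X.restrictScalars k) g (fun c hc => Submodule.mem_sup_left ?_)
        (fun y hy => Submodule.mem_sup_right ?_) hr
      · have h2 : mn z (c + g) ∈ O := by rw [mn_add hz]; exact mul_mem hc g1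
        by_cases h0 : rm i e (c + g) = 0
        · have h3 := h.mh_mem h2
          have h4 := h.un_mh (c + g)
          rw [mh, h0, pow_zero, one_mul] at h3 h4 ⊢
          refine Submodule.mem_sup_left (Submodule.subset_span ⟨⟨h3, h.mn_mem _⟩, fun U => g2 ?_,
            _, rfl⟩)
          have h5 := un_div (U.mono inf_le_left) h4
          rw [div_div_cancel₀ U.2.1, mn_add hz, mul_comm] at h5
          exact Un.of_mul g1 hc h5
        · exact Submodule.mem_sup_right (Submodule.subset_span ⟨_, h2, h0, rfl⟩)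
      · have := span_mul_mem (O := O) (X := ((IsLocalRing.maximalIdeal B • I).comap
            (LinearMap.mulRight B (mn z g))).toAddSubmonoid) (fun s hs r hr => by
          change r * s * mn z g ∈ IsLocalRing.maximalIdeal B • I
          rw [mul_comm r, mul_assoc]
          exact Submodule.smul_mem_smul (r := (⟨s, gens_mem hs⟩ : B))
            (fun H => hs.1 ((isUnit_iff_un _).1 H)) (mul_mem' (I := nI O z) hr g3)) hy 1 (one_mem _)
        rwa [one_mul] at this) (hy : y ∈ nI O z) 1 (one_mem _)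
    rwa [one_mul] at this
  obtain ⟨j, hj, w, hw, e1⟩ := Submodule.mem_sup.1 (h1 hx)
  have h4 := h.sep h.pos hw (by
    rw [pow_zero, div_one, eq_sub_of_add_eq' e1]
    exact sub_mem hF (nI_mx h.lclB hj).1.2)
  rwa [← e1, h4, add_zero]

theorem lmon {f : L} (hf : f ∈ F) (hm : LMon O z f) :
    LMon (O ⊓ F.toSubalgebra : Subalgebra k L) z' f := by
  obtain ⟨c, hc⟩ := hm
  have hz := h.fr.ne
  have h0 : f ≠ 0 := LMon.ne_zero ⟨c, hc⟩
  have h1 : Un O (mh z z' i e c / f) := by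
    have := un_div (h.un_mh c) hc
    rwa [div_div_div_cancel_right₀ (mn_ne_zero hz c)] at this
  set b := rm i e c with hb
  obtain ⟨β, hβ, v, hv, e1⟩ := h.decomp h1.1
  have h2 : mh z z' i e c / f ∈ Ws O F z z' i e {b} ⊔ Ws O F z z' i e {b}ᶜ := by
    rw [Ws, Ws, ← Submodule.span_union, e1]
    refine add_mem ?_ (Submodule.span_mono ?_ hv)
    · rw [← mul_one β]
      refine mul_mem' hβ (Submodule.subset_span ?_)
      have e2 : (1 : L) = mh z z' i e 0 := by
        simp [mh, rm, show qv i e 0 = 0 from funext fun j => by simp [qv], mn_zero]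
      have e3 : mn z 0 ∈ O := by rw [mn_zero]; exact one_mem _
      by_cases hb0 : rm i e 0 = b
      exacts [Or.inl ⟨0, e3, hb0, e2⟩, Or.inr ⟨0, e3, hb0, e2⟩]
    · rintro _ ⟨d, d1, -, rfl⟩
      by_cases hb0 : rm i e d = b
      exacts [Or.inl ⟨d, d1, hb0, rfl⟩, Or.inr ⟨d, d1, hb0, rfl⟩]
  obtain ⟨w, hw, v', hv', e2⟩ := Submodule.mem_sup.1 h2
  have hi := pow_ne_zero b (hz i)
  have h3 := h.sep (rm_lt h.pos c) hv' (by
    rw [eq_sub_of_add_eq' e2, sub_div]
    refine sub_mem ?_ (h.Ws_div hw)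
    rw [mh, ← hb, div_right_comm, mul_div_cancel_left₀ _ hi]
    exact div_mem (h.mn_mem _) hf)
  rw [h3, add_zero] at e2
  have h4 : ∃ d, rm i e d = b ∧ Un O (mh z z' i e d) := by
    by_contra H
    refine (span_mx h.lcl inf_le_left ?_ hw).2 (e2 ▸ h1)
    rintro _ ⟨d, d1, d2, rfl⟩
    exact ⟨h.mh_mem d1, fun hu => H ⟨d, d2, hu⟩⟩
  obtain ⟨d, d1, d2⟩ := h4
  refine ⟨qv i e c - qv i e d, (un_inf (div_mem hf (h.mn_mem _))).2 ?_⟩
  have h5 := un_div d2 h1
  have h6 := mn_ne_zero h.ne' (qv i e c)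
  have h7 := mn_ne_zero h.ne' (qv i e d)
  convert h5 using 1
  rw [mn_sub h.ne', mh, mh, d1, ← hb]
  field_simp

end SA

end GD

end Pool.Agent.MP_19ffc6_ag.Perf

end Part0

section Part1

/-! PROJECT PERF, gap domination, part B: the deepest class of a group action on a frame. -/

namespace Pool.Agent.MP_19ffc6_ag.Perf.GD

open Pool.Agent.R72.Wild Pool.Agent.R72.Lci Pool.Agent.R72.Res Pool.Agent.R72.Res.B Polynomial

variable {k L : Type} [Field k] [Field L] [Algebra k L]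
  {G : Type} [Group G] [MulSemiringAction G L] [SMulCommClass G k L]

/-- The displacement of `x`. -/
def dp (h : G) (x : L) : L := h • x / x - 1

/-- The state of the induction. -/
structure St (N : Subgroup G) (R O : Subalgebra k L) {n : ℕ} (z : Fin n → L) (dir : G → Fin n)
    (a b : ℕ) : Prop where
  nrm : N.Normal
  idx : N.FiniteIndex
  noe : IsNoetherianRing R
  fixR : ∀ g : G, ∀ x ∈ R, g • x = x
  le : R ≤ O
  fin : ∃ T : Set L, T.Finite ∧ ∀ x ∈ O, x ∈ Submodule.span R T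
  lcl : Lcl O
  rt : Rt O
  st : ∀ g : G, ∀ x ∈ O, g • x ∈ O
  fr : Frame O z
  fixO : ∀ g ∈ N, ∀ x ∈ O, g • x = x
  fixz : ∀ g ∈ N, ∀ j, g • z j = z j
  mon : ∀ h ∉ N, LMon O z (dp h (z (dir h))) ∧ dp h (z (dir h)) ∈ O ∧ ¬ Un O (dp h (z (dir h)))
  oth : ∀ h ∉ N, ∀ j ≠ dir h, dp h (z j) / dp h (z (dir h)) ^ b ∈ O
  pair : ∀ h ∉ N, ∀ h' ∉ N, (dir h = dir h' ∧ dp h (z (dir h)) ^ a / dp h' (z (dir h')) ∈ O ∧
      dp h' (z (dir h')) ^ a / dp h (z (dir h)) ∈ O) ∨
    dp h (z (dir h)) / dp h' (z (dir h')) ^ b ∈ O ∨ dp h' (z (dir h')) / dp h (z (dir h)) ^ b ∈ O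

variable {N : Subgroup G} {R O : Subalgebra k L} {n : ℕ} {z : Fin n → L} {dir : G → Fin n}
  {a b : ℕ} {x y w : L} {g h h' : G}

lemma dv_trans (hy : y ≠ 0) (h1 : x / y ∈ O) (h2 : y / w ∈ O) : x / w ∈ O := by
  have := mul_mem h1 h2
  rwa [div_mul_div_cancel₀ hy] at this

lemma dv_pow (h1 : x / y ∈ O) (m : ℕ) : x ^ m / y ^ m ∈ O := by
  rw [← div_pow]; exact pow_mem h1 m

lemma pow_dv (hx : x ∈ O) (h0 : x ≠ 0) {s t : ℕ} (h : s ≤ t) : x ^ t / x ^ s ∈ O := by
  rw [← pow_sub₀ _ h0 h |>.trans (div_eq_mul_inv _ _).symm]; exact pow_mem hx _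

lemma not_dv (hx : x ∈ O) (h0 : x ≠ 0) (hu : ¬ Un O x) {s t : ℕ} (h : s < t) :
    x ^ s / x ^ t ∉ O := fun H => hu ⟨hx, h0, by
  have := dv_trans (pow_ne_zero _ h0) H (y := x ^ t) (w := x ^ (s + 1)) (pow_dv hx h0 h)
  rwa [pow_succ, div_mul_eq_div_div, div_self (pow_ne_zero _ h0), one_div] at this⟩

lemma mem_of_dv (h0 : y ≠ 0) {I : Submodule O L} (h1 : x / y ∈ O) (hy : y ∈ I) : x ∈ I := by
  have := mul_mem' h1 hy
  rwa [div_mul_cancel₀ _ h0] at this

lemma smul_alg (g : G) (c : k) : g • algebraMap k L c = algebraMap k L c := by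
  rw [Algebra.algebraMap_eq_smul_one, smul_comm, smul_one]

omit [SMulCommClass G k L] in
lemma un_sm (hst : ∀ g : G, ∀ x ∈ O, g • x ∈ O) (hx : Un O x) (g : G) : Un O (g • x) :=
  ⟨hst g x hx.1, (smul_ne_zero_iff_ne g).2 hx.2.1, by rw [← smul_inv'']; exact hst g _ hx.2.2⟩

/-- The deepest class. -/
def Cls (N : Subgroup G) (O : Subalgebra k L) (z : Fin n → L) (dir : G → Fin n) (b : ℕ) : Set G :=
  {h | h ∉ N ∧ ∀ h' ∉ N, dp h' (z (dir h')) / dp h (z (dir h)) ^ b ∉ O}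

/-- The ideal of the displacements of the deepest class. -/
def dI (N : Subgroup G) (O : Subalgebra k L) (z : Fin n → L) (dir : G → Fin n) (b : ℕ) :
    Submodule O L :=
  Submodule.span O ((fun h => dp h (z (dir h))) '' Cls N O z dir b)

namespace St

variable (H : St N R O z dir a b)
include H

omit [SMulCommClass G k L]

lemma sub_fg {I : Submodule R L} (hI : ∀ x ∈ I, x ∈ O) : I.FG := by
  have := H.noe
  obtain ⟨T, hT, hT'⟩ := H.fin
  exact (Submodule.fg_span hT).of_le fun x hx => hT' x (hI x hx)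

lemma fin' {B : Subalgebra k L} (hB : R ≤ B) : ∃ T : Set L, T.Finite ∧ (∀ x ∈ T, x ∈ O) ∧
    ∀ x ∈ O, x ∈ Submodule.span B T := by
  let I : Submodule R L :=
    { carrier := O
      add_mem' := add_mem
      zero_mem' := zero_mem _
      smul_mem' := fun r x hx => mul_mem (H.le r.2) hx }
  obtain ⟨T, hT, hT'⟩ := Submodule.fg_def.1 (H.sub_fg (I := I) fun _ hx => hx)
  refine ⟨T, hT, fun x hx => (hT' ▸ Submodule.subset_span hx : x ∈ I), fun x hx => ?_⟩
  have h1 : x ∈ Submodule.span R T := hT' ▸ (hx : x ∈ I)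
  clear hx
  induction h1 using Submodule.span_induction with
  | mem x hx => exact Submodule.subset_span hx
  | zero => exact zero_mem _
  | add x y _ _ hx hy => exact add_mem hx hy
  | smul r x _ hx => exact mul_mem' (hB r.2) hx

lemma fgO {I : Submodule O L} (hI : ∀ x ∈ I, x ∈ O) : I.FG := by
  let I' : Submodule R L :=
    { carrier := I
      add_mem' := add_mem
      zero_mem' := zero_mem _
      smul_mem' := fun r x hx => mul_mem' (H.le r.2) hx }
  obtain ⟨T, hT, hT'⟩ := Submodule.fg_def.1 (H.sub_fg (I := I') hI)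
  refine Submodule.fg_def.2 ⟨T, hT, le_antisymm (Submodule.span_le.2 fun x hx =>
    (hT' ▸ Submodule.subset_span hx : x ∈ I')) fun x hx => ?_⟩
  have h1 : x ∈ Submodule.span R T := hT' ▸ (hx : x ∈ I')
  clear hx
  induction h1 using Submodule.span_induction with
  | mem x hx => exact Submodule.subset_span hx
  | zero => exact zero_mem _
  | add x y _ _ hx hy => exact add_mem hx hy
  | smul r x _ hx => exact mul_mem' (H.le r.2) hx

lemma noeO : IsNoetherianRing O := by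
  refine (isNoetherianRing_iff_ideal_fg O).2 fun I => ?_
  refine Submodule.fg_of_fg_map_injective (Algebra.linearMap O L) Subtype.val_injective
    (H.fgO ?_)
  rintro _ ⟨y, -, rfl⟩
  exact y.2

lemma d_ne (hh : h ∉ N) : dp h (z (dir h)) ≠ 0 := (H.mon h hh).1.ne_zero

lemma d_mx (hh : h ∉ N) : dp h (z (dir h)) ∈ mx H.lcl := (H.mon h hh).2

lemma dp_dv (hb : 0 < b) (hh : h ∉ N) (j : Fin n) : dp h (z j) / dp h (z (dir h)) ∈ O := by
  by_cases hj : j = dir h
  · rw [hj, div_self (H.d_ne hh)]; exact one_mem _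
  · refine dv_trans (pow_ne_zero _ (H.d_ne hh)) (H.oth h hh j hj) ?_
    simpa using pow_dv (H.d_mx hh).1 (H.d_ne hh) (s := 1) hb

lemma dp_zero (hg : g ∈ N) (j : Fin n) : dp g (z j) = 0 := by
  rw [dp, H.fixz g hg, div_self (H.fr.ne j), sub_self]

lemma un_z (hb : 0 < b) (g : G) (j : Fin n) : Un O (g • z j / z j) := by
  refine un_of_sub H.lcl (Un.one O) ?_
  change dp g (z j) ∈ _
  by_cases hg : g ∈ N
  · rw [H.dp_zero hg]; exact zero_mem _
  · have := mx_mul H.lcl (H.dp_dv hb hg j) (H.d_mx hg)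
    rwa [div_mul_cancel₀ _ (H.d_ne hg)] at this

lemma un_lmon (hb : 0 < b) (g : G) (hx : LMon O z x) : Un O (g • x / x) := by
  have h0 := hx.ne_zero
  obtain ⟨c, hc⟩ := hx
  have h1 := un_mn_of_un (H.un_z hb g) c
  rw [← smul_mn] at h1
  have h2 := un_div ((un_sm H.st hc g).mul h1) hc
  have h3 := mn_ne_zero H.fr.ne c
  have h4 := (smul_ne_zero_iff_ne g).2 h3
  convert h2 using 1
  rw [smul_div₀']; field_simp

lemma near (hh : h ∈ Cls N O z dir b) (hh' : h' ∈ Cls N O z dir b) :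
    dir h = dir h' ∧ dp h (z (dir h)) ^ a / dp h' (z (dir h')) ∈ O := by
  rcases H.pair h hh.1 h' hh'.1 with h1 | h1 | h1
  exacts [⟨h1.1, h1.2.1⟩, absurd h1 (hh'.2 h hh.1), absurd h1 (hh.2 h' hh'.1)]

lemma fin_orb (j : Fin n) : (MulAction.orbit G (z j)).Finite := by
  have := H.idx
  have := Subgroup.finiteIndex_of_le (K := MulAction.stabilizer G (z j)) fun g hg => H.fixz g hg j
  exact Finite.of_equiv _ (MulAction.orbitEquivQuotientStabilizer G (z j)).symm

lemma wf (hb : 1 < b) (s : Set G) (hs : s.Nonempty) (hN : ∀ x ∈ s, x ∉ N) : ∃ m ∈ s, ∀ x ∈ s,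
    dp x (z (dir x)) / dp m (z (dir m)) ^ b ∉ O := by
  let S : Set L := (fun h => dp h (z (dir h))) '' s
  have hS : ∀ x : S, (x : L) ∈ mx H.lcl ∧ (x : L) ≠ 0 := by
    rintro ⟨_, h, hh, rfl⟩
    exact ⟨H.d_mx (hN h hh), H.d_ne (hN h hh)⟩
  have : Finite S := (Set.finite_iUnion fun j => (H.fin_orb j).image fun y => y / z j - 1).subset
    (by rintro _ ⟨h, -, rfl⟩; exact Set.mem_iUnion.2 ⟨dir h, _, ⟨h, rfl⟩, rfl⟩)
  let r : S → S → Prop := fun x m => (x : L) / (m : L) ^ b ∈ O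
  have : IsTrans S r := ⟨fun x y w h1 h2 => dv_trans (pow_ne_zero _ (hS y).2) h1
    (dv_trans (hS y).2 (by simpa using pow_dv (hS y).1.1 (hS y).2 (s := 1) hb.le) h2)⟩
  have : Std.Irrefl r := ⟨fun x h1 => not_dv (hS x).1.1 (hS x).2 (hS x).1.2 hb
    (by simpa using h1)⟩
  obtain ⟨h, hh⟩ := hs
  obtain ⟨⟨_, m, hm, rfl⟩, -, hm'⟩ :=
    (Finite.wellFounded_of_trans_of_irrefl r).has_min Set.univ ⟨⟨_, h, hh, rfl⟩, trivial⟩
  exact ⟨m, hm, fun x hx => hm' ⟨_, x, hx, rfl⟩ trivial⟩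

lemma cls_ne (hb : 1 < b) (hN : N ≠ ⊤) : (Cls N O z dir b).Nonempty := by
  obtain ⟨m, hm, hm'⟩ := H.wf hb {x | x ∉ N} (by
    by_contra h0
    exact hN (eq_top_iff.2 fun x _ => not_not.1 fun hx => h0 ⟨x, hx⟩)) fun _ hx => hx
  exact ⟨m, hm, hm'⟩

lemma far (hb : 1 < b) (hab : a * a < b) (hh : h ∉ N) (hc : h ∉ Cls N O z dir b)
    (hh' : h' ∈ Cls N O z dir b) : dp h' (z (dir h')) / dp h (z (dir h)) ^ b ∈ O := by
  obtain ⟨m, hm, hm'⟩ := H.wf hb {x | x ∉ N ∧ dp x (z (dir x)) / dp h (z (dir h)) ^ b ∈ O} (by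
    by_contra h0
    exact hc ⟨hh, fun x hx h1 => h0 ⟨x, hx, h1⟩⟩) fun _ hx => hx.1
  have hmc : m ∈ Cls N O z dir b := ⟨hm.1, fun x hx h1 => hm' x ⟨hx,
    dv_trans (pow_ne_zero _ (H.d_ne hm.1)) h1 (dv_trans (H.d_ne hm.1) (by
      simpa using pow_dv (H.d_mx hm.1).1 (H.d_ne hm.1) (s := 1) hb.le) hm.2)⟩ h1⟩
  rcases H.pair h hh h' hh'.1 with h1 | h1 | h1
  · refine absurd ?_ (not_dv (H.d_mx hh).1 (H.d_ne hh) (H.d_mx hh).2 hab)
    rw [pow_mul]
    exact dv_trans (pow_ne_zero _ (H.d_ne hh'.1)) (dv_pow h1.2.1 a)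
      (dv_trans (H.d_ne hm.1) (H.near hh' hmc).2 hm.2)
  · exact absurd h1 (hh'.2 h hh)
  · exact h1

lemma dI_nI (hx : x ∈ dI N O z dir b) : x ∈ nI O z := by
  refine Submodule.span_le.2 ?_ hx
  rintro _ ⟨h, hh, rfl⟩
  obtain ⟨⟨c, hc⟩, h1, h2⟩ := H.mon h hh.1
  have h0 := mn_ne_zero H.fr.ne c
  have h3 : mn z c ∈ O := by
    have := mul_mem hc.2.2 h1
    rwa [inv_div, div_mul_cancel₀ _ (H.d_ne hh.1)] at this
  refine mem_of_dv h0 hc.1 (Submodule.subset_span ⟨h3, fun hu => h2 ?_, c, rfl⟩)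
  have := hc.mul hu
  rwa [div_mul_cancel₀ _ h0] at this

lemma dI_mx : ∀ x ∈ dI N O z dir b, x ∈ mx H.lcl := fun _ hx => nI_mx H.lcl (H.dI_nI hx)

lemma dI_far (hb : 1 < b) (hab : a * a < b) (hh : h ∉ N) (hc : h ∉ Cls N O z dir b)
    (hx : x ∈ dI N O z dir b) : x / dp h (z (dir h)) ^ b ∈ O := by
  induction hx using Submodule.span_induction with
  | mem x hx => obtain ⟨h', hh', rfl⟩ := hx; exact H.far hb hab hh hc hh'
  | zero => rw [zero_div]; exact zero_mem _
  | add x y _ _ hx hy => rw [add_div]; exact add_mem hx hy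
  | smul r x _ hx =>
    change (r : L) * x / _ ∈ O
    rw [mul_div_assoc]; exact mul_mem r.2 hx

lemma dI_smul (hb : 0 < b) (g : G) (hx : x ∈ dI N O z dir b) : g • x ∈ dI N O z dir b := by
  induction hx using Submodule.span_induction with
  | mem x hx =>
    obtain ⟨h, hh, rfl⟩ := hx
    exact mem_of_dv (H.d_ne hh.1) (H.un_lmon hb g (H.mon h hh.1).1).1
      (Submodule.subset_span ⟨h, hh, rfl⟩)
  | zero => rw [smul_zero]; exact zero_mem _
  | add x y _ _ hx hy => rw [smul_add]; exact add_mem hx hy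
  | smul r x _ hx =>
    change g • ((r : L) * x) ∈ _
    rw [smul_mul']; exact mul_mem' (H.st g _ r.2) hx

lemma dI_one (hb : 0 < b) (g : G) (hx : x - 1 ∈ dI N O z dir b) : g • x - 1 ∈ dI N O z dir b := by
  simpa [smul_sub] using H.dI_smul hb g hx

/-- The group of the deepest class. -/
def deep (hb : 0 < b) : Subgroup G where
  carrier := {h | ∀ j, h • z j / z j - 1 ∈ dI N O z dir b}
  one_mem' j := by simp [H.fr.ne j]
  mul_mem' {g h} hg hh j := by
    have := one_mul' H.lcl H.dI_mx (H.dI_one hb g (hh j)) (hg j)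
    rwa [smul_div₀', div_mul_div_cancel₀ ((smul_ne_zero_iff_ne g).2 (H.fr.ne j)), ← mul_smul] at this
  inv_mem' {g} hg j := by
    have := H.dI_one hb g⁻¹ (one_inv H.lcl H.dI_mx (hg j))
    rwa [inv_div, smul_div₀', inv_smul_smul] at this

lemma le_deep (hb : 0 < b) : N ≤ H.deep hb := fun g hg j => by
  rw [← dp, H.dp_zero hg]; exact zero_mem _

lemma cls_deep (hb : 0 < b) (hh : h ∈ Cls N O z dir b) : h ∈ H.deep hb := fun j =>
  mem_of_dv (H.d_ne hh.1) (H.dp_dv hb hh.1 j) (Submodule.subset_span ⟨h, hh, rfl⟩)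

lemma cls_of (hb : 1 < b) (hab : a * a < b) (hh : h ∈ H.deep (by omega)) (hN : h ∉ N) :
    h ∈ Cls N O z dir b := by
  by_contra hc
  exact not_dv (H.d_mx hN).1 (H.d_ne hN) (H.d_mx hN).2 hb
    (by rw [pow_one]; exact H.dI_far hb hab hN hc (hh (dir h)))

end St

lemma St.disp (H : St N R O z dir a b) (hb : 0 < b) (hg : g ∈ H.deep hb) (hx : x ∈ O) :
    g • x - x ∈ dI N O z dir b := by
  have := H.lcl.isLocalRing
  let I : Submodule O L := Submodule.span O {y | ∃ x ∈ O, y = g • x - x}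
  have hI : ∀ y ∈ I, y ∈ O := fun y hy => by
    induction hy using Submodule.span_induction with
    | mem y hy => obtain ⟨x, hx, rfl⟩ := hy; exact sub_mem (H.st g x hx) hx
    | zero => exact zero_mem _
    | add x y _ _ hx hy => exact add_mem hx hy
    | smul r x _ hx => exact mul_mem r.2 hx
  have h1 : I ≤ dI N O z dir b := by
    refine Submodule.le_of_le_smul_of_le_jacobson_bot (H.fgO hI)
      (IsLocalRing.maximalIdeal_le_jacobson ⊥) (Submodule.span_le.2 ?_)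
    rintro _ ⟨x, hx, rfl⟩
    obtain ⟨c, hc⟩ := H.rt.mx H.lcl hx
    let X : AddSubmonoid L :=
      { carrier := {y | g • y - y ∈ dI N O z dir b ⊔ IsLocalRing.maximalIdeal O • I}
        zero_mem' := by simp
        add_mem' := fun {x y} hx hy => by
          change _ ∈ dI N O z dir b ⊔ _
          rw [smul_add, add_sub_add_comm]; exact add_mem hx hy }
    have h2 := span_mul_mem (O := O) (X := X) (fun s hs r hr => by
      have hs' : s ∈ O := gens_mem hs
      have h3 : g • s - s ∈ dI N O z dir b := by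
        obtain ⟨-, c, d, hc, rfl⟩ := hs
        have h4 := mul_mem' hc (one_mn H.lcl H.dI_mx hg c)
        have h5 := mn_ne_zero H.fr.ne c
        convert h4 using 1
        rw [smul_sub, smul_alg, smul_mn]
        simp only [mn, div_zpow, Finset.prod_div_distrib] at h5 ⊢
        field_simp; ring
      change _ ∈ dI N O z dir b ⊔ _
      rw [show g • (r * s) - r * s = g • r * (g • s - s) + s * (g • r - r) by rw [smul_mul']; ring]
      exact Submodule.add_mem_sup (mul_mem' (H.st g r hr) h3)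
        (Submodule.smul_mem_smul (r := (⟨s, hs'⟩ : O)) (fun U => hs.1 ((isUnit_iff_un _).1 U))
          (Submodule.subset_span ⟨r, hr, rfl⟩))) (H.fr.gen _ hc.1 hc.2) 1 (one_mem _)
    change _ ∈ dI N O z dir b ⊔ _ at h2
    rwa [one_mul, smul_sub, smul_alg, sub_sub_sub_cancel_right] at h2
  exact h1 (Submodule.subset_span ⟨x, hx, rfl⟩)

lemma St.normal (H : St N R O z dir a b) (hb : 0 < b) : (H.deep hb).Normal := ⟨fun m hm g j => by
  have h1 := H.un_z hb g⁻¹ j
  have h2 : m • (g⁻¹ • z j / z j) / (g⁻¹ • z j / z j) - 1 ∈ dI N O z dir b := by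
    have := mul_mem' h1.2.2 (H.disp hb hm h1.1)
    rwa [mul_sub, inv_mul_cancel₀ h1.2.1, mul_comm, ← div_eq_mul_inv] at this
  have h3 := H.dI_one hb g (one_mul' H.lcl H.dI_mx h2 (hm j))
  have h4 := H.fr.ne j
  have h5 := (smul_ne_zero_iff_ne m).2 h4
  have h6 := (smul_ne_zero_iff_ne g⁻¹).2 h4
  rwa [show m • (g⁻¹ • z j / z j) / (g⁻¹ • z j / z j) * (m • z j / z j) =
    m • g⁻¹ • z j / g⁻¹ • z j by rw [smul_div₀']; field_simp, smul_div₀', smul_inv_smul, ← mul_smul,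
    ← mul_smul] at h3⟩

end Pool.Agent.MP_19ffc6_ag.Perf.GD

end Part1

section Part2

/-! PROJECT PERF, gap domination, part C: the step and the induction. -/

namespace Pool.Agent.MP_19ffc6_ag.Perf.GD

open Pool.Agent.R72.Wild Pool.Agent.R72.Lci Pool.Agent.R72.Res Pool.Agent.R72.Res.B Polynomial

variable {k L : Type} [Field k] [Field L] [Algebra k L]
  {G : Type} [Group G] [MulSemiringAction G L] [SMulCommClass G k L]
  {N : Subgroup G} {R O : Subalgebra k L} {n : ℕ} {z : Fin n → L} {dir : G → Fin n}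
  {a b : ℕ} {x y w : L} {g h h' : G}

open Classical in
/-- A factor of the interpolation weight. -/
noncomputable def ph (x y : L) : L := if x = y then 1 else x / (x - y)

lemma ph_smul (g : G) (x y : L) : g • ph x y = ph (g • x) (g • y) := by
  unfold ph
  by_cases h : x = y
  · simp [h]
  · rw [if_neg h, if_neg (fun e => h (MulAction.injective g e)), smul_div₀', smul_sub]

lemma sum_ph (Ω : Finset L) (hΩ : Ω.Nonempty) : ∑ w ∈ Ω, ∏ x ∈ Ω, ph x w = 1 := by
  classical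
  have := congrArg (eval 0) (Lagrange.sum_basis (s := Ω) (v := id) (Set.injOn_id _) hΩ)
  rw [eval_finsetSum, eval_one] at this
  rw [← this]
  refine Finset.sum_congr rfl fun w _ => ?_
  rw [Lagrange.basis, eval_prod, ← Finset.prod_erase Ω (a := w) (by simp [ph])]
  refine Finset.prod_congr rfl fun x hx => ?_
  have h1 := Finset.ne_of_mem_erase hx
  have h2 := sub_ne_zero.2 h1
  have h3 := sub_ne_zero.2 h1.symm
  simp only [ph, if_neg h1, Lagrange.basisDivisor, eval_mul, eval_C, eval_sub, eval_X, id]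
  field_simp; ring

lemma index_pow {p : ℕ} [Fact p.Prime] [N.Normal] [N.FiniteIndex]
    (hG : ∀ g : G, ∃ m, g ^ p ^ m ∈ N) {K : Subgroup G} (h : N ≤ K) : ∃ s, K.index = p ^ s := by
  have h1 : IsPGroup p (G ⧸ N) := fun x => by
    obtain ⟨g, rfl⟩ := QuotientGroup.mk_surjective x
    obtain ⟨m, hm⟩ := hG g
    exact ⟨m, by rw [← QuotientGroup.mk_pow, QuotientGroup.eq_one_iff]; exact hm⟩
  rw [← Subgroup.index_map_eq K (QuotientGroup.mk'_surjective N) (by rwa [QuotientGroup.ker_mk'])]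
  exact h1.index _

omit [SMulCommClass G k L] in
/-- The new coordinates. -/
theorem St.coord (H : St N R O z dir a b) {p : ℕ} [Fact p.Prime]
    (hG : ∀ g : G, ∃ m, g ^ p ^ m ∈ N)
    (hb : 1 < b) (hab : a * a < b) (hag : a * N.index < b) (hN : N ≠ ⊤) :
    ∃ (i : Fin n) (s : ℕ) (z' : Fin n → L), p ^ s ≤ N.index ∧
      (∀ g ∈ H.deep (by omega), ∀ j, g • z' j = z' j) ∧
      (∀ j, z' j / z j ^ ex i (p ^ s) j - 1 ∈ dI N O z dir b) ∧
      ∀ P : L[X], (∀ m, ∀ g ∈ H.deep (by omega), g • P.coeff m = P.coeff m) →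
        P.degree < (p ^ s : ℕ) → P.eval (z i) = 0 → P = 0 := by
  classical
  have hb0 : 0 < b := by omega
  obtain ⟨m₀, hm₀⟩ := H.cls_ne hb hN
  set Q := H.deep hb0
  set i := dir m₀
  have hdir : ∀ g ∈ Q, g ∉ N → dir g = i := fun g hg hg' => (H.near (H.cls_of hb hab hg hg') hm₀).1
  have := H.nrm
  have := H.idx
  have hsub : MulAction.orbit Q (z i) ⊆ MulAction.orbit G (z i) := MulAction.orbit_subgroup_subset _ _
  have hfin : (MulAction.orbit Q (z i)).Finite := (H.fin_orb i).subset hsub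
  obtain ⟨s, hs⟩ := index_pow (N := N.subgroupOf Q) (K := MulAction.stabilizer Q (z i))
    (fun g => hG g) fun g hg => H.fixz g hg i
  rw [MulAction.index_stabilizer] at hs
  set Ω := hfin.toFinset
  have hΩ : ∀ w, w ∈ Ω ↔ ∃ g ∈ Q, g • z i = w := fun w => by
    rw [Set.Finite.mem_toFinset]
    exact ⟨fun ⟨g, hg⟩ => ⟨g, g.2, hg⟩, fun ⟨g, hg, e⟩ => ⟨⟨g, hg⟩, e⟩⟩
  have hc : Ω.card = p ^ s := by rw [← hs, Set.ncard_eq_toFinset_card _ hfin]
  have hcG : p ^ s ≤ N.index := by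
    rw [← hs]
    refine (Set.ncard_le_ncard hsub (H.fin_orb i)).trans ?_
    rw [← MulAction.index_stabilizer]
    exact Subgroup.index_antitone fun g hg => H.fixz g hg i
  choose! σ hσ hσ' using fun w hw => (hΩ w).1 hw
  have hst : ∀ g ∈ Q, g • z i = z i → g ∈ N := fun g hg e => by
    by_contra h0
    exact H.d_ne h0 (by rw [hdir g hg h0, dp, e, div_self (H.fr.ne i), sub_self])
  have hsm : ∀ g ∈ Q, ∀ w ∈ Ω, g • w ∈ Ω := fun g hg w hw =>
    (hΩ _).2 ⟨g * σ w, mul_mem hg (hσ w hw), by rw [mul_smul, hσ' w hw]⟩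
  have hσz : ∀ g ∈ Q, ∀ w ∈ Ω, ∀ j, g • σ w • z j = σ (g • w) • z j := fun g hg w hw j => by
    have h1 := hsm g hg w hw
    have h2 := H.fixz _ (hst ((σ (g • w))⁻¹ * (g * σ w))
      (mul_mem (inv_mem (hσ _ h1)) (mul_mem hg (hσ w hw)))
      (by rw [mul_smul, mul_smul, hσ' w hw, inv_smul_eq_iff, hσ' _ h1])) j
    rwa [mul_smul, mul_smul, inv_smul_eq_iff] at h2
  have hbij : ∀ g ∈ Q, ∀ w ∈ Ω, ∃ x, ∃ _ : x ∈ Ω, g • x = w := fun g hg w hw =>
    ⟨g⁻¹ • w, hsm _ (inv_mem hg) w hw, smul_inv_smul g w⟩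
  have hprod : ∀ g ∈ Q, ∀ f : L → L, ∏ w ∈ Ω, f (g • w) = ∏ w ∈ Ω, f w := fun g hg f =>
    Finset.prod_bij (fun w _ => g • w) (hsm g hg) (fun _ _ _ _ e => MulAction.injective g e)
      (hbij g hg) fun _ _ => rfl
  have hsum : ∀ g ∈ Q, ∀ f : L → L, ∑ w ∈ Ω, f (g • w) = ∑ w ∈ Ω, f w := fun g hg f =>
    Finset.sum_bij (fun w _ => g • w) (hsm g hg) (fun _ _ _ _ e => MulAction.injective g e)
      (hbij g hg) fun _ _ => rfl
  have hph : ∀ m ∈ Cls N O z dir b, ∀ w ∈ Ω, ∀ x ∈ Ω, ph x w * dp m (z (dir m)) ^ a ∈ O := by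
    intro m hm w hw x hx
    unfold ph
    split_ifs with e
    · rw [one_mul]; exact pow_mem (H.d_mx hm.1).1 _
    · have h1 : (σ x)⁻¹ * σ w ∈ Q := mul_mem (inv_mem (hσ x hx)) (hσ w hw)
      have h2 : (σ x)⁻¹ * σ w ∉ N := fun h0 => e (by
        have := H.fixz _ h0 i
        rw [mul_smul, inv_smul_eq_iff, hσ' w hw, hσ' x hx] at this
        exact this.symm)
      have h3 := (H.near hm (H.cls_of hb hab h1 h2)).2
      have h4 := (H.un_lmon hb0 (σ x) (H.mon _ h2).1).2.2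
      have h5 := H.d_ne h2
      rw [inv_div] at h4
      have h6 := neg_mem (dv_trans h5 h3 h4)
      have h7 : x ≠ 0 := hσ' x hx ▸ (smul_ne_zero_iff_ne _).2 (H.fr.ne i)
      have h8 := sub_ne_zero.2 e
      have h9 := sub_ne_zero.2 (Ne.symm e)
      rw [hdir _ h1 h2, dp.eq_1 _ (z i), smul_sub, smul_one, smul_div₀', ← mul_smul, mul_inv_cancel_left,
        hσ' w hw, hσ' x hx, div_sub_one h7] at h6
      convert h6 using 1
      field_simp; ring
  refine ⟨i, s, fun j => if j = i then ∏ w ∈ Ω, w else ∑ w ∈ Ω, (∏ x ∈ Ω, ph x w) * σ w • z j,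
    hcG, fun g hg j => ?_, fun j => ?_, fun P hP hd h0 => ?_⟩
  · dsimp only
    split_ifs
    · rw [Finset.smul_prod']; exact hprod g hg id
    · rw [Finset.smul_sum, ← hsum g hg fun w => (∏ x ∈ Ω, ph x w) * σ w • z j]
      refine Finset.sum_congr rfl fun w hw => ?_
      rw [smul_mul', hσz g hg w hw, Finset.smul_prod', ← hprod g hg fun x => ph x (g • w)]
      simp only [ph_smul]
  · unfold ex
    dsimp only
    split_ifs with e
    · rw [e, ← hc, ← Finset.prod_const, ← Finset.prod_div_distrib]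
      exact one_prod H.lcl H.dI_mx _ fun w hw => by
        have := hσ w hw i
        rwa [hσ' w hw] at this
    · rw [pow_one, Finset.sum_div, ← sum_ph Ω ⟨_, (hΩ _).2 ⟨1, one_mem _, rfl⟩⟩,
        ← Finset.sum_sub_distrib]
      refine sum_mem fun w hw => ?_
      rw [mul_div_assoc, ← mul_sub_one, ← dp]
      by_cases h0 : σ w ∈ N
      · rw [H.dp_zero h0, mul_zero]; exact zero_mem _
      have h1 := H.cls_of hb hab (hσ w hw) h0
      have h2 := H.oth _ h0 j (by rw [hdir _ (hσ w hw) h0]; exact e)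
      have h3 : (∏ x ∈ Ω, ph x w) * dp (σ w) (z (dir (σ w))) ^ (a * p ^ s) ∈ O := by
        rw [pow_mul, ← hc, ← Finset.prod_const, ← Finset.prod_mul_distrib]
        exact prod_mem fun x hx => hph _ h1 w hw x hx
      have h4 := pow_dv (H.d_mx h0).1 (H.d_ne h0) (s := a * p ^ s + 1) (t := b)
        ((Nat.mul_le_mul_left a hcG).trans_lt hag)
      have h5 := H.d_ne h0
      refine mem_of_dv h5 ?_ (Submodule.subset_span ⟨_, h1, rfl⟩)
      convert mul_mem h3 (mul_mem h2 h4) using 1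
      rw [pow_succ]
      field_simp
  · refine eq_zero_of_degree_lt_of_eval_finset_eq_zero Ω (hc ▸ hd) fun w hw => ?_
    have h1 : σ w • P = P := by
      ext m; rw [coeff_smul]; exact hP m _ (hσ w hw)
    rw [← hσ' w hw, ← h1, smul_eval_smul, h0, smul_zero]

/-- One step of the descent. -/
theorem St.step (H : St N R O z dir a b) {p : ℕ} [Fact p.Prime] [CharP L p]
    (hG : ∀ g : G, ∃ m, g ^ p ^ m ∈ N) {b' : ℕ} (hab : a * a < b) (hag : a * N.index < b)
    (hg : N.index < b) (hb' : N.index * b' ≤ b) (hN : N ≠ ⊤) :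
    ∃ (Q : Subgroup G) (F : IntermediateField k L) (z' : Fin n → L) (α : Fin n → ℕ), N < Q ∧
      (∀ x, x ∈ F ↔ ∀ g ∈ Q, g • x = x) ∧ (∀ j, z' j / z j ^ p ^ α j - 1 ∈ nI O z) ∧
      St Q R (O ⊓ F.toSubalgebra) z' dir a b' ∧
      (∀ x, x ∈ nI (O ⊓ F.toSubalgebra : Subalgebra k L) z' ↔ x ∈ F ∧ x ∈ nI O z) ∧
      ∀ f ∈ F, LMon O z f → LMon (O ⊓ F.toSubalgebra : Subalgebra k L) z' f := by
  have := H.idx
  have hi : 0 < N.index := Nat.pos_of_ne_zero H.idx.1
  have hb : 1 < b := by omega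
  have hb0 : 0 < b := by omega
  obtain ⟨i, s, z', hs, h1, h2, h3⟩ := H.coord hG hb hab hag hN
  set Q := H.deep hb0
  have hQ : Q.Normal := H.normal hb0
  let F : IntermediateField k L := FixedPoints.intermediateField Q
  have hF : ∀ x, x ∈ F ↔ ∀ g ∈ Q, g • x = x := fun x =>
    ⟨fun h g hg => h ⟨g, hg⟩, fun h g => h g g.2⟩
  have hFs : ∀ g : G, ∀ x ∈ F, g • x ∈ F := fun g x hx => (hF _).2 fun m hm => by
    rw [← mul_smul, show m * g = g * (g⁻¹ * m * g⁻¹⁻¹) by group, mul_smul,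
      (hF x).1 hx _ (hQ.conj_mem m hm g⁻¹)]
  have hRF : R ≤ O ⊓ F.toSubalgebra := fun x hx => ⟨H.le hx, (hF x).2 fun g _ => H.fixR g x hx⟩
  have hzF : ∀ j, z' j ∈ F := fun j => (hF _).2 fun g hg => h1 g hg j
  have A : SA O F z z' i (p ^ s) := ⟨H.lcl, H.rt, H.noeO, H.fr, H.fin' hRF,
    pow_pos (Fact.out : p.Prime).pos s, fun x y => sub_pow_char_pow x y s, hzF,
    fun j => H.dI_nI (h2 j), fun P hP => h3 P fun m => (hF _).1 (hP m)⟩
  have hex : ∀ j, ex i (p ^ s) j = p ^ (if j = i then s else 0) := fun j => by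
    unfold ex; split_ifs <;> simp
  have hexG : ∀ j, ex i (p ^ s) j ≤ N.index := fun j => by
    unfold ex; split_ifs
    exacts [hs, hi]
  have hex0 : ∀ j, 0 < ex i (p ^ s) j := fun j => hex j ▸ pow_pos (Fact.out : p.Prime).pos _
  have hdF : ∀ (h : G) j, dp h (z' j) ∈ F := fun h j =>
    sub_mem (div_mem (hFs h _ (hzF j)) (hzF j)) (one_mem _)
  have hd : ∀ (h : G) j, dp h (z' j) - dp h (z j) ^ ex i (p ^ s) j ∈ dI N O z dir b := fun h j => by
    have e1 := mul_mem' (pow_mem (H.un_z hb0 h j).1 (ex i (p ^ s) j))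
      (one_div' H.lcl H.dI_mx (H.dI_one hb0 h (h2 j)) (h2 j))
    have e2 := H.fr.ne j
    have e3 := A.ne' j
    have e4 := (smul_ne_zero_iff_ne h).2 e2
    convert e1 using 1
    rw [dp, dp, smul_div₀', smul_pow', hex, sub_pow_char_pow, one_pow, div_pow]
    field_simp; ring
  have hNQ : ∀ {h}, h ∉ Q → h ∉ N := fun hh e => hh (H.le_deep hb0 e)
  have hI : ∀ {h}, h ∉ Q → ∀ {x}, x ∈ dI N O z dir b → x / dp h (z (dir h)) ^ b ∈ O :=
    fun hh _ hx => H.dI_far hb hab (hNQ hh) (fun e => hh (H.cls_deep hb0 e)) hx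
  have hu : ∀ {h}, h ∉ Q →
      Un O (dp h (z' (dir h)) / dp h (z (dir h)) ^ ex i (p ^ s) (dir h)) := fun {h} hh => by
    have e0 := H.d_ne (hNQ hh)
    refine un_of_sub H.lcl (Un.one O) ?_
    have e1 := mx_mul H.lcl (dv_trans (pow_ne_zero _ e0) (hI hh (hd h (dir h)))
      (pow_dv (H.d_mx (hNQ hh)).1 e0 ((hexG (dir h)).trans_lt hg))) (H.d_mx (hNQ hh))
    convert e1 using 1
    rw [pow_succ]
    field_simp
  have hne : ∀ {h}, h ∉ Q → dp h (z' (dir h)) ≠ 0 := fun hh e =>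
    (hu hh).2.1 (by rw [e, zero_div])
  have hle : ∀ {h}, h ∉ Q → dp h (z (dir h)) ^ b / dp h (z' (dir h)) ^ b' ∈ O := fun {h} hh => by
    have e0 := H.d_ne (hNQ hh)
    refine dv_trans (pow_ne_zero _ e0) (pow_dv (H.d_mx (hNQ hh)).1 e0
      ((Nat.mul_le_mul_right b' (hexG (dir h))).trans hb')) ?_
    rw [pow_mul]
    exact dv_pow (by simpa using (hu hh).2.2) _
  have hge : ∀ {h}, h ∉ Q → dp h (z' (dir h)) / dp h (z (dir h)) ∈ O := fun {h} hh => by
    have e0 := H.d_ne (hNQ hh)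
    refine dv_trans (pow_ne_zero _ e0) (hu hh).1 ?_
    simpa using pow_dv (H.d_mx (hNQ hh)).1 e0 (s := 1) (hex0 (dir h))
  have hnr : ∀ {h h'}, h ∉ Q → h' ∉ Q → dir h = dir h' →
      dp h (z (dir h)) ^ a / dp h' (z (dir h')) ∈ O →
      dp h (z' (dir h)) ^ a / dp h' (z' (dir h')) ∈ O ⊓ F.toSubalgebra := by
    intro h h' hh hh' e e1
    refine ⟨?_, F.div_mem (pow_mem (hdF _ _) _) (hdF _ _)⟩
    refine dv_trans (pow_ne_zero _ (pow_ne_zero _ (H.d_ne (hNQ hh)))) (dv_pow (hu hh).1 a) ?_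
    refine dv_trans (pow_ne_zero (ex i (p ^ s) (dir h')) (H.d_ne (hNQ hh'))) ?_
      (by simpa using (hu hh').2.2)
    rw [← pow_mul, mul_comm, pow_mul, ← e]
    exact dv_pow (e ▸ e1) _
  have hfr : ∀ {h h'}, h ∉ Q → h' ∉ Q → dp h (z (dir h)) / dp h' (z (dir h')) ^ b ∈ O →
      dp h (z' (dir h)) / dp h' (z' (dir h')) ^ b' ∈ O ⊓ F.toSubalgebra := fun hh hh' e1 =>
    ⟨dv_trans (H.d_ne (hNQ hh)) (hge hh) (dv_trans (pow_ne_zero _ (H.d_ne (hNQ hh'))) e1 (hle hh')),
      F.div_mem (hdF _ _) (pow_mem (hdF _ _) _)⟩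
  refine ⟨Q, F, z', fun j => if j = i then s else 0, ?_, hF, fun j => hex j ▸ A.near j,
    ⟨hQ, Subgroup.finiteIndex_of_le (H.le_deep hb0), H.noe, H.fixR, hRF,
      H.fin.imp fun T hT => ⟨hT.1, fun x hx => hT.2 x hx.1⟩, A.lclB,
      H.rt.of_le inf_le_left, fun g x hx => ⟨H.st g x hx.1, hFs g x hx.2⟩, A.frame,
      fun g hg x hx => (hF x).1 hx.2 g hg, h1, fun h hh => ⟨A.lmon (hdF _ _) ?_, ⟨?_, hdF _ _⟩,
        fun U => ?_⟩, fun h hh j hj => ⟨?_, F.div_mem (hdF _ _) (pow_mem (hdF _ _) _)⟩,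
      fun h hh h' hh' => ?_⟩, fun _ => ⟨fun hx => ⟨(nI_mx A.lclB hx).1.2, A.nI_le hx⟩,
        fun hx => A.nI_inf hx.1 hx.2⟩, fun f hf => A.lmon hf⟩
  · obtain ⟨m, hm⟩ := H.cls_ne hb hN
    exact lt_of_le_of_ne (H.le_deep hb0) fun e => hm.1 (e ▸ H.cls_deep hb0 hm)
  · have e1 := (LMon.of_un (u := z) (hu hh)).mul H.fr.ne
      ((H.mon h (hNQ hh)).1.zpow (ex i (p ^ s) (dir h)))
    rwa [zpow_natCast, div_mul_cancel₀ _ (pow_ne_zero _ (H.d_ne (hNQ hh)))] at e1
  · have e1 := mul_mem (hge hh) (H.d_mx (hNQ hh)).1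
    rwa [div_mul_cancel₀ _ (H.d_ne (hNQ hh))] at e1
  · have e1 := mx_mul H.lcl (hge hh) (H.d_mx (hNQ hh))
    rw [div_mul_cancel₀ _ (H.d_ne (hNQ hh))] at e1
    exact e1.2 (U.mono inf_le_left)
  · refine dv_trans (pow_ne_zero _ (H.d_ne (hNQ hh))) ?_ (hle hh)
    rw [← sub_add_cancel (dp h (z' j)) (dp h (z j) ^ ex i (p ^ s) j), add_div]
    refine add_mem (hI hh (hd h j)) ?_
    rw [← pow_sub_one_mul (hex0 j).ne', mul_div_assoc]
    exact mul_mem (pow_mem (sub_mem (H.un_z hb0 h j).1 (one_mem _)) _) (H.oth h (hNQ hh) j hj)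
  · rcases H.pair h (hNQ hh) h' (hNQ hh') with e | e | e
    · exact Or.inl ⟨e.1, hnr hh hh' e.1 e.2.1, hnr hh' hh e.1.symm e.2.2⟩
    · exact Or.inr (Or.inl (hfr hh hh' e))
    · exact Or.inr (Or.inr (hfr hh' hh e))

/-- The gap that suffices for `m` steps. -/
def gap (g a m : ℕ) : ℕ := (a * a + a * g + g + 1) * g ^ m

theorem St.main {p : ℕ} [Fact p.Prime] [CharP L p] (c m : ℕ) :
    ∀ {N : Subgroup G} {O : Subalgebra k L} {z : Fin n → L} {b : ℕ}, St N R O z dir a b →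
      (∀ g : G, ∃ m, g ^ p ^ m ∈ N) → N.index ≤ c → N.index ≤ m + 1 → gap c a m ≤ b →
      ∃ (z' : Fin n → L) (α : Fin n → ℕ), (∀ (g : G) j, g • z' j = z' j) ∧
        (∀ j, z' j / z j ^ p ^ α j - 1 ∈ nI O z) ∧ Frame (fix G O) z' ∧
        (∀ x, x ∈ nI (fix G O) z' ↔ (∀ g : G, g • x = x) ∧ x ∈ nI O z) ∧ ∀ f, (∀ g : G, g • f = f) → LMon O z f → LMon (fix G O) z' f := by
  have top : ∀ {O : Subalgebra k L} {z : Fin n → L} {b : ℕ}, St ⊤ R O z dir a b →
      ∃ (z' : Fin n → L) (α : Fin n → ℕ), (∀ (g : G) j, g • z' j = z' j) ∧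
        (∀ j, z' j / z j ^ p ^ α j - 1 ∈ nI O z) ∧ Frame (fix G O) z' ∧
        (∀ x, x ∈ nI (fix G O) z' ↔ (∀ g : G, g • x = x) ∧ x ∈ nI O z) ∧ ∀ f, (∀ g : G, g • f = f) → LMon O z f → LMon (fix G O) z' f := fun {O z b} H => by
    have e : fix G O = O := le_antisymm (fix_le O) fun x hx => ⟨hx, fun g => H.fixO g trivial x hx⟩
    rw [e]
    exact ⟨z, 0, fun g => H.fixz g trivial, fun j => by simp [H.fr.ne j], H.fr,
      fun x => ⟨fun hx => ⟨fun g => H.fixO g trivial x (nI_mx H.lcl hx).1, hx⟩, fun hx => hx.2⟩,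
      fun _ _ hf => hf⟩
  induction m with
  | zero =>
    intro N O z b H _ _ hc _
    obtain rfl : N = ⊤ := Subgroup.index_eq_one.1 (by have := H.idx.1; omega)
    exact top H
  | succ m ih =>
    intro N O z b H hG hc hm hb
    by_cases hN : N = ⊤
    · subst hN; exact top H
    have := H.idx
    have h0 : 0 < c := by have := H.idx.1; omega
    have h1 : a * a + a * c + c + 1 ≤ b :=
      (Nat.le_mul_of_pos_right _ (pow_pos h0 _)).trans hb
    have h1' := Nat.mul_le_mul_left a hc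
    obtain ⟨Q, F, z₁, α₁, hQ, hF, h2, H', h6, h3⟩ := H.step hG (b' := gap c a m)
      (by omega) (by omega) (by omega) (by
        refine (Nat.mul_le_mul_right _ hc).trans (le_trans (le_of_eq ?_) hb)
        unfold gap; ring) hN
    have h4 := Subgroup.index_strictAnti hQ
    obtain ⟨z', α, e1, e2, e3, e5, e4⟩ := ih H' (fun g => (hG g).imp fun _ h => hQ.le h) (by omega)
      (by omega) le_rfl
    have e : fix G (O ⊓ F.toSubalgebra) = fix G O :=
      le_antisymm (fun x hx => ⟨hx.1.1, hx.2⟩) fun x hx => ⟨⟨hx.1, (hF x).2 fun g _ => hx.2 g⟩, hx.2⟩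
    rw [e] at e3 e4 e5
    refine ⟨z', fun j => α₁ j + α j, e1, fun j => ?_, e3, fun x => (e5 x).trans
      (and_congr_right fun hx => (h6 x).trans (and_iff_right ((hF x).2 fun g _ => hx g))),
      fun f hf hm => e4 f hf (h3 f ((hF f).2 fun g _ => hf g) hm)⟩
    have h5 := one_mul' H.lcl (fun _ => nI_mx H.lcl) ((h6 _).1 (e2 j)).2
      (one_pow' H.lcl (fun _ => nI_mx H.lcl) (h2 j) (p ^ α j))
    rwa [div_pow, div_mul_div_cancel₀ (pow_ne_zero _ (H'.fr.ne j)), ← pow_mul, ← pow_add] at h5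

end Pool.Agent.MP_19ffc6_ag.Perf.GD

end Part2

section Part3

/-! PROJECT PERF, gap domination: the invariants of a point with a frame have a frame. -/

namespace Pool.Agent.MP_19ffc6_ag.Perf.GD

open Pool.Agent.R72.Wild Pool.Agent.R72.Lci Pool.Agent.R72.Res Pool.Agent.R72.Res.B Polynomial

variable {k L : Type} [Field k] [Field L] [Algebra k L]
  {G : Type} [Group G] [MulSemiringAction G L] [SMulCommClass G k L]
  {N : Subgroup G} {D O : Subalgebra k L} {x : L}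

omit [SMulCommClass G k L] in
lemma orb_fin [N.FiniteIndex] (hx : ∀ g ∈ N, g • x = x) : ∃ Ω : Finset L, x ∈ Ω ∧
    (∀ w ∈ Ω, ∃ g : G, g • x = w) ∧ ∀ (g : G) (M : Type) [CommMonoid M] (f : L → M),
      ∏ w ∈ Ω, f (g • w) = ∏ w ∈ Ω, f w := by
  have := Subgroup.finiteIndex_of_le (K := MulAction.stabilizer G x) hx
  have hf : (MulAction.orbit G x).Finite :=
    Finite.of_equiv _ (MulAction.orbitEquivQuotientStabilizer G x).symm
  have hm : ∀ g : G, ∀ w ∈ hf.toFinset, g • w ∈ hf.toFinset := fun g w hw =>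
    hf.mem_toFinset.2 (MulAction.mem_orbit_of_mem_orbit g (hf.mem_toFinset.1 hw))
  exact ⟨hf.toFinset, hf.mem_toFinset.2 (MulAction.mem_orbit_self x),
    fun w hw => hf.mem_toFinset.1 hw, fun g M _ f =>
      Finset.prod_bij (fun w _ => g • w) (hm g) (fun _ _ _ _ e => MulAction.injective g e)
        (fun w hw => ⟨g⁻¹ • w, hm _ w hw, smul_inv_smul g w⟩) fun _ _ => rfl⟩

lemma integral_fix [N.FiniteIndex] (hD : ∀ g : G, ∀ x ∈ D, g • x ∈ D) (hx : x ∈ D)
    (hN : ∀ g ∈ N, g • x = x) : IsIntegral (fix G D) x := by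
  obtain ⟨Ω, h1, h2, h3⟩ := orb_fin hN
  have h4 : ∏ w ∈ Ω, (X - C w) ∈ lifts (algebraMap (fix G D) L) := by
    refine (lifts_iff_coeff_lifts _).2 fun m =>
      ⟨⟨(∏ w ∈ Ω, (X - C w)).coeff m, mem_fix.2 ⟨?_, fun g => ?_⟩⟩, rfl⟩
    · have : ∏ w ∈ Ω, (X - C w) ∈ lifts (algebraMap D L) := prod_mem fun w hw => by
        obtain ⟨g, rfl⟩ := h2 w hw
        exact ⟨X - C ⟨_, hD g x hx⟩, by simp⟩
      obtain ⟨y, hy⟩ := (lifts_iff_coeff_lifts _).1 this m
      rw [← hy]; exact y.2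
    · rw [← coeff_smul, Finset.smul_prod', ← h3 g L[X] fun w => X - C w]
      simp only [smul_sub, smul_X, smul_C]
  obtain ⟨P, p1, -, p2⟩ := lifts_and_natDegree_eq_and_monic h4 (monic_prod_X_sub_C id Ω)
  refine ⟨P, p2, ?_⟩
  rw [← eval_map, p1, eval_prod]
  exact Finset.prod_eq_zero h1 (by simp)

lemma fix_fin [N.FiniteIndex] (hfg : D.FG) (hD : ∀ g : G, ∀ x ∈ D, g • x ∈ D)
    (hN : ∀ g ∈ N, ∀ x ∈ D, g • x = x) : (fix G D).FG ∧
      ∃ T : Set L, T.Finite ∧ ∀ x ∈ D, x ∈ Submodule.span (fix G D) T := by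
  let _ := (Subalgebra.inclusion (fix_le (G := G) D)).toRingHom.toAlgebra
  have : IsScalarTower k (fix G D) D := .of_algebraMap_eq fun _ => rfl
  have : IsScalarTower (fix G D) D L := .of_algebraMap_eq fun _ => rfl
  have : Algebra.FiniteType k D := (Subalgebra.fg_iff_finiteType D).1 hfg
  have : Algebra.IsIntegral (fix G D) D := ⟨fun x =>
    (isIntegral_algebraMap_iff Subtype.val_injective).1
      (integral_fix hD x.2 fun g hg => hN g hg x x.2)⟩
  have : Algebra.FiniteType (fix G D) D := .of_restrictScalars_finiteType k _ _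
  have : Module.Finite (fix G D) D := Algebra.IsIntegral.finite
  refine ⟨(Subalgebra.fg_iff_finiteType _).2 ⟨fg_of_fg_of_fg k (fix G D) D Algebra.FiniteType.out
    Module.Finite.fg_top (Subalgebra.inclusion_injective _)⟩, ?_⟩
  obtain ⟨T, hT, hT'⟩ := Submodule.fg_def.1 ((Module.Finite.fg_top (R := fix G D) (M := D)).map
    (IsScalarTower.toAlgHom (fix G D) D L).toLinearMap)
  exact ⟨T, hT, fun x hx => hT' ▸ ⟨⟨x, hx⟩, trivial, rfl⟩⟩

lemma un_fix (hu : Un O x) (hx : ∀ g : G, g • x = x) : Un (fix G O) x :=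
  ⟨⟨hu.1, hx⟩, hu.2.1, hu.2.2, fun g => by rw [smul_inv'', hx g]⟩

lemma exists_den [N.FiniteIndex] (hp : IsPoint D O) (hD : ∀ g : G, ∀ x ∈ D, g • x ∈ D)
    (hO : ∀ g : G, ∀ x ∈ O, g • x ∈ O) (hN : ∀ g ∈ N, ∀ x ∈ D, g • x = x) (hx : x ∈ O) :
    ∃ b ∈ fix G D, Un O b ∧ x * b ∈ D := by
  classical
  obtain ⟨c, hc, b, hb, hu, rfl⟩ := hp.le_loc hx
  obtain ⟨Ω, h1, h2, h3⟩ := orb_fin fun g hg => hN g hg b hb
  have h4 : ∀ w ∈ Ω, w ∈ D ∧ Un O w := fun w hw => by
    obtain ⟨g, rfl⟩ := h2 w hw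
    exact ⟨hD g b hb, un_sm hO hu g⟩
  refine ⟨∏ w ∈ Ω, w, ⟨prod_mem fun w hw => (h4 w hw).1, fun g => ?_⟩,
    un_prod _ _ fun w hw => (h4 w hw).2, ?_⟩
  · rw [Finset.smul_prod']; exact h3 g L id
  · rw [← Finset.mul_prod_erase Ω _ h1, ← mul_assoc, div_mul_cancel₀ _ hu.2.1]
    exact mul_mem hc (prod_mem fun w hw => (h4 w (Finset.mem_of_mem_erase hw)).1)

lemma isPoint_fix [N.FiniteIndex] (hp : IsPoint D O) (hD : ∀ g : G, ∀ x ∈ D, g • x ∈ D)
    (hO : ∀ g : G, ∀ x ∈ O, g • x ∈ O) (hN : ∀ g ∈ N, ∀ x ∈ D, g • x = x) :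
    IsPoint (fix G D) (fix G O) := by
  refine ⟨fun x hx => ⟨hp.le hx.1, hx.2⟩, fun x hx y hy h => ?_, fun x hx => ?_⟩
  · exact (hp.lcl x hx.1 y hy.1 (h.mono (fix_le O))).imp (un_fix · hx.2) (un_fix · hy.2)
  · obtain ⟨b, hb, hu, h⟩ := exists_den hp hD hO hN hx.1
    exact ⟨x * b, ⟨h, fun g => by rw [smul_mul', hx.2 g, hb.2 g]⟩, b, hb, un_fix hu hb.2,
      (mul_div_cancel_right₀ x hu.2.1).symm⟩

/-- Gap domination. `G` acts through the finite `p`-group `G / N`. -/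
theorem gd {p : ℕ} [Fact p.Prime] [CharP k p] [N.Normal] [N.FiniteIndex]
    (hG : ∀ g : G, ∃ m, g ^ p ^ m ∈ N) (hfg : D.FG) (hp : IsPoint D O) (hr : Rt O)
    (hD : ∀ g : G, ∀ x ∈ D, g • x ∈ D) (hO : ∀ g : G, ∀ x ∈ O, g • x ∈ O)
    {n : ℕ} {z : Fin n → L} (hf : Frame O z) (hN : ∀ g ∈ N, ∀ x ∈ D, g • x = x)
    (hz : ∀ g ∈ N, ∀ j, g • z j = z j) (dir : G → Fin n) {a b c : ℕ} (hc : N.index ≤ c)
    (hb : gap c a c ≤ b)
    (mon : ∀ h ∉ N, LMon O z (dp h (z (dir h))) ∧ dp h (z (dir h)) ∈ O ∧ ¬ Un O (dp h (z (dir h))))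
    (oth : ∀ h ∉ N, ∀ j ≠ dir h, dp h (z j) / dp h (z (dir h)) ^ b ∈ O)
    (pair : ∀ h ∉ N, ∀ h' ∉ N, (dir h = dir h' ∧ dp h (z (dir h)) ^ a / dp h' (z (dir h')) ∈ O ∧
        dp h' (z (dir h')) ^ a / dp h (z (dir h)) ∈ O) ∨
      dp h (z (dir h)) / dp h' (z (dir h')) ^ b ∈ O ∨
      dp h' (z (dir h')) / dp h (z (dir h)) ^ b ∈ O) :
    ∃ (z' : Fin n → L) (α : Fin n → ℕ), (∀ (g : G) j, g • z' j = z' j) ∧
      (∀ j, z' j / z j ^ p ^ α j - 1 ∈ nI O z) ∧ Frame (fix G O) z' ∧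
      (∀ x, x ∈ nI (fix G O) z' ↔ (∀ g : G, g • x = x) ∧ x ∈ nI O z) ∧ ∀ f, (∀ g : G, g • f = f) → LMon O z f → LMon (fix G O) z' f := by
  have : CharP L p := charP_of_injective_algebraMap (algebraMap k L).injective p
  obtain ⟨h1, T, hT, hT'⟩ := fix_fin hfg hD hN
  have h2 := isPoint_fix hp hD hO hN
  have : Algebra.FiniteType k (fix G D) := (Subalgebra.fg_iff_finiteType _).1 h1
  have : IsNoetherianRing (fix G D) := Algebra.FiniteType.isNoetherianRing k _
  refine St.main (R := fix G O) (dir := dir) (a := a) c c ⟨‹_›, ‹_›, h2.isNoetherianRing,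
    fun g x hx => hx.2 g, fix_le O, ⟨T, hT, fun x hx => ?_⟩, hp.lcl, hr, hO, hf,
    fun g hg x hx => ?_, hz, mon, oth, pair⟩ hG hc (by omega) hb
  · obtain ⟨d, hd, hu, h⟩ := exists_den hp hD hO hN hx
    have h3 : ∀ y ∈ Submodule.span (fix G D) T, y ∈ Submodule.span (fix G O) T := fun y hy => by
      induction hy using Submodule.span_induction with
      | mem x hx => exact Submodule.subset_span hx
      | zero => exact zero_mem _
      | add x y _ _ hx hy => exact add_mem hx hy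
      | smul r x _ hx => exact mul_mem' (h2.le r.2) hx
    have := mul_mem' (un_fix hu hd.2).2.2 (h3 _ (hT' _ h))
    rwa [mul_comm, mul_inv_cancel_right₀ hu.2.1] at this
  · obtain ⟨c, hc, b, hb, -, rfl⟩ := hp.le_loc hx
    rw [smul_div₀', hN g hg c hc, hN g hg b hb]

end Pool.Agent.MP_19ffc6_ag.Perf.GD

end Part3
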