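import Pool.Agent.MP_19ffc6_ag.perf.GD

/-! PROJECT PERF: the quotient of a point with a frame by a tame group. -/

namespace Pool.Agent.MP_19ffc6_ag.Perf.GD

open Pool.Agent.R72.Wild Pool.Agent.R72.Lci Pool.Agent.R72.Res Pool.Agent.R72.Res.B

variable {k L : Type} [Field k] [Field L] [Algebra k L]
  {G : Type} [Group G] [MulSemiringAction G L] [SMulCommClass G k L]
  {N : Subgroup G} {O : Subalgebra k L} {n : ℕ} {z z' : Fin n → L} {x y : L}

lemma nI_le_of_un (hz : ∀ j, z j ≠ 0) (h : ∀ j, Un O (z' j / z j)) : nI O z' ≤ nI O z := by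
  refine Submodule.span_le.2 ?_
  rintro _ ⟨h1, h2, c, rfl⟩
  have h3 := un_mn_of_un h c
  have h0 := mn_ne_zero hz c
  have h4 := mul_mem h3.2.2 h1
  rw [inv_div, div_mul_cancel₀ _ (fun e => h3.2.1 (by rw [e, zero_div]))] at h4
  refine mem_of_dv h0 h3.1 (Submodule.subset_span ⟨h4, fun U => h2 ?_, c, rfl⟩)
  have := h3.mul U
  rwa [div_mul_cancel₀ _ h0] at this

lemma nI_eq_of_un (hz : ∀ j, z j ≠ 0) (h : ∀ j, Un O (z' j / z j)) : nI O z' = nI O z :=
  le_antisymm (nI_le_of_un hz h) (nI_le_of_un (fun j e => (h j).2.1 (by rw [e, zero_div]))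
    fun j => by simpa using (h j).inv)

/-- A frame may be changed modulo the monomials that are not units. -/
theorem frame_perturb (hl : Lcl O) (hf : Frame O z) (h : ∀ j, z' j / z j - 1 ∈ nI O z) :
    Frame O z' := by
  have hu := fun j => one_un hl (fun _ => nI_mx hl) (h j)
  have hz' : ∀ j, z' j ≠ 0 := fun j e => (hu j).2.1 (by rw [e, zero_div])
  have h1 : nI O z' ≤ Submodule.span O (gens O z') := Submodule.span_mono (by
    rintro _ ⟨h1, h2, c, rfl⟩
    exact ⟨h2, c, 0, h1, by simp⟩)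
  refine ⟨hz', fun x hx hx' => Submodule.span_le.2 ?_ (hf.gen x hx hx')⟩
  rintro _ ⟨h2, c, a, hc, rfl⟩
  have h3 := mul_mem' hc (one_mn hl (fun _ => nI_mx hl) h c)
  have h0 := mn_ne_zero hf.ne c
  have h4 : mn z c * (mn (fun j => z' j / z j) c - 1) = mn z' c - mn z c := by
    simp only [mn, div_zpow, Finset.prod_div_distrib] at h0 ⊢
    field_simp
  rw [h4] at h3
  have h5 := nI_mx hl h3
  have h6 := add_mem h5 (⟨sub_mem hc (O.algebraMap_mem a), h2⟩ : _ ∈ mx hl)
  rw [sub_add_sub_cancel] at h6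
  rw [← nI_eq_of_un hf.ne hu] at h3
  rw [show mn z c - algebraMap k L a = (mn z' c - algebraMap k L a) - (mn z' c - mn z c) by ring]
  exact sub_mem (Submodule.subset_span ⟨h6.2, c, a, by simpa using add_mem h5.1 hc, rfl⟩) (h1 h3)

lemma const_eq (hl : Lcl O) {a b : k} (ha : x - algebraMap k L a ∈ mx hl)
    (hb : x - algebraMap k L b ∈ mx hl) : a = b := by
  by_contra h
  have := sub_mem hb ha
  rw [sub_sub_sub_cancel_left, ← map_sub] at this
  exact this.2 (un_alg O (sub_ne_zero.2 h))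

omit [SMulCommClass G k L] in
lemma mx_sm (hl : Lcl O) (hO : ∀ g : G, ∀ x ∈ O, g • x ∈ O) (g : G) (hx : x ∈ mx hl) :
    g • x ∈ mx hl := ⟨hO g x hx.1, fun U => hx.2 (by simpa using un_sm hO U g⁻¹)⟩

lemma sum_out {M : Type} [AddCommMonoid M] [Fintype (G ⧸ N)] (f : G → M)
    (hf : ∀ g, ∀ m ∈ N, f (g * m) = f g) (g : G) :
    ∑ q : G ⧸ N, f (g * q.out) = ∑ q : G ⧸ N, f q.out := by
  rw [← Equiv.sum_comp (MulAction.toPerm g) fun q : G ⧸ N => f q.out]
  refine Finset.sum_congr rfl fun q _ => ?_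
  obtain ⟨m, hm⟩ := QuotientGroup.mk_out_eq_mul N (g * q.out)
  rw [← hf _ m m.2, ← hm, ← smul_eq_mul, MulAction.Quotient.mk_smul_out]
  rfl

/-- Eigenvectors by averaging. -/
theorem exists_eigen [N.FiniteIndex] (hm : (N.index : k) ≠ 0) (hl : Lcl O)
    (hO : ∀ g : G, ∀ x ∈ O, g • x ∈ O) {I : Submodule O L} (hI : ∀ x ∈ I, x ∈ mx hl)
    (h0 : x ≠ 0) (hx : ∀ g ∈ N, g • x = x)
    (tame : ∀ g : G, ∃ c : k, g • x / x - algebraMap k L c ∈ I) :
    ∃ y, y / x - 1 ∈ I ∧ ∀ g : G, ∃ c : k, g • y = c • y := by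
  have := Fintype.ofFinite (G ⧸ N)
  choose χ hχ using tame
  have hmem : ∀ g : G, g • x / x ∈ O := fun g => by
    simpa using add_mem (hI _ (hχ g)).1 (O.algebraMap_mem (χ g))
  have hmul : ∀ g h, χ (g * h) = χ g * χ h := fun g h => by
    refine const_eq hl (hI _ (hχ _)) ?_
    have h1 := add_mem (mx_mul hl (hmem g) (mx_sm hl hO g (hI _ (hχ h))))
      (mx_mul hl (O.algebraMap_mem (χ h)) (hI _ (hχ g)))
    have h2 := (smul_ne_zero_iff_ne g).2 h0
    convert h1 using 1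
    rw [smul_sub, smul_alg, smul_div₀', mul_smul, map_mul]; field_simp; ring
  have hN : ∀ g ∈ N, χ g = 1 := fun g hg =>
    const_eq hl (hI _ (hχ g)) (by simp [hx g hg, h0])
  have hne : ∀ g, χ g ≠ 0 := fun g e => by
    have := hmul g g⁻¹
    rw [mul_inv_cancel, hN 1 (one_mem _), e, zero_mul] at this
    exact one_ne_zero this
  refine ⟨(N.index : k)⁻¹ • ∑ q : G ⧸ N, (χ q.out)⁻¹ • q.out • x, ?_, fun g => ⟨χ g, ?_⟩⟩
  · have h1 : ∑ q : G ⧸ N, algebraMap k L ((N.index : k)⁻¹ * (χ q.out)⁻¹) *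
        (q.out • x / x - algebraMap k L (χ q.out)) ∈ I :=
      sum_mem fun q _ => mul_mem' (O.algebraMap_mem _) (hχ _)
    convert h1 using 1
    simp only [mul_sub, ← map_mul, mul_assoc, inv_mul_cancel₀ (hne _), mul_one,
      Finset.sum_sub_distrib, Finset.sum_const, Finset.card_univ, ← Nat.card_eq_fintype_card,
      ← Subgroup.index_eq_card, Finset.sum_div, Algebra.smul_def, mul_div_assoc]
    rw [eq_natCast, ← map_natCast (algebraMap k L), ← map_mul, mul_inv_cancel₀ hm, map_one,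
      Finset.mul_sum]
    simp only [map_mul, mul_assoc]
  · rw [smul_comm g, smul_comm (χ g)]
    congr 1
    conv_rhs => rw [← sum_out (N := N) (fun h => (χ h)⁻¹ • h • x)
      (fun h m hm => by simp only [hmul, hN m hm, mul_one, mul_smul, hx m hm]) g]
    rw [Finset.smul_sum, Finset.smul_sum]
    refine Finset.sum_congr rfl fun q _ => ?_
    rw [smul_comm g, hmul, smul_smul (χ g), mul_inv, mul_inv_cancel_left₀ (hne g), mul_smul]

omit [SMulCommClass G k L] in
lemma eigen_mn (hz : ∀ (g : G) j, ∃ c : k, g • z j = c • z j) (g : G) (c : Fin n → ℤ) :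
    ∃ a : k, g • mn z c = a • mn z c := by
  choose χ hχ using hz g
  refine ⟨∏ j, χ j ^ c j, ?_⟩
  rw [smul_mn]
  simp only [mn, hχ, Algebra.smul_def, mul_zpow, Finset.prod_mul_distrib, map_prod, map_zpow₀]

lemma fixed_of_un (hl : Lcl O) (hr : Rt O) (hO : ∀ g : G, ∀ x ∈ O, g • x ∈ O) {g : G} {a : k}
    (hu : Un O (x / y)) (hx : g • x = x) (hy : g • y = a • y) : g • y = y := by
  obtain ⟨b, hb⟩ := hr.mx hl hu.2.2
  have h1 := mx_sm hl hO g hb
  rw [inv_div] at hb h1
  rw [smul_sub, smul_alg, smul_div₀', hx, hy] at h1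
  have h2 := mx_mul hl hu.1 (sub_mem h1 hb)
  have h3 : x ≠ 0 := fun e => hu.2.1 (by rw [e, zero_div])
  have h4 : y ≠ 0 := fun e => hu.2.1 (by rw [e, div_zero])
  have h5 : a = 1 := const_eq hl (x := algebraMap k L a) (by simp) (by
    convert h2 using 1
    rw [Algebra.smul_def, map_one]; field_simp; ring)
  rw [hy, h5, one_smul]

/-- The invariants of a tame group that acts on a frame by characters. -/
theorem tq_frame [N.Normal] [N.FiniteIndex] (hm : (N.index : k) ≠ 0) (hl : Lcl O) (hr : Rt O)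
    [IsNoetherianRing O] (hO : ∀ g : G, ∀ x ∈ O, g • x ∈ O) (hN : ∀ g ∈ N, ∀ x ∈ O, g • x = x)
    (hf : Frame O z) (hzN : ∀ g ∈ N, ∀ j, g • z j = z j)
    (hz : ∀ (g : G) j, ∃ c : k, g • z j = c • z j) (b : Matrix (Fin n) (Fin n) ℤ)
    (hb : ∀ c, (∀ g : G, g • mn z c = mn z c) ↔ ∃ e, Matrix.vecMul e b = c) :
    Frame (fix G O) (fun i => mn z (b i)) ∧
      ∀ f, (∀ g : G, g • f = f) → LMon O z f → LMon (fix G O) (fun i => mn z (b i)) f := by
  have := Fintype.ofFinite (G ⧸ N)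
  set w : Fin n → L := fun i => mn z (b i)
  have hgen : ∀ c (a : k), mn z c ∈ O → (∀ g : G, g • mn z c = mn z c) →
      ¬ Un O (mn z c - algebraMap k L a) → mn z c - algebraMap k L a ∈ gens (fix G O) w := by
    intro c a h1 h2 h3
    obtain ⟨e, rfl⟩ := (hb c).1 h2
    exact ⟨fun U => h3 (U.mono (fix_le O)), e, a, by rw [← mn_vecMul hf.ne]; exact ⟨h1, h2⟩,
      by rw [mn_vecMul hf.ne]⟩
  refine ⟨⟨fun i => mn_ne_zero hf.ne _, fun x hx hu => ?_⟩, fun f hf' ⟨c, hc⟩ => ?_⟩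
  swap
  · have h1 : ∀ g : G, g • mn z c = mn z c := fun g =>
      let ⟨_, ha⟩ := eigen_mn hz g c; fixed_of_un hl hr hO hc (hf' g) ha
    obtain ⟨e, rfl⟩ := (hb c).1 h1
    exact ⟨e, by rw [← mn_vecMul hf.ne]; exact un_fix hc fun g => by rw [smul_div₀', hf', h1]⟩
  change x ∈ Submodule.span (fix G O) (gens (fix G O) w)
  obtain ⟨l, hl'⟩ : ∃ l, Mp hl l ≤ Submodule.span O (gens (fix G O) w) := by
    refine exists_Mp_le hl (S := gens O z) (fun s hs => gens_mem hs) hf.gen ?_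
    rintro _ ⟨h1, c, a, hc, rfl⟩ hs
    by_cases U : Un O (mn z c)
    · exact Ideal.le_radical (Submodule.subset_span (hgen c a hc (fun g =>
        let ⟨_, ha⟩ := eigen_mn hz g c
        fixed_of_un hl hr hO (x := 1) (by simpa using U.inv) (smul_one g) ha) h1) :
          _ ∈ Submodule.span O _)
    · obtain rfl : a = 0 := const_eq hl ⟨hs, h1⟩ (by simpa using ⟨hc, U⟩)
      refine ⟨N.index, ?_⟩
      change (mn z c - algebraMap k L 0) ^ N.index ∈ Submodule.span O _
      have h2 : mn z ((N.index : ℤ) • c) = mn z c ^ N.index := by rw [mn_smul, zpow_natCast]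
      have h3 := hgen ((N.index : ℤ) • c) 0 (h2 ▸ pow_mem hc _) (fun g => ?_) (fun V => U ?_)
      · rw [map_zero, sub_zero, ← h2]
        exact Submodule.subset_span (by simpa using h3)
      · obtain ⟨a, ha⟩ := eigen_mn hz g c
        have h4 : ∀ m : ℕ, g ^ m • mn z c = a ^ m • mn z c := fun m => by
          induction m with
          | zero => simp
          | succ m ih => rw [pow_succ', mul_smul, ih, smul_comm, ha, smul_smul, pow_succ]
        have h5 := h4 N.index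
        rw [smul_mn, funext (hzN _ (N.pow_index_mem g))] at h5
        have h6 : a ^ N.index = 1 :=
          smul_left_injective k (mn_ne_zero hf.ne c) (h5.symm.trans (one_smul k _).symm)
        rw [h2, smul_pow', ha, smul_pow, h6, one_smul]
      · rw [map_zero, sub_zero, h2, ← pow_sub_one_mul N.index_ne_zero_of_finite, mul_comm] at V
        exact Un.of_mul hc (pow_mem hc _) V
  let A : L →ₗ[k] L := (N.index : k)⁻¹ • ∑ q : G ⧸ N, DistribSMul.toLinearMap k L q.out
  have hA : ∀ y, A y = (N.index : k)⁻¹ • ∑ q : G ⧸ N, q.out • y := fun y => by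
    simp [A, LinearMap.sum_apply]
  have hA1 : ∀ s y, (∀ g : G, g • s = s) → A (y * s) = A y * s := fun s y hs => by
    simp only [hA, smul_mul', hs, ← Finset.sum_mul, smul_mul_assoc]
  have hA2 : ∀ s, (∀ g : G, g • s = s) → A s = s := fun s hs => by
    simp only [hA, hs, Finset.sum_const, Finset.card_univ, ← Nat.card_eq_fintype_card,
      ← Subgroup.index_eq_card, ← Nat.cast_smul_eq_nsmul k, smul_smul, inv_mul_cancel₀ hm, one_smul]
  have hA3 : ∀ y ∈ O, A y ∈ fix G O := fun y hy => by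
    rw [hA]
    refine Subalgebra.smul_mem _ (mem_fix.2 ⟨sum_mem fun q _ => hO _ y hy, fun g => ?_⟩) _
    conv_rhs => rw [← sum_out (N := N) (fun h => h • y)
      (fun h m hm => by simp only [mul_smul, hN m hm y hy]) g]
    simp only [mul_smul, Finset.smul_sum]
  set J := Submodule.span (fix G O) (gens (fix G O) w)
  let X : Submodule k L := Submodule.span k {1} ⊔ J.restrictScalars k
  obtain ⟨y, hy, hy'⟩ := Sp_dense hl hr hf l x hx.1
  have h1 := span_mul_mem (O := O) (X := (X.comap A).toAddSubmonoid) (fun s hs r hr => by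
    change A (r * s) ∈ X
    rw [hA1 s r (gens_mem hs).2]
    exact Submodule.mem_sup_right (mul_mem' (I := J) (hA3 r hr) (Submodule.subset_span hs)))
    (hl' hy') 1 (one_mem _)
  have h2 : Sp O z ≤ X.comap A := by
    refine Submodule.span_le.2 ?_
    rintro _ ⟨h2, c, rfl⟩
    change A _ ∈ X
    by_cases h3 : ∀ g : G, g • mn z c = mn z c
    · obtain ⟨a, ha⟩ := hr _ h2
      rw [hA2 _ h3, ← add_sub_cancel (algebraMap k L a) (mn z c)]
      refine Submodule.add_mem_sup ?_ (Submodule.subset_span (hgen c a h2 h3 ha) : _ ∈ J)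
      rw [Algebra.algebraMap_eq_smul_one]
      exact Submodule.smul_mem _ _ (Submodule.subset_span rfl)
    · obtain ⟨g, hg⟩ := not_forall.1 h3
      obtain ⟨a, ha⟩ := eigen_mn hz g c
      have h4 : g • A (mn z c) = a • A (mn z c) := by
        simp only [hA, Finset.smul_sum]
        refine Finset.sum_congr rfl fun q _ => ?_
        obtain ⟨d, hd⟩ := eigen_mn hz q.out c
        rw [hd, smul_comm g, smul_comm g, ha, smul_comm a, smul_comm a]
      rw [(hA3 _ h2).2 g] at h4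
      have h5 : (1 - a) • A (mn z c) = 0 := by rw [sub_smul, one_smul, ← h4, sub_self]
      rw [(smul_eq_zero.1 h5).resolve_left fun e => hg (by rw [ha, ← sub_eq_zero.1 e, one_smul])]
      exact zero_mem _
  have h3 : A x ∈ X := by
    simpa using add_mem (h2 hy) (h1 : 1 * (x - y) ∈ X.comap A)
  rw [hA2 x hx.2] at h3
  obtain ⟨_, h4, j, hj, rfl⟩ := Submodule.mem_sup.1 h3
  obtain ⟨a, rfl⟩ := Submodule.mem_span_singleton.1 h4
  have h5 : j ∈ mx hl := span_mx hl (fix_le O) (fun s hs => ⟨(mem_fix.1 (gens_mem hs)).1,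
    fun U => hs.1 (un_fix U (mem_fix.1 (gens_mem hs)).2)⟩) hj
  obtain rfl : a = 0 := const_eq hl (x := a • 1 + j) (by
    rwa [Algebra.algebraMap_eq_smul_one, add_sub_cancel_left])
    (by simpa using ⟨hx.1, fun U => hu (un_fix U hx.2)⟩)
  rwa [zero_smul, zero_add]

/-- The tame quotient of a point with a frame. -/
theorem tq [N.Normal] [N.FiniteIndex] (hm : (N.index : k) ≠ 0) (hl : Lcl O) (hr : Rt O)
    [IsNoetherianRing O] (hO : ∀ g : G, ∀ x ∈ O, g • x ∈ O) (hN : ∀ g ∈ N, ∀ x ∈ O, g • x = x)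
    (hf : Frame O z) (hzN : ∀ g ∈ N, ∀ j, g • z j = z j)
    (tame : ∀ (g : G) j, ∃ c : k, g • z j / z j - algebraMap k L c ∈ nI O z) :
    ∃ (z₁ : Fin n → L) (b : Matrix (Fin n) (Fin n) ℤ), (∀ j, z₁ j / z j - 1 ∈ nI O z) ∧
      Frame O z₁ ∧ (∀ (g : G) j, ∃ c : k, g • z₁ j = c • z₁ j) ∧
      (∀ e, Matrix.vecMul e b = 0 → e = 0) ∧
      (∀ c, (∀ g : G, g • mn z₁ c = mn z₁ c) ↔ ∃ e, Matrix.vecMul e b = c) ∧
      (∀ c, ∃ e, Matrix.vecMul e b = N.index • c) ∧ Frame (fix G O) (fun i => mn z₁ (b i)) ∧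
      ∀ f, (∀ g : G, g • f = f) → LMon O z f → LMon (fix G O) (fun i => mn z₁ (b i)) f := by
  choose z₁ h1 h2 using fun j => exists_eigen hm hl hO (fun _ => nI_mx hl) (hf.ne j)
    (fun g hg => hzN g hg j) fun g => tame g j
  have hf₁ := frame_perturb hl hf h1
  have hu := fun j => one_un hl (fun _ => nI_mx hl) (h1 j)
  have hN₁ : ∀ g ∈ N, ∀ j, g • z₁ j = z₁ j := fun g hg j => by
    rw [← div_mul_cancel₀ (z₁ j) (hf.ne j), smul_mul', hN g hg _ (hu j).1, hzN g hg]
  let Λ : Submodule ℤ (Fin n → ℤ) :=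
    { carrier := {c | ∀ g : G, g • mn z₁ c = mn z₁ c}
      add_mem' := fun ha hb g => by rw [mn_add hf₁.ne, smul_mul', ha g, hb g]
      zero_mem' := fun g => by rw [mn_zero, smul_one]
      smul_mem' := fun m c hc g => by rw [mn_smul, smul_zpow₀', hc g] }
  have hΛ : ∀ c, N.index • c ∈ Λ := fun c g => by
    obtain ⟨a, ha⟩ := eigen_mn (fun g j => h2 j g) g c
    have h4 : ∀ m : ℕ, g ^ m • mn z₁ c = a ^ m • mn z₁ c := fun m => by
      induction m with
      | zero => simp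
      | succ m ih => rw [pow_succ', mul_smul, ih, smul_comm, ha, smul_smul, pow_succ]
    have h5 := h4 N.index
    rw [smul_mn, funext (hN₁ _ (N.pow_index_mem g))] at h5
    have h6 : a ^ N.index = 1 :=
      smul_left_injective k (mn_ne_zero hf₁.ne c) (h5.symm.trans (one_smul k _).symm)
    rw [← natCast_zsmul, mn_smul, zpow_natCast, smul_pow', ha, smul_pow, h6, one_smul]
  obtain ⟨b, b1, b2⟩ := exists_bas Λ N.index_ne_zero_of_finite hΛ
  obtain ⟨h3, h4⟩ := tq_frame hm hl hr hO hN hf₁ hN₁ (fun g j => h2 j g) b b2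
  refine ⟨z₁, b, h1, hf₁, fun g j => h2 j g, b1, b2, fun c => (b2 _).1 (hΛ c), h3,
    fun f hf' ⟨c, hc⟩ => h4 f hf' ⟨c, ?_⟩⟩
  have := un_div hc (un_mn_of_un hu c)
  rwa [div_div_div_cancel_right₀ (mn_ne_zero hf.ne c)] at this

end Pool.Agent.MP_19ffc6_ag.Perf.GD
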