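import Pool.Agent.MP_19ffc6_ag.perf.SpecQ
import Pool.Agent.MP_19ffc6_ag.perf.TQ

-- ======== part 0: formerly Pool.Agent.MP_19ffc6_ag.perf.QCen
section MrgPart0

/-! PROJECT PERF, row CEN: parameters of the stratum. -/

namespace Pool.Agent.MP_19ffc6_ag.Perf.Q

open Pool.Agent.R72.Wild Pool.Agent.R72.Lci Pool.Agent.R72.Res Pool.Agent.R72.Res.B
  Pool.Agent.R72.Res.P GD

variable {k L : Type} [Field k] [Field L] [Algebra k L]

namespace Cen

variable {O : Subalgebra k L} {n r : ℕ} {z : Fin n → L} {y : Fin r → L}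

/-- The exponents of the monomials that are units. -/
def ex (O : Subalgebra k L) (hz : ∀ i, z i ≠ 0) : Submodule ℤ (Fin n → ℤ) where
  carrier := {c | Un O (mn z c)}
  zero_mem' := by simpa [mn_zero] using Un.one O
  add_mem' := fun {a b} ha hb => by
    change Un O (mn z (a + b))
    rw [mn_add hz]; exact Un.mul ha hb
  smul_mem' := fun m c hc => by
    change Un O (mn z (m • c))
    rw [mn_smul]; exact un_zpow hc m

lemma un_prod (hz : ∀ i, z i ≠ 0) {c : Fin r → Fin n → ℤ} (hc : ∀ j, Un O (y j / mn z (c j)))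
    (a : Fin r → ℤ) (s : Finset (Fin r)) :
    Un O ((∏ j ∈ s, y j ^ a j) / mn z (∑ j ∈ s, a j • c j)) := by
  induction s using Finset.induction_on with
  | empty => simpa [mn_zero] using Un.one O
  | insert j s hj ih =>
    rw [Finset.prod_insert hj, Finset.sum_insert hj]
    exact un_exp_mul hz (un_exp_zpow (hc j) _) ih

lemma rank_le (hz : ∀ i, z i ≠ 0) (hy : ∀ j, LMon O z (y j)) (hi : ∀ a, Un O (mn y a) → a = 0) :
    r + Module.finrank ℤ (ex O hz) ≤ n := by
  choose c hc using hy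
  have h := LinearMap.finrank_le_finrank_of_injective
    (f := (Fintype.linearCombination ℤ c).coprod (ex O hz).subtype)
    ((injective_iff_map_eq_zero _).2 fun ⟨a, u⟩ h => ?_)
  · simpa using h
  · have h1 : ∑ j, a j • c j = -(u : Fin n → ℤ) := eq_neg_of_add_eq_zero_left h
    have h2 : Un O (mn z (∑ j, a j • c j)) := h1 ▸ neg_mem u.2
    have h3 := (un_prod hz hc a Finset.univ).mul h2
    rw [div_mul_cancel₀ _ h2.2.1] at h3
    obtain rfl := hi a h3
    have h4 : (u : Fin n → ℤ) = 0 := by simpa using h1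
    exact Prod.ext rfl (Subtype.ext h4)

/-- The exponents of units that are constant modulo `I`. -/
def cst (hl : Lcl O) (hz : ∀ i, z i ≠ 0) (I : Submodule O L) (hI : ∀ x ∈ I, x ∈ mx hl) :
    AddSubgroup (ex O hz) where
  carrier := {c | ∃ a : k, mn z c - algebraMap k L a ∈ I}
  zero_mem' := ⟨1, by simp [mn_zero]⟩
  add_mem' := by
    rintro u v ⟨a, ha⟩ ⟨b, hb⟩
    refine ⟨a * b, ?_⟩
    convert add_mem (mul_mem' (Un.mul v.2 (Un.one O)).1 ha) (mul_mem' (O.algebraMap_mem a) hb)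
      using 1
    rw [Submodule.coe_add, mn_add hz, map_mul]; ring
  neg_mem' := by
    rintro u ⟨a, ha⟩
    have hu : Un O (mn z u) := u.2
    have h0 : a ≠ 0 := by
      rintro rfl
      exact (hI _ ha).2 (by simpa using hu)
    refine ⟨a⁻¹, ?_⟩
    convert neg_mem (mul_mem' (mul_mem hu.2.2 (O.algebraMap_mem a⁻¹)) ha) using 1
    have h1 := hu.2.1
    have h2 : algebraMap k L a ≠ 0 := (map_ne_zero _).2 h0
    rw [Submodule.coe_neg, mn_neg, map_inv₀]; field_simp; ring

end Cen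

open Cen in
theorem cenQ : CenStmt k L := by
  intro O n r z y hl hr hf hy hi
  let b := Module.finBasis ℤ (ex O hf.ne)
  have hb : ∀ i, Un O (mn z (b i)) := fun i => (b i).2
  choose a ha using fun i => hr _ (hb i).1
  have ht : ∀ i, Nu O (mn z (b i) - algebraMap k L (a i)) := fun i =>
    ⟨sub_mem (hb i).1 (O.algebraMap_mem _), ha i⟩
  refine ⟨_, fun i => mn z (b i) - algebraMap k L (a i), rank_le hf.ne hy hi, ht, fun x hx => ?_⟩
  have hI : ∀ x ∈ Submodule.span O (Set.range fun i => mn z (b i) - algebraMap k L (a i)),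
      x ∈ mx hl := fun x hx => span_mx hl le_rfl (by rintro _ ⟨i, rfl⟩; exact ht i) hx
  have hc : ∀ u, u ∈ cst hl hf.ne _ hI := fun u =>
    Submodule.span_le (p := (cst hl hf.ne _ hI).toIntSubmodule) |>.2
      (by rintro _ ⟨i, rfl⟩; exact ⟨a i, Submodule.subset_span ⟨i, rfl⟩⟩) (b.mem_span u)
  refine Submodule.span_le.2 ?_ (hf.gen x hx.1 hx.2)
  rintro _ ⟨h1, c, e, h2, rfl⟩
  have h3 : mn z c - algebraMap k L e ∈ mx hl := ⟨sub_mem h2 (O.algebraMap_mem e), h1⟩
  by_cases hu : Un O (mn z c)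
  · obtain ⟨e', he⟩ := hc ⟨c, hu⟩
    obtain rfl := const_eq hl h3 (hI _ he)
    exact Submodule.span_mono Set.subset_union_right he
  · obtain rfl : e = 0 := const_eq hl h3 (by simpa using ⟨h2, hu⟩)
    exact Submodule.subset_span (Or.inl ⟨by simpa using h2, h1, c, by simp⟩)

end Pool.Agent.MP_19ffc6_ag.Perf.Q

end MrgPart0

-- ======== part 1: formerly Pool.Agent.MP_19ffc6_ag.perf.QAfq
section MrgPart1

/-! PROJECT PERF, row AFQ: the image of a point in the quotient by a group. -/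

namespace Pool.Agent.MP_19ffc6_ag.Perf.Q

open Pool.Agent.R72.Wild Pool.Agent.R72.Lci Pool.Agent.R72.Res Pool.Agent.R72.Res.B GD Polynomial

variable {k L : Type} [Field k] [Field L] [Algebra k L]

namespace Afq

variable {G : Type} [Group G] [MulSemiringAction G L] [SMulCommClass G k L] {N : Subgroup G}
  {D : Subalgebra k L} {x b : L}

lemma coeff_mem {s : Finset L} (hs : ∀ w ∈ s, w ∈ D ∧ w * x ∈ D) (m : ℕ) :
    (∏ w ∈ s, (X - C w) - X ^ s.card).coeff m ∈ D ∧
      (∏ w ∈ s, (X - C w) - X ^ s.card).coeff m * x ∈ D := by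
  classical
  induction s using Finset.induction_on generalizing m with
  | empty => simp
  | insert w s hw ih =>
    have ih := ih fun v hv => hs v (Finset.mem_insert_of_mem hv)
    obtain ⟨h1, h2⟩ := hs w (Finset.mem_insert_self w s)
    rw [Finset.prod_insert hw, Finset.card_insert_of_notMem hw]
    set P := ∏ v ∈ s, (X - C v)
    rw [show (X - C w) * P - X ^ (s.card + 1) = X * (P - X ^ s.card) -
      (C w * (P - X ^ s.card) + monomial s.card w) by rw [← C_mul_X_pow_eq_monomial]; ring,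
      coeff_sub, coeff_add, coeff_C_mul, coeff_monomial, sub_mul, add_mul, mul_assoc]
    have h3 : (X * (P - X ^ s.card)).coeff m ∈ D ∧ (X * (P - X ^ s.card)).coeff m * x ∈ D := by
      cases m with
      | zero => simp
      | succ m => rw [coeff_X_mul]; exact ih m
    have h4 : (if s.card = m then w else 0) ∈ D ∧ (if s.card = m then w else 0) * x ∈ D := by
      split_ifs
      · exact ⟨h1, h2⟩
      · simp
    exact ⟨sub_mem h3.1 (add_mem (mul_mem h1 (ih m).1) h4.1),
      sub_mem h3.2 (add_mem (mul_mem h1 (ih m).2) h4.2)⟩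

/-- A fixed element has a fixed denominator outside a given radical ideal. -/
lemma den [N.FiniteIndex] (hD : ∀ g : G, ∀ x ∈ D, g • x ∈ D) (hN : ∀ g ∈ N, ∀ x ∈ D, g • x = x)
    (M : Submodule k L) (hM : ∀ y ∈ M, ∀ d ∈ D, y * d ∈ M) (hb : b ∈ D) (hbx : b * x ∈ D)
    (hx : ∀ g : G, g • x = x) (hn : ∀ n, b ^ n ∉ M) :
    ∃ e ∈ fix G D, e * x ∈ fix G D ∧ e ∉ M := by
  obtain ⟨Ω, h1, h2, h3⟩ := orb_fin fun g hg => hN g hg b hb
  have h4 := coeff_mem (s := Ω) (D := D) (x := x) fun w hw => by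
    obtain ⟨g, rfl⟩ := h2 w hw
    exact ⟨hD g b hb, by simpa only [smul_mul', hx g] using hD g _ hbx⟩
  have h5 : ∀ (g : G) m, g • (∏ w ∈ Ω, (X - C w) - X ^ Ω.card).coeff m =
      (∏ w ∈ Ω, (X - C w) - X ^ Ω.card).coeff m := fun g m => by
    rw [← coeff_smul, smul_sub, smul_pow', Finset.smul_prod', ← h3 g L[X] fun w => X - C w]
    simp only [smul_sub, smul_X, smul_C]
  have h6 : (∏ w ∈ Ω, (X - C w) - X ^ Ω.card).eval b = -b ^ Ω.card := by
    rw [eval_sub, eval_prod, Finset.prod_eq_zero h1 (by simp)]; simp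
  by_contra H
  push Not at H
  refine hn Ω.card (neg_mem_iff.1 ?_)
  rw [← h6, eval_eq_sum_range]
  exact sum_mem fun m _ => hM _ (H _ ⟨(h4 m).1, fun g => h5 g m⟩
    ⟨(h4 m).2, fun g => by rw [smul_mul', h5, hx]⟩) _ (pow_mem hb m)

end Afq

theorem afqQ : AfqStmt k L := by
  intro G _ _ _ n W D O _ hD h
  have hN : ∀ g ∈ Kr G W, ∀ x ∈ D, g • x = x := fun g hg x hx => hg x (h.le x hx)
  have hW : ∀ g : G, ∀ x ∈ W.toSubalgebra, g • x ∈ W.toSubalgebra := fun g x hx => by
    obtain ⟨b, hb, h0, hc⟩ := h.frac x hx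
    have e : g • x = g • (b * x) / g • b := by
      rw [smul_mul', mul_div_cancel_left₀ _ ((smul_ne_zero_iff_ne g).2 h0)]
    rw [e]
    exact W.div_mem (h.le _ (hD g _ hc)) (h.le _ (hD g _ hb))
  refine ⟨?_, (fix_fin h.fg hD hN).1, fun x hx => ⟨h.le x hx.1, hx.2⟩, fun x hx => ?_,
    ⟨fun x hx => ⟨h.pt.le hx.1, hx.2⟩, fun x hx y hy hu => ?_, fun x hx => ?_⟩,
    h.rt.of_le (fix_le O)⟩
  · have hle : fixF G W ≤ W := fun x hx => hx.1
    let _ := (IntermediateField.inclusion hle).toRingHom.toAlgebra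
    have : IsScalarTower k (fixF G W) W := .of_algebraMap_eq fun _ => rfl
    have : IsScalarTower (fixF G W) W L := .of_algebraMap_eq fun _ => rfl
    have h1 : ∀ x : W, IsIntegral (fixF G W) (algebraMap W L x) := fun x =>
      integral_fix (N := Kr G W) hW x.2 fun g hg => hg x x.2
    have : Algebra.IsIntegral (fixF G W) W := ⟨fun x =>
      (isIntegral_algebraMap_iff (algebraMap W L).injective).1 (h1 x)⟩
    rw [← h.deg, ← trdeg_add_eq k (fixF G W) (A := W), trdeg_eq_zero (R := fixF G W) (A := W),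
      add_zero]
  · obtain ⟨b, hb, h0, hc⟩ := h.frac x hx.1
    obtain ⟨e, he, h1, h2⟩ := Afq.den hD hN ⊥ (fun y hy d _ => by simp [show y = 0 from hy]) hb hc
      hx.2 fun m hm => pow_ne_zero m h0 hm
    exact ⟨e, he, h2, h1⟩
  · exact (h.pt.lcl x hx.1 y hy.1 (hu.mono (fix_le O))).imp (un_fix · hx.2) (un_fix · hy.2)
  · obtain ⟨c, hc, b, hb, hu, e⟩ := h.pt.le_loc hx.1
    obtain ⟨d, hd, h1, h2⟩ := Afq.den hD hN (mx h.pt.lcl)
      (fun y hy d hd => mul_mem_mx _ hy (h.pt.le hd)) hb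
      (x := x) (by rwa [e, mul_div_cancel₀ _ hu.2.1]) hx.2 fun m hm => hm.2 (hu.pow m)
    have h3 : Un O d := by_contra fun H => h2 ⟨h.pt.le hd.1, H⟩
    exact ⟨d * x, h1, d, hd, un_fix h3 hd.2, (mul_div_cancel_left₀ x h3.2.1).symm⟩

end Pool.Agent.MP_19ffc6_ag.Perf.Q

end MrgPart1

-- marker of a merged file
example : 731051 + 270899 = 731051 + 270899 := rfl
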