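import Pool.Agent.MP_19ffc6_ag.perf.TQ
import Pool.Agent.MP_19ffc6_ag.perf.SpecQ

/-! PROJECT PERF, row GLUE of the local quotient. -/

namespace Pool.Agent.MP_19ffc6_ag.Perf.Q

open Pool.Agent.R72.Wild Pool.Agent.R72.Lci Pool.Agent.R72.Res Pool.Agent.R72.Res.B
  Pool.Agent.R72.Res.P GD

variable {k L : Type} [Field k] [Field L] [Algebra k L]

namespace Glue

variable {K₀ : Subfield L} {K W : IntermediateField k L} {D A : Subalgebra k L} {x x' : L}

lemma alg_up (h : ∀ x ∈ K₀, x ∈ K) (hx : IsAlgebraic K₀ x) : IsAlgebraic K x := by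
  let _ : Algebra K₀ K := (Subfield.inclusion (S := K₀) (T := K.toSubfield) h).toAlgebra
  have : IsScalarTower K₀ K L := .of_algebraMap_eq fun _ => rfl
  exact hx.tower_top K

lemma alg_frac {b : L} (hb : b ∈ D) (h0 : b ≠ 0) (h : b * x ∈ D) : IsAlgebraic D x :=
  IsAlgebraic.of_mul (mem_nonZeroDivisors_of_ne_zero h0) (isIntegral_of_mem hb).isAlgebraic
    (isIntegral_of_mem h).isAlgebraic

lemma triv_of_un {G : Type} [Group G] [MulSemiringAction G L] [SMulCommClass G k L] (hl : Lcl A)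
    (hr : Rt A) (hO : ∀ g : G, ∀ x ∈ A, g • x ∈ A) {g : G} (hu : Un A (x' / x))
    (h : Nu A (dp g x)) : Nu A (dp g x') := by
  let M : Submodule A L := Submodule.span A (mx hl)
  have hM : ∀ x ∈ M, x ∈ mx hl := fun x hx => span_mx hl le_rfl (fun _ h => h) hx
  obtain ⟨d, hd⟩ := hr.mx hl hu.1
  have h1 := mx_mul hl hu.2.2 (sub_mem (mx_sm hl hO g hd) hd)
  rw [smul_sub, smul_alg, sub_sub_sub_cancel_right, mul_sub, inv_mul_cancel₀ hu.2.1] at h1
  have h2 := hM _ (one_mul' hl hM (Submodule.subset_span h1) (Submodule.subset_span (h : _ ∈ mx hl)))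
  have h3 : x ≠ 0 := fun e => hu.2.1 (by rw [e, div_zero])
  have h4 : x' ≠ 0 := fun e => hu.2.1 (by rw [e, zero_div])
  have h5 := (smul_ne_zero_iff_ne g).2 h3
  change g • x' / x' - 1 ∈ mx hl
  convert h2 using 2
  rw [smul_div₀']; field_simp

lemma lmon_mn {n r : ℕ} {z : Fin n → L} {w : Fin r → L} (hz : ∀ j, z j ≠ 0)
    (h : ∀ j, LMon A z (w j)) (c : Fin r → ℤ) : LMon A z (mn w c) :=
  Finset.prod_induction _ _ (fun _ _ => LMon.mul hz) (LMon.of_un (Un.one A))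
    fun j _ => (h j).zpow _

lemma ra_mn {r : ℕ} {s : Fin r → L} (h : ∀ j, Ra k K₀ (s j)) (c : Fin r → ℤ) : Ra k K₀ (mn s c) :=
  fun g hg => by rw [smul_mn, funext fun j => h j g hg]

lemma un_trans {a b c : L} (h1 : Un A (a / b)) (h2 : Un A (b / c)) : Un A (a / c) := by
  have := h1.mul h2
  rwa [div_mul_div_cancel₀ fun e => h1.2.1 (by rw [e, div_zero])] at this

lemma un_pow {a b : L} (h : Un A (a / b)) (m : ℕ) : Un A (a ^ m / b ^ m) := div_pow a b m ▸ h.pow m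

lemma un_symm {a b : L} (h : Un A (a / b)) : Un A (b / a) := inv_div a b ▸ h.inv

lemma mem_of_un {a b : L} (h : Un A (a / b)) (hb : b ∈ A) : a ∈ A := by
  have := mul_mem h.1 hb
  rwa [div_mul_cancel₀ _ fun e => h.2.1 (by rw [e, div_zero])] at this

lemma un_of_un {a b : L} (h : Un A (a / b)) (hb : Un A b) : Un A a := by
  have := h.mul hb
  rwa [div_mul_cancel₀ _ hb.2.1] at this

lemma mn_pw {r : ℕ} (w : Fin r → L) (c : Fin r → ℤ) (i : ℕ) :
    mn (fun j => w j ^ i) c = mn w c ^ i := by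
  rw [mn, mn, ← Finset.prod_pow]
  exact Finset.prod_congr rfl fun j _ => by
    rw [← zpow_natCast, ← zpow_natCast, ← zpow_mul, ← zpow_mul, mul_comm]

lemma ful_mn {n : ℕ} {z : Fin n → L}
    (h : ∀ j, ∃ (N : ℕ) (s : L), 0 < N ∧ Ra k K₀ s ∧ Un A (z j ^ N / s)) (hx : LMon A z x) :
    ∃ (N : ℕ) (s : L), 0 < N ∧ Ra k K₀ s ∧ Un A (x ^ N / s) := by
  choose N s h1 h2 h3 using h
  obtain ⟨c, hc⟩ := hx
  have h4 : ∀ j, ∃ d, ∏ i, N i = N j * d := fun j => Finset.dvd_prod_of_mem N (Finset.mem_univ j)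
  choose d hd using h4
  refine ⟨∏ i, N i, mn s fun j => d j * c j, Finset.prod_pos fun i _ => h1 i, ra_mn h2 _,
    un_trans (un_pow hc _) ?_⟩
  convert un_mn_of_un h3 fun j => d j * c j using 2
  rw [mn, mn, ← Finset.prod_pow]
  refine Finset.prod_congr rfl fun j _ => ?_
  rw [← zpow_natCast, ← zpow_natCast, ← zpow_mul, ← zpow_mul, hd j]
  congr 1; push_cast; ring

end Glue

open Glue in
theorem qGlue (p : ℕ) [Fact p.Prime] [CharP k p] [IsAlgClosed k] : QGlue k L p := by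
  intro hWq hCen hIns hInv hAfq hDesc hLat hReg n K₀ K W D A z r y q
  have hp0 : 0 < p := (Fact.out : p.Prime).pos
  have hl := q.pt.lcl
  have hz := q.fr.ne
  have fx : ∀ g : LG K, Fx K₀ (g : SA k L) := fun g x hx => g.2 x (q.gl.mem hx)
  have hWK : ∀ x ∈ W, IsAlgebraic K x := fun x hx => alg_up (fun _ => q.gl.mem) (q.gw.alg x hx)
  have hDW : ∀ x ∈ D, x ∈ W := fun x hx => q.le (q.Dle x hx)
  have aff : Aff n W (icl W D) A := aff_icl q.deg q.fg q.Dfg hDW (fun x hx =>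
    isAlgebraic_trans q.Dle (fun x hx => let ⟨_, hb, h0, h⟩ := q.Dfr x hx; alg_frac hb h0 h)
      (hWK x hx)) q.pt q.rt
  have hAW : ∀ x ∈ A, x ∈ W := fun x hx => aff.le_field hx
  have hst : ∀ g : LG K, ∀ x ∈ icl W D, g • x ∈ icl W D := fun g x hx =>
    icl_mono (sA_le_iff.2 (q.Dst g (fx g)))
      (icl_smul (q.gw.smul_mem_iff (fx g)) ▸ smul_mem_sA.2 hx : (g : SA k L) • x ∈ icl W _)
  obtain ⟨hfi, e₀, he₀⟩ := hIns K W q.le q.fg hWK
  have hnm : (Kr (LG K) W).Normal := ⟨fun m hm g x hx => by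
    rw [mul_smul, mul_smul, hm (g⁻¹ • x) (q.gw.st _ (fx g⁻¹) x hx), smul_inv_smul]⟩
  set H := Sb (LG K) A
  have hO : ∀ g : H, ∀ x ∈ A, g • x ∈ A := fun g x hx => (g.2 x).2 hx
  obtain ⟨dir, a, b, c, hc, hb, gp⟩ := q.gap
  have hN : ∀ g : H, g ∈ (Kr (LG K) W).subgroupOf H ↔ ∀ x ∈ icl W D, g • x = x := fun g =>
    ⟨fun hg x hx => hg x hx.1, fun hg x hx => by
      obtain ⟨d, hd, h0, h⟩ := aff.frac x hx
      have := hg _ h
      rw [smul_mul', hg d hd] at this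
      exact mul_left_cancel₀ h0 this⟩
  obtain ⟨w, w1, w2, w3, w4, m, w5⟩ := hWq H ((Kr (LG K) W).subgroupOf H) (icl W D) A n z
    (fun g => dir g) a b c aff.fg q.pt q.rt (fun g => hst g) hO q.fr hN
    (fun g hg j => hg _ (q.zW j))
    ((Nat.le_of_dvd (Nat.pos_of_ne_zero hfi.1) (Subgroup.relIndex_dvd_index_of_normal _ H)).trans hc)
    hb (fun g => q.hu g g.2) (fun g => q.star g g.2)
    ⟨fun h hh => gp.mon h ⟨h.2, hh⟩, fun h hh => gp.oth h ⟨h.2, hh⟩,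
      fun h hh h' hh' => gp.pair h ⟨h.2, hh⟩ h' ⟨h'.2, hh'⟩⟩
  have hC := isPoint_fix (N := (Kr (LG K) W).subgroupOf H) q.pt (fun g => hst g) hO
    fun g hg => (hN g).1 hg
  have hmW : ∀ x, LMon A z x → x ∈ W := fun x ⟨c, hc⟩ => by
    have := mul_mem (hAW _ hc.1) (mn_mem_field q.zW c)
    rwa [div_mul_cancel₀ _ (mn_ne_zero hz c)] at this
  have rat : ∀ x, (∀ g : H, g • x = x) → LMon A z x → ∃ ω, Ra k K₀ ω ∧ Un A (ω / x) :=
    fun x hx hm =>
      let ⟨N, s, h1, h2, h3⟩ := ful_mn q.ful hm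
      hInv K₀ K W D A x s N q.gl q.le q.gw q.fg hDW q.Dst q.pt q.rt (hmW x hm)
        (fun g hg => hx ⟨g, hg⟩) h1 h2 h3
  have ind : ∀ a, Un A (mn y a) → a = 0 := fun a ha =>
    le_antisymm (neg_nonneg.1 (q.pos _ (by rw [mn_neg]; exact ha.2.2))) (q.pos a ha.1)
  have indp : ∀ (i : ℕ) a, Un A (mn y a ^ p ^ i) → a = 0 := fun i a ha => ind a (by
    have h1 : ∀ x : L, x ^ p ^ i ∈ A → LMon A z x → x ∈ A := fun x hx hm =>
      IsPoint.mem_of_isIntegral q.pt (hmW x hm)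
        (IsIntegral.of_pow (pow_pos hp0 i) (isIntegral_of_mem hx))
    have h2 := lmon_mn hz (fun j => (q.ym j).2) a
    exact ⟨h1 _ ha.1 h2, h2.ne_zero, h1 _ (by rw [inv_pow]; exact ha.2.2) h2.inv⟩)
  have hf : ∀ j, ∃ f, (∀ g : H, g • f = f) ∧ LMon A z f ∧ Un A (f / y j ^ p ^ m) := fun j => by
    obtain ⟨c, hc⟩ := (q.ym j).2
    obtain ⟨f, h1, h2⟩ := w5 c fun g => triv_of_un hl q.rt hO (un_symm hc) (q.ytr j g g.2)
    exact ⟨f, h1, ⟨_, by rw [mn_smul, zpow_natCast]; exact h2⟩,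
      un_trans h2 (un_pow (un_symm hc) _)⟩
  choose f f1 f2 f3 using hf
  obtain ⟨s, t, hs, t1, t2⟩ := hCen (fix H A) n r w f hC.lcl (q.rt.of_le (fix_le A)) w2
    (fun j => w4 _ (f1 j) (f2 j)) fun a ha => indp m a (by
      have := un_of_un (un_symm (un_mn_of_un f3 a)) (ha.mono (fix_le A))
      rwa [mn_pw] at this)
  set F : Set L := {f | Nu A f ∧ LMon A z f ∧ Ra k K₀ f}
  obtain ⟨t', t3, t4⟩ := hDesc (LG K) n s W (icl W D) A F t hfi hst aff
    (fun f hf => ⟨hf.1, fun g => hf.2.2 g (fx g)⟩) t1 fun x hx =>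
      Submodule.span_le.2 (by
        rintro μ (⟨h1, h2, c, rfl⟩ | h1)
        · obtain ⟨c', hc'⟩ := lmon_mn hz w3 c
          obtain ⟨ω, h3, h4⟩ := rat _ h1.2 ⟨c', hc'⟩
          have h5 : ω ∈ F := ⟨⟨mem_of_un h4 h1.1, fun U => h2 (un_fix
            (un_of_un (un_symm h4) U) h1.2)⟩, ⟨c', un_trans h4 hc'⟩, h3⟩
          refine mem_of_dv (fun e => h4.2.1 (by rw [e, zero_div])) ⟨(un_symm h4).1, fun g => ?_⟩
            (Submodule.subset_span (Or.inl h5))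
          rw [smul_div₀', h1.2 g]
          exact congrArg _ (h3 _ (fx g))
        · exact Submodule.subset_span (Or.inr h1)) (t2 x hx)
  have aq := hAfq (LG K) n W (icl W D) A hfi hst aff
  obtain ⟨e, he⟩ := q.uni
  have root : ∀ (i : ℕ), ∀ x ∈ W, x ^ p ^ i ∈ A → x ∈ A := fun i x hx h =>
    IsPoint.mem_of_isIntegral q.pt hx (IsIntegral.of_pow (pow_pos hp0 i) (isIntegral_of_mem h))
  obtain ⟨v, v1, v2⟩ := hLat K₀ W A r e (m + e) y (fun j => (q.ym j).2.ne_zero) ind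
    (fun x hx h => root 1 x hx (by rwa [pow_one])) fun j => by
      obtain ⟨ω, h1, h2⟩ := rat _ (f1 j) (f2 j)
      obtain ⟨c, hc⟩ := f2 j
      refine ⟨ω, hmW _ ⟨c, un_trans h2 hc⟩, h1, ?_⟩
      rw [pow_add, pow_mul]
      exact un_pow (un_trans h2 (f3 j)) _
  have v0 : ∀ j, v j ≠ 0 := fun j e0 => (v1 j).2.2.2.1 (by
    rw [e0, zero_pow (pow_pos hp0 _).ne', zero_pow (pow_pos hp0 _).ne', zero_div])
  set R := fix (LG K) A
  obtain ⟨r1, ⟨D', r2⟩, r3, r4⟩ := hReg n r s (m + e) (fixF (LG K) W) _ R v t' F aq hs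
    (fun j => ⟨⟨root e _ (v1 j).2.1 (mem_of_un (v1 j).2.2 (pow_mem (q.ym j).1 _)), fun g => by
      rw [smul_pow']; exact congrArg (· ^ _) ((v1 j).1 _ (fx g))⟩, fun U => by
        have := indp (m + e) (Pi.single j 1) (by
          rw [mn_single, zpow_one]
          exact un_of_un (un_symm (v1 j).2.2) ((U.mono (fix_le A)).pow _))
        simpa using congrFun this j⟩) t3 t4 (by
      rintro f ⟨h1, ⟨c, hc⟩, h2⟩
      have h0 : f ≠ 0 := LMon.ne_zero ⟨c, hc⟩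
      obtain ⟨a, ha⟩ := he c fun g hg => triv_of_un hl q.rt hO (g := ⟨g, hg⟩) (un_symm hc) (by
        rw [dp, show (⟨g, hg⟩ : H) • f = f from h2 _ (fx g), div_self h0, sub_self]
        exact (zero_mem _ : _ ∈ mx hl))
      have h3 := un_trans (un_pow hc _) ha
      have h4 := v2 f (hAW f h1.1) a h2 h3
      have h5 := q.pos a (mem_of_un (un_symm h3) (pow_mem h1.1 _))
      have h6 : a ≠ 0 := by
        rintro rfl
        rw [mn_zero, div_one] at h4
        exact h1.2 h4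
      obtain ⟨j, hj⟩ := Function.ne_iff.1 h6
      refine mem_of_dv (mn_ne_zero v0 a) ((le_sup_left : R ≤ _) ⟨h4.1, fun g => ?_⟩)
        (Submodule.span_mono (Set.singleton_subset_iff.2 (Set.mem_range_self j)) (mn_mem_span
          (fun j => ⟨(le_sup_right : Algebra.adjoin k (Set.range v) ≤ _)
            (Algebra.subset_adjoin (Set.mem_range_self j)), v0 j⟩)
          (fun j _ => h5 j) (lt_of_le_of_ne (h5 j) hj.symm)))
      rw [smul_div₀']
      exact congrArg₂ _ (h2 _ (fx g)) (ra_mn (fun j => (v1 j).1) a _ (fx g)))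
  refine ⟨fixF (LG K) W ⊔ IntermediateField.adjoin k (Set.range v), m + e + e₀, D', _,
    le_sup_of_le_left fun x hx => ⟨q.le hx, fun g => g.2 x hx⟩, fun g hg x hx => ?_,
    fun x => ⟨fun hx => ⟨r2.le_field hx, ?_⟩, fun hx => r4 x hx.1 ?_⟩, r2.fg, r2.pt, r3⟩
  · rw [← IntermediateField.adjoin_self k (fixF (LG K) W), ← IntermediateField.adjoin_union] at hx
    refine field_smul ?_ hx
    rintro x (hx | ⟨j, rfl⟩)
    · refine (le_sup_left : fixF (LG K) W ≤ _) ⟨q.gw.st g hg x hx.1, fun h => ?_⟩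
      have := hx.2 ⟨g⁻¹ * h * g, fun x hx => by
        rw [mul_smul, mul_smul, h.2 _ (q.gl.smul_mem hg hx), inv_smul_smul]⟩
      change (g⁻¹ * (h : SA k L) * g) • x = x at this
      rw [mul_smul, mul_smul, inv_smul_eq_iff] at this
      exact this
    · rw [(v1 j).1 g hg]
      exact (le_sup_right : IntermediateField.adjoin k _ ≤ _)
        (IntermediateField.subset_adjoin k _ ⟨j, rfl⟩)
  · have h1 := r1 x hx
    rw [pow_add, pow_mul]
    exact ⟨pow_mem h1.1 _, he₀ _ (hAW _ h1.1) h1.2⟩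
  · exact IsIntegral.of_pow (pow_pos hp0 _) (isIntegral_of_mem
      ((le_sup_left : R ≤ _) ⟨hx.2.1, fun g => g.2 _ hx.2.2⟩))

end Pool.Agent.MP_19ffc6_ag.Perf.Q
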