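import Pool.Agent.MP_19ffc6_ag.perf.SpecQ
import Pool.Agent.MP_19ffc6_ag.perf.QM

-- ======== part 0: formerly Pool.Agent.MP_19ffc6_ag.perf.QIns
section MrgPart0

/-! PROJECT PERF, row INS: the invariants of the automorphisms over `K` are purely inseparable
over `K`, and the fixer of a finite extension has finite index. -/

namespace Pool.Agent.MP_19ffc6_ag.Perf.Q

open Pool.Agent.R72.Wild Pool.Agent.R72.Lci Pool.Agent.R72.Res Pool.Agent.R72.Res.B
  Pool.Agent.R72.Res.P GD Polynomial

variable {k L : Type} [Field k] [Field L] [Algebra k L]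

namespace Ins

/-- An element of `LG K` as an algebra map over `K`. -/
def alg {K : IntermediateField k L} (g : LG K) : L →ₐ[K] L :=
  { (g : SA k L).e.toRingHom with commutes' := fun c => g.2 c c.2 }

lemma alg_apply {K : IntermediateField k L} (g : LG K) (x : L) : alg g x = g • x := rfl

/-- The orbit of an algebraic element is finite. -/
lemma fin_orb {K : IntermediateField k L} {x : L} (hx : IsAlgebraic K x) :
    (MulAction.orbit (LG K) x).Finite := by
  refine ((minpoly K x).rootSet_finite L).subset ?_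
  rintro _ ⟨g, rfl⟩
  rw [mem_rootSet]
  refine ⟨minpoly.ne_zero hx.isIntegral, ?_⟩
  change aeval (alg g x) _ = 0
  rw [aeval_algHom_apply, minpoly.aeval, map_zero]

lemma fin_stab {K : IntermediateField k L} {x : L} (hx : IsAlgebraic K x) :
    (MulAction.stabilizer (LG K) x).FiniteIndex := by
  refine ⟨?_⟩
  rw [MulAction.index_stabilizer]
  exact ((Set.ncard_pos (fin_orb hx)).2 (MulAction.nonempty_orbit x)).ne'

/-- Every root of the minimal polynomial is a conjugate. -/
lemma conj [IsAlgClosed L] {K : IntermediateField k L} {x y : L} (hx : IsAlgebraic K x)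
    (hy : aeval y (minpoly K x) = 0) : ∃ g : LG K, g • x = y := by
  have hy' : IsAlgebraic K y := ⟨_, minpoly.ne_zero hx.isIntegral, hy⟩
  let N := algebraicClosure K L
  let x' : N := ⟨x, mem_algebraicClosure_iff.2 hx⟩
  let y' : N := ⟨y, mem_algebraicClosure_iff.2 hy'⟩
  have h1 : minpoly K x' = minpoly K x := IntermediateField.minpoly_eq x'
  obtain ⟨σ, hσ⟩ := minpoly.exists_algEquiv_of_root' (K := K) (x := y') (y := x')
    (Algebra.IsAlgebraic.isAlgebraic x') (by
      apply Subtype.ext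
      rw [h1]
      exact (aeval_algHom_apply N.val y' (minpoly K x)).symm.trans hy)
  obtain ⟨g, hg⟩ := Kit.extStmt K N σ
  refine ⟨⟨g, fun c hc => ?_⟩, (hg x').trans (congrArg Subtype.val hσ)⟩
  exact (hg ⟨c, N.algebraMap_mem ⟨c, hc⟩⟩).trans (congrArg Subtype.val (σ.commutes ⟨c, hc⟩))

/-- A fixed algebraic element is purely inseparable. -/
lemma pow_mem' (p : ℕ) [Fact p.Prime] [CharP k p] [IsAlgClosed L] {K : IntermediateField k L}
    {x : L} (hx : IsAlgebraic K x) (hf : ∀ g : LG K, g • x = x) {e : ℕ}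
    (he : (minpoly K x).natDegree ≤ e) : x ^ p ^ e ∈ K := by
  classical
  have hp : p.Prime := Fact.out
  have : CharP K p := charP_of_injective_algebraMap (algebraMap k K).injective p
  have : ExpChar K p := ExpChar.prime hp
  have h1 : (minpoly K x).natSepDegree = 1 := by
    rw [natSepDegree_eq_of_isAlgClosed L, Finset.card_eq_one]
    refine ⟨x, Finset.eq_singleton_iff_unique_mem.2 ⟨?_, fun y hy => ?_⟩⟩
    · rw [Multiset.mem_toFinset, mem_aroots]
      exact ⟨minpoly.ne_zero hx.isIntegral, minpoly.aeval _ _⟩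
    · rw [Multiset.mem_toFinset, mem_aroots] at hy
      obtain ⟨g, rfl⟩ := conj hx hy.2
      exact hf g
  obtain ⟨n, y, h2⟩ := (minpoly.natSepDegree_eq_one_iff_eq_X_pow_sub_C p).1 h1
  have h3 : x ^ p ^ n = y := by
    have := minpoly.aeval K x
    rw [h2, map_sub, map_pow, aeval_X, aeval_C, sub_eq_zero] at this
    exact this
  have h4 : n ≤ e := by
    rw [h2, natDegree_X_pow_sub_C] at he
    exact ((Nat.lt_pow_self hp.one_lt).le).trans he
  obtain ⟨d, rfl⟩ := Nat.exists_eq_add_of_le h4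
  rw [pow_add, pow_mul, h3]
  exact pow_mem y.2 _

end Ins

/-- Row INS. -/
theorem insQ (p : ℕ) [Fact p.Prime] [CharP k p] [IsAlgClosed L] : InsStmt k L p := by
  intro K W hKW hW ha
  obtain ⟨S, hS⟩ := hW
  have hSW : ∀ s ∈ S, s ∈ W := fun s hs => hS ▸ IntermediateField.subset_adjoin k _ hs
  constructor
  · have := Subgroup.finiteIndex_iInf' (s := S) (fun s => MulAction.stabilizer (LG K) s)
      fun s hs => Ins.fin_stab (ha s (hSW s hs))
    refine Subgroup.finiteIndex_of_le (H := ⨅ s ∈ S, MulAction.stabilizer (LG K) s) fun g hg => ?_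
    simp only [Subgroup.mem_iInf, MulAction.mem_stabilizer_iff] at hg
    intro x hx
    rw [← hS] at hx
    induction hx using IntermediateField.adjoin_induction with
    | mem x hx => exact hg x hx
    | algebraMap c => exact g.2 _ (K.algebraMap_mem c)
    | add x y _ _ h1 h2 => rw [smul_add, h1, h2]
    | inv x _ h1 => rw [smul_inv'', h1]
    | mul x y _ _ h1 h2 => rw [smul_mul', h1, h2]
  · let W' := IntermediateField.adjoin K (S : Set L)
    have : FiniteDimensional K W' :=
      IntermediateField.finiteDimensional_adjoin fun s hs => (ha s (hSW s hs)).isIntegral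
    have : Module.Free K W' := Module.Free.of_divisionRing K W'
    have h1 : W ≤ W'.restrictScalars k := by
      rw [← hS]
      exact IntermediateField.adjoin_le_iff.2 (IntermediateField.subset_adjoin K _)
    refine ⟨Module.finrank K W', fun x hx hf => Ins.pow_mem' p (ha x hx) hf ?_⟩
    exact (congrArg natDegree (IntermediateField.minpoly_eq (⟨x, h1 hx⟩ : W'))).ge.trans
      (minpoly.natDegree_le _)

end Pool.Agent.MP_19ffc6_ag.Perf.Q

end MrgPart0

-- ======== part 1: formerly Pool.Agent.MP_19ffc6_ag.perf.QReg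
section MrgPart1

/-! PROJECT PERF, row REG: the point becomes regular when the roots are adjoined. -/

namespace Pool.Agent.MP_19ffc6_ag.Perf.Q

open Pool.Agent.R72.Wild Pool.Agent.R72.Lci Pool.Agent.R72.Res Pool.Agent.R72.Res.B
  Pool.Agent.R72.Res.P GD

variable {k L : Type} [Field k] [Field L] [Algebra k L]

namespace RegA

/-- The field of fractions of a subalgebra. -/
def fr (D : Subalgebra k L) : IntermediateField k L where
  carrier := {x | ∃ b ∈ D, b ≠ 0 ∧ b * x ∈ D}
  mul_mem' := by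
    rintro x y ⟨b, hb, h0, h⟩ ⟨b', hb', h0', h'⟩
    exact ⟨b * b', mul_mem hb hb', mul_ne_zero h0 h0', by
      rw [mul_mul_mul_comm]; exact mul_mem h h'⟩
  add_mem' := by
    rintro x y ⟨b, hb, h0, h⟩ ⟨b', hb', h0', h'⟩
    exact ⟨b * b', mul_mem hb hb', mul_ne_zero h0 h0', by
      rw [show b * b' * (x + y) = b * x * b' + b * (b' * y) by ring]
      exact add_mem (mul_mem h hb') (mul_mem hb h')⟩
  algebraMap_mem' r := ⟨1, one_mem _, one_ne_zero, by rw [one_mul]; exact D.algebraMap_mem r⟩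
  inv_mem' := by
    rintro x ⟨b, hb, h0, h⟩
    rcases eq_or_ne x 0 with rfl | hx
    · exact ⟨1, one_mem _, one_ne_zero, by simp⟩
    · exact ⟨b * x, h, mul_ne_zero h0 hx, by rwa [mul_inv_cancel_right₀ hx]⟩

variable (p : ℕ) [Fact p.Prime] [CharP L p] (m : ℕ)

/-- The elements with `p ^ m`-th power in `R`. -/
def rad (R : Subalgebra k L) : Subalgebra k L where
  carrier := {x | x ^ p ^ m ∈ R}
  mul_mem' := fun {x y} hx hy => by
    change (x * y) ^ p ^ m ∈ R
    rw [mul_pow]; exact mul_mem hx hy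
  add_mem' := fun {x y} hx hy => by
    change (x + y) ^ p ^ m ∈ R
    rw [add_pow_char_pow]; exact add_mem hx hy
  algebraMap_mem' c := pow_mem (R.algebraMap_mem c) _

/-- The elements with `p ^ m`-th power in `E`. -/
def radF (E : IntermediateField k L) : IntermediateField k L :=
  (rad p m E.toSubalgebra).toIntermediateField fun x hx => by
    change x⁻¹ ^ p ^ m ∈ E
    rw [inv_pow]; exact E.inv_mem hx

variable {p m}

lemma un_of_pow {O : Subalgebra k L} {x : L} {q : ℕ} (hq : q ≠ 0) (hx : x ∈ O)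
    (h : Un O (x ^ q)) : Un O x := by
  obtain ⟨j, rfl⟩ := Nat.exists_eq_succ_of_ne_zero hq
  rw [pow_succ'] at h
  exact Un.of_mul hx (pow_mem hx _) h

variable {R O : Subalgebra k L}

lemma un_iff (h1 : R ≤ O) (h2 : O ≤ rad p m R) {x : L} (hx : x ∈ O) :
    Un O x ↔ Un R (x ^ p ^ m) :=
  ⟨fun h => ⟨h2 hx, pow_ne_zero _ h.2.1, by rw [← inv_pow]; exact h2 h.2.2⟩,
    fun h => un_of_pow (pow_ne_zero _ (Fact.out : p.Prime).ne_zero) hx (h.mono h1)⟩

lemma un_down (h1 : R ≤ O) (h2 : O ≤ rad p m R) {x : L} (hx : x ∈ R) (h : Un O x) : Un R x :=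
  un_of_pow (pow_ne_zero _ (Fact.out : p.Prime).ne_zero) hx ((un_iff h1 h2 (h1 hx)).1 h)

lemma lcl (h1 : R ≤ O) (h2 : O ≤ rad p m R) (hl : Lcl R) : Lcl O := fun x hx y hy h => by
  rw [un_iff h1 h2 (add_mem hx hy), add_pow_char_pow] at h
  rw [un_iff h1 h2 hx, un_iff h1 h2 hy]
  exact hl _ (h2 hx) _ (h2 hy) h

omit [Fact p.Prime] [CharP L p] in
lemma split (R : Subalgebra k L) (S : Set L) {x : L} (hx : x ∈ R ⊔ Algebra.adjoin k S) :
    ∃ r ∈ R, x - r ∈ Submodule.span (R ⊔ Algebra.adjoin k S :) S := by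
  set O := R ⊔ Algebra.adjoin k S with hO
  have hR : R ≤ O := le_sup_left
  let T : Subalgebra k L :=
    { carrier := {x | x ∈ O ∧ ∃ r ∈ R, x - r ∈ Submodule.span O S}
      mul_mem' := by
        rintro x y ⟨hx, r, hr, h⟩ ⟨hy, s, hs, h'⟩
        refine ⟨mul_mem hx hy, r * s, mul_mem hr hs, ?_⟩
        rw [show x * y - r * s = x * (y - s) + s * (x - r) by ring]
        exact add_mem (Submodule.smul_mem _ (⟨x, hx⟩ : O) h')
          (Submodule.smul_mem _ (⟨s, hR hs⟩ : O) h)
      add_mem' := by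
        rintro x y ⟨hx, r, hr, h⟩ ⟨hy, s, hs, h'⟩
        refine ⟨add_mem hx hy, r + s, add_mem hr hs, ?_⟩
        rw [add_sub_add_comm]
        exact add_mem h h'
      algebraMap_mem' := fun c =>
        ⟨O.algebraMap_mem c, _, R.algebraMap_mem c, by rw [sub_self]; exact zero_mem _⟩ }
  have : O ≤ T := sup_le (fun r hr => ⟨hR hr, r, hr, by rw [sub_self]; exact zero_mem _⟩)
    (Algebra.adjoin_le fun s hs => ⟨(le_sup_right : _ ≤ O) (Algebra.subset_adjoin hs), 0,
      zero_mem _, by rw [sub_zero]; exact Submodule.subset_span hs⟩)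
  exact (this hx).2

lemma trdeg_rad {E K : IntermediateField k L} (h : E ≤ K) (hK : K ≤ radF p m E) :
    Algebra.trdeg k E = Algebra.trdeg k K := by
  let _ := (IntermediateField.inclusion h).toRingHom.toAlgebra
  have : IsScalarTower k E K := .of_algebraMap_eq fun _ => rfl
  have : IsScalarTower E K L := .of_algebraMap_eq fun _ => rfl
  have : Algebra.IsAlgebraic E K := ⟨fun x => by
    have h1 : IsAlgebraic E ((x : L) ^ p ^ m) :=
      isAlgebraic_algebraMap (⟨_, hK x.2⟩ : E)
    exact (isAlgebraic_algebraMap_iff (algebraMap K L).injective).1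
      (h1.of_pow (pow_pos (Fact.out : p.Prime).pos _))⟩
  rw [← trdeg_add_eq k E (A := K), trdeg_eq_zero (R := E) (A := K), add_zero]

end RegA

open RegA in
theorem regQ (p : ℕ) [Fact p.Prime] [CharP k p] : RegStmt k L p := by
  intro n r s m E D R v t F ha hn hv ht hg hF
  have : CharP L p := charP_of_injective_algebraMap (algebraMap k L).injective p
  set O := R ⊔ Algebra.adjoin k (Set.range v) with hO
  set K := E ⊔ IntermediateField.adjoin k (Set.range v) with hK
  have h1 : R ≤ O := le_sup_left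
  have hvO : ∀ j, v j ∈ O := fun j => (le_sup_right : _ ≤ O) (Algebra.subset_adjoin ⟨j, rfl⟩)
  have hvK : ∀ j, v j ∈ K := fun j =>
    (le_sup_right : _ ≤ K) (IntermediateField.subset_adjoin _ _ ⟨j, rfl⟩)
  have h2 : O ≤ rad p m R := sup_le (fun x hx => pow_mem hx _)
    (Algebra.adjoin_le (by rintro _ ⟨j, rfl⟩; exact (hv j).1))
  have hl : Lcl O := lcl h1 h2 ha.pt.lcl
  have hvn : ∀ x ∈ Set.range v, x ∈ O ∧ ¬ Un O x := by
    rintro _ ⟨j, rfl⟩
    exact ⟨hvO j, fun h => (hv j).2 ((un_iff h1 h2 (hvO j)).1 h)⟩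
  have hsp : ∀ x ∈ Submodule.span O (Set.range v), x ∈ mx hl := fun x hx => by
    refine ⟨?_, not_un_of_mem_span hl hvn hx⟩
    exact (Submodule.span_le (p := Subalgebra.toSubmodule (⊥ : Subalgebra O L))).2
      (fun y hy => ⟨⟨y, (hvn y hy).1⟩, rfl⟩) hx |>.elim fun y hy => hy ▸ y.2
  have hup : ∀ x ∈ R, ¬ Un R x → x ∈ mx hl := fun x hx hu =>
    ⟨h1 hx, fun h => hu (un_down h1 h2 hx h)⟩
  have hrt : Rt O := fun x hx => by
    obtain ⟨y, hy, h⟩ := split R _ hx
    obtain ⟨c, hc⟩ := ha.rt y hy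
    refine ⟨c, ?_⟩
    have := add_mem (hsp _ h) (hup _ (sub_mem hy (R.algebraMap_mem c)) hc)
    rw [sub_add_sub_cancel] at this
    exact this.2
  have hgen : ∀ x ∈ O, ¬ Un O x → x ∈ Submodule.span O (Set.range (Sum.elim v t)) := by
    intro x hx hu
    obtain ⟨y, hy, h⟩ := split R _ hx
    have h3 : y ∈ mx hl := by
      have := sub_mem (⟨hx, hu⟩ : x ∈ mx hl) (hsp _ h)
      rwa [sub_sub_cancel] at this
    have h4 := hg y ⟨hy, fun h => h3.2 (h.mono h1)⟩
    rw [Set.Sum.elim_range]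
    have h5 : Submodule.span O (Set.range v) ≤ Submodule.span O (Set.range v ∪ Set.range t) :=
      Submodule.span_mono Set.subset_union_left
    have h6 : y ∈ Submodule.span O (Set.range v ∪ Set.range t) :=
      span_le_span h1 (fun f hf => hf.elim (fun hf => h5 (hF f hf))
        fun hf => Submodule.subset_span (Or.inr hf)) h4
    have := add_mem (h5 h) h6
    rwa [sub_add_cancel] at this
  let D' := D ⊔ Algebra.adjoin k (Set.range v)
  have hvD : ∀ j, v j ∈ D' := fun j => (le_sup_right : _ ≤ D') (Algebra.subset_adjoin ⟨j, rfl⟩)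
  have hDO : D' ≤ O := sup_le_sup_right ha.pt.le _
  have ha' : Aff n K D' O := by
    refine ⟨?_, ?_, ?_, ?_, ⟨hDO, hl, ?_⟩, hrt⟩
    · rw [← ha.deg]
      refine (trdeg_rad (p := p) (m := m) le_sup_left (sup_le (fun x hx => pow_mem hx _)
        (IntermediateField.adjoin_le_iff.2 ?_))).symm
      rintro _ ⟨j, rfl⟩
      exact ha.le_field (hv j).1
    · exact ha.fg.sup (Subalgebra.fg_def.2 ⟨_, Set.finite_range v, rfl⟩)
    · exact (sup_le (fun x hx => (le_sup_left : _ ≤ K) (ha.le x hx))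
        (Algebra.adjoin_le (by rintro _ ⟨j, rfl⟩; exact hvK j)) : D' ≤ K.toSubalgebra)
    · refine (sup_le (fun x hx => ?_) (IntermediateField.adjoin_le_iff.2 ?_) : K ≤ fr D')
      · obtain ⟨b, hb, h0, h⟩ := ha.frac x hx
        exact ⟨b, (le_sup_left : _ ≤ D') hb, h0, (le_sup_left : _ ≤ D') h⟩
      · rintro _ ⟨j, rfl⟩
        exact ⟨1, one_mem _, one_ne_zero, by rw [one_mul]; exact hvD j⟩
    · refine sup_le (fun x hx => ?_) (le_sup_right.trans (le_loc D' O))
      obtain ⟨a, ha1, b, hb, hu, rfl⟩ := ha.pt.le_loc hx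
      exact ⟨a, (le_sup_left : _ ≤ D') ha1, b, (le_sup_left : _ ≤ D') hb, hu.mono h1, rfl⟩
  have hw : ∀ i, Sum.elim v t i ∈ O ∧ ¬ Un O (Sum.elim v t i) := by
    rintro (j | j)
    exacts [hvn _ ⟨j, rfl⟩, hup _ (ht j).1 (ht j).2]
  obtain ⟨hi, hsf⟩ := ha'.of_gen (by simpa using hn) hw hgen
  have : Algebra.FormallySmooth k (Algebra.adjoin k (Set.range (Sum.elim v t))) :=
    .of_equiv hi.aevalEquiv
  have : IsIntegrallyClosed (Algebra.adjoin k (Set.range (Sum.elim v t))) :=
    .of_equiv hi.aevalEquiv.toRingEquiv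
  have : IsIntegrallyClosed O := normal_of_par (S := Set.range (Sum.elim v t)) ha'.fg ha'.pt hsf.le
    (by rintro _ ⟨i, rfl⟩; exact ⟨Algebra.subset_adjoin ⟨i, rfl⟩, (hw i).2⟩)
    fun x hx => (hrt x hx).imp fun c hc => hgen _ (sub_mem hx (O.algebraMap_mem c)) hc
  refine ⟨h2, ⟨D', ha'⟩, hsf.formallySmooth, fun x hx hint => ?_⟩
  obtain ⟨b, hb, h0, h⟩ := ha'.frac x hx
  exact mem_of_integral (hDO hb) h0 (hDO h) hint

end Pool.Agent.MP_19ffc6_ag.Perf.Q

end MrgPart1

-- marker of a merged file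
example : 731051 + 532788 = 731051 + 532788 := rfl
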