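import Pool.Agent.MP_19ffc6_ag.perf.WQ
import Pool.Agent.MP_19ffc6_ag.perf.SpecQ
import Pool.Agent.MP_19ffc6_ag.perf.TQ
import Pool.Agent.MP_19ffc6_ag.perf.QAfq
import Pool.Agent.MP_19ffc6_ag.perf.QReg
import Pool.Agent.MP_19ffc6_ag.perf.QGlue

-- ======== part 0: formerly Pool.Agent.MP_19ffc6_ag.perf.QWq
section MrgPart0

/-! PROJECT PERF, row WQ. -/

namespace Pool.Agent.MP_19ffc6_ag.Perf.Q

open Pool.Agent.R72.Wild Pool.Agent.R72.Lci Pool.Agent.R72.Res Pool.Agent.R72.Res.B GD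

variable {k L : Type} [Field k] [Field L] [Algebra k L]

theorem wq (p : ℕ) [Fact p.Prime] [CharP k p] : WqStmt k L p := by
  intro G _ _ _ N _ _ D O n z dir a b c hfg hp hr hD hO hf hN hz hc hb hu star gp
  have hl := hp.lcl
  have hI := fun x (hx : x ∈ nI O z) => nI_mx hl hx
  obtain ⟨z₁, α, β, m, -, h1, h2, -, h3, -, h4, h5⟩ := GD.wq (p := p) hfg hp hr hD hO hf
    (fun g hg => (hN g).1 hg) hz (fun g hg _ => (hN g).2 fun x hx => hg x (hp.le hx)) hu
    star dir hc hb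
    (fun h hh hm => ⟨(gp.mon h ⟨hh, hm⟩).1, (gp.mon h ⟨hh, hm⟩).2.2⟩)
    (fun h hh hm => gp.oth h ⟨hh, hm⟩) fun h hh hm h' hh' hm' => gp.pair h ⟨hh, hm⟩ h' ⟨hh', hm'⟩
  have h6 : ∀ c, Un O (mn z₁ c / mn z fun j => (p ^ α j : ℕ) * c j) := fun c => by
    have := un_mn_of_un (fun j => one_un hl hI (h1 j)) c
    simpa only [mn, ← zpow_natCast, ← zpow_mul] using this
  refine ⟨_, fun g j => (h3 _).2 ⟨Pi.single j 1, Matrix.single_one_vecMul j β⟩ g, h4, fun j => ⟨_, h6 _⟩, h5,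
    ∑ j, α j, fun c hc => ?_⟩
  have h7 := h6 fun j => (p ^ (∑ j, α j - α j) : ℕ) * c j
  have h8 : (fun j => ((p ^ α j : ℕ) : ℤ) * ((p ^ (∑ j, α j - α j) : ℕ) * c j)) =
      ((p ^ ∑ j, α j : ℕ) : ℤ) • c := funext fun j => by
    rw [← mul_assoc, ← Nat.cast_mul, ← pow_add, Nat.add_sub_cancel'
      (Finset.single_le_sum (fun _ _ => Nat.zero_le _) (Finset.mem_univ j))]; rfl
  rw [h8, mn_smul, zpow_natCast] at h7
  refine ⟨_, fun g => ?_, h7⟩
  obtain ⟨e, he⟩ := eigen_mn h2 g fun j => (p ^ (∑ j, α j - α j) : ℕ) * c j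
  set f := mn z₁ fun j => (p ^ (∑ j, α j - α j) : ℕ) * c j
  have h0 := mn_ne_zero hf.ne c
  have f0 : f ≠ 0 := fun e => h7.2.1 (by rw [e, zero_div])
  let M : Submodule O L := Submodule.span O (mx hl)
  have hM : ∀ x ∈ M, x ∈ mx hl := fun x hx => span_mx hl le_rfl (fun _ h => h) hx
  obtain ⟨d, hd⟩ := hr.mx hl h7.1
  have h9 := mx_mul hl h7.2.2 (sub_mem (mx_sm hl hO g hd) hd)
  rw [smul_sub, smul_alg, sub_sub_sub_cancel_right, mul_sub, inv_mul_cancel₀ h7.2.1] at h9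
  have h10 := hM _ (one_mul' hl hM (Submodule.subset_span h9)
    (one_pow' hl hM (Submodule.subset_span (hc g : _ ∈ mx hl)) (p ^ ∑ j, α j)))
  have h11 := (smul_ne_zero_iff_ne g).2 h0
  have h12 : e = 1 := const_eq hl (x := algebraMap k L e) (by simp) (by
    convert h10 using 1
    rw [smul_div₀', smul_pow', he, Algebra.smul_def, map_one, div_pow]; field_simp)
  rw [he, h12, one_smul]

end Pool.Agent.MP_19ffc6_ag.Perf.Q

end MrgPart0

-- ======== part 1: formerly Pool.Agent.MP_19ffc6_ag.perf.QInv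
section MrgPart1

/-! PROJECT PERF, the local quotient, row INV: rational generators of rational divisors. -/

namespace Pool.Agent.MP_19ffc6_ag.Perf.Q

open Pool.Agent.R72.Wild Pool.Agent.R72.Lci Pool.Agent.R72.Res Pool.Agent.R72.Res.B
  Pool.Agent.R72.Res.P GD

variable {k L : Type} [Field k] [Field L] [Algebra k L]

namespace InvA

section Grp

variable {G : Type} [Group G] [MulSemiringAction G L] [SMulCommClass G k L]
  {W : IntermediateField k L} {D A : Subalgebra k L}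

/-- An element that preserves the units stabilises the point. -/
lemma mem_sb (hp : IsPoint D A) (hr : Rt A) (hD : ∀ g : G, ∀ x ∈ D, g • x ∈ D) {g : G}
    (h : ∀ x ∈ D, Un A x → Un A (g • x)) : g ∈ Sb G A := by
  have h' : ∀ x ∈ D, Un A (g • x) → Un A x := fun x hx hu => by
    by_contra hn
    obtain ⟨c, hc⟩ := hr.mx hp.lcl (hu.1)
    have hc0 : c ≠ 0 := fun e => hc.2 (by simpa [e] using hu)
    have h1 : Un A (x - algebraMap k L c) :=
      un_of_sub hp.lcl (un_neg (un_alg A hc0)) (by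
        simpa using (show x ∈ mx hp.lcl from ⟨hp.le hx, hn⟩))
    have h2 := h _ (sub_mem hx (D.algebraMap_mem c)) h1
    rw [smul_sub, smul_algebraMap] at h2
    exact hc.2 h2
  refine fun x => ⟨fun hx => ?_, fun hx => ?_⟩
  · obtain ⟨a, ha, b, hb, hu, e⟩ := hp.le_loc hx
    rw [← inv_smul_smul g x, e, smul_div₀', div_eq_mul_inv]
    exact mul_mem (hp.le (hD _ a ha)) (h' _ (hD _ b hb) (by rwa [smul_inv_smul])).2.2
  · obtain ⟨a, ha, b, hb, hu, rfl⟩ := hp.le_loc hx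
    rw [smul_div₀', div_eq_mul_inv]
    exact mul_mem (hp.le (hD _ a ha)) (h b hb hu).2.2

omit [SMulCommClass G k L] in
lemma kr_le (hA : ∀ x ∈ A, x ∈ W) : Kr G W ≤ Sb G A := fun g hg x =>
  ⟨fun hx => by
    have := (Kr G W).inv_mem hg _ (hA _ hx)
    rw [inv_smul_smul] at this
    rwa [this], fun hx => by rwa [hg x (hA x hx)]⟩

/-- A unit that vanishes at the other points of the orbit. -/
lemma exists_sep [(Kr G W).FiniteIndex] (hp : IsPoint D A) (hr : Rt A)
    (hD : ∀ g : G, ∀ x ∈ D, g • x ∈ D) (hW : ∀ x ∈ D, x ∈ W) :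
    ∃ θ ∈ D, Un A θ ∧ ∀ g : G, g ∉ Sb G A → g • θ ∈ mx hp.lcl := by
  classical
  have := Fintype.ofFinite (G ⧸ Kr G W)
  have H : ∀ g : G, ∃ θ ∈ D, Un A θ ∧ (g ∉ Sb G A → ¬ Un A (g • θ)) := fun g => by
    by_contra H
    push Not at H
    exact (H 1 (one_mem _) (Un.one _)).1 (mem_sb hp hr hD fun x hx hu => (H x hx hu).2)
  choose θ h1 h2 h3 using H
  refine ⟨∏ q : G ⧸ Kr G W, θ q.out, prod_mem fun q _ => h1 _, un_prod _ _ fun q _ => h2 _,
    fun g hg => ?_⟩
  obtain ⟨m, hm⟩ := QuotientGroup.mk_out_eq_mul (Kr G W) g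
  have hm' := kr_le (G := G) (fun x hx => R72.Res.IsPoint.le_field hp hW hx) m.2
  rw [← Finset.mul_prod_erase _ _ (Finset.mem_univ (g : G ⧸ Kr G W)), smul_mul']
  refine mul_mem_mx _ ⟨hp.le (hD _ _ (h1 _)), ?_⟩ (hp.le (hD _ _ (prod_mem fun q _ => h1 _)))
  have h4 := h3 (g : G ⧸ Kr G W).out (by
    rw [hm]; exact fun e => hg ((Subgroup.mul_mem_cancel_right _ hm').1 e))
  generalize hθ : θ (g : G ⧸ Kr G W).out = t at h4 ⊢
  rwa [hm, mul_smul, m.2 t (hW t (hθ ▸ h1 _))] at h4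

/-- Denominators that are fixed by the stabiliser. -/
lemma exists_den' [(Kr G W).FiniteIndex] (hp : IsPoint D A) (hD : ∀ g : G, ∀ x ∈ D, g • x ∈ D)
    (hW : ∀ x ∈ D, x ∈ W) {x : L} (hx : x ∈ A) :
    ∃ b ∈ D, (∀ g ∈ Sb G A, g • b = b) ∧ Un A b ∧ x * b ∈ D := by
  obtain ⟨b, h1, h2, h3⟩ := exists_den (G := Sb G A) (N := (Kr G W).subgroupOf (Sb G A)) hp
    (fun g => hD g) (fun g y hy => (g.2 y).2 hy) (fun g hg y hy => hg y (hW y hy)) hx
  exact ⟨b, h1.1, fun g hg => h1.2 ⟨g, hg⟩, h2, h3⟩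

/-- The same, fixed by the stabiliser. -/
lemma exists_sep' [(Kr G W).FiniteIndex] (hp : IsPoint D A) (hr : Rt A)
    (hD : ∀ g : G, ∀ x ∈ D, g • x ∈ D) (hW : ∀ x ∈ D, x ∈ W) :
    ∃ θ ∈ D, (∀ g ∈ Sb G A, g • θ = θ) ∧ Un A θ ∧ ∀ g : G, g ∉ Sb G A → g • θ ∈ mx hp.lcl := by
  obtain ⟨θ, h1, h2, h3⟩ := exists_sep (W := W) hp hr hD hW
  obtain ⟨b, b1, b2, b3, b4⟩ := exists_den' (W := W) hp hD hW h2.2.2
  refine ⟨b, b1, b2, b3, fun g hg => ?_⟩
  rw [← mul_inv_cancel_left₀ h2.2.1 b, smul_mul']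
  exact mul_mem_mx _ (h3 g hg) (hp.le (hD _ _ b4))

omit [SMulCommClass G k L] in
/-- The sum of an orbit. -/
lemma exists_sum [(Kr G W).FiniteIndex] (hl : Lcl A) {u w : L} (hu : u ∈ W) (h1 : Un A (u / w))
    (h2 : ∀ g : G, g • u = u ∨ g • u / w ∈ mx hl) :
    ∃ Ω : Finset L, (∀ y ∈ Ω, ∃ g : G, g • u = y) ∧ Un A ((∑ y ∈ Ω, y) / w) ∧
      ∀ g : G, g • ∑ y ∈ Ω, y = ∑ y ∈ Ω, y := by
  classical
  obtain ⟨Ω, a1, a2, a3⟩ := orb_fin (N := Kr G W) (x := u) fun g hg => hg u hu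
  refine ⟨Ω, a2, un_of_sub hl h1 ?_, fun g => ?_⟩
  · rw [← Finset.add_sum_erase Ω _ a1, add_div, add_sub_cancel_left, Finset.sum_div]
    refine sum_mem fun y hy => ?_
    obtain ⟨g, rfl⟩ := a2 y (Finset.mem_of_mem_erase hy)
    exact (h2 g).resolve_left (Finset.ne_of_mem_erase hy)
  · rw [Finset.smul_sum]
    exact a3 g (Multiplicative L) Multiplicative.ofAdd

end Grp

variable {K₀ : Subfield L} {K W : IntermediateField k L} {D A : Subalgebra k L}

lemma alg_up (h : Gl K₀ K) {x : L} (hx : IsAlgebraic K₀ x) : IsAlgebraic K x := by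
  let _ : Algebra K₀ K :=
    (Subfield.inclusion (S := K₀) (T := K.toSubfield) fun _ hy => h.mem hy).toAlgebra
  have : IsScalarTower K₀ K L := .of_algebraMap_eq fun _ => rfl
  exact hx.tower_top K

lemma icl_st (hW : Gw K₀ W) (hD : ∀ g : SA k L, Fx K₀ g → ∀ x ∈ D, g • x ∈ D) (g : SA k L)
    (hg : Fx K₀ g) (x : L) (hx : x ∈ icl W D) : g • x ∈ icl W D :=
  ⟨hW.st g hg x hx.1, isIntegral_mono
    (fun y hy => smul_inv_smul g y ▸ hD g hg _ hy) (integral_smul.2 (mem_icl.1 hx).2)⟩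

/-- Descent of a generator whose `q`-th power lies in `K`. -/
lemma desc (p e : ℕ) [Fact p.Prime] [CharP k p] [IsAlgClosed k] (h : Gl K₀ K) (hl : Lcl A)
    {v w : L} (hK : v ^ p ^ e ∈ K) (hu : Un A (v / w))
    (hv : ∀ g : SA k L, Fx K₀ g → g • v / w ∈ A) : ∃ ω, Ra k K₀ ω ∧ Un A (ω / w) := by
  have : CharP L p := charP_of_injective_algebraMap (algebraMap k L).injective p
  have hq : 0 < p ^ e := pow_pos (Fact.out : p.Prime).pos e
  have hw : w ≠ 0 := fun e => hu.2.1 (by rw [e, div_zero])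
  have hv0 : v ≠ 0 := fun e => hu.2.1 (by rw [e, zero_div])
  let V := Submodule.span k {x | ∃ g : SA k L, Fx K₀ g ∧ x = g • v ^ p ^ e}
  have h1 : ∀ x ∈ V, x ∈ K ∧ ∃ y, y ^ p ^ e = x ∧ y / w ∈ A := fun x hx => by
    induction hx using Submodule.span_induction with
    | mem x hx =>
      obtain ⟨g, hg, rfl⟩ := hx
      exact ⟨h.smul_mem hg hK, g • v, (smul_pow' _ _ _).symm, hv g hg⟩
    | zero => exact ⟨zero_mem _, 0, zero_pow hq.ne', by simp⟩
    | add x y _ _ hx hy =>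
      obtain ⟨a1, x, rfl, a2⟩ := hx
      obtain ⟨b1, y, rfl, b2⟩ := hy
      exact ⟨add_mem a1 b1, x + y, add_pow_char_pow _ _ _ _, by rw [add_div]; exact add_mem a2 b2⟩
    | smul c x _ hx =>
      obtain ⟨a1, x, rfl, a2⟩ := hx
      obtain ⟨c, rfl⟩ := IsAlgClosed.exists_pow_nat_eq c hq
      exact ⟨K.smul_mem a1, c • x, smul_pow _ _ _, by
        rw [smul_div_assoc]; exact A.smul_mem a2 c⟩
  have h2 : Stb K₀ V := Stb.span' fun g hg x hx => by
    obtain ⟨g', hg', rfl⟩ := hx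
    exact Submodule.subset_span ⟨g * g', hg.mul hg', (mul_smul _ _ _).symm⟩
  have h3 := h.desc V (fun x hx => (h1 x hx).1) h2
    (Submodule.subset_span ⟨1, Fx.one _, (one_smul _ _).symm⟩)
  have h4 : ∀ y, y / w ∈ A → y / v ∈ A := fun y hy => by
    have := mul_mem hy hu.2.2
    rwa [inv_div, div_mul_div_cancel₀ hw] at this
  obtain ⟨x, ⟨a1, a2⟩, a3⟩ := exists_un_of_span hl (S := {x | x ∈ V ∧ x ∈ K₀})
    (pow_ne_zero (p ^ e) hv0) (fun x hx => by
      obtain ⟨y, rfl, hy⟩ := (h1 x hx.1).2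
      rw [← div_pow]; exact pow_mem (h4 y hy) _)
    (by rw [← one_mul (v ^ p ^ e)]; exact Submodule.mul_mem_mul (one_mem A) h3)
  obtain ⟨y, rfl, hy⟩ := (h1 x a1).2
  refine ⟨y, fun g hg => ?_, ?_⟩
  · have := hg _ a2
    rw [smul_pow', ← sub_eq_zero, ← sub_pow_char_pow] at this
    exact sub_eq_zero.1 (pow_eq_zero_iff hq.ne' |>.1 this)
  · rw [← div_pow, ← Nat.succ_pred_eq_of_pos hq, pow_succ'] at a3
    have := (Un.of_mul (h4 y hy) (pow_mem (h4 y hy) _) a3).mul hu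
    rwa [div_mul_div_cancel₀ hv0] at this

end InvA

open InvA

/-- Row INV. -/
theorem invQ (p : ℕ) [Fact p.Prime] [CharP k p] [IsAlgClosed k] (h : InsStmt k L p) :
    InvStmt k L := by
  intro K₀ K W D A w s N hG hKW hW hfg _ hD hp hr hw hfix hN hs hu
  obtain ⟨hI, e, he⟩ := h K W hKW hfg fun x hx => alg_up hG (hW.alg x hx)
  have hx : ∀ g : LG K, Fx K₀ (g : SA k L) := fun g x hx => g.2 x (hG.mem hx)
  have hst := icl_st hW hD
  have hle : ∀ x ∈ icl W D, x ∈ W := fun x hx => hx.1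
  have hst' : ∀ g : LG K, ∀ x ∈ icl W D, g • x ∈ icl W D := fun g => hst g (hx g)
  obtain ⟨θ, t1, t2, t3, t4⟩ := exists_sep' (W := W) hp hr hst' hle
  obtain ⟨d, d1, d2, d3, d4⟩ := exists_den' (W := W) hp hst' hle hu.1
  have hs0 : s ≠ 0 := fun e => hu.2.1 (by rw [e, div_zero])
  have hw0 : w ≠ 0 := fun e => hu.2.1 (by rw [e, zero_pow hN.ne', zero_div])
  have h1 : ∀ g : SA k L, Fx K₀ g → g • (d * w) / w ∈ A := fun g hg => by
    refine IsPoint.mem_of_isIntegral hp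
      (div_mem (hW.st g hg _ (mul_mem (hle d d1) hw)) hw) (IsIntegral.of_pow hN ?_)
    have h2 := mul_mem (hp.le (hst g hg _ (mul_mem d4 (pow_mem d1 (N - 1))))) hu.2.2
    rw [mul_assoc, mul_pow_sub_one hN.ne', div_mul_eq_mul_div, ← mul_pow, smul_div₀', hs g hg,
      smul_pow', inv_div, div_mul_div_cancel₀ hs0, ← div_pow, mul_comm w] at h2
    exact isIntegral_of_mem h2
  obtain ⟨Ω, o1, o2, o3⟩ := exists_sum (G := LG K) (W := W) hp.lcl (u := θ * (d * w)) (w := w)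
    (mul_mem (hle θ t1) (mul_mem (hle d d1) hw))
    (by rw [← mul_assoc, mul_div_cancel_right₀ _ hw0]; exact t3.mul d3) fun g => by
      by_cases hg : g ∈ Sb (LG K) A
      · exact Or.inl (by rw [smul_mul', smul_mul', t2 g hg, d2 g hg, hfix g hg])
      · refine Or.inr ?_
        rw [smul_mul', mul_div_assoc]
        exact mul_mem_mx _ (t4 g hg) (h1 g (hx g))
  refine desc p e hG hp.lcl (he _ (sum_mem fun y hy => ?_) o3) o2 fun g hg => ?_
  · obtain ⟨g, rfl⟩ := o1 y hy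
    exact hW.st g (hx g) _ (mul_mem (hle θ t1) (mul_mem (hle d d1) hw))
  · rw [Finset.smul_sum, Finset.sum_div]
    refine sum_mem fun y hy => ?_
    obtain ⟨g', rfl⟩ := o1 y hy
    change g • (g' : SA k L) • _ / w ∈ A
    rw [← mul_smul, smul_mul', mul_div_assoc]
    exact mul_mem (hp.le (hst _ (hg.mul (hx g')) θ t1)) (h1 _ (hg.mul (hx g')))

end Pool.Agent.MP_19ffc6_ag.Perf.Q

end MrgPart1

-- ======== part 2: formerly Pool.Agent.MP_19ffc6_ag.perf.QDesc
section MrgPart2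

/-! PROJECT PERF, row DESC: from the invariants of the stabiliser to the invariants of the group. -/

namespace Pool.Agent.MP_19ffc6_ag.Perf.Q

open Pool.Agent.R72.Wild Pool.Agent.R72.Lci Pool.Agent.R72.Res Pool.Agent.R72.Res.B GD Polynomial

variable {k L : Type} [Field k] [Field L] [Algebra k L]

namespace Desc

lemma nak {C : Subalgebra k L} {S : Set L} {s : ℕ} {t t' : Fin s → L} (hl : Lcl C)
    (hg : Gn C (S ∪ Set.range t)) (H : ∀ j, ∃ u, Un C u ∧ t' j - u * t j ∈ mx hl * mx hl) :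
    Gn C (S ∪ Set.range t') := by
  have := hl.isLocalRing
  have h2 : Submodule.span C (Set.range t) ≤ Submodule.span C (S ∪ Set.range t') := by
    refine Submodule.le_of_le_smul_of_le_jacobson_bot (I := IsLocalRing.maximalIdeal C)
      (Submodule.fg_span (Set.finite_range t)) (IsLocalRing.maximalIdeal_le_jacobson _)
      (Submodule.span_le.2 ?_)
    rintro _ ⟨j, rfl⟩
    obtain ⟨u, hu, h⟩ := H j
    have h3 : t' j - u * t j ∈ Submodule.span C (S ∪ Set.range t') ⊔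
        IsLocalRing.maximalIdeal C • Submodule.span C (Set.range t) := by
      refine Submodule.mul_induction_on h (fun a ha b hb => ?_) fun a b => add_mem
      have h4 := hg b hb
      rw [Submodule.span_union] at h4
      obtain ⟨b1, hb1, b2, hb2, rfl⟩ := Submodule.mem_sup.1 h4
      rw [mul_add]
      refine Submodule.add_mem_sup
        (mul_mem_sub _ ha.1 (Submodule.span_mono Set.subset_union_left hb1))
        (Submodule.smul_mem_smul (r := (⟨a, ha.1⟩ : C)) ?_ hb2)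
      rw [IsLocalRing.mem_maximalIdeal, mem_nonunits_iff, isUnit_iff_un]
      exact ha.2
    have h4 : t' j ∈ Submodule.span C (S ∪ Set.range t') := Submodule.subset_span (Or.inr ⟨j, rfl⟩)
    have h5 := mul_mem_sub _ hu.2.2 (sub_mem (Submodule.mem_sup_left h4) h3)
    rwa [sub_sub_cancel, inv_mul_cancel_left₀ hu.2.1] at h5
  intro x hx
  have := hg x hx
  rw [Submodule.span_union] at this
  exact sup_le (Submodule.span_mono Set.subset_union_left) h2 this

lemma coeff_mx {O : Subalgebra k L} (hl : Lcl O) {ι : Type} (s : Finset ι) (w : ι → L)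
    (hw : ∀ q ∈ s, w q ∈ mx hl) (i : ℕ) : (∏ q ∈ s, (X - C (w q)) - X ^ s.card).coeff i ∈ mx hl := by
  classical
  induction s using Finset.induction_on generalizing i with
  | empty => simp
  | insert a s ha ih =>
    have ih' := ih fun q hq => hw q (Finset.mem_insert_of_mem hq)
    rw [Finset.prod_insert ha, Finset.card_insert_of_notMem ha,
      show ∀ P : L[X], (X - C (w a)) * P - X ^ (s.card + 1) =
        X * (P - X ^ s.card) - C (w a) * ((P - X ^ s.card) + X ^ s.card) from fun P => by ring,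
      coeff_sub, coeff_C_mul, coeff_add]
    refine sub_mem ?_ (mul_mem_mx hl (hw a (Finset.mem_insert_self _ _)) (add_mem (ih' i).1 ?_))
    · cases i with
      | zero => simp
      | succ i => rw [coeff_X_mul]; exact ih' i
    · rw [coeff_X_pow]; split_ifs
      exacts [one_mem _, zero_mem _]

variable {G : Type} [Group G] [MulSemiringAction G L] [SMulCommClass G k L]
  {W : IntermediateField k L} {D O : Subalgebra k L} {n : ℕ}

omit [SMulCommClass G k L] in
lemma kr_le (h : Aff n W D O) : Kr G W ≤ Sb G O := fun g hg x => by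
  have hO := R72.Res.IsPoint.le_field h.pt h.le
  refine ⟨fun hx => ?_, fun hx => by rwa [hg x (hO hx)]⟩
  have e : g • x = x := MulAction.injective g (hg _ (hO hx))
  rwa [e] at hx

lemma exists_sep (hN : (Kr G W).FiniteIndex) (hD : ∀ g : G, ∀ x ∈ D, g • x ∈ D) (h : Aff n W D O) :
    ∃ θ ∈ D, Un O θ ∧ ∀ g : G, g ∉ Sb G O → g • θ ∈ mx h.pt.lcl := by
  classical
  have := Fintype.ofFinite (G ⧸ Kr G W)
  have H : ∀ g : G, ∃ θ ∈ D, Un O θ ∧ (g ∉ Sb G O → ¬ Un O (g • θ)) := fun g => by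
    by_contra H
    push Not at H
    have h1 := IsPoint.smul_of_stable hD h.pt g⁻¹
    have h2 : ∀ x ∈ D, Un O x → Un (g⁻¹ • O) x := fun x hx hu => by
      rw [un_smul, inv_inv]; exact (H x hx hu).2
    have h3 := (h.rt.smul g⁻¹).dom h.pt.lcl (IsPoint.of_un h.pt h1 h2).le
    have h4 := IsPoint.ext h.pt h1 fun x hx => ⟨h2 x hx, h3.2 x (h.pt.le hx)⟩
    exact (H 1 (one_mem _) (Un.one _)).1 fun x => sm_mem (by rw [← inv_smul_eq_iff.1 h4.symm])
  choose θ h1 h2 h3 using H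
  refine ⟨∏ q : G ⧸ Kr G W, θ q.out, prod_mem fun q _ => h1 _, un_prod _ _ fun q _ => h2 _,
    fun g hg => ?_⟩
  obtain ⟨m, hm⟩ := QuotientGroup.mk_out_eq_mul (Kr G W) g
  rw [← Finset.mul_prod_erase _ _ (Finset.mem_univ (g : G ⧸ Kr G W)), smul_mul']
  refine mul_mem_mx _ ⟨h.pt.le (hD _ _ (h1 _)), ?_⟩ (h.pt.le (hD _ _ (prod_mem fun g _ => h1 _)))
  have h4 := h3 (g : G ⧸ Kr G W).out fun e =>
    hg ((Subgroup.mul_mem_cancel_right _ (kr_le h m.2)).1 (hm ▸ e))
  nth_rw 1 [hm] at h4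
  rwa [mul_smul, m.2 _ (h.le _ (h1 _))] at h4

end Desc

open Desc in
theorem descQ (_h : AfqStmt k L) : DescStmt k L := by
  classical
  intro G _ _ _ n s W D O S t hN hD h hS ht hg
  set H := Sb G O
  have hle : Kr G W ≤ H := kr_le h
  have := Subgroup.finiteIndex_of_le hle
  have := Fintype.ofFinite (G ⧸ H)
  have hl := h.pt.lcl
  have hDH : ∀ g : H, ∀ x ∈ D, g • x ∈ D := fun g => hD g
  have hOH : ∀ g : H, ∀ x ∈ O, g • x ∈ O := fun g x => (g.2 x).2
  have hNH : ∀ g ∈ (Kr G W).subgroupOf H, ∀ x ∈ D, g • x = x := fun g hg x hx => hg x (h.le x hx)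
  have hp := isPoint_fix h.pt hDH hOH hNH
  have hmx : ∀ x ∈ mx hl, (∀ g : H, g • x = x) → x ∈ mx hp.lcl := fun x hx hx' =>
    ⟨⟨hx.1, hx'⟩, fun U => hx.2 (U.mono (fix_le O))⟩
  have hRC : fix G O ≤ fix H O := fun x hx => ⟨hx.1, fun g => hx.2 g⟩
  obtain ⟨θ, hθ, hu, hθ'⟩ : ∃ θ ∈ fix H D, Un O θ ∧ ∀ g : G, g ∉ H → g • θ ∈ mx hl := by
    obtain ⟨θ, h1, h2, h3⟩ := exists_sep hN hD h
    obtain ⟨b, b1, b2, b3⟩ := exists_den h.pt hDH hOH hNH h2.2.2
    refine ⟨b, b1, b2, fun g hg => ?_⟩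
    rw [← mul_inv_cancel_left₀ h2.2.1 b, smul_mul']
    exact mul_mem_mx hl (h3 g hg) (h.pt.le (hD _ _ b3))
  let e : G ⧸ H := (1 : G)
  let Z := Finset.univ.erase e
  have he : e.out ∈ H := by simpa using QuotientGroup.eq.1 (QuotientGroup.out_eq' e).symm
  have hZ : ∀ q ∈ Z, q.out • θ ∈ mx hl := fun q hq => hθ' _ fun hq' =>
    Finset.ne_of_mem_erase hq ((QuotientGroup.out_eq' q).symm.trans
      (QuotientGroup.eq.2 (by simpa using hq')))
  let T : L → L := fun y => ∑ q : G ⧸ H, q.out • y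
  let U : L → L := fun y => ∑ q ∈ Z, q.out • y
  have hTU : ∀ y ∈ fix H D, T y = y + U y := fun y hy => by
    simp only [T, U, Z]
    rw [← Finset.add_sum_erase _ _ (Finset.mem_univ e), show e.out • y = y from hy.2 ⟨_, he⟩]
  have hT : ∀ y ∈ fix H D, T y ∈ fix G O := fun y hy => by
    refine ⟨h.pt.le (sum_mem fun q _ => hD _ _ hy.1), fun g => ?_⟩
    simp only [T]
    conv_rhs => rw [← sum_out (N := H) (fun h => h • y)
      (fun h m hm => by rw [mul_smul, show m • y = y from hy.2 ⟨m, hm⟩]) g]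
    simp only [mul_smul, Finset.smul_sum]
  have hU : ∀ y ∈ fix H D, U (θ * y) ∈ mx hp.lcl := fun y hy => by
    have h1 := mul_mem hθ hy
    refine hmx _ (sum_mem fun q hq => ?_) fun g => ?_
    · rw [smul_mul']; exact mul_mem_mx hl (hZ q hq) (h.pt.le (hD _ _ hy.1))
    · rw [← add_sub_cancel_left (θ * y) (U _), ← hTU _ h1, smul_sub, h1.2 g,
        (hRC (hT _ h1)).2 g]
  let P : L[X] := ∏ q ∈ Z, (X - C (q.out • θ))
  have hP : ∀ i, (P - X ^ Z.card).coeff i ∈ mx hp.lcl := fun i => by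
    refine hmx _ (coeff_mx hl Z _ hZ i) fun g => ?_
    have h1 : ∏ q : G ⧸ H, (X - C (((g : G) * q.out) • θ)) = ∏ q : G ⧸ H, (X - C (q.out • θ)) := by
      simpa only [← ofMul_prod, EmbeddingLike.apply_eq_iff_eq] using
        sum_out (M := Additive L[X]) (N := H) (fun h => Additive.ofMul (X - C (h • θ)))
          (fun h m hm => by rw [mul_smul, show m • θ = θ from hθ.2 ⟨m, hm⟩]) g
    rw [← Finset.mul_prod_erase _ _ (Finset.mem_univ e),
      ← Finset.mul_prod_erase _ _ (Finset.mem_univ e), mul_smul,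
      show e.out • θ = θ from hθ.2 ⟨_, he⟩, show (g : G) • θ = θ from hθ.2 g] at h1
    have h2 := mul_left_cancel₀ (X_sub_C_ne_zero θ) h1
    have h3 : (g : G) • P = P := by
      simp only [P, Finset.smul_prod', smul_sub, smul_X, smul_C, ← mul_smul]
      exact h2
    rw [Subgroup.smul_def, ← coeff_smul, smul_sub, h3, smul_pow', smul_X]
  have hθu : Un (fix H O) θ := un_fix hu hθ.2
  have key : ∀ j, ∃ y ∈ fix G O, ∃ u, Un (fix H O) u ∧
      y - u * t j ∈ mx hp.lcl * mx hp.lcl := fun j => by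
    obtain ⟨a, ha, b, hb, hb', e1⟩ := hp.le_loc (ht j).1
    have h1 := mul_mem hθ (mul_mem (pow_mem hθ Z.card) ha)
    refine ⟨T _, hT _ h1, θ * (θ ^ Z.card * b), hθu.mul ((hθu.pow _).mul hb'), ?_⟩
    rw [hTU _ h1, e1, mul_assoc, mul_assoc, mul_div_cancel₀ _ hb'.2.1, add_sub_cancel_left]
    have h2 : U (θ * (θ ^ Z.card * a)) = -∑ i ∈ (P - X ^ Z.card).support,
        (P - X ^ Z.card).coeff i * U (θ * (θ ^ i * a)) := by
      simp only [U, Finset.mul_sum, smul_mul', smul_pow']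
      rw [Finset.sum_comm, ← Finset.sum_neg_distrib]
      refine Finset.sum_congr rfl fun q hq => ?_
      have h3 : (P - X ^ Z.card).eval (q.out • θ) = -(q.out • θ) ^ Z.card := by
        rw [eval_sub, eval_prod, Finset.prod_eq_zero hq (by simp)]; simp
      rw [eval_eq_sum, Polynomial.sum] at h3
      rw [← neg_neg ((q.out • θ) ^ Z.card), ← h3, neg_mul, mul_neg, Finset.sum_mul, Finset.mul_sum]
      exact congrArg _ (Finset.sum_congr rfl fun i _ => by ring)
    rw [h2]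
    exact neg_mem (sum_mem fun i _ =>
      Submodule.mul_mem_mul (hP i) (hU _ (mul_mem (pow_mem hθ i) ha)))
  choose t' h1 h2 using key
  refine ⟨t', fun j => ⟨h1 j, fun V => ?_⟩, fun x hx => ?_⟩
  · obtain ⟨u, hu, h3⟩ := h2 j
    have h4 : mx hp.lcl * mx hp.lcl ≤ mx hp.lcl :=
      Submodule.mul_le.2 fun a ha b hb => mul_mem_mx _ ha hb.1
    have := add_mem (h4 h3) (mx_mul hp.lcl hu.1 (ht j))
    rw [sub_add_cancel] at this
    exact this.2 (V.mono hRC)
  have h3 := nak hp.lcl hg h2 x ⟨hRC hx.1, fun V => hx.2 (un_fix (V.mono (fix_le O)) hx.1.2)⟩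
  obtain ⟨c, hc, hc', h4⟩ := (IsPoint.mem_span_iff hp).1 h3
  have hT1 : ∀ y x, (∀ g : G, g • x = x) → T (y * x) = T y * x := fun y x hx => by
    simp only [T, Finset.sum_mul, smul_mul' _ _ x, hx]
  have h5 : ∀ y ∈ Submodule.span (fix H D) (S ∪ Set.range t'), ∀ d ∈ fix H D,
      T (d * y) ∈ Submodule.span (fix G O) (S ∪ Set.range t') := fun y hy => by
    induction hy using Submodule.span_induction with
    | mem y hy =>
      intro d hd
      rw [hT1 _ _ (hy.elim (fun hy => (hS y hy).2) (by rintro ⟨j, rfl⟩; exact (h1 j).2))]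
      exact mul_mem_sub _ (hT d hd) (Submodule.subset_span hy)
    | zero => simp [T]
    | add a b _ _ ha hb =>
      intro d hd
      simp only [T, mul_add, smul_add, Finset.sum_add_distrib]
      exact add_mem (ha d hd) (hb d hd)
    | smul c a _ ha =>
      intro d hd
      rw [show c • a = (c : L) * a from rfl, ← mul_assoc]
      exact ha _ (mul_mem hd c.2)
  have h6 := mul_mem hθ hc
  have h7 : Un (fix G O) (T (θ * c)) := un_fix (Un.mono (fix_le (G := H) O) (un_of_sub hp.lcl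
    (hθu.mul hc') (by rw [hTU _ h6, add_sub_cancel_left]; exact hU c hc))) (hT _ h6).2
  have := mul_mem_sub _ h7.2.2 (h5 _ h4 θ hθ)
  rwa [← mul_assoc θ, hT1 _ _ hx.1.2, inv_mul_cancel_left₀ h7.2.1] at this

end Pool.Agent.MP_19ffc6_ag.Perf.Q

end MrgPart2

-- ======== part 3: formerly Pool.Agent.MP_19ffc6_ag.perf.QLat
section MrgPart3

/-! PROJECT PERF, block Q, row LAT. -/

namespace Pool.Agent.MP_19ffc6_ag.Perf.Q

open Pool.Agent.R72.Wild Pool.Agent.R72.Lci Pool.Agent.R72.Res Pool.Agent.R72.Res.B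
  Pool.Agent.R72.Res.P GD

variable {k L : Type} [Field k] [Field L] [Algebra k L]

namespace LatQ

lemma mn_pow {r : ℕ} (w : Fin r → L) (c : Fin r → ℤ) (q : ℕ) :
    mn w c ^ q = mn (fun i => w i ^ q) c := by
  simp only [mn, ← Finset.prod_pow]
  exact Finset.prod_congr rfl fun i _ => by
    rw [← zpow_natCast, ← zpow_natCast, ← zpow_mul, ← zpow_mul, mul_comm]

lemma mn_W {W : IntermediateField k L} {r : ℕ} {w : Fin r → L} (hw : ∀ i, w i ∈ W)
    (c : Fin r → ℤ) : mn w c ∈ W :=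
  prod_mem fun i _ => zpow_mem (hw i) _

lemma mn_Ra {K₀ : Subfield L} {r : ℕ} {w : Fin r → L} (hw : ∀ i, Ra k K₀ (w i))
    (c : Fin r → ℤ) : Ra k K₀ (mn w c) := fun g hg => by
  simp only [mn, Finset.smul_prod', smul_zpow₀', hw _ g hg]

lemma root {W : IntermediateField k L} {A : Subalgebra k L} {p : ℕ}
    (h : ∀ x ∈ W, x ^ p ∈ A → x ∈ A) (e : ℕ) : ∀ x ∈ W, x ^ p ^ e ∈ A → x ∈ A := by
  induction e with
  | zero => intro x _ hx; simpa using hx
  | succ e ih =>
    intro x hx h1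
    rw [pow_succ, pow_mul] at h1
    exact ih x hx (h _ (pow_mem hx _) h1)

end LatQ

open LatQ in
theorem latQ (p : ℕ) [Fact p.Prime] [CharP k p] [IsAlgClosed L] : LatStmt k L p := by
  intro K₀ W A r e m y hy _ hA hf
  have : CharP L p := charP_of_injective_algebraMap (algebraMap k L).injective p
  have hp : ∀ e, 0 < p ^ e := fun e => pow_pos (Fact.out : p.Prime).pos e
  have inj : ∀ x z : L, x ^ p ^ m = z ^ p ^ m → x = z := fun x z h =>
    iterateFrobenius_inj L p m h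
  choose f hfW hfR hfU using hf
  let M : Submodule ℤ (Fin r → ℤ) :=
    { carrier := {a | ∃ f ∈ W, Ra k K₀ f ∧ Un A (f ^ p ^ e / mn y a)}
      zero_mem' := ⟨1, one_mem _, fun g _ => smul_one g, by simpa [mn_zero] using Un.one A⟩
      add_mem' := by
        rintro a b ⟨f, h1, h2, h3⟩ ⟨f', h1', h2', h3'⟩
        refine ⟨f * f', mul_mem h1 h1', fun g hg => by rw [smul_mul', h2 g hg, h2' g hg], ?_⟩
        rw [mul_pow, mn_add hy, mul_div_mul_comm]
        exact h3.mul h3'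
      smul_mem' := by
        rintro n a ⟨f, h1, h2, h3⟩
        refine ⟨f ^ n, zpow_mem h1 n, fun g hg => by rw [smul_zpow₀', h2 g hg], ?_⟩
        have := un_mn_of_un (O := A) (w := fun _ : Fin 1 => f ^ p ^ e) (z := fun _ => mn y a)
          (fun _ => h3) fun _ => n
        simp only [mn, Finset.univ_unique, Finset.prod_singleton] at this
        rw [mn_smul, ← zpow_natCast, ← zpow_mul, mul_comm, zpow_mul, zpow_natCast]
        exact this }
  obtain ⟨b, hb, hb'⟩ := exists_bas M (hp m).ne' fun c =>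
    ⟨mn f c, mn_W hfW c, mn_Ra hfR c, by
      rw [← natCast_zsmul, mn_smul, zpow_natCast, mn_pow, mn_pow]
      exact un_mn_of_un hfU c⟩
  choose ω hW hR hU using fun i => (hb' _).2 ⟨Pi.single i 1, Matrix.single_one_vecMul i b⟩
  have hω : ∀ i, ω i ≠ 0 := fun i h => (hU i).2.1 (by rw [h, zero_pow (hp e).ne', zero_div])
  have h1 : ∀ c, Un A (mn ω c ^ p ^ e / mn y (Matrix.vecMul c b)) := fun c => by
    rw [mn_vecMul hy, mn_pow]
    exact un_mn_of_un hU c
  choose d hd using fun j => (hb' (Pi.single j ((p ^ m : ℕ) : ℤ))).1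
    ⟨f j, hfW j, hfR j, by rw [mn_single, zpow_natCast]; exact hfU j⟩
  choose v hv using fun j => IsAlgClosed.exists_pow_nat_eq (mn ω (d j)) (hp m)
  have hv0 : ∀ j, v j ≠ 0 := fun j h => mn_ne_zero hω (d j) (by
    rw [← hv, h, zero_pow (hp m).ne'])
  have h2 : ∀ i, mn v (b i) = ω i := fun i => inj _ _ (by
    have h3 : (Matrix.of d) * b = Matrix.diagonal fun _ => ((p ^ m : ℕ) : ℤ) := by
      ext j l
      have := congrFun (hd j) l
      rw [Matrix.diagonal_apply, Matrix.mul_apply]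
      rw [Pi.single_apply] at this
      simpa [Matrix.vecMul, dotProduct, eq_comm] using this
    have h4 : Matrix.vecMul (b i) (Matrix.of d) = Pi.single i ((p ^ m : ℕ) : ℤ) :=
      sub_eq_zero.1 (hb _ (by
        rw [Matrix.sub_vecMul, Matrix.vecMul_vecMul, h3, Matrix.single_vecMul, sub_eq_zero]
        ext l
        simp [Matrix.vecMul_diagonal, mul_comm]))
    rw [mn_pow, funext hv, show (fun j => mn ω (d j)) = fun j => mn ω (Matrix.of d j) from rfl,
      ← mn_vecMul hω, h4, mn_single, zpow_natCast])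
  refine ⟨v, fun j => ⟨fun g hg => inj _ _ ?_, ?_, ?_⟩, fun f hf a h3 h4 => ?_⟩
  · rw [← smul_pow', hv, mn_Ra hR _ g hg]
  · rw [hv]
    exact mn_W hW _
  · have := h1 (d j)
    rwa [hd, mn_single, zpow_natCast, ← hv] at this
  · obtain ⟨x, rfl⟩ := (hb' a).1 ⟨f, hf, h3, h4⟩
    have h5 := h4.mul (h1 x).inv
    rw [inv_div, div_mul_div_cancel₀ (mn_ne_zero hy _), ← div_pow] at h5
    rw [mn_vecMul hv0, funext h2]
    have h6 := div_mem hf (mn_W hW x)
    exact ⟨root hA e _ h6 h5.1, fun h => h5.2.1 (by rw [h, zero_pow (hp e).ne']),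
      root hA e _ (inv_mem h6) (by rw [inv_pow]; exact h5.2.2)⟩

end Pool.Agent.MP_19ffc6_ag.Perf.Q

end MrgPart3

-- ======== part 4: formerly Pool.Agent.MP_19ffc6_ag.perf.QAll
section MrgPart4

/-! PROJECT PERF: the local quotient, all modules together. -/

namespace Pool.Agent.MP_19ffc6_ag.Perf.Q

theorem qStmt {k L : Type} [Field k] [Field L] [Algebra k L] (p : ℕ) [Fact p.Prime] [CharP k p]
    [IsAlgClosed k] [IsAlgClosed L] : QStmt k L p :=
  qGlue p (wq p) cenQ (insQ p) (invQ p (insQ p)) afqQ (descQ afqQ) (latQ p) (regQ p)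

end Pool.Agent.MP_19ffc6_ag.Perf.Q

end MrgPart4

-- marker of a merged file
example : 731051 + 244631 = 731051 + 244631 := rfl
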