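import Pool.Agent.MP_19ffc6_ag.perf.TAll
import Pool.Agent.MP_19ffc6_ag.perf.FlAll
import Pool.Agent.MP_19ffc6_ag.perf.QAll
import Pool.Agent.MP_19ffc6_ag.perf.EQin
import Pool.Agent.MP_19ffc6_ag.perf.EndM

/-! PROJECT PERF: the assembly of all blocks. -/

namespace Pool.Agent.MP_19ffc6_ag.Perf

open TA

theorem perfAllU (p : ℕ) [Fact p.Prime] : PerfAllU p := by
  intro k L _ _ _ _ _ _ k₀ h0 n
  rcases Nat.eq_zero_or_pos n with rfl | hn
  · exact end0 p k₀ h0
  · exact asm p basisS troA cmpT upA tameA (localA p) (liftA p) (vend p divA) admt (qin p divA)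
      (Q.qStmt p) k₀ h0 n hn (tower_of zeroT strongA (Fl.floor p kitF divA faceA) h0 n)

end Pool.Agent.MP_19ffc6_ag.Perf
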