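import Pool.Agent.MP_19ffc6_ag.perf.SpecT

/-! PROJECT PERF, block L: from towers to gap data at all admissible points. -/

namespace Pool.Agent.MP_19ffc6_ag.Perf

open Pool.Agent.R72.Wild Pool.Agent.R72.Lci Pool.Agent.R72.Res Pool.Agent.R72.Res.B
  Pool.Agent.R72.Res.Tor Pool.Agent.R72.Res.P Pool.Agent.R72.Res.Lab Filter GD

section Defs

variable {k L : Type} [Field k] [Field L] [Algebra k L]

/-- The limit of the monomial blow-ups of `O` along `V`. -/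
def RV (O V : Subalgebra k L) {n : ℕ} (x : Fin n → L) : Subalgebra k L := loc (O ⊔ mons V x) V

/-- A finite stage. -/
def stg (K : IntermediateField k L) (D : Subalgebra k L) {n : ℕ} (x : Fin n → L)
    (T : Finset (Fin n → ℤ)) : Subalgebra k L := icl K (D ⊔ Algebra.adjoin k (mn x '' T))

/-- A member of the inertia group with trivial characters that moves a coordinate. -/
def Wn (K₀ : Subfield L) (O : Subalgebra k L) {n : ℕ} (x : Fin n → L) (h : SA k L) : Prop :=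
  In K₀ O h ∧ (∀ j, Tv O h (x j)) ∧ ∃ j, h • x j ≠ x j

/-- Gap data for the displacements raised to the powers `r`. -/
def GapR (H : SA k L → Prop) (c : ℕ) {n : ℕ} (r : Fin n → ℕ) (R : Subalgebra k L)
    (x : Fin n → L) : Prop :=
  ∃ (dir : ∀ h, H h → Fin n) (a b : ℕ), gap c a c ≤ b ∧ ∀ h (e : H h),
    LMon R x (dp h (x (dir h e))) ∧
    (∀ j ≠ dir h e, dp h (x j) ^ r j / (dp h (x (dir h e)) ^ r (dir h e)) ^ b ∈ R) ∧
    ∀ h' (e' : H h'),
      (dir h e = dir h' e' ∧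
        (dp h (x (dir h e)) ^ r (dir h e)) ^ a / dp h' (x (dir h' e')) ^ r (dir h' e') ∈ R ∧
        (dp h' (x (dir h' e')) ^ r (dir h' e')) ^ a / dp h (x (dir h e)) ^ r (dir h e) ∈ R) ∨
      dp h (x (dir h e)) ^ r (dir h e) / (dp h' (x (dir h' e')) ^ r (dir h' e')) ^ b ∈ R ∨
      dp h' (x (dir h' e')) ^ r (dir h' e') / (dp h (x (dir h e)) ^ r (dir h e)) ^ b ∈ R

/-- The level field. -/
def lev (p : ℕ) (F : ℕ → IntermediateField k L) (w n : ℕ) : IntermediateField k L :=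
  F n ⊔ IntermediateField.adjoin k {a | ∃ i < n, a ^ p ^ (w * (n - i)) ∈ F (i + 1)}

/-- The level fields are generated by roots of the coordinates. -/
def Lev (p : ℕ) (F : ℕ → IntermediateField k L) {n : ℕ} (x : Fin n → L) : Prop :=
  ∀ (w : ℕ) (z : Fin n → L), (∀ j, z j ^ p ^ (w * (n - j)) = x j) →
    lev p F w n = F n ⊔ IntermediateField.adjoin k (Set.range z)

/-- The local data at level one. -/
def GoodL (p : ℕ) (K₀ : Subfield L) (n c : ℕ) (F : ℕ → IntermediateField k L) (S : Finset L)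
    (O : Subalgebra k L) : Prop :=
  ∃ (x : Fin n → L) (w : ℕ), Fr n (F n) O x ∧ Ful S O x ∧ (∀ f ∈ S, LMon O x f) ∧ Lev p F x ∧
    GapR (Wn K₀ O x) c (fun j => p ^ (w * j)) O x

/-- THE OUTPUT OF THE BLOCK at a point `O` of `N`: a stable purely inseparable extension `W` and a
frame `z` of the normalisation of `O` in `W` with the hypotheses of `GD.wq`. -/
structure LOut (p : ℕ) (K₀ : Subfield L) (n c : ℕ) (N W : IntermediateField k L) (S : Finset L)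
    (O : Subalgebra k L) (z : Fin n → L) : Prop where
  le : N ≤ W
  fg : W.FG
  st : ∀ g : SA k L, Fx K₀ g → ∀ a ∈ W, g • a ∈ W
  ins : ∃ e : ℕ, ∀ a ∈ W, a ^ p ^ e ∈ N
  fr : Fr n W (icl W O) z
  ful : Ful S (icl W O) z
  mon : ∀ f ∈ S, LMon (icl W O) z f
  un : ∀ g, In K₀ O g → ∀ j, Un (icl W O) (g • z j / z j)
  star : ∀ g, In K₀ O g → ∀ a ∈ icl W O, g • a - a ∈ nI (icl W O) z
  gap : GapR (fun h => In K₀ O h ∧ (∃ m : ℕ, ∀ a ∈ W, h ^ p ^ m • a = a) ∧ ∃ a ∈ W, h • a ≠ a) c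
    (fun _ => 1) (icl W O) z

end Defs

section Stmt

variable (k L : Type) [Field k] [Field L] [Algebra k L]

/-- Row STAGE. -/
def StageStmt : Prop :=
  ∀ (n : ℕ) (K : IntermediateField k L) (D O V : Subalgebra k L) (x : Fin n → L) (E : Finset L),
    Fr n K O x → Aff n K D O → Val V → Rt V → Dom O V → (∀ e ∈ E, e ∈ RV O V x) →
    ∃ T : Finset (Fin n → ℤ), (∀ c ∈ T, mn x c ∈ V) ∧ stg K D x T ≤ V ∧
      Aff n K (stg K D x T) (loc (stg K D x T) V) ∧ Fr n K (loc (stg K D x T) V) x ∧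
      O ≤ loc (stg K D x T) V ∧ loc (stg K D x T) V ≤ RV O V x ∧
      ∀ e ∈ E, e ∈ loc (stg K D x T) V

/-- Row EPS0: in the limit ring the displacements have the radical of one monomial. -/
def Eps0Stmt : Prop :=
  ∀ (n : ℕ) (K : IntermediateField k L) (O V : Subalgebra k L) (x : Fin n → L) (g : SA k L),
    Fr n K O x → Val V → Rt V → Dom O V → Lin g → g • O = O → (∀ j, Tv O g (x j)) →
    (∃ m, 0 < m ∧ ∀ a ∈ K, g ^ m • a = a) → Strat g O x →
    (∀ j, dp g (x j) = 0) ∨ ∃ (c : Fin n → ℤ) (N : ℕ), (∀ j, dp g (x j) / mn x c ∈ RV O V x) ∧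
      mn x c ^ N ∈ Submodule.span (RV O V x) (Set.range fun j => dp g (x j))

/-- Row EPS: the direction of a wild automorphism. -/
def EpsStmt : Prop :=
  ∀ (K₀ : Subfield L) (n : ℕ) (F : ℕ → IntermediateField k L) (Os : ℕ → Subalgebra k L)
    (x : ℕ → L) (V : Subalgebra k L) (h : SA k L), Tw K₀ n F Os x → Val V → Rt V →
    Dom (Os n) V → (∃ m, 0 < m ∧ ∀ a ∈ F n, h ^ m • a = a) → Wn K₀ (Os n) (xs x n) h →
    ∃ (i : Fin n) (c : Fin n → ℤ) (N : ℕ), 0 < N ∧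
      Un (RV (Os n) V (xs x n)) (dp h (x i) / mn (xs x n) c) ∧ ∀ j : Fin n,
        dp h (x j) ∈ RV (Os n) V (xs x n) ∧
        (i < j → dp h (x j) ^ N / mn (xs x n) c ∈ RV (Os n) V (xs x n)) ∧
        (j < i → ∀ m : ℕ, dp h (x j) / mn (xs x n) c ^ m ∈ RV (Os n) V (xs x n))

/-- Row GAP: the choice of the constants and of the levels. -/
def GapStmt (p : ℕ) : Prop :=
  ∀ (n c : ℕ) (R V : Subalgebra k L) (x : Fin n → L) (H : SA k L → Prop), Val V → R ≤ V →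
    (∀ j, x j ≠ 0) → (∀ e, mn x e ∈ V → mn x e ∈ R) →
    {v : Fin n → L | ∃ h, H h ∧ v = fun j => h • x j}.Finite →
    (∀ h, H h → ∃ (i : Fin n) (e : Fin n → ℤ) (N : ℕ), 0 < N ∧
      Un R (dp h (x i) / mn x e) ∧ ∀ j : Fin n, dp h (x j) ∈ R ∧
        (i < j → dp h (x j) ^ N / mn x e ∈ R) ∧ (j < i → ∀ m : ℕ, dp h (x j) / mn x e ^ m ∈ R)) →
    ∃ (w : ℕ) (E : Finset L), (∀ e ∈ E, e ∈ R) ∧ ∀ R' : Subalgebra k L, (∀ e ∈ E, e ∈ R') →
      GapR H c (fun j => p ^ (w * j)) R' x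

/-- Row SPR: frames spread out. -/
def SprF : Prop :=
  ∀ (n : ℕ) (K : IntermediateField k L) (D O : Subalgebra k L) (x : Fin n → L), Fr n K O x →
    Aff n K D O → (∀ a ∈ K, IsIntegral D a → a ∈ D) → ∀ᶠ O' in nb D O, Rt O' → Fr n K O' x

/-- Row NEAR: separatedness, properness, and semicontinuity of inertia groups. -/
structure NearStmt : Prop where
  sep : ∀ (M : Submodule k L) (O O' W : Subalgebra k L), Pt ⊥ M O → Pt ⊥ M O' → Dom O W →
    Dom O' W → O = O'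
  ctr : ∀ (M : Submodule k L) (V : Subalgebra k L), M.FG → M ≠ ⊥ → Val V →
    ∃ O, Pt ⊥ M O ∧ Dom O V
  down : ∀ (K₀ : Subfield L) (M : Submodule k L) (O O' : Subalgebra k L) (g : SA k L),
    Stb K₀ M → Pt ⊥ M O → Dom O O' → Fx K₀ g → g • O' = O' → g • O = O
  near : ∀ (K₀ : Subfield L) (N : IntermediateField k L) (M : Submodule k L) (g₀ : L)
    (O : Subalgebra k L) (n : ℕ) (x : Fin n → L), Gw K₀ N → Mdl N M → Stb K₀ M → g₀ ∈ M →
    g₀ ≠ 0 → IsPoint (chart ⊥ M g₀) O → (∀ j, x j ∈ N) →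
    ∀ᶠ O' in nb (chart ⊥ M g₀) O, ∀ h, In K₀ O' h →
      In K₀ O h ∧ ∀ j, ¬ Un O' (dp h (x j)) → ¬ Un O (dp h (x j))

/-- Row SEP. -/
def SepStmt : Prop :=
  ∀ (n : ℕ) (K : IntermediateField k L) (O : Subalgebra k L) (x : Fin n → L), Fr n K O x →
    ∀ a ∈ K, IsSeparable (IntermediateField.adjoin k (Set.range x)) a

/-- Row LEV. -/
def LevStmt (p : ℕ) : Prop :=
  ∀ (K₀ : Subfield L) (n : ℕ) (F : ℕ → IntermediateField k L) (Os : ℕ → Subalgebra k L)
    (x : ℕ → L), Tw K₀ n F Os x → Lev p F (xs x n)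

/-- Row TRANS: the data along one valuation hold on an open set. -/
def TransStmt (p : ℕ) : Prop :=
  ∀ (k₀ : Subfield k) (y : ℕ → L) (n c : ℕ) (F : ℕ → IntermediateField k L) (S T : Finset L)
    (M : Submodule k L) (V : Subalgebra k L), TwM k₀ y n F S T M → Val V → Rt V →
    ∃ (Φ : Finset (L → ℤ)) (E : Finset L), (∀ e ∈ E, e ∈ V) ∧
      ∀ V' O O' D' : Subalgebra k L, Val V' → (∀ e ∈ E, e ∈ V') → Pt ⊥ M O →
        Aff n (F n) D' O' → Adm (F n) S O O' → Dom O' V' →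
        (∀ e ∈ Φ, smn S e ∈ O' ∨ (smn S e)⁻¹ ∈ O') → GoodL p (Ek k₀ y n) n c F S O'

/-- Row LOCAL: compactness. -/
def LocalStmt (p : ℕ) : Prop :=
  ∀ (k₀ : Subfield k) (y : ℕ → L) (n c : ℕ) (F : ℕ → IntermediateField k L) (S T : Finset L)
    (M : Submodule k L), TwM k₀ y n F S T M → ∃ Φ : Finset (L → ℤ),
      ∀ O O' D' : Subalgebra k L, Pt ⊥ M O → Aff n (F n) D' O' → Adm (F n) S O O' →
        (∀ e ∈ Φ, smn S e ∈ O' ∨ (smn S e)⁻¹ ∈ O') → GoodL p (Ek k₀ y n) n c F S O'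

/-- Row TAME: inertia acts trivially on the smallest stratum, for any frame that sees `S`. -/
def TameStmt : Prop :=
  ∀ (K₀ : Subfield L) (n : ℕ) (F : ℕ → IntermediateField k L) (S T : Finset L)
    (O : Subalgebra k L) (x : Fin n → L) (g : SA k L), TwPt K₀ n F S T O → Gw K₀ (F n) →
    (∀ f ∈ S, Ivt k K₀ f) → Fr n (F n) O x → Ful S O x → (∀ f ∈ S, LMon O x f) → In K₀ O g →
    (∀ j, Un O (g • x j / x j)) ∧ ∀ a ∈ O, g • a - a ∈ nI O x

/-- Row LVL: the normalisation in a field of roots of the coordinates. -/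
def LvlStmt (p : ℕ) : Prop :=
  ∀ (n e : ℕ) (N W : IntermediateField k L) (O : Subalgebra k L) (x z : Fin n → L)
    (q : Fin n → ℕ), Fr n N O x → (∀ j, z j ^ p ^ q j = x j) → (∀ j, q j ≤ e) →
    W = N ⊔ IntermediateField.adjoin k (Set.range z) →
    W.FG ∧ (∀ a ∈ W, a ^ p ^ e ∈ N) ∧ (∀ a, a ∈ icl W O ↔ a ∈ W ∧ a ^ p ^ e ∈ O) ∧
      Dom O (icl W O) ∧ Fr n W (icl W O) z

/-- Row LIFT. -/
def LiftStmt (p : ℕ) : Prop :=
  ∀ (k₀ : Subfield k) (y : ℕ → L) (n c : ℕ) (F : ℕ → IntermediateField k L) (S T : Finset L)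
    (M : Submodule k L) (O : Subalgebra k L), TwM k₀ y n F S T M →
    TwPt (Ek k₀ y n) n F S T O → GoodL p (Ek k₀ y n) n c F S O →
    ∃ W z, LOut p (Ek k₀ y n) n c (F n) W S O z

end Stmt

end Pool.Agent.MP_19ffc6_ag.Perf
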