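import Pool.Agent.MP_19ffc6_ag.perf.SpecT

/-! PROJECT PERF, row BLOW: normalised monomial blow-ups and roots of monomials. -/

namespace Pool.Agent.MP_19ffc6_ag.Perf

open Pool.Agent.R72.Wild Pool.Agent.R72.Lci Pool.Agent.R72.Res Pool.Agent.R72.Res.B
  Pool.Agent.R72.Res.Tor Pool.Agent.R72.Res.P Filter Polynomial Submodule

namespace Blow

variable {k L : Type} [Field k] [Field L] [Algebra k L] {n : ℕ} {K K' : IntermediateField k L}
  {B D D' E O O' : Subalgebra k L} {x z : Fin n → L} {S Q : Set L} {y : L}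

/-- An algebra between `D` and its normalisation is finitely generated. -/
lemma fg_of_le [PerfectField k] (hD : D.FG) (hK : K.FG) (halg : ∀ x ∈ K, IsAlgebraic D x)
    (h1 : D ≤ E) (h2 : E ≤ icl K D) : E.FG := by
  classical
  have := (Subalgebra.fg_iff_finiteType _).1 hD
  have : IsNoetherianRing D := Algebra.FiniteType.isNoetherianRing k D
  obtain ⟨S, hS⟩ : (span D (E : Set L)).FG :=
    (icl_fg hD hK ((h1.trans h2).trans (icl_le _ _)) halg).of_le (span_mono h2)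
  obtain ⟨T, hT⟩ := hD
  refine ⟨T ∪ S, le_antisymm (Algebra.adjoin_le fun x hx => ?_) fun x hx => ?_⟩
  · rcases Finset.mem_union.1 hx with hx | hx
    · exact h1 (hT ▸ Algebra.subset_adjoin hx)
    · exact (mem_span_self h1).1 (hS ▸ subset_span hx)
  · have h3 : D ≤ Algebra.adjoin k ((T ∪ S : Finset L) : Set L) :=
      hT ▸ Algebra.adjoin_mono (by simp)
    refine (mem_span_self h3).1 (span_mono (fun y hy => ?_)
      (hS ▸ subset_span hx : x ∈ span D (S : Set L)))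
    exact Algebra.subset_adjoin (by simp [hy])

/-- The elements that lie eventually in a family of algebras. -/
def evs {ι : Type} (F : Filter ι) (E : ι → Subalgebra k L) : Subalgebra k L where
  carrier := {y | ∀ᶠ i in F, y ∈ E i}
  mul_mem' ha hb := (Eventually.and ha hb).mono fun _ h => mul_mem h.1 h.2
  add_mem' ha hb := (Eventually.and ha hb).mono fun _ h => add_mem h.1 h.2
  algebraMap_mem' r := Eventually.of_forall fun i => (E i).algebraMap_mem r

lemma ev_int {ι : Type} {F : Filter ι} {E : ι → Subalgebra k L} (h : D ≤ evs F E)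
    (ha : IsIntegral D y) : ∀ᶠ i in F, IsIntegral (E i) y := by
  obtain ⟨P, hm, h0⟩ := ha
  refine ((eventually_all_finset P.support).2 fun j _ => h (P.coeff j).2).mono fun i hi => ?_
  obtain ⟨q, e, -, hq⟩ := lifts_and_natDegree_eq_and_monic (f := algebraMap (E i) L)
    (p := P.map (algebraMap D L)) ((lifts_iff_coeff_lifts _).2 fun j => by
      by_cases hj : j ∈ P.support
      · exact ⟨⟨_, hi j hj⟩, (coeff_map (algebraMap D L) j).symm⟩
      · exact ⟨0, by simp [notMem_support_iff.1 hj]⟩) (hm.map _)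
  exact ⟨q, hq, by rw [eval₂_eq_eval_map, e, ← eval₂_eq_eval_map, h0]⟩

lemma ev_span {ι : Type} {F : Filter ι} {T : ι → Set L} (h : ∀ s ∈ S, ∀ᶠ i in F, s ∈ T i)
    (hy : y ∈ span O S) : ∀ᶠ i in F, y ∈ span O (T i) := by
  induction hy using span_induction with
  | mem s hs => exact (h s hs).mono fun _ a => subset_span a
  | zero => exact .of_forall fun _ => zero_mem _
  | add _ _ _ _ a b => exact (a.and b).mono fun _ c => add_mem c.1 c.2
  | smul r _ _ a => exact a.mono fun _ c => smul_mem _ r c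

/-- The elements that are constants modulo `S`. -/
def cm (O : Subalgebra k L) (S : Set L) : Subalgebra k L where
  carrier := {y | y ∈ O ∧ ∃ c : k, y - algebraMap k L c ∈ span O S}
  mul_mem' := fun {a b} ⟨ha, c, hc⟩ ⟨hb, d, hd⟩ => ⟨mul_mem ha hb, c * d, by
    rw [show a * b - algebraMap k L (c * d) = a * (b - algebraMap k L d) +
      algebraMap k L d * (a - algebraMap k L c) by rw [map_mul]; ring]
    exact add_mem (mul_mem_span ha hd) (mul_mem_span (O.algebraMap_mem d) hc)⟩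
  add_mem' := fun ⟨ha, c, hc⟩ ⟨hb, d, hd⟩ => ⟨add_mem ha hb, c + d, by
    rw [map_add, add_sub_add_comm]; exact add_mem hc hd⟩
  algebraMap_mem' r := ⟨O.algebraMap_mem r, r, by simp⟩

lemma par_loc (hl : Lcl O) (hD : D ≤ O) (hS : ∀ s ∈ S, s ∈ O ∧ ¬ Un O s)
    (h : D ≤ cm (loc D O) S) : R72.Res.Par (loc D O) S := by
  rintro _ ⟨a, ha, b, hb, hu, rfl⟩
  obtain ⟨-, c, hc⟩ := h ha
  obtain ⟨-, d, hd⟩ := h hb
  have d0 : algebraMap k L d ≠ 0 := fun e =>
    not_un_of_mem_span hl hS (span_mono' (loc_le hD) le_rfl hd) (by rwa [e, sub_zero])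
  have := hu.2.1
  refine ⟨c / d, ?_⟩
  rw [show a / b - algebraMap k L (c / d) = b⁻¹ * (a - algebraMap k L c -
    algebraMap k L (c / d) * (b - algebraMap k L d)) by rw [map_div₀]; field_simp; ring]
  exact mul_mem_span (un_loc hb hu).2.2 (sub_mem hc (mul_mem_span (Subalgebra.algebraMap_mem _ _) hd))

/-- A lattice of full rank has finite index. -/
lemma pow_eq (hx : AlgebraicIndependent k x) (hz : ∀ j, z j ≠ 0) {b : Matrix (Fin n) (Fin n) ℤ}
    (hb : x = fun j => mn z (b j)) (c : Fin n → ℤ) :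
    ∃ N : ℕ, ∃ e, mn x e = mn z c ^ (N + 1) := by
  have hd : b.det ≠ 0 := fun e => by
    obtain ⟨a, ha, e'⟩ := Matrix.exists_vecMul_eq_zero_iff.2 e
    exact ha ((li_mn hx).injective (by rw [mn_zero, hb, ← mn_vecMul hz, e', mn_zero]))
  obtain ⟨N, hN⟩ : ∃ N : ℕ, b.det * b.det = (N + 1 : ℕ) :=
    ⟨(b.det * b.det - 1).toNat, by have := mul_self_pos.2 hd; omega⟩
  refine ⟨N, b.det • Matrix.vecMul c b.adjugate, ?_⟩
  rw [hb, ← mn_vecMul hz, Matrix.smul_vecMul, Matrix.vecMul_vecMul, Matrix.adjugate_mul,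
    Matrix.vecMul_smul, Matrix.vecMul_one, smul_smul, hN, mn_smul, zpow_natCast]

/-- The differences of monomials of `B` and constants that vanish at `O`. -/
def gn (B O : Subalgebra k L) (z : Fin n → L) : Set L :=
  {y | ¬ Un O y ∧ ∃ (c : Fin n → ℤ) (a : k), mn z c ∈ B ∧ y = mn z c - algebraMap k L a}

lemma mons_le : mons B z ≤ B := Algebra.adjoin_le fun _ h => h.1

lemma mem_mons {c : Fin n → ℤ} (h : mn z c ∈ B) : mn z c ∈ mons B z :=
  Algebra.subset_adjoin ⟨h, c, rfl⟩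

lemma mons_mono (h : B ≤ E) : mons B z ≤ mons E z :=
  Algebra.adjoin_mono fun _ a => ⟨h a.1, a.2⟩

lemma gn_mem (h : y ∈ gn B O z) : y ∈ mons B z ∧ ¬ Un O y := by
  obtain ⟨h1, c, a, h2, rfl⟩ := h
  exact ⟨sub_mem (mem_mons h2) (Subalgebra.algebraMap_mem _ _), h1⟩

/-- A point of the normalisation of `O[Q]`, where `Q` is a set of monomials, is a point of the
algebra over `O` of the monomials that are integral over `k[Q]`, and these give a frame. -/
theorem core [PerfectField k] (h1 : MonnStmt k L) (h2 : KitF k L) (hO : Fr n K O x)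
    (hO' : Aff n K' D' O') (hz : ∀ j, z j ∈ K' ∧ z j ≠ 0) (hx : ∀ j, ∃ c, x j = mn z c)
    (hK : K' ≤ K ⊔ IntermediateField.adjoin k (Set.range z)) (hd : Dom O O')
    (hQ : ∀ m ∈ Q, ∃ c, m = mn z c) (hQ' : ∀ c, mn x c ∈ O → mn x c ∈ Q)
    (hP : IsPoint (icl K' (O ⊔ Algebra.adjoin k Q)) O') :
    AlgebraicIndependent k z ∧ IsPoint (O ⊔ mons (icl K' (Algebra.adjoin k Q)) z) O' ∧
      R72.Res.Par O' (gn (icl K' (Algebra.adjoin k Q)) O' z) := by
  classical
  obtain ⟨D, hD⟩ := hO.aff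
  obtain ⟨hi, hk⟩ := h2 n K O x hO
  choose b hb using hx
  have hb' : x = fun j => mn z (Matrix.of b j) := funext hb
  have z0 : ∀ j, z j ≠ 0 := fun j => (hz j).2
  have zK := mn_mem_field fun j => (hz j).1
  have hm : ∀ c, mn x c = mn z (Matrix.vecMul c (Matrix.of b)) := fun c => by
    rw [mn_vecMul z0, ← hb']
  have hzi : AlgebraicIndependent k z := indep z hi le_rfl fun j => by
    rw [hb, mn_eq_div z0, div_eq_mul_inv]
    exact (isIntegral_of_mem (mn_mem_adjoin z (posPart_nonneg _))).isAlgebraic.mul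
      (isIntegral_of_mem (mn_mem_adjoin z (negPart_nonneg _))).isAlgebraic.inv
  have hl := hP.lcl
  have hOK := hO'.le_field
  have hQK : Algebra.adjoin k Q ≤ K'.toSubalgebra := Algebra.adjoin_le fun m a => by
    obtain ⟨c, rfl⟩ := hQ m a
    exact zK c
  have hDO : D ≤ O' := hD.pt.le.trans hd.1
  have hBO : icl K' (Algebra.adjoin k Q) ≤ O' := (icl_mono le_sup_right).trans hP.le
  have hR : D ⊔ Algebra.adjoin k Q ≤ O' := sup_le hDO ((le_icl hQK).trans hBO)
  have hO1 : ∀ E, D ≤ E → O ≤ loc E O' := fun E a => hD.pt.le_loc.trans (loc_mono a hd.1)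
  have hP1 : IsPoint (icl K' (D ⊔ Algebra.adjoin k Q)) O' :=
    IsPoint.icl (isPoint_loc hR hl) (hR.trans hOK) (hP.of_le_loc
      (fun y a => IsPoint.mem_of_isIntegral hP a.1 (isIntegral_mono (loc_le hR) a.2))
      ((icl_mono (sup_le (hO1 _ le_sup_left) (le_sup_right.trans (le_loc _ _)))).trans
        (le_loc _ _)))
  let A : Finset L → Subalgebra k L := fun T => Algebra.adjoin k (T ∩ Q)
  have hAQ : ∀ T, A T ≤ Algebra.adjoin k Q := fun T => Algebra.adjoin_mono Set.inter_subset_right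
  have e0 : ∀ m ∈ Q, ∀ᶠ T in atTop, m ∈ A T := fun m a =>
    (eventually_ge_atTop {m}).mono fun T c =>
      Algebra.subset_adjoin ⟨c (Finset.mem_singleton_self m), a⟩
  have e1 : ∀ y ∈ O', ∀ᶠ T in atTop, y ∈ loc (icl K' (D ⊔ A T)) O' := fun y hy => by
    have h3 : D ⊔ Algebra.adjoin k Q ≤ evs atTop fun T => D ⊔ A T :=
      sup_le (fun d a => .of_forall fun T => (le_sup_left : D ≤ _) a)
        (Algebra.adjoin_le fun m a => (e0 m a).mono fun T c => (le_sup_right : A T ≤ _) c)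
    obtain ⟨u, hu, w, hw, h4, rfl⟩ := hP1.le_loc hy
    exact ((ev_int h3 hu.2).and (ev_int h3 hw.2)).mono fun T c =>
      ⟨u, ⟨hu.1, c.1⟩, w, ⟨hw.1, c.2⟩, h4, rfl⟩
  have e2 : ∀ y ∈ O, ∀ᶠ T in atTop, ∃ c : k,
      y - algebraMap k L c ∈ span O (gn (icl K' (A T)) O' z) := fun y hy => by
    obtain ⟨c, hc⟩ := hD.rt y hy
    refine (ev_span ?_ (hO.fr.gen _ (sub_mem hy (O.algebraMap_mem c)) hc)).mono fun T a => ⟨c, a⟩
    rintro _ ⟨h3, e, a, h4, rfl⟩
    exact (e0 _ (hQ' e h4)).mono fun T h5 =>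
      ⟨fun h6 => h3 (hd.2 _ (sub_mem h4 (O.algebraMap_mem a)) h6), _, a,
        hm e ▸ le_icl ((hAQ T).trans hQK) h5, by rw [hm]⟩
  have e3 : ∀ j, ∀ᶠ T in atTop, z j ∈ loc (mons (icl K' (A T)) z) ⊤ := fun j => by
    obtain ⟨N, e, he⟩ := pow_eq hi z0 hb' (Pi.single j 1)
    obtain ⟨e', h3, h4⟩ := hk e
    refine ((e0 _ (hQ' _ h3)).and (e0 _ (hQ' _ h4))).mono fun T h5 => ?_
    refine ⟨_, mem_mons (c := Pi.single j 1 + Matrix.vecMul e' (Matrix.of b)) ⟨zK _,
      .of_pow N.succ_pos (isIntegral_of_mem ?_)⟩, _,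
      mem_mons (hm e' ▸ le_icl ((hAQ T).trans hQK) h5.1), ⟨trivial, mn_ne_zero z0 _, trivial⟩, ?_⟩
    · rw [mn_add z0, mul_pow, ← he, ← hm, pow_succ', ← mul_assoc, ← mn_add hi.ne_zero]
      exact mul_mem h5.2 (pow_mem h5.1 N)
    · rw [mn_add z0, mul_div_cancel_right₀ _ (mn_ne_zero z0 _), mn_single, zpow_one]
  obtain ⟨G, hG⟩ := hD.fg
  obtain ⟨G', hG'⟩ := hO'.fg
  obtain ⟨T, ⟨f1, f2⟩, f3⟩ := ((((eventually_all_finset G').2 fun y a =>
    e1 y (hO'.pt.le (hG' ▸ Algebra.subset_adjoin a))).and ((eventually_all_finset G).2 fun y a =>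
    e2 y (hD.pt.le (hG ▸ Algebra.subset_adjoin a)))).and (eventually_all.2 e3)).exists
  have hB : icl K' (A T) ≤ icl K' (Algebra.adjoin k Q) := icl_mono (hAQ T)
  set B := icl K' (A T)
  let E := D ⊔ mons B z
  have hE : E ≤ O' := sup_le hDO (mons_le.trans (hB.trans hBO))
  have g1 : D ⊔ A T ≤ E := sup_le_sup_left (Algebra.adjoin_le fun m a => Algebra.subset_adjoin
    (And.intro (le_icl ((hAQ T).trans hQK) (Algebra.subset_adjoin a)) (hQ m a.2))) D
  have g2 : E ≤ icl K' (D ⊔ A T) := sup_le (le_sup_left.trans (le_icl (g1.trans (hE.trans hOK))))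
    (mons_le.trans (icl_mono le_sup_right))
  have g3 : K' ≤ (loc E ⊤).toIntermediateField fun y a => by
      by_cases e : y = 0
      exacts [by simp [e], inv_mem_loc a ⟨trivial, e, trivial⟩] := by
    refine hK.trans (sup_le (fun y a => ?_) (IntermediateField.adjoin_le_iff.2 ?_))
    · obtain ⟨w, hw, w0, h3⟩ := hD.frac y a
      exact ⟨_, (le_sup_left : D ≤ E) h3, w, (le_sup_left : D ≤ E) hw, ⟨trivial, w0, trivial⟩,
        (mul_div_cancel_left₀ y w0).symm⟩
    · rintro _ ⟨j, rfl⟩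
      exact loc_mono le_sup_right le_rfl (f3 j)
  have g4 : E.FG := fg_of_le (hD.fg.sup (Subalgebra.fg_def.2
    ⟨_, T.finite_toSet.inter_of_left Q, rfl⟩)) hO'.fg_field (fun y a => by
      obtain ⟨u, hu, w, hw, -, rfl⟩ := g3 a
      rw [div_eq_mul_inv]
      exact (g2 hu).2.isAlgebraic.mul (g2 hw).2.isAlgebraic.inv) g1 g2
  have g5 : R72.Res.Par (loc E O') (gn B O' z) := by
    refine par_loc hl hE (fun s a => ⟨hE ((le_sup_right : _ ≤ E) (gn_mem a).1), a.1⟩)
      (sup_le (hG ▸ Algebra.adjoin_le fun y a => ?_) (Algebra.adjoin_le ?_))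
    · obtain ⟨c, hc⟩ := f2 y a
      exact ⟨le_loc _ _ ((le_sup_left : D ≤ E) (hG ▸ Algebra.subset_adjoin a)), c,
        span_mono' (hO1 E le_sup_left) le_rfl hc⟩
    · rintro _ ⟨a, c, rfl⟩
      obtain ⟨d, hd'⟩ := hO'.rt _ (hBO (hB a))
      exact ⟨le_loc _ _ ((le_sup_right : _ ≤ E) (mem_mons a)), d, subset_span ⟨hd', c, d, a, rfl⟩⟩
  have := h1 n K' B z hzi (fun j => (hz j).1) fun y => mem_icl_of_isIntegral
  have := normal_of_par g4 (isPoint_loc hE hl) (le_sup_right.trans (le_loc _ _))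
    (fun s a => ⟨(gn_mem a).1, fun c => a.1 (c.mono (loc_le hE))⟩) g5
  have g6 : icl K' (D ⊔ A T) ≤ loc E O' := fun y a => by
    obtain ⟨u, hu, w, hw, w0, rfl⟩ := g3 a.1
    exact mem_of_integral (le_loc _ _ hw) w0.2.1
      (by rw [mul_div_cancel₀ _ w0.2.1]; exact le_loc _ _ hu)
      (isIntegral_mono (g1.trans (le_loc _ _)) a.2)
  have g7 : O' ≤ loc E O' := hO'.pt.le_loc.trans (loc_le_loc
    (hG' ▸ Algebra.adjoin_le fun y a => loc_le_loc g6 hE (f1 y a)) hE)
  rw [le_antisymm (loc_le hE) g7] at g5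
  exact ⟨hzi, ⟨sup_le hd.1 (mons_le.trans hBO), hl, g7.trans (loc_mono
    (sup_le_sup hD.pt.le (mons_mono hB)) le_rfl)⟩,
    g5.mono fun s ⟨a, c, d, e, f⟩ => subset_span ⟨a, c, d, hB e, f⟩⟩

end Blow

variable {k L : Type} [Field k] [Field L] [Algebra k L]

theorem blow [PerfectField k] (h1 : MonnStmt k L) (h2 : KitF k L) : BlowStmt k L := by
  intro n K K' O O' D' x z hO hO' hz hx hK hd hP
  have hB : icl K' (mons O' z) ≤ O' := (icl_mono le_sup_right).trans hP.le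
  obtain ⟨-, h3, h4⟩ := Blow.core h1 h2 hO hO' hz hx hK hd (fun _ a => a.2) (fun c a => by
    choose b hb using hx
    exact ⟨hd.1 a, Matrix.vecMul c (Matrix.of b), by
      rw [mn_vecMul fun j => (hz j).2]; exact congrArg (mn · c) (funext hb)⟩) hP
  refine ⟨⟨⟨D', hO'⟩, ⟨fun j => (hz j).2, fun y a u => ?_⟩, fun j => (hz j).1,
    fun y => IsPoint.mem_of_isIntegral hP⟩, h3.of_le_loc (sup_le hd.1 Blow.mons_le)
      ((sup_le_sup_left (Blow.mons_mono hB) O).trans (le_loc _ _))⟩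
  refine span_mono' le_rfl ?_ (h4.mem_span hP.lcl
    (fun s a => ⟨hB (Blow.mons_le (Blow.gn_mem a).1), a.1⟩) a u)
  exact fun s ⟨a, c, d, e, f⟩ => ⟨a, c, d, hB e, f⟩

end Pool.Agent.MP_19ffc6_ag.Perf
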