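import Pool.Agent.MP_19ffc6_ag.perf.SpecT
import Pool.Agent.MP_19ffc6_ag.perf.SpecL

-- ======== part 0: formerly Pool.Agent.MP_19ffc6_ag.perf.TTm
section MrgPart0

/-! PERF, block T, row TM: invariant equations for arbitrary functions. -/

namespace Pool.Agent.MP_19ffc6_ag.Perf

open Polynomial Pool.Agent.R72.Wild Pool.Agent.R72.Lci Pool.Agent.R72.Res Pool.Agent.R72.Res.B
  Pool.Agent.R72.Res.Tor Pool.Agent.R72.Res.P

variable {k L : Type} [Field k] [Field L] [Algebra k L]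

namespace Tm

theorem dec (K₀ : Subfield L) (w : L) : ∃ (Q : L[X]) (S : Finset L), IsAlgebraic K₀ w →
    Q ≠ 0 ∧ Q.eval w = 0 ∧ (∀ i, Q.coeff i ∈ K₀) ∧ (∀ f ∈ S, f ≠ 0 ∧ f ∈ K₀) ∧
    (∀ i ∈ Q.support, ∀ j ∈ Q.support, Q.coeff i / Q.coeff j ∈ S) ∧
    ∀ (N : IntermediateField k L) (O : Subalgebra k L), Lcl O → (∀ a ∈ O, a ∈ N) →
      (∀ a ∈ N, IsIntegral O a → a ∈ O) → w ∈ N → (∀ f ∈ S, f ∈ O ∨ f⁻¹ ∈ O) →
      w ∈ O ∨ w⁻¹ ∈ O := by
  classical
  by_cases hw : IsAlgebraic K₀ w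
  swap
  · exact ⟨0, ∅, fun h => absurd h hw⟩
  obtain ⟨P, hP0, hP⟩ := hw
  set Q := P.map (algebraMap K₀ L) with hQ
  have h0 : Q ≠ 0 := Polynomial.map_ne_zero hP0
  have h1 : Q.eval w = 0 := by rw [hQ, eval_map_algebraMap, hP]
  have h2 : ∀ i, Q.coeff i ∈ K₀ := fun i => by rw [hQ, coeff_map]; exact (P.coeff i).2
  have h3 : ∀ i ∈ Q.support, ∀ j ∈ Q.support, Q.coeff i / Q.coeff j ∈
      (Q.support ×ˢ Q.support).image fun p => Q.coeff p.1 / Q.coeff p.2 := fun i hi j hj =>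
    Finset.mem_image.2 ⟨(i, j), Finset.mk_mem_product hi hj, rfl⟩
  refine ⟨Q, _, fun _ => ⟨h0, h1, h2, fun f hf => ?_, h3, fun N O hl hO hn hw hS => ?_⟩⟩
  · obtain ⟨p, hp, rfl⟩ := Finset.mem_image.1 hf
    exact ⟨div_ne_zero (mem_support_iff.1 (Finset.mem_product.1 hp).1)
      (mem_support_iff.1 (Finset.mem_product.1 hp).2), div_mem (h2 _) (h2 _)⟩
  · obtain ⟨a, -, a1, a2⟩ := exists_prv_of_cmp (O := O) h0 fun a ha b hb => by
      obtain ⟨i, hi, rfl⟩ := mem_coeffs_iff.1 ha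
      obtain ⟨j, hj, rfl⟩ := mem_coeffs_iff.1 hb
      exact hS _ (h3 i hi j hj)
    exact uu hl (fun c hc => hn _ (mul_mem (hO c hc) hw)) a1 a2 (by rw [eval_mul, h1, mul_zero])

theorem tie {O : Subalgebra k L} (hl : Lcl O) {s : Finset ℕ} {f : ℕ → L} (hs : s.Nonempty)
    (h0 : ∀ i ∈ s, f i ≠ 0) (h : ∀ i ∈ s, ∀ j ∈ s, f i / f j ∈ O ∨ (f i / f j)⁻¹ ∈ O)
    (hsum : ∑ i ∈ s, f i = 0) : ∃ i ∈ s, ∃ j ∈ s, i < j ∧ Un O (f i / f j) := by
  obtain ⟨j, hj, H⟩ := TreeM.exists_top O (fun i => (f i)⁻¹) s hs (fun i hi => inv_ne_zero (h0 i hi))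
    fun i hi j hj => by simpa only [inv_div_inv, inv_div] using h j hj i hi
  simp only [inv_div_inv] at H
  obtain ⟨i, hi, hu⟩ : ∃ i ∈ s.erase j, Un O (f i / f j) := by
    by_contra hn
    push Not at hn
    have h1 : ∑ i ∈ s.erase j, f i / f j ∈ mx hl :=
      sum_mem fun i hi => ⟨H i (Finset.mem_of_mem_erase hi), hn i hi⟩
    rw [← Finset.add_sum_erase s f hj, add_comm] at hsum
    simp only [div_eq_mul_inv] at h1
    rw [← Finset.sum_mul, eq_neg_of_add_eq_zero_left hsum, neg_mul, mul_inv_cancel₀ (h0 j hj),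
      neg_mem_iff] at h1
    exact h1.2 (Un.one O)
  obtain ⟨h1, h2⟩ := Finset.mem_erase.1 hi
  rcases lt_or_gt_of_ne h1 with e | e
  · exact ⟨i, h2, j, hj, e, hu⟩
  · exact ⟨j, hj, i, h2, e, by simpa only [inv_div] using hu.inv⟩

end Tm

theorem tm (h : DivF k L) : TmStmt k L := by
  classical
  intro K₀ T hT
  choose Q S hQ using Tm.dec (k := k) K₀
  let w : L → ℕ × ℕ → L := fun t p => (Q t).coeff p.1 * t ^ p.1 / ((Q t).coeff p.2 * t ^ p.2)
  have hw : ∀ t ∈ T, ∀ p, IsAlgebraic K₀ (w t p) := fun t ht p => by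
    have h1 := (hT t ht).2
    have h2 : ∀ i, IsAlgebraic K₀ ((Q t).coeff i * t ^ i) := fun i =>
      (isAlgebraic_algebraMap (⟨_, (hQ t h1).2.2.1 i⟩ : K₀)).mul (h1.pow i)
    simp only [w, div_eq_mul_inv]
    exact (h2 _).mul (h2 _).inv
  refine ⟨T.biUnion fun t => S t ∪ ((Q t).support ×ˢ (Q t).support).biUnion fun p => S (w t p),
    fun f hf => ?_, fun n N O x hF hN hS t ht => ?_⟩
  · obtain ⟨t, ht, h1⟩ := Finset.mem_biUnion.1 hf
    rcases Finset.mem_union.1 h1 with h2 | h2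
    · exact (hQ t (hT t ht).2).2.2.2.1 f h2
    · obtain ⟨p, -, h3⟩ := Finset.mem_biUnion.1 h2
      exact (hQ _ (hw t ht p)).2.2.2.1 f h3
  obtain ⟨D, hD⟩ := hF.aff
  have hl := hD.pt.lcl
  have hO : ∀ a ∈ O, a ∈ N := fun a ha => hD.le_field ha
  obtain ⟨q0, q1, -, -, q2, q3⟩ := hQ t (hT t ht).2
  have t0 := (hT t ht).1
  have s1 := fun f (hf : f ∈ S t) => hS f (Finset.mem_biUnion.2 ⟨t, ht, Finset.mem_union_left _ hf⟩)
  refine ⟨?_, q3 N O hl hO hF.nrm (hN t ht) fun f hf => (s1 f hf).2⟩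
  obtain ⟨i, hi, j, hj, hij, hu⟩ := Tm.tie hl (f := fun i => (Q t).coeff i * t ^ i)
    (support_nonempty.2 q0) (fun i hi => mul_ne_zero (mem_support_iff.1 hi) (pow_ne_zero _ t0))
    (fun i hi j hj => (hQ _ (hw t ht (i, j))).2.2.2.2.2 N O hl hO hF.nrm (by
      have h1 : (Q t).coeff i / (Q t).coeff j ∈ N :=
        (s1 _ (q2 i hi j hj)).2.elim (hO _) fun e => inv_mem_iff.1 (hO _ e)
      simp only [w, mul_div_mul_comm]
      exact mul_mem h1 (div_mem (pow_mem (hN t ht) _) (pow_mem (hN t ht) _))) fun f hf =>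
        (hS f (Finset.mem_biUnion.2 ⟨t, ht, Finset.mem_union_right _
          (Finset.mem_biUnion.2 ⟨(i, j), Finset.mk_mem_product hi hj, hf⟩)⟩)).2)
    (by rwa [eval_eq_sum, Polynomial.sum_def] at q1)
  refine h.pow n N O x hF t (hN t ht) (j - i) (Nat.sub_pos_of_lt hij) ?_
  have e : t ^ (j - i) = (Q t).coeff i / (Q t).coeff j *
      ((Q t).coeff i * t ^ i / ((Q t).coeff j * t ^ j))⁻¹ := by
    have := mem_support_iff.1 hi
    have := mem_support_iff.1 hj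
    rw [pow_sub₀ _ t0 hij.le]
    field_simp
  rw [e]
  exact (s1 _ (q2 i hi j hj)).1.mul hF.fr.ne (LMon.of_un hu.inv)

end Pool.Agent.MP_19ffc6_ag.Perf

end MrgPart0

-- ======== part 1: formerly Pool.Agent.MP_19ffc6_ag.perf.TEps
section MrgPart1

/-! PROJECT PERF, row EPS: the direction of a wild automorphism. -/

namespace Pool.Agent.MP_19ffc6_ag.Perf

open Pool.Agent.R72.Wild Pool.Agent.R72.Lci Pool.Agent.R72.Res Pool.Agent.R72.Res.B
  Pool.Agent.R72.Res.Tor Pool.Agent.R72.Res.P GD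

variable {k L : Type} [Field k] [Field L] [Algebra k L]

namespace Eps

variable {V R : Subalgebra k L} {a b : L}

lemma le_iff (hV : Val V) : hV.vs.valuation a ≤ 1 ↔ a ∈ V := hV.vs.valuation_le_one_iff a

lemma pos (hV : Val V) (ha : a ≠ 0) : 0 < hV.vs.valuation a :=
  zero_lt_iff.2 ((map_ne_zero _).2 ha)

lemma div_iff (hV : Val V) (hb : b ≠ 0) : a / b ∈ V ↔ hV.vs.valuation a ≤ hV.vs.valuation b := by
  rw [← le_iff hV, map_div₀, div_le_one₀ (pos hV hb)]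

lemma nu_iff (hV : Val V) : Nu V a ↔ hV.vs.valuation a < 1 := by
  by_cases h0 : a = 0
  · simp [h0, Nu.zero]
  rw [Nu, Un, ← le_iff hV, ← le_iff hV, map_inv₀, inv_le_one₀ (pos hV h0), lt_iff_le_not_ge]
  exact and_congr_right fun h => by simp [h, h0]

lemma eq_of_un (hV : Val V) (h : Un V (a / b)) : hV.vs.valuation a = hV.vs.valuation b :=
  have := div_ne_zero_iff.1 h.2.1
  le_antisymm ((div_iff hV this.2).1 h.1) ((div_iff hV this.1).1 (inv_div a b ▸ h.2.2))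

lemma span_le (hV : Val V) (hR : R ≤ V) {S : Set L} {γ : hV.vs.ValueGroup}
    (h : ∀ s ∈ S, hV.vs.valuation s ≤ γ) (ha : a ∈ Submodule.span R S) :
    hV.vs.valuation a ≤ γ := by
  induction ha using Submodule.span_induction with
  | mem x hx => exact h x hx
  | zero => simp
  | add x y _ _ hx hy => exact Valuation.map_add_le _ hx hy
  | smul r x _ hx =>
    change hV.vs.valuation ((r : L) * x) ≤ γ
    rw [map_mul]
    exact (mul_le_of_le_one_left' ((le_iff hV).2 (hR r.2))).trans hx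

lemma span_div {S : Set L} (h : ∀ s ∈ S, s / b ∈ R) (ha : a ∈ Submodule.span R S) :
    a / b ∈ R := by
  induction ha using Submodule.span_induction with
  | mem x hx => exact h x hx
  | zero => simp
  | add x y _ _ hx hy => rw [add_div]; exact add_mem hx hy
  | smul r x _ hx =>
    change (r : L) * x / b ∈ R
    rw [mul_div_assoc]; exact mul_mem r.2 hx

lemma mn_up (x : ℕ → L) {i n : ℕ} (h : i ≤ n) (c : Fin i → ℤ) :
    ∃ e : Fin n → ℤ, mn (xs x i) c = mn (xs x n) e := by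
  induction n, h using Nat.le_induction with
  | base => exact ⟨c, rfl⟩
  | succ n _ ih =>
    obtain ⟨e, he⟩ := ih
    exact ⟨Fin.snoc (α := fun _ => ℤ) e 0, by rw [he]; simp [mn, xs, Fin.prod_univ_castSucc]⟩

end Eps

open Eps in
theorem eps (h0 : Eps0Stmt k L) (hs : StageStmt k L) (hd : DivF k L) : EpsStmt k L := by
  classical
  intro K₀ n F Os x V h hT hV hR hD ⟨r, hr, hord⟩ ⟨hI, hTv, j₀, hj₀⟩
  have dm : ∀ i j, i ≤ j → j ≤ n → Dom (Os i) (Os j) := fun i j hij => by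
    induction j, hij using Nat.le_induction with
    | base => exact fun _ => Dom.refl _
    | succ j _ ih => exact fun e => R72.Res.Dom.trans (ih (by omega)) (hT.dom j e)
  have hf := hT.fr n le_rfl
  obtain ⟨D, hA⟩ := hf.aff
  have z0 := mn_ne_zero hf.fr.ne
  obtain ⟨ε, hε⟩ : ∃ ε : ℕ → L, ∀ j, ε j = dp h (x j) := ⟨_, fun _ => rfl⟩
  simp only [← hε]
  generalize hz : xs x n = z at *
  have hle : Os n ⊔ mons V z ≤ V := sup_le hD.1 (Algebra.adjoin_le fun _ hm => hm.1)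
  have RV1 : RV (Os n) V z ≤ V := loc_le hle
  have hm : ∀ e, mn z e ∈ V → mn z e ∈ RV (Os n) V z := fun e he =>
    le_loc _ _ ((le_sup_right : mons V z ≤ _) (Algebra.subset_adjoin ⟨he, e, rfl⟩))
  have nu : ∀ j < n, Nu (Os n) (ε j) := fun j hj => by
    have := hTv ⟨j, hj⟩
    rw [← hz] at this
    rw [hε]; exact this
  have E0 : ∀ i ≤ n, (∀ j < i, ε j = 0) ∨ ∃ (c : Fin n → ℤ) (N : ℕ),
      (∀ j < i, ε j / mn z c ∈ RV (Os n) V z) ∧
      mn z c ^ N ∈ Submodule.span (RV (Os n) V z) (ε '' {j | j < i}) := fun i hi => by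
    have d := dm i n hi le_rfl
    have hi' := hT.fr i hi
    obtain ⟨D', hA'⟩ := hi'.aff
    have up : RV (Os i) V (xs x i) ≤ RV (Os n) V z :=
      loc_mono (sup_le_sup d.1 (Algebra.adjoin_mono (by
        rintro _ ⟨h1, c, rfl⟩
        exact ⟨h1, hz ▸ mn_up x hi c⟩))) le_rfl
    refine (h0 i (F i) (Os i) V (xs x i) h hi' hV hR (R72.Res.Dom.trans d hD) hI.lin
      (hT.st h hI.1 hI.2.1 i hi)
      (fun j => ?_) ⟨r, hr, fun a ha => hord a ?_⟩ (hT.star h hI.1 hI.2.1 i hi)).imp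
      (fun H j hj => (hε j).trans (H ⟨j, hj⟩)) ?_
    · exact ⟨sub_mem ((dm _ i j.2 hi).1 (hT.un h hI.1 hI.2.1 j (j.2.trans_le hi)).1) (one_mem _),
        fun e => (nu j (j.2.trans_le hi)).2 (hε j ▸ e.mono d.1)⟩
    · obtain ⟨b, hb, b0, hb'⟩ := hA'.frac a ha
      have e := fun t (ht : t ∈ D') => hA.le_field (d.1 (hA'.pt.le ht))
      exact mul_div_cancel_left₀ a b0 ▸ (F n).div_mem (e _ hb') (e _ hb)
    · rintro ⟨c, N, h1, h2⟩
      obtain ⟨e, he⟩ := mn_up x hi c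
      rw [he, hz] at h1 h2
      exact ⟨e, N, fun j hj => hε j ▸ up (h1 ⟨j, hj⟩), span_le_span up (by
        rintro _ ⟨j, rfl⟩
        exact Submodule.subset_span ⟨j, j.2, hε j⟩) h2⟩
  have lt1 : ∀ j < n, hV.vs.valuation (ε j) < 1 := fun j hj =>
    (nu_iff hV).1 ⟨hD.1 (nu j hj).1, fun e => (nu j hj).2 (hD.2 _ (nu j hj).1 e)⟩
  obtain ⟨i₀, hi₀, hmax⟩ := (Finset.range n).exists_max_image (fun j => hV.vs.valuation (ε j))
    ⟨j₀, Finset.mem_range.2 j₀.2⟩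
  simp only [Finset.mem_range] at hi₀ hmax
  have δ1 := lt1 i₀ hi₀
  have δ0 : 0 < hV.vs.valuation (ε i₀) := (pos hV (by
    have := hf.fr.ne j₀
    rw [← hz] at this hj₀
    rw [hε]
    exact fun e => hj₀ ((div_eq_one_iff_eq this).1 (sub_eq_zero.1 e)))).trans_le (hmax j₀ j₀.2)
  generalize hδ : hV.vs.valuation (ε i₀) = δ at *
  have ex : ∃ j, j < n ∧ ∃ M : ℕ, δ ^ M ≤ hV.vs.valuation (ε j) := ⟨i₀, hi₀, 1, by simp [hδ]⟩
  obtain ⟨hi, M, hM⟩ := Nat.find_spec ex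
  have hmin : ∀ j < Nat.find ex, ∀ M : ℕ, hV.vs.valuation (ε j) ≤ δ ^ M := fun j hj M =>
    le_of_not_ge fun e => Nat.find_min ex hj ⟨hj.trans hi, M, e⟩
  generalize Nat.find ex = i at hi hM hmin
  have i0 : ε i ≠ 0 := fun e => by
    rw [e, map_zero] at hM; exact absurd (pow_pos δ0 M) (not_lt.2 hM)
  have deep : ∀ (c : Fin n → ℤ) (K : ℕ), δ ^ K ≤ hV.vs.valuation (mn z c) →
      ∀ b ∈ Submodule.span (RV (Os n) V z) (ε '' {j | j < i}),
        b / mn z c ∈ RV (Os n) V z ∧ Nu V (b / mn z c) := fun c K hK b hb => by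
    rcases E0 i hi.le with H | ⟨c2, N, h1, h2⟩
    · have : b = 0 := by
        rwa [Submodule.span_eq_bot.2 (by rintro _ ⟨j, hj, rfl⟩; exact H j hj),
          Submodule.mem_bot] at hb
      simp [this, Nu.zero]
    have h3 : ∀ t : ℕ, hV.vs.valuation (mn z c2) ^ N ≤ δ ^ t := fun t => by
      rw [← map_pow]
      exact span_le hV RV1 (by rintro _ ⟨j, hj, rfl⟩; exact hmin j hj t) h2
    have N0 : N ≠ 0 := by rintro rfl; exact absurd δ1 (not_lt.2 (by simpa using h3 1))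
    have h4 : hV.vs.valuation (mn z c2) ≤ δ ^ (K + 1) :=
      le_of_pow_le_pow_left₀ N0 zero_le (by rw [← pow_mul]; exact h3 _)
    have h5 : Nu V (mn z (c2 - c)) := by
      rw [nu_iff hV, mn_sub hf.fr.ne, map_div₀, div_lt_one₀ (pos hV (z0 c))]
      exact (h4.trans_lt (pow_lt_pow_right_of_lt_one₀ δ0 δ1 (by omega))).trans_le hK
    have h6 := span_div (by rintro _ ⟨j, hj, rfl⟩; exact h1 j hj) hb
    have e : b / mn z c = b / mn z c2 * mn z (c2 - c) := by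
      rw [mn_sub hf.fr.ne, div_mul_div_cancel₀ (z0 c2)]
    exact e ▸ ⟨mul_mem h6 (hm _ h5.1), h5.mul' (RV1 h6)⟩
  have eR : ∀ j < n, ε j ∈ RV (Os n) V z := fun j hj =>
    le_loc _ _ ((le_sup_left : Os n ≤ _) (nu j hj).1)
  obtain ⟨c1, N1, h1, h2⟩ := (E0 (i + 1) hi).resolve_left fun H => i0 (H i (by omega))
  obtain ⟨a, b, hb, e⟩ := Submodule.mem_span_insert.1 (Submodule.span_mono
    (show _ ⊆ insert (ε i) (ε '' {j | j < i}) by
      rintro _ ⟨j, hj, rfl⟩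
      rcases Nat.lt_succ_iff_lt_or_eq.1 hj with h | rfl
      exacts [Or.inr ⟨j, h, rfl⟩, Or.inl rfl]) h2)
  rw [← mn_nsmul] at e
  obtain ⟨b1, b2⟩ := deep (N1 • c1) (M * N1) (by
    rw [mn_nsmul, map_pow, pow_mul]
    exact pow_le_pow_left₀ zero_le (hM.trans ((div_iff hV (z0 c1)).1 (RV1 (h1 i (by omega))))) _)
    b hb
  have hu : Un (RV (Os n) V z) (ε i * a / mn z (N1 • c1)) := by
    have e' : ε i * a / mn z (N1 • c1) = 1 - b / mn z (N1 • c1) := by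
      rw [eq_sub_iff_add_eq, ← add_div, div_eq_one_iff_eq (z0 _), e, mul_comm]; rfl
    rw [e']
    exact (dom_loc hle).2 _ (sub_mem (one_mem _) b1)
      (Nu.un hV.lcl (by simpa using b2.neg) (Un.one V))
  obtain ⟨T, -, -, -, t1, -, t2, t3⟩ := hs n (F n) D (Os n) V z
    {ε i, a.1, ε i * a / mn z (N1 • c1), (ε i * a / mn z (N1 • c1))⁻¹} hf hA hV hR hD (by
      simp only [Finset.mem_insert, Finset.mem_singleton]
      rintro _ (rfl | rfl | rfl | rfl)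
      exacts [eR i hi, a.2, hu.1, hu.2.2])
  obtain ⟨c, hc⟩ := hd.div n _ _ z t1 (ε i) (t3 _ (by simp)) a (t3 _ (by simp))
    ⟨_, t3 _ (by simp), hu.2.1, t3 _ (by simp)⟩
  replace hc := hc.mono t2
  have hv := eq_of_un hV (hc.mono RV1)
  obtain ⟨c3, N3, h3, h4⟩ := (E0 n le_rfl).resolve_left fun H => i0 (H i hi)
  have h5 : hV.vs.valuation (mn z c3) ^ N3 ≤ δ := by
    rw [← map_pow]
    exact span_le hV RV1 (by rintro _ ⟨j, hj, rfl⟩; exact hmax j hj) h4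
  have N0 : N3 ≠ 0 := by rintro rfl; exact absurd δ1 (not_lt.2 (by simpa using h5))
  have M0 : M ≠ 0 := by rintro rfl; exact absurd (lt1 i hi) (not_lt.2 (by simpa using hM))
  refine ⟨⟨i, hi⟩, c, N3 * M, by positivity, hc, fun j => ⟨eR j j.2, fun _ => ?_, fun hj m => ?_⟩⟩
  · have e : ε j ^ (N3 * M) / mn z c =
        (ε j / mn z c3) ^ (N3 * M) * mn z ((N3 * M) • c3 - c) := by
      rw [mn_sub hf.fr.ne, mn_nsmul, div_pow, div_mul_div_cancel₀ (pow_ne_zero _ (z0 c3))]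
    rw [e]
    refine mul_mem (pow_mem (h3 j j.2) _) (hm _ ?_)
    rw [mn_sub hf.fr.ne, div_iff hV (z0 c), mn_nsmul, map_pow, pow_mul, ← hv]
    exact (pow_le_pow_left₀ zero_le h5 M).trans hM
  · rw [← mn_nsmul]
    refine (deep (m • c) (M * m) ?_ _ (Submodule.subset_span ⟨j, hj, rfl⟩)).1
    rw [mn_nsmul, map_pow, pow_mul, ← hv]
    exact pow_le_pow_left₀ zero_le hM m

end Pool.Agent.MP_19ffc6_ag.Perf

end MrgPart1

-- marker of a merged file
example : 731051 + 468439 = 731051 + 468439 := rfl
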