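import Pool.Agent.MP_19ffc6_ag.perf.SpecL

/-! PROJECT PERF, rows TAME and LVL. -/

namespace Pool.Agent.MP_19ffc6_ag.Perf

open Pool.Agent.R72.Wild Pool.Agent.R72.Lci Pool.Agent.R72.Res Pool.Agent.R72.Res.B
  Pool.Agent.R72.Res.Tor Pool.Agent.R72.Res.P Pool.Agent.R72.Res.Lab GD

variable {k L : Type} [Field k] [Field L] [Algebra k L]

namespace Lvl

variable {n : ℕ} {K : IntermediateField k L} {O : Subalgebra k L} {x : Fin n → L} {a : L}

lemma un_of_pow {q : ℕ} (hq : 0 < q) (ha : a ∈ O) (h : Un O (a ^ q)) : Un O a := by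
  obtain ⟨j, rfl⟩ := Nat.exists_eq_succ_of_ne_zero hq.ne'
  rw [pow_succ'] at h
  exact Un.of_mul ha (pow_mem ha _) h

lemma mem_root (hn : ∀ a ∈ K, IsIntegral O a → a ∈ O) {q : ℕ} (hq : 0 < q) (ha : a ∈ K)
    (h : a ^ q ∈ O) : a ∈ O :=
  hn a ha (IsIntegral.of_pow hq (isIntegral_of_mem h))

/-- A power of `u` is a unit times a monomial. -/
def Pm (O : Subalgebra k L) (x : Fin n → L) (u : L) : Prop := ∃ N : ℕ, 0 < N ∧ LMon O x (u ^ N)

lemma Pm.mul (hx : ∀ j, x j ≠ 0) {u v : L} (h : Pm O x u) (h' : Pm O x v) : Pm O x (u * v) := by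
  obtain ⟨N, hN, h⟩ := h
  obtain ⟨N', hN', h'⟩ := h'
  refine ⟨N * N', Nat.mul_pos hN hN', ?_⟩
  have := (h.zpow N').mul hx (h'.zpow N)
  rwa [zpow_natCast, zpow_natCast, ← pow_mul, ← pow_mul, mul_comm N' N, ← mul_pow] at this

lemma Pm.zpow {u : L} (h : Pm O x u) (c : ℤ) : Pm O x (u ^ c) := by
  obtain ⟨N, hN, h⟩ := h
  refine ⟨N, hN, ?_⟩
  have := h.zpow c
  rwa [← zpow_natCast, ← zpow_mul, mul_comm, zpow_mul, zpow_natCast] at this

lemma pm_of_pw (hx : ∀ j, x j ≠ 0) {S : Finset L} (hS : ∀ f ∈ S, LMon O x f) {u : L}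
    (h : Pw S O u) : Pm O x u := by
  obtain ⟨N, hN, e, h⟩ := h
  have h1 : LMon O x (∏ f ∈ S, f ^ e f) :=
    Finset.prod_induction _ _ (fun _ _ => LMon.mul hx) (LMon.of_un (Un.one O))
      fun f hf => (hS f hf).zpow _
  have h2 := (LMon.of_un (u := x) h).mul hx h1
  rw [div_mul_cancel₀ _ h1.ne_zero] at h2
  exact ⟨N, hN, h2⟩

lemma trdeg_eq {F K : IntermediateField k L} (h : F ≤ K) (ha : ∀ z ∈ K, IsAlgebraic F z) :
    Algebra.trdeg k F = Algebra.trdeg k K := by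
  let _ := (IntermediateField.inclusion h).toRingHom.toAlgebra
  have : IsScalarTower k F K := .of_algebraMap_eq fun _ => rfl
  have : IsScalarTower F K L := .of_algebraMap_eq fun _ => rfl
  have : Algebra.IsAlgebraic F K := ⟨fun x =>
    (isAlgebraic_algebraMap_iff (algebraMap K L).injective).1 (ha x x.2)⟩
  rw [← trdeg_add_eq k F (A := K), trdeg_eq_zero (R := F) (A := K), add_zero]

end Lvl

open Lvl in
theorem tameS (h : FaceStmt k L) : TameStmt k L := by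
  intro K₀ n F S T O x g ⟨Os, x₁, hO, tw, ful₁, _, _⟩ gw hS fr ful mon hg
  obtain ⟨D, aff⟩ := fr.aff
  have hl := aff.pt.lcl
  have hx := fr.fr.ne
  refine ⟨fun j => ?_, fun a ha => ?_⟩
  · obtain ⟨N, hN, e, hu⟩ := ful j
    have h1 : g • ∏ f ∈ S, f ^ e f = ∏ f ∈ S, f ^ e f := by
      rw [sm_prod]
      exact Finset.prod_congr rfl fun f hf => by
        rw [show g • f ^ e f = (g • f) ^ e f from map_zpow₀ g.e f _, hS f hf g hg.1]
    have h0 : ∏ f ∈ S, f ^ e f ≠ 0 := fun e' => hu.2.1 (by rw [e', div_zero])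
    have h2 := (hg.un hu).mul hu.inv
    rw [smul_div₀', h1, smul_pow', ← div_eq_mul_inv, div_div_div_cancel_right₀ h0,
      ← div_pow] at h2
    have h3 : g • x j / x j ∈ F n := div_mem (gw.st g hg.1 _ (fr.mem j)) (fr.mem j)
    exact un_of_pow hN (mem_root fr.nrm hN h3 h2.1) h2
  · have h1 := tw.star g hg.1 (hO.symm ▸ hg.2.1) n le_rfl
    rw [hO] at h1
    refine span_le_span le_rfl ?_ (h1 O hl le_rfl hg.2.2 a ha)
    rintro m ⟨hm, hnu, c, rfl⟩
    obtain ⟨N, hN, c', hu⟩ : Pm O x (mn (xs x₁ n) c) :=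
      Finset.prod_induction _ _ (fun _ _ => Pm.mul hx) ⟨1, one_pos, LMon.of_un ((Un.one O).pow 1)⟩
        fun j _ => (pm_of_pw hx mon (ful₁ j)).zpow _
    have h0 := mn_ne_zero hx c'
    have hm0 : mn (xs x₁ n) c ^ N ≠ 0 := fun e' => hu.2.1 (by rw [e', zero_div])
    have h2 : mn x c' ∈ O := by
      have := mul_mem hu.2.2 (pow_mem hm N)
      rwa [inv_div, div_mul_cancel₀ _ hm0] at this
    have h3 : ¬ Un O (mn x c') := fun hc => hnu (un_of_pow hN hm (by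
      have := hu.mul hc
      rwa [div_mul_cancel₀ _ h0] at this))
    have h4 : mn (xs x₁ n) c ^ N ∈ fI O O x := by
      have := mul_mem_span hu.1 (Submodule.subset_span (R := O)
        (s := {m | m ∈ O ∧ ¬ Un O m ∧ ∃ c, m = mn x c}) ⟨h2, h3, c', rfl⟩)
      rwa [div_mul_cancel₀ _ h0] at this
    obtain ⟨M, rfl⟩ := Nat.exists_eq_succ_of_ne_zero hN.ne'
    clear hu hm0 hN
    induction M with
    | zero => rwa [pow_one] at h4
    | succ M ih =>
      rw [pow_succ] at h4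
      exact (h n (F n) O O x fr hl le_rfl _ (pow_mem hm _) _ hm h4).elim ih id

open Lvl in
theorem lvl (p : ℕ) [Fact p.Prime] [CharP k p] [IsAlgClosed k] (h : BlowStmt k L) :
    LvlStmt k L p := by
  intro n e N W O x z q fr hz hq hW
  have : CharP L p := charP_of_injective_algebraMap (algebraMap k L).injective p
  have hp : 0 < p ^ e := pow_pos (Fact.out : p.Prime).pos e
  obtain ⟨D, aff⟩ := fr.aff
  have hl := aff.pt.lcl
  have hNW : N ≤ W := hW ▸ le_sup_left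
  have hON := aff.le_field
  have hzW : ∀ j, z j ∈ W := fun j =>
    hW ▸ (le_sup_right : _ ≤ N ⊔ _) (IntermediateField.subset_adjoin k _ ⟨j, rfl⟩)
  have h1 : W.FG := hW ▸ IntermediateField.fg_sup aff.fg_field
    (IntermediateField.fg_adjoin_of_finite (Set.finite_range z))
  have h2 : ∀ a ∈ W, a ^ p ^ e ∈ N := by
    let N' : IntermediateField k L := (N.toSubfield.comap (iterateFrobenius L p e)).toIntermediateField
      fun c => pow_mem (N.algebraMap_mem c) (p ^ e)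
    have : W ≤ N' := hW ▸ sup_le (fun a ha => pow_mem ha (p ^ e))
      (IntermediateField.adjoin_le_iff.2 (by
        rintro _ ⟨j, rfl⟩
        show z j ^ p ^ e ∈ N
        rw [← Nat.add_sub_cancel' (hq j), pow_add, pow_mul, hz]
        exact pow_mem (fr.mem j) _))
    exact fun a ha => this ha
  have h3 : ∀ a, a ∈ icl W O ↔ a ∈ W ∧ a ^ p ^ e ∈ O := fun a =>
    ⟨fun ha => ⟨ha.1, fr.nrm _ (h2 a ha.1) ((mem_icl.1 ha).2.pow _)⟩,
      fun ha => ⟨ha.1, IsIntegral.of_pow hp (isIntegral_of_mem ha.2)⟩⟩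
  have h4 : ∀ a ∈ icl W O, Un (icl W O) a ↔ Un O (a ^ p ^ e) := fun a ha =>
    ⟨fun hu => ⟨((h3 a).1 ha).2, pow_ne_zero _ hu.2.1, inv_pow a _ ▸ ((h3 _).1 hu.2.2).2⟩,
      fun hu => ⟨ha, fun e' => hu.2.1 (by rw [e', zero_pow hp.ne']),
        (h3 _).2 ⟨inv_mem ((h3 a).1 ha).1, (inv_pow a _).symm ▸ hu.2.2⟩⟩⟩
  have hOA : O ≤ icl W O := le_icl fun a ha => hNW (hON ha)
  have h5 : Dom O (icl W O) := ⟨hOA, fun a ha hu => un_of_pow hp ha ((h4 a hu.1).1 hu)⟩
  have h6 : Lcl (icl W O) := fun a ha b hb hu => by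
    rw [h4 _ hu.1, add_pow_char_pow] at hu
    rw [h4 a ha, h4 b hb]
    exact hl _ ((h3 a).1 ha).2 _ ((h3 b).1 hb).2 hu
  have h7 : Rt (icl W O) := fun a ha => by
    obtain ⟨c, hc⟩ := aff.rt _ ((h3 a).1 ha).2
    obtain ⟨d, rfl⟩ := IsAlgClosed.exists_pow_nat_eq c hp
    refine ⟨d, fun hu => hc ?_⟩
    rwa [h4 _ hu.1, sub_pow_char_pow, ← map_pow] at hu
  have h8 : IsPoint (icl W O) (icl W O) := ⟨le_rfl, h6, le_loc _ _⟩
  have hDW : D ≤ W.toSubalgebra := fun a ha => hNW (aff.le a ha)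
  have hal : ∀ a ∈ W, IsAlgebraic N a := fun a ha =>
    (IsIntegral.of_pow hp (isIntegral_algebraMap (x := (⟨_, h2 a ha⟩ : N)))).isAlgebraic
  have h9 : Aff n W (icl W D) (icl W O) := aff_icl ((trdeg_eq hNW hal).symm.trans aff.deg) h1
    aff.fg hDW (fun a ha => isAlgebraic_trans aff.le aff.isAlgebraic (hal a ha))
    (IsPoint.icl aff.pt hDW h8) h7
  have h10 : icl W (O ⊔ mons (icl W O) z) = icl W O :=
    le_antisymm (fun a ha => mem_icl_of_isIntegral ha.1 (isIntegral_mono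
      (sup_le hOA (Algebra.adjoin_le fun _ hm => hm.1)) (mem_icl.1 ha).2)) (icl_mono le_sup_left)
  refine ⟨h1, h2, h3, h5, (h n N W O _ _ x z fr h9 (fun j => ⟨hzW j, fun e' => fr.fr.ne j ?_⟩)
    (fun j => ⟨Pi.single j (p ^ q j : ℕ), ?_⟩) hW.le h5 (h10.symm ▸ h8)).1⟩
  · rw [← hz, e', zero_pow (pow_pos (Fact.out : p.Prime).pos _).ne']
  · rw [mn_single, zpow_natCast, hz]

end Pool.Agent.MP_19ffc6_ag.Perf
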