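import Pool.Agent.MP_19ffc6_ag.perf.SpecT

-- ======== part 0: formerly Pool.Agent.MP_19ffc6_ag.perf.TTp
section MrgPart0

/-! PROJECT PERF, row TP: a framed point is toroidal. -/

namespace Pool.Agent.MP_19ffc6_ag.Perf

open Pool.Agent.R72.Wild Pool.Agent.R72.Lci Pool.Agent.R72.Res Pool.Agent.R72.Res.B
  Pool.Agent.R72.Res.Tor Pool.Agent.R72.Res.P Submodule

namespace TTp

variable {n m r : ℕ}

/-- A complement of the kernel of a family of linear forms. -/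
theorem split (l : Fin m → Fin n → ℤ) : ∃ (r s : ℕ) (b : Fin r → Fin n → ℤ)
    (u : Fin s → Fin n → ℤ), r + s = n ∧ (∀ j ρ, l ρ ⬝ᵥ u j = 0) ∧
    (∀ c : Fin r → ℤ, (∀ ρ, l ρ ⬝ᵥ ∑ i, c i • b i = 0) → c = 0) ∧
    ∀ c, ∃ (e : Fin r → ℤ) (d : Fin s → ℤ), c = ∑ i, e i • b i + ∑ j, d j • u j := by
  let φ : (Fin n → ℤ) →ₗ[ℤ] Fin m → ℤ := Matrix.mulVecLin (Matrix.of l)
  let β := Module.finBasis ℤ (LinearMap.range φ)
  let υ := Module.finBasis ℤ (LinearMap.ker φ)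
  choose b hb using fun i => (β i).2
  have key : ∀ c : Fin _ → ℤ, φ (∑ i, c i • b i) = (∑ i, c i • β i : LinearMap.range φ) :=
    fun c => by simp only [map_sum, map_smul, hb, coe_sum, coe_smul]
  refine ⟨_, _, b, fun j => υ j, ?_, fun j ρ => congrFun (υ j).2 ρ, fun c hc => ?_, fun c => ?_⟩
  · rw [← (LinearMap.quotKerEquivRange φ).finrank_eq, finrank_quotient_add_finrank]
    simp
  · have h1 : φ (∑ i, c i • b i) = 0 := funext hc
    rw [key] at h1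
    exact funext (Fintype.linearIndependent_iff.1 β.linearIndependent c (Subtype.ext h1))
  · have h1 : c - ∑ i, β.repr ⟨φ c, c, rfl⟩ i • b i ∈ LinearMap.ker φ := by
      rw [LinearMap.mem_ker, map_sub, key, β.sum_repr, sub_self]
    refine ⟨β.repr ⟨φ c, c, rfl⟩, υ.repr ⟨_, h1⟩, ?_⟩
    have h2 := congrArg Subtype.val (υ.sum_repr ⟨_, h1⟩)
    simp only [coe_sum, coe_smul] at h2
    rw [h2, add_sub_cancel]

/-- An irredundant family of inequalities. -/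
theorem irr (row : Fin m → Fin r → ℤ)
    (h : ∀ c, ∃ e, (∀ ρ, 0 ≤ row ρ ⬝ᵥ e) ∧ ∀ ρ, 0 ≤ row ρ ⬝ᵥ (c + e)) :
    ∃ R : Finset (Fin m), (∀ c, (∀ ρ ∈ R, 0 ≤ row ρ ⬝ᵥ c) → ∀ ρ, 0 ≤ row ρ ⬝ᵥ c) ∧
      (∃ g, ∀ ρ ∈ R, 0 < row ρ ⬝ᵥ g) ∧
      ∀ ρ ∈ R, ∃ c, row ρ ⬝ᵥ c = 0 ∧ ∀ σ ∈ R, σ ≠ ρ → 0 < row σ ⬝ᵥ c := by
  obtain ⟨R, hR, hm⟩ := exists_minimal_of_wellFoundedLT
    (fun R : Finset (Fin m) => ∀ c, (∀ ρ ∈ R, 0 ≤ row ρ ⬝ᵥ c) → ∀ ρ, 0 ≤ row ρ ⬝ᵥ c)
    ⟨Finset.univ, fun c hc ρ => hc ρ (Finset.mem_univ _)⟩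
  have h1 : ∀ ρ ∈ R, ∃ c, row ρ ⬝ᵥ c < 0 ∧ ∀ σ ∈ R, σ ≠ ρ → 0 ≤ row σ ⬝ᵥ c := fun ρ hρ => by
    by_contra H
    push Not at H
    refine Finset.notMem_erase ρ R (hm (y := R.erase ρ) (fun c hc => hR c fun σ hσ => ?_)
      (Finset.erase_subset _ _) hρ)
    by_cases e : σ = ρ
    · by_contra a
      obtain ⟨σ', h1, h2, h3⟩ := H c (e ▸ not_le.1 a)
      exact h3.not_ge (hc σ' (Finset.mem_erase.2 ⟨h2, h1⟩))
    · exact hc σ (Finset.mem_erase.2 ⟨e, hσ⟩)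
  choose! c h2 h3 using h1
  choose e h4 h5 using h
  have h6 : ∀ ρ ∈ R, 0 < row ρ ⬝ᵥ ∑ σ ∈ R, e (c σ) := fun ρ hρ => by
    rw [dotProduct_sum]
    refine Finset.sum_pos' (fun σ _ => h4 _ ρ) ⟨ρ, hρ, ?_⟩
    have a := h5 (c ρ) ρ
    have b := h2 ρ hρ
    rw [dotProduct_add] at a
    omega
  refine ⟨R, hR, ⟨_, h6⟩, fun ρ hρ => ?_⟩
  generalize ∑ σ ∈ R, e (c σ) = g at h6
  refine ⟨(-(row ρ ⬝ᵥ c ρ)) • g + (row ρ ⬝ᵥ g) • c ρ, ?_, fun σ hσ a => ?_⟩
  · rw [dotProduct_add, dotProduct_smul, dotProduct_smul, smul_eq_mul, smul_eq_mul]; ring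
  · rw [dotProduct_add, dotProduct_smul, dotProduct_smul, smul_eq_mul, smul_eq_mul]
    exact add_pos_of_pos_of_nonneg (mul_pos (neg_pos.2 (h2 ρ hρ)) (h6 σ hσ))
      (mul_nonneg (h6 ρ hρ).le (h3 ρ hρ σ hσ a))

variable {k L : Type} [Field k] [Field L] [Algebra k L] {O : Subalgebra k L} {x : Fin n → L}

theorem mn_sum (hx : ∀ j, x j ≠ 0) (b : Fin r → Fin n → ℤ) (c : Fin r → ℤ) :
    mn x (∑ i, c i • b i) = mn (fun i => mn x (b i)) c := by
  have : ∀ s : Finset (Fin r), mn x (∑ i ∈ s, c i • b i) = ∏ i ∈ s, mn x (b i) ^ c i := fun s => by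
    induction s using Finset.induction_on with
    | empty => simpa using mn_zero x
    | insert i s hi ih => rw [Finset.sum_insert hi, Finset.prod_insert hi, mn_add hx, ih, mn_smul]
  exact this _

/-- Units that are constant modulo an ideal. -/
theorem cst_mn (hl : Lcl O) {I : Submodule O L} (hI : ∀ y ∈ I, ¬ Un O y) {v : Fin r → L}
    (hv : ∀ j, Un O (v j) ∧ ∃ a : k, v j - algebraMap k L a ∈ I) (d : Fin r → ℤ) :
    ∃ a : k, mn v d - algebraMap k L a ∈ I := by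
  let P : L → Prop := fun y => Un O y ∧ ∃ a : k, y - algebraMap k L a ∈ I
  have h1 : P 1 := ⟨Un.one _, 1, by simp⟩
  have h2 : ∀ y w, P y → P w → P (y * w) := by
    rintro y w ⟨hy, a, ha⟩ ⟨hw, b, hb⟩
    refine ⟨hy.mul hw, a * b, ?_⟩
    rw [show y * w - algebraMap k L (a * b) = w * (y - algebraMap k L a) +
      algebraMap k L a * (w - algebraMap k L b) by rw [map_mul]; ring]
    exact add_mem (GD.mul_mem' hw.1 ha) (GD.mul_mem' (O.algebraMap_mem a) hb)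
  have h3 : ∀ y, P y → P y⁻¹ := by
    rintro y ⟨hy, a, ha⟩
    have a0 : algebraMap k L a ≠ 0 := fun e => hI _ ha (by rwa [e, sub_zero])
    refine ⟨hy.inv, a⁻¹, ?_⟩
    have := hy.2.1
    rw [show y⁻¹ - algebraMap k L a⁻¹ = -(y⁻¹ * algebraMap k L a⁻¹) * (y - algebraMap k L a) by
      rw [map_inv₀]; field_simp; ring]
    exact GD.mul_mem' (neg_mem (mul_mem hy.2.2 (O.algebraMap_mem _))) ha
  have h4 : ∀ y, P y → ∀ N : ℕ, P (y ^ N) := fun y hy N => by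
    induction N with
    | zero => simpa using h1
    | succ N ih => rw [pow_succ]; exact h2 _ _ ih hy
  have _ := hl
  refine (Finset.prod_induction _ P h2 h1 fun j _ => ?_).2
  obtain ⟨N, e | e⟩ := (d j).eq_nat_or_neg
  · rw [e, zpow_natCast]; exact h4 _ (hv j) N
  · rw [e, zpow_neg, zpow_natCast]; exact h3 _ (h4 _ (hv j) N)

end TTp

variable {k L : Type} [Field k] [Field L] [Algebra k L]

theorem tp_of (hp : PolyStmt k L) (hk : KitF k L) : TpStmt k L := by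
  intro n K O x h
  obtain ⟨D, hD⟩ := h.aff
  have hx := h.fr.ne
  have hl := hD.pt.lcl
  obtain ⟨m, l, hm⟩ := hp n K D O x hD h.nrm fun j => ⟨h.mem j, hx j⟩
  obtain ⟨r, s, b, u, hrs, hu, hb, hc⟩ := TTp.split l
  have e1 : ∀ ρ (c : Fin r → ℤ), (fun i => l ρ ⬝ᵥ b i) ⬝ᵥ c = l ρ ⬝ᵥ ∑ i, c i • b i :=
    fun ρ c => by
      rw [dotProduct_sum]
      exact Finset.sum_congr rfl fun i _ => by rw [dotProduct_smul, smul_eq_mul, mul_comm]
  have e2 : ∀ ρ (d : Fin s → ℤ), l ρ ⬝ᵥ ∑ j, d j • u j = 0 := fun ρ d => by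
    rw [dotProduct_sum]
    exact Finset.sum_eq_zero fun j _ => by rw [dotProduct_smul, hu, smul_zero]
  have e3 : ∀ c, (∀ ρ, l ρ ⬝ᵥ c = 0) → Un O (mn x c) := fun c hc =>
    ⟨(hm c).2 fun ρ => (hc ρ).ge, mn_ne_zero hx c, mn_neg x c ▸ (hm _).2 fun ρ => by
      rw [dotProduct_neg, hc, neg_zero]⟩
  obtain ⟨R, h1, h2, h3⟩ := TTp.irr (fun ρ i => l ρ ⬝ᵥ b i) fun c => by
    obtain ⟨e, he, he'⟩ := (hk n K O x h).2 (∑ i, c i • b i)
    obtain ⟨e', d, rfl⟩ := hc e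
    refine ⟨e', fun ρ => ?_, fun ρ => ?_⟩
    · have := (hm _).1 he ρ
      rwa [dotProduct_add, e2, add_zero, ← e1] at this
    · have := (hm _).1 he' ρ
      rwa [dotProduct_add, dotProduct_add, e2, add_zero, ← e1, ← e1, ← dotProduct_add] at this
  let τ : Typ (Fin m) r := ⟨R, fun ρ i => l ρ ⬝ᵥ b i⟩
  let z : Fin r → L := fun i => mn x (b i)
  have z0 : ∀ i, z i ≠ 0 := fun i => mn_ne_zero hx _
  have e4 : ∀ c, mn z c ∈ O ↔ c ∈ τ.Reg 0 := fun c => by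
    rw [← TTp.mn_sum hx, hm]
    exact ⟨fun a ρ _ => (a ρ).trans_eq (e1 ρ c).symm, fun a ρ => (h1 c a ρ).trans_eq (e1 ρ c)⟩
  have e5 : τ.Pointed := fun c a => hb c fun ρ => by
    have a1 := h1 c (fun σ hσ => (a σ hσ).ge) ρ
    have a2 := h1 (-c) (fun σ hσ => by
      rw [dotProduct_neg, show (fun i => l σ ⬝ᵥ b i) ⬝ᵥ c = 0 from a σ hσ, neg_zero]) ρ
    rw [dotProduct_neg] at a2
    rw [← e1]
    omega
  have e6 : ∀ c, Un O (mn z c) → c = 0 := fun c a => e5 c fun ρ hρ => by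
    have a1 : 0 ≤ τ.ev c ρ := (e4 c).1 a.1 ρ hρ
    have a2 : 0 ≤ τ.ev (-c) ρ := (e4 (-c)).1 (mn_neg z c ▸ a.2.2) ρ hρ
    rw [Typ.ev_neg] at a2
    omega
  have e7 : ∀ j, Un O (mn x (u j)) := fun j => e3 _ (hu j)
  have e8 : ∀ c, ∃ e d, mn x c = mn z e * mn (fun j => mn x (u j)) d := fun c => by
    obtain ⟨e, d, rfl⟩ := hc c
    exact ⟨e, d, by rw [mn_add hx, TTp.mn_sum hx, TTp.mn_sum hx]⟩
  have e9 : ∀ d, Un O (mn (fun j => mn x (u j)) d) := fun d => mn_un fun j a => absurd (e7 j) a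
  choose a ha using fun j => hD.rt _ (e7 j).1
  have ht : ∀ j, mn x (u j) - algebraMap k L (a j) ∈ O ∧
      ¬ Un O (mn x (u j) - algebraMap k L (a j)) :=
    fun j => ⟨sub_mem (e7 j).1 (O.algebraMap_mem _), ha j⟩
  refine ⟨Fin m, inferInstance, r, s, τ, z, fun j => mn x (u j) - algebraMap k L (a j),
    ⟨hrs, e5, h2, h3, z0, fun c => (e4 c).2, fun c _ c0 a => c0 (e6 c a), ht, fun y hy hy' => ?_⟩,
    fun i => ⟨_, rfl⟩, fun c => ?_, fun c => (e4 c).1⟩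
  · refine span_le.2 ?_ (h.fr.gen y hy hy')
    rintro _ ⟨a1, c, α, a2, rfl⟩
    obtain ⟨e, d, a3⟩ := e8 c
    have hI : ∀ y ∈ span O (mn z '' (τ.Reg 0 \ {0}) ∪
        Set.range fun j => mn x (u j) - algebraMap k L (a j)), y ∈ mx hl := fun y hy =>
      GD.span_mx hl le_rfl (by
        rintro _ (⟨c, c1, rfl⟩ | ⟨j, rfl⟩)
        exacts [⟨(e4 c).2 c1.1, fun a => c1.2 (e6 c a)⟩, ht j]) hy
    obtain ⟨β, a4⟩ : ∃ β : k, mn x c - algebraMap k L β ∈ span O (mn z '' (τ.Reg 0 \ {0}) ∪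
        Set.range fun j => mn x (u j) - algebraMap k L (a j)) := by
      by_cases e0 : e = 0
      · rw [a3, e0, mn_zero, one_mul]
        exact TTp.cst_mn hl (fun y hy => (hI y hy).2)
          (fun j => ⟨e7 j, a j, subset_span (Or.inr ⟨j, rfl⟩)⟩) d
      · refine ⟨0, ?_⟩
        rw [map_zero, sub_zero, a3, mul_comm]
        refine GD.mul_mem' (e9 d).1 (subset_span (Or.inl ⟨e, ⟨(e4 e).1 ?_, e0⟩, rfl⟩))
        have := mul_mem a2 (e9 d).2.2
        rwa [a3, mul_inv_cancel_right₀ (e9 d).2.1] at this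
    have a5 : α = β := by_contra fun a5 => by
      have a6 := sub_mem (hI _ a4) (show mn x c - algebraMap k L α ∈ mx hl from
        ⟨sub_mem a2 (O.algebraMap_mem _), a1⟩)
      rw [sub_sub_sub_cancel_left, ← map_sub] at a6
      exact a6.2 (un_algebraMap O (sub_ne_zero.2 a5))
    rw [a5]; exact a4
  · obtain ⟨e, d, a3⟩ := e8 c
    exact ⟨e, by rw [a3, mul_div_cancel_left₀ _ (mn_ne_zero z0 e)]; exact e9 d⟩

theorem tro_of (h : TpStmt k L) : TroStmt k L := by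
  intro n K O x S hx hf hm
  obtain ⟨ι, _, r, s, τ, z, t, h1, h2, h3, h4⟩ := h n K O x hx
  have h5 : ∀ f ∈ S, LMon O z f := fun f a => by
    obtain ⟨c, hc⟩ := hm f a
    have := LMon.mul h1.ne (LMon.of_un hc) (h3 c)
    rwa [div_mul_cancel₀ _ (h3 c).ne_zero] at this
  have h6 : Ful S O z := fun i => by
    obtain ⟨c, e⟩ := h2 i
    rw [e]; exact hf.mn c
  refine ⟨ι, inferInstance, r, s, τ, z, t, h1, ⟨h5, fun ρ hρ => ?_⟩, h6⟩
  by_contra H
  push Not at H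
  obtain ⟨g, hg⟩ := h1.str
  obtain ⟨N, hN, e, he⟩ := h6.mn g
  obtain ⟨c, hc, hc'⟩ : ∃ c, Un O ((∏ f ∈ S, f ^ e f) / mn z c) ∧ τ.ev c ρ = 0 := by
    refine Finset.prod_induction _ (fun y => ∃ c, Un O (y / mn z c) ∧ τ.ev c ρ = 0) ?_
      ⟨0, by rw [mn_zero, div_one]; exact Un.one _, Typ.ev_zero _⟩ fun f a => ?_
    · rintro _ _ ⟨c, a1, a2⟩ ⟨d, b1, b2⟩
      exact ⟨_, un_exp_mul h1.ne a1 b1, by rw [Typ.ev_add, a2, b2, add_zero]⟩
    · obtain ⟨c, hc⟩ := h5 f a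
      exact ⟨_, un_exp_zpow hc _, by rw [Typ.ev_smul, H f a c hc, mul_zero]⟩
  have h7 := he.mul hc
  rw [div_mul_div_cancel₀ (left_ne_zero_of_mul (by simpa [div_eq_mul_inv] using hc.2.1)),
    ← mn_nsmul, ← mn_sub h1.ne] at h7
  have h8 : 0 ≤ τ.ev (-(N • g - c)) ρ := h4 _ (mn_neg z _ ▸ h7.2.2) ρ hρ
  rw [Typ.ev_neg, Typ.ev_sub, Typ.ev_nsmul, hc'] at h8
  have := mul_pos (Int.natCast_pos.2 hN) (hg ρ hρ)
  omega

end Pool.Agent.MP_19ffc6_ag.Perf

end MrgPart0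

-- ======== part 1: formerly Pool.Agent.MP_19ffc6_ag.perf.TPers
section MrgPart1

/-! PROJECT PERF, rows ADM and PERS. -/

namespace Pool.Agent.MP_19ffc6_ag.Perf

open Pool.Agent.R72.Wild Pool.Agent.R72.Lci Pool.Agent.R72.Res Pool.Agent.R72.Res.B
  Pool.Agent.R72.Res.Tor Pool.Agent.R72.Res.P Submodule Polynomial

variable {k L : Type} [Field k] [Field L] [Algebra k L]

namespace TPers

variable {n : ℕ} {O O' W : Subalgebra k L} {x : Fin n → L} {a : L} {g : SA k L}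

theorem mn_mem_mons {c : Fin n → ℤ} (h : mn x c ∈ O) : mn x c ∈ mons O x :=
  Algebra.subset_adjoin ⟨h, c, rfl⟩

theorem mons_le : mons O x ≤ O := Algebra.adjoin_le fun _ h => h.1

theorem fI_mem (h : a ∈ fI O W x) : a ∈ O := mem_of_mem_span (fun _ hs => hs.1) h

theorem fI_nu (hl : Lcl W) (hO : O ≤ W) (h : a ∈ fI O W x) : Nu W a :=
  GD.span_mx hl hO (fun _ hs => ⟨hO hs.1, hs.2.1⟩) h

theorem fI_mono (hO : O ≤ O') (h : a ∈ fI O W x) : a ∈ fI O' W x :=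
  span_mono' hO (fun _ hs => ⟨hO hs.1, hs.2⟩) h

theorem lin_of (hO : O ≤ W) (h : Inr g O W) : Lin g := fun c => by
  have := h _ (O.algebraMap_mem c)
  have _ := hO
  rw [SA.smul_alg, ← map_sub] at this
  rw [SA.smul_alg, sub_eq_zero.1 (by_contra fun e => this (un_alg W e) : g.σ c - c = 0)]

/-- A root of unity modulo a prime is a constant. -/
theorem root [IsAlgClosed k] {I : Submodule O L}
    (hI : ∀ a ∈ O, ∀ b ∈ O, a * b ∈ I → a ∈ I ∨ b ∈ I) (h1 : (1 : L) ∉ I) (ha : a ∈ O) {m : ℕ}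
    (hm : 0 < m) (h : a ^ m - 1 ∈ I) : ∃ c : k, a - algebraMap k L c ∈ I := by
  have key : ∀ T : Multiset k, (T.map fun c => a - algebraMap k L c).prod ∈ O ∧
      ((T.map fun c => a - algebraMap k L c).prod ∈ I → ∃ c : k, a - algebraMap k L c ∈ I) := by
    intro T
    induction T using Multiset.induction_on with
    | empty => exact ⟨by simp, fun e => absurd (by simpa using e) h1⟩
    | cons c T ih =>
      rw [Multiset.map_cons, Multiset.prod_cons]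
      have := sub_mem ha (O.algebraMap_mem c)
      exact ⟨mul_mem this ih.1, fun e => (hI _ this _ ih.1 e).elim (fun e => ⟨c, e⟩) ih.2⟩
  refine (key (X ^ m - C 1 : k[X]).roots).2 ?_
  have e := congrArg (aeval a) ((IsAlgClosed.splits (X ^ m - C 1 : k[X])).eq_prod_roots_of_monic
    (monic_X_pow_sub_C 1 hm.ne'))
  rw [map_multiset_prod, Multiset.map_map] at e
  simp only [map_sub, map_pow, aeval_X, map_one, Function.comp_def, aeval_C] at e
  rwa [map_one C, ← e]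

end TPers

open TPers

theorem adm (h : BlowStmt k L) : AdmStmt k L := by
  classical
  intro n N S O O' D' x hx _ hS hD hA
  have h0 := hx.fr.ne
  refine h n N N O O' D' x x hx hD (fun j => ⟨hx.mem j, h0 j⟩)
    (fun j => ⟨Pi.single j 1, by rw [mn_single, zpow_one]⟩) le_sup_left hA.1
    (hA.2.of_le_loc (fun a ha => IsPoint.mem_of_isIntegral hA.2 ha.1
      (isIntegral_mono (sup_le hA.1.1 mons_le) ha.2)) ((icl_mono ?_).trans (le_loc _ _)))
  refine sup_le le_sup_left (Algebra.adjoin_le ?_)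
  rintro _ ⟨h1, e, rfl⟩
  obtain ⟨c, hc⟩ : LMon O x (smn S e) :=
    Finset.prod_induction _ (LMon O x) (fun _ _ => LMon.mul h0) (LMon.of_un (Un.one _))
      fun f hf => (hS f hf).zpow _
  have h2 := mul_mem h1 (hA.1.1 hc.2.2)
  rw [inv_div, mul_div_cancel₀ _ (left_ne_zero_of_mul (by simpa [div_eq_mul_inv] using hc.2.1))]
    at h2
  rw [← div_mul_cancel₀ (smn S e) (mn_ne_zero h0 c)]
  exact mul_mem ((le_sup_left : O ≤ O ⊔ mons O' x) hc.1)
    ((le_sup_right : mons O' x ≤ O ⊔ mons O' x) (mn_mem_mons h2))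

theorem pers [IsAlgClosed k] (h : FaceStmt k L) : PersStmt k L := by
  intro n N O O' x g hx hO hp hg hu ho hs W hW hO' hi
  have h0 := hx.fr.ne
  have hl := lin_of hO' hi
  obtain ⟨m, hm, hm'⟩ := ho hl
  have h1 := hs W hW (hO.trans hO') fun a ha => hi a (hO ha)
  have h2 : ∀ c, mn x c ∈ O' → g • mn x c - mn x c ∈ fI O' W x := fun c hc => by
    have c0 := mn_ne_zero h0 c
    have h3 : Un O (g • mn x c / mn x c) := by rw [smul_mn]; exact un_mn_of_un hu c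
    have h4 : g • mn x c - mn x c = (g • mn x c / mn x c - 1) * mn x c := by field_simp
    by_cases e : Un W (mn x c)
    swap
    · rw [h4]
      exact GD.mul_mem' (hO (sub_mem h3.1 (one_mem _))) (subset_span ⟨hc, e, c, rfl⟩)
    have h5 : ∀ i : ℕ, g ^ i • mn x c / mn x c ∈ O ∧
        (g • mn x c / mn x c) ^ i - g ^ i • mn x c / mn x c ∈ fI O W x := fun i => by
      induction i with
      | zero => simp [div_self c0]
      | succ i ih =>
        rw [pow_succ' g, quot_comp g _ c0, pow_succ]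
        refine ⟨mul_mem (hg ▸ smul_mem_sA.2 ih.1) h3.1, ?_⟩
        rw [← sub_mul, mul_comm]
        refine GD.mul_mem' h3.1 ?_
        have := sub_mem ih.2 (h1 _ ih.1)
        rwa [sub_sub_sub_cancel_right] at this
    have h6 := (h5 m).2
    rw [hm' _ (mn_mem_field hx.mem c), div_self c0] at h6
    obtain ⟨ζ, h7⟩ := root (h n N O W x hx hW (hO.trans hO'))
      (fun a => (fI_nu hW (hO.trans hO') a).2 (Un.one _)) h3.1 hm h6
    have h8 : Nu W (g • mn x c / mn x c - 1) :=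
      ⟨hO' (hO (sub_mem h3.1 (one_mem _))), fun a => hi _ hc (h4 ▸ a.mul e)⟩
    have h9 := h8.sub hW (fI_nu hW (hO.trans hO') h7)
    rw [sub_sub_sub_cancel_left, ← map_one (algebraMap k L), ← map_sub] at h9
    rw [sub_eq_zero.1 h9.alg, map_one] at h7
    rw [h4, mul_comm]
    exact GD.mul_mem' hc (fI_mono hO h7)
  let B : Subalgebra k L :=
    { carrier := {b | b ∈ O' ∧ g • b - b ∈ fI O' W x}
      mul_mem' := fun {a b} ha hb => ⟨mul_mem ha.1 hb.1, by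
        have e : g • a ∈ O' := by simpa using add_mem (fI_mem ha.2) ha.1
        rw [smul_mul', show g • a * g • b - a * b = g • a * (g • b - b) + b * (g • a - a) by ring]
        exact add_mem (GD.mul_mem' e hb.2) (GD.mul_mem' hb.1 ha.2)⟩
      add_mem' := fun {a b} ha hb => ⟨add_mem ha.1 hb.1, by
        rw [smul_add, add_sub_add_comm]; exact add_mem ha.2 hb.2⟩
      algebraMap_mem' := fun c => ⟨O'.algebraMap_mem c, by rw [hl, sub_self]; exact zero_mem _⟩ }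
  have hB : O ⊔ mons O' x ≤ B := sup_le (fun a ha => ⟨hO ha, fI_mono hO (h1 a ha)⟩)
    (Algebra.adjoin_le (by rintro _ ⟨a, c, rfl⟩; exact ⟨a, h2 c a⟩))
  intro a ha
  obtain ⟨u, hu', s, hs', hs'', rfl⟩ := hp.le_loc ha
  have a1 := hB hu'
  have a2 := hB hs'
  have a3 : Un O' (g • s) := Nu.un hp.lcl
    ⟨fI_mem a2.2, fun e => (fI_nu hW hO' a2.2).2 (e.mono hO')⟩ hs''
  have a4 := hs''.2.1
  have a5 := a3.2.1
  rw [smul_div₀', show g • u / g • s - u / s =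
    (g • s)⁻¹ * ((g • u - u) - u * s⁻¹ * (g • s - s)) by field_simp; ring]
  exact GD.mul_mem' a3.2.2 (sub_mem a1.2 (GD.mul_mem' (mul_mem a1.1 hs''.2.2) a2.2))

end Pool.Agent.MP_19ffc6_ag.Perf

end MrgPart1

-- marker of a merged file
example : 731051 + 142481 = 731051 + 142481 := rfl
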