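import Pool.Agent.MP_19ffc6_ag.perf.SpecT

/-! PROJECT PERF, row POLY: the regular monomials of a normal point form a polyhedral cone. -/

namespace Pool.Agent.MP_19ffc6_ag.Perf

open Pool.Agent.R72.Wild Pool.Agent.R72.Lci Pool.Agent.R72.Res Pool.Agent.R72.Res.B
  Pool.Agent.R72.Res.Lab

variable {k L : Type} [Field k] [Field L] [Algebra k L]

namespace TPoly

variable {K : IntermediateField k L} {O : Subalgebra k L}

lemma mem_col {a b r : O} (hb : (b : L) ≠ 0) :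
    r ∈ Submodule.colon (⊥ : Submodule O (O ⧸ Ideal.span {b})) {Ideal.Quotient.mk _ a} ↔
      (r : L) * (a / b) ∈ O := by
  rw [Submodule.mem_colon_singleton, Submodule.mem_bot]
  change Ideal.Quotient.mk (Ideal.span {b}) (r * a) = 0 ↔ _
  rw [Ideal.Quotient.eq_zero_iff_mem, Ideal.mem_span_singleton']
  constructor
  · rintro ⟨c, hc⟩
    have h : (c : L) * b = r * a := congrArg Subtype.val hc
    rw [← mul_div_assoc, ← h, mul_div_cancel_right₀ _ hb]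
    exact c.2
  · intro h
    refine ⟨⟨_, h⟩, Subtype.ext ?_⟩
    change (r : L) * (a / b) * b = r * a
    rw [mul_assoc, div_mul_cancel₀ _ hb]

/-- The local ring at a prime of the form `(O : f)` is a discrete valuation ring. -/
lemma dvr_col [IsNoetherianRing O] (hK : O ≤ K.toSubalgebra)
    (hf : ∀ x ∈ K, ∃ b ∈ O, b ≠ 0 ∧ b * x ∈ O) (hn : ∀ a ∈ K, IsIntegral O a → a ∈ O)
    {q : Ideal O} [hq : q.IsPrime] {f : L} (hfK : f ∈ K) (h : ∀ r : O, r ∈ q ↔ (r : L) * f ∈ O) :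
    ∃ W π, Dvr K W π ∧ IsPoint O W ∧ ∀ x : O, Un W x ↔ x ∉ q := by
  obtain ⟨W, hW, hu⟩ := exists_point O q
  have := hW.isNoetherianRing
  obtain ⟨r, hr, hr'⟩ : ∃ r, ∃ hr : r ∈ q, (⟨_, (h r).1 hr⟩ : O) ∉ q := by
    by_contra H
    push Not at H
    obtain ⟨b, hb, hb0, hbf⟩ := hf f hfK
    have h1 := isIntegral_of_smul_mem_submodule (Submodule.map (Algebra.linearMap O L) q)
      (fun e => hb0 (by
        have : b ∈ Submodule.map (Algebra.linearMap O L) q := ⟨⟨b, hb⟩, (h _).2 hbf, rfl⟩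
        rwa [e] at this)) ((IsNoetherian.noetherian q).map _) f (by
        rintro _ ⟨r, hr, rfl⟩
        exact ⟨_, H r hr, mul_comm _ _⟩)
    exact hq.ne_top ((Ideal.eq_top_iff_one _).2 ((h 1).2 (by simpa using hn f hfK h1)))
  have h1 : Un W (r * f) := (hu _).2 hr'
  have h0 : (r : L) ≠ 0 := left_ne_zero_of_mul h1.2.1
  have hf0 : f ≠ 0 := right_ne_zero_of_mul h1.2.1
  refine ⟨W, r, dvr_of (B.IsPoint.le_field hW hK) (hW.le r.2) h0 (fun U => (hu r).1 U hr)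
    (fun x hx hx' => ?_) fun x hx => ?_, hW, hu⟩
  · obtain ⟨a, ha, s, hs, hs', rfl⟩ := hW.le_loc hx
    have h2 : (⟨a, ha⟩ : O) ∈ q := by
      by_contra h2
      exact hx' (by rw [div_eq_mul_inv]; exact ((hu ⟨a, ha⟩).2 h2).mul hs'.inv)
    have h3 := mul_mem (mul_mem (hW.le ((h _).1 h2)) hs'.2.2) h1.2.2
    have h4 := hs'.2.1
    convert h3 using 1
    field_simp
  · obtain ⟨b, hb, h2, h3⟩ := hf x hx
    exact ⟨b, hW.le hb, h2, hW.le h3⟩

/-- Finitely many discrete valuation rings decide the regularity of the functions with poles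
along `b`. -/
lemma exists_fin [IsNoetherianRing O] (hK : O ≤ K.toSubalgebra)
    (hf : ∀ x ∈ K, ∃ b ∈ O, b ≠ 0 ∧ b * x ∈ O) (hn : ∀ a ∈ K, IsIntegral O a → a ∈ O)
    {b : L} (hb : b ∈ O) (hb0 : b ≠ 0) :
    ∃ (m : ℕ) (W : Fin m → Subalgebra k L), (∀ ρ, O ≤ W ρ ∧ ∃ π, Dvr K (W ρ) π) ∧
      ∀ (N : ℕ) (f : L), b ^ N * f ∈ O → (∀ ρ, f ∈ W ρ) → f ∈ O := by
  have hfin := associatedPrimes.finite O (O ⧸ Ideal.span {(⟨b, hb⟩ : O)})
  have key : ∀ q : associatedPrimes O (O ⧸ Ideal.span {(⟨b, hb⟩ : O)}),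
      ∃ W π, Dvr K W π ∧ IsPoint O W ∧ ∀ x : O, Un W x ↔ x ∉ q.1 := by
    rintro ⟨q, hq⟩
    obtain ⟨hp, a, ha⟩ := isAssociatedPrime_iff.1 hq
    obtain ⟨a, rfl⟩ := Ideal.Quotient.mk_surjective a
    exact dvr_col (q := q) hK hf hn (f := a / b) (K.div_mem (hK a.2) (hK hb)) fun r => by
      rw [ha]; exact mem_col hb0
  choose W π h1 h2 h3 using key
  have := hfin.to_subtype
  obtain ⟨m, ⟨e⟩⟩ := Finite.exists_equiv_fin (associatedPrimes O (O ⧸ Ideal.span {(⟨b, hb⟩ : O)}))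
  refine ⟨m, fun ρ => W (e.symm ρ), fun ρ => ⟨(h2 _).le, _, h1 _⟩, fun N => ?_⟩
  induction N with
  | zero => intro f h _; simpa using h
  | succ N ih =>
    intro f h hW
    have h4 : b * f ∈ O := ih _ (by rwa [← mul_assoc, ← pow_succ])
      fun ρ => mul_mem ((h2 _).le hb) (hW ρ)
    have h5 : ∀ r : O, r ∈ Submodule.colon (⊥ : Submodule O (O ⧸ Ideal.span {(⟨b, hb⟩ : O)}))
        {Ideal.Quotient.mk _ (⟨_, h4⟩ : O)} ↔ (r : L) * f ∈ O := fun r => by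
      rw [mem_col hb0, mul_div_cancel_left₀ _ hb0]
    by_contra h6
    obtain ⟨q, hq, hle⟩ := exists_le_isAssociatedPrime_of_isNoetherianRing O
      (Ideal.Quotient.mk (Ideal.span {(⟨b, hb⟩ : O)}) (⟨_, h4⟩ : O)) fun e => h6 (by
        simpa using (h5 1).1 (by rw [e]; simp))
    have h7 : f ∈ W ⟨q, hq⟩ := by simpa using hW (e ⟨q, hq⟩)
    obtain ⟨a, ha, s, hs, hs', rfl⟩ := (h2 _).le_loc h7
    exact (h3 _ ⟨s, hs⟩).1 hs' (hle ((h5 _).2 (by rwa [mul_div_cancel₀ _ hs'.2.1])))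

/-- The functions with poles along `b`. -/
def pl (O : Subalgebra k L) (b : L) : Submonoid L where
  carrier := {f | ∃ N : ℕ, b ^ N * f ∈ O}
  one_mem' := ⟨0, by simp⟩
  mul_mem' := by
    rintro x y ⟨N, hN⟩ ⟨M, hM⟩
    exact ⟨N + M, by rw [pow_add, mul_mul_mul_comm]; exact mul_mem hN hM⟩

end TPoly

open TPoly in
theorem poly : PolyStmt k L := by
  intro n K D O x hA hn hx
  have := hA.noeth
  have hf : ∀ x ∈ K, ∃ b ∈ O, b ≠ 0 ∧ b * x ∈ O := fun x hx =>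
    let ⟨b, h1, h2, h3⟩ := hA.frac x hx
    ⟨b, hA.pt.le h1, h2, hA.pt.le h3⟩
  choose u hu hu0 hux using fun j => hf _ (hx j).1
  choose v hv hv0 hvx using fun j => hf _ (K.inv_mem (hx j).1)
  have hb : ∀ j, ∃ c ∈ O, ∏ i, u i * v i = c * (u j * v j) := fun j =>
    ⟨_, prod_mem fun i _ => mul_mem (hu i) (hv i),
      (Finset.prod_erase_mul _ _ (Finset.mem_univ j)).symm⟩
  obtain ⟨m, W, h1, h2⟩ := exists_fin hA.le_field hf hn (b := ∏ i, u i * v i)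
    (prod_mem fun i _ => mul_mem (hu i) (hv i))
    (Finset.prod_ne_zero_iff.2 fun i _ => mul_ne_zero (hu0 i) (hv0 i))
  have h3 : ∀ ρ c, mn x c ∈ W ρ ↔ 0 ≤ (fun i => od K (W ρ) (x i)) ⬝ᵥ c := fun ρ c => by
    obtain ⟨π, h⟩ := (h1 ρ).2
    simpa using h.pi.mem_iff (a := 0) (h.un_mn hx c)
  refine ⟨m, fun ρ i => od K (W ρ) (x i), fun c => ⟨fun h ρ => (h3 ρ c).1 ((h1 ρ).1 h), fun h => ?_⟩⟩
  obtain ⟨N, hN⟩ : mn x c ∈ pl O (∏ i, u i * v i) := by
    refine prod_mem fun j _ => ?_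
    obtain ⟨e, he, h4⟩ := hb j
    obtain ⟨a, h5 | h5⟩ := (c j).eq_nat_or_neg
    · rw [h5, zpow_natCast]
      refine pow_mem (S := pl O _) (Exists.intro 1 ?_) _
      rw [pow_one, h4, show e * (u j * v j) * x j = e * v j * (u j * x j) by ring]
      exact mul_mem (mul_mem he (hv j)) (hux j)
    · rw [h5, zpow_neg, zpow_natCast, ← inv_pow]
      refine pow_mem (S := pl O _) (Exists.intro 1 ?_) _
      rw [pow_one, h4, show e * (u j * v j) * (x j)⁻¹ = e * u j * (v j * (x j)⁻¹) by ring]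
      exact mul_mem (mul_mem he (hu j)) (hvx j)
  exact h2 N _ hN fun ρ => (h3 ρ c).2 (h ρ)

end Pool.Agent.MP_19ffc6_ag.Perf
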