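import Pool.Agent.MP_19ffc6_ag.perf.TQ

/-! PROJECT PERF: the quotient of a point with a frame by its whole inertia group. -/

namespace Pool.Agent.MP_19ffc6_ag.Perf.GD

open Pool.Agent.R72.Wild Pool.Agent.R72.Lci Pool.Agent.R72.Res Pool.Agent.R72.Res.B

variable {k L : Type} [Field k] [Field L] [Algebra k L]
  {G : Type} [Group G] [MulSemiringAction G L] [SMulCommClass G k L]
  {N : Subgroup G} {D O : Subalgebra k L} {n : ℕ} {z z' : Fin n → L} {x y : L} {g : G}

/-- The displacements of the monomials generate all displacements. -/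
theorem disp_gen (hl : Lcl O) (hr : Rt O) [IsNoetherianRing O] (hf : Frame O z)
    (hO : ∀ x ∈ O, g • x ∈ O) {J : Submodule O L}
    (hg : ∀ c, mn z c ∈ O → g • mn z c - mn z c ∈ J) (hx : x ∈ O) : g • x - x ∈ J := by
  have := hl.isLocalRing
  let I : Submodule O L := Submodule.span O {y | ∃ x ∈ O, y = g • x - x}
  have hI : I.FG := (Submodule.fg_span (R := O) (Set.finite_singleton (1 : L))).of_le
    (Submodule.span_le.2 (by
      rintro _ ⟨x, hx, rfl⟩
      exact Submodule.mem_span_singleton.2 ⟨⟨_, sub_mem (hO x hx) hx⟩, mul_one _⟩))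
  have h1 : I ≤ J := by
    refine Submodule.le_of_le_smul_of_le_jacobson_bot hI
      (IsLocalRing.maximalIdeal_le_jacobson ⊥) (Submodule.span_le.2 ?_)
    rintro _ ⟨x, hx, rfl⟩
    obtain ⟨c, hc⟩ := hr.mx hl hx
    let X : AddSubmonoid L :=
      { carrier := {y | g • y - y ∈ J ⊔ IsLocalRing.maximalIdeal O • I}
        zero_mem' := by simp
        add_mem' := fun {x y} hx hy => by
          change _ ∈ J ⊔ _
          rw [smul_add, add_sub_add_comm]; exact add_mem hx hy }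
    have h2 := span_mul_mem (O := O) (X := X) (fun s hs r hr => by
      have hs' : s ∈ O := gens_mem hs
      have h3 : g • s - s ∈ J := by
        obtain ⟨-, c, d, hc, rfl⟩ := hs
        rw [smul_sub, smul_alg, sub_sub_sub_cancel_right]
        exact hg c hc
      change _ ∈ J ⊔ _
      rw [show g • (r * s) - r * s = g • r * (g • s - s) + s * (g • r - r) by rw [smul_mul']; ring]
      exact Submodule.add_mem_sup (mul_mem' (hO r hr) h3)
        (Submodule.smul_mem_smul (r := (⟨s, hs'⟩ : O)) (fun U => hs.1 ((isUnit_iff_un _).1 U))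
          (Submodule.subset_span ⟨r, hr, rfl⟩))) (hf.gen _ hc.1 hc.2) 1 (one_mem _)
    change _ ∈ J ⊔ _ at h2
    rwa [one_mul, smul_sub, smul_alg, sub_sub_sub_cancel_right] at h2
  exact h1 (Submodule.subset_span ⟨x, hx, rfl⟩)

/-- The displacements of the coordinates generate all displacements. -/
theorem disp (hl : Lcl O) (hr : Rt O) [IsNoetherianRing O] (hf : Frame O z)
    (hO : ∀ x ∈ O, g • x ∈ O) {J : Submodule O L} (hJ : ∀ x ∈ J, x ∈ mx hl)
    (hg : ∀ j, g • z j / z j - 1 ∈ J) (hx : x ∈ O) : g • x - x ∈ J :=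
  disp_gen hl hr hf hO (fun c hc => by
    have h4 := mul_mem' hc (one_mn hl hJ hg c)
    have h5 := mn_ne_zero hf.ne c
    convert h4 using 1
    rw [smul_mn]
    simp only [mn, div_zpow, Finset.prod_div_distrib] at h5 ⊢
    field_simp) hx

omit [SMulCommClass G k L] in
lemma un_ratio (h0 : x ≠ 0) (hO : ∀ g : G, ∀ x ∈ O, g • x ∈ O) (hx : ∀ g : G, g • x / x ∈ O)
    (g : G) : Un O (g • x / x) :=
  ⟨hx g, div_ne_zero ((smul_ne_zero_iff_ne g).2 h0) h0, by
    have := hO g _ (hx g⁻¹)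
    rwa [smul_div₀', smul_inv_smul, ← inv_div] at this⟩

/-- The character of a semi-invariant principal ideal. -/
lemma exists_chi (hl : Lcl O) (hr : Rt O) (hO : ∀ g : G, ∀ x ∈ O, g • x ∈ O) (h0 : x ≠ 0)
    (hx : ∀ g : G, g • x / x ∈ O) :
    ∃ χ : G →* k, ∀ g, g • x / x - algebraMap k L (χ g) ∈ mx hl := by
  choose χ hχ using fun g : G => hr.mx hl (hx g)
  refine ⟨⟨⟨χ, const_eq hl (hχ 1) (by simp [h0])⟩, fun g h => const_eq hl (hχ _) ?_⟩, hχ⟩
  have h1 := add_mem (mx_mul hl (hx g) (mx_sm hl hO g (hχ h)))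
    (mx_mul hl (O.algebraMap_mem (χ h)) (hχ g))
  have h2 := (smul_ne_zero_iff_ne g).2 h0
  convert h1 using 1
  rw [smul_sub, smul_alg, smul_div₀', mul_smul, map_mul]; field_simp; ring

omit [SMulCommClass G k L] in
lemma nI_smul (hz : ∀ j, z j ≠ 0) (hO : ∀ x ∈ O, g • x ∈ O) (hu : ∀ j, Un O (g • z j / z j))
    (hx : x ∈ nI O z) : g • x ∈ nI O z := by
  induction hx using Submodule.span_induction with
  | mem x hx =>
    obtain ⟨h1, h2, c, rfl⟩ := hx
    exact mem_of_dv (mn_ne_zero hz c) (smul_mn g z c ▸ (un_mn_of_un hu c).1)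
      (Submodule.subset_span ⟨h1, h2, c, rfl⟩)
  | zero => rw [smul_zero]; exact zero_mem _
  | add x y _ _ hx hy => rw [smul_add]; exact add_mem hx hy
  | smul r x _ hx =>
    change g • ((r : L) * x) ∈ _
    rw [smul_mul']; exact mul_mem' (hO _ r.2) hx

/-- Constant characters along the stratum give a trivial action on the stratum. -/
theorem star_of_tame (hl : Lcl O) (hr : Rt O) [IsNoetherianRing O] (hf : Frame O z)
    (hO : ∀ g : G, ∀ x ∈ O, g • x ∈ O) (hu : ∀ j, Un O (g • z j / z j))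
    (hg : ∀ j, ∃ c : k, g • z j / z j - algebraMap k L c ∈ nI O z) (hx : x ∈ O) :
    g • x - x ∈ nI O z := by
  have hI := fun x (hx : x ∈ nI O z) => nI_mx hl hx
  refine disp_gen hl hr hf (hO g) (fun c hc => ?_) hx
  by_cases U : Un O (mn z c)
  swap
  · have h1 : mn z c ∈ nI O z := Submodule.subset_span ⟨hc, U, c, rfl⟩
    exact sub_mem (nI_smul hf.ne (hO g) hu h1) h1
  choose χ hχ using hg
  have h0 : ∀ j, χ j ≠ 0 := fun j e => (hI _ (hχ j)).2 (by simpa [e] using hu j)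
  have h1 : ∀ j, g • z j / z j / algebraMap k L (χ j) - 1 ∈ nI O z := fun j => by
    have := mul_mem' (un_alg O (h0 j)).2.2 (hχ j)
    rwa [mul_sub, inv_mul_cancel₀ (un_alg O (h0 j)).2.1, mul_comm, ← div_eq_mul_inv] at this
  have h2 := one_mn hl hI h1 c
  have h3 : mn (fun j => g • z j / z j / algebraMap k L (χ j)) c =
      g • mn z c / mn z c / algebraMap k L (∏ j, χ j ^ c j) := by
    rw [smul_mn]
    simp only [mn, div_zpow, Finset.prod_div_distrib, map_prod, map_zpow₀]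
  have h4 := un_alg O (Finset.prod_ne_zero_iff.2 fun j (_ : j ∈ Finset.univ) =>
    zpow_ne_zero (c j) (h0 j))
  rw [h3] at h2
  have h5 := mul_mem' h4.1 h2
  rw [mul_sub, mul_div_cancel₀ _ h4.2.1, mul_one] at h5
  obtain ⟨a, ha⟩ := hr.mx hl hc
  have h6 := mx_mul hl U.2.2 (sub_mem (mx_sm hl hO g ha) ha)
  rw [smul_sub, smul_alg, sub_sub_sub_cancel_right, mul_sub, inv_mul_cancel₀ U.2.1, mul_comm,
    ← div_eq_mul_inv, ← map_one (algebraMap k L)] at h6
  rw [const_eq hl (hI _ h5) h6, map_one] at h5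
  have h7 := mul_mem' hc h5
  rwa [mul_sub, mul_div_cancel₀ _ U.2.1, mul_one] at h7

omit [SMulCommClass G k L] in
/-- A tame element that acts trivially modulo `I` multiplies `x` by a constant modulo `I`. -/
lemma tame_const (hl : Lcl O) (h0 : x ≠ 0)
    (hx : ∀ g : G, g • x / x ∈ O) {I : Submodule O L} (hI : ∀ x ∈ I, x ∈ mx hl) {m : ℕ}
    (hm : (m : k) ≠ 0) (hg : g ^ m • x = x) (hs : ∀ a ∈ O, g • a - a ∈ I) {c : k}
    (hc : g • x / x - algebraMap k L c ∈ mx hl) : g • x / x - algebraMap k L c ∈ I := by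
  set w := g • x / x with hw
  have h1 : ∀ i : ℕ, g ^ i • x / x - w ^ i ∈ I := fun i => by
    induction i with
    | zero => simp [h0]
    | succ i ih =>
      have h2 := mul_mem' (hx g) (add_mem (hs _ (hx (g ^ i))) ih)
      have h3 := (smul_ne_zero_iff_ne g).2 h0
      convert h2 using 1
      rw [smul_div₀', pow_succ', mul_smul, pow_succ', hw]; field_simp; ring
  have h2 := h1 m
  rw [hg, div_self h0] at h2
  have h3 : ∀ i : ℕ, w ^ i - algebraMap k L (c ^ i) ∈ mx hl := fun i => by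
    rw [map_pow, ← geom_sum₂_mul]
    exact mx_mul hl (sum_mem fun j _ => mul_mem (pow_mem (hx g) _)
      (pow_mem (O.algebraMap_mem c) _)) hc
  have h4 : c ^ m = 1 := const_eq hl (h3 m) (by simpa using neg_mem (hI _ h2))
  have hm0 : m ≠ 0 := by rintro rfl; exact hm Nat.cast_zero
  have hc0 : c ≠ 0 := by rintro rfl; simp [hm0] at h4
  have h5 : Un O (∑ i ∈ Finset.range m, w ^ i * algebraMap k L c ^ (m - 1 - i)) := by
    refine un_of_sub hl (un_alg O (mul_ne_zero hm (pow_ne_zero (m - 1) hc0))) ?_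
    rw [show algebraMap k L (m * c ^ (m - 1)) = ∑ i ∈ Finset.range m,
        algebraMap k L (c ^ i) * algebraMap k L c ^ (m - 1 - i) by
      simp only [map_pow, map_mul, map_natCast, geom_sum₂_self], ← Finset.sum_sub_distrib]
    refine sum_mem fun i _ => ?_
    rw [← sub_mul, mul_comm]
    exact mx_mul hl (pow_mem (O.algebraMap_mem c) _) (h3 i)
  have h6 := mul_mem' h5.2.2 (neg_mem h2)
  rwa [neg_sub, ← map_one (algebraMap k L), ← h4, map_pow, ← geom_sum₂_mul,
    inv_mul_cancel_left₀ h5.2.1] at h6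

/-- A tame element with trivial characters acts trivially. -/
lemma tame_triv [N.FiniteIndex] (hl : Lcl O) (hr : Rt O) [IsNoetherianRing O] (hf : Frame O z)
    (hO : ∀ g : G, ∀ x ∈ O, g • x ∈ O) (hz : ∀ g ∈ N, ∀ j, g • z j = z j)
    (hu : ∀ (g : G) j, g • z j / z j ∈ O) {m : ℕ} (hm : (m : k) ≠ 0) (hg : g ^ m ∈ N)
    (hs : ∀ a ∈ O, g • a - a ∈ nI O z) (h1 : ∀ j, g • z j / z j - 1 ∈ mx hl) :
    (∀ x ∈ O, g • x = x) ∧ ∀ j, g • z j = z j := by
  have hI := fun x (hx : x ∈ nI O z) => nI_mx hl hx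
  have h2 : ∀ j, g • z j / z j - 1 ∈ nI O z := fun j => by
    simpa using tame_const hl (hf.ne j) (fun g => hu g j) hI hm (hz _ hg j) hs (c := 1)
      (by simpa using h1 j)
  have h3 : ∀ (i : ℕ) j, g ^ i • z j / z j - 1 ∈ nI O z := fun i j => by
    induction i with
    | zero => simp [hf.ne j]
    | succ i ih =>
      have h4 := nI_smul hf.ne (hO g) (fun j => one_un hl hI (h2 j)) ih
      rw [smul_sub, smul_one] at h4
      have := one_mul' hl hI h4 (h2 j)
      rwa [smul_div₀', div_mul_div_cancel₀ ((smul_ne_zero_iff_ne g).2 (hf.ne j)), ← mul_smul,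
        ← pow_succ'] at this
  let y : Fin n → L := fun j => (m : k)⁻¹ • ∑ i ∈ Finset.range m, g ^ i • z j
  have h4 : ∀ j, y j / z j - 1 ∈ nI O z := fun j => by
    have := mul_mem' (O.algebraMap_mem (m : k)⁻¹) (sum_mem fun i (_ : i ∈ Finset.range m) => h3 i j)
    convert this using 1
    rw [Finset.sum_sub_distrib, mul_sub, Finset.sum_const, Finset.card_range, nsmul_eq_mul, mul_one,
      ← map_natCast (algebraMap k L), ← map_mul, inv_mul_cancel₀ hm, map_one, ← Finset.sum_div,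
      ← mul_div_assoc, ← Algebra.smul_def]
  have h5 : ∀ j, g • y j = y j := fun j => by
    have h6 := Finset.sum_range_succ (fun i => g ^ i • z j) m
    rw [Finset.sum_range_succ', hz _ hg j, pow_zero, one_smul, add_left_inj] at h6
    simp only [y, smul_comm g, Finset.smul_sum, ← mul_smul, ← pow_succ']
    rw [← Finset.smul_sum, h6, Finset.smul_sum]
  have hf' := frame_perturb hl hf h4
  have h6 : ∀ x ∈ O, g • x = x := fun x hx => sub_eq_zero.1 (disp hl hr hf' (hO g) (J := ⊥)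
    (fun x hx => (Submodule.mem_bot _).1 hx ▸ zero_mem _) (fun j => by simp [h5 j, hf'.ne j]) hx)
  refine ⟨h6, fun j => ?_⟩
  have h7 := h6 _ (one_un hl hI (h4 j)).1
  rw [smul_div₀', h5] at h7
  simpa [div_eq_mul_inv, hf'.ne j] using h7

/-- The quotient by the inertia group: gap domination for the `p`-elements and a trivial action
of the tame elements on the stratum. -/
theorem wq {p : ℕ} [Fact p.Prime] [CharP k p] [N.Normal] [N.FiniteIndex]
    (hfg : D.FG) (hp : IsPoint D O) (hr : Rt O)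
    (hD : ∀ g : G, ∀ x ∈ D, g • x ∈ D) (hO : ∀ g : G, ∀ x ∈ O, g • x ∈ O)
    (hf : Frame O z) (hN : ∀ g ∈ N, ∀ x ∈ D, g • x = x) (hz : ∀ g ∈ N, ∀ j, g • z j = z j)
    (faith : ∀ g : G, (∀ x ∈ O, g • x = x) → (∀ j, g • z j = z j) → g ∈ N)
    (hu : ∀ (g : G) j, g • z j / z j ∈ O)
    (star : ∀ (g : G) (m : ℕ), (m : k) ≠ 0 → g ^ m ∈ N → ∀ a ∈ O, g • a - a ∈ nI O z)
    (dir : G → Fin n) {a b c : ℕ} (hc : N.index ≤ c) (hb : gap c a c ≤ b)
    (mon : ∀ h ∉ N, (∃ m, h ^ p ^ m ∈ N) →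
      LMon O z (dp h (z (dir h))) ∧ ¬ Un O (dp h (z (dir h))))
    (oth : ∀ h ∉ N, (∃ m, h ^ p ^ m ∈ N) → ∀ j ≠ dir h, dp h (z j) / dp h (z (dir h)) ^ b ∈ O)
    (pair : ∀ h ∉ N, (∃ m, h ^ p ^ m ∈ N) → ∀ h' ∉ N, (∃ m, h' ^ p ^ m ∈ N) →
      (dir h = dir h' ∧ dp h (z (dir h)) ^ a / dp h' (z (dir h')) ∈ O ∧
        dp h' (z (dir h')) ^ a / dp h (z (dir h)) ∈ O) ∨
      dp h (z (dir h)) / dp h' (z (dir h')) ^ b ∈ O ∨
      dp h' (z (dir h')) / dp h (z (dir h)) ^ b ∈ O) :
    ∃ (z₁ : Fin n → L) (α : Fin n → ℕ) (β : Matrix (Fin n) (Fin n) ℤ) (m : ℕ), (m : k) ≠ 0 ∧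
      (∀ j, z₁ j / z j ^ p ^ α j - 1 ∈ nI O z) ∧ (∀ (g : G) j, ∃ c : k, g • z₁ j = c • z₁ j) ∧
      (∀ e, Matrix.vecMul e β = 0 → e = 0) ∧
      (∀ c, (∀ g : G, g • mn z₁ c = mn z₁ c) ↔ ∃ e, Matrix.vecMul e β = c) ∧
      (∀ c, ∃ e, Matrix.vecMul e β = m • c) ∧ Frame (fix G O) (fun i => mn z₁ (β i)) ∧
      ∀ f, (∀ g : G, g • f = f) → LMon O z f → LMon (fix G O) (fun i => mn z₁ (β i)) f := by
  have hpp : p.Prime := Fact.out
  have : CharP L p := charP_of_injective_algebraMap (algebraMap k L).injective p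
  have hl := hp.lcl
  have hI := fun x (hx : x ∈ nI O z) => nI_mx hl hx
  have : Algebra.FiniteType k D := (Subalgebra.fg_iff_finiteType _).1 hfg
  have : IsNoetherianRing D := Algebra.FiniteType.isNoetherianRing k _
  have := hp.isNoetherianRing
  choose χ hχ using fun j => exists_chi hl hr hO (hf.ne j) fun g => hu g j
  let P : Subgroup G := (MonoidHom.pi χ).ker
  have hP : ∀ g, g ∈ P ↔ ∀ j, χ j g = 1 := fun g => funext_iff
  have hNP : N ≤ P := fun g hg => (hP g).2 fun j =>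
    const_eq hl (hχ j g) (by simp [hz g hg j, hf.ne j])
  have := Subgroup.finiteIndex_of_le hNP
  obtain ⟨s, m, hm, hs⟩ := Nat.exists_eq_pow_mul_and_not_dvd N.index_ne_zero_of_finite p hpp.ne_one
  have hm' : (m : k) ≠ 0 := fun e => hm ((CharP.cast_eq_zero_iff k p m).1 e)
  have ht : ∀ (g : G) (u : ℕ), (g ^ (p ^ s * u)) ^ m ∈ N := fun g u => by
    rw [← pow_mul, mul_right_comm, ← hs, pow_mul]; exact pow_mem (N.pow_index_mem g) u
  have hpg : ∀ g ∈ P, ∃ m, g ^ p ^ m ∈ N := fun g hg => ⟨s, by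
    have h1 := ht g 1
    rw [mul_one] at h1
    obtain ⟨h2, h3⟩ := tame_triv hl hr hf hO hz hu hm' h1 (star _ m hm' h1) fun j => by
      simpa [(hP _).1 (pow_mem hg (p ^ s)) j] using hχ j (g ^ p ^ s)
    exact faith _ h2 h3⟩
  have hPi : ¬ p ∣ P.index := fun hd => by
    obtain ⟨q, hq⟩ := exists_prime_orderOf_dvd_card' (G := G ⧸ P) p hd
    obtain ⟨g, rfl⟩ := QuotientGroup.mk_surjective q
    have h1 : g ^ p ∈ P := by
      rw [← QuotientGroup.eq_one_iff, QuotientGroup.mk_pow, ← hq, pow_orderOf_eq_one]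
    have h2 : g ∈ P := (hP g).2 fun j => by
      have := (hP _).1 h1 j
      rwa [map_pow, ← sub_eq_zero, ← one_pow p, ← sub_pow_char, pow_eq_zero_iff hpp.ne_zero,
        sub_eq_zero] at this
    rw [(QuotientGroup.eq_one_iff g).2 h2, orderOf_one] at hq
    exact hpp.one_lt.ne hq
  obtain ⟨z', α, e1, e2, e3, e4, e5⟩ := gd (G := P) (N := N.subgroupOf P) (p := p)
    (fun g => hpg g g.2) hfg hp hr (fun g => hD g) (fun g => hO g) hf (fun g hg => hN g hg)
    (fun g hg => hz g hg) (fun g => dir g) (a := a) (b := b) (c := c)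
    ((Nat.le_of_dvd (Nat.pos_of_ne_zero N.index_ne_zero_of_finite)
      (Subgroup.relIndex_dvd_index_of_normal N P)).trans hc) hb
    (fun h hh => ⟨(mon h hh (hpg h h.2)).1, sub_mem (hu h _) (one_mem _), (mon h hh (hpg h h.2)).2⟩)
    (fun h hh => oth h hh (hpg h h.2)) fun h hh h' hh' => pair h hh (hpg h h.2) h' hh' (hpg h' h'.2)
  have hpt := isPoint_fix (G := P) (N := N.subgroupOf P) hp (fun g => hD g) (fun g => hO g)
    fun g hg => hN g hg
  have : Algebra.FiniteType k (fix P D) := (Subalgebra.fg_iff_finiteType _).1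
    (fix_fin (G := P) (N := N.subgroupOf P) hfg (fun g => hD g) fun g hg => hN g hg).1
  have : IsNoetherianRing (fix P D) := Algebra.FiniteType.isNoetherianRing k _
  have := hpt.isNoetherianRing
  have hcj : ∀ (g : G) (x : L), (∀ h : P, h • x = x) → ∀ h : P, h • g • x = g • x := fun g x hx h => by
    have h1 := hx ⟨g⁻¹ * h * g⁻¹⁻¹, (inferInstance : P.Normal).conj_mem h h.2 g⁻¹⟩
    rw [Subgroup.mk_smul, inv_inv, mul_smul, mul_smul, inv_smul_eq_iff] at h1
    exact h1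
  obtain ⟨z₁, β, f1, -, f3, f4, f5, f6, f7, f8⟩ := tq (G := G) (N := P) (O := fix P O)
    (fun e => hPi ((CharP.cast_eq_zero_iff k p _).1 e)) hpt.lcl (hr.of_le (fix_le O))
    (fun g x hx => ⟨hO g x hx.1, hcj g x hx.2⟩) (fun g hg x hx => hx.2 ⟨g, hg⟩) e3
    (fun g hg j => e1 ⟨g, hg⟩ j) (fun g j => by
      have h1 : (p ^ s) ^ P.index.totient ≡ 1 [MOD P.index] :=
        Nat.ModEq.pow_totient (((Nat.Prime.coprime_iff_not_dvd hpp).2 hPi).pow_left s)
      obtain ⟨u, hu'⟩ : p ^ s ∣ (p ^ s) ^ P.index.totient :=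
        dvd_pow_self _ (Nat.totient_pos.2 (Nat.pos_of_ne_zero P.index_ne_zero_of_finite)).ne'
      rw [hu'] at h1
      set t := g ^ (p ^ s * u)
      have h2 : t⁻¹ * g ∈ P := by
        rw [← QuotientGroup.eq, QuotientGroup.mk_pow]
        exact (pow_eq_pow_of_modEq h1 pow_card_eq_one').trans (pow_one _)
      have h3 : g • z' j = t • z' j := by
        have := e1 ⟨_, h2⟩ j
        rwa [Subgroup.mk_smul, mul_smul, inv_smul_eq_iff] at this
      have h4 := tame_const hl (hf.ne j) (fun g => hu g j) hI hm' (hz _ (ht g u) j)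
        (star _ m hm' (ht g u)) (hχ j t)
      have h5 := nI_smul hf.ne (hO t) (fun j => un_ratio (hf.ne j) hO (fun g => hu g j) t) (e2 j)
      rw [smul_sub, smul_one] at h5
      have h6 := add_mem (mul_mem' (pow_mem (hu t j) (p ^ α j)) (one_div' hl hI h5 (e2 j)))
        (mul_mem' (pow_mem (hI _ h4).1 (p ^ α j - 1)) h4)
      refine ⟨χ j t ^ p ^ α j, (e4 _).2 ⟨fun h => ?_, ?_⟩⟩
      · rw [smul_sub, smul_alg, smul_div₀', hcj g _ fun h => e1 h j, e1]
      · have h7 := hf.ne j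
        have h8 := e3.ne j
        have h9 := (smul_ne_zero_iff_ne t).2 h7
        convert h6 using 1
        rw [pow_sub_one_mul (pow_pos hpp.pos _).ne', sub_pow_char_pow, h3, smul_div₀', smul_pow',
          map_pow, div_pow]
        field_simp; ring)
  have e : fix G (fix P O) = fix G O :=
    le_antisymm (fun x hx => ⟨hx.1.1, hx.2⟩) fun x hx => ⟨⟨hx.1, fun g => hx.2 g⟩, hx.2⟩
  rw [e] at f7 f8
  refine ⟨z₁, α, β, P.index, fun e => hPi ((CharP.cast_eq_zero_iff k p _).1 e), fun j => ?_, f3, f4,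
    f5, f6, f7, fun f hf' hm => f8 f hf' (e5 f (fun g => hf' g) hm)⟩
  have := one_mul' hl hI ((e4 _).1 (f1 j)).2 (e2 j)
  rwa [div_mul_div_cancel₀ (e3.ne j)] at this

end Pool.Agent.MP_19ffc6_ag.Perf.GD
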