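import Pool.Agent.MP_19ffc6_ag.perf.SpecT
import Pool.Agent.MP_19ffc6_ag.perf.WQ

/-! PROJECT PERF, block T, rows UZ, ORD and ZERO. -/

namespace Pool.Agent.MP_19ffc6_ag.Perf

open Pool.Agent.R72.Wild Pool.Agent.R72.Lci Pool.Agent.R72.Res Pool.Agent.R72.Res.B
  Pool.Agent.R72.Res.Tor Pool.Agent.R72.Res.P

variable {k L : Type} [Field k] [Field L] [Algebra k L]

namespace UzA

variable (k L) in
/-- The linear automorphisms. -/
def LinG : Subgroup (SA k L) where
  carrier := {g | Lin g}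
  one_mem' := Lin.one
  mul_mem' := Lin.mul
  inv_mem' := Lin.inv

instance : SMulCommClass (LinG k L) k L := ⟨fun g c x => Lin.smul g.2 c x⟩

variable (k) in
/-- The automorphisms over `K₀`. -/
def FxG (K₀ : Subfield L) : Subgroup (SA k L) where
  carrier := {g | Fx K₀ g}
  one_mem' := Fx.one K₀
  mul_mem' := Fx.mul
  inv_mem' := Fx.inv

lemma ek_le (k₀ : Subfield k) (y : ℕ → L) :
    Ek k₀ y 0 ≤ (⊥ : IntermediateField k L).toSubfield := by
  refine Subfield.closure_le.2 ?_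
  rintro _ (⟨c, -, rfl⟩ | ⟨j, hj, -⟩)
  exacts [IntermediateField.algebraMap_mem _ c, absurd hj (Nat.not_lt_zero j)]

lemma mem_bot [IsAlgClosed k] {k₀ : Subfield k} {y : ℕ → L} {z : L}
    (h : IsAlgebraic (Ek k₀ y 0) z) : z ∈ (⊥ : IntermediateField k L) := by
  have h1 : IsIntegral k z := isIntegral_trans (A := (⊥ : IntermediateField k L)) z
    (h.isIntegral.map_of_comp_eq (Subfield.inclusion (ek_le k₀ y)) (RingHom.id L) rfl)
  exact minpoly.mem_range_of_degree_eq_one k z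
    (IsAlgClosed.degree_eq_one_of_irreducible k (minpoly.irreducible h1))

end UzA

open UzA

/-- Row UZ. -/
theorem uz : UzStmt k L := fun _ _ _ _ g _ h hg hO hI _ ha =>
  let ⟨_, hD⟩ := h.aff
  have := hD.noeth
  GD.disp_gen (G := LinG k L) (g := ⟨g, hg⟩) hD.pt.lcl hD.rt h.fr
    (fun _ hx => hO.le (smul_mem_sA.2 hx)) hI ha

/-- Row ORD. -/
theorem ord : OrdStmt k L := by
  rintro K₀ _ hN ⟨T, rfl⟩
  let H : Subgroup (FxG k K₀) := ⨅ t : T, MulAction.stabilizer _ (t : L)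
  have : H.FiniteIndex := Subgroup.finiteIndex_iInf fun t => by
    have : Finite (MulAction.orbit (FxG k K₀) (t : L)) :=
      (orb_fin k (hN t (IntermediateField.subset_adjoin k _ t.2))).subset (by
        rintro _ ⟨g, rfl⟩
        exact ⟨g, g.2, rfl⟩)
    have := Finite.of_equiv _ (MulAction.orbitEquivQuotientStabilizer (FxG k K₀) (t : L))
    exact Subgroup.finiteIndex_of_finite_quotient
  refine ⟨H.index.factorial, Nat.factorial_pos _, fun g hg hl a ha => ?_⟩
  have h1 := Subgroup.mem_iInf.1 (Subgroup.pow_mem_of_index_ne_zero_of_dvd this.index_ne_zero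
    ⟨g, hg⟩ fun m h0 hm => Nat.dvd_factorial h0 hm)
  induction ha using IntermediateField.adjoin_induction with
  | mem t ht => exact h1 ⟨t, ht⟩
  | algebraMap c => exact hl.pow _ c
  | add a b _ _ ha hb => rw [smul_add, ha, hb]
  | inv a _ ha => rw [smul_inv'', ha]
  | mul a b _ _ ha hb => rw [smul_mul', ha, hb]

/-- Row ZERO. -/
theorem zeroT [IsAlgClosed k] : ZeroStmt k L := by
  intro k₀ hk y _ Z S hZ hS
  have hK : ∀ {x}, x ∈ (⊥ : IntermediateField k L) → ∀ O : Subalgebra k L, x ∈ O := by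
    rintro _ ⟨c, rfl⟩ O
    exact O.algebraMap_mem c
  have hM : Mdl (⊥ : IntermediateField k L) (pr k 1) :=
    ⟨pr_fg _, fun e => one_ne_zero ((Submodule.mem_bot k).1 (e ▸ mem_pr (1 : L))), fun m hm => by
      obtain ⟨c, rfl⟩ := Submodule.mem_span_singleton.1 hm
      exact IntermediateField.smul_mem _ (one_mem _),
      fun g _ _ x hx => ⟨1, one_mem _, one_ne_zero, by rw [one_mul]; exact hK hx _⟩⟩
  have hd : Algebra.trdeg k (⊥ : IntermediateField k L) = (0 : ℕ) :=
    trdeg_eq_zero.trans Nat.cast_zero.symm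
  refine ⟨fun _ => ⊥, S, pr k 1, fun z hz => mem_bot (hZ z hz), subset_rfl, fun i hi => ?_,
    fun _ _ => IntermediateField.fg_bot, fun _ _ => le_rfl, hd,
    fun f hf => ⟨mem_bot (hS f hf).2.1, (hS f hf).2.2⟩, by simp,
    Stb.span fun x hx => (Set.mem_singleton_iff.1 hx).symm ▸ one_mem _, hM, fun O hO hr => ?_⟩
  · obtain rfl := Nat.le_zero.1 hi
    refine ⟨ek_le k₀ y, ?_, ?_⟩
    · rintro _ ⟨c, rfl⟩
      exact ((hk.alg.isAlgebraic c).isIntegral.map_of_comp_eq
        (((algebraMap k L).comp k₀.subtype).codRestrict (Ek k₀ y 0)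
          fun a => Subfield.subset_closure (Or.inl ⟨a, a.2, rfl⟩)) (algebraMap k L) rfl).isAlgebraic
    · rintro g - _ ⟨c, rfl⟩
      exact ⟨g.σ c, (SA.smul_alg g c).symm⟩
  have hu : ∀ x ∈ (⊥ : IntermediateField k L), x ≠ 0 → Un O x := fun x hx h0 =>
    ⟨hK hx O, h0, hK (inv_mem hx) O⟩
  refine ⟨fun _ => O, y, rfl, ⟨fun i hi => ?_, by simp, fun _ _ h _ _ => h, by simp,
    fun g _ _ i _ W _ _ h a ha => ?_⟩, fun i => i.elim0,
    fun f hf => .of_un (hu f (mem_bot (hS f hf).2.1) (hS f hf).1), by simp⟩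
  · obtain rfl := Nat.le_zero.1 hi
    refine ⟨hM.aff hd hO hr, ⟨fun i => i.elim0, fun x hx h => ?_⟩, fun i => i.elim0,
      fun a ha _ => hK ha O⟩
    obtain rfl : x = 0 := by_contra fun c => h (hu x (hM.pt_le hO hx) c)
    exact zero_mem _
  · have h1 := h a ha
    obtain ⟨c, rfl⟩ : ∃ c, algebraMap k L c = a := hM.pt_le hO ha
    rw [SA.smul_alg, ← map_sub] at h1 ⊢
    rw [show g.σ c - c = 0 from by_contra fun e => h1 (un_alg W e), map_zero]
    exact zero_mem _

end Pool.Agent.MP_19ffc6_ag.Perf
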