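import Pool.Agent.MP_19ffc6_ag.perf.SpecL
import Pool.Agent.MP_19ffc6_ag.perf.SsComp
import Pool.Agent.MP_19ffc6_ag.perf.TCmp
import Pool.Agent.MP_19ffc6_ag.perf.TBlow
import Pool.Agent.MP_19ffc6_ag.perf.TPoly
import Pool.Agent.MP_19ffc6_ag.perf.TPers
import Pool.Agent.MP_19ffc6_ag.perf.TDiv
import Pool.Agent.MP_19ffc6_ag.perf.TUz
import Pool.Agent.MP_19ffc6_ag.perf.TEps
import Pool.Agent.MP_19ffc6_ag.perf.TLift
import Pool.Agent.MP_19ffc6_ag.perf.TLvl

-- ======== part 0: formerly Pool.Agent.MP_19ffc6_ag.perf.TUp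
section MrgPart0

/-! PROJECT PERF, rows UP and STRONG: flags persist at admissible points; the strong form of the
inductive statement. -/

namespace Pool.Agent.MP_19ffc6_ag.Perf

open Pool.Agent.R72.Wild Pool.Agent.R72.Lci Pool.Agent.R72.Res Pool.Agent.R72.Res.B
  Pool.Agent.R72.Res.Tor Pool.Agent.R72.Res.P

variable {k L : Type} [Field k] [Field L] [Algebra k L]

namespace TUp

lemma lmon_mono {O O' : Subalgebra k L} {ι : Type} [Fintype ι] {u : ι → L} {f : L}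
    (h : LMon O u f) (hO : O ≤ O') : LMon O' u f := let ⟨c, hc⟩ := h; ⟨c, hc.mono hO⟩

lemma pw_mono {O O' : Subalgebra k L} {S : Finset L} {f : L} (h : Pw S O f) (hO : O ≤ O') :
    Pw S O' f := let ⟨N, h0, e, he⟩ := h; ⟨N, h0, e, he.mono hO⟩

lemma tw_le {K₀ : Subfield L} {n : ℕ} {F : ℕ → IntermediateField k L} {Os : ℕ → Subalgebra k L}
    {x : ℕ → L} (h : Tw K₀ n F Os x) {i j : ℕ} (hij : i ≤ j) (hj : j ≤ n) : Os i ≤ Os j := by
  induction j, hij using Nat.le_induction with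
  | base => exact le_rfl
  | succ j _ ih => exact (ih (by omega)).trans (h.dom j (by omega)).1

lemma smn_single [DecidableEq L] {S : Finset L} {f : L} (hf : f ∈ S) :
    smn S (Pi.single f 1) = f := by
  rw [smn, Finset.prod_eq_single f (fun b _ hb => by simp [Pi.single_eq_of_ne hb])
    fun h => absurd hf h]
  simp

end TUp

open TUp in
theorem up_of (hn : NearStmt k L) (ha : AdmStmt k L) (hp : PersStmt k L) (ho : OrdStmt k L) :
    UpStmt k L := by
  intro k₀ y n F S T M O O' D' hM hO hr hA hd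
  obtain ⟨Os, x, rfl, hT, h1, h2, h3⟩ := hM.pt O hO hr
  obtain ⟨a1, a2⟩ := ha n (F n) S _ O' D' _ (hT.fr n le_rfl) h1 h2 hA hd
  have le : Os n ≤ O' := hd.1.1
  have e1 : Function.update Os n O' n = O' := Function.update_self ..
  have e2 : ∀ i < n, Function.update Os n O' i = Os i := fun i hi =>
    Function.update_of_ne hi.ne ..
  have dn : ∀ g : SA k L, Fx (Ek k₀ y n) g → g • O' = O' → g • Os n = Os n := fun g hg h =>
    hn.down _ M _ O' g hM.stb hO hd.1 hg h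
  refine ⟨Function.update Os n O', x, e1, ⟨fun i hi => ?_, fun i hi => ?_, fun g hg h i hi => ?_,
    fun g hg h j hj => ?_, fun g hg h i hi => ?_⟩, fun j => pw_mono (h1 j) le,
    fun f hf => lmon_mono (h2 f hf) le,
    fun t ht => ⟨lmon_mono (h3 t ht).1 le, (h3 t ht).2.imp (@le _) (@le _)⟩⟩
  · rcases hi.eq_or_lt with rfl | hi
    · rw [e1]; exact a1
    · rw [e2 i hi]; exact hT.fr i hi.le
  · rw [e2 i hi]
    rcases (Nat.succ_le_of_lt hi).eq_or_lt with rfl | h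
    · rw [e1]; exact Dom.trans (hT.dom i hi) hd.1
    · rw [e2 _ h]; exact hT.dom i hi
  · rw [e1] at h
    rcases hi.eq_or_lt with rfl | hi
    · rw [e1]; exact h
    · rw [e2 i hi]; exact hT.st g hg (dn g hg h) i hi.le
  · rw [e1] at h
    rcases (Nat.succ_le_of_lt hj).eq_or_lt with rfl | h'
    · rw [e1]; exact (hT.un g hg (dn g hg h) j hj).mono le
    · rw [e2 _ h']; exact hT.un g hg (dn g hg h) j hj
  · rw [e1] at h
    have h' := dn g hg h
    rcases hi.eq_or_lt with rfl | hi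
    · rw [e1]
      obtain ⟨m, m0, hm⟩ := ho _ (F i) (hM.gw i le_rfl).alg (hM.fg i le_rfl)
      exact hp i (F i) _ O' _ g (hT.fr i le_rfl) le a2 h'
        (fun j => (hT.un g hg h' j j.2).mono (tw_le hT j.2 le_rfl))
        (fun hl => ⟨m, m0, hm g hg hl⟩) (hT.star g hg h' i le_rfl)
    · rw [e2 i hi]; exact hT.star g hg h' i hi.le

open TUp in
theorem strong_of (htm : TmStmt k L) (htr : TroStmt k L) (hc : CmpStmt k L) (hu : UpStmt k L) :
    StrongStmt k L := by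
  classical
  intro k₀ _ n h0 y hy T hT
  obtain ⟨S₀, s1, s2⟩ := htm (Ek k₀ y n) T hT
  obtain ⟨F, S, M, hZ, hS, hM⟩ := h0 y hy T S₀ (fun t ht => (hT t ht).2) fun f hf =>
    ⟨(s1 f hf).1, isAlgebraic_algebraMap (⟨f, (s1 f hf).2⟩ : Ek k₀ y n),
      fun g hg => hg f (s1 f hf).2⟩
  have gw := hM.gw n le_rfl
  obtain ⟨s, c1, -, c2, -, -, c3⟩ := hc n (Iv (Ek k₀ y n) (F n)) (F n) S M
    (S.image fun f => Pi.single f 1) gw.iv hM.deg (fun f hf => hM.inv f hf)
    (fun g hg => hM.stb g ((fx_Iv gw.le).1 hg)) ⟨hM.mdl, fun O hO hr => by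
      obtain ⟨Os, x, rfl, t0, t1, t2, -⟩ := hM.pt O hO hr
      exact htr n (F n) _ _ S (t0.fr n le_rfl) t1 t2⟩
  refine ⟨F, S, s.M, hM.gw, hM.fg, hM.mono, hM.deg, hM.inv, hZ,
    fun g hg => c1.cl.2.1 g ((fx_Iv gw.le).2 hg), c2, fun O' hO' hr => ?_⟩
  obtain ⟨d1, O, d2, d3, d4⟩ := c3 O' hO' hr
  obtain ⟨D', hA⟩ := c2.aff hM.deg hO' hr
  obtain ⟨Os, x, rfl, t0, t1, t2, -⟩ := hu k₀ y n F S ∅ M O O' D' hM d2 d3 hA d4
  refine ⟨Os, x, rfl, t0, t1, t2, s2 n (F n) _ _ (t0.fr n le_rfl) hZ fun f hf =>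
    ⟨t2 f (hS hf), ?_⟩⟩
  have := d1 _ (Finset.mem_image_of_mem _ (hS hf))
  rwa [smn_single (hS hf)] at this

end Pool.Agent.MP_19ffc6_ag.Perf

end MrgPart0

-- ======== part 1: formerly Pool.Agent.MP_19ffc6_ag.perf.TStage
section MrgPart1

/-! PROJECT PERF, rows STAGE and SPR. -/

namespace Pool.Agent.MP_19ffc6_ag.Perf

open Pool.Agent.R72.Wild Pool.Agent.R72.Lci Pool.Agent.R72.Res Pool.Agent.R72.Res.B
  Pool.Agent.R72.Res.Tor Pool.Agent.R72.Res.P Pool.Agent.R72.Res.Lab Filter GD Polynomial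

variable {k L : Type} [Field k] [Field L] [Algebra k L]

namespace StageH

variable {n : ℕ} {D O V : Subalgebra k L} {x : Fin n → L}

/-- `y` is seen at a finite stage. -/
def Seen (D V : Subalgebra k L) (x : Fin n → L) (y : L) : Prop :=
  ∃ T : Finset (Fin n → ℤ), (∀ c ∈ T, mn x c ∈ V) ∧
    y ∈ loc (D ⊔ Algebra.adjoin k (mn x '' T)) V

lemma up {T T' : Finset (Fin n → ℤ)} (h : T ⊆ T') :
    loc (D ⊔ Algebra.adjoin k (mn x '' T)) V ≤ loc (D ⊔ Algebra.adjoin k (mn x '' T')) V :=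
  loc_mono (sup_le_sup_left (Algebra.adjoin_mono (Set.image_mono h)) _) le_rfl

lemma two {y z : L} (hy : Seen D V x y) (hz : Seen D V x z) :
    ∃ T : Finset (Fin n → ℤ), (∀ c ∈ T, mn x c ∈ V) ∧
      y ∈ loc (D ⊔ Algebra.adjoin k (mn x '' T)) V ∧
      z ∈ loc (D ⊔ Algebra.adjoin k (mn x '' T)) V := by
  obtain ⟨T, h1, h2⟩ := hy
  obtain ⟨T', h3, h4⟩ := hz
  exact ⟨T ∪ T', fun c hc => (Finset.mem_union.1 hc).elim (h1 c) (h3 c),
    up Finset.subset_union_left h2, up Finset.subset_union_right h4⟩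

/-- The elements that are seen at a finite stage. -/
def seen (D V : Subalgebra k L) (x : Fin n → L) : Subalgebra k L where
  carrier := {y | Seen D V x y}
  mul_mem' ha hb := let ⟨T, h1, h2, h3⟩ := two ha hb; ⟨T, h1, mul_mem h2 h3⟩
  add_mem' ha hb := let ⟨T, h1, h2, h3⟩ := two ha hb; ⟨T, h1, add_mem h2 h3⟩
  algebraMap_mem' r := ⟨∅, by simp, Subalgebra.algebraMap_mem _ r⟩

lemma le_V (hD : D ≤ V) {T : Finset (Fin n → ℤ)} (hT : ∀ c ∈ T, mn x c ∈ V) :
    D ⊔ Algebra.adjoin k (mn x '' T) ≤ V :=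
  sup_le hD (Algebra.adjoin_le (by rintro _ ⟨c, hc, rfl⟩; exact hT c hc))

lemma rv_le (hP : IsPoint D O) (hO : O ≤ V) : RV O V x ≤ seen D V x := by
  have h1 : O ⊔ mons V x ≤ seen D V x := by
    refine sup_le (fun y hy => ⟨∅, by simp, loc_mono le_sup_left hO (hP.le_loc hy)⟩)
      (Algebra.adjoin_le ?_)
    rintro _ ⟨hm, c, rfl⟩
    exact ⟨{c}, by simpa using hm, le_loc _ _ ((le_sup_right : _ ≤ D ⊔ _)
      (Algebra.subset_adjoin ⟨c, by simp, rfl⟩))⟩
  rintro _ ⟨a, ha, b, hb, hu, rfl⟩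
  obtain ⟨T, hT, h2, h3⟩ := two (h1 ha) (h1 hb)
  refine ⟨T, hT, ?_⟩
  rw [div_eq_mul_inv]
  exact mul_mem h2 ((dom_loc (le_V (hP.le.trans hO) hT)).2 b h3 hu).2.2

lemma all (E : Finset L) (h : ∀ e ∈ E, Seen D V x e) :
    ∃ T : Finset (Fin n → ℤ), (∀ c ∈ T, mn x c ∈ V) ∧
      ∀ e ∈ E, e ∈ loc (D ⊔ Algebra.adjoin k (mn x '' T)) V := by
  classical
  choose! T h1 h2 using h
  exact ⟨E.biUnion T, fun c hc => let ⟨e, he, hc⟩ := Finset.mem_biUnion.1 hc; h1 e he c hc,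
    fun e he => up (Finset.subset_biUnion_of_mem T he) (h2 e he)⟩

/-- The elements that are constant modulo an ideal. -/
def csm (O : Subalgebra k L) (S : Set L) : Subalgebra k L where
  carrier := {y | y ∈ O ∧ ∃ c : k, y - algebraMap k L c ∈ Submodule.span O S}
  mul_mem' := by
    rintro a b ⟨ha, c, hc⟩ ⟨hb, d, hd⟩
    refine ⟨mul_mem ha hb, c * d, ?_⟩
    rw [show a * b - algebraMap k L (c * d) = a * (b - algebraMap k L d) +
      algebraMap k L d * (a - algebraMap k L c) by rw [map_mul]; ring]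
    exact add_mem (mul_mem_span ha hd) (mul_mem_span (O.algebraMap_mem d) hc)
  add_mem' := by
    rintro a b ⟨ha, c, hc⟩ ⟨hb, d, hd⟩
    refine ⟨add_mem ha hb, c + d, ?_⟩
    rw [map_add, add_sub_add_comm]
    exact add_mem hc hd
  algebraMap_mem' r := ⟨O.algebraMap_mem r, r, by simp⟩

lemma csm_span {S : Set L} (hO : Lcl O) (hS : ∀ s ∈ S, s ∈ O ∧ ¬ Un O s) {y : L}
    (hy : y ∈ csm O S) (hu : ¬ Un O y) : y ∈ Submodule.span O S := by
  obtain ⟨hx, c, hc⟩ := hy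
  by_cases h0 : c = 0
  · simpa [h0] using hc
  · have h1 : y - algebraMap k L c ∈ mx hO :=
      ⟨sub_mem hx (O.algebraMap_mem c), not_un_of_mem_span hO hS hc⟩
    have h2 := sub_mem (show y ∈ mx hO from ⟨hx, hu⟩) h1
    rw [sub_sub_cancel] at h2
    exact absurd (un_algebraMap O h0) h2.2

lemma ev_coe {A : Subalgebra k L} (hA : A ≤ O) (P : A[X]) (z : O) :
    ((eval z (P.map (Subalgebra.inclusion hA).toRingHom) : O) : L) = aeval (z : L) P := by
  rw [eval_map, aeval_def]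
  exact hom_eval₂ P (Subalgebra.inclusion hA).toRingHom O.val.toRingHom z

lemma taylor {A : Subalgebra k L} (hA : A ≤ O) (P : A[X]) {η y : L} (hη : η ∈ O) (hy : y ∈ O) :
    ∃ q ∈ O, aeval (η + y) P = aeval η P + (aeval η (derivative P) + q * y) * y := by
  obtain ⟨q, hq⟩ := binomExpansion (P.map (Subalgebra.inclusion hA).toRingHom) ⟨η, hη⟩ ⟨y, hy⟩
  have h := congrArg (fun a : O => (a : L)) hq
  rw [derivative_map] at h
  simp only [Subalgebra.coe_add, Subalgebra.coe_mul, Subalgebra.coe_pow, ev_coe] at h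
  exact ⟨q, q.2, by rw [h]; ring⟩

/-- A simple root is constant modulo the ideal. -/
lemma root {A : Subalgebra k L} {S : Set L} (hO : Lcl O) (hr : Rt O)
    (hS : ∀ s ∈ S, s ∈ O ∧ ¬ Un O s) (hA : A ≤ csm O S) (P : A[X]) {η : L} (hη : η ∈ O)
    (h0 : aeval η P = 0) (h1 : Un O (aeval η (derivative P))) : η ∈ csm O S := by
  have hAO : A ≤ O := fun a ha => (hA ha).1
  obtain ⟨e, he⟩ := hr η hη
  have hy : η - algebraMap k L e ∈ mx hO := ⟨sub_mem hη (O.algebraMap_mem e), he⟩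
  have hy' := neg_mem hy
  obtain ⟨q, hq, h2⟩ := taylor hAO P hη hy'.1
  set y := -(η - algebraMap k L e) with hy0
  rw [h0, zero_add, show η + y = algebraMap k L e by rw [hy0]; ring] at h2
  have h3 : q * y ∈ mx hO := mul_comm y q ▸ mul_mem_mx hO hy' hq
  have h4 : Un O (aeval η (derivative P) + q * y) := by
    by_contra h5
    have h6 := sub_mem (show _ ∈ mx hO from ⟨add_mem h1.1 h3.1, h5⟩) h3
    rw [add_sub_cancel_right] at h6
    exact h6.2 h1
  have h5 : aeval (algebraMap k L e) P ∈ Submodule.span O S := by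
    refine csm_span hO hS (aeval_mem hA (Subalgebra.algebraMap_mem _ e) P) ?_
    rw [h2, mul_comm]
    exact (mul_mem_mx hO hy' h4.1).2
  refine ⟨hη, e, ?_⟩
  have h6 := neg_mem (mul_mem_span h4.2.2 h5)
  rwa [h2, inv_mul_cancel_left₀ h4.2.1, hy0, neg_neg] at h6

end StageH

open StageH

theorem stage [IsAlgClosed k] (h : BlowStmt k L) : StageStmt k L := by
  classical
  intro n K D O V x E hF hA hV hR hd hE
  obtain ⟨T, hT, hE'⟩ := all E fun e he => rv_le hA.pt hd.1 (hE e he)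
  have hDV : D ≤ V := hA.pt.le.trans hd.1
  set A := D ⊔ Algebra.adjoin k (mn x '' T) with hAd
  have hAK : A ≤ K.toSubalgebra := sup_le hA.le (Algebra.adjoin_le (by
    rintro _ ⟨c, -, rfl⟩; exact mn_mem_field hF.mem c))
  have hAs : A ≤ stg K D x T := le_icl hAK
  have hsV : stg K D x T ≤ V := Val.icl_le hV (le_V hDV hT)
  have hP : IsPoint (stg K D x T) (loc (stg K D x T) V) := isPoint_loc hsV (Val.lcl hV)
  have hDs : D ≤ stg K D x T := le_sup_left.trans hAs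
  have hAf : Aff n K (stg K D x T) (loc (stg K D x T) V) :=
    ⟨hA.deg, icl_fg_alg (hA.fg.sup (Subalgebra.fg_def.2 ⟨_, T.finite_toSet.image _, rfl⟩))
      hA.fg_field hAK fun a ha => isAlgebraic_mono le_sup_left (hA.isAlgebraic a ha),
      fun a ha => icl_le _ _ ha,
      fun a ha => let ⟨b, h1, h2, h3⟩ := hA.frac a ha; ⟨b, hDs h1, h2, hDs h3⟩, hP,
      fun a ha => (hR a (loc_le hsV ha)).imp fun _ hc hu => hc (hu.mono (loc_le hsV))⟩
  have hO : O ≤ loc (stg K D x T) V := hA.pt.le_loc.trans (loc_mono hDs hd.1)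
  set O' := loc (stg K D x T) V with hO'
  have hO'V : O' ≤ V := loc_le hsV
  have hm : mons O' x ≤ O' := Algebra.adjoin_le fun _ hm => hm.1
  have hAm : A ≤ O ⊔ mons O' x := sup_le_sup hA.pt.le (Algebra.adjoin_mono (by
    rintro _ ⟨c, hc, rfl⟩
    exact ⟨hP.le (hAs ((le_sup_right : _ ≤ A) (Algebra.subset_adjoin ⟨c, hc, rfl⟩))), c, rfl⟩))
  obtain ⟨h1, h2⟩ := h n K K O O' _ x x hF hAf (fun j => ⟨hF.mem j, hF.fr.ne j⟩)
    (fun j => ⟨Pi.single j 1, by rw [mn_single, zpow_one]⟩) le_sup_left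
    ⟨hO, fun a ha hu => hd.2 a ha (hu.mono hO'V)⟩
    (hP.of_le_loc (fun a ha => IsPoint.mem_of_isIntegral hP ha.1
      (isIntegral_mono (sup_le hO hm) ha.2)) ((icl_mono hAm).trans (le_loc _ _)))
  refine ⟨T, hT, hsV, hAf, h1, hO, h2.le_loc.trans (loc_mono (sup_le_sup_left
    (Algebra.adjoin_mono fun _ hm => And.intro (hO'V hm.1) hm.2) _) hO'V), fun e he =>
    loc_mono hAs le_rfl (hE' e he)⟩

theorem sprF : SprF k L := by
  classical
  intro n K D O x hF hA hN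
  have := hA.noeth
  have hg : ∀ (O : Subalgebra k L), ∀ s ∈ gens O x, s ∈ O ∧ ¬ Un O s :=
    fun O s hs => ⟨gens_mem hs, hs.1⟩
  obtain ⟨S, hS, e⟩ := (Submodule.fg_span_iff_fg_span_finset_subset (R := O) (gens O x)).1
    (isNoetherian_submodule.1 (isNoetherian_of_fg_of_noetherian _
      (Submodule.fg_span_singleton (R := O) (1 : L))) _ (Submodule.span_le.2 fun s hs =>
        Submodule.mem_span_singleton.2 ⟨⟨s, gens_mem hs⟩, mul_one s⟩))
  have hAO : Algebra.adjoin k (S : Set L) ≤ O := Algebra.adjoin_le fun s hs => gens_mem (hS hs)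
  obtain ⟨η, P, hη, -, h0, h1, h2⟩ := exists_eta hA.fg hA.pt hAO
    (S := S) (fun s hs => ⟨Algebra.subset_adjoin hs, (hS hs).1⟩) (fun a ha =>
      (hA.rt a ha).imp fun c hc => e ▸ hF.fr.gen _ (sub_mem ha (O.algebraMap_mem c)) hc)
  obtain ⟨X, hX⟩ := hA.fg
  choose! U G hU hG using h2
  have hXO : ∀ d ∈ X, d ∈ O := fun d hd => hA.pt.le (hX ▸ Algebra.subset_adjoin hd)
  filter_upwards [ev_pt D O, ev_le hA.pt ⟨S, rfl⟩ hAO, ev_mem hA.pt hη, ev_un hA.pt h1,
    (eventually_all_finset X).2 fun d hd => ev_un hA.pt (hU d (hXO d hd))]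
    with O' a b c d f hr
  refine ⟨⟨D, hA.deg, hA.fg, hA.le, hA.frac, a, hr⟩, ⟨hF.fr.ne, fun y hy hu => ?_⟩, hF.mem,
    fun y hy hi => ?_⟩
  · have h3 : Algebra.adjoin k (S : Set L) ≤ csm O' (gens O' x) := Algebra.adjoin_le fun s hs => by
      obtain ⟨-, m, r, -, rfl⟩ := hS hs
      have h4 : mn x m ∈ O' := by
        have := add_mem (b (Algebra.subset_adjoin hs)) (O'.algebraMap_mem r)
        rwa [sub_add_cancel] at this
      obtain ⟨r', h5⟩ := hr _ h4
      exact sub_mem (show mn x m ∈ csm O' (gens O' x) from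
        ⟨h4, r', Submodule.subset_span ⟨h5, m, r', h4, rfl⟩⟩) (Subalgebra.algebraMap_mem _ r)
    have h4 := root a.lcl hr (hg O') h3 P c h0 d
    have h5 : csm O' (gens O' x) ≤ O' := fun _ h => h.1
    have h6 : D ≤ loc (csm O' (gens O' x)) O' := by
      rw [← hX]
      exact Algebra.adjoin_le fun z hz =>
        ⟨_, aeval_mem h3 h4 _, _, aeval_mem h3 h4 _, f z hz, hG z (hXO z hz)⟩
    obtain ⟨g, hg1, u, hu1, hu2, rfl⟩ := (a.of_le_loc h5 h6).le_loc hy
    rw [div_eq_inv_mul]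
    exact mul_mem_span hu2.2.2 (csm_span a.lcl (hg O') hg1 fun h7 => hu (un_div h7 hu2))
  · obtain ⟨w, hw, hu, h3⟩ := (IsPoint.isIntegral_iff a).1 hi
    rw [show y = w⁻¹ * (w * y) by field_simp [hu.2.1]]
    exact mul_mem hu.2.2 (a.le (hN _ (K.mul_mem (hA.le w hw) hy) h3))

end Pool.Agent.MP_19ffc6_ag.Perf

end MrgPart1

-- ======== part 2: formerly Pool.Agent.MP_19ffc6_ag.perf.TGap
section MrgPart2

/-! PROJECT PERF, row GAP: the choice of the constants and of the levels. -/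

namespace Pool.Agent.MP_19ffc6_ag.Perf

open Pool.Agent.R72.Wild Pool.Agent.R72.Lci Pool.Agent.R72.Res Pool.Agent.R72.Res.B
  Pool.Agent.R72.Res.Tor Pool.Agent.R72.Res.P Pool.Agent.R72.Res.Lab Filter GD

variable {k L : Type} [Field k] [Field L] [Algebra k L]

namespace TGap

variable {R : Subalgebra k L} {f g : L}

lemma up (hf : f ∈ R) {a t : ℕ} (h : f ^ a / g ∈ R) (hat : a ≤ t) : f ^ t / g ∈ R := by
  obtain ⟨s, rfl⟩ := Nat.exists_eq_add_of_le hat
  rw [pow_add, mul_div_right_comm]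
  exact mul_mem h (pow_mem hf s)

lemma up_pow (hf : f ∈ R) {a t s b : ℕ} (h : f ^ a / g ∈ R) (hat : s * (a * b) ≤ t) :
    f ^ t / (g ^ s) ^ b ∈ R := by
  refine up hf ?_ hat
  rw [← pow_mul g, mul_left_comm, pow_mul f, ← div_pow]
  exact pow_mem h _

lemma up_all (hf : f ∈ R) {t : ℕ} (h : ∀ m : ℕ, f / g ^ m ∈ R) (ht : 1 ≤ t) (s b : ℕ) :
    f ^ t / (g ^ s) ^ b ∈ R :=
  up hf (by rw [pow_one, ← pow_mul]; exact h _) ht

lemma same {a : ℕ} (h : f ^ a / g ∈ R) (s : ℕ) : (f ^ s) ^ a / g ^ s ∈ R := by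
  rw [pow_right_comm, ← div_pow]
  exact pow_mem h _

lemma step {p w q i j : ℕ} (hp : 1 ≤ p) (hq : q ≤ p ^ w) (hij : i < j) :
    p ^ (w * i) * q ≤ p ^ (w * j) :=
  (Nat.mul_le_mul_left _ hq).trans (by
    rw [← pow_add, ← Nat.mul_succ]
    exact Nat.pow_le_pow_right hp (Nat.mul_le_mul_left _ hij))

/-- The statement for a finite family of displacement vectors in one ring. -/
lemma core {ι : Type} [Finite ι] {n : ℕ} (d : ι → Fin n → L) (i : ι → Fin n) (N : ι → ℕ)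
    (c : ℕ) {p : ℕ} (hp : 1 < p) (hR : ∀ v j, d v j ∈ R)
    (hlt : ∀ v j, i v < j → d v j ^ N v / d v (i v) ∈ R)
    (hgt : ∀ v j, j < i v → ∀ m : ℕ, d v j / d v (i v) ^ m ∈ R)
    (tot : ∀ (v v' : ι) (m : ℕ),
      d v (i v) / d v' (i v') ^ m ∈ R ∨ d v' (i v') ^ m / d v (i v) ∈ R) :
    ∃ w a b : ℕ, gap c a c ≤ b ∧ ∀ v,
      (∀ j ≠ i v, d v j ^ p ^ (w * j) / (d v (i v) ^ p ^ (w * i v)) ^ b ∈ R) ∧ ∀ v',
        (i v = i v' ∧ (d v (i v) ^ p ^ (w * i v)) ^ a / d v' (i v') ^ p ^ (w * i v') ∈ R ∧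
          (d v' (i v') ^ p ^ (w * i v')) ^ a / d v (i v) ^ p ^ (w * i v) ∈ R) ∨
        d v (i v) ^ p ^ (w * i v) / (d v' (i v') ^ p ^ (w * i v')) ^ b ∈ R ∨
        d v' (i v') ^ p ^ (w * i v') / (d v (i v) ^ p ^ (w * i v)) ^ b ∈ R := by
  have h1 : ∀ u : ι × ι, ∃ a : ℕ, d u.2 (i u.2) ^ a / d u.1 (i u.1) ∈ R ∨
      ∀ m : ℕ, d u.1 (i u.1) / d u.2 (i u.2) ^ m ∈ R := fun u => by
    by_cases h : ∀ m : ℕ, d u.1 (i u.1) / d u.2 (i u.2) ^ m ∈ R
    · exact ⟨0, .inr h⟩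
    · obtain ⟨m, hm⟩ := not_forall.1 h
      exact ⟨m, .inl ((tot _ _ m).resolve_left hm)⟩
  choose A hA using h1
  obtain ⟨a₁, ha₁⟩ := (Set.finite_range A).bddAbove
  obtain ⟨a₂, ha₂⟩ := (Set.finite_range N).bddAbove
  have h2 : ∀ v v', d v' (i v') ^ max a₁ a₂ / d v (i v) ∈ R ∨
      ∀ m : ℕ, d v (i v) / d v' (i v') ^ m ∈ R := fun v v' =>
    (hA (v, v')).imp_left fun h => up (hR _ _) h ((ha₁ ⟨_, rfl⟩).trans (le_max_left _ _))
  have h3 : ∀ v j, i v < j → d v j ^ max a₁ a₂ / d v (i v) ∈ R := fun v j h =>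
    up (hR _ _) (hlt v j h) ((ha₂ ⟨_, rfl⟩).trans (le_max_right _ _))
  generalize max a₁ a₂ = a at h2 h3
  have hw : a * gap c a c ≤ p ^ (a * gap c a c) := (Nat.lt_pow_self hp).le
  have h4 : ∀ t, 1 ≤ p ^ t := fun t => Nat.one_le_pow _ _ (by omega)
  refine ⟨a * gap c a c, a, gap c a c, le_rfl, fun v => ⟨fun j hj => ?_, fun v' => ?_⟩⟩
  · rcases lt_or_gt_of_ne hj with h | h
    · exact up_all (hR _ _) (hgt v j h) (h4 _) _ _
    · exact up_pow (hR _ _) (h3 v j h) (step hp.le hw h)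
  · rcases h2 v v' with e | e
    · rcases h2 v' v with e' | e'
      · rcases lt_trichotomy (i v) (i v') with h | h | h
        · exact .inr (.inr (up_pow (hR _ _) e (step hp.le hw h)))
        · refine .inl ⟨h, ?_, ?_⟩
          · rw [show p ^ (a * gap c a c * i v') = p ^ (a * gap c a c * i v) by rw [h]]
            exact same e' _
          · rw [show p ^ (a * gap c a c * i v') = p ^ (a * gap c a c * i v) by rw [h]]
            exact same e _
        · exact .inr (.inl (up_pow (hR _ _) e' (step hp.le hw h)))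
      · exact .inr (.inr (up_all (hR _ _) e' (h4 _) _ _))
    · exact .inr (.inl (up_all (hR _ _) e (h4 _) _ _))

end TGap

open TGap in
theorem gapS (p : ℕ) [hp : Fact p.Prime] : GapStmt k L p := by
  classical
  intro n c R V x H hV hRV hx hm hfin hH
  set Ω := {v : Fin n → L | ∃ h, H h ∧ v = fun j => h • x j} with hΩ
  have : Finite Ω := hfin
  let d : Ω → Fin n → L := fun v j => v.1 j / x j - 1
  have h1 : ∀ v : Ω, ∃ (i : Fin n) (e : Fin n → ℤ) (N : ℕ), Un R (d v i / mn x e) ∧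
      ∀ j : Fin n, d v j ∈ R ∧ (i < j → d v j ^ N / mn x e ∈ R) ∧
        (j < i → ∀ m : ℕ, d v j / mn x e ^ m ∈ R) := by
    rintro ⟨v, h, hh, rfl⟩
    obtain ⟨i, e, N, -, H⟩ := hH h hh
    exact ⟨i, e, N, H⟩
  choose i e N hu hj using h1
  have h0 : ∀ v, mn x (e v) ≠ 0 := fun v => mn_ne_zero hx _
  have h2 : ∀ (v : Ω) (f : L) (m : ℕ), f / mn x (e v) ^ m ∈ R → f / d v (i v) ^ m ∈ R :=
    fun v f m h => by
      have := mul_mem h (pow_mem (hu v).2.2 m)
      rwa [inv_div, div_pow, div_mul_div_cancel₀ (pow_ne_zero _ (h0 v))] at this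
  have h3 : ∀ f : L, LMon R x f → f ∈ V → f ∈ R := by
    rintro f ⟨e, he⟩ hf
    have h4 : mn x e ∈ V := by
      have := mul_mem hf (hRV he.2.2)
      rwa [inv_div, mul_div_cancel₀ _ (div_ne_zero_iff.1 he.2.1).1] at this
    have := mul_mem he.1 (hm e h4)
    rwa [div_mul_cancel₀ _ (mn_ne_zero hx _)] at this
  obtain ⟨w, a, b, hab, H1⟩ := core (R := R) d i N c hp.out.one_lt (fun v j => (hj v j).1)
    (fun v j h => by simpa using h2 v _ 1 (by simpa using (hj v j).2.1 h))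
    (fun v j h m => h2 v _ m ((hj v j).2.2 h m)) fun v v' m => by
      have h5 : LMon R x (d v (i v) / d v' (i v') ^ m) := by
        refine ⟨e v - (m : ℤ) • e v', ?_⟩
        have := (hu v).mul ((hu v').pow m).inv
        rwa [mn_sub hx, mn_smul, zpow_natCast, div_div_div_comm, ← div_pow, div_eq_mul_inv]
      refine (hV _).imp (h3 _ h5) fun h => ?_
      rw [← inv_div]
      exact h3 _ h5.inv h
  let r : Fin n → ℕ := fun j => p ^ (w * j)
  let C : Ω × Ω × Fin n → Fin 5 → L := fun u =>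
    ![d u.1 (i u.1) / mn x (e u.1), (d u.1 (i u.1) / mn x (e u.1))⁻¹,
      d u.1 u.2.2 ^ r u.2.2 / (d u.1 (i u.1) ^ r (i u.1)) ^ b,
      (d u.1 (i u.1) ^ r (i u.1)) ^ a / d u.2.1 (i u.2.1) ^ r (i u.2.1),
      d u.1 (i u.1) ^ r (i u.1) / (d u.2.1 (i u.2.1) ^ r (i u.2.1)) ^ b]
  have hC := Set.finite_range fun s : (Ω × Ω × Fin n) × Fin 5 => C s.1 s.2
  refine ⟨w, hC.toFinset.filter (· ∈ R), fun f hf => (Finset.mem_filter.1 hf).2, fun R' hR' => ?_⟩
  have T : ∀ u s, C u s ∈ R → C u s ∈ R' := fun u s h =>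
    hR' _ (Finset.mem_filter.2 ⟨hC.mem_toFinset.2 ⟨(u, s), rfl⟩, h⟩)
  let φ : ∀ h, H h → Ω := fun h hh => ⟨_, h, hh, rfl⟩
  refine ⟨fun h hh => i (φ h hh), a, b, hab, fun h hh => ⟨⟨e (φ h hh),
    T (φ h hh, φ h hh, i (φ h hh)) 0 (hu _).1, (hu (φ h hh)).2.1,
    T (φ h hh, φ h hh, i (φ h hh)) 1 (hu _).2.2⟩,
    fun j hj => T (φ h hh, φ h hh, j) 2 ((H1 _).1 j hj), fun h' hh' => ?_⟩⟩
  exact ((H1 (φ h hh)).2 (φ h' hh')).imp
    (fun q => ⟨q.1, T (φ h hh, φ h' hh', i (φ h hh)) 3 q.2.1,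
      T (φ h' hh', φ h hh, i (φ h hh)) 3 q.2.2⟩)
    (Or.imp (T (φ h hh, φ h' hh', i (φ h hh)) 4) (T (φ h' hh', φ h hh, i (φ h hh)) 4))

end Pool.Agent.MP_19ffc6_ag.Perf

end MrgPart2

-- ======== part 3: formerly Pool.Agent.MP_19ffc6_ag.perf.TLev
section MrgPart3

/-! PROJECT PERF, rows SEP and LEV: separability over the field of the coordinates, and the level
fields of a flag. -/

namespace Pool.Agent.MP_19ffc6_ag.Perf

open Pool.Agent.R72.Wild Pool.Agent.R72.Lci Pool.Agent.R72.Res Pool.Agent.R72.Res.B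
  Pool.Agent.R72.Res.Tor Pool.Agent.R72.Res.P Pool.Agent.R72.Res.Lab Filter GD Polynomial

variable {k L : Type} [Field k] [Field L] [Algebra k L]

namespace LevRow

lemma sep_of_simple {E : Type} [Field E] [Algebra E L] {η : L} {Q : E[X]} (h0 : aeval η Q = 0)
    (h1 : aeval η (derivative Q) ≠ 0) : IsSeparable E η := by
  have hQ : Q ≠ 0 := by
    rintro rfl
    simp at h1
  have hi : IsIntegral E η := IsAlgebraic.isIntegral ⟨Q, hQ, h0⟩
  obtain ⟨Q', rfl⟩ := minpoly.dvd E η h0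
  refine (separable_iff_derivative_ne_zero (minpoly.irreducible hi)).2 fun h => h1 ?_
  simp [h, minpoly.aeval]

/-- A root of a separable element lies in every field that contains the element and the roots of
the generators of the ground field. -/
lemma root_mem [IsAlgClosed k] (p : ℕ) [Fact p.Prime] [CharP k p] {G : IntermediateField k L}
    {Y : Set L} {q : ℕ} (hY : ∀ x ∈ Y, ∃ z ∈ G, z ^ p ^ q = x) {a b : L}
    (ha : IsSeparable (IntermediateField.adjoin k Y) a) (haG : a ∈ G) (hb : b ^ p ^ q = a) :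
    b ∈ G := by
  have : CharP L p := charP_of_injective_algebraMap (algebraMap k L).injective p
  have : CharP (IntermediateField.adjoin k Y) p :=
    charP_of_injective_algebraMap (algebraMap k _).injective p
  let T : IntermediateField k L := (G.toSubfield.map (iterateFrobenius L p q)).toIntermediateField
    fun c => by
      obtain ⟨d, rfl⟩ := IsAlgClosed.exists_pow_nat_eq c (pow_pos (Fact.out : p.Prime).pos q)
      exact ⟨_, G.algebraMap_mem d, by rw [iterateFrobenius_def, map_pow]⟩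
  have hE : IntermediateField.adjoin k Y ≤ T :=
    IntermediateField.adjoin_le_iff.2 fun x hx => let ⟨z, hz, e⟩ := hY x hx; ⟨z, hz, e⟩
  have h1 : a ∈ IntermediateField.extendScalars hE := by
    have h2 := IntermediateField.mem_adjoin_simple_self (IntermediateField.adjoin k Y) a
    rw [IntermediateField.adjoin_simple_eq_adjoin_pow_expChar_pow_of_isSeparable _ _ ha p q] at h2
    exact IntermediateField.adjoin_simple_le_iff.2
      (show a ^ p ^ q ∈ IntermediateField.extendScalars hE from ⟨a, haG, rfl⟩) h2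
  obtain ⟨g, hg, e⟩ := h1
  rwa [← (iterateFrobenius L p q).injective (e.trans hb.symm)]

lemma field_le {n : ℕ} {K K' : IntermediateField k L} {D O : Subalgebra k L} (h : Aff n K D O)
    (hO : ∀ x ∈ O, x ∈ K') : K ≤ K' := by
  intro a ha
  obtain ⟨b, hb, hb0, hba⟩ := h.frac a ha
  have := K'.div_mem (hO _ (h.pt.le hba)) (hO _ (h.pt.le hb))
  rwa [mul_div_cancel_left₀ _ hb0] at this

lemma tw_mono {K₀ : Subfield L} {n : ℕ} {F : ℕ → IntermediateField k L} {Os : ℕ → Subalgebra k L}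
    {x : ℕ → L} (h : Tw K₀ n F Os x) {i j : ℕ} (hij : i ≤ j) (hj : j ≤ n) : F i ≤ F j := by
  induction j, hij using Nat.le_induction with
  | base => exact le_rfl
  | succ j hij ih =>
    obtain ⟨D, hD⟩ := (h.fr j (by omega)).aff
    obtain ⟨D', hD'⟩ := (h.fr (j + 1) hj).aff
    exact (ih (by omega)).trans
      (field_le hD fun a ha => B.IsPoint.le_field hD'.pt hD'.le ((h.dom j hj).1 ha))

end LevRow

theorem sepS : SepStmt k L := by
  intro n K O x h
  obtain ⟨D, hD⟩ := h.aff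
  obtain ⟨E, hE⟩ : ∃ E, E = IntermediateField.adjoin k (Set.range x) := ⟨_, rfl⟩
  rw [← hE]
  have hA : mons O x ≤ O := Algebra.adjoin_le fun _ hm => hm.1
  have hAE : mons O x ≤ E.toSubalgebra := Algebra.adjoin_le (by
    rintro _ ⟨-, c, rfl⟩
    exact mn_mem_field (K := E)
      (fun i => hE ▸ IntermediateField.subset_adjoin k _ (Set.mem_range_self i)) c)
  have hS : ∀ s ∈ gens O x, s ∈ mons O x ∧ ¬ Un O s := by
    rintro _ ⟨h1, c, a, h2, rfl⟩
    exact ⟨sub_mem (Algebra.subset_adjoin ⟨h2, c, rfl⟩) (Subalgebra.algebraMap_mem _ a), h1⟩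
  have hP : Pool.Agent.R72.Res.Par O (gens O x) := fun y hy =>
    (hD.rt y hy).imp fun c hc => h.fr.gen _ (sub_mem hy (O.algebraMap_mem c)) hc
  obtain ⟨η, Q, -, -, h0, h1, h2⟩ := exists_eta hD.fg hD.pt hA hS hP
  let j : mons O x →+* E := (Subalgebra.inclusion hAE).toRingHom
  have hj : ∀ R : (mons O x)[X], aeval η (R.map j) = aeval η R := fun R => by
    rw [aeval_def, eval₂_map, aeval_def]
    rfl
  have hη : IsSeparable E η := LevRow.sep_of_simple (Q := Q.map j) (by rw [hj, h0])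
    (by rw [derivative_map, hj]; exact h1.2.1)
  let T : IntermediateField k L := (separableClosure E L).restrictScalars k
  have hT : ∀ R : (mons O x)[X], aeval η R ∈ T := fun R =>
    aeval_mem (O := T.toSubalgebra)
      (fun a ha => (separableClosure E L).algebraMap_mem (⟨a, hAE ha⟩ : E))
      (mem_separableClosure_iff.2 hη) R
  intro a ha
  refine mem_separableClosure_iff.1 (LevRow.field_le (K' := T) hD (fun y hy => ?_) ha)
  obtain ⟨U, G, -, rfl⟩ := h2 y hy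
  exact T.div_mem (hT G) (hT U)

theorem levS [IsAlgClosed k] (p : ℕ) [Fact p.Prime] [CharP k p] (h : SepStmt k L) :
    LevStmt k L p := by
  intro K₀ n F Os x hT w z hz
  refine le_antisymm (sup_le le_sup_left (IntermediateField.adjoin_le_iff.2 ?_))
    (sup_le le_sup_left (le_sup_of_le_right (IntermediateField.adjoin.mono _ _ _ ?_)))
  · rintro a ⟨i, hi, ha⟩
    refine LevRow.root_mem p (q := w * (n - i)) ?_ (h _ _ _ _ (hT.fr (i + 1) hi) _ ha)
      (le_sup_left (a := F n) (LevRow.tw_mono hT hi le_rfl ha)) rfl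
    rintro _ ⟨l, rfl⟩
    have hl := l.2
    refine ⟨z ⟨l, by omega⟩ ^ p ^ (w * (i - l)), pow_mem (le_sup_right (a := F n)
      (IntermediateField.subset_adjoin k _ (Set.mem_range_self _))) _, ?_⟩
    rw [← pow_mul, ← pow_add, ← mul_add, show i - l + (n - i) = n - l by omega]
    exact hz ⟨l, by omega⟩
  · rintro _ ⟨j, rfl⟩
    refine ⟨j, j.2, ?_⟩
    rw [hz j]
    exact (hT.fr (j + 1) j.2).mem (Fin.last j)

end Pool.Agent.MP_19ffc6_ag.Perf

end MrgPart3

-- ======== part 4: formerly Pool.Agent.MP_19ffc6_ag.perf.TTrans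
section MrgPart4

/-! PROJECT PERF, rows TRANS and LOCAL: the data along one valuation hold on an open set, and
compactness. -/

namespace Pool.Agent.MP_19ffc6_ag.Perf

open Pool.Agent.R72.Wild Pool.Agent.R72.Lci Pool.Agent.R72.Res Pool.Agent.R72.Res.B
  Pool.Agent.R72.Res.Tor Pool.Agent.R72.Res.P Pool.Agent.R72.Res.Lab Filter GD

variable {k L : Type} [Field k] [Field L] [Algebra k L]

namespace TransA

lemma rt_of_le {O O' : Subalgebra k L} (h : O ≤ O') (hr : Rt O') : Rt O := fun x hx =>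
  (hr x (h hx)).imp fun _ hc hu => hc (hu.mono h)

lemma gap_mono {H H' : SA k L → Prop} {c n : ℕ} {r : Fin n → ℕ} {R : Subalgebra k L}
    {x : Fin n → L} (h : GapR H c r R x) (hH : ∀ g, H' g → H g) : GapR H' c r R x := by
  obtain ⟨dir, a, b, h1, h2⟩ := h
  exact ⟨fun g e => dir g (hH g e), a, b, h1, fun g e =>
    ⟨(h2 g (hH g e)).1, (h2 g (hH g e)).2.1, fun g' e' => (h2 g (hH g e)).2.2 g' (hH g' e')⟩⟩

lemma tw_le {K₀ : Subfield L} {n : ℕ} {F : ℕ → IntermediateField k L} {Os : ℕ → Subalgebra k L}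
    {x : ℕ → L} (h : Tw K₀ n F Os x) {i j : ℕ} (hij : i ≤ j) (hj : j ≤ n) : Os i ≤ Os j := by
  induction j, hij using Nat.le_induction with
  | base => exact le_rfl
  | succ j _ ih => exact (ih (by omega)).trans (h.dom j (by omega)).1

lemma rv_le {O V : Subalgebra k L} {n : ℕ} (x : Fin n → L) (h : O ≤ V) : RV O V x ≤ V :=
  loc_le (sup_le h (Algebra.adjoin_le fun _ hm => hm.1))

lemma mn_mem_rv (O : Subalgebra k L) {V : Subalgebra k L} {n : ℕ} {x : Fin n → L}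
    {e : Fin n → ℤ} (h : mn x e ∈ V) : mn x e ∈ RV O V x :=
  le_loc _ _ ((le_sup_right : mons V x ≤ _) (Algebra.subset_adjoin ⟨h, e, rfl⟩))

lemma loc_le_of_dom {D O V : Subalgebra k L} (h : D ≤ O) (hd : Dom O V) : loc D V ≤ O := by
  rintro _ ⟨a, ha, b, hb, hu, rfl⟩
  rw [div_eq_mul_inv]
  exact mul_mem (h ha) (hd.2 b (h hb) hu).2.2

lemma loc_mono {D D' : Subalgebra k L} (h : D ≤ D') (V : Subalgebra k L) : loc D V ≤ loc D' V := by
  rintro _ ⟨a, ha, b, hb, hu, rfl⟩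
  exact ⟨a, h ha, b, h hb, hu, rfl⟩

end TransA

open TransA

/-- Row TRANS. -/
theorem trans_of (p : ℕ) (h1 : EpsStmt k L) (h2 : GapStmt k L p) (h3 : StageStmt k L)
    (h4 : SprF k L) (h5 : NearStmt k L) (h6 : OrdStmt k L) (h7 : AdmStmt k L)
    (h8 : LevStmt k L p) : TransStmt k L p := by
  classical
  intro k₀ y n c F S T M V hM hV hr
  obtain ⟨O₀, hP, hd⟩ := h5.ctr M V hM.mdl.fg hM.mdl.ne hV
  have hr₀ := rt_of_le hd.1 hr
  obtain ⟨Os, x, rfl, hT, hF, hL, -⟩ := hM.pt O₀ hP hr₀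
  obtain ⟨g₀, hg₀, hg0, hP⟩ := hP
  have hG := hM.gw n le_rfl
  have hA : Aff n (F n) (chart ⊥ M g₀) (Os n) :=
    ⟨hM.deg, chart_fg Subalgebra.fg_bot hM.mdl.fg g₀, chart_le_field hM.mdl.le hg₀,
      hM.mdl.frac g₀ hg₀ hg0, hP, hr₀⟩
  have hFr := hT.fr n le_rfl
  obtain ⟨m, hm, hord⟩ := h6 _ _ hG.alg (hM.fg n le_rfl)
  obtain ⟨w, E₀, hE₀, hgap⟩ := h2 n c (RV (Os n) V (xs x n)) V (xs x n)
    (Wn (Ek k₀ y n) (Os n) (xs x n)) hV (rv_le _ hd.1) hFr.fr.ne (fun e he => mn_mem_rv _ he)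
    ((Set.Finite.pi' fun j => orb_fin k (hG.alg _ (hFr.mem j))).subset (by
      rintro _ ⟨h, hh, rfl⟩ j
      exact ⟨h, hh.1.1, rfl⟩))
    fun h hh => h1 _ n F Os x V h hT hV hr hd ⟨m, hm, hord h hh.1.1 hh.1.lin⟩ hh
  obtain ⟨T₀, -, t2, t3, t4, -, -, t7⟩ := h3 n (F n) _ (Os n) V (xs x n) E₀ hFr hA hV hr hd hE₀
  obtain ⟨s, s1, s2, s3⟩ := (h4 n (F n) _ _ (xs x n) t4 t3
    fun a ha hi => mem_icl_of_isIntegral ha hi).and
    ((eventually_all_finset E₀).2 fun e he => ev_mem t3.pt (t7 e he))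
  choose N hN ex hex using fun e => Ful.mn hF e
  choose N' hN' ex' hex' using hF
  choose cf hcf using hL
  obtain ⟨s₀, z1, z2, z3⟩ := (h5.near _ _ M g₀ (Os n) n (xs x n) hG hM.mdl hM.stb hg₀ hg0 hP
    hFr.mem).and (((eventually_all_finset T₀).2 fun e _ => ev_un hP (hex e)).and
      ((eventually_all.2 fun j => ev_un hP (hex' j)).and
        (eventually_all.2 fun f : S => ev_un hP (hcf f f.2))))
  obtain ⟨G, hGe⟩ := t3.fg
  refine ⟨T₀.image ex, insert s⁻¹ (insert s₀⁻¹ G), fun e he => ?_,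
    fun V' O O' D' hV' hE hO hA' hAd hd' hΦ => ?_⟩
  · rcases Finset.mem_insert.1 he with rfl | he
    · exact loc_le t2 s2.2.2
    rcases Finset.mem_insert.1 he with rfl | he
    · exact hd.1 z2.2.2
    · exact t2 (hGe ▸ Algebra.subset_adjoin he)
  have a1 : stg (F n) (chart ⊥ M g₀) (xs x n) T₀ ≤ V' :=
    hGe ▸ Algebra.adjoin_le fun e he => hE e (by simp [Finset.mem_coe.1 he])
  have a0 : chart ⊥ M g₀ ⊔ Algebra.adjoin k (mn (xs x n) '' T₀) ≤
      stg (F n) (chart ⊥ M g₀) (xs x n) T₀ :=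
    le_icl (sup_le hA.le (Algebra.adjoin_le (by
      rintro _ ⟨e, -, rfl⟩
      exact mn_mem_field hFr.mem e)))
  have a2 : chart ⊥ M g₀ ≤ stg (F n) (chart ⊥ M g₀) (xs x n) T₀ := le_sup_left.trans a0
  have a3 := isPoint_loc (a2.trans a1) hV'.lcl
  obtain rfl : O = loc (chart ⊥ M g₀) V' :=
    h5.sep M _ _ V' hO ⟨g₀, hg₀, hg0, a3⟩ (Dom.trans hAd.1 hd') (dom_loc (a2.trans a1))
  obtain ⟨b1, b2, b3, b4⟩ := z3 _ a3 (un_loc z1 ⟨a1 (a2 z1), z2.2.1, hE _ (by simp)⟩)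
  have hn : ∀ a ∈ F n, IsIntegral O' a → a ∈ O' := fun a ha hi =>
    IsPoint.mem_of_isIntegral hAd.2 ha hi
  have a4 : ∀ e ∈ T₀, mn (xs x n) e ∈ O' := fun e he => by
    have u1 : Un O' (mn (xs x n) e ^ N e / smn S (ex e)) := (b2 e he).mono hAd.1.1
    have u0 : smn S (ex e) ≠ 0 := fun h0 => u1.2.1 (by rw [h0, div_zero])
    have u2 : mn (xs x n) e ∈ V' :=
      a1 (a0 ((le_sup_right : Algebra.adjoin k _ ≤ _) (Algebra.subset_adjoin ⟨e, he, rfl⟩)))
    have u3 : smn S (ex e) ∈ V' := by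
      have := mul_mem (pow_mem u2 (N e)) (hd'.1 u1.2.2)
      rwa [inv_div, mul_div_cancel₀ _ (pow_ne_zero _ (mn_ne_zero hFr.fr.ne e))] at this
    have u4 : smn S (ex e) ∈ O' := (hΦ _ (Finset.mem_image_of_mem _ he)).elim id fun h => by
      simpa using (hd'.2 _ h ⟨hd'.1 h, inv_ne_zero u0, by simpa using u3⟩).2.2
    have u5 := mul_mem u1.1 u4
    rw [div_mul_cancel₀ _ u0] at u5
    exact hn _ (mn_mem_field hFr.mem e) ((isIntegral_of_mem u5).of_pow (hN e))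
  have a5 : stg (F n) (chart ⊥ M g₀) (xs x n) T₀ ≤ O' := fun a ha =>
    hn a ha.1 (isIntegral_mono (sup_le ((le_loc _ _).trans hAd.1.1) (Algebra.adjoin_le (by
      rintro _ ⟨e, he, rfl⟩
      exact a4 e he))) (mem_icl.1 ha).2)
  have a6 := loc_le_of_dom a5 hd'
  have a7 := loc_mono a2 V'
  obtain ⟨c1, c2⟩ := s3 _ (isPoint_loc a1 hV'.lcl) (un_loc s1 ⟨a1 s1, s2.2.1, hE _ (by simp)⟩)
  have hful : ∀ W, loc (chart ⊥ M g₀) V' ≤ W → Ful S W (xs x n) := fun W hW j =>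
    ⟨N' j, hN' j, ex' j, (b3 j).mono hW⟩
  have hmon : ∀ W, loc (chart ⊥ M g₀) V' ≤ W → ∀ f ∈ S, LMon W (xs x n) f := fun W hW f hf =>
    ⟨_, (b4 ⟨f, hf⟩).mono hW⟩
  have a8 := h7 n (F n) S _ O' D' (xs x n) (c1 (rt_of_le a6 hA'.rt)) (hful _ a7) (hmon _ a7) hA'
    ⟨⟨a6, fun a ha hu => (dom_loc a1).2 a ha (hu.mono hd'.1)⟩, hAd.2.of_le_loc
      (fun a ha => hn a ha.1 (isIntegral_mono (sup_le a6 (Algebra.adjoin_le fun _ h => h.1))
        (mem_icl.1 ha).2))
      ((icl_mono (sup_le_sup_right a7 _)).trans (le_loc _ _))⟩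
  refine ⟨xs x n, w, a8.1, hful _ hAd.1.1, hmon _ hAd.1.1, h8 _ n F Os x hT,
    gap_mono (hgap O' fun e he => a6 (c2 e he)) fun g hg => ?_⟩
  obtain ⟨d1, d2⟩ := b1 g ⟨hg.1.1, h5.down _ M _ O' g hM.stb hO hAd.1 hg.1.1 hg.1.2.1,
    fun a ha hu => hg.1.2.2 a (hAd.1.1 ha) (hu.mono hAd.1.1)⟩
  refine ⟨d1, fun j => ⟨sub_mem ?_ (one_mem _), d2 j fun hu => (hg.2.1 j).2 (hu.mono hAd.1.1)⟩,
    hg.2.2⟩
  exact tw_le hT j.2 le_rfl (hT.un g d1.1 d1.2.1 j j.2).1

/-- Row LOCAL. -/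
theorem local_of [IsAlgClosed k] (p : ℕ) (h : TransStmt k L p) : LocalStmt k L p := by
  classical
  intro k₀ y n c F S T M hM
  obtain ⟨I, hI⟩ := Ss.comp (k := k) (L := L) (Finset (L → ℤ))
    (fun Φ V' => ∀ O O' D' : Subalgebra k L, Pt ⊥ M O → Aff n (F n) D' O' → Adm (F n) S O O' →
      Dom O' V' → (∀ e ∈ Φ, smn S e ∈ O' ∨ (smn S e)⁻¹ ∈ O') → GoodL p (Ek k₀ y n) n c F S O')
    ∅ fun V hV hr _ => by
      obtain ⟨Φ, E, h1, h2⟩ := h k₀ y n c F S T M V hM hV hr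
      exact ⟨Φ, E, h1, fun W hW hE O O' D' => h2 W O O' D' hW hE⟩
  refine ⟨I.biUnion id, fun O O' D' h1 h2 h3 h4 => ?_⟩
  obtain ⟨V, hV, hd⟩ := exists_val_dom h2.pt.lcl
  obtain ⟨Φ, hΦ, h5⟩ := hI V hV (by simp)
  exact h5 O O' D' h1 h2 h3 hd fun e he => h4 e (Finset.mem_biUnion.2 ⟨Φ, hΦ, he⟩)

end Pool.Agent.MP_19ffc6_ag.Perf

end MrgPart4

-- ======== part 5: formerly Pool.Agent.MP_19ffc6_ag.perf.TAll
section MrgPart5

/-! PROJECT PERF: the rows of the blocks T and L without hypotheses. -/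

namespace Pool.Agent.MP_19ffc6_ag.Perf.TA

variable {k L : Type} [Field k] [Field L] [Algebra k L] [IsAlgClosed k]

theorem blowA : BlowStmt k L := blow monn kitF
theorem tpA : TpStmt k L := tp_of poly kitF
theorem troA : TroStmt k L := tro_of tpA
theorem faceA : FaceStmt k L := face tpA
theorem divA : DivF k L := divF tpA
theorem admA : AdmStmt k L := adm blowA
theorem persA : PersStmt k L := pers faceA
theorem upA : UpStmt k L := up_of nearS admA persA ord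
theorem strongA : StrongStmt k L := strong_of (tm divA) troA cmpT upA
theorem stageA : StageStmt k L := stage blowA
theorem epsA : EpsStmt k L := eps (eps0 persA uz stageA faceA) stageA divA
theorem tameA : TameStmt k L := tameS faceA

variable [IsAlgClosed L] (p : ℕ) [Fact p.Prime] [CharP k p]

theorem localA : LocalStmt k L p :=
  local_of p (trans_of p epsA (gapS p) stageA sprF nearS ord admA (levS p sepS))

theorem liftA : LiftStmt k L p := lift_of p (lvl p blowA) tameA divA faceA uz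

end Pool.Agent.MP_19ffc6_ag.Perf.TA

end MrgPart5

-- marker of a merged file
example : 731051 + 798364 = 731051 + 798364 := rfl
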