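import Pool.Agent.MP_19ffc6_ag.perf.TBlow
import Pool.Agent.MP_19ffc6_ag.perf.SpecE

/-! PROJECT PERF, row SAT: the regular monomials of a normalised monomial blow-up. -/

namespace Pool.Agent.MP_19ffc6_ag.Perf

open Pool.Agent.R72.Wild Pool.Agent.R72.Lci Pool.Agent.R72.Res Pool.Agent.R72.Res.B
  Pool.Agent.R72.Res.Tor Pool.Agent.R72.Res.P Polynomial Submodule

namespace Blow

variable {k L : Type} [Field k] [Field L] [Algebra k L] {n : ℕ} {x : Fin n → L} {y : L}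

lemma mem_ms (hx : ∀ j, x j ≠ 0) (P : AddSubmonoid (Fin n → ℤ)) {M : Set L}
    (h : ∀ m ∈ M, ∃ c ∈ P, m = mn x c) (hy : y ∈ Algebra.adjoin k M) : y ∈ ms k x P := by
  induction hy using Algebra.adjoin_induction with
  | mem m hm => obtain ⟨c, hc, rfl⟩ := h m hm; exact mn_mem_ms hc
  | algebraMap c =>
    rw [Algebra.algebraMap_eq_smul_one, ← mn_zero x]; exact smul_mem _ c (mn_mem_ms P.zero_mem)
  | add a b _ _ ha hb => exact add_mem ha hb
  | mul a b _ _ ha hb => exact ms_mul_le hx (fun _ a _ b => P.add_mem a b) (mul_mem_mul ha hb)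

lemma ms_inter (hx : AlgebraicIndependent k x) {T T' : Set (Fin n → ℤ)} (h : y ∈ ms k x T)
    (h' : y ∈ ms k x T') : y ∈ ms k x (T ∩ T') := by
  obtain ⟨l, hl, e⟩ := (Finsupp.mem_span_image_iff_linearCombination k).1 h
  obtain ⟨l', hl', e'⟩ := (Finsupp.mem_span_image_iff_linearCombination k).1 h'
  obtain rfl : l = l' := li_mn hx (e.trans e'.symm)
  exact (Finsupp.mem_span_image_iff_linearCombination k).2 ⟨l, Set.subset_inter hl hl', e⟩

/-- A monomial that is integral over the algebra of a monoid lies in its saturation. -/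
lemma sat_of_int (hx : AlgebraicIndependent k x) (P : AddSubmonoid (Fin n → ℤ)) {M : Set L}
    (h : ∀ m ∈ M, ∃ c ∈ P, m = mn x c) {g : Fin n → ℤ}
    (hg : IsIntegral (Algebra.adjoin k M) (mn x g)) : ∃ N : ℕ, 0 < N ∧ N • g ∈ P := by
  obtain ⟨p, hm, h0⟩ := hg
  rw [← aeval_def, hm.as_sum, map_add, map_pow, aeval_X, ← mn_nsmul, add_eq_zero_iff_eq_neg] at h0
  have h1 : mn x (p.natDegree • g) ∈ ms k x {c | ∃ i < p.natDegree, c - i • g ∈ P} := by
    rw [h0, map_sum]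
    refine neg_mem (sum_mem fun i hi => ?_)
    rw [map_mul, map_pow, aeval_X, aeval_C, ← mn_nsmul]
    refine ms_mul_le hx.ne_zero ?_ (mul_mem_mul (mem_ms hx.ne_zero P h (p.coeff i).2)
      (mn_mem_ms (S := {i • g}) rfl))
    rintro c hc _ rfl
    exact ⟨i, Finset.mem_range.1 hi, by rwa [add_sub_cancel_right]⟩
  obtain ⟨i, hi, h2⟩ := not_not.1 (mt (li_mn hx).notMem_span_image (not_not.2 h1))
  exact ⟨_, Nat.sub_pos_of_lt hi, by rwa [sub_nsmul _ hi.le, ← sub_eq_add_neg]⟩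

end Blow

variable {k L : Type} [Field k] [Field L] [Algebra k L]

theorem sat [PerfectField k] (h1 : MonnStmt k L) (h2 : KitF k L) : SatStmt k L := by
  intro n K O O' D' x T hO hO' hd hP c hc
  have x0 := hO.fr.ne
  let Q := mn x '' ({c | mn x c ∈ O} ∪ T)
  have e : O ⊔ Algebra.adjoin k (mn x '' T) = O ⊔ Algebra.adjoin k Q := le_antisymm
    (sup_le_sup_left (Algebra.adjoin_mono (Set.image_mono Set.subset_union_right)) O)
    (sup_le le_sup_left (Algebra.adjoin_le (by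
      rintro _ ⟨c, a | a, rfl⟩
      exacts [(le_sup_left : O ≤ _) a,
        (le_sup_right : _ ≤ O ⊔ _) (Algebra.subset_adjoin ⟨c, a, rfl⟩)])))
  rw [e] at hP
  obtain ⟨hi, h3, h4⟩ := Blow.core h1 h2 hO hO' (fun j => ⟨hO.mem j, x0 j⟩)
    (fun j => ⟨Pi.single j 1, by rw [mn_single, zpow_one]⟩) le_sup_left hd (Q := Q)
    (fun _ ⟨c, _, a⟩ => ⟨c, a.symm⟩) (fun c a => ⟨c, Or.inl a, rfl⟩) hP
  have hB : icl K (Algebra.adjoin k Q) ≤ O' := (icl_mono le_sup_right).trans hP.le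
  have hm : ∀ c, mn x c ∈ O → mn x c ∈ icl K (Algebra.adjoin k Q) := fun c a =>
    ⟨mn_mem_field hO.mem c, isIntegral_of_mem (Algebra.subset_adjoin ⟨c, Or.inl a, rfl⟩)⟩
  have hs : ∀ g, mn x g ∈ icl K (Algebra.adjoin k Q) →
      ∃ N : ℕ, 0 < N ∧ N • g ∈ AddSubmonoid.closure ({c | mn x c ∈ O} ∪ T) := fun g a =>
    Blow.sat_of_int hi _ (M := Q) (fun _ ⟨c, a, b⟩ => ⟨c, AddSubmonoid.subset_closure a, b.symm⟩) a.2
  have := h1 n K _ x hi hO.mem fun y => mem_icl_of_isIntegral (O := Algebra.adjoin k Q)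
  generalize icl K (Algebra.adjoin k Q) = B at *
  let P : AddSubmonoid (Fin n → ℤ) :=
    { carrier := {c | mn x c ∈ B}
      add_mem' := fun a b => by rw [Set.mem_ofPred_eq, mn_add x0]; exact mul_mem a b
      zero_mem' := by rw [Set.mem_ofPred_eq, mn_zero]; exact one_mem _ }
  have hA : ∀ y ∈ mons B x, y ∈ ms k x P := fun y =>
    Blow.mem_ms x0 P fun _ ⟨a, c, b⟩ => ⟨c, (b ▸ a :), b⟩
  have c0 := mn_ne_zero x0 c
  have h5 := Lab.flat_inf (sf_of_par hO'.fg hO'.pt (le_sup_right.trans h3.le)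
    (fun _ => Blow.gn_mem) h4) (X := {1}) (Y := {mn x (-c)}) (x := 1) (by
      rintro _ (rfl | rfl)
      · exact ⟨1, one_mem _, one_ne_zero, by simp⟩
      · obtain ⟨e, a, b⟩ := (h2 n K O x hO).2 c
        refine ⟨_, Blow.mem_mons (hm _ b), mn_ne_zero x0 _, ?_⟩
        rw [← mn_add x0, add_neg_cancel_comm]
        exact Blow.mem_mons (hm _ a)) (subset_span rfl)
    (mem_span_one.2 ⟨_, hc, by rw [mn_neg, inv_mul_cancel₀ c0]⟩)
  have h6 : (1 : L) ∈ span O' (mn x '' (P ∩ {f | f + c ∈ P})) := by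
    refine span_le_span le_rfl ?_ h5
    rintro y ⟨a, b⟩
    obtain ⟨u, hu, e1⟩ := mem_span_one.1 a
    obtain ⟨w, hw, e2⟩ := mem_span_one.1 b
    refine span_le_restrictScalars k O' _ (Blow.ms_inter hi (hA y ?_) ?_)
    · rwa [e1, one_mul]
    · rw [e2]
      refine ms_mul_le x0 ?_ (mul_mem_mul (mn_mem_ms (S := {-c}) rfl) (hA w hw))
      rintro _ rfl f hf
      rwa [Set.mem_ofPred_eq, neg_add_cancel_comm]
  by_contra H
  refine not_un_of_mem_span h3.lcl ?_ h6 (Un.one _)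
  rintro _ ⟨f, ⟨a, b⟩, rfl⟩
  refine ⟨hB a, fun u => H ?_⟩
  obtain ⟨N, hN, a'⟩ := hs f a
  obtain ⟨M, hM, b'⟩ := hs _ b
  refine ⟨N * M, N • M • (f + c), M • N • f, mul_pos hN hM, nsmul_mem b' N, nsmul_mem a' M,
    by rw [mn_nsmul, mn_nsmul]; exact (u.pow N).pow M, ?_⟩
  rw [smul_smul, smul_smul, smul_add, mul_comm M, add_comm]

end Pool.Agent.MP_19ffc6_ag.Perf
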