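import Pool.Agent.MP_19ffc6_ag.perf.SpecE

/-! PROJECT PERF, row ZDIV: divisibility in a unimodular chart. -/

namespace Pool.Agent.MP_19ffc6_ag.Perf

open Pool.Agent.R72.Wild Pool.Agent.R72.Lci Pool.Agent.R72.Res Pool.Agent.R72.Res.B
  Pool.Agent.R72.Res.Tor Pool.Agent.R72.Res.P

variable {k L : Type} [Field k] [Field L] [Algebra k L]

namespace Zdiv

variable {n : ℕ} {N : IntermediateField k L} {D O : Subalgebra k L} {σ : Type} [Fintype σ]
  {y : σ → L}

theorem kit (hA : Aff n N D O) (hy : AlgebraicIndependent k y)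
    (hsf : SF (Algebra.adjoin k (Set.range y)) O) :
    (∀ i, ∀ a ∈ O, ∀ b ∈ O, a * b / y i ∈ O → a / y i ∈ O ∨ b / y i ∈ O) ∧
      (∀ x ∈ N, IsIntegral O x → x ∈ O) ∧ ∀ i j, j ≠ i → ¬ Un O (y i) → y j / y i ∉ O := by
  classical
  obtain ⟨s, t, hc, ht, hg⟩ := par n N D O σ y hA hy hsf
  have hyO : ∀ i, y i ∈ O := fun i => hsf.le (Algebra.subset_adjoin ⟨i, rfl⟩)
  let v : {i // ¬ Un O (y i)} ⊕ Fin s → L := Sum.elim (fun i => y i.1) t
  have hcard : Fintype.card ({i // ¬ Un O (y i)} ⊕ Fin s) = n := by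
    rw [Fintype.card_sum, Fintype.card_fin, ← hc, Nat.card_eq_fintype_card]
  have hv : ∀ i, v i ∈ O ∧ ¬ Un O (v i) := by
    rintro (i | j)
    exacts [⟨hyO _, i.2⟩, ht j]
  have hgv : ∀ x ∈ O, ¬ Un O x → x ∈ Submodule.span O (Set.range v) := fun x hx hu => by
    refine Submodule.span_mono ?_ (hg x hx hu)
    rintro _ (⟨i, hi, rfl⟩ | ⟨j, rfl⟩)
    exacts [⟨.inl ⟨i, hi⟩, rfl⟩, ⟨.inr j, rfl⟩]
  obtain ⟨h1, h2⟩ := hA.of_gen hcard.le hv hgv
  have := hA.noeth
  refine ⟨fun i a ha b hb h => ?_, fun x hx hi => ?_, fun i j hij hi h => ?_⟩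
  · by_cases hu : Un O (y i)
    · exact Or.inl (by rw [div_eq_mul_inv]; exact mul_mem ha hu.2.2)
    · exact prime_par hA.pt.lcl h1 h2 (fun i => (hv i).2) (fun r hr =>
        (hA.rt r hr).imp fun c hc => hgv _ (sub_mem hr (O.algebraMap_mem c)) hc)
        (.inl ⟨i, hu⟩) a ha b hb h
  · let e := (Fintype.equivFinOfCardEq hcard).symm
    have hP : B.Par n ∅ O (r := 0) (s := n) Fin.elim0 (v ∘ e) :=
      ⟨zero_add n, fun i => i.elim0, fun j => hv _, fun x hx hu => by
        refine Submodule.span_mono ?_ (hgv x hx hu)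
        rw [e.surjective.range_comp]
        exact Set.subset_union_right, by simp, fun i => i.elim0, by simp⟩
    exact hP.normal hA hx hi
  · have h0 : y i ≠ 0 := hy.ne_zero i
    have e : y j = y i * (y j / y i) := (mul_div_cancel₀ _ h0).symm
    by_cases hj : Un O (y j)
    · exact hi (Un.of_mul (hyO i) h (e ▸ hj))
    · let w := Function.update v (.inl ⟨j, hj⟩) (y i)
      have hne : (Sum.inl ⟨i, hi⟩ : {i // ¬ Un O (y i)} ⊕ Fin s) ≠ .inl ⟨j, hj⟩ := by
        simpa using hij.symm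
      have hwi : w (.inl ⟨i, hi⟩) = y i := Function.update_of_ne hne _ _
      have hw : ∀ l, w l ∈ O ∧ ¬ Un O (w l) := fun l => by
        by_cases el : l = .inl ⟨j, hj⟩
        · rw [el, show w _ = y i from Function.update_self _ _ _]
          exact ⟨hyO i, hi⟩
        · rw [show w l = v l from Function.update_of_ne el _ _]
          exact hv l
      obtain ⟨h3, -⟩ := hA.of_gen hcard.le hw fun x hx hu => by
        refine Submodule.span_le.2 ?_ (hgv x hx hu)
        rintro _ ⟨l, rfl⟩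
        by_cases el : l = .inl ⟨j, hj⟩
        · rw [el, show v (.inl ⟨j, hj⟩) = (⟨_, h⟩ : O) • w (.inl ⟨i, hi⟩) by
            rw [hwi]; exact e.trans (mul_comm _ _)]
          exact Submodule.smul_mem _ _ (Submodule.subset_span ⟨_, rfl⟩)
        · exact Submodule.subset_span ⟨l, Function.update_of_ne el _ _⟩
      exact hne (h3.injective (hwi.trans (Function.update_self _ _ v).symm))

theorem nonneg (hA : Aff n N D O) (hy : AlgebraicIndependent k y)
    (hsf : SF (Algebra.adjoin k (Set.range y)) O) {d : σ → ℤ} (hd : mn y d ∈ O) {i : σ}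
    (hi : ¬ Un O (y i)) : 0 ≤ d i := by
  classical
  obtain ⟨h1, -, h3⟩ := kit hA hy hsf
  have hyO : ∀ i, y i ∈ O := fun i => hsf.le (Algebra.subset_adjoin ⟨i, rfl⟩)
  have h0 : ∀ i, y i ≠ 0 := hy.ne_zero
  let P : Submonoid L :=
    { carrier := {a | a ∈ O ∧ a / y i ∉ O}
      one_mem' := ⟨one_mem _, fun h => hi ⟨hyO i, h0 i, by simpa using h⟩⟩
      mul_mem' := fun {a b} ha hb =>
        ⟨mul_mem ha.1 hb.1, fun h => (h1 i a ha.1 b hb.1 h).elim ha.2 hb.2⟩ }
  by_contra hn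
  let p : σ → ℤ := fun j => max (d j) 0
  have hp : mn y p ∈ P := prod_mem fun j _ => by
    by_cases e : j = i
    · rw [show p j = 0 by simp only [p, e]; omega, zpow_zero]
      exact one_mem _
    · obtain ⟨m, hm⟩ := Int.eq_ofNat_of_zero_le (show 0 ≤ p j from le_max_right _ _)
      rw [hm, zpow_natCast]
      exact pow_mem (show y j ∈ P from ⟨hyO j, h3 i j e hi⟩) m
  refine hp.2 ?_
  have e : mn y p / y i = mn y d * mn y (p - d - Pi.single i 1) := by
    rw [← mn_add h0, show d + (p - d - Pi.single i 1) = p - Pi.single i 1 by abel, mn_sub h0,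
      mn_single, zpow_one]
  rw [e]
  refine mul_mem hd (mn_mem (fun j => ⟨hyO j, h0 j⟩) fun j _ => ?_)
  by_cases e : j = i
  · subst e
    simp only [p, Pi.sub_apply, Pi.single_eq_same]
    omega
  · simp only [p, Pi.sub_apply, Pi.single_eq_of_ne e]
    omega

theorem val_un {V : Subalgebra k L} (hV : Val V) {f : L} {m : ℕ} (hm : 0 < m)
    (h : Un V (f ^ m)) : Un V f := by
  obtain ⟨m, rfl⟩ := Nat.exists_eq_succ_of_ne_zero hm.ne'
  rcases hV f with hf | hf
  · rw [pow_succ'] at h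
    exact Un.of_mul hf (pow_mem hf m) h
  · have h' := h.inv
    rw [← inv_pow, pow_succ'] at h'
    simpa using (Un.of_mul hf (pow_mem hf m) h').inv

theorem root (hA : Aff n N D O) (hy : AlgebraicIndependent k y)
    (hsf : SF (Algebra.adjoin k (Set.range y)) O) {f : L} (hf : f ∈ N) {m : ℕ} (hm : 0 < m)
    (h : LMon O y (f ^ m)) : LMon O y f := by
  obtain ⟨h1, h2, -⟩ := kit hA hy hsf
  have hyO : ∀ i, y i ∈ O := fun i => hsf.le (Algebra.subset_adjoin ⟨i, rfl⟩)
  have h0 : ∀ i, y i ≠ 0 := hy.ne_zero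
  have hx : ∀ w ∈ Submonoid.closure (Set.range y), w ∈ O := fun w hw =>
    (Submonoid.closure_le (S := O.toSubmonoid)).2 (by rintro _ ⟨i, rfl⟩; exact hyO i) hw
  have hπ : ∏ i, y i ∈ Submonoid.closure (Set.range y) :=
    prod_mem fun i _ => Submonoid.subset_closure ⟨i, rfl⟩
  have key := fun w => lmon_of_mul (w := w) h0 hx h1
  have H' : ∀ V, Val V → O ≤ V → Un V (∏ i, y i) → Un V f := fun V hV hle hu => by
    classical
    obtain ⟨d, hd⟩ := h
    have h4 : Un V (mn y d) := mn_un fun i hi => (hi (by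
      rw [← Finset.mul_prod_erase _ _ (Finset.mem_univ i)] at hu
      exact Un.of_mul (hle (hyO i)) (prod_mem fun j _ => hle (hyO j)) hu)).elim
    have h5 := (hd.mono hle).mul h4
    rw [div_mul_cancel₀ _ h4.2.1] at h5
    exact val_un hV hm h5
  have hf0 : f ≠ 0 := fun e => h.ne_zero (by rw [e, zero_pow hm.ne'])
  obtain ⟨a, ha⟩ := exists_pow_mul hA.le_field h2 (hx _ hπ) hf
    fun V hV hle hu => (H' V hV hle hu).1
  obtain ⟨b, hb⟩ := exists_pow_mul hA.le_field h2 (hx _ hπ) (N.inv_mem hf)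
    fun V hV hle hu => (H' V hV hle hu).2.2
  have h3 := key _ (pow_mem hπ (a + b)) _ ha _ hb (by field_simp; ring)
  have h4 := key _ (pow_mem hπ a) _ (hx _ (pow_mem hπ a)) 1 (one_mem _) (mul_one _)
  have := LMon.mul h0 h4.inv h3
  rwa [inv_mul_cancel_left₀ h4.ne_zero] at this

end Zdiv

theorem zdiv : ZdivStmt k L := by
  intro n N D O ι _ c hA hc hU
  classical
  let _ : Fintype c.τ.R := Fintype.ofFinite _
  obtain ⟨-, y, hy, hTA, hmn, -⟩ := Tor.snc ι c O hc hU
  have hsf : SF (Algebra.adjoin k (Set.range y)) O := hTA ▸ hc.sf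
  have h0 : ∀ i, y i ≠ 0 := hy.ne_zero
  have lift : ∀ d : c.τ.R → ℤ, ∃ e, (fun ρ : c.τ.R => c.τ.ev e ρ) = d := fun d => by
    obtain ⟨e, he⟩ := hU fun ρ => if h : ρ ∈ c.τ.R then d ⟨ρ, h⟩ else 0
    exact ⟨e, funext fun ρ => by rw [he ρ ρ.2, dif_pos ρ.2]⟩
  refine ⟨fun f hf m hm ⟨e, he⟩ => ?_, fun f hf ⟨e, he⟩ => ?_, fun i => ?_⟩
  · obtain ⟨d, hd⟩ := Zdiv.root hA hy hsf hf hm ⟨_, hmn e ▸ he⟩
    obtain ⟨e', rfl⟩ := lift d
    exact ⟨e', (hmn e').symm ▸ hd⟩
  · rw [hmn] at he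
    set d : c.τ.R → ℤ := fun ρ => c.τ.ev e ρ
    have hd : mn y d ∈ O := by
      have := mul_mem hf he.2.2
      rwa [inv_div, mul_div_cancel₀ _ (LMon.ne_zero ⟨d, he⟩)] at this
    obtain ⟨e', he'⟩ := lift fun ρ => if Un O (y ρ) then 0 else d ρ
    refine ⟨e', fun ρ hρ => ?_, ?_⟩
    · have := congrFun he' ⟨ρ, hρ⟩
      simp only at this
      rw [this]
      split_ifs with h
      · exact le_rfl
      · exact Zdiv.nonneg hA hy hsf hd h
    · rw [hmn, he']
      have h1 : Un O (mn y (d - fun ρ => if Un O (y ρ) then 0 else d ρ)) :=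
        mn_un fun ρ h => by simp [h]
      have := he.mul h1
      rwa [mn_sub h0, div_mul_div_cancel₀ (mn_ne_zero h0 d)] at this
  · obtain ⟨g, hg, h⟩ := exists_sub hc.str (Pi.single i 1)
    have := N.div_mem (hA.le_field (hc.mem h)) (hA.le_field (hc.mem hg))
    rwa [← mn_sub hc.ne, add_sub_cancel_right, mn_single, zpow_one] at this

end Pool.Agent.MP_19ffc6_ag.Perf
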